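import Mathlib

/-!
LibSt16/Defs: systems, cubes modulo the group in normal form, the bar complex (MP_8b67e9_al, frozen S02212).
Page: PAGE_8b67e9_helper16.md (sections 0 and 1).
-/

set_option autoImplicit false

noncomputable section

namespace St16

/-- A system: a group `G` with subgroups `Gn n`, shifts `sh n`, acting on a preordered set `P` with
subsets `Pn n` and block sums `jn n a b` (`b` is shifted by `n`). -/
structure Sys (G P : Type) [Group G] [Preorder P] [MulAction G P] where
  Gn : ℕ → Subgroup G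
  Pn : ℕ → Set P
  sh : ℕ → G →* G
  jn : ℕ → P → P → P
  smul_mono : ∀ (g : G) (a b : P), a ≤ b → g • a ≤ g • b
  Gn_mul : ∀ (n m : ℕ) (g h : G), g ∈ Gn n → h ∈ Gn m → g * sh n h ∈ Gn (n + m)
  sh_comm : ∀ (n : ℕ) (g h : G), g ∈ Gn n → g * sh n h = sh n h * g
  sh_sh : ∀ (n m : ℕ) (g : G), sh n (sh m g) = sh (n + m) g
  Pn_smul : ∀ (n : ℕ) (g : G) (a : P), g ∈ Gn n → a ∈ Pn n → g • a ∈ Pn n
  jn_mem : ∀ (n m : ℕ) (a b : P), a ∈ Pn n → b ∈ Pn m → jn n a b ∈ Pn (n + m)
  jn_mono : ∀ (n : ℕ) (a a' b b' : P), a ≤ a' → b ≤ b' → jn n a b ≤ jn n a' b'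
  jn_assoc : ∀ (n m : ℕ) (a b c : P), jn (n + m) (jn n a b) c = jn n a (jn m b c)
  jn_smul : ∀ (n m : ℕ) (g h : G) (a b : P), g ∈ Gn n → h ∈ Gn m → a ∈ Pn n → b ∈ Pn m →
    (g * sh n h) • jn n a b = jn n (g • a) (h • b)

variable {G P : Type} [Group G] [Preorder P] [MulAction G P]

/-- insertion of the bit `b` at place `k` -/
def ins (k : ℕ) (b : Bool) (s : ℕ → Bool) : ℕ → Bool :=
  fun i => if i < k then s i else if i = k then b else s (i - 1)

/-- the zero vertex -/
def z0 : ℕ → Bool := fun _ => false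

/-- Cubes of `Gn r x Pn r` modulo `Gn r`, normal form `y 0 = 1`: rank `r`, dimension `q`, group part `y`,
lattice part `l`; both depend only on the first `q` bits. -/
@[ext] structure Cb (S : Sys G P) where
  r : ℕ
  q : ℕ
  y : (ℕ → Bool) → G
  l : (ℕ → Bool) → P
  r_pos : 0 < r
  y_dep : ∀ s s' : ℕ → Bool, (∀ i, i < q → s i = s' i) → y s = y s'
  l_dep : ∀ s s' : ℕ → Bool, (∀ i, i < q → s i = s' i) → l s = l s'
  y_mem : ∀ s, y s ∈ S.Gn r
  l_mem : ∀ s, l s ∈ S.Pn r
  y_zero : y z0 = 1
  l_mono : ∀ s s' : ℕ → Bool, s ≤ s' → l s ≤ l s'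

namespace Cb

variable {S : Sys G P}

/-- block sum of cubes -/
def mul (c c' : Cb S) : Cb S where
  r := c.r + c'.r
  q := c.q + c'.q
  y := fun s => c.y s * S.sh c.r (c'.y (fun i => s (c.q + i)))
  l := fun s => S.jn c.r (c.l s) (c'.l (fun i => s (c.q + i)))
  r_pos := Nat.add_pos_left c.r_pos _
  y_dep := by
    intro s s' h
    have h1 : c.y s = c.y s' := c.y_dep s s' fun i hi => h i (by omega)
    have h2 : c'.y (fun i => s (c.q + i)) = c'.y (fun i => s' (c.q + i)) :=
      c'.y_dep _ _ fun i hi => h _ (by omega)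
    rw [h1, h2]
  l_dep := by
    intro s s' h
    have h1 : c.l s = c.l s' := c.l_dep s s' fun i hi => h i (by omega)
    have h2 : c'.l (fun i => s (c.q + i)) = c'.l (fun i => s' (c.q + i)) :=
      c'.l_dep _ _ fun i hi => h _ (by omega)
    rw [h1, h2]
  y_mem := fun s => S.Gn_mul _ _ _ _ (c.y_mem _) (c'.y_mem _)
  l_mem := fun s => S.jn_mem _ _ _ _ (c.l_mem _) (c'.l_mem _)
  y_zero := by
    have h : c'.y (fun i => z0 (c.q + i)) = 1 := c'.y_zero
    rw [c.y_zero, h, map_one, one_mul]
  l_mono := fun s s' h => S.jn_mono _ _ _ _ _ (c.l_mono _ _ h) (c'.l_mono _ _ fun i => h _)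

instance : Semigroup (Cb S) where
  mul := mul
  mul_assoc := by
    intro a b c
    have hy : ∀ s : ℕ → Bool, (fun i => s (a.q + b.q + i)) = (fun i => s (a.q + (b.q + i))) := by
      intro s; funext i; rw [Nat.add_assoc]
    refine Cb.ext (Nat.add_assoc _ _ _) (Nat.add_assoc _ _ _) ?_ ?_
    · funext s
      show (a.y s * S.sh a.r (b.y (fun i => s (a.q + i)))) *
          S.sh (a.r + b.r) (c.y (fun i => s (a.q + b.q + i))) =
        a.y s * S.sh a.r (b.y (fun i => s (a.q + i)) *
          S.sh b.r (c.y (fun i => s (a.q + (b.q + i)))))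
      rw [hy s, map_mul, S.sh_sh, mul_assoc]
    · funext s
      show S.jn (a.r + b.r) (S.jn a.r (a.l s) (b.l (fun i => s (a.q + i))))
          (c.l (fun i => s (a.q + b.q + i))) =
        S.jn a.r (a.l s) (S.jn b.r (b.l (fun i => s (a.q + i)))
          (c.l (fun i => s (a.q + (b.q + i)))))
      rw [hy s, S.jn_assoc]

theorem mul_r (c c' : Cb S) : (c * c').r = c.r + c'.r := rfl
theorem mul_q (c c' : Cb S) : (c * c').q = c.q + c'.q := rfl
theorem mul_y (c c' : Cb S) (s : ℕ → Bool) :
    (c * c').y s = c.y s * S.sh c.r (c'.y (fun i => s (c.q + i))) := rfl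
theorem mul_l (c c' : Cb S) (s : ℕ → Bool) :
    (c * c').l s = S.jn c.r (c.l s) (c'.l (fun i => s (c.q + i))) := rfl

/-- the group element at the first vertex of the face (`1` for `b = false`) -/
def fv (c : Cb S) (b : Bool) (k : ℕ) : G := c.y (ins k b z0)

/-- the face `bit k = b`, translated back to normal form; junk for `k >= q` -/
def face (c : Cb S) (b : Bool) (k : ℕ) : Cb S :=
  if h : k < c.q then
    { r := c.r
      q := c.q - 1
      y := fun s => (c.fv b k)⁻¹ * c.y (ins k b s)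
      l := fun s => (c.fv b k)⁻¹ • c.l (ins k b s)
      r_pos := c.r_pos
      y_dep := by
        intro s s' hs
        have : c.y (ins k b s) = c.y (ins k b s') := by
          apply c.y_dep
          intro i hi
          unfold ins
          by_cases h1 : i < k
          · simp only [h1, if_true]; exact hs i (by omega)
          · by_cases h2 : i = k
            · simp [h2]
            · simp only [h1, h2, if_false]; exact hs _ (by omega)
        rw [this]
      l_dep := by
        intro s s' hs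
        have : c.l (ins k b s) = c.l (ins k b s') := by
          apply c.l_dep
          intro i hi
          unfold ins
          by_cases h1 : i < k
          · simp only [h1, if_true]; exact hs i (by omega)
          · by_cases h2 : i = k
            · simp [h2]
            · simp only [h1, h2, if_false]; exact hs _ (by omega)
        rw [this]
      y_mem := fun s => mul_mem (inv_mem (c.y_mem _)) (c.y_mem _)
      l_mem := fun s => S.Pn_smul _ _ _ (inv_mem (c.y_mem _)) (c.l_mem _)
      y_zero := inv_mul_cancel _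
      l_mono := by
        intro s s' hs
        refine S.smul_mono _ _ _ (c.l_mono _ _ ?_)
        intro i
        unfold ins
        by_cases h1 : i < k
        · simp only [h1, if_true]; exact hs i
        · by_cases h2 : i = k
          · simp [h2]
          · simp only [h1, h2, if_false]; exact hs _ }
  else c

/-- degenerate: independent of one bit -/
def Dg (c : Cb S) : Prop :=
  ∃ k, k < c.q ∧ ∀ s s' : ℕ → Bool, (∀ i, i ≠ k → s i = s' i) → c.y s = c.y s' ∧ c.l s = c.l s'

end Cb

section chains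

variable (S : Sys G P)

/-- chains of cubes -/
abbrev Ch := Cb S →₀ ℚ

/-- the bar complex: chains of lists of cubes -/
abbrev BT := List (Cb S) →₀ ℚ

/-- degenerate chains -/
def DegC : Submodule ℚ (Ch S) := Finsupp.supported ℚ ℚ {c | c.Dg}

/-- degenerate chains of lists: one entry degenerate -/
def DegB : Submodule ℚ (BT S) := Finsupp.supported ℚ ℚ {l | ∃ c ∈ l, c.Dg}

/-- chains of rank `r`, dimension `q` -/
def ChN (r q : ℕ) : Submodule ℚ (Ch S) := Finsupp.supported ℚ ℚ {c | c.r = r ∧ c.q = q}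

/-- the part of total rank `n` and degree `N` (sum of the dimensions + length - 1) -/
def BTN (n N : ℕ) : Submodule ℚ (BT S) :=
  Finsupp.supported ℚ ℚ {l | l ≠ [] ∧ (l.map Cb.r).sum = n ∧ (l.map Cb.q).sum + l.length = N + 1}

end chains

variable {S : Sys G P}

/-- boundary of one cube -/
def bd1 (c : Cb S) : Ch S :=
  ∑ k ∈ Finset.range c.q,
    (-1 : ℚ) ^ k • (Finsupp.single (c.face true k) 1 - Finsupp.single (c.face false k) 1)

/-- boundary of chains of cubes -/
def bd : Ch S →ₗ[ℚ] Ch S := Finsupp.linearCombination ℚ bd1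

/-- boundary of one list: coordinates of `c₁ | c₂ | ... | c_p` in this order, a separator is a merge -/
def BD1 : List (Cb S) → BT S
  | [] => 0
  | [c] => Finsupp.mapDomain (fun x => [x]) (bd1 c)
  | c :: c' :: l =>
      Finsupp.mapDomain (fun x => x :: c' :: l) (bd1 c) +
        (-1 : ℚ) ^ c.q • Finsupp.single ((c * c') :: l) 1 +
        (-1 : ℚ) ^ (c.q + 1) • Finsupp.mapDomain (fun x => c :: x) (BD1 (c' :: l))

/-- boundary of the bar complex -/
def BD : BT S →ₗ[ℚ] BT S := Finsupp.linearCombination ℚ BD1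

/-- a morphism of systems, ranks multiplied by `d` -/
structure SHom {G' P' : Type} [Group G'] [Preorder P'] [MulAction G' P']
    (S : Sys G P) (S' : Sys G' P') (d : ℕ) where
  fG : G → G'
  fP : ℕ → P → P'
  d_pos : 0 < d
  G_mem : ∀ n g, g ∈ S.Gn n → fG g ∈ S'.Gn (d * n)
  G_one : fG 1 = 1
  G_mul : ∀ n g h, g ∈ S.Gn n → h ∈ S.Gn n → fG (g * h) = fG g * fG h
  G_sh : ∀ n m g h, g ∈ S.Gn n → h ∈ S.Gn m → fG (g * S.sh n h) = fG g * S'.sh (d * n) (fG h)
  P_mem : ∀ n a, a ∈ S.Pn n → fP n a ∈ S'.Pn (d * n)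
  P_mono : ∀ n a b, a ∈ S.Pn n → b ∈ S.Pn n → a ≤ b → fP n a ≤ fP n b
  P_smul : ∀ n g a, g ∈ S.Gn n → a ∈ S.Pn n → fP n (g • a) = fG g • fP n a
  P_jn : ∀ n m a b, a ∈ S.Pn n → b ∈ S.Pn m → fP (n + m) (S.jn n a b) = S'.jn (d * n) (fP n a) (fP m b)

namespace SHom

variable {G' P' : Type} [Group G'] [Preorder P'] [MulAction G' P'] {S' : Sys G' P'} {d : ℕ}

/-- the map on cubes -/
def cb (f : SHom S S' d) (c : Cb S) : Cb S' where
  r := d * c.r
  q := c.q
  y := fun s => f.fG (c.y s)
  l := fun s => f.fP c.r (c.l s)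
  r_pos := Nat.mul_pos f.d_pos c.r_pos
  y_dep := fun s s' h => by rw [c.y_dep s s' h]
  l_dep := fun s s' h => by rw [c.l_dep s s' h]
  y_mem := fun s => f.G_mem _ _ (c.y_mem s)
  l_mem := fun s => f.P_mem _ _ (c.l_mem s)
  y_zero := by rw [c.y_zero, f.G_one]
  l_mono := fun s s' h => f.P_mono _ _ _ (c.l_mem _) (c.l_mem _) (c.l_mono _ _ h)

/-- the map on chains -/
def ch (f : SHom S S' d) : Ch S →ₗ[ℚ] Ch S' := Finsupp.lmapDomain ℚ ℚ f.cb

/-- the map on the bar complex -/
def bt (f : SHom S S' d) : BT S →ₗ[ℚ] BT S' := Finsupp.lmapDomain ℚ ℚ (List.map f.cb)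

end SHom

/-- the kernel of `f` on cubes of rank `r` is exact (modulo degenerate chains) -/
def KerExact {G' P' : Type} [Group G'] [Preorder P'] [MulAction G' P'] {S' : Sys G' P'}
    (f : SHom S S' 1) (r : ℕ) : Prop :=
  ∀ (q : ℕ) (z : Ch S), z ∈ ChN S r q → bd z ∈ DegC S → f.ch z ∈ DegC S' →
    ∃ w ∈ ChN S r (q + 1), f.ch w ∈ DegC S' ∧ z - bd w ∈ DegC S

/-- every cube lifts -/
def CbOnto {G' P' : Type} [Group G'] [Preorder P'] [MulAction G' P'] {S' : Sys G' P'}
    (f : SHom S S' 1) : Prop := ∀ c' : Cb S', ∃ c : Cb S, f.cb c = c'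

end St16
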