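import Pool.Agent.LibSt16.Defs

/-!
LibSt16/C: cubical identities, degenerate cubes, bd bd = 0, BD BD = 0, gradings, functoriality (helper98).
-/

set_option autoImplicit false

noncomputable section

namespace St16

theorem insC_lt (k : ℕ) (b : Bool) (s : ℕ → Bool) (i : ℕ) (h : i < k) : ins k b s i = s i := by
  simp [ins, h]

theorem insC_eq (k : ℕ) (b : Bool) (s : ℕ → Bool) : ins k b s k = b := by
  simp [ins]

theorem insC_gt (k : ℕ) (b : Bool) (s : ℕ → Bool) (i : ℕ) (h : k < i) : ins k b s i = s (i - 1) := by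
  have h1 : ¬ i < k := by omega
  have h2 : ¬ i = k := by omega
  simp [ins, h1, h2]

/-- The commutation of two insertions. -/
theorem insC_ins (j k : ℕ) (a b : Bool) (s : ℕ → Bool) (h : j ≤ k) :
    ins (k + 1) b (ins j a s) = ins j a (ins k b s) := by
  funext i
  rcases lt_trichotomy i j with hi | hi | hi
  · rw [insC_lt _ _ _ i (by omega), insC_lt _ _ _ i hi, insC_lt _ _ _ i hi, insC_lt _ _ _ i (by omega)]
  · subst hi
    rw [insC_lt _ _ _ i (by omega), insC_eq, insC_eq]
  · rw [insC_gt _ _ (ins k b s) i hi]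
    rcases lt_trichotomy i (k + 1) with hk | hk | hk
    · rw [insC_lt _ _ _ i hk, insC_gt _ _ _ i hi, insC_lt _ _ _ (i - 1) (by omega)]
    · subst hk
      rw [insC_eq]
      have : k + 1 - 1 = k := by omega
      rw [this, insC_eq]
    · rw [insC_gt _ _ _ i hk, insC_gt _ _ _ (i - 1) (by omega), insC_gt _ _ _ (i - 1) (by omega)]

theorem ins_false_z0 (k : ℕ) : ins k false z0 = z0 := by
  funext i
  simp [ins, z0]

theorem z0_shift (q : ℕ) : (fun i => z0 (q + i)) = z0 := rfl

theorem insC_mono (k : ℕ) (b : Bool) {s s' : ℕ → Bool} (h : s ≤ s') : ins k b s ≤ ins k b s' := by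
  intro i
  rcases lt_trichotomy i k with hi | hi | hi
  · rw [insC_lt _ _ _ i hi, insC_lt _ _ _ i hi]; exact h i
  · subst hi
    rw [insC_eq, insC_eq]
  · rw [insC_gt _ _ _ i hi, insC_gt _ _ _ i hi]; exact h _

/-- Shifting after an insertion in the second block. -/
theorem shift_ins_ge (q k : ℕ) (b : Bool) (s : ℕ → Bool) :
    (fun i => ins (q + k) b s (q + i)) = ins k b (fun i => s (q + i)) := by
  funext i
  rcases lt_trichotomy i k with hi | hi | hi
  · rw [insC_lt _ _ _ _ (by omega), insC_lt _ _ _ _ hi]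
  · subst hi
    rw [insC_eq, insC_eq]
  · rw [insC_gt _ _ _ _ (by omega), insC_gt _ _ _ _ hi]
    congr 1
    omega

/-- Shifting after an insertion in the first block. -/
theorem shift_ins_lt (q k : ℕ) (b : Bool) (s : ℕ → Bool) (h : k < q) :
    (fun i => ins k b s (q + i)) = (fun i => s (q - 1 + i)) := by
  funext i
  rw [insC_gt _ _ _ _ (by omega)]
  congr 1
  omega

/-- Removing the coordinate k. -/
def rem (k : ℕ) (s : ℕ → Bool) : ℕ → Bool := fun i => if i < k then s i else s (i + 1)

theorem ins_rem (k : ℕ) (s : ℕ → Bool) : ins k (s k) (rem k s) = s := by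
  funext i
  rcases lt_trichotomy i k with hi | hi | hi
  · rw [insC_lt _ _ _ _ hi]
    simp [rem, hi]
  · subst hi
    rw [insC_eq]
  · rw [insC_gt _ _ _ _ hi]
    have h1 : ¬ i - 1 < k := by omega
    simp only [rem, h1, if_false]
    congr 1
    omega

theorem rem_congr (k : ℕ) {s s' : ℕ → Bool} (h : ∀ i, i ≠ k → s i = s' i) : rem k s = rem k s' := by
  funext i
  unfold rem
  by_cases hi : i < k
  · simp only [hi, if_true]
    exact h i (by omega)
  · simp only [hi, if_false]
    exact h _ (by omega)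

variable {G P : Type} [Group G] [Preorder P] [MulAction G P]

namespace Cb

variable {S : Sys G P}

/-- Equality of cubes. -/
theorem ext' {c c' : Cb S} (h1 : c.r = c'.r) (h2 : c.q = c'.q) (h3 : ∀ s, c.y s = c'.y s)
    (h4 : ∀ s, c.l s = c'.l s) : c = c' :=
  Cb.ext h1 h2 (funext h3) (funext h4)

theorem fv_false (c : Cb S) (k : ℕ) : c.fv false k = 1 := by
  unfold fv
  rw [ins_false_z0, c.y_zero]

theorem fv_mem (c : Cb S) (b : Bool) (k : ℕ) : c.fv b k ∈ S.Gn c.r := c.y_mem _

theorem face_r (c : Cb S) (b : Bool) (k : ℕ) : (c.face b k).r = c.r := by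
  unfold face
  split <;> rfl

theorem face_q (c : Cb S) (b : Bool) (k : ℕ) (hk : k < c.q) : (c.face b k).q = c.q - 1 := by
  unfold face
  rw [dif_pos hk]

theorem face_y (c : Cb S) (b : Bool) (k : ℕ) (hk : k < c.q) (s : ℕ → Bool) :
    (c.face b k).y s = (c.fv b k)⁻¹ * c.y (ins k b s) := by
  unfold face
  rw [dif_pos hk]

theorem face_l (c : Cb S) (b : Bool) (k : ℕ) (hk : k < c.q) (s : ℕ → Bool) :
    (c.face b k).l s = (c.fv b k)⁻¹ • c.l (ins k b s) := by
  unfold face
  rw [dif_pos hk]

theorem face_fv (c : Cb S) (b : Bool) (k : ℕ) (hk : k < c.q) (a : Bool) (j : ℕ) :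
    (c.face b k).fv a j = (c.fv b k)⁻¹ * c.y (ins k b (ins j a z0)) :=
  face_y c b k hk _

/-- The cubical identity. -/
theorem face_face (c : Cb S) (j k : ℕ) (a b : Bool) (hjk : j ≤ k) (hk : k + 1 < c.q) :
    (c.face b (k + 1)).face a j = (c.face a j).face b k := by
  have hj : j < c.q := by omega
  have q1 : (c.face b (k + 1)).q = c.q - 1 := face_q c b _ hk
  have q2 : (c.face a j).q = c.q - 1 := face_q c a _ hj
  have h1 : j < (c.face b (k + 1)).q := by omega
  have h2 : k < (c.face a j).q := by omega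
  have e1 := face_fv c b (k + 1) hk a j
  have e2 := face_fv c a j hj b k
  refine ext' ?_ ?_ (fun s => ?_) (fun s => ?_)
  · rw [face_r, face_r, face_r, face_r]
  · rw [face_q _ _ _ h1, face_q _ _ _ h2, q1, q2]
  · rw [face_y _ _ j h1, face_y _ _ k h2, face_y _ _ (k + 1) hk, face_y _ _ j hj, e1, e2,
      insC_ins j k a b z0 hjk, insC_ins j k a b s hjk]
    group
  · rw [face_l _ _ j h1, face_l _ _ k h2, face_l _ _ (k + 1) hk, face_l _ _ j hj, e1, e2,
      insC_ins j k a b z0 hjk, insC_ins j k a b s hjk, smul_smul, smul_smul]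
    congr 1
    group

/-- The product of the group elements along two faces. -/
theorem fv_fv (c : Cb S) (j k : ℕ) (a b : Bool) (hjk : j ≤ k) (hk : k + 1 < c.q) :
    c.fv b (k + 1) * (c.face b (k + 1)).fv a j = c.fv a j * (c.face a j).fv b k := by
  rw [face_fv c b (k + 1) hk a j, face_fv c a j (by omega) b k, insC_ins j k a b z0 hjk]
  group

/-- Degenerate cubes by insertions. -/
theorem Dg_iff (c : Cb S) : c.Dg ↔
    ∃ k, k < c.q ∧ ∀ s, c.y (ins k true s) = c.y (ins k false s) ∧ c.l (ins k true s) = c.l (ins k false s) := by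
  constructor
  · rintro ⟨k, hk, h⟩
    refine ⟨k, hk, fun s => h _ _ fun i hi => ?_⟩
    rcases lt_or_gt_of_ne hi with h1 | h1
    · rw [insC_lt _ _ _ _ h1, insC_lt _ _ _ _ h1]
    · rw [insC_gt _ _ _ _ h1, insC_gt _ _ _ _ h1]
  · rintro ⟨k, hk, h⟩
    refine ⟨k, hk, fun s s' hs => ?_⟩
    have e1 : ins k (s k) (rem k s) = s := ins_rem k s
    have e2 : ins k (s' k) (rem k s) = s' := by
      rw [rem_congr k hs]
      exact ins_rem k s'
    obtain ⟨h1, h2⟩ := h (rem k s)
    have key : ∀ b1 b2 : Bool, c.y (ins k b1 (rem k s)) = c.y (ins k b2 (rem k s)) ∧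
        c.l (ins k b1 (rem k s)) = c.l (ins k b2 (rem k s)) := by
      intro b1 b2
      cases b1 <;> cases b2
      · exact ⟨rfl, rfl⟩
      · exact ⟨h1.symm, h2.symm⟩
      · exact ⟨h1, h2⟩
      · exact ⟨rfl, rfl⟩
    have h3 := key (s k) (s' k)
    rw [e1, e2] at h3
    exact h3

theorem face_eq_of_indep (c : Cb S) (k : ℕ) (hk : k < c.q)
    (h : ∀ s, c.y (ins k true s) = c.y (ins k false s) ∧ c.l (ins k true s) = c.l (ins k false s)) :
    c.face true k = c.face false k := by
  have e : c.fv true k = c.fv false k := (h z0).1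
  refine ext' ?_ ?_ (fun s => ?_) (fun s => ?_)
  · rw [face_r, face_r]
  · rw [face_q _ _ _ hk, face_q _ _ _ hk]
  · rw [face_y _ _ _ hk, face_y _ _ _ hk, e, (h s).1]
  · rw [face_l _ _ _ hk, face_l _ _ _ hk, e, (h s).2]

theorem fv_of_indep (c : Cb S) (k : ℕ)
    (h : ∀ s, c.y (ins k true s) = c.y (ins k false s) ∧ c.l (ins k true s) = c.l (ins k false s)) :
    c.fv true k = 1 := by
  have e : c.fv true k = c.fv false k := (h z0).1
  rw [e, fv_false]

theorem Dg_face_of_indep (c : Cb S) (k j : ℕ) (b : Bool) (hk : k < c.q) (hj : j < c.q) (hjk : j ≠ k)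
    (h : ∀ s, c.y (ins k true s) = c.y (ins k false s) ∧ c.l (ins k true s) = c.l (ins k false s)) :
    (c.face b j).Dg := by
  rw [Dg_iff]
  rcases lt_or_gt_of_ne hjk with hlt | hgt
  · obtain ⟨k', rfl⟩ : ∃ k', k = k' + 1 := ⟨k - 1, by omega⟩
    refine ⟨k', by rw [face_q _ _ _ hj]; omega, fun s => ⟨?_, ?_⟩⟩
    · rw [face_y _ _ j hj, face_y _ _ j hj, ← insC_ins j k' b true s (by omega), ← insC_ins j k' b false s (by omega), (h _).1]
    · rw [face_l _ _ j hj, face_l _ _ j hj, ← insC_ins j k' b true s (by omega), ← insC_ins j k' b false s (by omega), (h _).2]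
  · obtain ⟨j', rfl⟩ : ∃ j', j = j' + 1 := ⟨j - 1, by omega⟩
    refine ⟨k, by rw [face_q _ _ _ hj]; omega, fun s => ⟨?_, ?_⟩⟩
    · rw [face_y _ _ _ hj, face_y _ _ _ hj, insC_ins k j' true b s (by omega), insC_ins k j' false b s (by omega), (h _).1]
    · rw [face_l _ _ _ hj, face_l _ _ _ hj, insC_ins k j' true b s (by omega), insC_ins k j' false b s (by omega), (h _).2]

/-- Faces of a product: first block. -/
theorem mul_face_lt (c c' : Cb S) (b : Bool) (k : ℕ) (hk : k < c.q) :
    (c * c').face b k = c.face b k * c' := by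
  have hk' : k < (c * c').q := by rw [mul_q]; omega
  have hh : (c * c').fv b k = c.fv b k := by
    unfold fv
    rw [mul_y, shift_ins_lt _ _ _ _ hk]
    have : (fun i => z0 (c.q - 1 + i)) = z0 := rfl
    rw [this, c'.y_zero, map_one, mul_one]
  refine ext' ?_ ?_ (fun s => ?_) (fun s => ?_)
  · rw [face_r, mul_r, mul_r, face_r]
  · rw [face_q _ _ _ hk', mul_q, mul_q, face_q _ _ _ hk]
    omega
  · rw [face_y _ _ _ hk', hh, mul_y, mul_y, face_y _ _ _ hk, shift_ins_lt _ _ _ _ hk, face_r, face_q _ _ _ hk, mul_assoc]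
  · rw [face_l _ _ _ hk', hh, mul_l, mul_l, face_l _ _ _ hk, shift_ins_lt _ _ _ _ hk, face_r, face_q _ _ _ hk]
    have := S.jn_smul c.r c'.r (c.fv b k)⁻¹ 1 (c.l (ins k b s)) (c'.l (fun i => s (c.q - 1 + i)))
      (inv_mem (c.fv_mem b k)) (one_mem _) (c.l_mem _) (c'.l_mem _)
    rw [map_one, mul_one, one_smul] at this
    exact this

/-- Faces of a product: second block. -/
theorem mul_face_ge (c c' : Cb S) (b : Bool) (k : ℕ) (hk : k < c'.q) :
    (c * c').face b (c.q + k) = c * c'.face b k := by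
  have hk' : c.q + k < (c * c').q := by rw [mul_q]; omega
  have hy : ∀ s, c.y (ins (c.q + k) b s) = c.y s :=
    fun s => c.y_dep _ _ fun i hi => insC_lt _ _ _ _ (by omega)
  have hl : ∀ s, c.l (ins (c.q + k) b s) = c.l s :=
    fun s => c.l_dep _ _ fun i hi => insC_lt _ _ _ _ (by omega)
  have hh : (c * c').fv b (c.q + k) = S.sh c.r (c'.fv b k) := by
    unfold fv
    rw [mul_y, hy, c.y_zero, one_mul, shift_ins_ge]
    rfl
  refine ext' ?_ ?_ (fun s => ?_) (fun s => ?_)
  · rw [face_r, mul_r, mul_r, face_r]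
  · rw [face_q _ _ _ hk', mul_q, mul_q, face_q _ _ _ hk]
    omega
  · rw [face_y _ _ _ hk', hh, mul_y, mul_y, hy, shift_ins_ge, face_y _ _ _ hk]
    rw [← map_inv, ← mul_assoc, ← S.sh_comm _ _ _ (c.y_mem s), mul_assoc, ← map_mul]
  · rw [face_l _ _ _ hk', hh, mul_l, mul_l, hl, shift_ins_ge, face_l _ _ _ hk]
    have := S.jn_smul c.r c'.r 1 (c'.fv b k)⁻¹ (c.l s) (c'.l (ins k b (fun i => s (c.q + i))))
      (one_mem _) (inv_mem (c'.fv_mem b k)) (c.l_mem _) (c'.l_mem _)
    rw [one_mul, one_smul, map_inv] at this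
    exact this

theorem fv_mul_lt (c c' : Cb S) (b : Bool) (k : ℕ) (hk : k < c.q) :
    (c * c').fv b k = c.fv b k := by
  unfold fv
  rw [mul_y, shift_ins_lt _ _ _ _ hk]
  have : (fun i => z0 (c.q - 1 + i)) = z0 := rfl
  rw [this, c'.y_zero, map_one, mul_one]

theorem fv_mul_ge (c c' : Cb S) (b : Bool) (k : ℕ) :
    (c * c').fv b (c.q + k) = S.sh c.r (c'.fv b k) := by
  have hy : ∀ s, c.y (ins (c.q + k) b s) = c.y s :=
    fun s => c.y_dep _ _ fun i hi => insC_lt _ _ _ _ (by omega)
  unfold fv
  rw [mul_y, hy, c.y_zero, one_mul, shift_ins_ge]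
  rfl

theorem Dg.mul_left {c : Cb S} (h : c.Dg) (c' : Cb S) : (c * c').Dg := by
  rw [Dg_iff] at h ⊢
  obtain ⟨k, hk, h⟩ := h
  refine ⟨k, by rw [mul_q]; omega, fun s => ⟨?_, ?_⟩⟩
  · rw [mul_y, mul_y, shift_ins_lt _ _ _ _ hk, shift_ins_lt _ _ _ _ hk, (h s).1]
  · rw [mul_l, mul_l, shift_ins_lt _ _ _ _ hk, shift_ins_lt _ _ _ _ hk, (h s).2]

theorem Dg.mul_right {c' : Cb S} (h : c'.Dg) (c : Cb S) : (c * c').Dg := by
  rw [Dg_iff] at h ⊢
  obtain ⟨k, hk, h⟩ := h
  have hy : ∀ b s, c.y (ins (c.q + k) b s) = c.y s :=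
    fun b s => c.y_dep _ _ fun i hi => insC_lt _ _ _ _ (by omega)
  have hl : ∀ b s, c.l (ins (c.q + k) b s) = c.l s :=
    fun b s => c.l_dep _ _ fun i hi => insC_lt _ _ _ _ (by omega)
  refine ⟨c.q + k, by rw [mul_q]; omega, fun s => ⟨?_, ?_⟩⟩
  · rw [mul_y, mul_y, hy, hy, shift_ins_ge, shift_ins_ge, (h _).1]
  · rw [mul_l, mul_l, hl, hl, shift_ins_ge, shift_ins_ge, (h _).2]

end Cb

section one

variable {S : Sys G P}

theorem bd_sgl (c : Cb S) (a : ℚ) : bd (Finsupp.single c a) = a • bd1 c := by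
  simp [bd, Finsupp.linearCombination_single]

theorem BD_single (l : List (Cb S)) (a : ℚ) : BD (Finsupp.single l a) = a • BD1 l := by
  simp [BD, Finsupp.linearCombination_single]

theorem mem_DegC (z : Ch S) : z ∈ DegC S ↔ ∀ c ∈ z.support, c.Dg := by
  unfold DegC
  rw [Finsupp.mem_supported]
  exact ⟨fun h c hc => h hc, fun h c hc => h c hc⟩

theorem mem_DegB (z : BT S) : z ∈ DegB S ↔ ∀ l ∈ z.support, ∃ c ∈ l, c.Dg := by
  unfold DegB
  rw [Finsupp.mem_supported]
  exact ⟨fun h c hc => h hc, fun h c hc => h c hc⟩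

theorem sgl_mem_DegC {c : Cb S} (h : c.Dg) (a : ℚ) : Finsupp.single c a ∈ DegC S :=
  Finsupp.single_mem_supported ℚ a h

theorem single_mem_DegB {l : List (Cb S)} (h : ∃ c ∈ l, c.Dg) (a : ℚ) : Finsupp.single l a ∈ DegB S :=
  Finsupp.single_mem_supported ℚ a h

/-- Induction principle: a linear map which sends the single elements of a supported submodule into a submodule. -/
theorem supported_le {X M : Type*} [AddCommGroup M] [Module ℚ M] (f : (X →₀ ℚ) →ₗ[ℚ] M) (s : Set X) (N : Submodule ℚ M)
    (h : ∀ x ∈ s, f (Finsupp.single x 1) ∈ N) (z : X →₀ ℚ) (hz : z ∈ Finsupp.supported ℚ ℚ s) : f z ∈ N := by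
  rw [Finsupp.supported_eq_span_single] at hz
  induction hz using Submodule.span_induction with
  | mem x hx =>
    obtain ⟨y, hy, rfl⟩ := hx
    exact h y hy
  | zero => simp
  | add x y _ _ hx hy => rw [map_add]; exact add_mem hx hy
  | smul a x _ hx => rw [map_smul]; exact N.smul_mem a hx

/-- The sum of the signed faces of a cubical object, applied twice, vanishes. -/
theorem cubical_sum_zero {M : Type*} [AddCommGroup M] [Module ℚ M] (q : ℕ) (F : ℕ → Bool → ℕ → Bool → M)
    (h : ∀ j k a b, j ≤ k → k + 1 < q → F (k + 1) b j a = F j a k b) :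
    ∑ k ∈ Finset.range q, ∑ j ∈ Finset.range (q - 1), ((-1 : ℚ) ^ k * (-1 : ℚ) ^ j) •
      ((F k true j true - F k true j false) - (F k false j true - F k false j false)) = 0 := by
  set T : ℕ → ℕ → M := fun k j => (F k true j true - F k true j false) - (F k false j true - F k false j false) with hT
  have hTT : ∀ j k, j ≤ k → k + 1 < q → T (k + 1) j = T j k := by
    intro j k hjk hk
    simp only [hT]
    rw [h j k true true hjk hk, h j k false true hjk hk, h j k true false hjk hk, h j k false false hjk hk]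
    abel
  have e1 : ∑ k ∈ Finset.range q, ∑ j ∈ Finset.range (q - 1), ((-1 : ℚ) ^ k * (-1 : ℚ) ^ j) • T k j =
      ∑ p ∈ (Finset.range q ×ˢ Finset.range (q - 1)), ((-1 : ℚ) ^ p.1 * (-1 : ℚ) ^ p.2) • T p.1 p.2 := by
    rw [Finset.sum_product]
  rw [e1, ← Finset.sum_filter_add_sum_filter_not _ (fun p : ℕ × ℕ => p.2 < p.1)]
  have e2 : ∑ p ∈ (Finset.range q ×ˢ Finset.range (q - 1)).filter (fun p : ℕ × ℕ => p.2 < p.1),
      ((-1 : ℚ) ^ p.1 * (-1 : ℚ) ^ p.2) • T p.1 p.2 =
      ∑ p ∈ (Finset.range q ×ˢ Finset.range (q - 1)).filter (fun p : ℕ × ℕ => ¬ p.2 < p.1),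
      (- ((-1 : ℚ) ^ p.1 * (-1 : ℚ) ^ p.2)) • T p.1 p.2 := by
    refine Finset.sum_bij' (fun p _ => (p.2, p.1 - 1)) (fun p _ => (p.2 + 1, p.1)) ?_ ?_ ?_ ?_ ?_
    · rintro ⟨a, b⟩ hp
      simp only [Finset.mem_filter, Finset.mem_product, Finset.mem_range] at hp ⊢
      omega
    · rintro ⟨a, b⟩ hp
      simp only [Finset.mem_filter, Finset.mem_product, Finset.mem_range] at hp ⊢
      omega
    · rintro ⟨a, b⟩ hp
      simp only [Finset.mem_filter, Finset.mem_product, Finset.mem_range] at hp
      simp only [Prod.mk.injEq, and_true]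
      omega
    · rintro ⟨a, b⟩ hp
      simp only [Finset.mem_filter, Finset.mem_product, Finset.mem_range] at hp
      simp only [Prod.mk.injEq, true_and]
      omega
    · rintro ⟨a, b⟩ hp
      simp only [Finset.mem_filter, Finset.mem_product, Finset.mem_range] at hp
      obtain ⟨a', rfl⟩ : ∃ a', a = a' + 1 := ⟨a - 1, by omega⟩
      simp only [Nat.add_sub_cancel]
      rw [hTT b a' (by omega) (by omega)]
      congr 1
      rw [pow_succ]
      ring
  rw [e2, ← Finset.sum_add_distrib]
  refine Finset.sum_eq_zero fun p _ => ?_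
  rw [neg_smul, neg_add_cancel]

theorem bd_bd1 (c : Cb S) : bd (bd1 c) = 0 := by
  have hq : ∀ k < c.q, ∀ b, (c.face b k).q = c.q - 1 := fun k hk b => Cb.face_q c b k hk
  unfold bd1
  rw [map_sum]
  have e : ∀ k ∈ Finset.range c.q, bd ((-1 : ℚ) ^ k • (Finsupp.single (c.face true k) 1 - Finsupp.single (c.face false k) 1)) =
      ∑ j ∈ Finset.range (c.q - 1), ((-1 : ℚ) ^ k * (-1 : ℚ) ^ j) •
      ((Finsupp.single ((c.face true k).face true j) (1 : ℚ) - Finsupp.single ((c.face true k).face false j) 1) -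
        (Finsupp.single ((c.face false k).face true j) 1 - Finsupp.single ((c.face false k).face false j) 1)) := by
    intro k hk
    rw [Finset.mem_range] at hk
    rw [map_smul, map_sub, bd_sgl, bd_sgl, one_smul, one_smul]
    unfold bd1
    rw [hq k hk, hq k hk, ← Finset.sum_sub_distrib, Finset.smul_sum]
    refine Finset.sum_congr rfl fun j _ => ?_
    rw [← smul_sub, smul_smul]
  rw [Finset.sum_congr rfl e]
  exact cubical_sum_zero c.q (fun k b j a => Finsupp.single ((c.face b k).face a j) (1 : ℚ)) (by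
    intro j k a b hjk hk
    rw [Cb.face_face c j k a b hjk hk])

theorem bd_bd (z : Ch S) : bd (bd z) = 0 := by
  induction z using Finsupp.induction_linear with
  | zero => simp
  | add x y hx hy => rw [map_add, map_add, hx, hy, add_zero]
  | single c a => rw [bd_sgl, map_smul, bd_bd1, smul_zero]

theorem bd1_DegC (c : Cb S) (h : c.Dg) : bd1 c ∈ DegC S := by
  obtain ⟨k, hk, h⟩ := (Cb.Dg_iff c).1 h
  unfold bd1
  refine Submodule.sum_mem _ fun j hj => Submodule.smul_mem _ _ ?_
  rw [Finset.mem_range] at hj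
  by_cases hjk : j = k
  · subst hjk
    rw [Cb.face_eq_of_indep c j hj h, sub_self]
    exact zero_mem _
  · exact sub_mem (sgl_mem_DegC (Cb.Dg_face_of_indep c k j true hk hj hjk h) _)
      (sgl_mem_DegC (Cb.Dg_face_of_indep c k j false hk hj hjk h) _)

theorem bd_DegC (z : Ch S) (hz : z ∈ DegC S) : bd z ∈ DegC S :=
  supported_le bd _ _ (fun c hc => by rw [bd_sgl, one_smul]; exact bd1_DegC c hc) z hz

theorem bd1_ChN (c : Cb S) (r q : ℕ) (hr : c.r = r) (hq : c.q = q + 1) : bd1 c ∈ ChN S r q := by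
  unfold bd1
  refine Submodule.sum_mem _ fun j hj => Submodule.smul_mem _ _ ?_
  rw [Finset.mem_range] at hj
  refine sub_mem (Finsupp.single_mem_supported ℚ _ ⟨?_, ?_⟩) (Finsupp.single_mem_supported ℚ _ ⟨?_, ?_⟩)
  · rw [Cb.face_r, hr]
  · rw [Cb.face_q _ _ _ hj]; omega
  · rw [Cb.face_r, hr]
  · rw [Cb.face_q _ _ _ hj]; omega

theorem bd_ChN (r q : ℕ) (z : Ch S) (hz : z ∈ ChN S r (q + 1)) : bd z ∈ ChN S r q :=
  supported_le bd _ _ (fun c hc => by rw [bd_sgl, one_smul]; exact bd1_ChN c r q hc.1 hc.2) z hz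

theorem bd_ChN_zero (r : ℕ) (z : Ch S) (hz : z ∈ ChN S r 0) : bd z = 0 := by
  have := supported_le bd _ (⊥ : Submodule ℚ (Ch S)) (fun c hc => by
    rw [bd_sgl, one_smul]
    unfold bd1
    rw [hc.2]
    simp) z hz
  simpa using this

/-- Left multiplication by a cube. -/
def mulL (c : Cb S) : Ch S →ₗ[ℚ] Ch S := Finsupp.lmapDomain ℚ ℚ (fun x => c * x)

/-- Right multiplication by a cube. -/
def mulR (c : Cb S) : Ch S →ₗ[ℚ] Ch S := Finsupp.lmapDomain ℚ ℚ (fun x => x * c)

theorem mulL_single (c x : Cb S) (a : ℚ) : mulL c (Finsupp.single x a) = Finsupp.single (c * x) a := by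
  simp [mulL, Finsupp.lmapDomain_apply, Finsupp.mapDomain_single]

theorem mulR_single (c x : Cb S) (a : ℚ) : mulR c (Finsupp.single x a) = Finsupp.single (x * c) a := by
  simp [mulR, Finsupp.lmapDomain_apply, Finsupp.mapDomain_single]

/-- Leibniz rule. -/
theorem bd1_mul (c c' : Cb S) : bd1 (c * c') = mulR c' (bd1 c) + (-1 : ℚ) ^ c.q • mulL c (bd1 c') := by
  unfold bd1
  rw [Cb.mul_q, Finset.sum_range_add, map_sum, map_sum, Finset.smul_sum]
  congr 1
  · refine Finset.sum_congr rfl fun k hk => ?_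
    rw [Finset.mem_range] at hk
    rw [map_smul, map_sub, mulR_single, mulR_single, Cb.mul_face_lt _ _ _ _ hk, Cb.mul_face_lt _ _ _ _ hk]
  · refine Finset.sum_congr rfl fun k hk => ?_
    rw [Finset.mem_range] at hk
    rw [map_smul, map_sub, mulL_single, mulL_single, Cb.mul_face_ge _ _ _ _ hk, Cb.mul_face_ge _ _ _ _ hk, smul_smul,
      pow_add]

/-- Leibniz rule in the form with mapDomain. -/
theorem bd1_mul' (c c' : Cb S) : bd1 (c * c') = Finsupp.mapDomain (fun x => x * c') (bd1 c) +
    (-1 : ℚ) ^ c.q • Finsupp.mapDomain (fun x => c * x) (bd1 c') := bd1_mul c c'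

/-- Cons on chains of lists. -/
def consC (c : Cb S) : BT S →ₗ[ℚ] BT S := Finsupp.lmapDomain ℚ ℚ (fun x => c :: x)

/-- A chain of cubes in front of a list. -/
def consL (l : List (Cb S)) : Ch S →ₗ[ℚ] BT S := Finsupp.lmapDomain ℚ ℚ (fun x => x :: l)

/-- The merge of a cube with the first entry of a list. -/
def mrg1 (c : Cb S) : List (Cb S) → BT S
  | [] => 0
  | c' :: l => Finsupp.single ((c * c') :: l) 1

/-- The merge of a cube with the first entry, on chains of lists. -/
def mrg (c : Cb S) : BT S →ₗ[ℚ] BT S := Finsupp.linearCombination ℚ (mrg1 c)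

/-- Bilinear cons. -/
def consB : Ch S →ₗ[ℚ] BT S →ₗ[ℚ] BT S := Finsupp.linearCombination ℚ consC

/-- Bilinear merge. -/
def mrgB : Ch S →ₗ[ℚ] BT S →ₗ[ℚ] BT S := Finsupp.linearCombination ℚ mrg

theorem consC_single (c : Cb S) (l : List (Cb S)) (a : ℚ) :
    consC c (Finsupp.single l a) = Finsupp.single (c :: l) a := by
  simp [consC, Finsupp.lmapDomain_apply, Finsupp.mapDomain_single]

theorem consL_single (c : Cb S) (l : List (Cb S)) (a : ℚ) :
    consL l (Finsupp.single c a) = Finsupp.single (c :: l) a := by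
  simp [consL, Finsupp.lmapDomain_apply, Finsupp.mapDomain_single]

theorem mrg_single (c : Cb S) (l : List (Cb S)) (a : ℚ) :
    mrg c (Finsupp.single l a) = a • mrg1 c l := by
  simp [mrg, Finsupp.linearCombination_single]

theorem consB_single (c : Cb S) (a : ℚ) (W : BT S) : consB (Finsupp.single c a) W = a • consC c W := by
  simp [consB, Finsupp.linearCombination_single]

theorem mrgB_single (c : Cb S) (a : ℚ) (W : BT S) : mrgB (Finsupp.single c a) W = a • mrg c W := by
  simp [mrgB, Finsupp.linearCombination_single]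

theorem consB_list (z : Ch S) (l : List (Cb S)) : consB z (Finsupp.single l 1) = consL l z := by
  induction z using Finsupp.induction_linear with
  | zero => simp
  | add x y hx hy => rw [map_add, LinearMap.add_apply, hx, hy, map_add]
  | single c a => rw [consB_single, consC_single, consL_single, Finsupp.smul_single, smul_eq_mul, mul_one]

/-- The boundary of a list by recursion, for every tail. -/
theorem BD1_rec (c : Cb S) (l : List (Cb S)) : BD1 (c :: l) =
    consB (bd1 c) (Finsupp.single l 1) + (-1 : ℚ) ^ c.q • mrg c (Finsupp.single l 1) -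
      (-1 : ℚ) ^ c.q • consC c (BD1 l) := by
  rw [consB_list, mrg_single, one_smul]
  cases l with
  | nil =>
    show Finsupp.mapDomain (fun x => [x]) (bd1 c) = consL [] (bd1 c) + (-1 : ℚ) ^ c.q • (0 : BT S) -
      (-1 : ℚ) ^ c.q • consC c (0 : BT S)
    rw [smul_zero, add_zero, map_zero, smul_zero, sub_zero]
    rfl
  | cons c' l =>
    show consL (c' :: l) (bd1 c) + (-1 : ℚ) ^ c.q • Finsupp.single ((c * c') :: l) 1 +
      (-1 : ℚ) ^ (c.q + 1) • consC c (BD1 (c' :: l)) = _
    rw [pow_succ, mul_neg_one, neg_smul, ← sub_eq_add_neg]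
    rfl

/-- The chains all of whose cubes have dimension q. -/
def ChQ (S : Sys G P) (q : ℕ) : Submodule ℚ (Ch S) := Finsupp.supported ℚ ℚ {c | c.q = q}

theorem bd1_ChQ (c : Cb S) (q : ℕ) (hq : c.q = q + 1) : bd1 c ∈ ChQ S q := by
  unfold bd1
  refine Submodule.sum_mem _ fun j hj => Submodule.smul_mem _ _ ?_
  rw [Finset.mem_range] at hj
  refine sub_mem (Finsupp.single_mem_supported ℚ _ ?_) (Finsupp.single_mem_supported ℚ _ ?_)
  · show (c.face true j).q = q
    rw [Cb.face_q _ _ _ hj]; omega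
  · show (c.face false j).q = q
    rw [Cb.face_q _ _ _ hj]; omega

theorem bd1_zero (c : Cb S) (hq : c.q = 0) : bd1 c = 0 := by
  unfold bd1
  rw [hq]
  simp

/-- The boundary of a bilinear cons. -/
theorem BD_consB (q : ℕ) (z : Ch S) (hz : z ∈ ChQ S q) (W : BT S) :
    BD (consB z W) = consB (bd z) W + (-1 : ℚ) ^ q • mrgB z W - (-1 : ℚ) ^ q • consB z (BD W) := by
  have h1 : ∀ c : Cb S, c.q = q → BD (consC c W) = consB (bd1 c) W + (-1 : ℚ) ^ q • mrg c W -
      (-1 : ℚ) ^ q • consC c (BD W) := by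
    intro c hc
    induction W using Finsupp.induction_linear with
    | zero => simp
    | add x y hx hy =>
      simp only [map_add, hx, hy, smul_add]
      abel
    | single l a =>
      rw [consC_single, BD_single, BD1_rec, BD_single, hc, smul_sub, smul_add]
      have e1 : (Finsupp.single l a : BT S) = a • Finsupp.single l 1 := by simp
      rw [e1]
      simp only [map_smul]
      rw [smul_comm a ((-1 : ℚ) ^ q), smul_comm a ((-1 : ℚ) ^ q)]
  unfold ChQ at hz
  rw [Finsupp.supported_eq_span_single] at hz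
  induction hz using Submodule.span_induction with
  | mem x hx =>
    obtain ⟨c, hc, rfl⟩ := hx
    have hc' : c.q = q := hc
    simp only
    rw [consB_single, one_smul, bd_sgl, one_smul, mrgB_single, one_smul, consB_single, one_smul]
    exact h1 c hc'
  | zero => simp
  | add x y _ _ hx hy =>
    simp only [map_add, LinearMap.add_apply, hx, hy, smul_add]
    abel
  | smul a x _ hx =>
    simp only [map_smul, LinearMap.smul_apply, hx, smul_add, smul_sub]
    rw [smul_comm a ((-1 : ℚ) ^ q), smul_comm a ((-1 : ℚ) ^ q)]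

theorem BD_consC (c : Cb S) (W : BT S) :
    BD (consC c W) = consB (bd1 c) W + (-1 : ℚ) ^ c.q • mrg c W - (-1 : ℚ) ^ c.q • consC c (BD W) := by
  have h := BD_consB c.q (Finsupp.single c 1) (Finsupp.single_mem_supported ℚ _ rfl) W
  rw [consB_single, one_smul, bd_sgl, one_smul, mrgB_single, one_smul, consB_single, one_smul] at h
  exact h

theorem mrg_mrg (c c' : Cb S) (W : BT S) : mrg c (mrg c' W) = mrg (c * c') W := by
  induction W using Finsupp.induction_linear with
  | zero => simp
  | add x y hx hy => rw [map_add, map_add, hx, hy, map_add]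
  | single l a =>
    rw [mrg_single, mrg_single, map_smul]
    congr 1
    cases l with
    | nil => exact map_zero _
    | cons c'' l =>
      show mrg c (Finsupp.single ((c' * c'') :: l) 1) = Finsupp.single ((c * c' * c'') :: l) 1
      rw [mrg_single, one_smul, mul_assoc]
      rfl

theorem mrg_consC (c c' : Cb S) (W : BT S) : mrg c (consC c' W) = consC (c * c') W := by
  induction W using Finsupp.induction_linear with
  | zero => simp
  | add x y hx hy => rw [map_add, map_add, hx, hy, map_add]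
  | single l a =>
    rw [consC_single, mrg_single, consC_single]
    show a • Finsupp.single ((c * c') :: l) 1 = _
    simp

theorem mrg_consB (c : Cb S) (z : Ch S) (W : BT S) : mrg c (consB z W) = consB (mulL c z) W := by
  induction z using Finsupp.induction_linear with
  | zero => simp
  | add x y hx hy => rw [map_add, LinearMap.add_apply, map_add, hx, hy, map_add, map_add, LinearMap.add_apply]
  | single c' a => rw [consB_single, map_smul, mrg_consC, mulL_single, consB_single]

theorem mrgB_consC (z : Ch S) (c : Cb S) (W : BT S) : mrgB z (consC c W) = consB (mulR c z) W := by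
  induction z using Finsupp.induction_linear with
  | zero => simp
  | add x y hx hy => rw [map_add, LinearMap.add_apply, hx, hy, map_add, map_add, LinearMap.add_apply]
  | single c' a => rw [mrgB_single, mrg_consC, mulR_single, consB_single]

/-- The boundary of a merge. -/
theorem BD_mrg1 (c : Cb S) (l : List (Cb S)) :
    BD (mrg1 c l) = mrgB (bd1 c) (Finsupp.single l 1) + (-1 : ℚ) ^ c.q • mrg c (BD1 l) := by
  cases l with
  | nil =>
    have h : ∀ z : Ch S, mrgB z (Finsupp.single [] 1) = 0 := by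
      intro z
      induction z using Finsupp.induction_linear with
      | zero => simp
      | add x y hx hy => rw [map_add, LinearMap.add_apply, hx, hy, add_zero]
      | single c' a =>
        rw [mrgB_single, mrg_single]
        show a • (1 : ℚ) • (0 : BT S) = 0
        simp
    rw [h]
    show BD (0 : BT S) = 0 + (-1 : ℚ) ^ c.q • mrg c (0 : BT S)
    simp
  | cons c' l =>
    show BD (Finsupp.single ((c * c') :: l) 1) = _
    rw [BD_single, one_smul, BD1_rec, BD1_rec, bd1_mul, ← consC_single c' l 1, mrgB_consC]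
    simp only [map_add, map_sub, map_smul, LinearMap.add_apply, LinearMap.smul_apply]
    rw [mrg_consB, mrg_mrg, mrg_consC, Cb.mul_q, pow_add]
    simp only [smul_add, smul_sub, smul_smul]
    abel

theorem BD_BD1 (l : List (Cb S)) : BD (BD1 l) = 0 := by
  induction l with
  | nil => exact map_zero _
  | cons c l ih =>
    have h2 : BD (mrg c (Finsupp.single l 1)) = mrgB (bd1 c) (Finsupp.single l 1) + (-1 : ℚ) ^ c.q • mrg c (BD1 l) := by
      rw [mrg_single, one_smul]
      exact BD_mrg1 c l
    have h3 : BD (consC c (BD1 l)) = consB (bd1 c) (BD1 l) + (-1 : ℚ) ^ c.q • mrg c (BD1 l) := by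
      rw [BD_consC, ih, map_zero, smul_zero, sub_zero]
    have h1 : BD (consB (bd1 c) (Finsupp.single l 1)) =
        (-1 : ℚ) ^ c.q • consB (bd1 c) (BD1 l) - (-1 : ℚ) ^ c.q • mrgB (bd1 c) (Finsupp.single l 1) := by
      rcases Nat.eq_zero_or_pos c.q with hq | hq
      · rw [bd1_zero c hq]
        simp
      · obtain ⟨q, hq'⟩ : ∃ q, c.q = q + 1 := ⟨c.q - 1, by omega⟩
        rw [BD_consB q _ (bd1_ChQ c q hq'), bd_bd1, map_zero, LinearMap.zero_apply, zero_add, BD_single, one_smul, hq',
          pow_succ, mul_neg_one, neg_smul, neg_smul]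
        abel
    rw [BD1_rec, map_sub, map_add, map_smul, map_smul, h1, h2, h3]
    have e : (-1 : ℚ) ^ c.q * (-1 : ℚ) ^ c.q = 1 := by
      rw [← mul_pow]; norm_num
    simp only [smul_add, smul_smul, e, one_smul]
    abel

theorem BD_BD (z : BT S) : BD (BD z) = 0 := by
  induction z using Finsupp.induction_linear with
  | zero => simp
  | add x y hx hy => rw [map_add, map_add, hx, hy, add_zero]
  | single l a => rw [BD_single, map_smul, BD_BD1, smul_zero]

theorem consC_DegB_of_Dg (c : Cb S) (hc : c.Dg) (W : BT S) : consC c W ∈ DegB S := by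
  induction W using Finsupp.induction_linear with
  | zero => simp
  | add x y hx hy => rw [map_add]; exact add_mem hx hy
  | single l a => rw [consC_single]; exact single_mem_DegB ⟨c, by simp, hc⟩ a

theorem consC_DegB (c : Cb S) (W : BT S) (hW : W ∈ DegB S) : consC c W ∈ DegB S :=
  supported_le (consC c) _ _ (fun l hl => by
    obtain ⟨x, hx, hxd⟩ := hl
    rw [consC_single]
    exact single_mem_DegB ⟨x, List.mem_cons_of_mem _ hx, hxd⟩ 1) W hW

theorem consB_DegB_left (z : Ch S) (hz : z ∈ DegC S) (W : BT S) : consB z W ∈ DegB S :=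
  supported_le (consB.flip W) _ _ (fun c hc => by
    show consB (Finsupp.single c 1) W ∈ DegB S
    rw [consB_single, one_smul]
    exact consC_DegB_of_Dg c hc W) z hz

theorem consB_DegB_right (z : Ch S) (W : BT S) (hW : W ∈ DegB S) : consB z W ∈ DegB S := by
  induction z using Finsupp.induction_linear with
  | zero => simp
  | add x y hx hy => rw [map_add, LinearMap.add_apply]; exact add_mem hx hy
  | single c a => rw [consB_single]; exact Submodule.smul_mem _ _ (consC_DegB c W hW)

theorem mrg_DegB (c : Cb S) (W : BT S) (hW : W ∈ DegB S) : mrg c W ∈ DegB S :=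
  supported_le (mrg c) _ _ (fun l hl => by
    obtain ⟨x, hx, hxd⟩ := hl
    rw [mrg_single, one_smul]
    cases l with
    | nil => simp at hx
    | cons c' l =>
      refine single_mem_DegB ?_ 1
      rcases List.mem_cons.1 hx with rfl | hx'
      · exact ⟨c * x, by simp, Cb.Dg.mul_right hxd c⟩
      · exact ⟨x, List.mem_cons_of_mem _ hx', hxd⟩) W hW

theorem mrg_DegB_of_Dg (c : Cb S) (hc : c.Dg) (W : BT S) : mrg c W ∈ DegB S := by
  induction W using Finsupp.induction_linear with
  | zero => simp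
  | add x y hx hy => rw [map_add]; exact add_mem hx hy
  | single l a =>
    rw [mrg_single]
    refine Submodule.smul_mem _ _ ?_
    cases l with
    | nil => exact zero_mem _
    | cons c' l => exact single_mem_DegB ⟨c * c', by simp, Cb.Dg.mul_left hc c'⟩ 1

theorem BD1_DegB (l : List (Cb S)) (h : ∃ c ∈ l, c.Dg) : BD1 l ∈ DegB S := by
  induction l with
  | nil => obtain ⟨c, hc, _⟩ := h; simp at hc
  | cons c l ih =>
    rw [BD1_rec]
    by_cases hc : c.Dg
    · refine sub_mem (add_mem (consB_DegB_left _ (bd1_DegC c hc) _) (Submodule.smul_mem _ _ (mrg_DegB_of_Dg c hc _)))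
        (Submodule.smul_mem _ _ (consC_DegB_of_Dg c hc _))
    · have hl : ∃ x ∈ l, x.Dg := by
        obtain ⟨x, hx, hxd⟩ := h
        rcases List.mem_cons.1 hx with rfl | hx'
        · exact absurd hxd hc
        · exact ⟨x, hx', hxd⟩
      exact sub_mem (add_mem (consB_DegB_right _ _ (single_mem_DegB hl 1))
        (Submodule.smul_mem _ _ (mrg_DegB c _ (single_mem_DegB hl 1)))) (Submodule.smul_mem _ _ (consC_DegB c _ (ih hl)))

theorem BD_DegB (z : BT S) (hz : z ∈ DegB S) : BD z ∈ DegB S :=
  supported_le BD _ _ (fun l hl => by rw [BD_single, one_smul]; exact BD1_DegB l hl) z hz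

/-- The part with given rank sum and given value of (sum of the dimensions + length), empty list excluded. -/
def BTM (S : Sys G P) (n M : ℕ) : Submodule ℚ (BT S) :=
  Finsupp.supported ℚ ℚ {l | l ≠ [] ∧ (l.map Cb.r).sum = n ∧ (l.map Cb.q).sum + l.length = M}

theorem BTN_eq (n N : ℕ) : BTN S n N = BTM S n (N + 1) := rfl

theorem BD1_BTM (l : List (Cb S)) (n M : ℕ) (hr : (l.map Cb.r).sum = n)
    (hM : (l.map Cb.q).sum + l.length = M + 1) : BD1 l ∈ BTM S n M := by
  induction l generalizing n M with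
  | nil => exact zero_mem _
  | cons c l ih =>
    rw [BD1_rec]
    simp only [List.map_cons, List.sum_cons, List.length_cons] at hr hM
    refine sub_mem (add_mem ?_ (Submodule.smul_mem _ _ ?_)) (Submodule.smul_mem _ _ ?_)
    · rw [consB_list]
      rcases Nat.eq_zero_or_pos c.q with hq | hq
      · rw [bd1_zero c hq, map_zero]
        exact zero_mem _
      · have hb : bd1 c ∈ ChN S c.r (c.q - 1) := bd1_ChN c c.r (c.q - 1) rfl (by omega)
        refine supported_le (consL l) _ _ (fun x hx => ?_) _ hb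
        rw [consL_single]
        refine Finsupp.single_mem_supported ℚ _ ⟨by simp, ?_, ?_⟩
        · simp only [List.map_cons, List.sum_cons]
          rw [hx.1]; exact hr
        · simp only [List.map_cons, List.sum_cons, List.length_cons]
          rw [hx.2]; omega
    · rw [mrg_single, one_smul]
      cases l with
      | nil => exact zero_mem _
      | cons c' l =>
        simp only [List.map_cons, List.sum_cons, List.length_cons] at hr hM
        refine Finsupp.single_mem_supported ℚ _ ⟨by simp, ?_, ?_⟩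
        · simp only [List.map_cons, List.sum_cons, Cb.mul_r]
          omega
        · simp only [List.map_cons, List.sum_cons, List.length_cons, Cb.mul_q]
          omega
    · cases l with
      | nil =>
        show consC c (0 : BT S) ∈ _
        rw [map_zero]
        exact zero_mem _
      | cons c' l =>
        have hpos : 1 ≤ ((c' :: l).map Cb.q).sum + (c' :: l).length := by
          simp only [List.length_cons]; omega
        have hMc : c.q + 1 ≤ M := by omega
        have := ih (n - c.r) (M - c.q - 1) (by omega) (by omega)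
        refine supported_le (consC c) _ _ (fun x hx => ?_) _ this
        rw [consC_single]
        refine Finsupp.single_mem_supported ℚ _ ⟨by simp, ?_, ?_⟩
        · simp only [List.map_cons, List.sum_cons]
          rw [hx.2.1]; omega
        · simp only [List.map_cons, List.sum_cons, List.length_cons]
          have := hx.2.2
          omega

theorem BD_BTM (n M : ℕ) (z : BT S) (hz : z ∈ BTM S n (M + 1)) : BD z ∈ BTM S n M :=
  supported_le BD _ _ (fun l hl => by rw [BD_single, one_smul]; exact BD1_BTM l n M hl.2.1 hl.2.2) z hz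

theorem BD_BTN (n N : ℕ) (z : BT S) (hz : z ∈ BTN S n (N + 1)) : BD z ∈ BTN S n N :=
  BD_BTM n (N + 1) z hz

theorem BTM_zero (n : ℕ) (z : BT S) (hz : z ∈ BTM S n 0) : z = 0 := by
  have := supported_le (LinearMap.id : BT S →ₗ[ℚ] BT S) _ (⊥ : Submodule ℚ (BT S)) (fun l hl => by
    exfalso
    have h1 := hl.1
    have h2 := hl.2.2
    cases l with
    | nil => exact h1 rfl
    | cons c l => simp only [List.length_cons] at h2; omega) z hz
  simpa using this

theorem BD_BTN_zero (n : ℕ) (z : BT S) (hz : z ∈ BTN S n 0) : BD z = 0 :=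
  BTM_zero n _ (BD_BTM n 0 z hz)

end one

namespace SHom

variable {S : Sys G P} {G' P' : Type} [Group G'] [Preorder P'] [MulAction G' P'] {S' : Sys G' P'} {d : ℕ}

theorem G_inv (f : SHom S S' d) (n : ℕ) (g : G) (hg : g ∈ S.Gn n) : f.fG g⁻¹ = (f.fG g)⁻¹ := by
  have h := f.G_mul n g⁻¹ g (inv_mem hg) hg
  rw [inv_mul_cancel, f.G_one] at h
  exact eq_inv_of_mul_eq_one_left h.symm

theorem cb_fv (f : SHom S S' d) (c : Cb S) (b : Bool) (k : ℕ) : (f.cb c).fv b k = f.fG (c.fv b k) := rfl

theorem cb_face (f : SHom S S' d) (c : Cb S) (b : Bool) (k : ℕ) : (f.cb c).face b k = f.cb (c.face b k) := by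
  by_cases hk : k < c.q
  · have hk' : k < (f.cb c).q := hk
    refine Cb.ext' ?_ ?_ (fun s => ?_) (fun s => ?_)
    · rw [Cb.face_r]
      show d * c.r = d * (c.face b k).r
      rw [Cb.face_r]
    · rw [Cb.face_q _ _ _ hk']
      show c.q - 1 = (c.face b k).q
      rw [Cb.face_q _ _ _ hk]
    · rw [Cb.face_y _ _ _ hk']
      show (f.fG (c.fv b k))⁻¹ * f.fG (c.y (ins k b s)) = f.fG ((c.face b k).y s)
      rw [Cb.face_y _ _ _ hk, f.G_mul c.r _ _ (inv_mem (c.fv_mem b k)) (c.y_mem _), f.G_inv c.r _ (c.fv_mem b k)]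
    · rw [Cb.face_l _ _ _ hk']
      show (f.fG (c.fv b k))⁻¹ • f.fP c.r (c.l (ins k b s)) = f.fP (c.face b k).r ((c.face b k).l s)
      rw [Cb.face_l _ _ _ hk, Cb.face_r, f.P_smul c.r _ _ (inv_mem (c.fv_mem b k)) (c.l_mem _), f.G_inv c.r _ (c.fv_mem b k)]
  · have hk' : ¬ k < (f.cb c).q := hk
    have e1 : c.face b k = c := by unfold Cb.face; rw [dif_neg hk]
    have e2 : (f.cb c).face b k = f.cb c := by unfold Cb.face; rw [dif_neg hk']
    rw [e1, e2]

theorem cb_mul (f : SHom S S' d) (c c' : Cb S) : f.cb (c * c') = f.cb c * f.cb c' := by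
  refine Cb.ext' ?_ ?_ (fun s => ?_) (fun s => ?_)
  · show d * (c.r + c'.r) = d * c.r + d * c'.r
    exact Nat.mul_add _ _ _
  · rfl
  · show f.fG (c.y s * S.sh c.r (c'.y (fun i => s (c.q + i)))) = f.fG (c.y s) * S'.sh (d * c.r) (f.fG (c'.y _))
    exact f.G_sh c.r c'.r _ _ (c.y_mem _) (c'.y_mem _)
  · show f.fP (c.r + c'.r) (S.jn c.r (c.l s) (c'.l (fun i => s (c.q + i)))) = S'.jn (d * c.r) (f.fP c.r (c.l s)) (f.fP c'.r (c'.l _))
    exact f.P_jn c.r c'.r _ _ (c.l_mem _) (c'.l_mem _)

theorem cb_Dg (f : SHom S S' d) (c : Cb S) (h : c.Dg) : (f.cb c).Dg := by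
  obtain ⟨k, hk, h⟩ := h
  refine ⟨k, hk, fun s s' hs => ⟨?_, ?_⟩⟩
  · show f.fG (c.y s) = f.fG (c.y s')
    rw [(h s s' hs).1]
  · show f.fP c.r (c.l s) = f.fP c.r (c.l s')
    rw [(h s s' hs).2]

theorem ch_single (f : SHom S S' d) (c : Cb S) (a : ℚ) : f.ch (Finsupp.single c a) = Finsupp.single (f.cb c) a := by
  simp [ch, Finsupp.lmapDomain_apply, Finsupp.mapDomain_single]

theorem bt_single (f : SHom S S' d) (l : List (Cb S)) (a : ℚ) :
    f.bt (Finsupp.single l a) = Finsupp.single (l.map f.cb) a := by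
  simp [bt, Finsupp.lmapDomain_apply, Finsupp.mapDomain_single]

theorem ch_bd1 (f : SHom S S' d) (c : Cb S) : f.ch (bd1 c) = bd1 (f.cb c) := by
  unfold bd1
  rw [map_sum]
  refine Finset.sum_congr rfl fun k _ => ?_
  rw [map_smul, map_sub, ch_single, ch_single, cb_face, cb_face]

theorem ch_bd (f : SHom S S' d) (z : Ch S) : f.ch (bd z) = bd (f.ch z) := by
  induction z using Finsupp.induction_linear with
  | zero => simp
  | add x y hx hy => rw [map_add, map_add, hx, hy, map_add, map_add]
  | single c a => rw [bd_sgl, map_smul, ch_bd1, ch_single, bd_sgl]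

theorem ch_DegC (f : SHom S S' d) (z : Ch S) (hz : z ∈ DegC S) : f.ch z ∈ DegC S' :=
  supported_le f.ch _ _ (fun c hc => by rw [ch_single]; exact sgl_mem_DegC (f.cb_Dg c hc) 1) z hz

theorem bt_DegB (f : SHom S S' d) (z : BT S) (hz : z ∈ DegB S) : f.bt z ∈ DegB S' :=
  supported_le f.bt _ _ (fun l hl => by
    obtain ⟨c, hc, hcd⟩ := hl
    rw [bt_single]
    exact single_mem_DegB ⟨f.cb c, List.mem_map_of_mem hc, f.cb_Dg c hcd⟩ 1) z hz

theorem ch_ChN (f : SHom S S' d) (r q : ℕ) (z : Ch S) (hz : z ∈ ChN S r q) : f.ch z ∈ ChN S' (d * r) q :=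
  supported_le f.ch _ _ (fun c hc => by
    rw [ch_single]
    exact Finsupp.single_mem_supported ℚ _ ⟨by rw [← hc.1]; rfl, hc.2⟩) z hz

theorem map_r_sum (f : SHom S S' d) (l : List (Cb S)) : ((l.map f.cb).map Cb.r).sum = d * (l.map Cb.r).sum := by
  induction l with
  | nil => simp
  | cons c l ih =>
    simp only [List.map_cons, List.sum_cons]
    rw [ih, Nat.mul_add]
    rfl

theorem map_q (f : SHom S S' d) (l : List (Cb S)) : (l.map f.cb).map Cb.q = l.map Cb.q := by
  rw [List.map_map]
  rfl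

theorem bt_BTM (f : SHom S S' d) (n M : ℕ) (z : BT S) (hz : z ∈ BTM S n M) : f.bt z ∈ BTM S' (d * n) M :=
  supported_le f.bt _ _ (fun l hl => by
    rw [bt_single]
    refine Finsupp.single_mem_supported ℚ _ ⟨?_, ?_, ?_⟩
    · intro h; exact hl.1 (List.map_eq_nil_iff.1 h)
    · rw [map_r_sum, hl.2.1]
    · rw [map_q, List.length_map]; exact hl.2.2) z hz

theorem bt_BTN (f : SHom S S' d) (n N : ℕ) (z : BT S) (hz : z ∈ BTN S n N) : f.bt z ∈ BTN S' (d * n) N :=
  bt_BTM f n (N + 1) z hz

theorem bt_BTN_one (f : SHom S S' 1) (n N : ℕ) (z : BT S) (hz : z ∈ BTN S n N) : f.bt z ∈ BTN S' n N := by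
  have := bt_BTN f n N z hz
  rwa [one_mul] at this

theorem ch_ChN_one (f : SHom S S' 1) (r q : ℕ) (z : Ch S) (hz : z ∈ ChN S r q) : f.ch z ∈ ChN S' r q := by
  have := ch_ChN f r q z hz
  rwa [one_mul] at this

theorem bt_consC (f : SHom S S' d) (c : Cb S) (W : BT S) : f.bt (consC c W) = consC (f.cb c) (f.bt W) := by
  induction W using Finsupp.induction_linear with
  | zero => simp
  | add x y hx hy => rw [map_add, map_add, hx, hy, map_add, map_add]
  | single l a => rw [consC_single, bt_single, bt_single, consC_single, List.map_cons]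

theorem bt_consB (f : SHom S S' d) (z : Ch S) (W : BT S) : f.bt (consB z W) = consB (f.ch z) (f.bt W) := by
  induction z using Finsupp.induction_linear with
  | zero => simp
  | add x y hx hy => rw [map_add, LinearMap.add_apply, map_add, hx, hy, map_add, map_add, LinearMap.add_apply]
  | single c a => rw [consB_single, map_smul, bt_consC, ch_single, consB_single]

theorem bt_mrg (f : SHom S S' d) (c : Cb S) (W : BT S) : f.bt (mrg c W) = mrg (f.cb c) (f.bt W) := by
  induction W using Finsupp.induction_linear with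
  | zero => simp
  | add x y hx hy => rw [map_add, map_add, hx, hy, map_add, map_add]
  | single l a =>
    rw [mrg_single, map_smul, bt_single, mrg_single]
    congr 1
    cases l with
    | nil => exact map_zero _
    | cons c' l =>
      show f.bt (Finsupp.single ((c * c') :: l) 1) = Finsupp.single ((f.cb c * f.cb c') :: l.map f.cb) 1
      rw [bt_single, List.map_cons, cb_mul]

theorem bt_BD1 (f : SHom S S' d) (l : List (Cb S)) : f.bt (BD1 l) = BD1 (l.map f.cb) := by
  induction l with
  | nil => exact map_zero _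
  | cons c l ih =>
    rw [List.map_cons, BD1_rec, BD1_rec, map_sub, map_add, map_smul, map_smul, bt_consB, bt_mrg, bt_consC, ih, bt_single,
      ch_bd1]
    rfl

theorem bt_BD (f : SHom S S' d) (z : BT S) : f.bt (BD z) = BD (f.bt z) := by
  induction z using Finsupp.induction_linear with
  | zero => simp
  | add x y hx hy => rw [map_add, map_add, hx, hy, map_add, map_add]
  | single l a => rw [BD_single, map_smul, bt_BD1, bt_single, BD_single]

end SHom

section names

variable {S : Sys G P}

theorem bd_deg (c : Cb S) (h : c.Dg) : bd1 c ∈ DegC S := bd1_DegC c h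

theorem mul_deg (c c' : Cb S) (h : c.Dg ∨ c'.Dg) : (c * c').Dg := by
  rcases h with h | h
  · exact Cb.Dg.mul_left h c'
  · exact Cb.Dg.mul_right h c

end names

section interface

variable {G' P' : Type} [Group G'] [Preorder P'] [MulAction G' P'] {S : Sys G P} {S' : Sys G' P'} {d : ℕ}

theorem bt_BD (f : SHom S S' d) (w : BT S) : f.bt (BD w) = BD (f.bt w) := f.bt_BD w

theorem bt_DegB (f : SHom S S' d) (w : BT S) (hw : w ∈ DegB S) : f.bt w ∈ DegB S' := f.bt_DegB w hw

theorem bt_BTN (f : SHom S S' d) (n N : ℕ) (w : BT S) (hw : w ∈ BTN S n N) : f.bt w ∈ BTN S' (d * n) N :=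
  f.bt_BTN n N w hw

/-- lifts of chains of lists -/
theorem bt_lift (f : SHom S S' 1) (hs : CbOnto f) (n N : ℕ) (w' : BT S') (hw : w' ∈ BTN S' n N) :
    ∃ w ∈ BTN S n N, f.bt w = w' := by
  choose σ hσ using hs
  have hr : ∀ c, (σ c).r = c.r := by
    intro c
    have h : (f.cb (σ c)).r = c.r := by rw [hσ]
    have h2 : 1 * (σ c).r = c.r := h
    omega
  have hq : ∀ c, (σ c).q = c.q := by
    intro c
    have h : (f.cb (σ c)).q = c.q := by rw [hσ]
    exact h
  refine ⟨Finsupp.lmapDomain ℚ ℚ (List.map σ) w', ?_, ?_⟩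
  · refine supported_le (Finsupp.lmapDomain ℚ ℚ (List.map σ)) _ _ (fun l hl => ?_) w' hw
    rw [Finsupp.lmapDomain_apply, Finsupp.mapDomain_single]
    refine Finsupp.single_mem_supported ℚ _ ⟨?_, ?_, ?_⟩
    · intro h; exact hl.1 (List.map_eq_nil_iff.1 h)
    · have e : Cb.r ∘ σ = Cb.r := funext hr
      rw [List.map_map, e]; exact hl.2.1
    · have e : Cb.q ∘ σ = Cb.q := funext hq
      rw [List.map_map, e, List.length_map]; exact hl.2.2
  · rw [SHom.bt, ← LinearMap.comp_apply, ← Finsupp.lmapDomain_comp]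
    have e : List.map f.cb ∘ List.map σ = id := by
      funext l
      show List.map f.cb (List.map σ l) = l
      rw [List.map_map]
      have e2 : f.cb ∘ σ = id := funext hσ
      rw [e2, List.map_id]
    rw [e, Finsupp.lmapDomain_id, LinearMap.id_apply]

end interface

end St16
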