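import Pool.Agent.LibSt16.SyA

/-!
LibSt16/Cz (helper80): the class `z a b m` of page section 3 in the bar complex of the abelian system.
`wcube r u` is the cube of rank `r` with the letters `u` (all products in `TT`), `zz b m r u` the sum over `eps`
with contents `u` in the first slot.
Main results: `z_mem`, `BD_z`, `z_lead`.
-/

set_option autoImplicit false

noncomputable section

namespace St16

/-- product of the letters `u` with exponents `s 0, s 1, ..` -/
def wval : List TT → (ℕ → Bool) → TT
  | [], _ => 1
  | t :: u, s => (if s 0 then t else 1) * wval u (fun i => s (i + 1))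

theorem wval_dep (u : List TT) (s s' : ℕ → Bool) (h : ∀ i, i < u.length → s i = s' i) :
    wval u s = wval u s' := by
  induction u generalizing s s' with
  | nil => rfl
  | cons t u ih =>
    simp only [wval]
    rw [h 0 (by simp), ih (fun i => s (i + 1)) (fun i => s' (i + 1)) (fun i hi => h (i + 1) (by simpa using hi))]

theorem wval_zero (u : List TT) : wval u z0 = 1 := by
  induction u with
  | nil => rfl
  | cons t u ih =>
    have h : wval u (fun i => z0 (i + 1)) = 1 := ih
    simp only [wval]
    rw [h]
    simp [z0]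

theorem wval_append (u v : List TT) (s : ℕ → Bool) :
    wval (u ++ v) s = wval u s * wval v (fun i => s (u.length + i)) := by
  induction u generalizing s with
  | nil => simp [wval]
  | cons t u ih =>
    simp only [List.cons_append, wval]
    rw [ih, mul_assoc]
    congr 3
    funext i
    congr 1
    simp only [List.length_cons]
    omega

theorem ins_succ (k : ℕ) (b : Bool) (s : ℕ → Bool) :
    (fun i => ins (k + 1) b s (i + 1)) = ins k b (fun i => s (i + 1)) := by
  funext i
  unfold ins
  by_cases h1 : i < k
  · simp [h1]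
  · by_cases h2 : i = k
    · simp [h2]
    · have h3 : ¬ (i + 1 < k + 1) := by omega
      have h4 : ¬ (i + 1 = k + 1) := by omega
      simp only [h3, h4, h1, h2, if_false]
      congr 1
      omega

theorem ins_zero_val (b : Bool) (s : ℕ → Bool) : (fun i => ins 0 b s (i + 1)) = s := by
  funext i
  unfold ins
  simp

/-- value on a face -/
theorem wval_ins (u : List TT) (k : ℕ) (hk : k < u.length) (b : Bool) (s : ℕ → Bool) :
    wval u (ins k b s) = (if b then u[k] else 1) * wval (u.eraseIdx k) s := by
  induction u generalizing k s with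
  | nil => simp at hk
  | cons t u ih =>
    cases k with
    | zero =>
      simp only [wval, List.eraseIdx_cons_zero, List.getElem_cons_zero]
      rw [ins_zero_val]
      simp [ins]
    | succ k =>
      have hk' : k < u.length := by simpa using hk
      simp only [wval, List.eraseIdx_cons_succ, List.getElem_cons_succ]
      rw [ins_succ, ih k hk']
      have h0 : ins (k + 1) b s 0 = s 0 := by simp [ins]
      rw [h0]
      rw [mul_left_comm]

/-- the cube of rank `r` with letters `u` -/
def wcube (r : ℕ) (hr : 0 < r) (u : List TT) : Cb sysA where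
  r := r
  q := u.length
  y := wval u
  l := fun _ => PUnit.unit
  r_pos := hr
  y_dep := wval_dep u
  l_dep := fun _ _ _ => rfl
  y_mem := fun _ => trivial
  l_mem := fun _ => trivial
  y_zero := wval_zero u
  l_mono := fun _ _ _ => le_rfl

theorem wcube_mul (r r' : ℕ) (hr : 0 < r) (hr' : 0 < r') (u v : List TT) :
    wcube r hr u * wcube r' hr' v = wcube (r + r') (Nat.add_pos_left hr _) (u ++ v) := by
  refine Cb.ext rfl ?_ ?_ rfl
  · show u.length + v.length = (u ++ v).length
    simp
  · funext s
    show wval u s * wval v (fun i => s (u.length + i)) = wval (u ++ v) s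
    rw [wval_append]

theorem wcube_face (r : ℕ) (hr : 0 < r) (u : List TT) (b : Bool) (k : ℕ) (hk : k < u.length) :
    (wcube r hr u).face b k = wcube r hr (u.eraseIdx k) := by
  have hk' : k < (wcube r hr u).q := hk
  rw [Cb.face, dif_pos hk']
  have hv : ∀ s, (wcube r hr u).y (ins k b s) = (if b then u[k] else 1) * wval (u.eraseIdx k) s :=
    fun s => wval_ins u k hk b s
  have hf : (wcube r hr u).fv b k = (if b then u[k] else 1) := by
    show (wcube r hr u).y (ins k b z0) = _
    rw [hv, wval_zero, mul_one]
  refine Cb.ext rfl ?_ ?_ rfl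
  · show u.length - 1 = (u.eraseIdx k).length
    rw [List.length_eraseIdx, if_pos hk]
  · funext s
    show ((wcube r hr u).fv b k)⁻¹ * (wcube r hr u).y (ins k b s) = wval (u.eraseIdx k) s
    rw [hf, hv, inv_mul_cancel_left]

theorem bd1_wcube (r : ℕ) (hr : 0 < r) (u : List TT) : bd1 (wcube r hr u) = 0 := by
  unfold bd1
  apply Finset.sum_eq_zero
  intro k hk
  have hk' : k < u.length := Finset.mem_range.1 hk
  rw [wcube_face r hr u true k hk', wcube_face r hr u false k hk', sub_self, smul_zero]

/-! ### the boundary of a list, uniform form -/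

section general

variable {G P : Type} [Group G] [Preorder P] [MulAction G P] {S : Sys G P}

/-- product with the first entry (`0` on the empty list) -/
def hm1 (c : Cb S) : List (Cb S) → BT S
  | [] => 0
  | x :: w => Finsupp.single ((c * x) :: w) 1

/-- product with the first entry -/
def hm (c : Cb S) : BT S →ₗ[ℚ] BT S := Finsupp.linearCombination ℚ (hm1 c)

/-- new first entry -/
def cns (c : Cb S) : BT S →ₗ[ℚ] BT S := Finsupp.lmapDomain ℚ ℚ (fun w => c :: w)

theorem BD1_cons (c : Cb S) (w : List (Cb S)) :
    BD1 (c :: w) = Finsupp.mapDomain (fun x => x :: w) (bd1 c) +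
      (-1 : ℚ) ^ c.q • hm1 c w + (-1 : ℚ) ^ (c.q + 1) • cns c (BD1 w) := by
  cases w with
  | nil => simp [BD1, hm1]
  | cons x w => rfl

theorem BD_cns (c : Cb S) (hc : bd1 c = 0) (W : BT S) :
    BD (cns c W) = (-1 : ℚ) ^ c.q • (hm c W - cns c (BD W)) := by
  have h : BD ∘ₗ cns c = (-1 : ℚ) ^ c.q • (hm c - cns c ∘ₗ BD) := by
    apply Finsupp.lhom_ext'
    intro w
    apply LinearMap.ext_ring
    have h1 : BD (cns c (Finsupp.single w 1)) = BD1 (c :: w) := by
      simp [BD, cns]
    have h2 : hm c (Finsupp.single w 1) = hm1 c w := by simp [hm]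
    have h3 : BD (Finsupp.single w (1 : ℚ)) = BD1 w := by simp [BD]
    show BD (cns c (Finsupp.single w 1)) = (-1 : ℚ) ^ c.q • (hm c (Finsupp.single w 1)
      - cns c (BD (Finsupp.single w 1)))
    rw [h1, h2, h3, BD1_cons, hc, Finsupp.mapDomain_zero, zero_add, pow_succ, smul_sub]
    simp [sub_eq_add_neg]
  exact congrArg (fun f => f W) h

theorem hm_cns (c x : Cb S) (W : BT S) : hm c (cns x W) = cns (c * x) W := by
  have h : hm c ∘ₗ cns x = cns (c * x) := by
    apply Finsupp.lhom_ext'
    intro w
    apply LinearMap.ext_ring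
    show hm c (cns x (Finsupp.single w 1)) = cns (c * x) (Finsupp.single w 1)
    simp [hm, cns, hm1]
  exact congrArg (fun f => f W) h

theorem cns_mem_BTN (c : Cb S) (n N : ℕ) (W : BT S) (hW : W ∈ BTN S n N) :
    cns c W ∈ BTN S (c.r + n) (c.q + N + 1) := by
  unfold BTN cns at *
  rw [Finsupp.mem_supported] at hW ⊢
  intro w hw
  classical
  have h1 := Finsupp.mapDomain_support (Finset.mem_coe.1 hw)
  obtain ⟨v, hv, rfl⟩ := Finset.mem_image.1 h1
  obtain ⟨h2, h3, h4⟩ := hW (Finset.mem_coe.2 hv)
  refine ⟨List.cons_ne_nil _ _, ?_, ?_⟩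
  · rw [List.map_cons, List.sum_cons, h3]
  · rw [List.map_cons, List.sum_cons, List.length_cons]
    omega

end general

/-- sum over `eps`, first slot of rank `r` with contents `u` -/
def zz (b : TT) : ℕ → (r : ℕ) → 0 < r → List TT → BT sysA
  | 0, r, hr, u => Finsupp.single [wcube r hr u] 1
  | m + 1, r, hr, u => cns (wcube r hr (u ++ [b])) (zz b m 1 Nat.one_pos []) +
      cns (wcube r hr u) (zz b m 1 Nat.one_pos [b])

/-- the class `z` of page section 3: `m` slots (`m >= 1`), letter `a` in the first slot, `m - 1` letters `b` -/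
def zcl (a b : TT) (m : ℕ) : BT sysA := zz b (m - 1) 1 Nat.one_pos [a]

theorem hm_zz (b : TT) (m r : ℕ) (hr : 0 < r) (u v : List TT) :
    hm (wcube r hr u) (zz b m 1 Nat.one_pos v) = zz b m (r + 1) (Nat.succ_pos r) (u ++ v) := by
  cases m with
  | zero =>
    simp only [zz, hm, Finsupp.linearCombination_single, one_smul, hm1]
    rw [wcube_mul]
  | succ m =>
    simp only [zz]
    rw [map_add, hm_cns, hm_cns, wcube_mul, wcube_mul, List.append_assoc]

theorem BD_zz (b : TT) (m r : ℕ) (hr : 0 < r) (u : List TT) : BD (zz b m r hr u) = 0 := by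
  induction m generalizing r u with
  | zero =>
    simp only [zz, BD, Finsupp.linearCombination_single, one_smul, BD1]
    rw [bd1_wcube, Finsupp.mapDomain_zero]
  | succ m ih =>
    simp only [zz]
    rw [map_add, BD_cns _ (bd1_wcube _ _ _), BD_cns _ (bd1_wcube _ _ _), ih, ih, map_zero, map_zero,
      sub_zero, sub_zero, hm_zz, hm_zz, List.append_nil]
    have h : (wcube r hr (u ++ [b])).q = (wcube r hr u).q + 1 := by
      show (u ++ [b]).length = u.length + 1
      simp
    rw [h, pow_succ]
    simp

theorem zz_mem (b : TT) (m r : ℕ) (hr : 0 < r) (u : List TT) :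
    zz b m r hr u ∈ BTN sysA (r + m) (u.length + 2 * m) := by
  induction m generalizing r u with
  | zero =>
    simp only [zz]
    apply Finsupp.single_mem_supported
    refine ⟨List.cons_ne_nil _ _, ?_, ?_⟩
    · simp [wcube]
    · simp [wcube]
  | succ m ih =>
    simp only [zz]
    apply Submodule.add_mem
    · have h := cns_mem_BTN (wcube r hr (u ++ [b])) _ _ _ (ih 1 Nat.one_pos [])
      have e1 : (wcube r hr (u ++ [b])).r + (1 + m) = r + (m + 1) := by
        show r + (1 + m) = r + (m + 1)
        omega
      have e2 : (wcube r hr (u ++ [b])).q + (([] : List TT).length + 2 * m) + 1 = u.length + 2 * (m + 1) := by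
        show (u ++ [b]).length + (0 + 2 * m) + 1 = _
        simp
        omega
      rwa [e1, e2] at h
    · have h := cns_mem_BTN (wcube r hr u) _ _ _ (ih 1 Nat.one_pos [b])
      have e1 : (wcube r hr u).r + (1 + m) = r + (m + 1) := by
        show r + (1 + m) = r + (m + 1)
        omega
      have e2 : (wcube r hr u).q + ([b].length + 2 * m) + 1 = u.length + 2 * (m + 1) := by
        show u.length + (1 + 2 * m) + 1 = _
        omega
      rwa [e1, e2] at h

/-- lists with an entry of dimension `0` -/
def hasZ : Set (List (Cb sysA)) := {w | ∃ c ∈ w, c.q = 0}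

theorem cns_hasZ (c : Cb sysA) (W : BT sysA) (hW : W ∈ Finsupp.supported ℚ ℚ hasZ) :
    cns c W ∈ Finsupp.supported ℚ ℚ hasZ := by
  unfold cns
  rw [Finsupp.mem_supported] at hW ⊢
  intro w hw
  classical
  have h1 := Finsupp.mapDomain_support (Finset.mem_coe.1 hw)
  obtain ⟨v, hv, rfl⟩ := Finset.mem_image.1 h1
  obtain ⟨e, he, he'⟩ := hW (Finset.mem_coe.2 hv)
  exact ⟨e, List.mem_cons_of_mem _ he, he'⟩

theorem cns_hasZ' (c : Cb sysA) (hc : c.q = 0) (W : BT sysA) :
    cns c W ∈ Finsupp.supported ℚ ℚ hasZ := by
  unfold cns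
  rw [Finsupp.mem_supported]
  intro w hw
  classical
  have h1 := Finsupp.mapDomain_support (Finset.mem_coe.1 hw)
  obtain ⟨v, hv, rfl⟩ := Finset.mem_image.1 h1
  exact ⟨c, List.mem_cons_self, hc⟩

theorem zz_nil (b : TT) (m r : ℕ) (hr : 0 < r) : zz b m r hr [] ∈ Finsupp.supported ℚ ℚ hasZ := by
  induction m generalizing r with
  | zero =>
    simp only [zz]
    apply Finsupp.single_mem_supported
    exact ⟨_, List.mem_cons_self, rfl⟩
  | succ m ih =>
    simp only [zz]
    exact Submodule.add_mem _ (cns_hasZ _ _ (ih 1 Nat.one_pos)) (cns_hasZ' _ rfl _)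

/-- the letter cube of rank one -/
def lc1 (t : TT) : Cb sysA := wcube 1 Nat.one_pos [t]

theorem zz_one (b t : TT) (m r : ℕ) (hr : 0 < r) :
    zz b m r hr [t] - Finsupp.single (wcube r hr [t] :: List.replicate m (lc1 b)) 1 ∈
      Finsupp.supported ℚ ℚ hasZ := by
  induction m generalizing r t with
  | zero =>
    simp only [zz, List.replicate_zero, sub_self]
    exact Submodule.zero_mem _
  | succ m ih =>
    simp only [zz]
    have h1 := cns_hasZ (wcube r hr [t]) _ (ih b 1 Nat.one_pos)
    rw [map_sub] at h1
    have h2 : cns (wcube r hr [t]) (Finsupp.single (wcube 1 Nat.one_pos [b] :: List.replicate m (lc1 b)) (1 : ℚ))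
        = Finsupp.single (wcube r hr [t] :: List.replicate (m + 1) (lc1 b)) 1 := by
      rw [List.replicate_succ]
      simp only [cns, Finsupp.lmapDomain_apply, Finsupp.mapDomain_single]
      rfl
    rw [h2] at h1
    have h3 := cns_hasZ (wcube r hr ([t] ++ [b])) _ (zz_nil b m 1 Nat.one_pos)
    rw [add_sub_assoc]
    exact Submodule.add_mem _ h3 h1

/-! ### the results -/

theorem BD_z (a b : TT) (m : ℕ) : BD (zcl a b m) = 0 := BD_zz b _ _ _ _

theorem z_mem (a b : TT) (m : ℕ) (hm : 0 < m) : zcl a b m ∈ BTN sysA m (2 * m - 1) := by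
  have h := zz_mem b (m - 1) 1 Nat.one_pos [a]
  have e1 : 1 + (m - 1) = m := by omega
  have e2 : [a].length + 2 * (m - 1) = 2 * m - 1 := by
    show 1 + 2 * (m - 1) = _
    omega
  rw [e1, e2] at h
  exact h

/-- `z` is the list `(a | b | .. | b)` plus lists with an entry of dimension `0` -/
theorem z_lead (a b : TT) (m : ℕ) :
    zcl a b m - Finsupp.single (lc1 a :: List.replicate (m - 1) (lc1 b)) 1 ∈
      Finsupp.supported ℚ ℚ hasZ := zz_one b a (m - 1) 1 Nat.one_pos

end St16
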