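import Pool.Agent.LibSt16.TT4

/-!
MP_8b67e9, 6.3: chains over a ring `C` whose matrix entries lie in a subring `B` come from chains over `B`.
-/

set_option autoImplicit false

noncomputable section

namespace St16

variable {B C : Type} [CommRing B] [CommRing C] {i : B →+* C}
variable (hi : Function.Injective i)

include hi

/-- vectors with coordinates in `B` -/
theorem vc_desc (x : Vc C) (hx : ∀ k, x k ∈ Set.range i) :
    ∃ x' : Vc B, Finsupp.mapRange i (map_zero i) x' = x := by
  choose f hf using hx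
  refine ⟨Finsupp.onFinset x.support f ?_, ?_⟩
  · intro k hk
    rw [Finsupp.mem_support_iff]
    intro h0
    apply hk
    apply hi
    rw [hf, h0, map_zero]
  · ext k
    rw [Finsupp.mapRange_apply, Finsupp.onFinset_apply, hf]

/-- linear maps with entries in `B` -/
theorem lin_desc (g : Vc C →ₗ[C] Vc C) (hg : ∀ a b, g (ee b) a ∈ Set.range i) :
    ∃ φ : Vc B →ₗ[B] Vc B, bcL i φ = g := by
  choose v hv using fun b => vc_desc hi (g (ee b)) fun a => hg a b
  refine ⟨Finsupp.linearCombination B v, ?_⟩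
  ext b : 2
  change bcL i (Finsupp.linearCombination B v) (ee b) = g (ee b)
  rw [← mapRange_ee i b, bcL_mapRange]
  have h1 : Finsupp.linearCombination B v (ee b) = v b := by
    unfold ee
    rw [Finsupp.linearCombination_single, one_smul]
  rw [h1, hv, mapRange_ee]

theorem On_desc (n : ℕ) (g : Au C) (hg : g ∈ On C n)
    (he : ∀ a b, a < n → b < n → g (ee b) a ∈ Set.range i) : ∃ g' ∈ On B n, bcA i g' = g := by
  have key : ∀ h : Au C, h ∈ On C n → (∀ a b, a < n → b < n → h (ee b) a ∈ Set.range i) →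
      ∃ φ : Vc B →ₗ[B] Vc B, bcL i φ = h.toLinearMap := by
    intro h hh heh
    refine lin_desc hi _ fun a b => ?_
    change h (ee b) a ∈ _
    by_cases hb : b < n
    · by_cases ha : a < n
      · exact heh a b ha hb
      · have h1 : h (ee b) a = dot (h (ee b)) (ee a) := (dot_ee_right _ a).symm
        rw [h1, ← hh.2 a (by omega), hh.1, dot_ee_right]
        have h2 : (ee b : Vc C) a = 0 := by
          unfold ee
          rw [Finsupp.single_apply, if_neg (by omega)]
        rw [h2]
        exact ⟨0, map_zero i⟩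
    · rw [hh.2 b (by omega)]
      unfold ee
      rw [Finsupp.single_apply]
      split_ifs
      · exact ⟨1, map_one i⟩
      · exact ⟨0, map_zero i⟩
  have hg' : g⁻¹ ∈ On C n := inv_mem hg
  have he' : ∀ a b, a < n → b < n → g⁻¹ (ee b) a ∈ Set.range i := by
    intro a b ha hb
    have h1 : g⁻¹ (ee b) a = g (ee a) b := by
      rw [← dot_ee_right (g⁻¹ (ee b)) a, ← hg.1, ← dot_ee_right (g (ee a)) b, dot_comm]
      congr 1
      exact LinearEquiv.apply_symm_apply g (ee b)
    rw [h1]
    exact he b a hb ha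
  obtain ⟨φ, hφ⟩ := key g hg he
  obtain ⟨ψ, hψ⟩ := key g⁻¹ hg' he'
  have e1 : φ ∘ₗ ψ = LinearMap.id := by
    apply bcL_inj hi
    rw [bcL_mul, hφ, hψ, bcL_one]
    exact LinearMap.ext fun x => LinearEquiv.apply_symm_apply g x
  have e2 : ψ ∘ₗ φ = LinearMap.id := by
    apply bcL_inj hi
    rw [bcL_mul, hφ, hψ, bcL_one]
    exact LinearMap.ext fun x => LinearEquiv.symm_apply_apply g x
  have hφx : ∀ x : Vc B, Finsupp.mapRange i (map_zero i) (φ x) =
      g (Finsupp.mapRange i (map_zero i) x) := by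
    intro x
    rw [← bcL_mapRange, hφ]
    rfl
  refine ⟨LinearEquiv.ofLinearMap φ ψ e1 e2, ⟨fun x y => ?_, fun k hk => ?_⟩, ?_⟩
  · apply hi
    rw [← dot_mapRange, ← dot_mapRange]
    change dot (Finsupp.mapRange i _ (φ x)) (Finsupp.mapRange i _ (φ y)) = _
    rw [hφx, hφx, hg.1]
  · apply mapRange_inj hi
    change Finsupp.mapRange i _ (φ (ee k)) = _
    rw [hφx, mapRange_ee, hg.2 k hk]
  · apply LinearEquiv.toLinearMap_injective
    exact hφ

theorem cb_desc (c : Cb (sysO C))
    (he : ∀ s a b, a < c.r → b < c.r → c.y s (ee b) a ∈ Set.range i) :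
    ∃ c' : Cb (sysO B), (bcH i).cb c' = c := by
  choose y hy hyc using fun s => On_desc hi c.r (c.y s) (c.y_mem s) (he s)
  refine ⟨⟨c.r, c.q, y, c.l, c.r_pos, ?_, c.l_dep, hy, fun _ => trivial, ?_, fun _ _ _ => le_rfl⟩, ?_⟩
  · intro s s' h
    apply bcA_inj0 hi
    rw [hyc, hyc, c.y_dep s s' h]
  · apply bcA_inj0 hi
    rw [hyc, c.y_zero]
    exact ((bcH i).G_one).symm
  · refine Cb.ext (one_mul _) rfl ?_ ?_
    · funext s
      exact hyc s
    · rfl

/-- chains with entries in `B` -/
theorem bt_desc (Y : BT (sysO C)) (he : ∀ l ∈ Y.support, ∀ c ∈ l, ∀ s a b, a < c.r → b < c.r →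
    c.y s (ee b) a ∈ Set.range i) :
    ∃ Y' : BT (sysO B), (bcH i).bt Y' = Y ∧ ∀ n N, Y ∈ BTN (sysO C) n N → Y' ∈ BTN (sysO B) n N := by
  classical
  have h1 : ∀ l : List (Cb (sysO C)), (∀ c ∈ l, ∀ s a b, a < c.r → b < c.r →
      c.y s (ee b) a ∈ Set.range i) → ∃ l', List.map (bcH i).cb l' = l := by
    intro l
    induction l with
    | nil => exact fun _ => ⟨[], rfl⟩
    | cons c l ih =>
      intro h
      obtain ⟨l', hl'⟩ := ih fun c' hc' => h c' (List.mem_cons_of_mem _ hc')
      obtain ⟨c', hc'⟩ := cb_desc hi c (h c List.mem_cons_self)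
      exact ⟨c' :: l', by rw [List.map_cons, hl', hc']⟩
  let g : List (Cb (sysO C)) → List (Cb (sysO B)) := fun l =>
    if h : ∃ l', List.map (bcH i).cb l' = l then h.choose else []
  have hg : ∀ l ∈ Y.support, List.map (bcH i).cb (g l) = l := by
    intro l hl
    have h := h1 l (he l hl)
    simp only [g, dif_pos h]
    exact h.choose_spec
  refine ⟨Finsupp.mapDomain g Y, ?_, fun n N hY => ?_⟩
  · change Finsupp.mapDomain (List.map (bcH i).cb) (Finsupp.mapDomain g Y) = Y
    rw [← Finsupp.mapDomain_comp]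
    conv_rhs => rw [← Finsupp.mapDomain_id (v := Y)]
    exact Finsupp.mapDomain_congr fun l hl => hg l hl
  · rw [BTN, Finsupp.mem_supported] at hY ⊢
    intro l' hl'
    obtain ⟨l, hl, rfl⟩ := Finset.mem_image.1 (Finsupp.mapDomain_support hl')
    obtain ⟨h2, h3, h4⟩ := hY hl
    have h5 := hg l hl
    have e1 : (g l).map Cb.r = l.map Cb.r := by
      conv_rhs => rw [← h5, List.map_map]
      refine List.map_congr_left fun c _ => ?_
      exact (one_mul _).symm
    have e2 : (g l).map Cb.q = l.map Cb.q := by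
      conv_rhs => rw [← h5, List.map_map]
      rfl
    have e3 : (g l).length = l.length := by
      conv_rhs => rw [← h5, List.length_map]
    refine ⟨?_, ?_, ?_⟩
    · intro h0
      rw [h0, List.map_nil] at h5
      exact h2 h5.symm
    · rw [e1, h3]
    · rw [e2, e3, h4]

omit hi in
/-- the entries of a chain form a finite set -/
theorem entries_finite (Y : BT (sysO C)) : ∃ S : Finset C, ∀ l ∈ Y.support, ∀ c ∈ l, ∀ s a b,
    a < c.r → b < c.r → c.y s (ee b) a ∈ S := by
  classical
  have h1 : ∀ c : Cb (sysO C), ∃ S : Finset C, ∀ s a b, a < c.r → b < c.r → c.y s (ee b) a ∈ S := by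
    intro c
    let ex : (Fin c.q → Bool) → ℕ → Bool := fun t k => if h : k < c.q then t ⟨k, h⟩ else false
    refine ⟨Finset.univ.image fun p : (Fin c.q → Bool) × Fin c.r × Fin c.r =>
      c.y (ex p.1) (ee p.2.2) p.2.1, fun s a b ha hb => ?_⟩
    rw [Finset.mem_image]
    refine ⟨(fun k => s k, ⟨a, ha⟩, ⟨b, hb⟩), Finset.mem_univ _, ?_⟩
    have h2 : c.y (ex fun k => s k) = c.y s := by
      apply c.y_dep
      intro k hk
      simp only [ex, dif_pos hk]
    change c.y (ex fun k => s k) (ee b) a = _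
    rw [h2]
  choose F hF using h1
  refine ⟨Y.support.biUnion fun l => l.toFinset.biUnion F, fun l hl c hc s a b ha hb => ?_⟩
  rw [Finset.mem_biUnion]
  refine ⟨l, hl, ?_⟩
  rw [Finset.mem_biUnion]
  exact ⟨c, List.mem_toFinset.2 hc, hF c s a b ha hb⟩

end St16
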