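import Pool.Agent.LibSt16.Defs
import Pool.Agent.LibSt46.BarAbs

/-!
LibSt16/L1: the lifting lemma of section 1 in the format of `Defs` (cubes modulo degenerate cubes, graded by rank
and degree), from the abstract form in LibSt46/BarAbs.
-/

set_option autoImplicit false

noncomputable section

namespace St16

namespace L1P

open Pool.Agent.LibSt46

variable {G P : Type} [Group G] [Preorder P] [MulAction G P]

/-- the cubical identities used here (row C) -/
structure CubId (S : Sys G P) : Prop where
  bd_bd : ∀ x : Ch S, bd (bd x) = 0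
  bd1_mul : ∀ c c' : Cb S, bd1 (c * c') = Finsupp.mapDomain (fun x => x * c') (bd1 c) +
    (-1 : ℚ) ^ c.q • Finsupp.mapDomain (fun x => c * x) (bd1 c')

section general

variable {X X' : Type*}

/-- quotient of a differential algebra by a stable ideal, given by a projection onto a based space -/
def DAlg.quot (A : DAlg X) (pr : (X →₀ ℚ) →ₗ[ℚ] (X' →₀ ℚ)) (inc : (X' →₀ ℚ) →ₗ[ℚ] (X →₀ ℚ))
    (h : ∀ a, pr (inc a) = a) (hd : ∀ a, pr a = 0 → pr (A.d a) = 0) (he : ∀ a, pr a = 0 → pr (A.e a) = 0)
    (hl : ∀ a b, pr a = 0 → pr (A.mul a b) = 0) (hr : ∀ a b, pr b = 0 → pr (A.mul a b) = 0) : DAlg X' :=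
  have k0 : ∀ a, pr (inc (pr a) - a) = 0 := fun a => by rw [map_sub, h, sub_self]
  have kd : ∀ a, pr (A.d (inc (pr a))) = pr (A.d a) := fun a => by
    have := hd _ (k0 a)
    rwa [map_sub, map_sub, sub_eq_zero] at this
  have ke : ∀ a, pr (A.e (inc (pr a))) = pr (A.e a) := fun a => by
    have := he _ (k0 a)
    rwa [map_sub, map_sub, sub_eq_zero] at this
  have kl : ∀ a b, pr (A.mul (inc (pr a)) b) = pr (A.mul a b) := fun a b => by
    have := hl _ b (k0 a)
    rwa [map_sub, LinearMap.sub_apply, map_sub, sub_eq_zero] at this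
  have kr : ∀ a b, pr (A.mul a (inc (pr b))) = pr (A.mul a b) := fun a b => by
    have := hr a _ (k0 b)
    rwa [map_sub, map_sub, sub_eq_zero] at this
  { d := pr ∘ₗ A.d ∘ₗ inc
    e := pr ∘ₗ A.e ∘ₗ inc
    mul := ((A.mul.compl₁₂ inc inc).compr₂ pr)
    dd := by
      intro a
      simp only [LinearMap.comp_apply]
      rw [kd, A.dd, map_zero]
    ee := by
      intro a
      simp only [LinearMap.comp_apply]
      rw [ke, A.ee, h]
    de := by
      intro a
      simp only [LinearMap.comp_apply]
      rw [kd, ke, A.de, map_neg]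
    assoc := by
      intro a b c
      simp only [LinearMap.compr₂_apply, LinearMap.compl₁₂_apply]
      rw [kl, kr, A.assoc]
    emul := by
      intro a b
      simp only [LinearMap.comp_apply, LinearMap.compr₂_apply, LinearMap.compl₁₂_apply]
      rw [ke, kl, kr, A.emul]
    leib := by
      intro a b
      simp only [LinearMap.comp_apply, LinearMap.compr₂_apply, LinearMap.compl₁₂_apply]
      rw [kd, kl, kr, kl, A.leib, map_add] }

end general

section fixS

variable (S : Sys G P)

/-- sign involution -/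
def sg : Ch S →ₗ[ℚ] Ch S := Finsupp.linearCombination ℚ fun c => Finsupp.single c ((-1 : ℚ) ^ c.q)

/-- bilinear block sum -/
def mu : Ch S →ₗ[ℚ] Ch S →ₗ[ℚ] Ch S :=
  Finsupp.linearCombination ℚ (fun c =>
    (Finsupp.linearCombination ℚ (fun c' => Finsupp.single (c * c') (1 : ℚ)) : Ch S →ₗ[ℚ] Ch S))

theorem sg_single (c : Cb S) : sg S (Finsupp.single c 1) = Finsupp.single c ((-1 : ℚ) ^ c.q) := by
  simp [sg]

theorem mu_single (c c' : Cb S) :
    mu S (Finsupp.single c 1) (Finsupp.single c' 1) = Finsupp.single (c * c') 1 := by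
  simp [mu]

theorem bd_single (c : Cb S) : bd (Finsupp.single c 1) = bd1 c := by
  simp [bd]

theorem face_q (c : Cb S) (b : Bool) (k : ℕ) (h : k < c.q) : (c.face b k).q = c.q - 1 := by
  unfold Cb.face; rw [dif_pos h]

theorem face_r (c : Cb S) (b : Bool) (k : ℕ) : (c.face b k).r = c.r := by
  unfold Cb.face; split_ifs <;> rfl

theorem bd1_mem (c : Cb S) : bd1 c ∈ Finsupp.supported ℚ ℚ {x : Cb S | x.r = c.r ∧ x.q + 1 = c.q} := by
  unfold bd1
  refine Submodule.sum_mem _ fun k hk => Submodule.smul_mem _ _ (sub_mem ?_ ?_) <;>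
  · rw [Finset.mem_range] at hk
    refine Finsupp.single_mem_supported ℚ _ ?_
    refine ⟨face_r S c _ k, ?_⟩
    rw [face_q S c _ k hk]; omega

theorem sg_of_mem (m : ℕ) (x : Ch S) (hx : x ∈ Finsupp.supported ℚ ℚ {c : Cb S | c.q = m}) :
    sg S x = (-1 : ℚ) ^ m • x := by
  rw [Finsupp.supported_eq_span_single] at hx
  induction hx using Submodule.span_induction with
  | mem y hy =>
    obtain ⟨c, hc, rfl⟩ := hy
    have hc' : c.q = m := hc
    show sg S (Finsupp.single c 1) = (-1 : ℚ) ^ m • Finsupp.single c 1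
    rw [sg_single, hc', Finsupp.smul_single, smul_eq_mul, mul_one]
  | zero => simp
  | add y z _ _ h1 h2 => rw [map_add, h1, h2, smul_add]
  | smul a y _ h1 => rw [map_smul, h1, smul_comm]

theorem mu_right (x : Ch S) (c' : Cb S) :
    mu S x (Finsupp.single c' 1) = Finsupp.mapDomain (fun c => c * c') x := by
  induction x using Finsupp.induction_linear with
  | zero => simp
  | add f g hf hg => rw [map_add, LinearMap.add_apply, hf, hg, Finsupp.mapDomain_add]
  | single c r =>
    have : (Finsupp.single c r : Ch S) = r • Finsupp.single c (1 : ℚ) := by simp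
    rw [this, map_smul, LinearMap.smul_apply, mu_single, Finsupp.mapDomain_smul, Finsupp.mapDomain_single]

theorem mu_left (c : Cb S) (x : Ch S) :
    mu S (Finsupp.single c 1) x = Finsupp.mapDomain (fun c' => c * c') x := by
  induction x using Finsupp.induction_linear with
  | zero => simp
  | add f g hf hg => rw [map_add, hf, hg, Finsupp.mapDomain_add]
  | single c' r =>
    have : (Finsupp.single c' r : Ch S) = r • Finsupp.single c' (1 : ℚ) := by simp
    rw [this, map_smul, mu_single, Finsupp.mapDomain_smul, Finsupp.mapDomain_single]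

theorem bilExt {V : Type*} [AddCommGroup V] [Module ℚ V] (F K : Ch S →ₗ[ℚ] Ch S →ₗ[ℚ] V)
    (h : ∀ c c' : Cb S, F (Finsupp.single c 1) (Finsupp.single c' 1) =
      K (Finsupp.single c 1) (Finsupp.single c' 1)) : F = K := by
  ext c c'
  simpa using h c c'

/-- the differential algebra of all cubes -/
def cubeDA (C : CubId S) : DAlg (Cb S) where
  d := bd
  e := sg S
  mul := mu S
  dd := C.bd_bd
  ee := by
    intro a
    have : (sg S) ∘ₗ (sg S) = LinearMap.id := by
      ext c : 2
      show sg S (sg S (Finsupp.single c 1)) = Finsupp.single c 1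
      rw [sg_single]
      have : (Finsupp.single c ((-1 : ℚ) ^ c.q) : Ch S) = (-1 : ℚ) ^ c.q • Finsupp.single c (1 : ℚ) := by simp
      rw [this, map_smul, sg_single, Finsupp.smul_single, smul_eq_mul, ← pow_add, ← two_mul, pow_mul]
      norm_num
    exact LinearMap.congr_fun this a
  de := by
    intro a
    have : bd ∘ₗ (sg S) = - ((sg S) ∘ₗ bd) := by
      ext c : 2
      show bd (sg S (Finsupp.single c 1)) = - sg S (bd (Finsupp.single c 1))
      have h1 : (Finsupp.single c ((-1 : ℚ) ^ c.q) : Ch S) = (-1 : ℚ) ^ c.q • Finsupp.single c (1 : ℚ) := by simp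
      rw [sg_single, h1, map_smul, bd_single]
      rcases Nat.eq_zero_or_pos c.q with h0 | h0
      · have : bd1 c = 0 := by unfold bd1; rw [h0]; simp
        rw [this]; simp
      · have h2 : sg S (bd1 c) = (-1 : ℚ) ^ (c.q - 1) • bd1 c := by
          apply sg_of_mem
          refine Finsupp.supported_mono ?_ (bd1_mem S c)
          rintro x ⟨_, hx⟩
          show x.q = c.q - 1
          omega
        obtain ⟨k, hk⟩ : ∃ k, c.q = k + 1 := ⟨c.q - 1, by omega⟩
        rw [h2, hk, pow_succ]
        simp
    exact LinearMap.congr_fun this a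
  assoc := by
    intro a b c
    induction a using Finsupp.induction_linear with
    | zero => simp
    | add f g hf hg => simp only [map_add, LinearMap.add_apply, hf, hg]
    | single x r =>
      induction b using Finsupp.induction_linear with
      | zero => simp
      | add f g hf hg => simp only [map_add, LinearMap.add_apply, hf, hg]
      | single y s =>
        induction c using Finsupp.induction_linear with
        | zero => simp
        | add f g hf hg => simp only [map_add, hf, hg]
        | single z t =>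
          have e1 : (Finsupp.single x r : Ch S) = r • Finsupp.single x (1 : ℚ) := by simp
          have e2 : (Finsupp.single y s : Ch S) = s • Finsupp.single y (1 : ℚ) := by simp
          have e3 : (Finsupp.single z t : Ch S) = t • Finsupp.single z (1 : ℚ) := by simp
          rw [e1, e2, e3]
          simp only [map_smul, LinearMap.smul_apply, mu_single, mul_assoc]
  emul := by
    intro a b
    have : (mu S).compr₂ (sg S) = (mu S).compl₁₂ (sg S) (sg S) := by
      apply bilExt
      intro c c'
      simp only [LinearMap.compr₂_apply, LinearMap.compl₁₂_apply]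
      have h1 : ∀ c : Cb S, (Finsupp.single c ((-1 : ℚ) ^ c.q) : Ch S) = (-1 : ℚ) ^ c.q • Finsupp.single c (1 : ℚ) := by
        intro c; simp
      rw [mu_single, sg_single, sg_single, sg_single, h1, h1, h1, map_smul, map_smul,
        LinearMap.smul_apply, mu_single, smul_smul, Cb.mul_q, pow_add, mul_comm]
    exact LinearMap.congr_fun₂ this a b
  leib := by
    intro a b
    have : (mu S).compr₂ bd = (mu S).comp bd + (mu S).compl₁₂ (sg S) bd := by
      apply bilExt
      intro c c'
      simp only [LinearMap.compr₂_apply, LinearMap.compl₁₂_apply, LinearMap.add_apply, LinearMap.comp_apply]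
      have h1 : ∀ c : Cb S, (Finsupp.single c ((-1 : ℚ) ^ c.q) : Ch S) = (-1 : ℚ) ^ c.q • Finsupp.single c (1 : ℚ) := by
        intro c; simp
      rw [mu_single, bd_single, bd_single, bd_single, sg_single, h1, map_smul, LinearMap.smul_apply,
        mu_right, mu_left, C.bd1_mul]
    exact LinearMap.congr_fun₂ this a b

theorem DB_eq_BD (C : CubId S) (w : BT S) : DB (cubeDA S C) w = BD w := by
  have : DB (cubeDA S C) = (BD : BT S →ₗ[ℚ] BT S) := by
    have gen : ∀ l : List (Cb S), DBl (cubeDA S C) l = BD1 l := by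
      intro l
      induction l with
      | nil => rfl
      | cons c l ih =>
        have h1 : ∀ c : Cb S, (Finsupp.single c ((-1 : ℚ) ^ c.q) : Ch S) = (-1 : ℚ) ^ c.q • Finsupp.single c (1 : ℚ) := by
          intro c; simp
        have hc1 : ∀ (x : Ch S) (l : List (Cb S)), consB x (Finsupp.single l 1) =
            Finsupp.mapDomain (fun c => c :: l) x := by
          intro x l
          induction x using Finsupp.induction_linear with
          | zero => simp
          | add f g hf hg => rw [map_add, LinearMap.add_apply, hf, hg, Finsupp.mapDomain_add]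
          | single c r =>
            have : (Finsupp.single c r : Ch S) = r • Finsupp.single c (1 : ℚ) := by simp
            rw [this, map_smul, LinearMap.smul_apply, consB_single, Finsupp.mapDomain_smul,
              Finsupp.mapDomain_single]
        have hc2 : ∀ (c : Cb S) (w : BT S), consB (Finsupp.single c 1) w =
            Finsupp.mapDomain (fun l => c :: l) w := by
          intro c w
          induction w using Finsupp.induction_linear with
          | zero => simp
          | add f g hf hg => rw [map_add, hf, hg, Finsupp.mapDomain_add]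
          | single l r =>
            have : (Finsupp.single l r : BT S) = r • Finsupp.single l (1 : ℚ) := by simp
            rw [this, map_smul, consB_single, Finsupp.mapDomain_smul, Finsupp.mapDomain_single]
        have hd : (cubeDA S C).d (Finsupp.single c 1) = bd1 c := bd_single S c
        have he : (cubeDA S C).e (Finsupp.single c 1) = (-1 : ℚ) ^ c.q • Finsupp.single c (1 : ℚ) := by
          rw [← h1]; exact sg_single S c
        cases l with
        | nil =>
          show consB ((cubeDA S C).d (Finsupp.single c 1)) (Finsupp.single [] 1)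
            - consB ((cubeDA S C).e (Finsupp.single c 1)) (DBl (cubeDA S C) [])
            + mergeHead (cubeDA S C) ((cubeDA S C).e (Finsupp.single c 1)) (Finsupp.single [] 1) = _
          rw [mergeHead_nil, hd, hc1]
          simp [DBl, BD1]
        | cons c' l =>
          show consB ((cubeDA S C).d (Finsupp.single c 1)) (Finsupp.single (c' :: l) 1)
            - consB ((cubeDA S C).e (Finsupp.single c 1)) (DBl (cubeDA S C) (c' :: l))
            + mergeHead (cubeDA S C) ((cubeDA S C).e (Finsupp.single c 1)) (Finsupp.single (c' :: l) 1) = _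
          rw [ih, hd, he, hc1]
          have hm : mergeHead (cubeDA S C) ((-1 : ℚ) ^ c.q • Finsupp.single c (1 : ℚ))
              (Finsupp.single (c' :: l) 1) = (-1 : ℚ) ^ c.q • Finsupp.single ((c * c') :: l) 1 := by
            rw [map_smul, LinearMap.smul_apply, ← consB_single, mergeHead_cons]
            show _ • consB (mu S (Finsupp.single c 1) (Finsupp.single c' 1)) _ = _
            rw [mu_single, consB_single]
          rw [hm, map_smul, LinearMap.smul_apply, hc2]
          show _ = Finsupp.mapDomain (fun x => x :: c' :: l) (bd1 c) +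
            (-1 : ℚ) ^ c.q • Finsupp.single ((c * c') :: l) 1 +
            (-1 : ℚ) ^ (c.q + 1) • Finsupp.mapDomain (fun x => c :: x) (BD1 (c' :: l))
          rw [pow_succ]
          simp only [mul_neg, mul_one, neg_smul]
          abel
    unfold DB BD
    congr 1
    funext l
    exact gen l
  rw [this]

/-! ### degenerate cubes -/

/-- independence of the bit `k` -/
def Ind (c : Cb S) (k : ℕ) : Prop :=
  ∀ s s' : ℕ → Bool, (∀ i, i ≠ k → s i = s' i) → c.y s = c.y s' ∧ c.l s = c.l s'

theorem ins_agree (j k : ℕ) (b : Bool) (h : j ≠ k) (s s' : ℕ → Bool)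
    (hs : ∀ i, i ≠ (if k < j then k else k - 1) → s i = s' i) (i : ℕ) (hi : i ≠ k) :
    ins j b s i = ins j b s' i := by
  unfold ins
  by_cases h1 : i < j
  · simp only [h1, if_true]
    apply hs
    split_ifs <;> omega
  · by_cases h2 : i = j
    · simp [h2]
    · simp only [h1, h2, if_false]
      apply hs
      split_ifs <;> omega

theorem face_dg (c : Cb S) (k : ℕ) (hk : k < c.q) (hI : Ind S c k) (b : Bool) (j : ℕ) (hj : j < c.q)
    (hjk : j ≠ k) : (c.face b j).Dg := by
  refine ⟨if k < j then k else k - 1, ?_, ?_⟩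
  · rw [face_q S c b j hj]
    split_ifs <;> omega
  · intro s s' hs
    have h := hI _ _ (fun i hi => ins_agree j k b hjk s s' hs i hi)
    unfold Cb.face
    rw [dif_pos hj]
    exact ⟨by show _ * _ = _ * _; rw [h.1], by show _ • _ = _ • _; rw [h.2]⟩

theorem face_eq (c : Cb S) (k : ℕ) (hk : k < c.q) (hI : Ind S c k) : c.face true k = c.face false k := by
  have h : ∀ s, c.y (ins k true s) = c.y (ins k false s) ∧ c.l (ins k true s) = c.l (ins k false s) := by
    intro s
    apply hI
    intro i hi
    unfold ins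
    by_cases h1 : i < k
    · simp [h1]
    · simp [h1, hi]
  unfold Cb.face
  rw [dif_pos hk, dif_pos hk]
  refine Cb.ext rfl rfl ?_ ?_
  · funext s
    show (c.fv true k)⁻¹ * c.y (ins k true s) = (c.fv false k)⁻¹ * c.y (ins k false s)
    unfold Cb.fv
    rw [(h s).1, (h z0).1]
  · funext s
    show (c.fv true k)⁻¹ • c.l (ins k true s) = (c.fv false k)⁻¹ • c.l (ins k false s)
    unfold Cb.fv
    rw [(h s).2, (h z0).1]

theorem bd1_deg (c : Cb S) (h : c.Dg) : bd1 c ∈ DegC S := by
  obtain ⟨k, hk, hI⟩ := h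
  unfold bd1
  refine Submodule.sum_mem _ fun j hj => Submodule.smul_mem _ _ ?_
  rw [Finset.mem_range] at hj
  by_cases hjk : j = k
  · subst hjk
    rw [face_eq S c j hk hI, sub_self]
    exact zero_mem _
  · exact sub_mem (Finsupp.single_mem_supported ℚ _ (face_dg S c k hk hI true j hj hjk))
      (Finsupp.single_mem_supported ℚ _ (face_dg S c k hk hI false j hj hjk))

theorem mul_dg_left (c c' : Cb S) (h : c.Dg) : (c * c').Dg := by
  obtain ⟨k, hk, hI⟩ := h
  refine ⟨k, by rw [Cb.mul_q]; omega, fun s s' hs => ?_⟩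
  have h1 := hI s s' hs
  have h2 : (fun i => s (c.q + i)) = (fun i => s' (c.q + i)) := by
    funext i; exact hs _ (by omega)
  rw [Cb.mul_y, Cb.mul_y, Cb.mul_l, Cb.mul_l, h1.1, h1.2, h2]
  exact ⟨rfl, rfl⟩

theorem mul_dg_right (c c' : Cb S) (h : c'.Dg) : (c * c').Dg := by
  obtain ⟨k, hk, hI⟩ := h
  refine ⟨c.q + k, by rw [Cb.mul_q]; omega, fun s s' hs => ?_⟩
  have h1 : c.y s = c.y s' := c.y_dep s s' fun i hi => hs i (by omega)
  have h2 : c.l s = c.l s' := c.l_dep s s' fun i hi => hs i (by omega)
  have h3 := hI (fun i => s (c.q + i)) (fun i => s' (c.q + i)) fun i hi => hs _ (by omega)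
  rw [Cb.mul_y, Cb.mul_y, Cb.mul_l, Cb.mul_l, h1, h2, h3.1, h3.2]
  exact ⟨rfl, rfl⟩

/-- a linear map sending degenerate cubes into `D` sends degenerate chains into `D` -/
theorem degC_map {V : Type*} [AddCommGroup V] [Module ℚ V] (F : Ch S →ₗ[ℚ] V) (D : Submodule ℚ V)
    (h : ∀ c : Cb S, c.Dg → F (Finsupp.single c 1) ∈ D) (x : Ch S) (hx : x ∈ DegC S) : F x ∈ D := by
  have : x ∈ D.comap F := by
    rw [DegC, Finsupp.supported_eq_span_single] at hx
    refine Submodule.span_le.2 ?_ hx
    rintro _ ⟨c, hc, rfl⟩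
    exact h c hc
  exact this

theorem degB_map {V : Type*} [AddCommGroup V] [Module ℚ V] (F : BT S →ₗ[ℚ] V) (D : Submodule ℚ V)
    (h : ∀ l : List (Cb S), (∃ c ∈ l, c.Dg) → F (Finsupp.single l 1) ∈ D) (x : BT S) (hx : x ∈ DegB S) :
    F x ∈ D := by
  have : x ∈ D.comap F := by
    rw [DegB, Finsupp.supported_eq_span_single] at hx
    refine Submodule.span_le.2 ?_ hx
    rintro _ ⟨c, hc, rfl⟩
    exact h c hc
  exact this

/-- nondegenerate cubes -/
abbrev Nd : Type := {c : Cb S // ¬ c.Dg}

/-- projection to nondegenerate cubes -/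
def prN : Ch S →ₗ[ℚ] (Nd S →₀ ℚ) := Finsupp.lsubtypeDomain {c : Cb S | ¬ c.Dg}

/-- inclusion of nondegenerate cubes -/
def inN : (Nd S →₀ ℚ) →ₗ[ℚ] Ch S := Finsupp.lmapDomain ℚ ℚ Subtype.val

theorem prN_inN (a : Nd S →₀ ℚ) : prN S (inN S a) = a := by
  ext ⟨c, hc⟩
  exact Finsupp.mapDomain_apply Subtype.val_injective a ⟨c, hc⟩

theorem prN_eq_zero (a : Ch S) : prN S a = 0 ↔ a ∈ DegC S := by
  constructor
  · intro h c hc
    by_contra hd
    have : (prN S a) ⟨c, hd⟩ = 0 := by rw [h]; rfl
    have h2 : a c = 0 := this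
    exact (Finsupp.mem_support_iff.1 hc) h2
  · intro h
    ext ⟨c, hc⟩
    show a c = 0
    by_contra h2
    exact hc (h (Finsupp.mem_support_iff.2 h2))

theorem prN_single_nd (c : Nd S) : prN S (Finsupp.single c.1 1) = Finsupp.single c 1 := by
  have : (Finsupp.single c.1 1 : Ch S) = inN S (Finsupp.single c 1) := by
    unfold inN; rw [Finsupp.lmapDomain_apply, Finsupp.mapDomain_single]
  rw [this, prN_inN]

theorem prN_single_dg (c : Cb S) (h : c.Dg) : prN S (Finsupp.single c 1) = 0 :=
  (prN_eq_zero S _).2 (Finsupp.single_mem_supported ℚ _ h)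

/-- the differential algebra of nondegenerate cubes -/
def ndDA (C : CubId S) : DAlg (Nd S) :=
  DAlg.quot (cubeDA S C) (prN S) (inN S) (prN_inN S)
    (fun a ha => (prN_eq_zero S _).2 (degC_map S bd (DegC S) (fun c hc => by
      rw [bd_single]; exact bd1_deg S c hc) a ((prN_eq_zero S a).1 ha)))
    (fun a ha => (prN_eq_zero S _).2 (degC_map S (sg S) (DegC S) (fun c hc => by
      rw [sg_single]; exact Finsupp.single_mem_supported ℚ _ hc) a ((prN_eq_zero S a).1 ha)))
    (fun a b ha => (prN_eq_zero S _).2 (degC_map S ((mu S).flip b) (DegC S) (fun c hc => by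
      rw [LinearMap.flip_apply, mu_left]
      induction b using Finsupp.induction_linear with
      | zero => simp
      | add f g hf hg => rw [Finsupp.mapDomain_add]; exact add_mem hf hg
      | single c' r =>
        rw [Finsupp.mapDomain_single]
        exact Finsupp.single_mem_supported ℚ _ (mul_dg_left S c c' hc)) a ((prN_eq_zero S a).1 ha)))
    (fun a b hb => (prN_eq_zero S _).2 (degC_map S (mu S a) (DegC S) (fun c hc => by
      rw [mu_right]
      induction a using Finsupp.induction_linear with
      | zero => simp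
      | add f g hf hg => rw [Finsupp.mapDomain_add]; exact add_mem hf hg
      | single c' r =>
        rw [Finsupp.mapDomain_single]
        exact Finsupp.single_mem_supported ℚ _ (mul_dg_right S c' c hc)) b ((prN_eq_zero S b).1 hb)))

theorem prN_mor (C : CubId S) : IsMor (cubeDA S C) (ndDA S C) (prN S) where
  d := by
    intro a
    have hk : inN S (prN S a) - a ∈ DegC S := by
      rw [← prN_eq_zero, map_sub, prN_inN, sub_self]
    have := degC_map S bd (DegC S) (fun c hc => by rw [bd_single]; exact bd1_deg S c hc) _ hk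
    rw [← prN_eq_zero, map_sub, map_sub, sub_eq_zero] at this
    exact this.symm
  e := by
    intro a
    have hk : inN S (prN S a) - a ∈ DegC S := by
      rw [← prN_eq_zero, map_sub, prN_inN, sub_self]
    have := degC_map S (sg S) (DegC S) (fun c hc => by
      rw [sg_single]; exact Finsupp.single_mem_supported ℚ _ hc) _ hk
    rw [← prN_eq_zero, map_sub, map_sub, sub_eq_zero] at this
    exact this.symm
  mul := by
    intro a b
    have key : ∀ a b : Ch S, (a ∈ DegC S ∨ b ∈ DegC S) → mu S a b ∈ DegC S := by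
      rintro a b (ha | hb)
      · refine degC_map S ((mu S).flip b) (DegC S) (fun c hc => ?_) a ha
        rw [LinearMap.flip_apply, mu_left]
        induction b using Finsupp.induction_linear with
        | zero => simp
        | add f g hf hg => rw [Finsupp.mapDomain_add]; exact add_mem hf hg
        | single c' r =>
          rw [Finsupp.mapDomain_single]
          exact Finsupp.single_mem_supported ℚ _ (mul_dg_left S c c' hc)
      · refine degC_map S (mu S a) (DegC S) (fun c hc => ?_) b hb
        rw [mu_right]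
        induction a using Finsupp.induction_linear with
        | zero => simp
        | add f g hf hg => rw [Finsupp.mapDomain_add]; exact add_mem hf hg
        | single c' r =>
          rw [Finsupp.mapDomain_single]
          exact Finsupp.single_mem_supported ℚ _ (mul_dg_right S c' c hc)
    have hk : ∀ a, inN S (prN S a) - a ∈ DegC S := fun a => by
      rw [← prN_eq_zero, map_sub, prN_inN, sub_self]
    have h1 := key _ (inN S (prN S b)) (Or.inl (hk a))
    have h2 := key a _ (Or.inr (hk b))
    rw [← prN_eq_zero, map_sub, LinearMap.sub_apply, map_sub, sub_eq_zero] at h1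
    rw [← prN_eq_zero, map_sub, map_sub, sub_eq_zero] at h2
    show prN S (mu S a b) = prN S (mu S (inN S (prN S a)) (inN S (prN S b)))
    rw [h1, h2]

/-- kernel of the projection of lists -/
theorem mapB_prN_eq_zero (w : BT S) : mapB (prN S) w = 0 ↔ w ∈ DegB S := by
  have hdeg : ∀ l : List (Cb S), (∃ c ∈ l, c.Dg) → mapB (prN S) (Finsupp.single l 1) = 0 := by
    intro l
    induction l with
    | nil => rintro ⟨c, hc, _⟩; simp at hc
    | cons x l ih =>
      rintro ⟨c, hc, hd⟩
      rw [← consB_single, mapB_cons]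
      rcases List.mem_cons.1 hc with rfl | h
      · rw [prN_single_dg S c hd]; simp
      · rw [ih ⟨c, h, hd⟩]; simp
  have hdiff : ∀ l : List (Cb S), mapB (inN S) (mapB (prN S) (Finsupp.single l 1)) - Finsupp.single l 1 ∈ DegB S := by
    intro l
    by_cases hl : ∃ c ∈ l, c.Dg
    · rw [hdeg l hl, map_zero, zero_sub]
      exact neg_mem (Finsupp.single_mem_supported ℚ _ hl)
    · have : mapB (inN S) (mapB (prN S) (Finsupp.single l 1)) = Finsupp.single l 1 := by
        induction l with
        | nil => rw [mapB_nil, mapB_nil]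
        | cons x l ih =>
          have hx : ¬ x.Dg := fun h => hl ⟨x, by simp, h⟩
          have h1 : mapB (inN S) (mapB (prN S) (Finsupp.single l 1)) = Finsupp.single l 1 :=
            ih (fun ⟨c, hc, hd⟩ => hl ⟨c, by simp [hc], hd⟩)
          rw [← consB_single, mapB_cons, mapB_cons, h1]
          have h2 := prN_single_nd S ⟨x, hx⟩
          have h3 : inN S (prN S (Finsupp.single x 1)) = Finsupp.single x 1 := by
            rw [show prN S (Finsupp.single x 1) = Finsupp.single (⟨x, hx⟩ : Nd S) 1 from h2]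
            unfold inN; rw [Finsupp.lmapDomain_apply, Finsupp.mapDomain_single]
          rw [h3]
      rw [this, sub_self]; exact zero_mem _
  constructor
  · intro h
    have h2 : mapB (inN S) (mapB (prN S) w) - w ∈ DegB S := by
      have : (mapB (inN S)).comp (mapB (prN S)) - LinearMap.id =
          Finsupp.linearCombination ℚ (fun l : List (Cb S) =>
            mapB (inN S) (mapB (prN S) (Finsupp.single l 1)) - Finsupp.single l 1) := by
        ext l : 2
        simp
      have h3 := LinearMap.congr_fun this w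
      simp only [LinearMap.sub_apply, LinearMap.comp_apply, LinearMap.id_apply] at h3
      rw [h3, Finsupp.linearCombination_apply]
      exact Submodule.sum_mem _ fun l _ => Submodule.smul_mem _ _ (hdiff l)
    rw [h, map_zero, zero_sub] at h2
    simpa using neg_mem h2
  · intro h
    have := degB_map S (mapB (prN S)) (⊥ : Submodule ℚ (List (Nd S) →₀ ℚ))
      (fun l hl => by rw [Submodule.mem_bot]; exact hdeg l hl) w h
    simpa using this

end fixS

/-! ### morphisms -/

section mor

variable {G' P' : Type} [Group G'] [Preorder P'] [MulAction G' P'] {S : Sys G P} {S' : Sys G' P'} {d : ℕ}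

theorem cb_mul (f : SHom S S' d) (c c' : Cb S) : f.cb (c * c') = f.cb c * f.cb c' := by
  refine Cb.ext ?_ rfl ?_ ?_
  · show d * (c.r + c'.r) = d * c.r + d * c'.r
    ring
  · funext s
    exact f.G_sh _ _ _ _ (c.y_mem _) (c'.y_mem _)
  · funext s
    exact f.P_jn _ _ _ _ (c.l_mem _) (c'.l_mem _)

theorem fG_inv (f : SHom S S' d) (n : ℕ) (g : G) (hg : g ∈ S.Gn n) : f.fG g⁻¹ = (f.fG g)⁻¹ := by
  rw [eq_inv_iff_mul_eq_one, ← f.G_mul n _ _ (inv_mem hg) hg, inv_mul_cancel, f.G_one]

theorem cb_face (f : SHom S S' d) (c : Cb S) (b : Bool) (k : ℕ) :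
    f.cb (c.face b k) = (f.cb c).face b k := by
  by_cases h : k < c.q
  · have h' : k < (f.cb c).q := h
    unfold Cb.face
    rw [dif_pos h, dif_pos h']
    refine Cb.ext rfl rfl ?_ ?_
    · funext s
      have hv : c.fv b k ∈ S.Gn c.r := c.y_mem _
      show f.fG ((c.fv b k)⁻¹ * c.y (ins k b s)) = ((f.cb c).fv b k)⁻¹ * f.fG (c.y (ins k b s))
      rw [f.G_mul c.r _ _ (inv_mem hv) (c.y_mem _), fG_inv f c.r _ hv]
      rfl
    · funext s
      have hv : c.fv b k ∈ S.Gn c.r := c.y_mem _
      show f.fP c.r ((c.fv b k)⁻¹ • c.l (ins k b s)) = ((f.cb c).fv b k)⁻¹ • f.fP c.r (c.l (ins k b s))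
      rw [f.P_smul c.r _ _ (inv_mem hv) (c.l_mem _), fG_inv f c.r _ hv]
      rfl
  · have h' : ¬ k < (f.cb c).q := h
    have e1 : c.face b k = c := by unfold Cb.face; rw [dif_neg h]
    have e2 : (f.cb c).face b k = f.cb c := by unfold Cb.face; rw [dif_neg h']
    rw [e1, e2]

theorem cb_dg (f : SHom S S' d) (c : Cb S) (h : c.Dg) : (f.cb c).Dg := by
  obtain ⟨k, hk, hI⟩ := h
  refine ⟨k, hk, fun s s' hs => ?_⟩
  obtain ⟨h1, h2⟩ := hI s s' hs
  exact ⟨by show f.fG _ = f.fG _; rw [h1], by show f.fP _ _ = f.fP _ _; rw [h2]⟩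

theorem ch_single (f : SHom S S' d) (c : Cb S) (r : ℚ) :
    f.ch (Finsupp.single c r) = Finsupp.single (f.cb c) r := by
  unfold SHom.ch; rw [Finsupp.lmapDomain_apply, Finsupp.mapDomain_single]

theorem ch_bd1 (f : SHom S S' d) (c : Cb S) : f.ch (bd1 c) = bd1 (f.cb c) := by
  unfold bd1
  rw [map_sum]
  refine Finset.sum_congr rfl fun k _ => ?_
  rw [map_smul, map_sub, ch_single, ch_single, cb_face, cb_face]

theorem ch_mor (C : CubId S) (C' : CubId S') (f : SHom S S' d) :
    IsMor (cubeDA S C) (cubeDA S' C') f.ch where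
  d := by
    intro a
    have : f.ch ∘ₗ bd = bd ∘ₗ f.ch := by
      ext c : 2
      show f.ch (bd (Finsupp.single c 1)) = bd (f.ch (Finsupp.single c 1))
      rw [bd_single, ch_bd1, ch_single, bd_single]
    exact LinearMap.congr_fun this a
  e := by
    intro a
    have : f.ch ∘ₗ sg S = sg S' ∘ₗ f.ch := by
      ext c : 2
      show f.ch (sg S (Finsupp.single c 1)) = sg S' (f.ch (Finsupp.single c 1))
      rw [sg_single, ch_single, ch_single, sg_single]
      rfl
    exact LinearMap.congr_fun this a
  mul := by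
    intro a b
    have : (mu S).compr₂ f.ch = (mu S').compl₁₂ f.ch f.ch := by
      apply bilExt
      intro c c'
      simp only [LinearMap.compr₂_apply, LinearMap.compl₁₂_apply]
      rw [mu_single, ch_single, ch_single, ch_single, mu_single, cb_mul]
    exact LinearMap.congr_fun₂ this a b

theorem bt_eq (f : SHom S S' d) (w : BT S) : mapB f.ch w = f.bt w := by
  have : mapB f.ch = f.bt := by
    apply listInd
    · rw [mapB_nil]; unfold SHom.bt; rw [Finsupp.lmapDomain_apply, Finsupp.mapDomain_single]; rfl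
    · intro a w ih
      rw [mapB_cons, ih]
      have key : consB.compl₁₂ f.ch f.bt = (consB (X := Cb S)).compr₂ f.bt := by
        apply bil_ext
        intro x l
        simp only [LinearMap.compr₂_apply, LinearMap.compl₁₂_apply]
        unfold SHom.bt SHom.ch
        rw [consB_single, Finsupp.lmapDomain_apply, Finsupp.lmapDomain_apply, Finsupp.lmapDomain_apply,
          Finsupp.mapDomain_single, Finsupp.mapDomain_single, Finsupp.mapDomain_single, consB_single]
        rfl
      exact LinearMap.congr_fun₂ key a w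
  rw [this]

theorem ch_degC (f : SHom S S' d) (x : Ch S) (hx : x ∈ DegC S) : f.ch x ∈ DegC S' :=
  degC_map S f.ch (DegC S') (fun c hc => by
    rw [ch_single]; exact Finsupp.single_mem_supported ℚ _ (cb_dg f c hc)) x hx

/-- the induced map on nondegenerate cubes -/
def fN (f : SHom S S' d) : (Nd S →₀ ℚ) →ₗ[ℚ] (Nd S' →₀ ℚ) := prN S' ∘ₗ f.ch ∘ₗ inN S

theorem fN_prN (f : SHom S S' d) (a : Ch S) : fN f (prN S a) = prN S' (f.ch a) := by
  have hk : inN S (prN S a) - a ∈ DegC S := by
    rw [← prN_eq_zero, map_sub, prN_inN, sub_self]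
  have := ch_degC f _ hk
  rw [← prN_eq_zero, map_sub, map_sub, sub_eq_zero] at this
  exact this

theorem prN_surj : Function.Surjective (prN S) := fun a => ⟨inN S a, prN_inN S a⟩

theorem fN_mor (C : CubId S) (C' : CubId S') (f : SHom S S' d) : IsMor (ndDA S C) (ndDA S' C') (fN f) :=
  (ch_mor C C' f).descend (prN_mor S C) (prN_mor S' C') prN_surj (fN_prN f)

theorem mapB_fN (f : SHom S S' d) (w : BT S) :
    mapB (fN f) (mapB (prN S) w) = mapB (prN S') (f.bt w) := by
  rw [← mapB_comp, ← bt_eq, ← mapB_comp]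
  congr 2
  ext c : 2
  show fN f (prN S (Finsupp.single c 1)) = prN S' (f.ch (Finsupp.single c 1))
  exact fN_prN f _

end mor

/-! ### homogeneous components -/

section hom

variable (S : Sys G P)

/-- rank and dimension of a cube -/
def grC (c : Cb S) : ℕ × ℕ := (c.r, c.q)

/-- rank and shifted degree of a list -/
def grB (l : List (Cb S)) : ℕ × ℕ := ((l.map Cb.r).sum, (l.map Cb.q).sum + l.length)

theorem grC_supp (r q : ℕ) : ChN S r q = Finsupp.supported ℚ ℚ {c : Cb S | grC S c = (r, q)} := by
  unfold ChN grC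
  congr 1
  ext c
  simp

theorem grB_supp (n N : ℕ) : BTN S n N = Finsupp.supported ℚ ℚ {l : List (Cb S) | grB S l = (n, N + 1)} := by
  unfold BTN grB
  congr 1
  ext l
  simp only [Set.mem_ofPred_eq, Prod.mk.injEq]
  constructor
  · rintro ⟨_, h1, h2⟩; exact ⟨h1, h2⟩
  · rintro ⟨h1, h2⟩
    refine ⟨?_, h1, h2⟩
    rintro rfl
    simp at h2

theorem cmp_bd (r q : ℕ) (z : Ch S) : cmp (grC S) (r, q) (bd z) = bd (cmp (grC S) (r, q + 1) z) := by
  apply cmp_comm
  · intro c hc y hy
    rw [bd_single] at hy
    have := bd1_mem S c hy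
    unfold grC at hc ⊢
    simp only [Prod.mk.injEq] at hc ⊢
    obtain ⟨h1, h2⟩ := this
    constructor <;> omega
  · intro c hc y hy
    rw [bd_single] at hy
    have := bd1_mem S c hy
    obtain ⟨h1, h2⟩ := this
    intro h3
    unfold grC at h3
    simp only [Prod.mk.injEq] at h3
    exact hc (Prod.ext (by show c.r = r; omega) (by show c.q = q + 1; omega))

theorem bd_cmp_zero (r : ℕ) (z : Ch S) : bd (cmp (grC S) (r, 0) z) = 0 := by
  have h := cmp_mem (grC S) (r, 0) z
  generalize cmp (grC S) (r, 0) z = x at h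
  rw [Finsupp.supported_eq_span_single] at h
  induction h using Submodule.span_induction with
  | mem y hy =>
    obtain ⟨c, hc, rfl⟩ := hy
    have hq : c.q = 0 := by
      have : grC S c = (r, 0) := hc
      unfold grC at this
      simp only [Prod.mk.injEq] at this
      exact this.2
    show bd (Finsupp.single c 1) = 0
    rw [bd_single]
    unfold bd1
    rw [hq]; simp
  | zero => simp
  | add y z _ _ h1 h2 => rw [map_add, h1, h2, add_zero]
  | smul a y _ h1 => rw [map_smul, h1, smul_zero]

theorem BD1_mem (l : List (Cb S)) :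
    BD1 l ∈ Finsupp.supported ℚ ℚ {l' : List (Cb S) | (grB S l').1 = (grB S l).1 ∧
      (grB S l').2 + 1 = (grB S l).2} := by
  induction l with
  | nil => exact zero_mem _
  | cons c l ih =>
    have hm : ∀ (t : List (Cb S)), Finsupp.mapDomain (fun x => x :: t) (bd1 c) ∈
        Finsupp.supported ℚ ℚ {l' : List (Cb S) | (grB S l').1 = (grB S (c :: t)).1 ∧
        (grB S l').2 + 1 = (grB S (c :: t)).2} := by
      intro t
      classical
      intro y hy
      have hy2 := Finsupp.mapDomain_support hy
      rw [Finset.mem_image] at hy2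
      obtain ⟨x, hx, rfl⟩ := hy2
      obtain ⟨h1, h2⟩ := bd1_mem S c hx
      unfold grB
      simp only [Set.mem_ofPred_eq, List.map_cons, List.sum_cons, List.length_cons]
      constructor <;> omega
    cases l with
    | nil => exact hm []
    | cons c' l =>
      show Finsupp.mapDomain (fun x => x :: c' :: l) (bd1 c) +
        (-1 : ℚ) ^ c.q • Finsupp.single ((c * c') :: l) 1 +
        (-1 : ℚ) ^ (c.q + 1) • Finsupp.mapDomain (fun x => c :: x) (BD1 (c' :: l)) ∈ _
      refine add_mem (add_mem (hm (c' :: l)) (Submodule.smul_mem _ _ ?_)) (Submodule.smul_mem _ _ ?_)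
      · refine Finsupp.single_mem_supported ℚ _ ?_
        unfold grB
        simp only [Set.mem_ofPred_eq, List.map_cons, List.sum_cons, List.length_cons, Cb.mul_r, Cb.mul_q]
        constructor <;> omega
      · classical
        intro y hy
        have hy2 := Finsupp.mapDomain_support hy
        rw [Finset.mem_image] at hy2
        obtain ⟨x, hx, rfl⟩ := hy2
        obtain ⟨h1, h2⟩ := ih hx
        unfold grB at h1 h2 ⊢
        simp only [Set.mem_ofPred_eq, List.map_cons, List.sum_cons, List.length_cons] at h1 h2 ⊢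
        constructor <;> omega

theorem BD_single (l : List (Cb S)) : BD (Finsupp.single l 1) = BD1 l := by
  simp [BD]

theorem cmp_BD (n M : ℕ) (w : BT S) : cmp (grB S) (n, M) (BD w) = BD (cmp (grB S) (n, M + 1) w) := by
  apply cmp_comm
  · intro c hc y hy
    rw [BD_single] at hy
    obtain ⟨h1, h2⟩ := BD1_mem S c hy
    rw [hc] at h1 h2
    exact Prod.ext h1 (by simpa using h2)
  · intro c hc y hy h
    rw [BD_single] at hy
    obtain ⟨h1, h2⟩ := BD1_mem S c hy
    rw [h] at h1 h2
    exact hc (Prod.ext h1.symm h2.symm)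

end hom

section final

variable {G' P' : Type} [Group G'] [Preorder P'] [MulAction G' P'] {S : Sys G P} {S' : Sys G' P'}

theorem grC_cb (f : SHom S S' 1) (c : Cb S) : grC S' (f.cb c) = grC S c := by
  show (1 * c.r, c.q) = (c.r, c.q)
  rw [one_mul]

theorem grB_map (f : SHom S S' 1) (l : List (Cb S)) : grB S' (l.map f.cb) = grB S l := by
  unfold grB
  rw [List.map_map, List.map_map, List.length_map]
  have h1 : (Cb.r ∘ f.cb) = Cb.r := by funext c; exact one_mul _
  have h2 : (Cb.q ∘ f.cb) = Cb.q := rfl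
  rw [h1, h2]

theorem cmp_ch (f : SHom S S' 1) (i : ℕ × ℕ) (z : Ch S) :
    cmp (grC S') i (f.ch z) = f.ch (cmp (grC S) i z) := by
  apply cmp_comm
  · intro c hc y hy
    rw [ch_single] at hy
    have := Finsupp.support_single_subset hy
    rw [Finset.mem_singleton] at this
    rw [this, grC_cb, hc]
  · intro c hc y hy
    rw [ch_single] at hy
    have := Finsupp.support_single_subset hy
    rw [Finset.mem_singleton] at this
    rw [this, grC_cb]; exact hc

theorem cmp_bt (f : SHom S S' 1) (i : ℕ × ℕ) (z : BT S) :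
    cmp (grB S') i (f.bt z) = f.bt (cmp (grB S) i z) := by
  have hs : ∀ l : List (Cb S), f.bt (Finsupp.single l 1) = Finsupp.single (l.map f.cb) 1 := by
    intro l
    unfold SHom.bt; rw [Finsupp.lmapDomain_apply, Finsupp.mapDomain_single]
  apply cmp_comm
  · intro c hc y hy
    rw [hs] at hy
    have := Finsupp.support_single_subset hy
    rw [Finset.mem_singleton] at this
    rw [this, grB_map, hc]
  · intro c hc y hy
    rw [hs] at hy
    have := Finsupp.support_single_subset hy
    rw [Finset.mem_singleton] at this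
    rw [this, grB_map]; exact hc

/-- the kernel hypothesis for the whole algebra -/
theorem ker_all (C : CubId S) (f : SHom S S' 1) (hk : ∀ r, 0 < r → KerExact f r)
    (x : Nd S →₀ ℚ) (h1 : fN f x = 0) (h2 : (ndDA S C).d x = 0) :
    ∃ y, fN f y = 0 ∧ (ndDA S C).d y = x := by
  classical
  set z := inN S x with hz
  have hx : prN S z = x := prN_inN S x
  have hbd : bd z ∈ DegC S := by
    rw [← prN_eq_zero]
    have := (prN_mor S C).d z
    rw [hx, h2] at this
    exact this
  have hch : f.ch z ∈ DegC S' := by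
    rw [← prN_eq_zero, ← fN_prN, hx, h1]
  have key : ∀ i : ℕ × ℕ, i.1 ≠ 0 → ∃ w : Ch S, f.ch w ∈ DegC S' ∧ cmp (grC S) i z - bd w ∈ DegC S := by
    rintro ⟨r, q⟩ hr
    have hr' : 0 < r := Nat.pos_of_ne_zero hr
    have hm : cmp (grC S) (r, q) z ∈ ChN S r q := by
      rw [grC_supp]; exact cmp_mem _ _ _
    have hb : bd (cmp (grC S) (r, q) z) ∈ DegC S := by
      cases q with
      | zero => rw [bd_cmp_zero]; exact zero_mem _
      | succ q => rw [← cmp_bd]; exact cmp_mem_supp _ _ _ _ hbd
    have hc : f.ch (cmp (grC S) (r, q) z) ∈ DegC S' := by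
      rw [← cmp_ch]; exact cmp_mem_supp _ _ _ _ hch
    obtain ⟨w, _, hw1, hw2⟩ := hk r hr' q _ hm hb hc
    exact ⟨w, hw1, hw2⟩
  have hsum : ∀ I : Finset (ℕ × ℕ), (∀ i ∈ I, i.1 ≠ 0) →
      ∃ w : Ch S, f.ch w ∈ DegC S' ∧ (∑ i ∈ I, cmp (grC S) i z) - bd w ∈ DegC S := by
    intro I
    induction I using Finset.induction_on with
    | empty => intro _; exact ⟨0, by simp, by simp⟩
    | insert i I hi ih =>
      intro h
      obtain ⟨w, hw1, hw2⟩ := ih fun j hj => h j (Finset.mem_insert_of_mem hj)
      obtain ⟨v, hv1, hv2⟩ := key i (h i (Finset.mem_insert_self _ _))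
      refine ⟨v + w, by rw [map_add]; exact add_mem hv1 hw1, ?_⟩
      rw [Finset.sum_insert hi, map_add]
      have := add_mem hv2 hw2
      convert this using 1
      abel
  obtain ⟨w, hw1, hw2⟩ := hsum (z.support.image (grC S)) (by
    intro i hi
    rw [Finset.mem_image] at hi
    obtain ⟨c, _, rfl⟩ := hi
    exact Nat.pos_iff_ne_zero.1 c.r_pos)
  rw [cmp_sum] at hw2
  refine ⟨prN S w, ?_, ?_⟩
  · rw [fN_prN, prN_eq_zero]; exact hw1
  · rw [← (prN_mor S C).d]
    show prN S (bd w) = x
    rw [← prN_eq_zero, map_sub, sub_eq_zero] at hw2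
    rw [← hw2, hx]

theorem fN_surj (f : SHom S S' 1) (hs : CbOnto f) : Function.Surjective (fN f) := by
  have hb : ∀ c' : Nd S', ∃ a, fN f a = Finsupp.single c' 1 := by
    rintro ⟨c', hc'⟩
    obtain ⟨c, rfl⟩ := hs c'
    refine ⟨prN S (Finsupp.single c 1), ?_⟩
    rw [fN_prN, ch_single]
    exact prN_single_nd S' ⟨f.cb c, hc'⟩
  intro b
  have : b ∈ LinearMap.range (fN f) := by
    induction b using Finsupp.induction_linear with
    | zero => exact zero_mem _
    | add u v hu hv => exact add_mem hu hv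
    | single c r =>
      obtain ⟨a, ha⟩ := hb c
      have : (Finsupp.single c r : Nd S' →₀ ℚ) = r • Finsupp.single c (1 : ℚ) := by simp
      rw [this, ← ha]
      exact Submodule.smul_mem _ _ ⟨a, rfl⟩
  exact this

theorem DB_prN (S : Sys G P) (C : CubId S) (w : BT S) :
    mapB (prN S) (BD w) = DB (ndDA S C) (mapB (prN S) w) := by
  rw [← DB_eq_BD S C, mapB_DB _ _ _ (prN_mor S C)]

theorem mapB_prN_inN (S : Sys G P) (w : List (Nd S) →₀ ℚ) : mapB (prN S) (mapB (inN S) w) = w := by
  rw [← mapB_comp]
  have h : prN S ∘ₗ inN S = LinearMap.id := by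
    ext1 c
    ext1
    show prN S (inN S (Finsupp.single c 1)) = _
    rw [prN_inN]; rfl
  rw [h]
  have : mapB (LinearMap.id : (Nd S →₀ ℚ) →ₗ[ℚ] (Nd S →₀ ℚ)) = LinearMap.id := by
    apply listInd
    · rw [mapB_nil]; rfl
    · intro a w ih
      rw [mapB_cons, ih]; rfl
  rw [this]; rfl

/-- cycles lift -/
theorem lift_cycle (C : CubId S) (C' : CubId S') (f : SHom S S' 1) (hs : CbOnto f)
    (hk : ∀ r, 0 < r → KerExact f r) (n N : ℕ) (z' : BT S') (hz : z' ∈ BTN S' n N)
    (hD : BD z' ∈ DegB S') :
    ∃ z ∈ BTN S n N, BD z ∈ DegB S ∧ f.bt z - z' ∈ DegB S' := by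
  obtain ⟨h1, _⟩ := L1 (ndDA S C) (ndDA S' C') (fN f) (fN_mor C C' f) (fN_surj f hs) (ker_all C f hk)
  obtain ⟨c, hc1, hc2⟩ := h1 (mapB (prN S') z') (by
    rw [← DB_prN]; exact (mapB_prN_eq_zero S' _).2 hD)
  set z0 := mapB (inN S) c with hz0
  have hp : mapB (prN S) z0 = c := mapB_prN_inN S c
  have hb0 : BD z0 ∈ DegB S := by
    rw [← mapB_prN_eq_zero, DB_prN S C, hp, hc1]
  have hf0 : f.bt z0 - z' ∈ DegB S' := by
    rw [← mapB_prN_eq_zero, map_sub, ← mapB_fN, hp, hc2, sub_self]
  refine ⟨cmp (grB S) (n, N + 1) z0, ?_, ?_, ?_⟩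
  · rw [grB_supp]; exact cmp_mem _ _ _
  · rw [← cmp_BD]; exact cmp_mem_supp _ _ _ _ hb0
  · rw [grB_supp] at hz
    have h3 : cmp (grB S') (n, N + 1) z' = z' := cmp_of_eq _ _ _ fun l hl => hz hl
    have h4 := cmp_mem_supp (grB S') (n, N + 1) _ _ hf0
    rw [map_sub, h3, cmp_bt] at h4
    exact h4

/-- a cycle whose image is a boundary is a boundary -/
theorem lift_bound (C : CubId S) (C' : CubId S') (f : SHom S S' 1) (hs : CbOnto f)
    (hk : ∀ r, 0 < r → KerExact f r) (n N : ℕ) (z : BT S) (hz : z ∈ BTN S n N)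
    (hD : BD z ∈ DegB S) (w' : BT S') (hw : f.bt z - BD w' ∈ DegB S') :
    ∃ w ∈ BTN S n (N + 1), z - BD w ∈ DegB S := by
  obtain ⟨_, h2⟩ := L1 (ndDA S C) (ndDA S' C') (fN f) (fN_mor C C' f) (fN_surj f hs) (ker_all C f hk)
  obtain ⟨b, hb⟩ := h2 (mapB (prN S) z) (by
    rw [← DB_prN]; exact (mapB_prN_eq_zero S _).2 hD) ⟨mapB (prN S') w', by
      rw [← DB_prN, mapB_fN]
      rw [← mapB_prN_eq_zero, map_sub, sub_eq_zero] at hw
      exact hw.symm⟩
  set w0 := mapB (inN S) b with hw0
  have hp : mapB (prN S) w0 = b := mapB_prN_inN S b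
  have hb0 : z - BD w0 ∈ DegB S := by
    rw [← mapB_prN_eq_zero, map_sub, DB_prN S C, hp, hb, sub_self]
  refine ⟨cmp (grB S) (n, N + 1 + 1) w0, ?_, ?_⟩
  · rw [grB_supp]; exact cmp_mem _ _ _
  · rw [grB_supp] at hz
    have h3 : cmp (grB S) (n, N + 1) z = z := cmp_of_eq _ _ _ fun l hl => hz hl
    have h4 := cmp_mem_supp (grB S) (n, N + 1) _ _ hb0
    rw [map_sub, h3, cmp_BD] at h4
    exact h4

/-- the kernel of the bar map is exact -/
theorem ker_exactB (C : CubId S) (C' : CubId S') (f : SHom S S' 1) (hs : CbOnto f)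
    (hk : ∀ r, 0 < r → KerExact f r) (n N : ℕ) (z : BT S) (hz : z ∈ BTN S n N)
    (hD : BD z ∈ DegB S) (hf : f.bt z ∈ DegB S') :
    ∃ w ∈ BTN S n (N + 1), f.bt w ∈ DegB S' ∧ z - BD w ∈ DegB S := by
  obtain ⟨s, H, hfs, hsd, hse, hfH, hHe, hH⟩ := exists_contr (ndDA S C) (ndDA S' C') (fN f)
    (fN_mor C C' f) (fN_surj f hs) (ker_all C f hk)
  obtain ⟨p, hp⟩ := mem_LB_some (mapB (prN S) z)
  obtain ⟨b, hb1, hb2⟩ := ker_exact (ndDA S C) (ndDA S' C') (fN f) (fN_mor C C' f) s H hfs hsd hse hfH hHe hH
    p (mapB (prN S) z) hp (by rw [mapB_fN]; exact (mapB_prN_eq_zero S' _).2 hf)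
    (by rw [← DB_prN]; exact (mapB_prN_eq_zero S _).2 hD)
  set w0 := mapB (inN S) b with hw0
  have hpw : mapB (prN S) w0 = b := mapB_prN_inN S b
  have hb0 : z - BD w0 ∈ DegB S := by
    rw [← mapB_prN_eq_zero, map_sub, DB_prN S C, hpw, hb2, sub_self]
  have hf0 : f.bt w0 ∈ DegB S' := by
    rw [← mapB_prN_eq_zero, ← mapB_fN, hpw, hb1]
  refine ⟨cmp (grB S) (n, N + 1 + 1) w0, ?_, ?_, ?_⟩
  · rw [grB_supp]; exact cmp_mem _ _ _
  · rw [← cmp_bt]; exact cmp_mem_supp _ _ _ _ hf0
  · rw [grB_supp] at hz
    have h3 : cmp (grB S) (n, N + 1) z = z := cmp_of_eq _ _ _ fun l hl => hz hl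
    have h4 := cmp_mem_supp (grB S) (n, N + 1) _ _ hb0
    rw [map_sub, h3, cmp_BD] at h4
    exact h4

end final

end L1P

end St16
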