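import Pool.Agent.LibSt16.C
import Pool.Agent.LibSt16.L1

/-!
LibSt16/L1F: final form of L1 (page section 1) for the systems of `Defs`.
-/

set_option autoImplicit false

noncomputable section

namespace St16

variable {G P : Type} [Group G] [Preorder P] [MulAction G P]
variable {G' P' : Type} [Group G'] [Preorder P'] [MulAction G' P'] {S : Sys G P} {S' : Sys G' P'}

theorem cubId (S : Sys G P) : L1P.CubId S := ⟨bd_bd, bd1_mul'⟩

/-- L1: the kernel of the bar map is exact -/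
theorem L1 (f : SHom S S' 1) (hs : CbOnto f) (hk : ∀ r, 0 < r → KerExact f r) (n N : ℕ) (z : BT S)
    (hz : z ∈ BTN S n N) (hD : BD z ∈ DegB S) (hf : f.bt z ∈ DegB S') :
    ∃ w ∈ BTN S n (N + 1), f.bt w ∈ DegB S' ∧ z - BD w ∈ DegB S :=
  L1P.ker_exactB (cubId S) (cubId S') f hs hk n N z hz hD hf

/-- cycles lift -/
theorem L1_lift (f : SHom S S' 1) (hs : CbOnto f) (hk : ∀ r, 0 < r → KerExact f r) (n N : ℕ)
    (z' : BT S') (hz : z' ∈ BTN S' n N) (hD : BD z' ∈ DegB S') :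
    ∃ z ∈ BTN S n N, BD z ∈ DegB S ∧ f.bt z - z' ∈ DegB S' :=
  L1P.lift_cycle (cubId S) (cubId S') f hs hk n N z' hz hD

/-- a cycle whose image is a boundary is a boundary -/
theorem L1_bound (f : SHom S S' 1) (hs : CbOnto f) (hk : ∀ r, 0 < r → KerExact f r) (n N : ℕ)
    (z : BT S) (hz : z ∈ BTN S n N) (hD : BD z ∈ DegB S) (w' : BT S') (hw : f.bt z - BD w' ∈ DegB S') :
    ∃ w ∈ BTN S n (N + 1), z - BD w ∈ DegB S :=
  L1P.lift_bound (cubId S) (cubId S') f hs hk n N z hz hD w' hw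

end St16
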