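import Mathlib

/-!
MP_8b67e9, L3: the poset `LL` of the lattices `X` with `π X^# ≤ X ≤ X^#` over a discrete valuation ring, and
its contraction (the zigzag `ρ_j ≥ τ_j ≤ ρ_{j+1}`, `ρ_0` constant, `ρ_j X = X` for large `j`).
-/

set_option autoImplicit false
set_option linter.unusedSectionVars false

namespace St16

open Submodule Module

section dual

variable {A L V : Type} [CommRing A] [IsDomain A] [IsPrincipalIdealRing A] [Field L] [Algebra A L]
  [IsFractionRing A L] [AddCommGroup V] [Module L V] [Module A V] [IsScalarTower A L V]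
  [FiniteDimensional L V] (B : LinearMap.BilinForm L V)

/-- a basis of a lattice -/
theorem lat_basis (X : Submodule A V) [IsLattice L X] :
    ∃ (n : ℕ) (b : Basis (Fin n) L V), X = span A (Set.range b) := by
  have : Module.IsTorsionFree A L := inferInstance
  have hfree : Module.Free A X := IsLattice.free L X
  have hfin : Module.Finite A X := IsLattice.finite L X
  let b := Module.finBasis A X
  refine ⟨_, b.extendOfIsLattice L, ?_⟩
  have h1 : Set.range (b.extendOfIsLattice L) = X.subtype '' Set.range b := by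
    ext x
    constructor
    · rintro ⟨k, rfl⟩
      exact ⟨b k, ⟨k, rfl⟩, (Basis.extendOfIsLattice_apply L b k).symm⟩
    · rintro ⟨_, ⟨k, rfl⟩, rfl⟩
      exact ⟨k, Basis.extendOfIsLattice_apply L b k⟩
  rw [h1, ← Submodule.map_span, b.span_eq, Submodule.map_top, Submodule.range_subtype]

theorem lat_of_basis {n : ℕ} (b : Basis (Fin n) L V) : IsLattice L (span A (Set.range b)) where
  fg := fg_span (Set.finite_range b)
  span_eq_top := by
    rw [eq_top_iff, ← b.span_eq]
    exact span_mono subset_span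

variable {B}

theorem dual_dual (hB : B.Nondegenerate) (hs : B.IsSymm) (X : Submodule A V) [IsLattice L X] :
    B.dualSubmodule (B.dualSubmodule X) = X := by
  obtain ⟨n, b, rfl⟩ := lat_basis (L := L) X
  exact LinearMap.BilinForm.dualSubmodule_dualSubmodule_of_basis B hB hs b

theorem lat_dual (hB : B.Nondegenerate) (X : Submodule A V) [IsLattice L X] :
    IsLattice L (B.dualSubmodule X) := by
  classical
  obtain ⟨n, b, rfl⟩ := lat_basis (L := L) X
  rw [LinearMap.BilinForm.dualSubmodule_span_of_basis B hB b]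
  exact lat_of_basis _

theorem dual_sup (X Y : Submodule A V) :
    B.dualSubmodule (X ⊔ Y) = B.dualSubmodule X ⊓ B.dualSubmodule Y := by
  ext x
  constructor
  · intro h
    exact ⟨fun y hy => h y (mem_sup_left hy), fun y hy => h y (mem_sup_right hy)⟩
  · rintro ⟨h1, h2⟩ y hy
    obtain ⟨a, ha, b, hb, rfl⟩ := mem_sup.1 hy
    rw [map_add]
    exact add_mem (h1 a ha) (h2 b hb)

theorem dual_anti {X Y : Submodule A V} (h : X ≤ Y) : B.dualSubmodule Y ≤ B.dualSubmodule X :=
  fun _ hx y hy => hx y (h hy)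

theorem dual_inf (hB : B.Nondegenerate) (hs : B.IsSymm) (X Y : Submodule A V) [IsLattice L X]
    [IsLattice L Y] : B.dualSubmodule (X ⊓ Y) = B.dualSubmodule X ⊔ B.dualSubmodule Y := by
  have h1 := lat_dual hB X
  have h2 := lat_dual hB Y
  rw [← dual_dual hB hs (B.dualSubmodule X ⊔ B.dualSubmodule Y), dual_sup, dual_dual hB hs,
    dual_dual hB hs]

end dual

section LL

variable {A L V : Type} [CommRing A] [IsDomain A] [IsDiscreteValuationRing A] [Field L] [Algebra A L]
  [IsFractionRing A L] [AddCommGroup V] [Module L V] [Module A V] [IsScalarTower A L V]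
  [FiniteDimensional L V] (B : LinearMap.BilinForm L V) (π : A) (M : Submodule A V)

/-- `π X^# ≤ X ≤ X^#` -/
structure IsLL (X : Submodule A V) : Prop where
  lat : IsLattice L X
  le : X ≤ B.dualSubmodule X
  pi : ∀ x ∈ B.dualSubmodule X, π • x ∈ X

/-- `π ^ (-j) M` -/
def up (j : ℕ) : Submodule A V := M.comap (LinearMap.lsmul A V (π ^ j))

/-- `π ^ j M` -/
def dn (j : ℕ) : Submodule A V := M.map (LinearMap.lsmul A V (π ^ j))

variable {B π M}

theorem mem_up {j : ℕ} {x : V} : x ∈ up π M j ↔ π ^ j • x ∈ M := Iff.rfl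

theorem mem_dn {j : ℕ} {x : V} : x ∈ dn π M j ↔ ∃ y ∈ M, π ^ j • y = x := Iff.rfl

theorem up_mono {i j : ℕ} (h : i ≤ j) : up π M i ≤ up π M j := by
  intro x hx
  rw [mem_up] at hx ⊢
  obtain ⟨k, rfl⟩ := Nat.exists_eq_add_of_le' h
  rw [pow_add, mul_smul]
  exact M.smul_mem _ hx

theorem dn_anti {i j : ℕ} (h : i ≤ j) : dn π M j ≤ dn π M i := by
  rintro x ⟨y, hy, rfl⟩
  obtain ⟨k, rfl⟩ := Nat.exists_eq_add_of_le h
  refine ⟨π ^ k • y, M.smul_mem _ hy, ?_⟩
  change π ^ i • π ^ k • y = π ^ (i + k) • y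
  rw [pow_add, mul_smul]

theorem dn_le_up (i j : ℕ) : dn π M i ≤ up π M j := by
  rintro x ⟨y, hy, rfl⟩
  exact M.smul_mem _ (M.smul_mem _ hy)

theorem up_zero : up π M 0 = M := by
  ext x
  rw [mem_up, pow_zero, one_smul]

theorem dn_zero : dn π M 0 = M := by
  ext x
  rw [mem_dn]
  simp

variable (hπ : Irreducible π)

include hπ in
theorem alg_pi_ne : algebraMap A L π ≠ 0 := by
  intro h
  exact hπ.ne_zero (IsFractionRing.injective A L (h.trans (map_zero _).symm))

include hπ in
/-- every vector is in `π ^ (-j) M` for large `j` -/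
theorem exists_up (hM : IsLattice L M) (x : V) : ∃ j, x ∈ up π M j := by
  have h1 : x ∈ span L (M : Set V) := by
    rw [IsLattice.span_eq_top (A := L) (M := M)]
    exact mem_top
  refine span_induction (p := fun x _ => ∃ j, x ∈ up π M j) ?_ ?_ ?_ ?_ h1
  · intro x hx
    exact ⟨0, by rw [up_zero]; exact hx⟩
  · exact ⟨0, zero_mem _⟩
  · rintro x y _ _ ⟨i, hi⟩ ⟨j, hj⟩
    exact ⟨max i j, add_mem (up_mono (le_max_left _ _) hi) (up_mono (le_max_right _ _) hj)⟩
  · rintro c x _ ⟨j, hj⟩
    obtain ⟨a, b, hb, rfl⟩ := IsFractionRing.div_surjective (A := A) c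
    have hb0 : b ≠ 0 := nonZeroDivisors.ne_zero hb
    obtain ⟨k, u, hu⟩ := IsDiscreteValuationRing.eq_unit_mul_pow_irreducible hb0 hπ
    refine ⟨k + j, ?_⟩
    have hbL : algebraMap A L b ≠ 0 := by
      intro h
      exact hb0 (IsFractionRing.injective A L (h.trans (map_zero _).symm))
    have e : π ^ (k + j) • ((algebraMap A L a / algebraMap A L b) • x) =
        (((u⁻¹ : Aˣ) : A) * a) • (π ^ j • x) := by
      rw [← algebraMap_smul L (π ^ (k + j)), ← algebraMap_smul L (((u⁻¹ : Aˣ) : A) * a),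
        ← algebraMap_smul L (π ^ j), smul_smul, smul_smul]
      congr 1
      have h2 : (u : A) * ((u⁻¹ : Aˣ) : A) = 1 := Units.mul_inv u
      have h3 : algebraMap A L (u : A) * algebraMap A L ((u⁻¹ : Aˣ) : A) = 1 := by
        rw [← map_mul, h2, map_one]
      rw [mul_div_assoc', div_eq_iff hbL, hu, pow_add]
      simp only [map_mul]
      linear_combination (- (algebraMap A L (π ^ k) * algebraMap A L (π ^ j) * algebraMap A L a)) * h3
    rw [mem_up, e]
    exact M.smul_mem _ hj

include hπ in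
/-- a finitely generated submodule is contained in `π ^ (-j) M` for large `j` -/
theorem exists_le_up (hM : IsLattice L M) (X : Submodule A V) (hX : X.FG) : ∃ j, X ≤ up π M j := by
  classical
  obtain ⟨S, rfl⟩ := hX
  induction S using Finset.induction_on with
  | empty => exact ⟨0, by simp⟩
  | insert a S ha ih =>
    obtain ⟨j, hj⟩ := ih
    obtain ⟨i, hi⟩ := exists_up hπ hM a
    refine ⟨max i j, ?_⟩
    rw [Finset.coe_insert, span_insert, sup_le_iff, span_singleton_le_iff_mem]
    exact ⟨up_mono (le_max_left _ _) hi, hj.trans (up_mono (le_max_right _ _))⟩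

include hπ in
/-- a lattice contains `π ^ j M` for large `j` -/
theorem exists_dn_le (hM : IsLattice L M) (X : Submodule A V) (hX : IsLattice L X) :
    ∃ j, dn π M j ≤ X := by
  obtain ⟨j, hj⟩ := exists_le_up hπ hX M hM.fg
  exact ⟨j, by rintro _ ⟨y, hy, rfl⟩; exact hj hy⟩

include hπ in
theorem lat_dn (hM : IsLattice L M) (j : ℕ) : IsLattice L (dn π M j) where
  fg := hM.fg.map _
  span_eq_top := by
    rw [eq_top_iff, ← IsLattice.span_eq_top (A := L) (M := M), span_le]
    intro y hy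
    have h0 : algebraMap A L (π ^ j) ≠ 0 := by
      rw [map_pow]
      exact pow_ne_zero _ (alg_pi_ne hπ)
    have h1 : y = (algebraMap A L (π ^ j))⁻¹ • (π ^ j • y) := by
      rw [← algebraMap_smul L (π ^ j) y, smul_smul, inv_mul_cancel₀ h0, one_smul]
    rw [h1]
    exact smul_mem _ _ (subset_span ⟨y, hy, rfl⟩)

theorem B_smul (a : A) (x y : V) : B (a • x) y = B x (a • y) := by
  rw [← algebraMap_smul L a x, ← algebraMap_smul L a y, map_smul, map_smul]
  rfl

theorem B_smul_left (a : A) (x y : V) : B (a • x) y = a • B x y := by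
  rw [← algebraMap_smul L a x, map_smul, LinearMap.smul_apply, algebraMap_smul]

variable (hB : B.Nondegenerate) (hs : B.IsSymm) (hM : IsLattice L M) (hd : B.dualSubmodule M = M)

include hd in
theorem dual_dn (j : ℕ) : B.dualSubmodule (dn π M j) = up π M j := by
  ext x
  rw [mem_up]
  constructor
  · intro h
    rw [← hd]
    intro y hy
    rw [B_smul]
    exact h _ ⟨y, hy, rfl⟩
  · rintro h _ ⟨y, hy, rfl⟩
    rw [← hd] at h
    have := h y hy
    rwa [B_smul] at this

include hπ hB hs hM hd in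
theorem dual_up (j : ℕ) : B.dualSubmodule (up π M j) = dn π M j := by
  have := lat_dn hπ hM j
  rw [← dual_dn hd, dual_dual hB hs]

include hπ hB hM hd in
theorem lat_up (j : ℕ) : IsLattice L (up π M j) := by
  have := lat_dn hπ hM j
  rw [← dual_dn hd]
  exact lat_dual hB _

include hM hd in
theorem isLL_M : IsLL B π M := ⟨hM, hd.ge, fun x hx => M.smul_mem _ (hd.le hx)⟩

/-- `(X ∩ π ^ (-j) M) + π ^ i M` -/
def rt (π : A) (M : Submodule A V) (j i : ℕ) (X : Submodule A V) : Submodule A V :=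
  (X ⊓ up π M j) ⊔ dn π M i

include hπ hB hs hM hd in
theorem dual_rt {j i : ℕ} {X : Submodule A V} (hX : IsLattice L X) :
    B.dualSubmodule (rt π M j i X) = (B.dualSubmodule X ⊓ up π M i) ⊔ dn π M j := by
  have := lat_up hπ hB hM hd j
  rw [rt, dual_sup, dual_inf hB hs, dual_dn hd, dual_up hπ hB hs hM hd,
    sup_comm (B.dualSubmodule X), sup_inf_assoc_of_le _ (dn_le_up j i), sup_comm]

include hπ hB hM hd in
theorem lat_rt {j i : ℕ} {X : Submodule A V} (hX : IsLattice L X) : IsLattice L (rt π M j i X) := by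
  have h1 := lat_up hπ hB hM hd j
  have h2 := lat_dn hπ hM i
  rw [rt]
  infer_instance

include hπ hB hs hM hd in
/-- the maps `ρ_j` (`i = j`) and `τ_j` (`i = j + 1`) preserve `LL` -/
theorem isLL_rt {j i : ℕ} (hji : j ≤ i) (hij : i ≤ j + 1) {X : Submodule A V} (hX : IsLL B π X) :
    IsLL B π (rt π M j i X) where
  lat := lat_rt hπ hB hM hd hX.lat
  le := by
    rw [dual_rt hπ hB hs hM hd hX.lat, rt]
    exact sup_le_sup (inf_le_inf hX.le (up_mono hji)) (dn_anti hji)
  pi := by
    intro x hx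
    rw [dual_rt hπ hB hs hM hd hX.lat] at hx
    obtain ⟨y, ⟨hy1, hy2⟩, z, ⟨w, hw, rfl⟩, rfl⟩ := mem_sup.1 hx
    rw [smul_add]
    refine add_mem (mem_sup_left ⟨hX.pi y hy1, ?_⟩) (mem_sup_right ?_)
    · change π ^ j • π • y ∈ M
      rw [smul_smul, ← pow_succ]
      exact up_mono hij hy2
    · apply dn_anti hij
      refine ⟨w, hw, ?_⟩
      change π ^ (j + 1) • w = π • π ^ j • w
      rw [smul_smul, ← pow_succ']

theorem rt_mono (j i : ℕ) {X Y : Submodule A V} (h : X ≤ Y) : rt π M j i X ≤ rt π M j i Y :=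
  sup_le_sup (inf_le_inf h le_rfl) le_rfl

theorem rt_zero (X : Submodule A V) : rt π M 0 0 X = M := by
  rw [rt, up_zero, dn_zero]
  exact sup_eq_right.2 inf_le_right

theorem tau_le_rho (j : ℕ) (X : Submodule A V) : rt π M j (j + 1) X ≤ rt π M j j X :=
  sup_le_sup le_rfl (dn_anti (Nat.le_succ j))

theorem tau_le_rho_succ (j : ℕ) (X : Submodule A V) :
    rt π M j (j + 1) X ≤ rt π M (j + 1) (j + 1) X :=
  sup_le_sup (inf_le_inf le_rfl (up_mono (Nat.le_succ j))) le_rfl

theorem rt_eq {j i : ℕ} {X : Submodule A V} (h1 : X ≤ up π M j) (h2 : dn π M i ≤ X) :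
    rt π M j i X = X := by
  rw [rt, inf_eq_left.2 h1]
  exact sup_eq_left.2 h2

include hπ hM in
theorem exists_rt_eq {X : Submodule A V} (hX : IsLattice L X) :
    ∃ j, ∀ k, j ≤ k → rt π M k k X = X := by
  obtain ⟨i, hi⟩ := exists_le_up hπ hM X hX.fg
  obtain ⟨j, hj⟩ := exists_dn_le hπ hM X hX
  refine ⟨max i j, fun k hk => rt_eq (hi.trans (up_mono ((le_max_left _ _).trans hk)))
    ((dn_anti ((le_max_right _ _).trans hk)).trans hj)⟩

variable (B π) in
/-- the poset `LL` -/
def LL : Type := {X : Submodule A V // IsLL B π X}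

instance : PartialOrder (LL B π) := inferInstanceAs (PartialOrder {X : Submodule A V // IsLL B π X})

include hπ hB hs hM hd in
/-- the contraction of `LL` -/
theorem exists_contraction : ∃ (x₀ : LL B π) (ρ τ : ℕ → LL B π →o LL B π),
    (∀ x, ρ 0 x = x₀) ∧ (∀ j x, τ j x ≤ ρ j x) ∧ (∀ j x, τ j x ≤ ρ (j + 1) x) ∧
      ∀ x, ∃ j, ∀ k, j ≤ k → ρ k x = x := by
  refine ⟨⟨M, isLL_M hM hd⟩,
    fun j => ⟨fun X => ⟨rt π M j j X.1, isLL_rt hπ hB hs hM hd le_rfl (Nat.le_succ j) X.2⟩,
      fun X Y h => rt_mono j j h⟩,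
    fun j => ⟨fun X => ⟨rt π M j (j + 1) X.1, isLL_rt hπ hB hs hM hd (Nat.le_succ j) le_rfl X.2⟩,
      fun X Y h => rt_mono j (j + 1) h⟩, ?_, ?_, ?_, ?_⟩
  · exact fun X => Subtype.ext (rt_zero X.1)
  · exact fun j X => tau_le_rho j X.1
  · exact fun j X => tau_le_rho_succ j X.1
  · intro X
    obtain ⟨j, hj⟩ := exists_rt_eq hπ hM X.2.lat
    exact ⟨j, fun k hk => Subtype.ext (hj k hk)⟩

end LL

end St16
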