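import Pool.Agent.LibSt16.SyA
import Pool.Agent.LibSt16.Lat

/-!
MP_8b67e9, L3: `Ln ϖ n` is the poset `LL` of `L^n`; its contraction.
-/

set_option autoImplicit false
set_option linter.unusedSectionVars false

noncomputable section

namespace St16

open Submodule Module

variable {A L : Type} [CommRing A] [IsDomain A] [IsDiscreteValuationRing A] [Field L] [Algebra A L]
  [IsFractionRing A L]

/-- vectors of length `n` as finitely supported vectors -/
def emV (L : Type) [Field L] (n : ℕ) : (Fin n → L) →ₗ[L] Vc L where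
  toFun x := Finsupp.onFinset (Finset.range n) (fun i => if h : i < n then x ⟨i, h⟩ else 0) (by
    intro i hi
    rw [Finset.mem_range]
    by_contra h
    exact hi (dif_neg h))
  map_add' x y := by
    ext i
    simp only [Finsupp.onFinset_apply, Finsupp.add_apply]
    split_ifs <;> simp
  map_smul' c x := by
    ext i
    simp only [Finsupp.onFinset_apply, Finsupp.smul_apply, RingHom.id_apply]
    split_ifs <;> simp

theorem emV_apply (n : ℕ) (x : Fin n → L) (i : ℕ) :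
    emV L n x i = if h : i < n then x ⟨i, h⟩ else 0 := rfl

theorem emV_lt (n : ℕ) (x : Fin n → L) (i : Fin n) : emV L n x i = x i := by
  rw [emV_apply, dif_pos i.2]

theorem emV_ge (n : ℕ) (x : Fin n → L) (i : ℕ) (h : n ≤ i) : emV L n x i = 0 := by
  rw [emV_apply, dif_neg (by omega)]

theorem emV_inj (n : ℕ) : Function.Injective (emV L n) := by
  intro x y h
  funext i
  rw [← emV_lt n x i, ← emV_lt n y i, h]

theorem exists_emV (n : ℕ) (x : Vc L) (hx : ∀ i, n ≤ i → x i = 0) : ∃ y, emV L n y = x := by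
  refine ⟨fun i => x i, ?_⟩
  ext i
  rw [emV_apply]
  split_ifs with h
  · rfl
  · exact (hx i (by omega)).symm

theorem dot_emV (n : ℕ) (x y : Fin n → L) : dot (emV L n x) (emV L n y) = x ⬝ᵥ y := by
  have h1 : dot (emV L n x) (emV L n y) =
      ∑ i ∈ Finset.range n, (emV L n x i) * (emV L n y i) := by
    unfold dot
    refine Finsupp.sum_of_support_subset _ ?_ _ (fun i _ => zero_mul _)
    intro i hi
    rw [Finset.mem_range]
    by_contra h
    exact (Finsupp.mem_support_iff.1 hi) (emV_ge n x i (by omega))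
  rw [h1, Finset.sum_range]
  simp only [emV_lt]
  rfl

/-- the dot product of `L^n` -/
def Bd (L : Type) [Field L] (n : ℕ) : LinearMap.BilinForm L (Fin n → L) := Matrix.toBilin' 1

theorem Bd_apply (n : ℕ) (x y : Fin n → L) : Bd L n x y = x ⬝ᵥ y := by
  rw [Bd, Matrix.toBilin'_apply', Matrix.one_mulVec]

theorem Bd_nondeg (n : ℕ) : (Bd L n).Nondegenerate :=
  LinearMap.BilinForm.nondegenerate_toBilin'_of_det_ne_zero' 1 (by simp)

theorem Bd_symm (n : ℕ) : (Bd L n).IsSymm := ⟨fun x y => by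
  rw [Bd_apply, Bd_apply, dotProduct_comm]⟩

/-- the standard lattice in `L^n` -/
def Ms (A L : Type) [CommRing A] [Field L] [Algebra A L] (n : ℕ) : Submodule A (Fin n → L) where
  carrier := {x | ∀ i, ∃ a : A, algebraMap A L a = x i}
  add_mem' := by
    intro x y hx hy i
    obtain ⟨a, ha⟩ := hx i
    obtain ⟨b, hb⟩ := hy i
    exact ⟨a + b, by rw [map_add, ha, hb]; rfl⟩
  zero_mem' := fun i => ⟨0, map_zero _⟩
  smul_mem' := by
    intro c x hx i
    obtain ⟨a, ha⟩ := hx i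
    exact ⟨c * a, by rw [map_mul, ha, ← Algebra.smul_def]; rfl⟩

theorem Ms_eq_span (n : ℕ) : Ms A L n = span A (Set.range (Pi.basisFun L (Fin n))) := by
  apply le_antisymm
  · intro x hx
    choose a ha using hx
    have h1 : x = ∑ i, a i • (Pi.basisFun L (Fin n)) i := by
      funext j
      rw [Finset.sum_apply]
      simp only [Pi.smul_apply, Pi.basisFun_apply, Pi.single_apply]
      rw [Finset.sum_eq_single j]
      · rw [if_pos rfl, Algebra.smul_def, mul_one, ha]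
      · intro i _ hi
        rw [if_neg (Ne.symm hi), smul_zero]
      · intro h
        exact absurd (Finset.mem_univ j) h
    rw [h1]
    exact sum_mem fun i _ => smul_mem _ _ (subset_span ⟨i, rfl⟩)
  · rw [span_le]
    rintro _ ⟨i, rfl⟩ j
    rw [Pi.basisFun_apply, Pi.single_apply]
    split_ifs
    · exact ⟨1, map_one _⟩
    · exact ⟨0, map_zero _⟩

theorem Ms_lat (n : ℕ) : IsLattice L (Ms A L n) := by
  rw [Ms_eq_span]
  exact lat_of_basis _

theorem Ms_dual (n : ℕ) : (Bd L n).dualSubmodule (Ms A L n) = Ms A L n := by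
  ext x
  constructor
  · intro h i
    have h1 := h (Pi.single i 1) (by
      rw [Ms_eq_span]
      exact subset_span ⟨i, Pi.basisFun_apply _ _ _⟩)
    rw [Bd_apply, dotProduct_single, mul_one] at h1
    exact Submodule.mem_one.1 h1
  · intro h y hy
    rw [Bd_apply]
    choose a ha using h
    choose b hb using hy
    refine Submodule.mem_one.2 ⟨∑ i, a i * b i, ?_⟩
    rw [map_sum]
    refine Finset.sum_congr rfl fun i _ => ?_
    rw [map_mul, ha, hb]

/-- the image in `Vc L` -/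
def mpV (n : ℕ) (X : Submodule A (Fin n → L)) : Submodule A (Vc L) :=
  X.map ((emV L n).restrictScalars A)

theorem mem_mpV (n : ℕ) (X : Submodule A (Fin n → L)) (x : Fin n → L) :
    emV L n x ∈ mpV n X ↔ x ∈ X := by
  constructor
  · rintro ⟨y, hy, h⟩
    have h1 : emV L n y = emV L n x := h
    rw [← emV_inj n h1]
    exact hy
  · intro h
    exact ⟨x, h, rfl⟩

theorem mpV_le (n : ℕ) (X Y : Submodule A (Fin n → L)) : mpV n X ≤ mpV n Y ↔ X ≤ Y := by
  constructor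
  · intro h x hx
    exact (mem_mpV n Y x).1 (h ((mem_mpV n X x).2 hx))
  · intro h
    exact Submodule.map_mono h

theorem mpV_Ms (n : ℕ) : mpV n (Ms A L n) = Mn A n := by
  ext x
  constructor
  · rintro ⟨y, hy, rfl⟩ i
    change (n ≤ i → emV L n y i = 0) ∧ ∃ a : A, algebraMap A L a = emV L n y i
    refine ⟨fun h => emV_ge n y i h, ?_⟩
    rw [emV_apply]
    split_ifs with h
    · exact hy ⟨i, h⟩
    · exact ⟨0, map_zero _⟩
  · intro h
    obtain ⟨y, rfl⟩ := exists_emV n x fun i => (h i).1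
    rw [mem_mpV]
    intro i
    rw [← emV_lt n y i]
    exact (h i).2

theorem mpV_dual (n : ℕ) (X : Submodule A (Fin n → L)) :
    dual n (mpV n X) = mpV n ((Bd L n).dualSubmodule X) := by
  ext x
  constructor
  · rintro ⟨h1, h2⟩
    obtain ⟨y, rfl⟩ := exists_emV n x h1
    rw [mem_mpV]
    intro z hz
    obtain ⟨a, ha⟩ := h2 (emV L n z) ((mem_mpV n X z).2 hz)
    rw [dot_emV] at ha
    rw [Bd_apply]
    exact Submodule.mem_one.2 ⟨a, ha⟩
  · rintro ⟨y, hy, rfl⟩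
    refine ⟨fun i hi => emV_ge n y i hi, ?_⟩
    rintro _ ⟨z, hz, rfl⟩
    obtain ⟨a, ha⟩ := Submodule.mem_one.1 (hy z hz)
    rw [Bd_apply] at ha
    exact ⟨a, ha.trans (dot_emV n y z).symm⟩

theorem emV_smul (n : ℕ) (a : A) (x : Fin n → L) : emV L n (a • x) = a • emV L n x :=
  ((emV L n).restrictScalars A).map_smul a x

theorem mpV_up (ϖ : A) (hϖ : Irreducible ϖ) (n j : ℕ) :
    mpV n (up ϖ (Ms A L n) j) = up ϖ (Mn A n) j := by
  ext x
  constructor
  · rintro ⟨y, hy, rfl⟩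
    have hy' : ϖ ^ j • y ∈ Ms A L n := hy
    change ϖ ^ j • emV L n y ∈ Mn A n
    rw [← emV_smul, ← mpV_Ms, mem_mpV]
    exact hy'
  · intro h
    rw [mem_up] at h
    obtain ⟨y, rfl⟩ := exists_emV n x (by
      intro k hk
      have h1 := (h k).1 hk
      rw [Finsupp.smul_apply, Algebra.smul_def] at h1
      rcases mul_eq_zero.1 h1 with h2 | h2
      · rw [map_pow] at h2
        exact absurd h2 (pow_ne_zero _ (alg_pi_ne hϖ))
      · exact h2)
    rw [mem_mpV, mem_up]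
    rwa [← emV_smul, ← mpV_Ms, mem_mpV] at h

theorem mpV_dn (ϖ : A) (n j : ℕ) : mpV n (dn ϖ (Ms A L n) j) = dn ϖ (Mn A n) j := by
  ext x
  constructor
  · rintro ⟨_, ⟨z, hz, rfl⟩, rfl⟩
    refine ⟨emV L n z, ?_, (emV_smul n (ϖ ^ j) z).symm⟩
    rw [← mpV_Ms]
    exact (mem_mpV n _ z).2 hz
  · rintro ⟨w, hw, rfl⟩
    rw [← mpV_Ms] at hw
    obtain ⟨z, hz, rfl⟩ := hw
    exact ⟨ϖ ^ j • z, ⟨z, hz, rfl⟩, emV_smul n (ϖ ^ j) z⟩

theorem mpV_rt (ϖ : A) (hϖ : Irreducible ϖ) (n j i : ℕ) (X : Submodule A (Fin n → L)) :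
    mpV n (rt ϖ (Ms A L n) j i X) = rt ϖ (Mn A n) j i (mpV n X) := by
  rw [rt, rt, ← mpV_up ϖ hϖ, ← mpV_dn]
  unfold mpV
  have hinj : Function.Injective ((emV L n).restrictScalars A) := emV_inj n
  rw [Submodule.map_sup, Submodule.map_inf _ hinj]

/-- `Ln ϖ n` is the image of the poset `LL` of `L^n` -/
theorem Ln_iff (ϖ : A) (hϖ : Irreducible ϖ) (n : ℕ) (Λ : Lt A L) :
    Λ ∈ Ln ϖ n ↔ ∃ X : Submodule A (Fin n → L), IsLL (Bd L n) ϖ X ∧ Λ = mpV n X := by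
  constructor
  · rintro ⟨⟨j, h1, h2⟩, h3, h4⟩
    have hlow : ∀ x ∈ (Λ : Submodule A (Vc L)), ∀ i, n ≤ i → x i = 0 := fun x hx => (h3 hx).1
    have hΛ : Λ = mpV n (Submodule.comap ((emV L n).restrictScalars A) Λ) := by
      apply le_antisymm
      · intro x hx
        obtain ⟨y, rfl⟩ := exists_emV n x (hlow x hx)
        rw [mem_mpV]
        exact hx
      · rintro _ ⟨y, hy, rfl⟩
        exact hy
    refine ⟨_, ?_, hΛ⟩
    set X := Submodule.comap ((emV L n).restrictScalars A) Λ with hX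
    have hb1 : dn ϖ (Ms A L n) j ≤ X := by
      rw [← mpV_le (A := A), ← hΛ, mpV_dn]
      rintro _ ⟨y, hy, rfl⟩
      exact h1 y hy
    have hb2 : X ≤ up ϖ (Ms A L n) j := by
      rw [← mpV_le (A := A), ← hΛ, mpV_up ϖ hϖ]
      intro x hx
      exact h2 x hx
    have l1 := lat_dn hϖ (Ms_lat (A := A) (L := L) n) j
    have l2 := lat_up hϖ (Bd_nondeg (L := L) n) (Ms_lat (A := A) (L := L) n) (Ms_dual n) j
    have hfg : X.FG := by
      have : IsNoetherian A (up ϖ (Ms A L n) j) := by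
        have := IsLattice.finite L (up ϖ (Ms A L n) j)
        infer_instance
      have := isNoetherian_of_le hb2
      exact (isNoetherian_submodule.1 this) X le_rfl
    rw [hΛ, mpV_dual] at h3 h4
    refine ⟨IsLattice.of_le_of_isLattice_of_fg L hb1 hfg, (mpV_le n _ _).1 h3, fun x hx => ?_⟩
    rw [← mem_mpV n X, emV_smul]
    exact h4 _ ((mem_mpV n _ x).2 hx)
  · rintro ⟨X, hX, rfl⟩
    obtain ⟨i, hi⟩ := exists_le_up hϖ (Ms_lat (A := A) (L := L) n) X hX.lat.fg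
    obtain ⟨j, hj⟩ := exists_dn_le hϖ (Ms_lat (A := A) (L := L) n) X hX.lat
    refine ⟨⟨max i j, ?_, ?_⟩, ?_, ?_⟩
    · intro x hx
      rw [← mpV_Ms] at hx
      obtain ⟨y, hy, rfl⟩ := hx
      change ϖ ^ (max i j) • emV L n y ∈ _
      rw [← emV_smul, mem_mpV]
      exact (dn_anti (le_max_right i j)).trans hj ⟨y, hy, rfl⟩
    · rintro _ ⟨y, hy, rfl⟩
      change ϖ ^ (max i j) • emV L n y ∈ _
      rw [← emV_smul, ← mpV_Ms, mem_mpV]
      exact (hi.trans (up_mono (le_max_left i j))) hy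
    · rw [mpV_dual, mpV_le]
      exact hX.le
    · intro x hx
      rw [mpV_dual] at hx
      obtain ⟨y, hy, rfl⟩ := hx
      change ϖ • emV L n y ∈ _
      rw [← emV_smul, mem_mpV]
      exact hX.pi y hy

theorem Ln_rt (ϖ : A) (hϖ : Irreducible ϖ) (n : ℕ) {j i : ℕ} (hji : j ≤ i) (hij : i ≤ j + 1)
    (Λ : Lt A L) (h : Λ ∈ Ln ϖ n) : rt ϖ (Mn A n) j i Λ ∈ Ln ϖ n := by
  obtain ⟨X, hX, rfl⟩ := (Ln_iff ϖ hϖ n Λ).1 h
  rw [← mpV_rt ϖ hϖ]
  exact (Ln_iff ϖ hϖ n _).2 ⟨_, isLL_rt hϖ (Bd_nondeg n) (Bd_symm n) (Ms_lat n) (Ms_dual n)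
    hji hij hX, rfl⟩

theorem Mn_mem' (ϖ : A) (hϖ : Irreducible ϖ) (n : ℕ) : (Mn A n : Lt A L) ∈ Ln ϖ n := by
  rw [← mpV_Ms]
  exact (Ln_iff ϖ hϖ n _).2 ⟨_, isLL_M (Ms_lat n) (Ms_dual n), rfl⟩

/-- the contraction of `Ln ϖ n` -/
theorem Ln_contraction (ϖ : A) (hϖ : Irreducible ϖ) (n : ℕ) : ∃ ρ τ : ℕ → Lt A L → Lt A L,
    (∀ j Λ, Λ ∈ Ln ϖ n → ρ j Λ ∈ Ln ϖ n ∧ τ j Λ ∈ Ln ϖ n) ∧
    (∀ j Λ Λ', Λ ≤ Λ' → ρ j Λ ≤ ρ j Λ' ∧ τ j Λ ≤ τ j Λ') ∧
    (∀ Λ, Λ ∈ Ln ϖ n → ρ 0 Λ = Mn A n) ∧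
    (∀ j Λ, τ j Λ ≤ ρ j Λ ∧ τ j Λ ≤ ρ (j + 1) Λ) ∧
    ∀ Λ, Λ ∈ Ln ϖ n → ∃ j, ∀ k, j ≤ k → ρ k Λ = Λ := by
  refine ⟨fun j Λ => rt ϖ (Mn A n) j j Λ, fun j Λ => rt ϖ (Mn A n) j (j + 1) Λ, ?_, ?_, ?_, ?_, ?_⟩
  · exact fun j Λ h => ⟨Ln_rt ϖ hϖ n le_rfl (Nat.le_succ j) Λ h,
      Ln_rt ϖ hϖ n (Nat.le_succ j) le_rfl Λ h⟩
  · exact fun j Λ Λ' h => ⟨rt_mono j j h, rt_mono j (j + 1) h⟩
  · exact fun Λ _ => rt_zero Λ
  · exact fun j Λ => ⟨tau_le_rho j Λ, tau_le_rho_succ j Λ⟩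
  · intro Λ h
    obtain ⟨X, hX, rfl⟩ := (Ln_iff ϖ hϖ n Λ).1 h
    obtain ⟨j, hj⟩ := exists_rt_eq hϖ (Ms_lat (A := A) (L := L) n) hX.lat
    refine ⟨j, fun k hk => ?_⟩
    change rt ϖ (Mn A n) k k (mpV n X) = mpV n X
    rw [← mpV_rt ϖ hϖ, hj k hk]

end St16
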