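import Pool.Agent.LibSt16.SY02

/-!
Row SY07 (SHORT/MEDIUM). Base change.
Plan: key lemma bcL f g (mapRange f x) = mapRange f (g x) (induction on x: Finsupp.induction_linear); mapRange f (ee i) = ee i.
mapRange commutes with shV (and with dot: dot (mapRange f x) (mapRange f y) = f (dot x y)).
-/

set_option autoImplicit false

noncomputable section

namespace St16

private theorem mr_add {B C : Type} [CommRing B] [CommRing C] (f : B →+* C) (x y : Vc B) :
    Finsupp.mapRange f (map_zero f) (x + y) =
      Finsupp.mapRange f (map_zero f) x + Finsupp.mapRange f (map_zero f) y := by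
  ext i
  simp only [Finsupp.mapRange_apply, Finsupp.add_apply, map_add]

private theorem mr_sub {B C : Type} [CommRing B] [CommRing C] (f : B →+* C) (x y : Vc B) :
    Finsupp.mapRange f (map_zero f) (x - y) =
      Finsupp.mapRange f (map_zero f) x - Finsupp.mapRange f (map_zero f) y := by
  ext i
  simp only [Finsupp.mapRange_apply, Finsupp.sub_apply, map_sub]

private theorem mr_smul {B C : Type} [CommRing B] [CommRing C] (f : B →+* C) (b : B) (x : Vc B) :
    Finsupp.mapRange f (map_zero f) (b • x) = f b • Finsupp.mapRange f (map_zero f) x := by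
  ext i
  simp only [Finsupp.mapRange_apply, Finsupp.smul_apply, smul_eq_mul, map_mul]

private theorem mr_ee {B C : Type} [CommRing B] [CommRing C] (f : B →+* C) (i : ℕ) :
    Finsupp.mapRange f (map_zero f) (ee i : Vc B) = (ee i : Vc C) := by
  unfold ee
  rw [Finsupp.mapRange_single, map_one]

private theorem mr_unV {B C : Type} [CommRing B] [CommRing C] (f : B →+* C) (n : ℕ) (x : Vc B) :
    Finsupp.mapRange f (map_zero f) (unV n x) = unV n (Finsupp.mapRange f (map_zero f) x) := by
  ext i
  rfl

private theorem mr_shV {B C : Type} [CommRing B] [CommRing C] (f : B →+* C) (n : ℕ) (x : Vc B) :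
    Finsupp.mapRange f (map_zero f) (shV n x) = shV n (Finsupp.mapRange f (map_zero f) x) := by
  ext i
  show f ((Finsupp.mapDomain (fun i => n + i) x) i) =
    (Finsupp.mapDomain (fun i => n + i) (Finsupp.mapRange f (map_zero f) x)) i
  have hinj : Function.Injective (fun i : ℕ => n + i) := fun _ _ h => Nat.add_left_cancel h
  by_cases hi : i ∈ Set.range (fun i : ℕ => n + i)
  · obtain ⟨j, rfl⟩ := hi
    have h1 := Finsupp.mapDomain_apply hinj x j
    have h2 := Finsupp.mapDomain_apply hinj (Finsupp.mapRange f (map_zero f) x) j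
    rw [h1, h2]
    rfl
  · rw [Finsupp.mapDomain_of_notMem_range _ _ hi, Finsupp.mapDomain_of_notMem_range _ _ hi, map_zero]

private theorem mr_dot {B C : Type} [CommRing B] [CommRing C] (f : B →+* C) (x y : Vc B) :
    dot (Finsupp.mapRange f (map_zero f) x) (Finsupp.mapRange f (map_zero f) y) = f (dot x y) := by
  unfold dot
  rw [Finsupp.sum_mapRange_index (fun i => zero_mul _), map_finsuppSum]
  exact Finsupp.sum_congr fun i _ => by rw [map_mul, Finsupp.mapRange_apply]

private theorem bc_ee {B C : Type} [CommRing B] [CommRing C] (f : B →+* C) (g : Vc B →ₗ[B] Vc B)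
    (i : ℕ) : bcL f g (ee i) = Finsupp.mapRange f (map_zero f) (g (ee i)) := by
  unfold bcL
  rw [ee, Finsupp.linearCombination_single, one_smul]

private theorem ext_ee {B : Type} [CommRing B] (g h : Vc B →ₗ[B] Vc B)
    (H : ∀ i, g (ee i) = h (ee i)) : g = h := by
  ext i : 2
  exact H i

theorem bcL_mapRange {B C : Type} [CommRing B] [CommRing C] (f : B →+* C) (g : Vc B →ₗ[B] Vc B) (x : Vc B) :
    bcL f g (Finsupp.mapRange f (map_zero f) x) = Finsupp.mapRange f (map_zero f) (g x) := by
  induction x using Finsupp.induction_linear with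
  | zero => rw [Finsupp.mapRange_zero, map_zero, map_zero, Finsupp.mapRange_zero]
  | add x y hx hy => rw [mr_add, map_add, hx, hy, map_add, mr_add]
  | single i b =>
    have h : (Finsupp.single i b : Vc B) = b • ee i := by
      rw [ee, Finsupp.smul_single, smul_eq_mul, mul_one]
    rw [h, mr_smul, mr_ee, map_smul, map_smul, bc_ee, mr_smul]

theorem bcL_mul {B C : Type} [CommRing B] [CommRing C] (f : B →+* C) (g h : Vc B →ₗ[B] Vc B) :
    bcL f (g ∘ₗ h) = bcL f g ∘ₗ bcL f h := by
  apply ext_ee
  intro i
  rw [bc_ee, LinearMap.comp_apply, LinearMap.comp_apply, bc_ee, bcL_mapRange]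

theorem bcL_one {B C : Type} [CommRing B] [CommRing C] (f : B →+* C) :
    bcL f (LinearMap.id : Vc B →ₗ[B] Vc B) = LinearMap.id := by
  apply ext_ee
  intro i
  rw [bc_ee, LinearMap.id_apply, LinearMap.id_apply, mr_ee]

theorem bcL_shL {B C : Type} [CommRing B] [CommRing C] (f : B →+* C) (n : ℕ) (g : Vc B →ₗ[B] Vc B) :
    bcL f (shL n g) = shL n (bcL f g) := by
  apply ext_ee
  intro i
  rw [bc_ee]
  simp only [shL, LinearMap.comp_apply, LinearMap.add_apply, LinearMap.sub_apply,
    LinearMap.id_apply]
  rw [mr_add, mr_sub, mr_shV, mr_shV, mr_unV, mr_ee, ← bcL_mapRange, mr_unV, mr_ee]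

/-- orthogonality is preserved: `dot (bcL f g x) (bcL f g y) = dot x y` -/
theorem bcL_dot {B C : Type} [CommRing B] [CommRing C] (f : B →+* C) (g : Vc B →ₗ[B] Vc B)
    (hg : ∀ x y, dot (g x) (g y) = dot x y) (x y : Vc C) : dot (bcL f g x) (bcL f g y) = dot x y := by
  have hs : ∀ (i : ℕ) (b : C), (Finsupp.single i b : Vc C) = b • ee i := fun i b => by
    rw [ee, Finsupp.smul_single, smul_eq_mul, mul_one]
  have h0 : ∀ z : Vc C, dot 0 z = 0 := fun z => by
    have := dot_smul_left (0 : C) 0 z
    rwa [zero_smul, zero_mul] at this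
  have h1 : ∀ i j : ℕ, dot (bcL f g (ee i)) (bcL f g (ee j)) = dot (ee i : Vc C) (ee j) := by
    intro i j
    rw [bc_ee, bc_ee, mr_dot, hg, ← mr_dot, mr_ee, mr_ee]
  have h2 : ∀ (i : ℕ) (y : Vc C), dot (bcL f g (ee i)) (bcL f g y) = dot (ee i : Vc C) y := by
    intro i y
    induction y using Finsupp.induction_linear with
    | zero => rw [map_zero, dot_comm, h0, dot_comm, h0]
    | add a b ha hb =>
      rw [map_add, dot_comm, dot_add_left, dot_comm, dot_comm (bcL f g b), ha, hb,
        dot_comm _ (a + b), dot_add_left, dot_comm a, dot_comm b]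
    | single j b =>
      rw [hs, map_smul, dot_comm, dot_smul_left, dot_comm, h1, dot_comm _ (b • ee j),
        dot_smul_left, dot_comm (ee j)]
  induction x using Finsupp.induction_linear with
  | zero => rw [map_zero, h0, h0]
  | add a b ha hb => rw [map_add, dot_add_left, dot_add_left, ha, hb]
  | single i b => rw [hs, map_smul, dot_smul_left, dot_smul_left, h2]

end St16
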