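import Pool.Agent.LibSt16.SyA

/-!
Row SY01 (SHORT). Shifts compose.  Plan: LinearEquiv.ext, ext on basis vectors (Finsupp.lhom_ext'),
cases i < n, n <= i < n+m, i >= n+m; shV n (single i a) = single (n+i) a (Finsupp.mapDomain_single),
unV n (single i a) = single (i-n) a if n <= i, 0 otherwise; shV n (shV m x) = shV (n+m) x, unV m (unV n x) = unV (n+m) x
(unV (n+m) x = unV m (unV n x): both have value x (n+m+i)).  Also useful for others: the formulas for basis vectors.
-/

set_option autoImplicit false

noncomputable section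

namespace St16

theorem shV_ee {B : Type} [CommRing B] (n i : ℕ) : shV n (ee i : Vc B) = ee (n + i) := by
  show Finsupp.mapDomain (fun i => n + i) (Finsupp.single i 1) = Finsupp.single (n + i) 1
  exact Finsupp.mapDomain_single

private theorem unV_apply {B : Type} [CommRing B] (n : ℕ) (x : Vc B) (i : ℕ) : unV n x i = x (n + i) := rfl

theorem unV_ee {B : Type} [CommRing B] (n i : ℕ) :
    unV n (ee i : Vc B) = if n ≤ i then ee (i - n) else 0 := by
  ext j
  rw [unV_apply]
  unfold ee
  split_ifs with h
  · rw [Finsupp.single_apply, Finsupp.single_apply]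
    by_cases h1 : i = n + j
    · rw [if_pos h1, if_pos (by omega)]
    · rw [if_neg h1, if_neg (by omega)]
  · rw [Finsupp.single_apply, if_neg (by omega)]
    rfl

theorem shA_ee_lt {B : Type} [CommRing B] (n : ℕ) (g : Au B) (i : ℕ) (hi : i < n) :
    shA n g (ee i) = ee i := by
  rw [shA_apply, unV_ee, if_neg (by omega), map_zero, map_zero, map_zero, sub_zero, add_zero]

theorem shA_shV {B : Type} [CommRing B] (n : ℕ) (g : Au B) (x : Vc B) :
    shA n g (shV n x) = shV n (g x) := by
  rw [shA_apply, unV_shV, sub_self, zero_add]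

theorem shA_ee_ge {B : Type} [CommRing B] (n : ℕ) (g : Au B) (i : ℕ) :
    shA n g (ee (n + i)) = shV n (g (ee i)) := by
  rw [← shV_ee, shA_shV]

theorem shV_shV {B : Type} [CommRing B] (n m : ℕ) (x : Vc B) : shV n (shV m x) = shV (n + m) x := by
  show Finsupp.mapDomain (fun i => n + i) (Finsupp.mapDomain (fun i => m + i) x) =
    Finsupp.mapDomain (fun i => n + m + i) x
  rw [← Finsupp.mapDomain_comp]
  congr 1
  funext i
  show n + (m + i) = n + m + i
  omega

/-- two automorphisms are equal if they agree on the basis vectors -/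
theorem au_ext {B : Type} [CommRing B] (g h : Au B) (H : ∀ i, g (ee i) = h (ee i)) : g = h := by
  apply LinearEquiv.toLinearMap_injective
  apply Finsupp.lhom_ext'
  intro i
  apply LinearMap.ext_ring
  exact H i

theorem shA_shA (B : Type) [CommRing B] (n m : ℕ) (g : Au B) : shA n (shA m g) = shA (n + m) g := by
  apply au_ext
  intro i
  by_cases h1 : i < n
  · rw [shA_ee_lt n _ i h1, shA_ee_lt (n + m) _ i (by omega)]
  · obtain ⟨j, rfl⟩ : ∃ j, i = n + j := ⟨i - n, by omega⟩
    rw [shA_ee_ge]
    by_cases h2 : j < m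
    · rw [shA_ee_lt m _ j h2, shA_ee_lt (n + m) _ (n + j) (by omega), shV_ee]
    · obtain ⟨k, rfl⟩ : ∃ k, j = m + k := ⟨j - m, by omega⟩
      rw [shA_ee_ge, ← Nat.add_assoc, shA_ee_ge, shV_shV]

end St16
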