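import Pool.Agent.LibSt16.SY00
import Pool.Agent.LibSt16.SY01

/-!
Row SY03 (MEDIUM). The unitary groups: subgroup axioms.
Plan: hdot x (ee j) = x j, hdot (ee i) y = star (y i); entries of g^-1: (g^-1 e_j)_i = hdot (g^-1 e_j) (e_i) = hdot (e_j) (g e_i) =
star ((g e_i)_j), in OZ by OZ_star.  Product: (g h e_j)_i = sum over k in the support of h e_j of (h e_j)_k (g e_k)_i: OZ_sum, OZ_mul.
-/

set_option autoImplicit false

noncomputable section

namespace St16

theorem hdot_ee_right (x : Vc EE) (j : ℕ) : hdot x (ee j) = x j := by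
  classical
  unfold hdot ee Finsupp.sum
  have h : ∀ i ∈ x.support, x i * star ((Finsupp.single j (1 : EE)) i) =
      if i = j then x i else 0 := by
    intro i _
    rw [Finsupp.single_apply]
    by_cases hij : i = j
    · subst hij
      rw [if_pos rfl, if_pos rfl, star_one, mul_one]
    · rw [if_neg hij, if_neg (fun h => hij h.symm), star_zero, mul_zero]
  rw [Finset.sum_congr rfl h, Finset.sum_ite_eq']
  split_ifs with hj
  · rfl
  · exact (Finsupp.notMem_support_iff.1 hj).symm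

theorem hdot_ee_left (y : Vc EE) (i : ℕ) : hdot (ee i) y = star (y i) := by
  unfold hdot ee
  rw [Finsupp.sum_single_index (zero_mul _), one_mul]

private theorem SY03_app (g : Au EE) (x : Vc EE) (i : ℕ) :
    (g x) i = ∑ k ∈ x.support, x k * (g (ee k)) i := by
  classical
  have hx : x = ∑ k ∈ x.support, x k • (ee k : Vc EE) := by
    conv_lhs => rw [← Finsupp.sum_single x]
    unfold Finsupp.sum ee
    refine Finset.sum_congr rfl fun k _ => ?_
    rw [Finsupp.smul_single, smul_eq_mul, mul_one]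
  conv_lhs => rw [hx]
  rw [map_sum, Finsupp.finsetSum_apply]
  refine Finset.sum_congr rfl fun k _ => ?_
  rw [map_smul, Finsupp.smul_apply, smul_eq_mul]

theorem IsU_one (n : ℕ) : IsU n 1 := by
  classical
  refine ⟨fun _ _ => rfl, fun _ _ => rfl, fun i j => ?_⟩
  show (Finsupp.single j (1 : EE)) i ∈ OZ
  rw [Finsupp.single_apply]
  split_ifs
  · exact OZ_one
  · exact OZ_zero

theorem IsU_mul (n : ℕ) (g h : Au EE) (hg : IsU n g) (hh : IsU n h) : IsU n (g * h) := by
  obtain ⟨g1, g2, g3⟩ := hg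
  obtain ⟨h1, h2, h3⟩ := hh
  refine ⟨fun x y => ?_, fun i hi => ?_, fun i j => ?_⟩
  · show hdot (g (h x)) (g (h y)) = hdot x y
    rw [g1, h1]
  · show g (h (ee i)) = ee i
    rw [h2 i hi, g2 i hi]
  · show (g (h (ee j))) i ∈ OZ
    rw [SY03_app]
    exact OZ_sum _ _ fun k _ => OZ_mul _ _ (h3 k j) (g3 i k)

theorem IsU_inv (n : ℕ) (g : Au EE) (hg : IsU n g) : IsU n g⁻¹ := by
  obtain ⟨g1, g2, g3⟩ := hg
  have hs : ∀ x, g (g⁻¹ x) = x := fun x => g.apply_symm_apply x
  have key : ∀ x y, hdot (g⁻¹ x) y = hdot x (g y) := by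
    intro x y
    rw [← g1, hs]
  refine ⟨fun x y => ?_, fun i hi => ?_, fun i j => ?_⟩
  · rw [key, hs]
  · show g.symm (ee i) = ee i
    rw [LinearEquiv.symm_apply_eq, g2 i hi]
  · rw [← hdot_ee_right (g⁻¹ (ee j)) i, key, hdot_ee_left]
    exact OZ_star _ (g3 j i)

/-- an element of rank `n` maps the first `n` coordinates to the first `n` coordinates -/
theorem IsU_low (n : ℕ) (g : Au EE) (hg : IsU n g) (x : Vc EE)
    (hx : ∀ i, n ≤ i → x i = 0) : ∀ i, n ≤ i → (g x) i = 0 := by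
  intro i hi
  obtain ⟨g1, g2, _⟩ := hg
  rw [← hdot_ee_right (g x) i]
  conv_lhs => rw [← g2 i hi]
  rw [g1, hdot_ee_right]
  exact hx i hi

theorem IsU_mono (n m : ℕ) (hnm : n ≤ m) (g : Au EE) (hg : IsU n g) : IsU m g :=
  ⟨hg.1, fun i hi => hg.2.1 i (hnm.trans hi), hg.2.2⟩

end St16
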