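import Pool.Agent.LibSt16.SY02
import Pool.Agent.LibSt16.SY03

/-!
Row SY08 (MEDIUM). Realification.
Plan: reV is Q-linear (additive) and reV ((a+bi) x): reV (i • x) is the rotation J of reV x; key lemma: for the B-linear map reL B g,
reL B g (reV B x) = reV B (g x) for all x (Finsupp.induction_linear; for x = single k z write z = re + im i, re and im rational numbers
acting through algebraMap).  ee (2k) = reV (ee k), ee (2k+1) = reV (i • ee k).  dot (reV x) (reV y) = algebraMap (re (hdot x y)).
-/

set_option autoImplicit false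

noncomputable section

namespace St16

private theorem SY08_single (B : Type) [CommRing B] [Algebra ℚ B] (k : ℕ) (z : EE) :
    reV B (Finsupp.single k z) =
      Finsupp.single (2 * k) (algebraMap ℚ B z.re) + Finsupp.single (2 * k + 1) (algebraMap ℚ B z.im) := by
  unfold reV
  rw [Finsupp.sum_single_index]
  rw [QuadraticAlgebra.re_zero, QuadraticAlgebra.im_zero, map_zero, Finsupp.single_zero,
    Finsupp.single_zero, add_zero]

private theorem SY08_zero (B : Type) [CommRing B] [Algebra ℚ B] : reV B (0 : Vc EE) = 0 := by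
  unfold reV
  exact Finsupp.sum_zero_index

theorem reV_add (B : Type) [CommRing B] [Algebra ℚ B] (x y : Vc EE) : reV B (x + y) = reV B x + reV B y := by
  unfold reV
  refine Finsupp.sum_add_index' (fun k => ?_) (fun k z w => ?_)
  · rw [QuadraticAlgebra.re_zero, QuadraticAlgebra.im_zero, map_zero, Finsupp.single_zero,
      Finsupp.single_zero, add_zero]
  · rw [QuadraticAlgebra.re_add, QuadraticAlgebra.im_add, map_add, map_add, Finsupp.single_add,
      Finsupp.single_add]
    abel

theorem reV_ee (B : Type) [CommRing B] [Algebra ℚ B] (k : ℕ) : reV B (ee k) = ee (2 * k) := by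
  unfold ee
  rw [SY08_single, QuadraticAlgebra.re_one, QuadraticAlgebra.im_one, map_one, map_zero,
    Finsupp.single_zero, add_zero]

theorem reV_iee (B : Type) [CommRing B] [Algebra ℚ B] (k : ℕ) :
    reV B ((⟨0, 1⟩ : EE) • ee k) = ee (2 * k + 1) := by
  unfold ee
  rw [Finsupp.smul_single, smul_eq_mul, mul_one, SY08_single]
  show Finsupp.single (2 * k) (algebraMap ℚ B 0) + Finsupp.single (2 * k + 1) (algebraMap ℚ B 1) = _
  rw [map_one, map_zero, Finsupp.single_zero, zero_add]

private theorem SY08_even (B : Type) [CommRing B] [Algebra ℚ B] (x : Vc EE) (k : ℕ) :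
    reV B x (2 * k) = algebraMap ℚ B (x k).re := by
  induction x using Finsupp.induction_linear with
  | zero => rw [SY08_zero, Finsupp.zero_apply, Finsupp.zero_apply, QuadraticAlgebra.re_zero, map_zero]
  | add x y hx hy =>
    rw [reV_add, Finsupp.add_apply, Finsupp.add_apply, hx, hy, QuadraticAlgebra.re_add, map_add]
  | single j z =>
    rw [SY08_single, Finsupp.add_apply, Finsupp.single_apply, Finsupp.single_apply,
      Finsupp.single_apply, if_neg (show ¬ (2 * j + 1 = 2 * k) by omega), add_zero]
    by_cases h : j = k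
    · rw [if_pos (by omega), if_pos h]
    · rw [if_neg (by omega), if_neg h, QuadraticAlgebra.re_zero, map_zero]

private theorem SY08_odd (B : Type) [CommRing B] [Algebra ℚ B] (x : Vc EE) (k : ℕ) :
    reV B x (2 * k + 1) = algebraMap ℚ B (x k).im := by
  induction x using Finsupp.induction_linear with
  | zero => rw [SY08_zero, Finsupp.zero_apply, Finsupp.zero_apply, QuadraticAlgebra.im_zero, map_zero]
  | add x y hx hy =>
    rw [reV_add, Finsupp.add_apply, Finsupp.add_apply, hx, hy, QuadraticAlgebra.im_add, map_add]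
  | single j z =>
    rw [SY08_single, Finsupp.add_apply, Finsupp.single_apply, Finsupp.single_apply,
      Finsupp.single_apply, if_neg (show ¬ (2 * j = 2 * k + 1) by omega), zero_add]
    by_cases h : j = k
    · rw [if_pos (by omega), if_pos h]
    · rw [if_neg (by omega), if_neg h, QuadraticAlgebra.im_zero, map_zero]

private theorem SY08_smulQ (B : Type) [CommRing B] [Algebra ℚ B] (q : ℚ) (x : Vc EE) :
    reV B ((⟨q, 0⟩ : EE) • x) = algebraMap ℚ B q • reV B x := by
  ext j
  rcases Nat.even_or_odd' j with ⟨k, rfl | rfl⟩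
  · rw [SY08_even, Finsupp.smul_apply, Finsupp.smul_apply, SY08_even, smul_eq_mul, smul_eq_mul,
      ← map_mul, QuadraticAlgebra.re_mul]
    congr 1
    show q * (x k).re + (-1) * 0 * (x k).im = q * (x k).re
    ring
  · rw [SY08_odd, Finsupp.smul_apply, Finsupp.smul_apply, SY08_odd, smul_eq_mul, smul_eq_mul,
      ← map_mul, QuadraticAlgebra.im_mul]
    congr 1
    show q * (x k).im + 0 * (x k).re + 0 * 0 * (x k).im = q * (x k).im
    ring

private theorem SY08_reL_even (B : Type) [CommRing B] [Algebra ℚ B] (g : Vc EE →ₗ[EE] Vc EE) (k : ℕ) (b : B) :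
    reL B g (Finsupp.single (2 * k) b) = b • reV B (g (ee k)) := by
  unfold reL
  rw [Finsupp.linearCombination_single, if_pos (by omega)]
  have h : 2 * k / 2 = k := by omega
  rw [h]

private theorem SY08_reL_odd (B : Type) [CommRing B] [Algebra ℚ B] (g : Vc EE →ₗ[EE] Vc EE) (k : ℕ) (b : B) :
    reL B g (Finsupp.single (2 * k + 1) b) = b • reV B (g ((⟨0, 1⟩ : EE) • ee k)) := by
  unfold reL
  rw [Finsupp.linearCombination_single, if_neg (by omega)]
  have h : (2 * k + 1) / 2 = k := by omega
  rw [h]

/-- a vector is a multiple of a realified vector if it is a multiple of a basis vector -/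
private theorem SY08_basis (B : Type) [CommRing B] [Algebra ℚ B] (i : ℕ) (b : B) :
    ∃ u : Vc EE, Finsupp.single i b = b • reV B u := by
  rcases Nat.even_or_odd' i with ⟨k, rfl | rfl⟩
  · refine ⟨ee k, ?_⟩
    rw [reV_ee, ee, Finsupp.smul_single, smul_eq_mul, mul_one]
  · refine ⟨(⟨0, 1⟩ : EE) • ee k, ?_⟩
    rw [reV_iee, ee, Finsupp.smul_single, smul_eq_mul, mul_one]

private theorem SY08_ext (B : Type) [CommRing B] [Algebra ℚ B] (f f' : Vc B →ₗ[B] Vc B)
    (H : ∀ u, f (reV B u) = f' (reV B u)) : f = f' := by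
  apply LinearMap.ext
  intro x
  induction x using Finsupp.induction_linear with
  | zero => rw [map_zero, map_zero]
  | add x y hx hy => rw [map_add, map_add, hx, hy]
  | single i b =>
    obtain ⟨u, hu⟩ := SY08_basis B i b
    rw [hu, map_smul, map_smul, H u]

private theorem SY08_shV (B : Type) [CommRing B] [Algebra ℚ B] (n : ℕ) (x : Vc EE) :
    reV B (shV n x) = shV (2 * n) (reV B x) := by
  induction x using Finsupp.induction_linear with
  | zero => rw [map_zero, SY08_zero, map_zero]
  | add x y hx hy => rw [map_add, reV_add, reV_add, map_add, hx, hy]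
  | single k z =>
    have h1 : ∀ (C : Type) [CommRing C] (m i : ℕ) (c : C),
        shV m (Finsupp.single i c : Vc C) = Finsupp.single (m + i) c := by
      intro C _ m i c
      exact Finsupp.mapDomain_single
    rw [h1, SY08_single, SY08_single, map_add, h1, h1]
    have h2 : 2 * (n + k) = 2 * n + 2 * k := by ring
    rw [h2]
    rfl

private theorem SY08_unV (B : Type) [CommRing B] [Algebra ℚ B] (n : ℕ) (x : Vc EE) :
    reV B (unV n x) = unV (2 * n) (reV B x) := by
  ext j
  rcases Nat.even_or_odd' j with ⟨k, rfl | rfl⟩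
  · have h1 : unV (2 * n) (reV B x) (2 * k) = reV B x (2 * (n + k)) := by
      show reV B x (2 * n + 2 * k) = _
      rw [Nat.mul_add]
    rw [h1, SY08_even, SY08_even]
    rfl
  · have h1 : unV (2 * n) (reV B x) (2 * k + 1) = reV B x (2 * (n + k) + 1) := by
      show reV B x (2 * n + (2 * k + 1)) = _
      rw [Nat.mul_add, Nat.add_assoc]
    rw [h1, SY08_odd, SY08_odd]
    rfl

private theorem SY08_sub (B : Type) [CommRing B] [Algebra ℚ B] (x y : Vc EE) :
    reV B (x - y) = reV B x - reV B y := by
  rw [eq_sub_iff_add_eq, ← reV_add, sub_add_cancel]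

theorem reL_reV (B : Type) [CommRing B] [Algebra ℚ B] (g : Vc EE →ₗ[EE] Vc EE) (x : Vc EE) :
    reL B g (reV B x) = reV B (g x) := by
  induction x using Finsupp.induction_linear with
  | zero => rw [SY08_zero, map_zero, map_zero, SY08_zero]
  | add x y hx hy => rw [reV_add, map_add, map_add, reV_add, hx, hy]
  | single k z =>
    rw [SY08_single, map_add, SY08_reL_even, SY08_reL_odd, ← SY08_smulQ, ← SY08_smulQ, ← reV_add,
      ← map_smul, ← map_smul, ← map_add]
    congr 2
    unfold ee
    rw [Finsupp.smul_single, Finsupp.smul_single, Finsupp.smul_single, ← Finsupp.single_add]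
    congr 1
    ext
    · show (z.re * 1 + (-1) * 0 * 0) + (z.im * (0 * 1 + (-1) * 1 * 0) + (-1) * 0 * (0 * 0 + 1 * 1 + 0 * 1 * 0)) = z.re
      ring
    · show (z.re * 0 + 0 * 1 + 0 * 0 * 0) + (z.im * (0 * 0 + 1 * 1 + 0 * 1 * 0) + 0 * (0 * 1 + (-1) * 1 * 0) + 0 * 0 * (0 * 0 + 1 * 1 + 0 * 1 * 0)) = z.im
      ring

theorem reL_mul (B : Type) [CommRing B] [Algebra ℚ B] (g h : Vc EE →ₗ[EE] Vc EE) :
    reL B (g ∘ₗ h) = reL B g ∘ₗ reL B h := by
  apply SY08_ext
  intro u
  rw [reL_reV, LinearMap.comp_apply, LinearMap.comp_apply, reL_reV, reL_reV]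

theorem reL_one (B : Type) [CommRing B] [Algebra ℚ B] :
    reL B (LinearMap.id : Vc EE →ₗ[EE] Vc EE) = LinearMap.id := by
  apply SY08_ext
  intro u
  rw [reL_reV]
  rfl

theorem reL_shL (B : Type) [CommRing B] [Algebra ℚ B] (n : ℕ) (g : Vc EE →ₗ[EE] Vc EE) :
    reL B (shL n g) = shL (2 * n) (reL B g) := by
  apply SY08_ext
  intro u
  rw [reL_reV]
  show reV B (u - shV n (unV n u) + shV n (g (unV n u))) =
    reV B u - shV (2 * n) (unV (2 * n) (reV B u)) + shV (2 * n) (reL B g (unV (2 * n) (reV B u)))
  rw [reV_add, SY08_sub, SY08_shV, SY08_shV, SY08_unV, ← SY08_unV, reL_reV]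

theorem dot_reV (B : Type) [CommRing B] [Algebra ℚ B] (x y : Vc EE) :
    dot (reV B x) (reV B y) = algebraMap ℚ B (hdot x y).re := by
  induction x using Finsupp.induction_linear with
  | zero =>
    rw [SY08_zero]
    have h1 : dot (0 : Vc B) (reV B y) = 0 := Finsupp.sum_zero_index
    have h2 : hdot (0 : Vc EE) y = 0 := Finsupp.sum_zero_index
    rw [h1, h2, QuadraticAlgebra.re_zero, map_zero]
  | add x x' hx hx' =>
    have h2 : hdot (x + x') y = hdot x y + hdot x' y :=
      Finsupp.sum_add_index' (fun i => zero_mul _) (fun i a b => add_mul _ _ _)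
    rw [reV_add, dot_add_left, h2, hx, hx', QuadraticAlgebra.re_add, map_add]
  | single k z =>
    have h1 : ∀ (i : ℕ) (b : B) (w : Vc B), dot (Finsupp.single i b) w = b * w i := fun i b w =>
      Finsupp.sum_single_index (zero_mul _)
    have h2 : hdot (Finsupp.single k z) y = z * star (y k) := Finsupp.sum_single_index (zero_mul _)
    rw [SY08_single, dot_add_left, h1, h1, h2, SY08_even, SY08_odd, ← map_mul, ← map_mul, ← map_add]
    congr 1
    rw [QuadraticAlgebra.re_mul, QuadraticAlgebra.re_star, QuadraticAlgebra.im_star]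
    ring

/-- unitarity becomes orthogonality -/
theorem reL_dot (B : Type) [CommRing B] [Algebra ℚ B] (g : Vc EE →ₗ[EE] Vc EE)
    (hg : ∀ x y, hdot (g x) (g y) = hdot x y) (x y : Vc B) : dot (reL B g x) (reL B g y) = dot x y := by
  have hadd : ∀ a b c : Vc B, dot a (b + c) = dot a b + dot a c := fun a b c => by
    rw [dot_comm, dot_add_left, dot_comm b, dot_comm c]
  have hsm : ∀ (r : B) (a b : Vc B), dot a (r • b) = r * dot a b := fun r a b => by
    rw [dot_comm, dot_smul_left, dot_comm]
  have hz : ∀ a : Vc B, dot (0 : Vc B) a = 0 := fun a => Finsupp.sum_zero_index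
  have hz' : ∀ a : Vc B, dot a (0 : Vc B) = 0 := fun a => by rw [dot_comm, hz]
  have key : ∀ u v : Vc EE, dot (reL B g (reV B u)) (reL B g (reV B v)) = dot (reV B u) (reV B v) := by
    intro u v
    rw [reL_reV, reL_reV, dot_reV, dot_reV, hg]
  induction x using Finsupp.induction_linear with
  | zero => rw [map_zero, hz, hz]
  | add x x' hx hx' => rw [map_add, dot_add_left, dot_add_left, hx, hx']
  | single i b =>
    obtain ⟨u, hu⟩ := SY08_basis B i b
    rw [hu, map_smul, dot_smul_left, dot_smul_left]
    congr 1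
    induction y using Finsupp.induction_linear with
    | zero => rw [map_zero, hz', hz']
    | add y y' hy hy' => rw [map_add, hadd, hadd, hy, hy']
    | single j c =>
      obtain ⟨v, hv⟩ := SY08_basis B j c
      rw [hv, map_smul, hsm, hsm, key]

end St16
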