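import Pool.Agent.LibSt16.SY02

/-!
Row SY09 (MEDIUM). Lattices: action, block sums.
Plan: Pn_smul: g in On n preserves the coordinates < n (On_low, also for g^-1) and dot; but M_n = A^n is NOT preserved: the bounds with a larger
exponent: the matrix entries of g and of g^-1 (finitely many columns) have a common denominator ϖ^k
(IsDiscreteValuationRing: every element of L is a/ϖ^k times a unit... : exists k with ϖ^k x in A).  dual n (g Λ) = g (dual n Λ).
jn_mem: dual (n+m) (a + sh b) = dual n a + sh (dual m b) (write x = low + shV (unV x)).  jn_smul: map of a sup; g acts trivially on sh b and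
shA n h acts trivially on a (a is supported below n: from the bound, L^n).
-/

set_option autoImplicit false

noncomputable section

namespace St16

variable {A L : Type} [CommRing A] [IsDomain A] [IsDiscreteValuationRing A] [Field L] [Algebra A L]
  [IsFractionRing A L]

/-- members of `Ln n` are supported below `n` -/
theorem Ln_low (ϖ : A) (hϖ : Irreducible ϖ) (n : ℕ) (Λ : Lt A L) (h : Λ ∈ Ln ϖ n) (x : Vc L) (hx : x ∈ Λ) :
    ∀ i, n ≤ i → x i = 0 := (h.2.1 hx).1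

/-! ### auxiliary facts -/

private theorem sy09_unV_apply {B : Type} [CommRing B] (n : ℕ) (x : Vc B) (i : ℕ) :
    unV n x i = x (n + i) := rfl

private theorem sy09_shV_ge {B : Type} [CommRing B] (n : ℕ) (x : Vc B) (i : ℕ) :
    shV n x (n + i) = x i := by
  have h := congrArg (fun v : Vc B => v i) (unV_shV n x)
  exact h

private theorem sy09_shV_lt {B : Type} [CommRing B] (n : ℕ) (x : Vc B) (i : ℕ) (hi : i < n) :
    shV n x i = 0 := by
  show Finsupp.mapDomain (fun i => n + i) x i = 0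
  apply Finsupp.mapDomain_notin_range
  rintro ⟨j, hj⟩
  have : n + j = i := hj
  omega

/-- the low part of a vector -/
private def sy09_lo {B : Type} [CommRing B] (n : ℕ) (x : Vc B) : Vc B := x - shV n (unV n x)

private theorem sy09_lo_add {B : Type} [CommRing B] (n : ℕ) (x : Vc B) :
    sy09_lo n x + shV n (unV n x) = x := sub_add_cancel _ _

private theorem sy09_lo_lt {B : Type} [CommRing B] (n : ℕ) (x : Vc B) (i : ℕ) (hi : i < n) :
    sy09_lo n x i = x i := by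
  show (x - shV n (unV n x)) i = x i
  rw [Finsupp.sub_apply, sy09_shV_lt n _ i hi, sub_zero]

private theorem sy09_lo_ge {B : Type} [CommRing B] (n : ℕ) (x : Vc B) (i : ℕ) (hi : n ≤ i) :
    sy09_lo n x i = 0 := by
  obtain ⟨j, rfl⟩ : ∃ j, i = n + j := ⟨i - n, by omega⟩
  show (x - shV n (unV n x)) (n + j) = 0
  rw [Finsupp.sub_apply, sy09_shV_ge, sy09_unV_apply, sub_self]

private theorem sy09_dot_add_right {B : Type} [CommRing B] (x y z : Vc B) :
    dot z (x + y) = dot z x + dot z y := by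
  rw [dot_comm, dot_add_left, dot_comm x, dot_comm y]

private theorem sy09_unV_low {B : Type} [CommRing B] (n : ℕ) (x : Vc B) (hx : ∀ i, n ≤ i → x i = 0) :
    unV n x = 0 := by
  ext i
  rw [sy09_unV_apply]
  exact hx _ (by omega)

private theorem sy09_shA_low {B : Type} [CommRing B] (n : ℕ) (h : Au B) (x : Vc B)
    (hx : ∀ i, n ≤ i → x i = 0) : shA n h x = x := by
  rw [shA_apply, sy09_unV_low n x hx, map_zero, map_zero, map_zero, sub_zero, add_zero]

/-- elements of `On n` act trivially on the high part -/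
private theorem sy09_On_shV {B : Type} [CommRing B] (n : ℕ) (g : Au B) (hg : g ∈ On B n) (x : Vc B) :
    g (shV n x) = shV n x := by
  induction x using Finsupp.induction_linear with
  | zero => rw [map_zero, map_zero]
  | add x y hx hy => rw [map_add, map_add, hx, hy]
  | single i a =>
    have h1 : (Finsupp.single i a : Vc B) = a • ee i := by
      unfold ee; rw [Finsupp.smul_single, smul_eq_mul, mul_one]
    rw [h1, map_smul, map_smul, shV_ee, hg.2 (n + i) (by omega)]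

omit [IsFractionRing A L] [IsDomain A] [IsDiscreteValuationRing A] in
private theorem sy09_shV_smul (n : ℕ) (c : A) (x : Vc L) : shV n (c • x) = c • shV n x :=
  ((shV n : Vc L →ₗ[L] Vc L).restrictScalars A).map_smul c x

omit [IsFractionRing A L] [IsDomain A] [IsDiscreteValuationRing A] in
private theorem sy09_unV_smul (n : ℕ) (c : A) (x : Vc L) : unV n (c • x) = c • unV n x :=
  ((unV n : Vc L →ₗ[L] Vc L).restrictScalars A).map_smul c x

omit [IsFractionRing A L] [IsDomain A] [IsDiscreteValuationRing A] in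
private theorem sy09_g_smul (g : Au L) (c : A) (x : Vc L) : g (c • x) = c • g x :=
  (g.toLinearMap.restrictScalars A).map_smul c x

omit [IsFractionRing A L] [IsDomain A] [IsDiscreteValuationRing A] in
private theorem sy09_mem_smul (g : Au L) (Λ : Lt A L) (x : Vc L) :
    x ∈ (g • Λ : Lt A L) ↔ ∃ y ∈ Λ, g y = x := Iff.rfl

omit [IsFractionRing A L] [IsDomain A] [IsDiscreteValuationRing A] in
private theorem sy09_mem_jnL (n : ℕ) (a b : Lt A L) (x : Vc L) :
    x ∈ (jnL n a b : Lt A L) ↔ ∃ y ∈ a, ∃ z ∈ b, y + shV n z = x := by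
  unfold jnL
  constructor
  · intro h
    obtain ⟨y, hy, w, hw, rfl⟩ := Submodule.mem_sup.1 h
    obtain ⟨z, hz, rfl⟩ := hw
    exact ⟨y, hy, z, hz, rfl⟩
  · rintro ⟨y, hy, z, hz, rfl⟩
    exact Submodule.mem_sup.2 ⟨y, hy, _, ⟨z, hz, rfl⟩, rfl⟩

/-! ### denominators -/

/-- vectors with integral coordinates -/
private def sy09_Mi (A L : Type) [CommRing A] [Field L] [Algebra A L] : Submodule A (Vc L) where
  carrier := {x | ∀ i, ∃ a : A, algebraMap A L a = x i}
  add_mem' := by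
    intro x y hx hy i
    obtain ⟨a, ha⟩ := hx i
    obtain ⟨b, hb⟩ := hy i
    exact ⟨a + b, by rw [map_add, ha, hb, Finsupp.add_apply]⟩
  zero_mem' := fun i => ⟨0, by simp⟩
  smul_mem' := by
    intro c x hx i
    obtain ⟨a, ha⟩ := hx i
    exact ⟨c * a, by rw [map_mul, ha, Finsupp.smul_apply, Algebra.smul_def]⟩

private theorem sy09_den (ϖ : A) (hϖ : Irreducible ϖ) (y : L) :
    ∃ k : ℕ, ∃ a : A, algebraMap A L a = ϖ ^ k • y := by
  obtain ⟨a, b, hb, rfl⟩ := IsFractionRing.div_surjective (A := A) y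
  have hb0 : b ≠ 0 := nonZeroDivisors.ne_zero hb
  obtain ⟨k, u, hu⟩ := IsDiscreteValuationRing.eq_unit_mul_pow_irreducible hb0 hϖ
  refine ⟨k, a * (↑u⁻¹ : A), ?_⟩
  have hb1 : algebraMap A L b ≠ 0 := by
    intro h
    exact hb0 ((IsFractionRing.injective A L) (by rw [h, map_zero]))
  rw [Algebra.smul_def, mul_div_assoc', eq_div_iff hb1, ← map_mul, ← map_mul]
  congr 1
  rw [hu]
  have h1 : (↑u⁻¹ : A) * ↑u = 1 := u.inv_mul
  linear_combination (a * ϖ ^ k) * h1

private theorem sy09_Mi_pow (ϖ : A) (k l : ℕ) (x : Vc L) (h : ϖ ^ k • x ∈ sy09_Mi A L) :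
    ϖ ^ (l + k) • x ∈ sy09_Mi A L := by
  rw [pow_add, mul_smul]
  exact Submodule.smul_mem _ _ h

private theorem sy09_den_vec (ϖ : A) (hϖ : Irreducible ϖ) (x : Vc L) :
    ∃ k : ℕ, ϖ ^ k • x ∈ sy09_Mi A L := by
  induction x using Finsupp.induction_linear with
  | zero => exact ⟨0, by rw [smul_zero]; exact Submodule.zero_mem _⟩
  | add x y hx hy =>
    obtain ⟨k, hk⟩ := hx
    obtain ⟨l, hl⟩ := hy
    refine ⟨k + l, ?_⟩
    rw [smul_add]
    refine Submodule.add_mem _ ?_ (sy09_Mi_pow ϖ l k y hl)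
    rw [add_comm k l]
    exact sy09_Mi_pow ϖ k l x hk
  | single i a =>
    obtain ⟨k, c, hc⟩ := sy09_den ϖ hϖ a
    refine ⟨k, fun j => ?_⟩
    rw [Finsupp.smul_single, ← hc, Finsupp.single_apply]
    split_ifs
    · exact ⟨c, rfl⟩
    · exact ⟨0, map_zero _⟩

private theorem sy09_den_cols (ϖ : A) (hϖ : Irreducible ϖ) (g : Au L) (n : ℕ) :
    ∃ k : ℕ, ∀ j, j < n → ϖ ^ k • g (ee j) ∈ sy09_Mi A L := by
  induction n with
  | zero => exact ⟨0, fun j hj => absurd hj (by omega)⟩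
  | succ n ih =>
    obtain ⟨k, hk⟩ := ih
    obtain ⟨l, hl⟩ := sy09_den_vec ϖ hϖ (g (ee n))
    refine ⟨k + l, fun j hj => ?_⟩
    by_cases h : j = n
    · subst h
      exact sy09_Mi_pow ϖ l k _ hl
    · rw [add_comm k l]
      exact sy09_Mi_pow ϖ k l _ (hk j (by omega))

/-- a bound for the denominators on `A^n` -/
private theorem sy09_bound (ϖ : A) (hϖ : Irreducible ϖ) (n : ℕ) (g : Au L) (hg : g ∈ On L n) :
    ∃ k : ℕ, ∀ x ∈ (Mn A n : Submodule A (Vc L)), ϖ ^ k • g x ∈ (Mn A n : Submodule A (Vc L)) := by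
  obtain ⟨k, hk⟩ := sy09_den_cols ϖ hϖ g n
  refine ⟨k, fun x hx => ?_⟩
  have hlow : ∀ i, n ≤ i → (g x) i = 0 := On_low n g hg x fun i hi => (hx i).1 hi
  have hint : ϖ ^ k • g x ∈ sy09_Mi A L := by
    have h1 : x = ∑ j ∈ x.support, x j • (ee j : Vc L) := by
      conv_lhs => rw [← Finsupp.sum_single x]
      unfold Finsupp.sum ee
      refine Finset.sum_congr rfl fun j _ => ?_
      rw [Finsupp.smul_single, smul_eq_mul, mul_one]
    have h2 : ϖ ^ k • g x = ∑ j ∈ x.support, ϖ ^ k • (x j • g (ee j)) := by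
      conv_lhs => rw [h1]
      rw [map_sum, Finset.smul_sum]
      refine Finset.sum_congr rfl fun j _ => ?_
      rw [map_smul]
    rw [h2]
    refine Submodule.sum_mem _ fun j hj => ?_
    obtain ⟨h3, a, ha⟩ := hx j
    have hjn : j < n := by
      by_contra h
      exact (Finsupp.mem_support_iff.1 hj) (h3 (by omega))
    have h4 : ϖ ^ k • (x j • g (ee j)) = a • (ϖ ^ k • g (ee j)) := by
      rw [← ha, algebraMap_smul, smul_comm]
    rw [h4]
    exact Submodule.smul_mem _ _ (hk j hjn)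
  intro i
  refine ⟨fun hi => ?_, hint i⟩
  rw [Finsupp.smul_apply, hlow i hi, smul_zero]

private theorem sy09_inv {B : Type} [CommRing B] (n : ℕ) (g : Au B) (hg : g ∈ On B n) :
    g.symm ∈ On B n := (On B n).inv_mem hg

/-! ### the action -/

theorem Ln_smul (ϖ : A) (hϖ : Irreducible ϖ) (n : ℕ) (g : Au L) (Λ : Lt A L) (hg : g ∈ On L n)
    (h : Λ ∈ Ln ϖ n) : g • Λ ∈ Ln ϖ n := by
  obtain ⟨⟨j, hj1, hj2⟩, hd1, hd2⟩ := h
  have hg' := sy09_inv n g hg
  obtain ⟨k, hk⟩ := sy09_bound ϖ hϖ n g hg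
  obtain ⟨k', hk'⟩ := sy09_bound ϖ hϖ n g.symm hg'
  have hdot : ∀ x y : Vc L, dot (g.symm x) y = dot x (g y) := by
    intro x y
    rw [← hg.1 (g.symm x) y, LinearEquiv.apply_symm_apply]
  refine ⟨⟨j + k + k', fun x hx => ?_, ?_⟩, ?_, ?_⟩
  · rw [sy09_mem_smul]
    refine ⟨ϖ ^ (j + k + k') • g.symm x, ?_, ?_⟩
    · rw [show j + k + k' = k + (j + k') by omega, pow_add, mul_smul]
      refine Submodule.smul_mem _ _ ?_
      rw [pow_add, mul_smul]
      exact hj1 _ (hk' x hx)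
    · rw [sy09_g_smul, LinearEquiv.apply_symm_apply]
  · intro x hx
    obtain ⟨y, hy, rfl⟩ := (sy09_mem_smul g Λ x).1 hx
    rw [show j + k + k' = k' + (k + j) by omega, pow_add, mul_smul]
    refine Submodule.smul_mem _ _ ?_
    rw [pow_add, mul_smul, ← sy09_g_smul]
    exact hk _ (hj2 y hy)
  · intro x hx
    obtain ⟨y, hy, rfl⟩ := (sy09_mem_smul g Λ x).1 hx
    refine ⟨On_low n g hg y (hd1 hy).1, fun z hz => ?_⟩
    obtain ⟨w, hw, rfl⟩ := (sy09_mem_smul g Λ z).1 hz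
    obtain ⟨a, ha⟩ := (hd1 hy).2 w hw
    exact ⟨a, by rw [ha, hg.1]⟩
  · intro x hx
    obtain ⟨hx1, hx2⟩ := hx
    rw [sy09_mem_smul]
    refine ⟨ϖ • g.symm x, hd2 _ ⟨On_low n g.symm hg' x hx1, fun z hz => ?_⟩, ?_⟩
    · obtain ⟨a, ha⟩ := hx2 (g z) ((sy09_mem_smul g Λ _).2 ⟨z, hz, rfl⟩)
      exact ⟨a, by rw [ha, hdot]⟩
    · rw [sy09_g_smul, LinearEquiv.apply_symm_apply]

/-! ### block sums -/

omit [IsFractionRing A L] [IsDomain A] [IsDiscreteValuationRing A] in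
private theorem sy09_dot_low_shV (n : ℕ) (x y : Vc L) (hx : ∀ i, n ≤ i → x i = 0) :
    dot x (shV n y) = 0 := by
  rw [dot_comm]
  exact dot_shV_low n y x hx

theorem jnL_mem (ϖ : A) (hϖ : Irreducible ϖ) (n m : ℕ) (a b : Lt A L) (ha : a ∈ Ln ϖ n) (hb : b ∈ Ln ϖ m) :
    jnL n a b ∈ Ln ϖ (n + m) := by
  have hla : ∀ x ∈ a, ∀ i, n ≤ i → x i = 0 := fun x hx => Ln_low ϖ hϖ n a ha x hx
  obtain ⟨⟨j, hj1, hj2⟩, hd1, hd2⟩ := ha
  obtain ⟨⟨k, hk1, hk2⟩, he1, he2⟩ := hb
  refine ⟨⟨j + k, fun x hx => ?_, ?_⟩, ?_, ?_⟩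
  · rw [sy09_mem_jnL]
    refine ⟨ϖ ^ (j + k) • sy09_lo n x, ?_, ϖ ^ (j + k) • unV n x, ?_, ?_⟩
    · rw [add_comm j k, pow_add, mul_smul]
      refine Submodule.smul_mem _ _ (hj1 _ fun i => ⟨sy09_lo_ge n x i, ?_⟩)
      by_cases hi : i < n
      · rw [sy09_lo_lt n x i hi]; exact (hx i).2
      · rw [sy09_lo_ge n x i (by omega)]; exact ⟨0, map_zero _⟩
    · rw [pow_add, mul_smul]
      refine Submodule.smul_mem _ _ (hk1 _ fun i => ⟨fun hi => ?_, ?_⟩)
      · rw [sy09_unV_apply]; exact (hx (n + i)).1 (by omega)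
      · rw [sy09_unV_apply]; exact (hx (n + i)).2
    · rw [sy09_shV_smul, ← smul_add, sy09_lo_add]
  · intro x hx
    obtain ⟨y, hy, z, hz, rfl⟩ := (sy09_mem_jnL n a b x).1 hx
    rw [smul_add]
    refine Submodule.add_mem _ ?_ ?_
    · rw [add_comm j k, pow_add, mul_smul]
      refine Submodule.smul_mem _ _ fun i => ⟨fun hi => ?_, (hj2 y hy i).2⟩
      exact (hj2 y hy i).1 (by omega)
    · rw [pow_add, mul_smul]
      refine Submodule.smul_mem _ _ ?_
      rw [← sy09_shV_smul]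
      intro i
      by_cases hi : i < n
      · rw [sy09_shV_lt n _ i hi]
        exact ⟨fun _ => rfl, 0, map_zero _⟩
      · obtain ⟨i', rfl⟩ : ∃ i', i = n + i' := ⟨i - n, by omega⟩
        rw [sy09_shV_ge]
        exact ⟨fun h => (hk2 z hz i').1 (by omega), (hk2 z hz i').2⟩
  · intro x hx
    obtain ⟨y, hy, z, hz, rfl⟩ := (sy09_mem_jnL n a b x).1 hx
    refine ⟨fun i hi => ?_, fun w hw => ?_⟩
    · obtain ⟨i', rfl⟩ : ∃ i', i = n + i' := ⟨i - n, by omega⟩
      rw [Finsupp.add_apply, sy09_shV_ge, hla y hy _ (by omega), (he1 hz).1 i' (by omega), add_zero]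
    · obtain ⟨y', hy', z', hz', rfl⟩ := (sy09_mem_jnL n a b w).1 hw
      obtain ⟨c, hc⟩ := (hd1 hy).2 y' hy'
      obtain ⟨d, hd⟩ := (he1 hz).2 z' hz'
      refine ⟨c + d, ?_⟩
      rw [map_add, hc, hd, dot_add_left, sy09_dot_add_right, sy09_dot_add_right,
        sy09_dot_low_shV n y z' (hla y hy), dot_shV_low n z y' (hla y' hy'), dot_shV, add_zero, zero_add]
  · intro x hx
    obtain ⟨hx1, hx2⟩ := hx
    rw [sy09_mem_jnL]
    refine ⟨ϖ • sy09_lo n x, hd2 _ ⟨sy09_lo_ge n x, fun y hy => ?_⟩, ϖ • unV n x,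
      he2 _ ⟨fun i hi => ?_, fun z hz => ?_⟩, ?_⟩
    · obtain ⟨c, hc⟩ := hx2 y ((sy09_mem_jnL n a b y).2 ⟨y, hy, 0, Submodule.zero_mem _, by
        rw [map_zero, add_zero]⟩)
      refine ⟨c, ?_⟩
      rw [hc]
      conv_lhs => rw [← sy09_lo_add n x]
      rw [dot_add_left, dot_shV_low n _ y (hla y hy), add_zero]
    · rw [sy09_unV_apply]; exact hx1 _ (by omega)
    · obtain ⟨c, hc⟩ := hx2 (shV n z) ((sy09_mem_jnL n a b _).2 ⟨0, Submodule.zero_mem _, z, hz, by
        rw [zero_add]⟩)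
      refine ⟨c, ?_⟩
      rw [hc]
      conv_lhs => rw [← sy09_lo_add n x]
      rw [dot_add_left, sy09_dot_low_shV n _ z (sy09_lo_ge n x), dot_shV, zero_add]
    · rw [sy09_shV_smul, ← smul_add, sy09_lo_add]

theorem jnL_mono (n : ℕ) (a a' b b' : Lt A L) (h : a ≤ a') (h' : b ≤ b') : jnL n a b ≤ jnL n a' b' :=
  sup_le_sup h (Submodule.map_mono h')

theorem jnL_assoc (n m : ℕ) (a b c : Lt A L) : jnL (n + m) (jnL n a b) c = jnL n a (jnL m b c) := by
  ext x
  rw [sy09_mem_jnL, sy09_mem_jnL]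
  constructor
  · rintro ⟨y, hy, z, hz, rfl⟩
    obtain ⟨u, hu, v, hv, rfl⟩ := (sy09_mem_jnL n a b y).1 hy
    refine ⟨u, hu, v + shV m z, (sy09_mem_jnL m b c _).2 ⟨v, hv, z, hz, rfl⟩, ?_⟩
    rw [map_add, shV_shV, add_assoc]
  · rintro ⟨y, hy, z, hz, rfl⟩
    obtain ⟨u, hu, v, hv, rfl⟩ := (sy09_mem_jnL m b c z).1 hz
    refine ⟨y + shV n u, (sy09_mem_jnL n a b _).2 ⟨y, hy, u, hu, rfl⟩, v, hv, ?_⟩
    rw [map_add, shV_shV, add_assoc]

theorem jnL_smul (ϖ : A) (hϖ : Irreducible ϖ) (n m : ℕ) (g h : Au L) (a b : Lt A L) (hg : g ∈ On L n)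
    (hh : h ∈ On L m) (ha : a ∈ Ln ϖ n) (hb : b ∈ Ln ϖ m) :
    (g * shA n h) • jnL n a b = jnL n (g • a) (h • b) := by
  have hla : ∀ x ∈ a, ∀ i, n ≤ i → x i = 0 := fun x hx => Ln_low ϖ hϖ n a ha x hx
  have h1 : ∀ y ∈ a, ∀ z : Vc L, (g * shA n h) (y + shV n z) = g y + shV n (h z) := by
    intro y hy z
    show g (shA n h (y + shV n z)) = g y + shV n (h z)
    rw [map_add, sy09_shA_low n h y (hla y hy), shA_shV, map_add, sy09_On_shV n g hg]
  ext x
  rw [sy09_mem_smul, sy09_mem_jnL]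
  constructor
  · rintro ⟨w, hw, rfl⟩
    obtain ⟨y, hy, z, hz, rfl⟩ := (sy09_mem_jnL n a b w).1 hw
    exact ⟨g y, (sy09_mem_smul g a _).2 ⟨y, hy, rfl⟩, h z, (sy09_mem_smul h b _).2 ⟨z, hz, rfl⟩,
      (h1 y hy z).symm⟩
  · rintro ⟨y', hy', z', hz', rfl⟩
    obtain ⟨y, hy, rfl⟩ := (sy09_mem_smul g a _).1 hy'
    obtain ⟨z, hz, rfl⟩ := (sy09_mem_smul h b _).1 hz'
    exact ⟨y + shV n z, (sy09_mem_jnL n a b _).2 ⟨y, hy, z, hz, rfl⟩, h1 y hy z⟩

end St16
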