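import Pool.Agent.LibSt16.SY06
import Pool.Agent.LibSt16.SY07
import Pool.Agent.LibSt16.SY08
import Pool.Agent.LibSt16.SY09

/-!
LibSt16/Sy: the concrete systems: sysO B, sysU, sysA, sysL; morphisms detH, bcH, reH, fgL.
-/

set_option autoImplicit false

noncomputable section

namespace St16

/-- the orthogonal system over a commutative ring -/
def sysO (B : Type) [CommRing B] : Sys (Au B) PUnit.{1} :=
  trivSys (Au B) (On B) shA (On_mul B) (On_comm B) (shA_shA B)

/-- the unitary groups over Q(i), entries in OZ -/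
def Un (n : ℕ) : Subgroup (Au EE) where
  carrier := {g | IsU n g}
  mul_mem' := fun {a b} ha hb => IsU_mul n a b ha hb
  one_mem' := IsU_one n
  inv_mem' := fun {a} ha => IsU_inv n a ha

/-- the unitary system -/
def sysU : Sys (Au EE) PUnit.{1} := trivSys (Au EE) Un shA IsU_bs IsU_comm (shA_shA EE)

/-- the determinant as a morphism of systems -/
def detH : SHom sysU sysA 1 where
  fG := detT
  fP := fun _ a => a
  d_pos := Nat.one_pos
  G_mem := fun _ _ _ => trivial
  G_one := detT_one
  G_mul := detT_mul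
  G_sh := detT_sh
  P_mem := fun _ _ _ => trivial
  P_mono := fun _ _ _ _ _ h => h
  P_smul := fun _ _ _ _ _ => rfl
  P_jn := fun _ _ _ _ _ _ => rfl

/-- base change of an automorphism -/
def bcA {B C : Type} [CommRing B] [CommRing C] (f : B →+* C) (g : Au B) : Au C :=
  LinearEquiv.ofLinearMap (bcL f g.toLinearMap) (bcL f g.symm.toLinearMap)
    (by rw [← bcL_mul, ← bcL_one f]; congr 1; ext1 x; simp)
    (by rw [← bcL_mul, ← bcL_one f]; congr 1; ext1 x; simp)

theorem bcA_ee {B C : Type} [CommRing B] [CommRing C] (f : B →+* C) (g : Au B) (i : ℕ) :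
    bcA f g (ee i) = Finsupp.mapRange f (map_zero f) (g (ee i)) := by
  show bcL f g.toLinearMap (ee i) = _
  unfold bcL ee
  rw [Finsupp.linearCombination_single, one_smul]
  rfl

/-- base change as a morphism of orthogonal systems -/
def bcH {B C : Type} [CommRing B] [CommRing C] (f : B →+* C) : SHom (sysO B) (sysO C) 1 where
  fG := bcA f
  fP := fun _ a => a
  d_pos := Nat.one_pos
  G_mem := by
    intro n g hg
    refine ⟨fun x y => bcL_dot f g.toLinearMap hg.1 x y, fun i hi => ?_⟩
    rw [one_mul] at hi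
    rw [bcA_ee, hg.2 i hi]
    unfold ee
    rw [Finsupp.mapRange_single, map_one]
  G_one := by
    apply au_ext
    intro i
    rw [bcA_ee]
    show Finsupp.mapRange f _ (ee i) = ee i
    unfold ee
    rw [Finsupp.mapRange_single, map_one]
  G_mul := by
    intro n g h _ _
    apply LinearEquiv.toLinearMap_injective
    exact bcL_mul f g.toLinearMap h.toLinearMap
  G_sh := by
    intro n m g h _ _
    apply LinearEquiv.toLinearMap_injective
    rw [one_mul]
    exact (bcL_mul f g.toLinearMap (shL n h.toLinearMap)).trans (congrArg _ (bcL_shL f n h.toLinearMap))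
  P_mem := fun _ _ _ => trivial
  P_mono := fun _ _ _ _ _ h => h
  P_smul := fun _ _ _ _ _ => rfl
  P_jn := fun _ _ _ _ _ _ => rfl

/-- realification of an automorphism -/
def reA (B : Type) [CommRing B] [Algebra ℚ B] (g : Au EE) : Au B :=
  LinearEquiv.ofLinearMap (reL B g.toLinearMap) (reL B g.symm.toLinearMap)
    (by rw [← reL_mul, ← reL_one B]; congr 1; ext1 x; simp)
    (by rw [← reL_mul, ← reL_one B]; congr 1; ext1 x; simp)

theorem reA_reV (B : Type) [CommRing B] [Algebra ℚ B] (g : Au EE) (x : Vc EE) :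
    reA B g (reV B x) = reV B (g x) := reL_reV B g.toLinearMap x

/-- realification as a morphism of systems, ranks doubled -/
def reH (B : Type) [CommRing B] [Algebra ℚ B] : SHom sysU (sysO B) 2 where
  fG := reA B
  fP := fun _ a => a
  d_pos := Nat.two_pos
  G_mem := by
    intro n g hg
    refine ⟨fun x y => reL_dot B g.toLinearMap hg.1 x y, fun i hi => ?_⟩
    rcases Nat.even_or_odd' i with ⟨k, rfl | rfl⟩
    · rw [← reV_ee, reA_reV, hg.2.1 k (by omega)]
    · rw [← reV_iee, reA_reV, map_smul, hg.2.1 k (by omega)]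
  G_one := by
    apply LinearEquiv.toLinearMap_injective
    exact reL_one B
  G_mul := by
    intro n g h _ _
    apply LinearEquiv.toLinearMap_injective
    exact reL_mul B g.toLinearMap h.toLinearMap
  G_sh := by
    intro n m g h _ _
    apply LinearEquiv.toLinearMap_injective
    exact (reL_mul B g.toLinearMap (shL n h.toLinearMap)).trans (congrArg _ (reL_shL B n h.toLinearMap))
  P_mem := fun _ _ _ => trivial
  P_mono := fun _ _ _ _ _ h => h
  P_smul := fun _ _ _ _ _ => rfl
  P_jn := fun _ _ _ _ _ _ => rfl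

section lat

variable {A : Type} (L : Type) [CommRing A] [IsDomain A] [IsDiscreteValuationRing A] [Field L] [Algebra A L]
  [IsFractionRing A L]

/-- the orthogonal system with lattices (`ϖ` a uniformizer) -/
def sysL (ϖ : A) (hϖ : Irreducible ϖ) : Sys (Au L) (Lt A L) where
  Gn := On L
  Pn := Ln ϖ
  sh := shA
  jn := jnL
  smul_mono := fun g _ _ h => Submodule.map_mono h
  Gn_mul := On_mul L
  sh_comm := On_comm L
  sh_sh := shA_shA L
  Pn_smul := fun n g a hg ha => Ln_smul ϖ hϖ n g a hg ha
  jn_mem := fun n m a b ha hb => jnL_mem ϖ hϖ n m a b ha hb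
  jn_mono := jnL_mono
  jn_assoc := jnL_assoc
  jn_smul := fun n m g h a b hg hh ha hb => jnL_smul ϖ hϖ n m g h a b hg hh ha hb

/-- forgetting the lattices -/
def fgL (ϖ : A) (hϖ : Irreducible ϖ) : SHom (sysL L ϖ hϖ) (sysO L) 1 where
  fG := fun g => g
  fP := fun _ _ => PUnit.unit
  d_pos := Nat.one_pos
  G_mem := fun n g hg => by rw [one_mul]; exact hg
  G_one := rfl
  G_mul := fun _ _ _ _ _ => rfl
  G_sh := fun n m g h _ _ => by rw [one_mul]; rfl
  P_mem := fun _ _ _ => trivial
  P_mono := fun _ _ _ _ _ _ => le_rfl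
  P_smul := fun _ _ _ _ _ => rfl
  P_jn := fun _ _ _ _ _ _ => rfl

end lat

end St16
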