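import Pool.Agent.LibSt16.L3d
import Pool.Agent.LibSt16.LatLn
import Pool.Agent.LibSt16.Sy

/-!
LibSt16/L3: the kernel of the morphism which forgets the lattices is exact.
-/

set_option autoImplicit false

noncomputable section

namespace St16

variable {A L : Type} [CommRing A] [IsDomain A] [IsDiscreteValuationRing A] [Field L] [Algebra A L]
  [IsFractionRing A L]

theorem zigzag_L (ϖ : A) (hϖ : Irreducible ϖ) (r : ℕ) :
    Zigzag (sysL L ϖ hϖ) r (Mn A r : Lt A L) := by
  intro F hF hFP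
  obtain ⟨ρ, τ, h1, h2, h3, h4, h5⟩ := Ln_contraction (L := L) ϖ hϖ r
  have h6 : ∃ m, ∀ a ∈ F, ∀ k, m ≤ k → ρ k a = a := by
    have h7 : ∀ a : Lt A L, ∃ j, a ∈ F → ∀ k, j ≤ k → ρ k a = a := by
      intro a
      by_cases ha : a ∈ F
      · obtain ⟨j, hj⟩ := h5 a (hFP ha)
        exact ⟨j, fun _ => hj⟩
      · exact ⟨0, fun h => absurd h ha⟩
    choose j hj using h7
    obtain ⟨m, hm⟩ := (hF.image j).bddAbove
    exact ⟨m, fun a ha k hk => hj a ha k ((hm ⟨a, ha, rfl⟩).trans hk)⟩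
  obtain ⟨m, hm⟩ := h6
  refine ⟨2 * m, fun i => if i % 2 = 0 then ρ (i / 2) else τ (i / 2), ?_, ?_, ?_, ?_⟩
  · intro i
    by_cases hi : i % 2 = 0
    · simp only [if_pos hi]
      exact ⟨fun a ha => (h1 _ a ha).1, fun a b _ _ hab => (h2 _ a b hab).1⟩
    · simp only [if_neg hi]
      exact ⟨fun a ha => (h1 _ a ha).2, fun a b _ _ hab => (h2 _ a b hab).2⟩
  · intro i
    by_cases hi : i % 2 = 0
    · right
      intro a _
      simp only [if_pos hi, if_neg (show ¬ (i + 1) % 2 = 0 by omega)]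
      rw [show (i + 1) / 2 = i / 2 by omega]
      exact (h4 _ a).1
    · left
      intro a _
      simp only [if_neg hi, if_pos (show (i + 1) % 2 = 0 by omega)]
      rw [show (i + 1) / 2 = i / 2 + 1 by omega]
      exact (h4 _ a).2
  · intro a ha
    simp only [Nat.zero_mod, Nat.zero_div, if_true]
    exact h3 a ha
  · intro a ha
    simp only [Nat.mul_mod_right, if_true]
    rw [Nat.mul_div_cancel_left m (by norm_num)]
    exact hm a ha m le_rfl

/-- L3 of the page: the kernel of `A(OL)_r -> A(O(L))_r` is exact. -/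
theorem L3 (ϖ : A) (hϖ : Irreducible ϖ) (r : ℕ) (hr : 0 < r) : KerExact (fgL L ϖ hϖ) r :=
  kerExact_of_zigzag (fgL L ϖ hϖ) (fun _ => rfl) hr (Mn A r : Lt A L) (Mn_mem' ϖ hϖ r)
    (zigzag_L ϖ hϖ r)

end St16
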