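import Pool.Agent.LibSt16.Place

/-!
MP_8b67e9, 6.3: specialisation of a finitely generated algebra of real numbers at a place with `s₀ = i`.
-/

set_option autoImplicit false

namespace St16

open Polynomial

theorem place_dedekind (C : Type) [CommRing C] [IsDedekindDomain C] (L : Type) [Field L] [Algebra C L]
    [IsFractionRing C L] [Algebra ℚ[X] C] (hC : Function.Injective (algebraMap ℚ[X] C))
    (hx : ¬ IsUnit (algebraMap ℚ[X] C (X ^ 2 + 1))) (j₀ : C) (hj₀ : j₀ ^ 2 = -1) :
    ∃ (A : Type) (_ : CommRing A) (_ : IsDomain A) (_ : IsDiscreteValuationRing A) (_ : Algebra A L)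
      (_ : IsFractionRing A L) (P : Place L A),
      algebraMap A L P.s = algebraMap C L (algebraMap ℚ[X] C X) := by
  classical
  have hX1 : (X ^ 2 + 1 : ℚ[X]) ≠ 0 := (show (X ^ 2 + 1 : ℚ[X]).Monic by monicity!).ne_zero
  set x : C := algebraMap ℚ[X] C X with hxdef
  have hxe : algebraMap ℚ[X] C (X ^ 2 + 1) = x ^ 2 + 1 := by rw [map_add, map_pow, map_one]
  obtain ⟨j, hj, hxj⟩ : ∃ j : C, j ^ 2 = -1 ∧ ¬ IsUnit (x - j) := by
    by_contra hcon
    push Not at hcon
    have h1 := hcon j₀ hj₀
    have h2 := hcon (-j₀) (by rw [neg_sq, hj₀])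
    apply hx
    have e : x ^ 2 + 1 = (x - j₀) * (x - -j₀) := by linear_combination hj₀
    rw [hxe, e]
    exact h1.mul h2
  obtain ⟨P, hP, hxP⟩ := exists_max_ideal_of_mem_nonunits hxj
  have hxj0 : x - j ≠ 0 := by
    intro h
    have h1 : x = j := sub_eq_zero.mp h
    apply hX1
    apply hC
    rw [hxe, h1, hj, map_zero]
    ring
  have hP0 : P ≠ ⊥ := by
    rintro rfl
    exact hxj0 hxP
  have : P.IsPrime := hP.isPrime
  let A := Localization.AtPrime P
  have : IsDiscreteValuationRing A :=
    IsLocalization.AtPrime.isDiscreteValuationRing_of_dedekind_domain C hP0 A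
  let f : A →+* L := IsLocalization.lift (M := P.primeCompl) (g := algebraMap C L) (by
    intro y
    apply IsUnit.mk0
    intro h
    have h1 : (y : C) = 0 := IsFractionRing.injective C L (h.trans (map_zero _).symm)
    exact y.2 (h1 ▸ P.zero_mem))
  let alg : Algebra A L := f.toAlgebra
  have tow : IsScalarTower C A L :=
    IsScalarTower.of_algebraMap_eq (fun z => (IsLocalization.lift_eq _ z).symm)
  have fr : IsFractionRing A L :=
    IsFractionRing.isFractionRing_of_isDomain_of_isLocalization P.primeCompl A L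
  obtain ⟨π, hπ⟩ := IsDiscreteValuationRing.exists_irreducible A
  have hAinj : Function.Injective (algebraMap C A) :=
    IsLocalization.injective A P.primeCompl_le_nonZeroDivisors
  have hne : algebraMap C A (x - j) ≠ 0 := by
    intro h
    exact hxj0 (hAinj (h.trans (map_zero _).symm))
  obtain ⟨e, u, he⟩ := IsDiscreteValuationRing.eq_unit_mul_pow_irreducible hne hπ
  have he1 : 1 ≤ e := by
    by_contra hcon
    have h0 : e = 0 := by omega
    rw [h0, pow_zero, mul_one] at he
    have h1 : IsUnit (algebraMap C A (x - j)) := ⟨u, he.symm⟩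
    rw [IsLocalization.AtPrime.isUnit_to_map_iff A P] at h1
    exact h1 hxP
  let q : ℚ →+* A := (algebraMap C A).comp ((algebraMap ℚ[X] C).comp Polynomial.C)
  have hq : ∀ a : ℚ, algebraMap A L (q a) = a := fun a => by
    have h1 : ((algebraMap A L).comp q) a = (a : L) := eq_ratCast _ _
    exact h1
  refine ⟨A, inferInstance, inferInstance, inferInstance, alg, fr,
    ⟨algebraMap C A j, algebraMap C A x, π, u, e, ?_, hπ, ?_, he1, ?_⟩, ?_⟩
  · rw [← map_pow, hj, map_neg, map_one]
  · rw [← map_sub, he]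
  · intro a b hab
    have hj' : (algebraMap C A j) ^ 2 = -1 := by rw [← map_pow, hj, map_neg, map_one]
    have hab' : a ^ 2 + b ^ 2 ≠ 0 := by
      rcases hab with h | h
      · positivity
      · positivity
    have hqn : q (a ^ 2 + b ^ 2) * q ((a ^ 2 + b ^ 2)⁻¹) = 1 := by
      rw [← map_mul, mul_inv_cancel₀ hab', map_one]
    have hq2 : q (a ^ 2 + b ^ 2) = q a ^ 2 + q b ^ 2 := by simp only [map_add, map_pow]
    have hu : (q a + q b * algebraMap C A j) *
        ((q a - q b * algebraMap C A j) * q ((a ^ 2 + b ^ 2)⁻¹)) = 1 := by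
      rw [← hqn, hq2]
      linear_combination (- (q b) ^ 2 * q ((a ^ 2 + b ^ 2)⁻¹)) * hj'
    refine ⟨⟨q a + q b * algebraMap C A j, (q a - q b * algebraMap C A j) * q ((a ^ 2 + b ^ 2)⁻¹),
      hu, by rw [mul_comm]; exact hu⟩, ?_⟩
    change algebraMap A L (q a + q b * algebraMap C A j) = _
    rw [map_add, map_mul, hq, hq]
  · change algebraMap A L (algebraMap C A x) = _
    rw [← IsScalarTower.algebraMap_apply C A L]

/-- the part of the proof over a finite extension of `ℚ(X)` -/
theorem exists_place (K : Type) [Field K] [Algebra ℚ[X] K] [IsFractionRing ℚ[X] K] (L : Type) [Field L]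
    [Algebra K L] [FiniteDimensional K L] [Algebra ℚ[X] L] [IsScalarTower ℚ[X] K L] (I : L)
    (hI : I ^ 2 = -1) :
    ∃ (A : Type) (_ : CommRing A) (_ : IsDomain A) (_ : IsDiscreteValuationRing A) (_ : Algebra A L)
      (_ : IsFractionRing A L) (P : Place L A), algebraMap A L P.s = algebraMap ℚ[X] L X := by
  classical
  have hKinj : Function.Injective (algebraMap ℚ[X] K) := IsFractionRing.injective ℚ[X] K
  have hLinj : Function.Injective (algebraMap ℚ[X] L) := by
    rw [IsScalarTower.algebraMap_eq ℚ[X] K L]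
    exact (algebraMap K L).injective.comp hKinj
  have : CharZero K := by
    have h1 : Function.Injective ((algebraMap ℚ[X] K).comp (algebraMap ℚ ℚ[X])) :=
      hKinj.comp (algebraMap ℚ ℚ[X]).injective
    exact charZero_of_injective_ringHom h1
  -- the Dedekind domain
  have hDD : IsDedekindDomain (integralClosure ℚ[X] L) := integralClosure.isDedekindDomain ℚ[X] K L
  have hFR : IsFractionRing (integralClosure ℚ[X] L) L :=
    integralClosure.isFractionRing_of_finite_extension K L
  have hIint : IsIntegral ℚ[X] I := by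
    refine ⟨X ^ 2 + 1, ?_, ?_⟩
    · monicity!
    · simp [hI]
  have hCinj : Function.Injective (algebraMap ℚ[X] (integralClosure ℚ[X] L)) := by
    intro a b hab
    apply hLinj
    rw [IsScalarTower.algebraMap_apply ℚ[X] (integralClosure ℚ[X] L) L,
      IsScalarTower.algebraMap_apply ℚ[X] (integralClosure ℚ[X] L) L, hab]
  have hx : ¬ IsUnit (algebraMap ℚ[X] (integralClosure ℚ[X] L) (X ^ 2 + 1)) := by
    intro h
    have h1 := (algebraMap_isIntegral_iff.mpr
      (inferInstanceAs (Algebra.IsIntegral ℚ[X] (integralClosure ℚ[X] L)))).isLocalHom hCinj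
    have h2 := (isUnit_map_iff (algebraMap ℚ[X] (integralClosure ℚ[X] L)) _).1 h
    have h3 := degree_eq_zero_of_isUnit h2
    have h4 : (X ^ 2 + 1 : ℚ[X]).degree = 2 := by compute_degree!
    rw [h4] at h3
    exact absurd h3 (by decide)
  obtain ⟨A, i1, i2, i3, i4, i5, P, hP⟩ := place_dedekind (integralClosure ℚ[X] L) L hCinj hx
    ⟨I, hIint⟩ (Subtype.ext hI)
  exact ⟨A, i1, i2, i3, i4, i5, P, hP.trans
    (IsScalarTower.algebraMap_apply ℚ[X] (integralClosure ℚ[X] L) L X).symm⟩

/-- specialisation: the `ℚ`-algebra generated by a finite set of real numbers, one of which is a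
transcendental number `s₀`, maps to a field with a place at which `s₀ = i` -/
theorem exists_spec (S : Finset ℝ) (s₀ : ℝ) (hs : Transcendental ℚ s₀) (h₀ : s₀ ∈ S) :
    ∃ (L : Type) (_ : Field L) (_ : CharZero L) (A : Type) (_ : CommRing A) (_ : IsDomain A)
      (_ : IsDiscreteValuationRing A) (_ : Algebra A L) (_ : IsFractionRing A L) (P : Place L A)
      (φ : Algebra.adjoin ℚ (S : Set ℝ) →+* L),
      algebraMap A L P.s = φ ⟨s₀, Algebra.subset_adjoin h₀⟩ := by
  classical
  have hinj : Function.Injective ((Polynomial.aeval (s₀ : ℂ) : ℚ[X] →ₐ[ℚ] ℂ) : ℚ[X] →+* ℂ) := by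
    intro a b hab
    have h1 : Polynomial.aeval (s₀ : ℂ) (a - b) = 0 := by
      rw [map_sub, sub_eq_zero]
      exact hab
    have h2 : Polynomial.aeval (s₀ : ℂ) (a - b) = ((Polynomial.aeval s₀ (a - b) : ℝ) : ℂ) :=
      Polynomial.aeval_algebraMap_apply ℂ s₀ (a - b)
    rw [h2, Complex.ofReal_eq_zero] at h1
    exact sub_eq_zero.mp ((transcendental_iff.mp hs) _ h1)
  let K := FractionRing ℚ[X]
  let g : K →+* ℂ := IsFractionRing.lift hinj
  let algK : Algebra K ℂ := g.toAlgebra
  have hg : ∀ r : ℚ[X], algebraMap K ℂ (algebraMap ℚ[X] K r) = Polynomial.aeval (s₀ : ℂ) r :=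
    fun r => IsFractionRing.lift_algebraMap hinj r
  let T : Finset ℂ := insert Complex.I (S.image (fun r : ℝ => (r : ℂ)))
  let B : Subalgebra K ℂ := Algebra.adjoin K (T : Set ℂ)
  have hft : Algebra.FiniteType K B := by
    rw [← Subalgebra.fg_iff_finiteType]
    exact Subalgebra.fg_adjoin_finset T
  obtain ⟨m, hm⟩ := Ideal.exists_maximal B
  let L := B ⧸ m
  let fL : Field L := Ideal.Quotient.field m
  have hftL : Algebra.FiniteType K L := hft.of_surjective (Ideal.Quotient.mkₐ K m)
    (Ideal.Quotient.mkₐ_surjective K m)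
  have hfin : Module.Finite K L := finite_of_finite_type_of_isJacobsonRing K L
  let algX : Algebra ℚ[X] L := ((algebraMap K L).comp (algebraMap ℚ[X] K)).toAlgebra
  have tow : IsScalarTower ℚ[X] K L := IsScalarTower.of_algebraMap_eq (fun _ => rfl)
  have hIB : Complex.I ∈ B := Algebra.subset_adjoin (by
    rw [Finset.mem_coe]
    exact Finset.mem_insert_self _ _)
  have hI : (Ideal.Quotient.mk m ⟨Complex.I, hIB⟩ : L) ^ 2 = -1 := by
    rw [← map_pow, ← map_one (Ideal.Quotient.mk m), ← map_neg]
    congr 1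
    exact Subtype.ext Complex.I_sq
  obtain ⟨A, i1, i2, i3, i4, i5, P, hP⟩ := exists_place K L (Ideal.Quotient.mk m ⟨Complex.I, hIB⟩) hI
  have hch : CharZero L := by
    have h1 : CharZero K := by
      have h2 : Function.Injective ((algebraMap ℚ[X] K).comp (algebraMap ℚ ℚ[X])) :=
        (IsFractionRing.injective ℚ[X] K).comp (algebraMap ℚ ℚ[X]).injective
      exact charZero_of_injective_ringHom h2
    exact charZero_of_injective_ringHom (algebraMap K L).injective
  -- the map of the algebra of real numbers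
  have hmem : ∀ r : Algebra.adjoin ℚ (S : Set ℝ), ((r : ℝ) : ℂ) ∈ B := by
    rintro ⟨r, hr⟩
    refine Algebra.adjoin_induction (p := fun r _ => ((r : ℝ) : ℂ) ∈ B) ?_ ?_ ?_ ?_ hr
    · intro x hx
      apply Algebra.subset_adjoin
      rw [Finset.mem_coe]
      exact Finset.mem_insert_of_mem (Finset.mem_image_of_mem _ hx)
    · intro q
      have h1 : (((algebraMap ℚ ℝ q : ℝ)) : ℂ) = algebraMap K ℂ (algebraMap ℚ[X] K (C q)) := by
        rw [hg, Polynomial.aeval_C]
        simp
      rw [h1]
      exact B.algebraMap_mem _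
    · intro x y _ _ hx hy
      rw [Complex.ofReal_add]
      exact B.add_mem hx hy
    · intro x y _ _ hx hy
      rw [Complex.ofReal_mul]
      exact B.mul_mem hx hy
  let ψ : Algebra.adjoin ℚ (S : Set ℝ) →+* B :=
    { toFun := fun r => ⟨((r : ℝ) : ℂ), hmem r⟩
      map_one' := Subtype.ext (by simp)
      map_mul' := fun a b => Subtype.ext (by simp)
      map_zero' := Subtype.ext (by simp)
      map_add' := fun a b => Subtype.ext (by simp) }
  refine ⟨L, fL, hch, A, i1, i2, i3, i4, i5, P, (Ideal.Quotient.mk m).comp ψ, ?_⟩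
  rw [hP]
  change algebraMap K L (algebraMap ℚ[X] K X) = _
  have h1 : algebraMap K L (algebraMap ℚ[X] K X) =
      Ideal.Quotient.mk m (algebraMap K B (algebraMap ℚ[X] K X)) := rfl
  rw [h1]
  change _ = Ideal.Quotient.mk m (ψ ⟨s₀, _⟩)
  congr 1
  apply Subtype.ext
  change algebraMap K ℂ (algebraMap ℚ[X] K X) = ((s₀ : ℝ) : ℂ)
  rw [hg, Polynomial.aeval_X]

end St16
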