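import Pool.Agent.LibSt16.SyA

/-!
LibSt16/TT5.  Row TT5 (MEDIUM): two multiplicatively independent elements of norm one of Q(i).
Take a = (2+i)/(2-i) = (3+4i)/5 and b = (3+2i)/(3-2i) = (5+12i)/13 (in TT = unitary EE, EE = QuadraticAlgebra ℚ (-1) 0,
fields re, im; mul formulas: simp with QuadraticAlgebra.re_mul, im_mul or decide by ext + norm_num).
Independence: a^j b^k = 1 with j /= 0 gives (after replacing (j,k) by (-j,-k)) for j > 0, k = k1 - k2: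
(2+i)^j (3+2i)^k1 (3-2i)^k2 = (2-i)^j (3-2i)^k1 (3+2i)^k2 in Z[i] (multiply out; work with integer pairs or GaussianInt and an
injective map to EE, or directly with a ring homomorphism); apply the ring homomorphism Z[i] -> Z/5, i -> -2 = 3: it kills 2+i
(left side 0) and 2-i -> 4, 3-2i -> 7 = 2, 3+2i -> -1 (right side /= 0): contradiction.  So j = 0, then b^k = 1 with k > 0:
(3+2i)^k = (3-2i)^k and Z[i] -> Z/13, i -> 5 kills 3+2i, sends 3-2i to -7: contradiction.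
Alternative without homomorphism: the set of x in EE with v(x) .. -- any proof is fine.
-/

set_option autoImplicit false

noncomputable section

namespace St16

private theorem TT5_sq : ((⟨0, 1⟩ : EE) * ⟨0, 1⟩) = ((-1 : ℤ) : EE) := by
  ext <;> simp [QuadraticAlgebra.re_one, QuadraticAlgebra.im_one]

/-- the inclusion of Z[i] -/
private def TT5_psi : GaussianInt →+* EE := Zsqrtd.lift ⟨⟨0, 1⟩, TT5_sq⟩

private theorem TT5_psi_apply (x : GaussianInt) : TT5_psi x = ⟨(x.re : ℚ), (x.im : ℚ)⟩ := by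
  show ((x.re : ℤ) : EE) + ((x.im : ℤ) : EE) * ⟨0, 1⟩ = _
  ext <;> simp

private theorem TT5_inj (x y : GaussianInt) (h : TT5_psi x = TT5_psi y) : x = y := by
  rw [TT5_psi_apply, TT5_psi_apply] at h
  have h1 := congrArg QuadraticAlgebra.re h
  have h2 := congrArg QuadraticAlgebra.im h
  simp only [Int.cast_inj] at h1 h2
  exact Zsqrtd.ext h1 h2

private def TT5_f5 : GaussianInt →+* ZMod 5 := Zsqrtd.lift ⟨3, by decide⟩

private def TT5_f13 : GaussianInt →+* ZMod 13 := Zsqrtd.lift ⟨5, by decide⟩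

private theorem TT5_f5_apply (x : GaussianInt) : TT5_f5 x = (x.re : ZMod 5) + (x.im : ZMod 5) * 3 := rfl

private theorem TT5_f13_apply (x : GaussianInt) :
    TT5_f13 x = (x.re : ZMod 13) + (x.im : ZMod 13) * 5 := rfl

private theorem TT5_int (k : ℤ) : ∃ k1 k2 : ℕ, k = (k1 : ℤ) - k2 ∧ (k1 = 0 ∨ k2 = 0) := by
  rcases le_total 0 k with h | h
  · exact ⟨k.toNat, 0, by omega, Or.inr rfl⟩
  · exact ⟨0, (-k).toNat, by omega, Or.inl rfl⟩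

private theorem TT5_fin (j1 j2 k1 k2 : ℕ) (hj : j1 = 0 ∨ j2 = 0) (hk : k1 = 0 ∨ k2 = 0)
    (h : (⟨2, 1⟩ : GaussianInt) ^ j1 * ⟨2, -1⟩ ^ j2 * ⟨3, 2⟩ ^ k1 * ⟨3, -2⟩ ^ k2 =
      ⟨2, -1⟩ ^ j1 * ⟨2, 1⟩ ^ j2 * ⟨3, -2⟩ ^ k1 * ⟨3, 2⟩ ^ k2) :
    j1 = 0 ∧ j2 = 0 ∧ k1 = 0 ∧ k2 = 0 := by
  have a1 : TT5_f5 ⟨2, 1⟩ = 0 := by rw [TT5_f5_apply]; decide
  have a2 : TT5_f5 ⟨2, -1⟩ ≠ 0 := by rw [TT5_f5_apply]; decide
  have a3 : TT5_f5 ⟨3, 2⟩ ≠ 0 := by rw [TT5_f5_apply]; decide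
  have a4 : TT5_f5 ⟨3, -2⟩ ≠ 0 := by rw [TT5_f5_apply]; decide
  have b1 : TT5_f13 ⟨2, 1⟩ ≠ 0 := by rw [TT5_f13_apply]; decide
  have b2 : TT5_f13 ⟨2, -1⟩ ≠ 0 := by rw [TT5_f13_apply]; decide
  have b3 : TT5_f13 ⟨3, 2⟩ = 0 := by rw [TT5_f13_apply]; decide
  have b4 : TT5_f13 ⟨3, -2⟩ ≠ 0 := by rw [TT5_f13_apply]; decide
  haveI : Fact (Nat.Prime 5) := ⟨by norm_num⟩
  haveI : Fact (Nat.Prime 13) := ⟨by norm_num⟩
  have h5 := congrArg TT5_f5 h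
  have h13 := congrArg TT5_f13 h
  simp only [map_mul, map_pow, a1] at h5
  simp only [map_mul, map_pow, b3] at h13
  have hjj : j1 = 0 ∧ j2 = 0 := by
    rcases hj with h0 | h0
    · refine ⟨h0, ?_⟩
      by_contra h1
      rw [h0, zero_pow h1] at h5
      simp only [pow_zero, mul_zero, zero_mul, one_mul] at h5
      exact mul_ne_zero (mul_ne_zero (pow_ne_zero _ a2) (pow_ne_zero _ a3)) (pow_ne_zero _ a4) h5
    · refine ⟨?_, h0⟩
      by_contra h1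
      rw [h0, zero_pow h1] at h5
      simp only [pow_zero, zero_mul, mul_one] at h5
      exact mul_ne_zero (mul_ne_zero (pow_ne_zero _ a2) (pow_ne_zero _ a4)) (pow_ne_zero _ a3) h5.symm
  have hkk : k1 = 0 ∧ k2 = 0 := by
    rcases hk with h0 | h0
    · refine ⟨h0, ?_⟩
      by_contra h1
      rw [h0, zero_pow h1] at h13
      simp only [pow_zero, mul_zero, mul_one] at h13
      exact mul_ne_zero (mul_ne_zero (pow_ne_zero _ b1) (pow_ne_zero _ b2)) (pow_ne_zero _ b4) h13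
    · refine ⟨?_, h0⟩
      by_contra h1
      rw [h0, zero_pow h1] at h13
      simp only [pow_zero, mul_zero, mul_one] at h13
      exact mul_ne_zero (mul_ne_zero (pow_ne_zero _ b2) (pow_ne_zero _ b1)) (pow_ne_zero _ b4) h13.symm
  exact ⟨hjj.1, hjj.2, hkk.1, hkk.2⟩

private def TT5_a : TT :=
  ⟨⟨3 / 5, 4 / 5⟩, by
    rw [Unitary.mem_iff]
    constructor <;> (ext <;> simp [QuadraticAlgebra.re_one, QuadraticAlgebra.im_one] <;> norm_num)⟩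

private def TT5_b : TT :=
  ⟨⟨5 / 13, 12 / 13⟩, by
    rw [Unitary.mem_iff]
    constructor <;> (ext <;> simp [QuadraticAlgebra.re_one, QuadraticAlgebra.im_one] <;> norm_num)⟩

private theorem TT5_a_mul : (TT5_a : EE) * TT5_psi ⟨2, -1⟩ = TT5_psi ⟨2, 1⟩ := by
  rw [TT5_psi_apply, TT5_psi_apply]
  show (⟨3 / 5, 4 / 5⟩ : EE) * _ = _
  ext <;> simp <;> norm_num

private theorem TT5_b_mul : (TT5_b : EE) * TT5_psi ⟨3, -2⟩ = TT5_psi ⟨3, 2⟩ := by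
  rw [TT5_psi_apply, TT5_psi_apply]
  show (⟨5 / 13, 12 / 13⟩ : EE) * _ = _
  ext <;> simp <;> norm_num

theorem exists_indep : ∃ a b : TT, ∀ j k : ℤ, a ^ j * b ^ k = 1 → j = 0 ∧ k = 0 := by
  refine ⟨TT5_a, TT5_b, fun j k h => ?_⟩
  obtain ⟨j1, j2, hj, hj'⟩ := TT5_int j
  obtain ⟨k1, k2, hk, hk'⟩ := TT5_int k
  have h1 : TT5_a ^ j1 * TT5_b ^ k1 = TT5_a ^ j2 * TT5_b ^ k2 := by
    rw [hj, hk, zpow_sub, zpow_sub, zpow_natCast, zpow_natCast, zpow_natCast, zpow_natCast] at h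
    have h2 : TT5_a ^ j1 * TT5_b ^ k1 * (TT5_a ^ j2 * TT5_b ^ k2)⁻¹ = 1 := by
      rw [← h, mul_inv]
      exact mul_mul_mul_comm _ _ _ _
    exact mul_inv_eq_one.1 h2
  have h2 : (TT5_a : EE) ^ j1 * (TT5_b : EE) ^ k1 = (TT5_a : EE) ^ j2 * (TT5_b : EE) ^ k2 := by
    have := congrArg (fun x : TT => (x : EE)) h1
    simpa using this
  have h3 : TT5_psi ((⟨2, 1⟩ : GaussianInt) ^ j1 * ⟨2, -1⟩ ^ j2 * ⟨3, 2⟩ ^ k1 * ⟨3, -2⟩ ^ k2) =
      TT5_psi (⟨2, -1⟩ ^ j1 * ⟨2, 1⟩ ^ j2 * ⟨3, -2⟩ ^ k1 * ⟨3, 2⟩ ^ k2) := by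
    simp only [map_mul, map_pow]
    rw [← TT5_a_mul, ← TT5_b_mul]
    generalize TT5_psi ⟨2, -1⟩ = U
    generalize TT5_psi ⟨3, -2⟩ = W
    have h4 : ((TT5_a : EE) * U) ^ j1 * U ^ j2 * ((TT5_b : EE) * W) ^ k1 * W ^ k2 =
        ((TT5_a : EE) ^ j1 * (TT5_b : EE) ^ k1) * (U ^ j1 * U ^ j2 * W ^ k1 * W ^ k2) := by ring
    have h5 : U ^ j1 * ((TT5_a : EE) * U) ^ j2 * W ^ k1 * ((TT5_b : EE) * W) ^ k2 =
        ((TT5_a : EE) ^ j2 * (TT5_b : EE) ^ k2) * (U ^ j1 * U ^ j2 * W ^ k1 * W ^ k2) := by ring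
    rw [h4, h5, h2]
  obtain ⟨c1, c2, c3, c4⟩ := TT5_fin j1 j2 k1 k2 hj' hk' (TT5_inj _ _ h3)
  constructor
  · rw [hj, c1, c2]; simp
  · rw [hk, c3, c4]; simp

end St16
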