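import Pool.Agent.LibSt16.Sy

/-!
LibSt16/TT6.  Row TT6 (MEDIUM): every cube of the abelian system lifts to the unitary system by u -> diag(u,1,1,...).
norm_one_OZ: an element of Q(i) of norm one has denominators only at primes 1 mod 4.
-/

set_option autoImplicit false

noncomputable section

namespace St16

private theorem tt6_int_of_sq (q : ℚ) (m : ℤ) (h : q ^ 2 = m) : ∃ b : ℤ, q = b := by
  have h1 : (q ^ 2).den = 1 := by rw [h]; exact Rat.den_intCast m
  rw [Rat.den_pow] at h1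
  have h2 : q.den = 1 := by
    rcases Nat.pow_eq_one.1 h1 with h3 | h3
    · exact h3
    · exact absurd h3 two_ne_zero
  exact ⟨q.num, (Rat.den_eq_one_iff q).1 h2 |>.symm⟩

private theorem tt6_splitDen (n : ℕ) (a b : ℤ) (hn : n ≠ 0) (hab : a ^ 2 + b ^ 2 = (n : ℤ) ^ 2)
    (hc : Nat.Coprime a.natAbs n) : splitDen n := by
  refine ⟨hn, fun p hp hpn => ?_⟩
  have hpa : ¬ (p : ℤ) ∣ a := by
    intro h
    have h1 : p ∣ a.natAbs := Int.natCast_dvd.1 h
    exact hp.ne_one (Nat.eq_one_of_dvd_coprimes hc h1 hpn)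
  have hpn' : (p : ℤ) ∣ n := Int.natCast_dvd_natCast.2 hpn
  have : Fact p.Prime := ⟨hp⟩
  rcases hp.eq_two_or_odd with h2 | h2
  · exfalso
    subst h2
    obtain ⟨m, hm⟩ := hpn'
    have ha : a % 2 = 1 := by
      rcases Int.emod_two_eq_zero_or_one a with h | h
      · exact absurd (Int.dvd_of_emod_eq_zero h) hpa
      · exact h
    have h3 : (4 : ℤ) ∣ a ^ 2 + b ^ 2 := ⟨m ^ 2, by rw [hab, hm]; push_cast; ring⟩
    obtain ⟨s, hs⟩ : ∃ s, a = 2 * s + 1 := ⟨a / 2, by omega⟩
    rcases Int.emod_two_eq_zero_or_one b with h | h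
    · obtain ⟨t, ht⟩ : ∃ t, b = 2 * t := ⟨b / 2, by omega⟩
      obtain ⟨c, hc'⟩ := h3
      have : 4 * (c - s ^ 2 - s - t ^ 2) = 1 := by rw [hs, ht] at hc'; linarith
      omega
    · obtain ⟨t, ht⟩ : ∃ t, b = 2 * t + 1 := ⟨b / 2, by omega⟩
      obtain ⟨c, hc'⟩ := h3
      have : 4 * (c - s ^ 2 - s - t ^ 2 - t) = 2 := by rw [hs, ht] at hc'; linarith
      omega
  · have hz : ((a : ZMod p)) ^ 2 = - ((b : ZMod p)) ^ 2 := by
      have h4 : ((a ^ 2 + b ^ 2 : ℤ) : ZMod p) = 0 := by
        rw [hab]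
        push_cast
        rw [(ZMod.natCast_eq_zero_iff n p).2 hpn]
        simp
      push_cast at h4
      exact eq_neg_of_add_eq_zero_left h4
    have hne : (a : ZMod p) ≠ 0 := by
      intro h
      exact hpa ((ZMod.intCast_zmod_eq_zero_iff_dvd a p).1 h)
    have hz' : ((b : ZMod p)) ^ 2 = - ((a : ZMod p)) ^ 2 := by rw [hz, neg_neg]
    have h5 : p % 4 ≠ 3 := ZMod.mod_four_ne_three_of_sq_eq_neg_sq' hne hz'
    omega

private theorem tt6_norm (u : TT) : (u : EE).re ^ 2 + (u : EE).im ^ 2 = 1 := by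
  have h := congrArg QuadraticAlgebra.re u.2.1
  rw [QuadraticAlgebra.re_mul, QuadraticAlgebra.re_star, QuadraticAlgebra.im_star,
    QuadraticAlgebra.re_one] at h
  linarith

theorem norm_one_OZ (u : TT) : (u : EE) ∈ OZ := by
  have h := tt6_norm u
  set x : ℚ := (u : EE).re with hx
  set y : ℚ := (u : EE).im with hy
  have hd : (x.den : ℚ) ≠ 0 := Nat.cast_ne_zero.2 x.den_nz
  have hxn : (x.den : ℚ) * x = x.num := by rw [mul_comm]; exact Rat.mul_den_eq_num x
  obtain ⟨b, hb⟩ := tt6_int_of_sq ((x.den : ℚ) * y) ((x.den : ℤ) ^ 2 - x.num ^ 2) (by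
    push_cast
    rw [← hxn]
    linear_combination (x.den : ℚ) ^ 2 * h)
  refine ⟨x.den, tt6_splitDen x.den x.num b x.den_nz ?_ x.reduced, x.num, b, hxn, hb⟩
  have h6 : ((x.num ^ 2 + b ^ 2 : ℤ) : ℚ) = ((x.den : ℤ) ^ 2 : ℤ) := by
    push_cast
    rw [← hxn, ← hb]
    linear_combination (x.den : ℚ) ^ 2 * h
  exact_mod_cast h6

/-- multiplication of the first coordinate by `u` -/
private def tt6_L (u : EE) : Vc EE →ₗ[EE] Vc EE :=
  LinearMap.id + (Finsupp.lapply 0 : Vc EE →ₗ[EE] EE).smulRight ((u - 1) • ee 0)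

private theorem tt6_L_apply (u : EE) (x : Vc EE) : tt6_L u x = x + (x 0) • ((u - 1) • ee 0) := rfl

private theorem tt6_ee0 : (ee 0 : Vc EE) 0 = 1 := Finsupp.single_eq_same

private theorem tt6_L_zero (u : EE) (x : Vc EE) : (tt6_L u x) 0 = u * x 0 := by
  rw [tt6_L_apply, Finsupp.add_apply, Finsupp.smul_apply, Finsupp.smul_apply, tt6_ee0, smul_eq_mul,
    smul_eq_mul]
  ring

private theorem tt6_L_mul (u v : EE) : tt6_L u ∘ₗ tt6_L v = tt6_L (u * v) := by
  apply LinearMap.ext
  intro x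
  rw [LinearMap.comp_apply, tt6_L_apply u, tt6_L_zero, tt6_L_apply, tt6_L_apply, smul_smul, smul_smul,
    smul_smul, add_assoc, ← add_smul]
  congr 2
  ring

private theorem tt6_L_one : tt6_L 1 = LinearMap.id := by
  apply LinearMap.ext
  intro x
  rw [tt6_L_apply, sub_self, zero_smul, smul_zero, add_zero]
  rfl

/-- the automorphism `diag(u, 1, 1, ...)` -/
private def tt6_io (u : TT) : Au EE :=
  LinearEquiv.ofLinearMap (tt6_L u) (tt6_L (star (u : EE)))
    (by rw [tt6_L_mul, u.2.2, tt6_L_one]) (by rw [tt6_L_mul, u.2.1, tt6_L_one])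

private theorem tt6_io_apply (u : TT) (x : Vc EE) :
    tt6_io u x = x + (x 0 * ((u : EE) - 1)) • ee 0 := by
  show x + (x 0) • (((u : EE) - 1) • ee 0) = _
  rw [smul_smul]

private theorem tt6_io_zero (u : TT) (x : Vc EE) : (tt6_io u x) 0 = u * x 0 := tt6_L_zero u x

private theorem tt6_hadd_left (x z y : Vc EE) : hdot (x + z) y = hdot x y + hdot z y := by
  unfold hdot
  exact Finsupp.sum_add_index' (fun i => zero_mul _) (fun i b₁ b₂ => add_mul _ _ _)

private theorem tt6_hadd_right (x y z : Vc EE) : hdot x (y + z) = hdot x y + hdot x z := by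
  unfold hdot
  rw [← Finsupp.sum_add]
  refine Finsupp.sum_congr fun i _ => ?_
  rw [Finsupp.add_apply, star_add, mul_add]

private theorem tt6_hs_left (s : EE) (y : Vc EE) : hdot (s • (ee 0 : Vc EE)) y = s * star (y 0) := by
  unfold hdot ee
  rw [Finsupp.smul_single, smul_eq_mul, mul_one, Finsupp.sum_single_index (zero_mul _)]

private theorem tt6_hs_right (s : EE) (x : Vc EE) : hdot x (s • (ee 0 : Vc EE)) = x 0 * star s := by
  have h : hdot x (s • (ee 0 : Vc EE)) = hdot x (ee 0) * star s := by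
    unfold hdot Finsupp.sum
    rw [Finset.sum_mul]
    refine Finset.sum_congr rfl fun i _ => ?_
    show x i * star ((s • (ee 0 : Vc EE)) i) = x i * star ((ee 0 : Vc EE) i) * star s
    rw [Finsupp.smul_apply, smul_eq_mul, star_mul]
    ring
  rw [h, hdot_ee_right]

private theorem tt6_IsU (n : ℕ) (hn : 1 ≤ n) (u : TT) : IsU n (tt6_io u) := by
  refine ⟨fun x y => ?_, fun i hi => ?_, fun i j => ?_⟩
  · rw [tt6_io_apply u x, tt6_hadd_left, tt6_hs_left, tt6_io_zero, tt6_io_apply u y, tt6_hadd_right,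
      tt6_hs_right, star_mul, star_mul, star_sub, star_one]
    have h1 : (u : EE) * star (u : EE) = 1 := u.2.2
    linear_combination (x 0 * star (y 0)) * h1
  · rw [tt6_io_apply]
    have h0 : (ee i : Vc EE) 0 = 0 := Finsupp.single_eq_of_ne (by omega)
    rw [h0, zero_mul, zero_smul, add_zero]
  · have he : ∀ i j : ℕ, (ee j : Vc EE) i ∈ OZ := by
      intro i j
      classical
      show (Finsupp.single j (1 : EE)) i ∈ OZ
      rw [Finsupp.single_apply]
      split_ifs
      · exact OZ_one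
      · exact OZ_zero
    rw [tt6_io_apply, Finsupp.add_apply, Finsupp.smul_apply, smul_eq_mul]
    refine OZ_add _ _ (he i j) (OZ_mul _ _ (OZ_mul _ _ (he 0 j) ?_) (he i 0))
    rw [sub_eq_add_neg]
    exact OZ_add _ _ (norm_one_OZ u) (OZ_neg _ OZ_one)

private theorem tt6_det (u : TT) : detT (tt6_io u) = u := by
  apply Subtype.ext
  rw [detT_eq 1 (tt6_io u) (tt6_IsU 1 le_rfl u), Matrix.det_fin_one]
  show (tt6_io u (ee 0)) 0 = u
  rw [tt6_io_zero, tt6_ee0, mul_one]

private theorem tt6_one : tt6_io 1 = 1 := by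
  apply au_ext
  intro i
  rw [tt6_io_apply]
  show ee i + ((ee i : Vc EE) 0 * ((1 : EE) - 1)) • ee 0 = ee i
  rw [sub_self, mul_zero, zero_smul, add_zero]

theorem detH_onto : CbOnto detH := by
  intro c'
  refine ⟨{ r := c'.r
            q := c'.q
            y := fun s => tt6_io (c'.y s)
            l := fun _ => PUnit.unit
            r_pos := c'.r_pos
            y_dep := fun s s' h => by rw [c'.y_dep s s' h]
            l_dep := fun _ _ _ => rfl
            y_mem := fun s => tt6_IsU c'.r c'.r_pos (c'.y s)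
            l_mem := fun _ => trivial
            y_zero := by rw [c'.y_zero, tt6_one]
            l_mono := fun _ _ _ => le_rfl }, ?_⟩
  apply Cb.ext
  · exact one_mul _
  · rfl
  · funext s
    exact tt6_det (c'.y s)
  · funext s
    rfl

end St16
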