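import Pool.Agent.LibSt16.Sy

/-!
LibSt16/TT7.  The standard lattice is in `Ln`; forgetting lattices is onto on cubes.
-/

set_option autoImplicit false

noncomputable section

namespace St16

private theorem TT7_dot {A L : Type} [CommRing A] [IsDomain A] [IsDiscreteValuationRing A] [Field L] [Algebra A L]
    [IsFractionRing A L] (n : ℕ) (x y : Vc L) (hx : x ∈ (Mn A n : Submodule A (Vc L)))
    (hy : y ∈ (Mn A n : Submodule A (Vc L))) : ∃ a : A, algebraMap A L a = dot x y := by
  have hx' : ∀ i, ∃ a : A, algebraMap A L a = x i := fun i => (hx i).2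
  have hy' : ∀ i, ∃ a : A, algebraMap A L a = y i := fun i => (hy i).2
  choose a ha using hx'
  choose b hb using hy'
  refine ⟨∑ i ∈ x.support, a i * b i, ?_⟩
  rw [map_sum]
  unfold dot Finsupp.sum
  refine Finset.sum_congr rfl fun i _ => ?_
  rw [map_mul, ha, hb]

private theorem TT7_ee {A L : Type} [CommRing A] [IsDomain A] [IsDiscreteValuationRing A] [Field L] [Algebra A L]
    [IsFractionRing A L] (n i : ℕ) (hi : i < n) : (ee i : Vc L) ∈ (Mn A n : Submodule A (Vc L)) := by
  intro j
  refine ⟨fun hj => ?_, ?_⟩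
  · unfold ee
    rw [Finsupp.single_apply, if_neg (by omega)]
  · unfold ee
    rw [Finsupp.single_apply]
    by_cases h : i = j
    · exact ⟨1, by rw [if_pos h, map_one]⟩
    · exact ⟨0, by rw [if_neg h, map_zero]⟩

theorem Mn_mem {A L : Type} [CommRing A] [IsDomain A] [IsDiscreteValuationRing A] [Field L] [Algebra A L]
    [IsFractionRing A L] (ϖ : A) (n : ℕ) : (Mn A n : Lt A L) ∈ Ln ϖ n := by
  refine ⟨⟨0, fun x hx => ?_, fun x hx => ?_⟩, ?_, ?_⟩
  · rw [pow_zero, one_smul]; exact hx
  · rw [pow_zero, one_smul]; exact hx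
  · intro x hx
    exact ⟨fun i hi => (hx i).1 hi, fun y hy => TT7_dot n x y hx hy⟩
  · rintro x ⟨h1, h2⟩
    intro i
    have h3 : ∃ a : A, algebraMap A L a = x i := by
      by_cases hi : i < n
      · obtain ⟨a, ha⟩ := h2 (ee i) (TT7_ee n i hi)
        exact ⟨a, by rw [ha, dot_ee_right]⟩
      · exact ⟨0, by rw [map_zero, h1 i (by omega)]⟩
    refine ⟨fun hi => ?_, ?_⟩
    · rw [Finsupp.smul_apply, h1 i hi, smul_zero]
    · obtain ⟨a, ha⟩ := h3
      exact ⟨ϖ * a, by rw [map_mul, ha, Finsupp.smul_apply, Algebra.smul_def]⟩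

theorem fgL_onto {A L : Type} [CommRing A] [IsDomain A] [IsDiscreteValuationRing A] [Field L] [CharZero L]
    [Algebra A L] [IsFractionRing A L] (ϖ : A) (hϖ : Irreducible ϖ) : CbOnto (fgL L ϖ hϖ) := by
  intro c'
  refine ⟨{ r := c'.r
            q := c'.q
            y := c'.y
            l := fun _ => (Mn A c'.r : Lt A L)
            r_pos := c'.r_pos
            y_dep := c'.y_dep
            l_dep := fun _ _ _ => rfl
            y_mem := c'.y_mem
            l_mem := fun _ => Mn_mem ϖ c'.r
            y_zero := c'.y_zero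
            l_mono := fun _ _ _ => le_rfl }, ?_⟩
  exact Cb.ext (one_mul _) rfl rfl rfl

end St16
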