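import Pool.Agent.LibSt16.Sy

/-!
LibSt16/TT8.  Row TT8 (MEDIUM): a chain over the reals is defined over every algebra containing a suitable finite set.
F = all entries of the matrices c.y s for the lists l in the support of w, c in l, s in a finite set of representatives
(c.y depends only on the first q bits; the entries g (ee j) i for g in On r are 0 or 1 unless i, j < r: SY02 On_low).
For one g in On ℝ n with the entries g (ee j) i, i, j < n in the subalgebra B: g comes from an automorphism over B in On B n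
(inverse = transpose: (g⁻¹ (ee j)) i = (g (ee i)) j).  So for every cube c over ℝ there are a finite set F_c and for every B
containing F_c a cube over B mapping to c, with the same q and r.  For w: F = union over the support; for B pick
sec : List (Cb (sysO ℝ)) -> List (Cb (sysO B)) (classical choice, right on the support), wB := mapDomain sec w;
(bcH).bt wB = mapDomain (map cb o sec) w = w (Finsupp.mapDomain_congr on the support); BTN: the support of mapDomain is in
the image; rank of (bcH f).cb c is 1 * c.r.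
-/

set_option autoImplicit false

noncomputable section

namespace St16

/-! ### auxiliary facts -/

section aux

variable {B C : Type} [CommRing B] [CommRing C] (f : B →+* C)

private theorem TT8_ee (i : ℕ) : Finsupp.mapRange f (map_zero f) (ee i : Vc B) = ee i := by
  unfold ee
  rw [Finsupp.mapRange_single, map_one]

private theorem TT8_inj (hf : Function.Injective f) :
    Function.Injective (Finsupp.mapRange f (map_zero f) : Vc B → Vc C) :=
  Finsupp.mapRange_injective f (map_zero f) hf

private theorem TT8_ext {D : Type} [CommRing D] (a b : Vc D →ₗ[D] Vc D)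
    (h : ∀ i, a (ee i) = b (ee i)) : a = b := by
  refine Finsupp.lhom_ext' fun i => LinearMap.ext_ring ?_
  exact h i

private theorem TT8_bc_ee (g : Vc B →ₗ[B] Vc B) (i : ℕ) :
    bcL f g (ee i) = Finsupp.mapRange f (map_zero f) (g (ee i)) := by
  unfold bcL
  conv_lhs => unfold ee
  rw [Finsupp.linearCombination_single, one_smul]
  rfl

private theorem TT8_bcL_inj (hf : Function.Injective f) (a b : Vc B →ₗ[B] Vc B)
    (h : bcL f a = bcL f b) : a = b := by
  refine TT8_ext a b fun i => TT8_inj f hf ?_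
  rw [← TT8_bc_ee, ← TT8_bc_ee, h]

private theorem TT8_bcA_inj (hf : Function.Injective f) (a b : Au B)
    (h : bcA f a = bcA f b) : a = b := by
  apply LinearEquiv.toLinearMap_injective
  refine TT8_bcL_inj f hf _ _ ?_
  exact congrArg (fun g : Au C => g.toLinearMap) h

private theorem TT8_dot (x y : Vc B) :
    dot (Finsupp.mapRange f (map_zero f) x) (Finsupp.mapRange f (map_zero f) y) = f (dot x y) := by
  unfold dot
  rw [Finsupp.sum_mapRange_index (fun i => zero_mul _), map_finsuppSum]
  refine Finsupp.sum_congr fun i _ => ?_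
  rw [Finsupp.mapRange_apply, map_mul]

end aux

private theorem TT8_entries (n : ℕ) (g : Au ℝ) (hg : g ∈ On ℝ n) (B : Subalgebra ℚ ℝ)
    (h : ∀ i j, i < n → j < n → (g (ee j)) i ∈ B) : ∀ i j, (g (ee j)) i ∈ B := by
  classical
  intro i j
  by_cases hj : j < n
  · by_cases hi : i < n
    · exact h i j hi hj
    · have h0 : (g (ee j)) i = 0 := by
        refine On_low n g hg (ee j) (fun k hk => ?_) i (not_lt.1 hi)
        unfold ee
        exact Finsupp.single_eq_of_ne (by omega)
      rw [h0]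
      exact B.zero_mem
  · rw [hg.2 j (not_lt.1 hj)]
    unfold ee
    rw [Finsupp.single_apply]
    split_ifs
    · exact B.one_mem
    · exact B.zero_mem

/-- the linear map over `B` with the same entries -/
private def TT8_gl (B : Subalgebra ℚ ℝ) (g : Au ℝ) (h : ∀ i j, (g (ee j)) i ∈ B) :
    Vc B →ₗ[B] Vc B :=
  Finsupp.linearCombination B fun j =>
    Finsupp.onFinset (g (ee j)).support (fun i => (⟨(g (ee j)) i, h i j⟩ : B)) (by
      intro i hi
      rw [Finsupp.mem_support_iff]
      intro h0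
      exact hi (Subtype.ext h0))

private theorem TT8_gl_bc (B : Subalgebra ℚ ℝ) (g : Au ℝ) (h : ∀ i j, (g (ee j)) i ∈ B) :
    bcL (algebraMap B ℝ) (TT8_gl B g h) = g.toLinearMap := by
  refine TT8_ext _ _ fun i => ?_
  rw [TT8_bc_ee]
  unfold TT8_gl
  conv_lhs => unfold ee
  rw [Finsupp.linearCombination_single, one_smul]
  ext k
  rw [Finsupp.mapRange_apply, Finsupp.onFinset_apply]
  rfl

private theorem TT8_lift (n : ℕ) (g : Au ℝ) (hg : g ∈ On ℝ n) (B : Subalgebra ℚ ℝ)
    (h : ∀ i j, i < n → j < n → (g (ee j)) i ∈ B) :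
    ∃ gB : Au B, gB ∈ On B n ∧ bcA (algebraMap B ℝ) gB = g := by
  have hf : Function.Injective (algebraMap B ℝ) := Subtype.val_injective
  have hg' : g⁻¹ ∈ On ℝ n := inv_mem hg
  have h1 : ∀ i j, (g (ee j)) i ∈ B := TT8_entries n g hg B h
  have hsym : ∀ i j, (g.symm (ee j)) i = (g (ee i)) j := by
    intro i j
    rw [← dot_ee_right (g.symm (ee j)) i, ← hg.1, LinearEquiv.apply_symm_apply, dot_comm,
      dot_ee_right]
  have h2 : ∀ i j, (g.symm (ee j)) i ∈ B := by
    intro i j
    rw [hsym]
    exact h1 j i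
  have e1 := TT8_gl_bc B g h1
  have e2 := TT8_gl_bc B g.symm h2
  have i1 : TT8_gl B g h1 ∘ₗ TT8_gl B g.symm h2 = LinearMap.id := by
    refine TT8_bcL_inj _ hf _ _ ?_
    rw [bcL_mul, e1, e2, bcL_one]
    ext1 x
    simp
  have i2 : TT8_gl B g.symm h2 ∘ₗ TT8_gl B g h1 = LinearMap.id := by
    refine TT8_bcL_inj _ hf _ _ ?_
    rw [bcL_mul, e1, e2, bcL_one]
    ext1 x
    simp
  refine ⟨LinearEquiv.ofLinearMap (TT8_gl B g h1) (TT8_gl B g.symm h2) i1 i2, ⟨?_, ?_⟩, ?_⟩
  · intro x y
    have e3 : ∀ z : Vc B, Finsupp.mapRange (algebraMap B ℝ) (map_zero _) (TT8_gl B g h1 z) =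
        g (Finsupp.mapRange (algebraMap B ℝ) (map_zero _) z) := by
      intro z
      rw [← bcL_mapRange, e1]
      rfl
    apply hf
    show algebraMap B ℝ (dot (TT8_gl B g h1 x) (TT8_gl B g h1 y)) = _
    rw [← TT8_dot, e3, e3, hg.1, TT8_dot]
  · intro i hi
    apply TT8_inj (algebraMap B ℝ) hf
    show Finsupp.mapRange (algebraMap B ℝ) (map_zero _) (TT8_gl B g h1 (ee i)) = _
    rw [← bcL_mapRange, e1, TT8_ee]
    exact hg.2 i hi
  · apply LinearEquiv.toLinearMap_injective
    exact e1

/-- one cube -/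
theorem fin_def_cb (c : Cb (sysO ℝ)) : ∃ F : Finset ℝ, ∀ B : Subalgebra ℚ ℝ, (∀ x ∈ F, x ∈ B) →
    ∃ cB : Cb (sysO B), (bcH (algebraMap B ℝ)).cb cB = c ∧ cB.r = c.r ∧ cB.q = c.q := by
  classical
  let ex : (Fin c.q → Bool) → ℕ → Bool := fun s i => if h : i < c.q then s ⟨i, h⟩ else false
  refine ⟨(Finset.univ : Finset (Fin c.q → Bool)).biUnion fun s =>
    (Finset.range c.r ×ˢ Finset.range c.r).image fun p => (c.y (ex s) (ee p.2)) p.1, ?_⟩
  intro B hB
  have hf : Function.Injective (algebraMap B ℝ) := Subtype.val_injective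
  have hy : ∀ s, c.y s ∈ On ℝ c.r := fun s => c.y_mem s
  have hent : ∀ s i j, i < c.r → j < c.r → (c.y s (ee j)) i ∈ B := by
    intro s i j hi hj
    have e : c.y s = c.y (ex fun k => s k) := by
      refine c.y_dep _ _ fun k hk => ?_
      simp only [ex, hk, dif_pos]
    rw [e]
    refine hB _ (Finset.mem_biUnion.2 ⟨fun k => s k, Finset.mem_univ _, ?_⟩)
    exact Finset.mem_image.2 ⟨(i, j), Finset.mem_product.2
      ⟨Finset.mem_range.2 hi, Finset.mem_range.2 hj⟩, rfl⟩
  have hlift : ∀ g : Au ℝ, (∃ s, c.y s = g) →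
      ∃ gB : Au B, gB ∈ On B c.r ∧ bcA (algebraMap B ℝ) gB = g := by
    rintro g ⟨s, rfl⟩
    exact TT8_lift c.r (c.y s) (hy s) B (hent s)
  choose! lf hlf1 hlf2 using hlift
  refine ⟨{ r := c.r
            q := c.q
            y := fun s => lf (c.y s)
            l := fun _ => PUnit.unit
            r_pos := c.r_pos
            y_dep := fun s s' h => by rw [c.y_dep s s' h]
            l_dep := fun _ _ _ => rfl
            y_mem := fun s => hlf1 _ ⟨s, rfl⟩
            l_mem := fun _ => trivial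
            y_zero := ?_
            l_mono := fun _ _ _ => le_rfl }, ?_, rfl, rfl⟩
  · refine TT8_bcA_inj (algebraMap B ℝ) hf _ _ ?_
    rw [hlf2 _ ⟨z0, rfl⟩, c.y_zero]
    exact (bcH (algebraMap B ℝ)).G_one.symm
  · refine Cb.ext ?_ rfl ?_ ?_
    · exact one_mul _
    · funext s
      exact hlf2 _ ⟨s, rfl⟩
    · rfl

theorem fin_def (w : BT (sysO ℝ)) : ∃ F : Finset ℝ, ∀ B : Subalgebra ℚ ℝ, (∀ x ∈ F, x ∈ B) →
    ∃ wB : BT (sysO B), (bcH (algebraMap B ℝ)).bt wB = w ∧
      ∀ n N, w ∈ BTN (sysO ℝ) n N → wB ∈ BTN (sysO B) n N := by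
  classical
  choose Fc hFc using fin_def_cb
  refine ⟨w.support.biUnion fun l => l.toFinset.biUnion Fc, fun B hB => ?_⟩
  have hl : ∀ l : List (Cb (sysO ℝ)), (∀ c ∈ l, ∀ x ∈ Fc c, x ∈ B) →
      ∃ lB : List (Cb (sysO B)), lB.map (bcH (algebraMap B ℝ)).cb = l ∧
        lB.map Cb.r = l.map Cb.r ∧ lB.map Cb.q = l.map Cb.q := by
    intro l
    induction l with
    | nil => exact fun _ => ⟨[], rfl, rfl, rfl⟩
    | cons c l ih =>
      intro h
      obtain ⟨lB, h1, h2, h3⟩ := ih fun c' hc' => h c' (List.mem_cons_of_mem _ hc')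
      obtain ⟨cB, h4, h5, h6⟩ := hFc c B (h c List.mem_cons_self)
      refine ⟨cB :: lB, ?_, ?_, ?_⟩
      · rw [List.map_cons, h1, h4]
      · rw [List.map_cons, List.map_cons, h2, h5]
      · rw [List.map_cons, List.map_cons, h3, h6]
  choose! sec hs1 hs2 hs3 using hl
  have hsup : ∀ l ∈ w.support, ∀ c ∈ l, ∀ x ∈ Fc c, x ∈ B := by
    intro l hlw c hc x hx
    refine hB x (Finset.mem_biUnion.2 ⟨l, hlw, Finset.mem_biUnion.2 ⟨c, ?_, hx⟩⟩)
    exact List.mem_toFinset.2 hc
  refine ⟨Finsupp.mapDomain sec w, ?_, ?_⟩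
  · show Finsupp.mapDomain (List.map (bcH (algebraMap B ℝ)).cb) (Finsupp.mapDomain sec w) = w
    rw [← Finsupp.mapDomain_comp]
    have : Finsupp.mapDomain (List.map (bcH (algebraMap B ℝ)).cb ∘ sec) w =
        Finsupp.mapDomain id w :=
      Finsupp.mapDomain_congr fun l hlw => hs1 l (hsup l hlw)
    rw [this, Finsupp.mapDomain_id]
  · intro n N hw
    unfold BTN at hw ⊢
    rw [Finsupp.mem_supported] at hw ⊢
    intro lB hlB
    have h1 := Finsupp.mapDomain_support hlB
    obtain ⟨l, hlw, rfl⟩ := Finset.mem_image.1 h1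
    obtain ⟨a1, a2, a3⟩ := hw hlw
    have b1 := hs1 l (hsup l hlw)
    have b2 := hs2 l (hsup l hlw)
    have b3 := hs3 l (hsup l hlw)
    refine ⟨fun h0 => a1 ?_, ?_, ?_⟩
    · rw [← b1, h0]
      rfl
    · rw [b2]
      exact a2
    · have b4 : (sec l).length = l.length := by
        conv_rhs => rw [← b1]
        rw [List.length_map]
      rw [b3, b4]
      exact a3

end St16
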