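import Pool.Agent.LibSt16.XhA
import Pool.Agent.LibSt16.ThS

/-!
LibSt16/XhB (helper33): the chain Xh: cycle, image in the orthogonal group over L, degree; the cycle HtS B .Th y.
-/

set_option autoImplicit false

noncomputable section

namespace St16

/-! ### the homotopy over commutative rings -/

private theorem hty_ext {G P G' P' : Type} [Group G] [Preorder P] [MulAction G P] [Group G'] [Preorder P']
    [MulAction G' P'] {S : Sys G P} {S' : Sys G' P'} {d : ℕ} (H H' : Hty S S' d) (h1 : H.fG = H'.fG)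
    (h2 : H.L0 = H'.L0) (h3 : H.L1 = H'.L1) (h4 : H.tau = H'.tau) : H = H' := by
  cases H
  cases H'
  cases h1
  cases h2
  cases h3
  cases h4
  rfl

/-- base change of the homotopy -/
theorem HtS_bc {B C : Type} [CommRing B] [CommRing C] [Algebra ℚ B] [Algebra ℚ C] (f : B →+* C) (s w : B)
    (h : w * (1 + s ^ 2) = 1) (h' : f w * (1 + f s ^ 2) = 1) (y : BT sysU) :
    (bcH f).bt ((HtS B s w h).Th y) = (HtS C (f s) (f w) h').Th y := by
  rw [← comp_Th]
  congr 1
  congr 1
  refine hty_ext _ _ ?_ rfl rfl ?_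
  · funext g
    exact bcA_reA33 f g
  · funext c
    exact bcA_Rt f s w h h' c

private theorem phi01_pu {G P G' : Type} [Group G] [Preorder P] [MulAction G P] [Group G']
    {S : Sys G P} {S' : Sys G' PUnit.{1}} {d : ℕ} (H : Hty S S' d) : H.phi1 = H.phi0 := rfl

/-- the homotopy over a commutative ring sends cycles to cycles -/
theorem HtS_cycle (B : Type) [CommRing B] [Algebra ℚ B] (s w : B) (h : w * (1 + s ^ 2) = 1) (y : BT sysU)
    (hy : BD y ∈ DegB sysU) : BD ((HtS B s w h).Th y) ∈ DegB (sysO B) := by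
  have h1 := Th_homotopy (HtS B s w h) y
  have h2 := Th_DegB (HtS B s w h) _ hy
  rw [phi01_pu, sub_self, sub_zero] at h1
  have h3 := sub_mem h1 h2
  rwa [add_sub_cancel_right] at h3

section lat

variable {A L : Type} [CommRing A] [IsDomain A] [IsDiscreteValuationRing A] [Field L] [Algebra A L]
  [IsFractionRing A L] [Algebra ℚ L] (P : Place L A)

private theorem fg_true (j : ℕ) (up : Bool) (y : BT sysU) :
    (fgL L P.π P.irr).bt ((Hstep P j up true).Th y) = (HtS L P.S P.W P.hW).Th y := by
  rw [← comp_Th]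
  rfl

private theorem fg_false (j : ℕ) (up : Bool) (y : BT sysU) :
    (fgL L P.π P.irr).bt ((Hstep P j up false).Th y) ∈ DegB (sysO L) := by
  rw [← comp_Th]
  exact Th_trivial _ (fun n => rfl) (fun n => rfl) y

/-- the image of `Xh` in the orthogonal groups over `L` -/
theorem Xh_fg (y : BT sysU) :
    (fgL L P.π P.irr).bt (Xh P y) - (HtS L P.S P.W P.hW).Th y ∈ DegB (sysO L) := by
  obtain ⟨e, he⟩ : ∃ e, P.e = e + 1 := ⟨P.e - 1, by have := P.pos; omega⟩
  unfold Xh
  rw [he, Finset.sum_range_succ, map_add, map_sum, map_sub, decide_eq_true rfl, fg_true]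
  have h1 : ∑ j ∈ Finset.range e, (fgL L P.π P.irr).bt
      ((Hstep P j true (decide (j + 1 = e + 1))).Th y - (Hstep P j false false).Th y) ∈ DegB (sysO L) := by
    refine sum_mem fun j hj => ?_
    rw [map_sub]
    have hj' : decide (j + 1 = e + 1) = false := by
      rw [decide_eq_false_iff_not]
      have := Finset.mem_range.1 hj
      omega
    rw [hj']
    exact sub_mem (fg_false P j true y) (fg_false P j false y)
  have h2 := fg_false P e false y
  have e1 : ∀ a b c : BT (sysO L), a + (b - c) - b = a - c := fun a b c => by abel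
  rw [e1]
  exact sub_mem h1 h2

private theorem phi0_up (j : ℕ) (r r' : Bool) : (Hstep P j true r).phi0 = (Hstep P j false r').phi0 := rfl

private theorem shom_ext {G P G' P' : Type} [Group G] [Preorder P] [MulAction G P] [Group G'] [Preorder P']
    [MulAction G' P'] {S : Sys G P} {S' : Sys G' P'} {d : ℕ} (f f' : SHom S S' d) (h1 : f.fG = f'.fG)
    (h2 : f.fP = f'.fP) : f = f' := by
  cases f
  cases f'
  cases h1
  cases h2
  rfl

private theorem phi1_up (j : ℕ) : (Hstep P j true false).phi1 = (Hstep P (j + 1) false false).phi1 := by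
  refine shom_ext _ _ rfl ?_
  funext c _
  show (1 : Au L)⁻¹ • (Lam P.π P.I (-(j : ℤ) - 1) ((j : ℤ) + 1) c : Lt A L) =
    (1 : Au L)⁻¹ • (Lam P.π P.I (-((j + 1 : ℕ) : ℤ)) ((j + 1 : ℕ) : ℤ) c : Lt A L)
  congr 2
  · push_cast
    ring

private theorem phi1_last (j : ℕ) (hj : j + 1 = P.e) :
    (Hstep P j true true).phi1 = (Hstep P 0 false false).phi1 := by
  refine shom_ext _ _ rfl ?_
  funext c _
  show (Rt P.S P.W P.hW c)⁻¹ • (Lam P.π P.I (-(j : ℤ) - 1) ((j : ℤ) + 1) c : Lt A L) =
    (1 : Au L)⁻¹ • (Lam P.π P.I (-((0 : ℕ) : ℤ)) ((0 : ℕ) : ℤ) c : Lt A L)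
  have h1 : (-(j : ℤ) - 1) = -(P.e : ℤ) := by rw [← hj]; push_cast; ring
  have h2 : ((j : ℤ) + 1) = (P.e : ℤ) := by rw [← hj]; push_cast; ring
  rw [h1, h2, Rt_Lam, inv_one, one_smul]
  rfl

/-- `Xh` sends cycles to cycles -/
theorem Xh_cycle (y : BT sysU) (hy : BD y ∈ DegB sysU) : BD (Xh P y) ∈ DegB (sysL L P.π P.irr) := by
  have key : ∀ (j : ℕ) (r : Bool), BD ((Hstep P j true r).Th y - (Hstep P j false false).Th y) -
      ((Hstep P j true r).phi1.bt y - (Hstep P j false false).phi1.bt y) ∈ DegB (sysL L P.π P.irr) := by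
    intro j r
    have h1 := Th_homotopy (Hstep P j true r) y
    have h2 := Th_DegB (Hstep P j true r) _ hy
    have h3 := Th_homotopy (Hstep P j false false) y
    have h4 := Th_DegB (Hstep P j false false) _ hy
    rw [phi0_up P j r false] at h1
    have h5 := sub_mem (sub_mem h1 h2) (sub_mem h3 h4)
    rw [map_sub]
    convert h5 using 1
    abel
  obtain ⟨e, he⟩ : ∃ e, P.e = e + 1 := ⟨P.e - 1, by have := P.pos; omega⟩
  have h1 : ∑ j ∈ Finset.range P.e, (BD ((Hstep P j true (decide (j + 1 = P.e))).Th y -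
      (Hstep P j false false).Th y) - ((Hstep P j true (decide (j + 1 = P.e))).phi1.bt y -
        (Hstep P j false false).phi1.bt y)) ∈ DegB (sysL L P.π P.irr) :=
    sum_mem fun j _ => key j _
  rw [Finset.sum_sub_distrib, ← map_sum] at h1
  have h2 : ∑ j ∈ Finset.range P.e, ((Hstep P j true (decide (j + 1 = P.e))).phi1.bt y -
        (Hstep P j false false).phi1.bt y) = 0 := by
    rw [he, Finset.sum_range_succ, decide_eq_true rfl, phi1_last P e he.symm]
    have h3 : ∀ j ∈ Finset.range e, ((Hstep P j true (decide (j + 1 = e + 1))).phi1.bt y -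
        (Hstep P j false false).phi1.bt y) =
        (Hstep P (j + 1) false false).phi1.bt y - (Hstep P j false false).phi1.bt y := by
      intro j hj
      have hj' : decide (j + 1 = e + 1) = false := by
        rw [decide_eq_false_iff_not]
        have := Finset.mem_range.1 hj
        omega
      rw [hj', phi1_up]
    rw [Finset.sum_congr rfl h3,
      Finset.sum_range_sub (fun j => (Hstep P j false false).phi1.bt y) e]
    abel
  rw [h2, sub_zero] at h1
  exact h1

/-- the degree of `Xh` -/
theorem Xh_mem (m N : ℕ) (y : BT sysU) (hy : y ∈ BTN sysU m N) :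
    Xh P y ∈ BTN (sysL L P.π P.irr) (2 * m) (N + 1) := by
  unfold Xh
  exact sum_mem fun j _ => sub_mem (Th_BTN _ m N y hy) (Th_BTN _ m N y hy)

end lat

/-- the degree of the cycle over a commutative ring -/
theorem HtS_mem (B : Type) [CommRing B] [Algebra ℚ B] (s w : B) (h : w * (1 + s ^ 2) = 1) (m N : ℕ)
    (y : BT sysU) (hy : y ∈ BTN sysU m N) : (HtS B s w h).Th y ∈ BTN (sysO B) (2 * m) (N + 1) :=
  Th_BTN _ m N y hy

end St16
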