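import Mathlib

/-!
LibSt16/Place: the place structure of helper10 (verbatim from St16_Spec.lean).
-/

set_option autoImplicit false

namespace St16

/-- elements of the discrete valuation ring `A` of `L`: `i` is a square root of `-1`, `s - i` is a
unit times `π ^ e`, and the nonzero elements of `ℚ(i)` are units of `A` -/
structure Place (L A : Type) [Field L] [CommRing A] [Algebra A L] where
  i : A
  s : A
  π : A
  u : Aˣ
  e : ℕ
  isq : i ^ 2 = -1
  irr : Irreducible π
  es : s - i = u * π ^ e
  pos : 1 ≤ e
  units : ∀ a b : ℚ, (a ≠ 0 ∨ b ≠ 0) → ∃ v : Aˣ, algebraMap A L v = a + b * algebraMap A L i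

end St16
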