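import Pool.Agent.LibSt16.C
import Pool.Agent.LibSt16.L1F
import Pool.Agent.LibSt16.L3
import Pool.Agent.LibSt16.Spec
import Pool.Agent.LibSt16.Desc
import Pool.Agent.LibSt16.Cz
import Pool.Agent.LibSt16.XhB
import Pool.Agent.LibSt16.TT5
import Pool.Agent.LibSt16.TT6
import Pool.Agent.LibSt16.TT7
import Pool.Agent.LibSt16.TT8
import Pool.Agent.LibSt16B3.AlBe
import Pool.Agent.LibST82.G1
import Pool.Agent.LibST82.G2
import Pool.Agent.LibST82.G3
import Pool.Agent.LibST82.G4

/-!
LibSt16/Glue: imports of the finished layers.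
-/
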