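import Mathlib

/-!
LibSt16/H0 (helper60): MP_8b67e9, block I, second half: homological part. DEFINITIONS (frozen).
Everything over `ℚ`; cochains have values in `ℝ`.
-/

set_option autoImplicit false

noncomputable section

namespace St16H

/-! ### representations and complexes -/

/-- equivariant lifting property (projective): every equivariant map into the image of an
equivariant map `p` lifts. -/
def EqLift {Γ M : Type} [Group Γ] [AddCommGroup M] [Module ℚ M] (ρ : Representation ℚ Γ M) : Prop :=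
  ∀ (A B : Type) [AddCommGroup A] [Module ℚ A] [AddCommGroup B] [Module ℚ B]
    (ρA : Representation ℚ Γ A) (ρB : Representation ℚ Γ B)
    (p : A →ₗ[ℚ] B) (f : M →ₗ[ℚ] B),
    (∀ g a, p (ρA g a) = ρB g (p a)) → (∀ g m, f (ρ g m) = ρB g (f m)) →
    (∀ m, ∃ a, p a = f m) →
    ∃ u : M →ₗ[ℚ] A, (∀ g m, u (ρ g m) = ρA g (u m)) ∧ ∀ m, p (u m) = f m

/-- chain complex (degrees `0, 1, 2, ...`) of rational representations of `Γ`. -/
structure EqCx (Γ : Type) [Group Γ] where
  M : ℕ → Type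
  [acg : ∀ n, AddCommGroup (M n)]
  [md : ∀ n, Module ℚ (M n)]
  ρ : ∀ n, Representation ℚ Γ (M n)
  d : ∀ n, M (n + 1) →ₗ[ℚ] M n
  d_eqv : ∀ n g x, d n (ρ (n + 1) g x) = ρ n g (d n x)
  dd : ∀ n x, d n (d (n + 1) x) = 0

attribute [instance] EqCx.acg EqCx.md

/-- restriction of the group along a homomorphism -/
def EqCx.res {Γ Δ : Type} [Group Γ] [Group Δ] (C : EqCx Γ) (θ : Δ →* Γ) : EqCx Δ where
  M := C.M
  ρ := fun n => (C.ρ n).comp θ
  d := C.d
  d_eqv := fun n g x => C.d_eqv n (θ g) x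
  dd := C.dd

/-- augmented exactness -/
structure EqCx.Acyc {Γ : Type} [Group Γ] (C : EqCx Γ) (ε : C.M 0 →ₗ[ℚ] ℚ) : Prop where
  inv : ∀ g x, ε (C.ρ 0 g x) = ε x
  eps_d : ∀ x, ε (C.d 0 x) = 0
  onto : ∃ x, ε x = 1
  ex0 : ∀ x, ε x = 0 → ∃ y, C.d 0 y = x
  ex : ∀ n x, C.d n x = 0 → ∃ y, C.d (n + 1) y = x

/-- equivariant chain map -/
structure EqMap {Γ : Type} [Group Γ] (P C : EqCx Γ) where
  f : ∀ n, P.M n →ₗ[ℚ] C.M n
  eqv : ∀ n g x, f n (P.ρ n g x) = C.ρ n g (f n x)
  comm : ∀ n x, f n (P.d n x) = C.d n (f (n + 1) x)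

/-- restriction of the group -/
def EqMap.res {Γ Δ : Type} [Group Γ] [Group Δ] {P C : EqCx Γ} (F : EqMap P C) (θ : Δ →* Γ) :
    EqMap (P.res θ) (C.res θ) where
  f := F.f
  eqv := fun n g x => F.eqv n (θ g) x
  comm := F.comm

/-- composition -/
def EqMap.comp {Γ : Type} [Group Γ] {P Q C : EqCx Γ} (F : EqMap Q C) (E : EqMap P Q) :
    EqMap P C where
  f := fun n => (F.f n).comp (E.f n)
  eqv := fun n g x => by simp [E.eqv, F.eqv]
  comm := fun n x => by simp [E.comm, F.comm]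

/-- invariant functional -/
def InvFun {Γ M : Type} [Group Γ] [AddCommGroup M] [Module ℚ M] (ρ : Representation ℚ Γ M)
    (f : M →ₗ[ℚ] ℝ) : Prop := ∀ g x, f (ρ g x) = f x

/-! ### semisimplicial `G`-sets -/

/-- boundary of chains, for a family of faces -/
def bdOf {Y : ℕ → Type} (fc : ∀ q, Fin (q + 2) → Y (q + 1) → Y q) (q : ℕ) :
    (Y (q + 1) →₀ ℚ) →ₗ[ℚ] (Y q →₀ ℚ) :=
  Finsupp.lsum ℚ fun s => ∑ i : Fin (q + 2), ((-1 : ℚ) ^ (i : ℕ)) • Finsupp.lsingle (fc q i s)

/-- sets of simplices with an action of `G` and equivariant faces -/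
structure SS (G : Type) [Group G] where
  Y : ℕ → Type
  [act : ∀ q, MulAction G (Y q)]
  face : ∀ q, Fin (q + 2) → Y (q + 1) → Y q
  face_smul : ∀ q i (g : G) s, face q i (g • s) = g • face q i s
  bd_bd : ∀ q z, bdOf face q (bdOf face (q + 1) z) = 0

attribute [instance] SS.act

variable {G : Type} [Group G]

theorem SS.bd_single (S : SS G) {q : ℕ} (s : S.Y (q + 1)) (a : ℚ) :
    bdOf S.face q (Finsupp.single s a) =
      ∑ i : Fin (q + 2), Finsupp.single (S.face q i s) ((-1 : ℚ) ^ (i : ℕ) * a) := by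
  simp [bdOf]

/-- the chain complex of rational chains -/
def SS.cx (S : SS G) : EqCx G where
  M := fun q => (S.Y q →₀ ℚ)
  ρ := fun q =>
    { toFun := fun g => Finsupp.lmapDomain ℚ ℚ (fun s : S.Y q => g • s)
      map_one' := by
        refine Finsupp.lhom_ext fun s a => ?_
        simp
      map_mul' := fun g h => by
        refine Finsupp.lhom_ext fun s a => ?_
        simp [mul_smul] }
  d := fun q => bdOf S.face q
  d_eqv := fun q g x => by
    induction x using Finsupp.induction_linear with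
    | zero => simp
    | add x y hx hy => simp only [map_add, hx, hy]
    | single s a =>
      simp only [MonoidHom.coe_mk, OneHom.coe_mk, Finsupp.lmapDomain_apply,
        Finsupp.mapDomain_single, SS.bd_single, Finsupp.mapDomain_finsetSum, S.face_smul]
  dd := S.bd_bd

theorem SS.cx_ρ_single (S : SS G) (q : ℕ) (g : G) (s : S.Y q) (a : ℚ) :
    S.cx.ρ q g (Finsupp.single s a) = Finsupp.single (g • s) a := by
  show Finsupp.mapDomain _ _ = _
  rw [Finsupp.mapDomain_single]

/-- augmentation: sum of the coefficients -/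
def SS.eps (S : SS G) : S.cx.M 0 →ₗ[ℚ] ℚ := Finsupp.linearCombination ℚ (fun _ : S.Y 0 => (1 : ℚ))

/-- a real function on simplices as functional on chains -/
def SS.lin (S : SS G) {q : ℕ} (f : S.Y q → ℝ) : S.cx.M q →ₗ[ℚ] ℝ := Finsupp.linearCombination ℚ f

/-! ### coboundary and its adjoint, for maps `dk k : X1 → X0` with signs -/

section measure

variable {X0 X1 K : Type} [Fintype K]

/-- coboundary -/
def cbK (dk : K → X1 → X0) (sgn : K → ℝ) (h : X0 → ℝ) (σ : X1) : ℝ := ∑ k, sgn k * h (dk k σ)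

open Classical in
/-- the adjoint of the coboundary -/
def dsK (dk : K → X1 → X0) (sgn : K → ℝ) (f : X1 → ℝ) (τ : X0) : ℝ :=
  ∑ᶠ σ, ∑ k, if dk k σ = τ then sgn k * f σ else 0

/-- `c` is a cut-off function for the subgroup `Γ` -/
structure IsCut {X : Type} [MulAction G X] (Γ : Subgroup G) (c : X → ℝ) : Prop where
  nonneg : ∀ x, 0 ≤ c x
  supp : (Function.support c).Finite
  fin : ∀ x, {g : Γ | c ((g : G) • x) ≠ 0}.Finite
  sum : ∀ x, ∑ᶠ g : Γ, c ((g : G) • x) = 1

/-- invariance under the subgroup `Γ` -/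
def Inv {X : Type} [MulAction G X] (Γ : Subgroup G) (f : X → ℝ) : Prop := ∀ g ∈ Γ, ∀ x, f (g • x) = f x

/-- finite stabilisers and finitely many orbits -/
structure FinAct (X : Type) [MulAction G X] (Γ : Subgroup G) : Prop where
  stab : ∀ x : X, {g : G | g ∈ Γ ∧ g • x = x}.Finite
  orb : ∃ T : Set X, T.Finite ∧ ∀ x, ∃ g ∈ Γ, ∃ t ∈ T, g • t = x

end measure

/-- coboundary of a function on simplices -/
def SS.cb (S : SS G) {q : ℕ} (f : S.Y q → ℝ) : S.Y (q + 1) → ℝ :=
  cbK (S.face q) (fun i => (-1 : ℝ) ^ (i : ℕ)) f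

end St16H
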