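import Pool.Agent.LibSt16.H0

/-!
[ST16 H1] equivariant lifting property of permutation modules with finite stabilisers (helper60).

Plan `eqlift_perm`. Given `A B ρA ρB p f`. Relation on `X`: `x ~ y` iff `∃ g, a g x = y` (an equivalence relation by `h1`, `hm`; or
`letI : MulAction Γ X := { smul := a, .. }`); choose a representative `r x` of each class (`Quotient.out`), `r (a g x) = r x`,
and `t x : A` depending only on `r x` with `p (t x) = f (single (r x) 1)`. The set `W x = {g | a g (r x) = x}` is finite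
(`W x = g₀ * {g | a g (r x) = r x}` for any `g₀ ∈ W x`) and nonempty. Put
`u (single x 1) = (1 / #W x) • ∑ g ∈ W x, ρA g (t x)`, extended linearly (`Finsupp.linearCombination`). Then
`p (u (single x 1)) = average of ρB g (f (single (r x) 1)) = average of f (ρ g (single (r x) 1)) = f (single x 1)`, and
`W (a g x) = g * W x` gives equivariance.
Plan `eqlift_retract`: lift `f ∘ r`, compose with `i`.
Plan `eqlift_res_perm`: `eqlift_perm` with `a g x = θ g • x`.
-/

set_option autoImplicit false

noncomputable section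

namespace St16H

theorem eqlift_perm {Γ X : Type} [Group Γ] (a : Γ → X → X) (h1 : ∀ x, a 1 x = x)
    (hm : ∀ g h x, a (g * h) x = a g (a h x)) (hf : ∀ x, {g | a g x = x}.Finite)
    (ρ : Representation ℚ Γ (X →₀ ℚ))
    (hρ : ∀ g x, ρ g (Finsupp.single x 1) = Finsupp.single (a g x) 1) : EqLift ρ := by
  classical
  intro A B _ _ _ _ ρA ρB p f hp hfe hlift
  -- the orbit relation
  have hinv : ∀ g x, a g⁻¹ (a g x) = x := fun g x => by rw [← hm, inv_mul_cancel, h1]
  have hinv' : ∀ g x, a g (a g⁻¹ x) = x := fun g x => by rw [← hm, mul_inv_cancel, h1]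
  let s : Setoid X :=
    { r := fun x y => ∃ g, a g x = y
      iseqv :=
        { refl := fun x => ⟨1, h1 x⟩
          symm := by
            rintro x y ⟨g, rfl⟩
            exact ⟨g⁻¹, hinv g x⟩
          trans := by
            rintro x y z ⟨g, rfl⟩ ⟨h, rfl⟩
            exact ⟨h * g, hm h g x⟩ } }
  let r : X → X := fun x => (Quotient.mk s x).out
  have hr : ∀ x, ∃ g, a g (r x) = x := fun x => Quotient.exact (Quotient.out_eq (Quotient.mk s x))
  have hra : ∀ g x, r (a g x) = r x := by
    intro g x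
    show (Quotient.mk s (a g x)).out = (Quotient.mk s x).out
    congr 1
    apply Quotient.sound
    exact ⟨g⁻¹, hinv g x⟩
  have hW : ∀ x, {g | a g (r x) = x}.Finite := by
    intro x
    obtain ⟨g0, hg0⟩ := hr x
    refine ((hf (r x)).image fun g => g0 * g).subset ?_
    intro g hg
    refine ⟨g0⁻¹ * g, ?_, by group⟩
    show a (g0⁻¹ * g) (r x) = r x
    rw [hm, show a g (r x) = x from hg]
    conv_lhs => rw [← hg0]
    exact hinv g0 (r x)
  let W : X → Finset Γ := fun x => (hW x).toFinset
  have hmW : ∀ x g, g ∈ W x ↔ a g (r x) = x := fun x g => by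
    show g ∈ (hW x).toFinset ↔ _
    rw [Set.Finite.mem_toFinset]
    rfl
  have hWne : ∀ x, (W x).Nonempty := fun x => by
    obtain ⟨g, hg⟩ := hr x
    exact ⟨g, (hmW x g).2 hg⟩
  have hWa : ∀ g x, W (a g x) = (W x).map (mulLeftEmbedding g) := by
    intro g x
    ext h
    rw [hmW, Finset.mem_map, hra]
    constructor
    · intro hh
      refine ⟨g⁻¹ * h, ?_, by simp⟩
      rw [hmW, hm, hh, hinv]
    · rintro ⟨k, hk, rfl⟩
      rw [hmW] at hk
      rw [mulLeftEmbedding_apply, hm, hk]
  -- the lifts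
  have hT : ∀ y : X, ∃ t : A, p t = f (Finsupp.single y 1) := fun y => hlift _
  choose T hT using hT
  let v : X → A := fun x => ((W x).card : ℚ)⁻¹ • ∑ g ∈ W x, ρA g (T (r x))
  let u : (X →₀ ℚ) →ₗ[ℚ] A := Finsupp.linearCombination ℚ v
  have hu : ∀ x b, u (Finsupp.single x b) = b • v x := fun x b => Finsupp.linearCombination_single ℚ b x
  have hs : ∀ (x : X) (b : ℚ), Finsupp.single x b = b • Finsupp.single x (1 : ℚ) := fun x b => by
    rw [Finsupp.smul_single, smul_eq_mul, mul_one]
  have hva : ∀ g x, v (a g x) = ρA g (v x) := by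
    intro g x
    show ((W (a g x)).card : ℚ)⁻¹ • ∑ h ∈ W (a g x), ρA h (T (r (a g x))) =
      ρA g (((W x).card : ℚ)⁻¹ • ∑ g ∈ W x, ρA g (T (r x)))
    rw [hWa, Finset.card_map, Finset.sum_map, hra, map_smul, map_sum]
    congr 1
    refine Finset.sum_congr rfl fun h _ => ?_
    rw [mulLeftEmbedding_apply, map_mul]
    rfl
  have hpv : ∀ x, p (v x) = f (Finsupp.single x 1) := by
    intro x
    have hc : ((W x).card : ℚ) ≠ 0 := Nat.cast_ne_zero.2 (Finset.card_pos.2 (hWne x)).ne'
    show p (((W x).card : ℚ)⁻¹ • ∑ g ∈ W x, ρA g (T (r x))) = _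
    rw [map_smul, map_sum]
    have h2 : ∀ g ∈ W x, p (ρA g (T (r x))) = f (Finsupp.single x 1) := by
      intro g hg
      rw [hp, hT, ← hfe, hρ, (hmW x g).1 hg]
    rw [Finset.sum_congr rfl h2, Finset.sum_const, ← Nat.cast_smul_eq_nsmul ℚ, smul_smul,
      inv_mul_cancel₀ hc, one_smul]
  refine ⟨u, ?_, ?_⟩
  · intro g m
    induction m using Finsupp.induction_linear with
    | zero => simp
    | add x y hx hy => simp only [map_add, hx, hy]
    | single x b =>
      rw [hs, map_smul, map_smul, map_smul, hρ, map_smul, hu, hu, one_smul, one_smul, hva]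
  · intro m
    induction m using Finsupp.induction_linear with
    | zero => simp
    | add x y hx hy => simp only [map_add, hx, hy]
    | single x b =>
      rw [hs, map_smul, map_smul, map_smul, hu, one_smul, hpv]

theorem eqlift_retract {Γ M N : Type} [Group Γ] [AddCommGroup M] [Module ℚ M] [AddCommGroup N]
    [Module ℚ N] (ρ : Representation ℚ Γ M) (σ : Representation ℚ Γ N) (hσ : EqLift σ)
    (i : M →ₗ[ℚ] N) (r : N →ₗ[ℚ] M) (hi : ∀ g x, i (ρ g x) = σ g (i x))
    (hr : ∀ g x, r (σ g x) = ρ g (r x)) (hri : ∀ x, r (i x) = x) : EqLift ρ := by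
  intro A B _ _ _ _ ρA ρB p f hp hfe hlift
  obtain ⟨u, hu1, hu2⟩ := hσ A B ρA ρB p (f ∘ₗ r) hp
    (fun g m => by rw [LinearMap.comp_apply, hr, hfe]; rfl) (fun m => hlift (r m))
  refine ⟨u ∘ₗ i, fun g m => ?_, fun m => ?_⟩
  · rw [LinearMap.comp_apply, hi, hu1]
    rfl
  · rw [LinearMap.comp_apply, hu2, LinearMap.comp_apply, hri]

/-- chains of simplices, for a group acting through `θ` with finite stabilisers -/
theorem SS.eqlift {G Δ : Type} [Group G] [Group Δ] (S : SS G) (θ : Δ →* G) (q : ℕ)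
    (hf : ∀ s : S.Y q, {g : Δ | θ g • s = s}.Finite) : EqLift ((S.cx.res θ).ρ q) := by
  refine eqlift_perm (X := S.Y q) (fun g s => θ g • s) (fun x => ?_) (fun g h x => ?_) hf
    ((S.cx.res θ).ρ q) (fun g x => ?_)
  · show θ 1 • x = x
    rw [map_one, one_smul]
  · show θ (g * h) • x = θ g • θ h • x
    rw [map_mul, mul_smul]
  · exact S.cx_ρ_single q (θ g) x 1

end St16H
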