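import Pool.Agent.LibSt16.H0

/-!
[ST16 H2] the comparison theorem (helper60).

Plan. General recursion: if `a0` is good 0 and every `a` good `n` has `b` good `n+1` with `R n a b`, then there is a sequence
(`Nat.rec` on `{a : A n // good n a}` with `Classical.choose`): lemma `exists_seq`.
`exists_map`: `A n = P.M n →ₗ C.M n`; good 0 f: equivariant and `εC (f x) = εP x`; good (n+1) f: equivariant and
`∀ x, C.d n (f (P.d (n+1) x)) = 0`; R n f g: `f (P.d n x) = C.d n (g x)`. Degree 0: `EqLift (P.ρ 0)` with `p = εC : C.M 0 → ℚ`,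
trivial representation on `ℚ` (`εC` is onto by `hC.onto` and scaling). Step: `EqLift (P.ρ (n+1))` with `p = C.d n`, `f = f_n ∘ P.d n`:
its values are in the image of `C.d n` by `hC.ex0` / `hC.ex`.
`exists_homotopy`: `A n = P.M n →ₗ C.M (n+1)`, good n κ: equivariant and
`∀ x : P.M (n+1), C.d n (F x - F' x - κ (P.d n x)) = 0` (F, F' in degree n+1), R n κ κ': `F x - F' x - κ (P.d n x) = C.d (n+1) (κ' x)`.
-/

set_option autoImplicit false

noncomputable section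

namespace St16H

theorem exists_seq {A : ℕ → Type} (good : ∀ n, A n → Prop) (R : ∀ n, A n → A (n + 1) → Prop)
    (h0 : ∃ a, good 0 a) (hs : ∀ n a, good n a → ∃ b, good (n + 1) b ∧ R n a b) :
    ∃ F : ∀ n, A n, (∀ n, good n (F n)) ∧ ∀ n, R n (F n) (F (n + 1)) := by
  classical
  let F : ∀ n, {a : A n // good n a} := fun n =>
    Nat.rec (motive := fun n => {a : A n // good n a}) ⟨h0.choose, h0.choose_spec⟩
      (fun n x => ⟨(hs n x.1 x.2).choose, (hs n x.1 x.2).choose_spec.1⟩) n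
  exact ⟨fun n => (F n).1, fun n => (F n).2, fun n => (hs n (F n).1 (F n).2).choose_spec.2⟩

variable {Γ : Type} [Group Γ]

/-- existence of an equivariant chain map compatible with the augmentations -/
theorem exists_map (P C : EqCx Γ) (εP : P.M 0 →ₗ[ℚ] ℚ) (εC : C.M 0 →ₗ[ℚ] ℚ)
    (hP : ∀ n, EqLift (P.ρ n)) (aP : P.Acyc εP) (aC : C.Acyc εC) :
    ∃ F : EqMap P C, ∀ x, εC (F.f 0 x) = εP x := by
  -- good n f : equivariant, compatible, and f ∘ d has boundary zero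
  let good : ∀ n, (P.M n →ₗ[ℚ] C.M n) → Prop := fun n => match n with
    | 0 => fun f => (∀ g x, f (P.ρ 0 g x) = C.ρ 0 g (f x)) ∧ ∀ x, εC (f x) = εP x
    | n + 1 => fun f => (∀ g x, f (P.ρ (n + 1) g x) = C.ρ (n + 1) g (f x)) ∧
        ∀ x, C.d n (f (P.d (n + 1) x)) = 0
  have heqv : ∀ n f, good n f → ∀ g x, f (P.ρ n g x) = C.ρ n g (f x) := by
    intro n f h
    cases n with
    | zero => exact h.1
    | succ n => exact h.1
  have him : ∀ n f, good n f → ∀ x, ∃ y, C.d n y = f (P.d n x) := by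
    intro n f h x
    cases n with
    | zero =>
      apply aC.ex0
      rw [h.2, aP.eps_d]
    | succ n => exact aC.ex n _ (h.2 x)
  have h0 : ∃ f, good 0 f := by
    obtain ⟨u, hu1, hu2⟩ := hP 0 (C.M 0) ℚ (C.ρ 0) 1 εC εP
      (fun g x => by rw [aC.inv]; rfl) (fun g x => by rw [aP.inv]; rfl)
      (fun m => by
        obtain ⟨y, hy⟩ := aC.onto
        exact ⟨εP m • y, by rw [map_smul, hy, smul_eq_mul, mul_one]⟩)
    exact ⟨u, hu1, hu2⟩
  have hs : ∀ n f, good n f → ∃ g, good (n + 1) g ∧ ∀ x, f (P.d n x) = C.d n (g x) := by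
    intro n f h
    obtain ⟨u, hu1, hu2⟩ := hP (n + 1) (C.M (n + 1)) (C.M n) (C.ρ (n + 1)) (C.ρ n) (C.d n)
      (f ∘ₗ P.d n) (C.d_eqv n)
      (fun g x => by rw [LinearMap.comp_apply, P.d_eqv, heqv n f h]; rfl)
      (fun m => him n f h m)
    refine ⟨u, ⟨hu1, fun x => ?_⟩, fun x => (hu2 x).symm⟩
    rw [hu2, LinearMap.comp_apply, P.dd, map_zero]
  obtain ⟨F, hF, hR⟩ := exists_seq good (fun n f g => ∀ x, f (P.d n x) = C.d n (g x)) h0 hs
  exact ⟨⟨F, fun n => heqv n (F n) (hF n), fun n x => hR n x⟩, fun x => (hF 0).2 x⟩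

/-- two equivariant chain maps with the same augmentation are equivariantly homotopic -/
theorem exists_homotopy (P C : EqCx Γ) (εC : C.M 0 →ₗ[ℚ] ℚ)
    (hP : ∀ n, EqLift (P.ρ n)) (aC : C.Acyc εC) (F F' : EqMap P C)
    (h : ∀ x, εC (F.f 0 x) = εC (F'.f 0 x)) :
    ∃ κ : ∀ n, P.M n →ₗ[ℚ] C.M (n + 1),
      (∀ n g x, κ n (P.ρ n g x) = C.ρ (n + 1) g (κ n x)) ∧
      (∀ x, F.f 0 x - F'.f 0 x = C.d 0 (κ 0 x)) ∧
      ∀ n x, F.f (n + 1) x - F'.f (n + 1) x = C.d (n + 1) (κ (n + 1) x) + κ n (P.d n x) := by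
  let good : ∀ n, (P.M n →ₗ[ℚ] C.M (n + 1)) → Prop := fun n κ =>
    (∀ g x, κ (P.ρ n g x) = C.ρ (n + 1) g (κ x)) ∧
      (∀ x, C.d n (F.f (n + 1) x - F'.f (n + 1) x - κ (P.d n x)) = 0) ∧
      ∀ e : n = 0, ∀ x : P.M 0, F.f 0 x - F'.f 0 x = C.d 0 ((e ▸ κ : P.M 0 →ₗ[ℚ] C.M (0 + 1)) x)
  have h0 : ∃ κ, good 0 κ := by
    obtain ⟨u, hu1, hu2⟩ := hP 0 (C.M 1) (C.M 0) (C.ρ 1) (C.ρ 0) (C.d 0) (F.f 0 - F'.f 0)
      (C.d_eqv 0)
      (fun g x => by
        rw [LinearMap.sub_apply, F.eqv, F'.eqv, LinearMap.sub_apply, map_sub])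
      (fun m => aC.ex0 _ (by rw [LinearMap.sub_apply, map_sub, h, sub_self]))
    refine ⟨u, hu1, fun x => ?_, fun _ x => (hu2 x).symm⟩
    rw [map_sub, map_sub, hu2, ← F.comm, ← F'.comm, LinearMap.sub_apply, sub_self]
  have hs : ∀ n κ, good n κ → ∃ κ', good (n + 1) κ' ∧
      ∀ x, F.f (n + 1) x - F'.f (n + 1) x - κ (P.d n x) = C.d (n + 1) (κ' x) := by
    rintro n κ ⟨h1, h2, -⟩
    obtain ⟨u, hu1, hu2⟩ := hP (n + 1) (C.M (n + 2)) (C.M (n + 1)) (C.ρ (n + 2)) (C.ρ (n + 1)) (C.d (n + 1))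
      (F.f (n + 1) - F'.f (n + 1) - κ ∘ₗ P.d n) (C.d_eqv (n + 1))
      (fun g x => by
        simp only [LinearMap.sub_apply, LinearMap.comp_apply]
        rw [F.eqv, F'.eqv, P.d_eqv, h1, map_sub, map_sub])
      (fun m => aC.ex n _ (h2 m))
    refine ⟨u, ⟨hu1, fun x => ?_, fun e => absurd e (Nat.succ_ne_zero n)⟩, fun x => (hu2 x).symm⟩
    rw [map_sub, map_sub, hu2, ← F.comm, ← F'.comm]
    simp only [LinearMap.sub_apply, LinearMap.comp_apply]
    rw [P.dd, map_zero, sub_zero, sub_self]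
  obtain ⟨κ, hκ, hR⟩ := exists_seq (A := fun n => P.M n →ₗ[ℚ] C.M (n + 1)) good
    (fun n κ κ' => ∀ x, F.f (n + 1) x - F'.f (n + 1) x - κ (P.d n x) = C.d (n + 1) (κ' x)) h0 hs
  refine ⟨κ, fun n => (hκ n).1, fun x => (hκ 0).2.2 rfl x, fun n x => ?_⟩
  rw [← hR n x]
  abel

end St16H
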