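import Pool.Agent.LibSt16.H2

/-!
[ST16 H3] cocycles along an equivariant chain map (over H2; helper60).

Plan. `θ : EqMap C P` by `exists_map`; `id - Ψ θ = d κ + κ d` on `C` and `id - θ Ψ = d μ + μ d` on `P` by `exists_homotopy` (identity
`EqMap`). (E): `f = φ ∘ θ`, `f (Ψ x) = φ (x - d μ x - μ d x) = φ x - φ (μ (d x))`, `ψ = - φ ∘ μ`. (R):
`f x = f (Ψ θ x) + f (d κ x) + f (κ d x) = ξ (d θ x) + 0 + f (κ (d x)) = ξ (θ (d x)) + f (κ (d x))`, `η = ξ ∘ θ_j + f ∘ κ_j`.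
-/

set_option autoImplicit false

noncomputable section

namespace St16H

variable {Γ : Type} [Group Γ]

/-- the identity -/
def EqMap.idm (P : EqCx Γ) : EqMap P P where
  f := fun _ => LinearMap.id
  eqv := fun _ _ _ => rfl
  comm := fun _ _ => rfl

theorem repE (P C : EqCx Γ) (εP : P.M 0 →ₗ[ℚ] ℚ) (εC : C.M 0 →ₗ[ℚ] ℚ)
    (hP : ∀ n, EqLift (P.ρ n)) (hC : ∀ n, EqLift (C.ρ n)) (aP : P.Acyc εP) (aC : C.Acyc εC)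
    (Ψ : EqMap P C) (hΨ : ∀ x, εC (Ψ.f 0 x) = εP x) (j : ℕ) (φ : P.M (j + 1) →ₗ[ℚ] ℝ)
    (iφ : InvFun (P.ρ (j + 1)) φ) (cφ : ∀ x, φ (P.d (j + 1) x) = 0) :
    ∃ (f : C.M (j + 1) →ₗ[ℚ] ℝ) (ψ : P.M j →ₗ[ℚ] ℝ), InvFun (C.ρ (j + 1)) f ∧
      (∀ x, f (C.d (j + 1) x) = 0) ∧ InvFun (P.ρ j) ψ ∧
      ∀ x, f (Ψ.f (j + 1) x) = φ x + ψ (P.d j x) := by
  obtain ⟨θ, hθ⟩ := exists_map C P εC εP hC aC aP
  obtain ⟨μ, iμ, -, hμ⟩ := exists_homotopy P P εP hP aP (EqMap.idm P) (θ.comp Ψ) (fun x => by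
    show εP x = εP (θ.f 0 (Ψ.f 0 x))
    rw [hθ, hΨ])
  refine ⟨φ.comp (θ.f (j + 1)), -(φ.comp (μ j)), ?_, ?_, ?_, ?_⟩
  · intro g x
    show φ (θ.f (j + 1) (C.ρ (j + 1) g x)) = φ (θ.f (j + 1) x)
    rw [θ.eqv]
    exact iφ g _
  · intro x
    show φ (θ.f (j + 1) (C.d (j + 1) x)) = 0
    rw [θ.comm]
    exact cφ _
  · intro g x
    show -(φ (μ j (P.ρ j g x))) = -(φ (μ j x))
    rw [iμ]
    exact congrArg Neg.neg (iφ g _)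
  · intro x
    have h1 : x - θ.f (j + 1) (Ψ.f (j + 1) x) = P.d (j + 1) (μ (j + 1) x) + μ j (P.d j x) := hμ j x
    have h2 := congrArg φ h1
    rw [map_sub, map_add, cφ] at h2
    show φ (θ.f (j + 1) (Ψ.f (j + 1) x)) = φ x + -(φ (μ j (P.d j x)))
    linarith

theorem repR (P C : EqCx Γ) (εP : P.M 0 →ₗ[ℚ] ℚ) (εC : C.M 0 →ₗ[ℚ] ℚ)
    (hP : ∀ n, EqLift (P.ρ n)) (hC : ∀ n, EqLift (C.ρ n)) (aP : P.Acyc εP) (aC : C.Acyc εC)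
    (Ψ : EqMap P C) (hΨ : ∀ x, εC (Ψ.f 0 x) = εP x) (j : ℕ) (f : C.M (j + 1) →ₗ[ℚ] ℝ)
    (jf : InvFun (C.ρ (j + 1)) f) (cf : ∀ x, f (C.d (j + 1) x) = 0) (ξ : P.M j →ₗ[ℚ] ℝ)
    (iξ : InvFun (P.ρ j) ξ) (h : ∀ x, f (Ψ.f (j + 1) x) = ξ (P.d j x)) :
    ∃ η : C.M j →ₗ[ℚ] ℝ, InvFun (C.ρ j) η ∧ ∀ x, f x = η (C.d j x) := by
  obtain ⟨θ, hθ⟩ := exists_map C P εC εP hC aC aP
  obtain ⟨κ, iκ, -, hκ⟩ := exists_homotopy C C εC hC aC (EqMap.idm C) (Ψ.comp θ) (fun x => by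
    show εC x = εC (Ψ.f 0 (θ.f 0 x))
    rw [hΨ, hθ])
  refine ⟨ξ.comp (θ.f j) + f.comp (κ j), ?_, ?_⟩
  · intro g x
    show ξ (θ.f j (C.ρ j g x)) + f (κ j (C.ρ j g x)) = ξ (θ.f j x) + f (κ j x)
    rw [θ.eqv, iκ]
    rw [iξ g, jf g]
  · intro x
    have h1 : x - Ψ.f (j + 1) (θ.f (j + 1) x) = C.d (j + 1) (κ (j + 1) x) + κ j (C.d j x) := hκ j x
    have h2 := congrArg f h1
    rw [map_sub, map_add, cf, h, ← θ.comm] at h2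
    show f x = ξ (θ.f j (C.d j x)) + f (κ j (C.d j x))
    linarith

end St16H
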