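import Pool.Agent.LibSt16.H0

/-!
[ST16 H4] functions on simplices and functionals on chains (helper60).

Plan. `Finsupp.induction_linear` / `Finsupp.lhom_ext`, `SS.bd_single`, `Finsupp.linearCombination_single`, casts `ℚ → ℝ`
(`Rat.smul_def`). `cb_cb`: apply `lin_cb` twice to `single s 1` and `S.bd_bd`.
-/

set_option autoImplicit false

noncomputable section

namespace St16H

variable {G : Type} [Group G] (S : SS G)

private theorem H4_ext {q : ℕ} {L L' : S.cx.M q →ₗ[ℚ] ℝ}
    (h : ∀ (s : S.Y q) (a : ℚ), L (Finsupp.single s a) = L' (Finsupp.single s a)) : L = L' :=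
  Finsupp.lhom_ext h

theorem SS.lin_single {q : ℕ} (f : S.Y q → ℝ) (s : S.Y q) (a : ℚ) :
    S.lin f (Finsupp.single s a) = (a : ℝ) * f s := by
  show Finsupp.linearCombination ℚ f (Finsupp.single s a) = _
  rw [Finsupp.linearCombination_single, Rat.smul_def]

theorem SS.lin_cb {q : ℕ} (f : S.Y q → ℝ) (x : S.cx.M (q + 1)) :
    S.lin (S.cb f) x = S.lin f (S.cx.d q x) := by
  have h : S.lin (S.cb f) = (S.lin f).comp (S.cx.d q) := by
    refine H4_ext S fun s a => ?_
    rw [S.lin_single]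
    have h1 : S.lin f (∑ i : Fin (q + 2), Finsupp.single (S.face q i s) ((-1 : ℚ) ^ (i : ℕ) * a)) =
        ∑ i : Fin (q + 2), S.lin f (Finsupp.single (S.face q i s) ((-1 : ℚ) ^ (i : ℕ) * a)) :=
      map_sum (S.lin f) _ _
    have h2 : (S.lin f).comp (S.cx.d q) (Finsupp.single s a) =
        S.lin f (∑ i : Fin (q + 2), Finsupp.single (S.face q i s) ((-1 : ℚ) ^ (i : ℕ) * a)) :=
      congrArg (S.lin f) (S.bd_single s a)
    rw [h2, h1]
    show (a : ℝ) * ∑ k : Fin (q + 2), (-1 : ℝ) ^ (k : ℕ) * f (S.face q k s) = _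
    rw [Finset.mul_sum]
    refine Finset.sum_congr rfl fun i _ => ?_
    rw [S.lin_single]
    push_cast
    ring
  exact LinearMap.congr_fun h x

theorem SS.cb_cb {q : ℕ} (f : S.Y q → ℝ) (s : S.Y (q + 2)) : S.cb (S.cb f) s = 0 := by
  have h1 := S.lin_single (S.cb (S.cb f)) s 1
  rw [S.lin_cb, S.lin_cb, S.cx.dd, map_zero, Rat.cast_one, one_mul] at h1
  exact h1.symm

theorem SS.lin_add {q : ℕ} (f h : S.Y q → ℝ) (x : S.cx.M q) :
    S.lin (fun s => f s + h s) x = S.lin f x + S.lin h x := by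
  have h1 : S.lin (fun s => f s + h s) = S.lin f + S.lin h := by
    refine H4_ext S fun s a => ?_
    rw [LinearMap.add_apply, S.lin_single, S.lin_single, S.lin_single]
    ring
  rw [h1]
  rfl

/-- every functional is given by a function -/
theorem SS.exists_fun {q : ℕ} (L : S.cx.M q →ₗ[ℚ] ℝ) : ∃ f : S.Y q → ℝ, (∀ x, S.lin f x = L x) ∧
    ∀ s, f s = L (Finsupp.single s 1) := by
  refine ⟨fun s => L (Finsupp.single s 1), fun x => ?_, fun s => rfl⟩
  have h1 : S.lin (fun s => L (Finsupp.single s 1)) = L := by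
    refine H4_ext S fun s a => ?_
    rw [S.lin_single]
    have h2 : (Finsupp.single s a : S.Y q →₀ ℚ) = a • Finsupp.single s 1 := by
      rw [Finsupp.smul_single, smul_eq_mul, mul_one]
    have h3 : L (Finsupp.single s a) = a • L (Finsupp.single s 1) :=
      (congrArg L h2).trans (L.map_smul a _)
    rw [h3, Rat.smul_def]
  rw [h1]

theorem SS.lin_ρ {q : ℕ} (f : S.Y q → ℝ) (g : G) (x : S.cx.M q) :
    S.lin f (S.cx.ρ q g x) = S.lin (fun s => f (g • s)) x := by
  have h1 : (S.lin f).comp (S.cx.ρ q g) = S.lin (fun s => f (g • s)) := by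
    refine H4_ext S fun s a => ?_
    rw [S.lin_single, LinearMap.comp_apply]
    have h2 : S.lin f (S.cx.ρ q g (Finsupp.single s a)) = S.lin f (Finsupp.single (g • s) a) :=
      congrArg (S.lin f) (S.cx_ρ_single q g s a)
    rw [h2, S.lin_single]
  exact LinearMap.congr_fun h1 x

theorem SS.lin_inj {q : ℕ} (f h : S.Y q → ℝ) (e : ∀ x, S.lin f x = S.lin h x) (s : S.Y q) : f s = h s := by
  have h1 := e (Finsupp.single s 1)
  rw [S.lin_single, S.lin_single, Rat.cast_one, one_mul, one_mul] at h1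
  exact h1

theorem SS.cb_smul {q : ℕ} (f : S.Y q → ℝ) (g : G) (s : S.Y (q + 1)) :
    S.cb (fun t => f (g • t)) s = S.cb f (g • s) := by
  show ∑ k : Fin (q + 2), (-1 : ℝ) ^ (k : ℕ) * f (g • S.face q k s) =
    ∑ k : Fin (q + 2), (-1 : ℝ) ^ (k : ℕ) * f (S.face q k (g • s))
  refine Finset.sum_congr rfl fun k _ => ?_
  rw [S.face_smul]

end St16H
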