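import Pool.Agent.LibSt16.H0

/-!
[ST16 HM2] adjointness of coboundary and `dsK` (helper60).

Plan. Write all sums as `tsum` or `finsum` over sets with finite support (`tsum` with `summable_of_finite_support` and
`Summable.tsum_comm` is convenient), or as `Finset` sums over explicit finite sets. With `F σ k = sgn k * f σ * h (dk k σ)` (invariant under
`Γ`: `F (g • σ) k = F σ k`), for each `k`:
`∑_σ c1 σ * F σ k = ∑_σ c1 σ * F σ k * ∑_g c0 (g • dk k σ) = ∑_g ∑_σ c1 σ * F σ k * c0 (dk k (g • σ))`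
`= ∑_g ∑_σ' c1 (g⁻¹ • σ') * F σ' k * c0 (dk k σ') = ∑_σ' F σ' k * c0 (dk k σ') * ∑_g c1 (g⁻¹ • σ') = ∑_σ' F σ' k * c0 (dk k σ')`.
Finiteness: `c1` has finite support and for each `σ` only finitely many `g` have `c0 (g • dk k σ) ≠ 0`; on the other side `c0` has
finite support and finitely many `σ'` have `dk k σ'` in it (`cof`). Then collect the `σ'` with `dk k σ' = τ`:
`∑_σ' F σ' k * c0 (dk k σ') = ∑_τ c0 τ * h τ * ∑_{σ', dk k σ' = τ} sgn k * f σ'`.
-/

set_option autoImplicit false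

noncomputable section

namespace St16H

variable {G X0 X1 K : Type} [Group G] [MulAction G X0] [MulAction G X1] [Fintype K] {Γ : Subgroup G}

/-- unfolding: one sum over the group on both sides -/
private theorem HM2_unfold (D : X1 → X0) (hD : ∀ (g : G) σ, D (g • σ) = g • D σ)
    {c0 : X0 → ℝ} {c1 : X1 → ℝ} (h0 : IsCut Γ c0) (h1 : IsCut Γ c1) (F : X1 → ℝ)
    (hF : Inv Γ F) : ∑ᶠ σ, c1 σ * F σ = ∑ᶠ σ, F σ * c0 (D σ) := by
  classical
  let Φ : X1 × Γ → ℝ := fun p => c1 p.1 * F p.1 * c0 ((p.2 : G) • D p.1)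
  have hΦ : (Function.support Φ).Finite := by
    refine Set.Finite.subset (Set.Finite.biUnion h1.supp
      (t := fun σ => (fun g : Γ => (σ, g)) '' {g : Γ | c0 ((g : G) • D σ) ≠ 0})
      fun σ _ => (h0.fin (D σ)).image _) ?_
    rintro ⟨σ, g⟩ hp
    rw [Function.mem_support] at hp
    change c1 σ * F σ * c0 ((g : G) • D σ) ≠ 0 at hp
    have e1 : c1 σ ≠ 0 := fun h => hp (by rw [h, zero_mul, zero_mul])
    have e2 : c0 ((g : G) • D σ) ≠ 0 := fun h => hp (by rw [h, mul_zero])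
    exact Set.mem_biUnion (Function.mem_support.2 e1) ⟨g, e2, rfl⟩
  have hA : ∑ᶠ σ, c1 σ * F σ = ∑ᶠ p, Φ p := by
    rw [finsum_curry Φ hΦ]
    refine finsum_congr fun σ => ?_
    change _ = ∑ᶠ g : Γ, c1 σ * F σ * c0 ((g : G) • D σ)
    rw [← mul_finsum _ _, h0.sum (D σ), mul_one]
  let e : X1 × Γ ≃ X1 × Γ :=
    { toFun := fun p => ((p.2 : G)⁻¹ • p.1, p.2)
      invFun := fun p => ((p.2 : G) • p.1, p.2)
      left_inv := fun p => by simp
      right_inv := fun p => by simp }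
  have hΦe : ∀ p, Φ (e p) = F p.1 * c0 (D p.1) * c1 ((p.2 : G)⁻¹ • p.1) := by
    rintro ⟨σ, g⟩
    change c1 ((g : G)⁻¹ • σ) * F ((g : G)⁻¹ • σ) * c0 ((g : G) • D ((g : G)⁻¹ • σ)) = _
    rw [hF _ (Γ.inv_mem g.2), hD, smul_inv_smul]
    ring
  have hΦe' : (Function.support fun p => Φ (e p)).Finite := by
    have h2 : (Function.support fun p => Φ (e p)) = e ⁻¹' Function.support Φ := rfl
    rw [h2]
    exact hΦ.preimage e.injective.injOn
  have hinv : ∀ σ, ∑ᶠ g : Γ, c1 ((g : G)⁻¹ • σ) = 1 := by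
    intro σ
    rw [← h1.sum σ, ← finsum_comp_equiv (Equiv.inv Γ)]
    refine finsum_congr fun g => ?_
    simp
  have hinvf : ∀ σ, (Function.support fun g : Γ => c1 ((g : G)⁻¹ • σ)).Finite := by
    intro σ
    have h3 : (Function.support fun g : Γ => c1 ((g : G)⁻¹ • σ)) =
        (Equiv.inv Γ) ⁻¹' {g : Γ | c1 ((g : G) • σ) ≠ 0} := by
      ext g
      simp
    rw [h3]
    exact (h1.fin σ).preimage (Equiv.inv Γ).injective.injOn
  rw [hA, ← finsum_comp_equiv e, finsum_curry _ hΦe']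
  refine finsum_congr fun σ => ?_
  calc ∑ᶠ g : Γ, Φ (e (σ, g)) = ∑ᶠ g : Γ, F σ * c0 (D σ) * c1 ((g : G)⁻¹ • σ) :=
        finsum_congr fun g => hΦe (σ, g)
    _ = F σ * c0 (D σ) * ∑ᶠ g : Γ, c1 ((g : G)⁻¹ • σ) := (mul_finsum _ _).symm
    _ = F σ * c0 (D σ) := by rw [hinv, mul_one]

theorem adj (dk : K → X1 → X0) (sgn : K → ℝ) (hdk : ∀ k (g : G) σ, dk k (g • σ) = g • dk k σ)
    (cof : ∀ τ, {σ | ∃ k, dk k σ = τ}.Finite) {c0 : X0 → ℝ} {c1 : X1 → ℝ} (h0 : IsCut Γ c0)
    (h1 : IsCut Γ c1) (f : X1 → ℝ) (hf : Inv Γ f) (h : X0 → ℝ) (hh : Inv Γ h) :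
    ∑ᶠ σ, c1 σ * (f σ * cbK dk sgn h σ) = ∑ᶠ τ, c0 τ * (h τ * dsK dk sgn f τ) := by
  classical
  let F : K → X1 → ℝ := fun k σ => sgn k * f σ * h (dk k σ)
  have hFinv : ∀ k, Inv Γ (F k) := by
    intro k g hg σ
    change sgn k * f (g • σ) * h (dk k (g • σ)) = sgn k * f σ * h (dk k σ)
    rw [hf g hg, hdk, hh g hg]
  -- left hand side
  have hL : ∑ᶠ σ, c1 σ * (f σ * cbK dk sgn h σ) = ∑ k, ∑ᶠ σ, c1 σ * F k σ := by
    rw [← finsum_sum_comm Finset.univ (fun σ k => c1 σ * F k σ) (fun k _ => by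
      refine h1.supp.subset fun σ hσ => ?_
      rw [Function.mem_support] at hσ ⊢
      exact fun h2 => hσ (by rw [h2, zero_mul]))]
    refine finsum_congr fun σ => ?_
    rw [← Finset.mul_sum]
    congr 1
    unfold cbK
    rw [Finset.mul_sum]
    exact Finset.sum_congr rfl fun k _ => by
      change f σ * (sgn k * h (dk k σ)) = sgn k * f σ * h (dk k σ)
      ring
  -- right hand side
  have hcofin : ∀ k, (Function.support fun σ => F k σ * c0 (dk k σ)).Finite := by
    intro k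
    refine Set.Finite.subset (Set.Finite.biUnion h0.supp fun τ _ => cof τ) fun σ hσ => ?_
    rw [Function.mem_support] at hσ
    refine Set.mem_biUnion (x := dk k σ) (Function.mem_support.2 fun h2 => hσ ?_) ⟨k, rfl⟩
    rw [h2, mul_zero]
  have hR : ∑ᶠ τ, c0 τ * (h τ * dsK dk sgn f τ) = ∑ k, ∑ᶠ σ, F k σ * c0 (dk k σ) := by
    let Ψ : X0 × X1 → ℝ := fun p =>
      c0 p.1 * (h p.1 * ∑ k, if dk k p.2 = p.1 then sgn k * f p.2 else 0)
    have hΨ : (Function.support Ψ).Finite := by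
      refine Set.Finite.subset (Set.Finite.biUnion h0.supp
        (t := fun τ => (fun σ : X1 => (τ, σ)) '' {σ | ∃ k, dk k σ = τ})
        fun τ _ => (cof τ).image _) ?_
      rintro ⟨τ, σ⟩ hp
      rw [Function.mem_support] at hp
      change c0 τ * (h τ * ∑ k, if dk k σ = τ then sgn k * f σ else 0) ≠ 0 at hp
      have e1 : c0 τ ≠ 0 := fun h => hp (by rw [h, zero_mul])
      have e2 : ∃ k, dk k σ = τ := by
        by_contra hno
        push Not at hno
        refine hp ?_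
        rw [Finset.sum_eq_zero fun k _ => if_neg (hno k), mul_zero, mul_zero]
      exact Set.mem_biUnion (Function.mem_support.2 e1) ⟨σ, e2, rfl⟩
    have hsupp : ∀ τ, (Function.support fun σ =>
        ∑ k, if dk k σ = τ then sgn k * f σ else 0).Finite := by
      intro τ
      refine (cof τ).subset fun σ hσ => ?_
      by_contra hno
      have hno' : ∀ k, dk k σ ≠ τ := fun k hk => hno ⟨k, hk⟩
      exact hσ (Finset.sum_eq_zero fun k _ => if_neg (hno' k))
    have hR1 : ∑ᶠ τ, c0 τ * (h τ * dsK dk sgn f τ) = ∑ᶠ p, Ψ p := by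
      rw [finsum_curry Ψ hΨ]
      refine finsum_congr fun τ => ?_
      change c0 τ * (h τ * ∑ᶠ σ, ∑ k, if dk k σ = τ then sgn k * f σ else 0) =
        ∑ᶠ σ, c0 τ * (h τ * ∑ k, if dk k σ = τ then sgn k * f σ else 0)
      rw [← mul_assoc, mul_finsum _ _]
      exact finsum_congr fun σ => mul_assoc _ _ _
    have hΨ' : (Function.support fun p : X1 × X0 => Ψ (Equiv.prodComm X1 X0 p)).Finite := by
      have h2 : (Function.support fun p : X1 × X0 => Ψ (Equiv.prodComm X1 X0 p)) =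
        (Equiv.prodComm X1 X0) ⁻¹' Function.support Ψ := rfl
      rw [h2]
      exact hΨ.preimage (Equiv.prodComm X1 X0).injective.injOn
    rw [hR1, ← finsum_comp_equiv (Equiv.prodComm X1 X0), finsum_curry _ hΨ',
      ← finsum_sum_comm Finset.univ (fun σ k => F k σ * c0 (dk k σ)) (fun k _ => hcofin k)]
    refine finsum_congr fun σ => ?_
    change ∑ᶠ τ, c0 τ * (h τ * ∑ k, if dk k σ = τ then sgn k * f σ else 0) = _
    have h3 : ∀ τ, c0 τ * (h τ * ∑ k, if dk k σ = τ then sgn k * f σ else 0) =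
        ∑ k, if dk k σ = τ then c0 τ * (h τ * (sgn k * f σ)) else 0 := by
      intro τ
      rw [Finset.mul_sum, Finset.mul_sum]
      refine Finset.sum_congr rfl fun k _ => ?_
      split_ifs
      · rfl
      · rw [mul_zero, mul_zero]
    rw [finsum_congr h3, finsum_sum_comm Finset.univ _ (fun k _ => by
      refine (Set.finite_singleton (dk k σ)).subset fun τ hτ => ?_
      rw [Function.mem_support] at hτ
      rw [Set.mem_singleton_iff]
      by_contra hne
      exact hτ (if_neg fun h4 => hne h4.symm))]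
    refine Finset.sum_congr rfl fun k _ => ?_
    rw [finsum_eq_single _ (dk k σ) (fun τ hτ => if_neg fun h4 => hτ h4.symm), if_pos rfl]
    change _ = sgn k * f σ * h (dk k σ) * c0 (dk k σ)
    ring
  rw [hL, hR]
  exact Finset.sum_congr rfl fun k _ => HM2_unfold (dk k) (hdk k) h0 h1 (F k) (hFinv k)

end St16H
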