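import Pool.Agent.LibSt16.H0

/-!
[ST16 HM3] positivity; equivariance and linearity of `dsK`, `cbK` (helper60).
-/

set_option autoImplicit false

noncomputable section

namespace St16H

variable {G X0 X1 K : Type} [Group G] [MulAction G X0] [MulAction G X1] [Fintype K] {Γ : Subgroup G}

theorem pos {c : X0 → ℝ} (hc : IsCut Γ c) (f : X0 → ℝ) (hf : Inv Γ f)
    (h : ∑ᶠ x, c x * (f x * f x) = 0) (x : X0) : f x = 0 := by
  by_contra hx
  have h1 : ∑ᶠ g : Γ, c ((g : G) • x) ≠ 0 := by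
    rw [hc.sum x]; exact one_ne_zero
  obtain ⟨g, hg⟩ : ∃ g : Γ, c ((g : G) • x) ≠ 0 := by
    by_contra hn
    push Not at hn
    apply h1
    rw [finsum_congr hn, finsum_zero]
  have hsub : (Function.support fun x => c x * (f x * f x)) ⊆ ↑hc.supp.toFinset := by
    intro y hy
    rw [Set.Finite.coe_toFinset]
    intro hcy
    apply hy
    show c y * (f y * f y) = 0
    rw [hcy, zero_mul]
  rw [finsum_eq_sum_of_support_subset _ hsub] at h
  have h2 := (Finset.sum_eq_zero_iff_of_nonneg (fun y _ =>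
    mul_nonneg (hc.nonneg y) (mul_self_nonneg (f y)))).mp h
  have h3 : ((g : G) • x) ∈ hc.supp.toFinset := by
    rw [Set.Finite.mem_toFinset]
    exact hg
  have h4 := h2 _ h3
  rw [hf g g.2 x] at h4
  rcases mul_eq_zero.mp h4 with h5 | h5
  · exact hg h5
  · exact hx (mul_self_eq_zero.mp h5)

theorem dsK_smul (dk : K → X1 → X0) (sgn : K → ℝ) (hdk : ∀ k (g : G) σ, dk k (g • σ) = g • dk k σ)
    (f : X1 → ℝ) (g : G) (τ : X0) : dsK dk sgn (fun σ => f (g • σ)) τ = dsK dk sgn f (g • τ) := by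
  classical
  unfold dsK
  rw [← finsum_comp_equiv (MulAction.toPerm g) (f := fun σ => ∑ k, if dk k σ = g • τ then sgn k * f σ else 0)]
  refine finsum_congr fun σ => Finset.sum_congr rfl fun k _ => ?_
  have h : dk k (MulAction.toPerm g σ) = g • τ ↔ dk k σ = τ := by
    show dk k (g • σ) = g • τ ↔ _
    rw [hdk]
    exact smul_left_cancel_iff g
  by_cases h1 : dk k σ = τ
  · rw [if_pos h1, if_pos (h.mpr h1)]
    rfl
  · rw [if_neg h1, if_neg (fun h2 => h1 (h.mp h2))]

theorem cbK_smul (dk : K → X1 → X0) (sgn : K → ℝ) (hdk : ∀ k (g : G) σ, dk k (g • σ) = g • dk k σ)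
    (h : X0 → ℝ) (g : G) (σ : X1) : cbK dk sgn (fun τ => h (g • τ)) σ = cbK dk sgn h (g • σ) := by
  unfold cbK
  refine Finset.sum_congr rfl fun k _ => ?_
  rw [hdk]

theorem dsK_add (dk : K → X1 → X0) (sgn : K → ℝ) (cof : ∀ τ, {σ | ∃ k, dk k σ = τ}.Finite)
    (f f' : X1 → ℝ) (τ : X0) :
    dsK dk sgn (fun σ => f σ + f' σ) τ = dsK dk sgn f τ + dsK dk sgn f' τ := by
  classical
  have hs : ∀ f : X1 → ℝ, (Function.support fun σ => ∑ k, if dk k σ = τ then sgn k * f σ else 0).Finite := by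
    intro f
    refine (cof τ).subset fun σ hσ => ?_
    obtain ⟨k, _, hk⟩ := Finset.exists_ne_zero_of_sum_ne_zero hσ
    refine ⟨k, ?_⟩
    by_contra h1
    exact hk (if_neg h1)
  unfold dsK
  rw [← finsum_add_distrib (hs f) (hs f')]
  refine finsum_congr fun σ => ?_
  rw [← Finset.sum_add_distrib]
  refine Finset.sum_congr rfl fun k _ => ?_
  by_cases h1 : dk k σ = τ
  · rw [if_pos h1, if_pos h1, if_pos h1, mul_add]
  · rw [if_neg h1, if_neg h1, if_neg h1, add_zero]

theorem dsK_smul' (dk : K → X1 → X0) (sgn : K → ℝ) (a : ℝ) (f : X1 → ℝ) (τ : X0) :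
    dsK dk sgn (fun σ => a * f σ) τ = a * dsK dk sgn f τ := by
  classical
  unfold dsK
  rw [← smul_eq_mul a (finsum _), smul_finsum]
  refine finsum_congr fun σ => ?_
  rw [smul_eq_mul, Finset.mul_sum]
  refine Finset.sum_congr rfl fun k _ => ?_
  by_cases h1 : dk k σ = τ
  · rw [if_pos h1, if_pos h1]
    ring
  · rw [if_neg h1, if_neg h1, mul_zero]

end St16H
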