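import Mathlib

/-!
[ST16 HM4] projection lemma, pure linear algebra (only Mathlib; helper60).

Plan. `A (h, η) = B (T h) (T η)` on the finite dimensional space `W`; symmetric, `A (h, h) ≥ 0`. The functional `λ η = B f (T η)` vanishes on
the kernel of `A`: if `A (h, η) = 0` for all `η` then `B (T h) (T h) = 0`, and by Cauchy-Schwarz (`0 ≤ B (f + t T h) (f + t T h)` for
all real `t`) `B f (T h) = 0`. In finite dimension the range of the symmetric map `A : W → Dual W` is the annihilator of its kernel
(`LinearMap.range_dualMap_eq_dualAnnihilator_ker` or a dimension count). So `λ = - A h`.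
-/

set_option autoImplicit false

noncomputable section

namespace St16H

theorem proj_lemma {W V : Type} [AddCommGroup W] [Module ℝ W] [FiniteDimensional ℝ W] [AddCommGroup V]
    [Module ℝ V] (T : W →ₗ[ℝ] V) (B : V →ₗ[ℝ] V →ₗ[ℝ] ℝ) (symm : ∀ x y, B x y = B y x)
    (nonneg : ∀ x, 0 ≤ B x x) (f : V) : ∃ h : W, ∀ η : W, B (f + T h) (T η) = 0 := by
  classical
  set A : W →ₗ[ℝ] Module.Dual ℝ W := (B.comp T).compr₂ LinearMap.id |>.compl₁₂ LinearMap.id T with hA
  have hAa : ∀ x y, A x y = B (T x) (T y) := fun x y => rfl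
  set lam : Module.Dual ℝ W := -(B f).comp T with hlam
  have hl : ∀ x, lam x = - B f (T x) := fun x => rfl
  have hker : lam ∈ (LinearMap.ker A).dualAnnihilator := by
    rw [Submodule.mem_dualAnnihilator]
    intro x hx
    have h0 : B (T x) (T x) = 0 := by
      rw [← hAa, LinearMap.mem_ker.1 hx]
      rfl
    rw [hl]
    by_contra hc
    have hc' : B f (T x) ≠ 0 := fun h => hc (by rw [h, neg_zero])
    obtain ⟨t, ht⟩ : ∃ t : ℝ, t * B f (T x) = -(B f f + 1) / 2 :=
      ⟨-(B f f + 1) / 2 / B f (T x), by field_simp⟩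
    have key := nonneg (f + t • T x)
    simp only [map_add, LinearMap.add_apply, map_smul, LinearMap.smul_apply, smul_eq_mul, h0, symm (T x) f,
      mul_zero, add_zero, ht] at key
    linarith
  rw [← LinearMap.range_dualMap_eq_dualAnnihilator_ker] at hker
  obtain ⟨φ, hφ⟩ := hker
  obtain ⟨h, rfl⟩ := (Module.evalEquiv ℝ W).surjective φ
  refine ⟨h, fun η => ?_⟩
  have h1 : A η h = lam η := by
    rw [← hφ]
    rfl
  rw [hAa, hl] at h1
  rw [map_add, LinearMap.add_apply, symm (T h) (T η), h1]
  ring

end St16H
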