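import Pool.Agent.LibSt16.HM1
import Pool.Agent.LibSt16.HM2
import Pool.Agent.LibSt16.HM3
import Pool.Agent.LibSt16.HM4

/-!
[ST16 HM5] harmonic representatives (over HM1 - HM4; helper60).

Plan. Cut-offs `c0`, `c1` by `FinAct.cut`. `harmonic_zero`: `∑ᶠ c1 f f = ∑ᶠ c1 (f * cbK h) = ∑ᶠ c0 (h * dsK f) = 0` by `adj`, then `pos`.
`exists_harmonic`: `W` = submodule of `X0 → ℝ` of the `Γ`-invariant functions: finite dimensional (restriction to the finite set `T` of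
`FinAct.orb` is injective into `T → ℝ`); `V` = the `Γ`-invariant functions on `X1`; `T = cbK` (invariant because `dk` is equivariant);
`B f f' = ∑ᶠ c1 (f * f')` (bilinear: finite support). `proj_lemma` gives `h` with `B (f0 + cbK h) (cbK η) = 0` for all `η ∈ W`. With
`F = f0 + cbK h`, `η = dsK F` (invariant by `dsK_smul`): `∑ᶠ c0 (η * η) = 0` by `adj`, so `η = 0` by `pos`.
-/

set_option autoImplicit false

noncomputable section

namespace St16H

variable {G X0 X1 K : Type} [Group G] [MulAction G X0] [MulAction G X1] [Fintype K] {Γ : Subgroup G}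

private theorem HM5_inv_cb (dk : K → X1 → X0) (sgn : K → ℝ) (hdk : ∀ k (g : G) σ, dk k (g • σ) = g • dk k σ)
    (h : X0 → ℝ) (hh : Inv Γ h) : Inv Γ (cbK dk sgn h) := by
  intro g hg σ
  rw [← cbK_smul dk sgn hdk h g σ]
  congr 1
  funext τ
  exact hh g hg τ

private theorem HM5_inv_ds (dk : K → X1 → X0) (sgn : K → ℝ) (hdk : ∀ k (g : G) σ, dk k (g • σ) = g • dk k σ)
    (f : X1 → ℝ) (hf : Inv Γ f) : Inv Γ (dsK dk sgn f) := by
  intro g hg τ
  rw [← dsK_smul dk sgn hdk f g τ]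
  congr 1
  funext σ
  exact hf g hg σ

private theorem HM5_add (dk : K → X1 → X0) (sgn : K → ℝ) (h h' : X0 → ℝ) (σ : X1) :
    cbK dk sgn (fun τ => h τ + h' τ) σ = cbK dk sgn h σ + cbK dk sgn h' σ := by
  unfold cbK
  rw [← Finset.sum_add_distrib]
  exact Finset.sum_congr rfl fun k _ => by ring

private theorem HM5_mul (dk : K → X1 → X0) (sgn : K → ℝ) (a : ℝ) (h : X0 → ℝ) (σ : X1) :
    cbK dk sgn (fun τ => a * h τ) σ = a * cbK dk sgn h σ := by
  unfold cbK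
  rw [Finset.mul_sum]
  exact Finset.sum_congr rfl fun k _ => by ring

/-- invariant functions -/
private def HM5_V (X : Type) [MulAction G X] (Γ : Subgroup G) : Submodule ℝ (X → ℝ) where
  carrier := {f | Inv Γ f}
  add_mem' := by
    intro f f' hf hf' g hg x
    show f (g • x) + f' (g • x) = f x + f' x
    rw [hf g hg x, hf' g hg x]
  zero_mem' := fun _ _ _ => rfl
  smul_mem' := by
    intro a f hf g hg x
    show a * f (g • x) = a * f x
    rw [hf g hg x]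

private theorem HM5_fd (a0 : FinAct X0 Γ) : FiniteDimensional ℝ (HM5_V X0 Γ) := by
  obtain ⟨T, hT, hT'⟩ := a0.orb
  have : Finite T := hT
  let r : HM5_V X0 Γ →ₗ[ℝ] (T → ℝ) :=
    { toFun := fun f t => (f : X0 → ℝ) t
      map_add' := fun _ _ => rfl
      map_smul' := fun _ _ => rfl }
  refine FiniteDimensional.of_injective r fun f f' h => ?_
  apply Subtype.ext
  funext x
  obtain ⟨g, hg, t, ht, rfl⟩ := hT' x
  have h1 : (f : X0 → ℝ) t = (f' : X0 → ℝ) t := congrFun h ⟨t, ht⟩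
  rw [f.2 g hg t, f'.2 g hg t, h1]

private theorem HM5_sum {X : Type} [MulAction G X] {c : X → ℝ} (hc : IsCut Γ c) (u : X → ℝ) :
    ∑ᶠ x, c x * u x = ∑ x ∈ hc.supp.toFinset, c x * u x := by
  apply finsum_eq_sum_of_support_subset
  intro x hx
  rw [Set.Finite.coe_toFinset]
  rw [Function.mem_support] at hx ⊢
  intro h
  exact hx (by rw [h, zero_mul])

theorem exists_harmonic (a0 : FinAct X0 Γ) (a1 : FinAct X1 Γ) (dk : K → X1 → X0) (sgn : K → ℝ)
    (hdk : ∀ k (g : G) σ, dk k (g • σ) = g • dk k σ) (cof : ∀ τ, {σ | ∃ k, dk k σ = τ}.Finite)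
    (f : X1 → ℝ) (hf : Inv Γ f) :
    ∃ h : X0 → ℝ, Inv Γ h ∧ ∀ τ, dsK dk sgn (fun σ => f σ + cbK dk sgn h σ) τ = 0 := by
  classical
  obtain ⟨c0, h0⟩ := a0.cut
  obtain ⟨c1, h1⟩ := a1.cut
  have := HM5_fd a0
  let T : HM5_V X0 Γ →ₗ[ℝ] HM5_V X1 Γ :=
    { toFun := fun h => ⟨cbK dk sgn h, HM5_inv_cb dk sgn hdk h h.2⟩
      map_add' := fun h h' => Subtype.ext (funext fun σ => HM5_add dk sgn h h' σ)
      map_smul' := fun a h => Subtype.ext (funext fun σ => HM5_mul dk sgn a h σ) }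
  let B : HM5_V X1 Γ →ₗ[ℝ] HM5_V X1 Γ →ₗ[ℝ] ℝ :=
    LinearMap.mk₂ ℝ (fun u v => ∑ σ ∈ h1.supp.toFinset, c1 σ * ((u : X1 → ℝ) σ * (v : X1 → ℝ) σ))
      (fun u u' v => by
        rw [← Finset.sum_add_distrib]
        refine Finset.sum_congr rfl fun σ _ => ?_
        show c1 σ * (((u : X1 → ℝ) σ + (u' : X1 → ℝ) σ) * (v : X1 → ℝ) σ) = _
        ring)
      (fun a u v => by
        rw [smul_eq_mul, Finset.mul_sum]
        refine Finset.sum_congr rfl fun σ _ => ?_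
        show c1 σ * ((a * (u : X1 → ℝ) σ) * (v : X1 → ℝ) σ) = _
        ring)
      (fun u v v' => by
        rw [← Finset.sum_add_distrib]
        refine Finset.sum_congr rfl fun σ _ => ?_
        show c1 σ * ((u : X1 → ℝ) σ * ((v : X1 → ℝ) σ + (v' : X1 → ℝ) σ)) = _
        ring)
      (fun a u v => by
        rw [smul_eq_mul, Finset.mul_sum]
        refine Finset.sum_congr rfl fun σ _ => ?_
        show c1 σ * ((u : X1 → ℝ) σ * (a * (v : X1 → ℝ) σ)) = _
        ring)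
  have hB : ∀ u v : HM5_V X1 Γ, B u v = ∑ σ ∈ h1.supp.toFinset, c1 σ * ((u : X1 → ℝ) σ * (v : X1 → ℝ) σ) :=
    fun u v => rfl
  obtain ⟨h, hh⟩ := proj_lemma T B
    (fun u v => by
      rw [hB, hB]
      exact Finset.sum_congr rfl fun σ _ => by ring)
    (fun u => by
      rw [hB]
      exact Finset.sum_nonneg fun σ _ => mul_nonneg (h1.nonneg σ) (mul_self_nonneg _)) ⟨f, hf⟩
  refine ⟨h, h.2, ?_⟩
  set F : X1 → ℝ := fun σ => f σ + cbK dk sgn h σ with hF
  have hFi : Inv Γ F := by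
    intro g hg σ
    show f (g • σ) + cbK dk sgn h (g • σ) = f σ + cbK dk sgn h σ
    rw [hf g hg σ, HM5_inv_cb dk sgn hdk h h.2 g hg σ]
  have hη : Inv Γ (dsK dk sgn F) := HM5_inv_ds dk sgn hdk F hFi
  have key := adj dk sgn hdk cof h0 h1 F hFi (dsK dk sgn F) hη
  have e := hh ⟨dsK dk sgn F, hη⟩
  rw [hB] at e
  rw [HM5_sum h1 (fun σ => F σ * cbK dk sgn (dsK dk sgn F) σ)] at key
  have e' : ∑ σ ∈ h1.supp.toFinset, c1 σ * (F σ * cbK dk sgn (dsK dk sgn F) σ) = 0 := e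
  rw [e'] at key
  exact fun τ => pos h0 (dsK dk sgn F) hη key.symm τ

theorem harmonic_zero (a0 : FinAct X0 Γ) (a1 : FinAct X1 Γ) (dk : K → X1 → X0) (sgn : K → ℝ)
    (hdk : ∀ k (g : G) σ, dk k (g • σ) = g • dk k σ) (cof : ∀ τ, {σ | ∃ k, dk k σ = τ}.Finite)
    (f : X1 → ℝ) (hd : ∀ τ, dsK dk sgn f τ = 0) (h : X0 → ℝ) (hh : Inv Γ h)
    (e : ∀ σ, f σ = cbK dk sgn h σ) (σ : X1) : f σ = 0 := by
  obtain ⟨c0, h0⟩ := a0.cut
  obtain ⟨c1, h1⟩ := a1.cut
  have hf : Inv Γ f := by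
    have : f = cbK dk sgn h := funext e
    rw [this]
    exact HM5_inv_cb dk sgn hdk h hh
  have key := adj dk sgn hdk cof h0 h1 f hf h hh
  have e1 : ∑ᶠ τ, c0 τ * (h τ * dsK dk sgn f τ) = 0 := by
    rw [← finsum_zero (α := X0) (M := ℝ)]
    refine finsum_congr fun τ => ?_
    rw [hd τ, mul_zero, mul_zero]
  rw [e1] at key
  refine pos h1 f hf ?_ σ
  rw [← key]
  refine finsum_congr fun σ => ?_
  rw [← e σ]

end St16H
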