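import Pool.Agent.LibSt16.H1
import Pool.Agent.LibSt16.H3
import Pool.Agent.LibSt16.H4
import Pool.Agent.LibSt16.HM5

/-!
LibSt16/H8 (helper60): invariant classes have invariant cocycle representatives (harmonic cochains).
-/

set_option autoImplicit false

noncomputable section

namespace St16H

theorem EqCx.Acyc.res {Γ Δ : Type} [Group Γ] [Group Δ] {C : EqCx Γ} {ε : C.M 0 →ₗ[ℚ] ℚ}
    (h : C.Acyc ε) (θ : Δ →* Γ) : (C.res θ).Acyc ε where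
  inv := fun g x => h.inv (θ g) x
  eps_d := h.eps_d
  onto := h.onto
  ex0 := h.ex0
  ex := h.ex

theorem EqCx.ρ_mul {Γ : Type} [Group Γ] (C : EqCx Γ) (n : ℕ) (g h : Γ) (x : C.M n) :
    C.ρ n (g * h) x = C.ρ n g (C.ρ n h x) := by
  rw [map_mul]
  rfl

variable {G : Type} [Group G]

theorem FinAct.eqlift (S : SS G) {Γ : Subgroup G} {q : ℕ} (h : FinAct (S.Y q) Γ) :
    EqLift ((S.cx.res Γ.subtype).ρ q) := by
  refine S.eqlift Γ.subtype q fun s => ?_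
  refine (Set.Finite.preimage (f := fun g : Γ => (g : G)) ?_ (h.stab s)).subset ?_
  · exact Subtype.val_injective.injOn
  · intro g hg
    exact ⟨g.2, hg⟩

/-- `repE` over a subgroup -/
theorem repE_res (P C : EqCx G) (εP : P.M 0 →ₗ[ℚ] ℚ) (εC : C.M 0 →ₗ[ℚ] ℚ) (H : Subgroup G)
    (hP : ∀ n, EqLift ((P.res H.subtype).ρ n)) (hC : ∀ n, EqLift ((C.res H.subtype).ρ n))
    (aP : P.Acyc εP) (aC : C.Acyc εC) (Ψ : EqMap P C) (hΨ : ∀ x, εC (Ψ.f 0 x) = εP x) (j : ℕ)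
    (φ : P.M (j + 1) →ₗ[ℚ] ℝ) (iφ : InvFun (P.ρ (j + 1)) φ) (cφ : ∀ x, φ (P.d (j + 1) x) = 0) :
    ∃ (f : C.M (j + 1) →ₗ[ℚ] ℝ) (ψ : P.M j →ₗ[ℚ] ℝ), (∀ g ∈ H, ∀ x, f (C.ρ (j + 1) g x) = f x) ∧
      (∀ x, f (C.d (j + 1) x) = 0) ∧ (∀ g ∈ H, ∀ x, ψ (P.ρ j g x) = ψ x) ∧
      ∀ x, f (Ψ.f (j + 1) x) = φ x + ψ (P.d j x) := by
  obtain ⟨f, ψ, h1, h2, h3, h4⟩ := repE (P.res H.subtype) (C.res H.subtype) εP εC hP hC
    (aP.res _) (aC.res _) (Ψ.res H.subtype) hΨ j φ (fun g x => iφ g x) cφ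
  exact ⟨f, ψ, fun g hg x => h1 ⟨g, hg⟩ x, h2, fun g hg x => h3 ⟨g, hg⟩ x, h4⟩

/-- `repR` along a homomorphism -/
theorem repR_res {Δ : Type} [Group Δ] (P : EqCx Δ) (C : EqCx G) (εP : P.M 0 →ₗ[ℚ] ℚ)
    (εC : C.M 0 →ₗ[ℚ] ℚ) (θ : Δ →* G)
    (hP : ∀ n, EqLift (P.ρ n)) (hC : ∀ n, EqLift ((C.res θ).ρ n))
    (aP : P.Acyc εP) (aC : C.Acyc εC) (Ψ : EqMap P (C.res θ)) (hΨ : ∀ x, εC (Ψ.f 0 x) = εP x)
    (j : ℕ) (f : C.M (j + 1) →ₗ[ℚ] ℝ) (jf : ∀ g x, f (C.ρ (j + 1) (θ g) x) = f x)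
    (cf : ∀ x, f (C.d (j + 1) x) = 0) (ξ : P.M j →ₗ[ℚ] ℝ)
    (iξ : InvFun (P.ρ j) ξ) (h : ∀ x, f (Ψ.f (j + 1) x) = ξ (P.d j x)) :
    ∃ η : C.M j →ₗ[ℚ] ℝ, (∀ g x, η (C.ρ j (θ g) x) = η x) ∧ ∀ x, f x = η (C.d j x) := by
  obtain ⟨η, h1, h2⟩ := repR P (C.res θ) εP εC hP hC aP (aC.res _) Ψ hΨ j f jf cf ξ iξ h
  exact ⟨η, h1, h2⟩

theorem SS.lin_ext (S : SS G) {q : ℕ} {L L' : S.cx.M q →ₗ[ℚ] ℝ}
    (h : ∀ (s : S.Y q) (a : ℚ), L (Finsupp.single s a) = L' (Finsupp.single s a)) : L = L' :=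
  Finsupp.lhom_ext h

theorem SS.lin_zero (S : SS G) {q : ℕ} (x : S.cx.M q) : S.lin (fun _ : S.Y q => (0 : ℝ)) x = 0 := by
  have h : S.lin (fun _ : S.Y q => (0 : ℝ)) = 0 := by
    refine S.lin_ext fun s a => ?_
    rw [S.lin_single, mul_zero]
    rfl
  rw [h]
  rfl

theorem SS.lin_neg (S : SS G) {q : ℕ} (f : S.Y q → ℝ) (x : S.cx.M q) :
    S.lin (fun s => (-1 : ℝ) * f s) x = - S.lin f x := by
  have h : S.lin (fun s => (-1 : ℝ) * f s) = - S.lin f := by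
    refine S.lin_ext fun s a => (S.lin_single _ s a).trans ?_
    exact (by ring : (a : ℝ) * (-1 * f s) = -((a : ℝ) * f s)).trans
      (congrArg Neg.neg (S.lin_single f s a)).symm
  rw [h]
  rfl

/-- a function from an `H`-invariant functional is `H`-invariant -/
theorem SS.exists_inv_fun (S : SS G) {q : ℕ} (L : S.cx.M q →ₗ[ℚ] ℝ) (H : Subgroup G)
    (hL : ∀ g ∈ H, ∀ x, L (S.cx.ρ q g x) = L x) :
    ∃ f : S.Y q → ℝ, (∀ x, S.lin f x = L x) ∧ Inv H f := by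
  obtain ⟨f, h1, h2⟩ := S.exists_fun L
  refine ⟨f, h1, fun g hg s => ?_⟩
  rw [h2, h2]
  exact (congrArg L (S.cx_ρ_single _ g s 1)).symm.trans (hL g hg _)

theorem harm (S : SS G) (Γ : Subgroup G) (aS : S.cx.Acyc S.eps)
    (act : ∀ q, FinAct (S.Y q) Γ)
    (cof : ∀ q (t : S.Y q), {s : S.Y (q + 1) | ∃ i, S.face q i s = t}.Finite)
    (com : ∀ g : G, ∃ H : Subgroup G, H ≤ Γ ∧ H.relIndex Γ ≠ 0 ∧ ∀ x ∈ H, g * x * g⁻¹ ∈ Γ)
    (P : EqCx G) (εP : P.M 0 →ₗ[ℚ] ℚ) (aP : P.Acyc εP)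
    (lP : ∀ (H : Subgroup G) n, EqLift ((P.res H.subtype).ρ n))
    (Ψ : EqMap P S.cx) (hΨ : ∀ x, S.eps (Ψ.f 0 x) = εP x)
    (j : ℕ) (φ : P.M (j + 1) →ₗ[ℚ] ℝ) (iφ : InvFun (P.ρ (j + 1)) φ)
    (cφ : ∀ x, φ (P.d (j + 1) x) = 0) :
    ∃ (f : S.Y (j + 1) → ℝ) (ψ : P.M j →ₗ[ℚ] ℝ), (∀ (g : G) s, f (g • s) = f s) ∧
      (∀ s, S.cb f s = 0) ∧ (∀ g ∈ Γ, ∀ x, ψ (P.ρ j g x) = ψ x) ∧
      (∀ x, S.lin f (Ψ.f (j + 1) x) = φ x + ψ (P.d j x)) ∧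
      ∀ h : S.Y j → ℝ, Inv Γ h → (∀ s, f s = S.cb h s) → ∀ s, f s = 0 := by
  have hface : ∀ q (i : Fin (q + 2)) (g : G) (s : S.Y (q + 1)), S.face q i (g • s) = g • S.face q i s :=
    fun q i g s => S.face_smul q i g s
  -- a representative over `Γ`
  obtain ⟨L0, ψ0, iL0, cL0, iψ0, e0⟩ := repE_res P S.cx εP S.eps Γ
    (lP Γ) (fun q => (act q).eqlift S) aP aS Ψ hΨ j φ iφ cφ
  obtain ⟨f0, hf0, if0⟩ := S.exists_inv_fun L0 Γ iL0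
  obtain ⟨h0, ih0, dh0⟩ := exists_harmonic (act j) (act (j + 1)) (S.face j)
    (fun i => (-1 : ℝ) ^ (i : ℕ)) (fun i g s => hface j i g s) (cof j) f0 if0
  have inv_lin : ∀ (q : ℕ) (h : S.Y q → ℝ) (g : G), (∀ s, h (g • s) = h s) →
      ∀ x, S.lin h (S.cx.ρ q g x) = S.lin h x := by
    intro q h g hg x
    rw [S.lin_ρ]
    congr 2
    funext s
    exact hg s
  let f : S.Y (j + 1) → ℝ := fun s => f0 s + S.cb h0 s
  let ψ : P.M j →ₗ[ℚ] ℝ := ψ0 + (S.lin h0).comp (Ψ.f j)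
  have hf : ∀ x, S.lin f x = L0 x + S.lin h0 (S.cx.d j x) := by
    intro x
    rw [S.lin_add, hf0, S.lin_cb]
  have cf : ∀ x, S.lin f (S.cx.d (j + 1) x) = 0 := by
    intro x
    rw [hf, S.cx.dd, map_zero, add_zero]
    exact cL0 x
  have eΨ : ∀ x, S.lin f (Ψ.f (j + 1) x) = φ x + ψ (P.d j x) := by
    intro x
    rw [hf, ← Ψ.comm j x, e0]
    show _ = φ x + (ψ0 (P.d j x) + S.lin h0 (Ψ.f j (P.d j x)))
    ring
  have iψ : ∀ g ∈ Γ, ∀ x, ψ (P.ρ j g x) = ψ x := by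
    intro g hg x
    show ψ0 (P.ρ j g x) + S.lin h0 (Ψ.f j (P.ρ j g x)) = ψ0 x + S.lin h0 (Ψ.f j x)
    rw [iψ0 g hg x, Ψ.eqv, inv_lin j h0 g (fun s => ih0 g hg s)]
  have if' : Inv Γ f := by
    intro g hg s
    show f0 (g • s) + S.cb h0 (g • s) = f0 s + S.cb h0 s
    rw [if0 g hg s, ← S.cb_smul]
    congr 2
    funext t
    exact ih0 g hg t
  have df : ∀ τ, dsK (S.face j) (fun i => (-1 : ℝ) ^ (i : ℕ)) f τ = 0 := dh0
  refine ⟨f, ψ, ?_, ?_, iψ, eΨ, ?_⟩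
  · -- invariance under all of `G`
    intro g s
    obtain ⟨H, hH, hi, hc⟩ := com g
    have conj : ∀ x ∈ H, ∀ (q : ℕ) (t : S.Y q), g • x • t = (g * x * g⁻¹) • g • t := by
      intro x _ q t
      rw [smul_smul, smul_smul, inv_mul_cancel_right]
    let u : S.Y (j + 1) → ℝ := fun t => f (g • t) + (-1 : ℝ) * f t
    have hu : ∀ x, S.lin u x = S.lin f (S.cx.ρ (j + 1) g x) - S.lin f x := by
      intro x
      rw [S.lin_add, S.lin_ρ, S.lin_neg]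
      ring
    let ξ : P.M j →ₗ[ℚ] ℝ := ψ.comp (P.ρ j g) - ψ
    have iu : ∀ (x : H) z, S.lin u (S.cx.ρ (j + 1) (H.subtype x) z) = S.lin u z := by
      intro x z
      refine inv_lin _ _ _ (fun t => ?_) z
      show f (g • (x : G) • t) + (-1 : ℝ) * f ((x : G) • t) = f (g • t) + (-1 : ℝ) * f t
      rw [conj x x.2, if' _ (hc x x.2), if' _ (hH x.2)]
    have cu : ∀ z, S.lin u (S.cx.d (j + 1) z) = 0 := by
      intro z
      rw [hu, ← S.cx.d_eqv, cf, cf, sub_zero]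
    have iξ : ∀ (x : H) (z : P.M j), ξ (P.ρ j x z) = ξ z := by
      intro x z
      show ψ (P.ρ j g (P.ρ j (x : G) z)) - ψ (P.ρ j (x : G) z) = ψ (P.ρ j g z) - ψ z
      have h1 : P.ρ j g (P.ρ j (x : G) z) = P.ρ j (g * x * g⁻¹) (P.ρ j g z) := by
        have h2 := P.ρ_mul j g x z
        have h3 := P.ρ_mul j (g * x * g⁻¹) g z
        rw [inv_mul_cancel_right] at h3
        exact h2.symm.trans h3
      rw [h1, iψ _ (hc x x.2), iψ _ (hH x.2)]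
    have eu : ∀ z, S.lin u (Ψ.f (j + 1) z) = ξ (P.d j z) := by
      intro z
      show S.lin u (Ψ.f (j + 1) z) = ψ (P.ρ j g (P.d j z)) - ψ (P.d j z)
      have h1 : φ (P.ρ (j + 1) g z) = φ z := iφ g z
      rw [hu, ← Ψ.eqv, eΨ, eΨ, P.d_eqv, h1]
      ring
    obtain ⟨η, iη, hη⟩ := repR_res (P.res H.subtype) S.cx εP S.eps H.subtype (lP H)
      (fun q => ((act q).of_finite_index H hH hi).eqlift S) (aP.res _) aS
      (Ψ.res H.subtype) hΨ j (S.lin u) iu cu ξ iξ eu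
    obtain ⟨h, hh, ih⟩ := S.exists_inv_fun η H fun x hx z => iη ⟨x, hx⟩ z
    have ecb : ∀ t, u t = S.cb h t := by
      intro t
      refine S.lin_inj u (S.cb h) (fun x => ?_) t
      rw [S.lin_cb, hh]
      exact hη x
    have du : ∀ τ, dsK (S.face j) (fun i => (-1 : ℝ) ^ (i : ℕ)) u τ = 0 := by
      intro τ
      have h1 := dsK_add (S.face j) (fun i => (-1 : ℝ) ^ (i : ℕ)) (cof j) (fun t => f (g • t))
        (fun t => (-1 : ℝ) * f t) τ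
      have h2 := dsK_smul (S.face j) (fun i => (-1 : ℝ) ^ (i : ℕ)) (fun i g s => hface j i g s) f g τ
      have h3 := dsK_smul' (S.face j) (fun i => (-1 : ℝ) ^ (i : ℕ)) (-1) f τ
      rw [h2, h3, df, df, mul_zero, add_zero] at h1
      exact h1
    have := harmonic_zero ((act j).of_finite_index H hH hi) ((act (j + 1)).of_finite_index H hH hi)
      (S.face j) (fun i => (-1 : ℝ) ^ (i : ℕ)) (fun i g s => hface j i g s) (cof j) u du h ih ecb s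
    have h4 : f (g • s) + (-1 : ℝ) * f s = 0 := this
    linarith
  · intro s
    have : ∀ x, S.lin (S.cb f) x = S.lin (fun _ => (0 : ℝ)) x := by
      intro x
      rw [S.lin_cb, cf, S.lin_zero]
    exact S.lin_inj _ _ this s
  · intro h ih e
    exact harmonic_zero (act j) (act (j + 1)) (S.face j) (fun i => (-1 : ℝ) ^ (i : ℕ))
      (fun i g s => hface j i g s) (cof j) f df h ih e

end St16H
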