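import Pool.Agent.LibSt16.HCu

/-!
[ST16 HC1] identities of homogeneous cubes (helper60). Model: ST16_L3a.lean of helper26 (team store; ins_ins, face_face,
face_eq_of_indep, face_Dg_of_indep: the same proofs).
-/

set_option autoImplicit false

noncomputable section

namespace St16H

open St16 (ins z0)

variable {G H : Type} {q : ℕ}

private theorem ins_same (k : ℕ) (b : Bool) (s : ℕ → Bool) : ins k b s k = b := by
  simp [ins]

private theorem ins_lt (k : ℕ) (b : Bool) (s : ℕ → Bool) (i : ℕ) (h : i < k) : ins k b s i = s i := by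
  simp [ins, h]

private theorem ins_gt (k : ℕ) (b : Bool) (s : ℕ → Bool) (i : ℕ) (h : k < i) :
    ins k b s i = s (i - 1) := by
  have h1 : ¬ i < k := by omega
  have h2 : i ≠ k := by omega
  simp [ins, h1, h2]

private theorem ins_ins (j k : ℕ) (a b : Bool) (s : ℕ → Bool) (h : j ≤ k) :
    ins (k + 1) b (ins j a s) = ins j a (ins k b s) := by
  funext i
  rcases lt_trichotomy i j with h1 | h1 | h1
  · rw [ins_lt _ _ _ _ (by omega), ins_lt _ _ _ _ h1, ins_lt _ _ _ _ h1, ins_lt _ _ _ _ (by omega)]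
  · subst h1
    rw [ins_lt _ _ _ _ (by omega), ins_same, ins_same]
  · rw [ins_gt j a (ins k b s) i h1]
    rcases lt_trichotomy i (k + 1) with h2 | h2 | h2
    · rw [ins_lt _ _ _ _ h2, ins_gt j a s i h1, ins_lt _ _ _ _ (by omega)]
    · subst h2
      rw [ins_same, Nat.add_sub_cancel, ins_same]
    · rw [ins_gt _ _ _ _ h2, ins_gt _ _ _ _ (by omega), ins_gt _ _ _ _ (by omega)]

theorem bdc_single (x : HCube G (q + 1)) (a : ℚ) : bdc G q (Finsupp.single x a) =
    ∑ k : Fin (q + 1), (Finsupp.single (x.face true k) ((-1 : ℚ) ^ (k : ℕ) * a) -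
      Finsupp.single (x.face false k) ((-1 : ℚ) ^ (k : ℕ) * a)) := by
  unfold bdc
  rw [Finsupp.lsum_single, LinearMap.sum_apply]
  refine Finset.sum_congr rfl fun k _ => ?_
  rw [LinearMap.smul_apply, LinearMap.sub_apply, Finsupp.lsingle_apply, Finsupp.lsingle_apply,
    smul_sub, Finsupp.smul_single, Finsupp.smul_single, smul_eq_mul]

theorem HCube.face_face (x : HCube G (q + 2)) (a b : Bool) (j k : Fin (q + 1)) (h : j ≤ k) :
    (x.face b k.succ).face a j = (x.face a j.castSucc).face b k := by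
  apply HCube.ext
  funext s
  show x.y (ins (k.succ : ℕ) b (ins (j : ℕ) a s)) = x.y (ins (j.castSucc : ℕ) a (ins (k : ℕ) b s))
  rw [Fin.val_succ, Fin.val_castSucc, ins_ins _ _ _ _ _ h]

/-- cancellation in pairs -/
private theorem cancel {A : Type} [AddCommGroup A] [Module ℚ A] (n : ℕ) (f : Fin (n + 2) → Fin (n + 1) → A)
    (h : ∀ j k : Fin (n + 1), j ≤ k → f k.succ j = f j.castSucc k) :
    ∑ i : Fin (n + 2), ∑ j : Fin (n + 1), ((-1 : ℚ) ^ (i : ℕ) * (-1) ^ (j : ℕ)) • f i j = 0 := by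
  rw [← Finset.sum_product', ← Finset.sum_filter_add_sum_filter_not _ (fun p : Fin (n + 2) × Fin (n + 1) =>
    (p.2 : ℕ) < (p.1 : ℕ))]
  rw [add_eq_zero_iff_eq_neg, ← Finset.sum_neg_distrib]
  refine Finset.sum_bij' (i := fun p hp => (p.2.castSucc, p.1.pred (by
      intro h0
      have := (Finset.mem_filter.1 hp).2
      rw [h0] at this
      exact absurd this (Nat.not_lt_zero _))))
    (j := fun p hp => (p.2.succ, ⟨p.1, by
      have h1 := (Finset.mem_filter.1 hp).2
      have h2 := p.2.isLt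
      omega⟩)) ?_ ?_ ?_ ?_ ?_
  · rintro ⟨i, j⟩ hp
    have h1 : (j : ℕ) < (i : ℕ) := (Finset.mem_filter.1 hp).2
    refine Finset.mem_filter.2 ⟨Finset.mem_univ _, ?_⟩
    simp only [Fin.val_castSucc, Fin.val_pred]
    omega
  · rintro ⟨i, j⟩ hp
    have h1 : ¬ (j : ℕ) < (i : ℕ) := (Finset.mem_filter.1 hp).2
    refine Finset.mem_filter.2 ⟨Finset.mem_univ _, ?_⟩
    simp only [Fin.val_succ]
    omega
  · rintro ⟨i, j⟩ hp
    simp
  · rintro ⟨i, j⟩ hp
    simp
  · rintro ⟨i, j⟩ hp
    have h1 : (j : ℕ) < (i : ℕ) := (Finset.mem_filter.1 hp).2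
    have hi : i ≠ 0 := by
      intro h0
      rw [h0] at h1
      exact absurd h1 (Nat.not_lt_zero _)
    obtain ⟨k, rfl⟩ := Fin.exists_succ_eq.2 hi
    have hjk : j ≤ k := by
      have : (j : ℕ) < (k : ℕ) + 1 := by rw [Fin.val_succ] at h1; exact h1
      exact Fin.le_def.2 (by omega)
    simp only [Fin.pred_succ]
    rw [h j k hjk, ← neg_smul]
    congr 1
    rw [Fin.val_succ, Fin.val_castSucc, pow_succ]
    ring

theorem bdc_bdc (z : HCube G (q + 2) →₀ ℚ) : bdc G q (bdc G (q + 1) z) = 0 := by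
  have h : (bdc G q).comp (bdc G (q + 1)) = 0 := by
    refine Finsupp.lhom_ext fun x a => ?_
    rw [LinearMap.comp_apply, bdc_single, map_sum]
    have h1 : ∀ i : Fin (q + 2), bdc G q (Finsupp.single (x.face true i) ((-1 : ℚ) ^ (i : ℕ) * a) -
        Finsupp.single (x.face false i) ((-1 : ℚ) ^ (i : ℕ) * a)) =
        ∑ j : Fin (q + 1), ((-1 : ℚ) ^ (i : ℕ) * (-1) ^ (j : ℕ)) •
          (Finsupp.single ((x.face true i).face true j) a - Finsupp.single ((x.face true i).face false j) a
            - Finsupp.single ((x.face false i).face true j) a +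
            Finsupp.single ((x.face false i).face false j) a) := by
      intro i
      rw [map_sub, bdc_single, bdc_single, ← Finset.sum_sub_distrib]
      refine Finset.sum_congr rfl fun j _ => ?_
      simp only [smul_sub, smul_add, Finsupp.smul_single, smul_eq_mul]
      have e : (-1 : ℚ) ^ (j : ℕ) * ((-1) ^ (i : ℕ) * a) = (-1) ^ (i : ℕ) * (-1) ^ (j : ℕ) * a := by ring
      rw [e]
      abel
    rw [Finset.sum_congr rfl fun i _ => h1 i]
    rw [cancel q (fun i j => Finsupp.single ((x.face true i).face true j) a -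
      Finsupp.single ((x.face true i).face false j) a
            - Finsupp.single ((x.face false i).face true j) a +
            Finsupp.single ((x.face false i).face false j) a)]
    · rfl
    · intro j k hjk
      simp only [HCube.face_face _ _ _ _ _ hjk]
      abel
  exact LinearMap.congr_fun h z

private theorem face_eq_of_indep (x : HCube G (q + 1)) (k : Fin (q + 1))
    (h : ∀ s s' : ℕ → Bool, (∀ i, i ≠ (k : ℕ) → s i = s' i) → x.y s = x.y s') :
    x.face true k = x.face false k := by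
  apply HCube.ext
  funext s
  refine h _ _ fun i hi => ?_
  rcases lt_trichotomy i (k : ℕ) with h1 | h1 | h1
  · rw [ins_lt _ _ _ _ h1, ins_lt _ _ _ _ h1]
  · exact absurd h1 hi
  · rw [ins_gt _ _ _ _ h1, ins_gt _ _ _ _ h1]

private theorem face_Dg_of_indep (x : HCube G (q + 1)) (k j : Fin (q + 1)) (b : Bool) (hjk : j ≠ k)
    (h : ∀ s s' : ℕ → Bool, (∀ i, i ≠ (k : ℕ) → s i = s' i) → x.y s = x.y s') :
    (x.face b j).Dg := by
  have hjk' : (j : ℕ) ≠ (k : ℕ) := fun e => hjk (Fin.ext e)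
  have hj := j.isLt
  have hk := k.isLt
  refine ⟨if (k : ℕ) < (j : ℕ) then (k : ℕ) else (k : ℕ) - 1, ?_, ?_⟩
  · split_ifs <;> omega
  · intro s s' hs
    show x.y (ins (j : ℕ) b s) = x.y (ins (j : ℕ) b s')
    apply h
    intro i hi
    rcases lt_trichotomy i (j : ℕ) with h1 | h1 | h1
    · rw [ins_lt _ _ _ _ h1, ins_lt _ _ _ _ h1]
      apply hs
      split_ifs <;> omega
    · rw [h1, ins_same, ins_same]
    · rw [ins_gt _ _ _ _ h1, ins_gt _ _ _ _ h1]
      apply hs
      split_ifs <;> omega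

theorem bdc_DgS (z : HCube G (q + 1) →₀ ℚ) (h : z ∈ DgS G (q + 1)) : bdc G q z ∈ DgS G q := by
  have hle : DgS G (q + 1) ≤ (DgS G q).comap (bdc G q) := by
    unfold DgS
    rw [Finsupp.supported_eq_span_single, Submodule.span_le]
    rintro _ ⟨x, ⟨k, hk, hx⟩, rfl⟩
    show bdc G q (Finsupp.single x 1) ∈ DgS G q
    rw [bdc_single]
    refine Submodule.sum_mem _ fun j _ => ?_
    by_cases hj : j = ⟨k, hk⟩
    · rw [hj, face_eq_of_indep x ⟨k, hk⟩ hx, sub_self]
      exact Submodule.zero_mem _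
    · refine Submodule.sub_mem _ ?_ ?_
      · exact Finsupp.single_mem_supported ℚ _ (face_Dg_of_indep x ⟨k, hk⟩ j true hj hx)
      · exact Finsupp.single_mem_supported ℚ _ (face_Dg_of_indep x ⟨k, hk⟩ j false hj hx)
  exact hle h

theorem HCube.map_face (θ : G → H) (x : HCube G (q + 1)) (b : Bool) (k : Fin (q + 1)) :
    (x.map θ).face b k = (x.face b k).map θ := rfl

theorem HCube.map_Dg (θ : G → H) (x : HCube G q) (h : x.Dg) : (x.map θ).Dg := by
  obtain ⟨k, hk, h⟩ := h
  exact ⟨k, hk, fun s s' hs => congrArg θ (h s s' hs)⟩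

section group
variable [Group G]

theorem HCube.act_face (g : G) (x : HCube G (q + 1)) (b : Bool) (k : Fin (q + 1)) :
    (x.act g).face b k = (x.face b k).act g := rfl

theorem HCube.act_one (x : HCube G q) : x.act (1 : G) = x :=
  HCube.ext (funext fun _ => one_mul _)

theorem HCube.act_mul (g h : G) (x : HCube G q) : x.act (g * h) = (x.act h).act g :=
  HCube.ext (funext fun _ => mul_assoc _ _ _)

theorem HCube.act_Dg_iff (g : G) (x : HCube G q) : (x.act g).Dg ↔ x.Dg := by
  refine ⟨fun h => ?_, fun h => HCube.map_Dg _ x h⟩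
  have h1 := HCube.map_Dg (fun a => g⁻¹ * a) (x.act g) h
  have h2 : (x.act g).map (fun a => g⁻¹ * a) = x :=
    HCube.ext (funext fun _ => inv_mul_cancel_left _ _)
  rwa [h2] at h1

theorem HCube.act_free (g : G) (x : HCube G q) (h : x.act g = x) : g = 1 := by
  have h1 : g * x.y z0 = x.y z0 := congrFun (congrArg HCube.y h) z0
  exact mul_eq_right.1 h1

theorem HCube.cone_face_zero (x : HCube G q) : x.cone.face true 0 = x := by
  apply HCube.ext
  funext s
  show (if ins 0 true s 0 then x.y (fun i => ins 0 true s (i + 1)) else 1) = x.y s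
  rw [ins_same, if_pos rfl]
  congr 1

theorem HCube.cone_face_zero' (x : HCube G q) : x.cone.face false 0 = HCube.const q 1 := by
  apply HCube.ext
  funext s
  show (if ins 0 false s 0 then x.y (fun i => ins 0 false s (i + 1)) else 1) = 1
  rw [ins_same]
  rfl

theorem HCube.cone_face_succ (x : HCube G (q + 1)) (b : Bool) (k : Fin (q + 1)) :
    x.cone.face b k.succ = (x.face b k).cone := by
  apply HCube.ext
  funext s
  show (if ins (k.succ : ℕ) b s 0 then x.y (fun i => ins (k.succ : ℕ) b s (i + 1)) else 1) =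
    (if s 0 then x.y (ins (k : ℕ) b (fun i => s (i + 1))) else 1)
  rw [Fin.val_succ, ins_lt _ _ _ 0 (Nat.succ_pos _)]
  have h1 : (fun i => ins ((k : ℕ) + 1) b s (i + 1)) = ins (k : ℕ) b (fun i => s (i + 1)) := by
    funext i
    rcases lt_trichotomy i (k : ℕ) with h1 | h1 | h1
    · rw [ins_lt _ _ _ _ h1, ins_lt _ _ _ _ (by omega)]
    · rw [h1, ins_same, ins_same]
    · rw [ins_gt _ _ _ _ h1, ins_gt _ _ _ _ (by omega)]
      congr 1
      omega
  rw [h1]

theorem HCube.cone_Dg (x : HCube G q) (h : x.Dg) : x.cone.Dg := by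
  obtain ⟨k, hk, h⟩ := h
  refine ⟨k + 1, Nat.succ_lt_succ hk, fun s s' hs => ?_⟩
  show (if s 0 then x.y (fun i => s (i + 1)) else 1) = (if s' 0 then x.y (fun i => s' (i + 1)) else 1)
  rw [hs 0 (Nat.succ_ne_zero k).symm, h (fun i => s (i + 1)) (fun i => s' (i + 1)) fun i hi =>
    hs (i + 1) (fun e => hi (Nat.succ_injective e))]

theorem HCube.const_Dg (a : G) : (HCube.const (q + 1) a).Dg :=
  ⟨0, Nat.succ_pos q, fun _ _ _ => rfl⟩

end group

end St16H
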