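import Pool.Agent.LibSt16.HC1
import Pool.Agent.LibSt16.H0

/-!
LibSt16/HC2 (helper60): the normalised homogeneous cubical complex of a group. DEFINITIONS (over HC1).
-/

set_option autoImplicit false

noncomputable section

namespace St16H

variable (G : Type) [Group G]

/-- translation of chains -/
def actL (q : ℕ) (g : G) : (HCube G q →₀ ℚ) →ₗ[ℚ] (HCube G q →₀ ℚ) :=
  Finsupp.lmapDomain ℚ ℚ (HCube.act g)

variable {G}

theorem actL_single (q : ℕ) (g : G) (x : HCube G q) (a : ℚ) :
    actL G q g (Finsupp.single x a) = Finsupp.single (x.act g) a := by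
  show Finsupp.mapDomain _ _ = _
  rw [Finsupp.mapDomain_single]

theorem single_mem_DgS {G : Type} {q : ℕ} {x : HCube G q} (h : x.Dg) (a : ℚ) :
    Finsupp.single x a ∈ DgS G q := Finsupp.single_mem_supported ℚ _ h

/-- to show `DgS ≤ N` it is enough to consider single degenerate cubes -/
theorem DgS_le {G : Type} {q : ℕ} {N : Submodule ℚ (HCube G q →₀ ℚ)}
    (h : ∀ x : HCube G q, x.Dg → Finsupp.single x (1 : ℚ) ∈ N) : DgS G q ≤ N := by
  unfold DgS
  rw [Finsupp.supported_eq_span_single, Submodule.span_le]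
  rintro _ ⟨x, hx, rfl⟩
  exact h x hx

theorem actL_DgS (q : ℕ) (g : G) : DgS G q ≤ (DgS G q).comap (actL G q g) := by
  refine DgS_le fun x hx => ?_
  rw [Submodule.mem_comap, actL_single]
  exact single_mem_DgS ((HCube.act_Dg_iff g x).2 hx) _

theorem actL_bdc (q : ℕ) (g : G) (z : HCube G (q + 1) →₀ ℚ) :
    bdc G q (actL G (q + 1) g z) = actL G q g (bdc G q z) := by
  induction z using Finsupp.induction_linear with
  | zero => simp
  | add x y hx hy => simp only [map_add, hx, hy]
  | single s a =>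
    rw [actL_single, bdc_single, bdc_single, map_sum]
    refine Finset.sum_congr rfl fun k _ => ?_
    rw [map_sub, actL_single, actL_single, HCube.act_face, HCube.act_face]

/-- normalised cubical chains -/
abbrev CM (G : Type) (q : ℕ) : Type := (HCube G q →₀ ℚ) ⧸ DgS G q

/-- translation -/
def ρL (q : ℕ) (g : G) : CM G q →ₗ[ℚ] CM G q := (DgS G q).mapQ (DgS G q) (actL G q g) (actL_DgS q g)

/-- boundary -/
def dL (G : Type) (q : ℕ) : CM G (q + 1) →ₗ[ℚ] CM G q :=
  (DgS G (q + 1)).mapQ (DgS G q) (bdc G q) fun z hz => bdc_DgS z hz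

/-- the class of a chain -/
def mk {G : Type} {q : ℕ} (z : HCube G q →₀ ℚ) : CM G q := Submodule.Quotient.mk z

theorem ρL_mk (q : ℕ) (g : G) (z : HCube G q →₀ ℚ) : ρL q g (mk z) = mk (actL G q g z) := rfl

theorem dL_mk {G : Type} (q : ℕ) (z : HCube G (q + 1) →₀ ℚ) : dL G q (mk z) = mk (bdc G q z) := rfl

theorem mk_surj {G : Type} {q : ℕ} (x : CM G q) : ∃ z, x = mk z := by
  obtain ⟨z, rfl⟩ := Submodule.Quotient.mk_surjective _ x
  exact ⟨z, rfl⟩

theorem mk_add {G : Type} {q : ℕ} (z z' : HCube G q →₀ ℚ) : mk (z + z') = mk z + mk z' := rfl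

theorem mk_zero {G : Type} {q : ℕ} : (mk (0 : HCube G q →₀ ℚ)) = 0 := rfl

theorem mk_eq_zero {G : Type} {q : ℕ} (z : HCube G q →₀ ℚ) : mk z = 0 ↔ z ∈ DgS G q :=
  Submodule.Quotient.mk_eq_zero _

theorem actL_one (q : ℕ) (z : HCube G q →₀ ℚ) : actL G q 1 z = z := by
  induction z using Finsupp.induction_linear with
  | zero => simp
  | add x y hx hy => rw [map_add, hx, hy]
  | single s a => rw [actL_single, HCube.act_one]

theorem actL_mul (q : ℕ) (g h : G) (z : HCube G q →₀ ℚ) :
    actL G q (g * h) z = actL G q g (actL G q h z) := by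
  induction z using Finsupp.induction_linear with
  | zero => simp
  | add x y hx hy => rw [map_add, map_add, map_add, hx, hy]
  | single s a => rw [actL_single, actL_single, actL_single, HCube.act_mul]

variable (G)

/-- the normalised cubical chain complex of `G` -/
def cubCx : EqCx G where
  M := fun q => CM G q
  ρ := fun q =>
    { toFun := fun g => ρL q g
      map_one' := by
        refine LinearMap.ext fun x => ?_
        obtain ⟨z, rfl⟩ := mk_surj x
        rw [ρL_mk, actL_one]
        rfl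
      map_mul' := fun g h => by
        refine LinearMap.ext fun x => ?_
        obtain ⟨z, rfl⟩ := mk_surj x
        show ρL q (g * h) (mk z) = ρL q g (ρL q h (mk z))
        rw [ρL_mk, ρL_mk, ρL_mk, actL_mul] }
  d := fun q => dL G q
  d_eqv := fun q g x => by
    obtain ⟨z, rfl⟩ := mk_surj x
    show dL G q (ρL (q + 1) g (mk z)) = ρL q g (dL G q (mk z))
    rw [ρL_mk, dL_mk, dL_mk, ρL_mk, actL_bdc]
  dd := fun q x => by
    obtain ⟨z, rfl⟩ := mk_surj x
    show dL G q (dL G (q + 1) (mk z)) = 0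
    rw [dL_mk, dL_mk, bdc_bdc]
    rfl

theorem cubCx_ρ (q : ℕ) (g : G) (z : HCube G q →₀ ℚ) : (cubCx G).ρ q g (mk z) = mk (actL G q g z) := rfl

theorem cubCx_d (q : ℕ) (z : HCube G (q + 1) →₀ ℚ) : (cubCx G).d q (mk z) = mk (bdc G q z) := rfl

/-- augmentation: sum of the coefficients -/
def cubEps : (cubCx G).M 0 →ₗ[ℚ] ℚ :=
  (DgS G 0).liftQ (Finsupp.linearCombination ℚ (fun _ : HCube G 0 => (1 : ℚ))) (DgS_le fun x hx => by
    obtain ⟨k, hk, _⟩ := hx
    exact absurd hk (Nat.not_lt_zero k))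

variable {G}

/-- functional given by a function on cubes which vanishes on degenerate cubes -/
def cubLin {q : ℕ} (φ : HCube G q → ℝ) (hφ : ∀ x, x.Dg → φ x = 0) : (cubCx G).M q →ₗ[ℚ] ℝ :=
  (DgS G q).liftQ (Finsupp.linearCombination ℚ φ) (DgS_le fun x hx => by
    rw [LinearMap.mem_ker, Finsupp.linearCombination_single, one_smul]
    exact hφ x hx)

theorem cubLin_mk {q : ℕ} (φ : HCube G q → ℝ) (hφ : ∀ x, x.Dg → φ x = 0) (z : HCube G q →₀ ℚ) :
    cubLin φ hφ (mk z) = Finsupp.linearCombination ℚ φ z := rfl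

/-- functoriality on chains -/
def mapL {Δ : Type} (θ : Δ → G) (q : ℕ) : (HCube Δ q →₀ ℚ) →ₗ[ℚ] (HCube G q →₀ ℚ) :=
  Finsupp.lmapDomain ℚ ℚ (HCube.map θ)

theorem mapL_single {Δ : Type} (θ : Δ → G) (q : ℕ) (x : HCube Δ q) (a : ℚ) :
    mapL θ q (Finsupp.single x a) = Finsupp.single (x.map θ) a := by
  show Finsupp.mapDomain _ _ = _
  rw [Finsupp.mapDomain_single]

theorem mapL_DgS {Δ : Type} [Group Δ] (θ : Δ → G) (q : ℕ) : DgS Δ q ≤ (DgS G q).comap (mapL θ q) := by
  refine DgS_le fun x hx => ?_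
  rw [Submodule.mem_comap, mapL_single]
  exact single_mem_DgS (HCube.map_Dg θ x hx) _

/-- functoriality -/
def cubMap {Δ : Type} [Group Δ] (θ : Δ →* G) : EqMap (cubCx Δ) ((cubCx G).res θ) where
  f := fun q => (DgS Δ q).mapQ (DgS G q) (mapL θ q) (mapL_DgS θ q)
  eqv := by
    intro q g x
    obtain ⟨z, rfl⟩ := mk_surj x
    show mk (mapL θ q (actL Δ q g z)) = mk (actL G q (θ g) (mapL θ q z))
    congr 1
    induction z using Finsupp.induction_linear with
    | zero => simp
    | add x y hx hy => simp only [map_add, hx, hy]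
    | single s a =>
      rw [actL_single, mapL_single, mapL_single, actL_single]
      congr 1
      exact HCube.ext (funext fun s' => map_mul θ g (s.y s'))
  comm := by
    intro q x
    obtain ⟨z, rfl⟩ := mk_surj x
    show mk (mapL θ q (bdc Δ q z)) = mk (bdc G q (mapL θ (q + 1) z))
    congr 1
    induction z using Finsupp.induction_linear with
    | zero => simp
    | add x y hx hy => simp only [map_add, hx, hy]
    | single s a =>
      rw [bdc_single, map_sum, mapL_single, bdc_single]
      refine Finset.sum_congr rfl fun k _ => ?_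
      rw [map_sub, mapL_single, mapL_single, HCube.map_face, HCube.map_face]

theorem cubMap_mk {Δ : Type} [Group Δ] (θ : Δ →* G) (q : ℕ) (z : HCube Δ q →₀ ℚ) :
    (cubMap θ).f q (mk z) = mk (mapL θ q z) := rfl

end St16H
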