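import Pool.Agent.LibSt16.HC2
import Pool.Agent.LibSt16.H1

/-!
[ST16 HC3] the cubical complex is acyclic and has the lifting property over subgroups (helper60). Over HC1, H1 (cite their statements).

Plan `cub_acyc`. `coneL : chains of HCube G q → chains of HCube G (q+1)`, `lmapDomain` of `HCube.cone`; it maps `DgS` to `DgS` (`cone_Dg`).
On a single cube (`bdc_single`, `Fin.sum_univ_succ`, `cone_face_zero`, `cone_face_zero'`, `cone_face_succ`):
`bdc q (coneL z) + coneL (bdc (q-1) z) = z - (const cube) * (sum of coefficients)` for `q ≥ 1`, where the constant cube of dimension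
`≥ 1` is degenerate (`const_Dg`); `bdc 0 (coneL z) = z - single (const 0 1) (sum of coefficients)` for `q = 0`. `mk_surj`, `mk_eq_zero`,
`dL_mk`. `inv`, `eps_d`: by `Finsupp.induction_linear`; `onto`: a single constant cube.
Plan `cub_eqlift`. `eqlift_perm` with `X = HCube G q`, `a g x = x.act (θ g)` (free: `act_free`), then `eqlift_retract` with
`r = mk`, `i` = `liftQ` of the map which sends `single x 1` to `single x 1` if `x` is not degenerate and to `0` otherwise
(equivariant by `act_Dg_iff`).
-/

set_option autoImplicit false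

noncomputable section

namespace St16H

variable (G : Type) [Group G]

/-- the cone on chains -/
private def HC3_coneL (q : ℕ) : (HCube G q →₀ ℚ) →ₗ[ℚ] (HCube G (q + 1) →₀ ℚ) :=
  Finsupp.lmapDomain ℚ ℚ HCube.cone

/-- sum of the coefficients -/
private def HC3_sum (q : ℕ) : (HCube G q →₀ ℚ) →ₗ[ℚ] ℚ :=
  Finsupp.linearCombination ℚ (fun _ : HCube G q => (1 : ℚ))

private theorem HC3_coneL_single (q : ℕ) (x : HCube G q) (a : ℚ) :
    HC3_coneL G q (Finsupp.single x a) = Finsupp.single x.cone a := by
  show Finsupp.mapDomain _ _ = _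
  rw [Finsupp.mapDomain_single]

private theorem HC3_sum_single (q : ℕ) (x : HCube G q) (a : ℚ) :
    HC3_sum G q (Finsupp.single x a) = a := by
  unfold HC3_sum
  rw [Finsupp.linearCombination_single, smul_eq_mul, mul_one]

private theorem HC3_coneL_DgS (q : ℕ) : DgS G q ≤ (DgS G (q + 1)).comap (HC3_coneL G q) := by
  refine DgS_le fun x hx => ?_
  rw [Submodule.mem_comap, HC3_coneL_single]
  exact single_mem_DgS (HCube.cone_Dg x hx) _

private theorem HC3_bd0 (z : HCube G 0 →₀ ℚ) :
    bdc G 0 (HC3_coneL G 0 z) = z - Finsupp.single (HCube.const 0 1) (HC3_sum G 0 z) := by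
  induction z using Finsupp.induction_linear with
  | zero => simp
  | add x y hx hy =>
    rw [map_add, map_add, hx, hy, map_add, Finsupp.single_add]
    abel
  | single s a =>
    rw [HC3_coneL_single, bdc_single, HC3_sum_single, Fin.sum_univ_one]
    simp only [HCube.cone_face_zero, HCube.cone_face_zero', Fin.val_zero, pow_zero, one_mul]

private theorem HC3_bd (q : ℕ) (z : HCube G (q + 1) →₀ ℚ) :
    bdc G (q + 1) (HC3_coneL G (q + 1) z) =
      z - Finsupp.single (HCube.const (q + 1) 1) (HC3_sum G (q + 1) z) -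
        HC3_coneL G q (bdc G q z) := by
  induction z using Finsupp.induction_linear with
  | zero => simp
  | add x y hx hy =>
    rw [map_add, map_add, hx, hy, map_add, Finsupp.single_add, map_add, map_add]
    abel
  | single s a =>
    rw [HC3_coneL_single, bdc_single, HC3_sum_single, Fin.sum_univ_succ, bdc_single, map_sum]
    simp only [HCube.cone_face_zero, HCube.cone_face_zero', HCube.cone_face_succ, Fin.val_zero,
      pow_zero, one_mul, Fin.val_succ, map_sub, HC3_coneL_single]
    rw [sub_eq_add_neg (Finsupp.single s a - Finsupp.single (HCube.const (q + 1) 1) a),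
      ← Finset.sum_neg_distrib]
    congr 1
    refine Finset.sum_congr rfl fun k _ => ?_
    rw [pow_succ, mul_neg_one, neg_mul, Finsupp.single_neg, Finsupp.single_neg]
    abel

private theorem HC3_eps_mk (z : HCube G 0 →₀ ℚ) : cubEps G (mk z) = HC3_sum G 0 z := rfl

theorem cub_acyc : (cubCx G).Acyc (cubEps G) := by
  refine ⟨?_, ?_, ?_, ?_, ?_⟩
  · intro g x
    obtain ⟨z, rfl⟩ := mk_surj x
    rw [cubCx_ρ, HC3_eps_mk, HC3_eps_mk]
    induction z using Finsupp.induction_linear with
    | zero => simp
    | add x y hx hy => simp only [map_add, hx, hy]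
    | single s a => rw [actL_single, HC3_sum_single, HC3_sum_single]
  · intro x
    obtain ⟨z, rfl⟩ := mk_surj x
    rw [cubCx_d, HC3_eps_mk]
    induction z using Finsupp.induction_linear with
    | zero => simp
    | add x y hx hy => simp only [map_add, hx, hy, add_zero]
    | single s a =>
      rw [bdc_single, Fin.sum_univ_one, map_sub, HC3_sum_single, HC3_sum_single, sub_self]
  · exact ⟨mk (Finsupp.single (HCube.const 0 1) 1), by rw [HC3_eps_mk, HC3_sum_single]⟩
  · intro x hx
    obtain ⟨z, rfl⟩ := mk_surj x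
    rw [HC3_eps_mk] at hx
    refine ⟨mk (HC3_coneL G 0 z), ?_⟩
    rw [cubCx_d, HC3_bd0, hx, Finsupp.single_zero, sub_zero]
  · intro n x hx
    obtain ⟨z, rfl⟩ := mk_surj x
    rw [cubCx_d] at hx
    replace hx : bdc G n z ∈ DgS G n := (mk_eq_zero (bdc G n z)).1 hx
    refine ⟨mk (HC3_coneL G (n + 1) z), ?_⟩
    rw [cubCx_d, HC3_bd]
    have h2 : mk (Finsupp.single (HCube.const (n + 1) (1 : G)) (HC3_sum G (n + 1) z)) = 0 :=
      (mk_eq_zero _).2 (single_mem_DgS (HCube.const_Dg (1 : G)) _)
    have h3 : mk (HC3_coneL G n (bdc G n z)) = 0 := (mk_eq_zero _).2 (HC3_coneL_DgS G n hx)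
    have h1 : mk (z - Finsupp.single (HCube.const (n + 1) 1) (HC3_sum G (n + 1) z) -
        HC3_coneL G n (bdc G n z)) = mk z - mk (Finsupp.single (HCube.const (n + 1) 1)
          (HC3_sum G (n + 1) z)) - mk (HC3_coneL G n (bdc G n z)) := rfl
    exact h1.trans (by rw [h2, h3, sub_zero, sub_zero])

theorem cub_acyc_res {Δ : Type} [Group Δ] (θ : Δ →* G) : ((cubCx G).res θ).Acyc (cubEps G) := by
  have h := cub_acyc G
  exact ⟨fun g x => h.inv (θ g) x, h.eps_d, h.onto, h.ex0, h.ex⟩

open Classical in
/-- the section: nondegenerate cubes to themselves, degenerate cubes to `0` -/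
private def HC3_j (q : ℕ) : (HCube G q →₀ ℚ) →ₗ[ℚ] (HCube G q →₀ ℚ) :=
  Finsupp.linearCombination ℚ fun x : HCube G q => if x.Dg then 0 else Finsupp.single x (1 : ℚ)

open Classical in
private theorem HC3_j_single (q : ℕ) (x : HCube G q) (a : ℚ) :
    HC3_j G q (Finsupp.single x a) = if x.Dg then 0 else Finsupp.single x a := by
  unfold HC3_j
  rw [Finsupp.linearCombination_single]
  split_ifs
  · rw [smul_zero]
  · rw [Finsupp.smul_single, smul_eq_mul, mul_one]

private theorem HC3_j_DgS (q : ℕ) : DgS G q ≤ LinearMap.ker (HC3_j G q) := by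
  refine DgS_le fun x hx => ?_
  rw [LinearMap.mem_ker, HC3_j_single, if_pos hx]

private theorem HC3_j_act (q : ℕ) (g : G) (z : HCube G q →₀ ℚ) :
    HC3_j G q (actL G q g z) = actL G q g (HC3_j G q z) := by
  induction z using Finsupp.induction_linear with
  | zero => simp
  | add x y hx hy => simp only [map_add, hx, hy]
  | single s a =>
    rw [actL_single, HC3_j_single, HC3_j_single]
    by_cases h : s.Dg
    · rw [if_pos h, if_pos ((HCube.act_Dg_iff g s).2 h), map_zero]
    · rw [if_neg h, if_neg (fun h' => h ((HCube.act_Dg_iff g s).1 h')), actL_single]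

private theorem HC3_mk_j (q : ℕ) (z : HCube G q →₀ ℚ) : mk (HC3_j G q z) = mk z := by
  induction z using Finsupp.induction_linear with
  | zero => simp
  | add x y hx hy => rw [map_add, mk_add, hx, hy, mk_add]
  | single s a =>
    rw [HC3_j_single]
    by_cases h : s.Dg
    · rw [if_pos h, mk_zero, (mk_eq_zero _).2 (single_mem_DgS h a)]
    · rw [if_neg h]

theorem cub_eqlift {Δ : Type} [Group Δ] (θ : Δ →* G) (hθ : Function.Injective θ) (q : ℕ) :
    EqLift (((cubCx G).res θ).ρ q) := by
  let σ : Representation ℚ Δ (HCube G q →₀ ℚ) :=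
    { toFun := fun g => actL G q (θ g)
      map_one' := by
        refine LinearMap.ext fun z => ?_
        rw [map_one, actL_one]
        rfl
      map_mul' := fun g h => by
        refine LinearMap.ext fun z => ?_
        rw [map_mul, actL_mul]
        rfl }
  have hσ : EqLift σ := by
    refine eqlift_perm (fun g x => x.act (θ g)) (fun x => ?_) (fun g h x => ?_) (fun x => ?_) σ
      (fun g x => ?_)
    · show x.act (θ 1) = x
      rw [map_one, HCube.act_one]
    · show x.act (θ (g * h)) = (x.act (θ h)).act (θ g)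
      rw [map_mul, HCube.act_mul]
    · refine (Set.finite_singleton (1 : Δ)).subset fun g hg => ?_
      have h1 : θ g = 1 := HCube.act_free (θ g) x hg
      exact hθ (h1.trans (map_one θ).symm)
    · show actL G q (θ g) (Finsupp.single x 1) = _
      rw [actL_single]
  refine eqlift_retract (((cubCx G).res θ).ρ q) σ hσ
    ((DgS G q).liftQ (HC3_j G q) (HC3_j_DgS G q)) ((DgS G q).mkQ) ?_ ?_ ?_
  · intro g x
    obtain ⟨z, rfl⟩ := mk_surj x
    exact HC3_j_act G q (θ g) z
  · intro g x
    rfl
  · intro x
    obtain ⟨z, rfl⟩ := mk_surj x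
    exact HC3_mk_j G q z

end St16H
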