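import Pool.Agent.LibSt16.HC2

/-!
[ST16 HC4] functions on homogeneous cubes and functionals on the cubical complex (helper60). Over HC1 (cite its statements).

Plan. `mk_surj`, `Finsupp.induction_linear`, `bdc_single`, `actL_single`, `mapL_single`, `Finsupp.linearCombination_single`, casts `ℚ → ℝ`
(`Rat.smul_def`). `exists_cubfun`: `ψ x = L (mk (single x 1))`, zero on degenerate cubes by `mk_eq_zero`.
-/

set_option autoImplicit false

noncomputable section

namespace St16H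

variable {G : Type} [Group G] {q : ℕ}

theorem cubLin_single (φ : HCube G q → ℝ) (hφ : ∀ x, x.Dg → φ x = 0) (x : HCube G q) (a : ℚ) :
    cubLin φ hφ (mk (Finsupp.single x a)) = (a : ℝ) * φ x := by
  rw [cubLin_mk, Finsupp.linearCombination_single, Rat.smul_def]

private theorem mk_sub' {G : Type} {q : ℕ} (z z' : HCube G q →₀ ℚ) : mk (z - z') = mk z - mk z' := rfl

private theorem mk_sum' {G : Type} {q : ℕ} {ι : Type} (s : Finset ι) (f : ι → (HCube G q →₀ ℚ)) :
    mk (∑ i ∈ s, f i) = ∑ i ∈ s, mk (f i) := by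
  show (DgS G q).mkQ _ = ∑ i ∈ s, (DgS G q).mkQ _
  exact map_sum (DgS G q).mkQ f s

/-- `cubLin` of a coboundary -/
theorem cubLin_d (φ : HCube G q → ℝ) (hφ : ∀ x, x.Dg → φ x = 0) (x : HCube G (q + 1)) :
    cubLin φ hφ ((cubCx G).d q (mk (Finsupp.single x 1))) = HCube.cb φ x := by
  rw [cubCx_d, cubLin_mk, bdc_single, map_sum]
  unfold HCube.cb
  refine Finset.sum_congr rfl fun k _ => ?_
  rw [map_sub, Finsupp.linearCombination_single, Finsupp.linearCombination_single, Rat.smul_def,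
    Rat.smul_def]
  push_cast
  ring

private theorem mk_smul_single {G : Type} {q : ℕ} (x : HCube G q) (a : ℚ) :
    mk (Finsupp.single x a) = a • mk (Finsupp.single x (1 : ℚ)) := by
  show (DgS G q).mkQ _ = a • (DgS G q).mkQ _
  rw [← map_smul]
  congr 1
  rw [Finsupp.smul_single, smul_eq_mul, mul_one]

private theorem lin_ext {G V : Type} [AddCommGroup V] [Module ℚ V] {q : ℕ} (F F' : CM G q →ₗ[ℚ] V)
    (h : ∀ x : HCube G q, F (mk (Finsupp.single x 1)) = F' (mk (Finsupp.single x 1))) (x : CM G q) :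
    F x = F' x := by
  obtain ⟨z, rfl⟩ := mk_surj x
  induction z using Finsupp.induction_linear with
  | zero => rw [mk_zero, map_zero, map_zero]
  | add x y hx hy => rw [mk_add, map_add, map_add, hx, hy]
  | single s a => rw [mk_smul_single, map_smul, map_smul, h]

theorem cubLin_cocycle (φ : HCube G q → ℝ) (hφ : ∀ x, x.Dg → φ x = 0) (h : ∀ x, HCube.cb φ x = 0)
    (x : (cubCx G).M (q + 1)) : cubLin φ hφ ((cubCx G).d q x) = 0 := by
  have h1 := lin_ext ((cubLin φ hφ : CM G q →ₗ[ℚ] ℝ).comp (dL G q)) 0 (fun y => by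
    show cubLin φ hφ ((cubCx G).d q (mk (Finsupp.single y 1))) = 0
    rw [cubLin_d, h]) x
  exact h1

theorem cubLin_inv (φ : HCube G q → ℝ) (hφ : ∀ x, x.Dg → φ x = 0) (g : G) (h : ∀ x, φ (x.act g) = φ x)
    (x : (cubCx G).M q) : cubLin φ hφ ((cubCx G).ρ q g x) = cubLin φ hφ x := by
  have h1 := lin_ext ((cubLin φ hφ : CM G q →ₗ[ℚ] ℝ).comp (ρL q g)) (cubLin φ hφ) (fun y => by
    show cubLin φ hφ ((cubCx G).ρ q g (mk (Finsupp.single y 1))) = cubLin φ hφ (mk (Finsupp.single y 1))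
    rw [cubCx_ρ, actL_single, cubLin_single, cubLin_single, h]) x
  exact h1

theorem cubLin_map {Δ : Type} [Group Δ] (θ : Δ →* G) (φ : HCube G q → ℝ) (hφ : ∀ x, x.Dg → φ x = 0)
    (h : ∀ x : HCube Δ q, φ (x.map θ) = 0) (x : (cubCx Δ).M q) : cubLin φ hφ ((cubMap θ).f q x) = 0 := by
  have h1 := lin_ext ((cubLin φ hφ : CM G q →ₗ[ℚ] ℝ).comp ((cubMap θ).f q : CM Δ q →ₗ[ℚ] CM G q)) 0 (fun y => by
    show cubLin φ hφ ((cubMap θ).f q (mk (Finsupp.single y 1))) = 0
    rw [cubMap_mk, mapL_single, cubLin_single, h, mul_zero]) x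
  exact h1

theorem cubEps_map {Δ : Type} [Group Δ] (θ : Δ →* G) (x : (cubCx Δ).M 0) :
    cubEps G ((cubMap θ).f 0 x) = cubEps Δ x := by
  have h1 := lin_ext ((cubEps G : CM G 0 →ₗ[ℚ] ℚ).comp ((cubMap θ).f 0 : CM Δ 0 →ₗ[ℚ] CM G 0)) (cubEps Δ)
    (fun y => by
      show Finsupp.linearCombination ℚ (fun _ : HCube G 0 => (1 : ℚ)) (mapL θ 0 (Finsupp.single y 1)) =
        Finsupp.linearCombination ℚ (fun _ : HCube Δ 0 => (1 : ℚ)) (Finsupp.single y 1)
      rw [mapL_single, Finsupp.linearCombination_single, Finsupp.linearCombination_single]) x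
  exact h1

/-- every functional is given by a function on cubes -/
theorem exists_cubfun (L : (cubCx G).M q →ₗ[ℚ] ℝ) : ∃ ψ : HCube G q → ℝ, (∀ x, x.Dg → ψ x = 0) ∧
    (∀ x, ψ x = L (mk (Finsupp.single x 1))) ∧
    (∀ g x, L ((cubCx G).ρ q g (mk (Finsupp.single x 1))) = ψ (x.act g)) ∧
    ∀ x : HCube G (q + 1), L ((cubCx G).d q (mk (Finsupp.single x 1))) = HCube.cb ψ x := by
  refine ⟨fun x => L (mk (Finsupp.single x 1)), ?_, fun _ => rfl, ?_, ?_⟩
  · intro x hx
    have h1 : (mk (Finsupp.single x (1 : ℚ)) : CM G q) = 0 := (mk_eq_zero _).2 (single_mem_DgS hx 1)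
    exact (congrArg (fun y : CM G q => (L : CM G q →ₗ[ℚ] ℝ) y) h1).trans (map_zero (L : CM G q →ₗ[ℚ] ℝ))
  · intro g x
    rw [cubCx_ρ, actL_single]
  · intro x
    rw [cubCx_d, bdc_single]
    have key : ∀ F : CM G q →ₗ[ℚ] ℝ,
        F (mk (∑ k : Fin (q + 1), (Finsupp.single (x.face true k) ((-1 : ℚ) ^ (k : ℕ) * 1) -
          Finsupp.single (x.face false k) ((-1 : ℚ) ^ (k : ℕ) * 1)))) =
        HCube.cb (fun y => F (mk (Finsupp.single y 1))) x := by
      intro F
      rw [mk_sum', map_sum]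
      unfold HCube.cb
      refine Finset.sum_congr rfl fun k _ => ?_
      rw [mk_sub', map_sub, mk_smul_single (x.face true k), mk_smul_single (x.face false k), map_smul, map_smul,
        Rat.smul_def, Rat.smul_def]
      push_cast
      ring
    exact key L

end St16H
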