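import Pool.Agent.LibSt16.Defs

/-!
LibSt16/HCu (helper60): homogeneous cubes of a group. DEFINITIONS (frozen).
-/

set_option autoImplicit false

noncomputable section

namespace St16H

open St16 (ins z0)

/-- Homogeneous cubes: functions of bits with values in `G`, depending on the first `q` bits. -/
@[ext] structure HCube (G : Type) (q : ℕ) where
  y : (ℕ → Bool) → G
  dep : ∀ s s' : ℕ → Bool, (∀ i, i < q → s i = s' i) → y s = y s'

theorem ins_agree {q : ℕ} (k : Fin (q + 1)) (b : Bool) (s s' : ℕ → Bool) (h : ∀ i, i < q → s i = s' i) :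
    ∀ i, i < q + 1 → ins (k : ℕ) b s i = ins (k : ℕ) b s' i := by
  intro i hi
  unfold ins
  by_cases h1 : i < (k : ℕ)
  · simp only [h1, if_true]; exact h i (by omega)
  · by_cases h2 : i = (k : ℕ)
    · simp [h2]
    · simp only [h1, h2, if_false]; exact h _ (by omega)

namespace HCube

variable {G H : Type} {q : ℕ}

/-- the face `bit k = b` -/
def face (x : HCube G (q + 1)) (b : Bool) (k : Fin (q + 1)) : HCube G q where
  y := fun s => x.y (ins (k : ℕ) b s)
  dep := fun s s' h => x.dep _ _ (ins_agree k b s s' h)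

/-- degenerate: independent of one bit -/
def Dg (x : HCube G q) : Prop :=
  ∃ k, k < q ∧ ∀ s s' : ℕ → Bool, (∀ i, i ≠ k → s i = s' i) → x.y s = x.y s'

/-- image under a map -/
def map (θ : G → H) (x : HCube G q) : HCube H q where
  y := fun s => θ (x.y s)
  dep := fun s s' h => congrArg θ (x.dep s s' h)

/-- left translation -/
def act [Group G] (g : G) (x : HCube G q) : HCube G q := x.map (fun a => g * a)

/-- the coboundary of a function on cubes -/
def cb (ψ : HCube G q → ℝ) (x : HCube G (q + 1)) : ℝ :=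
  ∑ k : Fin (q + 1), (-1 : ℝ) ^ (k : ℕ) * (ψ (x.face true k) - ψ (x.face false k))

/-- the constant cube -/
def const (q : ℕ) (a : G) : HCube G q where
  y := fun _ => a
  dep := fun _ _ _ => rfl

/-- the cone with vertex `1` -/
def cone [Group G] (x : HCube G q) : HCube G (q + 1) where
  y := fun s => if s 0 then x.y (fun i => s (i + 1)) else 1
  dep := fun s s' h => by
    rw [h 0 (Nat.succ_pos q), x.dep _ _ fun i hi => h (i + 1) (Nat.succ_lt_succ hi)]

end HCube

/-! ### chains -/

/-- boundary of cubical chains -/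
def bdc (G : Type) (q : ℕ) : (HCube G (q + 1) →₀ ℚ) →ₗ[ℚ] (HCube G q →₀ ℚ) :=
  Finsupp.lsum ℚ fun x => ∑ k : Fin (q + 1), ((-1 : ℚ) ^ (k : ℕ)) •
    (Finsupp.lsingle (x.face true k) - Finsupp.lsingle (x.face false k))

/-- degenerate chains -/
def DgS (G : Type) (q : ℕ) : Submodule ℚ (HCube G q →₀ ℚ) := Finsupp.supported ℚ ℚ {x | x.Dg}

end St16H
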