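import Pool.Agent.LibSt16.IDefs2

/-!
ST16 ID1 (helper13). Density of `U(c, ℤ[1/p : p ≡ 1 mod 4][i])`, matrix form (only Mathlib and IDefs).
-/

namespace St16I

open Matrix QuadraticAlgebra

namespace D13

theorem gi_ne {x : GaussianInt} (h : x ≠ 0) : gi x ≠ 0 := fun h' => h (gi_injective (by rw [h', map_zero]))

/-- every element is a quotient -/
theorem exists_den (x : E) : ∃ (n : ℕ) (z : GaussianInt), 1 ≤ n ∧ (n : E) * x = gi z := by
  refine ⟨x.re.den * x.im.den, ⟨x.re.num * x.im.den, x.im.num * x.re.den⟩, ?_, ?_⟩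
  · exact Nat.one_le_iff_ne_zero.mpr (mul_ne_zero x.re.den_nz x.im.den_nz)
  · have h1 : (x.re.den : ℚ) * x.re = x.re.num := Rat.den_mul_eq_num x.re
    have h2 : (x.im.den : ℚ) * x.im = x.im.num := Rat.den_mul_eq_num x.im
    ext
    · rw [QuadraticAlgebra.re_mul, QuadraticAlgebra.re_natCast, QuadraticAlgebra.im_natCast]
      simp only [gi_re, Int.cast_mul, Int.cast_natCast, Nat.cast_mul]
      linear_combination (x.im.den : ℚ) * h1
    · rw [QuadraticAlgebra.im_mul, QuadraticAlgebra.re_natCast, QuadraticAlgebra.im_natCast]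
      simp only [gi_im, Int.cast_mul, Int.cast_natCast, Nat.cast_mul]
      linear_combination (x.re.den : ℚ) * h2

theorem two_dvd_of_sq_add_sq {x y m : ℤ} (h : x ^ 2 + y ^ 2 = (2 * m) ^ 2) : 2 ∣ x ∧ 2 ∣ y := by
  rcases Int.even_or_odd' x with ⟨a, ha | ha⟩ <;> rcases Int.even_or_odd' y with ⟨b, hb | hb⟩
  · exact ⟨⟨a, ha⟩, ⟨b, hb⟩⟩
  · exfalso
    subst ha hb
    have : (2 * a) ^ 2 + (2 * b + 1) ^ 2 - (2 * m) ^ 2 = 2 * (2 * a^2 + 2 * b^2 + 2 * b - 2 * m^2) + 1 := by ring
    omega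
  · exfalso
    subst ha hb
    have : (2 * a + 1) ^ 2 + (2 * b) ^ 2 - (2 * m) ^ 2 = 2 * (2 * a^2 + 2 * b^2 + 2 * a - 2 * m^2) + 1 := by ring
    omega
  · exfalso
    subst ha hb
    have : (2 * a + 1) ^ 2 + (2 * b + 1) ^ 2 - (2 * m) ^ 2 = 4 * (a^2 + a + b^2 + b - m^2) + 2 := by ring
    omega

/-- (T) norm one elements lie in `ZZ'[i]` -/
theorem norm_one_mem' (u : E) (h : star u * u = 1) : u ∈ ZZi := by
  classical
  have hex : ∃ n : ℕ, 1 ≤ n ∧ ∃ z : GaussianInt, (n : E) * u = gi z := by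
    obtain ⟨n, z, h1, h2⟩ := exists_den u
    exact ⟨n, h1, z, h2⟩
  obtain ⟨hn, z, hz⟩ := Nat.find_spec hex
  set n := Nat.find hex with hndef
  have hmin : ∀ m : ℕ, 1 ≤ m → (∃ z : GaussianInt, (m : E) * u = gi z) → n ≤ m :=
    fun m h1 h2 => Nat.find_min' hex ⟨h1, h2⟩
  refine ⟨n, by omega, ?_, z, hz.symm⟩
  intro p hp hd
  by_contra hp4
  -- the norm equation
  have hnorm : star z * z = (n : GaussianInt) ^ 2 := by
    apply gi_injective
    rw [map_mul, gi_star, ← hz, map_pow, gi_natCast, star_mul, star_natCast]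
    calc star u * (n : E) * ((n : E) * u) = (n : E) ^ 2 * (star u * u) := by ring
      _ = _ := by rw [h, mul_one]
  have hkey : ((p : ℤ) : GaussianInt) ∣ z := by
    obtain ⟨m, hm⟩ := hd
    rcases hp.eq_two_or_odd' with rfl | hodd
    · have h3 : z.re ^ 2 + z.im ^ 2 = (2 * (m : ℤ)) ^ 2 := by
        have := congrArg Zsqrtd.re hnorm
        simp only [Zsqrtd.re_mul, Zsqrtd.re_star, Zsqrtd.im_star, hm] at this
        have h5 : (((2 * m : ℕ) : GaussianInt) ^ 2).re = (2 * (m : ℤ)) ^ 2 := by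
          have : (((2 * m : ℕ) : GaussianInt) ^ 2) = (((2 * (m : ℤ)) ^ 2 : ℤ) : GaussianInt) := by
            push_cast; ring
          rw [this, Zsqrtd.re_intCast]
        rw [h5] at this
        linarith
      obtain ⟨h6, h7⟩ := two_dvd_of_sq_add_sq h3
      exact (Zsqrtd.intCast_dvd _ _).2 ⟨by simpa using h6, by simpa using h7⟩
    · have hp3 : p % 4 = 3 := by
        have : p % 2 = 1 := Nat.odd_iff.1 hodd
        omega
      haveI : Fact p.Prime := ⟨hp⟩
      have hpp : Prime (p : GaussianInt) := GaussianInt.prime_of_nat_prime_of_mod_four_eq_three p hp3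
      have hdv : (p : GaussianInt) ∣ star z * z := by
        rw [hnorm, hm]
        push_cast
        exact ⟨(p : GaussianInt) * m ^ 2, by ring⟩
      rcases hpp.dvd_or_dvd hdv with h8 | h8
      · obtain ⟨w, hw⟩ := h8
        refine ⟨star w, ?_⟩
        have := congrArg star hw
        rw [star_star, star_mul, star_natCast] at this
        rw [this]; push_cast; ring
      · simpa using h8
  obtain ⟨z', hz'⟩ := hkey
  obtain ⟨m, hm⟩ := hd
  have hm1 : 1 ≤ m := by
    rcases Nat.eq_zero_or_pos m with h0 | h0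
    · rw [h0] at hm; omega
    · exact h0
  have h9 : (m : E) * u = gi z' := by
    have hp0 : (p : E) ≠ 0 := by exact_mod_cast hp.ne_zero
    apply mul_left_cancel₀ hp0
    rw [← mul_assoc, ← Nat.cast_mul, ← hm, hz, hz', map_mul]
    push_cast
    simp
  have := hmin m hm1 ⟨z', h9⟩
  have h10 : m < n := by
    rw [hm]
    have := hp.two_le
    nlinarith
  omega

/-- the semilocal ring: elements with denominator coprime to `nu` -/
def OO (nu : GaussianInt) : Subring E where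
  carrier := {x | ∃ a d : GaussianInt, d ≠ 0 ∧ IsCoprime d nu ∧ gi d * x = gi a}
  mul_mem' := by
    rintro x y ⟨a, d, hd, hc, h⟩ ⟨b, e, he, hc', h'⟩
    exact ⟨a * b, d * e, mul_ne_zero hd he, hc.mul_left hc', by
      rw [map_mul, map_mul, ← h, ← h']; ring⟩
  one_mem' := ⟨1, 1, one_ne_zero, isCoprime_one_left, by simp⟩
  add_mem' := by
    rintro x y ⟨a, d, hd, hc, h⟩ ⟨b, e, he, hc', h'⟩
    exact ⟨e * a + d * b, d * e, mul_ne_zero hd he, hc.mul_left hc', by
      rw [map_add, map_mul, map_mul, map_mul, ← h, ← h']; ring⟩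
  zero_mem' := ⟨0, 1, one_ne_zero, isCoprime_one_left, by simp⟩
  neg_mem' := by
    rintro x ⟨a, d, hd, hc, h⟩
    exact ⟨-a, d, hd, hc, by rw [map_neg, ← h]; ring⟩

theorem gi_mem (nu a : GaussianInt) : gi a ∈ OO nu :=
  ⟨a, 1, one_ne_zero, isCoprime_one_left, by simp⟩

theorem split (nu : GaussianInt) (b : GaussianInt) (hb : b ≠ 0) :
    ∃ (k : ℕ) (d : GaussianInt), d ≠ 0 ∧ IsCoprime d nu ∧ b ∣ nu ^ k * d := by
  induction b using UniqueFactorizationMonoid.induction_on_prime with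
  | h₁ => exact absurd rfl hb
  | h₂ x hx => exact ⟨0, 1, one_ne_zero, isCoprime_one_left, hx.dvd⟩
  | h₃ a p ha hp ih =>
    obtain ⟨k, d, hd, hc, hdv⟩ := ih ha
    by_cases h : p ∣ nu
    · refine ⟨k + 1, d, hd, hc, ?_⟩
      rw [pow_succ', mul_assoc]
      exact mul_dvd_mul h hdv
    · refine ⟨k, p * d, mul_ne_zero hp.ne_zero hd, IsCoprime.mul_left ?_ hc, ?_⟩
      · exact (Irreducible.coprime_iff_not_dvd hp.irreducible).2 h
      · have := mul_dvd_mul_left p hdv
        rwa [show p * (nu ^ k * d) = nu ^ k * (p * d) by ring] at this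

theorem exists_pow (nu : GaussianInt) (x : E) : ∃ k : ℕ, gi nu ^ k * x ∈ OO nu := by
  obtain ⟨n, z, hn, hz⟩ := exists_den x
  have hn0 : (n : GaussianInt) ≠ 0 := by exact_mod_cast (by omega : n ≠ 0)
  obtain ⟨k, d, hd, hc, b, hb⟩ := split nu n hn0
  refine ⟨k, b * z, d, hd, hc, ?_⟩
  have h1 := congrArg gi hb
  rw [map_mul, map_mul, map_pow, gi_natCast] at h1
  calc gi d * (gi nu ^ k * x) = (gi nu ^ k * gi d) * x := by ring
    _ = gi b * ((n : E) * x) := by rw [h1]; ring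
    _ = _ := by rw [hz, map_mul]

theorem pow_mono {nu : GaussianInt} {x : E} {k l : ℕ} (h : gi nu ^ k * x ∈ OO nu) (hkl : k ≤ l) :
    gi nu ^ l * x ∈ OO nu := by
  obtain ⟨m, rfl⟩ := Nat.exists_eq_add_of_le hkl
  rw [pow_add, mul_comm (gi nu ^ k), mul_assoc]
  exact (OO nu).mul_mem ((OO nu).pow_mem (gi_mem _ _) _) h

/-- `x ∈ nu^K OO` -/
def Cong (nu : GaussianInt) (K : ℕ) (x : E) : Prop := ∃ y ∈ OO nu, x = gi nu ^ K * y

theorem Cong.add {nu : GaussianInt} {K : ℕ} {x y : E} (hx : Cong nu K x) (hy : Cong nu K y) :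
    Cong nu K (x + y) := by
  obtain ⟨a, ha, rfl⟩ := hx
  obtain ⟨b, hb, rfl⟩ := hy
  exact ⟨a + b, (OO nu).add_mem ha hb, by ring⟩

theorem Cong.zero {nu : GaussianInt} {K : ℕ} : Cong nu K 0 := ⟨0, (OO nu).zero_mem, by simp⟩

theorem Cong.neg {nu : GaussianInt} {K : ℕ} {x : E} (hx : Cong nu K x) : Cong nu K (-x) := by
  obtain ⟨a, ha, rfl⟩ := hx
  exact ⟨-a, (OO nu).neg_mem ha, by ring⟩

theorem Cong.sum {nu : GaussianInt} {K : ℕ} {ι : Type*} (s : Finset ι) (f : ι → E)
    (h : ∀ i ∈ s, Cong nu K (f i)) : Cong nu K (∑ i ∈ s, f i) := by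
  classical
  induction s using Finset.induction_on with
  | empty => simpa using Cong.zero
  | insert a s ha ih =>
    rw [Finset.sum_insert ha]
    exact (h a (Finset.mem_insert_self _ _)).add (ih fun i hi => h i (Finset.mem_insert_of_mem hi))

theorem Cong.mul {nu : GaussianInt} {K k : ℕ} {x y : E} (hx : gi nu ^ k * x ∈ OO nu)
    (hy : Cong nu (K + k) y) : Cong nu K (x * y) := by
  obtain ⟨b, hb, rfl⟩ := hy
  exact ⟨(gi nu ^ k * x) * b, (OO nu).mul_mem hx hb, by rw [pow_add]; ring⟩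

theorem Cong.mono {nu : GaussianInt} {K L : ℕ} {x : E} (hx : Cong nu K x) (h : L ≤ K) :
    Cong nu L x := by
  obtain ⟨m, rfl⟩ := Nat.exists_eq_add_of_le h
  obtain ⟨b, hb, rfl⟩ := hx
  exact ⟨gi nu ^ m * b, (OO nu).mul_mem ((OO nu).pow_mem (gi_mem _ _) _) hb, by
    rw [pow_add]; ring⟩

theorem Cong.mem {nu : GaussianInt} {K : ℕ} {x : E} (hx : Cong nu K x) : x ∈ OO nu := by
  obtain ⟨b, hb, rfl⟩ := hx
  exact (OO nu).mul_mem ((OO nu).pow_mem (gi_mem _ _) _) hb

/-- elements `1 + nu y` are units of `OO` -/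
theorem unit_of_cong {nu : GaussianInt} (hnu : ¬ IsUnit nu) {z : E} (hz : Cong nu 1 (z - 1)) :
    z ≠ 0 ∧ z⁻¹ ∈ OO nu := by
  obtain ⟨y, ⟨a, d, hd, hc, h⟩, hy⟩ := hz
  have h1 : gi d * z = gi (d + nu * a) := by
    have : z = 1 + gi nu * y := by rw [pow_one] at hy; rw [← hy]; ring
    rw [this, map_add, map_mul, ← h]; ring
  have hc2 : IsCoprime (d + nu * a) nu := by
    have := hc.add_mul_right_left a
    rwa [mul_comm a nu] at this
  have hne : d + nu * a ≠ 0 := by
    intro h0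
    rw [h0] at hc2
    exact hnu (isCoprime_zero_left.1 hc2)
  have hz0 : z ≠ 0 := by
    rintro rfl
    rw [mul_zero] at h1
    exact gi_ne hne h1.symm
  refine ⟨hz0, d, d + nu * a, hne, hc2, ?_⟩
  rw [← h1]
  field_simp

/-- (a) rank one -/
theorem one_dim {nu : GaussianInt} (hc : IsCoprime nu (star nu)) (x : E) (hx : x ≠ 0) (K : ℕ) :
    ∃ u : E, star u * u = 1 ∧ Cong nu K (u - x) := by
  by_cases hnu : IsUnit nu
  · refine ⟨1, by simp, ?_⟩
    obtain ⟨v, rfl⟩ := hnu
    obtain ⟨k, hk⟩ := exists_pow (v : GaussianInt) (1 - x)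
    refine ⟨(gi ((v⁻¹ : GaussianIntˣ) : GaussianInt)) ^ K * (1 - x), ?_, ?_⟩
    · refine (OO _).mul_mem ((OO _).pow_mem (gi_mem _ _) _) ?_
      have : (1 - x) = (gi ((v⁻¹ : GaussianIntˣ) : GaussianInt)) ^ k * (gi (v : GaussianInt) ^ k * (1 - x)) := by
        rw [← mul_assoc, ← mul_pow, ← map_mul]; simp
      rw [this]
      exact (OO _).mul_mem ((OO _).pow_mem (gi_mem _ _) _) hk
    · rw [← mul_assoc, ← mul_pow, ← map_mul]; simp
  · obtain ⟨k1, h1⟩ := exists_pow nu (x - 1)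
    obtain ⟨k2, h2⟩ := exists_pow nu (x * (star x - 1))
    obtain ⟨k3, h3⟩ := exists_pow nu (star x - 1)
    set k := k1 + k2 + k3 with hk
    have h1' := pow_mono h1 (show k1 ≤ k by omega)
    have h2' := pow_mono h2 (show k2 ≤ k by omega)
    have h3' := pow_mono h3 (show k3 ≤ k by omega)
    set K' := (K + 1) + k with hK'
    have hcop : IsCoprime (nu ^ K') (star nu ^ K') := hc.pow
    obtain ⟨a, b, hab⟩ := hcop
    set e : GaussianInt := b * star nu ^ K' with he
    have he1 : Cong nu K' (gi e - 1) := by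
      refine ⟨gi (-a), gi_mem _ _, ?_⟩
      rw [← map_pow, ← map_mul, ← map_one gi, ← map_sub]
      congr 1
      linear_combination hab
    have he2 : Cong nu K' (star (gi e)) := by
      refine ⟨gi (star b), gi_mem _ _, ?_⟩
      rw [← map_pow, ← map_mul, ← gi_star, he, star_mul, star_pow, star_star]
    set z : E := 1 + gi e * (x - 1) with hz
    have hsz : star z = 1 + star (gi e) * (star x - 1) := by
      rw [hz, star_add, star_one, star_mul, star_sub, star_one]; ring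
    have hzc : Cong nu (K + 1) (star z - 1) := by
      have := Cong.mul (K := K + 1) h3' he2
      rw [hsz]
      convert this using 1
      ring
    obtain ⟨hz0, hzi⟩ := unit_of_cong hnu (hzc.mono (by omega : 1 ≤ K + 1))
    have hz0' : z ≠ 0 := fun h0 => hz0 (by rw [h0, star_zero])
    refine ⟨z * (star z)⁻¹, ?_, ?_⟩
    · rw [star_mul, star_inv₀, star_star]
      field_simp
    · have e1 : z * (star z)⁻¹ - x = (star z)⁻¹ * ((x - 1) * (gi e - 1) + -((x * (star x - 1)) * star (gi e))) := by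
        have : (star z) * (z * (star z)⁻¹ - x) = (x - 1) * (gi e - 1) + -((x * (star x - 1)) * star (gi e)) := by
          rw [mul_sub, ← mul_assoc, mul_comm (star z) z, mul_assoc, mul_inv_cancel₀ hz0, mul_one,
            hsz, hz]
          ring
        rw [← this, ← mul_assoc, inv_mul_cancel₀ hz0, one_mul]
      rw [e1]
      have c1 := Cong.mul (K := K + 1) h1' he1
      have c2 := (Cong.mul (K := K + 1) h2' he2).neg
      have c3 := (c1.add c2).mono (show K ≤ K + 1 by omega)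
      refine Cong.mul (k := 0) ?_ c3
      simpa using hzi

variable {n : Type*} [Fintype n] [DecidableEq n]

/-- the unitary group over `ZZ'[i]` -/
def GG (n : Type*) [Fintype n] [DecidableEq n] (u : Matrix n n E) : Prop :=
  uᴴ * u = 1 ∧ ∀ i j, u i j ∈ ZZi

theorem GG.mul {u v : Matrix n n E} (hu : GG n u) (hv : GG n v) : GG n (u * v) := by
  refine ⟨?_, fun i j => ?_⟩
  · rw [conjTranspose_mul, Matrix.mul_assoc, ← Matrix.mul_assoc uᴴ, hu.1, Matrix.one_mul, hv.1]
  · rw [Matrix.mul_apply]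
    exact ZZi.sum_mem fun k _ => ZZi.mul_mem (hu.2 i k) (hv.2 k j)

theorem GG.conj {u : Matrix n n E} (hu : GG n u) : GG n uᴴ := by
  refine ⟨?_, fun i j => ?_⟩
  · rw [conjTranspose_conjTranspose]
    exact mul_eq_one_comm.1 hu.1
  · exact star_mem_ZZi (hu.2 j i)

/-- the closure of the unitary group -/
def HH (nu : GaussianInt) (n : Type*) [Fintype n] [DecidableEq n] (g : Matrix n n E) : Prop :=
  ∀ K : ℕ, ∃ u : Matrix n n E, GG n u ∧ ∀ i j, Cong nu K (u i j - g i j)

theorem HH.of {nu : GaussianInt} {u : Matrix n n E} (hu : GG n u) : HH nu n u :=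
  fun K => ⟨u, hu, fun i j => by rw [sub_self]; exact Cong.zero⟩

theorem exists_pow_mat (nu : GaussianInt) (g : Matrix n n E) :
    ∃ k : ℕ, ∀ i j, gi nu ^ k * g i j ∈ OO nu := by
  choose f hf using fun p : n × n => exists_pow nu (g p.1 p.2)
  refine ⟨∑ p, f p, fun i j => pow_mono (hf (i, j)) ?_⟩
  exact Finset.single_le_sum (f := f) (fun _ _ => Nat.zero_le _) (Finset.mem_univ (i, j))

theorem HH.mul {nu : GaussianInt} {g h : Matrix n n E} (hg : HH nu n g) (hh : HH nu n h) :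
    HH nu n (g * h) := by
  intro K
  obtain ⟨k, hk⟩ := exists_pow_mat nu g
  obtain ⟨l, hl⟩ := exists_pow_mat nu h
  obtain ⟨u, hu, hu'⟩ := hg (K + l)
  obtain ⟨v, hv, hv'⟩ := hh (K + k)
  refine ⟨u * v, hu.mul hv, fun i j => ?_⟩
  have e1 : (u * v) i j - (g * h) i j = ∑ x, ((u i x - g i x) * (h x j) +
      (u i x - g i x) * (v x j - h x j) + g i x * (v x j - h x j)) := by
    rw [Matrix.mul_apply, Matrix.mul_apply, ← Finset.sum_sub_distrib]
    exact Finset.sum_congr rfl fun x _ => by ring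
  rw [e1]
  refine Cong.sum _ _ fun x _ => ((?_ : Cong nu K _).add ?_).add ?_
  · rw [mul_comm]
    exact Cong.mul (hl x j) (hu' i x)
  · refine Cong.mul (k := 0) ?_ ((hv' x j).mono (by omega))
    simpa using (hu' i x).mem
  · exact Cong.mul (hk i x) (hv' x j)

theorem diag_mem {nu : GaussianInt} (hc : IsCoprime nu (star nu)) (d : n → E) (hd : ∀ i, d i ≠ 0) :
    HH nu n (diagonal d) := by
  intro K
  choose u hu hu' using fun i => one_dim hc (d i) (hd i) K
  refine ⟨diagonal u, ⟨?_, fun i j => ?_⟩, fun i j => ?_⟩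
  · rw [diagonal_conjTranspose, diagonal_mul_diagonal, ← diagonal_one]
    congr 1
    funext i
    exact hu i
  · by_cases h : i = j
    · subst h; rw [diagonal_apply_eq]; exact norm_one_mem' _ (hu i)
    · rw [diagonal_apply_ne _ h]; exact ZZi.zero_mem
  · by_cases h : i = j
    · subst h; rw [diagonal_apply_eq, diagonal_apply_eq]; exact hu' i
    · rw [diagonal_apply_ne _ h, diagonal_apply_ne _ h, sub_self]; exact Cong.zero

/-- the matrix `g5` -/
noncomputable def g5 : Matrix (Fin 2) (Fin 2) E :=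
  !![⟨2/5, -1/5⟩, ⟨4/5, -2/5⟩; ⟨-4/5, 2/5⟩, ⟨2/5, -1/5⟩]

theorem e5 : (5 : E).re = 5 := rfl
theorem i5 : (5 : E).im = 0 := rfl

theorem g5_mem : GG (Fin 2) g5 := by
  refine ⟨?_, fun i j => ⟨5, by norm_num, ?_, ?_⟩⟩
  · ext i j
    · fin_cases i <;> fin_cases j <;>
        simp [g5, Matrix.mul_apply, Fin.sum_univ_two, QuadraticAlgebra.re_mul, QuadraticAlgebra.re_one] <;> norm_num
    · fin_cases i <;> fin_cases j <;>
        simp [g5, Matrix.mul_apply, Fin.sum_univ_two, QuadraticAlgebra.im_mul, QuadraticAlgebra.im_one] <;> norm_num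
  · intro p hp hd
    have : p = 5 := (Nat.prime_dvd_prime_iff_eq hp (by norm_num)).1 hd
    subst this; norm_num
  · fin_cases i <;> fin_cases j
    · exact ⟨⟨2, -1⟩, by ext <;> simp [g5, e5, i5, gi_re, gi_im] <;> norm_num⟩
    · exact ⟨⟨4, -2⟩, by ext <;> simp [g5, e5, i5, gi_re, gi_im] <;> norm_num⟩
    · exact ⟨⟨-4, 2⟩, by ext <;> simp [g5, e5, i5, gi_re, gi_im] <;> norm_num⟩
    · exact ⟨⟨2, -1⟩, by ext <;> simp [g5, e5, i5, gi_re, gi_im] <;> norm_num⟩

/-- `h(s) = g5 diag(s,1) g5ᴴ` -/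
theorem h_mem {nu : GaussianInt} (hc : IsCoprime nu (star nu)) (s : E) (hs : s ≠ 0) :
    HH nu (Fin 2) (g5 * diagonal ![s, 1] * g5ᴴ) := by
  refine ((HH.of g5_mem).mul (diag_mem hc _ ?_)).mul (HH.of g5_mem.conj)
  intro i
  fin_cases i
  · simpa using hs
  · simp

theorem ratE_ext {x y : E} (h : x.re = y.re) (h' : x.im = y.im) : x = y := by
  ext
  · exact h
  · exact h'

theorem dg (a b : E) : diagonal ![a, b] = !![a, 0; 0, b] := by
  ext1 i j
  fin_cases i <;> fin_cases j <;> simp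

theorem m2ext {a b c d a' b' c' d' : E} (h1 : a = a') (h2 : b = b') (h3 : c = c') (h4 : d = d') :
    (!![a, b; c, d] : Matrix (Fin 2) (Fin 2) E) = !![a', b'; c', d'] := by
  rw [h1, h2, h3, h4]

theorem g5_conj : g5ᴴ = !![⟨2/5, 1/5⟩, ⟨-4/5, -2/5⟩; ⟨4/5, 2/5⟩, ⟨2/5, 1/5⟩] := by
  ext1 i j
  fin_cases i <;> fin_cases j <;> apply ratE_ext <;> simp [g5] <;> norm_num

/-- the transvections in rank two -/
theorem tv2_mem {nu : GaussianInt} (hc : IsCoprime nu (star nu)) (t : E) :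
    HH nu (Fin 2) !![1, t; 0, 1] := by
  by_cases ht : t = 0
  · have : (!![1, t; 0, 1] : Matrix (Fin 2) (Fin 2) E) = 1 := by
      rw [ht]; ext i j <;> fin_cases i <;> fin_cases j <;> simp [QuadraticAlgebra.re_one, QuadraticAlgebra.im_one]
    rw [this]
    exact HH.of ⟨by simp, fun i j => by
      by_cases h : i = j
      · subst h; rw [Matrix.one_apply_eq]; exact ZZi.one_mem
      · rw [Matrix.one_apply_ne h]; exact ZZi.zero_mem⟩
  · set x : E := ⟨-1/3, 0⟩ * t with hx
    have h3 : (⟨-1/3, 0⟩ : E) ≠ 0 := by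
      intro h
      have := congrArg QuadraticAlgebra.re h
      simp at this
    have hx0 : x ≠ 0 := mul_ne_zero h3 ht
    have d1 : HH nu (Fin 2) (diagonal ![x, 1]) := diag_mem hc _ (by
      intro i; fin_cases i
      · simpa using hx0
      · simp)
    have d2 : HH nu (Fin 2) (diagonal ![⟨-2, 0⟩, ⟨-1, 0⟩]) := diag_mem hc _ (by
      intro i; fin_cases i
      · intro h; have := congrArg QuadraticAlgebra.re h; simp at this
      · intro h; have := congrArg QuadraticAlgebra.re h; simp at this)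
    have d3 : HH nu (Fin 2) (diagonal ![⟨-1/4, 0⟩, 1]) := diag_mem hc _ (by
      intro i; fin_cases i
      · intro h; have := congrArg QuadraticAlgebra.re h; simp at this
      · simp)
    have d4 : HH nu (Fin 2) (diagonal ![x⁻¹, 1]) := diag_mem hc _ (by
      intro i; fin_cases i
      · simpa using hx0
      · simp)
    have h1 := h_mem hc (⟨-1, 0⟩ : E) (by
      intro h; have := congrArg QuadraticAlgebra.re h; simp at this)
    have h2 := h_mem hc (⟨2, 0⟩ : E) (by
      intro h; have := congrArg QuadraticAlgebra.re h; simp at this)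
    have e1 : g5 * diagonal ![(⟨-1, 0⟩ : E), 1] * g5ᴴ = !![⟨3/5, 0⟩, ⟨4/5, 0⟩; ⟨4/5, 0⟩, ⟨-3/5, 0⟩] := by
      rw [g5_conj, dg, g5, Matrix.mul_fin_two, Matrix.mul_fin_two]
      apply m2ext <;> apply ratE_ext <;>
        simp [QuadraticAlgebra.re_mul, QuadraticAlgebra.re_one, QuadraticAlgebra.im_one, QuadraticAlgebra.im_mul] <;> norm_num
    have e2 : g5 * diagonal ![(⟨2, 0⟩ : E), 1] * g5ᴴ = !![⟨6/5, 0⟩, ⟨-2/5, 0⟩; ⟨-2/5, 0⟩, ⟨9/5, 0⟩] := by
      rw [g5_conj, dg, g5, Matrix.mul_fin_two, Matrix.mul_fin_two]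
      apply m2ext <;> apply ratE_ext <;>
        simp [QuadraticAlgebra.re_mul, QuadraticAlgebra.re_one, QuadraticAlgebra.im_one, QuadraticAlgebra.im_mul] <;> norm_num
    have e3 : diagonal ![(⟨-2, 0⟩ : E), ⟨-1, 0⟩] * ((g5 * diagonal ![(⟨-1, 0⟩ : E), 1] * g5ᴴ) *
        diagonal ![⟨-1/4, 0⟩, 1] * (g5 * diagonal ![(⟨2, 0⟩ : E), 1] * g5ᴴ)) =
        !![1, ⟨-3, 0⟩; 0, 1] := by
      rw [e1, e2, dg, dg, Matrix.mul_fin_two, Matrix.mul_fin_two, Matrix.mul_fin_two]
      apply m2ext <;> apply ratE_ext <;>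
        simp [QuadraticAlgebra.re_mul, QuadraticAlgebra.re_one, QuadraticAlgebra.im_one, QuadraticAlgebra.im_mul] <;> norm_num
    have e4 : (!![1, t; 0, 1] : Matrix (Fin 2) (Fin 2) E) =
        diagonal ![x, 1] * !![1, ⟨-3, 0⟩; 0, 1] * diagonal ![x⁻¹, 1] := by
      have h33 : (⟨-1/3, 0⟩ : E) * ⟨-3, 0⟩ = 1 := by
        apply ratE_ext
        · simp [QuadraticAlgebra.re_mul, QuadraticAlgebra.re_one]
        · simp [QuadraticAlgebra.im_mul, QuadraticAlgebra.im_one]
      ext1 i j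
      fin_cases i <;> fin_cases j
      · simp [Matrix.mul_apply, Fin.sum_univ_two, mul_inv_cancel₀ hx0]
      · simp only [Matrix.mul_apply, Fin.sum_univ_two]
        have h34 : (⟨-1/3, 0⟩ : E) * t * ⟨-3, 0⟩ = t := by
          rw [mul_right_comm, h33, one_mul]
        simp [hx, h34]
      · simp [Matrix.mul_apply, Fin.sum_univ_two]
      · simp [Matrix.mul_apply, Fin.sum_univ_two]
    rw [e4, ← e3]
    exact (d1.mul (d2.mul ((h1.mul d3).mul h2))).mul d4

/-- the embedding of 2x2 matrices -/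
def PP (f : Fin 2 → n) : Matrix n (Fin 2) E := Matrix.of fun k s => if k = f s then 1 else 0

def emb (f : Fin 2 → n) (A : Matrix (Fin 2) (Fin 2) E) : Matrix n n E :=
  1 + PP f * (A - 1) * (PP f)ᵀ

theorem PP_tr (f : Fin 2 → n) (hf : Function.Injective f) : (PP f)ᵀ * PP f = 1 := by
  ext1 i j
  rw [Matrix.mul_apply]
  simp only [PP, Matrix.transpose_apply, Matrix.of_apply, mul_ite, mul_one, mul_zero,
    Finset.sum_ite_eq', Finset.mem_univ, if_true, Matrix.one_apply]
  by_cases h : i = j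
  · subst h; simp
  · rw [if_neg h, if_neg (fun h' => h (hf h').symm)]

theorem PP_conj (f : Fin 2 → n) : (PP f)ᴴ = (PP f)ᵀ := by
  ext1 i j
  simp only [PP, Matrix.conjTranspose_apply, Matrix.transpose_apply, Matrix.of_apply]
  split_ifs <;> simp

theorem emb_mul (f : Fin 2 → n) (hf : Function.Injective f) (A B : Matrix (Fin 2) (Fin 2) E) :
    emb f A * emb f B = emb f (A * B) := by
  unfold emb
  have h1 : PP f * (A - 1) * (PP f)ᵀ * (PP f * (B - 1) * (PP f)ᵀ) =
      PP f * ((A - 1) * (B - 1)) * (PP f)ᵀ := by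
    calc PP f * (A - 1) * (PP f)ᵀ * (PP f * (B - 1) * (PP f)ᵀ)
        = PP f * (A - 1) * ((PP f)ᵀ * PP f) * (B - 1) * (PP f)ᵀ := by
          simp only [Matrix.mul_assoc]
      _ = _ := by rw [PP_tr f hf, Matrix.mul_one]; simp only [Matrix.mul_assoc]
  rw [Matrix.add_mul, Matrix.mul_add, Matrix.mul_add, Matrix.one_mul, Matrix.one_mul,
    Matrix.mul_one, h1]
  have h2 : A * B - 1 = (A - 1) + (B - 1) + (A - 1) * (B - 1) := by
    rw [sub_mul, mul_sub, mul_sub, one_mul, mul_one, mul_one]; abel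
  rw [h2, Matrix.mul_add, Matrix.mul_add, Matrix.add_mul, Matrix.add_mul]
  abel

theorem emb_conj (f : Fin 2 → n) (A : Matrix (Fin 2) (Fin 2) E) : (emb f A)ᴴ = emb f Aᴴ := by
  unfold emb
  rw [conjTranspose_add, conjTranspose_one, conjTranspose_mul, conjTranspose_mul, ← PP_conj,
    conjTranspose_conjTranspose, conjTranspose_sub, conjTranspose_one, Matrix.mul_assoc]

theorem emb_one (f : Fin 2 → n) : emb f 1 = 1 := by simp [emb]

theorem emb_GG (f : Fin 2 → n) (hf : Function.Injective f) {A : Matrix (Fin 2) (Fin 2) E}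
    (hA : GG (Fin 2) A) : GG n (emb f A) := by
  refine ⟨?_, fun i j => ?_⟩
  · rw [emb_conj, emb_mul f hf, hA.1, emb_one]
  · unfold emb
    rw [Matrix.add_apply, Matrix.mul_apply]
    have h2 : ∀ k s, PP f k s ∈ ZZi := by
      intro k s
      simp only [PP, Matrix.of_apply]
      split_ifs
      · exact ZZi.one_mem
      · exact ZZi.zero_mem
    refine ZZi.add_mem ?_ (ZZi.sum_mem fun k _ => ZZi.mul_mem ?_ (h2 _ _))
    · by_cases h : i = j
      · subst h; rw [Matrix.one_apply_eq]; exact ZZi.one_mem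
      · rw [Matrix.one_apply_ne h]; exact ZZi.zero_mem
    · rw [Matrix.mul_apply]
      refine ZZi.sum_mem fun l _ => ZZi.mul_mem (h2 _ _) ?_
      rw [Matrix.sub_apply]
      refine ZZi.sub_mem (hA.2 _ _) ?_
      by_cases h : l = k
      · subst h; rw [Matrix.one_apply_eq]; exact ZZi.one_mem
      · rw [Matrix.one_apply_ne h]; exact ZZi.zero_mem

theorem emb_HH {nu : GaussianInt} (f : Fin 2 → n) (hf : Function.Injective f)
    {A : Matrix (Fin 2) (Fin 2) E} (hA : HH nu (Fin 2) A) : HH nu n (emb f A) := by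
  intro K
  obtain ⟨u, hu, hu'⟩ := hA K
  refine ⟨emb f u, emb_GG f hf hu, fun i j => ?_⟩
  have e1 : emb f u i j - emb f A i j = (PP f * (u - A) * (PP f)ᵀ) i j := by
    rw [← Matrix.sub_apply]
    congr 1
    unfold emb
    rw [add_sub_add_left_eq_sub, ← Matrix.sub_mul, ← Matrix.mul_sub, sub_sub_sub_cancel_right]
  have h2 : ∀ k s, gi nu ^ 0 * PP f k s ∈ OO nu := by
    intro k s
    simp only [PP, Matrix.of_apply, pow_zero, one_mul]
    split_ifs
    · exact (OO nu).one_mem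
    · exact (OO nu).zero_mem
  rw [e1, Matrix.mul_apply]
  refine Cong.sum _ _ fun k _ => ?_
  rw [mul_comm]
  refine Cong.mul (k := 0) (h2 _ _) ?_
  rw [Matrix.mul_apply]
  refine Cong.sum _ _ fun l _ => ?_
  refine Cong.mul (k := 0) (h2 _ _) ?_
  rw [Matrix.sub_apply]
  exact hu' l k

theorem emb_transvection (i j : n) (hij : i ≠ j) (t : E) :
    emb ![i, j] !![1, t; 0, 1] = Matrix.transvection i j t := by
  unfold emb Matrix.transvection
  congr 1
  have h1 : (!![1, t; 0, 1] : Matrix (Fin 2) (Fin 2) E) - 1 = !![0, t; 0, 0] := by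
    rw [Matrix.one_fin_two]
    ext1 a b
    fin_cases a <;> fin_cases b <;> simp
  rw [h1]
  ext1 a b
  rw [Matrix.mul_apply]
  simp only [Matrix.mul_apply, Fin.sum_univ_two, PP, Matrix.of_apply, Matrix.transpose_apply]
  simp only [Matrix.single_apply]
  by_cases ha : i = a
  · subst ha
    by_cases hb : j = b
    · subst hb; simp
    · simp [hb, Ne.symm hb]
  · simp [ha, Ne.symm ha]

theorem transvection_mem {nu : GaussianInt} (hc : IsCoprime nu (star nu))
    (t : TransvectionStruct n E) : HH nu n t.toMatrix := by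
  rw [TransvectionStruct.toMatrix, ← emb_transvection t.i t.j t.hij]
  refine emb_HH _ ?_ (tv2_mem hc _)
  intro a b hab
  fin_cases a <;> fin_cases b
  · rfl
  · exact absurd hab t.hij
  · exact absurd hab.symm t.hij
  · rfl

theorem HH.one {nu : GaussianInt} : HH nu n 1 := by
  refine HH.of ⟨by simp, fun i j => ?_⟩
  by_cases h : i = j
  · subst h; rw [Matrix.one_apply_eq]; exact ZZi.one_mem
  · rw [Matrix.one_apply_ne h]; exact ZZi.zero_mem

theorem list_mem {nu : GaussianInt} (hc : IsCoprime nu (star nu))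
    (L : List (TransvectionStruct n E)) : HH nu n (L.map TransvectionStruct.toMatrix).prod := by
  induction L with
  | nil => simpa using HH.one
  | cons t L ih =>
    rw [List.map_cons, List.prod_cons]
    exact (transvection_mem hc t).mul ih

/-- **Density**, `u - g ∈ nu^K M_n(OO)` -/
theorem density0 {nu : GaussianInt} (hc : IsCoprime nu (star nu)) (g : Matrix n n E)
    (hg : g.det ≠ 0) (K : ℕ) : ∃ u : Matrix n n E, uᴴ * u = 1 ∧ (∀ i j, u i j ∈ ZZi) ∧
      ∀ i j, Cong nu K (u i j - g i j) := by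
  obtain ⟨L, L', D, h⟩ := Matrix.Pivot.exists_list_transvec_mul_diagonal_mul_list_transvec g
  have hD : ∀ i, D i ≠ 0 := by
    intro i hi
    apply hg
    rw [h, det_mul, det_mul, det_diagonal, Finset.prod_eq_zero (Finset.mem_univ i) hi]
    ring
  have := (((list_mem hc L).mul (diag_mem hc D hD)).mul (list_mem hc L')) K
  rw [← h] at this
  obtain ⟨u, hu, hu'⟩ := this
  exact ⟨u, hu.1, hu.2, hu'⟩

/-- **Density**, `g⁻¹ u - 1 ∈ nu^K M_n(OO)` -/
theorem density' {nu : GaussianInt} (hc : IsCoprime nu (star nu)) (g : Matrix n n E)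
    (hg : g.det ≠ 0) (K : ℕ) : ∃ u : Matrix n n E, uᴴ * u = 1 ∧ (∀ i j, u i j ∈ ZZi) ∧
      ∀ i j, Cong nu K ((g⁻¹ * u - 1) i j) := by
  obtain ⟨k, hk⟩ := exists_pow_mat nu g⁻¹
  obtain ⟨u, h1, h2, h3⟩ := density0 hc g hg (K + k)
  refine ⟨u, h1, h2, fun i j => ?_⟩
  have e : g⁻¹ * u - 1 = g⁻¹ * (u - g) := by
    rw [mul_sub, Matrix.nonsing_inv_mul g (isUnit_iff_ne_zero.2 hg)]
  rw [e, Matrix.mul_apply]
  exact Cong.sum _ _ fun l _ => Cong.mul (hk i l) (h3 l j)


/-! ### the number `ν` -/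

theorem coprime_w_self (p : P1) : IsCoprime (w p) (star (w p)) := by
  obtain ⟨hp, hp4⟩ := p.2
  have h1 := w_mul_star p
  set z := w p with hz
  have h2 : z.re ^ 2 + z.im ^ 2 = (p.1 : ℤ) := by
    have := congrArg Zsqrtd.re h1
    simp only [Zsqrtd.re_mul, Zsqrtd.re_star, Zsqrtd.im_star, Zsqrtd.re_natCast] at this
    linarith
  have hcop : IsCoprime (2 * z.re) (p.1 : ℤ) := by
    apply IsCoprime.mul_left
    · rw [show (2 : ℤ) = ((2 : ℕ) : ℤ) by rfl, Nat.isCoprime_iff_coprime]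
      exact (Nat.coprime_primes Nat.prime_two hp).2 (by rintro h; rw [← h] at hp4; norm_num at hp4)
    · rw [isCoprime_comm]
      rw [Prime.coprime_iff_not_dvd (Nat.prime_iff_prime_int.1 hp)]
      intro hd
      by_cases h0 : z.re = 0
      · rw [h0] at h2
        have h3 : (p.1 : ℤ) = z.im * z.im := by rw [← h2]; ring
        have h4 := (Nat.prime_iff_prime_int.1 hp).irreducible
        rw [h3] at h4
        rcases of_irreducible_mul h4 with h5 | h5 <;>
        · have := h4.not_isUnit (h5.mul h5)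
          exact this
      · have h5 := Int.le_of_dvd (by positivity) ((dvd_abs _ _).2 hd)
        have h6 : 0 < |z.re| := abs_pos.2 h0
        have h7 : |z.re| ^ 2 = z.re ^ 2 := sq_abs z.re
        have h8 : (2 : ℤ) ≤ p.1 := by exact_mod_cast hp.two_le
        nlinarith [sq_nonneg z.im]
  obtain ⟨x, y, hxy⟩ := hcop
  have h3 : z + star z = ((2 * z.re : ℤ) : GaussianInt) := by
    apply Zsqrtd.ext
    · simp only [Zsqrtd.re_add, Zsqrtd.re_star, Zsqrtd.re_intCast]; ring
    · simp only [Zsqrtd.im_add, Zsqrtd.im_star, Zsqrtd.im_intCast]; ring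
  refine ⟨(x : GaussianInt), (x : GaussianInt) + (y : GaussianInt) * z, ?_⟩
  have h4 : ((x * (2 * z.re) + y * (p.1 : ℤ) : ℤ) : GaussianInt) = 1 := by rw [hxy]; simp
  calc (x : GaussianInt) * z + ((x : GaussianInt) + (y : GaussianInt) * z) * star z
      = (x : GaussianInt) * (z + star z) + (y : GaussianInt) * (z * star z) := by ring
    _ = (x : GaussianInt) * ((2 * z.re : ℤ) : GaussianInt) + (y : GaussianInt) * (p.1 : GaussianInt) := by
        rw [h3, h1]
    _ = 1 := by rw [← h4]; push_cast; ring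

theorem coprime_w (p q : P1) : IsCoprime (w p) (star (w q)) := by
  by_cases h : p = q
  · subst h; exact coprime_w_self p
  · have h1 : IsCoprime (p.1 : GaussianInt) (q.1 : GaussianInt) := by
      have : IsCoprime (p.1 : ℤ) (q.1 : ℤ) := Nat.isCoprime_iff_coprime.2
        ((Nat.coprime_primes p.2.1 q.2.1).2 (fun h' => h (Subtype.ext h')))
      have := this.map (Int.castRingHom GaussianInt)
      simpa using this
    refine IsCoprime.of_isCoprime_of_dvd_left (IsCoprime.of_isCoprime_of_dvd_right h1 ?_) ?_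
    · exact ⟨w q, by rw [← w_mul_star q]; ring⟩
    · exact ⟨star (w p), by rw [← w_mul_star p]⟩

theorem coprime_nu (Φ : Finset P1) : IsCoprime (nu Φ) (star (nu Φ)) := by
  classical
  unfold nu
  rw [star_prod]
  exact IsCoprime.prod_left fun p _ => IsCoprime.prod_right fun q _ => coprime_w p q

theorem OO_le (Φ : Finset P1) : OO (nu Φ) ≤ OP Φ := by
  rintro x ⟨a, d, -, h, h'⟩
  exact ⟨a, d, h, h'⟩

end D13

/-- An element of norm one of `ℚ(i)` lies in `ℤ[1/p : p ≡ 1 mod 4][i]`. -/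
theorem norm_one_mem {u : E} (h : star u * u = 1) : u ∈ ZZi := D13.norm_one_mem' u h

theorem density (Φ : Finset P1) {c : ℕ} (g : Matrix (Fin c) (Fin c) E) (hg : g.det ≠ 0) (K : ℕ) :
    ∃ u : Matrix (Fin c) (Fin c) E, uᴴ * u = 1 ∧ (∀ i j, u i j ∈ ZZi) ∧
      ∀ i j, nuE Φ ^ (-(K : ℤ)) * (g⁻¹ * u - 1) i j ∈ OP Φ := by
  obtain ⟨u, h1, h2, h3⟩ := D13.density' (D13.coprime_nu Φ) g hg K
  refine ⟨u, h1, h2, fun i j => ?_⟩
  obtain ⟨y, hy, h4⟩ := h3 i j
  rw [h4]
  have : nuE Φ ^ (-(K : ℤ)) * (gi (nu Φ) ^ K * y) = y := by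
    have h5 : gi (nu Φ) ≠ 0 := nuE_ne_zero Φ
    rw [nuE, _root_.zpow_neg, zpow_natCast, ← mul_assoc, inv_mul_cancel₀ (pow_ne_zero K h5), one_mul]
  rw [this]
  exact D13.OO_le Φ hy

end St16I
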