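import Pool.Agent.LibSt16.IO1
import Pool.Agent.LibSt16.ID1

/-!
ST16 IO2. The inclusion of `Y_Φ(1)` into `Y_Φ(c+1)`: types, groups.

Plan. `ty_incY`: for `A ≤ B` the map `v ↦ v 0` induces a bijection `inc B / inc A → B / A`
(`AddSubgroup.relIndex` by `Nat.card` of the quotients, or `AddSubgroup.relIndex_comap`: `inc A` is the intersection of `inc B` with the
preimage of `A`). `iota_smul`: `mem_act`. `det_mem`: the determinant `u` of `g` has `star u * u = 1`, so `u ∈ ZZi` (`norm_one_mem`).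
-/

namespace St16I

open Matrix QuadraticAlgebra

variable {Φ : Finset P1} {c : ℕ}

/-- the first coordinate -/
private def IO2_f (c : ℕ) : (Fin (c + 1) → E) →+ (Fin 1 → E) where
  toFun v := fun _ => v 0
  map_zero' := rfl
  map_add' _ _ := rfl

private theorem IO2_relIndex (A B : Submodule (OP Φ) (Fin 1 → E)) :
    (incS (c := c) A).toAddSubgroup.relIndex (incS (c := c) B).toAddSubgroup =
      A.toAddSubgroup.relIndex B.toAddSubgroup := by
  have h1 : (incS (c := c) A).toAddSubgroup ⊓ (incS (c := c) B).toAddSubgroup =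
      (A.toAddSubgroup.comap (IO2_f c)) ⊓ (incS (c := c) B).toAddSubgroup := by
    ext v
    constructor
    · rintro ⟨h1, h2⟩
      exact ⟨h1.1, h2⟩
    · rintro ⟨h1, h2⟩
      exact ⟨⟨h1, h2.2⟩, h2⟩
  have h2 : (incS (c := c) B).toAddSubgroup.map (IO2_f c) = B.toAddSubgroup := by
    ext v
    constructor
    · rintro ⟨u, hu, rfl⟩
      exact hu.1
    · intro hv
      refine ⟨Fin.cons (v 0) fun _ => 0, ⟨?_, ?_⟩, ?_⟩
      · have : (fun _ : Fin 1 => (Fin.cons (v 0) (fun _ => 0) : Fin (c + 1) → E) 0) = v := by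
          funext i
          rw [Fin.cons_zero, Subsingleton.elim i 0]
        rw [this]
        exact hv
      · intro i
        rw [Fin.cons_succ]
        exact Subring.zero_mem _
      · funext i
        change (Fin.cons (v 0) (fun _ => 0) : Fin (c + 1) → E) 0 = v i
        rw [Fin.cons_zero, Subsingleton.elim i 0]
  rw [← AddSubgroup.inf_relIndex_right, h1, AddSubgroup.inf_relIndex_right,
    AddSubgroup.relIndex_comap, h2]

theorem ty_incY {q : ℕ} (s : Y Φ 1 q) : ty (incY (c := c) s) = ty s := by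
  funext k
  exact IO2_relIndex (s.1 k.castSucc).1 (s.1 k.succ).1

private theorem IO2_inv (g : GL (Fin 1) E) :
    (↑(iota c g)⁻¹ : Matrix (Fin (c + 1)) (Fin (c + 1)) E) =
      Matrix.diagonal (Fin.cons ((↑g⁻¹ : Matrix (Fin 1) (Fin 1) E) 0 0) fun _ => 1) := rfl

private theorem IO2_val (g : GL (Fin 1) E) :
    (iota c g : Matrix (Fin (c + 1)) (Fin (c + 1)) E) =
      Matrix.diagonal (Fin.cons ((g : Matrix (Fin 1) (Fin 1) E) 0 0) fun _ => 1) := rfl

private theorem IO2_act (g : GL (Fin 1) E) (A : Submodule (OP Φ) (Fin 1 → E)) :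
    act (iota c g) (incS (c := c) A) = incS (act g A) := by
  ext v
  rw [mem_act, IO2_inv]
  have h0 : (fun _ : Fin 1 => ((Matrix.diagonal (Fin.cons ((↑g⁻¹ : Matrix (Fin 1) (Fin 1) E) 0 0) fun _ => 1) :
      Matrix (Fin (c + 1)) (Fin (c + 1)) E) *ᵥ v) 0) =
      (↑g⁻¹ : Matrix (Fin 1) (Fin 1) E) *ᵥ (fun _ => v 0) := by
    funext i
    rw [Matrix.mulVec_diagonal, Fin.cons_zero, Matrix.mulVec, dotProduct, Fin.sum_univ_one,
      Subsingleton.elim i 0]
  have h1 : ∀ i : Fin c, ((Matrix.diagonal (Fin.cons ((↑g⁻¹ : Matrix (Fin 1) (Fin 1) E) 0 0) fun _ => 1) :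
      Matrix (Fin (c + 1)) (Fin (c + 1)) E) *ᵥ v) i.succ = v i.succ := by
    intro i
    rw [Matrix.mulVec_diagonal, Fin.cons_succ, one_mul]
  constructor
  · rintro ⟨ha, hb⟩
    refine ⟨?_, fun i => ?_⟩
    · rw [mem_act, ← h0]
      exact ha
    · rw [← h1 i]
      exact hb i
  · rintro ⟨ha, hb⟩
    rw [mem_act, ← h0] at ha
    refine ⟨ha, fun i => ?_⟩
    rw [h1 i]
    exact hb i

theorem iota_smul (g : GL (Fin 1) E) {q : ℕ} (s : Y Φ 1 q) : iota c g • incY (c := c) s = incY (g • s) := by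
  apply Subtype.ext
  funext k
  apply Subtype.ext
  exact IO2_act g (s.1 k).1

private theorem IO2_mem (R : Subring E) (hR : ∀ z ∈ R, star z ∈ R) {g : GL (Fin 1) E} :
    iota c g ∈ UU R hR (c + 1) ↔ g ∈ UU R hR 1 := by
  constructor
  · rintro ⟨h1, h2⟩
    rw [IO2_val] at h1
    rw [IO2_val] at h2
    have h3 : (g : Matrix (Fin 1) (Fin 1) E) 0 0 ∈ R := by
      have := h2 0 0
      rwa [Matrix.diagonal_apply_eq, Fin.cons_zero] at this
    have h4 : star ((g : Matrix (Fin 1) (Fin 1) E) 0 0) * (g : Matrix (Fin 1) (Fin 1) E) 0 0 = 1 := by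
      have := congrFun (congrFun h1 0) 0
      rw [Matrix.diagonal_conjTranspose, Matrix.diagonal_mul_diagonal, Matrix.diagonal_apply_eq,
        Pi.star_apply, Fin.cons_zero, Matrix.one_apply_eq] at this
      exact this
    refine ⟨?_, fun i j => ?_⟩
    · refine Matrix.ext fun i j => ?_
      rw [Subsingleton.elim i 0, Subsingleton.elim j 0, Matrix.mul_apply, Fin.sum_univ_one,
        Matrix.conjTranspose_apply, h4, Matrix.one_apply_eq]
    · rw [Subsingleton.elim i 0, Subsingleton.elim j 0]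
      exact h3
  · rintro ⟨h1, h2⟩
    have h4 : star ((g : Matrix (Fin 1) (Fin 1) E) 0 0) * (g : Matrix (Fin 1) (Fin 1) E) 0 0 = 1 := by
      have := congrFun (congrFun h1 0) 0
      rwa [Matrix.mul_apply, Fin.sum_univ_one, Matrix.conjTranspose_apply, Matrix.one_apply_eq] at this
    refine ⟨?_, fun i j => ?_⟩
    · rw [IO2_val, Matrix.diagonal_conjTranspose, Matrix.diagonal_mul_diagonal, ← Matrix.diagonal_one]
      congr 1
      funext i
      refine Fin.cases ?_ (fun i => ?_) i
      · rw [Pi.star_apply, Fin.cons_zero, h4]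
      · rw [Pi.star_apply, Fin.cons_succ, star_one, one_mul]
    · rw [IO2_val, Matrix.diagonal_apply]
      split_ifs with hij
      · refine Fin.cases ?_ (fun i => ?_) i
        · rw [Fin.cons_zero]
          exact h2 0 0
        · rw [Fin.cons_succ]
          exact Subring.one_mem _
      · exact Subring.zero_mem _

theorem iota_mem_Ga {g : GL (Fin 1) E} : iota c g ∈ Ga Φ (c + 1) ↔ g ∈ Ga Φ 1 := by
  exact IO2_mem _ _

theorem iota_mem_Gc {g : GL (Fin 1) E} : iota c g ∈ Gc (c + 1) ↔ g ∈ Gc 1 := by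
  exact IO2_mem _ _

theorem det_iota (g : GL (Fin 1) E) :
    (iota c g : Matrix (Fin (c + 1)) (Fin (c + 1)) E).det = (g : Matrix (Fin 1) (Fin 1) E) 0 0 := by
  rw [IO2_val, Matrix.det_diagonal, Fin.prod_univ_succ, Fin.cons_zero]
  simp only [Fin.cons_succ, Finset.prod_const_one, mul_one]

/-- The determinant of an element of `G_c`, as an element of `G_1`. -/
theorem det_mem (g : GL (Fin c) E) (hg : g ∈ Gc c) :
    ∃ u ∈ Gc 1, (u : Matrix (Fin 1) (Fin 1) E) 0 0 = (g : Matrix (Fin c) (Fin c) E).det := by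
  obtain ⟨h1, -⟩ := hg
  set u : E := (g : Matrix (Fin c) (Fin c) E).det with hu
  have h2 : star u * u = 1 := by
    have := congrArg Matrix.det h1
    rwa [Matrix.det_mul, Matrix.det_conjTranspose, Matrix.det_one, ← hu] at this
  have h3 : u * star u = 1 := by rw [mul_comm]; exact h2
  have hmem : u ∈ ZZi := norm_one_mem h2
  have ha : (Matrix.of fun _ _ : Fin 1 => u) * (Matrix.of fun _ _ : Fin 1 => star u) = 1 := by
    refine Matrix.ext fun i j => ?_
    rw [Subsingleton.elim i 0, Subsingleton.elim j 0, Matrix.mul_apply, Fin.sum_univ_one,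
      Matrix.of_apply, Matrix.of_apply, h3, Matrix.one_apply_eq]
  have hb : (Matrix.of fun _ _ : Fin 1 => star u) * (Matrix.of fun _ _ : Fin 1 => u) = 1 := by
    refine Matrix.ext fun i j => ?_
    rw [Subsingleton.elim i 0, Subsingleton.elim j 0, Matrix.mul_apply, Fin.sum_univ_one,
      Matrix.of_apply, Matrix.of_apply, h2, Matrix.one_apply_eq]
  refine ⟨⟨Matrix.of fun _ _ => u, Matrix.of fun _ _ => star u, ha, hb⟩, ⟨?_, fun i j => hmem⟩, rfl⟩
  refine Matrix.ext fun i j => ?_
  rw [Subsingleton.elim i 0, Subsingleton.elim j 0, Matrix.mul_apply, Fin.sum_univ_one,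
    Matrix.conjTranspose_apply, Matrix.one_apply_eq]
  exact h2

end St16I
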