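import Pool.Agent.LibSt16.HCu
import Pool.Agent.LibSt16.IO2

/-!
LibSt16/HCub: the vanishing statement `Van` (block I, second half; definitions, helper60).
-/

set_option autoImplicit false

noncomputable section

namespace St16H

open St16I

/-- `iota` as a homomorphism `G_1 → G_(c+1)`. -/
def iotaG (c : ℕ) : ↥(Gc 1) →* ↥(Gc (c + 1)) where
  toFun g := ⟨iota c g.1, iota_mem_Gc.2 g.2⟩
  map_one' := Subtype.ext (map_one (iota c))
  map_mul' g h := Subtype.ext (map_mul (iota c) g.1 h.1)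

/-- The vanishing statement for `Φ` and `c + 1`. -/
def Van (Φ : Finset P1) (c : ℕ) : Prop :=
  ∀ (j : ℕ) (φ : HCube ↥(Gc (c + 1)) (j + 1) → ℝ),
    (∀ g x, φ (x.act g) = φ x) → (∀ x, x.Dg → φ x = 0) → (∀ x, HCube.cb φ x = 0) →
    (∀ x : HCube ↥(Gc 1) (j + 1), φ (x.map (iotaG c)) = 0) →
    ∃ ψ : HCube ↥(Gc (c + 1)) j → ℝ,
      (∀ g : ↥(Gc (c + 1)), g.1 ∈ Ga Φ (c + 1) → ∀ x, ψ (x.act g) = ψ x) ∧
      (∀ x, x.Dg → ψ x = 0) ∧ ∀ x, φ x = HCube.cb ψ x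

end St16H
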