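import Pool.Agent.LibSt16.H0

/-!
[ST16 HM1] cut-off functions; finite index subgroups (helper60).

Plan `FinAct.cut`. `T` finite, meets every orbit. For each `x` the set `W x = {g : Γ | g • x ∈ T}` is finite (for each `t ∈ T` it is
empty or a coset of the stabiliser of `x`) and nonempty. `N x = #W x` satisfies `N (g • x) = N x` for `g ∈ Γ` (`W (g • x) = W x * g⁻¹`).
`c x = if x ∈ T then 1 / N x else 0`; `∑ᶠ g, c (g • x) = ∑_{g ∈ W x} 1 / N x = 1`.
Plan `FinAct.of_finite_index`: `H ≤ Γ` of finite relative index: representatives `g_1 .. g_k` of `Γ / (H ∩ Γ)`: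
`Γ = ⋃ H g_i` (right cosets: invert); `T' = ⋃ g_i • T`.
-/

set_option autoImplicit false

noncomputable section

namespace St16H

variable {G X : Type} [Group G] [MulAction G X] {Γ : Subgroup G}

theorem FinAct.cut (h : FinAct X Γ) : ∃ c : X → ℝ, IsCut Γ c := by
  classical
  obtain ⟨T, hT, hcov⟩ := h.orb
  let W : X → Set Γ := fun x => {g : Γ | (g : G) • x ∈ T}
  have hWfin : ∀ x, (W x).Finite := by
    intro x
    have h1 : ∀ t ∈ T, ({g : Γ | (g : G) • x = t}).Finite := by
      intro t _
      by_cases hne : ∃ g : Γ, (g : G) • x = t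
      · obtain ⟨g0, hg0⟩ := hne
        have hinj : Function.Injective fun g : Γ => (g0 : G)⁻¹ * (g : G) := by
          intro a b hab
          exact Subtype.ext (mul_left_cancel hab)
        refine ((h.stab x).preimage hinj.injOn).subset ?_
        intro g hg
        have hg' : (g : G) • x = t := hg
        refine ⟨Γ.mul_mem (Γ.inv_mem g0.2) g.2, ?_⟩
        rw [mul_smul, hg', ← hg0, inv_smul_smul]
      · have : {g : Γ | (g : G) • x = t} = ∅ := by
          rw [Set.eq_empty_iff_forall_notMem]
          intro g hg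
          exact hne ⟨g, hg⟩
        rw [this]
        exact Set.finite_empty
    refine (hT.biUnion h1).subset ?_
    intro g hg
    have hg' : (g : G) • x ∈ T := hg
    exact Set.mem_biUnion hg' rfl
  have hWne : ∀ x, (W x).Nonempty := by
    intro x
    obtain ⟨g, hg, t, ht, hgt⟩ := hcov x
    refine ⟨⟨g⁻¹, Γ.inv_mem hg⟩, ?_⟩
    change g⁻¹ • x ∈ T
    rw [← hgt, inv_smul_smul]
    exact ht
  have hN : ∀ (g : Γ) (x : X), (W ((g : G) • x)).ncard = (W x).ncard := by
    intro g x
    have hinj : Function.Injective fun k : Γ => k * g := mul_left_injective g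
    have himg : (fun k : Γ => k * g) '' W ((g : G) • x) = W x := by
      ext k
      constructor
      · rintro ⟨k, hk, rfl⟩
        have hk' : (k : G) • (g : G) • x ∈ T := hk
        change ((k * g : Γ) : G) • x ∈ T
        rw [Subgroup.coe_mul, mul_smul]
        exact hk'
      · intro hk
        have hk' : (k : G) • x ∈ T := hk
        refine ⟨k * g⁻¹, ?_, ?_⟩
        · change ((k * g⁻¹ : Γ) : G) • (g : G) • x ∈ T
          rw [← mul_smul, ← Subgroup.coe_mul, inv_mul_cancel_right]
          exact hk'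
        · change k * g⁻¹ * g = k
          rw [inv_mul_cancel_right]
    rw [← himg, Set.ncard_image_of_injective _ hinj]
  refine ⟨fun x => if x ∈ T then 1 / ((W x).ncard : ℝ) else 0, ?_, ?_, ?_, ?_⟩
  · intro x
    split_ifs
    · positivity
    · exact le_rfl
  · refine hT.subset ?_
    intro x hx
    by_contra hxT
    exact hx (if_neg hxT)
  · intro x
    refine (hWfin x).subset ?_
    intro g hg
    by_contra hgT
    exact hg (if_neg hgT)
  · intro x
    rw [finsum_eq_sum_of_support_subset (s := (hWfin x).toFinset)]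
    · have h2 : ∀ g ∈ (hWfin x).toFinset,
          (if (g : G) • x ∈ T then 1 / ((W ((g : G) • x)).ncard : ℝ) else 0) =
            1 / ((W x).ncard : ℝ) := by
        intro g hg
        rw [Set.Finite.mem_toFinset] at hg
        have hg' : (g : G) • x ∈ T := hg
        rw [if_pos hg', hN]
      rw [Finset.sum_congr rfl h2, Finset.sum_const, nsmul_eq_mul,
        ← Set.ncard_eq_toFinset_card _ (hWfin x)]
      have hpos : ((W x).ncard : ℝ) ≠ 0 := by
        have : 0 < (W x).ncard := (Set.ncard_pos (hWfin x)).2 (hWne x)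
        exact_mod_cast this.ne'
      field_simp
    · intro g hg
      rw [Set.Finite.coe_toFinset]
      by_contra hgT
      exact hg (if_neg hgT)

theorem FinAct.of_finite_index (h : FinAct X Γ) (H : Subgroup G) (hH : H ≤ Γ) (hi : H.relIndex Γ ≠ 0) :
    FinAct X H := by
  classical
  refine ⟨fun x => ((h.stab x).subset ?_), ?_⟩
  · rintro g ⟨hg, hgx⟩
    exact ⟨hH hg, hgx⟩
  · obtain ⟨T, hT, hcov⟩ := h.orb
    have : (H.subgroupOf Γ).FiniteIndex := ⟨hi⟩
    have : Finite (Γ ⧸ H.subgroupOf Γ) := Subgroup.finite_quotient_of_finiteIndex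
    refine ⟨⋃ q : Γ ⧸ H.subgroupOf Γ, (fun t => ((q.out : Γ) : G)⁻¹ • t) '' T,
      Set.finite_iUnion fun q => hT.image _, ?_⟩
    intro x
    obtain ⟨g, hg, t, ht, hgt⟩ := hcov x
    let g' : Γ := ⟨g, hg⟩
    let q : Γ ⧸ H.subgroupOf Γ := QuotientGroup.mk g'⁻¹
    obtain ⟨k, hk⟩ := QuotientGroup.mk_out_eq_mul (H.subgroupOf Γ) g'⁻¹
    have hkH : ((k : Γ) : G) ∈ H := k.2
    refine ⟨((k : Γ) : G), hkH, ((q.out : Γ) : G)⁻¹ • t, ?_, ?_⟩
    · exact Set.mem_iUnion.2 ⟨q, t, ht, rfl⟩
    · have h1 : ((q.out : Γ) : G) = g⁻¹ * ((k : Γ) : G) := by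
        have := congrArg (fun z : Γ => (z : G)) hk
        simpa using this
      rw [← mul_smul, h1, mul_inv_rev, inv_inv, mul_inv_cancel_left, hgt]

end St16H
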