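import Pool.Agent.LibSt16.IBr2

/-!
ST16 IBr3 (helper36). The bridge from the vanishing statement `Van` to `KerExact detH`: the proof.
-/

set_option autoImplicit false

noncomputable section

namespace St16I

open Matrix QuadraticAlgebra St16 St16H

variable (c : ℕ)

/-! ### Chains -/

/-- the section on chains -/
def sgC : Ch sysA →ₗ[ℚ] Ch sysU := Finsupp.lmapDomain ℚ ℚ (sg c)

theorem sgC_single (C : Cb sysA) (a : ℚ) : sgC c (Finsupp.single C a) = Finsupp.single (sg c C) a :=
  Finsupp.mapDomain_single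

theorem sgC_DegC {z : Ch sysA} (h : z ∈ DegC sysA) : sgC c z ∈ DegC sysU := by
  classical
  intro C hC
  have h1 := Finsupp.mapDomain_support hC
  rw [Finset.mem_image] at h1
  obtain ⟨D, hD, rfl⟩ := h1
  exact sg_Dg c (h hD)

theorem bd_single {G P : Type} [Group G] [Preorder P] [MulAction G P] {S : Sys G P} (C : Cb S) (a : ℚ) :
    St16.bd (Finsupp.single C a) = a • bd1 C := Finsupp.linearCombination_single _ _ _

theorem sgC_bd1 (C : Cb sysA) : sgC c (bd1 C) = bd1 (sg c C) := by
  unfold bd1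
  rw [map_sum]
  refine Finset.sum_congr rfl fun k hk => ?_
  rw [Finset.mem_range] at hk
  rw [map_smul, map_sub, sgC_single, sgC_single, sg_face c C true k hk, sg_face c C false k hk]

theorem sgC_bd (z : Ch sysA) : sgC c (St16.bd z) = St16.bd (sgC c z) := by
  induction z using Finsupp.induction_linear with
  | zero => simp
  | add u v hu hv => rw [map_add, map_add, map_add, map_add, hu, hv]
  | single C a => rw [bd_single, map_smul, sgC_bd1, sgC_single, bd_single]

theorem ch_single (C : Cb sysU) (a : ℚ) : detH.ch (Finsupp.single C a) = Finsupp.single (detH.cb C) a :=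
  Finsupp.mapDomain_single

theorem ch_bd1 (C : Cb sysU) : detH.ch (bd1 C) = bd1 (detH.cb C) := by
  unfold bd1
  rw [map_sum]
  refine Finset.sum_congr rfl fun k hk => ?_
  rw [Finset.mem_range] at hk
  rw [map_smul, map_sub, ch_single, ch_single, cb_face C true k hk, cb_face C false k hk]

theorem ch_bd (z : Ch sysU) : detH.ch (St16.bd z) = St16.bd (detH.ch z) := by
  induction z using Finsupp.induction_linear with
  | zero => simp
  | add u v hu hv => rw [map_add, map_add, map_add, map_add, hu, hv]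
  | single C a => rw [bd_single, map_smul, ch_bd1, ch_single, bd_single]

theorem det_Dg {C : Cb sysU} (h : C.Dg) : (detH.cb C).Dg := by
  obtain ⟨k, hk, hd⟩ := h
  refine ⟨k, hk, fun s s' hs => ⟨?_, rfl⟩⟩
  change detT (C.y s) = detT (C.y s')
  rw [(hd s s' hs).1]

theorem ch_DegC {z : Ch sysU} (h : z ∈ DegC sysU) : detH.ch z ∈ DegC sysA := by
  classical
  intro C hC
  have h1 := Finsupp.mapDomain_support hC
  rw [Finset.mem_image] at h1
  obtain ⟨D, hD, rfl⟩ := h1
  exact det_Dg (h hD)

theorem ch_sgC_ch {r q : ℕ} (hr : r = c + 1) {z : Ch sysU} (h : z ∈ ChN sysU r q) :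
    detH.ch (sgC c (detH.ch z)) = detH.ch z := by
  have h1 : ∀ C ∈ z.support, sg c (detH.cb C) ∈ {D : Cb sysU | detH.cb D = detH.cb C} := by
    intro C hC
    have hC' := h hC
    refine cb_sg c ?_
    change 1 * C.r = c + 1
    rw [one_mul, hC'.1, hr]
  change Finsupp.mapDomain detH.cb (Finsupp.mapDomain (sg c) (Finsupp.mapDomain detH.cb z)) =
    Finsupp.mapDomain detH.cb z
  rw [← Finsupp.mapDomain_comp, ← Finsupp.mapDomain_comp]
  exact Finsupp.mapDomain_congr fun C hC => h1 C hC

theorem sgC_mem {r q : ℕ} {z : Ch sysA} (h : z ∈ ChN sysA r q) : sgC c z ∈ ChN sysU (c + 1) q := by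
  classical
  intro C hC
  have h1 := Finsupp.mapDomain_support hC
  rw [Finset.mem_image] at h1
  obtain ⟨D, hD, rfl⟩ := h1
  exact ⟨rfl, (h hD).2⟩

theorem ch_mem {r q : ℕ} {z : Ch sysU} (h : z ∈ ChN sysU r q) : detH.ch z ∈ ChN sysA r q := by
  classical
  intro C hC
  have h1 := Finsupp.mapDomain_support hC
  rw [Finset.mem_image] at h1
  obtain ⟨D, hD, rfl⟩ := h1
  refine ⟨?_, (h hD).2⟩
  change 1 * D.r = r
  rw [one_mul]
  exact (h hD).1

/-! ### Dimension 0 -/

theorem eq_zero_of_dim_zero {z : Ch sysU} (hz : z ∈ ChN sysU (c + 1) 0) (hd : detH.ch z ∈ DegC sysA) : z = 0 := by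
  by_contra hne
  obtain ⟨C, hC⟩ := Finsupp.support_nonempty_iff.2 hne
  have huniq : ∀ D ∈ z.support, D = C := by
    intro D hD
    have h1 := hz hD
    have h2 := hz hC
    refine Cb.ext (h1.1.trans h2.1.symm) (h1.2.trans h2.2.symm) ?_ (funext fun _ => rfl)
    funext s
    rw [D.y_dep s z0 (fun i hi => by rw [h1.2] at hi; omega), D.y_zero,
      C.y_dep s z0 (fun i hi => by rw [h2.2] at hi; omega), C.y_zero]
  have hz1 : z = Finsupp.single C (z C) := by
    ext D
    by_cases hD : D = C
    · subst hD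
      rw [Finsupp.single_eq_same]
    · rw [Finsupp.single_eq_of_ne hD]
      by_contra h0
      exact hD (huniq D (Finsupp.mem_support_iff.2 h0))
  rw [hz1, ch_single] at hd
  have hmem : detH.cb C ∈ (Finsupp.single (detH.cb C) (z C)).support := by
    rw [Finsupp.mem_support_iff, Finsupp.single_eq_same]
    exact Finsupp.mem_support_iff.1 hC
  obtain ⟨k, hk, _⟩ := hd hmem
  have : (detH.cb C).q = 0 := (hz hC).2
  omega

/-! ### The main argument -/

open Classical in
/-- a function on homogeneous cubes as a function on cubes -/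
def Psi {q : ℕ} (ψ : HCube ↥(Gc (c + 1)) q → ℝ) (D : Cb sysU) : ℝ :=
  if D.q = q ∧ D.r = c + 1 then ψ (toH c q D) else 0

/-- evaluation of a real function on chains -/
def ev {X : Type} (f : X → ℝ) (z : X →₀ ℚ) : ℝ := z.sum fun C a => (a : ℝ) * f C

theorem ev_add {X : Type} (f : X → ℝ) (u v : X →₀ ℚ) : ev f (u + v) = ev f u + ev f v := by
  unfold ev
  rw [Finsupp.sum_add_index' (fun C => by simp) (fun C a b => by push_cast; ring)]

theorem ev_single {X : Type} (f : X → ℝ) (C : X) (a : ℚ) : ev f (Finsupp.single C a) = a * f C := by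
  unfold ev
  rw [Finsupp.sum_single_index (by simp)]

theorem ev_smul {X : Type} (f : X → ℝ) (a : ℚ) (u : X →₀ ℚ) : ev f (a • u) = a * ev f u := by
  unfold ev
  rw [Finsupp.sum_smul_index' (fun C => by simp), Finsupp.mul_sum]
  refine Finset.sum_congr rfl fun C _ => ?_
  simp only
  push_cast [smul_eq_mul]
  ring

theorem ev_sub {X : Type} (f : X → ℝ) (u v : X →₀ ℚ) : ev f (u - v) = ev f u - ev f v := by
  have h : u - v = u + (-1 : ℚ) • v := by rw [neg_one_smul, sub_eq_add_neg]
  rw [h, ev_add, ev_smul]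
  push_cast
  ring

theorem ev_sum {X ι : Type} (f : X → ℝ) (s : Finset ι) (g : ι → X →₀ ℚ) :
    ev f (∑ i ∈ s, g i) = ∑ i ∈ s, ev f (g i) := by
  classical
  induction s using Finset.induction_on with
  | empty => rw [Finset.sum_empty, Finset.sum_empty]; exact Finsupp.sum_zero_index
  | insert a s ha ih => rw [Finset.sum_insert ha, Finset.sum_insert ha, ev_add, ih]

theorem ev_congr {X : Type} {f g : X → ℝ} {z : X →₀ ℚ} (h : ∀ C ∈ z.support, f C = g C) : ev f z = ev g z :=
  Finset.sum_congr rfl fun C hC => by simp only; rw [h C hC]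

theorem ev_eq_zero {X : Type} {f : X → ℝ} {z : X →₀ ℚ} (h : ∀ C ∈ z.support, f C = 0) : ev f z = 0 :=
  Finset.sum_eq_zero fun C hC => by simp only; rw [h C hC, mul_zero]

theorem ev_lin {X : Type} (l : (X →₀ ℚ) →ₗ[ℚ] ℚ) (z : X →₀ ℚ) :
    ev (fun C => ((l (Finsupp.single C 1) : ℚ) : ℝ)) z = ((l z : ℚ) : ℝ) := by
  induction z using Finsupp.induction_linear with
  | zero => rw [map_zero]; simp [ev]
  | add u v hu hv => rw [ev_add, hu, hv, map_add]; push_cast; ring
  | single C a =>
    rw [ev_single]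
    have : (Finsupp.single C a : X →₀ ℚ) = a • Finsupp.single C 1 := by
      rw [Finsupp.smul_single, smul_eq_mul, mul_one]
    rw [this, map_smul, smul_eq_mul]
    push_cast
    ring

theorem ev_bd {q : ℕ} (f : Cb sysU → ℝ) {z : Ch sysU} (hz : ∀ C ∈ z.support, C.q = q + 1) :
    ev f (St16.bd z) = ev (fun C => ∑ k : Fin (q + 1), (-1 : ℝ) ^ (k : ℕ) * (f (C.face true k) - f (C.face false k))) z := by
  have h1 : St16.bd z = ∑ C ∈ z.support, z C • bd1 C := by
    unfold St16.bd
    rw [Finsupp.linearCombination_apply]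
    rfl
  rw [h1, ev_sum]
  refine Finset.sum_congr rfl fun C hC => ?_
  rw [ev_smul]
  congr 1
  unfold bd1
  rw [hz C hC, ev_sum, Finset.sum_range]
  refine Finset.sum_congr rfl fun k _ => ?_
  rw [ev_smul, ev_sub, ev_single, ev_single]
  push_cast
  ring

theorem bridge (h : ∀ Φ : Finset P1, Φ.Nonempty → Van Φ c) : KerExact detH (c + 1) := by
  classical
  intro q z hz hb hd
  rcases q with _ | q
  · refine ⟨0, Submodule.zero_mem _, ?_, ?_⟩
    · rw [map_zero]; exact Submodule.zero_mem _
    · rw [eq_zero_of_dim_zero c hz hd, map_zero, sub_zero]; exact Submodule.zero_mem _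
  -- it is enough to bound `z` modulo degenerate chains
  suffices hw : ∃ w ∈ ChN sysU (c + 1) (q + 1 + 1), z - St16.bd w ∈ DegC sysU by
    obtain ⟨w, hw, hw'⟩ := hw
    refine ⟨w - sgC c (detH.ch w), Submodule.sub_mem _ hw (sgC_mem c (ch_mem hw)), ?_, ?_⟩
    · rw [map_sub, ch_sgC_ch c rfl hw, sub_self]
      exact Submodule.zero_mem _
    · have e : z - St16.bd (w - sgC c (detH.ch w)) = (z - St16.bd w) + (sgC c (detH.ch z) - sgC c (detH.ch (z - St16.bd w))) := by
        rw [map_sub, ← sgC_bd, ← ch_bd, map_sub, map_sub]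
        abel
      rw [e]
      exact Submodule.add_mem _ hw' (Submodule.sub_mem _ (sgC_DegC c hd) (sgC_DegC c (ch_DegC hw')))
  by_contra hcon
  have hnot : z ∉ DegC sysU ⊔ (ChN sysU (c + 1) (q + 1 + 1)).map St16.bd := by
    intro hmem
    obtain ⟨u, hu, v, ⟨w, hw, rfl⟩, huv⟩ := Submodule.mem_sup.1 hmem
    refine hcon ⟨w, hw, ?_⟩
    rw [← huv, add_sub_cancel_right]
    exact hu
  obtain ⟨l, hl, hle⟩ := Submodule.exists_le_ker_of_notMem hnot
  have hl1 : ∀ u ∈ DegC sysU, l u = 0 := fun u hu => hle (Submodule.mem_sup_left hu)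
  have hl2 : ∀ w ∈ ChN sysU (c + 1) (q + 1 + 1), l (St16.bd w) = 0 := fun w hw =>
    hle (Submodule.mem_sup_right ⟨w, hw, rfl⟩)
  set f0 : Cb sysU → ℝ := fun C => ((l (Finsupp.single C 1) : ℚ) : ℝ) with hf0
  have hf0D : ∀ C : Cb sysU, C.Dg → f0 C = 0 := by
    intro C hC
    rw [hf0]
    simp only
    rw [hl1 _ (Finsupp.single_mem_supported ℚ 1 hC), Rat.cast_zero]
  set φ : HCube ↥(Gc (c + 1)) (q + 1) → ℝ := fun x => f0 (nf c x) - f0 (nf c (x.map (th c))) with hφ
  have hact : ∀ (g : ↥(Gc (c + 1))) (x : HCube ↥(Gc (c + 1)) (q + 1)),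
      (x.act g).map (th c) = (x.map (th c)).act (th c g) := by
    intro g x
    ext1
    funext s
    exact map_mul (th c) g (x.y s)
  -- the coboundary of a function given by `f0`
  have hcb : ∀ x : HCube ↥(Gc (c + 1)) (q + 1 + 1), HCube.cb (fun x => f0 (nf c x)) x = 0 := by
    intro x
    have h1 := ev_bd (q := q + 1) f0 (z := Finsupp.single (nf c x) 1) (by
      intro C hC
      rw [Finsupp.mem_support_iff] at hC
      by_cases e : C = nf c x
      · rw [e]; rfl
      · rw [Finsupp.single_eq_of_ne e] at hC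
        exact absurd rfl hC)
    rw [ev_single, Rat.cast_one, one_mul] at h1
    have h2 : ev f0 (St16.bd (Finsupp.single (nf c x) 1)) = 0 := by
      rw [hf0, ev_lin, hl2 _ (Finsupp.single_mem_supported ℚ 1 ⟨rfl, rfl⟩), Rat.cast_zero]
    rw [h2] at h1
    unfold HCube.cb
    refine Eq.trans ?_ h1.symm
    refine Finset.sum_congr rfl fun k _ => ?_
    rw [face_nf, face_nf]
  obtain ⟨Φ, hΦ, hS⟩ := exists_Ga (c := c + 1)
    ((z.support ×ˢ (Finset.univ : Finset (Fin (q + 1) → Bool))).image fun p =>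
      ((toH c (q + 1) p.1).y (fun i => if hi : i < q + 1 then p.2 ⟨i, hi⟩ else false)).1) (by
      intro g hg
      rw [Finset.mem_image] at hg
      obtain ⟨p, _, rfl⟩ := hg
      exact Subtype.prop _)
  obtain ⟨ψ, hψ1, hψ2, hψ3⟩ := h Φ hΦ q φ
    (by
      intro g x
      simp only [hφ]
      rw [hact, nf_act, nf_act])
    (by
      intro x hx
      simp only [hφ]
      rw [hf0D _ (nf_Dg c hx), hf0D _ (nf_Dg c (map_Dg _ hx)), sub_zero])
    (by
      intro x
      have h1 := hcb x
      have h2 := hcb (x.map (th c))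
      have e : HCube.cb φ x = HCube.cb (fun x => f0 (nf c x)) x - HCube.cb (fun x => f0 (nf c x)) (x.map (th c)) := by
        unfold HCube.cb
        rw [← Finset.sum_sub_distrib]
        refine Finset.sum_congr rfl fun k _ => ?_
        simp only [hφ]
        have e1 : ∀ b, (x.map (th c)).face b k = (x.face b k).map (th c) := fun b => rfl
        rw [e1, e1]
        ring
      rw [e, h1, h2, sub_zero])
    (by
      intro x
      simp only [hφ]
      have e : (x.map (iotaG c)).map (th c) = x.map (iotaG c) := by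
        ext1
        funext s
        exact th_iotaG c (x.y s)
      rw [e, sub_self])
  -- values of the cubes of `z` are in `Ga`
  have hGa : ∀ C ∈ z.support, ∀ s, ((toH c (q + 1) C).y s).1 ∈ Ga Φ (c + 1) := by
    intro C hC s
    have e : (toH c (q + 1) C).y s = (toH c (q + 1) C).y
        (fun i => if hi : i < q + 1 then (fun j : Fin (q + 1) => s j) ⟨i, hi⟩ else false) := by
      refine (toH c (q + 1) C).dep _ _ fun i hi => ?_
      rw [dif_pos hi]
    rw [e]
    exact hS _ (Finset.mem_image.2 ⟨(C, fun j : Fin (q + 1) => s j),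
      Finset.mem_product.2 ⟨hC, Finset.mem_univ _⟩, rfl⟩)
  -- first evaluation
  have hev1 : ev (fun C => φ (toH c (q + 1) C)) z = ((l z : ℚ) : ℝ) := by
    have e1 : ev (fun C => φ (toH c (q + 1) C)) z = ev (fun C => f0 C - f0 (sg c (detH.cb C))) z := by
      refine ev_congr fun C hC => ?_
      have hC' := hz hC
      simp only [hφ]
      rw [nf_toH c hC'.1 hC'.2]
      congr 2
      refine Cb.ext rfl hC'.2.symm ?_ (funext fun _ => rfl)
      funext s
      have h1 : ∀ s, C.y s ∈ Un (c + 1) := fun s => hC'.1 ▸ C.y_mem s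
      have h2 : ∀ s, C.y (tr (q + 1) s) = C.y s := fun s => C.y_dep _ _ fun i hi => tr_lt (hC'.2 ▸ hi) s
      change ((eU (c + 1)).symm ((th c (gT c (C.y (tr (q + 1) z0))))⁻¹ * th c (gT c (C.y (tr (q + 1) s)))) : Au EE) =
        (sec c (detT (C.y s)) : Au EE)
      rw [h2, h2, C.y_zero, gT_of_mem c (h1 s), gT_of_mem c (one_mem _)]
      have h3 : eU (c + 1) (⟨1, one_mem _⟩ : Un (c + 1)) = 1 := map_one _
      rw [h3, map_one, inv_one, one_mul]
      change ((eU (c + 1)).symm (iotaG c (tG (detT ((eU (c + 1)).symm (eU (c + 1) ⟨C.y s, h1 s⟩) : Au EE)))) : Au EE) =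
        ((eU (c + 1)).symm (iotaG c (tG (detT (C.y s)))) : Au EE)
      rw [MulEquiv.symm_apply_apply]
    have e2 : ev (fun C => f0 C - f0 (sg c (detH.cb C))) z = ev f0 z - ev (fun C => f0 (sg c (detH.cb C))) z := by
      unfold ev
      rw [← Finsupp.sum_sub]
      refine Finset.sum_congr rfl fun C _ => ?_
      simp only
      ring
    have e3 : ev (fun C => f0 (sg c (detH.cb C))) z = ((l (sgC c (detH.ch z)) : ℚ) : ℝ) := by
      rw [← ev_lin]
      clear_value f0
      change z.sum _ = ((z.mapDomain detH.cb).mapDomain (sg c)).sum _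
      rw [Finsupp.sum_mapDomain_index (by simp) (by intro C a b; push_cast; ring),
        Finsupp.sum_mapDomain_index (by simp) (by intro C a b; push_cast; ring), hf0]
    rw [e1, e2, e3, hl1 _ (sgC_DegC c hd), Rat.cast_zero, sub_zero, hf0, ev_lin]
  -- second evaluation
  have hev2 : ev (fun C => φ (toH c (q + 1) C)) z = 0 := by
    have hΨD : ∀ D : Cb sysU, D.Dg → Psi c ψ D = 0 := by
      intro D hD
      unfold Psi
      split_ifs with hq
      · exact hψ2 _ (toH_Dg c hq.1 hD)
      · rfl
    have e1 : ev (fun C => φ (toH c (q + 1) C)) z = ev (Psi c ψ) (St16.bd z) := by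
      rw [ev_bd (q := q) (Psi c ψ) (fun C hC => (hz hC).2)]
      refine ev_congr fun C hC => ?_
      have hC' := hz hC
      rw [hψ3]
      unfold HCube.cb
      refine Finset.sum_congr rfl fun k _ => ?_
      have hf : ∀ b, ψ ((toH c (q + 1) C).face b k) = Psi c ψ (C.face b k) := by
        intro b
        have hk : (k : ℕ) < C.q := by rw [hC'.2]; exact k.2
        rw [toH_face c hC'.1 hC'.2, hψ1 _ (hGa C hC _)]
        unfold Psi
        rw [if_pos]
        unfold Cb.face
        rw [dif_pos hk]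
        refine ⟨?_, hC'.1⟩
        change C.q - 1 = q
        rw [hC'.2]
        rfl
      rw [hf, hf]
    rw [e1]
    exact ev_eq_zero fun D hD => hΨD D (hb hD)
  rw [hev1] at hev2
  exact hl (by exact_mod_cast hev2)

end St16I
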