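import Pool.Agent.LibSt16.IDefs2

/-!
ST16 IG1. The groups: `G_c` is the union of the `Γ_Φ`.

Plan. `Ga_le_Gc`: `N^k` has only prime factors `1 mod 4`. `Ga_mono`: `NN Φ ∣ NN Φ'`. `exists_Ga`: the common denominator `n` of the
entries of the elements of `S`; `Φ` = the set of its prime factors (and `5`); `n ∣ NN Φ ^ k` (`k = n`).
-/

namespace St16I

open Matrix QuadraticAlgebra

variable {Φ : Finset P1} {c : ℕ}

private theorem IG1_inv_le (Φ : Finset P1) {z : E} (h : z ∈ ZInv (NN Φ)) : z ∈ ZZi := by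
  obtain ⟨k, hk⟩ := h
  refine ⟨NN Φ ^ k, pow_ne_zero _ (NN_ne_zero Φ), ?_, ?_⟩
  · intro p hp hd
    have h1 := hp.dvd_of_dvd_pow hd
    obtain ⟨r, hr, hpr⟩ := (hp.prime.dvd_finset_prod_iff _).1 h1
    rw [(Nat.prime_dvd_prime_iff_eq hp r.2.1).1 hpr]
    exact r.2.2
  · rwa [Nat.cast_pow]

private theorem IG1_dvd {N N' : ℕ} (h : N ∣ N') {z : E} (hz : z ∈ ZInv N) : z ∈ ZInv N' := by
  obtain ⟨m, rfl⟩ := h
  obtain ⟨k, a, ha⟩ := hz
  refine ⟨k, (m : GaussianInt) ^ k * a, ?_⟩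
  rw [map_mul, map_pow, gi_natCast, ha]
  push_cast
  ring

theorem Ga_le_Gc (Φ : Finset P1) (c : ℕ) : Ga Φ c ≤ Gc c :=
  fun _ hg => ⟨hg.1, fun i j => IG1_inv_le Φ (hg.2 i j)⟩

theorem Ga_mono {Φ Φ' : Finset P1} (h : Φ ⊆ Φ') (c : ℕ) : Ga Φ c ≤ Ga Φ' c :=
  fun _ hg => ⟨hg.1, fun i j => IG1_dvd (Finset.prod_dvd_prod_of_subset _ _ _ h) (hg.2 i j)⟩

private theorem IG1_exists {z : E} (hz : z ∈ ZZi) : ∃ Φ : Finset P1, z ∈ ZInv (NN Φ) := by
  obtain ⟨n, hn, hp, a, ha⟩ := hz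
  refine ⟨n.primeFactors.subtype fun p => p.Prime ∧ p % 4 = 1, n, ?_⟩
  have e : NN (n.primeFactors.subtype fun p => p.Prime ∧ p % 4 = 1) = ∏ p ∈ n.primeFactors, p := by
    unfold NN
    rw [Finset.prod_subtype_eq_prod_filter (s := n.primeFactors) (p := fun p => p.Prime ∧ p % 4 = 1) (f := fun p => p)]
    rw [Finset.filter_true_of_mem fun p h =>
      ⟨Nat.prime_of_mem_primeFactors h, hp p (Nat.prime_of_mem_primeFactors h) (Nat.dvd_of_mem_primeFactors h)⟩]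
  rw [e]
  have h1 : n ∣ (∏ p ∈ n.primeFactors, p) ^ n := by
    rw [← Finset.prod_pow]
    conv_lhs => rw [← Nat.factorization_prod_pow_eq_self hn]
    refine Finset.prod_dvd_prod_of_dvd _ _ fun p _ => ?_
    exact pow_dvd_pow _ (Nat.factorization_lt p hn).le
  obtain ⟨m, hm⟩ := h1
  refine ⟨(m : GaussianInt) * a, ?_⟩
  rw [map_mul, gi_natCast, ha, ← Nat.cast_pow, hm]
  push_cast
  ring

theorem exists_Ga (S : Finset (GL (Fin c) E)) (hS : ∀ g ∈ S, g ∈ Gc c) :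
    ∃ Φ : Finset P1, Φ.Nonempty ∧ ∀ g ∈ S, g ∈ Ga Φ c := by
  classical
  have h1 : ∀ (g : GL (Fin c) E) (i j : Fin c), ∃ Φ : Finset P1, g ∈ S →
      (g : Matrix (Fin c) (Fin c) E) i j ∈ ZInv (NN Φ) := by
    intro g i j
    by_cases hg : g ∈ S
    · obtain ⟨Φ, hΦ⟩ := IG1_exists ((hS g hg).2 i j)
      exact ⟨Φ, fun _ => hΦ⟩
    · exact ⟨∅, fun h => absurd h hg⟩
  choose f hf using h1
  let p5 : P1 := ⟨5, by norm_num, by norm_num⟩
  refine ⟨{p5} ∪ S.biUnion fun g => Finset.univ.biUnion fun i => Finset.univ.biUnion fun j => f g i j,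
    ⟨p5, Finset.mem_union_left _ (Finset.mem_singleton_self _)⟩, fun g hg => ⟨(hS g hg).1, fun i j => ?_⟩⟩
  refine IG1_dvd (Finset.prod_dvd_prod_of_subset _ _ _ ?_) (hf g i j hg)
  refine Finset.Subset.trans ?_ Finset.subset_union_right
  intro p hp
  rw [Finset.mem_biUnion]
  refine ⟨g, hg, ?_⟩
  rw [Finset.mem_biUnion]
  refine ⟨i, Finset.mem_univ _, ?_⟩
  rw [Finset.mem_biUnion]
  exact ⟨j, Finset.mem_univ _, hp⟩

end St16I
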