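import Pool.Agent.LibSt16.IDefs2

/-!
ST16 IG2. `Γ_Φ` is commensurated by `G_c`.

Plan. Let `g`, `g⁻¹` have entries in `n⁻¹ ℤ[i][1/N]`, `n ≠ 0` prime to `N` (`n` = the prime to `N` part of a common denominator:
`Nat.exists_dvd_and_dvd_of_dvd_mul` or `n = D / gcd (D, N^D)`); `H` = the elements `x` of `Ga Φ c` with `x ≡ 1 mod n²` (entries of
`x - 1` and of `x⁻¹ - 1` in `n² ℤ[i][1/N]`); then `g x g⁻¹ = 1 + g (x - 1) g⁻¹` has entries in `ℤ[i][1/N]`. `H` has finite index in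
`Ga Φ c`: if `x ≡ y mod n²` (entrywise in `ℤ[i][1/N]`) then `x⁻¹ y ∈ H`; each element of `ℤ[i][1/N]` is congruent mod `n²` to one of the
`n^4` elements `a + b i`, `0 ≤ a, b < n²` (`N` is invertible mod `n²`); so there are at most `n^(4 c²)` classes of `x`
(`Subgroup.relIndex`/`index` finite: an injection of the quotient into a finite type).
-/

namespace St16I

open Matrix QuadraticAlgebra

variable {Φ : Finset P1} {c : ℕ}

private theorem IG2_gi_mem (N : ℕ) (a : GaussianInt) : gi a ∈ ZInv N :=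
  ⟨0, a, by rw [pow_zero, one_mul]⟩

private theorem IG2_nat_mem (N k : ℕ) : (k : E) ∈ ZInv N := by
  rw [← gi_natCast]
  exact IG2_gi_mem N _

private theorem IG2_den {c : ℕ} {g : GL (Fin c) E} (hg : g ∈ Gc c) :
    ∃ D : ℕ, D ≠ 0 ∧ ∀ i j, ∃ a : GaussianInt,
      gi a = (D : E) * (g : Matrix (Fin c) (Fin c) E) i j := by
  have h : ∀ q : Fin c × Fin c, ∃ n : ℕ, n ≠ 0 ∧ ∃ a : GaussianInt,
      gi a = (n : E) * (g : Matrix (Fin c) (Fin c) E) q.1 q.2 := by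
    intro q
    obtain ⟨n, hn, -, a, ha⟩ := hg.2 q.1 q.2
    exact ⟨n, hn, a, ha⟩
  choose n hn a ha using h
  refine ⟨∏ q, n q, Finset.prod_ne_zero_iff.2 fun q _ => hn q, fun i j => ?_⟩
  obtain ⟨t, ht⟩ := Finset.dvd_prod_of_mem n (Finset.mem_univ (i, j))
  refine ⟨(t : GaussianInt) * a (i, j), ?_⟩
  rw [ht, map_mul, ha, gi_natCast]
  push_cast
  ring

private theorem IG2_period {N m : ℕ} (hN : N ≠ 0) (hm : m ≠ 0) :
    ∃ t : ℕ, 1 ≤ t ∧ ∃ s ∈ ZInv N, (N : E) ^ t - 1 = (m : E) * s := by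
  have : NeZero m := ⟨hm⟩
  have hN' : (N : E) ≠ 0 := Nat.cast_ne_zero.2 hN
  obtain ⟨k, l, hkl, h⟩ : ∃ k l : ℕ, k < l ∧ ((N : ZMod m)) ^ k = (N : ZMod m) ^ l := by
    obtain ⟨k, l, hne, h⟩ := Finite.exists_ne_map_eq_of_infinite fun k : ℕ => (N : ZMod m) ^ k
    rcases lt_or_gt_of_ne hne with h1 | h1
    · exact ⟨k, l, h1, h⟩
    · exact ⟨l, k, h1, h.symm⟩
  have h2 : N ^ k ≡ N ^ l [MOD m] := by
    rw [← ZMod.natCast_eq_natCast_iff]
    push_cast
    exact h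
  obtain ⟨d, hd⟩ := h2.dvd
  have hd' : (N : E) ^ l - (N : E) ^ k = (m : E) * (d : E) := by
    have h3 := congrArg (Int.cast : ℤ → E) hd
    push_cast at h3
    exact h3
  refine ⟨l - k, by omega, (d : E) * ((N : E) ^ k)⁻¹, ⟨k, (d : GaussianInt), ?_⟩, ?_⟩
  · rw [map_intCast]
    field_simp
  · have h4 : (N : E) ^ l = (N : E) ^ (l - k) * (N : E) ^ k := by
      rw [← pow_add]
      congr 1
      omega
    have hk : (N : E) ^ k ≠ 0 := pow_ne_zero _ hN'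
    rw [h4] at hd'
    rw [← mul_assoc, ← hd']
    field_simp

private theorem IG2_congr {N m : ℕ} (hN : N ≠ 0) (hm : m ≠ 0) {z : E} (hz : z ∈ ZInv N) :
    ∃ a : GaussianInt, ∃ s ∈ ZInv N, z - gi a = (m : E) * s := by
  obtain ⟨t, ht, s, hs, hts⟩ := IG2_period hN hm
  obtain ⟨j, a, ha⟩ := hz
  have hz : z ∈ ZInv N := ⟨j, a, ha⟩
  have hj : ∀ j : ℕ, ∃ s ∈ ZInv N, (N : E) ^ (t * j) - 1 = (m : E) * s := by
    intro j
    induction j with
    | zero => exact ⟨0, Subring.zero_mem _, by simp⟩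
    | succ j ih =>
      obtain ⟨s', hs', h'⟩ := ih
      refine ⟨(N : E) ^ t * s' + s, Subring.add_mem _ (Subring.mul_mem _
        (Subring.pow_mem _ (IG2_nat_mem N N) t) hs') hs, ?_⟩
      have h1 : (N : E) ^ (t * (j + 1)) - 1 =
          (N : E) ^ t * ((N : E) ^ (t * j) - 1) + ((N : E) ^ t - 1) := by
        rw [Nat.mul_succ, pow_add]
        ring
      rw [h1, h', hts]
      ring
  obtain ⟨s', hs', h'⟩ := hj j
  refine ⟨(N : GaussianInt) ^ (t * j - j) * a, -(s' * z),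
    Subring.neg_mem _ (Subring.mul_mem _ hs' hz), ?_⟩
  have h2 : j ≤ t * j := Nat.le_mul_of_pos_left j (by omega)
  have h3 : gi ((N : GaussianInt) ^ (t * j - j) * a) = (N : E) ^ (t * j) * z := by
    rw [map_mul, map_pow, gi_natCast, ha, ← mul_assoc, ← pow_add]
    congr 2
    omega
  rw [h3]
  have h4 : (N : E) ^ (t * j) = 1 + (m : E) * s' := by
    rw [← h']
    ring
  rw [h4]
  ring

private theorem IG2_finite {N m : ℕ} (hN : N ≠ 0) (hm : m ≠ 0) :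
    Finite (ZInv N ⧸ Ideal.span {(m : ZInv N)}) := by
  have : NeZero m := ⟨hm⟩
  let f : ZMod m × ZMod m → ZInv N ⧸ Ideal.span {(m : ZInv N)} := fun q =>
    Ideal.Quotient.mk _ ⟨gi ⟨(q.1.val : ℤ), (q.2.val : ℤ)⟩, IG2_gi_mem N _⟩
  refine Finite.of_surjective f ?_
  intro y
  obtain ⟨z, rfl⟩ := Ideal.Quotient.mk_surjective y
  obtain ⟨a, s, hs, hz⟩ := IG2_congr hN hm z.2
  refine ⟨((a.re : ZMod m), (a.im : ZMod m)), ?_⟩
  refine (Ideal.Quotient.mk_eq_mk_iff_sub_mem _ _).2 ?_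
  have h1 : ∀ b : ℤ, ∃ d : ℤ, (((b : ZMod m)).val : ℤ) - b = (m : ℤ) * d := by
    intro b
    have h2 : ((((b : ZMod m).val : ℤ) - b : ℤ) : ZMod m) = 0 := by
      push_cast
      rw [ZMod.natCast_zmod_val, sub_self]
    exact (ZMod.intCast_zmod_eq_zero_iff_dvd _ m).1 h2
  obtain ⟨d₁, hd₁⟩ := h1 a.re
  obtain ⟨d₂, hd₂⟩ := h1 a.im
  rw [Ideal.mem_span_singleton]
  refine ⟨⟨gi ⟨d₁, d₂⟩ - s, Subring.sub_mem _ (IG2_gi_mem N _) hs⟩, Subtype.ext ?_⟩
  change gi ⟨(((a.re : ZMod m)).val : ℤ), (((a.im : ZMod m)).val : ℤ)⟩ - (z : E) =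
    ((m : ZInv N) : E) * (gi ⟨d₁, d₂⟩ - s)
  have h3 : ∀ v₁ v₂ : ℤ, v₁ - a.re = (m : ℤ) * d₁ → v₂ - a.im = (m : ℤ) * d₂ →
      gi ⟨v₁, v₂⟩ = gi a + (m : E) * gi ⟨d₁, d₂⟩ := by
    intro v₁ v₂ e₁ e₂
    rw [← gi_natCast, ← map_mul, ← map_add]
    congr 1
    ext
    · simp
      linarith
    · simp
      linarith
  have h4 : (z : E) = gi a + (m : E) * s := by
    rw [← hz]
    ring
  rw [h3 _ _ hd₁ hd₂, h4]
  push_cast
  ring

/-- The congruence subgroup. -/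
private def IG2_H (Φ : Finset P1) (c m : ℕ) : Subgroup (GL (Fin c) E) where
  carrier := {x | x ∈ Ga Φ c ∧ ∀ i j, ∃ y ∈ ZInv (NN Φ),
    ((x : Matrix (Fin c) (Fin c) E) - 1) i j = (m : E) * y}
  mul_mem' := by
    rintro x y ⟨hx, hx'⟩ ⟨hy, hy'⟩
    refine ⟨mul_mem hx hy, fun i j => ?_⟩
    choose a ha ha' using hx'
    obtain ⟨b, hb, hb'⟩ := hy' i j
    refine ⟨∑ k, a i k * (y : Matrix (Fin c) (Fin c) E) k j + b,
      Subring.add_mem _ (Subring.sum_mem _ fun k _ => Subring.mul_mem _ (ha i k) (hy.2 k j)) hb, ?_⟩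
    have h1 : (((x * y : GL (Fin c) E) : Matrix (Fin c) (Fin c) E) - 1) =
        ((x : Matrix (Fin c) (Fin c) E) - 1) * (y : Matrix (Fin c) (Fin c) E) +
          ((y : Matrix (Fin c) (Fin c) E) - 1) := by
      rw [Units.val_mul, Matrix.sub_mul, Matrix.one_mul]
      abel
    rw [h1, Matrix.add_apply, hb', Matrix.mul_apply, mul_add, Finset.mul_sum]
    congr 1
    refine Finset.sum_congr rfl fun k _ => ?_
    rw [ha' i k]
    ring
  one_mem' := by
    refine ⟨one_mem _, fun i j => ⟨0, Subring.zero_mem _, ?_⟩⟩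
    rw [Units.val_one, sub_self, Matrix.zero_apply, mul_zero]
  inv_mem' := by
    rintro x ⟨hx, hx'⟩
    refine ⟨inv_mem hx, fun i j => ?_⟩
    choose a ha ha' using hx'
    refine ⟨-∑ k, (↑x⁻¹ : Matrix (Fin c) (Fin c) E) i k * a k j,
      Subring.neg_mem _ (Subring.sum_mem _ fun k _ =>
        Subring.mul_mem _ ((inv_mem hx).2 i k) (ha k j)), ?_⟩
    have h1 : ((↑x⁻¹ : Matrix (Fin c) (Fin c) E) - 1) =
        -((↑x⁻¹ : Matrix (Fin c) (Fin c) E) * ((x : Matrix (Fin c) (Fin c) E) - 1)) := by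
      rw [Matrix.mul_sub, ← Units.val_mul, inv_mul_cancel, Units.val_one, Matrix.mul_one]
      abel
    rw [h1, Matrix.neg_apply, Matrix.mul_apply, mul_neg, Finset.mul_sum]
    congr 1
    refine Finset.sum_congr rfl fun k _ => ?_
    rw [ha' k j]
    ring

theorem comm_index (Φ : Finset P1) {g : GL (Fin c) E} (hg : g ∈ Gc c) :
    ∃ H : Subgroup (GL (Fin c) E), H ≤ Ga Φ c ∧ H.relIndex (Ga Φ c) ≠ 0 ∧ ∀ x ∈ H, g * x * g⁻¹ ∈ Ga Φ c := by
  classical
  obtain ⟨D, hD, hD'⟩ := IG2_den hg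
  obtain ⟨D₁, hD₁, hD₁'⟩ := IG2_den (inv_mem hg)
  have hm : D * D₁ ≠ 0 := Nat.mul_ne_zero hD hD₁
  refine ⟨IG2_H Φ c (D * D₁), fun x hx => hx.1, ?_, ?_⟩
  · have := IG2_finite (NN_ne_zero Φ) hm
    rw [Subgroup.relIndex]
    let f : Ga Φ c → (Fin c → Fin c → ZInv (NN Φ) ⧸ Ideal.span {((D * D₁ : ℕ) : ZInv (NN Φ))}) :=
      fun x i j => Ideal.Quotient.mk _
        ⟨((x : GL (Fin c) E) : Matrix (Fin c) (Fin c) E) i j, x.2.2 i j⟩
    have hf : ∀ x y : Ga Φ c, f x = f y → x⁻¹ * y ∈ (IG2_H Φ c (D * D₁)).subgroupOf (Ga Φ c) := by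
      intro x y hxy
      rw [Subgroup.mem_subgroupOf]
      refine ⟨(x⁻¹ * y).2, fun i j => ?_⟩
      have h1 : ∀ k l, ∃ a ∈ ZInv (NN Φ),
          ((y : GL (Fin c) E) : Matrix (Fin c) (Fin c) E) k l -
            ((x : GL (Fin c) E) : Matrix (Fin c) (Fin c) E) k l = ((D * D₁ : ℕ) : E) * a := by
        intro k l
        have h2 := congrFun (congrFun hxy.symm k) l
        have h3 := (Ideal.Quotient.mk_eq_mk_iff_sub_mem _ _).1 h2
        rw [Ideal.mem_span_singleton] at h3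
        obtain ⟨a, ha⟩ := h3
        refine ⟨a.1, a.2, ?_⟩
        have h4 := congrArg (Subtype.val : ZInv (NN Φ) → E) ha
        push_cast at h4 ⊢
        exact h4
      choose a ha ha' using h1
      refine ⟨∑ k, ((x⁻¹ : Ga Φ c) : GL (Fin c) E).1 i k * a k j,
        Subring.sum_mem _ fun k _ => Subring.mul_mem _ ((x⁻¹ : Ga Φ c).2.2 i k) (ha k j), ?_⟩
      have h5 : ((((x⁻¹ * y : Ga Φ c) : GL (Fin c) E) : Matrix (Fin c) (Fin c) E) - 1) =
          (((x⁻¹ : Ga Φ c) : GL (Fin c) E) : Matrix (Fin c) (Fin c) E) *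
            (((y : GL (Fin c) E) : Matrix (Fin c) (Fin c) E) -
              ((x : GL (Fin c) E) : Matrix (Fin c) (Fin c) E)) := by
        rw [Matrix.mul_sub, ← Units.val_mul, ← Units.val_mul, ← Subgroup.coe_mul,
          ← Subgroup.coe_mul, inv_mul_cancel, Subgroup.coe_one, Units.val_one]
      rw [h5, Matrix.mul_apply, Finset.mul_sum]
      refine Finset.sum_congr rfl fun k _ => ?_
      rw [Matrix.sub_apply, ha' k j]
      ring
    have : Finite (Ga Φ c ⧸ (IG2_H Φ c (D * D₁)).subgroupOf (Ga Φ c)) := by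
      refine Finite.of_injective (fun q => f q.out) fun q q' hqq => ?_
      have h6 := hf _ _ hqq
      rw [← QuotientGroup.eq, QuotientGroup.out_eq', QuotientGroup.out_eq'] at h6
      exact h6
    exact Subgroup.index_ne_zero_of_finite
  · rintro x ⟨hx, hx'⟩
    have hU : ∀ {R : Subring E} (hR : ∀ z ∈ R, star z ∈ R) {y : GL (Fin c) E}, y ∈ UU R hR c →
        y ∈ UU (⊤ : Subring E) (fun _ _ => Subring.mem_top _) c :=
      fun _ _ hy => ⟨hy.1, fun _ _ => Subring.mem_top _⟩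
    have hU1 := mul_mem (mul_mem (hU _ hg) (hU _ hx)) (inv_mem (hU _ hg))
    refine ⟨hU1.1, fun i j => ?_⟩
    choose a ha ha' using hx'
    choose b hb using hD'
    choose b₁ hb₁ using hD₁'
    have h1 : ((g * x * g⁻¹ : GL (Fin c) E) : Matrix (Fin c) (Fin c) E) =
        1 + (g : Matrix (Fin c) (Fin c) E) * ((x : Matrix (Fin c) (Fin c) E) - 1) *
          (↑g⁻¹ : Matrix (Fin c) (Fin c) E) := by
      rw [Matrix.mul_sub, Matrix.sub_mul, Matrix.mul_one, ← Units.val_mul, ← Units.val_mul,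
        ← Units.val_mul, mul_inv_cancel, Units.val_one]
      abel
    rw [h1, Matrix.add_apply, Matrix.mul_apply]
    refine Subring.add_mem _ ((one_mem (Ga Φ c)).2 i j) (Subring.sum_mem _ fun l _ => ?_)
    rw [Matrix.mul_apply, Finset.sum_mul]
    refine Subring.sum_mem _ fun k _ => ?_
    have h2 : (g : Matrix (Fin c) (Fin c) E) i k * ((x : Matrix (Fin c) (Fin c) E) - 1) k l *
        (↑g⁻¹ : Matrix (Fin c) (Fin c) E) l j = gi (b i k) * a k l * gi (b₁ l j) := by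
      rw [ha' k l, hb, hb₁]
      push_cast
      ring
    rw [h2]
    exact Subring.mul_mem _ (Subring.mul_mem _ (IG2_gi_mem _ _) (ha k l)) (IG2_gi_mem _ _)

end St16I
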