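import Pool.Agent.LibSt16.ILL96

/-!
ST16 IT2 (helper96). Lattices are free; the index of `A` in `ν⁻¹ A`.
-/

namespace St16I

open Matrix QuadraticAlgebra

variable {Φ : Finset P1} {c : ℕ}

theorem lat_free (A : Lat Φ c) : ∃ g : GL (Fin c) E, act g (sM Φ c 0) = A.1 := lat_free' A

/-- The additive automorphism given by a matrix. -/
noncomputable def addAct (g : GL (Fin c) E) : (Fin c → E) →+ (Fin c → E) :=
  (Matrix.toLin' (g : Matrix (Fin c) (Fin c) E)).toAddMonoidHom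

theorem addAct_injective (g : GL (Fin c) E) : Function.Injective (addAct g) := by
  intro u v h
  have h1 : (↑g⁻¹ : Matrix (Fin c) (Fin c) E) * (g : Matrix (Fin c) (Fin c) E) = 1 := by
    rw [← Units.val_mul, inv_mul_cancel, Units.val_one]
  have h2 : (g : Matrix (Fin c) (Fin c) E) *ᵥ u = (g : Matrix (Fin c) (Fin c) E) *ᵥ v := h
  have h3 := congrArg (fun x => (↑g⁻¹ : Matrix (Fin c) (Fin c) E) *ᵥ x) h2
  simp only [Matrix.mulVec_mulVec, h1, Matrix.one_mulVec] at h3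
  exact h3

theorem relIndex_act (g : GL (Fin c) E) (A B : Submodule (OP Φ) (Fin c → E)) :
    (act g A).toAddSubgroup.relIndex (act g B).toAddSubgroup = A.toAddSubgroup.relIndex B.toAddSubgroup := by
  have h : ∀ A : Submodule (OP Φ) (Fin c → E), (act g A).toAddSubgroup = A.toAddSubgroup.map (addAct g) := fun A => rfl
  rw [h, h]
  exact AddSubgroup.relIndex_map_map_of_injective _ _ (addAct_injective g)

theorem relIndex_up (A : Lat Φ c) : A.1.toAddSubgroup.relIndex (upL A).1.toAddSubgroup = NN Φ ^ c := by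
  obtain ⟨g, hg⟩ := lat_free A
  obtain ⟨ρ⟩ := exists_rd Φ
  have h1 : (upL A).1 = act g (up (sM Φ c 0)) := by
    rw [act_up, hg]
    rfl
  rw [h1, ← hg, relIndex_act, ← LL_top ρ, ← LL_bot ρ]
  have h2 := relIndex_LL ρ (bot_le : (⊥ : Submodule (ZMod (NN Φ)) (Fin c → ZMod (NN Φ))) ≤ ⊤)
  have h3 : Nat.card (⊥ : Submodule (ZMod (NN Φ)) (Fin c → ZMod (NN Φ))) = 1 := Nat.card_unique
  have h4 : Nat.card (⊤ : Submodule (ZMod (NN Φ)) (Fin c → ZMod (NN Φ))) = NN Φ ^ c := by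
    have : NeZero (NN Φ) := ⟨NN_ne_zero Φ⟩
    rw [Nat.card_congr (Submodule.topEquiv (R := ZMod (NN Φ)) (M := Fin c → ZMod (NN Φ))).toEquiv, Nat.card_pi]
    simp
  rw [h3, one_mul, h4] at h2
  exact h2

/-- There are only finitely many lattices between `A` and `ν⁻¹ A`. -/
theorem finite_interval (A : Lat Φ c) : {B : Lat Φ c | A ≤ B ∧ B ≤ upL A}.Finite := by
  obtain ⟨g, hg⟩ := lat_free A
  obtain ⟨ρ⟩ := exists_rd Φ
  have : NeZero (NN Φ) := ⟨NN_ne_zero Φ⟩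
  have : Finite (Fin c → ZMod (NN Φ)) := inferInstance
  have hf : Finite (Submodule (ZMod (NN Φ)) (Fin c → ZMod (NN Φ))) := inferInstance
  refine ((Set.finite_univ (α := Submodule (ZMod (NN Φ)) (Fin c → ZMod (NN Φ)))).image
    (fun C => g • (⟨LL ρ C, isLat_LL ρ C⟩ : Lat Φ c))).subset ?_
  rintro B ⟨hB1, hB2⟩
  obtain ⟨C, hC⟩ := LL_surj ρ (g⁻¹ • B).1 (by
      have h1 : (g⁻¹ • A).1 ≤ (g⁻¹ • B).1 := (smul_le_smul g⁻¹).mpr hB1
      rw [smul_val, ← hg, ← act_mul, inv_mul_cancel, act_one] at h1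
      exact h1) (by
      have h1 : (g⁻¹ • B).1 ≤ (g⁻¹ • upL A).1 := (smul_le_smul g⁻¹).mpr hB2
      rw [smul_upL] at h1
      have h2 : (upL (g⁻¹ • A)).1 = up (sM Φ c 0) := by
        change up (g⁻¹ • A).1 = _
        rw [smul_val, ← hg, ← act_mul, inv_mul_cancel, act_one]
      rw [h2] at h1
      exact h1)
  refine ⟨C, Set.mem_univ _, ?_⟩
  have h3 : (⟨LL ρ C, isLat_LL ρ C⟩ : Lat Φ c) = g⁻¹ • B := Subtype.ext hC
  change g • (⟨LL ρ C, isLat_LL ρ C⟩ : Lat Φ c) = B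
  rw [h3, smul_inv_smul]

end St16I
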