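import Pool.Agent.LibSt16.IT1
import Pool.Agent.LibSt16.IT2

/-!
ST16 IT3 (helper96). `GL_c(E)` is transitive on the simplices of a given type.
-/

namespace St16I

open Matrix QuadraticAlgebra

variable {Φ : Finset P1} {c : ℕ}

/-- A simplex in normal position. -/
theorem exists_normal {q : ℕ} (ρ : Rd Φ) (s : Y Φ c q) : ∃ (g : GL (Fin c) E)
    (C : Fin (q + 1) → Submodule (ZMod (NN Φ)) (Fin c → ZMod (NN Φ))), Monotone C ∧ C 0 = ⊥ ∧
    (∀ k, (s.1 k).1 = act g (LL ρ (C k))) ∧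
    (∀ k : Fin q, Nat.card (C k.succ) = Nat.card (C k.castSucc) * ty s k) := by
  obtain ⟨g, hg⟩ := lat_free (s.1 0)
  have hlow : ∀ k, sM Φ c 0 ≤ (g⁻¹ • s.1 k).1 := by
    intro k
    have h1 : (g⁻¹ • s.1 0).1 ≤ (g⁻¹ • s.1 k).1 := (smul_le_smul g⁻¹).mpr (s.2.1.monotone (Fin.zero_le k))
    rw [smul_val, ← hg, ← act_mul, inv_mul_cancel, act_one] at h1
    exact h1
  have hup : ∀ k, (g⁻¹ • s.1 k).1 ≤ up (sM Φ c 0) := by
    intro k
    have h1 : (g⁻¹ • s.1 k).1 ≤ (g⁻¹ • upL (s.1 0)).1 :=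
      (smul_le_smul g⁻¹).mpr ((s.2.1.monotone (Fin.le_last k)).trans s.2.2)
    rw [smul_upL] at h1
    have h2 : (upL (g⁻¹ • s.1 0)).1 = up (sM Φ c 0) := by
      change up (g⁻¹ • s.1 0).1 = _
      rw [smul_val, ← hg, ← act_mul, inv_mul_cancel, act_one]
    rw [h2] at h1
    exact h1
  choose C hC using fun k => LL_surj ρ (g⁻¹ • s.1 k).1 (hlow k) (hup k)
  have hCs : ∀ k, (s.1 k).1 = act g (LL ρ (C k)) := by
    intro k
    rw [hC, smul_val, ← act_mul, mul_inv_cancel, act_one]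
  have hmono : Monotone C := by
    intro i j hij
    rw [← LL_le ρ, hC, hC]
    exact (smul_le_smul g⁻¹).mpr (s.2.1.monotone hij)
  refine ⟨g, C, hmono, ?_, hCs, ?_⟩
  · have h1 : LL ρ (C 0) = LL ρ ⊥ := by
      rw [hC, LL_bot, smul_val, ← hg, ← act_mul, inv_mul_cancel, act_one]
    exact le_antisymm ((LL_le ρ).mp h1.le) bot_le
  · intro k
    have h1 : ty s k = (LL ρ (C k.castSucc)).toAddSubgroup.relIndex (LL ρ (C k.succ)).toAddSubgroup := by
      unfold ty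
      rw [hCs, hCs, relIndex_act]
    rw [h1]
    exact (relIndex_LL ρ (hmono (Fin.castSucc_lt_succ).le)).symm

theorem GL_trans {q : ℕ} (s t : Y Φ c q) (h : ty s = ty t) : ∃ g : GL (Fin c) E, g • s = t := by
  obtain ⟨ρ⟩ := exists_rd Φ
  have : NeZero (NN Φ) := ⟨NN_ne_zero Φ⟩
  obtain ⟨g, C, hCm, hC0, hCs, hCc⟩ := exists_normal ρ s
  obtain ⟨g', D, hDm, hD0, hDs, hDc⟩ := exists_normal ρ t
  have hcard : ∀ k, Nat.card (C k) = Nat.card (D k) := by
    intro k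
    induction k using Fin.induction with
    | zero => rw [hC0, hD0]
    | succ k ih => rw [hCc, hDc, ih, h]
  obtain ⟨e, he⟩ := Pool.Agent.LibSt16.chain_iso (NN Φ) (NN_squarefree Φ) (q + 1) (Fin c → ZMod (NN Φ))
    (Fin c → ZMod (NN Φ)) C D hCm hDm rfl hcard
  obtain ⟨k, hk⟩ := Pool.Agent.LibSt16.lift_gl (NN Φ) ρ.π ρ.surj (by
    intro x hN hx
    apply ρ.unit x _ hx
    rintro rfl
    rw [map_zero] at hx
    have h1 : Nontrivial (ZMod (NN Φ)) := ZMod.nontrivial_iff.mpr hN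
    exact not_isUnit_zero hx) c e
  refine ⟨g' * Matrix.GeneralLinearGroup.map (OP Φ).subtype k * g⁻¹, ?_⟩
  apply Subtype.ext
  funext l
  apply Subtype.ext
  rw [smul_Y, smul_val, hCs, hDs, act_mul, act_mul, ← act_mul g⁻¹, inv_mul_cancel, act_one, act_LL ρ k e hk, he]

end St16I
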