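import Pool.Agent.LibSt16.IO3
import Pool.Agent.LibSt16.IT3

/-! ST16 IO4 (no row). -/

namespace St16I

open Matrix QuadraticAlgebra

variable {Φ : Finset P1}

theorem Y1_trans {q : ℕ} (s t : Y Φ 1 q) (h : ty s = ty t) : ∃ u ∈ Ga Φ 1, u • s = t := by
  obtain ⟨g, hg⟩ := GL_trans s t h
  obtain ⟨u, hu, hs⟩ := exists_Ga_one (Φ := Φ) g
  refine ⟨u, hu, ?_⟩
  rw [← hg]
  exact Subtype.ext (funext fun k => hs (s.1 k))

end St16I
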