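import Pool.Agent.LibSt16.ID1

/-!
ST16 ID2. Density of `G_c` in `GL_c(E)` as seen by the lattices.

Plan. `one_add_act`: if `x = 1 + ν^m X` and `x⁻¹ = 1 + ν^m X'`, `X`, `X'` with entries in `OP`, and `sM k ≤ A ≤ sM (-k)`, `2 k ≤ m`, then
`act x A = A`: for `v ∈ A` the vector `ν^m X v` is in `sM (m - k) ≤ sM k ≤ A`. If `x = 1 + ν^m X` with `1 ≤ m` and `Φ` not empty then
`det x ∈ 1 + ν OP` is a unit of `OP` (`inv_mem_OP`: `1 + ν r` is not divisible by any `w p`, `p ∈ Φ`, because `w p ∣ ν` and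
`(w p)⁻¹ ∉ OP`), so `x⁻¹` has entries in `OP` (adjugate) and `x⁻¹ = 1 - ν^m X x⁻¹`. Then `density` with `K' = 2 K + 1` for `g`, and
`u = g (g⁻¹ u)`: `act u A = act g (act (g⁻¹ u) A) = act g A`.
-/

namespace St16I

open Matrix QuadraticAlgebra

variable {Φ : Finset P1} {c : ℕ}

namespace D13

/-- if `x - 1` has entries in `ν^m OP` then `x A ≤ A` -/
theorem act_le {x : GL (Fin c) E} {m k : ℕ}
    (hx : ∀ i j, nuE Φ ^ (-(m : ℤ)) * ((x : Matrix (Fin c) (Fin c) E) - 1) i j ∈ OP Φ)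
    (hm : 2 * k ≤ m) {A : Submodule (OP Φ) (Fin c → E)} (h1 : sM Φ c k ≤ A) (h2 : A ≤ sM Φ c (-k)) :
    act x A ≤ A := by
  rintro _ ⟨v, hv, rfl⟩
  change (x : Matrix (Fin c) (Fin c) E) *ᵥ v ∈ A
  have e : (x : Matrix (Fin c) (Fin c) E) *ᵥ v = v + ((x : Matrix (Fin c) (Fin c) E) - 1) *ᵥ v := by
    rw [Matrix.sub_mulVec, Matrix.one_mulVec]; abel
  rw [e]
  refine A.add_mem hv (h1 ?_)
  have hv2 := h2 hv
  intro i
  rw [Matrix.mulVec, dotProduct, Finset.mul_sum]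
  refine Subring.sum_mem _ fun j _ => ?_
  have h3 := hv2 j
  have e2 : nuE Φ ^ (-(k : ℤ)) * (((x : Matrix (Fin c) (Fin c) E) - 1) i j * v j) =
      nuE Φ ^ (m - 2 * k) * ((nuE Φ ^ (-(m : ℤ)) * ((x : Matrix (Fin c) (Fin c) E) - 1) i j) *
        (nuE Φ ^ (- -(k : ℤ)) * v j)) := by
    have e3 : nuE Φ ^ (-(k : ℤ)) = nuE Φ ^ (m - 2 * k) * nuE Φ ^ (-(m : ℤ)) * nuE Φ ^ (- -(k : ℤ)) := by
      rw [← zpow_natCast, ← zpow_add₀ (nuE_ne_zero Φ), ← zpow_add₀ (nuE_ne_zero Φ)]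
      congr 1
      rw [Nat.cast_sub hm]
      push_cast
      ring
    rw [e3]; ring
  rw [e2]
  exact Subring.mul_mem _ (Subring.pow_mem _ (nuE_mem_OP Φ) _) (Subring.mul_mem _ (hx i j) h3)

theorem not_isUnit_nu (hΦ : Φ.Nonempty) : ¬ IsUnit (nu Φ) := by
  intro h
  have h2 : IsUnit ((NN Φ : ℕ) : GaussianInt) := by
    rw [← nu_mul_star]
    exact h.mul (by
      obtain ⟨v, hv⟩ := h
      exact ⟨star v, by rw [← hv]; rfl⟩)
  obtain ⟨p, hp⟩ := hΦ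
  have h3 : (p.1 : GaussianInt) ∣ 1 := by
    have h4 : p.1 ∣ NN Φ := Finset.dvd_prod_of_mem (fun p : P1 => p.1) hp
    obtain ⟨m, hm⟩ := h4
    have h5 : (p.1 : GaussianInt) ∣ ((NN Φ : ℕ) : GaussianInt) := ⟨m, by rw [hm]; push_cast; rfl⟩
    exact h5.trans h2.dvd
  have h6 : ((p.1 : ℤ) : GaussianInt) ∣ 1 := by simpa using h3
  rw [Zsqrtd.intCast_dvd] at h6
  have h7 := h6.1
  rw [Zsqrtd.re_one] at h7
  have := Int.le_of_dvd (by norm_num) h7
  have h8 : (2 : ℤ) ≤ p.1 := by exact_mod_cast p.2.1.two_le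
  omega

theorem unit_OP (hΦ : Φ.Nonempty) {z y : E} (hy : y ∈ OP Φ) (hz : z = 1 + nuE Φ * y) :
    z ≠ 0 ∧ z⁻¹ ∈ OP Φ := by
  obtain ⟨a, d, hc, h⟩ := hy
  have h1 : gi d * z = gi (d + nu Φ * a) := by
    rw [hz, map_add, map_mul, ← h, nuE]; ring
  have hc2 : IsCoprime (d + nu Φ * a) (nu Φ) := by
    have := hc.add_mul_right_left a
    rwa [mul_comm a (nu Φ)] at this
  have hne : d + nu Φ * a ≠ 0 := by
    intro h0
    rw [h0] at hc2
    exact not_isUnit_nu hΦ (isCoprime_zero_left.1 hc2)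
  have hz0 : z ≠ 0 := by
    rintro rfl
    rw [mul_zero] at h1
    exact gi_ne hne h1.symm
  refine ⟨hz0, d, d + nu Φ * a, hc2, ?_⟩
  rw [← h1]
  field_simp

/-- ideal-like membership `ν^m OP` -/
def C (Φ : Finset P1) (m : ℕ) (x : E) : Prop := nuE Φ ^ (-(m : ℤ)) * x ∈ OP Φ

theorem C.mul {m : ℕ} {x r : E} (hx : C Φ m x) (hr : r ∈ OP Φ) : C Φ m (x * r) := by
  unfold C
  rw [← mul_assoc]
  exact Subring.mul_mem _ hx hr

theorem C.sum {m : ℕ} {ι : Type*} (s : Finset ι) (f : ι → E) (h : ∀ i ∈ s, C Φ m (f i)) :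
    C Φ m (∑ i ∈ s, f i) := by
  unfold C
  rw [Finset.mul_sum]
  exact Subring.sum_mem _ h

theorem C.neg {m : ℕ} {x : E} (hx : C Φ m x) : C Φ m (-x) := by
  unfold C
  rw [mul_neg]
  exact Subring.neg_mem _ hx

theorem C.mem {m : ℕ} {x : E} (hx : C Φ m x) : x ∈ OP Φ := by
  have e : x = nuE Φ ^ m * (nuE Φ ^ (-(m : ℤ)) * x) := by
    rw [_root_.zpow_neg, zpow_natCast, ← mul_assoc, mul_inv_cancel₀ (pow_ne_zero m (nuE_ne_zero Φ)), one_mul]
  rw [e]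
  exact Subring.mul_mem _ (Subring.pow_mem _ (nuE_mem_OP Φ) m) hx

/-- the inverse of a matrix `1 + ν^m X` -/
theorem inv_C (hΦ : Φ.Nonempty) {m : ℕ} (hm : 1 ≤ m) (x : GL (Fin c) E)
    (hx : ∀ i j, C Φ m (((x : Matrix (Fin c) (Fin c) E) - 1) i j)) :
    ∀ i j, C Φ m (((↑x⁻¹ : Matrix (Fin c) (Fin c) E) - 1) i j) := by
  -- entries of `x` are in `OP`
  have hxO : ∀ i j, (x : Matrix (Fin c) (Fin c) E) i j ∈ OP Φ := by
    intro i j
    have e : (x : Matrix (Fin c) (Fin c) E) i j = ((x : Matrix (Fin c) (Fin c) E) - 1) i j + (1 : Matrix (Fin c) (Fin c) E) i j := by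
      rw [Matrix.sub_apply]; ring
    rw [e]
    refine Subring.add_mem _ (hx i j).mem ?_
    rw [Matrix.one_apply]; split_ifs
    · exact Subring.one_mem _
    · exact Subring.zero_mem _
  let x' : Matrix (Fin c) (Fin c) (OP Φ) := fun i j => ⟨(x : Matrix (Fin c) (Fin c) E) i j, hxO i j⟩
  have hmap : (OP Φ).subtype.mapMatrix x' = (x : Matrix (Fin c) (Fin c) E) := by
    ext1 i j; rfl
  let ν' : OP Φ := ⟨nuE Φ, nuE_mem_OP Φ⟩
  have hdet1 : x'.det - 1 ∈ Ideal.span {ν'} := by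
    rw [← Ideal.Quotient.eq_zero_iff_mem, map_sub, map_one, RingHom.map_det]
    have h1 : (Ideal.Quotient.mk (Ideal.span {ν'})).mapMatrix x' = 1 := by
      ext1 i j
      rw [RingHom.mapMatrix_apply, Matrix.map_apply]
      have h2 : x' i j - (1 : Matrix (Fin c) (Fin c) (OP Φ)) i j ∈ Ideal.span {ν'} := by
        rw [Ideal.mem_span_singleton']
        refine ⟨⟨nuE Φ ^ (m - 1) * (nuE Φ ^ (-(m : ℤ)) * ((x : Matrix (Fin c) (Fin c) E) - 1) i j),
          Subring.mul_mem _ (Subring.pow_mem _ (nuE_mem_OP Φ) _) (hx i j)⟩, ?_⟩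
        apply Subtype.ext
        have h3 : ((1 : Matrix (Fin c) (Fin c) (OP Φ)) i j : E) = (1 : Matrix (Fin c) (Fin c) E) i j := by
          rw [Matrix.one_apply, Matrix.one_apply]; split_ifs <;> rfl
        show nuE Φ ^ (m - 1) * (nuE Φ ^ (-(m : ℤ)) * ((x : Matrix (Fin c) (Fin c) E) - 1) i j) * nuE Φ =
          (x : Matrix (Fin c) (Fin c) E) i j - ((1 : Matrix (Fin c) (Fin c) (OP Φ)) i j : E)
        rw [h3, ← Matrix.sub_apply]
        have h4 : nuE Φ ^ (m - 1) * nuE Φ * nuE Φ ^ (-(m : ℤ)) = 1 := by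
          rw [← pow_succ, Nat.sub_add_cancel hm, ← zpow_natCast, ← zpow_add₀ (nuE_ne_zero Φ)]
          simp
        calc _ = (nuE Φ ^ (m - 1) * nuE Φ * nuE Φ ^ (-(m : ℤ))) *
              ((x : Matrix (Fin c) (Fin c) E) - 1) i j := by ring
          _ = _ := by rw [h4, one_mul]
      have h5 := (Ideal.Quotient.mk_eq_mk_iff_sub_mem _ _).2 h2
      rw [h5, Matrix.one_apply, Matrix.one_apply]
      split_ifs <;> simp
    rw [h1, Matrix.det_one, sub_self]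
  rw [Ideal.mem_span_singleton'] at hdet1
  obtain ⟨y, hy⟩ := hdet1
  have hz : ((x'.det : OP Φ) : E) = 1 + nuE Φ * (y : E) := by
    have := congrArg (fun r : OP Φ => (r : E)) hy
    simp only [Subring.coe_mul, AddSubgroupClass.coe_sub, Subring.coe_one] at this
    have h6 : ((ν' : OP Φ) : E) = nuE Φ := rfl
    rw [h6] at this
    linear_combination -this
  obtain ⟨hz0, hz1⟩ := unit_OP hΦ y.2 hz
  have hun : IsUnit x'.det := by
    refine IsUnit.of_mul_eq_one (⟨_, hz1⟩ : OP Φ) ?_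
    apply Subtype.ext
    show ((x'.det : OP Φ) : E) * ((x'.det : OP Φ) : E)⁻¹ = 1
    exact mul_inv_cancel₀ hz0
  have hmul : x' * x'⁻¹ = 1 := Matrix.mul_nonsing_inv x' hun
  have hinv : (↑x⁻¹ : Matrix (Fin c) (Fin c) E) = (OP Φ).subtype.mapMatrix x'⁻¹ := by
    have h7 : (x : Matrix (Fin c) (Fin c) E) * (OP Φ).subtype.mapMatrix x'⁻¹ = 1 := by
      rw [← hmap, ← map_mul, hmul, map_one]
    have h8 : (↑x⁻¹ : Matrix (Fin c) (Fin c) E) * (x : Matrix (Fin c) (Fin c) E) = 1 := by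
      rw [← Units.val_mul, inv_mul_cancel, Units.val_one]
    calc (↑x⁻¹ : Matrix (Fin c) (Fin c) E)
        = (↑x⁻¹ : Matrix (Fin c) (Fin c) E) * ((x : Matrix (Fin c) (Fin c) E) * (OP Φ).subtype.mapMatrix x'⁻¹) := by
          rw [h7, Matrix.mul_one]
      _ = _ := by rw [← Matrix.mul_assoc, h8, Matrix.one_mul]
  have hinvO : ∀ i j, (↑x⁻¹ : Matrix (Fin c) (Fin c) E) i j ∈ OP Φ := by
    intro i j
    rw [hinv, RingHom.mapMatrix_apply, Matrix.map_apply]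
    exact (x'⁻¹ i j).2
  intro i j
  have e : (↑x⁻¹ : Matrix (Fin c) (Fin c) E) - 1 =
      -(((x : Matrix (Fin c) (Fin c) E) - 1) * (↑x⁻¹ : Matrix (Fin c) (Fin c) E)) := by
    have h9 : (x : Matrix (Fin c) (Fin c) E) * (↑x⁻¹ : Matrix (Fin c) (Fin c) E) = 1 := by
      rw [← Units.val_mul, mul_inv_cancel, Units.val_one]
    rw [Matrix.sub_mul, h9, Matrix.one_mul]; abel
  rw [e, Matrix.neg_apply, Matrix.mul_apply]
  exact C.neg (C.sum _ _ fun k _ => (hx i k).mul (hinvO k j))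

/-- `x A = A` for `x` close to one -/
theorem act_eq (hΦ : Φ.Nonempty) {x : GL (Fin c) E} {m k : ℕ} (hm : 1 ≤ m)
    (hx : ∀ i j, C Φ m (((x : Matrix (Fin c) (Fin c) E) - 1) i j))
    (hmk : 2 * k ≤ m) {A : Submodule (OP Φ) (Fin c → E)} (h1 : sM Φ c k ≤ A) (h2 : A ≤ sM Φ c (-k)) :
    act x A = A := by
  apply le_antisymm (act_le hx hmk h1 h2)
  have := act_mono x (act_le (inv_C hΦ hm x hx) hmk h1 h2)
  rwa [← act_mul, mul_inv_cancel, act_one] at this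

end D13

theorem exists_unitary_act (hΦ : Φ.Nonempty) (g : GL (Fin c) E) (K : ℕ) :
    ∃ u ∈ Gc c, ∀ A : Lat Φ c, sM Φ c K ≤ A.1 → A.1 ≤ sM Φ c (-K) → u • A = g • A := by
  have hdet : (g : Matrix (Fin c) (Fin c) E).det ≠ 0 := by
    have := g.isUnit
    rw [Matrix.isUnit_iff_isUnit_det] at this
    exact this.ne_zero
  obtain ⟨u, h1, h2, h3⟩ := density Φ (g : Matrix (Fin c) (Fin c) E) hdet (2 * K + 1)
  let U : GL (Fin c) E := ⟨u, uᴴ, mul_eq_one_comm.1 h1, h1⟩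
  have hU : U ∈ Gc c := ⟨h1, h2⟩
  have hgi : (↑g⁻¹ : Matrix (Fin c) (Fin c) E) = (g : Matrix (Fin c) (Fin c) E)⁻¹ := by
    rw [Matrix.coe_units_inv]
  have hx : ∀ i j, D13.C Φ (2 * K + 1) (((↑(g⁻¹ * U) : Matrix (Fin c) (Fin c) E) - 1) i j) := by
    intro i j
    have e : (↑(g⁻¹ * U) : Matrix (Fin c) (Fin c) E) = (g : Matrix (Fin c) (Fin c) E)⁻¹ * u := by
      rw [Units.val_mul, hgi]
    rw [e]
    exact h3 i j
  refine ⟨U, hU, fun A hA1 hA2 => ?_⟩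
  apply Subtype.ext
  rw [smul_val, smul_val]
  have h4 := D13.act_eq hΦ (k := K) (by omega) hx (by omega) hA1 hA2
  have h5 : U = g * (g⁻¹ * U) := by group
  rw [h5, act_mul, h4]

/-- Two simplices which are conjugate under `GL_c(E)` are conjugate under `G_c`. -/
theorem exists_unitary_smul (hΦ : Φ.Nonempty) (g : GL (Fin c) E) {q : ℕ} (s : Y Φ c q) :
    ∃ u ∈ Gc c, u • s = g • s := by
  choose f hf using fun k : Fin (q + 1) => (s.1 k).2
  set K := Finset.univ.sup f with hK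
  obtain ⟨u, hu, h⟩ := exists_unitary_act hΦ g K
  refine ⟨u, hu, ?_⟩
  apply Subtype.ext
  funext k
  rw [smul_Y, smul_Y]
  have hle : f k ≤ K := Finset.le_sup (f := f) (Finset.mem_univ k)
  apply h
  · refine le_trans (sM_anti ?_) (hf k).1
    exact_mod_cast hle
  · refine (hf k).2.trans (sM_anti ?_)
    have : (f k : ℤ) ≤ K := by exact_mod_cast hle
    linarith

end St16I
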