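import Pool.Agent.LibSt16.IR1
import Pool.Agent.LibSt16.ID2
import Pool.Agent.LibSt16.IT2

/-!
ST16 IR2 (helper52). `Γ_Φ` has finitely many orbits on the simplices of `Y_Φ`.

Plan. Vertices: `A = act g M` (`lat_free`), `g` may be taken in `G_c` (`exists_unitary_act` for the lattice `M`). The denominators of
`u ∈ G_c` and `u⁻¹ = uᴴ` divide `N^a N2`, `N2` prime to `N` and a product of primes `1 mod 4`; `bw`: `u = B w`, `w`, `w⁻¹` have
entries in `ZInv N2 ≤ OP Φ` (`N2` prime to `ν`), so `act w M = M` and `A = act B M`. `Bᴴ B = (w⁻¹)ᴴ w⁻¹` has entries in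
`ZInv N ⊓ ZInv N2 = ℤ[i]`, also its inverse; it is positive definite. `red`: after replacing `B` by `B V`, `V ∈ GL_c(ℤ[i])`
(`act V M = M`) `Bᴴ B ∈ S`. If `Bᴴ B = B'ᴴ B'` then `B' B⁻¹ ∈ Ga Φ c`. So there are at most `#S` orbits. Simplices: finitely many
over each vertex by `finite_interval`.
-/

namespace St16I

open Matrix QuadraticAlgebra

variable {Φ : Finset P1} {c : ℕ}

private theorem IR2_act_le {g : GL (Fin c) E} (hg : ∀ i j, (g : Matrix (Fin c) (Fin c) E) i j ∈ OP Φ) (k : ℤ) :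
    act g (sM Φ c k) ≤ sM Φ c k := by
  rintro _ ⟨v, hv, rfl⟩
  intro i
  change nuE Φ ^ (-k) * ((g : Matrix (Fin c) (Fin c) E) *ᵥ v) i ∈ OP Φ
  rw [Matrix.mulVec, dotProduct, Finset.mul_sum]
  refine Subring.sum_mem _ fun j _ => ?_
  have e : nuE Φ ^ (-k) * ((g : Matrix (Fin c) (Fin c) E) i j * v j) =
      ((g : Matrix (Fin c) (Fin c) E) i j) * (nuE Φ ^ (-k) * v j) := by
    ring
  rw [e]
  exact Subring.mul_mem _ (hg i j) (hv j)

/-- the standard lattice -/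
private noncomputable def IR2_M0 (Φ : Finset P1) (c : ℕ) : Lat Φ c :=
  ⟨sM Φ c 0, 0, by simp, by simp⟩

private theorem IR2_fix {g : GL (Fin c) E} (hg : ∀ i j, (g : Matrix (Fin c) (Fin c) E) i j ∈ OP Φ)
    (hg' : ∀ i j, (↑g⁻¹ : Matrix (Fin c) (Fin c) E) i j ∈ OP Φ) : g • IR2_M0 Φ c = IR2_M0 Φ c := by
  apply le_antisymm
  · exact IR2_act_le hg 0
  · have h1 : g⁻¹ • IR2_M0 Φ c ≤ IR2_M0 Φ c := IR2_act_le hg' 0
    have h2 := (smul_le_smul g).2 h1
    rwa [smul_inv_smul] at h2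

private theorem IR2_ZInv_le {n : ℕ} (h : n.Coprime (NN Φ)) {z : E} (hz : z ∈ ZInv n) : z ∈ OP Φ := by
  obtain ⟨k, a, ha⟩ := hz
  refine ⟨a, (n : GaussianInt) ^ k, ?_, ?_⟩
  · apply IsCoprime.pow_left
    have h1 : IsCoprime (n : ℤ) (NN Φ : ℤ) := Nat.isCoprime_iff_coprime.2 h
    have h2 := h1.map (Int.castRingHom GaussianInt)
    simp only [eq_intCast, Int.cast_natCast] at h2
    rw [← nu_mul_star Φ] at h2
    exact h2.of_mul_right_left
  · rw [map_pow, gi_natCast, ha]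

/-- common denominators -/
private theorem IR2_den {u : GL (Fin c) E} (hu : u ∈ Gc c) : ∃ n : ℕ, n ≠ 0 ∧
    (∀ i j, (n : E) * (u : Matrix (Fin c) (Fin c) E) i j ∈ gi.range) := by
  have h := hu.2
  choose n hn hn' hn'' using h
  refine ⟨∏ p : Fin c × Fin c, n p.1 p.2, Finset.prod_ne_zero_iff.2 fun p _ => hn p.1 p.2, fun i j => ?_⟩
  have h1 : (∏ p : Fin c × Fin c, n p.1 p.2) = (∏ p ∈ Finset.univ.erase (i, j), n p.1 p.2) * n i j :=
    (Finset.prod_erase_mul _ _ (Finset.mem_univ (i, j))).symm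
  rw [h1]
  push_cast
  rw [mul_assoc, ← Nat.cast_prod, ← gi_natCast]
  obtain ⟨a, ha⟩ := hn'' i j
  exact ⟨((∏ p ∈ Finset.univ.erase (i, j), n p.1 p.2 : ℕ) : GaussianInt) * a, by rw [map_mul, ha]⟩

/-- splitting of the denominator -/
private theorem IR2_split (N : ℕ) (n : ℕ) (hn : n ≠ 0) :
    ∃ n2 k : ℕ, n2 ≠ 0 ∧ n2.Coprime N ∧ n ∣ (N * n2) ^ k := by
  induction n using Nat.strong_induction_on with
  | _ n ih =>
    by_cases hc : n.Coprime N
    · exact ⟨n, 1, hn, hc, by rw [pow_one]; exact dvd_mul_left _ _⟩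
    · have hg : 1 < n.gcd N := by
        have h0 : n.gcd N ≠ 0 := fun h => hn (Nat.gcd_eq_zero_iff.1 h).1
        have h1 : n.gcd N ≠ 1 := hc
        omega
      obtain ⟨m, hm⟩ := Nat.gcd_dvd_left n N
      have hm0 : m ≠ 0 := by
        rintro rfl
        rw [mul_zero] at hm
        exact hn hm
      have hlt : m < n := by
        calc m = 1 * m := (one_mul m).symm
          _ < n.gcd N * m := Nat.mul_lt_mul_of_pos_right hg (Nat.pos_of_ne_zero hm0)
          _ = n := hm.symm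
      obtain ⟨n2, k, h1, h2, h3⟩ := ih m hlt hm0
      refine ⟨n2, k + 1, h1, h2, ?_⟩
      rw [hm, pow_succ, mul_comm]
      exact mul_dvd_mul h3 ((Nat.gcd_dvd_right n N).trans (dvd_mul_right _ _))

private theorem IR2_dvd {n m : ℕ} (h : n ∣ m) {z : E} (hz : (n : E) * z ∈ gi.range) : (m : E) * z ∈ gi.range := by
  obtain ⟨l, rfl⟩ := h
  obtain ⟨a, ha⟩ := hz
  refine ⟨(l : GaussianInt) * a, ?_⟩
  rw [map_mul, ha, gi_natCast]
  push_cast
  ring

private theorem IR2_star_range {z : E} (hz : z ∈ gi.range) : star z ∈ gi.range := by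
  obtain ⟨a, rfl⟩ := hz
  exact ⟨star a, gi_star a⟩

private theorem IR2_mul_mem {R : Subring E} {A B : Matrix (Fin c) (Fin c) E} (hA : ∀ i j, A i j ∈ R)
    (hB : ∀ i j, B i j ∈ R) (i j : Fin c) : (A * B) i j ∈ R := by
  rw [Matrix.mul_apply]
  exact Subring.sum_mem _ fun k _ => Subring.mul_mem _ (hA i k) (hB k j)

private theorem IR2_range_le (N : ℕ) {z : E} (hz : z ∈ gi.range) : z ∈ ZInv N := ⟨0, by simpa using hz⟩

/-- the matrix of Gaussian integers in `E` -/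
private def IR2_mp (A : Matrix (Fin c) (Fin c) GaussianInt) : Matrix (Fin c) (Fin c) E := A.map gi

private theorem IR2_mp_mul (A B : Matrix (Fin c) (Fin c) GaussianInt) : IR2_mp (A * B) = IR2_mp A * IR2_mp B :=
  Matrix.map_mul

private theorem IR2_mp_star (A : Matrix (Fin c) (Fin c) GaussianInt) : IR2_mp Aᴴ = (IR2_mp A)ᴴ := by
  ext i j : 1
  exact gi_star (A j i)

private theorem IR2_mp_one : IR2_mp (1 : Matrix (Fin c) (Fin c) GaussianInt) = 1 := by
  unfold IR2_mp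
  exact Matrix.map_one _ (map_zero gi) (map_one gi)

private theorem IR2_mp_inj {A B : Matrix (Fin c) (Fin c) GaussianInt} (h : IR2_mp A = IR2_mp B) : A = B := by
  ext i j : 1
  exact gi_injective (congrFun (congrFun h i) j)

private theorem IR2_mp_mem (A : Matrix (Fin c) (Fin c) GaussianInt) (i j : Fin c) : IR2_mp A i j ∈ gi.range :=
  ⟨A i j, rfl⟩

private theorem IR2_lift {A : Matrix (Fin c) (Fin c) E} (h : ∀ i j, A i j ∈ gi.range) : ∃ H, IR2_mp H = A := by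
  choose H hH using h
  exact ⟨Matrix.of H, by ext i j : 1; exact hH i j⟩

private theorem IR2_sq (z : E) : 0 ≤ (star z * z).re ∧ ((star z * z).re = 0 → z = 0) := by
  have e : (star z * z).re = z.re ^ 2 + z.im ^ 2 := by
    rw [QuadraticAlgebra.re_mul, QuadraticAlgebra.re_star, QuadraticAlgebra.im_star]
    ring
  rw [e]
  refine ⟨by positivity, fun h => ?_⟩
  have h1 : z.re = 0 := by nlinarith [sq_nonneg z.re, sq_nonneg z.im]
  have h2 : z.im = 0 := by nlinarith [sq_nonneg z.re, sq_nonneg z.im]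
  exact QuadraticAlgebra.ext h1 h2

private theorem IR2_re_sum {ι : Type} (s : Finset ι) (f : ι → E) : (∑ i ∈ s, f i).re = ∑ i ∈ s, (f i).re := by
  classical
  induction s using Finset.induction_on with
  | empty => simp
  | insert a s ha ih => rw [Finset.sum_insert ha, Finset.sum_insert ha, QuadraticAlgebra.re_add, ih]

private theorem IR2_pos {z : Fin c → E} (hz : z ≠ 0) : 0 < (star z ⬝ᵥ z).re := by
  rw [dotProduct, IR2_re_sum]
  have h1 : ∀ i ∈ Finset.univ, 0 ≤ ((star z) i * z i).re := fun i _ => (IR2_sq (z i)).1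
  rcases (Finset.sum_nonneg h1).lt_or_eq with h | h
  · exact h
  · exfalso
    apply hz
    funext i
    exact (IR2_sq (z i)).2 ((Finset.sum_eq_zero_iff_of_nonneg h1).1 h.symm i (Finset.mem_univ i))

private theorem IR2_gram {Bm Bi wm wi : Matrix (Fin c) (Fin c) E} (hBB' : Bi * Bm = 1) (hww : wm * wi = 1)
    (hu1 : (wmᴴ * Bmᴴ) * (Bm * wm) = 1) : Bmᴴ * Bm = wiᴴ * wi ∧ Bi * Biᴴ = wm * wmᴴ := by
  constructor
  · have h1 : wiᴴ * wmᴴ = 1 := by
      rw [← conjTranspose_mul, hww, conjTranspose_one]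
    calc Bmᴴ * Bm = (wiᴴ * wmᴴ) * (Bmᴴ * Bm) * (wm * wi) := by
          rw [h1, hww, Matrix.one_mul, Matrix.mul_one]
      _ = wiᴴ * ((wmᴴ * Bmᴴ) * (Bm * wm)) * wi := by
          simp only [Matrix.mul_assoc]
      _ = _ := by rw [hu1, Matrix.mul_one]
  · have h1 : Bmᴴ * Biᴴ = 1 := by
      rw [← conjTranspose_mul, hBB', conjTranspose_one]
    have h2 : (Bm * wm) * (wmᴴ * Bmᴴ) = 1 := mul_eq_one_comm.1 hu1
    calc Bi * Biᴴ = Bi * ((Bm * wm) * (wmᴴ * Bmᴴ)) * Biᴴ := by rw [h2, Matrix.mul_one]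
      _ = (Bi * Bm) * (wm * wmᴴ) * (Bmᴴ * Biᴴ) := by
          simp only [Matrix.mul_assoc]
      _ = _ := by rw [hBB', h1, Matrix.one_mul, Matrix.mul_one]

private theorem IR2_one {Bm Bi : Matrix (Fin c) (Fin c) E} (hBB : Bm * Bi = 1) (hBB' : Bi * Bm = 1) :
    Bmᴴ * Bm * (Bi * Biᴴ) = 1 := by
  rw [Matrix.mul_assoc, ← Matrix.mul_assoc Bm, hBB, Matrix.one_mul, ← conjTranspose_mul, hBB', conjTranspose_one]

/-- every lattice is `B M` with a reduced Gram matrix -/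
private theorem IR2_main (hΦ : Φ.Nonempty) {S : Set (Matrix (Fin c) (Fin c) GaussianInt)}
    (hS : ∀ H : Matrix (Fin c) (Fin c) GaussianInt, Hᴴ = H →
      (∀ x : Fin c → GaussianInt, x ≠ 0 → 0 < (star x ⬝ᵥ (H *ᵥ x)).re) → IsUnit H.det →
      ∃ V : GL (Fin c) GaussianInt, (V : Matrix (Fin c) (Fin c) GaussianInt)ᴴ * H * V ∈ S) (A : Lat Φ c) :
    ∃ (B : GL (Fin c) E) (H : Matrix (Fin c) (Fin c) GaussianInt), H ∈ S ∧
      (∀ i j, (B : Matrix (Fin c) (Fin c) E) i j ∈ ZInv (NN Φ)) ∧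
      (∀ i j, (↑B⁻¹ : Matrix (Fin c) (Fin c) E) i j ∈ ZInv (NN Φ)) ∧
      (B : Matrix (Fin c) (Fin c) E)ᴴ * B = IR2_mp H ∧ B • IR2_M0 Φ c = A := by
  obtain ⟨g, hg⟩ := lat_free A
  obtain ⟨u, hu, huA⟩ := exists_unitary_act hΦ g 0
  have huM : u • IR2_M0 Φ c = A := by
    rw [huA (IR2_M0 Φ c) (by simp [IR2_M0]) (by simp [IR2_M0])]
    exact Subtype.ext hg
  obtain ⟨n, hn0, hn⟩ := IR2_den hu
  obtain ⟨n2, k, hn2, hcop, hdvd⟩ := IR2_split (NN Φ) n hn0
  have huinv : (↑u⁻¹ : Matrix (Fin c) (Fin c) E) = (u : Matrix (Fin c) (Fin c) E)ᴴ := by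
    have h1 : (u : Matrix (Fin c) (Fin c) E) * (↑u⁻¹ : Matrix (Fin c) (Fin c) E) = 1 := by
      rw [← Units.val_mul, mul_inv_cancel, Units.val_one]
    calc (↑u⁻¹ : Matrix (Fin c) (Fin c) E)
        = ((u : Matrix (Fin c) (Fin c) E)ᴴ * u) * (↑u⁻¹ : Matrix (Fin c) (Fin c) E) := by
          rw [hu.1, Matrix.one_mul]
      _ = (u : Matrix (Fin c) (Fin c) E)ᴴ := by rw [Matrix.mul_assoc, h1, Matrix.mul_one]
  have hp : ∀ z : E, (n : E) * z ∈ gi.range → z ∈ ZInv (NN Φ * n2) := by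
    intro z hz
    refine ⟨k, ?_⟩
    have := IR2_dvd hdvd hz
    push_cast at this ⊢
    exact this
  obtain ⟨B, w, hBw, hB, hw⟩ := bw (NN_ne_zero Φ) hn2 hcop.symm u (fun i j => hp _ (hn i j)) (fun i j => by
    rw [huinv, conjTranspose_apply]
    refine hp _ ?_
    have h1 := IR2_star_range (hn j i)
    rw [star_mul, star_natCast, mul_comm] at h1
    exact h1)
  have hwM : w • IR2_M0 Φ c = IR2_M0 Φ c :=
    IR2_fix (fun i j => IR2_ZInv_le hcop (hw i j).1) fun i j => IR2_ZInv_le hcop (hw i j).2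
  have hBM : B • IR2_M0 Φ c = A := by
    rw [← huM, hBw, mul_smul, hwM]
  -- the Gram matrix
  have hBB : (B : Matrix (Fin c) (Fin c) E) * (↑B⁻¹ : Matrix (Fin c) (Fin c) E) = 1 := by
    rw [← Units.val_mul, mul_inv_cancel, Units.val_one]
  have hBB' : (↑B⁻¹ : Matrix (Fin c) (Fin c) E) * (B : Matrix (Fin c) (Fin c) E) = 1 := by
    rw [← Units.val_mul, inv_mul_cancel, Units.val_one]
  have hww : (w : Matrix (Fin c) (Fin c) E) * (↑w⁻¹ : Matrix (Fin c) (Fin c) E) = 1 := by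
    rw [← Units.val_mul, mul_inv_cancel, Units.val_one]
  have hww' : (↑w⁻¹ : Matrix (Fin c) (Fin c) E) * (w : Matrix (Fin c) (Fin c) E) = 1 := by
    rw [← Units.val_mul, inv_mul_cancel, Units.val_one]
  have hu1 : ((w : Matrix (Fin c) (Fin c) E)ᴴ * (B : Matrix (Fin c) (Fin c) E)ᴴ) * (B * w) = 1 := by
    rw [← conjTranspose_mul, ← Units.val_mul, ← hBw]
    exact hu.1
  obtain ⟨hG, hG'⟩ := IR2_gram hBB' hww hu1
  have hst : ∀ {N : ℕ} {X : Matrix (Fin c) (Fin c) E}, (∀ i j, X i j ∈ ZInv N) → ∀ i j, Xᴴ i j ∈ ZInv N :=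
    fun hX i j => star_mem_ZInv (hX j i)
  obtain ⟨H, hH⟩ : ∃ H, IR2_mp H = (B : Matrix (Fin c) (Fin c) E)ᴴ * (B : Matrix (Fin c) (Fin c) E) := IR2_lift fun i j =>
    ZInv_inf (NN_ne_zero Φ) hn2 hcop.symm (IR2_mul_mem (hst fun i j => (hB i j).1) (fun i j => (hB i j).1) i j)
      (by rw [hG]; exact IR2_mul_mem (hst fun i j => (hw i j).2) (fun i j => (hw i j).2) i j)
  obtain ⟨H', hH'⟩ : ∃ H', IR2_mp H' = (↑B⁻¹ : Matrix (Fin c) (Fin c) E) * (↑B⁻¹ : Matrix (Fin c) (Fin c) E)ᴴ :=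
    IR2_lift fun i j =>
    ZInv_inf (NN_ne_zero Φ) hn2 hcop.symm (IR2_mul_mem (fun i j => (hB i j).2) (hst fun i j => (hB i j).2) i j)
      (by rw [hG']; exact IR2_mul_mem (fun i j => (hw i j).1) (hst fun i j => (hw i j).1) i j)
  have hHH : H * H' = 1 := by
    apply IR2_mp_inj
    rw [IR2_mp_mul, hH, hH', IR2_mp_one]
    exact IR2_one hBB hBB'
  have hherm : Hᴴ = H := by
    apply IR2_mp_inj
    rw [IR2_mp_star, hH, conjTranspose_mul, conjTranspose_conjTranspose]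
  have hpos : ∀ x : Fin c → GaussianInt, x ≠ 0 → 0 < (star x ⬝ᵥ (H *ᵥ x)).re := by
    intro x hx
    let y : Fin c → E := fun i => gi (x i)
    have hy : y ≠ 0 := by
      intro h
      apply hx
      funext i
      exact gi_injective ((congrFun h i).trans (map_zero gi).symm)
    have hz : (B : Matrix (Fin c) (Fin c) E) *ᵥ y ≠ 0 := by
      intro h
      apply hy
      have := congrArg (fun v => (↑B⁻¹ : Matrix (Fin c) (Fin c) E) *ᵥ v) h
      simp only [mulVec_mulVec, hBB', one_mulVec, mulVec_zero] at this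
      exact this
    have h1 := IR2_pos hz
    have h2 : star ((B : Matrix (Fin c) (Fin c) E) *ᵥ y) ⬝ᵥ ((B : Matrix (Fin c) (Fin c) E) *ᵥ y) =
        gi (star x ⬝ᵥ (H *ᵥ x)) := by
      rw [star_mulVec, ← dotProduct_mulVec, mulVec_mulVec, ← hH]
      simp only [dotProduct, map_sum, map_mul]
      refine Finset.sum_congr rfl fun i _ => ?_
      congr 1
      · exact (gi_star (x i)).symm
      · simp only [mulVec, dotProduct, map_sum, map_mul]
        rfl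
    rw [h2, gi_re] at h1
    exact_mod_cast h1
  have hunit : IsUnit H.det := by
    have := congrArg Matrix.det hHH
    rw [det_mul, det_one] at this
    exact IsUnit.of_mul_eq_one _ this
  obtain ⟨V, hV⟩ := hS H hherm hpos hunit
  have hVV : (V : Matrix (Fin c) (Fin c) GaussianInt) * (↑V⁻¹ : Matrix (Fin c) (Fin c) GaussianInt) = 1 := by
    rw [← Units.val_mul, mul_inv_cancel, Units.val_one]
  have hVV' : (↑V⁻¹ : Matrix (Fin c) (Fin c) GaussianInt) * (V : Matrix (Fin c) (Fin c) GaussianInt) = 1 := by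
    rw [← Units.val_mul, inv_mul_cancel, Units.val_one]
  let VE : GL (Fin c) E := ⟨IR2_mp V, IR2_mp ↑V⁻¹, by rw [← IR2_mp_mul, hVV, IR2_mp_one],
    by rw [← IR2_mp_mul, hVV', IR2_mp_one]⟩
  have hVE : (VE : Matrix (Fin c) (Fin c) E) = IR2_mp V := rfl
  have hVE' : (↑VE⁻¹ : Matrix (Fin c) (Fin c) E) = IR2_mp ↑V⁻¹ := rfl
  refine ⟨B * VE, _, hV, fun i j => ?_, fun i j => ?_, ?_, ?_⟩
  · rw [Units.val_mul, hVE]
    exact IR2_mul_mem (fun i j => (hB i j).1) (fun i j => IR2_range_le _ (IR2_mp_mem _ i j)) i j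
  · rw [_root_.mul_inv_rev, Units.val_mul, hVE']
    exact IR2_mul_mem (fun i j => IR2_range_le _ (IR2_mp_mem _ i j)) (fun i j => (hB i j).2) i j
  · rw [Units.val_mul, hVE, conjTranspose_mul, IR2_mp_mul, IR2_mp_mul, hH, IR2_mp_star]
    simp only [Matrix.mul_assoc]
  · rw [mul_smul, IR2_fix, hBM]
    · intro i j
      rw [hVE]
      obtain ⟨a, ha⟩ := IR2_mp_mem (V : Matrix (Fin c) (Fin c) GaussianInt) i j
      rw [← ha]
      exact gi_mem_OP Φ a
    · intro i j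
      rw [hVE']
      obtain ⟨a, ha⟩ := IR2_mp_mem (↑V⁻¹ : Matrix (Fin c) (Fin c) GaussianInt) i j
      rw [← ha]
      exact gi_mem_OP Φ a

theorem finite_orbits_vertices (hΦ : Φ.Nonempty) : ∃ S : Set (Lat Φ c), S.Finite ∧
    ∀ A, ∃ g ∈ Ga Φ c, ∃ B ∈ S, g • B = A := by
  classical
  obtain ⟨S, hSfin, hS⟩ := red c
  let P : Matrix (Fin c) (Fin c) GaussianInt → GL (Fin c) E → Prop := fun H B =>
    (∀ i j, (B : Matrix (Fin c) (Fin c) E) i j ∈ ZInv (NN Φ)) ∧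
      (∀ i j, (↑B⁻¹ : Matrix (Fin c) (Fin c) E) i j ∈ ZInv (NN Φ)) ∧
      (B : Matrix (Fin c) (Fin c) E)ᴴ * B = IR2_mp H
  let b : Matrix (Fin c) (Fin c) GaussianInt → GL (Fin c) E := fun H => if h : ∃ B, P H B then h.choose else 1
  refine ⟨(fun H => b H • IR2_M0 Φ c) '' S, hSfin.image _, fun A => ?_⟩
  obtain ⟨B, H, hHS, h1, h2, h3, h4⟩ := IR2_main hΦ hS A
  have hex : ∃ B, P H B := ⟨B, h1, h2, h3⟩
  have hb : b H = hex.choose := dif_pos hex
  obtain ⟨q1, q2, q3⟩ : P H (b H) := by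
    rw [hb]
    exact hex.choose_spec
  refine ⟨B * (b H)⁻¹, ⟨?_, fun i j => ?_⟩, b H • IR2_M0 Φ c, ⟨H, hHS, rfl⟩, ?_⟩
  · have hbb : (↑(b H) : Matrix (Fin c) (Fin c) E) * (↑(b H)⁻¹ : Matrix (Fin c) (Fin c) E) = 1 := by
      rw [← Units.val_mul, mul_inv_cancel, Units.val_one]
    rw [Units.val_mul, conjTranspose_mul]
    rw [Matrix.mul_assoc, ← Matrix.mul_assoc (B : Matrix (Fin c) (Fin c) E)ᴴ, h3, ← q3, Matrix.mul_assoc, hbb,
      Matrix.mul_one, ← conjTranspose_mul, hbb, conjTranspose_one]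
  · rw [Units.val_mul]
    exact IR2_mul_mem h1 q2 i j
  · rw [mul_smul, inv_smul_smul, h4]

/-- multiplication by `ν` -/
private noncomputable def IR2_nu (Φ : Finset P1) (c : ℕ) : GL (Fin c) E :=
  ⟨nuE Φ • 1, (nuE Φ)⁻¹ • 1, by simp [smul_smul, nuE_ne_zero], by simp [smul_smul, nuE_ne_zero]⟩

private theorem IR2_upL (A : Lat Φ c) : upL (IR2_nu Φ c • A) = A := by
  apply Subtype.ext
  change up (act (IR2_nu Φ c) A.1) = A.1
  ext v
  rw [mem_up, mem_act]
  have e : (↑(IR2_nu Φ c)⁻¹ : Matrix (Fin c) (Fin c) E) = (nuE Φ)⁻¹ • 1 := rfl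
  rw [e, smul_mulVec, one_mulVec, smul_smul, inv_mul_cancel₀ (nuE_ne_zero Φ), one_smul]

private theorem IR2_le_of_upL {A B : Lat Φ c} (h : upL A ≤ upL B) : A ≤ B := by
  have h1 := (smul_le_smul (IR2_nu Φ c)).2 h
  rw [smul_upL, smul_upL, IR2_upL, IR2_upL] at h1
  exact h1

/-- Only finitely many simplices have a given vertex. -/
theorem finite_star (q : ℕ) (k : Fin (q + 1)) (A : Lat Φ c) : {s : Y Φ c q | s.1 k = A}.Finite := by
  set A' : Lat Φ c := IR2_nu Φ c • A with hA'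
  have hup : upL A' = A := IR2_upL A
  let F : Set (Lat Φ c) := {B | A' ≤ B ∧ B ≤ upL A'} ∪ {B | A ≤ B ∧ B ≤ upL A}
  have hF : F.Finite := (finite_interval A').union (finite_interval A)
  have hpi : (Set.pi Set.univ fun _ : Fin (q + 1) => F).Finite := Set.Finite.pi fun _ => hF
  refine Set.Finite.of_finite_image (f := Subtype.val) (hpi.subset ?_) Subtype.val_injective.injOn
  rintro _ ⟨s, hs, rfl⟩
  intro l _
  have hsk : s.1 k = A := hs
  have h0 : A' ≤ s.1 0 := by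
    apply IR2_le_of_upL
    rw [hup, ← hsk]
    exact (s.2.1.monotone (Fin.le_last k)).trans s.2.2
  rcases le_total l k with hlk | hlk
  · left
    refine ⟨h0.trans (s.2.1.monotone (Fin.zero_le l)), ?_⟩
    rw [hup, ← hsk]
    exact s.2.1.monotone hlk
  · right
    refine ⟨?_, ?_⟩
    · rw [← hsk]
      exact s.2.1.monotone hlk
    · rw [← hsk]
      exact (s.2.1.monotone (Fin.le_last l)).trans (s.2.2.trans (upL_mono (s.2.1.monotone (Fin.zero_le k))))

theorem finite_orbits (hΦ : Φ.Nonempty) (q : ℕ) : ∃ S : Set (Y Φ c q), S.Finite ∧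
    ∀ s, ∃ g ∈ Ga Φ c, ∃ t ∈ S, g • t = s := by
  obtain ⟨S, hSfin, hS⟩ := finite_orbits_vertices (c := c) hΦ
  refine ⟨⋃ A ∈ S, {s : Y Φ c q | s.1 0 = A}, hSfin.biUnion fun A _ => finite_star q 0 A, fun s => ?_⟩
  obtain ⟨g, hg, B, hB, hgB⟩ := hS (s.1 0)
  refine ⟨g, hg, g⁻¹ • s, ?_, smul_inv_smul g s⟩
  rw [Set.mem_iUnion₂]
  refine ⟨B, hB, ?_⟩
  change (g⁻¹ • s).1 0 = B
  rw [smul_Y, ← hgB, inv_smul_smul]

end St16I
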