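import Pool.Agent.LibSt16.IDefs2

/-!
ST16 IS1. The stabilisers in `Γ_Φ` of the lattices are finite.

Plan. Let `sM k ≤ A ≤ sM (-k)`, `g ∈ Ga Φ c`, `g • A = A`. Then `g` maps `sM k` into `A ≤ sM (-k)`, so
`ν^(2k) g_ij ∈ OP`; the same for `g⁻¹ = gᴴ` (`g⁻¹ • A = A`): `ν^(2k) star (g_ji) ∈ OP`. With `g_ij ∈ ℤ[i][1/N]`:
`N^(2k) g_ij ∈ ℤ[i]` (`int_of_OP`: let `y = N^(a+b) x ∈ ℤ[i]`; from `ν^a x ∈ OP` and `ν^b ∈ OP`: `ν^b ∣ y` (Gauss: `y d = N^b e`
with `d` coprime to `ν`); from the conjugate condition `star ν^b ∣ y`; `ν`, `star ν` coprime: `N^b ∣ y`).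
And `norm (g_ij) ≤ 1`, because `∑_i norm (g_ij) = 1` (diagonal of `gᴴ g = 1`). There are only finitely many
`x ∈ E` with `N^(2k) x ∈ ℤ[i]` and `norm x ≤ 1`.
-/

namespace St16I

open Matrix QuadraticAlgebra

variable {Φ : Finset P1} {c : ℕ}

private theorem isCoprime_star {x y : GaussianInt} (h : IsCoprime x y) : IsCoprime (star x) (star y) := by
  obtain ⟨u, v, h⟩ := h
  refine ⟨star u, star v, ?_⟩
  have h1 := congrArg star h
  rw [star_add, star_mul, star_mul, star_one] at h1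
  rw [mul_comm (star u), mul_comm (star v)]
  exact h1

private theorem nuE_mul_star (Φ : Finset P1) : nuE Φ * star (nuE Φ) = (NN Φ : E) := by
  rw [nuE, ← gi_star, ← map_mul, nu_mul_star, gi_natCast]

private theorem NNE_ne_zero (Φ : Finset P1) : (NN Φ : E) ≠ 0 := by
  exact_mod_cast NN_ne_zero Φ

theorem int_of_OP {x : E} (h : x ∈ ZInv (NN Φ)) {a : ℕ} (h1 : nuE Φ ^ a * x ∈ OP Φ)
    (h2 : nuE Φ ^ a * star x ∈ OP Φ) : (NN Φ : E) ^ a * x ∈ gi.range := by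
  obtain ⟨k, y0, hy0⟩ := h
  obtain ⟨e1, d1, c1, q1⟩ := h1
  obtain ⟨e2, d2, c2, q2⟩ := h2
  -- `Y = N^a y0`
  have hY : gi ((NN Φ : GaussianInt) ^ a * y0) = (NN Φ : E) ^ k * ((NN Φ : E) ^ a * x) := by
    rw [map_mul, map_pow, gi_natCast, hy0]; ring
  have hN : (NN Φ : GaussianInt) = nu Φ * star (nu Φ) := (nu_mul_star Φ).symm
  have A1 : nu Φ ^ k ∣ (NN Φ : GaussianInt) ^ a * y0 := by
    refine (IsCoprime.pow_left (m := k) c1.symm).dvd_of_dvd_mul_left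
      (Dvd.intro (star (nu Φ) ^ k * (star (nu Φ) ^ a * e1)) ?_)
    apply gi_injective
    rw [map_mul gi d1, hY]
    have : (NN Φ : E) ^ k * ((NN Φ : E) ^ a * x) =
        (NN Φ : E) ^ k * (star (nuE Φ) ^ a * (nuE Φ ^ a * x)) := by
      rw [← nuE_mul_star Φ]
      ring
    rw [this]
    have h3 : gi d1 * ((NN Φ : E) ^ k * (star (nuE Φ) ^ a * (nuE Φ ^ a * x))) =
        (NN Φ : E) ^ k * star (nuE Φ) ^ a * (gi d1 * (nuE Φ ^ a * x)) := by ring
    rw [h3, q1, map_mul, map_mul, map_mul, map_pow, map_pow, map_pow, gi_star, ← nuE_mul_star Φ]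
    change nuE Φ ^ k * (star (nuE Φ) ^ k * (star (nuE Φ) ^ a * gi e1)) = _
    ring
  have A2 : star (nu Φ) ^ k ∣ (NN Φ : GaussianInt) ^ a * y0 := by
    refine (IsCoprime.pow_left (m := k) (isCoprime_star c2.symm)).dvd_of_dvd_mul_left
      (Dvd.intro (nu Φ ^ k * (nu Φ ^ a * star e2)) ?_)
    apply gi_injective
    rw [map_mul gi (star d2), hY]
    have q3 : gi (star d2) * (star (nuE Φ) ^ a * x) = gi (star e2) := by
      rw [gi_star, gi_star, ← q2, star_mul, star_mul, star_pow, star_star]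
      ring
    have : (NN Φ : E) ^ k * ((NN Φ : E) ^ a * x) =
        (NN Φ : E) ^ k * (nuE Φ ^ a * (star (nuE Φ) ^ a * x)) := by
      rw [← nuE_mul_star Φ]
      ring
    rw [this]
    have h3 : gi (star d2) * ((NN Φ : E) ^ k * (nuE Φ ^ a * (star (nuE Φ) ^ a * x))) =
        (NN Φ : E) ^ k * nuE Φ ^ a * (gi (star d2) * (star (nuE Φ) ^ a * x)) := by ring
    rw [h3, q3, map_mul, map_mul, map_mul, map_pow, map_pow, map_pow, gi_star, ← nuE_mul_star Φ]
    change star (nuE Φ) ^ k * (nuE Φ ^ k * (nuE Φ ^ a * gi (star e2))) = _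
    ring
  have A3 : (NN Φ : GaussianInt) ^ k ∣ (NN Φ : GaussianInt) ^ a * y0 := by
    have : (NN Φ : GaussianInt) ^ k = nu Φ ^ k * star (nu Φ) ^ k := by rw [hN, mul_pow]
    rw [this]
    exact (IsCoprime.pow (nu_coprime_star Φ)).mul_dvd A1 A2
  obtain ⟨Z, hZ⟩ := A3
  refine ⟨Z, ?_⟩
  have h4 : (NN Φ : E) ^ k * gi Z = (NN Φ : E) ^ k * ((NN Φ : E) ^ a * x) := by
    rw [← hY, hZ, map_mul, map_pow, gi_natCast]
  exact mul_left_cancel₀ (pow_ne_zero k (NNE_ne_zero Φ)) h4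

theorem norm_entry_le {g : GL (Fin c) E} (h : (g : Matrix (Fin c) (Fin c) E)ᴴ * g = 1) (i j : Fin c) :
    QuadraticAlgebra.norm ((g : Matrix (Fin c) (Fin c) E) i j) ≤ 1 := by
  have h1 := congrFun (congrFun h j) j
  rw [Matrix.mul_apply, Matrix.one_apply_eq] at h1
  have h2 := congrArg (QuadraticAlgebra.reₗ (-1 : ℚ) 0) h1
  rw [map_sum] at h2
  have h3 : ∀ k : Fin c, QuadraticAlgebra.reₗ (-1 : ℚ) 0
      ((g : Matrix (Fin c) (Fin c) E)ᴴ j k * (g : Matrix (Fin c) (Fin c) E) k j) =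
      QuadraticAlgebra.norm ((g : Matrix (Fin c) (Fin c) E) k j) := by
    intro k
    rw [conjTranspose_apply]
    change (star ((g : Matrix (Fin c) (Fin c) E) k j) * (g : Matrix (Fin c) (Fin c) E) k j).re = _
    rw [QuadraticAlgebra.norm_def, re_mul, re_star, im_star]
    ring
  rw [Finset.sum_congr rfl fun k _ => h3 k] at h2
  have h4 : QuadraticAlgebra.reₗ (-1 : ℚ) 0 (1 : E) = 1 := rfl
  rw [h4] at h2
  refine le_trans ?_ h2.le
  refine Finset.single_le_sum (f := fun k => QuadraticAlgebra.norm ((g : Matrix (Fin c) (Fin c) E) k j))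
    (fun k _ => ?_) (Finset.mem_univ i)
  change 0 ≤ QuadraticAlgebra.norm ((g : Matrix (Fin c) (Fin c) E) k j)
  rw [QuadraticAlgebra.norm_def]
  nlinarith [sq_nonneg ((g : Matrix (Fin c) (Fin c) E) k j).re, sq_nonneg ((g : Matrix (Fin c) (Fin c) E) k j).im]

/-- Finitely many elements of `E` with bounded denominator and norm at most one. -/
private theorem finite_bdd {M : ℕ} (hM : M ≠ 0) :
    {x : E | (M : E) * x ∈ gi.range ∧ QuadraticAlgebra.norm x ≤ 1}.Finite := by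
  have hM' : (M : E) ≠ 0 := by exact_mod_cast hM
  have hfin : (Set.Icc (-(M : ℤ)) M ×ˢ Set.Icc (-(M : ℤ)) M).Finite :=
    (Set.finite_Icc _ _).prod (Set.finite_Icc _ _)
  refine (hfin.image (fun q : ℤ × ℤ => (M : E)⁻¹ * gi ⟨q.1, q.2⟩)).subset ?_
  rintro x ⟨⟨y, hy⟩, hx⟩
  refine ⟨(y.re, y.im), ?_, ?_⟩
  · have hn : QuadraticAlgebra.norm (gi y) ≤ (M : ℚ) ^ 2 := by
      rw [hy, map_mul, QuadraticAlgebra.norm_natCast]
      nlinarith [sq_nonneg (M : ℚ)]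
    rw [QuadraticAlgebra.norm_def, gi_re, gi_im] at hn
    have hn' : y.re * y.re + y.im * y.im ≤ (M : ℤ) ^ 2 := by
      have : ((y.re * y.re + y.im * y.im : ℤ) : ℚ) ≤ (((M : ℤ) ^ 2 : ℤ) : ℚ) := by
        push_cast
        linarith
      exact_mod_cast this
    have hM0 : (0 : ℤ) ≤ M := Int.natCast_nonneg M
    refine ⟨⟨?_, ?_⟩, ⟨?_, ?_⟩⟩
    · exact (abs_le.1 (abs_le_of_sq_le_sq (by nlinarith [sq_nonneg y.im]) hM0)).1
    · exact (abs_le.1 (abs_le_of_sq_le_sq (by nlinarith [sq_nonneg y.im]) hM0)).2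
    · exact (abs_le.1 (abs_le_of_sq_le_sq (by nlinarith [sq_nonneg y.re]) hM0)).1
    · exact (abs_le.1 (abs_le_of_sq_le_sq (by nlinarith [sq_nonneg y.re]) hM0)).2
  · change (M : E)⁻¹ * gi y = x
    rw [hy, ← mul_assoc, inv_mul_cancel₀ hM', one_mul]

private theorem entry_mem {A : Lat Φ c} {k : ℕ} (h1 : sM Φ c k ≤ A.1) (h2 : A.1 ≤ sM Φ c (-k))
    {g : GL (Fin c) E} (hg : g • A = A) (i j : Fin c) :
    nuE Φ ^ (2 * k) * (g : Matrix (Fin c) (Fin c) E) i j ∈ OP Φ := by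
  have hv : (Pi.single j (nuE Φ ^ k) : Fin c → E) ∈ sM Φ c k := by
    intro l
    by_cases hl : l = j
    · subst hl
      rw [Pi.single_eq_same, _root_.zpow_neg, _root_.zpow_natCast, inv_mul_cancel₀ (pow_ne_zero k (nuE_ne_zero Φ))]
      exact Subring.one_mem _
    · rw [Pi.single_eq_of_ne hl, mul_zero]
      exact Subring.zero_mem _
  have h3 : (g : Matrix (Fin c) (Fin c) E) *ᵥ (Pi.single j (nuE Φ ^ k)) ∈ act g A.1 :=
    ⟨_, h1 hv, rfl⟩
  have h4 : act g A.1 = A.1 := by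
    rw [← smul_val, hg]
  rw [h4] at h3
  have h5 := h2 h3 i
  rw [Matrix.mulVec_single] at h5
  have e : nuE Φ ^ (-(-(k : ℤ))) * (MulOpposite.op (nuE Φ ^ k) • (g : Matrix (Fin c) (Fin c) E).col j) i =
      nuE Φ ^ (2 * k) * (g : Matrix (Fin c) (Fin c) E) i j := by
    rw [neg_neg, _root_.zpow_natCast, Pi.smul_apply, op_smul_eq_mul, Matrix.col_apply, two_mul, pow_add]
    ring
  rw [e] at h5
  exact h5

theorem stab_finite (A : Lat Φ c) : {g : GL (Fin c) E | g ∈ Ga Φ c ∧ g • A = A}.Finite := by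
  obtain ⟨k, h1, h2⟩ := A.2
  have hF := finite_bdd (pow_ne_zero (2 * k) (NN_ne_zero Φ))
  have hpi : {f : Fin c → Fin c → E | ∀ i j, f i j ∈
      {x : E | ((NN Φ ^ (2 * k) : ℕ) : E) * x ∈ gi.range ∧ QuadraticAlgebra.norm x ≤ 1}}.Finite := by
    have := Set.Finite.pi' (ι := Fin c) fun _ : Fin c => Set.Finite.pi' (ι := Fin c) fun _ : Fin c => hF
    exact this
  refine Set.Finite.of_finite_image (f := fun g : GL (Fin c) E => fun i j => (g : Matrix (Fin c) (Fin c) E) i j)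
    (hpi.subset ?_) ?_
  · rintro _ ⟨g, ⟨hg, hgA⟩, rfl⟩ i j
    refine ⟨?_, norm_entry_le hg.1 i j⟩
    have hgA' : g⁻¹ • A = A := by
      rw [inv_smul_eq_iff, hgA]
    have e : (↑g⁻¹ : Matrix (Fin c) (Fin c) E) = (g : Matrix (Fin c) (Fin c) E)ᴴ := by
      have h1 : (g : Matrix (Fin c) (Fin c) E) * (↑g⁻¹ : Matrix (Fin c) (Fin c) E) = 1 := by
        rw [← Units.val_mul, mul_inv_cancel, Units.val_one]
      calc (↑g⁻¹ : Matrix (Fin c) (Fin c) E)
          = ((g : Matrix (Fin c) (Fin c) E)ᴴ * g) * (↑g⁻¹ : Matrix (Fin c) (Fin c) E) := by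
            rw [hg.1, Matrix.one_mul]
        _ = (g : Matrix (Fin c) (Fin c) E)ᴴ := by rw [Matrix.mul_assoc, h1, Matrix.mul_one]
    have hs := entry_mem h1 h2 hgA' j i
    rw [e, conjTranspose_apply] at hs
    have := int_of_OP (hg.2 i j) (entry_mem h1 h2 hgA i j) hs
    push_cast
    exact this
  · intro g _ h _ hgh
    apply Units.ext
    refine Matrix.ext fun i j => ?_
    exact congrFun (congrFun hgh i) j

end St16I
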