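import Pool.Agent.LibSt16.IT1
import Pool.Agent.LibSt16.IT2

/-!
ST16 IT4. Which types occur, first half.

Plan. `prod_ty` (IT1): the product is the index of `A_0` in `A_q`, and `[A_q : A_0] [ν⁻¹ A_0 : A_q] = [ν⁻¹ A_0 : A_0] = N^c`
(`AddSubgroup.relIndex_mul_relIndex`, `relIndex_up`, IT2). So each entry is nonzero, and it is not 1 because `A_k < A_(k+1)`
(`AddSubgroup.relIndex_eq_one`).
-/

namespace St16I

open Matrix QuadraticAlgebra

variable {Φ : Finset P1} {c : ℕ}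

theorem prod_ty_dvd {q : ℕ} (s : Y Φ c q) : ∏ k, ty s k ∣ NN Φ ^ c := by
  rw [prod_ty, ← relIndex_up (s.1 0)]
  have h1 : (s.1 0).1.toAddSubgroup ≤ (s.1 (Fin.last q)).1.toAddSubgroup := fun x hx =>
    (s.2.1.monotone (Fin.zero_le _) : s.1 0 ≤ s.1 (Fin.last q)) hx
  have h2 : (s.1 (Fin.last q)).1.toAddSubgroup ≤ (upL (s.1 0)).1.toAddSubgroup := fun x hx =>
    s.2.2 hx
  exact Dvd.intro _ (AddSubgroup.relIndex_mul_relIndex _ _ _ h1 h2)

theorem one_lt_ty {q : ℕ} (s : Y Φ c q) (k : Fin q) : 1 < ty s k := by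
  have h0 : ty s k ≠ 0 := by
    intro h
    have h1 : ty s k ∣ NN Φ ^ c := (Finset.dvd_prod_of_mem (ty s) (Finset.mem_univ k)).trans (prod_ty_dvd s)
    rw [h] at h1
    exact pow_ne_zero c (NN_ne_zero Φ) (Nat.eq_zero_of_zero_dvd h1)
  have h1 : ty s k ≠ 1 := by
    intro h
    have h2 := AddSubgroup.relIndex_eq_one.1 h
    have h3 : s.1 k.succ ≤ s.1 k.castSucc := fun x hx => h2 hx
    exact absurd (s.2.1 (Fin.castSucc_lt_succ)) (not_lt_of_ge h3)
  omega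

end St16I
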