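import Pool.Agent.LibSt16.IT1
import Pool.Agent.LibSt16.IT2

/-!
ST16 IT5 (helper96). All types occur.
-/

namespace St16I

open Matrix QuadraticAlgebra

variable {Φ : Finset P1} {c : ℕ}

theorem ty_surj {q : ℕ} (n : Fin q → ℕ) (h1 : ∀ k, 1 < n k) (h2 : ∏ k, n k ∣ NN Φ ^ c) :
    ∃ s : Y Φ c q, ty s = n := by
  obtain ⟨ρ⟩ := exists_rd Φ
  have : NeZero (NN Φ) := ⟨NN_ne_zero Φ⟩
  have hcard : Nat.card (Fin c → ZMod (NN Φ)) = NN Φ ^ c := by
    rw [Nat.card_pi]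
    simp
  obtain ⟨B, hB0, hBm, hBc⟩ := Pool.Agent.LibSt16.exists_chain (NN Φ) (Fin c → ZMod (NN Φ)) q n (by rw [hcard]; exact h2)
  have hlt : ∀ k : Fin q, B k.castSucc < B k.succ := by
    intro k
    refine lt_of_le_of_ne (hBm (Fin.castSucc_lt_succ).le) ?_
    intro h
    have h3 := hBc k
    rw [← h] at h3
    have h4 : 0 < Nat.card (B k.castSucc) := Nat.card_pos
    have h5 := h1 k
    nlinarith
  have hstrict : StrictMono B := Fin.strictMono_iff_lt_succ.mpr hlt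
  refine ⟨⟨fun k => ⟨LL ρ (B k), isLat_LL ρ (B k)⟩, ?_, ?_⟩, ?_⟩
  · intro i j hij
    change LL ρ (B i) < LL ρ (B j)
    rw [lt_iff_le_not_ge, LL_le, LL_le, ← lt_iff_le_not_ge]
    exact hstrict hij
  · change LL ρ (B (Fin.last q)) ≤ up (LL ρ (B 0))
    rw [hB0, LL_bot, ← LL_top ρ, LL_le]
    exact le_top
  · funext k
    change (LL ρ (B k.castSucc)).toAddSubgroup.relIndex (LL ρ (B k.succ)).toAddSubgroup = n k
    have h3 := relIndex_LL ρ (hBm (Fin.castSucc_lt_succ (i := k)).le)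
    rw [hBc k] at h3
    exact Nat.eq_of_mul_eq_mul_left Nat.card_pos h3

end St16I
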