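import Pool.Agent.LibSt16.IT3
import Pool.Agent.LibSt16.IT4
import Pool.Agent.LibSt16.IT5
import Pool.Agent.LibSt16.ID2

/-! ST16 IT6 (no row). `G_c` is transitive on the simplices of a given type. -/

namespace St16I

open Matrix QuadraticAlgebra

variable {Φ : Finset P1} {c : ℕ}

theorem Y_trans (hΦ : Φ.Nonempty) {q : ℕ} (s t : Y Φ c q) (h : ty s = ty t) : ∃ u ∈ Gc c, u • s = t := by
  obtain ⟨g, hg⟩ := GL_trans s t h
  obtain ⟨u, hu, hs⟩ := exists_unitary_smul hΦ g s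
  exact ⟨u, hu, hs.trans hg⟩

end St16I
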