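import Pool.Agent.LibSt16.IC2
import Pool.Agent.LibSt16.IS1
import Pool.Agent.LibSt16.IT6
import Pool.Agent.LibSt16.IR2
import Pool.Agent.LibSt16.IG1
import Pool.Agent.LibSt16.IG2
import Pool.Agent.LibSt16.IO4
import Pool.Agent.LibSt16.IBr3

/-! ST16 IAll: everything of block I, first half, and the bridge. -/
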