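import Mathlib

/-! Chains of submodules of finite `ZMod N`-modules, `N` squarefree. -/

set_option autoImplicit false

namespace Pool.Agent.LibSt16

/-- An additive equivalence of `ZMod N`-modules is linear. -/
noncomputable def zlin (N : ℕ) {V W : Type*} [AddCommGroup V] [AddCommGroup W] [Module (ZMod N) V] [Module (ZMod N) W]
    (e : V ≃+ W) : V ≃ₗ[ZMod N] W :=
  LinearEquiv.ofBijective (e.toAddMonoidHom.toZModLinearMap N) e.bijective

lemma card_span_prime (N p : ℕ) (hp : p.Prime) {V : Type*} [AddCommGroup V] [Module (ZMod N) V]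
    (x : V) (hx : addOrderOf x = p) : Nat.card (Submodule.span (ZMod N) {x}) = p := by
  have h1 : Submodule.span (ZMod N) {x} = AddSubgroup.toZModSubmodule N (AddSubgroup.zmultiples x) := by
    apply le_antisymm
    · rw [Submodule.span_le, Set.singleton_subset_iff]
      exact AddSubgroup.mem_zmultiples x
    · intro y hy
      rw [AddSubgroup.mem_toZModSubmodule, AddSubgroup.mem_zmultiples_iff] at hy
      obtain ⟨k, rfl⟩ := hy
      exact Submodule.smul_of_tower_mem _ k (Submodule.mem_span_singleton_self x)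
  have h2 : Nat.card (Submodule.span (ZMod N) {x}) = Nat.card (AddSubgroup.zmultiples x) := by
    rw [h1]
    rfl
  rw [h2, Nat.card_zmultiples, hx]

theorem iso_of_card (N : ℕ) (hN : Squarefree N) : ∀ (n : ℕ) (V V' : Type) [AddCommGroup V] [AddCommGroup V']
    [Module (ZMod N) V] [Module (ZMod N) V'] [Finite V] [Finite V'], Nat.card V = n → Nat.card V' = n →
    Nonempty (V ≃ₗ[ZMod N] V') := by
  have : Fact (Squarefree N) := ⟨hN⟩
  have : NeZero N := ⟨hN.ne_zero⟩
  have : IsSemisimpleRing (ZMod N) := IsArtinianRing.isSemisimpleRing_of_isReduced _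
  intro n
  induction n using Nat.strong_induction_on with
  | _ n ih =>
    intro V V' _ _ _ _ _ _ hV hV'
    rcases Nat.lt_or_ge n 2 with hn | hn
    · have h1 : Subsingleton V := by
        rw [← Finite.card_le_one_iff_subsingleton]; omega
      have h2 : Subsingleton V' := by
        rw [← Finite.card_le_one_iff_subsingleton]; omega
      exact ⟨zlin N ⟨⟨fun _ => 0, fun _ => 0, fun _ => Subsingleton.elim _ _, fun _ => Subsingleton.elim _ _⟩,
        fun _ _ => Subsingleton.elim _ _⟩⟩
    · obtain ⟨p, hp, hpn⟩ := Nat.exists_prime_and_dvd (show n ≠ 1 by omega)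
      have : Fact p.Prime := ⟨hp⟩
      obtain ⟨x, hx⟩ := exists_prime_addOrderOf_dvd_card' (G := V) p (by rw [hV]; exact hpn)
      obtain ⟨x', hx'⟩ := exists_prime_addOrderOf_dvd_card' (G := V') p (by rw [hV']; exact hpn)
      obtain ⟨C, hC⟩ := exists_isCompl (Submodule.span (ZMod N) {x})
      obtain ⟨C', hC'⟩ := exists_isCompl (Submodule.span (ZMod N) {x'})
      have c1 := card_span_prime N p hp x hx
      have c2 := card_span_prime N p hp x' hx'
      have e1 := Submodule.prodEquivOfIsCompl _ _ hC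
      have e2 := Submodule.prodEquivOfIsCompl _ _ hC'
      have k1 : p * Nat.card C = n := by
        rw [← hV, ← c1, ← Nat.card_prod]
        exact Nat.card_congr e1.toEquiv
      have k2 : p * Nat.card C' = n := by
        rw [← hV', ← c2, ← Nat.card_prod]
        exact Nat.card_congr e2.toEquiv
      have k3 : Nat.card C' = Nat.card C := by
        have := k1.trans k2.symm
        exact (Nat.eq_of_mul_eq_mul_left hp.pos this).symm
      have hlt : Nat.card C < n := by
        have : 0 < Nat.card C := Nat.card_pos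
        have := hp.two_le
        nlinarith
      obtain ⟨f⟩ := ih (Nat.card C) hlt C C' rfl k3
      have g := zlin N (addEquivOfPrimeCardEq (p := p) (G := Submodule.span (ZMod N) {x})
        (G' := Submodule.span (ZMod N) {x'}) c1 c2)
      exact ⟨e1.symm.trans ((g.prodCongr f).trans e2)⟩

theorem chain_iso (N : ℕ) (hN : Squarefree N) : ∀ (q : ℕ) (V V' : Type) [AddCommGroup V] [AddCommGroup V']
    [Module (ZMod N) V] [Module (ZMod N) V'] [Finite V] [Finite V'] (B : Fin q → Submodule (ZMod N) V)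
    (B' : Fin q → Submodule (ZMod N) V'), Monotone B → Monotone B' → Nat.card V = Nat.card V' →
    (∀ i, Nat.card (B i) = Nat.card (B' i)) → ∃ e : V ≃ₗ[ZMod N] V', ∀ i, (B i).map (e : V →ₗ[ZMod N] V') = B' i := by
  have : Fact (Squarefree N) := ⟨hN⟩
  have : NeZero N := ⟨hN.ne_zero⟩
  have : IsSemisimpleRing (ZMod N) := IsArtinianRing.isSemisimpleRing_of_isReduced _
  intro q
  induction q with
  | zero =>
    intro V V' _ _ _ _ _ _ B B' _ _ hc _
    obtain ⟨e⟩ := iso_of_card N hN _ V V' rfl hc.symm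
    exact ⟨e, fun i => i.elim0⟩
  | succ q ih =>
    intro V V' _ _ _ _ _ _ B B' hB hB' hc hcard
    obtain ⟨W, hW⟩ : ∃ W, W = B (Fin.last q) := ⟨_, rfl⟩
    obtain ⟨W', hW'⟩ : ∃ W', W' = B' (Fin.last q) := ⟨_, rfl⟩
    have hBW : ∀ i, B i ≤ W := fun i => by rw [hW]; exact hB (Fin.le_last i)
    have hBW' : ∀ i, B' i ≤ W' := fun i => by rw [hW']; exact hB' (Fin.le_last i)
    have hcW : Nat.card W = Nat.card W' := by rw [hW, hW']; exact hcard _
    obtain ⟨e0, he0⟩ := ih W W' (fun i => (B i.castSucc).submoduleOf W) (fun i => (B' i.castSucc).submoduleOf W')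
      (fun i j hij x hx => hB (Fin.castSucc_le_castSucc_iff.mpr hij) hx)
      (fun i j hij x hx => hB' (Fin.castSucc_le_castSucc_iff.mpr hij) hx) hcW (by
        intro i
        have h1 : Nat.card ((B i.castSucc).submoduleOf W) = Nat.card (B i.castSucc) :=
          Nat.card_congr (Submodule.submoduleOfEquivOfLe (hBW _)).toEquiv
        have h2 : Nat.card ((B' i.castSucc).submoduleOf W') = Nat.card (B' i.castSucc) :=
          Nat.card_congr (Submodule.submoduleOfEquivOfLe (hBW' _)).toEquiv
        rw [h1, h2]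
        exact hcard _)
    obtain ⟨C, hC⟩ := exists_isCompl W
    obtain ⟨C', hC'⟩ := exists_isCompl W'
    obtain ⟨p1, hp1⟩ : ∃ p1, p1 = Submodule.prodEquivOfIsCompl _ _ hC := ⟨_, rfl⟩
    obtain ⟨p2, hp2⟩ : ∃ p2, p2 = Submodule.prodEquivOfIsCompl _ _ hC' := ⟨_, rfl⟩
    have k1 : Nat.card W * Nat.card C = Nat.card V := by
      rw [← Nat.card_prod]
      exact Nat.card_congr p1.toEquiv
    have k2 : Nat.card W' * Nat.card C' = Nat.card V' := by
      rw [← Nat.card_prod]
      exact Nat.card_congr p2.toEquiv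
    have k3 : Nat.card C' = Nat.card C := by
      have hpos : 0 < Nat.card W := Nat.card_pos
      apply Nat.eq_of_mul_eq_mul_left hpos
      rw [k1, hc, ← k2, hcW]
    obtain ⟨f⟩ := iso_of_card N hN _ C C' rfl k3
    obtain ⟨e, he⟩ : ∃ e : V ≃ₗ[ZMod N] V', e = p1.symm.trans ((e0.prodCongr f).trans p2) := ⟨_, rfl⟩
    have hew : ∀ (x : V) (hx : x ∈ W), e x = (e0 ⟨x, hx⟩ : V') := by
      intro x hx
      have h1 : p1.symm x = ((⟨x, hx⟩ : W), (0 : C)) := by
        rw [LinearEquiv.symm_apply_eq, hp1]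
        simp [Submodule.coe_prodEquivOfIsCompl]
      rw [he, LinearEquiv.trans_apply, h1, LinearEquiv.trans_apply, hp2]
      simp [Submodule.coe_prodEquivOfIsCompl]
    refine ⟨e, fun i => ?_⟩
    refine Fin.lastCases ?_ (fun i => ?_) i
    · rw [← hW, ← hW']
      apply le_antisymm
      · rintro y ⟨x, hx, rfl⟩
        show e x ∈ W'
        rw [hew x hx]
        exact (e0 ⟨x, hx⟩).2
      · intro y hy
        refine ⟨(e0.symm ⟨y, hy⟩ : V), (e0.symm ⟨y, hy⟩).2, ?_⟩
        show e _ = y
        rw [hew _ (e0.symm ⟨y, hy⟩).2]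
        simp
    · have hi := he0 i
      apply le_antisymm
      · rintro y ⟨x, hx, rfl⟩
        show e x ∈ B' i.castSucc
        rw [hew x (hBW _ hx)]
        have h1 : e0 ⟨x, hBW _ hx⟩ ∈ ((B i.castSucc).submoduleOf W).map (e0 : W →ₗ[ZMod N] W') :=
          ⟨⟨x, hBW _ hx⟩, hx, rfl⟩
        rw [hi] at h1
        exact h1
      · intro y hy
        have h1 : (⟨y, hBW' _ hy⟩ : W') ∈ (B' i.castSucc).submoduleOf W' := hy
        rw [← hi] at h1
        obtain ⟨x, hx, hxy⟩ := h1
        refine ⟨(x : V), hx, ?_⟩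
        show e x = y
        rw [hew _ x.2]
        have h2 : e0 x = ⟨y, hBW' _ hy⟩ := hxy
        have h3 : (⟨(x:V), x.2⟩ : W) = x := rfl
        rw [h3, h2]

theorem exists_sub_card : ∀ (t : ℕ) (V : Type) [AddCommGroup V] [Finite V], t ∣ Nat.card V →
    ∃ B : AddSubgroup V, Nat.card B = t := by
  intro t
  induction t using Nat.strong_induction_on with
  | _ t ih =>
    intro V _ _ ht
    have ht0 : 0 < t := Nat.pos_of_dvd_of_pos ht Nat.card_pos
    rcases Nat.lt_or_ge t 2 with h2 | h2
    · refine ⟨⊥, ?_⟩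
      have : t = 1 := by omega
      rw [this]
      exact AddSubgroup.card_bot
    · obtain ⟨p, hp, hpt⟩ := Nat.exists_prime_and_dvd (show t ≠ 1 by omega)
      have : Fact p.Prime := ⟨hp⟩
      obtain ⟨x, hx⟩ := exists_prime_addOrderOf_dvd_card' (G := V) p (hpt.trans ht)
      obtain ⟨Z, hZ⟩ : ∃ Z, Z = AddSubgroup.zmultiples x := ⟨_, rfl⟩
      have hZc : Nat.card Z = p := by rw [hZ, Nat.card_zmultiples, hx]
      obtain ⟨s, rfl⟩ := hpt
      have hs0 : 0 < s := Nat.pos_of_mul_pos_left ht0
      have hcq : Nat.card V = Nat.card (V ⧸ Z) * p := by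
        rw [← hZc]; exact AddSubgroup.card_eq_card_quotient_mul_card_addSubgroup Z
      have hs : s ∣ Nat.card (V ⧸ Z) := by
        rw [hcq, mul_comm p s] at ht
        exact Nat.dvd_of_mul_dvd_mul_right hp.pos ht
      obtain ⟨B, hB⟩ := ih s (by nlinarith [hp.two_le]) (V ⧸ Z) hs
      refine ⟨B.comap (QuotientAddGroup.mk' Z), ?_⟩
      have h3 : Nat.card (B.comap (QuotientAddGroup.mk' Z)) = p * Nat.card B := by
        have h4 : (B.comap (QuotientAddGroup.mk' Z)).index = B.index :=
          AddSubgroup.index_comap_of_surjective B (QuotientAddGroup.mk'_surjective Z)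
        have h5 := (B.comap (QuotientAddGroup.mk' Z)).card_mul_index
        have h6 := B.card_mul_index
        have h7 : 0 < B.index := Nat.pos_of_ne_zero B.index_ne_zero_of_finite
        rw [h4, hcq, ← h6] at h5
        apply Nat.eq_of_mul_eq_mul_right h7
        rw [h5]
        ring
      rw [h3, hB]

/-- The next term of a chain. -/
theorem exists_next (N : ℕ) (V : Type) [AddCommGroup V] [Module (ZMod N) V] [Finite V] (B : Submodule (ZMod N) V)
    (t : ℕ) (ht : Nat.card B * t ∣ Nat.card V) : ∃ B' : Submodule (ZMod N) V, B ≤ B' ∧ Nat.card B' = Nat.card B * t := by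
  obtain ⟨Z, hZ⟩ : ∃ Z, Z = B.toAddSubgroup := ⟨_, rfl⟩
  have hZB : Nat.card Z = Nat.card B := by rw [hZ]; rfl
  have hcq : Nat.card V = Nat.card (V ⧸ Z) * Nat.card Z := AddSubgroup.card_eq_card_quotient_mul_card_addSubgroup Z
  have hpos : 0 < Nat.card Z := Nat.card_pos
  have hs : t ∣ Nat.card (V ⧸ Z) := by
    rw [hcq, ← hZB, mul_comm (Nat.card Z)] at ht
    exact Nat.dvd_of_mul_dvd_mul_right hpos ht
  obtain ⟨D, hD⟩ := exists_sub_card t (V ⧸ Z) hs
  refine ⟨AddSubgroup.toZModSubmodule N (D.comap (QuotientAddGroup.mk' Z)), ?_, ?_⟩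
  · intro x hx
    rw [AddSubgroup.mem_toZModSubmodule, AddSubgroup.mem_comap]
    have h0 : QuotientAddGroup.mk' Z x = 0 := by
      rw [← AddMonoidHom.mem_ker, QuotientAddGroup.ker_mk', hZ]
      exact hx
    rw [h0]
    exact D.zero_mem
  · have h3 : Nat.card (D.comap (QuotientAddGroup.mk' Z)) = Nat.card Z * Nat.card D := by
      have h4 : (D.comap (QuotientAddGroup.mk' Z)).index = D.index :=
        AddSubgroup.index_comap_of_surjective D (QuotientAddGroup.mk'_surjective Z)
      have h5 := (D.comap (QuotientAddGroup.mk' Z)).card_mul_index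
      have h6 := D.card_mul_index
      have h7 : 0 < D.index := Nat.pos_of_ne_zero D.index_ne_zero_of_finite
      rw [h4, hcq, ← h6] at h5
      apply Nat.eq_of_mul_eq_mul_right h7
      rw [h5]
      ring
    rw [← hZB, ← hD]
    exact h3

/-- Chains with prescribed steps exist. -/
theorem exists_chain (N : ℕ) (V : Type) [AddCommGroup V] [Module (ZMod N) V] [Finite V] : ∀ (q : ℕ) (t : Fin q → ℕ),
    (∏ i, t i) ∣ Nat.card V → ∃ B : Fin (q + 1) → Submodule (ZMod N) V, B 0 = ⊥ ∧ Monotone B ∧
      ∀ i : Fin q, Nat.card (B i.succ) = Nat.card (B i.castSucc) * t i := by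
  have key : ∀ (q : ℕ) (t : Fin q → ℕ), (∏ i, t i) ∣ Nat.card V → ∃ B : Fin (q + 1) → Submodule (ZMod N) V,
      B 0 = ⊥ ∧ Monotone B ∧ (∀ i : Fin q, Nat.card (B i.succ) = Nat.card (B i.castSucc) * t i) ∧
      Nat.card (B (Fin.last q)) = ∏ i, t i := by
    intro q
    induction q with
    | zero =>
      intro t _
      refine ⟨fun _ => ⊥, rfl, fun _ _ _ => le_rfl, fun i => i.elim0, ?_⟩
      simp
    | succ q ih =>
      intro t ht
      rw [Fin.prod_univ_castSucc] at ht
      obtain ⟨B, hB0, hBm, hBs, hBl⟩ := ih (fun i => t i.castSucc) (Dvd.dvd.trans (Dvd.intro _ rfl) ht)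
      obtain ⟨B', hle, hcard⟩ := exists_next N V (B (Fin.last q)) (t (Fin.last q)) (by rw [hBl]; exact ht)
      refine ⟨Fin.snoc B B', ?_, ?_, ?_, ?_⟩
      · have : (0 : Fin (q + 2)) = Fin.castSucc 0 := rfl
        rw [this, Fin.snoc_castSucc]
        exact hB0
      · apply Fin.monotone_iff_le_succ.mpr
        intro i
        refine Fin.lastCases ?_ (fun i => ?_) i
        · rw [Fin.snoc_castSucc, Fin.succ_last, Fin.snoc_last]
          exact hle
        · rw [Fin.snoc_castSucc, Fin.succ_castSucc, Fin.snoc_castSucc]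
          exact hBm (Fin.castSucc_lt_succ).le
      · intro i
        refine Fin.lastCases ?_ (fun i => ?_) i
        · rw [Fin.snoc_castSucc, Fin.succ_last, Fin.snoc_last]
          exact hcard
        · rw [Fin.snoc_castSucc, Fin.succ_castSucc, Fin.snoc_castSucc]
          exact hBs i
      · rw [Fin.snoc_last, hcard, hBl, Fin.prod_univ_castSucc]
  intro q t ht
  obtain ⟨B, h1, h2, h3, _⟩ := key q t ht
  exact ⟨B, h1, h2, h3⟩

end Pool.Agent.LibSt16
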