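import Mathlib

/-! Lifting automorphisms of `(ZMod N)^c` to invertible matrices over a semilocal ring. -/

set_option autoImplicit false

namespace Pool.Agent.LibSt16

open Matrix

theorem lift_gl {R : Type*} [CommRing R] (N : ℕ) (π : R →+* ZMod N) (hπ : Function.Surjective π)
    (hu : ∀ x, N ≠ 1 → IsUnit (π x) → IsUnit x) (c : ℕ) (e : (Fin c → ZMod N) ≃ₗ[ZMod N] (Fin c → ZMod N)) :
    ∃ h : GL (Fin c) R, ∀ x : Fin c → R, (fun i => π ((h.1 *ᵥ x) i)) = e (fun i => π (x i)) := by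
  classical
  by_cases hN : N = 1
  · subst hN
    exact ⟨1, fun x => Subsingleton.elim _ _⟩
  choose s hs using hπ
  obtain ⟨A, hA⟩ : ∃ A : Matrix (Fin c) (Fin c) (ZMod N), A = LinearMap.toMatrix' (e : (Fin c → ZMod N) →ₗ[ZMod N] _) :=
    ⟨_, rfl⟩
  have hAu : IsUnit A := by
    have h1 : A * LinearMap.toMatrix' (e.symm : (Fin c → ZMod N) →ₗ[ZMod N] _) = 1 := by
      rw [hA, ← LinearMap.toMatrix'_comp]
      simp
    exact IsUnit.of_mul_eq_one _ h1
  obtain ⟨B, hB⟩ : ∃ B : Matrix (Fin c) (Fin c) R, B = A.map s := ⟨_, rfl⟩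
  have hBA : π.mapMatrix B = A := by
    rw [hB]
    ext i j
    simp [hs]
  have hdet : IsUnit B.det := by
    apply hu _ hN
    rw [RingHom.map_det, hBA]
    exact (Matrix.isUnit_iff_isUnit_det A).mp hAu
  have hBu : IsUnit B := (Matrix.isUnit_iff_isUnit_det B).mpr hdet
  refine ⟨hBu.unit, fun x => ?_⟩
  have h1 : e (fun i => π (x i)) = A *ᵥ (fun i => π (x i)) := by
    rw [hA, LinearMap.toMatrix'_mulVec]
    rfl
  rw [h1, ← hBA]
  funext i
  show π ((B *ᵥ x) i) = _
  simp only [Matrix.mulVec, dotProduct, map_sum, map_mul, RingHom.mapMatrix_apply, Matrix.map_apply]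

end Pool.Agent.LibSt16
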