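import Pool.Agent.LibSt16.IA1
import Pool.Agent.LibSt16.TrA96
import Pool.Agent.LibSt16.TrB96

/-! The reduction map `OP Φ → ZMod N`. -/

set_option autoImplicit false

namespace St16I

open Matrix QuadraticAlgebra

theorem NN_squarefree (Φ : Finset P1) : Squarefree (NN Φ) := by
  unfold NN
  refine Finset.squarefree_prod_of_pairwise_isCoprime (fun p _ q _ hpq => ?_) (fun p _ => p.2.1.prime.squarefree)
  have h : p.1 ≠ q.1 := fun h => hpq (Subtype.ext h)
  exact Nat.coprime_iff_isRelPrime.mp ((Nat.coprime_primes p.2.1 q.2.1).mpr h)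

theorem star_natCast_gi (n : ℕ) : star (n : GaussianInt) = (n : GaussianInt) := star_natCast n

/-- An integer divisible by `ν` is divisible by `N`. -/
theorem NN_dvd_of_nu_dvd (Φ : Finset P1) (m : ℤ) (h : nu Φ ∣ (m : GaussianInt)) : (NN Φ : ℤ) ∣ m := by
  have h2 : star (nu Φ) ∣ (m : GaussianInt) := by
    obtain ⟨y, hy⟩ := h
    refine ⟨star y, ?_⟩
    have h3 := congrArg star hy
    rw [star_intCast, star_mul', ] at h3
    exact h3
  have h4 : nu Φ * star (nu Φ) ∣ (m : GaussianInt) := (nu_coprime_star Φ).mul_dvd h h2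
  rw [nu_mul_star] at h4
  have h5 : (((NN Φ : ℕ) : ℤ) : GaussianInt) ∣ (m : GaussianInt) := by
    rw [Int.cast_natCast]; exact h4
  exact (Zsqrtd.intCast_dvd_intCast _ _).mp h5

/-- An integer congruent to `i` modulo `ν`. -/
theorem exists_int_i (Φ : Finset P1) : ∃ k : ℤ, nu Φ ∣ (k : GaussianInt) - ⟨0, 1⟩ := by
  obtain ⟨a, b, hab⟩ := nu_coprime_star Φ
  obtain ⟨I, hI⟩ : ∃ I : GaussianInt, I = ⟨0, 1⟩ := ⟨_, rfl⟩
  obtain ⟨y, hy⟩ : ∃ y : GaussianInt, y = b * star (nu Φ) * I := ⟨_, rfl⟩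
  have h1 : y + star y = ((2 * y.re : ℤ) : GaussianInt) := by
    ext
    · simp; ring
    · simp
  refine ⟨2 * y.re, ?_⟩
  rw [← h1, ← hI]
  refine ⟨-a * I + star b * star I, ?_⟩
  rw [hy, star_mul', star_mul', star_star]
  have h2 : b * star (nu Φ) = 1 - a * nu Φ := by rw [← hab]; ring
  rw [h2]
  ring

/-- The reduction on the Gaussian integers. -/
theorem exists_phi (Φ : Finset P1) : ∃ φ : GaussianInt →+* ZMod (NN Φ), ∀ x, φ x = 0 ↔ nu Φ ∣ x := by
  obtain ⟨k, hk⟩ := exists_int_i Φ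
  obtain ⟨I, hI⟩ : ∃ I : GaussianInt, I = ⟨0, 1⟩ := ⟨_, rfl⟩
  have hII : I * I = -1 := by rw [hI]; ext <;> simp
  rw [← hI] at hk
  have hkk : (NN Φ : ℤ) ∣ k * k + 1 := by
    apply NN_dvd_of_nu_dvd
    obtain ⟨y, hy⟩ := hk
    refine ⟨y * (k + I), ?_⟩
    push_cast
    have : (k : GaussianInt) * k + 1 = (k - I) * (k + I) := by
      have : (k - I) * ((k : GaussianInt) + I) = k * k - I * I := by ring
      rw [this, hII]; ring
    rw [this, hy]; ring
  have hr : ((k : ℤ) : ZMod (NN Φ)) * ((k : ℤ) : ZMod (NN Φ)) = ((-1 : ℤ) : ZMod (NN Φ)) := by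
    rw [← Int.cast_mul, ← sub_eq_zero, ← Int.cast_sub, ZMod.intCast_zmod_eq_zero_iff_dvd]
    have : k * k - -1 = k * k + 1 := by ring
    rw [this]; exact hkk
  refine ⟨Zsqrtd.lift ⟨((k : ℤ) : ZMod (NN Φ)), hr⟩, fun x => ?_⟩
  have e1 : (Zsqrtd.lift ⟨((k : ℤ) : ZMod (NN Φ)), hr⟩ : GaussianInt →+* ZMod (NN Φ)) x = ((x.re + x.im * k : ℤ) : ZMod (NN Φ)) := by
    rw [Zsqrtd.lift_apply_apply]
    push_cast
    rfl
  have e2 : x = x.re + x.im * I := by
    rw [hI]; ext <;> simp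
  rw [e1, ZMod.intCast_zmod_eq_zero_iff_dvd]
  have e3 : ((x.re + x.im * k : ℤ) : GaussianInt) - x = x.im * (k - I) := by
    have e4 : ((x.re + x.im * k : ℤ) : GaussianInt) - x =
        ((x.re + x.im * k : ℤ) : GaussianInt) - (x.re + x.im * I) := by rw [← e2]
    rw [e4]
    push_cast
    ring
  constructor
  · intro h
    have h1 : nu Φ ∣ ((x.re + x.im * k : ℤ) : GaussianInt) := by
      have h2 : ((NN Φ : ℕ) : GaussianInt) ∣ ((x.re + x.im * k : ℤ) : GaussianInt) := by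
        have := (Zsqrtd.intCast_dvd_intCast (d := -1) _ _).mpr h
        rwa [Int.cast_natCast] at this
      rw [← nu_mul_star] at h2
      exact (dvd_mul_right _ _).trans h2
    have h3 := dvd_sub h1 (e3 ▸ (hk.mul_left (x.im : GaussianInt)))
    simpa using h3
  · intro h
    apply NN_dvd_of_nu_dvd
    have h3 := dvd_add h (e3 ▸ (hk.mul_left (x.im : GaussianInt)))
    simpa using h3

/-- The reduction on `OP`. -/
theorem exists_pi (Φ : Finset P1) : ∃ π : OP Φ →+* ZMod (NN Φ), Function.Surjective π ∧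
    (∀ x : OP Φ, π x = 0 ↔ ∃ y : OP Φ, (x : E) = nuE Φ * y) ∧ (∀ x, x ≠ 0 → IsUnit (π x) → IsUnit x) := by
  obtain ⟨φ, hφ⟩ := exists_phi Φ
  have hunit : ∀ b : GaussianInt, IsCoprime b (nu Φ) → IsUnit (φ b) := by
    rintro b ⟨u, v, huv⟩
    have h1 := congrArg φ huv
    rw [map_add, map_mul, map_mul, (hφ (nu Φ)).mpr dvd_rfl, mul_zero, add_zero, map_one] at h1
    exact IsUnit.of_mul_eq_one_right _ h1
  have hcop : ∀ b : GaussianInt, IsUnit (φ b) → IsCoprime b (nu Φ) := by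
    intro b hb
    obtain ⟨c, hc⟩ := hb.exists_left_inv
    obtain ⟨n, hn⟩ := ZMod.intCast_surjective c
    have h1 : φ ((n : GaussianInt) * b - 1) = 0 := by
      rw [map_sub, map_mul, map_intCast, hn, hc, map_one, sub_self]
    obtain ⟨y, hy⟩ := (hφ _).mp h1
    refine ⟨n, -y, ?_⟩
    have : (n : GaussianInt) * b + -y * nu Φ = ((n : GaussianInt) * b - 1) - nu Φ * y + 1 := by ring
    rw [this, hy, sub_self, zero_add]
  -- choice of fractions
  choose na nb hcopb heq using fun x : OP Φ => x.2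
  have key : ∀ (x : OP Φ) (a b : GaussianInt), gi b * (x : E) = gi a → φ b * (φ (na x) * (hunit _ (hcopb x)).unit⁻¹.1) = φ a := by
    intro x a b h
    have h1 : na x * b = a * nb x := by
      apply gi_injective
      rw [map_mul, map_mul, ← heq x, ← h]
      ring
    have h2 : φ (na x) * φ b = φ a * φ (nb x) := by rw [← map_mul, h1, map_mul]
    have h3 : φ (nb x) * ((hunit _ (hcopb x)).unit⁻¹ : (ZMod (NN Φ))ˣ).1 = 1 := (hunit _ (hcopb x)).mul_val_inv
    calc φ b * (φ (na x) * ((hunit _ (hcopb x)).unit⁻¹ : (ZMod (NN Φ))ˣ).1)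
        = (φ (na x) * φ b) * ((hunit _ (hcopb x)).unit⁻¹ : (ZMod (NN Φ))ˣ).1 := by ring
      _ = φ a * (φ (nb x) * ((hunit _ (hcopb x)).unit⁻¹ : (ZMod (NN Φ))ˣ).1) := by rw [h2]; ring
      _ = φ a := by rw [h3, mul_one]
  obtain ⟨f, hf⟩ : ∃ f : OP Φ → ZMod (NN Φ), ∀ x, f x = φ (na x) * ((hunit _ (hcopb x)).unit⁻¹ : (ZMod (NN Φ))ˣ).1 :=
    ⟨_, fun x => rfl⟩
  have key' : ∀ (x : OP Φ) (a b : GaussianInt), gi b * (x : E) = gi a → φ b * f x = φ a := by
    intro x a b h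
    rw [hf]
    exact key x a b h
  have uniq : ∀ (x : OP Φ) (y : ZMod (NN Φ)) (a b : GaussianInt), IsCoprime b (nu Φ) → gi b * (x : E) = gi a →
      φ b * y = φ a → f x = y := by
    intro x y a b hb h h2
    have h1 := key' x a b h
    rw [← h2] at h1
    exact (hunit b hb).mul_left_cancel h1
  obtain ⟨π, hπ⟩ : ∃ π : OP Φ →+* ZMod (NN Φ), ∀ x, π x = f x := by
    refine ⟨{ toFun := f, map_one' := ?_, map_mul' := ?_, map_zero' := ?_, map_add' := ?_ }, fun x => rfl⟩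
    · apply uniq 1 1 1 1 isCoprime_one_left (by simp) (by simp)
    · intro x y
      apply uniq (x * y) _ (na x * na y) (nb x * nb y) ((hcopb x).mul_left (hcopb y))
      · rw [map_mul, map_mul, ← heq x, ← heq y]
        push_cast
        ring
      · rw [map_mul, map_mul, ← key' x _ _ (heq x), ← key' y _ _ (heq y)]
        ring
    · apply uniq 0 0 0 1 isCoprime_one_left (by simp) (by simp)
    · intro x y
      apply uniq (x + y) _ (na x * nb y + na y * nb x) (nb x * nb y) ((hcopb x).mul_left (hcopb y))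
      · rw [map_add, map_mul, map_mul, map_mul, ← heq x, ← heq y]
        push_cast
        ring
      · rw [map_add, map_mul, map_mul, map_mul, ← key' x _ _ (heq x), ← key' y _ _ (heq y)]
        ring
  refine ⟨π, ?_, ?_, ?_⟩
  · intro y
    obtain ⟨n, hn⟩ := ZMod.intCast_surjective y
    exact ⟨(n : OP Φ), by rw [map_intCast, hn]⟩
  · intro x
    constructor
    · intro h
      rw [hπ] at h
      have h1 := key' x _ _ (heq x)
      rw [h, mul_zero] at h1
      obtain ⟨y, hy⟩ := (hφ _).mp h1.symm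
      refine ⟨⟨(nuE Φ)⁻¹ * x, y, nb x, hcopb x, ?_⟩, ?_⟩
      · rw [← mul_assoc, mul_comm (gi (nb x)), mul_assoc, heq x, hy, map_mul, ← mul_assoc]
        change (nuE Φ)⁻¹ * nuE Φ * gi y = gi y
        rw [inv_mul_cancel₀ (nuE_ne_zero Φ), one_mul]
      · change (x : E) = nuE Φ * ((nuE Φ)⁻¹ * x)
        rw [← mul_assoc, mul_inv_cancel₀ (nuE_ne_zero Φ), one_mul]
    · rintro ⟨y, hy⟩
      have h1 : x = ⟨nuE Φ, nuE_mem_OP Φ⟩ * y := Subtype.ext hy
      rw [h1, map_mul]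
      have h2 : π ⟨nuE Φ, nuE_mem_OP Φ⟩ = 0 := by
        rw [hπ]
        apply uniq _ _ (nu Φ) 1 isCoprime_one_left
        · rw [map_one, one_mul]; rfl
        · rw [map_one, one_mul]; exact ((hφ _).mpr dvd_rfl).symm
      rw [h2, zero_mul]
  · intro x hx0 hx
    rw [hπ] at hx
    have h1 := key' x _ _ (heq x)
    have h2 : IsUnit (φ (na x)) := by
      rw [← h1]
      exact (hunit _ (hcopb x)).mul hx
    have hxE : (x : E) ≠ 0 := fun h => hx0 (Subtype.ext h)
    have h3 : (x : E)⁻¹ ∈ OP Φ := by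
      refine ⟨nb x, na x, hcop _ h2, ?_⟩
      rw [← heq x, mul_assoc, mul_inv_cancel₀ hxE, mul_one]
    apply IsUnit.of_mul_eq_one ⟨(x : E)⁻¹, h3⟩
    apply Subtype.ext
    exact mul_inv_cancel₀ hxE

end St16I
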