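import Mathlib

/-!
Truncated bar complex of the multiplicative monoid (MP_8b67e9, 2.8).
-/

namespace LibSt16

def dT (n : ℕ) (F : (Fin n → ℕ) → ℝ) (t : Fin (n+1) → ℕ) : ℝ :=
  F (fun i => t i.succ) + ∑ j : Fin (n+1), (-1 : ℝ)^((j:ℕ)+1) * F (Fin.contractNth j (· * ·) t)

namespace M13

/-- inner coboundary on lists -/
def dl : (List ℕ → ℝ) → List ℕ → ℝ
  | _, [] => 0
  | _, [_] => 0
  | F, a :: b :: l => -F (a * b :: l) - dl (fun m => F (a :: m)) (b :: l)
termination_by _ l => l.length

/-- multiply the first letter -/
def mu (a : ℕ) (F : List ℕ → ℝ) : List ℕ → ℝ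
  | [] => 0
  | b :: l => F (a * b :: l)

theorem dl_nil (F : List ℕ → ℝ) : dl F [] = 0 := by rw [dl]
theorem dl_one (F : List ℕ → ℝ) (a : ℕ) : dl F [a] = 0 := by rw [dl]
theorem dl_cons2 (F : List ℕ → ℝ) (a b : ℕ) (l : List ℕ) :
    dl F (a :: b :: l) = -F (a * b :: l) - dl (fun m => F (a :: m)) (b :: l) := by rw [dl]

theorem dl_cons (F : List ℕ → ℝ) (a : ℕ) (m : List ℕ) :
    dl F (a :: m) = -mu a F m - dl (fun m => F (a :: m)) m := by
  cases m with
  | nil => rw [dl_one, dl_nil]; simp [mu]
  | cons b l => rw [dl_cons2]; rfl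

theorem dl_add (F G : List ℕ → ℝ) (l : List ℕ) :
    dl (fun m => F m + G m) l = dl F l + dl G l := by
  induction l generalizing F G with
  | nil => simp [dl_nil]
  | cons a l ih =>
    rw [dl_cons, dl_cons, dl_cons, ih]
    cases l with
    | nil => simp [mu, dl_nil]
    | cons b l => simp only [mu]; ring

theorem dl_smul (c : ℝ) (F : List ℕ → ℝ) (l : List ℕ) :
    dl (fun m => c * F m) l = c * dl F l := by
  induction l generalizing F with
  | nil => simp [dl_nil]
  | cons a l ih =>
    rw [dl_cons, dl_cons, ih]
    cases l with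
    | nil => simp [mu, dl_nil]
    | cons b l => simp only [mu]; ring

theorem dl_zero (l : List ℕ) : dl (fun _ => 0) l = 0 := by
  have := dl_smul 0 (fun _ => 0) l
  simpa using this

theorem dl_neg (F : List ℕ → ℝ) (l : List ℕ) : dl (fun m => - F m) l = - dl F l := by
  have := dl_smul (-1) F l
  simpa using this

theorem dl_mu (a : ℕ) (F : List ℕ → ℝ) (b : ℕ) (l : List ℕ) :
    dl (mu a F) (b :: l) = dl F (a * b :: l) := by
  cases l with
  | nil => rw [dl_one, dl_one]
  | cons c l =>
    rw [dl_cons2, dl_cons2]
    simp only [mu, mul_assoc]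

theorem dl_dl (F : List ℕ → ℝ) (l : List ℕ) : dl (dl F) l = 0 := by
  induction l generalizing F with
  | nil => rw [dl_nil]
  | cons a l ih =>
    rw [dl_cons]
    have h1 : (fun m => dl F (a :: m)) = fun m => (- mu a F m) + (-dl (fun m => F (a :: m)) m) := by
      funext m; rw [dl_cons]; ring
    rw [h1, dl_add, dl_neg, dl_neg, ih]
    cases l with
    | nil => simp [mu, dl_nil]
    | cons b l => rw [dl_mu]; simp [mu]

/-- the splitting operator on cochains -/
def sp (p : ℕ) : (List ℕ → ℝ) → List ℕ → ℝ
  | _, [] => 0
  | F, a :: l => if p ∣ a then (if a = p then 0 else F (p :: a / p :: l)) else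
      - sp p (fun m => F (a :: m)) l

theorem sp_nil (p : ℕ) (F : List ℕ → ℝ) : sp p F [] = 0 := rfl
theorem sp_cons (p : ℕ) (F : List ℕ → ℝ) (a : ℕ) (l : List ℕ) : sp p F (a :: l) =
    if p ∣ a then (if a = p then 0 else F (p :: a / p :: l)) else
      - sp p (fun m => F (a :: m)) l := rfl

theorem sp_add (p : ℕ) (F G : List ℕ → ℝ) (l : List ℕ) :
    sp p (fun m => F m + G m) l = sp p F l + sp p G l := by
  induction l generalizing F G with
  | nil => simp [sp_nil]
  | cons a l ih =>
    rw [sp_cons, sp_cons, sp_cons]
    split_ifs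
    · ring
    · rfl
    · rw [ih]; ring

theorem sp_neg (p : ℕ) (F : List ℕ → ℝ) (l : List ℕ) :
    sp p (fun m => - F m) l = - sp p F l := by
  induction l generalizing F with
  | nil => simp [sp_nil]
  | cons a l ih =>
    rw [sp_cons, sp_cons]
    split_ifs
    · ring
    · rfl
    · rw [ih]

/-- number of leading letters not divisible by `p` -/
def rk (p : ℕ) : List ℕ → ℕ
  | [] => 0
  | a :: l => if p ∣ a then 0 else rk p l + 1

theorem rk_le (p : ℕ) (l : List ℕ) : rk p l ≤ l.length := by
  induction l with
  | nil => simp [rk]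
  | cons a l ih =>
    rw [rk]; split_ifs
    · omega
    · simp only [List.length_cons]; omega

theorem key (p : ℕ) (hp : p.Prime) (x : List ℕ) : ∀ (G : List ℕ → ℝ) (_ : ∀ a ∈ x, 1 < a)
    (_ : p * p ∣ x.prod) (_ : ∀ m : List ℕ, m.length = x.length → (∀ a ∈ m, 1 < a) →
      m.prod = x.prod → rk p m < rk p x → G m = 0),
    sp p (dl G) x + dl (sp p G) x = - G x := by
  induction x with
  | nil =>
    intro G _ h2 _
    rw [List.prod_nil, Nat.dvd_one] at h2
    have := hp.two_le
    nlinarith
  | cons a y ih =>
    intro G h1 h2 h3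
    have ha : 1 < a := h1 a List.mem_cons_self
    have hy : ∀ b ∈ y, 1 < b := fun b hb => h1 b (List.mem_cons_of_mem _ hb)
    by_cases hpa : p ∣ a
    · obtain ⟨a', rfl⟩ := hpa
      have hp0 : 0 < p := hp.pos
      have hdv : p * a' / p = a' := Nat.mul_div_cancel_left a' hp0
      by_cases ha1 : a' = 1
      · subst ha1
        rw [mul_one] at *
        cases y with
        | nil =>
          exfalso
          rw [List.prod_cons, List.prod_nil, mul_one] at h2
          have h4 := Nat.le_of_dvd hp0 h2
          have := hp.two_le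
          nlinarith
        | cons b l =>
          have hb : 1 < b := hy b List.mem_cons_self
          rw [sp_cons, if_pos (dvd_refl p), if_pos rfl, dl_cons2]
          have e1 : (fun m => sp p G (p :: m)) = fun _ => 0 := by
            funext m
            rw [sp_cons, if_pos (dvd_refl p), if_pos rfl]
          rw [e1, dl_zero, sp_cons, if_pos (dvd_mul_right p b), if_neg (by nlinarith),
            Nat.mul_div_cancel_left b hp0]
          ring
      · have ha0 : 0 < a' := Nat.pos_of_ne_zero (by rintro rfl; simp at ha)
        have ha2 : 1 < a' := by omega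
        have hne : p * a' ≠ p := by nlinarith
        rw [sp_cons, if_pos (dvd_mul_right p a'), if_neg hne, hdv, dl_cons2]
        have e1 : (fun m => sp p G (p * a' :: m)) = fun m => G (p :: a' :: m) := by
          funext m
          rw [sp_cons, if_pos (dvd_mul_right p a'), if_neg hne, hdv]
        cases y with
        | nil =>
          rw [dl_one, dl_one]; ring
        | cons b l =>
          have hb : 1 < b := hy b List.mem_cons_self
          rw [dl_cons2, dl_cons2 (sp p G), e1]
          have h5 : p ∣ p * a' * b := ⟨a' * b, by ring⟩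
          have h6 : p * a' * b ≠ p := by
            have : 1 < a' * b := by nlinarith
            have h7 : p * 1 < p * (a' * b) := Nat.mul_lt_mul_of_pos_left this hp0
            rw [mul_assoc]; omega
          rw [sp_cons, if_pos h5, if_neg h6, mul_assoc p a' b, Nat.mul_div_cancel_left _ hp0]
          ring
    · -- p does not divide a
      have h2' : p * p ∣ y.prod := by
        rw [List.prod_cons] at h2
        have hcop : Nat.Coprime (p * p) a :=
          Nat.Coprime.mul_left ((Nat.Prime.coprime_iff_not_dvd hp).2 hpa)
            ((Nat.Prime.coprime_iff_not_dvd hp).2 hpa)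
        exact hcop.dvd_of_dvd_mul_left h2
      have hIH := ih (fun m => G (a :: m)) hy h2' (by
        intro m hm1 hm2 hm3 hm4
        refine h3 (a :: m) (by simp [hm1]) ?_ (by rw [List.prod_cons, List.prod_cons, hm3]) ?_
        · intro b hb
          rcases List.mem_cons.1 hb with rfl | hb
          · exact ha
          · exact hm2 b hb
        · rw [rk, rk, if_neg hpa, if_neg hpa]; omega)
      have e1 : sp p (dl G) (a :: y) = sp p (mu a G) y + sp p (dl (fun m => G (a :: m))) y := by
        rw [sp_cons, if_neg hpa]
        have : (fun m => dl G (a :: m)) = fun m => (-mu a G m) + (-dl (fun m => G (a :: m)) m) := by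
          funext m; rw [dl_cons]; ring
        rw [this, sp_add, sp_neg, sp_neg]; ring
      have e2 : dl (sp p G) (a :: y) = - mu a (sp p G) y + dl (sp p (fun m => G (a :: m))) y := by
        rw [dl_cons]
        have : (fun m => sp p G (a :: m)) = fun m => - sp p (fun m => G (a :: m)) m := by
          funext m; rw [sp_cons, if_neg hpa]
        rw [this, dl_neg]; ring
      have e3 : sp p (mu a G) y - mu a (sp p G) y = 0 := by
        cases y with
        | nil => simp [sp_nil, mu]
        | cons b l =>
          have hb : 1 < b := hy b List.mem_cons_self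
          have hl : ∀ c ∈ l, 1 < c := fun c hc => hy c (List.mem_cons_of_mem _ hc)
          have hr : rk p (a :: b :: l) = rk p (b :: l) + 1 := by rw [rk, if_neg hpa]
          by_cases hpb : p ∣ b
          · obtain ⟨b', rfl⟩ := hpb
            have hp0 : 0 < p := hp.pos
            have hb0 : 0 < b' := Nat.pos_of_ne_zero (by rintro rfl; simp at hb)
            rw [sp_cons, if_pos (dvd_mul_right p b')]
            have h5 : p ∣ a * (p * b') := ⟨a * b', by ring⟩
            have h6 : a * (p * b') ≠ p := by
              have : 1 < a * b' := by nlinarith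
              have h7 : p * 1 < p * (a * b') := Nat.mul_lt_mul_of_pos_left this hp0
              rw [show a * (p * b') = p * (a * b') by ring]; omega
            have h8 : a * (p * b') / p = a * b' := by
              rw [show a * (p * b') = p * (a * b') by ring, Nat.mul_div_cancel_left _ hp0]
            have e4 : mu a (sp p G) (p * b' :: l) = G (p :: a * b' :: l) := by
              simp only [mu]
              rw [sp_cons, if_pos h5, if_neg h6, h8]
            have h9 : G (p :: a * b' :: l) = 0 := by
              refine h3 _ (by simp) ?_ ?_ ?_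
              · intro c hc
                rcases List.mem_cons.1 hc with rfl | hc
                · exact hp.one_lt
                · rcases List.mem_cons.1 hc with rfl | hc
                  · nlinarith
                  · exact hl c hc
              · simp only [List.prod_cons]; ring
              · rw [hr]; simp [rk]
            rw [e4, h9]
            by_cases hb1 : b' = 1
            · subst hb1
              rw [if_pos (by ring)]; ring
            · rw [if_neg (by
                intro h
                have : b' = 1 := by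
                  have : p * b' = p * 1 := by rw [h, mul_one]
                  exact Nat.eq_of_mul_eq_mul_left hp0 this
                exact hb1 this), Nat.mul_div_cancel_left _ hp0]
              simp only [mu]
              have : G (a * p :: b' :: l) = 0 := by
                refine h3 _ (by simp) ?_ ?_ ?_
                · intro c hc
                  rcases List.mem_cons.1 hc with rfl | hc
                  · nlinarith [hp.two_le]
                  · rcases List.mem_cons.1 hc with rfl | hc
                    · omega
                    · exact hl c hc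
                · simp only [List.prod_cons]; ring
                · rw [hr]; simp [rk]
              rw [this]; ring
          · have hab : ¬ p ∣ a * b := by
              intro h
              rcases (Nat.Prime.dvd_mul hp).1 h with h | h
              · exact hpa h
              · exact hpb h
            rw [sp_cons, if_neg hpb]
            simp only [mu]
            rw [sp_cons, if_neg hab]
            ring
      rw [e1, e2]
      linarith

theorem sp_zero (p : ℕ) (hp : p.Prime) (x : List ℕ) : ∀ (G : List ℕ → ℝ)
    (_ : ∀ a ∈ x, 1 < a) (_ : ∀ m : List ℕ, m.length = x.length + 1 → (∀ a ∈ m, 1 < a) →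
      m.prod = x.prod → G m = 0), sp p G x = 0 := by
  induction x with
  | nil => intro G _ _; rfl
  | cons a y ih =>
    intro G h1 h2
    have ha : 1 < a := h1 a List.mem_cons_self
    have hy : ∀ b ∈ y, 1 < b := fun b hb => h1 b (List.mem_cons_of_mem _ hb)
    rw [sp_cons]
    split_ifs with h3 h4
    · rfl
    · obtain ⟨a', rfl⟩ := h3
      have hp0 : 0 < p := hp.pos
      rw [Nat.mul_div_cancel_left _ hp0]
      apply h2
      · simp
      · intro c hc
        rcases List.mem_cons.1 hc with rfl | hc
        · exact hp.one_lt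
        · rcases List.mem_cons.1 hc with rfl | hc
          · rcases Nat.lt_or_ge 1 c with h | h
            · exact h
            · interval_cases c
              · simp at ha
              · simp at h4
          · exact hy c hc
      · simp only [List.prod_cons]; ring
    · rw [ih (fun m => G (a :: m)) hy, neg_zero]
      intro m hm1 hm2 hm3
      apply h2
      · simp [hm1]
      · intro c hc
        rcases List.mem_cons.1 hc with rfl | hc
        · exact ha
        · exact hm2 c hc
      · simp only [List.prod_cons, hm3]

/-- exactness of the complex of factorisations of `n` when `p^2 ∣ n` -/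
theorem inner_exact (p : ℕ) (hp : p.Prime) (n : ℕ) (hn : p * p ∣ n) (j : ℕ) (G : List ℕ → ℝ)
    (hG : ∀ l : List ℕ, l.length = j + 2 → (∀ a ∈ l, 1 < a) → l.prod = n → dl G l = 0) :
    ∃ H : List ℕ → ℝ, ∀ l : List ℕ, l.length = j + 1 → (∀ a ∈ l, 1 < a) → l.prod = n →
      G l = dl H l := by
  have claim : ∀ R : ℕ, ∃ H : List ℕ → ℝ, ∀ l : List ℕ, l.length = j + 1 → (∀ a ∈ l, 1 < a) →
      l.prod = n → rk p l < R → G l = dl H l := by
    intro R
    induction R with
    | zero => exact ⟨fun _ => 0, fun l _ _ _ h => absurd h (Nat.not_lt_zero _)⟩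
    | succ R ih =>
      obtain ⟨H, hH⟩ := ih
      set G' : List ℕ → ℝ := fun m => G m + - dl H m with hG'
      refine ⟨fun m => H m + - sp p G' m, fun l hl1 hl2 hl3 hl4 => ?_⟩
      have h1 := key p hp l G' hl2 (hl3 ▸ hn) (by
        intro m hm1 hm2 hm3 hm4
        have := hH m (hm1.trans hl1) hm2 (hm3.trans hl3) (by omega)
        simp only [hG', this]; ring)
      have h2 : sp p (dl G') l = 0 := by
        apply sp_zero p hp l _ hl2
        intro m hm1 hm2 hm3
        have : dl G' m = dl G m + - dl (dl H) m := by
          rw [hG', dl_add, dl_neg]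
        rw [this, dl_dl, hG m (by omega) hm2 (hm3.trans hl3)]
        ring
      rw [dl_add, dl_neg]
      rw [h2] at h1
      simp only [hG'] at h1
      simp only [hG']
      linarith
  obtain ⟨H, hH⟩ := claim (j + 2)
  exact ⟨H, fun l h1 h2 h3 => hH l h1 h2 h3 (by have := rk_le p l; omega)⟩

/-- the full coboundary on lists -/
def dL (F : List ℕ → ℝ) (l : List ℕ) : ℝ :=
  - dl (fun m => F m.tail.dropLast) (0 :: (l ++ [0]))

/-- `dl` on a list with a last letter appended -/
theorem dl_append (F : List ℕ → ℝ) (l : List ℕ) (z : ℕ) (hl : l ≠ []) : dl F (l ++ [z]) =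
    dl (fun m => F (m ++ [z])) l + (-1 : ℝ) ^ l.length * F (l.dropLast ++ [l.getLast hl * z]) := by
  induction l generalizing F with
  | nil => exact absurd rfl hl
  | cons a l ih =>
    cases l with
    | nil =>
      simp [dl_one, dl_cons2]
    | cons b l =>
      have := ih (fun m => F (a :: m)) (by simp)
      rw [List.cons_append] at this
      rw [List.cons_append, List.cons_append, dl_cons2, this, dl_cons2]
      simp only [List.dropLast_cons₂, List.getLast_cons_cons, List.length_cons, List.cons_append,
        pow_succ]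
      ring

theorem dl_ends (F : List ℕ → ℝ) (a : ℕ) (l : List ℕ) : dl F (0 :: (a :: l ++ [0])) =
    - F (0 :: (l ++ [0])) - (dl (fun m => F (0 :: (m ++ [0]))) (a :: l) +
      (-1 : ℝ) ^ (l.length + 1) * F (0 :: ((a :: l).dropLast ++ [0]))) := by
  rw [dl_cons, dl_append _ _ _ (by simp)]
  simp only [List.cons_append, mu, mul_zero, zero_mul, List.length_cons]

theorem dL_cons (F : List ℕ → ℝ) (a : ℕ) (l : List ℕ) : dL F (a :: l) =
    F l + dl F (a :: l) + (-1 : ℝ) ^ (l.length + 1) * F (a :: l).dropLast := by
  rw [dL, dl_ends]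
  simp only [List.tail_cons, List.dropLast_concat]
  ring

theorem dL_dL (F : List ℕ → ℝ) (a : ℕ) (l : List ℕ) : dL (dL F) (a :: l) = 0 := by
  have h1 : dl (fun m => dL F m.tail.dropLast) (0 :: (a :: l ++ [0])) =
      dl (fun m => - dl (fun m => F m.tail.dropLast) m) (0 :: (a :: l ++ [0])) := by
    rw [dl_ends, dl_ends]
    simp only [List.tail_cons, List.dropLast_concat]
    rfl
  rw [dL, h1, dl_neg, dl_dl]
  ring

theorem dL_add (F G : List ℕ → ℝ) (l : List ℕ) :
    dL (fun m => F m + G m) l = dL F l + dL G l := by
  unfold dL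
  rw [dl_add]; ring

theorem dL_neg (F : List ℕ → ℝ) (l : List ℕ) :
    dL (fun m => - F m) l = - dL F l := by
  unfold dL
  rw [dl_neg]

theorem dl_congr (x : List ℕ) : ∀ (F G : List ℕ → ℝ) (_ : ∀ a ∈ x, 1 < a)
    (_ : ∀ m : List ℕ, m.length + 1 = x.length → (∀ a ∈ m, 1 < a) → m.prod = x.prod → F m = G m),
    dl F x = dl G x := by
  induction x with
  | nil => intro F G _ _; rw [dl_nil, dl_nil]
  | cons a l ih =>
    intro F G h1 h2
    have ha : 1 < a := h1 a List.mem_cons_self
    have hl : ∀ b ∈ l, 1 < b := fun b hb => h1 b (List.mem_cons_of_mem _ hb)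
    cases l with
    | nil => rw [dl_one, dl_one]
    | cons b l =>
      have hb : 1 < b := hl b List.mem_cons_self
      rw [dl_cons2, dl_cons2, ih (fun m => F (a :: m)) (fun m => G (a :: m)) hl, h2]
      · simp
      · intro c hc
        rcases List.mem_cons.1 hc with rfl | hc
        · nlinarith
        · exact hl c (List.mem_cons_of_mem _ hc)
      · simp only [List.prod_cons]; ring
      · intro m hm1 hm2 hm3
        apply h2
        · simp only [List.length_cons] at *; omega
        · intro c hc
          rcases List.mem_cons.1 hc with rfl | hc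
          · exact ha
          · exact hm2 c hc
        · rw [List.prod_cons, List.prod_cons, hm3]

theorem one_le_prod (l : List ℕ) (h : ∀ a ∈ l, 1 < a) : 1 ≤ l.prod := by
  induction l with
  | nil => simp
  | cons a l ih =>
    rw [List.prod_cons]
    have := ih fun b hb => h b (List.mem_cons_of_mem _ hb)
    have := h a List.mem_cons_self
    nlinarith

/-- the outer faces have a strictly smaller product -/
theorem prod_tail_lt (a : ℕ) (l : List ℕ) (h : ∀ b ∈ a :: l, 1 < b) :
    l.prod < (a :: l).prod := by
  rw [List.prod_cons]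
  have := one_le_prod l fun b hb => h b (List.mem_cons_of_mem _ hb)
  have := h a List.mem_cons_self
  nlinarith

theorem prod_dropLast (a : ℕ) (l : List ℕ) :
    (a :: l).dropLast.prod * (a :: l).getLast (by simp) = (a :: l).prod := by
  conv_rhs => rw [← List.dropLast_append_getLast (l := a :: l) (by simp)]
  rw [List.prod_append]
  simp

theorem dropLast_gt (a : ℕ) (l : List ℕ) (h : ∀ b ∈ a :: l, 1 < b) :
    ∀ b ∈ (a :: l).dropLast, 1 < b := fun b hb => h b (List.mem_of_mem_dropLast hb)

theorem prod_dropLast_lt (a : ℕ) (l : List ℕ) (h : ∀ b ∈ a :: l, 1 < b) :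
    (a :: l).dropLast.prod < (a :: l).prod := by
  have h1 := prod_dropLast a l
  have h2 := one_le_prod _ (dropLast_gt a l h)
  have h3 := h _ (List.getLast_mem (l := a :: l) (by simp))
  nlinarith

/-- the list form of the theorem -/
theorem list_form (N c : ℕ) (hN : N ≠ 0) (j : ℕ) (F : List ℕ → ℝ)
    (hF : ∀ l : List ℕ, l.length = j + 2 → (∀ a ∈ l, 1 < a) → l.prod ∣ N ^ c → dL F l = 0)
    (H1 : List ℕ → ℝ)
    (h1 : ∀ l : List ℕ, l.length = j + 1 → (∀ a ∈ l, 1 < a) → l.prod ∣ N → F l = dL H1 l) :
    ∃ H : List ℕ → ℝ, ∀ l : List ℕ, l.length = j + 1 → (∀ a ∈ l, 1 < a) → l.prod ∣ N ^ c →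
      F l = dL H l := by
  set F' : List ℕ → ℝ := fun m => F m + - dL H1 m with hF'
  have hF'0 : ∀ l : List ℕ, l.length = j + 1 → (∀ a ∈ l, 1 < a) → l.prod ∣ N → F' l = 0 := by
    intro l h2 h3 h4
    simp only [hF', h1 l h2 h3 h4]; ring
  have hF'c : ∀ l : List ℕ, l.length = j + 2 → (∀ a ∈ l, 1 < a) → l.prod ∣ N ^ c →
      dL F' l = 0 := by
    intro l h2 h3 h4
    rw [hF', dL_add, dL_neg, hF l h2 h3 h4]
    cases l with
    | nil => simp at h2
    | cons a l => rw [dL_dL]; ring
  have claim : ∀ n : ℕ, ∃ H : List ℕ → ℝ, (∀ l : List ℕ, (∀ a ∈ l, 1 < a) → l.prod ∣ N → H l = 0) ∧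
      ∀ l : List ℕ, l.length = j + 1 → (∀ a ∈ l, 1 < a) → l.prod ∣ N ^ c → l.prod < n →
        F' l = dL H l := by
    intro n
    induction n with
    | zero => exact ⟨fun _ => 0, fun _ _ _ => rfl, fun l _ _ _ h => absurd h (Nat.not_lt_zero _)⟩
    | succ n ih =>
      obtain ⟨H, hH0, hH⟩ := ih
      by_cases hn : n ∣ N ^ c
      swap
      · refine ⟨H, hH0, fun l h2 h3 h4 h5 => hH l h2 h3 h4 ?_⟩
        rcases Nat.lt_succ_iff_lt_or_eq.1 h5 with h6 | h6
        · exact h6
        · rw [h6] at h4; exact absurd h4 hn
      by_cases hnN : n ∣ N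
      · refine ⟨H, hH0, fun l h2 h3 h4 h5 => ?_⟩
        rcases Nat.lt_succ_iff_lt_or_eq.1 h5 with h6 | h6
        · exact hH l h2 h3 h4 h6
        · have hlN : l.prod ∣ N := by rw [h6]; exact hnN
          rw [hF'0 l h2 h3 hlN]
          cases l with
          | nil => simp at h2
          | cons a l =>
            have e1 : dl H (a :: l) = dl (fun _ => 0) (a :: l) := by
              apply dl_congr _ _ _ h3
              intro m hm1 hm2 hm3
              exact hH0 m hm2 (hm3 ▸ hlN)
            have e2 : H l = 0 := hH0 l (fun b hb => h3 b (List.mem_cons_of_mem _ hb))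
              ((Dvd.intro_left a (by rw [List.prod_cons])).trans hlN)
            have e3 : H (a :: l).dropLast = 0 := hH0 _ (dropLast_gt a l h3)
              ((Dvd.intro _ (prod_dropLast a l)).trans hlN)
            rw [dL_cons, e1, e2, e3, dl_zero]; ring
      · -- the new case
        have hn0 : n ≠ 0 := by
          rintro rfl
          exact pow_ne_zero c hN (Nat.eq_zero_of_zero_dvd hn)
        have hns : ¬ Squarefree n := by
          intro hs
          rcases Nat.eq_zero_or_pos c with hc | hc
          · subst hc
            rw [pow_zero, Nat.dvd_one] at hn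
            subst hn
            exact hnN (one_dvd N)
          · exact hnN ((Squarefree.dvd_pow_iff_dvd hs hc.ne').1 hn)
        obtain ⟨p, hp, hpn⟩ : ∃ p, p.Prime ∧ p * p ∣ n := by
          by_contra hcon
          push Not at hcon
          exact hns ((Nat.squarefree_iff_prime_squarefree).2 hcon)
        set G : List ℕ → ℝ := fun m => F' m + - dL H m with hG
        have hGsmall : ∀ l : List ℕ, l.length = j + 1 → (∀ a ∈ l, 1 < a) → l.prod ∣ N ^ c →
            l.prod < n → G l = 0 := by
          intro l h2 h3 h4 h5
          simp only [hG, hH l h2 h3 h4 h5]; ring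
        obtain ⟨H', hH'⟩ := inner_exact p hp n hpn j G (by
          intro l hl1 hl2 hl3
          have h4 : dL G l = 0 := by
            rw [hG, dL_add, dL_neg, hF'c l hl1 hl2 (hl3 ▸ hn)]
            cases l with
            | nil => simp at hl1
            | cons a l => rw [dL_dL]; ring
          cases l with
          | nil => simp at hl1
          | cons a l =>
            have hl1' : l.length = j + 1 := by simpa using hl1
            have e2 : G l = 0 := by
              apply hGsmall l hl1' (fun b hb => hl2 b (List.mem_cons_of_mem _ hb))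
              · exact (Dvd.intro_left a (by rw [List.prod_cons])).trans (hl3 ▸ hn)
              · rw [← hl3]; exact prod_tail_lt a l hl2
            have e3 : G (a :: l).dropLast = 0 := by
              apply hGsmall _ (by simp [hl1']) (dropLast_gt a l hl2)
              · exact (Dvd.intro _ (prod_dropLast a l)).trans (hl3 ▸ hn)
              · rw [← hl3]; exact prod_dropLast_lt a l hl2
            rw [dL_cons, e2, e3] at h4
            linarith)
        classical
        set H'' : List ℕ → ℝ := fun m => if m.prod = n then H' m else 0 with hH''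
        refine ⟨fun m => H m + H'' m, ?_, ?_⟩
        · intro l h2 h3
          show H l + H'' l = 0
          rw [hH0 l h2 h3]
          simp only [hH'']
          rw [if_neg (by intro h; exact hnN (h ▸ h3))]
          ring
        · intro l h2 h3 h4 h5
          rw [dL_add]
          cases l with
          | nil => simp at h2
          | cons a l =>
            have hl1' : l.length = j := by simpa using h2
            rcases Nat.lt_succ_iff_lt_or_eq.1 h5 with h6 | h6
            · rw [← hH _ h2 h3 h4 h6]
              have e1 : dl H'' (a :: l) = dl (fun _ => 0) (a :: l) := by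
                apply dl_congr _ _ _ h3
                intro m hm1 hm2 hm3
                simp only [hH'']
                rw [if_neg (by rw [hm3]; exact h6.ne)]
              have e2 : H'' l = 0 := by
                simp only [hH'']
                rw [if_neg ((prod_tail_lt a l h3).trans h6).ne]
              have e3 : H'' (a :: l).dropLast = 0 := by
                simp only [hH'']
                rw [if_neg ((prod_dropLast_lt a l h3).trans h6).ne]
              rw [dL_cons, e1, e2, e3, dl_zero]; ring
            · have e0 := hH' (a :: l) h2 h3 h6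
              have e1 : dl H'' (a :: l) = dl H' (a :: l) := by
                apply dl_congr _ _ _ h3
                intro m hm1 hm2 hm3
                simp only [hH'']
                rw [if_pos (by rw [hm3]; exact h6)]
              have e2 : H'' l = 0 := by
                simp only [hH'']
                rw [if_neg (by rw [← h6]; exact (prod_tail_lt a l h3).ne)]
              have e3 : H'' (a :: l).dropLast = 0 := by
                simp only [hH'']
                rw [if_neg (by rw [← h6]; exact (prod_dropLast_lt a l h3).ne)]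
              rw [dL_cons H'', e1, e2, e3, ← e0]
              simp only [hG]; ring
  obtain ⟨H, -, hH⟩ := claim (N ^ c + 1)
  refine ⟨fun m => H m + H1 m, fun l h2 h3 h4 => ?_⟩
  have h5 := hH l h2 h3 h4 (Nat.lt_succ_of_le (Nat.le_of_dvd (Nat.pos_of_ne_zero (pow_ne_zero c hN)) h4))
  rw [dL_add, ← h5]
  simp only [hF']; ring

theorem contract_zero {n : ℕ} (t : Fin (n + 2) → ℕ) :
    List.ofFn (Fin.contractNth 0 (· * ·) t) =
      t 0 * t 1 :: List.ofFn (fun i : Fin n => t i.succ.succ) := by
  rw [List.ofFn_succ]
  congr 1

theorem contract_succ {n : ℕ} (t : Fin (n + 2) → ℕ) (j : Fin (n + 1)) :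
    List.ofFn (Fin.contractNth j.succ (· * ·) t) =
      t 0 :: List.ofFn (Fin.contractNth j (· * ·) (fun i => t i.succ)) := by
  rw [List.ofFn_succ]
  congr 1
  congr 1
  funext k
  unfold Fin.contractNth
  simp only [Fin.val_succ, add_lt_add_iff_right, add_left_inj, Fin.succ_castSucc]

theorem conv (n : ℕ) (H : List ℕ → ℝ) (t : Fin (n + 1) → ℕ) :
    ∑ j : Fin (n+1), (-1 : ℝ)^((j:ℕ)+1) * H (List.ofFn (Fin.contractNth j (· * ·) t)) =
      dl H (List.ofFn t) + (-1 : ℝ) ^ (n + 1) * H (List.ofFn t).dropLast := by
  induction n generalizing H with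
  | zero =>
    simp [dl_one]
  | succ n ih =>
    rw [Fin.sum_univ_succ, contract_zero]
    have h1 : ∀ j : Fin (n + 1), (-1 : ℝ)^((j.succ:ℕ)+1) *
        H (List.ofFn (Fin.contractNth j.succ (· * ·) t)) =
        - ((-1 : ℝ)^((j:ℕ)+1) *
        (fun m => H (t 0 :: m)) (List.ofFn (Fin.contractNth j (· * ·) (fun i => t i.succ)))) := by
      intro j
      rw [contract_succ, Fin.val_succ, pow_succ]
      ring
    rw [Finset.sum_congr rfl fun j _ => h1 j, Finset.sum_neg_distrib,
      ih (fun m => H (t 0 :: m)) (fun i => t i.succ)]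
    have h2 : List.ofFn t = t 0 :: t 1 :: List.ofFn (fun i : Fin n => t i.succ.succ) := by
      rw [List.ofFn_succ, List.ofFn_succ]; rfl
    have h3 : List.ofFn (fun i : Fin (n+1) => t i.succ) =
        t 1 :: List.ofFn (fun i : Fin n => t i.succ.succ) := by
      rw [List.ofFn_succ]; rfl
    rw [h2, h3, dl_cons2, List.dropLast_cons₂]
    simp only [Fin.val_zero, pow_succ, pow_zero]
    ring

theorem dT_eq (n : ℕ) (H : List ℕ → ℝ) (t : Fin (n + 1) → ℕ) :
    dT n (fun t => H (List.ofFn t)) t = dL H (List.ofFn t) := by
  rw [dT, conv]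
  rw [List.ofFn_succ, dL_cons]
  simp only [List.length_ofFn]
  ring

theorem exists_list (n : ℕ) (F : (Fin n → ℕ) → ℝ) :
    ∃ F' : List ℕ → ℝ, F = fun t => F' (List.ofFn t) := by
  refine ⟨fun l => F (fun i => l.getD i 0), ?_⟩
  funext t
  congr 1
  funext i
  simp

end M13

theorem trunc_bar (N c : ℕ) (hN : Squarefree N) (j : ℕ) (F : (Fin (j+1) → ℕ) → ℝ)
    (hF : ∀ t : Fin (j+2) → ℕ, (∀ i, 1 < t i) → (∏ i, t i) ∣ N^c → dT (j+1) F t = 0)
    (H1 : (Fin j → ℕ) → ℝ)
    (h1 : ∀ t : Fin (j+1) → ℕ, (∀ i, 1 < t i) → (∏ i, t i) ∣ N → F t = dT j H1 t) :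
    ∃ H : (Fin j → ℕ) → ℝ,
      ∀ t : Fin (j+1) → ℕ, (∀ i, 1 < t i) → (∏ i, t i) ∣ N^c → F t = dT j H t := by
  obtain ⟨F', rfl⟩ := M13.exists_list _ F
  obtain ⟨H1', rfl⟩ := M13.exists_list _ H1
  have hof : ∀ (n : ℕ) (l : List ℕ), l.length = n → (∀ a ∈ l, 1 < a) →
      ∃ t : Fin n → ℕ, List.ofFn t = l ∧ (∀ i, 1 < t i) ∧ ∏ i, t i = l.prod := by
    intro n l hl h2
    subst hl
    exact ⟨l.get, List.ofFn_get l, fun i => h2 _ (List.get_mem l i), by
      rw [← List.prod_ofFn, List.ofFn_get]⟩
  obtain ⟨H, hH⟩ := M13.list_form N c hN.ne_zero j F' (by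
      intro l h2 h3 h4
      obtain ⟨t, rfl, h5, h6⟩ := hof _ l h2 h3
      rw [← M13.dT_eq]
      exact hF t h5 (h6 ▸ h4)) H1' (by
      intro l h2 h3 h4
      obtain ⟨t, rfl, h5, h6⟩ := hof _ l h2 h3
      rw [← M13.dT_eq]
      exact h1 t h5 (h6 ▸ h4))
  refine ⟨fun t => H (List.ofFn t), fun t h2 h3 => ?_⟩
  rw [M13.dT_eq]
  apply hH
  · simp
  · intro a ha
    rw [List.mem_ofFn] at ha
    obtain ⟨i, rfl⟩ := ha
    exact h2 i
  · rw [List.prod_ofFn]; exact h3

end LibSt16
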