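import Pool.Agent.LibSt16.H8
import Pool.Agent.LibSt16.HC3
import Pool.Agent.LibSt16.HC4
import Pool.Agent.LibSt16.HCub
import Pool.Agent.LibSt16.IAll
import Pool.Agent.LibSt16.IP96
import Pool.Agent.LibSt16.M13

/-!
LibSt16/HVan (helper60): the vanishing statement `Van` (2.7 and 2.8 of the page).
-/

set_option autoImplicit false

noncomputable section

namespace St16H

open St16I
open LibSt16 (dT trunc_bar)

/-- the simplices of `Y_Φ` with the action of `G_c` -/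
def YS (Φ : Finset P1) (c : ℕ) : SS ↥(Gc c) where
  Y := fun q => Y Φ c q
  act := fun _ => inferInstance
  face := fun _ i s => St16I.face i s
  face_smul := fun _ i g s => (smul_face g.1 i s).symm
  bd_bd := fun q z => St16I.bd_bd q z

/-- `Γ_Φ` in `G_c` -/
def GaS (Φ : Finset P1) (c : ℕ) : Subgroup ↥(Gc c) := (Ga Φ c).subgroupOf (Gc c)

theorem mem_GaS {Φ : Finset P1} {c : ℕ} (g : ↥(Gc c)) : g ∈ GaS Φ c ↔ g.1 ∈ Ga Φ c :=
  Subgroup.mem_subgroupOf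

variable {Φ : Finset P1} {c : ℕ}

theorem YS_eps (x : (YS Φ c).cx.M 0) : (YS Φ c).eps x = Finsupp.sum (α := Y Φ c 0) (M := ℚ) x fun _ a => a := by
  let z : Y Φ c 0 →₀ ℚ := x
  show Finsupp.linearCombination ℚ (fun _ : Y Φ c 0 => (1 : ℚ)) z = z.sum fun _ a => a
  rw [Finsupp.linearCombination_apply]
  refine Finsupp.sum_congr fun s _ => ?_
  rw [smul_eq_mul, mul_one]

theorem SS.eps_inv {G : Type} [Group G] (S : SS G) (g : G) (x : S.cx.M 0) :
    S.eps (S.cx.ρ 0 g x) = S.eps x := by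
  have h : S.eps.comp (S.cx.ρ 0 g) = S.eps := by
    refine Finsupp.lhom_ext (α := S.Y 0) (M := ℚ) fun s a => ?_
    have h1 : S.cx.ρ 0 g (Finsupp.single s a) = Finsupp.single (g • s) a := S.cx_ρ_single 0 g s a
    show S.eps (S.cx.ρ 0 g (Finsupp.single s a)) = _
    rw [h1]
    show Finsupp.linearCombination ℚ _ (Finsupp.single (g • s) a) =
      Finsupp.linearCombination ℚ _ (Finsupp.single s a)
    rw [Finsupp.linearCombination_single, Finsupp.linearCombination_single]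
  exact LinearMap.congr_fun h x

theorem YS_acyc : (YS Φ c).cx.Acyc (YS Φ c).eps where
  inv := fun g x => (YS Φ c).eps_inv g x
  eps_d := fun x => by
    rw [YS_eps]
    exact BC.sum_bd upL_monotone x
  onto := by
    let s : Y Φ c 0 := ⟨fun _ => M0 Φ c, fun (i k : Fin 1) h => absurd h (by
      rw [Subsingleton.elim i k]; exact lt_irrefl _), le_upL _⟩
    exact ⟨Finsupp.single s 1, (YS_eps _).trans (Finsupp.sum_single_index rfl)⟩
  ex0 := fun x hx => by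
    rw [YS_eps] at hx
    exact Y_exact0 x hx
  ex := fun q x hx => Y_exact q x hx

theorem YS_finAct (hΦ : Φ.Nonempty) (q : ℕ) : FinAct ((YS Φ c).Y q) (GaS Φ c) where
  stab := by
    intro s
    let s' : Y Φ c q := s
    refine (Set.Finite.preimage (f := fun g : ↥(Gc c) => (g : GL (Fin c) E))
      Subtype.val_injective.injOn (stab_finite (s'.1 0))).subset ?_
    rintro g ⟨hg, hs⟩
    refine ⟨(mem_GaS g).1 hg, ?_⟩
    have h1 : (g : GL (Fin c) E) • s' = s' := hs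
    calc (g : GL (Fin c) E) • s'.1 0 = ((g : GL (Fin c) E) • s').1 0 := rfl
      _ = s'.1 0 := by rw [h1]
  orb := by
    obtain ⟨T, hT, h⟩ := finite_orbits (c := c) hΦ q
    refine ⟨T, hT, fun s => ?_⟩
    obtain ⟨g, hg, t, ht, e⟩ := h s
    exact ⟨⟨g, Ga_le_Gc Φ c hg⟩, (mem_GaS _).2 hg, t, ht, e⟩

theorem YS_cof (q : ℕ) (t : (YS Φ c).Y q) :
    {s : (YS Φ c).Y (q + 1) | ∃ i, (YS Φ c).face q i s = t}.Finite := by
  let t' : Y Φ c q := t
  refine (Set.finite_iUnion fun k : Fin (q + 2) => finite_star (q + 1) k (t'.1 0)).subset ?_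
  rintro s ⟨i, hi⟩
  refine Set.mem_iUnion.2 ⟨i.succAbove 0, ?_⟩
  have h1 : St16I.face i (s : Y Φ c (q + 1)) = t' := hi
  show (s : Y Φ c (q + 1)).1 (i.succAbove 0) = t'.1 0
  rw [← h1]
  rfl

theorem GaS_comm (g : ↥(Gc c)) : ∃ H : Subgroup ↥(Gc c), H ≤ GaS Φ c ∧ H.relIndex (GaS Φ c) ≠ 0 ∧
    ∀ x ∈ H, g * x * g⁻¹ ∈ GaS Φ c := by
  obtain ⟨H, hH, hi, hc⟩ := comm_index Φ g.2
  refine ⟨H.subgroupOf (Gc c), ?_, ?_, ?_⟩
  · intro x hx
    exact (mem_GaS x).2 (hH (Subgroup.mem_subgroupOf.1 hx))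
  · rw [GaS, Subgroup.relIndex_subgroupOf (Ga_le_Gc Φ c)]
    exact hi
  · intro x hx
    exact (mem_GaS _).2 (hc x.1 (Subgroup.mem_subgroupOf.1 hx))

/-- a function which depends on the type only -/
theorem exists_type_fun {q : ℕ} (f : Y Φ c q → ℝ) (h : ∀ s t : Y Φ c q, ty s = ty t → f s = f t) :
    ∃ F : (Fin q → ℕ) → ℝ, ∀ s, f s = F (ty s) := by
  classical
  refine ⟨fun n => if h : ∃ s : Y Φ c q, ty s = n then f h.choose else 0, fun s => ?_⟩
  have hs : ∃ t : Y Φ c q, ty t = ty s := ⟨s, rfl⟩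
  show f s = if h : ∃ t : Y Φ c q, ty t = ty s then f h.choose else 0
  rw [dif_pos hs]
  exact h _ _ hs.choose_spec.symm

/-- the coboundary of a function of the type -/
theorem cb_type {q : ℕ} (f : Y Φ c q → ℝ) (F : (Fin q → ℕ) → ℝ) (h : ∀ s, f s = F (ty s))
    (s : Y Φ c (q + 1)) :
    ∑ i : Fin (q + 2), (-1 : ℝ) ^ (i : ℕ) * f (St16I.face i s) = dT q F (ty s) := by
  rw [Fin.sum_univ_succ]
  unfold dT
  congr 1
  · rw [h, ty_face_zero]
    simp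
  · refine Finset.sum_congr rfl fun i _ => ?_
    rw [h, ty_face_succ, Fin.val_succ]

theorem YS_cb {q : ℕ} (f : Y Φ c q → ℝ) (s : Y Φ c (q + 1)) :
    (YS Φ c).cb (q := q) f s = ∑ i : Fin (q + 2), (-1 : ℝ) ^ (i : ℕ) * f (St16I.face i s) := rfl

theorem van (Φ : Finset P1) (hΦ : Φ.Nonempty) (c : ℕ) : Van Φ c := by
  intro j φ iφ hφ cφ vφ
  let G := ↥(Gc (c + 1))
  let S : SS ↥(Gc (c + 1)) := YS Φ (c + 1)
  let P : EqCx ↥(Gc (c + 1)) := cubCx ↥(Gc (c + 1))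
  let εP := cubEps ↥(Gc (c + 1))
  have aP : P.Acyc εP := cub_acyc _
  have aS : S.cx.Acyc S.eps := YS_acyc
  have lP0 : ∀ n, EqLift (P.ρ n) := fun n =>
    cub_eqlift ↥(Gc (c + 1)) (MonoidHom.id _) Function.injective_id n
  obtain ⟨Ψ, hΨ⟩ := exists_map P S.cx εP S.eps lP0 aP aS
  let φ' : P.M (j + 1) →ₗ[ℚ] ℝ := cubLin φ hφ
  have iφ' : InvFun (P.ρ (j + 1)) φ' := fun g x => cubLin_inv φ hφ g (fun y => iφ g y) x
  have cφ' : ∀ x, φ' (P.d (j + 1) x) = 0 := fun x => cubLin_cocycle φ hφ cφ x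
  obtain ⟨f, ψ, invf, cf, iψ, ef, last⟩ := harm S (GaS Φ (c + 1)) aS (fun q => YS_finAct hΦ q)
    (fun q t => YS_cof q t) GaS_comm P εP aP
    (fun H n => cub_eqlift ↥(Gc (c + 1)) H.subtype Subtype.val_injective n) Ψ hΨ j φ' iφ' cφ'
  -- `f` is a function of the type
  obtain ⟨F, hF⟩ : ∃ F : (Fin (j + 1) → ℕ) → ℝ, ∀ s : Y Φ (c + 1) (j + 1), f s = F (ty s) := by
    refine exists_type_fun (Φ := Φ) (c := c + 1) f fun s t hst => ?_
    obtain ⟨u, hu, e⟩ := Y_trans hΦ s t hst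
    have h1 : f ((⟨u, hu⟩ : ↥(Gc (c + 1))) • (s : S.Y (j + 1))) = f s := invf ⟨u, hu⟩ s
    have h2 : ((⟨u, hu⟩ : ↥(Gc (c + 1))) • (s : S.Y (j + 1))) = t := e
    rw [← h1, h2]
  have hFc : ∀ t : Fin (j + 2) → ℕ, (∀ i, 1 < t i) → (∏ i, t i) ∣ NN Φ ^ (c + 1) →
      dT (j + 1) F t = 0 := by
    intro t h1 h2
    obtain ⟨s, rfl⟩ := ty_surj (Φ := Φ) (c := c + 1) t h1 h2
    rw [← cb_type (Φ := Φ) (c := c + 1) f F hF s]
    exact cf s
  -- the restriction to `U(1)`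
  let θ : ↥(GaS Φ 1) →* ↥(Gc (c + 1)) := (iotaG c).comp (GaS Φ 1).subtype
  have hθi : Function.Injective (iotaG c) := by
    intro a b hab
    have h1 : iota c a.1 = iota c b.1 := congrArg Subtype.val hab
    have h2 := congrArg (fun g : GL (Fin (c + 1)) E => (g : Matrix (Fin (c + 1)) (Fin (c + 1)) E).det) h1
    simp only [det_iota] at h2
    apply Subtype.ext
    apply Units.ext
    refine Matrix.ext fun i k => ?_
    rw [Subsingleton.elim i 0, Subsingleton.elim k 0]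
    exact h2
  let Ψ1 : EqMap ((cubCx ↥(Gc 1)).res (GaS Φ 1).subtype) (S.cx.res θ) :=
    { f := fun n => (Ψ.f n).comp ((cubMap (iotaG c)).f n)
      eqv := fun n g x => by
        have h1 := (cubMap (iotaG c)).eqv n (g : ↥(Gc 1)) x
        show Ψ.f n ((cubMap (iotaG c)).f n ((cubCx ↥(Gc 1)).ρ n (g : ↥(Gc 1)) x)) =
          S.cx.ρ n (iotaG c g) (Ψ.f n ((cubMap (iotaG c)).f n x))
        rw [h1]
        exact Ψ.eqv n (iotaG c g) _
      comm := fun n x => by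
        have h1 := (cubMap (iotaG c)).comm n x
        show Ψ.f n ((cubMap (iotaG c)).f n ((cubCx ↥(Gc 1)).d n x)) =
          S.cx.d n (Ψ.f (n + 1) ((cubMap (iotaG c)).f (n + 1) x))
        rw [h1]
        exact Ψ.comm n _ }
  have hΨ1 : ∀ x, S.eps (Ψ1.f 0 x) = cubEps ↥(Gc 1) x := fun x =>
    (hΨ _).trans (cubEps_map (iotaG c) x)
  have cf' : ∀ x, S.lin f (S.cx.d (j + 1) x) = 0 := by
    intro x
    rw [← S.lin_cb]
    have : S.cb f = fun _ => (0 : ℝ) := funext cf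
    rw [this, S.lin_zero]
  have jf : ∀ (g : ↥(GaS Φ 1)) x, S.lin f (S.cx.ρ (j + 1) (θ g) x) = S.lin f x := by
    intro g x
    rw [S.lin_ρ]
    congr 2
    funext s
    exact invf (θ g) s
  let ξ : (cubCx ↥(Gc 1)).M j →ₗ[ℚ] ℝ := ψ.comp ((cubMap (iotaG c)).f j)
  have iξ : ∀ (g : ↥(GaS Φ 1)) (x : (cubCx ↥(Gc 1)).M j),
      ξ ((cubCx ↥(Gc 1)).ρ j (g : ↥(Gc 1)) x) = ξ x := by
    intro g x
    show ψ ((cubMap (iotaG c)).f j ((cubCx ↥(Gc 1)).ρ j (g : ↥(Gc 1)) x)) =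
      ψ ((cubMap (iotaG c)).f j x)
    rw [(cubMap (iotaG c)).eqv j (g : ↥(Gc 1)) x]
    refine iψ (iotaG c g) ?_ _
    exact (mem_GaS _).2 (iota_mem_Ga.2 ((mem_GaS _).1 g.2))
  have eξ : ∀ x, S.lin f (Ψ1.f (j + 1) x) = ξ ((cubCx ↥(Gc 1)).d j x) := by
    intro x
    show S.lin f (Ψ.f (j + 1) ((cubMap (iotaG c)).f (j + 1) x)) =
      ψ ((cubMap (iotaG c)).f j ((cubCx ↥(Gc 1)).d j x))
    rw [(cubMap (iotaG c)).comm j x]
    have h1 := ef ((cubMap (iotaG c)).f (j + 1) x)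
    have h2 : φ' ((cubMap (iotaG c)).f (j + 1) x) = 0 := cubLin_map (iotaG c) φ hφ vφ x
    rw [h2, zero_add] at h1
    exact h1
  obtain ⟨η, iη, hη⟩ := repR_res ((cubCx ↥(Gc 1)).res (GaS Φ 1).subtype) S.cx (cubEps ↥(Gc 1)) S.eps θ
    (fun n => cub_eqlift ↥(Gc 1) (GaS Φ 1).subtype Subtype.val_injective n)
    (fun q => S.eqlift θ q fun s => by
      have h1 := ((YS_finAct (c := c + 1) hΦ q).stab s)
      refine (Set.Finite.preimage (f := fun g : ↥(GaS Φ 1) => θ g) ?_ h1).subset ?_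
      · intro a _ b _ hab
        exact Subtype.ext (hθi hab)
      · intro g hg
        exact ⟨(mem_GaS _).2 (iota_mem_Ga.2 ((mem_GaS _).1 g.2)), hg⟩)
    ((cub_acyc ↥(Gc 1)).res _) aS Ψ1 hΨ1 j (S.lin f) jf cf' ξ iξ eξ
  obtain ⟨h1, hh1, hh1'⟩ := S.exists_fun η
  have ih1 : ∀ (g : ↥(GaS Φ 1)) s, h1 (θ g • s) = h1 s := by
    intro g s
    rw [hh1', hh1']
    exact (congrArg η (S.cx_ρ_single _ (θ g) s 1)).symm.trans (iη g _)
  have fh1 : ∀ s, f s = S.cb h1 s := by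
    intro s
    refine S.lin_inj f (S.cb h1) (fun x => ?_) s
    rw [S.lin_cb, hh1]
    exact hη x
  obtain ⟨K, hK⟩ : ∃ K : (Fin j → ℕ) → ℝ, ∀ s : Y Φ 1 j, h1 (incY (c := c) s) = K (ty s) := by
    refine exists_type_fun (Φ := Φ) (c := 1) (fun s => h1 (incY (c := c) s)) fun s t hst => ?_
    obtain ⟨u, hu, e⟩ := Y1_trans s t hst
    let u' : ↥(GaS Φ 1) := ⟨⟨u, Ga_le_Gc Φ 1 hu⟩, (mem_GaS _).2 hu⟩
    have h2 := ih1 u' (incY (c := c) s)
    have h3 : (θ u' • (incY (c := c) s : S.Y j)) = incY (c := c) t := by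
      have h4 : iota c u • incY (c := c) s = incY (u • s) := iota_smul u s
      rw [e] at h4
      exact h4
    exact h2.symm.trans (congrArg h1 h3)
  have hFN : ∀ t : Fin (j + 1) → ℕ, (∀ i, 1 < t i) → (∏ i, t i) ∣ NN Φ → F t = dT j K t := by
    intro t h2 h3
    obtain ⟨s, rfl⟩ := ty_surj (Φ := Φ) (c := 1) t h2 (by rw [pow_one]; exact h3)
    rw [← cb_type (Φ := Φ) (c := 1) (fun s => h1 (incY (c := c) s)) K hK s, ← ty_incY (c := c) s,
      ← hF]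
    exact fh1 _
  obtain ⟨H, hH⟩ := trunc_bar (NN Φ) (c + 1) (NN_squarefree Φ) j F hFc K hFN
  let h : S.Y j → ℝ := fun s => H (ty (s : Y Φ (c + 1) j))
  have ih : Inv (GaS Φ (c + 1)) h := by
    intro g _ s
    let s' : Y Φ (c + 1) j := s
    show H (ty ((g : GL (Fin (c + 1)) E) • s')) = H (ty s')
    rw [ty_smul]
  have fh : ∀ s, f s = S.cb h s := by
    intro s
    have h2 := cb_type (Φ := Φ) (c := c + 1) h H (fun _ => rfl) s
    rw [hF s, hH _ (fun i => one_lt_ty (Φ := Φ) (c := c + 1) s i) (prod_ty_dvd (Φ := Φ) (c := c + 1) s), ← h2]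
    rfl
  have f0 : ∀ s, f s = 0 := last h ih fh
  have fin : ∀ x, φ' x = - ψ (P.d j x) := by
    intro x
    have h2 := ef x
    have h3 : f = fun _ => (0 : ℝ) := funext f0
    rw [h3, S.lin_zero] at h2
    linarith
  obtain ⟨ψf, z, e1, e2, e3⟩ := exists_cubfun (-ψ)
  refine ⟨ψf, ?_, z, ?_⟩
  · intro g hg x
    rw [← e2, e1]
    exact congrArg Neg.neg (iψ g ((mem_GaS g).2 hg) _)
  · intro x
    rw [← e3]
    have h2 := cubLin_single φ hφ x 1
    rw [Rat.cast_one, one_mul] at h2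
    rw [← h2]
    exact fin _

end St16H
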