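import Pool.Agent.LibSt16.LA2

/-!
Row [ST16 LA3] (SHORT/MEDIUM). Rotations: membership in On, block sums, base change.
Plan: Rt_mem: rotL_dot (with ((1-s^2)w)^2 + (2sw)^2 = 1, linear_combination), rotL_ee_ge.  Rt_add: au_ext on ee j: j = 2k or 2k+1
with k < n: shA_ee_lt, then rotL_ee_even/odd on both sides; j >= 2n, j = 2n + j': shA_ee_ge, shV of rotL (ee j') (rotL_ee_* and shV_ee), and
Rt n fixes ee i for i >= 2n.  bcA_Rt: au_ext, bcA_ee, rotL_ee_*, Finsupp.mapRange of sums of singles.  bcA_reA: au_ext; j = 2k: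
reA_reV with reV_ee; j = 2k+1: reV_iee; mapRange phi (reV B x) = reV C x (phi (algebraMap q) = algebraMap q by
RingHom.map_rat_algebraMap or Subsingleton of ring homs out of Q).
-/

set_option autoImplicit false

noncomputable section

namespace St16

private theorem LA3_add {B C : Type} [CommRing B] [CommRing C] (f : B →+* C) (x y : Vc B) :
    Finsupp.mapRange f (map_zero f) (x + y) =
      Finsupp.mapRange f (map_zero f) x + Finsupp.mapRange f (map_zero f) y := by
  ext i
  simp

private theorem LA3_sub {B C : Type} [CommRing B] [CommRing C] (f : B →+* C) (x y : Vc B) :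
    Finsupp.mapRange f (map_zero f) (x - y) =
      Finsupp.mapRange f (map_zero f) x - Finsupp.mapRange f (map_zero f) y := by
  ext i
  simp

private theorem LA3_smul {B C : Type} [CommRing B] [CommRing C] (f : B →+* C) (a : B) (j : ℕ) :
    Finsupp.mapRange f (map_zero f) (a • (ee j : Vc B)) = f a • (ee j : Vc C) := by
  unfold ee
  rw [Finsupp.smul_single, Finsupp.smul_single, Finsupp.mapRange_single, smul_eq_mul, smul_eq_mul,
    mul_one, mul_one]

private theorem LA3_ee {B C : Type} [CommRing B] [CommRing C] (f : B →+* C) (j : ℕ) :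
    Finsupp.mapRange f (map_zero f) (ee j : Vc B) = (ee j : Vc C) := by
  unfold ee
  rw [Finsupp.mapRange_single, map_one]

private theorem LA3_reV {B C : Type} [CommRing B] [CommRing C] [Algebra ℚ B] [Algebra ℚ C]
    (f : B →+* C) (x : Vc EE) : Finsupp.mapRange f (map_zero f) (reV B x) = reV C x := by
  induction x using Finsupp.induction_linear with
  | zero =>
    have h1 : reV B (0 : Vc EE) = 0 := Finsupp.sum_zero_index
    have h2 : reV C (0 : Vc EE) = 0 := Finsupp.sum_zero_index
    rw [h1, h2, Finsupp.mapRange_zero]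
  | add x y hx hy => rw [reV_add, LA3_add, hx, hy, reV_add]
  | single k z =>
    have h1 : ∀ (D : Type) [CommRing D] [Algebra ℚ D], reV D (Finsupp.single k z) =
        Finsupp.single (2 * k) (algebraMap ℚ D z.re) + Finsupp.single (2 * k + 1) (algebraMap ℚ D z.im) := by
      intro D _ _
      unfold reV
      rw [Finsupp.sum_single_index]
      rw [QuadraticAlgebra.re_zero, QuadraticAlgebra.im_zero, map_zero, Finsupp.single_zero,
        Finsupp.single_zero, add_zero]
    have h2 : ∀ q : ℚ, f (algebraMap ℚ B q) = algebraMap ℚ C q := fun q =>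
      RingHom.congr_fun (Subsingleton.elim (f.comp (algebraMap ℚ B)) (algebraMap ℚ C)) q
    rw [h1, h1, LA3_add, Finsupp.mapRange_single, Finsupp.mapRange_single, h2, h2]

theorem Rt_mem {B : Type} [CommRing B] (s w : B) (h : w * (1 + s ^ 2) = 1) (c : ℕ) :
    Rt s w h c ∈ On B (2 * c) := by
  refine ⟨fun x y => ?_, fun i hi => ?_⟩
  · rw [Rt_apply, Rt_apply]
    exact rotL_dot _ _ (by linear_combination (w * (1 + s ^ 2) + 1) * h) c x y
  · rw [Rt_apply]
    exact rotL_ee_ge _ _ c i hi

theorem Rt_add {B : Type} [CommRing B] (s w : B) (h : w * (1 + s ^ 2) = 1) (n m : ℕ) :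
    Rt s w h (n + m) = Rt s w h n * shA (2 * n) (Rt s w h m) := by
  apply au_ext
  intro i
  rw [LinearEquiv.mul_apply, Rt_apply]
  by_cases h1 : i < 2 * n
  · rw [shA_ee_lt (2 * n) _ i h1, Rt_apply]
    rcases Nat.even_or_odd' i with ⟨k, rfl | rfl⟩
    · rw [rotL_ee_even _ _ _ k (by omega), rotL_ee_even _ _ _ k (by omega)]
    · rw [rotL_ee_odd _ _ _ k (by omega), rotL_ee_odd _ _ _ k (by omega)]
  · obtain ⟨j, rfl⟩ : ∃ j, i = 2 * n + j := ⟨i - 2 * n, by omega⟩
    rw [shA_ee_ge, Rt_apply, Rt_apply]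
    by_cases h2 : j < 2 * m
    · rcases Nat.even_or_odd' j with ⟨k, rfl | rfl⟩
      · rw [rotL_ee_even _ _ m k (by omega), map_add, map_smul, map_smul, shV_ee, shV_ee, map_add,
          map_smul, map_smul, rotL_ee_ge _ _ n _ (by omega), rotL_ee_ge _ _ n _ (by omega),
          show 2 * n + 2 * k = 2 * (n + k) by ring, rotL_ee_even _ _ _ (n + k) (by omega),
          show 2 * n + (2 * k + 1) = 2 * (n + k) + 1 by ring]
      · rw [rotL_ee_odd _ _ m k (by omega), map_sub, map_smul, map_smul, shV_ee, shV_ee, map_sub,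
          map_smul, map_smul, rotL_ee_ge _ _ n _ (by omega), rotL_ee_ge _ _ n _ (by omega),
          show 2 * n + 2 * k = 2 * (n + k) by ring,
          show 2 * n + (2 * k + 1) = 2 * (n + k) + 1 by ring, rotL_ee_odd _ _ _ (n + k) (by omega)]
    · rw [rotL_ee_ge _ _ m j (by omega), shV_ee, rotL_ee_ge _ _ _ _ (by omega),
        rotL_ee_ge _ _ _ _ (by omega)]

theorem bcA_Rt {B C : Type} [CommRing B] [CommRing C] (f : B →+* C) (s w : B) (h : w * (1 + s ^ 2) = 1)
    (h' : f w * (1 + f s ^ 2) = 1) (c : ℕ) : bcA f (Rt s w h c) = Rt (f s) (f w) h' c := by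
  apply au_ext
  intro i
  have e1 : f ((1 - s ^ 2) * w) = (1 - f s ^ 2) * f w := by
    rw [map_mul, map_sub, map_one, map_pow]
  have e2 : f (-(2 * s * w)) = -(2 * f s * f w) := by
    rw [map_neg, map_mul, map_mul, map_ofNat]
  rw [bcA_ee, Rt_apply, Rt_apply]
  by_cases h2 : i < 2 * c
  · rcases Nat.even_or_odd' i with ⟨k, rfl | rfl⟩
    · rw [rotL_ee_even _ _ c k (by omega), rotL_ee_even _ _ c k (by omega), LA3_add, LA3_smul,
        LA3_smul, e1, e2]
    · rw [rotL_ee_odd _ _ c k (by omega), rotL_ee_odd _ _ c k (by omega), LA3_sub, LA3_smul,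
        LA3_smul, e1, e2]
  · rw [rotL_ee_ge _ _ c i (by omega), rotL_ee_ge _ _ c i (by omega), LA3_ee]

theorem bcA_reA33 {B C : Type} [CommRing B] [CommRing C] [Algebra ℚ B] [Algebra ℚ C] (f : B →+* C)
    (g : Au EE) : bcA f (reA B g) = reA C g := by
  apply au_ext
  intro i
  rw [bcA_ee]
  rcases Nat.even_or_odd' i with ⟨k, rfl | rfl⟩
  · rw [← reV_ee B, ← reV_ee C, reA_reV, reA_reV, LA3_reV]
  · rw [← reV_iee B, ← reV_iee C, reA_reV, reA_reV, LA3_reV]

end St16
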