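import Pool.Agent.LibSt16.LA2

/-!
Row [ST16 LA4] (SHORT/MEDIUM). Rotations commute with the unitary group.
Plan: au_ext.  Multiplication by i on Vc EE corresponds to J on the image of reV: reV B (i • x) (2k) = - reV B x (2k+1) etc.
For j = 2k, k < n: Rt (ee (2k)) = α ee(2k) + β ee(2k+1) = α reV (ee k) + β reV (i ee k); apply reA: α reV (g ee_k) + β reV (i g ee_k), and
on the other side Rt (reV (g ee_k)) with g ee_k supported < n (IsU_low): coordinates 2l, 2l+1 for l < n by rotL_even/odd, zero beyond.
j = 2k+1 the same; j >= 2n: everything fixed (hg.2.1).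
-/

set_option autoImplicit false

noncomputable section

namespace St16

private theorem LA4_zero (B : Type) [CommRing B] [Algebra ℚ B] : reV B (0 : Vc EE) = 0 := by
  unfold reV
  exact Finsupp.sum_zero_index

private theorem LA4_single (B : Type) [CommRing B] [Algebra ℚ B] (k : ℕ) (z : EE) :
    reV B (Finsupp.single k z) =
      Finsupp.single (2 * k) (algebraMap ℚ B z.re) + Finsupp.single (2 * k + 1) (algebraMap ℚ B z.im) := by
  unfold reV
  rw [Finsupp.sum_single_index]
  rw [QuadraticAlgebra.re_zero, QuadraticAlgebra.im_zero, map_zero, Finsupp.single_zero,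
    Finsupp.single_zero, add_zero]

private theorem LA4_even (B : Type) [CommRing B] [Algebra ℚ B] (x : Vc EE) (k : ℕ) :
    reV B x (2 * k) = algebraMap ℚ B (x k).re := by
  induction x using Finsupp.induction_linear with
  | zero => rw [LA4_zero, Finsupp.zero_apply, Finsupp.zero_apply, QuadraticAlgebra.re_zero, map_zero]
  | add x y hx hy =>
    rw [reV_add, Finsupp.add_apply, Finsupp.add_apply, hx, hy, QuadraticAlgebra.re_add, map_add]
  | single l z =>
    rw [LA4_single, Finsupp.add_apply, Finsupp.single_apply, Finsupp.single_apply, Finsupp.single_apply,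
      if_neg (show ¬ (2 * l + 1 = 2 * k) by omega), add_zero]
    by_cases h : l = k
    · rw [if_pos h, if_pos (by omega)]
    · rw [if_neg h, if_neg (by omega), QuadraticAlgebra.re_zero, map_zero]

private theorem LA4_odd (B : Type) [CommRing B] [Algebra ℚ B] (x : Vc EE) (k : ℕ) :
    reV B x (2 * k + 1) = algebraMap ℚ B (x k).im := by
  induction x using Finsupp.induction_linear with
  | zero => rw [LA4_zero, Finsupp.zero_apply, Finsupp.zero_apply, QuadraticAlgebra.im_zero, map_zero]
  | add x y hx hy =>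
    rw [reV_add, Finsupp.add_apply, Finsupp.add_apply, hx, hy, QuadraticAlgebra.im_add, map_add]
  | single l z =>
    rw [LA4_single, Finsupp.add_apply, Finsupp.single_apply, Finsupp.single_apply, Finsupp.single_apply,
      if_neg (show ¬ (2 * l = 2 * k + 1) by omega), zero_add]
    by_cases h : l = k
    · rw [if_pos h, if_pos (by omega)]
    · rw [if_neg h, if_neg (by omega), QuadraticAlgebra.im_zero, map_zero]

private theorem LA4_ire (z : EE) : ((⟨0, 1⟩ : EE) * z).re = - z.im := by
  rw [QuadraticAlgebra.re_mul]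
  ring

private theorem LA4_iim (z : EE) : ((⟨0, 1⟩ : EE) * z).im = z.re := by
  rw [QuadraticAlgebra.im_mul]
  ring

private theorem LA4_ii (B : Type) [CommRing B] [Algebra ℚ B] (x : Vc EE) :
    reV B ((⟨0, 1⟩ : EE) • (⟨0, 1⟩ : EE) • x) = - reV B x := by
  ext j
  rcases Nat.even_or_odd' j with ⟨k, rfl | rfl⟩
  · rw [LA4_even, Finsupp.neg_apply, LA4_even, Finsupp.smul_apply, Finsupp.smul_apply, smul_eq_mul, smul_eq_mul,
      LA4_ire, LA4_iim, map_neg]
  · rw [LA4_odd, Finsupp.neg_apply, LA4_odd, Finsupp.smul_apply, Finsupp.smul_apply, smul_eq_mul, smul_eq_mul,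
      LA4_iim, LA4_ire, map_neg]

private theorem LA4_rot {B : Type} [CommRing B] [Algebra ℚ B] (α β : B) (n : ℕ) (y : Vc EE)
    (hy : ∀ i, n ≤ i → y i = 0) :
    rotL α β n (reV B y) = α • reV B y + β • reV B ((⟨0, 1⟩ : EE) • y) := by
  ext j
  rw [Finsupp.add_apply, Finsupp.smul_apply, Finsupp.smul_apply, smul_eq_mul, smul_eq_mul]
  rcases Nat.even_or_odd' j with ⟨k, rfl | rfl⟩
  · by_cases hk : k < n
    · rw [rotL_even α β n k hk, LA4_even, LA4_odd, LA4_even, Finsupp.smul_apply, smul_eq_mul, LA4_ire, map_neg]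
      ring
    · rw [rotL_ge α β n _ (by omega), LA4_even, LA4_even, Finsupp.smul_apply, hy k (by omega), smul_zero,
        QuadraticAlgebra.re_zero, map_zero, mul_zero, mul_zero, add_zero]
  · by_cases hk : k < n
    · rw [rotL_odd α β n k hk, LA4_even, LA4_odd, LA4_odd, Finsupp.smul_apply, smul_eq_mul, LA4_iim]
      ring
    · rw [rotL_ge α β n _ (by omega), LA4_odd, LA4_odd, Finsupp.smul_apply, hy k (by omega), smul_zero,
        QuadraticAlgebra.im_zero, map_zero, mul_zero, mul_zero, add_zero]

private theorem LA4_low (c k : ℕ) (hk : k < c) : ∀ i, c ≤ i → (ee k : Vc EE) i = 0 := by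
  intro i hi
  unfold ee
  rw [Finsupp.single_apply, if_neg (by omega)]

theorem Rt_comm {B : Type} [CommRing B] [Algebra ℚ B] (s w : B) (h : w * (1 + s ^ 2) = 1) (n : ℕ) (g : Au EE)
    (hg : g ∈ Un n) : reA B g * Rt s w h n = Rt s w h n * reA B g := by
  have hU : IsU n g := hg
  apply au_ext
  intro i
  show reA B g (Rt s w h n (ee i)) = Rt s w h n (reA B g (ee i))
  rw [Rt_apply, Rt_apply]
  generalize (1 - s ^ 2) * w = α
  generalize -(2 * s * w) = β
  rcases Nat.even_or_odd' i with ⟨k, rfl | rfl⟩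
  · by_cases hk : k < n
    · have hy : ∀ i, n ≤ i → (g (ee k)) i = 0 := IsU_low n g hU _ (LA4_low n k hk)
      rw [rotL_ee_even α β n k hk, map_add, map_smul, map_smul, ← reV_iee B k, ← reV_ee B k, reA_reV, reA_reV,
        LA4_rot α β n _ hy, map_smul]
    · rw [rotL_ee_ge α β n _ (by omega), ← reV_ee B k, reA_reV, hU.2.1 k (by omega), reV_ee,
        rotL_ee_ge α β n _ (by omega)]
  · by_cases hk : k < n
    · have hy : ∀ i, n ≤ i → ((⟨0, 1⟩ : EE) • g (ee k)) i = 0 := by
        intro i hi
        rw [Finsupp.smul_apply, IsU_low n g hU _ (LA4_low n k hk) i hi, smul_zero]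
      rw [rotL_ee_odd α β n k hk, map_sub, map_smul, map_smul, ← reV_iee B k, ← reV_ee B k, reA_reV, reA_reV,
        map_smul, LA4_rot α β n _ hy, LA4_ii, smul_neg, sub_eq_add_neg]
    · rw [rotL_ee_ge α β n _ (by omega), ← reV_iee B k, reA_reV, map_smul, hU.2.1 k (by omega), reV_iee,
        rotL_ee_ge α β n _ (by omega)]

end St16
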