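import Pool.Agent.LibSt16.LA5

/-!
Row [ST16 LA6] (MEDIUM). The lattices Lam a b c: monotone, members of Ln, block sums.
Write ϖ = P.π, I = P.I, pl x k = x (2k) + I x (2k+1), mi x k = x (2k) - I x (2k+1).  2 x(2k) = pl + mi, 2 I x(2k+1) = pl - mi.
Lam_mono: ϖ^a = ϖ^(a-a') ϖ^(a'), a - a' a natural number.
Lam_mem: dual (2c) (Lam a b c) = Lam (-b) (-a) c: for x, y supported < 2c: dot x y = sum over k<c of (x(2k) y(2k) + x(2k+1) y(2k+1)) =
sum of (pl x k * mi y k + mi x k * pl y k)/2 (I^2 = -1).  If x in Lam (-b) (-a), y in Lam a b: every summand is in A (2 is a unit).  Conversely test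
x against the vector y of Lam a b c with pl y k = ϖ^a, mi y k = 0 (y = (ϖ^a/2)(ee(2k) + (1/I) ee(2k+1))) and with pl = 0, mi y k = ϖ^b.
Then 0 <= a+b gives Lam a b <= Lam (-b) (-a), and a+b <= 1 gives ϖ Lam (-b) (-a) <= Lam a b.  Boundedness: j = |a| + |b| works
(x in Mn: pl, mi in A, times ϖ^j in ϖ^a A; x in Lam: ϖ^j pl, ϖ^j mi in A, so 2 ϖ^j x(i) in A).
Lam_jn: x in Lam (n+m) is (x - shV (2n) (unV (2n) x)) + shV (2n) (unV (2n) x).
-/

set_option autoImplicit false

noncomputable section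

namespace St16

variable {A L : Type} [CommRing A] [IsDomain A] [IsDiscreteValuationRing A] [Field L] [Algebra A L]
  [IsFractionRing A L] (P : Place L A)

/-- the fractional ideal `ϖ^a A` -/
private def GG (a : ℤ) (z : L) : Prop := ∃ u : A, z = algebraMap A L u * algebraMap A L P.π ^ a

private theorem GG_mono {a a' : ℤ} (h : a' ≤ a) {z : L} (hz : GG P a z) : GG P a' z := by
  obtain ⟨u, rfl⟩ := hz
  obtain ⟨n, hn⟩ := Int.eq_ofNat_of_zero_le (sub_nonneg.2 h)
  refine ⟨u * P.π ^ n, ?_⟩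
  have ha : a = (n : ℤ) + a' := by omega
  rw [ha, zpow_add₀ (Place.pi_ne P), zpow_natCast, map_mul, map_pow, mul_assoc]

private theorem GG_mul {a b : ℤ} {z w : L} (hz : GG P a z) (hw : GG P b w) : GG P (a + b) (z * w) := by
  obtain ⟨u, rfl⟩ := hz
  obtain ⟨v, rfl⟩ := hw
  refine ⟨u * v, ?_⟩
  rw [zpow_add₀ (Place.pi_ne P), map_mul]
  ring

private theorem GG_add {a : ℤ} {z w : L} (hz : GG P a z) (hw : GG P a w) : GG P a (z + w) := by
  obtain ⟨u, rfl⟩ := hz
  obtain ⟨v, rfl⟩ := hw
  exact ⟨u + v, by rw [map_add, add_mul]⟩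

private theorem GG_neg {a : ℤ} {z : L} (hz : GG P a z) : GG P a (-z) := by
  obtain ⟨u, rfl⟩ := hz
  exact ⟨-u, by rw [map_neg, neg_mul]⟩

private theorem GG_zero (a : ℤ) : GG P a (0 : L) := ⟨0, by simp⟩

private theorem GG_int {z : L} : GG P 0 z ↔ ∃ u : A, algebraMap A L u = z := by
  constructor
  · rintro ⟨u, rfl⟩
    exact ⟨u, by simp⟩
  · rintro ⟨u, rfl⟩
    exact ⟨u, by simp⟩

private theorem GG_I : GG P 0 (P.I : L) := (GG_int P).2 ⟨P.i, rfl⟩

include P in
private theorem two_ne' : (2 : L) ≠ 0 := by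
  have h := (Place.two_unit P).map (algebraMap A L)
  rw [map_ofNat] at h
  exact h.ne_zero

private theorem GG_half : GG P 0 (2⁻¹ : L) := by
  obtain ⟨v, hv⟩ := Place.two_unit P
  refine (GG_int P).2 ⟨↑v⁻¹, ?_⟩
  have h : algebraMap A L (↑v⁻¹ : A) * 2 = 1 := by
    have h2 : (2 : L) = algebraMap A L (v : A) := by rw [hv, map_ofNat]
    rw [h2, ← map_mul, Units.inv_mul, map_one]
  exact eq_inv_of_mul_eq_one_left h

private theorem GG_pi (n : ℤ) : GG P n (algebraMap A L P.π ^ n) := ⟨1, by rw [map_one, one_mul]⟩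

private theorem GG_sum {ι : Type} (s : Finset ι) (f : ι → L) (a : ℤ) (h : ∀ i ∈ s, GG P a (f i)) :
    GG P a (∑ i ∈ s, f i) := by
  classical
  induction s using Finset.induction_on with
  | empty => rw [Finset.sum_empty]; exact GG_zero P a
  | insert i s hi ih =>
    rw [Finset.sum_insert hi]
    exact GG_add P (h i (Finset.mem_insert_self i s)) (ih fun j hj => h j (Finset.mem_insert_of_mem hj))

private theorem mem_Lam {a b : ℤ} {c : ℕ} {x : Vc L} :
    x ∈ Lam P.π P.I a b c ↔ (∀ i, 2 * c ≤ i → x i = 0) ∧ ∀ k, k < c →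
      GG P a (x (2 * k) + P.I * x (2 * k + 1)) ∧ GG P b (x (2 * k) - P.I * x (2 * k + 1)) :=
  Iff.rfl

theorem Lam_mono (a b a' b' : ℤ) (ha : a' ≤ a) (hb : b' ≤ b) (c : ℕ) :
    Lam P.π P.I a b c ≤ Lam P.π P.I a' b' c := by
  intro x hx
  rw [mem_Lam] at hx ⊢
  exact ⟨hx.1, fun k hk => ⟨GG_mono P ha (hx.2 k hk).1, GG_mono P hb (hx.2 k hk).2⟩⟩

private theorem I_mul_I : (P.I : L) * P.I = -1 := by
  rw [← sq]; exact Place.I_sq P

private theorem dot_pairs (c : ℕ) (x y : Vc L) (hx : ∀ i, 2 * c ≤ i → x i = 0) :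
    dot x y = ∑ k ∈ Finset.range c, (x (2 * k) * y (2 * k) + x (2 * k + 1) * y (2 * k + 1)) := by
  have h1 : dot x y = ∑ i ∈ Finset.range (2 * c), x i * y i := by
    unfold dot
    rw [Finsupp.sum]
    refine Finset.sum_subset ?_ ?_
    · intro i hi
      rw [Finset.mem_range]
      by_contra hcon
      exact (Finsupp.mem_support_iff.1 hi) (hx i (by omega))
    · intro i _ hi
      rw [Finsupp.notMem_support_iff.mp hi, zero_mul]
  rw [h1]
  clear h1 hx
  induction c with
  | zero => simp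
  | succ c ih =>
    rw [Finset.sum_range_succ _ c, ← ih, show 2 * (c + 1) = 2 * c + 1 + 1 by ring, Finset.sum_range_succ,
      Finset.sum_range_succ]
    ring

private theorem GG_re {a b : ℤ} {u v : L} (h1 : GG P a (u + P.I * v)) (h2 : GG P b (u - P.I * v)) {d : ℤ}
    (ha : d ≤ a) (hb : d ≤ b) : GG P d u ∧ GG P d v := by
  have h2ne := two_ne' P
  have e1 : u = 2⁻¹ * ((u + P.I * v) + (u - P.I * v)) := by field_simp; ring
  have e2 : v = P.I * (2⁻¹ * ((u - P.I * v) + -(u + P.I * v))) := by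
    have : P.I * (2⁻¹ * ((u - P.I * v) + -(u + P.I * v))) = -(P.I * P.I) * v := by field_simp; ring
    rw [this, I_mul_I]; ring
  have g1 := GG_mono P ha h1
  have g2 := GG_mono P hb h2
  constructor
  · have := GG_mul P (GG_half P) (GG_add P g1 g2)
    rw [zero_add] at this
    rw [e1]; exact this
  · have := GG_mul P (GG_I P) (GG_mul P (GG_half P) (GG_add P g2 (GG_neg P g1)))
    rw [zero_add, zero_add] at this
    rw [e2]; exact this

private theorem bounded (a b : ℤ) (c : ℕ) :
    ∃ j : ℕ, (∀ x ∈ Mn A (L := L) (2 * c), P.π ^ j • x ∈ Lam P.π P.I a b c) ∧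
      ∀ x ∈ Lam P.π P.I a b c, P.π ^ j • x ∈ (Mn A (2 * c) : Submodule A (Vc L)) := by
  refine ⟨a.natAbs + b.natAbs, ?_, ?_⟩
  · intro x hx
    rw [mem_Lam]
    refine ⟨fun i hi => ?_, fun k hk => ?_⟩
    · rw [Finsupp.smul_apply, (hx i).1 hi, smul_zero]
    · have e : ∀ i, GG P ((a.natAbs + b.natAbs : ℕ) : ℤ) ((P.π ^ (a.natAbs + b.natAbs) • x) i) := by
        intro i
        obtain ⟨u, hu⟩ := (hx i).2
        refine ⟨u, ?_⟩
        rw [Finsupp.smul_apply, Algebra.smul_def, map_pow, ← hu, zpow_natCast, mul_comm]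
      have e2 : GG P ((a.natAbs + b.natAbs : ℕ) : ℤ) (P.I * (P.π ^ (a.natAbs + b.natAbs) • x) (2 * k + 1)) := by
        have := GG_mul P (GG_I P) (e (2 * k + 1))
        rwa [zero_add] at this
      constructor
      · exact GG_mono P (by omega) (GG_add P (e _) e2)
      · rw [sub_eq_add_neg]
        exact GG_mono P (by omega) (GG_add P (e _) (GG_neg P e2))
  · intro x hx
    rw [mem_Lam] at hx
    have key : ∀ k, k < c → ∀ r, (r = 2 * k ∨ r = 2 * k + 1) →
        GG P 0 ((P.π ^ (a.natAbs + b.natAbs) • x) r) := by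
      intro k hk r hr
      obtain ⟨h1, h2⟩ := hx.2 k hk
      obtain ⟨g1, g2⟩ := GG_re P h1 h2 (d := -((a.natAbs + b.natAbs : ℕ) : ℤ)) (by omega) (by omega)
      have hs : ∀ z : L, GG P (-((a.natAbs + b.natAbs : ℕ) : ℤ)) z →
          GG P 0 (algebraMap A L (P.π ^ (a.natAbs + b.natAbs)) * z) := by
        intro z hz
        have := GG_mul P (GG_pi P ((a.natAbs + b.natAbs : ℕ) : ℤ)) hz
        rw [add_neg_cancel, zpow_natCast] at this
        rw [map_pow]; exact this
      rw [Finsupp.smul_apply, Algebra.smul_def]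
      rcases hr with rfl | rfl
      · exact hs _ g1
      · exact hs _ g2
    intro i
    refine ⟨fun hi => ?_, ?_⟩
    · rw [Finsupp.smul_apply, hx.1 i hi, smul_zero]
    · by_cases hi : 2 * c ≤ i
      · refine ⟨0, ?_⟩
        rw [Finsupp.smul_apply, hx.1 i hi, smul_zero, map_zero]
      · exact (GG_int P).1 (key (i / 2) (by omega) i (by omega))

private theorem ee_at (i j : ℕ) : (ee i : Vc L) j = if i = j then 1 else 0 := by
  classical
  unfold ee
  rw [Finsupp.single_apply]

private theorem test_mem (a b : ℤ) (c k : ℕ) (hk : k < c) :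
    (algebraMap A L P.π ^ a * 2⁻¹) • (ee (2 * k) - P.I • ee (2 * k + 1) : Vc L) ∈ Lam P.π P.I a b c ∧
    (algebraMap A L P.π ^ b * 2⁻¹) • (ee (2 * k) + P.I • ee (2 * k + 1) : Vc L) ∈ Lam P.π P.I a b c := by
  have hI := I_mul_I P
  have h2ne := two_ne' P
  constructor
  · rw [mem_Lam]
    refine ⟨fun i hi => ?_, fun l hl => ?_⟩
    · simp only [Finsupp.smul_apply, Finsupp.sub_apply, ee_at, smul_eq_mul]
      rw [if_neg (by omega), if_neg (by omega)]; ring
    · simp only [Finsupp.smul_apply, Finsupp.sub_apply, ee_at, smul_eq_mul]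
      by_cases h : k = l
      · subst h
        rw [if_pos rfl, if_neg (show ¬ (2 * k + 1 = 2 * k) by omega), if_neg (show ¬ (2 * k = 2 * k + 1) by omega),
          if_pos rfl]
        constructor
        · have : algebraMap A L P.π ^ a * 2⁻¹ * (1 - P.I * 0) + P.I * (algebraMap A L P.π ^ a * 2⁻¹ * (0 - P.I * 1)) =
              algebraMap A L P.π ^ a := by
            linear_combination (-(algebraMap A L P.π ^ a * 2⁻¹)) * hI + algebraMap A L P.π ^ a * (inv_mul_cancel₀ h2ne)
          rw [this]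
          exact GG_pi P a
        · have : algebraMap A L P.π ^ a * 2⁻¹ * (1 - P.I * 0) - P.I * (algebraMap A L P.π ^ a * 2⁻¹ * (0 - P.I * 1)) =
              0 := by
            linear_combination ((algebraMap A L P.π ^ a * 2⁻¹)) * hI
          rw [this]
          exact GG_zero P b
      · rw [if_neg (show ¬ (2 * k = 2 * l) by omega), if_neg (show ¬ (2 * k + 1 = 2 * l) by omega),
          if_neg (show ¬ (2 * k = 2 * l + 1) by omega), if_neg (show ¬ (2 * k + 1 = 2 * l + 1) by omega)]
        simp only [mul_zero, sub_zero, add_zero]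
        exact ⟨GG_zero P a, GG_zero P b⟩
  · rw [mem_Lam]
    refine ⟨fun i hi => ?_, fun l hl => ?_⟩
    · simp only [Finsupp.smul_apply, Finsupp.add_apply, ee_at, smul_eq_mul]
      rw [if_neg (by omega), if_neg (by omega)]; ring
    · simp only [Finsupp.smul_apply, Finsupp.add_apply, ee_at, smul_eq_mul]
      by_cases h : k = l
      · subst h
        rw [if_pos rfl, if_neg (show ¬ (2 * k + 1 = 2 * k) by omega), if_neg (show ¬ (2 * k = 2 * k + 1) by omega),
          if_pos rfl]
        constructor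
        · have : algebraMap A L P.π ^ b * 2⁻¹ * (1 + P.I * 0) + P.I * (algebraMap A L P.π ^ b * 2⁻¹ * (0 + P.I * 1)) =
              0 := by
            linear_combination ((algebraMap A L P.π ^ b * 2⁻¹)) * hI
          rw [this]
          exact GG_zero P a
        · have : algebraMap A L P.π ^ b * 2⁻¹ * (1 + P.I * 0) - P.I * (algebraMap A L P.π ^ b * 2⁻¹ * (0 + P.I * 1)) =
              algebraMap A L P.π ^ b := by
            linear_combination (-(algebraMap A L P.π ^ b * 2⁻¹)) * hI + algebraMap A L P.π ^ b * (inv_mul_cancel₀ h2ne)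
          rw [this]
          exact GG_pi P b
      · rw [if_neg (show ¬ (2 * k = 2 * l) by omega), if_neg (show ¬ (2 * k + 1 = 2 * l) by omega),
          if_neg (show ¬ (2 * k = 2 * l + 1) by omega), if_neg (show ¬ (2 * k + 1 = 2 * l + 1) by omega)]
        simp only [mul_zero, sub_zero, add_zero]
        exact ⟨GG_zero P a, GG_zero P b⟩

private theorem dot_test (x : Vc L) (s t : L) (i j : ℕ) :
    dot x (s • (ee i + t • ee j)) = s * (x i + t * x j) := by
  rw [dot_comm, dot_smul_left, dot_add_left, dot_smul_left, dot_comm (ee i), dot_comm (ee j), dot_ee_right,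
    dot_ee_right]

theorem Lam_mem (a b : ℤ) (h0 : 0 ≤ a + b) (h1 : a + b ≤ 1) (c : ℕ) :
    (Lam P.π P.I a b c : Lt A L) ∈ Ln P.π (2 * c) := by
  refine ⟨bounded P a b c, ?_, ?_⟩
  · intro x hx
    refine ⟨((mem_Lam P).1 hx).1, fun y hy => ?_⟩
    rw [mem_Lam] at hx hy
    rw [dot_pairs c x y hx.1]
    rw [← GG_int P]
    refine GG_sum P _ _ 0 fun k hk => ?_
    rw [Finset.mem_range] at hk
    obtain ⟨x1, x2⟩ := hx.2 k hk
    obtain ⟨y1, y2⟩ := hy.2 k hk
    have e : x (2 * k) * y (2 * k) + x (2 * k + 1) * y (2 * k + 1) =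
        2⁻¹ * ((x (2 * k) + P.I * x (2 * k + 1)) * (y (2 * k) - P.I * y (2 * k + 1)) +
          (x (2 * k) - P.I * x (2 * k + 1)) * (y (2 * k) + P.I * y (2 * k + 1))) := by
      have h2ne := two_ne' P
      have hI := I_mul_I P
      linear_combination (2⁻¹ * 2 * (x (2 * k + 1) * y (2 * k + 1))) * hI -
        (x (2 * k) * y (2 * k) + x (2 * k + 1) * y (2 * k + 1)) * (inv_mul_cancel₀ h2ne)
    rw [e]
    have g1 := GG_mono P h0 (GG_mul P x1 y2)
    have g2 := GG_mono P (show (0 : ℤ) ≤ b + a by omega) (GG_mul P x2 y1)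
    have := GG_mul P (GG_half P) (GG_add P g1 g2)
    rwa [zero_add] at this
  · rintro x ⟨hx0, hx⟩
    rw [mem_Lam]
    have h2ne := two_ne' P
    have hp := Place.pi_ne P
    refine ⟨fun i hi => ?_, fun k hk => ?_⟩
    · rw [Finsupp.smul_apply, hx0 i hi, smul_zero]
    · obtain ⟨t1, t2⟩ := test_mem P a b c k hk
      obtain ⟨u, hu⟩ := hx _ t1
      obtain ⟨v, hv⟩ := hx _ t2
      rw [sub_eq_add_neg, ← neg_smul, dot_test] at hu
      rw [dot_test] at hv
      have g1 : GG P (-a) (x (2 * k) - P.I * x (2 * k + 1)) := by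
        refine ⟨2 * u, ?_⟩
        rw [(algebraMap A L).map_mul, show algebraMap A L 2 = 2 from map_ofNat _ 2, hu, zpow_neg]
        have hpa : algebraMap A L P.π ^ a ≠ 0 := zpow_ne_zero _ hp
        field_simp
        ring
      have g2 : GG P (-b) (x (2 * k) + P.I * x (2 * k + 1)) := by
        refine ⟨2 * v, ?_⟩
        rw [(algebraMap A L).map_mul, show algebraMap A L 2 = 2 from map_ofNat _ 2, hv, zpow_neg]
        have hpa : algebraMap A L P.π ^ b ≠ 0 := zpow_ne_zero _ hp
        field_simp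
      have hp1 : GG P 1 (algebraMap A L P.π) := by
        have := GG_pi P (L := L) 1
        rwa [zpow_one] at this
      simp only [Finsupp.smul_apply, Algebra.smul_def]
      constructor
      · have := GG_mono P (show a ≤ 1 + -b by omega) (GG_mul P hp1 g2)
        have e : algebraMap A L P.π * x (2 * k) + P.I * (algebraMap A L P.π * x (2 * k + 1)) =
          algebraMap A L P.π * (x (2 * k) + P.I * x (2 * k + 1)) := by ring
        rw [e]; exact this
      · have := GG_mono P (show b ≤ 1 + -a by omega) (GG_mul P hp1 g1)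
        have e : algebraMap A L P.π * x (2 * k) - P.I * (algebraMap A L P.π * x (2 * k + 1)) =
          algebraMap A L P.π * (x (2 * k) - P.I * x (2 * k + 1)) := by ring
        rw [e]; exact this

private theorem shV_at' (n : ℕ) (x : Vc L) (i : ℕ) : (shV n x) (n + i) = x i :=
  Finsupp.mapDomain_apply (fun _ _ h => Nat.add_left_cancel h) x i

private theorem shV_lt' (n : ℕ) (x : Vc L) (i : ℕ) (hi : i < n) : (shV n x) i = 0 := by
  refine Finsupp.mapDomain_of_notMem_range x i ?_
  rintro ⟨j, hj⟩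
  simp only at hj
  omega

theorem Lam_jn (a b : ℤ) (n m : ℕ) :
    (Lam P.π P.I a b (n + m) : Lt A L) = jnL (2 * n) (Lam P.π P.I a b n) (Lam P.π P.I a b m) := by
  apply le_antisymm
  · intro x hx
    rw [mem_Lam] at hx
    have hun : ∀ i, (unV (2 * n) x) i = x (2 * n + i) := fun _ => rfl
    have hlow : ∀ i, i < 2 * n → (x - shV (2 * n) (unV (2 * n) x)) i = x i := by
      intro i hi
      rw [Finsupp.sub_apply, shV_lt' _ _ _ hi, sub_zero]
    have hhigh : ∀ i, 2 * n ≤ i → (x - shV (2 * n) (unV (2 * n) x)) i = 0 := by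
      intro i hi
      obtain ⟨j, rfl⟩ := Nat.exists_eq_add_of_le hi
      rw [Finsupp.sub_apply, shV_at', hun, sub_self]
    refine Submodule.mem_sup.2 ⟨x - shV (2 * n) (unV (2 * n) x), ?_, shV (2 * n) (unV (2 * n) x), ?_,
      sub_add_cancel _ _⟩
    · rw [mem_Lam]
      refine ⟨hhigh, fun k hk => ?_⟩
      rw [hlow _ (by omega), hlow _ (by omega)]
      exact hx.2 k (by omega)
    · refine Submodule.mem_map.2 ⟨unV (2 * n) x, ?_, rfl⟩
      rw [mem_Lam]
      refine ⟨fun i hi => ?_, fun k hk => ?_⟩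
      · rw [hun]; exact hx.1 _ (by omega)
      · have := hx.2 (n + k) (by omega)
        rw [hun, hun, show 2 * n + 2 * k = 2 * (n + k) by ring, show 2 * n + (2 * k + 1) = 2 * (n + k) + 1 by ring]
        exact this
  · refine sup_le ?_ ?_
    · intro x hx
      rw [mem_Lam] at hx ⊢
      refine ⟨fun i hi => hx.1 i (by omega), fun k hk => ?_⟩
      by_cases h : k < n
      · exact hx.2 k h
      · rw [hx.1 (2 * k) (by omega), hx.1 (2 * k + 1) (by omega), mul_zero, add_zero, sub_zero]
        exact ⟨GG_zero P a, GG_zero P b⟩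
    · rintro _ ⟨y, hy, rfl⟩
      have hy' : y ∈ Lam P.π P.I a b m := hy
      rw [mem_Lam] at hy'
      show shV (2 * n) y ∈ Lam P.π P.I a b (n + m)
      rw [mem_Lam]
      refine ⟨fun i hi => ?_, fun k hk => ?_⟩
      · obtain ⟨j, rfl⟩ := Nat.exists_eq_add_of_le (show 2 * n ≤ i by omega)
        rw [shV_at']
        exact hy'.1 j (by omega)
      · by_cases h : k < n
        · rw [shV_lt' _ _ _ (by omega), shV_lt' _ _ _ (by omega), mul_zero, add_zero, sub_zero]
          exact ⟨GG_zero P a, GG_zero P b⟩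
        · obtain ⟨l, rfl⟩ := Nat.exists_eq_add_of_le (Nat.le_of_not_lt h)
          rw [show 2 * (n + l) + 1 = 2 * n + (2 * l + 1) by ring, show 2 * (n + l) = 2 * n + 2 * l by ring,
            shV_at', shV_at']
          exact hy'.2 l (by omega)

end St16
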