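import Pool.Agent.LibSt16.LA5

/-!
Row [ST16 LA7] (MEDIUM). The lattices Lam a b n are stable under the unitary group U(n).
Plan: for z in EE put ev z = algebraMap z.re + I algebraMap z.im (a ring homomorphism EE -> L, since I^2 = -1), ev z in A (Place.gauss), and evc z = ev (star z).
For x supported < 2n and k < n:
 pl (reA g x) k = sum_(j<n) ev (g (ee j) k) * pl x j,   mi (reA g x) k = sum_(j<n) evc (g (ee j) k) * mi x j.
Proof: both sides linear in x; on x = ee(2j) = reV (ee j): reA_reV, coordinates of reV: reV y (2k) = algebraMap (y k).re, reV y (2k+1) = algebraMap (y k).im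
(private lemmas SY08_even, SY08_odd of SY08: copy them); on x = ee(2j+1) = reV (i ee j): pl = I, and y = i g ee_j has ev (y k) = I ev (g ee_j k).
Hence reA g maps Lam into Lam (and keeps the support < 2n: On_low with (reH L).G_mem).  Equality: apply this to g⁻¹ in Un n,
(reA g)⁻¹ = reA g⁻¹ ((reH L).G_mul, G_one).
-/

set_option autoImplicit false

noncomputable section

namespace St16

variable {A L : Type} [CommRing A] [IsDomain A] [IsDiscreteValuationRing A] [Field L] [Algebra A L]
  [IsFractionRing A L] (P : Place L A)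

private theorem LA7_single (B : Type) [CommRing B] [Algebra ℚ B] (k : ℕ) (z : EE) :
    reV B (Finsupp.single k z) =
      Finsupp.single (2 * k) (algebraMap ℚ B z.re) + Finsupp.single (2 * k + 1) (algebraMap ℚ B z.im) := by
  unfold reV
  rw [Finsupp.sum_single_index]
  rw [QuadraticAlgebra.re_zero, QuadraticAlgebra.im_zero, map_zero, Finsupp.single_zero,
    Finsupp.single_zero, add_zero]

private theorem LA7_zero (B : Type) [CommRing B] [Algebra ℚ B] : reV B (0 : Vc EE) = 0 := by
  unfold reV
  exact Finsupp.sum_zero_index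

private theorem LA7_even (B : Type) [CommRing B] [Algebra ℚ B] (x : Vc EE) (k : ℕ) :
    reV B x (2 * k) = algebraMap ℚ B (x k).re := by
  induction x using Finsupp.induction_linear with
  | zero => rw [LA7_zero, Finsupp.zero_apply, Finsupp.zero_apply, QuadraticAlgebra.re_zero, map_zero]
  | add x y hx hy =>
    rw [reV_add, Finsupp.add_apply, Finsupp.add_apply, hx, hy, QuadraticAlgebra.re_add, map_add]
  | single j z =>
    rw [LA7_single, Finsupp.add_apply, Finsupp.single_apply, Finsupp.single_apply,
      Finsupp.single_apply, if_neg (show ¬ (2 * j + 1 = 2 * k) by omega), add_zero]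
    by_cases h : j = k
    · rw [if_pos (by omega), if_pos h]
    · rw [if_neg (by omega), if_neg h, QuadraticAlgebra.re_zero, map_zero]

private theorem LA7_odd (B : Type) [CommRing B] [Algebra ℚ B] (x : Vc EE) (k : ℕ) :
    reV B x (2 * k + 1) = algebraMap ℚ B (x k).im := by
  induction x using Finsupp.induction_linear with
  | zero => rw [LA7_zero, Finsupp.zero_apply, Finsupp.zero_apply, QuadraticAlgebra.im_zero, map_zero]
  | add x y hx hy =>
    rw [reV_add, Finsupp.add_apply, Finsupp.add_apply, hx, hy, QuadraticAlgebra.im_add, map_add]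
  | single j z =>
    rw [LA7_single, Finsupp.add_apply, Finsupp.single_apply, Finsupp.single_apply,
      Finsupp.single_apply, if_neg (show ¬ (2 * j = 2 * k + 1) by omega), zero_add]
    by_cases h : j = k
    · rw [if_pos (by omega), if_pos h]
    · rw [if_neg (by omega), if_neg h, QuadraticAlgebra.im_zero, map_zero]

private theorem LA7_app_even {L : Type} [Field L] [Algebra ℚ L] (g : Au EE) (m i : ℕ) :
    reA L g (ee (2 * m)) i = reV L (g (ee m)) i := by
  rw [← reV_ee, reA_reV]

private theorem LA7_app_odd {L : Type} [Field L] [Algebra ℚ L] (g : Au EE) (m i : ℕ) :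
    reA L g (ee (2 * m + 1)) i = reV L ((⟨0, 1⟩ : EE) • g (ee m)) i := by
  rw [← reV_iee, reA_reV, map_smul]

private theorem LA7_key {L : Type} [Field L] [Algebra ℚ L] (I : L) (hI : I ^ 2 = -1) (n : ℕ)
    (g : Au EE) (hg : g ∈ Un n) (k : ℕ) (hk : k < n) (x : Vc L) :
    (reA L g x) (2 * k) + I * (reA L g x) (2 * k + 1) =
      ∑ j ∈ Finset.range n,
        (algebraMap ℚ L (g (ee j) k).re + I * algebraMap ℚ L (g (ee j) k).im) *
          (x (2 * j) + I * x (2 * j + 1)) := by
  induction x using Finsupp.induction_linear with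
  | zero => simp
  | add x y hx hy =>
    rw [map_add, Finsupp.add_apply, Finsupp.add_apply]
    have h1 : ∀ a b c d : L, a + b + I * (c + d) = (a + I * c) + (b + I * d) := by
      intro a b c d
      ring
    rw [h1, hx, hy, ← Finset.sum_add_distrib]
    refine Finset.sum_congr rfl fun j _ => ?_
    rw [Finsupp.add_apply, Finsupp.add_apply]
    ring
  | single i c =>
    have h0 : reA L g (Finsupp.single i c) = c • reA L g (ee i) := by
      rw [← map_smul]
      unfold ee
      rw [Finsupp.smul_single, smul_eq_mul, mul_one]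
    rw [h0, Finsupp.smul_apply, Finsupp.smul_apply, smul_eq_mul, smul_eq_mul]
    rcases Nat.even_or_odd' i with ⟨m, rfl | rfl⟩
    · rw [LA7_app_even, LA7_app_even, LA7_even, LA7_odd]
      have hs : ∀ j, (Finsupp.single (2 * m) c : Vc L) (2 * j) +
          I * (Finsupp.single (2 * m) c : Vc L) (2 * j + 1) = if j = m then c else 0 := by
        intro j
        rw [Finsupp.single_apply, Finsupp.single_apply, if_neg (show ¬ (2 * m = 2 * j + 1) by omega)]
        by_cases h : j = m
        · rw [if_pos (by omega), if_pos h, mul_zero, add_zero]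
        · rw [if_neg (by omega), if_neg h, mul_zero, add_zero]
      rw [Finset.sum_congr rfl fun j _ => by rw [hs j, mul_ite, mul_zero]]
      rw [Finset.sum_ite_eq' (Finset.range n) m]
      by_cases hm : m < n
      · rw [if_pos (Finset.mem_range.2 hm)]
        ring
      · rw [if_neg (fun h => hm (Finset.mem_range.1 h)), hg.2.1 m (by omega)]
        have h1 : (ee m : Vc EE) k = 0 := by
          unfold ee
          rw [Finsupp.single_apply, if_neg (by omega)]
        rw [h1, QuadraticAlgebra.re_zero, QuadraticAlgebra.im_zero, map_zero]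
        ring
    · rw [LA7_app_odd, LA7_app_odd, LA7_even, LA7_odd]
      have hs : ∀ j, (Finsupp.single (2 * m + 1) c : Vc L) (2 * j) +
          I * (Finsupp.single (2 * m + 1) c : Vc L) (2 * j + 1) = if j = m then I * c else 0 := by
        intro j
        rw [Finsupp.single_apply, Finsupp.single_apply, if_neg (show ¬ (2 * m + 1 = 2 * j) by omega)]
        by_cases h : j = m
        · rw [if_pos (by omega), if_pos h, zero_add]
        · rw [if_neg (by omega), if_neg h, mul_zero, add_zero]
      rw [Finset.sum_congr rfl fun j _ => by rw [hs j, mul_ite, mul_zero]]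
      rw [Finset.sum_ite_eq' (Finset.range n) m]
      have hre : (((⟨0, 1⟩ : EE) • g (ee m)) k).re = - (g (ee m) k).im := by
        rw [Finsupp.smul_apply, smul_eq_mul, QuadraticAlgebra.re_mul]
        show 0 * _ + (-1) * 1 * _ = _
        ring
      have him : (((⟨0, 1⟩ : EE) • g (ee m)) k).im = (g (ee m) k).re := by
        rw [Finsupp.smul_apply, smul_eq_mul, QuadraticAlgebra.im_mul]
        show 0 * _ + 1 * _ + 0 * 1 * _ = _
        ring
      rw [hre, him, map_neg]
      by_cases hm : m < n
      · rw [if_pos (Finset.mem_range.2 hm)]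
        linear_combination (-c * algebraMap ℚ L (g (ee m) k).im) * hI
      · rw [if_neg (fun h => hm (Finset.mem_range.1 h)), hg.2.1 m (by omega)]
        have h1 : (ee m : Vc EE) k = 0 := by
          unfold ee
          rw [Finsupp.single_apply, if_neg (by omega)]
        rw [h1, QuadraticAlgebra.re_zero, QuadraticAlgebra.im_zero, map_zero]
        ring

private theorem LA7_mem [Algebra ℚ L] (a b : ℤ) (n : ℕ) (g : Au EE) (hg : g ∈ Un n) (x : Vc L)
    (hx : x ∈ Lam P.π P.I a b n) : reA L g x ∈ Lam P.π P.I a b n := by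
  obtain ⟨hx1, hx2⟩ := hx
  have hI : P.I ^ 2 = -1 := P.I_sq
  have hI' : (-P.I) ^ 2 = -1 := by rw [neg_sq, hI]
  refine ⟨On_low (2 * n) (reA L g) ((reH L).G_mem n g hg) x hx1, fun k hk => ⟨?_, ?_⟩⟩
  · choose u hu using fun j (hj : j < n) => (hx2 j hj).1
    choose v hv using fun j => P.gauss (g (ee j) k)
    refine ⟨∑ j ∈ (Finset.range n).attach, v j * u j (Finset.mem_range.1 j.2), ?_⟩
    rw [LA7_key P.I hI n g hg k hk x, map_sum, Finset.sum_mul, ← Finset.sum_attach]
    refine Finset.sum_congr rfl fun j _ => ?_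
    rw [← hv, hu j (Finset.mem_range.1 j.2), map_mul]
    ring
  · choose u hu using fun j (hj : j < n) => (hx2 j hj).2
    choose v hv using fun j => P.gauss (⟨(g (ee j) k).re, -(g (ee j) k).im⟩ : EE)
    refine ⟨∑ j ∈ (Finset.range n).attach, v j * u j (Finset.mem_range.1 j.2), ?_⟩
    have h2 : (reA L g x) (2 * k) - P.I * (reA L g x) (2 * k + 1) =
        (reA L g x) (2 * k) + (-P.I) * (reA L g x) (2 * k + 1) := by ring
    rw [h2, LA7_key (-P.I) hI' n g hg k hk x, map_sum, Finset.sum_mul, ← Finset.sum_attach]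
    refine Finset.sum_congr rfl fun j _ => ?_
    have h3 : algebraMap ℚ L (g (ee (j : ℕ)) k).re + -P.I * algebraMap ℚ L (g (ee (j : ℕ)) k).im =
        algebraMap A L (v j) := by
      rw [hv]
      show _ = algebraMap ℚ L (g (ee (j : ℕ)) k).re + P.I * algebraMap ℚ L (-(g (ee (j : ℕ)) k).im)
      rw [map_neg]
      ring
    have h4 : x (2 * (j : ℕ)) + -P.I * x (2 * (j : ℕ) + 1) =
        algebraMap A L (u j (Finset.mem_range.1 j.2)) * algebraMap A L P.π ^ b := by
      rw [← hu j (Finset.mem_range.1 j.2)]
      ring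
    rw [h3, h4, map_mul]
    ring

theorem Lam_st [Algebra ℚ L] (a b : ℤ) (n : ℕ) (g : Au EE) (hg : g ∈ Un n) :
    reA L g • (Lam P.π P.I a b n : Lt A L) = Lam P.π P.I a b n := by
  have hg' : g⁻¹ ∈ Un n := (Un n).inv_mem hg
  apply le_antisymm
  · rintro _ ⟨x, hx, rfl⟩
    exact LA7_mem P a b n g hg x hx
  · intro y hy
    refine ⟨reA L g⁻¹ y, LA7_mem P a b n g⁻¹ hg' y hy, ?_⟩
    show reA L g (reA L g⁻¹ y) = y
    have h1 : reA L (g * g⁻¹) = reA L g * reA L g⁻¹ := (reH L).G_mul n g g⁻¹ hg hg'
    have h2 : reA L (1 : Au EE) = 1 := (reH L).G_one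
    rw [mul_inv_cancel, h2] at h1
    exact (congrArg (fun f : Au L => f y) h1).symm

end St16
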