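import Pool.Agent.LibSt16.LA1

/-!
LibSt16/LA2 (helper33): the automorphism Rt s w c = rotation by t^(-1), t = (1 + s J)/(1 - s J), w = 1/(1+s^2).
-/

set_option autoImplicit false

noncomputable section

namespace St16

/-- the rotation by `(1 - s J)/(1 + s J)` of the first `c` coordinate pairs (`w` inverse of `1 + s^2`) -/
def Rt {B : Type} [CommRing B] (s w : B) (h : w * (1 + s ^ 2) = 1) (c : ℕ) : Au B :=
  LinearEquiv.ofLinearMap (rotL ((1 - s ^ 2) * w) (-(2 * s * w)) c) (rotL ((1 - s ^ 2) * w) (2 * s * w) c)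
    (by
      rw [rotL_mul, ← rotL_one c]
      congr 1
      · linear_combination (w * (1 + s ^ 2) + 1) * h
      · ring)
    (by
      rw [rotL_mul, ← rotL_one c]
      congr 1
      · linear_combination (w * (1 + s ^ 2) + 1) * h
      · ring)

theorem Rt_apply {B : Type} [CommRing B] (s w : B) (h : w * (1 + s ^ 2) = 1) (c : ℕ) (x : Vc B) :
    Rt s w h c x = rotL ((1 - s ^ 2) * w) (-(2 * s * w)) c x := rfl

theorem Rt_inv_apply {B : Type} [CommRing B] (s w : B) (h : w * (1 + s ^ 2) = 1) (c : ℕ) (x : Vc B) :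
    (Rt s w h c)⁻¹ x = rotL ((1 - s ^ 2) * w) (2 * s * w) c x := rfl

end St16
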