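import Pool.Agent.LibSt16.LA5
import Pool.Agent.LibSt16.LA2

/-!
Row [ST16 LA8] (MEDIUM). t maps Lam (-e) e onto Lam 0 0.
Plan: t = (Rt S W c)⁻¹ acts by rotL α β with α = (1-S^2) W, β = 2 S W (Rt_inv_apply); rotL_even/odd: pl (t x) k = (α + I β) pl x k,
mi (t x) k = (α - I β) mi x k, and α + I β = (1 + I S)^2 W = (1 + I S)/(1 - I S) with 1 + I S = I (S - I) = I u π^e, 1 - I S = -I (S + I)
(I^2 = -1), S + I a unit of A: α + I β = - (S - I)/(S + I) = unit * π^e; α - I β = its inverse = unit * π^(-e).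
So x in Lam (-e) e iff t x in Lam 0 0 (support: rotL_ge); set equality: y in Lam 0 0 is t (t⁻¹ y).
-/

set_option autoImplicit false

noncomputable section

namespace St16

variable {A L : Type} [CommRing A] [IsDomain A] [IsDiscreteValuationRing A] [Field L] [Algebra A L]
  [IsFractionRing A L] (P : Place L A)

omit [CommRing A] [IsDomain A] [IsDiscreteValuationRing A] [Algebra A L] [IsFractionRing A L] in
private theorem LA8_pl (α β I : L) (hI : I ^ 2 = -1) (c k : ℕ) (hk : k < c) (x : Vc L) :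
    (rotL α β c x) (2 * k) + I * (rotL α β c x) (2 * k + 1) =
      (α + I * β) * (x (2 * k) + I * x (2 * k + 1)) := by
  rw [rotL_even α β c k hk x, rotL_odd α β c k hk x]
  linear_combination (-β * x (2 * k + 1)) * hI

omit [CommRing A] [IsDomain A] [IsDiscreteValuationRing A] [Algebra A L] [IsFractionRing A L] in
private theorem LA8_mi (α β I : L) (hI : I ^ 2 = -1) (c k : ℕ) (hk : k < c) (x : Vc L) :
    (rotL α β c x) (2 * k) - I * (rotL α β c x) (2 * k + 1) =
      (α - I * β) * (x (2 * k) - I * x (2 * k + 1)) := by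
  rw [rotL_even α β c k hk x, rotL_odd α β c k hk x]
  linear_combination (-β * x (2 * k + 1)) * hI

private theorem LA8_unit : ∃ a1 a2 : A,
    (1 - P.S ^ 2) * P.W + P.I * (2 * P.S * P.W) = algebraMap A L a1 * algebraMap A L P.π ^ (P.e : ℤ) ∧
    (1 - P.S ^ 2) * P.W - P.I * (2 * P.S * P.W) = algebraMap A L a2 * algebraMap A L P.π ^ (-(P.e : ℤ)) := by
  obtain ⟨v, hv⟩ := P.sum_unit
  have hI := P.I_sq
  have hW := P.hW
  have hπ := P.pi_ne
  have hπe : algebraMap A L P.π ^ P.e ≠ 0 := pow_ne_zero _ hπ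
  have hU : algebraMap A L P.u * algebraMap A L (P.u⁻¹ : Aˣ) = 1 := by
    rw [← map_mul, Units.mul_inv, map_one]
  have hV : algebraMap A L v * algebraMap A L (v⁻¹ : Aˣ) = 1 := by
    rw [← map_mul, Units.mul_inv, map_one]
  have hD1 : P.S - P.I = algebraMap A L P.u * algebraMap A L P.π ^ P.e := by
    rw [← map_pow, ← map_mul, ← P.es, map_sub]
    rfl
  have hD2 : P.S + P.I = algebraMap A L v := by
    rw [hv, map_add]
    rfl
  have hU0 : algebraMap A L P.u ≠ 0 := left_ne_zero_of_mul_eq_one hU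
  have hV0 : algebraMap A L v ≠ 0 := left_ne_zero_of_mul_eq_one hV
  refine ⟨-(P.u * (v⁻¹ : Aˣ)), -(v * (P.u⁻¹ : Aˣ)), ?_, ?_⟩
  · apply mul_left_cancel₀ hV0
    rw [zpow_natCast, map_neg, map_mul]
    have e1 : algebraMap A L v * ((1 - P.S ^ 2) * P.W + P.I * (2 * P.S * P.W)) = -(P.S - P.I) := by
      rw [← hD2]
      linear_combination (-(P.S - P.I)) * hW + 2 * P.W * P.S * hI
    rw [e1, hD1]
    linear_combination (algebraMap A L P.u * algebraMap A L P.π ^ P.e) * hV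
  · apply mul_left_cancel₀ (mul_ne_zero hU0 hπe)
    rw [zpow_neg, zpow_natCast, map_neg, map_mul]
    have e1 : (algebraMap A L P.u * algebraMap A L P.π ^ P.e) *
        ((1 - P.S ^ 2) * P.W - P.I * (2 * P.S * P.W)) = -(P.S + P.I) := by
      rw [← hD1]
      linear_combination (-(P.S + P.I)) * hW + 2 * P.W * P.S * hI
    rw [e1, hD2]
    have e2 : algebraMap A L P.π ^ P.e * (algebraMap A L P.π ^ P.e)⁻¹ = 1 := mul_inv_cancel₀ hπe
    linear_combination (algebraMap A L v * algebraMap A L P.π ^ P.e * (algebraMap A L P.π ^ P.e)⁻¹) * hU +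
      (algebraMap A L v) * e2

theorem Rt_Lam (c : ℕ) :
    (Rt P.S P.W P.hW c)⁻¹ • (Lam P.π P.I (-(P.e : ℤ)) (P.e : ℤ) c : Lt A L) = Lam P.π P.I 0 0 c := by
  obtain ⟨a1, a2, h1, h2⟩ := LA8_unit P
  have hI := P.I_sq
  have hπ := P.pi_ne
  have hz : algebraMap A L P.π ^ (P.e : ℤ) * algebraMap A L P.π ^ (-(P.e : ℤ)) = 1 := by
    rw [← zpow_add₀ hπ, add_neg_cancel, zpow_zero]
  ext y
  constructor
  · rintro ⟨x, ⟨hx0, hx⟩, rfl⟩
    have e0 : ((Rt P.S P.W P.hW c)⁻¹ : Au L).toLinearMap.restrictScalars A x =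
      rotL ((1 - P.S ^ 2) * P.W) (2 * P.S * P.W) c x := rfl
    rw [e0]
    refine ⟨fun i hi => ?_, fun k hk => ?_⟩
    · rw [rotL_ge _ _ _ _ hi]
      exact hx0 i hi
    · obtain ⟨⟨u, hu⟩, v, hv⟩ := hx k hk
      refine ⟨⟨a1 * u, ?_⟩, a2 * v, ?_⟩
      · rw [LA8_pl _ _ _ hI c k hk, h1, hu, zpow_zero, mul_one, map_mul]
        linear_combination (algebraMap A L a1 * algebraMap A L u) * hz
      · rw [LA8_mi _ _ _ hI c k hk, h2, hv, zpow_zero, mul_one, map_mul]
        linear_combination (algebraMap A L a2 * algebraMap A L v) * hz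
  · rintro ⟨hy0, hy⟩
    refine ⟨Rt P.S P.W P.hW c y, ?_, (Rt P.S P.W P.hW c).symm_apply_apply y⟩
    rw [Rt_apply]
    refine ⟨fun i hi => ?_, fun k hk => ?_⟩
    · rw [rotL_ge _ _ _ _ hi]
      exact hy0 i hi
    · obtain ⟨⟨u, hu⟩, v, hv⟩ := hy k hk
      rw [zpow_zero, mul_one] at hu hv
      refine ⟨⟨a2 * u, ?_⟩, a1 * v, ?_⟩
      · rw [LA8_pl _ _ _ hI c k hk, hu, map_mul]
        linear_combination (algebraMap A L u) * h2
      · rw [LA8_mi _ _ _ hI c k hk, hv, map_mul]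
        linear_combination (algebraMap A L v) * h1

end St16
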