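import Pool.Agent.LibSt16.Th
import Pool.Agent.LibSt16.LA3
import Pool.Agent.LibSt16.LA4
import Pool.Agent.LibSt16.LA6
import Pool.Agent.LibSt16.LA7
import Pool.Agent.LibSt16.LA8

/-!
LibSt16/HtL (helper33): composition of a homotopy with a morphism of degree 1, the homotopies HtS (orthogonal groups, tau = t^(-1)) and
Hstep (lattices), the chain Xh.  Page section 5.
-/

set_option autoImplicit false

noncomputable section

namespace St16

section comp

variable {G P G' P' G'' P'' : Type} [Group G] [Preorder P] [MulAction G P] [Group G'] [Preorder P'] [MulAction G' P']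
  [Group G''] [Preorder P''] [MulAction G'' P''] {S : Sys G P} {S' : Sys G' P'} {S'' : Sys G'' P''} {d : ℕ}

/-- composition of homotopy data with a morphism which does not change the rank -/
def Hty.comp (H : Hty S S' d) (f : SHom S' S'' 1) : Hty S S'' d where
  fG := fun g => f.fG (H.fG g)
  L0 := fun n => f.fP (d * n) (H.L0 n)
  L1 := fun n => f.fP (d * n) (H.L1 n)
  tau := fun n => f.fG (H.tau n)
  d_pos := H.d_pos
  G_mem := fun n g hg => by
    have h := f.G_mem _ _ (H.G_mem n g hg)
    rwa [one_mul] at h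
  G_one := by rw [H.G_one, f.G_one]
  G_mul := fun n g h hg hh => by
    rw [H.G_mul n g h hg hh, f.G_mul _ _ _ (H.G_mem n g hg) (H.G_mem n h hh)]
  G_sh := fun n m g h hg hh => by
    rw [H.G_sh n m g h hg hh, f.G_sh (d * n) (d * m) _ _ (H.G_mem n g hg) (H.G_mem m h hh), one_mul]
  L0_mem := fun n => by
    have h := f.P_mem _ _ (H.L0_mem n)
    rwa [one_mul] at h
  L1_mem := fun n => by
    have h := f.P_mem _ _ (H.L1_mem n)
    rwa [one_mul] at h
  tau_mem := fun n => by
    have h := f.G_mem _ _ (H.tau_mem n)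
    rwa [one_mul] at h
  L_le := fun n => f.P_mono _ _ _ (H.L0_mem n) (H.L1_mem n) (H.L_le n)
  L0_jn := fun n m => by
    have h := f.P_jn (d * n) (d * m) _ _ (H.L0_mem n) (H.L0_mem m)
    rw [one_mul] at h
    rw [H.L0_jn, Nat.mul_add, h]
  L1_jn := fun n m => by
    have h := f.P_jn (d * n) (d * m) _ _ (H.L1_mem n) (H.L1_mem m)
    rw [one_mul] at h
    rw [H.L1_jn, Nat.mul_add, h]
  tau_sh := fun n m => by
    rw [H.tau_sh n m, f.G_sh (d * n) (d * m) _ _ (H.tau_mem n) (H.tau_mem m), one_mul]
  L0_st := fun n g hg => by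
    rw [← f.P_smul _ _ _ (H.G_mem n g hg) (H.L0_mem n), H.L0_st n g hg]
  L1_st := fun n g hg => by
    rw [← f.P_smul _ _ _ (H.G_mem n g hg) (H.L1_mem n), H.L1_st n g hg]
  tau_comm := fun n g hg => by
    rw [← f.G_mul _ _ _ (H.G_mem n g hg) (H.tau_mem n), H.tau_comm n g hg,
      f.G_mul _ _ _ (H.tau_mem n) (H.G_mem n g hg)]

end comp

/-- the homotopy over a commutative ring: realification, tau = t^(-1) -/
def HtS (B : Type) [CommRing B] [Algebra ℚ B] (s w : B) (h : w * (1 + s ^ 2) = 1) : Hty sysU (sysO B) 2 where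
  fG := reA B
  L0 := fun _ => PUnit.unit
  L1 := fun _ => PUnit.unit
  tau := Rt s w h
  d_pos := Nat.two_pos
  G_mem := (reH B).G_mem
  G_one := (reH B).G_one
  G_mul := (reH B).G_mul
  G_sh := (reH B).G_sh
  L0_mem := fun _ => trivial
  L1_mem := fun _ => trivial
  tau_mem := Rt_mem s w h
  L_le := fun _ => le_rfl
  L0_jn := fun _ _ => rfl
  L1_jn := fun _ _ => rfl
  tau_sh := Rt_add s w h
  L0_st := fun _ _ _ => rfl
  L1_st := fun _ _ _ => rfl
  tau_comm := fun n g hg => Rt_comm s w h n g hg

section lat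

variable {A L : Type} [CommRing A] [IsDomain A] [IsDiscreteValuationRing A] [Field L] [Algebra A L]
  [IsFractionRing A L] [Algebra ℚ L] (P : Place L A)

/-- `tau` of a step: `t^(-1)` if `r`, otherwise `1` -/
def tauP (r : Bool) (c : ℕ) : Au L := if r then Rt P.S P.W P.hW c else 1

/-- the step `j` of the zigzag: `L0 = Lam (-j) (j+1)`, `L1 = Lam (-j-1) (j+1)` for `up`, `Lam (-j) j` otherwise -/
def Hstep (j : ℕ) (up r : Bool) : Hty sysU (sysL L P.π P.irr) 2 where
  fG := reA L
  L0 := fun c => Lam P.π P.I (-(j : ℤ)) ((j : ℤ) + 1) c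
  L1 := fun c => if up then Lam P.π P.I (-(j : ℤ) - 1) ((j : ℤ) + 1) c else Lam P.π P.I (-(j : ℤ)) (j : ℤ) c
  tau := tauP P r
  d_pos := Nat.two_pos
  G_mem := (reH L).G_mem
  G_one := (reH L).G_one
  G_mul := (reH L).G_mul
  G_sh := (reH L).G_sh
  L0_mem := fun n => Lam_mem P _ _ (by omega) (by omega) n
  L1_mem := fun n => by
    cases up
    · exact Lam_mem P _ _ (by omega) (by omega) n
    · exact Lam_mem P _ _ (by omega) (by omega) n
  tau_mem := fun n => by
    cases r
    · exact one_mem _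
    · exact Rt_mem P.S P.W P.hW n
  L_le := fun n => by
    cases up
    · exact Lam_mono P _ _ _ _ (by omega) (by omega) n
    · exact Lam_mono P _ _ _ _ (by omega) (by omega) n
  L0_jn := fun n m => Lam_jn P _ _ n m
  L1_jn := fun n m => by
    cases up
    · exact Lam_jn P _ _ n m
    · exact Lam_jn P _ _ n m
  tau_sh := fun n m => by
    cases r
    · show (1 : Au L) = 1 * shA (2 * n) 1
      rw [map_one, mul_one]
    · exact Rt_add P.S P.W P.hW n m
  L0_st := fun n g hg => Lam_st P _ _ n g hg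
  L1_st := fun n g hg => by
    cases up
    · exact Lam_st P _ _ n g hg
    · exact Lam_st P _ _ n g hg
  tau_comm := fun n g hg => by
    cases r
    · show reA L g * 1 = 1 * reA L g
      rw [mul_one, one_mul]
    · exact Rt_comm P.S P.W P.hW n g hg

/-- the lifted chain -/
def Xh (y : BT sysU) : BT (sysL L P.π P.irr) :=
  ∑ j ∈ Finset.range P.e,
    ((Hstep P j true (decide (j + 1 = P.e))).Th y - (Hstep P j false false).Th y)

end lat

end St16
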