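import Pool.Agent.LibSt16.IDefs

/-!
ST16 IA1. Elementary facts on `OP Φ`.

Plan. `w_prime`: the norm of `w p` is the prime `p` (`w_mul_star`, `Zsqrtd.norm`), so `w p` is irreducible, hence prime
(`GaussianInt` is a Euclidean domain). `w_not_dvd_star`: if `w p` divides `star (w p)` then it divides
`w p + star (w p) = 2 re (w p)` and `p`; `p` does not divide `2 re (w p)` (`0 < re^2 < p`, `p` odd; take norms: `p ∣ 4 re^2`).
`w_not_dvd_w`: norms. `nu_coprime_star`: products of pairwise coprime primes. `exists_coprime_mul`: by induction on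
`Φ`, `WfDvdMonoid.max_power_factor` for each prime. `exists_pow_mul_mem`: `x = gi a / gi b` with `b ≠ 0` (common
denominator `n` of `x.re`, `x.im`), `b ∣ ν^k d`.
-/

namespace St16I

open Matrix QuadraticAlgebra

private theorem IA1_norm_w (p : P1) : (w p).norm = (p.1 : ℤ) := by
  have h := w_mul_star p
  rw [← Zsqrtd.norm_eq_mul_conj] at h
  have h2 : (((w p).norm : ℤ) : ℤ√(-1)) = (((p.1 : ℕ) : ℤ) : ℤ√(-1)) := by
    rw [h]; simp
  have h3 := congrArg Zsqrtd.re h2
  simpa using h3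

private theorem IA1_dvd_norm {x y : GaussianInt} (h : x ∣ y) : x.norm ∣ y.norm := by
  obtain ⟨z, rfl⟩ := h
  rw [Zsqrtd.norm_mul]
  exact Dvd.intro _ rfl

theorem w_prime (p : P1) : Prime (w p) := by
  rw [← irreducible_iff_prime]
  constructor
  · intro hu
    have h := Zsqrtd.norm_eq_one_iff.2 hu
    rw [IA1_norm_w, Int.natAbs_natCast] at h
    exact p.2.1.one_lt.ne' h
  · intro a b hab
    have h1 : p.1 = a.norm.natAbs * b.norm.natAbs := by
      have h2 : (w p).norm.natAbs = (a * b).norm.natAbs := by rw [← hab]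
      rw [IA1_norm_w, Int.natAbs_natCast, Zsqrtd.norm_mul, Int.natAbs_mul] at h2
      exact h2
    rcases p.2.1.eq_one_or_self_of_dvd a.norm.natAbs ⟨_, h1⟩ with h | h
    · exact Or.inl (Zsqrtd.norm_eq_one_iff.1 h)
    · refine Or.inr (Zsqrtd.norm_eq_one_iff.1 ?_)
      rw [h] at h1
      exact Nat.eq_of_mul_eq_mul_left p.2.1.pos (by rw [mul_one]; exact h1.symm)

private theorem IA1_eq_of_dvd {p q : P1} (h : (p.1 : ℤ) ∣ (q.1 : ℤ)) : p = q := by
  have h1 : p.1 ∣ q.1 := by exact_mod_cast h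
  exact Subtype.ext ((Nat.prime_dvd_prime_iff_eq p.2.1 q.2.1).1 h1)

theorem w_not_dvd_star (p q : P1) : ¬ w p ∣ star (w q) := by
  intro h
  have h1 := IA1_dvd_norm h
  rw [Zsqrtd.norm_conj, IA1_norm_w, IA1_norm_w] at h1
  obtain rfl := IA1_eq_of_dvd h1
  have h2 : w p ∣ w p + star (w p) := (dvd_refl _).add h
  have h3 : w p + star (w p) = ((2 * (w p).re : ℤ) : GaussianInt) := by
    ext
    · simp; ring
    · simp
  rw [h3] at h2
  have h4 := IA1_dvd_norm h2
  rw [IA1_norm_w, Zsqrtd.norm_intCast] at h4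
  have hp : Prime (p.1 : ℤ) := Nat.prime_iff_prime_int.1 p.2.1
  have h5 : (p.1 : ℤ) ∣ 2 * (w p).re := by
    rcases hp.dvd_or_dvd h4 with h | h <;> exact h
  have h6 : (p.1 : ℤ) ∣ (w p).re := by
    rcases hp.dvd_or_dvd h5 with h | h
    · exfalso
      have h7 : p.1 ∣ 2 := by exact_mod_cast h
      have h8 := (Nat.prime_dvd_prime_iff_eq p.2.1 Nat.prime_two).1 h7
      have h9 := p.2.2
      omega
    · exact h
  have hn := IA1_norm_w p
  rw [Zsqrtd.norm_def] at hn
  have hpos : (0 : ℤ) < p.1 := by exact_mod_cast p.2.1.pos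
  obtain ⟨r, hr⟩ := h6
  rcases eq_or_ne r 0 with h0 | h0
  · rw [hr, h0] at hn
    have h10 : (p.1 : ℤ) = (w p).im * (w p).im := by linarith
    have h11 : ¬ IsSquare (p.1 : ℤ) := hp.not_isSquare
    exact h11 ⟨_, h10⟩
  · have h12 : (1 : ℤ) ≤ r * r := by
      have := mul_self_pos.2 h0
      linarith
    have h13 : (0 : ℤ) ≤ (w p).im * (w p).im := mul_self_nonneg _
    have h14 : (1 : ℤ) < p.1 := by exact_mod_cast p.2.1.one_lt
    rw [hr] at hn
    have h15 := mul_le_mul_of_nonneg_left h12 (mul_self_nonneg (p.1 : ℤ))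
    have h16 := mul_lt_mul_of_pos_left h14 hpos
    nlinarith

theorem w_not_dvd_w {p q : P1} (h : p ≠ q) : ¬ w p ∣ w q := by
  intro h1
  have h2 := IA1_dvd_norm h1
  rw [IA1_norm_w, IA1_norm_w] at h2
  exact h (IA1_eq_of_dvd h2)

private theorem IA1_cop_nu {Φ : Finset P1} {a : GaussianInt} (h : ∀ p ∈ Φ, ¬ w p ∣ a) :
    IsCoprime a (nu Φ) := by
  unfold nu
  refine IsCoprime.prod_right fun p hp => ?_
  exact ((w_prime p).irreducible.coprime_iff_not_dvd.2 (h p hp)).symm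

theorem nu_coprime_star (Φ : Finset P1) : IsCoprime (nu Φ) (star (nu Φ)) := by
  have h1 : star (nu Φ) = ∏ p ∈ Φ, star (w p) := by
    unfold nu
    rw [star_prod]
  rw [h1]
  refine IsCoprime.prod_right fun q _ => ?_
  refine (IA1_cop_nu fun p _ => ?_).symm
  exact w_not_dvd_star p q

private theorem IA1_exists (Φ : Finset P1) {b : GaussianInt} (hb : b ≠ 0) :
    ∃ (k : ℕ) (d : GaussianInt), d ≠ 0 ∧ IsCoprime d (nu Φ) ∧ b ∣ nu Φ ^ k * d := by
  classical
  induction Φ using Finset.induction_on with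
  | empty => exact ⟨0, b, hb, by unfold nu; rw [Finset.prod_empty]; exact isCoprime_one_right, by simp⟩
  | insert p Φ hp ih =>
    obtain ⟨k, d, hd, hc, hbd⟩ := ih
    obtain ⟨n, d', hd', he⟩ := WfDvdMonoid.max_power_factor hd (w_prime p).irreducible
    have hnu : nu (insert p Φ) = w p * nu Φ := by
      unfold nu
      rw [Finset.prod_insert hp]
    refine ⟨k + n, d', ?_, ?_, ?_⟩
    · rintro rfl
      exact hd' (dvd_zero _)
    · rw [hnu]
      refine IsCoprime.mul_right ((w_prime p).irreducible.coprime_iff_not_dvd.2 hd').symm ?_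
      rw [he] at hc
      exact hc.of_mul_left_right
    · refine hbd.trans ?_
      rw [he, hnu]
      refine ⟨nu Φ ^ n * w p ^ k, ?_⟩
      rw [mul_pow, pow_add, pow_add]
      ring

theorem exists_coprime_mul (Φ : Finset P1) {b : GaussianInt} (hb : b ≠ 0) :
    ∃ (k : ℕ) (d : GaussianInt), IsCoprime d (nu Φ) ∧ b ∣ nu Φ ^ k * d := by
  obtain ⟨k, d, -, h1, h2⟩ := IA1_exists Φ hb
  exact ⟨k, d, h1, h2⟩

theorem gi_mem_OP (Φ : Finset P1) (a : GaussianInt) : gi a ∈ OP Φ :=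
  ⟨a, 1, isCoprime_one_left, by simp⟩

theorem nuE_mem_OP (Φ : Finset P1) : nuE Φ ∈ OP Φ := gi_mem_OP Φ _

/-- Each element of `E` is of the form `ν^(-k) r` with `r` in `OP`. -/
theorem exists_pow_mul_mem (Φ : Finset P1) (x : E) : ∃ k : ℕ, nuE Φ ^ k * x ∈ OP Φ := by
  have hn : ((x.re.den * x.im.den : ℕ) : GaussianInt) ≠ 0 := by
    exact_mod_cast Nat.mul_ne_zero x.re.den_ne_zero x.im.den_ne_zero
  obtain ⟨k, d, hd, c, hc⟩ := exists_coprime_mul Φ hn
  have hx : gi ((x.re.den * x.im.den : ℕ) : GaussianInt) * x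
      = gi ⟨x.re.num * x.im.den, x.im.num * x.re.den⟩ := by
    have e1 : (x.re.den : ℚ) * x.re = x.re.num := Rat.den_mul_eq_num x.re
    have e2 : (x.im.den : ℚ) * x.im = x.im.num := Rat.den_mul_eq_num x.im
    ext
    · rw [re_mul, gi_re, gi_im, gi_re]
      simp only [Zsqrtd.re_natCast, Zsqrtd.im_natCast]
      push_cast
      rw [← e1]; ring
    · rw [im_mul, gi_re, gi_im, gi_im]
      simp only [Zsqrtd.re_natCast, Zsqrtd.im_natCast]
      push_cast
      rw [← e2]; ring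
  refine ⟨k, c * ⟨x.re.num * x.im.den, x.im.num * x.re.den⟩, d, hd, ?_⟩
  rw [map_mul, ← hx]
  have h2 := congrArg gi hc
  rw [map_mul, map_mul, map_pow] at h2
  unfold nuE
  calc gi d * (gi (nu Φ) ^ k * x) = (gi (nu Φ) ^ k * gi d) * x := by ring
    _ = gi c * (gi ((x.re.den * x.im.den : ℕ) : GaussianInt) * x) := by rw [h2]; ring

/-- An element of `OP` which is not divisible by any `w p` is a unit of `OP`. -/
theorem inv_mem_OP {Φ : Finset P1} {x : E} (hx : x ∈ OP Φ) (h : ∀ p ∈ Φ, (gi (w p))⁻¹ * x ∉ OP Φ) (h0 : x ≠ 0) :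
    x⁻¹ ∈ OP Φ := by
  obtain ⟨a, b, hb, hab⟩ := hx
  refine ⟨b, a, IA1_cop_nu fun p hp hd => ?_, ?_⟩
  · obtain ⟨a', rfl⟩ := hd
    have hw : gi (w p) ≠ 0 := by
      rw [Ne, map_eq_zero_iff gi gi_injective]
      exact (w_prime p).ne_zero
    refine h p hp ⟨a', b, hb, ?_⟩
    rw [map_mul] at hab
    calc gi b * ((gi (w p))⁻¹ * x) = (gi (w p))⁻¹ * (gi b * x) := by ring
      _ = gi a' := by rw [hab, inv_mul_cancel_left₀ hw]
  · rw [← hab, mul_assoc, mul_inv_cancel₀ h0, mul_one]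

end St16I
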