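import Mathlib

/-!
MP_8b67e9, block I: the complex of the bounded strict chains of a poset. Definitions.
-/

namespace St16I

section
variable {P : Type*} [PartialOrder P]

/-- The strict chains `A_0 < ... < A_q ≤ u A_0`. -/
def BC (u : P → P) (q : ℕ) : Type _ := {s : Fin (q + 1) → P // StrictMono s ∧ s (Fin.last q) ≤ u (s 0)}

/-- The faces of the chains, for monotone `u`. -/
def BC.face {u : P → P} (hu : Monotone u) {q : ℕ} (i : Fin (q + 2)) (s : BC u (q + 1)) : BC u q :=
  ⟨fun k => s.1 (i.succAbove k), fun _ _ h => s.2.1 ((Fin.strictMono_succAbove i) h),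
    (s.2.1.monotone (Fin.le_last _)).trans (s.2.2.trans (hu (s.2.1.monotone (Fin.zero_le _))))⟩

/-- The boundary. -/
noncomputable def BC.bd {u : P → P} (hu : Monotone u) (q : ℕ) : (BC u (q + 1) →₀ ℚ) →ₗ[ℚ] (BC u q →₀ ℚ) :=
  Finsupp.lsum ℚ fun s => ∑ i : Fin (q + 2), ((-1 : ℚ) ^ (i : ℕ)) • Finsupp.lsingle (s.face hu i)

end

end St16I
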