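import Pool.Agent.LibSt16.IDefs2
import Pool.Agent.LibSt16.Sy

/-!
ST16 IBr1 (helper36). `Un c` (automorphisms of finitely supported vectors) is the group `Gc c` of matrices.
-/

namespace St16I

open Matrix QuadraticAlgebra St16

theorem mem_OZ_iff (x : E) : x ∈ OZ ↔ x ∈ ZZi := by
  constructor
  · rintro ⟨n, ⟨hn, hp⟩, a, b, ha, hb⟩
    refine ⟨n, hn, hp, ⟨a, b⟩, ?_⟩
    ext
    · rw [gi_re]
      have : ((n : E) * x).re = (n : ℚ) * x.re := by
        rw [re_mul, re_natCast, im_natCast]; ring
      rw [this, ha]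
    · rw [gi_im]
      have : ((n : E) * x).im = (n : ℚ) * x.im := by
        rw [im_mul, re_natCast, im_natCast]; ring
      rw [this, hb]
  · rintro ⟨n, hn, hp, z, hz⟩
    refine ⟨n, ⟨hn, hp⟩, z.re, z.im, ?_, ?_⟩
    · have h := congrArg QuadraticAlgebra.re hz
      rw [gi_re, re_mul, re_natCast, im_natCast] at h
      rw [h]; ring
    · have h := congrArg QuadraticAlgebra.im hz
      rw [gi_im, im_mul, re_natCast, im_natCast] at h
      rw [h]; ring

section
variable {c : ℕ}

/-- the linear map of a matrix, identity on the coordinates `≥ c` -/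
noncomputable def mL (c : ℕ) (A : Matrix (Fin c) (Fin c) E) : Vc EE →ₗ[EE] Vc EE :=
  Finsupp.linearCombination EE fun j =>
    if h : j < c then ∑ i : Fin c, A i ⟨j, h⟩ • (ee (i : ℕ) : Vc EE) else ee j

theorem mL_ee_lt (A : Matrix (Fin c) (Fin c) E) (j : Fin c) :
    mL c A (ee (j : ℕ)) = ∑ i : Fin c, A i j • (ee (i : ℕ) : Vc EE) := by
  unfold mL
  rw [show (ee (j : ℕ) : Vc EE) = Finsupp.single (j : ℕ) 1 from rfl, Finsupp.linearCombination_single, one_smul,
    dif_pos j.2]

theorem mL_ee_ge (A : Matrix (Fin c) (Fin c) E) {j : ℕ} (hj : c ≤ j) : mL c A (ee j) = ee j := by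
  unfold mL
  rw [show (ee j : Vc EE) = Finsupp.single j 1 from rfl, Finsupp.linearCombination_single, one_smul,
    dif_neg (by omega)]
  rfl

theorem hom_ext_ee {f g : Vc EE →ₗ[EE] Vc EE} (h : ∀ j, f (ee j) = g (ee j)) : f = g := by
  ext1 j
  ext1
  exact h j

theorem mL_mul (A B : Matrix (Fin c) (Fin c) E) : mL c (A * B) = mL c A ∘ₗ mL c B := by
  apply hom_ext_ee
  intro j
  rw [LinearMap.comp_apply]
  by_cases hj : j < c
  · have := mL_ee_lt B ⟨j, hj⟩
    have h2 := mL_ee_lt (A * B) ⟨j, hj⟩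
    simp only at this h2
    rw [this, h2, map_sum]
    simp_rw [map_smul, mL_ee_lt, Finset.smul_sum]
    rw [Finset.sum_comm]
    refine Finset.sum_congr rfl fun i _ => ?_
    rw [Matrix.mul_apply, Finset.sum_smul]
    refine Finset.sum_congr rfl fun k _ => ?_
    rw [smul_smul, mul_comm]
  · rw [mL_ee_ge _ (not_lt.1 hj), mL_ee_ge _ (not_lt.1 hj), mL_ee_ge _ (not_lt.1 hj)]

theorem mL_one : mL c (1 : Matrix (Fin c) (Fin c) E) = LinearMap.id := by
  apply hom_ext_ee
  intro j
  rw [LinearMap.id_apply]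
  by_cases hj : j < c
  · have h2 := mL_ee_lt (1 : Matrix (Fin c) (Fin c) E) ⟨j, hj⟩
    simp only at h2
    rw [h2, Finset.sum_eq_single (⟨j, hj⟩ : Fin c)]
    · rw [Matrix.one_apply_eq, one_smul]
    · intro i _ hi
      rw [Matrix.one_apply_ne hi, zero_smul]
    · intro h
      exact absurd (Finset.mem_univ _) h
  · rw [mL_ee_ge _ (not_lt.1 hj)]

/-- the automorphism of an invertible matrix -/
noncomputable def mA (c : ℕ) (g : GL (Fin c) E) : Au EE :=
  LinearEquiv.ofLinearMap (mL c (g : Matrix (Fin c) (Fin c) E)) (mL c (↑g⁻¹ : Matrix (Fin c) (Fin c) E))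
    (by rw [← mL_mul, ← Units.val_mul, mul_inv_cancel, Units.val_one, mL_one])
    (by rw [← mL_mul, ← Units.val_mul, inv_mul_cancel, Units.val_one, mL_one])

theorem mA_apply (g : GL (Fin c) E) (x : Vc EE) : mA c g x = mL c (g : Matrix (Fin c) (Fin c) E) x := rfl

theorem ee_apply (i j : ℕ) : (ee i : Vc EE) j = if i = j then 1 else 0 := by
  unfold ee
  rw [Finsupp.single_apply]

theorem mat_mA (g : GL (Fin c) E) : mat c (mA c g) = (g : Matrix (Fin c) (Fin c) E) := by
  ext1 i j
  change (mA c g (ee (j : ℕ)) : Vc EE) (i : ℕ) = _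
  rw [mA_apply, mL_ee_lt, Finsupp.finsetSum_apply, Finset.sum_eq_single i]
  · rw [Finsupp.smul_apply, ee_apply, if_pos rfl, smul_eq_mul, mul_one]
  · intro k _ hk
    rw [Finsupp.smul_apply, ee_apply, if_neg (fun h => hk (Fin.ext h)), smul_zero]
  · intro h
    exact absurd (Finset.mem_univ _) h

theorem mL_apply_lt (A : Matrix (Fin c) (Fin c) E) (j : ℕ) (i : ℕ) (hi : i < c) :
    (mL c A (ee j) : Vc EE) i = if h : j < c then A ⟨i, hi⟩ ⟨j, h⟩ else 0 := by
  by_cases hj : j < c
  · have := mL_ee_lt A ⟨j, hj⟩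
    simp only at this
    rw [dif_pos hj, this, Finsupp.finsetSum_apply, Finset.sum_eq_single (⟨i, hi⟩ : Fin c)]
    · rw [Finsupp.smul_apply, ee_apply, if_pos rfl, smul_eq_mul, mul_one]
    · intro k _ hk
      rw [Finsupp.smul_apply, ee_apply, if_neg (fun h => hk (Fin.ext h)), smul_zero]
    · intro h
      exact absurd (Finset.mem_univ _) h
  · rw [dif_neg hj, mL_ee_ge _ (not_lt.1 hj), ee_apply, if_neg (by omega)]

theorem mL_apply_ge (A : Matrix (Fin c) (Fin c) E) (j : ℕ) (i : ℕ) (hi : c ≤ i) :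
    (mL c A (ee j) : Vc EE) i = if i = j then 1 else 0 := by
  by_cases hj : j < c
  · have := mL_ee_lt A ⟨j, hj⟩
    simp only at this
    rw [this, Finsupp.finsetSum_apply, if_neg (by omega)]
    refine Finset.sum_eq_zero fun k _ => ?_
    rw [Finsupp.smul_apply, ee_apply, if_neg (by have := k.2; omega), smul_zero]
  · rw [mL_ee_ge _ (not_lt.1 hj), ee_apply]
    by_cases h : j = i
    · rw [if_pos h, if_pos h.symm]
    · rw [if_neg h, if_neg (fun h' => h h'.symm)]

theorem mL_mat {g : Au EE} (hg : IsU c g) : mL c (mat c g) = g.toLinearMap := by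
  apply hom_ext_ee
  intro j
  change mL c (mat c g) (ee j) = g (ee j)
  by_cases hj : j < c
  · ext1 i
    by_cases hi : i < c
    · rw [mL_apply_lt _ _ _ hi, dif_pos hj]
      rfl
    · rw [mL_apply_ge _ _ _ (not_lt.1 hi), if_neg (by omega)]
      exact (IsU_low c g hg (ee j) (fun k hk => by rw [ee_apply, if_neg (by omega)]) i (not_lt.1 hi)).symm
  · rw [mL_ee_ge _ (not_lt.1 hj), hg.2.1 j (not_lt.1 hj)]

theorem mat_one' (c : ℕ) : mat c (1 : Au EE) = 1 := by
  ext1 i j
  change (ee (j : ℕ) : Vc EE) (i : ℕ) = _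
  rw [ee_apply, Matrix.one_apply]
  by_cases h : i = j
  · rw [if_pos h, if_pos (by rw [h])]
  · rw [if_neg h, if_neg (fun h' => h (Fin.ext h').symm)]

theorem hdot_add_left' (x y z : Vc EE) : hdot (x + y) z = hdot x z + hdot y z := by
  unfold hdot
  rw [Finsupp.sum_add_index' (fun i => zero_mul _) (fun i b₁ b₂ => add_mul _ _ _)]

theorem hdot_add_right' (x y z : Vc EE) : hdot x (y + z) = hdot x y + hdot x z := by
  unfold hdot
  rw [← Finsupp.sum_add]
  refine Finset.sum_congr rfl fun i _ => ?_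
  simp only
  rw [Finsupp.add_apply, star_add, mul_add]

theorem hdot_smul_left' (a : EE) (x y : Vc EE) : hdot (a • x) y = a * hdot x y := by
  unfold hdot
  rw [Finsupp.sum_smul_index' (fun i => zero_mul _), Finsupp.mul_sum]
  refine Finset.sum_congr rfl fun i _ => ?_
  simp only
  rw [smul_eq_mul, mul_assoc]

theorem hdot_smul_right' (a : EE) (x y : Vc EE) : hdot x (a • y) = star a * hdot x y := by
  unfold hdot
  rw [Finsupp.mul_sum]
  refine Finset.sum_congr rfl fun i _ => ?_
  simp only
  rw [Finsupp.smul_apply, smul_eq_mul, star_mul']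
  ring

theorem hdot_zero_left' (y : Vc EE) : hdot 0 y = 0 := Finsupp.sum_zero_index

theorem hdot_zero_right' (x : Vc EE) : hdot x 0 = 0 := by
  unfold hdot
  refine Finset.sum_eq_zero fun i _ => ?_
  change x i * star ((0 : Vc EE) i) = 0
  rw [Finsupp.zero_apply, star_zero, mul_zero]

theorem hdot_of_basis {f : Vc EE →ₗ[EE] Vc EE}
    (h : ∀ i j, hdot (f (ee i)) (f (ee j)) = hdot (ee i : Vc EE) (ee j)) (x y : Vc EE) :
    hdot (f x) (f y) = hdot x y := by
  have e : ∀ (i : ℕ) (a : EE), (Finsupp.single i a : Vc EE) = a • ee i := by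
    intro i a
    unfold ee
    rw [Finsupp.smul_single, smul_eq_mul, mul_one]
  induction x using Finsupp.induction_linear with
  | zero => rw [map_zero, hdot_zero_left', hdot_zero_left']
  | add u v hu hv => rw [map_add, hdot_add_left', hdot_add_left', hu, hv]
  | single i a =>
    induction y using Finsupp.induction_linear with
    | zero => rw [map_zero, hdot_zero_right', hdot_zero_right']
    | add u v hu hv => rw [map_add, hdot_add_right', hdot_add_right', hu, hv]
    | single j b =>
      rw [e, e, map_smul, map_smul, hdot_smul_left', hdot_smul_right', h, hdot_smul_left', hdot_smul_right']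

theorem hdot_sum_left {ι : Type*} (s : Finset ι) (f : ι → Vc EE) (y : Vc EE) :
    hdot (∑ i ∈ s, f i) y = ∑ i ∈ s, hdot (f i) y := by
  classical
  induction s using Finset.induction_on with
  | empty => rw [Finset.sum_empty, Finset.sum_empty, hdot_zero_left']
  | insert a s ha ih => rw [Finset.sum_insert ha, Finset.sum_insert ha, hdot_add_left', ih]

theorem hdot_sum_right {ι : Type*} (s : Finset ι) (f : ι → Vc EE) (x : Vc EE) :
    hdot x (∑ i ∈ s, f i) = ∑ i ∈ s, hdot x (f i) := by
  classical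
  induction s using Finset.induction_on with
  | empty => rw [Finset.sum_empty, Finset.sum_empty, hdot_zero_right']
  | insert a s ha ih => rw [Finset.sum_insert ha, Finset.sum_insert ha, hdot_add_right', ih]

theorem hdot_ee_ee (i j : ℕ) : hdot (ee i : Vc EE) (ee j) = if i = j then 1 else 0 := by
  rw [hdot_ee_right, ee_apply]

theorem isU_mA {g : GL (Fin c) E} (hg : g ∈ Gc c) : IsU c (mA c g) := by
  refine ⟨?_, ?_, ?_⟩
  · intro x y
    refine hdot_of_basis (f := mL c (g : Matrix (Fin c) (Fin c) E)) ?_ x y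
    intro i j
    rw [hdot_ee_ee]
    by_cases hi : i < c
    · have h1 := mL_ee_lt (g : Matrix (Fin c) (Fin c) E) ⟨i, hi⟩
      simp only at h1
      by_cases hj : j < c
      · have h2 := mL_ee_lt (g : Matrix (Fin c) (Fin c) E) ⟨j, hj⟩
        simp only at h2
        rw [h1, h2, hdot_sum_left]
        have h3 : ∀ k : Fin c, hdot ((g : Matrix (Fin c) (Fin c) E) k ⟨i, hi⟩ • (ee (k : ℕ) : Vc EE))
            (∑ l : Fin c, (g : Matrix (Fin c) (Fin c) E) l ⟨j, hj⟩ • (ee (l : ℕ) : Vc EE)) =
            star ((g : Matrix (Fin c) (Fin c) E) k ⟨j, hj⟩) * (g : Matrix (Fin c) (Fin c) E) k ⟨i, hi⟩ := by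
          intro k
          rw [hdot_sum_right, Finset.sum_eq_single k]
          · rw [hdot_smul_left', hdot_smul_right', hdot_ee_ee, if_pos rfl]
            ring
          · intro l _ hl
            rw [hdot_smul_left', hdot_smul_right', hdot_ee_ee, if_neg (fun h => hl (Fin.ext h).symm)]
            ring
          · intro h
            exact absurd (Finset.mem_univ _) h
        simp_rw [h3]
        have h4 := congrFun (congrFun hg.1 ⟨j, hj⟩) ⟨i, hi⟩
        rw [Matrix.mul_apply] at h4
        simp_rw [conjTranspose_apply] at h4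
        rw [h4, Matrix.one_apply]
        by_cases hij : i = j
        · subst hij
          rw [if_pos rfl, if_pos rfl]
        · rw [if_neg (fun h => hij (by have := congrArg Fin.val h; simpa using this.symm)), if_neg hij]
      · rw [h1, mL_ee_ge _ (not_lt.1 hj), hdot_sum_left, if_neg (by omega)]
        refine Finset.sum_eq_zero fun k _ => ?_
        rw [hdot_smul_left', hdot_ee_ee, if_neg (by have := k.2; omega), mul_zero]
    · rw [mL_ee_ge _ (not_lt.1 hi)]
      by_cases hj : j < c
      · have h2 := mL_ee_lt (g : Matrix (Fin c) (Fin c) E) ⟨j, hj⟩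
        simp only at h2
        rw [h2, hdot_sum_right, if_neg (by omega)]
        refine Finset.sum_eq_zero fun k _ => ?_
        rw [hdot_smul_right', hdot_ee_ee, if_neg (by have := k.2; omega), mul_zero]
      · rw [mL_ee_ge _ (not_lt.1 hj), hdot_ee_ee]
  · intro i hi
    rw [mA_apply, mL_ee_ge _ hi]
  · intro i j
    rw [mA_apply]
    by_cases hi : i < c
    · rw [mL_apply_lt _ _ _ hi]
      split_ifs with hj
      · exact (mem_OZ_iff _).2 (hg.2 _ _)
      · exact OZ_zero
    · rw [mL_apply_ge _ _ _ (not_lt.1 hi)]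
      split_ifs with hj
      · exact OZ_one
      · exact OZ_zero

/-- the matrix of an element of `Un c` -/
noncomputable def mG (c : ℕ) (g : Un c) : Gc c :=
  ⟨⟨mat c g.1, mat c (g⁻¹ : Un c).1,
    by rw [← mat_mul c _ _ g.2 (g⁻¹ : Un c).2, ← Subgroup.coe_mul, mul_inv_cancel, Subgroup.coe_one]; exact mat_one' c,
    by rw [← mat_mul c _ _ (g⁻¹ : Un c).2 g.2, ← Subgroup.coe_mul, inv_mul_cancel, Subgroup.coe_one]; exact mat_one' c⟩,
    mat_unitary c g.1 g.2, fun i j => (mem_OZ_iff _).1 (g.2.2.2 _ _)⟩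

theorem mG_val (g : Un c) : ((mG c g : GL (Fin c) E) : Matrix (Fin c) (Fin c) E) = mat c g.1 := rfl

/-- `Un c` is the group `Gc c`. -/
noncomputable def eU (c : ℕ) : Un c ≃* Gc c where
  toFun := mG c
  invFun g := ⟨mA c g.1, isU_mA g.2⟩
  left_inv g := by
    apply Subtype.ext
    apply LinearEquiv.toLinearMap_injective
    exact mL_mat g.2
  right_inv g := by
    apply Subtype.ext
    apply Units.ext
    exact mat_mA g.1
  map_mul' g h := by
    apply Subtype.ext
    apply Units.ext
    exact mat_mul c g.1 h.1 g.2 h.2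

theorem eU_symm_val (g : Gc c) : ((eU c).symm g : Au EE) = mA c g.1 := rfl

theorem detT_eU_symm (g : Gc c) :
    ((detT ((eU c).symm g : Au EE) : TT) : E) = ((g : GL (Fin c) E) : Matrix (Fin c) (Fin c) E).det := by
  rw [detT_eq c _ ((eU c).symm g).2, eU_symm_val, mat_mA]

theorem detT_eq' (g : Un c) :
    ((detT (g : Au EE) : TT) : E) = (((eU c g : Gc c) : GL (Fin c) E) : Matrix (Fin c) (Fin c) E).det :=
  detT_eq c _ g.2

end

end St16I
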