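import Pool.Agent.LibSt16.IBr1
import Pool.Agent.LibSt16.HCub
import Pool.Agent.LibSt16.IG1
import Pool.Agent.LibSt16.ID1

/-!
ST16 IBr2 (helper36). The bridge from the vanishing statement `Van` to `KerExact detH`.
-/

set_option autoImplicit false

noncomputable section

namespace St16I

open Matrix QuadraticAlgebra St16 St16H

/-! ### Groups -/

/-- an element of norm one as a `1 × 1` matrix -/
def tG : TT →* ↥(Gc 1) where
  toFun t :=
    ⟨⟨Matrix.diagonal fun _ => (t : E), Matrix.diagonal fun _ => ((t⁻¹ : TT) : E),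
      by
        rw [Matrix.diagonal_mul_diagonal]
        have : ((t : E)) * ((t⁻¹ : TT) : E) = 1 := by
          rw [← Submonoid.coe_mul, mul_inv_cancel, Submonoid.coe_one]
        simp_rw [this]
        exact Matrix.diagonal_one,
      by
        rw [Matrix.diagonal_mul_diagonal]
        have : ((t⁻¹ : TT) : E) * ((t : E)) = 1 := by
          rw [← Submonoid.coe_mul, inv_mul_cancel, Submonoid.coe_one]
        simp_rw [this]
        exact Matrix.diagonal_one⟩,
      by
        have hs : star (t : E) * (t : E) = 1 := (Unitary.mem_iff.1 t.2).1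
        refine ⟨?_, ?_⟩
        · change (Matrix.diagonal fun _ => (t : E))ᴴ * (Matrix.diagonal fun _ => (t : E)) = 1
          rw [Matrix.diagonal_conjTranspose, Matrix.diagonal_mul_diagonal]
          have : (fun i : Fin 1 => (star fun _ : Fin 1 => (t : E)) i * (t : E)) = fun _ => 1 := funext fun _ => hs
          rw [this]
          exact Matrix.diagonal_one
        · intro i j
          change (Matrix.diagonal fun _ => (t : E) : Matrix (Fin 1) (Fin 1) E) i j ∈ ZZi
          rw [Subsingleton.elim j i, Matrix.diagonal_apply_eq]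
          exact norm_one_mem hs⟩
  map_one' := by
    apply Subtype.ext
    apply Units.ext
    exact Matrix.diagonal_one
  map_mul' s t := by
    apply Subtype.ext
    apply Units.ext
    exact (Matrix.diagonal_mul_diagonal _ _).symm

theorem tG_apply (t : TT) : (((tG t : Gc 1) : GL (Fin 1) E) : Matrix (Fin 1) (Fin 1) E) 0 0 = (t : E) :=
  Matrix.diagonal_apply_eq _ _

theorem Gc1_ext {u v : Gc 1} (h : ((u : GL (Fin 1) E) : Matrix (Fin 1) (Fin 1) E) 0 0 =
    ((v : GL (Fin 1) E) : Matrix (Fin 1) (Fin 1) E) 0 0) : u = v := by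
  apply Subtype.ext
  apply Units.ext
  ext1 i j
  rw [Subsingleton.elim i 0, Subsingleton.elim j 0]
  exact h

variable (c : ℕ)

/-- the section of the determinant -/
def sec : TT →* Un (c + 1) := (eU (c + 1)).symm.toMonoidHom.comp ((iotaG c).comp tG)

theorem detT_sec (t : TT) : detT ((sec c t : Un (c + 1)) : Au EE) = t := by
  apply Subtype.ext
  change ((detT ((eU (c + 1)).symm (iotaG c (tG t)) : Au EE) : TT) : E) = _
  rw [detT_eU_symm]
  change ((iota c (tG t).1 : GL (Fin (c + 1)) E) : Matrix (Fin (c + 1)) (Fin (c + 1)) E).det = _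
  rw [det_iota, tG_apply]

/-- the determinant as a homomorphism on `Gc (c + 1)` -/
def dG : ↥(Gc (c + 1)) →* TT where
  toFun g := detT ((eU (c + 1)).symm g : Au EE)
  map_one' := by rw [map_one]; exact detT_one
  map_mul' g h := by
    rw [map_mul]
    exact detT_mul (c + 1) _ _ ((eU (c + 1)).symm g).2 ((eU (c + 1)).symm h).2

/-- `iota ∘ det` -/
def th : ↥(Gc (c + 1)) →* ↥(Gc (c + 1)) := (iotaG c).comp (tG.comp (dG c))

theorem th_iotaG (u : Gc 1) : th c (iotaG c u) = iotaG c u := by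
  change iotaG c (tG (dG c (iotaG c u))) = iotaG c u
  congr 1
  apply Gc1_ext
  rw [tG_apply]
  change ((detT ((eU (c + 1)).symm (iotaG c u) : Au EE) : TT) : E) = _
  rw [detT_eU_symm]
  exact det_iota u.1

/-! ### Cubes -/

/-- truncation of bits -/
def tr (q : ℕ) (s : ℕ → Bool) : ℕ → Bool := fun i => if i < q then s i else false

theorem tr_lt {q i : ℕ} (h : i < q) (s : ℕ → Bool) : tr q s i = s i := if_pos h

theorem tr_congr {q : ℕ} {s s' : ℕ → Bool} (h : ∀ i, i < q → s i = s' i) : tr q s = tr q s' := by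
  funext i
  unfold tr
  split_ifs with hi
  · exact h i hi
  · rfl

open Classical in
/-- the matrix of an automorphism, `1` outside of `Un (c+1)` -/
def gT (g : Au EE) : ↥(Gc (c + 1)) := if h : g ∈ Un (c + 1) then eU (c + 1) ⟨g, h⟩ else 1

theorem gT_of_mem {g : Au EE} (h : g ∈ Un (c + 1)) : gT c g = eU (c + 1) ⟨g, h⟩ := dif_pos h

theorem gT_symm (g : ↥(Gc (c + 1))) : gT c ((eU (c + 1)).symm g : Au EE) = g := by
  rw [gT_of_mem c ((eU (c + 1)).symm g).2]
  exact (eU (c + 1)).apply_symm_apply g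

theorem gT_mul {g h : Au EE} (hg : g ∈ Un (c + 1)) (hh : h ∈ Un (c + 1)) : gT c (g * h) = gT c g * gT c h := by
  rw [gT_of_mem c hg, gT_of_mem c hh, gT_of_mem c (mul_mem hg hh), ← map_mul]
  rfl

theorem gT_inv {g : Au EE} (hg : g ∈ Un (c + 1)) : gT c g⁻¹ = (gT c g)⁻¹ := by
  rw [gT_of_mem c hg, gT_of_mem c (inv_mem hg), ← map_inv]
  rfl

/-- the homogeneous cube of a cube -/
def toH (q : ℕ) (C : Cb sysU) : HCube ↥(Gc (c + 1)) q where
  y := fun s => gT c (C.y (tr q s))
  dep := fun s s' h => by rw [tr_congr h]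

/-- the normal form of a homogeneous cube -/
def nf {q : ℕ} (x : HCube ↥(Gc (c + 1)) q) : Cb sysU where
  r := c + 1
  q := q
  y := fun s => ((eU (c + 1)).symm ((x.y z0)⁻¹ * x.y s) : Au EE)
  l := fun _ => PUnit.unit
  r_pos := Nat.succ_pos c
  y_dep := fun s s' h => by rw [x.dep s s' h]
  l_dep := fun _ _ _ => rfl
  y_mem := fun s => ((eU (c + 1)).symm ((x.y z0)⁻¹ * x.y s)).2
  l_mem := fun _ => trivial
  y_zero := by rw [inv_mul_cancel, map_one]; rfl
  l_mono := fun _ _ _ => le_rfl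

theorem nf_act {q : ℕ} (g : ↥(Gc (c + 1))) (x : HCube ↥(Gc (c + 1)) q) : nf c (x.act g) = nf c x := by
  refine Cb.ext rfl rfl ?_ rfl
  funext s
  change ((eU (c + 1)).symm ((g * x.y z0)⁻¹ * (g * x.y s)) : Au EE) = ((eU (c + 1)).symm ((x.y z0)⁻¹ * x.y s) : Au EE)
  congr 2
  group

theorem nf_Dg {q : ℕ} {x : HCube ↥(Gc (c + 1)) q} (h : x.Dg) : (nf c x).Dg := by
  obtain ⟨k, hk, hd⟩ := h
  refine ⟨k, hk, fun s s' hs => ⟨?_, rfl⟩⟩
  change ((eU (c + 1)).symm ((x.y z0)⁻¹ * x.y s) : Au EE) = ((eU (c + 1)).symm ((x.y z0)⁻¹ * x.y s') : Au EE)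
  rw [hd s s' hs]

theorem map_Dg {G H : Type} {q : ℕ} {x : HCube G q} (f : G → H) (h : x.Dg) : (x.map f).Dg := by
  obtain ⟨k, hk, hd⟩ := h
  exact ⟨k, hk, fun s s' hs => congrArg f (hd s s' hs)⟩

theorem ins_z0 (k : ℕ) : ins k false z0 = z0 := by
  funext i
  unfold ins z0
  split_ifs <;> rfl

theorem face_nf {q : ℕ} (x : HCube ↥(Gc (c + 1)) (q + 1)) (b : Bool) (k : Fin (q + 1)) :
    (nf c x).face b k = nf c (x.face b k) := by
  have hk : (k : ℕ) < (nf c x).q := k.2
  unfold Cb.face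
  rw [dif_pos hk]
  refine Cb.ext rfl rfl ?_ rfl
  funext s
  change ((nf c x).fv b k)⁻¹ * (nf c x).y (ins k b s) =
    ((eU (c + 1)).symm ((x.y (ins k b z0))⁻¹ * x.y (ins k b s)) : Au EE)
  change ((eU (c + 1)).symm ((x.y z0)⁻¹ * x.y (ins k b z0)) : Au EE)⁻¹ *
    ((eU (c + 1)).symm ((x.y z0)⁻¹ * x.y (ins k b s)) : Au EE) = _
  rw [← Subgroup.coe_inv, ← map_inv, ← Subgroup.coe_mul, ← map_mul]
  congr 2
  group

theorem nf_toH {q : ℕ} {C : Cb sysU} (hr : C.r = c + 1) (hq : C.q = q) : nf c (toH c q C) = C := by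
  refine Cb.ext hr.symm hq.symm ?_ (funext fun _ => rfl)
  funext s
  have h1 : ∀ s, C.y s ∈ Un (c + 1) := fun s => hr ▸ C.y_mem s
  have h2 : ∀ s, C.y (tr q s) = C.y s := fun s => C.y_dep _ _ fun i hi => tr_lt (hq ▸ hi) s
  change ((eU (c + 1)).symm ((gT c (C.y (tr q z0)))⁻¹ * gT c (C.y (tr q s))) : Au EE) = C.y s
  rw [h2, h2, C.y_zero, gT_of_mem c (h1 s), gT_of_mem c (one_mem _)]
  have h3 : eU (c + 1) (⟨1, one_mem _⟩ : Un (c + 1)) = 1 := map_one _
  rw [h3, inv_one, one_mul, MulEquiv.symm_apply_apply]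

theorem toH_face {q : ℕ} {C : Cb sysU} (hr : C.r = c + 1) (hq : C.q = q + 1) (b : Bool) (k : Fin (q + 1)) :
    (toH c (q + 1) C).face b k = (toH c q (C.face b k)).act ((toH c (q + 1) C).y (ins k b z0)) := by
  have hk : (k : ℕ) < C.q := by rw [hq]; exact k.2
  have h1 : ∀ s, C.y s ∈ Un (c + 1) := fun s => hr ▸ C.y_mem s
  have h2 : ∀ s, C.y (tr (q + 1) s) = C.y s := fun s => C.y_dep _ _ fun i hi => tr_lt (hq ▸ hi) s
  ext1
  funext s
  change gT c (C.y (tr (q + 1) (ins k b s))) = gT c (C.y (tr (q + 1) (ins k b z0))) * gT c ((C.face b k).y (tr q s))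
  have h3 : (C.face b k).y (tr q s) = (C.y (ins k b z0))⁻¹ * C.y (ins k b (tr q s)) := by
    unfold Cb.face
    rw [dif_pos hk]
    rfl
  have h4 : C.y (ins k b (tr q s)) = C.y (ins k b s) := by
    refine C.y_dep _ _ ?_
    rw [hq]
    exact ins_agree k b _ _ fun i hi => tr_lt hi s
  rw [h2, h2, h3, h4, gT_mul c (inv_mem (h1 _)) (h1 _), gT_inv c (h1 _), mul_inv_cancel_left]

theorem toH_Dg {q : ℕ} {C : Cb sysU} (hq : C.q = q) (h : C.Dg) : (toH c q C).Dg := by
  obtain ⟨k, hk, hd⟩ := h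
  refine ⟨k, hq ▸ hk, fun s s' hs => ?_⟩
  have h2 : ∀ s, C.y (tr q s) = C.y s := fun s => C.y_dep _ _ fun i hi => tr_lt (hq ▸ hi) s
  change gT c (C.y (tr q s)) = gT c (C.y (tr q s'))
  rw [h2, h2, (hd s s' hs).1]

/-! ### The section on cubes -/

/-- the section on cubes of `sysA` -/
def sg (C : Cb sysA) : Cb sysU where
  r := c + 1
  q := C.q
  y := fun s => (sec c (C.y s) : Au EE)
  l := fun _ => PUnit.unit
  r_pos := Nat.succ_pos c
  y_dep := fun s s' h => by rw [C.y_dep s s' h]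
  l_dep := fun _ _ _ => rfl
  y_mem := fun s => (sec c (C.y s)).2
  l_mem := fun _ => trivial
  y_zero := by rw [C.y_zero, map_one]; rfl
  l_mono := fun _ _ _ => le_rfl

theorem sg_Dg {C : Cb sysA} (h : C.Dg) : (sg c C).Dg := by
  obtain ⟨k, hk, hd⟩ := h
  refine ⟨k, hk, fun s s' hs => ⟨?_, rfl⟩⟩
  change (sec c (C.y s) : Au EE) = (sec c (C.y s') : Au EE)
  rw [(hd s s' hs).1]

theorem sg_face (C : Cb sysA) (b : Bool) (k : ℕ) (hk : k < C.q) : (sg c C).face b k = sg c (C.face b k) := by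
  have hk' : k < (sg c C).q := hk
  refine Cb.ext ?_ ?_ ?_ (funext fun _ => rfl)
  · unfold Cb.face; rw [dif_pos hk']; rfl
  · unfold Cb.face; rw [dif_pos hk', dif_pos hk]; rfl
  · funext s
    have h1 : ((sg c C).face b k).y s = ((sg c C).y (ins k b z0))⁻¹ * (sg c C).y (ins k b s) := by
      unfold Cb.face; rw [dif_pos hk']; rfl
    have h2 : (C.face b k).y s = (C.y (ins k b z0))⁻¹ * C.y (ins k b s) := by
      unfold Cb.face; rw [dif_pos hk]; rfl
    rw [h1]
    change _ = (sec c ((C.face b k).y s) : Au EE)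
    rw [h2, map_mul, map_inv]
    rfl

theorem cb_sg {C : Cb sysA} (hr : C.r = c + 1) : detH.cb (sg c C) = C := by
  refine Cb.ext ?_ rfl ?_ (funext fun _ => rfl)
  · change 1 * (c + 1) = C.r
    rw [one_mul, hr]
  · funext s
    exact detT_sec c (C.y s)

theorem cb_face (C : Cb sysU) (b : Bool) (k : ℕ) (hk : k < C.q) : (detH.cb C).face b k = detH.cb (C.face b k) := by
  have hk' : k < (detH.cb C).q := hk
  refine Cb.ext ?_ ?_ ?_ (funext fun _ => rfl)
  · unfold Cb.face; rw [dif_pos hk', dif_pos hk]; rfl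
  · unfold Cb.face; rw [dif_pos hk', dif_pos hk]; rfl
  · funext s
    have h1 : ((detH.cb C).face b k).y s = (detT (C.y (ins k b z0)))⁻¹ * detT (C.y (ins k b s)) := by
      unfold Cb.face; rw [dif_pos hk']; rfl
    have h2 : (C.face b k).y s = (C.y (ins k b z0))⁻¹ * C.y (ins k b s) := by
      unfold Cb.face; rw [dif_pos hk]; rfl
    rw [h1]
    change _ = detT ((C.face b k).y s)
    rw [h2, detT_mul C.r _ _ (inv_mem (C.y_mem _)) (C.y_mem _)]
    congr 1
    rw [inv_eq_iff_mul_eq_one, ← detT_mul C.r _ _ (C.y_mem _) (inv_mem (C.y_mem _)), mul_inv_cancel, detT_one]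

end St16I
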