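import Pool.Agent.LibSt16.IBC

/-!
ST16 IC1 (only IBC.lean). The complex of the bounded strict chains is exact if the poset contracts through pairs of
comparable maps.

Plan. First the complex of ALL monotone bounded chains `W q = {s : Fin (q+1) → P // Monotone s ∧ s last ≤ u (s 0)}` with the
same boundary. For monotone `f ≤ g` with `g B ≤ u (f A)` for `A ≤ B ≤ u A` the prism
`Pr s = ∑ i, (-1)^i (f s_0, ..., f s_i, g s_i, ..., g s_q)` satisfies `d Pr + Pr d = g_* - f_*`, and it maps chains with two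
equal neighbours to combinations of such chains. The linear map `r : Q[W q] → Q[BC q]` (a chain which is not strict goes
to 0) is a chain map and is a retraction of the inclusion. So on `Q[BC]`: `r g_* - r f_* = d (r Pr) + (r Pr) d`. With `ρ j`, `τ j`:
`r (ρ 0)_* ~ r (τ 0)_* ~ r (ρ 1)_* ~ ... ~ r (ρ J)_*`; for a cycle `z` take `J` with `ρ J A = A` for all vertices `A` of all
simplices in the support of `z`: `r (ρ J)_* z = z`, and `r (ρ 0)_* z = 0` in degree ≥ 1 (a constant chain is not strict),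
`= (sum of the coefficients) • M` in degree 0.
-/

namespace St16I

variable {P : Type*} [PartialOrder P]

private noncomputable def IC1_cons (a : P) : (List P →₀ ℚ) →ₗ[ℚ] (List P →₀ ℚ) :=
  Finsupp.lmapDomain ℚ ℚ (fun l => a :: l)

private noncomputable def IC1_map (f : P → P) : (List P →₀ ℚ) →ₗ[ℚ] (List P →₀ ℚ) :=
  Finsupp.lmapDomain ℚ ℚ (List.map f)

private theorem IC1_cons_single (a : P) (l : List P) (c : ℚ) :
    IC1_cons a (Finsupp.single l c) = Finsupp.single (a :: l) c := by
  unfold IC1_cons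
  rw [Finsupp.lmapDomain_apply, Finsupp.mapDomain_single]

private theorem IC1_map_single (f : P → P) (l : List P) (c : ℚ) :
    IC1_map f (Finsupp.single l c) = Finsupp.single (l.map f) c := by
  unfold IC1_map
  rw [Finsupp.lmapDomain_apply, Finsupp.mapDomain_single]

private theorem IC1_map_cons (f : P → P) (a : P) (x : List P →₀ ℚ) :
    IC1_map f (IC1_cons a x) = IC1_cons (f a) (IC1_map f x) := by
  induction x using Finsupp.induction_linear with
  | zero => simp
  | add x y hx hy => simp only [map_add, hx, hy]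
  | single l c => simp only [IC1_cons_single, IC1_map_single, List.map_cons]

private noncomputable def IC1_dl : List P → (List P →₀ ℚ)
  | [] => 0
  | a :: l => Finsupp.single l 1 - IC1_cons a (IC1_dl l)

private noncomputable def IC1_d : (List P →₀ ℚ) →ₗ[ℚ] (List P →₀ ℚ) :=
  Finsupp.linearCombination ℚ IC1_dl

private theorem IC1_d_single (l : List P) (c : ℚ) :
    IC1_d (Finsupp.single l c) = c • IC1_dl l := by
  unfold IC1_d
  rw [Finsupp.linearCombination_single]

private theorem IC1_smul_single (l : List P) (c : ℚ) :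
    (Finsupp.single l c : List P →₀ ℚ) = c • Finsupp.single l 1 := by
  rw [Finsupp.smul_single, smul_eq_mul, mul_one]

private theorem IC1_d_cons (a : P) (x : List P →₀ ℚ) :
    IC1_d (IC1_cons a x) = x - IC1_cons a (IC1_d x) := by
  induction x using Finsupp.induction_linear with
  | zero => simp
  | add x y hx hy =>
    simp only [map_add, hx, hy]
    abel
  | single l c =>
    rw [IC1_cons_single, IC1_d_single, IC1_d_single, map_smul]
    conv_rhs => rw [IC1_smul_single l c]
    rw [← smul_sub]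
    rfl

private theorem IC1_d_dl (l : List P) : IC1_d (IC1_dl l) = 0 := by
  induction l with
  | nil => exact map_zero _
  | cons a l ih =>
    change IC1_d (Finsupp.single l 1 - IC1_cons a (IC1_dl l)) = 0
    rw [map_sub, IC1_d_cons, ih, IC1_d_single]
    simp

private theorem IC1_d_d (x : List P →₀ ℚ) : IC1_d (IC1_d x) = 0 := by
  induction x using Finsupp.induction_linear with
  | zero => simp
  | add x y hx hy => simp only [map_add, hx, hy, add_zero]
  | single l c => rw [IC1_d_single, map_smul, IC1_d_dl, smul_zero]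

private theorem IC1_dl_map (g : P → P) (l : List P) :
    IC1_dl (l.map g) = IC1_map g (IC1_dl l) := by
  induction l with
  | nil => exact (map_zero _).symm
  | cons a l ih =>
    change Finsupp.single (l.map g) 1 - IC1_cons (g a) (IC1_dl (l.map g)) =
      IC1_map g (Finsupp.single l 1 - IC1_cons a (IC1_dl l))
    rw [map_sub, IC1_map_cons, IC1_map_single, ih]

private noncomputable def IC1_prl (f g : P → P) : List P → (List P →₀ ℚ)
  | [] => 0
  | a :: l => Finsupp.single (f a :: g a :: l.map g) 1 - IC1_cons (f a) (IC1_prl f g l)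

private noncomputable def IC1_pr (f g : P → P) : (List P →₀ ℚ) →ₗ[ℚ] (List P →₀ ℚ) :=
  Finsupp.linearCombination ℚ (IC1_prl f g)

private theorem IC1_pr_single (f g : P → P) (l : List P) (c : ℚ) :
    IC1_pr f g (Finsupp.single l c) = c • IC1_prl f g l := by
  unfold IC1_pr
  rw [Finsupp.linearCombination_single]

private theorem IC1_pr_cons (f g : P → P) (a : P) (x : List P →₀ ℚ) :
    IC1_pr f g (IC1_cons a x) =
      IC1_cons (f a) (IC1_cons (g a) (IC1_map g x)) - IC1_cons (f a) (IC1_pr f g x) := by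
  induction x using Finsupp.induction_linear with
  | zero => simp
  | add x y hx hy =>
    simp only [map_add, hx, hy]
    abel
  | single l c =>
    rw [IC1_cons_single, IC1_pr_single, IC1_pr_single, map_smul, IC1_map_single, IC1_cons_single,
      IC1_cons_single]
    conv_rhs => rw [IC1_smul_single _ c]
    rw [← smul_sub]
    rfl

private theorem IC1_prism (f g : P → P) (l : List P) :
    IC1_d (IC1_prl f g l) + IC1_pr f g (IC1_dl l) =
      Finsupp.single (l.map g) 1 - Finsupp.single (l.map f) 1 := by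
  induction l with
  | nil =>
    change IC1_d 0 + IC1_pr f g 0 = _
    simp
  | cons a l ih =>
    change IC1_d (Finsupp.single (f a :: g a :: l.map g) 1 - IC1_cons (f a) (IC1_prl f g l)) +
      IC1_pr f g (Finsupp.single l 1 - IC1_cons a (IC1_dl l)) =
      Finsupp.single (g a :: l.map g) 1 - Finsupp.single (f a :: l.map f) 1
    rw [map_sub, map_sub, IC1_d_cons, IC1_pr_cons, IC1_d_single, one_smul, IC1_pr_single, one_smul]
    have h1 : IC1_dl (f a :: g a :: l.map g) = Finsupp.single (g a :: l.map g) 1 -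
        IC1_cons (f a) (Finsupp.single (l.map g) 1 - IC1_cons (g a) (IC1_dl (l.map g))) := rfl
    rw [h1, map_sub, IC1_dl_map, IC1_cons_single]
    have h2 : IC1_cons (f a) (IC1_d (IC1_prl f g l)) + IC1_cons (f a) (IC1_pr f g (IC1_dl l)) =
        Finsupp.single (f a :: l.map g) 1 - Finsupp.single (f a :: l.map f) 1 := by
      rw [← map_add, ih, map_sub, IC1_cons_single, IC1_cons_single]
    rw [eq_sub_iff_add_eq] at h2 ⊢
    rw [← h2]
    abel

private theorem IC1_homot (f g : P → P) (x : List P →₀ ℚ) :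
    IC1_d (IC1_pr f g x) + IC1_pr f g (IC1_d x) = IC1_map g x - IC1_map f x := by
  induction x using Finsupp.induction_linear with
  | zero => simp
  | add x y hx hy =>
    have h : IC1_map g (x + y) - IC1_map f (x + y) =
        (IC1_map g x - IC1_map f x) + (IC1_map g y - IC1_map f y) := by
      simp only [map_add]
      abel
    rw [h, ← hx, ← hy]
    simp only [map_add]
    abel
  | single l c =>
    rw [IC1_pr_single, IC1_d_single, map_smul, map_smul, ← smul_add, IC1_prism, IC1_map_single,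
      IC1_map_single, IC1_smul_single (l.map g) c, IC1_smul_single (l.map f) c, smul_sub]

private theorem IC1_dl_ofFn (n : ℕ) (s : Fin (n + 1) → P) :
    IC1_dl (List.ofFn s) = ∑ i : Fin (n + 1), ((-1 : ℚ) ^ (i : ℕ)) •
      Finsupp.single (List.ofFn fun k : Fin n => s (i.succAbove k)) 1 := by
  induction n with
  | zero =>
    rw [List.ofFn_succ, Fin.sum_univ_one]
    change Finsupp.single _ 1 - IC1_cons (s 0) (IC1_dl (List.ofFn fun i : Fin 0 => s i.succ)) = _
    rw [List.ofFn_zero, List.ofFn_zero]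
    change Finsupp.single _ 1 - IC1_cons (s 0) 0 = _
    simp
  | succ n ih =>
    rw [List.ofFn_succ, Fin.sum_univ_succ]
    change Finsupp.single _ 1 - IC1_cons (s 0) (IC1_dl (List.ofFn fun i : Fin (n + 1) => s i.succ)) = _
    rw [ih (fun i => s i.succ), map_sum, sub_eq_add_neg, ← Finset.sum_neg_distrib]
    congr 1
    · simp
    · apply Finset.sum_congr rfl
      intro i _
      rw [map_smul, IC1_cons_single, List.ofFn_succ (f := fun k : Fin (n + 1) => s (i.succ.succAbove k)),
        Fin.succ_succAbove_zero]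
      have h1 : (fun k : Fin n => s (i.succ.succAbove k.succ)) = fun k : Fin n => s (i.succAbove k).succ := by
        funext k
        rw [Fin.succ_succAbove_succ]
      rw [h1, Fin.val_succ, pow_succ, mul_neg_one, neg_smul]

private inductive IC1_Deg : List P → Prop
  | base (a : P) (l : List P) : IC1_Deg (a :: a :: l)
  | step (a : P) (l : List P) : IC1_Deg l → IC1_Deg (a :: l)

private theorem IC1_deg_not {l : List P} (h : IC1_Deg l) : ¬ l.Pairwise (· < ·) := by
  induction h with
  | base a l =>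
    intro h
    rw [List.pairwise_cons] at h
    exact lt_irrefl _ (h.1 a (by simp))
  | step a l _ ih =>
    intro h
    rw [List.pairwise_cons] at h
    exact ih h.2

private theorem IC1_deg_or {l : List P} (h : l.Pairwise (· ≤ ·)) :
    l.Pairwise (· < ·) ∨ IC1_Deg l := by
  induction l with
  | nil => exact Or.inl List.Pairwise.nil
  | cons a l ih =>
    rw [List.pairwise_cons] at h
    rcases ih h.2 with h1 | h1
    · cases l with
      | nil => exact Or.inl (by simp)
      | cons b l =>
        by_cases hab : a = b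
        · subst hab
          exact Or.inr (IC1_Deg.base a l)
        · left
          have hlt : a < b := lt_of_le_of_ne (h.1 b (by simp)) hab
          rw [List.pairwise_cons]
          refine ⟨?_, h1⟩
          intro x hx
          rcases List.mem_cons.1 hx with rfl | hx
          · exact hlt
          · rw [List.pairwise_cons] at h1
            exact hlt.trans (h1.1 x hx)
    · exact Or.inr (IC1_Deg.step a l h1)

private theorem IC1_cons_mem {a : P} {S S' : Set (List P →₀ ℚ)}
    (h : ∀ x ∈ S, IC1_cons a x ∈ Submodule.span ℚ S') {x : List P →₀ ℚ}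
    (hx : x ∈ Submodule.span ℚ S) : IC1_cons a x ∈ Submodule.span ℚ S' := by
  have h1 : Submodule.span ℚ S ≤ (Submodule.span ℚ S').comap (IC1_cons a) := by
    rw [Submodule.span_le]
    exact h
  exact h1 hx

private theorem IC1_dl_deg {l : List P} (h : IC1_Deg l) :
    IC1_dl l ∈ Submodule.span ℚ {x : List P →₀ ℚ | ∃ m, IC1_Deg m ∧ x = Finsupp.single m 1} := by
  induction h with
  | base a l =>
    have h1 : IC1_dl (a :: a :: l) = IC1_cons a (IC1_cons a (IC1_dl l)) := by
      change Finsupp.single (a :: l) 1 - IC1_cons a (Finsupp.single l 1 - IC1_cons a (IC1_dl l)) = _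
      rw [map_sub, IC1_cons_single]
      abel
    rw [h1]
    generalize IC1_dl l = y
    induction y using Finsupp.induction_linear with
    | zero =>
      rw [map_zero, map_zero]
      exact Submodule.zero_mem _
    | add x y hx hy =>
      rw [map_add, map_add]
      exact Submodule.add_mem _ hx hy
    | single m c =>
      rw [IC1_cons_single, IC1_cons_single, IC1_smul_single]
      exact Submodule.smul_mem _ _ (Submodule.subset_span ⟨_, IC1_Deg.base a m, rfl⟩)
  | step a l h ih =>
    change Finsupp.single l 1 - IC1_cons a (IC1_dl l) ∈ _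
    refine Submodule.sub_mem _ (Submodule.subset_span ⟨l, h, rfl⟩) ?_
    refine IC1_cons_mem ?_ ih
    rintro x ⟨m, hm, rfl⟩
    rw [IC1_cons_single]
    exact Submodule.subset_span ⟨_, IC1_Deg.step a m hm, rfl⟩

open Classical in
private noncomputable def IC1_rl (u : P → P) (q : ℕ) (l : List P) : BC u q →₀ ℚ :=
  if h : ∃ s : BC u q, List.ofFn s.1 = l then Finsupp.single h.choose 1 else 0

private noncomputable def IC1_r (u : P → P) (q : ℕ) : (List P →₀ ℚ) →ₗ[ℚ] (BC u q →₀ ℚ) :=
  Finsupp.linearCombination ℚ (IC1_rl u q)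

private theorem IC1_r_single (u : P → P) (q : ℕ) (l : List P) (c : ℚ) :
    IC1_r u q (Finsupp.single l c) = c • IC1_rl u q l := by
  unfold IC1_r
  rw [Finsupp.linearCombination_single]

private theorem IC1_rl_ofFn (u : P → P) (q : ℕ) (s : BC u q) :
    IC1_rl u q (List.ofFn s.1) = Finsupp.single s 1 := by
  have h : ∃ t : BC u q, List.ofFn t.1 = List.ofFn s.1 := ⟨s, rfl⟩
  unfold IC1_rl
  rw [dif_pos h]
  congr 1
  exact Subtype.ext (List.ofFn_injective h.choose_spec)

private theorem IC1_rl_len (u : P → P) (q : ℕ) (l : List P) (h : l.length ≠ q + 1) :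
    IC1_rl u q l = 0 := by
  unfold IC1_rl
  rw [dif_neg]
  rintro ⟨s, rfl⟩
  exact h (List.length_ofFn)

private theorem IC1_rl_deg (u : P → P) (q : ℕ) (l : List P) (h : IC1_Deg l) :
    IC1_rl u q l = 0 := by
  unfold IC1_rl
  rw [dif_neg]
  rintro ⟨s, rfl⟩
  apply IC1_deg_not h
  rw [List.pairwise_ofFn]
  intro i j hij
  exact s.2.1 hij

private noncomputable def IC1_i (u : P → P) (q : ℕ) : (BC u q →₀ ℚ) →ₗ[ℚ] (List P →₀ ℚ) :=
  Finsupp.lmapDomain ℚ ℚ (fun s => List.ofFn s.1)

private theorem IC1_i_single (u : P → P) (q : ℕ) (s : BC u q) (c : ℚ) :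
    IC1_i u q (Finsupp.single s c) = Finsupp.single (List.ofFn s.1) c := by
  unfold IC1_i
  rw [Finsupp.lmapDomain_apply, Finsupp.mapDomain_single]

private theorem IC1_r_i (u : P → P) (q : ℕ) (z : BC u q →₀ ℚ) : IC1_r u q (IC1_i u q z) = z := by
  induction z using Finsupp.induction_linear with
  | zero => simp
  | add x y hx hy => simp only [map_add, hx, hy]
  | single s c =>
    rw [IC1_i_single, IC1_r_single, IC1_rl_ofFn, Finsupp.smul_single, smul_eq_mul, mul_one]

private theorem IC1_bd_single {u : P → P} (hu : Monotone u) (q : ℕ) (s : BC u (q + 1)) (c : ℚ) :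
    BC.bd hu q (Finsupp.single s c) =
      ∑ i : Fin (q + 2), ((-1 : ℚ) ^ (i : ℕ)) • Finsupp.single (s.face hu i) c := by
  unfold BC.bd
  rw [Finsupp.lsum_single, LinearMap.sum_apply]
  rfl

private theorem IC1_d_i {u : P → P} (hu : Monotone u) (q : ℕ) (z : BC u (q + 1) →₀ ℚ) :
    IC1_d (IC1_i u (q + 1) z) = IC1_i u q (BC.bd hu q z) := by
  induction z using Finsupp.induction_linear with
  | zero => simp
  | add x y hx hy => simp only [map_add, hx, hy]
  | single s c =>
    rw [IC1_i_single, IC1_d_single, IC1_dl_ofFn, IC1_bd_single, map_sum, Finset.smul_sum]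
    apply Finset.sum_congr rfl
    intro i _
    rw [map_smul, IC1_i_single, IC1_smul_single _ c, smul_smul, smul_smul, mul_comm]
    rfl

private theorem IC1_d_i0 (u : P → P) (z : BC u 0 →₀ ℚ) :
    IC1_d (IC1_i u 0 z) = Finsupp.single [] (z.sum fun _ a => a) := by
  induction z using Finsupp.induction_linear with
  | zero => simp
  | add x y hx hy =>
    rw [map_add, map_add, hx, hy, Finsupp.sum_add_index' (fun _ => rfl) (fun _ _ _ => rfl),
      Finsupp.single_add]
  | single s c =>
    rw [IC1_i_single, IC1_d_single, IC1_dl_ofFn, Fin.sum_univ_one, Finsupp.sum_single_index rfl,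
      IC1_smul_single _ c]
    simp

/-- sorted lists with all entries between `m` and `N` -/
private def IC1_S (m N : P) : Set (List P →₀ ℚ) :=
  {x | ∃ l : List P, l.Pairwise (· ≤ ·) ∧ (∀ a ∈ l, m ≤ a ∧ a ≤ N) ∧ x = Finsupp.single l 1}

private theorem IC1_prl_mem {f g : P → P} (hf : Monotone f) (hg : Monotone g) (hfg : ∀ a, f a ≤ g a)
    (N : P) (l : List P) (hl : l.Pairwise (· ≤ ·)) (h2 : ∀ a ∈ l, g a ≤ N) :
    ∀ m, (∀ a ∈ l, m ≤ f a) → IC1_prl f g l ∈ Submodule.span ℚ (IC1_S m N) := by
  induction l with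
  | nil =>
    intro m _
    exact Submodule.zero_mem _
  | cons a l ih =>
    intro m h1
    rw [List.pairwise_cons] at hl
    have h3 := ih hl.2 (fun b hb => h2 b (List.mem_cons_of_mem _ hb)) (f a)
      (fun b hb => hf (hl.1 b hb))
    have hma : m ≤ f a := h1 a (by simp)
    have haN : g a ≤ N := h2 a (by simp)
    change Finsupp.single (f a :: g a :: l.map g) 1 - IC1_cons (f a) (IC1_prl f g l) ∈ _
    refine Submodule.sub_mem _ (Submodule.subset_span ⟨_, ?_, ?_, rfl⟩) ?_
    · rw [List.pairwise_cons, List.pairwise_cons]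
      refine ⟨?_, ?_, ?_⟩
      · intro x hx
        rcases List.mem_cons.1 hx with rfl | hx
        · exact hfg a
        · obtain ⟨b, hb, rfl⟩ := List.mem_map.1 hx
          exact (hfg a).trans (hg (hl.1 b hb))
      · intro x hx
        obtain ⟨b, hb, rfl⟩ := List.mem_map.1 hx
        exact hg (hl.1 b hb)
      · rw [List.pairwise_map]
        exact hl.2.imp (fun h => hg h)
    · intro x hx
      rcases List.mem_cons.1 hx with rfl | hx
      · exact ⟨hma, (hfg a).trans haN⟩
      · rcases List.mem_cons.1 hx with rfl | hx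
        · exact ⟨hma.trans (hfg a), haN⟩
        · obtain ⟨b, hb, rfl⟩ := List.mem_map.1 hx
          exact ⟨hma.trans ((hfg a).trans (hg (hl.1 b hb))), h2 b (List.mem_cons_of_mem _ hb)⟩
    · refine IC1_cons_mem ?_ h3
      rintro x ⟨k, hk1, hk2, rfl⟩
      rw [IC1_cons_single]
      refine Submodule.subset_span ⟨_, ?_, ?_, rfl⟩
      · rw [List.pairwise_cons]
        exact ⟨fun b hb => (hk2 b hb).1, hk1⟩
      · intro x hx
        rcases List.mem_cons.1 hx with rfl | hx
        · exact ⟨hma, (hfg a).trans haN⟩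
        · exact ⟨hma.trans (hk2 x hx).1, (hk2 x hx).2⟩

private theorem IC1_r_dl {u : P → P} (hu : Monotone u) (q : ℕ) {m N : P} (hmN : N ≤ u m)
    (l : List P) (hl : l.Pairwise (· ≤ ·)) (h2 : ∀ a ∈ l, m ≤ a ∧ a ≤ N) :
    IC1_r u q (IC1_dl l) = BC.bd hu q (IC1_rl u (q + 1) l) := by
  rcases IC1_deg_or hl with hs | hd
  · by_cases hlen : l.length = q + 2
    · obtain ⟨s, rfl⟩ : ∃ s : Fin (q + 1 + 1) → P, List.ofFn s = l :=
        ⟨fun i => l.get (i.cast hlen.symm), by
          apply List.ext_get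
          · rw [List.length_ofFn, hlen]
          · intro k h1 h2
            rw [List.get_ofFn]
            rfl⟩
      have hsm : StrictMono s := by
        rw [List.pairwise_ofFn] at hs
        exact fun i j hij => hs hij
      have hb : s (Fin.last _) ≤ u (s 0) := by
        have e1 := (h2 (s (Fin.last _)) (List.mem_ofFn.2 ⟨_, rfl⟩)).2
        have e2 := (h2 (s 0) (List.mem_ofFn.2 ⟨_, rfl⟩)).1
        exact e1.trans (hmN.trans (hu e2))
      let S : BC u (q + 1) := ⟨s, hsm, hb⟩
      have hS : IC1_rl u (q + 1) (List.ofFn s) = Finsupp.single S 1 := IC1_rl_ofFn u (q + 1) S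
      rw [hS, IC1_dl_ofFn, IC1_bd_single, map_sum]
      apply Finset.sum_congr rfl
      intro i _
      rw [map_smul, IC1_r_single, one_smul]
      congr 1
      exact IC1_rl_ofFn u q (S.face hu i)
    · rw [IC1_rl_len u (q + 1) l hlen, map_zero]
      obtain ⟨n, s, rfl⟩ : ∃ (n : ℕ) (s : Fin n → P), List.ofFn s = l :=
        ⟨l.length, l.get, List.ofFn_get l⟩
      rw [List.length_ofFn] at hlen
      cases n with
      | zero =>
        rw [List.ofFn_zero]
        exact map_zero _
      | succ n =>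
        rw [IC1_dl_ofFn, map_sum]
        apply Finset.sum_eq_zero
        intro i _
        rw [map_smul, IC1_r_single, IC1_rl_len, smul_zero, smul_zero]
        rw [List.length_ofFn]
        omega
  · rw [IC1_rl_deg u (q + 1) l hd, map_zero]
    have h1 := IC1_dl_deg hd
    have h3 : Submodule.span ℚ {x : List P →₀ ℚ | ∃ m, IC1_Deg m ∧ x = Finsupp.single m 1} ≤
        LinearMap.ker (IC1_r u q) := by
      rw [Submodule.span_le]
      rintro x ⟨k, hk, rfl⟩
      rw [SetLike.mem_coe, LinearMap.mem_ker, IC1_r_single, IC1_rl_deg u q k hk, smul_zero]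
    exact h3 h1

private theorem IC1_r_d {u : P → P} (hu : Monotone u) (q : ℕ) {m N : P} (hmN : N ≤ u m)
    (x : List P →₀ ℚ) (hx : x ∈ Submodule.span ℚ (IC1_S m N)) :
    IC1_r u q (IC1_d x) = BC.bd hu q (IC1_r u (q + 1) x) := by
  have h3 : Submodule.span ℚ (IC1_S m N) ≤
      LinearMap.eqLocus ((IC1_r u q).comp IC1_d) ((BC.bd hu q).comp (IC1_r u (q + 1))) := by
    rw [Submodule.span_le]
    rintro x ⟨l, hl, hl2, rfl⟩
    rw [SetLike.mem_coe, LinearMap.mem_eqLocus]
    change IC1_r u q (IC1_d (Finsupp.single l 1)) = BC.bd hu q (IC1_r u (q + 1) (Finsupp.single l 1))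
    rw [IC1_d_single, one_smul, IC1_r_single, one_smul]
    exact IC1_r_dl hu q hmN l hl hl2
  exact h3 hx

private theorem IC1_r_d_pr {u : P → P} (hu : Monotone u) {f g : P → P} (hf : Monotone f)
    (hg : Monotone g) (hfg : ∀ a, f a ≤ g a) (hc : ∀ A B, A ≤ B → B ≤ u A → g B ≤ u (f A)) (q : ℕ)
    (z : BC u q →₀ ℚ) :
    IC1_r u q (IC1_d (IC1_pr f g (IC1_i u q z))) =
      BC.bd hu q (IC1_r u (q + 1) (IC1_pr f g (IC1_i u q z))) := by
  induction z using Finsupp.induction_linear with
  | zero => simp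
  | add x y hx hy => simp only [map_add, hx, hy]
  | single s c =>
    rw [IC1_i_single, IC1_pr_single]
    simp only [map_smul]
    congr 1
    have h0 : s.1 0 ≤ s.1 (Fin.last q) := s.2.1.monotone (Fin.zero_le _)
    refine IC1_r_d hu q (hc _ _ h0 s.2.2) _ (IC1_prl_mem hf hg hfg _ _ ?_ ?_ _ ?_)
    · rw [List.pairwise_ofFn]
      intro i j hij
      exact (s.2.1 hij).le
    · intro a ha
      obtain ⟨i, rfl⟩ := List.mem_ofFn.1 ha
      exact hg (s.2.1.monotone (Fin.le_last _))
    · intro a ha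
      obtain ⟨i, rfl⟩ := List.mem_ofFn.1 ha
      exact hf (s.2.1.monotone (Fin.zero_le _))

private theorem IC1_step {u : P → P} (hu : Monotone u) {f g : P → P} (hf : Monotone f)
    (hg : Monotone g) (hfg : ∀ a, f a ≤ g a) (hc : ∀ A B, A ≤ B → B ≤ u A → g B ≤ u (f A)) (q : ℕ)
    (z : BC u q →₀ ℚ) (hz : IC1_d (IC1_i u q z) = 0) :
    IC1_r u q (IC1_map g (IC1_i u q z)) - IC1_r u q (IC1_map f (IC1_i u q z)) ∈
      LinearMap.range (BC.bd hu q) := by
  refine ⟨IC1_r u (q + 1) (IC1_pr f g (IC1_i u q z)), ?_⟩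
  rw [← IC1_r_d_pr hu hf hg hfg hc, ← map_sub, ← IC1_homot, hz, map_zero, add_zero]

private theorem IC1_all {u : P → P} (hu : Monotone u) (M : P) (ρ τ : ℕ → P → P)
    (hρ : ∀ j, Monotone (ρ j)) (hτ : ∀ j, Monotone (τ j)) (h0 : ∀ A, ρ 0 A = M)
    (h1 : ∀ j A, τ j A ≤ ρ j A) (h2 : ∀ j A, τ j A ≤ ρ (j + 1) A)
    (c1 : ∀ j A B, A ≤ B → B ≤ u A → ρ j B ≤ u (τ j A))
    (c2 : ∀ j A B, A ≤ B → B ≤ u A → ρ (j + 1) B ≤ u (τ j A))
    (hst : ∀ A, ∃ J, ∀ j ≥ J, ρ j A = A) (q : ℕ) (z : BC u q →₀ ℚ)
    (hz : IC1_d (IC1_i u q z) = 0) (hr0 : IC1_r u q (IC1_map (ρ 0) (IC1_i u q z)) = 0) :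
    ∃ y, BC.bd hu q y = z := by
  have hJ : ∀ J, IC1_r u q (IC1_map (ρ J) (IC1_i u q z)) ∈ LinearMap.range (BC.bd hu q) := by
    intro J
    induction J with
    | zero =>
      rw [hr0]
      exact Submodule.zero_mem _
    | succ J ih =>
      have e1 := IC1_step hu (hτ J) (hρ J) (h1 J) (c1 J) q z hz
      have e2 := IC1_step hu (hτ J) (hρ (J + 1)) (h2 J) (c2 J) q z hz
      have e3 := Submodule.add_mem _ (Submodule.sub_mem _ e2 e1) ih
      convert e3 using 1
      abel
  have hst2 : ∀ s : BC u q, ∃ J, ∀ j ≥ J, (List.ofFn s.1).map (ρ j) = List.ofFn s.1 := by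
    intro s
    choose J hJ using hst
    refine ⟨Finset.univ.sup fun i => J (s.1 i), ?_⟩
    intro j hj
    rw [List.map_ofFn]
    congr 1
    funext i
    exact hJ (s.1 i) j (le_trans (Finset.le_sup (f := fun i => J (s.1 i)) (Finset.mem_univ i)) hj)
  have hst3 : ∃ J, ∀ j ≥ J, IC1_map (ρ j) (IC1_i u q z) = IC1_i u q z := by
    clear hz hr0 hJ
    induction z using Finsupp.induction_linear with
    | zero => exact ⟨0, fun j _ => by simp⟩
    | add x y hx hy =>
      obtain ⟨J1, hJ1⟩ := hx
      obtain ⟨J2, hJ2⟩ := hy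
      refine ⟨max J1 J2, fun j hj => ?_⟩
      simp only [map_add, hJ1 j (le_trans (le_max_left _ _) hj), hJ2 j (le_trans (le_max_right _ _) hj)]
    | single s c =>
      obtain ⟨J, hJ⟩ := hst2 s
      refine ⟨J, fun j hj => ?_⟩
      rw [IC1_i_single, IC1_map_single, hJ j hj]
  obtain ⟨J, hJ3⟩ := hst3
  have h5 := hJ J
  rw [hJ3 J le_rfl, IC1_r_i] at h5
  exact h5

theorem BC.bd_bd {u : P → P} (hu : Monotone u) (q : ℕ) (z : BC u (q + 2) →₀ ℚ) :
    BC.bd hu q (BC.bd hu (q + 1) z) = 0 := by
  have h1 : IC1_i u q (BC.bd hu q (BC.bd hu (q + 1) z)) = 0 := by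
    rw [← IC1_d_i, ← IC1_d_i, IC1_d_d]
  rw [← IC1_r_i u q (BC.bd hu q (BC.bd hu (q + 1) z)), h1, map_zero]

theorem BC.sum_bd {u : P → P} (hu : Monotone u) (z : BC u 1 →₀ ℚ) :
    ((BC.bd hu 0 z).sum fun _ a => a) = 0 := by
  have h1 : IC1_d (IC1_i u 0 (BC.bd hu 0 z)) = 0 := by
    rw [← IC1_d_i, IC1_d_d]
  rw [IC1_d_i0] at h1
  exact (Finsupp.single_eq_zero.1 h1)

theorem BC.exact {u : P → P} (hu : Monotone u) (M : P) (ρ τ : ℕ → P → P)
    (hρ : ∀ j, Monotone (ρ j)) (hτ : ∀ j, Monotone (τ j)) (h0 : ∀ A, ρ 0 A = M)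
    (h1 : ∀ j A, τ j A ≤ ρ j A) (h2 : ∀ j A, τ j A ≤ ρ (j + 1) A)
    (c1 : ∀ j A B, A ≤ B → B ≤ u A → ρ j B ≤ u (τ j A))
    (c2 : ∀ j A B, A ≤ B → B ≤ u A → ρ (j + 1) B ≤ u (τ j A))
    (hst : ∀ A, ∃ J, ∀ j ≥ J, ρ j A = A) (q : ℕ) (z : BC u (q + 1) →₀ ℚ) (hz : BC.bd hu q z = 0) :
    ∃ y, BC.bd hu (q + 1) y = z := by
  apply IC1_all hu M ρ τ hρ hτ h0 h1 h2 c1 c2 hst
  · rw [IC1_d_i hu, hz, map_zero]
  · clear hz
    induction z using Finsupp.induction_linear with
    | zero => simp
    | add x y hx hy => simp only [map_add, hx, hy, add_zero]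
    | single s c =>
      rw [IC1_i_single, IC1_map_single, IC1_r_single, IC1_rl_deg, smul_zero]
      rw [List.ofFn_succ, List.ofFn_succ, List.map_cons, List.map_cons, h0, h0]
      exact IC1_Deg.base _ _

theorem BC.exact0 {u : P → P} (hu : Monotone u) (M : P) (ρ τ : ℕ → P → P)
    (hρ : ∀ j, Monotone (ρ j)) (hτ : ∀ j, Monotone (τ j)) (h0 : ∀ A, ρ 0 A = M)
    (h1 : ∀ j A, τ j A ≤ ρ j A) (h2 : ∀ j A, τ j A ≤ ρ (j + 1) A)
    (c1 : ∀ j A B, A ≤ B → B ≤ u A → ρ j B ≤ u (τ j A))
    (c2 : ∀ j A B, A ≤ B → B ≤ u A → ρ (j + 1) B ≤ u (τ j A))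
    (hst : ∀ A, ∃ J, ∀ j ≥ J, ρ j A = A) (z : BC u 0 →₀ ℚ) (hz : (z.sum fun _ a => a) = 0) :
    ∃ y, BC.bd hu 0 y = z := by
  apply IC1_all hu M ρ τ hρ hτ h0 h1 h2 c1 c2 hst
  · rw [IC1_d_i0, hz, Finsupp.single_zero]
  · have h5 : ∀ z : BC u 0 →₀ ℚ, IC1_map (ρ 0) (IC1_i u 0 z) = Finsupp.single [M] (z.sum fun _ a => a) := by
      intro z
      induction z using Finsupp.induction_linear with
      | zero => simp
      | add x y hx hy =>
        rw [map_add, map_add, hx, hy, Finsupp.sum_add_index' (fun _ => rfl) (fun _ _ _ => rfl),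
          Finsupp.single_add]
      | single s c =>
        rw [IC1_i_single, IC1_map_single, Finsupp.sum_single_index rfl, List.ofFn_succ, List.ofFn_zero,
          List.map_cons, List.map_nil, h0]
    rw [h5, hz, Finsupp.single_zero, map_zero]

end St16I
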