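import Pool.Agent.LibSt16.IDefs2
import Pool.Agent.LibSt16.IC1

/-!
ST16 IC2. The complex of `Y` is exact.

Plan. `BC.exact` with `M = sM Φ c 0`, `ρ j A = (A ⊓ sM (-j)) ⊔ sM j`, `τ j A = (A ⊓ sM (-j)) ⊔ sM (j+1)` (lattices: they lie
between `ν^(j+1) M ⊓ ...`, in fact between `sM (j+1)` and `sM (-j)`). Compatibility: `up` commutes with `⊓` and `⊔` (it is
multiplication by `ν⁻¹`, an order automorphism: `up A ⊓ up B = up (A ⊓ B)` by membership, and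
`up A ⊔ up B ≤ up (A ⊔ B)`, `up (A ⊔ B) ≤ up A ⊔ up B` by multiplying with `ν`), `up_sM`, `sM_anti`:
`ρ j B = (B ⊓ sM (-j)) ⊔ sM j ≤ (up A ⊓ sM (-j-1)) ⊔ sM j = up (τ j A)`, the same for `ρ (j+1) B`.
`hst`: `sM k ≤ A ≤ sM (-k)` gives `ρ j A = A` for `j ≥ k`.
-/

namespace St16I

variable {Φ : Finset P1} {c : ℕ}

/-- The standard lattice `OP^c`. -/
noncomputable def M0 (Φ : Finset P1) (c : ℕ) : Lat Φ c := ⟨sM Φ c 0, 0, by simp, by simp⟩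

theorem bd_bd (q : ℕ) (z : Y Φ c (q + 2) →₀ ℚ) : bd q (bd (q + 1) z) = 0 := BC.bd_bd _ q z

private noncomputable def IC2_rho (j : ℕ) (A : Lat Φ c) : Lat Φ c :=
  ⟨(A.1 ⊓ sM Φ c (-(j : ℤ))) ⊔ sM Φ c j, j, le_sup_right,
    sup_le inf_le_right (sM_anti (by omega))⟩

private noncomputable def IC2_tau (j : ℕ) (A : Lat Φ c) : Lat Φ c :=
  ⟨(A.1 ⊓ sM Φ c (-(j : ℤ))) ⊔ sM Φ c ((j : ℤ) + 1), j + 1, by
    have : ((j + 1 : ℕ) : ℤ) = (j : ℤ) + 1 := by push_cast; rfl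
    rw [this]
    exact le_sup_right,
    sup_le (inf_le_right.trans (sM_anti (by push_cast; omega))) (sM_anti (by push_cast; omega))⟩

private theorem IC2_rho_mono (j : ℕ) : Monotone (IC2_rho (Φ := Φ) (c := c) j) := by
  intro A B h
  show (A.1 ⊓ sM Φ c (-(j : ℤ))) ⊔ sM Φ c j ≤ (B.1 ⊓ sM Φ c (-(j : ℤ))) ⊔ sM Φ c j
  exact sup_le_sup_right (inf_le_inf_right _ h) _

private theorem IC2_tau_mono (j : ℕ) : Monotone (IC2_tau (Φ := Φ) (c := c) j) := by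
  intro A B h
  show (A.1 ⊓ sM Φ c (-(j : ℤ))) ⊔ sM Φ c ((j : ℤ) + 1) ≤ (B.1 ⊓ sM Φ c (-(j : ℤ))) ⊔ sM Φ c ((j : ℤ) + 1)
  exact sup_le_sup_right (inf_le_inf_right _ h) _

private theorem IC2_h0 (A : Lat Φ c) : IC2_rho 0 A = M0 Φ c := by
  apply Subtype.ext
  show (A.1 ⊓ sM Φ c (-((0 : ℕ) : ℤ))) ⊔ sM Φ c ((0 : ℕ) : ℤ) = sM Φ c 0
  rw [Nat.cast_zero, neg_zero]
  exact sup_eq_right.2 inf_le_right

private theorem IC2_h1 (j : ℕ) (A : Lat Φ c) : IC2_tau j A ≤ IC2_rho j A := by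
  show (A.1 ⊓ sM Φ c (-(j : ℤ))) ⊔ sM Φ c ((j : ℤ) + 1) ≤ (A.1 ⊓ sM Φ c (-(j : ℤ))) ⊔ sM Φ c j
  exact sup_le_sup_left (sM_anti (by omega)) _

private theorem IC2_h2 (j : ℕ) (A : Lat Φ c) : IC2_tau j A ≤ IC2_rho (j + 1) A := by
  show (A.1 ⊓ sM Φ c (-(j : ℤ))) ⊔ sM Φ c ((j : ℤ) + 1) ≤
    (A.1 ⊓ sM Φ c (-((j + 1 : ℕ) : ℤ))) ⊔ sM Φ c ((j + 1 : ℕ) : ℤ)
  exact sup_le_sup (inf_le_inf_left _ (sM_anti (by push_cast; omega))) (sM_anti (by push_cast; omega))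

private theorem IC2_up (k : ℤ) (v : Fin c → E) (hv : v ∈ sM Φ c (k - 1)) : nuE Φ • v ∈ sM Φ c k := by
  rw [← up_sM] at hv
  exact hv

private theorem IC2_c1 (j : ℕ) (A B : Lat Φ c) (_ : A ≤ B) (hBA : B ≤ upL A) :
    IC2_rho j B ≤ upL (IC2_tau j A) := by
  show (B.1 ⊓ sM Φ c (-(j : ℤ))) ⊔ sM Φ c j ≤ up ((A.1 ⊓ sM Φ c (-(j : ℤ))) ⊔ sM Φ c ((j : ℤ) + 1))
  refine sup_le ?_ ?_
  · rintro v ⟨h1, h2⟩
    refine mem_up.2 (Submodule.mem_sup_left ⟨hBA h1, ?_⟩)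
    exact IC2_up _ _ (sM_anti (by omega) h2)
  · intro v hv
    refine mem_up.2 (Submodule.mem_sup_right (IC2_up _ _ ?_))
    rw [add_sub_cancel_right]
    exact hv

private theorem IC2_c2 (j : ℕ) (A B : Lat Φ c) (_ : A ≤ B) (hBA : B ≤ upL A) :
    IC2_rho (j + 1) B ≤ upL (IC2_tau j A) := by
  show (B.1 ⊓ sM Φ c (-((j + 1 : ℕ) : ℤ))) ⊔ sM Φ c ((j + 1 : ℕ) : ℤ) ≤
    up ((A.1 ⊓ sM Φ c (-(j : ℤ))) ⊔ sM Φ c ((j : ℤ) + 1))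
  refine sup_le ?_ ?_
  · rintro v ⟨h1, h2⟩
    refine mem_up.2 (Submodule.mem_sup_left ⟨hBA h1, ?_⟩)
    exact IC2_up _ _ (sM_anti (by push_cast; omega) h2)
  · intro v hv
    refine mem_up.2 (Submodule.mem_sup_right (IC2_up _ _ ?_))
    exact sM_anti (by push_cast; omega) hv

private theorem IC2_hst (A : Lat Φ c) : ∃ J, ∀ j ≥ J, IC2_rho j A = A := by
  obtain ⟨k, h1, h2⟩ := A.2
  refine ⟨k, fun j hj => Subtype.ext ?_⟩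
  show (A.1 ⊓ sM Φ c (-(j : ℤ))) ⊔ sM Φ c j = A.1
  rw [inf_eq_left.2 (h2.trans (sM_anti (by omega))), sup_eq_left.2 ((sM_anti (by omega)).trans h1)]

theorem Y_exact (q : ℕ) (z : Y Φ c (q + 1) →₀ ℚ) (hz : bd q z = 0) : ∃ y, bd (q + 1) y = z := by
  exact BC.exact upL_monotone (M0 Φ c) IC2_rho IC2_tau IC2_rho_mono IC2_tau_mono IC2_h0 IC2_h1 IC2_h2
    IC2_c1 IC2_c2 IC2_hst q z hz

theorem Y_exact0 (z : Y Φ c 0 →₀ ℚ) (hz : (z.sum fun _ a => a) = 0) : ∃ y, bd 0 y = z := by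
  exact BC.exact0 upL_monotone (M0 Φ c) IC2_rho IC2_tau IC2_rho_mono IC2_tau_mono IC2_h0 IC2_h1 IC2_h2
    IC2_c1 IC2_c2 IC2_hst z hz

end St16I
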