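import Mathlib

/-!
MP_8b67e9, block I: the unitary groups `U(c, ℤ[1/p : p ≡ 1 mod 4][i])` and the lattices at finitely many
Gaussian primes. Definitions.
-/

namespace St16I

open Matrix QuadraticAlgebra

instance factE : Fact (∀ r : ℚ, r ^ 2 ≠ (-1) + 0 * r) := ⟨fun r h => by nlinarith [sq_nonneg r]⟩

/-- The Gaussian rationals `ℚ(i)`; `star` is complex conjugation. -/
abbrev E := QuadraticAlgebra ℚ (-1) 0

/-- The inclusion of the Gaussian integers. -/
def gi : GaussianInt →+* E where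
  toFun x := ⟨x.re, x.im⟩
  map_one' := by ext <;> simp [re_one, im_one]
  map_mul' x y := by ext <;> simp
  map_zero' := by ext <;> simp
  map_add' x y := by ext <;> simp

theorem gi_re (x : GaussianInt) : (gi x).re = x.re := rfl

theorem gi_im (x : GaussianInt) : (gi x).im = x.im := rfl

theorem gi_injective : Function.Injective gi := by
  intro x y h
  have h1 := congrArg QuadraticAlgebra.re h
  have h2 := congrArg QuadraticAlgebra.im h
  rw [gi_re, gi_re] at h1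
  rw [gi_im, gi_im] at h2
  ext
  · exact_mod_cast h1
  · exact_mod_cast h2

theorem gi_star (x : GaussianInt) : gi (star x) = star (gi x) := by
  ext <;> simp [gi]

theorem gi_natCast (n : ℕ) : gi (n : GaussianInt) = (n : E) := map_natCast gi n

/-! ### Subrings -/

/-- `ℤ[i][1/N]`. -/
def ZInv (N : ℕ) : Subring E where
  carrier := {z | ∃ k : ℕ, (N : E) ^ k * z ∈ gi.range}
  mul_mem' := by
    rintro x y ⟨k, a, ha⟩ ⟨l, b, hb⟩
    refine ⟨k + l, a * b, ?_⟩
    rw [map_mul, ha, hb]; ring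
  one_mem' := ⟨0, 1, by simp⟩
  add_mem' := by
    rintro x y ⟨k, a, ha⟩ ⟨l, b, hb⟩
    refine ⟨k + l, (N : GaussianInt) ^ l * a + (N : GaussianInt) ^ k * b, ?_⟩
    rw [map_add, map_mul, map_mul, ha, hb, map_pow, map_pow, gi_natCast]; ring
  zero_mem' := ⟨0, 0, by simp⟩
  neg_mem' := by
    rintro x ⟨k, a, ha⟩
    refine ⟨k, -a, ?_⟩
    rw [map_neg, ha]; ring

/-- `ℤ[1/p : p ≡ 1 mod 4][i]`. -/
def ZZi : Subring E where
  carrier := {z | ∃ n : ℕ, n ≠ 0 ∧ (∀ p : ℕ, p.Prime → p ∣ n → p % 4 = 1) ∧ (n : E) * z ∈ gi.range}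
  mul_mem' := by
    rintro x y ⟨k, hk, hk', a, ha⟩ ⟨l, hl, hl', b, hb⟩
    refine ⟨k * l, Nat.mul_ne_zero hk hl, ?_, a * b, ?_⟩
    · intro p hp h
      rcases (hp.dvd_mul).1 h with h | h
      · exact hk' p hp h
      · exact hl' p hp h
    · rw [map_mul, ha, hb]; push_cast; ring
  one_mem' := ⟨1, one_ne_zero, fun p hp h => absurd (Nat.dvd_one.1 h) hp.ne_one, 1, by simp⟩
  add_mem' := by
    rintro x y ⟨k, hk, hk', a, ha⟩ ⟨l, hl, hl', b, hb⟩
    refine ⟨k * l, Nat.mul_ne_zero hk hl, ?_, (l : GaussianInt) * a + (k : GaussianInt) * b, ?_⟩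
    · intro p hp h
      rcases (hp.dvd_mul).1 h with h | h
      · exact hk' p hp h
      · exact hl' p hp h
    · rw [map_add, map_mul, map_mul, ha, hb, gi_natCast, gi_natCast]; push_cast; ring
  zero_mem' := ⟨1, one_ne_zero, fun p hp h => absurd (Nat.dvd_one.1 h) hp.ne_one, 0, by simp⟩
  neg_mem' := by
    rintro x ⟨k, hk, hk', a, ha⟩
    refine ⟨k, hk, hk', -a, ?_⟩
    rw [map_neg, ha]; ring

theorem star_mem_ZInv {N : ℕ} {z : E} (h : z ∈ ZInv N) : star z ∈ ZInv N := by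
  obtain ⟨k, a, ha⟩ := h
  refine ⟨k, star a, ?_⟩
  rw [gi_star, ha, star_mul, star_pow, star_natCast]; ring

theorem star_mem_ZZi {z : E} (h : z ∈ ZZi) : star z ∈ ZZi := by
  obtain ⟨k, hk, hk', a, ha⟩ := h
  refine ⟨k, hk, hk', star a, ?_⟩
  rw [gi_star, ha, star_mul, star_natCast]; ring

/-! ### The groups -/

/-- For a subring `R` of `E` stable under conjugation: the group `U(c, R)`. -/
def UU (R : Subring E) (hR : ∀ z ∈ R, star z ∈ R) (c : ℕ) : Subgroup (GL (Fin c) E) where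
  carrier := {g | (g : Matrix (Fin c) (Fin c) E)ᴴ * g = 1 ∧ ∀ i j, (g : Matrix (Fin c) (Fin c) E) i j ∈ R}
  mul_mem' := by
    rintro g h ⟨hg, hg'⟩ ⟨hh, hh'⟩
    refine ⟨?_, ?_⟩
    · rw [Units.val_mul, conjTranspose_mul]
      calc (h : Matrix (Fin c) (Fin c) E)ᴴ * (g : Matrix (Fin c) (Fin c) E)ᴴ * (g * h)
          = (h : Matrix (Fin c) (Fin c) E)ᴴ * ((g : Matrix (Fin c) (Fin c) E)ᴴ * g) * h := by
            simp only [Matrix.mul_assoc]
        _ = 1 := by rw [hg, Matrix.mul_one, hh]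
    · intro i j
      rw [Units.val_mul, Matrix.mul_apply]
      exact Subring.sum_mem _ fun k _ => Subring.mul_mem _ (hg' i k) (hh' k j)
  one_mem' := by
    refine ⟨by simp, ?_⟩
    intro i j
    rw [Units.val_one, Matrix.one_apply]
    split_ifs
    · exact Subring.one_mem _
    · exact Subring.zero_mem _
  inv_mem' := by
    rintro g ⟨hg, hg'⟩
    have e : (↑g⁻¹ : Matrix (Fin c) (Fin c) E) = (g : Matrix (Fin c) (Fin c) E)ᴴ := by
      have h1 : (g : Matrix (Fin c) (Fin c) E) * (↑g⁻¹ : Matrix (Fin c) (Fin c) E) = 1 := by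
        rw [← Units.val_mul, mul_inv_cancel, Units.val_one]
      calc (↑g⁻¹ : Matrix (Fin c) (Fin c) E)
          = ((g : Matrix (Fin c) (Fin c) E)ᴴ * g) * (↑g⁻¹ : Matrix (Fin c) (Fin c) E) := by
            rw [hg, Matrix.one_mul]
        _ = (g : Matrix (Fin c) (Fin c) E)ᴴ := by rw [Matrix.mul_assoc, h1, Matrix.mul_one]
    refine ⟨?_, ?_⟩
    · rw [e, conjTranspose_conjTranspose]
      exact mul_eq_one_comm.1 hg
    · intro i j
      rw [e, conjTranspose_apply]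
      exact hR _ (hg' j i)

/-- `G_c = U(c, ℤ[1/p : p ≡ 1 mod 4][i])`. -/
abbrev Gc (c : ℕ) : Subgroup (GL (Fin c) E) := UU ZZi (fun _ h => star_mem_ZZi h) c

/-- The primes `p ≡ 1 mod 4`. -/
abbrev P1 := {p : ℕ // p.Prime ∧ p % 4 = 1}

theorem exists_w (p : P1) : ∃ w : GaussianInt, w * star w = (p.1 : GaussianInt) := by
  have := Fact.mk p.2.1
  obtain ⟨a, b, h⟩ := Nat.Prime.sq_add_sq (p := p.1) (by have := p.2.2; omega)
  refine ⟨⟨a, b⟩, ?_⟩
  ext
  · simp
    exact_mod_cast (by nlinarith : a * a + b * b = p.1)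
  · simp; ring

/-- A Gaussian prime above `p`. -/
noncomputable def w (p : P1) : GaussianInt := (exists_w p).choose

theorem w_mul_star (p : P1) : w p * star (w p) = (p.1 : GaussianInt) := (exists_w p).choose_spec

/-- `N = ∏ p`. -/
def NN (Φ : Finset P1) : ℕ := ∏ p ∈ Φ, p.1

/-- `ν = ∏ w`. -/
noncomputable def nu (Φ : Finset P1) : GaussianInt := ∏ p ∈ Φ, w p

theorem nu_mul_star (Φ : Finset P1) : nu Φ * star (nu Φ) = (NN Φ : GaussianInt) := by
  classical
  unfold nu NN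
  rw [star_prod, ← Finset.prod_mul_distrib]
  push_cast
  exact Finset.prod_congr rfl fun p _ => w_mul_star p

theorem NN_ne_zero (Φ : Finset P1) : NN Φ ≠ 0 :=
  Finset.prod_ne_zero_iff.2 fun p _ => p.2.1.ne_zero

theorem nu_ne_zero (Φ : Finset P1) : nu Φ ≠ 0 := by
  intro h
  have := nu_mul_star Φ
  rw [h, zero_mul] at this
  exact NN_ne_zero Φ (by exact_mod_cast this.symm)

/-- `ν` in `E`. -/
noncomputable def nuE (Φ : Finset P1) : E := gi (nu Φ)

theorem nuE_ne_zero (Φ : Finset P1) : nuE Φ ≠ 0 := by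
  rw [nuE, Ne, map_eq_zero_iff gi gi_injective]
  exact nu_ne_zero Φ

/-- `Γ_Φ = U(c, ℤ[i][1/N])`. -/
abbrev Ga (Φ : Finset P1) (c : ℕ) : Subgroup (GL (Fin c) E) :=
  UU (ZInv (NN Φ)) (fun _ h => star_mem_ZInv h) c

/-- The ring of the elements of `E` which are integral at the Gaussian primes `w p`, `p ∈ Φ`. -/
def OP (Φ : Finset P1) : Subring E where
  carrier := {z | ∃ a b : GaussianInt, IsCoprime b (nu Φ) ∧ gi b * z = gi a}
  mul_mem' := by
    rintro x y ⟨a, b, h, e⟩ ⟨a', b', h', e'⟩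
    exact ⟨a * a', b * b', h.mul_left h', by rw [map_mul, map_mul, ← e, ← e']; ring⟩
  one_mem' := ⟨1, 1, isCoprime_one_left, by simp⟩
  add_mem' := by
    rintro x y ⟨a, b, h, e⟩ ⟨a', b', h', e'⟩
    exact ⟨b' * a + b * a', b * b', h.mul_left h', by
      rw [map_mul, map_add, map_mul, map_mul, ← e, ← e']; ring⟩
  zero_mem' := ⟨0, 1, isCoprime_one_left, by simp⟩
  neg_mem' := by
    rintro x ⟨a, b, h, e⟩
    exact ⟨-a, b, h, by rw [map_neg, ← e]; ring⟩

/-! ### Lattices -/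

/-- `ν^k · OP^c`. -/
noncomputable def sM (Φ : Finset P1) (c : ℕ) (k : ℤ) : Submodule (OP Φ) (Fin c → E) where
  carrier := {v | ∀ i, nuE Φ ^ (-k) * v i ∈ OP Φ}
  add_mem' := by
    intro u v hu hv i
    rw [Pi.add_apply, mul_add]
    exact Subring.add_mem _ (hu i) (hv i)
  zero_mem' := by
    intro i
    rw [Pi.zero_apply, mul_zero]
    exact Subring.zero_mem _
  smul_mem' := by
    intro r v hv i
    have e : nuE Φ ^ (-k) * (r • v) i = (r : E) * (nuE Φ ^ (-k) * v i) := by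
      rw [Pi.smul_apply, Subring.smul_def, smul_eq_mul]; ring
    rw [e]
    exact Subring.mul_mem _ r.2 (hv i)

/-- `A` is a lattice: `ν^k M ≤ A ≤ ν^(-k) M` for some `k`. -/
def IsLat {Φ : Finset P1} {c : ℕ} (A : Submodule (OP Φ) (Fin c → E)) : Prop :=
  ∃ k : ℕ, sM Φ c k ≤ A ∧ A ≤ sM Φ c (-k)

/-- The lattices of `E^c` (at the Gaussian primes in `Φ`), ordered by inclusion. -/
abbrev Lat (Φ : Finset P1) (c : ℕ) := {A : Submodule (OP Φ) (Fin c → E) // IsLat A}

/-- `g A`. -/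
noncomputable def act {Φ : Finset P1} {c : ℕ} (g : GL (Fin c) E) (A : Submodule (OP Φ) (Fin c → E)) :
    Submodule (OP Φ) (Fin c → E) :=
  A.map ((Matrix.toLin' (g : Matrix (Fin c) (Fin c) E)).restrictScalars (OP Φ))

/-- `ν⁻¹ A`. -/
noncomputable def up {Φ : Finset P1} {c : ℕ} (A : Submodule (OP Φ) (Fin c → E)) :
    Submodule (OP Φ) (Fin c → E) where
  carrier := {v | nuE Φ • v ∈ A}
  add_mem' := by
    intro u v hu hv
    have : nuE Φ • (u + v) = nuE Φ • u + nuE Φ • v := smul_add _ _ _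
    simpa only [Set.mem_ofPred_eq, this] using A.add_mem hu hv
  zero_mem' := by
    simp
  smul_mem' := by
    intro r v hv
    have : nuE Φ • (r • v) = r • (nuE Φ • v) := smul_comm _ _ _
    simpa only [Set.mem_ofPred_eq, this] using A.smul_mem r hv

section
variable {Φ : Finset P1} {c : ℕ}

theorem mem_sM {k : ℤ} {v : Fin c → E} : v ∈ sM Φ c k ↔ ∀ i, nuE Φ ^ (-k) * v i ∈ OP Φ := Iff.rfl

theorem mem_up {A : Submodule (OP Φ) (Fin c → E)} {v : Fin c → E} : v ∈ up A ↔ nuE Φ • v ∈ A := Iff.rfl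

theorem mem_act {g : GL (Fin c) E} {A : Submodule (OP Φ) (Fin c → E)} {v : Fin c → E} :
    v ∈ act g A ↔ (↑g⁻¹ : Matrix (Fin c) (Fin c) E) *ᵥ v ∈ A := by
  have h1 : (↑g⁻¹ : Matrix (Fin c) (Fin c) E) * (g : Matrix (Fin c) (Fin c) E) = 1 := by
    rw [← Units.val_mul, inv_mul_cancel, Units.val_one]
  have h2 : (g : Matrix (Fin c) (Fin c) E) * (↑g⁻¹ : Matrix (Fin c) (Fin c) E) = 1 := by
    rw [← Units.val_mul, mul_inv_cancel, Units.val_one]
  constructor
  · rintro ⟨u, hu, rfl⟩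
    change (↑g⁻¹ : Matrix (Fin c) (Fin c) E) *ᵥ ((g : Matrix (Fin c) (Fin c) E) *ᵥ u) ∈ A
    rw [Matrix.mulVec_mulVec, h1, Matrix.one_mulVec]
    exact hu
  · intro h
    refine ⟨_, h, ?_⟩
    change (g : Matrix (Fin c) (Fin c) E) *ᵥ ((↑g⁻¹ : Matrix (Fin c) (Fin c) E) *ᵥ v) = v
    rw [Matrix.mulVec_mulVec, h2, Matrix.one_mulVec]

theorem act_one (A : Submodule (OP Φ) (Fin c → E)) : act 1 A = A := by
  ext v
  rw [mem_act, inv_one, Units.val_one, Matrix.one_mulVec]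

theorem act_mul (g h : GL (Fin c) E) (A : Submodule (OP Φ) (Fin c → E)) :
    act (g * h) A = act g (act h A) := by
  ext v
  rw [mem_act, mem_act, mem_act, _root_.mul_inv_rev, Units.val_mul, Matrix.mulVec_mulVec]

theorem act_mono (g : GL (Fin c) E) {A B : Submodule (OP Φ) (Fin c → E)} (h : A ≤ B) :
    act g A ≤ act g B := Submodule.map_mono h

theorem act_le_act (g : GL (Fin c) E) {A B : Submodule (OP Φ) (Fin c → E)} :
    act g A ≤ act g B ↔ A ≤ B := by
  refine ⟨fun h => ?_, act_mono g⟩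
  have := act_mono g⁻¹ h
  rwa [← act_mul, ← act_mul, inv_mul_cancel, act_one, act_one] at this

theorem act_up (g : GL (Fin c) E) (A : Submodule (OP Φ) (Fin c → E)) : act g (up A) = up (act g A) := by
  ext v
  rw [mem_act, mem_up, mem_up, mem_act, Matrix.mulVec_smul]

theorem up_mono {A B : Submodule (OP Φ) (Fin c → E)} (h : A ≤ B) : up A ≤ up B := fun _ hv => h hv

end

end St16I
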