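import Pool.Agent.LibSt16.IA1
import Pool.Agent.LibSt16.IBC

/-!
MP_8b67e9, block I: the action on the lattices, the complex `Y_Φ`, types.
-/

namespace St16I

open Matrix QuadraticAlgebra

section
variable {Φ : Finset P1} {c : ℕ}

theorem pow_mul_mem_of_le {k l : ℕ} (h : k ≤ l) {x : E} (hx : nuE Φ ^ k * x ∈ OP Φ) : nuE Φ ^ l * x ∈ OP Φ := by
  obtain ⟨m, rfl⟩ := Nat.exists_eq_add_of_le h
  rw [pow_add, mul_comm (nuE Φ ^ k), mul_assoc]
  exact Subring.mul_mem _ (Subring.pow_mem _ (nuE_mem_OP Φ) m) hx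

theorem sM_anti {k l : ℤ} (h : k ≤ l) : sM Φ c l ≤ sM Φ c k := by
  intro v hv i
  obtain ⟨m, hm⟩ := Int.eq_ofNat_of_zero_le (sub_nonneg.2 h)
  have e : nuE Φ ^ (-k) * v i = nuE Φ ^ m * (nuE Φ ^ (-l) * v i) := by
    rw [← mul_assoc, ← zpow_natCast, ← zpow_add₀ (nuE_ne_zero Φ), ← hm]
    congr 2
    ring
  rw [e]
  exact Subring.mul_mem _ (Subring.pow_mem _ (nuE_mem_OP Φ) m) (hv i)

theorem up_sM (k : ℤ) : up (sM Φ c k) = sM Φ c (k - 1) := by
  ext v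
  rw [mem_up, mem_sM, mem_sM]
  refine forall_congr' fun i => ?_
  have e : nuE Φ ^ (-(k - 1)) * v i = nuE Φ ^ (-k) * (nuE Φ • v) i := by
    rw [Pi.smul_apply, smul_eq_mul, ← mul_assoc, neg_sub, sub_eq_neg_add, zpow_add₀ (nuE_ne_zero Φ), zpow_one]
  rw [e]

/-- A matrix maps `M` into `ν^(-k) M` for some `k`. -/
theorem exists_act_sM_le (g : GL (Fin c) E) : ∃ k : ℕ, ∀ l : ℤ, act g (sM Φ c l) ≤ sM Φ c (l - k) := by
  have h : ∃ k : ℕ, ∀ i j, nuE Φ ^ k * (g : Matrix (Fin c) (Fin c) E) i j ∈ OP Φ := by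
    have h1 : ∀ q : Fin c × Fin c, ∃ k : ℕ, nuE Φ ^ k * (g : Matrix (Fin c) (Fin c) E) q.1 q.2 ∈ OP Φ :=
      fun q => exists_pow_mul_mem Φ _
    choose f hf using h1
    exact ⟨Finset.univ.sup f, fun i j => pow_mul_mem_of_le (Finset.le_sup (f := f) (Finset.mem_univ (i, j))) (hf (i, j))⟩
  obtain ⟨k, hk⟩ := h
  refine ⟨k, fun l => ?_⟩
  rintro _ ⟨v, hv, rfl⟩
  intro i
  change nuE Φ ^ (-(l - k)) * ((g : Matrix (Fin c) (Fin c) E) *ᵥ v) i ∈ OP Φ
  rw [Matrix.mulVec, dotProduct, Finset.mul_sum]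
  refine Subring.sum_mem _ fun j _ => ?_
  have e : nuE Φ ^ (-(l - k)) * ((g : Matrix (Fin c) (Fin c) E) i j * v j) =
      (nuE Φ ^ k * (g : Matrix (Fin c) (Fin c) E) i j) * (nuE Φ ^ (-l) * v j) := by
    rw [neg_sub, sub_eq_add_neg, zpow_add₀ (nuE_ne_zero Φ), zpow_natCast]
    ring
  rw [e]
  exact Subring.mul_mem _ (hk i j) (hv j)

theorem IsLat.act {A : Submodule (OP Φ) (Fin c → E)} (hA : IsLat A) (g : GL (Fin c) E) : IsLat (act g A) := by
  obtain ⟨k, h1, h2⟩ := hA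
  obtain ⟨a, ha⟩ := exists_act_sM_le (Φ := Φ) g
  obtain ⟨b, hb⟩ := exists_act_sM_le (Φ := Φ) g⁻¹
  refine ⟨k + a + b, ?_, ?_⟩
  · rw [← act_le_act g⁻¹, ← act_mul, inv_mul_cancel, act_one]
    refine (hb _).trans ((sM_anti ?_).trans h1)
    push_cast; linarith
  · refine (act_mono g h2).trans ((ha _).trans (sM_anti ?_))
    push_cast; linarith

theorem IsLat.up {A : Submodule (OP Φ) (Fin c → E)} (hA : IsLat A) : IsLat (up A) := by
  obtain ⟨k, h1, h2⟩ := hA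
  refine ⟨k + 1, ?_, ?_⟩
  · refine le_trans ?_ (up_mono h1)
    rw [up_sM]
    exact sM_anti (by push_cast; linarith)
  · refine (up_mono h2).trans ?_
    rw [up_sM]
    exact sM_anti (by push_cast; linarith)

noncomputable instance : MulAction (GL (Fin c) E) (Lat Φ c) where
  smul g A := ⟨St16I.act g A.1, A.2.act g⟩
  one_smul A := Subtype.ext (act_one A.1)
  mul_smul g h A := Subtype.ext (act_mul g h A.1)

theorem smul_val (g : GL (Fin c) E) (A : Lat Φ c) : (g • A).1 = act g A.1 := rfl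

/-- `ν⁻¹ A`, for lattices. -/
noncomputable def upL (A : Lat Φ c) : Lat Φ c := ⟨up A.1, A.2.up⟩

theorem smul_le_smul (g : GL (Fin c) E) {A B : Lat Φ c} : g • A ≤ g • B ↔ A ≤ B := act_le_act g

theorem smul_lt_smul (g : GL (Fin c) E) {A B : Lat Φ c} : g • A < g • B ↔ A < B := by
  rw [lt_iff_le_not_ge, lt_iff_le_not_ge, smul_le_smul, smul_le_smul]

theorem smul_upL (g : GL (Fin c) E) (A : Lat Φ c) : g • upL A = upL (g • A) := Subtype.ext (act_up g A.1)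

theorem upL_mono {A B : Lat Φ c} (h : A ≤ B) : upL A ≤ upL B := up_mono h

theorem le_upL (A : Lat Φ c) : A ≤ upL A := by
  intro v hv
  exact A.1.smul_mem (⟨nuE Φ, nuE_mem_OP Φ⟩ : OP Φ) hv

theorem upL_monotone : Monotone (upL (Φ := Φ) (c := c)) := fun _ _ h => upL_mono h

variable (Φ c)

/-- The `q`-simplices of `Y`: the strict chains `A_0 < ... < A_q ≤ ν⁻¹ A_0` of lattices. -/
abbrev Y (q : ℕ) := BC (upL (Φ := Φ) (c := c)) q

variable {Φ c}

noncomputable instance (q : ℕ) : MulAction (GL (Fin c) E) (Y Φ c q) where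
  smul g s := ⟨fun k => g • s.1 k, fun _ _ h => (smul_lt_smul g).2 (s.2.1 h), by
    rw [← smul_upL]; exact (smul_le_smul g).2 s.2.2⟩
  one_smul s := Subtype.ext (funext fun k => one_smul _ (s.1 k))
  mul_smul g h s := Subtype.ext (funext fun k => mul_smul g h (s.1 k))

theorem smul_Y (g : GL (Fin c) E) {q : ℕ} (s : Y Φ c q) (k : Fin (q + 1)) : (g • s).1 k = g • s.1 k := rfl

/-- The faces. -/
noncomputable def face {q : ℕ} (i : Fin (q + 2)) (s : Y Φ c (q + 1)) : Y Φ c q := BC.face upL_monotone i s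

theorem smul_face (g : GL (Fin c) E) {q : ℕ} (i : Fin (q + 2)) (s : Y Φ c (q + 1)) :
    g • face i s = face i (g • s) := rfl

/-- The boundary. -/
noncomputable def bd (q : ℕ) : (Y Φ c (q + 1) →₀ ℚ) →ₗ[ℚ] (Y Φ c q →₀ ℚ) := BC.bd upL_monotone q

/-- The type of a simplex: the indices `[A_(k+1) : A_k]`. -/
noncomputable def ty {q : ℕ} (s : Y Φ c q) (k : Fin q) : ℕ :=
  (s.1 k.castSucc).1.toAddSubgroup.relIndex (s.1 k.succ).1.toAddSubgroup

end

end St16I
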