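import Pool.Agent.LibSt16.IPB96

/-! The lattices between `M` and `ν⁻¹ M` and the submodules of `(ZMod N)^c`. -/

set_option autoImplicit false

namespace St16I

open Matrix QuadraticAlgebra

variable {Φ : Finset P1} {c : ℕ}

/-- A reduction map. -/
structure Rd (Φ : Finset P1) where
  π : OP Φ →+* ZMod (NN Φ)
  surj : Function.Surjective π
  ker : ∀ x : OP Φ, π x = 0 ↔ ∃ y : OP Φ, (x : E) = nuE Φ * y
  unit : ∀ x, x ≠ 0 → IsUnit (π x) → IsUnit x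

theorem exists_rd (Φ : Finset P1) : Nonempty (Rd Φ) := by
  obtain ⟨π, h1, h2, h3⟩ := exists_pi Φ
  exact ⟨⟨π, h1, h2, h3⟩⟩

/-- The lattice of `C ≤ (ZMod N)^c`. -/
noncomputable def LL (ρ : Rd Φ) (C : Submodule (ZMod (NN Φ)) (Fin c → ZMod (NN Φ))) : Submodule (OP Φ) (Fin c → E) where
  carrier := {v | ∃ x : Fin c → OP Φ, (∀ i, nuE Φ * v i = x i) ∧ (fun i => ρ.π (x i)) ∈ C}
  add_mem' := by
    rintro u v ⟨x, hx, hxC⟩ ⟨y, hy, hyC⟩
    refine ⟨x + y, fun i => ?_, ?_⟩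
    · rw [Pi.add_apply, mul_add, hx, hy]; rfl
    · have : (fun i => ρ.π ((x + y) i)) = (fun i => ρ.π (x i)) + (fun i => ρ.π (y i)) := by
        funext i; exact map_add _ _ _
      rw [this]
      exact C.add_mem hxC hyC
  zero_mem' := by
    refine ⟨0, fun i => by simp, ?_⟩
    have : (fun i => ρ.π ((0 : Fin c → OP Φ) i)) = 0 := by funext i; exact map_zero _
    rw [this]
    exact C.zero_mem
  smul_mem' := by
    rintro r v ⟨x, hx, hxC⟩
    refine ⟨r • x, fun i => ?_, ?_⟩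
    · rw [Pi.smul_apply, Pi.smul_apply, Subring.smul_def, smul_eq_mul, smul_eq_mul, Subring.coe_mul, ← hx]
      ring
    · have : (fun i => ρ.π ((r • x) i)) = ρ.π r • (fun i => ρ.π (x i)) := by
        funext i
        rw [Pi.smul_apply, Pi.smul_apply, smul_eq_mul, smul_eq_mul, map_mul]
      rw [this]
      exact C.smul_mem _ hxC

theorem mem_LL (ρ : Rd Φ) {C : Submodule (ZMod (NN Φ)) (Fin c → ZMod (NN Φ))} {v : Fin c → E} :
    v ∈ LL ρ C ↔ ∃ x : Fin c → OP Φ, (∀ i, nuE Φ * v i = x i) ∧ (fun i => ρ.π (x i)) ∈ C := Iff.rfl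

theorem x_unique {v : Fin c → E} {x y : Fin c → OP Φ} (hx : ∀ i, nuE Φ * v i = x i) (hy : ∀ i, nuE Φ * v i = y i) :
    x = y := by
  funext i
  exact Subtype.ext ((hx i).symm.trans (hy i))

/-- Vectors with prescribed reduction. -/
theorem exists_vec (ρ : Rd Φ) (z : Fin c → ZMod (NN Φ)) : ∃ (v : Fin c → E) (x : Fin c → OP Φ),
    (∀ i, nuE Φ * v i = x i) ∧ (fun i => ρ.π (x i)) = z := by
  choose x hx using fun i => ρ.surj (z i)
  refine ⟨fun i => (nuE Φ)⁻¹ * x i, x, fun i => ?_, funext hx⟩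
  rw [← mul_assoc, mul_inv_cancel₀ (nuE_ne_zero Φ), one_mul]

theorem LL_le (ρ : Rd Φ) {C D : Submodule (ZMod (NN Φ)) (Fin c → ZMod (NN Φ))} : LL ρ C ≤ LL ρ D ↔ C ≤ D := by
  constructor
  · intro h z hz
    obtain ⟨v, x, hx, hxz⟩ := exists_vec ρ z
    obtain ⟨y, hy, hyD⟩ := h (⟨x, hx, by rw [hxz]; exact hz⟩ : v ∈ LL ρ C)
    rw [← x_unique hx hy, hxz] at hyD
    exact hyD
  · rintro h v ⟨x, hx, hxC⟩
    exact ⟨x, hx, h hxC⟩

theorem LL_bot (ρ : Rd Φ) : LL ρ (⊥ : Submodule (ZMod (NN Φ)) (Fin c → ZMod (NN Φ))) = sM Φ c 0 := by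
  ext v
  rw [mem_LL, mem_sM]
  constructor
  · rintro ⟨x, hx, h0⟩ i
    have h1 : ρ.π (x i) = 0 := congrFun ((Submodule.mem_bot _).mp h0) i
    obtain ⟨y, hy⟩ := (ρ.ker _).mp h1
    rw [← hx] at hy
    have h2 : v i = y := mul_left_cancel₀ (nuE_ne_zero Φ) hy
    rw [h2]
    simp
  · intro h
    have h' : ∀ i, v i ∈ OP Φ := by
      intro i
      have := h i
      simpa using this
    refine ⟨fun i => ⟨nuE Φ, nuE_mem_OP Φ⟩ * ⟨v i, h' i⟩, fun i => rfl, ?_⟩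
    rw [Submodule.mem_bot]
    funext i
    exact (ρ.ker _).mpr ⟨⟨v i, h' i⟩, rfl⟩

theorem LL_top (ρ : Rd Φ) : LL ρ (⊤ : Submodule (ZMod (NN Φ)) (Fin c → ZMod (NN Φ))) = up (sM Φ c 0) := by
  ext v
  rw [mem_LL, mem_up, mem_sM]
  constructor
  · rintro ⟨x, hx, _⟩ i
    rw [Pi.smul_apply, smul_eq_mul, hx]
    simp
  · intro h
    have h' : ∀ i, nuE Φ * v i ∈ OP Φ := by
      intro i
      have := h i
      simpa using this
    exact ⟨fun i => ⟨_, h' i⟩, fun i => rfl, Submodule.mem_top⟩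

theorem LL_surj (ρ : Rd Φ) (B : Submodule (OP Φ) (Fin c → E)) (h1 : sM Φ c 0 ≤ B) (h2 : B ≤ up (sM Φ c 0)) :
    ∃ C : Submodule (ZMod (NN Φ)) (Fin c → ZMod (NN Φ)), LL ρ C = B := by
  obtain ⟨C, hC⟩ : ∃ C : AddSubgroup (Fin c → ZMod (NN Φ)), ∀ z, z ∈ C ↔ ∃ v ∈ B, ∃ x : Fin c → OP Φ,
      (∀ i, nuE Φ * v i = x i) ∧ (fun i => ρ.π (x i)) = z := by
    refine ⟨{ carrier := {z | ∃ v ∈ B, ∃ x : Fin c → OP Φ, (∀ i, nuE Φ * v i = x i) ∧ (fun i => ρ.π (x i)) = z},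
              add_mem' := ?_, zero_mem' := ?_, neg_mem' := ?_ }, fun z => Iff.rfl⟩
    · rintro a b ⟨u, hu, x, hx, rfl⟩ ⟨v, hv, y, hy, rfl⟩
      refine ⟨u + v, B.add_mem hu hv, x + y, fun i => ?_, ?_⟩
      · rw [Pi.add_apply, mul_add, hx, hy]; rfl
      · funext i; exact map_add _ _ _
    · exact ⟨0, B.zero_mem, 0, fun i => by simp, by funext i; exact map_zero _⟩
    · rintro a ⟨u, hu, x, hx, rfl⟩
      refine ⟨-u, B.neg_mem hu, -x, fun i => ?_, ?_⟩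
      · rw [Pi.neg_apply, mul_neg, hx]; rfl
      · funext i; exact map_neg _ _
  refine ⟨AddSubgroup.toZModSubmodule (NN Φ) C, le_antisymm ?_ ?_⟩
  · rintro v ⟨x, hx, hxC⟩
    rw [AddSubgroup.mem_toZModSubmodule, hC] at hxC
    obtain ⟨u, hu, y, hy, hxy⟩ := hxC
    have h3 : v - u ∈ sM Φ c 0 := by
      rw [← LL_bot ρ, mem_LL]
      refine ⟨x - y, fun i => ?_, ?_⟩
      · rw [Pi.sub_apply, mul_sub, hx, hy]; rfl
      · rw [Submodule.mem_bot]
        funext i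
        change ρ.π (x i - y i) = 0
        rw [map_sub, sub_eq_zero]
        exact (congrFun hxy i).symm
    have h4 := B.add_mem (h1 h3) hu
    rwa [sub_add_cancel] at h4
  · intro v hv
    have h3 := h2 hv
    rw [← LL_top ρ] at h3
    obtain ⟨x, hx, _⟩ := h3
    refine ⟨x, hx, ?_⟩
    rw [AddSubgroup.mem_toZModSubmodule, hC]
    exact ⟨v, hv, x, hx, rfl⟩

theorem relIndex_LL (ρ : Rd Φ) {C D : Submodule (ZMod (NN Φ)) (Fin c → ZMod (NN Φ))} (h : C ≤ D) :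
    Nat.card C * (LL ρ C).toAddSubgroup.relIndex (LL ρ D).toAddSubgroup = Nat.card D := by
  -- the reduction `LL D → D`
  have hch : ∀ v : (LL ρ D).toAddSubgroup, ∃ x : Fin c → OP Φ, (∀ i, nuE Φ * v.1 i = x i) ∧ (fun i => ρ.π (x i)) ∈ D :=
    fun v => v.2
  choose X hX1 hX2 using hch
  obtain ⟨f, hf⟩ : ∃ f : (LL ρ D).toAddSubgroup →+ D.toAddSubgroup, ∀ v, (f v : Fin c → ZMod (NN Φ)) = fun i => ρ.π (X v i) := by
    refine ⟨AddMonoidHom.mk' (fun v => ⟨fun i => ρ.π (X v i), hX2 v⟩) ?_, fun v => rfl⟩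
    intro u v
    apply Subtype.ext
    have h1 : X (u + v) = X u + X v := by
      apply x_unique (hX1 (u + v))
      intro i
      change nuE Φ * (u.1 i + v.1 i) = _
      rw [mul_add, hX1, hX1]
      rfl
    change (fun i => ρ.π (X (u + v) i)) = (fun i => ρ.π (X u i)) + (fun i => ρ.π (X v i))
    rw [h1]
    funext i
    exact map_add _ _ _
  have hsurj : Function.Surjective f := by
    rintro ⟨z, hz⟩
    obtain ⟨v, x, hx, hxz⟩ := exists_vec ρ z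
    have hv : v ∈ (LL ρ D).toAddSubgroup := ⟨x, hx, by rw [hxz]; exact hz⟩
    refine ⟨⟨v, hv⟩, ?_⟩
    apply Subtype.ext
    rw [hf]
    have h1 : X ⟨v, hv⟩ = x := x_unique (hX1 ⟨v, hv⟩) hx
    rw [h1]
    exact hxz
  have hcomap : (C.toAddSubgroup.addSubgroupOf D.toAddSubgroup).comap f =
      (LL ρ C).toAddSubgroup.addSubgroupOf (LL ρ D).toAddSubgroup := by
    ext v
    rw [AddSubgroup.mem_comap, AddSubgroup.mem_addSubgroupOf, AddSubgroup.mem_addSubgroupOf, hf]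
    constructor
    · intro h1
      exact ⟨X v, hX1 v, h1⟩
    · rintro ⟨x, hx, hxC⟩
      rw [x_unique (hX1 v) hx]
      exact hxC
  have h1 : (LL ρ C).toAddSubgroup.relIndex (LL ρ D).toAddSubgroup = (C.toAddSubgroup.addSubgroupOf D.toAddSubgroup).index := by
    rw [AddSubgroup.relIndex, ← hcomap]
    exact AddSubgroup.index_comap_of_surjective _ hsurj
  rw [h1]
  have h2 := (C.toAddSubgroup.addSubgroupOf D.toAddSubgroup).card_mul_index
  have h3 : Nat.card (C.toAddSubgroup.addSubgroupOf D.toAddSubgroup) = Nat.card C :=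
    Nat.card_congr (AddSubgroup.addSubgroupOfEquivOfLe (H := C.toAddSubgroup) (K := D.toAddSubgroup) h).toEquiv
  rw [h3] at h2
  exact h2

theorem isLat_LL (ρ : Rd Φ) (C : Submodule (ZMod (NN Φ)) (Fin c → ZMod (NN Φ))) : IsLat (LL ρ C) := by
  refine ⟨1, ?_, ?_⟩
  · refine le_trans ?_ ((LL_le ρ).mpr (bot_le : ⊥ ≤ C))
    rw [LL_bot]
    exact sM_anti (by norm_num)
  · refine le_trans ((LL_le ρ).mpr (le_top : C ≤ ⊤)) ?_
    rw [LL_top, up_sM]
    exact sM_anti (by norm_num)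

/-- The lifts of the automorphisms act. -/
theorem act_LL (ρ : Rd Φ) (h : GL (Fin c) (OP Φ)) (e : (Fin c → ZMod (NN Φ)) ≃ₗ[ZMod (NN Φ)] (Fin c → ZMod (NN Φ)))
    (he : ∀ x : Fin c → OP Φ, (fun i => ρ.π ((h.1 *ᵥ x) i)) = e (fun i => ρ.π (x i)))
    (C : Submodule (ZMod (NN Φ)) (Fin c → ZMod (NN Φ))) :
    act (Matrix.GeneralLinearGroup.map (OP Φ).subtype h) (LL ρ C) = LL ρ (C.map (e : (Fin c → ZMod (NN Φ)) →ₗ[ZMod (NN Φ)] _)) := by
  have hmul : ∀ (k : GL (Fin c) (OP Φ)) (v : Fin c → E) (x : Fin c → OP Φ), (∀ i, nuE Φ * v i = x i) →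
      ∀ i, nuE Φ * (((Matrix.GeneralLinearGroup.map (OP Φ).subtype k : GL (Fin c) E) : Matrix (Fin c) (Fin c) E) *ᵥ v) i =
        ((k.1 *ᵥ x) i : OP Φ) := by
    intro k v x hx i
    change nuE Φ * ∑ j, ((k.1 i j : OP Φ) : E) * v j = ((∑ j, k.1 i j * x j : OP Φ) : E)
    rw [Finset.mul_sum, AddSubmonoidClass.coe_finset_sum]
    refine Finset.sum_congr rfl fun j _ => ?_
    rw [Subring.coe_mul, ← hx]
    ring
  apply le_antisymm
  · rintro _ ⟨v, ⟨x, hx, hxC⟩, rfl⟩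
    refine ⟨h.1 *ᵥ x, hmul h v x hx, ?_⟩
    rw [he]
    exact ⟨_, hxC, rfl⟩
  · intro v hv
    obtain ⟨y, hy, z, hz, hzy⟩ := hv
    rw [mem_act]
    have h1 : (↑(Matrix.GeneralLinearGroup.map (OP Φ).subtype h)⁻¹ : Matrix (Fin c) (Fin c) E) =
        ((Matrix.GeneralLinearGroup.map (OP Φ).subtype h⁻¹ : GL (Fin c) E) : Matrix (Fin c) (Fin c) E) := by
      rw [map_inv]
    rw [h1]
    refine ⟨(h⁻¹).1 *ᵥ y, hmul h⁻¹ v y hy, ?_⟩
    have h2 := he ((h⁻¹).1 *ᵥ y)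
    rw [Matrix.mulVec_mulVec] at h2
    have h3 : h.1 * (h⁻¹).1 = 1 := by
      rw [← Units.val_mul, mul_inv_cancel, Units.val_one]
    rw [h3, Matrix.one_mulVec] at h2
    have h4 : e z = e (fun i => ρ.π (((h⁻¹).1 *ᵥ y) i)) := by
      rw [← h2]
      exact hzy
    have h5 := e.injective h4
    rw [← h5]
    exact hz

end St16I
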