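import Pool.Agent.LibSt16.IDefs2

/-!
ST16 IO1. The inclusion of `Y_Φ(1)` into `Y_Φ(c+1)`: definitions and first facts.

Plan. `incS A = A ⊕ OP^c`. `incS_isLat`: for `sM k ≤ A ≤ sM (-k)` the same bounds hold (`k ≥ 0`, `ν ∈ OP`). `inc_up`: if
`ν v_0 ∈ A` and `v_i ∈ OP` then `ν v ∈ A ⊕ OP^c`. `iota`: products of diagonal matrices; for `1 × 1` matrices
`(g h) 0 0 = g 0 0 * h 0 0` (`Matrix.mul_apply`, `Fin.sum_univ_one`).
-/

namespace St16I

open Matrix QuadraticAlgebra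

variable {Φ : Finset P1} {c : ℕ}

/-- `A ⊕ OP^c`. -/
noncomputable def incS (A : Submodule (OP Φ) (Fin 1 → E)) : Submodule (OP Φ) (Fin (c + 1) → E) where
  carrier := {v | (fun _ => v 0) ∈ A ∧ ∀ i : Fin c, v i.succ ∈ OP Φ}
  add_mem' := by
    rintro u v ⟨hu, hu'⟩ ⟨hv, hv'⟩
    exact ⟨A.add_mem hu hv, fun i => Subring.add_mem _ (hu' i) (hv' i)⟩
  zero_mem' := ⟨A.zero_mem, fun i => Subring.zero_mem _⟩
  smul_mem' := by
    rintro r v ⟨hv, hv'⟩
    exact ⟨A.smul_mem r hv, fun i => Subring.mul_mem _ r.2 (hv' i)⟩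

theorem incS_isLat {A : Submodule (OP Φ) (Fin 1 → E)} (h : IsLat A) : IsLat (incS (c := c) A) := by
  obtain ⟨k, h1, h2⟩ := h
  refine ⟨k, fun v hv => ⟨h1 (fun _ => hv 0), fun i => ?_⟩, fun v hv => ?_⟩
  · have h3 := Subring.mul_mem _ (Subring.pow_mem _ (nuE_mem_OP Φ) k) (hv i.succ)
    rwa [← mul_assoc, ← zpow_natCast, ← zpow_add₀ (nuE_ne_zero Φ), add_neg_cancel, zpow_zero,
      one_mul] at h3
  · obtain ⟨hv0, hv1⟩ := hv
    intro i
    refine Fin.cases ?_ (fun i => ?_) i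
    · exact h2 hv0 0
    · rw [neg_neg, zpow_natCast]
      exact Subring.mul_mem _ (Subring.pow_mem _ (nuE_mem_OP Φ) k) (hv1 i)

/-- `A ⊕ OP^c` for lattices. -/
noncomputable def inc (A : Lat Φ 1) : Lat Φ (c + 1) := ⟨incS A.1, incS_isLat A.2⟩

theorem inc_strictMono : StrictMono (inc (Φ := Φ) (c := c)) := by
  intro A B h
  refine lt_iff_le_not_ge.2 ⟨fun v hv => ⟨h.le hv.1, hv.2⟩, fun h1 => ?_⟩
  refine (lt_iff_le_not_ge.1 h).2 fun v hv => ?_
  have h2 : (Fin.cons (v 0) (fun _ => 0) : Fin (c + 1) → E) ∈ incS (c := c) B.1 := by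
    refine ⟨?_, fun i => ?_⟩
    · have e : (fun _ => (Fin.cons (v 0) (fun _ => 0) : Fin (c + 1) → E) 0 : Fin 1 → E) = v := by
        funext i
        rw [Fin.cons_zero, Subsingleton.elim i 0]
      rw [e]
      exact hv
    · rw [Fin.cons_succ]
      exact Subring.zero_mem _
  have h3 := (h1 h2).1
  have e : (fun _ => (Fin.cons (v 0) (fun _ => 0) : Fin (c + 1) → E) 0 : Fin 1 → E) = v := by
    funext i
    rw [Fin.cons_zero, Subsingleton.elim i 0]
  rw [e] at h3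
  exact h3

theorem inc_up (A : Lat Φ 1) : inc (c := c) (upL A) ≤ upL (inc A) := by
  rintro v ⟨hv0, hv1⟩
  exact ⟨hv0, fun i => Subring.mul_mem _ (nuE_mem_OP Φ) (hv1 i)⟩

/-- The inclusion of `Y_Φ(1)` into `Y_Φ(c+1)`. -/
noncomputable def incY {q : ℕ} (s : Y Φ 1 q) : Y Φ (c + 1) q :=
  ⟨fun k => inc (s.1 k), fun _ _ h => inc_strictMono (s.2.1 h),
    (inc_strictMono.monotone s.2.2).trans (inc_up _)⟩

theorem incY_face {q : ℕ} (i : Fin (q + 2)) (s : Y Φ 1 (q + 1)) : incY (c := c) (face i s) = face i (incY s) := rfl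

private theorem IO1_mul (a b : E) :
    Matrix.diagonal (Fin.cons a fun _ => 1 : Fin (c + 1) → E) *
      Matrix.diagonal (Fin.cons b fun _ => 1 : Fin (c + 1) → E) =
    Matrix.diagonal (Fin.cons (a * b) fun _ => 1 : Fin (c + 1) → E) := by
  rw [Matrix.diagonal_mul_diagonal]
  congr 1
  funext i
  refine Fin.cases ?_ (fun i => ?_) i
  · rw [Fin.cons_zero, Fin.cons_zero, Fin.cons_zero]
  · rw [Fin.cons_succ, Fin.cons_succ, Fin.cons_succ, one_mul]

private theorem IO1_one : Matrix.diagonal (Fin.cons 1 fun _ => 1 : Fin (c + 1) → E) = 1 := by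
  rw [← Matrix.diagonal_one]
  congr 1
  funext i
  refine Fin.cases ?_ (fun i => ?_) i
  · rw [Fin.cons_zero]
  · rw [Fin.cons_succ]

private theorem IO1_apply (M N : Matrix (Fin 1) (Fin 1) E) : (M * N) 0 0 = M 0 0 * N 0 0 := by
  rw [Matrix.mul_apply, Fin.sum_univ_one]

/-- `diag(g, 1, ..., 1)`. -/
noncomputable def iota (c : ℕ) : GL (Fin 1) E →* GL (Fin (c + 1)) E where
  toFun g :=
    { val := Matrix.diagonal (Fin.cons ((g : Matrix (Fin 1) (Fin 1) E) 0 0) fun _ => 1)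
      inv := Matrix.diagonal (Fin.cons ((↑g⁻¹ : Matrix (Fin 1) (Fin 1) E) 0 0) fun _ => 1)
      val_inv := by
        rw [IO1_mul, ← IO1_apply, Units.mul_inv, Matrix.one_apply_eq, IO1_one]
      inv_val := by
        rw [IO1_mul, ← IO1_apply, Units.inv_mul, Matrix.one_apply_eq, IO1_one] }
  map_one' := by
    apply Units.ext
    change Matrix.diagonal (Fin.cons (((1 : GL (Fin 1) E) : Matrix (Fin 1) (Fin 1) E) 0 0) fun _ => 1) = 1
    rw [Units.val_one, Matrix.one_apply_eq, IO1_one]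
  map_mul' g h := by
    apply Units.ext
    change Matrix.diagonal (Fin.cons (((g * h : GL (Fin 1) E) : Matrix (Fin 1) (Fin 1) E) 0 0) fun _ => 1) =
      Matrix.diagonal (Fin.cons ((g : Matrix (Fin 1) (Fin 1) E) 0 0) fun _ => 1) *
        Matrix.diagonal (Fin.cons ((h : Matrix (Fin 1) (Fin 1) E) 0 0) fun _ => 1)
    rw [IO1_mul, Units.val_mul, IO1_apply]

end St16I
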