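import Pool.Agent.LibSt16.IDefs2

/-!
ST16 IO3. `GL_1(E)` acts on the lattices of `Y_Φ(1)` through `U(1, ℤ[i][1/N])`.

Plan. `g` is the multiplication by `x ≠ 0`, and `x = r ∏_{p ∈ Φ} w_p^(e_p)` with integers `e_p` and a unit `r` of `OP` (multiply `x` by a power of
`ν` to get into `OP`, `x = a / b`, `b` prime to `ν`; `WfDvdMonoid.max_power_factor` for `a` and each `w_p`; `inv_mem_OP` or directly: an
element of `ℤ[i]` prime to `ν` is a unit of `OP`). Units of `OP` act trivially on the lattices (submodules).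
`u = ∏ (w_p / star (w_p))^(e_p)` is in `U(1, ℤ[i][1/N])` (`w_p / star w_p = w_p² / p`, norm 1) and `star (w_p)` is a unit of `OP`
(`w_not_dvd_star`).
-/

namespace St16I

open Matrix QuadraticAlgebra

variable {Φ : Finset P1} {c : ℕ}

/-- `x = r u` with a unit `r` of `OP` and `u` in `U(1, ℤ[i][1/N])`. -/
private def IO3_P (Φ : Finset P1) (x : E) : Prop :=
  ∃ r u : E, r ∈ OP Φ ∧ r⁻¹ ∈ OP Φ ∧ r ≠ 0 ∧ u ∈ ZInv (NN Φ) ∧ star u * u = 1 ∧ x = r * u

private theorem IO3_P_mul {x y : E} (hx : IO3_P Φ x) (hy : IO3_P Φ y) : IO3_P Φ (x * y) := by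
  obtain ⟨r, u, h1, h2, h3, h4, h5, rfl⟩ := hx
  obtain ⟨s, v, k1, k2, k3, k4, k5, rfl⟩ := hy
  refine ⟨r * s, u * v, Subring.mul_mem _ h1 k1, ?_, mul_ne_zero h3 k3, Subring.mul_mem _ h4 k4, ?_, by ring⟩
  · rw [mul_inv]
    exact Subring.mul_mem _ h2 k2
  · rw [star_mul]
    calc star v * star u * (u * v) = (star u * u) * (star v * v) := by ring
      _ = 1 := by rw [h5, k5, one_mul]

private theorem IO3_P_inv {x : E} (hx : IO3_P Φ x) : IO3_P Φ x⁻¹ := by
  obtain ⟨r, u, h1, h2, h3, h4, h5, rfl⟩ := hx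
  refine ⟨r⁻¹, star u, h2, by rwa [inv_inv], inv_ne_zero h3, star_mem_ZInv h4, ?_, ?_⟩
  · rw [star_star, mul_comm]
    exact h5
  · rw [mul_inv]
    congr 1
    exact inv_eq_of_mul_eq_one_right (by rw [mul_comm]; exact h5)

private theorem IO3_P_one_of_coprime {b : GaussianInt} (hb : b ≠ 0) (h : IsCoprime b (nu Φ)) :
    IO3_P Φ (gi b) := by
  have hb' : gi b ≠ 0 := by
    rw [Ne, map_eq_zero_iff gi gi_injective]
    exact hb
  refine ⟨gi b, 1, gi_mem_OP Φ b, ⟨1, b, h, ?_⟩, hb', Subring.one_mem _, by rw [star_one, one_mul], by rw [mul_one]⟩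
  rw [mul_inv_cancel₀ hb', map_one]

private theorem IO3_coprime_star (p : P1) (Φ : Finset P1) : IsCoprime (star (w p)) (nu Φ) := by
  unfold nu
  refine IsCoprime.prod_right fun q _ => IsCoprime.symm ?_
  exact ((w_prime q).coprime_iff_not_dvd).2 (w_not_dvd_star q p)

private theorem IO3_P_w {p : P1} (hp : p ∈ Φ) : IO3_P Φ (gi (w p)) := by
  have hw : w p ≠ 0 := (w_prime p).ne_zero
  have hws : star (w p) ≠ 0 := by
    rw [Ne, star_eq_zero]
    exact hw
  have hws' : gi (star (w p)) ≠ 0 := by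
    rw [Ne, map_eq_zero_iff gi gi_injective]
    exact hws
  have hw' : gi (w p) ≠ 0 := by
    rw [Ne, map_eq_zero_iff gi gi_injective]
    exact hw
  refine ⟨gi (star (w p)), gi (w p) * (gi (star (w p)))⁻¹, gi_mem_OP Φ _,
    ⟨1, star (w p), IO3_coprime_star p Φ, ?_⟩, hws', ⟨1, ?_⟩, ?_, ?_⟩
  · rw [mul_inv_cancel₀ hws', map_one]
  · refine ⟨((∏ q ∈ Φ.erase p, q.1 : ℕ) : GaussianInt) * (w p * w p), ?_⟩
    have hN : (NN Φ : E) = gi (w p) * gi (star (w p)) * ((∏ q ∈ Φ.erase p, q.1 : ℕ) : E) := by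
      have h1 : NN Φ = p.1 * ∏ q ∈ Φ.erase p, q.1 := (Finset.mul_prod_erase Φ (fun q => q.1) hp).symm
      rw [← map_mul, w_mul_star, gi_natCast, h1]
      push_cast
      rfl
    rw [pow_one, hN, map_mul, map_mul, gi_natCast]
    have : gi (w p) * gi (star (w p)) * ((∏ q ∈ Φ.erase p, q.1 : ℕ) : E) * (gi (w p) * (gi (star (w p)))⁻¹) =
      ((∏ q ∈ Φ.erase p, q.1 : ℕ) : E) * (gi (w p) * gi (w p)) * (gi (star (w p)) * (gi (star (w p)))⁻¹) := by
      ring
    rw [this, mul_inv_cancel₀ hws', mul_one]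
  · rw [star_mul, star_inv₀, ← gi_star, ← gi_star, star_star]
    have : (gi (w p))⁻¹ * gi (star (w p)) * (gi (w p) * (gi (star (w p)))⁻¹) =
      (gi (w p) * (gi (w p))⁻¹) * (gi (star (w p)) * (gi (star (w p)))⁻¹) := by ring
    rw [this, mul_inv_cancel₀ hws', mul_inv_cancel₀ hw', one_mul]
  · rw [mul_comm (gi (w p)), ← mul_assoc, mul_inv_cancel₀ hws', one_mul]

private theorem IO3_unit {x y : GaussianInt} (h : IsUnit x) : IsCoprime x y := by
  obtain ⟨v, rfl⟩ := h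
  exact ⟨(↑v⁻¹ : GaussianInt), 0, by rw [Units.inv_mul, zero_mul, add_zero]⟩

private theorem IO3_P_gi (Φ : Finset P1) {b : GaussianInt} (hb : b ≠ 0) : IO3_P Φ (gi b) := by
  revert hb
  refine UniqueFactorizationMonoid.induction_on_prime b (fun h => absurd rfl h) (fun x hx h => ?_)
    (fun a q ha hq ih _ => ?_)
  · exact IO3_P_one_of_coprime h (IO3_unit hx)
  · rw [map_mul]
    refine IO3_P_mul ?_ (ih ha)
    by_cases hd : q ∣ nu Φ
    · obtain ⟨p, hp, hqp⟩ := (hq.dvd_finsetProd_iff _).1 hd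
      obtain ⟨v, hv⟩ := (hq.dvd_prime_iff_associated (w_prime p)).1 hqp
      have h1 : q = w p * (↑v⁻¹ : GaussianInt) := by
        rw [← hv, mul_assoc, Units.mul_inv, mul_one]
      rw [h1, map_mul]
      exact IO3_P_mul (IO3_P_w hp) (IO3_P_one_of_coprime (Units.ne_zero _) (IO3_unit (Units.isUnit _)))
    · exact IO3_P_one_of_coprime hq.ne_zero ((hq.coprime_iff_not_dvd).2 hd)

private theorem IO3_P_all (Φ : Finset P1) {x : E} (hx : x ≠ 0) : IO3_P Φ x := by
  have hd : ((x.re.den * x.im.den : ℕ) : E) ≠ 0 := by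
    exact_mod_cast Nat.mul_ne_zero x.re.den_ne_zero x.im.den_ne_zero
  have h1 : ((x.re.den * x.im.den : ℕ) : E) * x =
      gi ⟨x.re.num * x.im.den, x.im.num * x.re.den⟩ := by
    have e1 : (x.re.den : ℚ) * x.re = x.re.num := by
      rw [mul_comm]; exact Rat.mul_den_eq_num _
    have e2 : (x.im.den : ℚ) * x.im = x.im.num := by
      rw [mul_comm]; exact Rat.mul_den_eq_num _
    ext
    · rw [re_mul, re_natCast, im_natCast, gi_re]
      push_cast
      linear_combination (x.im.den : ℚ) * e1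
    · rw [im_mul, re_natCast, im_natCast, gi_im]
      push_cast
      linear_combination (x.re.den : ℚ) * e2
  have h2 : x = (gi ((x.re.den * x.im.den : ℕ) : GaussianInt))⁻¹ * gi ⟨x.re.num * x.im.den, x.im.num * x.re.den⟩ := by
    rw [← h1, gi_natCast, ← mul_assoc, inv_mul_cancel₀ hd, one_mul]
  have h3 : (⟨x.re.num * x.im.den, x.im.num * x.re.den⟩ : GaussianInt) ≠ 0 := by
    intro h
    rw [h, map_zero] at h1
    exact mul_ne_zero hd hx h1
  rw [h2]
  refine IO3_P_mul (IO3_P_inv (IO3_P_gi Φ ?_)) (IO3_P_gi Φ h3)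
  exact_mod_cast Nat.mul_ne_zero x.re.den_ne_zero x.im.den_ne_zero

/-- The multiplication by `x`, as a homomorphism. -/
private noncomputable def IO3_H : Eˣ →* GL (Fin 1) E := Units.map (Matrix.scalar (Fin 1)).toMonoidHom

/-- The multiplication by `x`. -/
private noncomputable def IO3_S (x : Eˣ) : GL (Fin 1) E := IO3_H x

private theorem IO3_S_val (x : Eˣ) : (IO3_S x : Matrix (Fin 1) (Fin 1) E) = Matrix.scalar (Fin 1) (x : E) := rfl

private theorem IO3_mem (x : Eˣ) (A : Submodule (OP Φ) (Fin 1 → E)) (v : Fin 1 → E) :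
    v ∈ act (IO3_S x) A ↔ (x⁻¹ : E) • v ∈ A := by
  rw [mem_act]
  have : (↑(IO3_S x)⁻¹ : Matrix (Fin 1) (Fin 1) E) *ᵥ v = (x⁻¹ : E) • v := by
    have e : (IO3_S x)⁻¹ = IO3_S x⁻¹ := (map_inv IO3_H x).symm
    rw [e, IO3_S_val, Matrix.scalar_apply, Units.val_inv_eq_inv_val]
    funext i
    rw [Matrix.mulVec_diagonal]
    rfl
  rw [this]

/-- An element of `GL_1(E)` acts on the lattices like an element of `U(1, ℤ[i][1/N])`. -/
theorem exists_Ga_one (g : GL (Fin 1) E) : ∃ u ∈ Ga Φ 1, ∀ A : Lat Φ 1, u • A = g • A := by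
  have hx0 : (g : Matrix (Fin 1) (Fin 1) E) 0 0 ≠ 0 := by
    intro h
    have h1 : (g : Matrix (Fin 1) (Fin 1) E) * (↑g⁻¹ : Matrix (Fin 1) (Fin 1) E) = 1 := by
      rw [← Units.val_mul, mul_inv_cancel, Units.val_one]
    have h2 := congrFun (congrFun h1 0) 0
    rw [Matrix.mul_apply, Fin.sum_univ_one, h, zero_mul, Matrix.one_apply_eq] at h2
    exact zero_ne_one h2
  have hg : g = IO3_S (Units.mk0 _ hx0) := by
    apply Units.ext
    refine Matrix.ext fun i j => ?_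
    have hi : i = 0 := Subsingleton.elim _ _
    have hj : j = 0 := Subsingleton.elim _ _
    subst hi hj
    rw [IO3_S_val, Matrix.scalar_apply, Matrix.diagonal_apply_eq, Units.val_mk0]
  obtain ⟨r, u, h1, h2, h3, h4, h5, h6⟩ := IO3_P_all Φ hx0
  have hu0 : u ≠ 0 := by
    rintro rfl
    rw [mul_zero] at h5
    exact zero_ne_one h5
  refine ⟨IO3_S (Units.mk0 u hu0), ⟨?_, ?_⟩, fun A => ?_⟩
  · rw [IO3_S_val, Units.val_mk0, Matrix.scalar_apply, Matrix.diagonal_conjTranspose, Matrix.diagonal_mul_diagonal]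
    rw [← Matrix.diagonal_one]
    congr 1
    funext i
    exact h5
  · intro i j
    have hi : i = 0 := Subsingleton.elim _ _
    have hj : j = 0 := Subsingleton.elim _ _
    subst hi hj
    rw [IO3_S_val, Units.val_mk0, Matrix.scalar_apply, Matrix.diagonal_apply_eq]
    exact h4
  · apply Subtype.ext
    rw [smul_val, smul_val]
    ext v
    rw [hg, IO3_mem, IO3_mem, Units.val_mk0, Units.val_mk0, h6]
    have e : (r * u)⁻¹ • v = r⁻¹ • (u⁻¹ • v) := by
      rw [smul_smul, mul_inv]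
    rw [e]
    constructor
    · intro hv
      exact A.1.smul_mem (⟨r⁻¹, h2⟩ : OP Φ) hv
    · intro hv
      have := A.1.smul_mem (⟨r, h1⟩ : OP Φ) hv
      have e2 : (⟨r, h1⟩ : OP Φ) • (r⁻¹ • (u⁻¹ • v)) = u⁻¹ • v := by
        rw [Subring.smul_def, smul_smul, mul_inv_cancel₀ h3, one_smul]
      rwa [e2] at this

end St16I
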