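import Pool.Agent.LibSt16.IP96
import Pool.Agent.LibSt16.IDefs2

/-! `OP Φ` is a principal ideal domain; lattices are free. -/

set_option autoImplicit false

namespace St16I

open Matrix QuadraticAlgebra

theorem exists_frac (x : E) : ∃ (a : GaussianInt) (n : ℕ), n ≠ 0 ∧ gi n * x = gi a := by
  refine ⟨⟨x.re.num * x.im.den, x.im.num * x.re.den⟩, x.re.den * x.im.den, Nat.mul_ne_zero x.re.den_ne_zero x.im.den_ne_zero, ?_⟩
  rw [gi_natCast]
  have h1 : (x.re.den : ℚ) * x.re = x.re.num := by rw [mul_comm]; exact Rat.mul_den_eq_num _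
  have h2 : (x.im.den : ℚ) * x.im = x.im.num := by rw [mul_comm]; exact Rat.mul_den_eq_num _
  ext
  · simp [gi]
    linear_combination (x.im.den : ℚ) * h1
  · simp [gi]
    linear_combination (x.re.den : ℚ) * h2

theorem exists_ne_zero {Φ : Finset P1} {x : E} (hx : x ∈ OP Φ) :
    ∃ a b : GaussianInt, b ≠ 0 ∧ IsCoprime b (nu Φ) ∧ gi b * x = gi a := by
  obtain ⟨a, b, hb, h⟩ := hx
  by_cases h0 : b = 0
  · rw [h0] at hb
    have hu : IsUnit (nu Φ) := isCoprime_zero_left.mp hb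
    obtain ⟨a', n, hn, hx'⟩ := exists_frac x
    refine ⟨a', n, by exact_mod_cast hn, ?_, hx'⟩
    obtain ⟨u, hu'⟩ := hu.exists_left_inv
    exact ⟨0, u, by rw [hu']; ring⟩
  · exact ⟨a, b, h0, hb, h⟩

/-- The Gaussian integers in `OP`. -/
def giO (Φ : Finset P1) : GaussianInt →+* OP Φ := gi.codRestrict (OP Φ) (gi_mem_OP Φ)

theorem giO_val (Φ : Finset P1) (a : GaussianInt) : (giO Φ a : E) = gi a := rfl

theorem giO_unit {Φ : Finset P1} {b : GaussianInt} (h0 : b ≠ 0) (hb : IsCoprime b (nu Φ)) : IsUnit (giO Φ b) := by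
  have h1 : gi b ≠ 0 := by rwa [Ne, map_eq_zero_iff gi gi_injective]
  apply IsUnit.of_mul_eq_one (⟨(gi b)⁻¹, 1, b, hb, by rw [mul_inv_cancel₀ h1, map_one]⟩ : OP Φ)
  apply Subtype.ext
  exact mul_inv_cancel₀ h1

instance OP_pid (Φ : Finset P1) : IsPrincipalIdealRing (OP Φ) := by
  refine ⟨fun J => ?_⟩
  obtain ⟨a, ha⟩ := (IsPrincipalIdealRing.principal (J.comap (giO Φ))).principal
  refine ⟨⟨giO Φ a, le_antisymm ?_ ?_⟩⟩
  · intro x hx
    obtain ⟨m, b, h0, hb, h⟩ := exists_ne_zero x.2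
    have h1 : giO Φ b * x = giO Φ m := Subtype.ext h
    have h2 : m ∈ J.comap (giO Φ) := by
      rw [Ideal.mem_comap, ← h1]
      exact J.mul_mem_left _ hx
    rw [ha] at h2
    obtain ⟨y, hy⟩ := Submodule.mem_span_singleton.mp h2
    obtain ⟨c, hc⟩ := (giO_unit h0 hb).exists_left_inv
    refine Submodule.mem_span_singleton.mpr ⟨c * giO Φ y, ?_⟩
    have h3 : x = c * (giO Φ b * x) := by rw [← mul_assoc, hc, one_mul]
    rw [h3, h1, ← hy, smul_eq_mul, smul_eq_mul, map_mul]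
    ring
  · rw [Submodule.span_le, Set.singleton_subset_iff]
    have h2 : a ∈ J.comap (giO Φ) := by
      rw [ha]
      exact Submodule.mem_span_singleton_self a
    exact h2

variable {Φ : Finset P1} {c : ℕ}

/-- The inclusion `x ↦ ν^(-k) x` of `OP^c` in `E^c`. -/
noncomputable def psi (Φ : Finset P1) (c k : ℕ) : (Fin c → OP Φ) →ₗ[OP Φ] (Fin c → E) where
  toFun x i := (nuE Φ)⁻¹ ^ k * x i
  map_add' x y := by
    funext i
    simp only [Pi.add_apply, Subring.coe_add, mul_add]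
  map_smul' r x := by
    funext i
    simp only [Pi.smul_apply, RingHom.id_apply, Subring.smul_def, smul_eq_mul, Subring.coe_mul]
    ring

theorem psi_inj (k : ℕ) : Function.Injective (psi Φ c k) := by
  intro x y h
  funext i
  apply Subtype.ext
  have h1 : (nuE Φ)⁻¹ ^ k * (x i : E) = (nuE Φ)⁻¹ ^ k * y i := congrFun h i
  exact mul_left_cancel₀ (pow_ne_zero _ (inv_ne_zero (nuE_ne_zero Φ))) h1

theorem mem_range_psi (k : ℕ) (v : Fin c → E) (hv : v ∈ sM Φ c (-k)) : ∃ x, psi Φ c k x = v := by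
  rw [mem_sM] at hv
  refine ⟨fun i => ⟨_, hv i⟩, ?_⟩
  funext i
  change (nuE Φ)⁻¹ ^ k * (nuE Φ ^ (-(-(k : ℤ))) * v i) = v i
  rw [neg_neg, zpow_natCast, ← mul_assoc, ← mul_pow, inv_mul_cancel₀ (nuE_ne_zero Φ), one_pow, one_mul]

theorem lat_free' (A : Lat Φ c) : ∃ g : GL (Fin c) E, act g (sM Φ c 0) = A.1 := by
  classical
  obtain ⟨A, k, hk1, hk2⟩ := A
  change ∃ g : GL (Fin c) E, act g (sM Φ c 0) = A
  obtain ⟨A', hA'⟩ : ∃ A', A' = A.comap (psi Φ c k) := ⟨_, rfl⟩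
  obtain ⟨n, ⟨b⟩⟩ := Submodule.nonempty_basis_of_pid (Pi.basisFun (OP Φ) (Fin c)) A'
  have hfin1 : Module.finrank (OP Φ) A' = n := by
    rw [Module.finrank_eq_card_basis b, Fintype.card_fin]
  have hfin2 : Module.finrank (OP Φ) (Fin c → OP Φ) = c := by
    rw [Module.finrank_fintype_fun_eq_card, Fintype.card_fin]
  obtain ⟨N, hN⟩ : ∃ N : OP Φ, N = ⟨nuE Φ, nuE_mem_OP Φ⟩ ^ (2 * k) := ⟨_, rfl⟩
  have hNE : (N : E) = nuE Φ ^ (2 * k) := by rw [hN]; rfl
  have hN0 : N ≠ 0 := by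
    intro h
    have h1 : (N : E) = 0 := by rw [h]; rfl
    rw [hNE] at h1
    exact pow_ne_zero _ (nuE_ne_zero Φ) h1
  have hin : ∀ x : Fin c → OP Φ, N • x ∈ A' := by
    intro x
    rw [hA', Submodule.mem_comap]
    apply hk1
    rw [mem_sM]
    intro i
    change nuE Φ ^ (-(k : ℤ)) * ((nuE Φ)⁻¹ ^ k * ((N : E) * x i)) ∈ OP Φ
    rw [hNE, _root_.zpow_neg, zpow_natCast, inv_pow]
    have : (nuE Φ ^ k)⁻¹ * ((nuE Φ ^ k)⁻¹ * (nuE Φ ^ (2 * k) * (x i : E))) = x i := by
      have h0 : nuE Φ ^ k ≠ 0 := pow_ne_zero _ (nuE_ne_zero Φ)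
      rw [two_mul, pow_add]
      field_simp
    rw [this]
    exact (x i).2
  have hmem : ∀ x, x ∈ A' → psi Φ c k x ∈ A := by
    intro x hx
    rw [hA'] at hx
    exact hx
  have hn : n = c := by
    apply le_antisymm
    · calc n = Module.finrank (OP Φ) A' := hfin1.symm
        _ ≤ Module.finrank (OP Φ) (Fin c → OP Φ) := Submodule.finrank_le A'
        _ = c := hfin2
    · refine le_trans hfin2.ge (le_trans ?_ hfin1.le)
      obtain ⟨f, hf⟩ : ∃ f : (Fin c → OP Φ) →ₗ[OP Φ] A', ∀ x, (f x : Fin c → OP Φ) = N • x :=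
        ⟨(LinearMap.lsmul (OP Φ) (Fin c → OP Φ) N).codRestrict A' hin, fun x => rfl⟩
      apply LinearMap.finrank_le_finrank_of_injective (f := f)
      intro x y h
      have h1 : N • x = N • y := by rw [← hf, ← hf, h]
      exact smul_right_injective _ hN0 h1
  subst hn
  -- the matrix
  obtain ⟨B, hB⟩ : ∃ B : Matrix (Fin n) (Fin n) E, ∀ i j, B i j = psi Φ n k (b j) i := ⟨_, fun i j => rfl⟩
  have hBmul : ∀ x : Fin n → OP Φ, B *ᵥ (fun j => (x j : E)) = psi Φ n k (∑ j, x j • (b j : Fin n → OP Φ)) := by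
    intro x
    rw [map_sum]
    funext i
    rw [Finset.sum_apply]
    simp only [Matrix.mulVec, dotProduct, map_smul, Pi.smul_apply, hB, Subring.smul_def, smul_eq_mul]
    exact Finset.sum_congr rfl fun j _ => mul_comm _ _
  have hBu : IsUnit B := by
    choose R hR using fun j : Fin n => (⟨b.repr ⟨N • Pi.single j 1, hin _⟩, rfl⟩ :
      ∃ r, r = b.repr ⟨N • Pi.single j 1, hin _⟩)
    have h1 : ∀ j, (∑ l, R j l • (b l : Fin n → OP Φ)) = N • Pi.single j 1 := by
      intro j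
      have h2 := b.sum_repr ⟨N • Pi.single j 1, hin _⟩
      rw [← hR j] at h2
      have h3 := congrArg Subtype.val h2
      rw [AddSubmonoidClass.coe_finset_sum] at h3
      exact h3
    obtain ⟨s, hs⟩ : ∃ s : E, s = nuE Φ ^ k := ⟨_, rfl⟩
    have hs0 : s ≠ 0 := by rw [hs]; exact pow_ne_zero _ (nuE_ne_zero Φ)
    have h4 : B * (Matrix.of fun l j => s⁻¹ * ((R j l : OP Φ) : E)) = 1 := by
      apply Matrix.ext
      intro i j
      have h5 : (B *ᵥ (fun l => ((R j l : OP Φ) : E))) i = psi Φ n k (N • Pi.single j 1) i := by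
        rw [hBmul, h1]
      have h6 : (B * (Matrix.of fun l j => s⁻¹ * ((R j l : OP Φ) : E))) i j = s⁻¹ * (B *ᵥ (fun l => ((R j l : OP Φ) : E))) i := by
        rw [Matrix.mul_apply, Matrix.mulVec, dotProduct, Finset.mul_sum]
        refine Finset.sum_congr rfl fun l _ => ?_
        rw [Matrix.of_apply]
        ring
      rw [h6, h5]
      change s⁻¹ * ((nuE Φ)⁻¹ ^ k * ((N : E) * ((Pi.single j 1 : Fin n → OP Φ) i : OP Φ))) = _
      rw [hNE, two_mul, pow_add, ← hs, inv_pow, ← hs, Matrix.one_apply]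
      by_cases hij : i = j
      · subst hij
        rw [if_pos rfl, Pi.single_eq_same, Subring.coe_one]
        field_simp
      · rw [if_neg hij, Pi.single_eq_of_ne hij, Subring.coe_zero]
        ring
    exact IsUnit.of_mul_eq_one _ h4
  refine ⟨hBu.unit, ?_⟩
  apply le_antisymm
  · rintro _ ⟨v, hv, rfl⟩
    change B *ᵥ v ∈ A
    have hv' : ∀ i, v i ∈ OP Φ := by
      intro i
      have := hv i
      simpa using this
    have h1 := hBmul (fun i => ⟨v i, hv' i⟩)
    change B *ᵥ v = _ at h1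
    rw [h1]
    have h2 : (∑ j, (⟨v j, hv' j⟩ : OP Φ) • (b j : Fin n → OP Φ)) ∈ A' :=
      Submodule.sum_mem _ fun j _ => Submodule.smul_mem _ _ (b j).2
    exact hmem _ h2
  · intro v hv
    obtain ⟨x, hx⟩ := mem_range_psi k v (hk2 hv)
    have hxA : x ∈ A' := by
      rw [hA', Submodule.mem_comap, hx]
      exact hv
    have h2 := b.sum_repr ⟨x, hxA⟩
    have h3 := congrArg Subtype.val h2
    rw [AddSubmonoidClass.coe_finset_sum] at h3
    refine ⟨fun j => ((b.repr ⟨x, hxA⟩ j : OP Φ) : E), ?_, ?_⟩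
    · intro i
      simp
    · change B *ᵥ _ = v
      rw [hBmul, ← hx]
      congr 1

end St16I
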