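import Mathlib

/-! Reduction of positive definite hermitian forms over the Gaussian integers. -/

set_option autoImplicit false

namespace Pool.Agent.LibSt16

open Matrix

/-- The hermitian form of `G` on the diagonal. -/
noncomputable def hq {κ : Type*} [Fintype κ] (G : Matrix κ κ ℂ) (x : κ → ℂ) : ℝ :=
  (star x ⬝ᵥ G *ᵥ x).re

/-- The complexification of a Gaussian vector. -/
noncomputable def gv {κ : Type*} (x : κ → GaussianInt) : κ → ℂ := fun i => GaussianInt.toComplex (x i)

/-- The complexification of a Gaussian matrix. -/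
noncomputable def gm {κ l : Type*} (V : Matrix κ l GaussianInt) : Matrix κ l ℂ := V.map GaussianInt.toComplex

/-- Change of basis. -/
noncomputable def tw {κ : Type*} [Fintype κ] (V : Matrix κ κ GaussianInt) (G : Matrix κ κ ℂ) : Matrix κ κ ℂ :=
  (gm V)ᴴ * G * gm V

lemma gm_mul {κ l o : Type*} [Fintype l] (V : Matrix κ l GaussianInt) (W : Matrix l o GaussianInt) :
    gm (V * W) = gm V * gm W := by
  unfold gm
  exact Matrix.map_mul

lemma gm_one {κ : Type*} [DecidableEq κ] : gm (1 : Matrix κ κ GaussianInt) = 1 := by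
  unfold gm
  exact Matrix.map_one _ (map_zero _) (map_one _)

lemma tw_mul {κ : Type*} [Fintype κ] (V W : Matrix κ κ GaussianInt) (G : Matrix κ κ ℂ) :
    tw (V * W) G = tw W (tw V G) := by
  unfold tw
  rw [gm_mul, Matrix.conjTranspose_mul]
  simp only [Matrix.mul_assoc]

lemma tw_herm {κ : Type*} [Fintype κ] (V : Matrix κ κ GaussianInt) (G : Matrix κ κ ℂ) (hG : Gᴴ = G) :
    (tw V G)ᴴ = tw V G := by
  unfold tw
  rw [Matrix.conjTranspose_mul, Matrix.conjTranspose_mul, Matrix.conjTranspose_conjTranspose, hG, Matrix.mul_assoc]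

lemma gv_mulVec {κ l : Type*} [Fintype l] (V : Matrix κ l GaussianInt) (x : l → GaussianInt) :
    gm V *ᵥ gv x = gv (V *ᵥ x) := by
  funext i
  simp only [gm, gv, Matrix.mulVec, dotProduct, Matrix.map_apply, map_sum, map_mul]

lemma hq_tw' {κ : Type*} [Fintype κ] (V : Matrix κ κ GaussianInt) (G : Matrix κ κ ℂ) (x : κ → ℂ) :
    hq (tw V G) x = hq G (gm V *ᵥ x) := by
  unfold hq tw
  congr 1
  rw [← Matrix.mulVec_mulVec, ← Matrix.mulVec_mulVec, Matrix.star_mulVec, Matrix.dotProduct_mulVec,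
    Matrix.dotProduct_mulVec, Matrix.vecMul_vecMul, ← Matrix.dotProduct_mulVec, Matrix.dotProduct_mulVec]

lemma unit_norm_det {κ : Type*} [Fintype κ] [DecidableEq κ] (V : Matrix κ κ GaussianInt) (hV : IsUnit V) :
    ‖(gm V).det‖ = 1 := by
  have hu : IsUnit V.det := (Matrix.isUnit_iff_isUnit_det V).mp hV
  have h1 : (gm V).det = GaussianInt.toComplex V.det := by
    unfold gm
    rw [RingHom.map_det]
    rfl
  rw [h1]
  have h2 : Int.natAbs (Zsqrtd.norm V.det) = 1 := by
    have := (Zsqrtd.norm_eq_one_iff (x := V.det)).mpr hu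
    exact this
  have h3 : Complex.normSq (GaussianInt.toComplex V.det) = ((Zsqrtd.norm V.det : ℤ) : ℝ) := by
    rw [GaussianInt.intCast_real_norm]
  have h4 : (0 : ℤ) ≤ Zsqrtd.norm V.det := GaussianInt.norm_nonneg _
  have h5 : Zsqrtd.norm V.det = 1 := by omega
  rw [Complex.normSq_eq_norm_sq, h5] at h3
  have h6 : ‖GaussianInt.toComplex V.det‖ ^ 2 = 1 := by rw [h3]; norm_num
  nlinarith [norm_nonneg (GaussianInt.toComplex V.det)]

lemma norm_det_tw {κ : Type*} [Fintype κ] [DecidableEq κ] (V : Matrix κ κ GaussianInt) (hV : IsUnit V)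
    (G : Matrix κ κ ℂ) : ‖(tw V G).det‖ = ‖G.det‖ := by
  unfold tw
  rw [Matrix.det_mul, Matrix.det_mul, Matrix.det_conjTranspose, norm_mul, norm_mul, norm_star, unit_norm_det V hV]
  ring

lemma round_gauss (z : ℂ) : ∃ r : GaussianInt, ‖GaussianInt.toComplex r + z‖ ^ 2 ≤ 1 / 2 := by
  refine ⟨⟨- round z.re, - round z.im⟩, ?_⟩
  rw [← Complex.normSq_eq_norm_sq, Complex.normSq_apply]
  simp only [Complex.add_re, Complex.add_im, GaussianInt.re_toComplex, GaussianInt.im_toComplex]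
  push_cast
  have h1 := abs_sub_round z.re
  have h2 := abs_sub_round z.im
  rw [abs_le] at h1 h2
  nlinarith [h1.1, h1.2, h2.1, h2.2]

lemma norm_gauss_ge (d : GaussianInt) (hd : d ≠ 0) : 1 ≤ ‖GaussianInt.toComplex d‖ ^ 2 := by
  rw [← Complex.normSq_eq_norm_sq, ← GaussianInt.intCast_real_norm]
  have h : 0 < Zsqrtd.norm d := GaussianInt.norm_pos.mpr hd
  exact_mod_cast h

/-- Extension of a primitive multiple to a unimodular matrix. -/
lemma ext_col {κ : Type*} [Fintype κ] [DecidableEq κ] (k0 : κ) (e : κ → GaussianInt) (he : e ≠ 0) :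
    ∃ V : Matrix κ κ GaussianInt, IsUnit V ∧ ∃ d : GaussianInt, d ≠ 0 ∧ ∀ k, e k = d * V k k0 := by
  classical
  obtain ⟨n, S⟩ := Submodule.smithNormalForm (Pi.basisFun GaussianInt κ) (Submodule.span GaussianInt {e})
  have hn : n ≠ 0 := by
    rintro rfl
    have hsub : Subsingleton (Submodule.span GaussianInt {e}) := S.bN.repr.toEquiv.subsingleton
    have h0 : (⟨e, Submodule.mem_span_singleton_self e⟩ : Submodule.span GaussianInt {e}) = 0 := Subsingleton.elim _ _
    exact he (congrArg Subtype.val h0)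
  obtain ⟨n', rfl⟩ := Nat.exists_eq_succ_of_ne_zero hn
  have hsnf := S.snf 0
  have hmem : (S.bN 0 : κ → GaussianInt) ∈ Submodule.span GaussianInt {e} := (S.bN 0).2
  obtain ⟨r, hr⟩ := Submodule.mem_span_singleton.mp hmem
  have hne : (S.bN 0 : κ → GaussianInt) ≠ 0 := by
    intro h
    exact S.bN.ne_zero 0 (Subtype.ext h)
  have hr0 : r ≠ 0 := by
    rintro rfl
    rw [zero_smul] at hr
    exact hne hr.symm
  have hcoord : ∀ j, j ≠ S.f 0 → S.bM.repr e j = 0 := by
    intro j hj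
    have h1 : S.bM.repr (r • e) j = S.bM.repr (S.a 0 • S.bM (S.f 0)) j := by rw [hr, hsnf]
    rw [map_smul, map_smul, Module.Basis.repr_self, Finsupp.smul_apply, Finsupp.smul_apply, Finsupp.single_apply,
      if_neg (fun h => hj h.symm), smul_zero, smul_eq_mul] at h1
    rcases mul_eq_zero.mp h1 with h | h
    · exact absurd h hr0
    · exact h
  have hexp : e = S.bM.repr e (S.f 0) • S.bM (S.f 0) := by
    have h := S.bM.sum_repr e
    rw [Finset.sum_eq_single (S.f 0)] at h
    · exact h.symm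
    · intro j _ hj
      rw [hcoord j hj, zero_smul]
    · intro h
      exact absurd (Finset.mem_univ _) h
  refine ⟨(Pi.basisFun GaussianInt κ).toMatrix (S.bM.reindex (Equiv.swap (S.f 0) k0)), ?_, S.bM.repr e (S.f 0), ?_, ?_⟩
  · have h1 := (Pi.basisFun GaussianInt κ).toMatrix_mul_toMatrix_flip (S.bM.reindex (Equiv.swap (S.f 0) k0))
    exact IsUnit.of_mul_eq_one _ h1
  · intro h
    rw [h, zero_smul] at hexp
    exact he hexp
  · intro k
    rw [Module.Basis.toMatrix_apply, Module.Basis.reindex_apply, Equiv.symm_swap, Equiv.swap_apply_right,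
      Pi.basisFun_repr]
    conv_lhs => rw [hexp]
    rfl

/-- The form on `Unit ⊕ ι` in coordinates. -/
lemma hq_sum {ι : Type*} [Fintype ι] (G : Matrix (Unit ⊕ ι) (Unit ⊕ ι) ℂ) (m : ℝ) (hm : m ≠ 0) (b : ι → ℂ)
    (G1 : Matrix ι ι ℂ) (h00 : G (Sum.inl ()) (Sum.inl ()) = m) (h01 : ∀ i, G (Sum.inl ()) (Sum.inr i) = b i)
    (h10 : ∀ i, G (Sum.inr i) (Sum.inl ()) = star (b i))
    (h11 : ∀ i j, G (Sum.inr i) (Sum.inr j) = G1 i j + star (b i) * b j / m) (x : Unit ⊕ ι → ℂ) :
    hq G x = m * ‖x (Sum.inl ()) + (∑ j, b j * x (Sum.inr j)) / m‖ ^ 2 + hq G1 (fun i => x (Sum.inr i)) := by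
  have hmC : (m : ℂ) ≠ 0 := by exact_mod_cast hm
  obtain ⟨β, hβ⟩ : ∃ β : ℂ, β = ∑ j, b j * x (Sum.inr j) := ⟨_, rfl⟩
  obtain ⟨y, hy⟩ : ∃ y : ℂ, y = x (Sum.inl ()) := ⟨_, rfl⟩
  have hβs : star β = ∑ j, star (b j) * star (x (Sum.inr j)) := by
    rw [hβ, star_sum]
    refine Finset.sum_congr rfl fun j _ => ?_
    rw [star_mul']
  have key : star x ⬝ᵥ G *ᵥ x = star y * (m * y) + star y * β + star β * y + star β * β / m +
      star (fun i => x (Sum.inr i)) ⬝ᵥ G1 *ᵥ (fun i => x (Sum.inr i)) := by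
    simp only [dotProduct, Matrix.mulVec, Fintype.sum_sum_type, Finset.univ_unique, Finset.sum_singleton,
      PUnit.default_eq_unit, h00, h01, h10, h11, Pi.star_apply, ← hy, ← hβ]
    have e1 : ∀ i, ∑ j, (G1 i j + star (b i) * b j / m) * x (Sum.inr j) =
        (∑ j, G1 i j * x (Sum.inr j)) + star (b i) * (β / m) := by
      intro i
      rw [hβ, Finset.sum_div, Finset.mul_sum, ← Finset.sum_add_distrib]
      refine Finset.sum_congr rfl fun j _ => ?_
      field_simp
    have e2 : ∑ i, star (x (Sum.inr i)) * (star (b i) * y + ∑ j, (G1 i j + star (b i) * b j / m) * x (Sum.inr j)) =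
        star β * y + star β * (β / m) + ∑ i, star (x (Sum.inr i)) * ∑ j, G1 i j * x (Sum.inr j) := by
      rw [hβs, Finset.sum_mul, Finset.sum_mul, ← Finset.sum_add_distrib, ← Finset.sum_add_distrib]
      refine Finset.sum_congr rfl fun i _ => ?_
      rw [e1]
      ring
    rw [e2]
    ring
  unfold hq
  rw [key, ← hβ, ← hy]
  have k2 : star y * (m * y) + star y * β + star β * y + star β * β / m = m * (star (y + β / m) * (y + β / m)) := by
    rw [star_add, star_div₀]
    have hms : star (m : ℂ) = m := Complex.conj_ofReal m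
    rw [hms]
    field_simp
    ring
  rw [k2, Complex.add_re]
  congr 1
  have k3 : star (y + β / m) * (y + β / m) = ((‖y + β / m‖ ^ 2 : ℝ) : ℂ) := by
    rw [Complex.star_def, Complex.conj_mul']
    push_cast
    rfl
  rw [k3, ← Complex.ofReal_mul, Complex.ofReal_re]

lemma det_sum {ι : Type*} [Fintype ι] [DecidableEq ι] (G : Matrix (Unit ⊕ ι) (Unit ⊕ ι) ℂ) (m : ℝ) (hm : m ≠ 0)
    (b : ι → ℂ) (G1 : Matrix ι ι ℂ) (h00 : G (Sum.inl ()) (Sum.inl ()) = m)
    (h01 : ∀ i, G (Sum.inl ()) (Sum.inr i) = b i) (h10 : ∀ i, G (Sum.inr i) (Sum.inl ()) = star (b i))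
    (h11 : ∀ i j, G (Sum.inr i) (Sum.inr j) = G1 i j + star (b i) * b j / m) :
    G.det = m * G1.det := by
  have hmC : (m : ℂ) ≠ 0 := by exact_mod_cast hm
  have hfac : G = Matrix.fromBlocks (1 : Matrix Unit Unit ℂ) 0 (Matrix.of fun i _ => star (b i) / m) 1 *
      Matrix.fromBlocks (Matrix.of fun _ _ => (m : ℂ)) (Matrix.of fun _ j => b j) 0 G1 := by
    rw [Matrix.fromBlocks_multiply]
    ext i j
    rcases i with i | i <;> rcases j with j | j
    · rw [Matrix.fromBlocks_apply₁₁]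
      cases i; cases j
      rw [h00]
      simp
    · rw [Matrix.fromBlocks_apply₁₂]
      cases i
      rw [h01]
      simp
    · rw [Matrix.fromBlocks_apply₂₁]
      cases j
      rw [h10]
      simp [Matrix.mul_apply, div_mul_cancel₀ _ hmC]
    · rw [Matrix.fromBlocks_apply₂₂, h11]
      simp [Matrix.mul_apply]
      ring
  rw [hfac, Matrix.det_mul, Matrix.det_fromBlocks_zero₁₂, Matrix.det_fromBlocks_zero₂₁]
  simp

/-- `ι` has the reduction property. -/
def Red (ι : Type) [Fintype ι] [DecidableEq ι] : Prop :=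
  ∀ δ D : ℝ, 0 < δ → ∃ C : ℝ, ∀ G : Matrix ι ι ℂ, Gᴴ = G →
    (∀ x : ι → GaussianInt, x ≠ 0 → δ ≤ hq G (gv x)) → ‖G.det‖ ≤ D →
    ∃ V : Matrix ι ι GaussianInt, IsUnit V ∧ ∀ i j, ‖tw V G i j‖ ≤ C

lemma gv_ne {κ : Type*} (x : κ → GaussianInt) (hx : x ≠ 0) : gv x ≠ 0 := by
  intro h
  apply hx
  funext i
  have := congrFun h i
  simpa [gv] using this

lemma gv_smul {κ : Type*} [Fintype κ] (G : Matrix κ κ ℂ) (d : GaussianInt) (x : κ → GaussianInt) :
    hq G (gv (fun k => d * x k)) = ‖GaussianInt.toComplex d‖ ^ 2 * hq G (gv x) := by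
  have h1 : gv (fun k => d * x k) = GaussianInt.toComplex d • gv x := by
    funext k
    simp [gv]
  rw [h1]
  unfold hq
  rw [Matrix.mulVec_smul, star_smul, smul_dotProduct, dotProduct_smul, smul_smul, smul_eq_mul]
  have h2 : star (GaussianInt.toComplex d) * GaussianInt.toComplex d = ((‖GaussianInt.toComplex d‖ ^ 2 : ℝ) : ℂ) := by
    rw [Complex.star_def, Complex.conj_mul']
    push_cast
    rfl
  rw [h2, Complex.re_ofReal_mul]

lemma mulVec_col {κ : Type*} [Fintype κ] [DecidableEq κ] (V : Matrix κ κ GaussianInt) (k0 : κ) :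
    (fun k => V k k0) = V *ᵥ (Pi.single k0 1) := by
  funext k
  rw [Matrix.mulVec_single_one]
  rfl

lemma unit_col_ne {κ : Type*} [Fintype κ] [DecidableEq κ] (V : Matrix κ κ GaussianInt) (hV : IsUnit V) (k0 : κ) :
    (fun k => V k k0) ≠ 0 := by
  rw [mulVec_col]
  intro h
  obtain ⟨W, hW⟩ := hV.exists_left_inv
  have h1 : W *ᵥ (V *ᵥ (Pi.single k0 1 : κ → GaussianInt)) = 0 := by rw [h, Matrix.mulVec_zero]
  rw [Matrix.mulVec_mulVec, hW, Matrix.one_mulVec] at h1
  have := congrFun h1 k0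
  simp at this

lemma unit_mulVec_ne {κ : Type*} [Fintype κ] [DecidableEq κ] (V : Matrix κ κ GaussianInt) (hV : IsUnit V)
    (x : κ → GaussianInt) (hx : x ≠ 0) : V *ᵥ x ≠ 0 := by
  intro h
  obtain ⟨W, hW⟩ := hV.exists_left_inv
  have h1 : W *ᵥ (V *ᵥ x) = 0 := by rw [h, Matrix.mulVec_zero]
  rw [Matrix.mulVec_mulVec, hW, Matrix.one_mulVec] at h1
  exact hx h1

lemma tw_diag {κ : Type*} [Fintype κ] [DecidableEq κ] (V : Matrix κ κ GaussianInt) (G : Matrix κ κ ℂ) (k : κ) :
    (tw V G k k).re = hq G (gv (fun l => V l k)) := by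
  have h1 : hq (tw V G) (gv (Pi.single k 1)) = (tw V G k k).re := by
    have h2 : gv (Pi.single k 1 : κ → GaussianInt) = Pi.single k 1 := by
      funext j
      unfold gv
      by_cases hj : j = k
      · subst hj; simp
      · simp [hj]
    unfold hq
    rw [h2, Matrix.mulVec_single_one, Pi.star_single, star_one, single_one_dotProduct]
    rfl
  rw [← h1, hq_tw', gv_mulVec, mulVec_col]

lemma red_empty : Red (Fin 0) := by
  intro δ D hδ
  refine ⟨0, fun G _ _ _ => ⟨1, isUnit_one, fun i => i.elim0⟩⟩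

lemma red_equiv {ι κ : Type} [Fintype ι] [DecidableEq ι] [Fintype κ] [DecidableEq κ] (e : ι ≃ κ) (h : Red ι) :
    Red κ := by
  intro δ D hδ
  obtain ⟨C, hC⟩ := h δ D hδ
  refine ⟨C, fun G hG hmin hdet => ?_⟩
  have hq_sub : ∀ x : ι → ℂ, hq (G.submatrix e e) x = hq G (x ∘ e.symm) := by
    intro x
    unfold hq
    congr 1
    simp only [dotProduct, Matrix.mulVec, Matrix.submatrix_apply, Pi.star_apply, Function.comp]
    rw [← Equiv.sum_comp e]
    refine Finset.sum_congr rfl fun i _ => ?_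
    rw [Equiv.symm_apply_apply]
    congr 1
    rw [← Equiv.sum_comp e (fun j => G (e i) j * x (e.symm j))]
    refine Finset.sum_congr rfl fun j _ => ?_
    rw [Equiv.symm_apply_apply]
  obtain ⟨V, hV, hb⟩ := hC (G.submatrix e e) (by
      rw [Matrix.conjTranspose_submatrix, hG]) (by
      intro x hx
      rw [hq_sub]
      have h1 : (gv x) ∘ e.symm = gv (x ∘ e.symm) := rfl
      rw [h1]
      apply hmin
      intro h0
      apply hx
      funext i
      have := congrFun h0 (e i)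
      simpa using this) (by
      rw [Matrix.det_submatrix_equiv_self]
      exact hdet)
  refine ⟨V.submatrix e.symm e.symm, ?_, ?_⟩
  · obtain ⟨W, hW⟩ := hV.exists_right_inv
    apply IsUnit.of_mul_eq_one (W.submatrix e.symm e.symm)
    rw [Matrix.submatrix_mul_equiv, hW, Matrix.submatrix_one_equiv]
  · intro i j
    have h1 : tw (V.submatrix e.symm e.symm) G = (tw V (G.submatrix e e)).submatrix e.symm e.symm := by
      unfold tw gm
      have hG2 : G = (G.submatrix e e).submatrix e.symm e.symm := by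
        rw [Matrix.submatrix_submatrix]
        simp
      conv_lhs => rw [hG2]
      rw [← Matrix.submatrix_map, Matrix.conjTranspose_submatrix, Matrix.submatrix_mul_equiv, Matrix.submatrix_mul_equiv]
    rw [h1, Matrix.submatrix_apply]
    exact hb _ _

lemma hs_sum {ι : Type*} [Fintype ι] (G : Matrix (Unit ⊕ ι) (Unit ⊕ ι) ℂ) (m : ℝ) (hm : m ≠ 0) (b : ι → ℂ)
    (G1 : Matrix ι ι ℂ) (h00 : G (Sum.inl ()) (Sum.inl ()) = m) (h01 : ∀ i, G (Sum.inl ()) (Sum.inr i) = b i)
    (h10 : ∀ i, G (Sum.inr i) (Sum.inl ()) = star (b i))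
    (h11 : ∀ i j, G (Sum.inr i) (Sum.inr j) = G1 i j + star (b i) * b j / m) (x z : Unit ⊕ ι → ℂ) :
    star x ⬝ᵥ G *ᵥ z = m * (star (x (Sum.inl ()) + (∑ j, b j * x (Sum.inr j)) / m) *
      (z (Sum.inl ()) + (∑ j, b j * z (Sum.inr j)) / m)) +
      star (fun i => x (Sum.inr i)) ⬝ᵥ G1 *ᵥ (fun i => z (Sum.inr i)) := by
  have hmC : (m : ℂ) ≠ 0 := by exact_mod_cast hm
  obtain ⟨β, hβ⟩ : ∃ β : ℂ, β = ∑ j, b j * x (Sum.inr j) := ⟨_, rfl⟩
  obtain ⟨y, hy⟩ : ∃ y : ℂ, y = x (Sum.inl ()) := ⟨_, rfl⟩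
  obtain ⟨γ, hγ⟩ : ∃ γ : ℂ, γ = ∑ j, b j * z (Sum.inr j) := ⟨_, rfl⟩
  obtain ⟨w, hw⟩ : ∃ w : ℂ, w = z (Sum.inl ()) := ⟨_, rfl⟩
  have hβs : star β = ∑ j, star (b j) * star (x (Sum.inr j)) := by
    rw [hβ, star_sum]
    refine Finset.sum_congr rfl fun j _ => ?_
    rw [star_mul']
  have key : star x ⬝ᵥ G *ᵥ z = star y * (m * w) + star y * γ + star β * w + star β * γ / m +
      star (fun i => x (Sum.inr i)) ⬝ᵥ G1 *ᵥ (fun i => z (Sum.inr i)) := by
    simp only [dotProduct, Matrix.mulVec, Fintype.sum_sum_type, Finset.univ_unique, Finset.sum_singleton,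
      PUnit.default_eq_unit, h00, h01, h10, h11, Pi.star_apply, ← hy, ← hγ, ← hw]
    have e1 : ∀ i, ∑ j, (G1 i j + star (b i) * b j / m) * z (Sum.inr j) =
        (∑ j, G1 i j * z (Sum.inr j)) + star (b i) * (γ / m) := by
      intro i
      rw [hγ, Finset.sum_div, Finset.mul_sum, ← Finset.sum_add_distrib]
      refine Finset.sum_congr rfl fun j _ => ?_
      field_simp
    have e2 : ∑ i, star (x (Sum.inr i)) * (star (b i) * w + ∑ j, (G1 i j + star (b i) * b j / m) * z (Sum.inr j)) =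
        star β * w + star β * (γ / m) + ∑ i, star (x (Sum.inr i)) * ∑ j, G1 i j * z (Sum.inr j) := by
      rw [hβs, Finset.sum_mul, Finset.sum_mul, ← Finset.sum_add_distrib, ← Finset.sum_add_distrib]
      refine Finset.sum_congr rfl fun i _ => ?_
      rw [e1]
      ring
    rw [e2]
    ring
  rw [key, ← hβ, ← hy, ← hγ, ← hw, star_add, star_div₀]
  have hms : star (m : ℂ) = m := Complex.conj_ofReal m
  rw [hms]
  field_simp
  ring

lemma hs_tw {κ : Type*} [Fintype κ] [DecidableEq κ] (V : Matrix κ κ GaussianInt) (G : Matrix κ κ ℂ) (k l : κ) :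
    tw V G k l = star (gv (fun i => V i k)) ⬝ᵥ G *ᵥ gv (fun i => V i l) := by
  unfold tw gm gv
  simp only [Matrix.mul_apply, dotProduct, Matrix.mulVec, Matrix.conjTranspose_apply, Matrix.map_apply, Pi.star_apply]
  simp only [Finset.sum_mul, Finset.mul_sum]
  rw [Finset.sum_comm]
  refine Finset.sum_congr rfl fun i _ => Finset.sum_congr rfl fun j _ => ?_
  ring

lemma red_succ {ι : Type} [Fintype ι] [DecidableEq ι] (h : Red ι) : Red (Unit ⊕ ι) := by
  classical
  intro δ D hδ
  obtain ⟨C', hC'⟩ := h (3 / 10 * δ) (D / δ) (by positivity)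
  refine ⟨max D (10 / 3 * C') + |C'|, fun G hG hmin hdet => ?_⟩
  have hD : 0 ≤ D := le_trans (norm_nonneg _) hdet
  -- near minimal primitive vector
  obtain ⟨S, hS⟩ : ∃ S : Set ℝ, S = {t | ∃ x : Unit ⊕ ι → GaussianInt, x ≠ 0 ∧ t = hq G (gv x)} := ⟨_, rfl⟩
  have hSne : S.Nonempty := by
    rw [hS]
    refine ⟨_, fun _ => 1, ?_, rfl⟩
    intro h0
    have := congrFun h0 (Sum.inl ())
    simp at this
  have hSbd : BddBelow S := by
    refine ⟨δ, ?_⟩
    rw [hS]
    rintro t ⟨x, hx, rfl⟩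
    exact hmin x hx
  have hms : δ ≤ sInf S := by
    apply le_csInf hSne
    rw [hS]
    rintro t ⟨x, hx, rfl⟩
    exact hmin x hx
  obtain ⟨t, htS, ht⟩ := exists_lt_of_csInf_lt hSne (show sInf S < 5 / 4 * sInf S by linarith)
  rw [hS] at htS
  obtain ⟨e, he, rfl⟩ := htS
  have hinf : ∀ x : Unit ⊕ ι → GaussianInt, x ≠ 0 → sInf S ≤ hq G (gv x) := by
    intro x hx
    apply csInf_le hSbd
    rw [hS]
    exact ⟨x, hx, rfl⟩
  obtain ⟨V, hV, d, hd, hed⟩ := ext_col (Sum.inl ()) e he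
  have hcol := unit_col_ne V hV (Sum.inl ())
  have hG'h := tw_herm V G hG
  have hdiag := tw_diag V G (Sum.inl ())
  obtain ⟨m, hm⟩ : ∃ m : ℝ, m = hq G (gv (fun l => V l (Sum.inl ()))) := ⟨_, rfl⟩
  have hm1 : sInf S ≤ m := by rw [hm]; exact hinf _ hcol
  have hm0 : 0 < m := by linarith
  have hm2 : m < 5 / 4 * sInf S := by
    have h1 : hq G (gv e) = ‖GaussianInt.toComplex d‖ ^ 2 * m := by
      rw [hm, ← gv_smul]
      congr 2
      funext k
      exact hed k
    have h2 := norm_gauss_ge d hd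
    nlinarith
  rw [← hm] at hdiag
  have hG'00 : tw V G (Sum.inl ()) (Sum.inl ()) = (m : ℂ) := by
    have h1 : star (tw V G (Sum.inl ()) (Sum.inl ())) = tw V G (Sum.inl ()) (Sum.inl ()) := by
      have := congrFun (congrFun hG'h (Sum.inl ())) (Sum.inl ())
      rw [Matrix.conjTranspose_apply] at this
      exact this
    have h2 : (tw V G (Sum.inl ()) (Sum.inl ())).im = 0 := by
      rw [Complex.star_def] at h1
      exact Complex.conj_eq_iff_im.mp h1
    apply Complex.ext
    · rw [hdiag]; simp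
    · rw [h2]; simp
  obtain ⟨G', hG'⟩ : ∃ G', G' = tw V G := ⟨_, rfl⟩
  rw [← hG'] at hG'h hdiag hG'00
  obtain ⟨b, hb⟩ : ∃ b : ι → ℂ, ∀ i, G' (Sum.inl ()) (Sum.inr i) = b i := ⟨fun i => G' (Sum.inl ()) (Sum.inr i), fun i => rfl⟩
  have hb' : ∀ i, G' (Sum.inr i) (Sum.inl ()) = star (b i) := by
    intro i
    have := congrFun (congrFun hG'h (Sum.inr i)) (Sum.inl ())
    rw [Matrix.conjTranspose_apply] at this
    rw [← this, hb]
  obtain ⟨G1, hG1⟩ : ∃ G1 : Matrix ι ι ℂ, ∀ i j, G1 i j = G' (Sum.inr i) (Sum.inr j) - star (b i) * b j / m :=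
    ⟨fun i j => G' (Sum.inr i) (Sum.inr j) - star (b i) * b j / m, fun i j => rfl⟩
  have h11 : ∀ i j, G' (Sum.inr i) (Sum.inr j) = G1 i j + star (b i) * b j / m := by
    intro i j
    rw [hG1]; ring
  have hqs := hq_sum G' m hm0.ne' b G1 hG'00 hb hb' h11
  have hss := hs_sum G' m hm0.ne' b G1 hG'00 hb hb' h11
  have hds := det_sum G' m hm0.ne' b G1 hG'00 hb hb' h11
  have hG1h : G1ᴴ = G1 := by
    ext i j
    rw [Matrix.conjTranspose_apply, hG1, hG1, star_sub, star_div₀, star_mul', star_star]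
    have h1 : star (G' (Sum.inr j) (Sum.inr i)) = G' (Sum.inr i) (Sum.inr j) := by
      have := congrFun (congrFun hG'h (Sum.inr i)) (Sum.inr j)
      rw [Matrix.conjTranspose_apply] at this
      exact this
    have hms : star (m : ℂ) = m := Complex.conj_ofReal m
    rw [h1, hms, mul_comm (b j)]
  have hminG1 : ∀ x : ι → GaussianInt, x ≠ 0 → 3 / 10 * m ≤ hq G1 (gv x) := by
    intro x hx
    obtain ⟨r, hr⟩ := round_gauss ((∑ j, b j * gv x j) / m)
    have h1 := hqs (gv (Sum.elim (fun _ => r) x))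
    have h2 : (gv (Sum.elim (fun _ : Unit => r) x)) (Sum.inl ()) = GaussianInt.toComplex r := rfl
    have h3 : (fun i => (gv (Sum.elim (fun _ : Unit => r) x)) (Sum.inr i)) = gv x := rfl
    have h3' : ∀ i, (gv (Sum.elim (fun _ : Unit => r) x)) (Sum.inr i) = gv x i := fun i => rfl
    rw [h2, h3] at h1
    simp only [h3'] at h1
    have h4 : sInf S ≤ hq G' (gv (Sum.elim (fun _ => r) x)) := by
      rw [hG', hq_tw', gv_mulVec]
      apply hinf
      apply unit_mulVec_ne V hV
      intro h0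
      apply hx
      funext i
      exact congrFun h0 (Sum.inr i)
    have h5 : m * ‖GaussianInt.toComplex r + (∑ j, b j * gv x j) / m‖ ^ 2 ≤ m * (1 / 2) :=
      mul_le_mul_of_nonneg_left hr hm0.le
    linarith
  have hdetG1 : ‖G1.det‖ ≤ D / δ := by
    have h1 : ‖G'.det‖ = m * ‖G1.det‖ := by
      rw [hds, norm_mul, Complex.norm_real, Real.norm_eq_abs, abs_of_pos hm0]
    have h2 : ‖G'.det‖ ≤ D := by
      rw [hG', norm_det_tw V hV]
      exact hdet
    rw [le_div_iff₀ hδ]
    nlinarith [norm_nonneg G1.det]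
  obtain ⟨V', hV', hbd⟩ := hC' G1 hG1h (fun x hx => le_trans (by nlinarith) (hminG1 x hx)) hdetG1
  -- bound for m
  have hmb : m ≤ max D (10 / 3 * C') := by
    rcases isEmpty_or_nonempty ι with hι | ⟨⟨i0⟩⟩
    · apply le_trans _ (le_max_left _ _)
      have h1 : ‖G'.det‖ = m := by
        rw [hds, Matrix.det_isEmpty, mul_one, Complex.norm_real, Real.norm_eq_abs, abs_of_pos hm0]
      rw [← h1, hG', norm_det_tw V hV]
      exact hdet
    · apply le_trans _ (le_max_right _ _)
      have h1 := hminG1 _ (unit_col_ne V' hV' i0)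
      rw [← tw_diag] at h1
      have h2 := hbd i0 i0
      have h3 := Complex.re_le_norm (tw V' G1 i0 i0)
      linarith
  -- lifts
  choose r hr using fun i : ι => round_gauss ((∑ j, b j * gv (fun l => V' l i) j) / m)
  have hV'' : IsUnit (Matrix.fromBlocks (1 : Matrix Unit Unit GaussianInt) (Matrix.of fun _ i => r i) 0 V') := by
    rw [Matrix.isUnit_iff_isUnit_det, Matrix.det_fromBlocks_zero₂₁, Matrix.det_one, one_mul]
    exact (Matrix.isUnit_iff_isUnit_det V').mp hV'
  refine ⟨V * Matrix.fromBlocks (1 : Matrix Unit Unit GaussianInt) (Matrix.of fun _ i => r i) 0 V', hV.mul hV'', ?_⟩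
  intro k l
  rw [tw_mul, ← hG', hs_tw, hss]
  obtain ⟨V2, hV2⟩ : ∃ V2, V2 = Matrix.fromBlocks (1 : Matrix Unit Unit GaussianInt) (Matrix.of fun _ i => r i) 0 V' := ⟨_, rfl⟩
  rw [← hV2]
  have hlead : ∀ k, ‖gv (fun i => V2 i k) (Sum.inl ()) + (∑ j, b j * gv (fun i => V2 i k) (Sum.inr j)) / m‖ ≤ 1 := by
    intro k
    rcases k with k | k
    · have h1 : gv (fun i => V2 i (Sum.inl k)) (Sum.inl ()) = 1 := by
        rw [hV2]
        cases k
        simp [gv]
      have h2 : ∀ j, gv (fun i => V2 i (Sum.inl k)) (Sum.inr j) = 0 := by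
        intro j
        rw [hV2]
        simp [gv]
      simp only [h1, h2, mul_zero, Finset.sum_const_zero, zero_div, add_zero, norm_one, le_refl]
    · have h1 : gv (fun i => V2 i (Sum.inr k)) (Sum.inl ()) = GaussianInt.toComplex (r k) := by
        rw [hV2]
        simp [gv]
      have h2 : ∀ j, gv (fun i => V2 i (Sum.inr k)) (Sum.inr j) = gv (fun l => V' l k) j := by
        intro j
        rw [hV2]
        simp [gv]
      simp only [h1, h2]
      have h3 := hr k
      nlinarith [norm_nonneg (GaussianInt.toComplex (r k) + (∑ j, b j * gv (fun l => V' l k) j) / (m : ℂ))]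
  have hrest : ‖star (fun i => gv (fun i => V2 i k) (Sum.inr i)) ⬝ᵥ G1 *ᵥ (fun i => gv (fun i => V2 i l) (Sum.inr i))‖ ≤ |C'| := by
    have h2 : ∀ k, (fun j => gv (fun i => V2 i (Sum.inl k)) (Sum.inr j)) = 0 := by
      intro k
      funext j
      rw [hV2]
      simp [gv]
    have h3 : ∀ k, (fun j => gv (fun i => V2 i (Sum.inr k)) (Sum.inr j)) = gv (fun l => V' l k) := by
      intro k
      funext j
      rw [hV2]
      simp [gv]
    rcases k with k | k <;> rcases l with l | l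
    · rw [h2 k, star_zero, zero_dotProduct, norm_zero]
      exact abs_nonneg _
    · rw [h2 k, star_zero, zero_dotProduct, norm_zero]
      exact abs_nonneg _
    · rw [h2 l, Matrix.mulVec_zero, dotProduct_zero, norm_zero]
      exact abs_nonneg _
    · rw [h3, h3, ← hs_tw]
      exact le_trans (hbd k l) (le_abs_self _)
  refine le_trans (norm_add_le _ _) ?_
  apply add_le_add _ hrest
  rw [norm_mul, Complex.norm_real, Real.norm_eq_abs, abs_of_pos hm0, norm_mul, norm_star]
  have h1 := hlead k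
  have h2 := hlead l
  have h3 : ‖gv (fun i => V2 i k) (Sum.inl ()) + (∑ j, b j * gv (fun i => V2 i k) (Sum.inr j)) / m‖ *
      ‖gv (fun i => V2 i l) (Sum.inl ()) + (∑ j, b j * gv (fun i => V2 i l) (Sum.inr j)) / m‖ ≤ 1 * 1 :=
    mul_le_mul h1 h2 (norm_nonneg _) zero_le_one
  nlinarith

lemma red_fin (c : ℕ) : Red (Fin c) := by
  induction c with
  | zero => exact red_empty
  | succ n ih =>
    refine red_equiv ?_ (red_succ ih)
    exact ((Equiv.sumComm Unit (Fin n)).trans ((Equiv.refl (Fin n)).sumCongr finOneEquiv.symm)).trans finSumFinEquiv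

/-- Finitely many classes of positive definite unimodular hermitian forms over the Gaussian integers. -/
theorem red (c : ℕ) : ∃ S : Set (Matrix (Fin c) (Fin c) GaussianInt), S.Finite ∧
    ∀ H : Matrix (Fin c) (Fin c) GaussianInt, Hᴴ = H →
      (∀ x : Fin c → GaussianInt, x ≠ 0 → 0 < (star x ⬝ᵥ (H *ᵥ x)).re) → IsUnit H.det →
      ∃ V : GL (Fin c) GaussianInt, V.1ᴴ * H * V.1 ∈ S := by
  obtain ⟨C, hC⟩ := red_fin c 1 1 one_pos
  refine ⟨{M | ∀ i j, M i j ∈ {z : GaussianInt | ‖GaussianInt.toComplex z‖ ≤ C}}, ?_, ?_⟩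
  · have hfin : {z : GaussianInt | ‖GaussianInt.toComplex z‖ ≤ C}.Finite := by
      have h1 : {z : GaussianInt | ‖GaussianInt.toComplex z‖ ≤ C} ⊆
          (fun p : ℤ × ℤ => (⟨p.1, p.2⟩ : GaussianInt)) '' (Set.Icc (-⌊C⌋) ⌊C⌋ ×ˢ Set.Icc (-⌊C⌋) ⌊C⌋) := by
        intro z hz
        have hz' : ‖GaussianInt.toComplex z‖ ≤ C := hz
        have h2 := le_trans (Complex.abs_re_le_norm _) hz'
        have h3 := le_trans (Complex.abs_im_le_norm _) hz'
        rw [← GaussianInt.intCast_re, abs_le] at h2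
        rw [← GaussianInt.intCast_im, abs_le] at h3
        refine ⟨(z.re, z.im), ⟨⟨?_, ?_⟩, ⟨?_, ?_⟩⟩, ?_⟩
        · have : (-z.re : ℤ) ≤ ⌊C⌋ := by
            apply Int.le_floor.mpr
            push_cast
            linarith [h2.1]
          show -⌊C⌋ ≤ z.re
          omega
        · exact Int.le_floor.mpr h2.2
        · have : (-z.im : ℤ) ≤ ⌊C⌋ := by
            apply Int.le_floor.mpr
            push_cast
            linarith [h3.1]
          show -⌊C⌋ ≤ z.im
          omega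
        · exact Int.le_floor.mpr h3.2
        · rfl
      exact ((Set.toFinite _).image _).subset h1
    have h3 : {f : Fin c → Fin c → GaussianInt | ∀ i, f i ∈ {g : Fin c → GaussianInt | ∀ j, g j ∈
        {z : GaussianInt | ‖GaussianInt.toComplex z‖ ≤ C}}}.Finite := Set.Finite.pi' (fun _ => Set.Finite.pi' (fun _ => hfin))
    exact h3
  · intro H hH hpos hdet
    have hstar : ∀ V : Matrix (Fin c) (Fin c) GaussianInt, gm Vᴴ = (gm V)ᴴ := by
      intro V
      ext i j
      simp [gm, Matrix.conjTranspose_apply, GaussianInt.toComplex_star]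
    have hval : ∀ x : Fin c → GaussianInt, hq (gm H) (gv x) = ((star x ⬝ᵥ (H *ᵥ x)).re : ℝ) := by
      intro x
      unfold hq
      rw [gv_mulVec, GaussianInt.intCast_re]
      congr 1
      simp only [dotProduct, gv, Pi.star_apply, map_sum, map_mul, GaussianInt.toComplex_star, Complex.star_def]
    obtain ⟨V, hV, hb⟩ := hC (gm H) (by rw [← hstar, hH]) (by
        intro x hx
        rw [hval]
        have := hpos x hx
        exact_mod_cast this) (by
        have hu : IsUnit H := (Matrix.isUnit_iff_isUnit_det H).mpr hdet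
        rw [unit_norm_det H hu])
    refine ⟨hV.unit, ?_⟩
    intro i j
    show ‖GaussianInt.toComplex ((Vᴴ * H * V) i j)‖ ≤ C
    have h1 : GaussianInt.toComplex ((Vᴴ * H * V) i j) = tw V (gm H) i j := by
      have h2 : gm (Vᴴ * H * V) = tw V (gm H) := by
        unfold tw
        rw [gm_mul, gm_mul, hstar]
      rw [← h2]
      rfl
    rw [h1]
    exact hb i j

end Pool.Agent.LibSt16
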