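import Pool.Agent.LibSt16.IDefs2
import Pool.Agent.LibSt16.Red96

/-!
ST16 IR1 (helper52). Reduction theory (helper96, file Red96) and the factorisation `g = B w`.
-/

namespace St16I

open Matrix QuadraticAlgebra Module

theorem red (c : ℕ) : ∃ S : Set (Matrix (Fin c) (Fin c) GaussianInt), S.Finite ∧
    ∀ H : Matrix (Fin c) (Fin c) GaussianInt, Hᴴ = H →
      (∀ x : Fin c → GaussianInt, x ≠ 0 → 0 < (star x ⬝ᵥ (H *ᵥ x)).re) → IsUnit H.det →
      ∃ V : GL (Fin c) GaussianInt, (V : Matrix (Fin c) (Fin c) GaussianInt)ᴴ * H * V ∈ S := by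
  obtain ⟨S, hS, h⟩ := Pool.Agent.LibSt16.red c
  exact ⟨S, hS, fun H h1 h2 h3 => h H h1 h2 h3⟩


section

variable {R K : Type} [CommRing R] [IsDomain R] [IsPrincipalIdealRing R] [Field K] [Algebra R K] [IsFractionRing R K]

/-- integral vectors -/
private def IR1_stdM (R K : Type) [CommRing R] [Field K] [Algebra R K] (c : ℕ) : Submodule R (Fin c → K) :=
  LinearMap.range ((Algebra.linearMap R K).compLeft (Fin c))

omit [IsDomain R] [IsPrincipalIdealRing R] [IsFractionRing R K] in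
private theorem IR1_mem_stdM {c : ℕ} {x : Fin c → K} : x ∈ IR1_stdM R K c ↔ ∀ i, ∃ r : R, x i = algebraMap R K r := by
  constructor
  · rintro ⟨y, rfl⟩ i
    exact ⟨y i, rfl⟩
  · intro h
    choose y hy using h
    exact ⟨y, funext fun i => (hy i).symm⟩

omit [IsDomain R] [IsPrincipalIdealRing R] [IsFractionRing R K] in
private theorem IR1_mulVec_stdM {c : ℕ} {x : Fin c → K} (hx : x ∈ IR1_stdM R K c) {g : Matrix (Fin c) (Fin c) K}
    (hg : ∀ i j, ∃ r : R, g i j = algebraMap R K r) : g *ᵥ x ∈ IR1_stdM R K c := by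
  rw [IR1_mem_stdM] at hx ⊢
  intro i
  choose y hy using hx
  choose r hr using hg
  refine ⟨∑ j, r i j * y j, ?_⟩
  rw [map_sum]
  change ∑ j, g i j * x j = _
  refine Finset.sum_congr rfl fun j _ => ?_
  rw [map_mul, ← hr, ← hy]

/-- the lattice of the vectors which are integral outside `n1` and whose image under `g'` is integral outside `n2` -/
private def IR1_latL (n1 n2 : R) {c : ℕ} (g' : Matrix (Fin c) (Fin c) K) : Submodule R (Fin c → K) where
  carrier := {x | (∃ t : ℕ, n1 ^ t • x ∈ IR1_stdM R K c) ∧ ∃ t : ℕ, n2 ^ t • (g' *ᵥ x) ∈ IR1_stdM R K c}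
  zero_mem' := ⟨⟨0, by simp⟩, ⟨0, by simp⟩⟩
  add_mem' := by
    rintro x y ⟨⟨a, ha⟩, b, hb⟩ ⟨⟨a', ha'⟩, b', hb'⟩
    refine ⟨⟨a + a', ?_⟩, b + b', ?_⟩
    · rw [smul_add]
      refine add_mem ?_ ?_
      · rw [pow_add, mul_comm, mul_smul]
        exact Submodule.smul_mem _ _ ha
      · rw [pow_add, mul_smul]
        exact Submodule.smul_mem _ _ ha'
    · rw [mulVec_add, smul_add]
      refine add_mem ?_ ?_
      · rw [pow_add, mul_comm, mul_smul]
        exact Submodule.smul_mem _ _ hb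
      · rw [pow_add, mul_smul]
        exact Submodule.smul_mem _ _ hb'
  smul_mem' := by
    rintro r x ⟨⟨a, ha⟩, b, hb⟩
    refine ⟨⟨a, ?_⟩, b, ?_⟩
    · rw [smul_comm]
      exact Submodule.smul_mem _ _ ha
    · rw [mulVec_smul, smul_comm]
      exact Submodule.smul_mem _ _ hb

variable {n1 n2 : R} {c : ℕ} {g g' : Matrix (Fin c) (Fin c) K}

omit [IsDomain R] [IsPrincipalIdealRing R] [IsFractionRing R K] in
private theorem IR1_latL_le (hc : IsCoprime n1 n2) (hgg : g * g' = 1) {s : ℕ}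
    (h : ∀ i j, ∃ r : R, algebraMap R K ((n1 * n2) ^ s) * g i j = algebraMap R K r) {x : Fin c → K}
    (hx : x ∈ IR1_latL n1 n2 g') : n1 ^ s • x ∈ IR1_stdM R K c := by
  obtain ⟨⟨a, ha⟩, b, hb⟩ := hx
  have h1 : (n1 ^ s * n2 ^ (s + b)) • x ∈ IR1_stdM R K c := by
    have h2 : ((algebraMap R K ((n1 * n2) ^ s)) • g) *ᵥ (n2 ^ b • (g' *ᵥ x)) ∈ IR1_stdM R K c :=
      IR1_mulVec_stdM hb fun i j => by
        obtain ⟨r, hr⟩ := h i j
        exact ⟨r, hr⟩
    rw [mulVec_smul, smul_mulVec, mulVec_mulVec, hgg, one_mulVec, algebraMap_smul, smul_smul] at h2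
    convert h2 using 2
    rw [mul_pow, pow_add]
    ring
  obtain ⟨u, v, huv⟩ := (hc.pow_left (m := a)).pow_right (n := s + b)
  have e : n1 ^ s • x = (u * n1 ^ s) • (n1 ^ a • x) + v • ((n1 ^ s * n2 ^ (s + b)) • x) := by
    rw [smul_smul, smul_smul, ← add_smul]
    congr 1
    calc n1 ^ s = n1 ^ s * (u * n1 ^ a + v * n2 ^ (s + b)) := by rw [huv, mul_one]
      _ = _ := by ring
  rw [e]
  exact add_mem (Submodule.smul_mem _ _ ha) (Submodule.smul_mem _ _ h1)

omit [IsDomain R] [IsPrincipalIdealRing R] [IsFractionRing R K] in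
private theorem IR1_single_mem_latL {s : ℕ}
    (h' : ∀ i j, ∃ r : R, algebraMap R K ((n1 * n2) ^ s) * g' i j = algebraMap R K r) (j : Fin c) :
    n1 ^ s • (Pi.single j 1 : Fin c → K) ∈ IR1_latL n1 n2 g' := by
  refine ⟨⟨0, ?_⟩, s, ?_⟩
  · rw [IR1_mem_stdM]
    intro i
    by_cases hij : i = j
    · subst hij
      refine ⟨n1 ^ s, ?_⟩
      simp [Algebra.smul_def]
    · refine ⟨0, ?_⟩
      simp [hij]
  · rw [IR1_mem_stdM]
    intro i
    obtain ⟨r, hr⟩ := h' i j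
    refine ⟨r, ?_⟩
    rw [← hr, mulVec_smul, smul_smul, mulVec_single_one]
    simp only [Pi.smul_apply, col_apply, Algebra.smul_def]
    rw [mul_comm (n2 ^ s), ← mul_pow]

private theorem IR1_isLattice_latL (hc : IsCoprime n1 n2) (h1 : n1 ≠ 0) (hgg : g * g' = 1) {s : ℕ}
    (h : ∀ i j, ∃ r : R, algebraMap R K ((n1 * n2) ^ s) * g i j = algebraMap R K r)
    (h' : ∀ i j, ∃ r : R, algebraMap R K ((n1 * n2) ^ s) * g' i j = algebraMap R K r) :
    Submodule.IsLattice K (IR1_latL n1 n2 g') where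
  fg := by
    have hinj : Function.Injective (LinearMap.lsmul R (Fin c → K) (n1 ^ s)) := by
      intro x y hxy
      have hxy' : n1 ^ s • x = n1 ^ s • y := hxy
      rw [← algebraMap_smul K (n1 ^ s) x, ← algebraMap_smul K (n1 ^ s) y] at hxy'
      have h0 : algebraMap R K (n1 ^ s) ≠ 0 := by
        rw [Ne, FaithfulSMul.algebraMap_eq_zero_iff]
        exact pow_ne_zero _ h1
      exact smul_right_injective _ h0 hxy'
    apply Submodule.fg_of_fg_map_injective _ hinj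
    have hN : IsNoetherian R (IR1_stdM R K c) := by
      unfold IR1_stdM
      infer_instance
    refine (isNoetherian_submodule.1 hN) _ ?_
    rintro _ ⟨x, hx, rfl⟩
    exact IR1_latL_le hc hgg h hx
  span_eq_top := by
    rw [eq_top_iff, ← (Pi.basisFun K (Fin c)).span_eq, Submodule.span_le]
    rintro _ ⟨j, rfl⟩
    rw [Pi.basisFun_apply]
    have h0 : algebraMap R K (n1 ^ s) ≠ 0 := by
      rw [Ne, FaithfulSMul.algebraMap_eq_zero_iff]
      exact pow_ne_zero _ h1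
    have e : (Pi.single j 1 : Fin c → K) =
        (algebraMap R K (n1 ^ s))⁻¹ • (n1 ^ s • (Pi.single j 1 : Fin c → K)) := by
      rw [← algebraMap_smul K (n1 ^ s), smul_smul, inv_mul_cancel₀ h0, one_smul]
    rw [e]
    exact Submodule.smul_mem _ _ (Submodule.subset_span (IR1_single_mem_latL h' j))

private theorem IR1_bw_gen (hc : IsCoprime n1 n2) (h1 : n1 ≠ 0) (hgg : g * g' = 1) {s : ℕ}
    (h : ∀ i j, ∃ r : R, algebraMap R K ((n1 * n2) ^ s) * g i j = algebraMap R K r)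
    (h' : ∀ i j, ∃ r : R, algebraMap R K ((n1 * n2) ^ s) * g' i j = algebraMap R K r) :
    ∃ B B' w w' : Matrix (Fin c) (Fin c) K, B * B' = 1 ∧ w * w' = 1 ∧ g = B * w ∧
      (∀ i j, ∃ r : R, algebraMap R K (n1 ^ s) * B i j = algebraMap R K r) ∧
      (∀ i j, ∃ r : R, algebraMap R K (n1 ^ s) * B' i j = algebraMap R K r) ∧
      (∀ i j, ∃ r : R, algebraMap R K (n2 ^ s) * w i j = algebraMap R K r) ∧
      ∀ i j, ∃ (t : ℕ) (r : R), algebraMap R K (n2 ^ t) * w' i j = algebraMap R K r := by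
  have hL := IR1_isLattice_latL hc h1 hgg h h'
  set L := IR1_latL n1 n2 g' with hLdef
  have hcard : Fintype.card (Module.Free.ChooseBasisIndex R L) = c := by
    rw [← Module.finrank_eq_card_chooseBasisIndex, Submodule.IsLattice.finrank_of_pi K L, Fintype.card_fin]
  let b : Basis (Fin c) R L := (Module.Free.chooseBasis R L).reindex (Fintype.equivFinOfCardEq hcard)
  let bK : Basis (Fin c) K (Fin c → K) := b.extendOfIsLattice K
  let e := Pi.basisFun K (Fin c)
  let B : Matrix (Fin c) (Fin c) K := e.toMatrix bK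
  let B' : Matrix (Fin c) (Fin c) K := bK.toMatrix e
  have hBB : B * B' = 1 := Basis.toMatrix_mul_toMatrix_flip _ _
  have hBB' : B' * B = 1 := Basis.toMatrix_mul_toMatrix_flip _ _
  have hBcol : ∀ j, B.col j = (b j : Fin c → K) := by
    intro j
    funext i
    change e.toMatrix bK i j = _
    rw [Basis.toMatrix_apply, Basis.extendOfIsLattice_apply]
    simp [e]
  have hint : ∀ x ∈ L, B' *ᵥ x ∈ IR1_stdM R K c := by
    intro x hx
    have h2 : x = B *ᵥ fun i => algebraMap R K (b.repr ⟨x, hx⟩ i) := by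
      have h3 : (((∑ j, b.repr ⟨x, hx⟩ j • b j : L)) : Fin c → K) = x := congrArg (Subtype.val) (b.sum_repr ⟨x, hx⟩)
      refine h3.symm.trans ?_
      funext i
      simp only [Submodule.coe_sum, Submodule.coe_smul, Finset.sum_apply, Pi.smul_apply, mulVec, dotProduct]
      refine Finset.sum_congr rfl fun j _ => ?_
      rw [← hBcol, Algebra.smul_def, mul_comm]
      rfl
    rw [h2, mulVec_mulVec, hBB', one_mulVec, IR1_mem_stdM]
    exact fun i => ⟨_, rfl⟩
  have hgg' : g' * g = 1 := mul_eq_one_comm.1 hgg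
  refine ⟨B, B', B' * g, g' * B, hBB, ?_, ?_, ?_, ?_, ?_, ?_⟩
  · rw [Matrix.mul_assoc, ← Matrix.mul_assoc g, hgg, Matrix.one_mul, hBB']
  · rw [← Matrix.mul_assoc, hBB, Matrix.one_mul]
  · intro i j
    have h2 := IR1_latL_le hc hgg h (b j).2
    rw [← hBcol, IR1_mem_stdM] at h2
    obtain ⟨r, hr⟩ := h2 i
    exact ⟨r, by rw [← hr, Pi.smul_apply, Algebra.smul_def]; rfl⟩
  · intro i j
    have h2 := hint _ (IR1_single_mem_latL h' j)
    rw [IR1_mem_stdM] at h2
    obtain ⟨r, hr⟩ := h2 i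
    refine ⟨r, ?_⟩
    rw [← hr, mulVec_smul, mulVec_single_one, Pi.smul_apply, Algebra.smul_def]
    rfl
  · intro i j
    have hm : n2 ^ s • (g.col j) ∈ L := by
      refine ⟨⟨s, ?_⟩, s, ?_⟩
      · rw [IR1_mem_stdM]
        intro i
        obtain ⟨r, hr⟩ := h i j
        refine ⟨r, ?_⟩
        rw [← hr, smul_smul, Pi.smul_apply, Algebra.smul_def, ← mul_pow]
        rfl
      · rw [mulVec_smul, ← mulVec_single_one, mulVec_mulVec, hgg', one_mulVec, IR1_mem_stdM]
        intro i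
        by_cases hij : i = j
        · subst hij
          refine ⟨n2 ^ s * n2 ^ s, ?_⟩
          simp [Algebra.smul_def]
        · refine ⟨0, ?_⟩
          simp [hij]
    have h2 := hint _ hm
    rw [IR1_mem_stdM] at h2
    obtain ⟨r, hr⟩ := h2 i
    refine ⟨r, ?_⟩
    rw [← hr, ← mulVec_single_one, mulVec_smul, mulVec_mulVec, mulVec_single_one, Pi.smul_apply, Algebra.smul_def]
    rfl
  · intro i j
    obtain ⟨-, t, ht⟩ := (b j).2
    rw [← hBcol, ← mulVec_single_one, mulVec_mulVec, mulVec_single_one, IR1_mem_stdM] at ht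
    obtain ⟨r, hr⟩ := ht i
    refine ⟨t, r, ?_⟩
    rw [← hr, Pi.smul_apply, Algebra.smul_def]
    rfl

end

private theorem IR1_surj (z : E) : ∃ (n : ℕ) (x : GaussianInt), n ≠ 0 ∧ (n : E) * z = gi x := by
  refine ⟨z.re.den * z.im.den, ⟨z.re.num * z.im.den, z.im.num * z.re.den⟩, by positivity, ?_⟩
  have h1 : (z.re.num : ℚ) = z.re * z.re.den := (Rat.mul_den_eq_num z.re).symm
  have h2 : (z.im.num : ℚ) = z.im * z.im.den := (Rat.mul_den_eq_num z.im).symm
  ext
  · change (((z.re.den * z.im.den : ℕ) : E) * z).re = ((z.re.num * z.im.den : ℤ) : ℚ)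
    rw [QuadraticAlgebra.re_mul]
    simp
    rw [h1]
    ring
  · change (((z.re.den * z.im.den : ℕ) : E) * z).im = ((z.im.num * z.re.den : ℤ) : ℚ)
    rw [QuadraticAlgebra.im_mul]
    simp
    rw [h2]
    ring

private theorem IR1_frac : @IsFractionRing GaussianInt _ E _ gi.toAlgebra := by
  let _ : Algebra GaussianInt E := gi.toAlgebra
  have hal : ∀ x, algebraMap GaussianInt E x = gi x := fun _ => rfl
  refine { map_units := ?_, surj := ?_, exists_of_eq := ?_ }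
  · rintro ⟨y, hy⟩
    rw [hal]
    refine isUnit_iff_ne_zero.2 fun h => nonZeroDivisors.ne_zero hy ?_
    exact gi_injective (h.trans (map_zero gi).symm)
  · intro z
    obtain ⟨n, x, hn, hx⟩ := IR1_surj z
    refine ⟨(x, ⟨(n : GaussianInt), ?_⟩), ?_⟩
    · exact mem_nonZeroDivisors_of_ne_zero (by exact_mod_cast hn)
    · change z * gi (n : GaussianInt) = gi x
      rw [gi_natCast, mul_comm, hx]
  · intro x y h
    exact ⟨1, by rw [gi_injective h]⟩

/-- uniform exponent -/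
private theorem IR1_unif {c : ℕ} {N : ℕ} (g : Matrix (Fin c) (Fin c) E) (h : ∀ i j, g i j ∈ ZInv N) :
    ∃ s : ℕ, ∀ t, s ≤ t → ∀ i j, ∃ r : GaussianInt, gi ((N : GaussianInt) ^ t) * g i j = gi r := by
  choose k hk using h
  refine ⟨Finset.univ.sup fun p : Fin c × Fin c => k p.1 p.2, fun t ht i j => ?_⟩
  have h1 : k i j ≤ t := (Finset.le_sup (f := fun p : Fin c × Fin c => k p.1 p.2) (Finset.mem_univ (i, j))).trans ht
  obtain ⟨a, ha⟩ := hk i j
  refine ⟨(N : GaussianInt) ^ (t - k i j) * a, ?_⟩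
  rw [map_mul, ha, map_pow, map_pow, gi_natCast, ← mul_assoc, ← pow_add, Nat.sub_add_cancel h1]

theorem bw {N1 N2 : ℕ} (h1 : N1 ≠ 0) (h2 : N2 ≠ 0) (h12 : N1.Coprime N2) {c : ℕ} (g : GL (Fin c) E)
    (h : ∀ i j, (g : Matrix (Fin c) (Fin c) E) i j ∈ ZInv (N1 * N2))
    (h' : ∀ i j, (↑g⁻¹ : Matrix (Fin c) (Fin c) E) i j ∈ ZInv (N1 * N2)) :
    ∃ B w : GL (Fin c) E, g = B * w ∧
      (∀ i j, (B : Matrix (Fin c) (Fin c) E) i j ∈ ZInv N1 ∧ (↑B⁻¹ : Matrix (Fin c) (Fin c) E) i j ∈ ZInv N1) ∧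
      (∀ i j, (w : Matrix (Fin c) (Fin c) E) i j ∈ ZInv N2 ∧ (↑w⁻¹ : Matrix (Fin c) (Fin c) E) i j ∈ ZInv N2) := by
  let _ : Algebra GaussianInt E := gi.toAlgebra
  have := IR1_frac
  have hal : ∀ x, algebraMap GaussianInt E x = gi x := fun _ => rfl
  obtain ⟨s1, hs1⟩ := IR1_unif g.1 h
  obtain ⟨s2, hs2⟩ := IR1_unif (g⁻¹ : GL (Fin c) E).1 h'
  have hcop : IsCoprime (N1 : GaussianInt) (N2 : GaussianInt) := by
    have h2 : IsCoprime (N1 : ℤ) (N2 : ℤ) := Nat.isCoprime_iff_coprime.2 h12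
    have h3 := h2.map (Int.castRingHom GaussianInt)
    simpa using h3
  have hgg : g.1 * (g⁻¹ : GL (Fin c) E).1 = 1 := by
    rw [← Units.val_mul, mul_inv_cancel, Units.val_one]
  have hpow : ∀ t : ℕ, ((N1 : GaussianInt) * N2) ^ t = (((N1 * N2 : ℕ) : GaussianInt)) ^ t := by
    intro t
    rw [Nat.cast_mul]
  obtain ⟨B, B', w, w', hB, hw, hgBw, q1, q2, q3, q4⟩ := IR1_bw_gen (R := GaussianInt) (K := E)
    (n1 := (N1 : GaussianInt)) (n2 := (N2 : GaussianInt)) hcop (by exact_mod_cast h1) hgg (s := max s1 s2)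
    (fun i j => by rw [hpow]; exact hs1 _ (le_max_left _ _) i j)
    (fun i j => by rw [hpow]; exact hs2 _ (le_max_right _ _) i j)
  let Bu : GL (Fin c) E := ⟨B, B', hB, mul_eq_one_comm.1 hB⟩
  let wu : GL (Fin c) E := ⟨w, w', hw, mul_eq_one_comm.1 hw⟩
  have key : ∀ (N : ℕ) (t : ℕ) (z : E) (r : GaussianInt), algebraMap GaussianInt E ((N : GaussianInt) ^ t) * z =
      algebraMap GaussianInt E r → z ∈ ZInv N := by
    intro N t z r h
    refine ⟨t, r, ?_⟩
    rw [hal, hal, map_pow, gi_natCast] at h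
    exact h.symm
  refine ⟨Bu, wu, Units.ext hgBw, fun i j => ⟨?_, ?_⟩, fun i j => ⟨?_, ?_⟩⟩
  · obtain ⟨r, hr⟩ := q1 i j
    exact key _ _ _ _ hr
  · obtain ⟨r, hr⟩ := q2 i j
    exact key _ _ _ _ hr
  · obtain ⟨r, hr⟩ := q3 i j
    exact key _ _ _ _ hr
  · obtain ⟨t, r, hr⟩ := q4 i j
    exact key _ _ _ _ hr

theorem ZInv_inf {N1 N2 : ℕ} (h1 : N1 ≠ 0) (h2 : N2 ≠ 0) (h12 : N1.Coprime N2) {z : E}
    (hz1 : z ∈ ZInv N1) (hz2 : z ∈ ZInv N2) : z ∈ gi.range := by
  obtain ⟨k, a, ha⟩ := hz1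
  obtain ⟨l, b, hb⟩ := hz2
  have h3 : IsCoprime ((N1 : ℤ) ^ k) ((N2 : ℤ) ^ l) := (Nat.isCoprime_iff_coprime.2 h12).pow
  have h4 := (h3.map (Int.castRingHom GaussianInt))
  obtain ⟨u, v, huv⟩ := h4
  refine ⟨u * a + v * b, ?_⟩
  have h5 := congrArg gi huv
  simp only [map_add, map_mul, map_pow, map_one, eq_intCast, Int.cast_natCast, gi_natCast] at h5
  rw [map_add, map_mul, map_mul, ha, hb]
  linear_combination z * h5


end St16I
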