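import Pool.Agent.LibSt16.IDefs2

/-!
ST16 IT1. Types: elementary facts.

Plan. `act g` is an additive bijection of `E^c` (`mem_act`), so indices are preserved (`AddSubgroup.relIndex_map_map_of_injective`
or the quotient cardinalities). `AddSubgroup.relIndex_mul_relIndex` for `A_0 ≤ A_1 ≤ A_2`. `relIndex_up`: `up A / A ≅ (OP/ν)^c`
has `N^c` elements: for `A = act g (sM 0)` by `lat_free` (IT2) reduce to `sM (-1) / sM 0`; `OP/ν OP ≅ ℤ[i]/ν` has `norm ν = N`
elements (or: for each basis vector; cardinality of `GaussianInt ⧸ (ν)`). Strict inclusion: index `≠ 1`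
(`AddSubgroup.relIndex_eq_one`), finite because it divides `N^c`.
Faces: `(s.face 0)` drops the first entry, `(s.face (i+1))` multiplies the entries `i`, `i+1` (drops the last one if `i` is
the last); this is `Fin.contractNth i (· * ·)`.
-/

namespace St16I

open Matrix QuadraticAlgebra

variable {Φ : Finset P1} {c : ℕ}

private theorem IT1_prod {G : Type*} [AddGroup G] : ∀ (q : ℕ) (s : Fin (q + 1) → AddSubgroup G),
    Monotone s → ∏ k : Fin q, (s k.castSucc).relIndex (s k.succ) = (s 0).relIndex (s (Fin.last q))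
  | 0, s, _ => by
    rw [Fin.prod_univ_zero]
    exact (AddSubgroup.relIndex_self (s 0)).symm
  | q + 1, s, hs => by
    rw [Fin.prod_univ_castSucc]
    have ih := IT1_prod q (fun k => s k.castSucc) fun a b h => hs (Fin.castSucc_le_castSucc_iff.2 h)
    have h1 : ∏ k : Fin q, (s k.castSucc.castSucc).relIndex (s k.castSucc.succ) =
        (s 0).relIndex (s (Fin.last q).castSucc) := ih
    rw [h1]
    exact AddSubgroup.relIndex_mul_relIndex _ _ _ (hs (Fin.zero_le _)) (hs (Fin.castSucc_le_succ _))

theorem ty_smul (g : GL (Fin c) E) {q : ℕ} (s : Y Φ c q) : ty (g • s) = ty s := by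
  funext k
  have hinj : Function.Injective
      (Matrix.toLin' (g : Matrix (Fin c) (Fin c) E)).toAddMonoidHom := by
    intro u v huv
    have h1 : (↑g⁻¹ : Matrix (Fin c) (Fin c) E) * (g : Matrix (Fin c) (Fin c) E) = 1 := by
      rw [← Units.val_mul, inv_mul_cancel, Units.val_one]
    have h2 : (g : Matrix (Fin c) (Fin c) E) *ᵥ u = (g : Matrix (Fin c) (Fin c) E) *ᵥ v := huv
    calc u = (↑g⁻¹ : Matrix (Fin c) (Fin c) E) *ᵥ ((g : Matrix (Fin c) (Fin c) E) *ᵥ u) := by
          rw [Matrix.mulVec_mulVec, h1, Matrix.one_mulVec]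
      _ = v := by rw [h2, Matrix.mulVec_mulVec, h1, Matrix.one_mulVec]
  have hmap : ∀ A : Submodule (OP Φ) (Fin c → E), (act g A).toAddSubgroup =
      A.toAddSubgroup.map (Matrix.toLin' (g : Matrix (Fin c) (Fin c) E)).toAddMonoidHom :=
    fun A => AddSubgroup.ext fun v => Iff.rfl
  show (act g (s.1 k.castSucc).1).toAddSubgroup.relIndex (act g (s.1 k.succ).1).toAddSubgroup =
    (s.1 k.castSucc).1.toAddSubgroup.relIndex (s.1 k.succ).1.toAddSubgroup
  rw [hmap, hmap, AddSubgroup.relIndex_map_map_of_injective _ _ hinj]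

theorem ty_face_zero {q : ℕ} (s : Y Φ c (q + 1)) : ty (face 0 s) = fun k => ty s k.succ := by
  funext k
  rfl

theorem ty_face_succ {q : ℕ} (s : Y Φ c (q + 1)) (i : Fin (q + 1)) :
    ty (face i.succ s) = Fin.contractNth i (· * ·) (ty s) := by
  funext k
  have hle : ∀ {a b : Fin (q + 2)}, a ≤ b → (s.1 a).1.toAddSubgroup ≤ (s.1 b).1.toAddSubgroup :=
    fun {a b} h => s.2.1.monotone h
  show (s.1 (i.succ.succAbove k.castSucc)).1.toAddSubgroup.relIndex
    (s.1 (i.succ.succAbove k.succ)).1.toAddSubgroup = _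
  have hval : ∀ m : Fin (q + 1), ((i.succ.succAbove m : Fin (q + 2)) : ℕ) =
      if (m : ℕ) < i + 1 then (m : ℕ) else m + 1 := by
    intro m
    unfold Fin.succAbove
    simp only [Fin.lt_def, Fin.val_castSucc, Fin.val_succ]
    split_ifs <;> rfl
  by_cases h1 : (k : ℕ) < i
  · rw [Fin.contractNth_apply_of_lt _ _ _ _ h1]
    have e1 : i.succ.succAbove k.castSucc = k.castSucc.castSucc := by
      apply Fin.ext
      rw [hval, Fin.val_castSucc, if_pos (by omega), Fin.val_castSucc, Fin.val_castSucc]
    have e2 : i.succ.succAbove k.succ = k.castSucc.succ := by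
      apply Fin.ext
      rw [hval, Fin.val_succ, if_pos (by omega), Fin.val_succ, Fin.val_castSucc]
    rw [e1, e2]
    rfl
  by_cases h2 : (k : ℕ) = i
  · rw [Fin.contractNth_apply_of_eq _ _ _ _ h2]
    have e1 : i.succ.succAbove k.castSucc = k.castSucc.castSucc := by
      apply Fin.ext
      rw [hval, Fin.val_castSucc, if_pos (by omega), Fin.val_castSucc, Fin.val_castSucc]
    have e2 : i.succ.succAbove k.succ = k.succ.succ := by
      apply Fin.ext
      rw [hval, Fin.val_succ, if_neg (by omega), Fin.val_succ, Fin.val_succ]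
    rw [e1, e2]
    exact (AddSubgroup.relIndex_mul_relIndex _ _ _ (hle (Fin.castSucc_le_succ k.castSucc))
      (hle (Fin.castSucc_le_succ k.succ))).symm
  · rw [Fin.contractNth_apply_of_gt _ _ _ _ (by omega)]
    have e1 : i.succ.succAbove k.castSucc = k.succ.castSucc := by
      apply Fin.ext
      rw [hval, Fin.val_castSucc, if_neg (by omega), Fin.val_castSucc, Fin.val_succ]
    have e2 : i.succ.succAbove k.succ = k.succ.succ := by
      apply Fin.ext
      rw [hval, Fin.val_succ, if_neg (by omega), Fin.val_succ, Fin.val_succ]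
    rw [e1, e2]
    rfl

/-- The index of a lattice `A` in a larger lattice `B`, `B ≤ ν⁻¹ A`: the product of the types of a chain from `A` to `B`. -/
theorem prod_ty {q : ℕ} (s : Y Φ c q) :
    ∏ k, ty s k = (s.1 0).1.toAddSubgroup.relIndex (s.1 (Fin.last q)).1.toAddSubgroup := by
  exact IT1_prod q (fun k => (s.1 k).1.toAddSubgroup) fun a b h => s.2.1.monotone h

end St16I
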