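import Pool.Agent.LibSt16.HVan

/-!
LibSt16/ThmA (helper60): Theorem A (block I): the kernel of the determinant on the normalised cubical chains of
`U(c, ℤ[1/p : p ≡ 1 mod 4][i])` is exact.
-/

set_option autoImplicit false

namespace St16H

theorem thmA (c : ℕ) (hc : 0 < c) : St16.KerExact St16.detH c := by
  obtain ⟨d, rfl⟩ := Nat.exists_eq_succ_of_ne_zero hc.ne'
  exact St16I.bridge d fun Φ hΦ => van Φ hΦ d

end St16H
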