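import Pool.Agent.LibSt16.V0

/-!
LibSt16/V8: the Steinberg representation of the frozen statement.
-/

set_option autoImplicit false

noncomputable section

namespace St16

/-- the coefficient space of the frozen statement -/
abbrev StM (m : ℕ) : Submodule ℚ ((Fin (m + 1) → Submodule ℝ (Fin (m + 2) → ℝ)) →₀ ℚ) :=
  Finsupp.supported ℚ ℚ
      {f : Fin (m + 1) → Submodule ℝ (Fin (m + 2) → ℝ) | StrictMono f ∧ ∀ j, f j ≠ ⊥ ∧ f j ≠ ⊤} ⊓
    LinearMap.ker (Finsupp.linearCombination ℚ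
      (fun f : Fin (m + 1) → Submodule ℝ (Fin (m + 2) → ℝ) =>
        ∑ j : Fin (m + 1), ((-1 : ℚ) ^ (j : ℕ)) • Finsupp.single (f ∘ Fin.succAbove j) (1 : ℚ)))

/-- the action on tuples of subspaces -/
def mF {n k : ℕ} (g : OG n) (f : Fin k → Submodule ℝ (Fin n → ℝ)) : Fin k → Submodule ℝ (Fin n → ℝ) :=
  fun i => Submodule.map (Matrix.toLin' (g : Matrix (Fin n) (Fin n) ℝ)) (f i)

theorem mF_one {n k : ℕ} (f : Fin k → Submodule ℝ (Fin n → ℝ)) : mF (1 : OG n) f = f := by
  funext i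
  show Submodule.map (Matrix.toLin' (1 : Matrix (Fin n) (Fin n) ℝ)) (f i) = f i
  rw [Matrix.toLin'_one, Submodule.map_id]

theorem mF_mul {n k : ℕ} (g h : OG n) (f : Fin k → Submodule ℝ (Fin n → ℝ)) :
    mF (g * h) f = mF g (mF h f) := by
  funext i
  show Submodule.map (Matrix.toLin' ((g : Matrix (Fin n) (Fin n) ℝ) *
    (h : Matrix (Fin n) (Fin n) ℝ))) (f i) = _
  rw [Matrix.toLin'_mul, Submodule.map_comp]
  rfl

theorem toLin_bij {n : ℕ} (g : OG n) :
    Function.Bijective (Matrix.toLin' (g : Matrix (Fin n) (Fin n) ℝ)) := by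
  have h1 : (g : Matrix (Fin n) (Fin n) ℝ) * ((g⁻¹ : OG n) : Matrix (Fin n) (Fin n) ℝ) = 1 := by
    have := congrArg (fun x : OG n => (x : Matrix (Fin n) (Fin n) ℝ)) (mul_inv_cancel g)
    exact this
  have h2 : ((g⁻¹ : OG n) : Matrix (Fin n) (Fin n) ℝ) * (g : Matrix (Fin n) (Fin n) ℝ) = 1 := by
    have := congrArg (fun x : OG n => (x : Matrix (Fin n) (Fin n) ℝ)) (inv_mul_cancel g)
    exact this
  refine Function.bijective_iff_has_inverse.2
    ⟨Matrix.toLin' ((g⁻¹ : OG n) : Matrix (Fin n) (Fin n) ℝ), fun x => ?_, fun x => ?_⟩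
  · rw [← LinearMap.comp_apply, ← Matrix.toLin'_mul, h2, Matrix.toLin'_one]
    rfl
  · rw [← LinearMap.comp_apply, ← Matrix.toLin'_mul, h1, Matrix.toLin'_one]
    rfl

theorem mF_mem {n k : ℕ} (g : OG n) {f : Fin k → Submodule ℝ (Fin n → ℝ)} (hf : StrictMono f)
    (hf' : ∀ j, f j ≠ ⊥ ∧ f j ≠ ⊤) :
    StrictMono (mF g f) ∧ ∀ j, mF g f j ≠ ⊥ ∧ mF g f j ≠ ⊤ := by
  have hb := toLin_bij g
  refine ⟨fun i j hij => Submodule.map_strictMono_of_injective hb.1 (hf hij), fun j => ⟨?_, ?_⟩⟩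
  · intro h
    refine (hf' j).1 ?_
    apply Submodule.map_injective_of_injective hb.1
    rw [Submodule.map_bot]
    exact h
  · intro h
    refine (hf' j).2 ?_
    apply Submodule.map_injective_of_injective hb.1
    rw [Submodule.map_top, LinearMap.range_eq_top.2 hb.2]
    exact h

/-- the action on chains of tuples -/
def mFL {n k : ℕ} (g : OG n) : ((Fin k → Submodule ℝ (Fin n → ℝ)) →₀ ℚ) →ₗ[ℚ]
    ((Fin k → Submodule ℝ (Fin n → ℝ)) →₀ ℚ) := Finsupp.lmapDomain ℚ ℚ (mF g)

theorem mFL_single {n k : ℕ} (g : OG n) (f : Fin k → Submodule ℝ (Fin n → ℝ)) (a : ℚ) :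
    mFL g (Finsupp.single f a) = Finsupp.single (mF g f) a := by
  simp [mFL]

theorem mFL_mem {m : ℕ} (g : OG (m + 2))
    {z : (Fin (m + 1) → Submodule ℝ (Fin (m + 2) → ℝ)) →₀ ℚ} (hz : z ∈ StM m) :
    mFL g z ∈ StM m := by
  obtain ⟨h1, h2⟩ := hz
  constructor
  · exact supported_le (mFL g) _ _ (fun f hf => by
      rw [mFL_single]
      exact Finsupp.single_mem_supported ℚ _ (mF_mem g hf.1 hf.2)) z h1
  · have key : ∀ w : (Fin (m + 1) → Submodule ℝ (Fin (m + 2) → ℝ)) →₀ ℚ,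
        Pool.Agent.LibST67.bd m (mFL g w) = mFL g (Pool.Agent.LibST67.bd m w) := by
      intro w
      induction w using Finsupp.induction_linear with
      | zero => simp
      | add a b ha hb => rw [map_add, map_add, ha, hb, map_add, map_add]
      | single f a =>
        rw [mFL_single]
        unfold Pool.Agent.LibST67.bd
        rw [Finsupp.linearCombination_single, Finsupp.linearCombination_single, map_smul, map_sum]
        congr 1
        refine Finset.sum_congr rfl fun j _ => ?_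
        rw [map_smul, mFL_single]
        rfl
    show Pool.Agent.LibST67.bd m (mFL g z) = 0
    rw [key]
    have : Pool.Agent.LibST67.bd m z = 0 := h2
    rw [this, map_zero]

/-- the Steinberg representation -/
def stR (m : ℕ) : Representation ℚ (OG (m + 2)) (StM m) where
  toFun g := (mFL g).restrict fun _ hz => mFL_mem g hz
  map_one' := by
    ext1 z
    apply Subtype.ext
    show mFL (1 : OG (m + 2)) z.1 = z.1
    unfold mFL
    rw [show (mF (1 : OG (m + 2)) : (Fin (m + 1) → Submodule ℝ (Fin (m + 2) → ℝ)) → _) = id from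
      funext mF_one, Finsupp.lmapDomain_id]
    rfl
  map_mul' g h := by
    ext1 z
    apply Subtype.ext
    show mFL (g * h) z.1 = mFL g (mFL h z.1)
    unfold mFL
    rw [show (mF (g * h) : (Fin (m + 1) → Submodule ℝ (Fin (m + 2) → ℝ)) → _) = mF g ∘ mF h from
      funext (mF_mul g h), Finsupp.lmapDomain_comp]
    rfl

theorem stR_apply {m : ℕ} (g : OG (m + 2)) (z : StM m) :
    ((stR m g z : StM m) : (Fin (m + 1) → Submodule ℝ (Fin (m + 2) → ℝ)) →₀ ℚ) = mFL g z.1 := rfl

end St16
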