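import Pool.Agent.LibSt16.VC6a

/-!
Row VC6b (SHORT/MEDIUM). Equivariance of `fl`.

fl_aV: for a list `l` of cubes of frames: `wV (g • c) = g * wV c * gᵀ`, the dimensions and the length are unchanged, partial
sums become `g * P * gᵀ`, and `range (toLin' (g * P * gᵀ)) = map (toLin' g) (range (toLin' P))` since `toLin' gᵀ` is
surjective (`gᵀ * g = 1`): `toLin'_mul`, `LinearMap.range_comp`, `LinearMap.range_eq_top`.
-/

set_option autoImplicit false

noncomputable section

namespace St16

open Matrix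

private theorem VC6b_range {n : ℕ} (g : OG n) (P : Matrix (Fin n) (Fin n) ℝ) :
    LinearMap.range (Matrix.toLin' ((g : Matrix (Fin n) (Fin n) ℝ) * P *
        (g : Matrix (Fin n) (Fin n) ℝ)ᵀ)) =
      Submodule.map (Matrix.toLin' (g : Matrix (Fin n) (Fin n) ℝ))
        (LinearMap.range (Matrix.toLin' P)) := by
  have h1 : (g : Matrix (Fin n) (Fin n) ℝ)ᵀ * (g : Matrix (Fin n) (Fin n) ℝ) = 1 := by
    exact (Matrix.mem_orthogonalGroup_iff' (Fin n) ℝ).1 g.2
  have h3 : LinearMap.range (Matrix.toLin' (g : Matrix (Fin n) (Fin n) ℝ)ᵀ) = ⊤ := by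
    rw [LinearMap.range_eq_top]
    intro y
    refine ⟨Matrix.toLin' (g : Matrix (Fin n) (Fin n) ℝ) y, ?_⟩
    rw [Matrix.toLin'_apply, Matrix.toLin'_apply, Matrix.mulVec_mulVec, h1, Matrix.one_mulVec]
  rw [Matrix.toLin'_mul, LinearMap.range_comp_of_range_eq_top _ h3, Matrix.toLin'_mul,
    LinearMap.range_comp]

private theorem VC6b_sum {n : ℕ} (g : OG n) (L : List (Matrix (Fin n) (Fin n) ℝ)) :
    (L.map fun P => (g : Matrix (Fin n) (Fin n) ℝ) * P * (g : Matrix (Fin n) (Fin n) ℝ)ᵀ).sum =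
      (g : Matrix (Fin n) (Fin n) ℝ) * L.sum * (g : Matrix (Fin n) (Fin n) ℝ)ᵀ := by
  induction L with
  | nil => simp
  | cons P L ih =>
    rw [List.map_cons, List.sum_cons, List.sum_cons, ih, Matrix.mul_add, Matrix.add_mul]

private theorem VC6b_flag {n k : ℕ} (g : OG n) (L : List (Matrix (Fin n) (Fin n) ℝ)) :
    flag k (L.map fun P => (g : Matrix (Fin n) (Fin n) ℝ) * P * (g : Matrix (Fin n) (Fin n) ℝ)ᵀ) =
      fun j => Submodule.map (Matrix.toLin' (g : Matrix (Fin n) (Fin n) ℝ)) (flag k L j) := by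
  funext j
  unfold flag
  rw [← List.map_take, VC6b_sum, VC6b_range]

private theorem VC6b_weights {n : ℕ} (g : OG n) (l : List (Cb (sysV n))) :
    ((g • l).map (gmH n).cb).map wF = (((l.map (gmH n).cb).map wF).map fun P =>
      (g : Matrix (Fin n) (Fin n) ℝ) * P * (g : Matrix (Fin n) (Fin n) ℝ)ᵀ) := by
  rw [smulVL, List.map_map, List.map_map, List.map_map, List.map_map]
  refine List.map_congr_left fun c _ => ?_
  show gm (g • c.l z0) = (g : Matrix (Fin n) (Fin n) ℝ) * gm (c.l z0) *
    (g : Matrix (Fin n) (Fin n) ℝ)ᵀ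
  exact gm_smul g (c.l z0)

private theorem VC6b_fl1 {n k : ℕ} (g : OG n) (l : List (Cb (sysV n))) :
    fl1 k ((g • l).map (gmH n).cb) =
      Finsupp.mapDomain (fun (f : Fin k → Submodule ℝ (Fin n → ℝ)) (j : Fin k) =>
        Submodule.map (Matrix.toLin' (g : Matrix (Fin n) (Fin n) ℝ)) (f j))
        (fl1 k (l.map (gmH n).cb)) := by
  have hiff : ((∀ c ∈ (g • l).map (gmH n).cb, c.q = 0) ∧
      ((g • l).map (gmH n).cb).length = k + 1) ↔
      ((∀ c ∈ l.map (gmH n).cb, c.q = 0) ∧ (l.map (gmH n).cb).length = k + 1) := by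
    rw [smulVL, List.map_map, List.length_map, List.length_map]
    refine and_congr_left fun _ => ?_
    rw [List.forall_mem_map, List.forall_mem_map]
    rfl
  unfold fl1
  by_cases h : (∀ c ∈ l.map (gmH n).cb, c.q = 0) ∧ (l.map (gmH n).cb).length = k + 1
  · rw [if_pos h, if_pos (hiff.2 h), Finsupp.mapDomain_single, VC6b_weights, VC6b_flag]
  · rw [if_neg h, if_neg (fun h' => h (hiff.1 h')), Finsupp.mapDomain_zero]

theorem fl_aV {n k : ℕ} (g : OG n) (z : BT (sysV n)) :
    fl k ((gmH n).bt (aV g z)) =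
      Finsupp.mapDomain (fun (f : Fin k → Submodule ℝ (Fin n → ℝ)) (j : Fin k) =>
        Submodule.map (Matrix.toLin' (g : Matrix (Fin n) (Fin n) ℝ)) (f j))
        (fl k ((gmH n).bt z)) := by
  induction z using Finsupp.induction_linear with
  | zero => simp
  | add f h hf hh => rw [map_add, map_add, map_add, hf, hh, map_add, map_add, Finsupp.mapDomain_add]
  | single l r =>
    have h1 : (gmH n).bt (aV g (Finsupp.single l r)) =
        Finsupp.single ((g • l).map (gmH n).cb) r := by
      unfold aV SHom.bt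
      rw [Finsupp.lmapDomain_apply, Finsupp.lmapDomain_apply, Finsupp.mapDomain_single,
        Finsupp.mapDomain_single]
    have h2 : (gmH n).bt (Finsupp.single l r) = Finsupp.single (l.map (gmH n).cb) r := by
      unfold SHom.bt
      rw [Finsupp.lmapDomain_apply, Finsupp.mapDomain_single]
    rw [h1, h2]
    unfold fl
    rw [Finsupp.linearCombination_single, Finsupp.linearCombination_single, VC6b_fl1,
      Finsupp.mapDomain_smul]

end St16
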