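import Pool.Agent.LibSt16.VB1

/-!
Row VC6a (SHORT/MEDIUM). Equivariance.

`aV g` commutes with `BD`, preserves `GdV n k` and `DegB`: `(g • c).face b k = g • c.face b k` (`Cb.ext`; the group part has
values in `PUnit`; trivial action by `rfl`), `(g • c) * (g • c') = g • (c * c')` (`List.map_append`), so `BD1 (g • l)` is the
image of `BD1 l`: induction on the list as in the definition of `BD1` (`Finsupp.mapDomain_comp`, `Finsupp.mapDomain_sub`,
`mapDomain_smul`, `map_sum`).  Ranks and dimensions do not change; the total weight becomes `g * M * gᵀ` (`gm_smul`, sums: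
induction on the list), for `M = 1` it is `g * gᵀ = 1` (`Matrix.mem_orthogonalGroup_iff`).  `Dg`: `l s = l s'` gives
`g • l s = g • l s'`.
-/

set_option autoImplicit false

noncomputable section

namespace St16

open Matrix

/-- the action of an element of `O(n)` as a morphism of systems -/
private def VC6a_H {n : ℕ} (g : OG n) : SHom (sysV n) (sysV n) 1 where
  fG := fun x => x
  fP := fun _ a => g • a
  d_pos := Nat.one_pos
  G_mem := fun _ _ _ => trivial
  G_one := rfl
  G_mul := fun _ _ _ _ _ => rfl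
  G_sh := fun _ _ _ _ _ _ => rfl
  P_mem := fun r a (ha : a.v.length = r) => by
    show (g • a).v.length = 1 * r
    rw [smul_Fr_v, List.length_map, ha, one_mul]
  P_mono := fun _ a b _ _ (h : gm a = gm b) => by
    show gm (g • a) = gm (g • b)
    rw [gm_smul, gm_smul, h]
  P_smul := fun _ _ _ _ _ => rfl
  P_jn := fun _ _ a b _ _ => by
    show g • (⟨a.v ++ b.v⟩ : Fr n) = ⟨(g • a).v ++ (g • b).v⟩
    apply Fr.ext
    rw [smul_Fr_v, smul_Fr_v, smul_Fr_v, List.map_append]

private theorem VC6a_cb {n : ℕ} (g : OG n) (c : Cb (sysV n)) : (VC6a_H g).cb c = g • c :=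
  Cb.ext' (one_mul c.r) rfl (fun _ => rfl) fun _ => rfl

private theorem VC6a_bt {n : ℕ} (g : OG n) (z : BT (sysV n)) : (VC6a_H g).bt z = aV g z := by
  have h : (List.map (VC6a_H g).cb : List (Cb (sysV n)) → List (Cb (sysV n))) =
      fun l => g • l := by
    funext l
    rw [smulVL]
    exact List.map_congr_left fun c _ => VC6a_cb g c
  show Finsupp.lmapDomain ℚ ℚ (List.map (VC6a_H g).cb) z = Finsupp.lmapDomain ℚ ℚ (fun l => g • l) z
  rw [h]

private theorem VC6a_orth {n : ℕ} (g : OG n) :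
    (g : Matrix (Fin n) (Fin n) ℝ) * (g : Matrix (Fin n) (Fin n) ℝ)ᵀ = 1 :=
  (Matrix.mem_orthogonalGroup_iff (Fin n) ℝ).1 g.2

private theorem VC6a_sum {n : ℕ} (g : OG n) (l : List (Cb (sysV n))) :
    ((g • l).map wV).sum = (g : Matrix (Fin n) (Fin n) ℝ) * (l.map wV).sum *
      (g : Matrix (Fin n) (Fin n) ℝ)ᵀ := by
  rw [smulVL]
  induction l with
  | nil => simp
  | cons c l ih =>
    rw [List.map_cons, List.map_cons, List.sum_cons, ih, List.map_cons, List.sum_cons,
      Matrix.mul_add, Matrix.add_mul]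
    congr 1
    exact gm_smul g (c.l z0)

theorem aV_BD {n : ℕ} (g : OG n) (z : BT (sysV n)) : BD (aV g z) = aV g (BD z) := by
  rw [← VC6a_bt, ← VC6a_bt, SHom.bt_BD]

theorem aV_GdV {n k : ℕ} (g : OG n) {z : BT (sysV n)} (hz : z ∈ GdV n k) : aV g z ∈ GdV n k := by
  refine ⟨?_, ?_⟩
  · rw [← VC6a_bt]
    exact SHom.bt_BTN_one _ n k z hz.1
  · refine supported_le (aV g) {l : List (Cb (sysV n)) | (l.map wV).sum = 1} _ (fun l hl => ?_) z hz.2
    have h1 : aV g (Finsupp.single l 1) = Finsupp.single (g • l) 1 := by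
      simp [aV, Finsupp.lmapDomain_apply, Finsupp.mapDomain_single]
    rw [h1]
    refine Finsupp.single_mem_supported ℚ _ ?_
    have h2 : (l.map wV).sum = 1 := hl
    show ((g • l).map wV).sum = 1
    rw [VC6a_sum, h2, Matrix.mul_one, VC6a_orth]

theorem aV_DegB {n : ℕ} (g : OG n) {z : BT (sysV n)} (hz : z ∈ DegB (sysV n)) :
    aV g z ∈ DegB (sysV n) := by
  rw [← VC6a_bt]
  exact SHom.bt_DegB _ z hz

theorem Dg_smul {n : ℕ} (g : OG n) (c : Cb (sysV n)) : (g • c).Dg ↔ c.Dg := by
  constructor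
  · rintro ⟨k, hk, h⟩
    refine ⟨k, hk, fun s s' hs => ⟨(h s s' hs).1, ?_⟩⟩
    have h1 : g • c.l s = g • c.l s' := (h s s' hs).2
    exact (smul_left_cancel_iff g).1 h1
  · rintro ⟨k, hk, h⟩
    refine ⟨k, hk, fun s s' hs => ⟨(h s s' hs).1, ?_⟩⟩
    rw [smulV_l, smulV_l, (h s s' hs).2]

end St16
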