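import Pool.Agent.LibSt16.VD1

/-!
Row VD2 (MEDIUM). `lamL (AG g)`: injectivity, degenerate cubes, good lists.

Let `L` have ranks with sum `n`.  `AG g (ee j)` = the `j`-th column of `g` for `j < n`; `AG g ∘ h = AG (g * mat n h)` on the first
`n` coordinates for `h ∈ On n`, where `mat n h ∈ O(n)` (`mat` of SyA.lean; orthogonality from `dot`-invariance): so
`AG_On`: for `h ∈ On n` there is `g' : OG n` with `AG g (h (ee j)) = AG g' (ee j)` for all `j < n`; then
`lamL (AG g ∘ h) L = lamL (AG g') L` (`lamL_congr`: lamL depends only on `A (ee j)`, `j < sum of the ranks`).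
lamL_inj: the first vertex (`z0`) of the entries of `lamL (AG g) L` gives the columns of `g` in order, so `g = g'`; then
`A (y(s) e_j) = A (y'(s) e_j)` for the blocks, and `AG g` is injective on the vectors supported below `n` (and
`AG g ∘ shV k` on vectors supported below `n - k`), so `y(s) e_j = y'(s) e_j` for `j < r` (`On_low`), and `= e_j` for `j ≥ r`; `au_ext`.
Do it by induction on `L` for a linear map `A` which is injective on the vectors supported below `sum of ranks`.
lamL_Dg: `lamC A c` is degenerate iff `c` is (same injectivity; `l` part: `c.l` has values in `PUnit`).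
lamL_good: total weight: `lamL_w` and `Σ_j (g e_j)(g e_j)ᵀ = g gᵀ = 1`.
-/

set_option autoImplicit false

noncomputable section

namespace St16

open Matrix

private theorem VD2_AG_ee {n : ℕ} (g : OG n) (j : ℕ) (hj : j < n) (i : Fin n) :
    AG g (ee j) i = (g : Matrix (Fin n) (Fin n) ℝ) i ⟨j, hj⟩ := by
  have h1 : (tr n (ee j) : Fin n → ℝ) = Pi.single ⟨j, hj⟩ 1 := by
    funext k
    show (ee j : Vc ℝ) k = _
    unfold ee
    by_cases hk : k = ⟨j, hj⟩
    · rw [hk, Pi.single_eq_same, Finsupp.single_eq_same]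
    · rw [Pi.single_eq_of_ne hk, Finsupp.single_apply, if_neg]
      intro h
      exact hk (Fin.ext h.symm)
  show Matrix.toLin' (g : Matrix (Fin n) (Fin n) ℝ) (tr n (ee j)) i = _
  rw [h1, Matrix.toLin'_apply, Matrix.mulVec_single_one]
  rfl

/-- the linear map `A` is injective on the vectors supported below `m` -/
private def VD2_Inj {n : ℕ} (A : Vc ℝ →ₗ[ℝ] (Fin n → ℝ)) (m : ℕ) : Prop :=
  ∀ x : Vc ℝ, (∀ i, m ≤ i → x i = 0) → A x = 0 → x = 0

private theorem VD2_inj_AG {n : ℕ} (g : OG n) : VD2_Inj (AG g) n := by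
  intro x hx h
  have h1 : (g : Matrix (Fin n) (Fin n) ℝ) *ᵥ (tr n x) = 0 := by
    have := h
    unfold AG at this
    rw [LinearMap.comp_apply, Matrix.toLin'_apply] at this
    exact this
  have h2 : tr n x = 0 := by
    have h3 : (((g : Matrix (Fin n) (Fin n) ℝ))ᵀ * (g : Matrix (Fin n) (Fin n) ℝ)) = 1 := by
      have := (Matrix.mem_orthogonalGroup_iff' (Fin n) ℝ).mp g.2
      exact this
    have h4 : (((g : Matrix (Fin n) (Fin n) ℝ))ᵀ * (g : Matrix (Fin n) (Fin n) ℝ)) *ᵥ (tr n x) = 0 := by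
      rw [← Matrix.mulVec_mulVec, h1, Matrix.mulVec_zero]
    rw [h3, Matrix.one_mulVec] at h4
    exact h4
  ext i
  by_cases hi : i < n
  · exact congrFun h2 ⟨i, hi⟩
  · exact hx i (by omega)

private theorem VD2_shV_at (n : ℕ) (x : Vc ℝ) (i : ℕ) : (shV n x) (n + i) = x i :=
  Finsupp.mapDomain_apply (fun _ _ h => Nat.add_left_cancel h) x i

private theorem VD2_shV_zero_at (n : ℕ) (x : Vc ℝ) (m : ℕ) (hx : ∀ i, m ≤ i → x i = 0) (i : ℕ)
    (hi : n + m ≤ i) : (shV n x) i = 0 := by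
  obtain ⟨k, rfl⟩ := Nat.exists_eq_add_of_le (le_trans (Nat.le_add_right n m) hi)
  rw [VD2_shV_at]
  exact hx k (by omega)

private theorem VD2_inj_shV {n : ℕ} (A : Vc ℝ →ₗ[ℝ] (Fin n → ℝ)) (r m : ℕ)
    (h : VD2_Inj A (r + m)) : VD2_Inj (A ∘ₗ shV r) m := by
  intro x hx hA
  have h1 := h (shV r x) (fun i hi => VD2_shV_zero_at r x m hx i hi) hA
  ext i
  have h2 := congrArg (fun y : Vc ℝ => y (r + i)) h1
  simp only [VD2_shV_at] at h2
  exact h2

private theorem VD2_inj_mono {n : ℕ} (A : Vc ℝ →ₗ[ℝ] (Fin n → ℝ)) (r m : ℕ) (hrm : r ≤ m)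
    (h : VD2_Inj A m) : VD2_Inj A r :=
  fun x hx hA => h x (fun i hi => hx i (le_trans hrm hi)) hA

private theorem VD2_ee_low (r j : ℕ) (hj : j < r) (i : ℕ) (hi : r ≤ i) : (ee j : Vc ℝ) i = 0 := by
  unfold ee
  rw [Finsupp.single_apply, if_neg (by omega)]

/-- two linear maps which agree on the first basis vectors agree on low vectors -/
private theorem VD2_agree {n : ℕ} (A A' : Vc ℝ →ₗ[ℝ] (Fin n → ℝ)) (r : ℕ)
    (h : ∀ j, j < r → A (ee j) = A' (ee j)) (x : Vc ℝ) (hx : ∀ i, r ≤ i → x i = 0) :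
    A x = A' x := by
  have hs : x = x.sum fun i a => a • (ee i : Vc ℝ) := by
    conv_lhs => rw [← Finsupp.sum_single x]
    refine Finsupp.sum_congr fun i _ => ?_
    unfold ee
    rw [Finsupp.smul_single, smul_eq_mul, mul_one]
  rw [hs, Finsupp.sum, map_sum, map_sum]
  refine Finset.sum_congr rfl fun i hi => ?_
  rw [map_smul, map_smul]
  have hir : i < r := by
    by_contra hc
    exact (Finsupp.mem_support_iff.mp hi) (hx i (by omega))
  rw [h i hir]

/-- injectivity of one cube -/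
private theorem VD2_y_eq {n : ℕ} (A : Vc ℝ →ₗ[ℝ] (Fin n → ℝ)) (r : ℕ) (hA : VD2_Inj A r)
    (u v : Au ℝ) (hu : u ∈ On ℝ r) (hv : v ∈ On ℝ r)
    (h : ∀ j, j < r → A (u (ee j)) = A (v (ee j))) : u = v := by
  refine au_ext _ _ fun j => ?_
  by_cases hj : j < r
  · have hul := On_low r u hu (ee j) (fun i hi => VD2_ee_low r j hj i hi)
    have hvl := On_low r v hv (ee j) (fun i hi => VD2_ee_low r j hj i hi)
    have h0 : u (ee j) - v (ee j) = 0 := by
      apply hA
      · intro i hi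
        rw [Finsupp.sub_apply, hul i hi, hvl i hi, sub_zero]
      · rw [map_sub, h j hj, sub_self]
    exact sub_eq_zero.mp h0
  · rw [hu.2 j (by omega), hv.2 j (by omega)]

private theorem VD2_ofFn {n : ℕ} (r r' : ℕ) (f : ℕ → (Fin n → ℝ)) (f' : ℕ → (Fin n → ℝ))
    (h : (List.ofFn fun j : Fin r => f j) = (List.ofFn fun j : Fin r' => f' j)) :
    ∀ j, j < r → f j = f' j := by
  intro j hj
  have hl : r = r' := by
    have := congrArg List.length h
    rw [List.length_ofFn, List.length_ofFn] at this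
    exact this
  subst hl
  have h1 := congrFun (List.ofFn_injective h) ⟨j, hj⟩
  exact h1

private theorem VD2_lamC_eq {n : ℕ} (A A' : Vc ℝ →ₗ[ℝ] (Fin n → ℝ)) (c c' : Cb (sysO ℝ))
    (h : lamC A c = lamC A' c') : c.r = c'.r ∧ c.q = c'.q ∧
      ∀ s j, j < c.r → A (c.y s (ee j)) = A' (c'.y s (ee j)) := by
  have hr : (lamC A c).r = (lamC A' c').r := by rw [h]
  have hq : (lamC A c).q = (lamC A' c').q := by rw [h]
  refine ⟨hr, hq, fun s j hj => ?_⟩
  have h1 : (lamC A c).l s = (lamC A' c').l s := by rw [h]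
  have h2 : (List.ofFn fun j : Fin c.r => A (c.y s (ee j))) =
      (List.ofFn fun j : Fin c'.r => A' (c'.y s (ee j))) := congrArg Fr.v h1
  exact VD2_ofFn c.r c'.r (fun j => A (c.y s (ee j))) (fun j => A' (c'.y s (ee j))) h2 j hj

private theorem VD2_inj_list {n : ℕ} (L : List (Cb (sysO ℝ))) :
    ∀ (L' : List (Cb (sysO ℝ))) (A A' : Vc ℝ →ₗ[ℝ] (Fin n → ℝ)), lamL A L = lamL A' L' →
      (∀ j, j < (L.map Cb.r).sum → A (ee j) = A' (ee j)) ∧
        (VD2_Inj A (L.map Cb.r).sum → L = L') := by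
  induction L with
  | nil =>
    intro L' A A' h
    cases L' with
    | nil => exact ⟨fun j hj => absurd hj (by simp), fun _ => rfl⟩
    | cons c' T' => exact absurd h (by simp [lamL])
  | cons c T ih =>
    intro L' A A' h
    cases L' with
    | nil => exact absurd h (by simp [lamL])
    | cons c' T' =>
      have h1 : lamC A c = lamC A' c' := by
        have := congrArg List.head? h
        simp only [lamL, List.head?_cons, Option.some.injEq] at this
        exact this
      have h2 : lamL (A ∘ₗ shV c.r) T = lamL (A' ∘ₗ shV c'.r) T' := by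
        have := congrArg List.tail h
        simp only [lamL, List.tail_cons] at this
        exact this
      obtain ⟨hr, hq, hy⟩ := VD2_lamC_eq A A' c c' h1
      rw [← hr] at h2
      obtain ⟨ih1, ih2⟩ := ih T' (A ∘ₗ shV c.r) (A' ∘ₗ shV c.r) h2
      have hz : ∀ j, j < c.r → A (ee j) = A' (ee j) := by
        intro j hj
        have := hy z0 j hj
        rw [c.y_zero, c'.y_zero] at this
        exact this
      refine ⟨fun j hj => ?_, fun hA => ?_⟩
      · rw [List.map_cons, List.sum_cons] at hj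
        by_cases hjr : j < c.r
        · exact hz j hjr
        · obtain ⟨k, rfl⟩ := Nat.exists_eq_add_of_le (Nat.le_of_not_lt hjr)
          have := ih1 k (by omega)
          rw [LinearMap.comp_apply, LinearMap.comp_apply, shV_ee] at this
          exact this
      · rw [List.map_cons, List.sum_cons] at hA
        have hc : c = c' := by
          refine Cb.ext hr hq ?_ ?_
          · funext s
            refine VD2_y_eq A c.r (VD2_inj_mono A _ _ (Nat.le_add_right _ _) hA) _ _ (c.y_mem s)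
              (hr ▸ c'.y_mem s) ?_
            intro j hj
            rw [hy s j hj]
            refine (VD2_agree A A' c.r hz _ ?_).symm
            exact On_low c.r (c'.y s) (hr ▸ c'.y_mem s) (ee j) (fun i hi => VD2_ee_low c.r j hj i hi)
          · funext s
            rfl
        have hT : T = T' := ih2 (VD2_inj_shV A c.r _ hA)
        rw [hc, hT]

private theorem VD2_Dg_one {n : ℕ} (A : Vc ℝ →ₗ[ℝ] (Fin n → ℝ)) (c : Cb (sysO ℝ))
    (hA : VD2_Inj A c.r) : (lamC A c).Dg ↔ c.Dg := by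
  constructor
  · rintro ⟨k, hk, h⟩
    refine ⟨k, hk, fun s s' hs => ⟨?_, rfl⟩⟩
    have h1 : (lamC A c).l s = (lamC A c).l s' := (h s s' hs).2
    have h2 : (List.ofFn fun j : Fin c.r => A (c.y s (ee j))) =
        (List.ofFn fun j : Fin c.r => A (c.y s' (ee j))) := congrArg Fr.v h1
    exact VD2_y_eq A c.r hA _ _ (c.y_mem s) (c.y_mem s')
      (VD2_ofFn c.r c.r (fun j => A (c.y s (ee j))) (fun j => A (c.y s' (ee j))) h2)
  · rintro ⟨k, hk, h⟩
    refine ⟨k, hk, fun s s' hs => ⟨rfl, ?_⟩⟩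
    show (⟨List.ofFn fun j : Fin c.r => A (c.y s (ee j))⟩ : Fr n) =
      ⟨List.ofFn fun j : Fin c.r => A (c.y s' (ee j))⟩
    rw [(h s s' hs).1]

private theorem VD2_Dg_list {n : ℕ} (L : List (Cb (sysO ℝ))) :
    ∀ (A : Vc ℝ →ₗ[ℝ] (Fin n → ℝ)), VD2_Inj A (L.map Cb.r).sum →
      ((∃ c ∈ lamL A L, c.Dg) ↔ ∃ c ∈ L, c.Dg) := by
  induction L with
  | nil =>
    intro A _
    simp [lamL]
  | cons c T ih =>
    intro A hA
    rw [List.map_cons, List.sum_cons] at hA
    have h1 := VD2_Dg_one A c (VD2_inj_mono A _ _ (Nat.le_add_right _ _) hA)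
    have h2 := ih (A ∘ₗ shV c.r) (VD2_inj_shV A c.r _ hA)
    simp only [lamL, List.exists_mem_cons_iff]
    rw [h1, h2]

theorem lamL_congr {n : ℕ} (A A' : Vc ℝ →ₗ[ℝ] (Fin n → ℝ)) (L : List (Cb (sysO ℝ)))
    (h : ∀ j, j < (L.map Cb.r).sum → A (ee j) = A' (ee j)) : lamL A L = lamL A' L := by
  induction L generalizing A A' with
  | nil => rfl
  | cons c T ih =>
    rw [List.map_cons, List.sum_cons] at h
    show lamC A c :: lamL (A ∘ₗ shV c.r) T = lamC A' c :: lamL (A' ∘ₗ shV c.r) T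
    rw [lamC_congr A A' c (fun j hj => h j (by omega)), ih (A ∘ₗ shV c.r) (A' ∘ₗ shV c.r)]
    intro j hj
    rw [LinearMap.comp_apply, LinearMap.comp_apply, shV_ee]
    exact h (c.r + j) (by omega)

theorem AG_On {n : ℕ} (g : OG n) (h : Au ℝ) (hh : h ∈ On ℝ n) :
    ∃ g' : OG n, ∀ j, j < n → AG g (h (ee j)) = AG (g * g') (ee j) := by
  have hcol : ∀ i j : Fin n, dot (h (ee (i : ℕ))) (h (ee (j : ℕ))) =
      ∑ k : Fin n, (h (ee (i : ℕ))) k * (h (ee (j : ℕ))) k := by
    intro i j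
    have hlow := On_low n h hh (ee (i : ℕ)) (fun k hk => VD2_ee_low n i i.2 k hk)
    unfold dot
    rw [Finsupp.sum_of_support_subset (s := Finset.range n)]
    · rw [Finset.sum_range]
    · intro k hk
      rw [Finset.mem_range]
      by_contra hc
      exact (Finsupp.mem_support_iff.mp hk) (hlow k (by omega))
    · intro k _
      exact zero_mul _
  have hmem : mat n h ∈ Matrix.orthogonalGroup (Fin n) ℝ := by
    rw [Matrix.mem_orthogonalGroup_iff']
    ext i j
    rw [Matrix.mul_apply]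
    refine ((hcol i j).symm.trans ?_ : _ = _)
    rw [hh.1, dot_ee_right]
    unfold ee
    rw [Finsupp.single_apply, Matrix.one_apply]
    by_cases hij : i = j
    · rw [hij, if_pos rfl, if_pos rfl]
    · rw [if_neg hij, if_neg (fun hv => hij (Fin.ext hv))]
  refine ⟨⟨mat n h, hmem⟩, fun j hj => ?_⟩
  funext i
  refine Eq.trans ?_ (VD2_AG_ee (g * (⟨mat n h, hmem⟩ : OG n)) j hj i).symm
  show Matrix.toLin' (g : Matrix (Fin n) (Fin n) ℝ) (tr n (h (ee j))) i =
    ((g : Matrix (Fin n) (Fin n) ℝ) * mat n h) i ⟨j, hj⟩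
  rw [Matrix.toLin'_apply, Matrix.mul_apply]
  rfl

theorem lamL_inj {n : ℕ} (g g' : OG n) (L L' : List (Cb (sysO ℝ))) (h : (L.map Cb.r).sum = n)
    (h' : (L'.map Cb.r).sum = n) (he : lamL (AG g) L = lamL (AG g') L') : g = g' ∧ L = L' := by
  obtain ⟨h1, h2⟩ := VD2_inj_list L L' (AG g) (AG g') he
  rw [h] at h1 h2
  refine ⟨?_, h2 (VD2_inj_AG g)⟩
  apply Subtype.ext
  ext i j
  have h3 := congrFun (h1 j j.2) i
  rw [VD2_AG_ee g j j.2 i, VD2_AG_ee g' j j.2 i] at h3
  exact h3

theorem lamL_Dg {n : ℕ} (g : OG n) (L : List (Cb (sysO ℝ))) (h : (L.map Cb.r).sum = n) :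
    (∃ c ∈ lamL (AG g) L, c.Dg) ↔ ∃ c ∈ L, c.Dg := by
  refine VD2_Dg_list L (AG g) ?_
  rw [h]
  exact VD2_inj_AG g

theorem lamL_good {n : ℕ} (g : OG n) (L : List (Cb (sysO ℝ))) (h : (L.map Cb.r).sum = n) :
    ((lamL (AG g) L).map wV).sum = 1 := by
  rw [lamL_w, h]
  unfold gm
  rw [List.map_ofFn, List.sum_ofFn]
  have h1 := (Matrix.mem_orthogonalGroup_iff (Fin n) ℝ).mp g.2
  rw [← h1]
  ext i k
  rw [Matrix.sum_apply, Matrix.mul_apply]
  refine Finset.sum_congr rfl fun j _ => ?_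
  show AG g (ee j) i * AG g (ee j) k = _
  rw [VD2_AG_ee g j j.2 i, VD2_AG_ee g j j.2 k]
  rfl

end St16
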