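import Pool.Agent.LibSt16.VD3c
import Pool.Agent.LibSt16.VD2
import Pool.Agent.LibSt16.VC6a

/-!
Row VD4 (SHORT/MEDIUM). `piV` and `lamT`.

piV_lam: `pi1 n (lamL (AG g) L) = single L 1` for `L` with ranks of sum `n`: `dif_pos` and `lamL_inj` for the chosen pair.
Every list in the support of an element of `GdV n k` is `lamL (AG g) L` (`good_lift`), with the same ranks and dimensions
(`lamL_r`, `lamL_q`) (`L ≠ []` as `l ≠ []`).  So all statements are checked on `single (lamL (AG g) L) 1`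
(`supported_le` of C.lean, or `Finsupp.induction` on the support).
piV_BD: `lamL_BD` gives `u` with `BD1 (lamL (AG g) L) = mapDomain (fun p => lamL (AG g ∘ p.1) p.2) u`,
`lamL (AG g ∘ p.1) p.2 = lamL (AG (g * g')) p.2` (`AG_On`, `lamL_congr`), so `piV` of it is `mapDomain (fun p => p.2) u = BD1 L`.
piV_aV: `g • lamL (AG g') L = lamL (AG (g * g')) L` (`smul_lamL`; `toLin' g ∘ AG g' = AG (g * g')`).
lamT_BD: the same device with `A = AG 1`: `BD (lamT (single L 1)) - lamT (BD (single L 1)) = Σ_p u p (single (lamL (AG g'_p) p.2) 1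
- single (lamL (AG 1) p.2) 1) = Σ_p u p (aV g'_p w - w)`, `w = single (lamL (AG 1) p.2) 1 ∈ GdV n k` (`lamL_good`; the lists
`p.2` with `p ∈ u.support` have ranks of sum `n`; their degree is `k`?  `BD1 L` may cancel, so choose: use `BD_BTN`-type information by
replacing `u` with its part over `{p | p.2 ≠ [] and sum of dimensions + length = k+1}`: both `mapDomain`s are unchanged, since
`BD1 L ∈ BTN n k` and `BD1 (lamL A L) ∈ BTN n k` and `lamL` preserves dimensions and lengths (filter both sides)).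
-/

set_option autoImplicit false

noncomputable section

namespace St16

open Matrix

/-- the span of the elements `g w - w`, `w ∈ GdV n k` -/
def IGV (n k : ℕ) : Submodule ℚ (BT (sysV n)) :=
  Submodule.span ℚ {x | ∃ g : OG n, ∃ w ∈ GdV n k, x = aV g w - w}

private theorem VD4_len {n : ℕ} (A : Vc ℝ →ₗ[ℝ] (Fin n → ℝ)) (L : List (Cb (sysO ℝ))) :
    (lamL A L).length = L.length := by
  have h := congrArg List.length (lamL_r A L)
  rwa [List.length_map, List.length_map] at h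

private theorem VD4_nil {n : ℕ} (A : Vc ℝ →ₗ[ℝ] (Fin n → ℝ)) (L : List (Cb (sysO ℝ))) :
    lamL A L = [] ↔ L = [] := by
  rw [← List.length_eq_zero_iff, VD4_len, List.length_eq_zero_iff]

/-- the index set of `BTN (sysO ℝ) n k` -/
private def VD4_G (n k : ℕ) : Set (List (Cb (sysO ℝ))) :=
  {L | L ≠ [] ∧ (L.map Cb.r).sum = n ∧ (L.map Cb.q).sum + L.length = k + 1}

private theorem VD4_single_mem {n k : ℕ} (g : OG n) (L : List (Cb (sysO ℝ))) (h : L ∈ VD4_G n k) (a : ℚ) :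
    Finsupp.single (lamL (AG g) L) a ∈ GdV n k := by
  obtain ⟨h1, h2, h3⟩ := h
  refine ⟨Finsupp.single_mem_supported ℚ _ ⟨?_, ?_, ?_⟩, Finsupp.single_mem_supported ℚ _ (lamL_good g L h2)⟩
  · rw [Ne, VD4_nil]; exact h1
  · rw [lamL_r]; exact h2
  · rw [lamL_q, VD4_len]; exact h3

private theorem VD4_le' {n k : ℕ} {M : Type*} [AddCommGroup M] [Module ℚ M] (f : BT (sysV n) →ₗ[ℚ] M)
    (N : Submodule ℚ M) (s : Set (List (Cb (sysV n))))
    (h : ∀ (g : OG n) (L : List (Cb (sysO ℝ))), L ∈ VD4_G n k → lamL (AG g) L ∈ s →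
      f (Finsupp.single (lamL (AG g) L) 1) ∈ N)
    (z : BT (sysV n)) (hz : z ∈ GdV n k) (hs : z ∈ Finsupp.supported ℚ ℚ s) : f z ∈ N := by
  have hz' : z ∈ Finsupp.supported ℚ ℚ
      (({l : List (Cb (sysV n)) | l ≠ [] ∧ (l.map Cb.r).sum = n ∧ (l.map Cb.q).sum + l.length = k + 1} ∩
        {l : List (Cb (sysV n)) | (l.map wV).sum = 1}) ∩ s) := by
    rw [Finsupp.supported_inter, Finsupp.supported_inter]
    exact ⟨hz, hs⟩
  refine supported_le f _ N ?_ z hz'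
  rintro l ⟨⟨⟨h1, h2, h3⟩, h4⟩, h5⟩
  obtain ⟨g, L, hL, rfl⟩ := good_lift l h2 h4
  refine h g L ⟨?_, hL, ?_⟩ h5
  · rw [Ne, VD4_nil] at h1; exact h1
  · rw [lamL_q, VD4_len] at h3; exact h3

private theorem VD4_le {n k : ℕ} {M : Type*} [AddCommGroup M] [Module ℚ M] (f : BT (sysV n) →ₗ[ℚ] M)
    (N : Submodule ℚ M)
    (h : ∀ (g : OG n) (L : List (Cb (sysO ℝ))), L ∈ VD4_G n k → f (Finsupp.single (lamL (AG g) L) 1) ∈ N)
    (z : BT (sysV n)) (hz : z ∈ GdV n k) : f z ∈ N :=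
  VD4_le' f N Set.univ (fun g L hL _ => h g L hL) z hz
    ((Finsupp.mem_supported ℚ z).2 (Set.subset_univ _))

private theorem VD4_eq {n k : ℕ} {M : Type*} [AddCommGroup M] [Module ℚ M] (f f' : BT (sysV n) →ₗ[ℚ] M)
    (h : ∀ (g : OG n) (L : List (Cb (sysO ℝ))), L ∈ VD4_G n k →
      f (Finsupp.single (lamL (AG g) L) 1) = f' (Finsupp.single (lamL (AG g) L) 1))
    (z : BT (sysV n)) (hz : z ∈ GdV n k) : f z = f' z := by
  have h1 := VD4_le (f - f') ⊥ (fun g L hL => by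
    rw [Submodule.mem_bot, LinearMap.sub_apply, h g L hL, sub_self]) z hz
  rw [Submodule.mem_bot, LinearMap.sub_apply, sub_eq_zero] at h1
  exact h1

theorem piV_lam {n : ℕ} (g : OG n) (L : List (Cb (sysO ℝ))) (h : (L.map Cb.r).sum = n) :
    piV n (Finsupp.single (lamL (AG g) L) 1) = Finsupp.single L 1 := by
  have hex : ∃ (g' : OG n) (L' : List (Cb (sysO ℝ))), (L'.map Cb.r).sum = n ∧ lamL (AG g) L = lamL (AG g') L' :=
    ⟨g, L, h, rfl⟩
  unfold piV
  rw [Finsupp.linearCombination_single, one_smul]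
  unfold pi1
  rw [dif_pos hex]
  obtain ⟨h1, h2⟩ := hex.choose_spec.choose_spec
  rw [(lamL_inj g _ L _ h h1 h2).2.symm]

private theorem VD4_lamT_single (n : ℕ) (L : List (Cb (sysO ℝ))) (a : ℚ) :
    lamT n (Finsupp.single L a) = Finsupp.single (lamL (AG (1 : OG n)) L) a := by
  show Finsupp.mapDomain _ _ = _
  rw [Finsupp.mapDomain_single]

private theorem VD4_aV_single {n : ℕ} (g : OG n) (l : List (Cb (sysV n))) (a : ℚ) :
    aV g (Finsupp.single l a) = Finsupp.single (g • l) a := by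
  show Finsupp.mapDomain _ _ = _
  rw [Finsupp.mapDomain_single]

private theorem VD4_smul {n : ℕ} (g g' : OG n) (L : List (Cb (sysO ℝ))) :
    g • lamL (AG g') L = lamL (AG (g * g')) L := by
  rw [smul_lamL]
  congr 1
  unfold AG
  rw [← LinearMap.comp_assoc, ← Matrix.toLin'_mul]
  rfl

private theorem VD4_On {n : ℕ} (g : OG n) (h : Au ℝ) (hh : h ∈ On ℝ n) :
    ∃ g' : OG n, ∀ L : List (Cb (sysO ℝ)), (L.map Cb.r).sum = n →
      lamL (AG g ∘ₗ h.toLinearMap) L = lamL (AG (g * g')) L := by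
  obtain ⟨g', hg'⟩ := AG_On g h hh
  refine ⟨g', fun L hL => lamL_congr _ _ L fun j hj => ?_⟩
  rw [hL] at hj
  exact hg' j hj

theorem piV_mem {n k : ℕ} {z : BT (sysV n)} (hz : z ∈ GdV n k) : piV n z ∈ BTN (sysO ℝ) n k := by
  refine VD4_le (piV n) _ (fun g L hL => ?_) z hz
  rw [piV_lam g L hL.2.1]
  exact Finsupp.single_mem_supported ℚ _ hL

/-- the device -/
private theorem VD4_dev {n : ℕ} (g : OG n) (u : (Au ℝ × List (Cb (sysO ℝ))) →₀ ℚ)
    (hu : ∀ p ∈ u.support, p.1 ∈ On ℝ n ∧ (p.2.map Cb.r).sum = n) :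
    piV n (Finsupp.mapDomain (fun p : Au ℝ × List (Cb (sysO ℝ)) => lamL (AG g ∘ₗ p.1.toLinearMap) p.2) u) =
      Finsupp.mapDomain (fun p => p.2) u := by
  unfold Finsupp.mapDomain Finsupp.sum
  rw [map_sum]
  refine Finset.sum_congr rfl fun p hp => ?_
  obtain ⟨h1, h2⟩ := hu p hp
  obtain ⟨g', hg'⟩ := VD4_On g p.1 h1
  show piV n (Finsupp.single (lamL (AG g ∘ₗ p.1.toLinearMap) p.2) (u p)) = Finsupp.single p.2 (u p)
  rw [hg' p.2 h2]
  have e1 : ∀ (X : Type) (x : X) (a : ℚ), (Finsupp.single x a : X →₀ ℚ) = a • Finsupp.single x 1 := by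
    intro X x a
    rw [Finsupp.smul_single, smul_eq_mul, mul_one]
  rw [e1 _ (lamL (AG (g * g')) p.2), map_smul, piV_lam _ _ h2, ← e1]

theorem piV_BD {n k : ℕ} {z : BT (sysV n)} (hz : z ∈ GdV n k) : piV n (BD z) = BD (piV n z) := by
  refine VD4_eq (piV n ∘ₗ BD) (BD ∘ₗ piV n) (fun g L hL => ?_) z hz
  rw [LinearMap.comp_apply, LinearMap.comp_apply, piV_lam g L hL.2.1, BD_single, BD_single, one_smul, one_smul]
  obtain ⟨u, h1, h2, h3⟩ := lamL_BD L
  rw [hL.2.1] at h1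
  rw [h3 n (AG g), h2]
  exact VD4_dev g u h1

theorem piV_aV {n k : ℕ} (g : OG n) {z : BT (sysV n)} (hz : z ∈ GdV n k) :
    piV n (aV g z) = piV n z := by
  refine VD4_eq (piV n ∘ₗ aV g) (piV n) (fun g' L hL => ?_) z hz
  rw [LinearMap.comp_apply, VD4_aV_single, VD4_smul, piV_lam _ L hL.2.1, piV_lam _ L hL.2.1]

theorem piV_DegB {n k : ℕ} {z : BT (sysV n)} (hz : z ∈ GdV n k) (hd : z ∈ DegB (sysV n)) :
    piV n z ∈ DegB (sysO ℝ) := by
  refine VD4_le' (piV n) _ _ (fun g L hL hs => ?_) z hz hd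
  rw [piV_lam g L hL.2.1]
  exact single_mem_DegB ((lamL_Dg g L hL.2.1).1 hs) 1

theorem lamT_mem {n k : ℕ} {z : BT (sysO ℝ)} (hz : z ∈ BTN (sysO ℝ) n k) : lamT n z ∈ GdV n k := by
  refine supported_le (lamT n) _ _ (fun L hL => ?_) z hz
  rw [VD4_lamT_single]
  exact VD4_single_mem 1 L hL 1

theorem lamT_DegB {n k : ℕ} {z : BT (sysO ℝ)} (hz : z ∈ BTN (sysO ℝ) n k)
    (hd : z ∈ DegB (sysO ℝ)) : lamT n z ∈ DegB (sysV n) := by
  have hz' : z ∈ Finsupp.supported ℚ ℚ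
      ({L : List (Cb (sysO ℝ)) | L ≠ [] ∧ (L.map Cb.r).sum = n ∧ (L.map Cb.q).sum + L.length = k + 1} ∩
        {L : List (Cb (sysO ℝ)) | ∃ c ∈ L, c.Dg}) := by
    rw [Finsupp.supported_inter]
    exact ⟨hz, hd⟩
  refine supported_le (lamT n) _ _ ?_ z hz'
  rintro L ⟨hL, hD⟩
  rw [VD4_lamT_single]
  exact single_mem_DegB ((lamL_Dg 1 L hL.2.1).2 hD) 1

theorem piV_lamT {n k : ℕ} {z : BT (sysO ℝ)} (hz : z ∈ BTN (sysO ℝ) n k) :
    piV n (lamT n z) = z := by
  have h1 := supported_le (piV n ∘ₗ lamT n - LinearMap.id) _ ⊥ (fun L hL => by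
    rw [Submodule.mem_bot, LinearMap.sub_apply, LinearMap.comp_apply, VD4_lamT_single, piV_lam _ L hL.2.1,
      LinearMap.id_apply, sub_self]) z hz
  rw [Submodule.mem_bot, LinearMap.sub_apply, sub_eq_zero] at h1
  exact h1

private theorem VD4_filter {X Y : Type} (f : X → Y) (Q : X → Prop) (QY : Y → Prop) [DecidablePred Q]
    [DecidablePred QY] (h : ∀ x, QY (f x) ↔ Q x) (u : X →₀ ℚ) :
    Finsupp.mapDomain f (u.filter Q) = (Finsupp.mapDomain f u).filter QY := by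
  induction u using Finsupp.induction_linear with
  | zero => rw [Finsupp.filter_zero, Finsupp.mapDomain_zero, Finsupp.filter_zero]
  | add a b ha hb =>
    rw [Finsupp.filter_add, Finsupp.mapDomain_add, ha, hb, Finsupp.mapDomain_add, Finsupp.filter_add]
  | single x c =>
    rw [Finsupp.mapDomain_single]
    by_cases hx : Q x
    · rw [Finsupp.filter_single_of_pos _ hx, Finsupp.filter_single_of_pos _ ((h x).2 hx),
        Finsupp.mapDomain_single]
    · rw [Finsupp.filter_single_of_neg _ hx, Finsupp.filter_single_of_neg _ (fun h' => hx ((h x).1 h')),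
        Finsupp.mapDomain_zero]

private theorem VD4_part {X Y Z : Type} (Q : X → Prop) (QY : Y → Prop) (QZ : Z → Prop) (f : X → Y) (g : X → Z)
    (hf : ∀ x, QY (f x) ↔ Q x) (hg : ∀ x, QZ (g x) ↔ Q x) (u : X →₀ ℚ)
    (h1 : ∀ y, Finsupp.mapDomain f u y ≠ 0 → QY y) (h2 : ∀ z, Finsupp.mapDomain g u z ≠ 0 → QZ z) :
    ∃ v : X →₀ ℚ, (∀ x ∈ v.support, x ∈ u.support ∧ Q x) ∧ Finsupp.mapDomain f v = Finsupp.mapDomain f u ∧
      Finsupp.mapDomain g v = Finsupp.mapDomain g u := by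
  classical
  refine ⟨u.filter Q, fun x hx => ?_, ?_, ?_⟩
  · rw [Finsupp.support_filter, Finset.mem_filter] at hx
    exact hx
  · rw [VD4_filter f Q QY hf u, Finsupp.filter_eq_self_iff]
    exact h1
  · rw [VD4_filter g Q QZ hg u, Finsupp.filter_eq_self_iff]
    exact h2

theorem lamT_BD {n k : ℕ} {z : BT (sysO ℝ)} (hz : z ∈ BTN (sysO ℝ) n (k + 1)) :
    BD (lamT n z) - lamT n (BD z) ∈ IGV n k := by
  refine supported_le (BD ∘ₗ lamT n - lamT n ∘ₗ BD) _ (IGV n k) ?_ z hz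
  rintro L ⟨hL1, hL2, hL3⟩
  rw [LinearMap.sub_apply, LinearMap.comp_apply, LinearMap.comp_apply, VD4_lamT_single, BD_single, BD_single,
    one_smul, one_smul]
  obtain ⟨u, h1, h2, h3⟩ := lamL_BD L
  have h3 := h3 n (AG (1 : OG n))
  rw [hL2] at h1
  -- the part of `u` of the right degree
  obtain ⟨v, hv1, hv2, hv3⟩ := VD4_part
    (fun p : Au ℝ × List (Cb (sysO ℝ)) => p.2 ≠ [] ∧ (p.2.map Cb.q).sum + p.2.length = k + 1)
    (fun x : List (Cb (sysO ℝ)) => x ≠ [] ∧ (x.map Cb.q).sum + x.length = k + 1)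
    (fun x : List (Cb (sysV n)) => x ≠ [] ∧ (x.map Cb.q).sum + x.length = k + 1)
    (fun p => p.2) (fun p => lamL (AG (1 : OG n) ∘ₗ p.1.toLinearMap) p.2) (fun p => Iff.rfl)
    (fun p => by rw [Ne, VD4_nil, lamL_q, VD4_len]) u
    (fun x hx => by
      rw [← h2] at hx
      have h4 := BD1_BTM L n (k + 1) hL2 hL3
      have h5 := (Finsupp.mem_supported ℚ _).1 h4 (Finsupp.mem_support_iff.2 hx)
      exact ⟨h5.1, h5.2.2⟩)
    (fun x hx => by
      rw [← h3] at hx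
      have h4 := BD1_BTM (lamL (AG (1 : OG n)) L) n (k + 1) (by rw [lamL_r]; exact hL2)
        (by rw [lamL_q, VD4_len]; exact hL3)
      have h5 := (Finsupp.mem_supported ℚ _).1 h4 (Finsupp.mem_support_iff.2 hx)
      exact ⟨h5.1, h5.2.2⟩)
  rw [h2, h3, ← hv2, ← hv3]
  unfold Finsupp.mapDomain Finsupp.sum
  rw [map_sum, ← Finset.sum_sub_distrib]
  refine Submodule.sum_mem _ fun p hp => ?_
  obtain ⟨hpu, hpQ⟩ := hv1 p hp
  obtain ⟨h4, h5⟩ := h1 p hpu
  obtain ⟨g', hg'⟩ := VD4_On (1 : OG n) p.1 h4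
  show Finsupp.single (lamL (AG (1 : OG n) ∘ₗ p.1.toLinearMap) p.2) (v p) - lamT n (Finsupp.single p.2 (v p)) ∈ _
  rw [hg' p.2 h5, VD4_lamT_single, one_mul]
  have hw : Finsupp.single (lamL (AG (1 : OG n)) p.2) (v p) ∈ GdV n k :=
    VD4_single_mem 1 p.2 ⟨hpQ.1, h5, hpQ.2⟩ _
  refine Submodule.subset_span ⟨g', _, hw, ?_⟩
  rw [VD4_aV_single, VD4_smul, mul_one]

/-- `O(n)` acts freely on good lists -/
theorem free_good {n : ℕ} (g : OG n) (l : List (Cb (sysV n))) (hr : (l.map Cb.r).sum = n)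
    (hw : (l.map wV).sum = 1) (h : g • l = l) : g = 1 := by
  obtain ⟨g₀, L, hL, rfl⟩ := good_lift l hr hw
  rw [VD4_smul] at h
  have h1 := (lamL_inj _ _ L L hL hL h).1
  exact mul_eq_right.1 h1

end St16
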