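import Pool.Agent.LibSt16.V7
import Pool.Agent.LibSt16.V8
import Pool.Agent.LibSt16.VC6b
import Pool.Agent.LibSt16.VD4

/-!
LibSt16/V9: block V: if `H_1(O(m+2); St) = 0` then every cycle of degree `m + 2` of the bar complex of
`sysO ℝ` in rank `m + 2` is a boundary.
-/

set_option autoImplicit false

noncomputable section

namespace St16

open Pool.Agent.LibST67 (SC act act_single act_mem actR actR_apply IG coinv_boundary)

/-- the hypothesis of S02212 for i = 1 -/
def Van (m : ℕ) : Prop :=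
  ∀ (V : Type) [AddCommGroup V] [Module ℚ V]
        (ρ : Representation ℚ (Matrix.orthogonalGroup (Fin (m + 2)) ℝ) V)
        (e : V ≃ₗ[ℚ] ↥(Finsupp.supported ℚ ℚ
            {f : Fin (m + 1) → Submodule ℝ (Fin (m + 2) → ℝ) |
              StrictMono f ∧ ∀ j, f j ≠ ⊥ ∧ f j ≠ ⊤} ⊓
          LinearMap.ker (Finsupp.linearCombination ℚ
            (fun f : Fin (m + 1) → Submodule ℝ (Fin (m + 2) → ℝ) =>
              ∑ j : Fin (m + 1), ((-1 : ℚ) ^ (j : ℕ)) •
                Finsupp.single (f ∘ Fin.succAbove j) (1 : ℚ))))),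
        (∀ (g : Matrix.orthogonalGroup (Fin (m + 2)) ℝ) (v : V),
          ((e (ρ g v) : (Fin (m + 1) → Submodule ℝ (Fin (m + 2) → ℝ)) →₀ ℚ)) =
            Finsupp.mapDomain
              (fun f i => Submodule.map
                (Matrix.toLin' (g : Matrix (Fin (m + 2)) (Fin (m + 2)) ℝ)) (f i))
              (e v : (Fin (m + 1) → Submodule ℝ (Fin (m + 2) → ℝ)) →₀ ℚ)) →
        Subsingleton (groupHomology (Rep.of ρ) 1)

theorem Van_stR {m : ℕ} (hH : Van m) : Subsingleton (groupHomology (Rep.of (stR m)) 1) :=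
  hH (StM m) (stR m) (LinearEquiv.refl ℚ _) fun _ _ => rfl

section nd

variable {G P : Type} [Group G] [Preorder P] [MulAction G P] {S : Sys G P}

open Classical in
/-- forgetting the lists with a degenerate entry -/
def nd : BT S →ₗ[ℚ] BT S :=
  Finsupp.linearCombination ℚ fun l : List (Cb S) =>
    if ∃ c ∈ l, c.Dg then 0 else Finsupp.single l (1 : ℚ)

open Classical in
theorem nd_single (l : List (Cb S)) (a : ℚ) :
    nd (Finsupp.single l a) = if ∃ c ∈ l, c.Dg then 0 else Finsupp.single l a := by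
  rw [nd, Finsupp.linearCombination_single]
  split_ifs
  · rw [smul_zero]
  · rw [Finsupp.smul_single, smul_eq_mul, mul_one]

theorem nd_DegB (z : BT S) (hz : z ∈ DegB S) : nd z = 0 := by
  classical
  have h := supported_le (nd : BT S →ₗ[ℚ] BT S) {l : List (Cb S) | ∃ c ∈ l, c.Dg} ⊥
    (fun l hl => by
      rw [nd_single, if_pos (show ∃ c ∈ l, c.Dg from hl)]; exact Submodule.zero_mem _) z hz
  exact (Submodule.mem_bot ℚ).1 h

theorem sub_nd_mem (z : BT S) : z - nd z ∈ DegB S := by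
  classical
  have h := supported_le (LinearMap.id - (nd : BT S →ₗ[ℚ] BT S)) (Set.univ) (DegB S)
    (fun l _ => by
      rw [LinearMap.sub_apply, LinearMap.id_apply, nd_single]
      split_ifs with h
      · rw [sub_zero]
        exact Finsupp.single_mem_supported ℚ _ h
      · rw [sub_self]
        exact Submodule.zero_mem _) z (by simp)
  exact h

theorem nd_sub_mem (z : BT S) : nd z - z ∈ DegB S := by
  have := Submodule.neg_mem _ (sub_nd_mem z)
  rwa [neg_sub] at this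

theorem mem_DegB_of_nd {z : BT S} (h : nd z = 0) : z ∈ DegB S := by
  have := sub_nd_mem z
  rwa [h, sub_zero] at this

/-- `nd` maps a supported submodule to the nondegenerate part -/
theorem nd_mem {s : Set (List (Cb S))} {z : BT S} (hz : z ∈ Finsupp.supported ℚ ℚ s) :
    nd z ∈ Finsupp.supported ℚ ℚ {l | l ∈ s ∧ ¬ ∃ c ∈ l, c.Dg} := by
  classical
  refine supported_le nd s _ (fun l hl => ?_) z hz
  rw [nd_single]
  split_ifs with h
  · exact Submodule.zero_mem _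
  · exact Finsupp.single_mem_supported ℚ _ ⟨hl, h⟩

theorem nd_nd (z : BT S) : nd (nd z) = nd z := by
  have := nd_DegB _ (nd_sub_mem z)
  rwa [map_sub, sub_eq_zero] at this

theorem nd_eq_self {s : Set (List (Cb S))} (hs : ∀ l ∈ s, ¬ ∃ c ∈ l, c.Dg) {z : BT S}
    (hz : z ∈ Finsupp.supported ℚ ℚ s) : nd z = z := by
  classical
  have h := supported_le (nd - LinearMap.id : BT S →ₗ[ℚ] BT S) s ⊥
    (fun l hl => by
      rw [LinearMap.sub_apply, LinearMap.id_apply, nd_single, if_neg (hs l hl), sub_self]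
      exact Submodule.zero_mem _) z hz
  have h' := (Submodule.mem_bot ℚ).1 h
  rwa [LinearMap.sub_apply, LinearMap.id_apply, sub_eq_zero] at h'

end nd

/-- good nondegenerate lists of frames of degree `k` -/
def EV (n k : ℕ) : Set (List (Cb (sysV n))) :=
  {l | ((l ≠ [] ∧ (l.map Cb.r).sum = n ∧ (l.map Cb.q).sum + l.length = k + 1) ∧
    (l.map wV).sum = 1) ∧ ¬ ∃ c ∈ l, c.Dg}

theorem GdV_eq (n k : ℕ) : GdV n k = Finsupp.supported ℚ ℚ {l : List (Cb (sysV n)) |
    (l ≠ [] ∧ (l.map Cb.r).sum = n ∧ (l.map Cb.q).sum + l.length = k + 1) ∧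
      (l.map wV).sum = 1} := by
  unfold GdV BTN
  rw [← Finsupp.supported_inter]
  rfl

theorem EV_le {n k : ℕ} {z : BT (sysV n)} (hz : z ∈ Finsupp.supported ℚ ℚ (EV n k)) :
    z ∈ GdV n k := by
  rw [GdV_eq]
  exact Finsupp.supported_mono (fun l hl => hl.1) hz

theorem nd_EV {n k : ℕ} {z : BT (sysV n)} (hz : z ∈ GdV n k) :
    nd z ∈ Finsupp.supported ℚ ℚ (EV n k) := by
  rw [GdV_eq] at hz
  exact nd_mem hz

theorem nd_of_EV {n k : ℕ} {z : BT (sysV n)} (hz : z ∈ Finsupp.supported ℚ ℚ (EV n k)) :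
    nd z = z := nd_eq_self (fun _ hl => hl.2) hz

/-- the differential on nondegenerate chains -/
def DV (n : ℕ) : BT (sysV n) →ₗ[ℚ] BT (sysV n) := nd ∘ₗ BD

theorem DV_apply {n : ℕ} (z : BT (sysV n)) : DV n z = nd (BD z) := rfl

theorem act_aV {n : ℕ} (g : OG n) (z : BT (sysV n)) : act g z = aV g z := rfl

theorem nd_aV {n : ℕ} (g : OG n) (z : BT (sysV n)) : nd (aV g z) = aV g (nd z) := by
  have h1 : nd (aV g (z - nd z)) = 0 := nd_DegB _ (aV_DegB g (sub_nd_mem z))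
  have h2 : nd (aV g (nd z)) = aV g (nd z) := by
    have h3 : nd z ∈ Finsupp.supported ℚ ℚ {l : List (Cb (sysV n)) | l ∈ Set.univ ∧ ¬ ∃ c ∈ l, c.Dg} :=
      nd_mem (s := Set.univ) (by simp)
    refine nd_eq_self (s := {l : List (Cb (sysV n)) | ¬ ∃ c ∈ l, c.Dg}) (fun _ h => h) ?_
    refine supported_le (aV g) {l : List (Cb (sysV n)) | l ∈ Set.univ ∧ ¬ ∃ c ∈ l, c.Dg} _
      (fun l hl => ?_) _ h3
    have : aV g (Finsupp.single l 1) = Finsupp.single (g • l) 1 := act_single g l 1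
    rw [this]
    refine Finsupp.single_mem_supported ℚ _ ?_
    rintro ⟨c, hc, hcd⟩
    rw [smulVL, List.mem_map] at hc
    obtain ⟨c', hc', rfl⟩ := hc
    exact hl.2 ⟨c', hc', (Dg_smul g c').1 hcd⟩
  rw [map_sub, map_sub, h2, sub_eq_zero] at h1
  exact h1

theorem blockV (m : ℕ) (hH : Van m) (z : BT (sysO ℝ)) (hz : z ∈ BTN (sysO ℝ) (m + 2) (m + 2))
    (hD : BD z ∈ DegB (sysO ℝ)) :
    ∃ w ∈ BTN (sysO ℝ) (m + 2) (m + 3), z - BD w ∈ DegB (sysO ℝ) := by
  classical
  set n := m + 2 with hn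
  -- the action
  have hE : ∀ k, ∀ (g : OG n) (l : List (Cb (sysV n))), l ∈ EV n k → g • l ∈ EV n k := by
    intro k g l hl
    have h1 : Finsupp.single l (1 : ℚ) ∈ Finsupp.supported ℚ ℚ (EV n k) :=
      Finsupp.single_mem_supported ℚ _ hl
    have h2 : aV g (Finsupp.single l 1) = Finsupp.single (g • l) 1 := act_single g l 1
    have h3 : nd (aV g (Finsupp.single l 1)) ∈ Finsupp.supported ℚ ℚ (EV n k) :=
      nd_EV (aV_GdV g (EV_le h1))
    rw [nd_aV, nd_of_EV h1, h2, Finsupp.mem_supported] at h3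
    exact h3 (by simp)
  have hfree : ∀ k, ∀ l ∈ EV n k, ∀ g : OG n, g • l = l → g = 1 :=
    fun k l hl g h => free_good g l hl.1.1.2.1 hl.1.2 h
  have hDg : ∀ (g : OG n) (w : BT (sysV n)), DV n (act g w) = act g (DV n w) := by
    intro g w
    rw [act_aV, DV_apply, aV_BD, nd_aV]
    rfl
  have hDE : ∀ k, ∀ w ∈ Finsupp.supported ℚ ℚ (EV n (k + 1)),
      DV n w ∈ Finsupp.supported ℚ ℚ (EV n k) := fun k w hw => nd_EV (BD_GdV (EV_le hw))
  have hD0 : ∀ w ∈ Finsupp.supported ℚ ℚ (EV n 0), DV n w = 0 := by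
    intro w hw
    rw [DV_apply, BD_BTN_zero n w (EV_le hw).1, map_zero]
  have hDD' : ∀ w : BT (sysV n), DV n (DV n w) = 0 := by
    intro w
    rw [DV_apply, DV_apply]
    have h1 : BD (nd (BD w) - BD w) ∈ DegB (sysV n) := BD_DegB _ (nd_sub_mem _)
    rw [map_sub, BD_BD, sub_zero] at h1
    exact nd_DegB _ h1
  have hDD : ∀ k, ∀ w ∈ Finsupp.supported ℚ ℚ (EV n k), DV n (DV n w) = 0 := fun _ w _ => hDD' w
  have hcyc : ∀ {w : BT (sysV n)}, DV n w = 0 → BD w ∈ DegB (sysV n) :=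
    fun {w} h => mem_DegB_of_nd h
  -- exactness
  have hexact : ∀ k, k ≠ m + 1 → ∀ w ∈ Finsupp.supported ℚ ℚ (EV n k), DV n w = 0 →
      ∃ v ∈ Finsupp.supported ℚ ℚ (EV n (k + 1)), DV n v = w := by
    intro k hk w hw hDw
    obtain ⟨v, hv, hd⟩ := exV hk (EV_le hw) (hcyc hDw)
    refine ⟨nd v, nd_EV hv, ?_⟩
    have h1 : BD (nd v - v) ∈ DegB (sysV n) := BD_DegB _ (nd_sub_mem v)
    have h2 := nd_DegB _ (Submodule.sub_mem _ h1 hd)
    rw [map_sub, map_sub, map_sub, map_sub, nd_of_EV hw] at h2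
    rw [DV_apply]
    have h3 : nd (BD (nd v)) - w = 0 := by
      rw [← h2]; abel
    exact sub_eq_zero.1 h3
  -- the map to the Steinberg module
  obtain ⟨rt, hrt⟩ := (StM m).subtype.exists_leftInverse_of_injective
    (LinearMap.ker_eq_bot.2 (StM m).injective_subtype)
  have hrt' : ∀ x : StM m, rt (x : (Fin (m + 1) → Submodule ℝ (Fin (m + 2) → ℝ)) →₀ ℚ) = x :=
    fun x => LinearMap.congr_fun hrt x
  let fb : BT (sysV n) →ₗ[ℚ] ((Fin (m + 1) → Submodule ℝ (Fin (m + 2) → ℝ)) →₀ ℚ) :=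
    fl (m + 1) ∘ₗ (gmH n).bt
  let p : BT (sysV n) →ₗ[ℚ] StM m := rt ∘ₗ fb
  have hfb : ∀ w ∈ Finsupp.supported ℚ ℚ (EV n (m + 1)), DV n w = 0 → fb w ∈ StM m := by
    intro w hw hDw
    have h1 : fb w ∈ SC (PS n) (m + 1) := fl_mem (bt_GdV (EV_le hw))
    refine ⟨h1, ?_⟩
    show Pool.Agent.LibST67.bd m (fb w) = 0
    show Pool.Agent.LibST67.bd m (fl (m + 1) ((gmH n).bt w)) = 0
    rw [← fl_BD, ← bt_gm_BD]
    exact fl_DegB _ (SHom.bt_DegB _ _ (hcyc hDw))
  have hpv : ∀ w ∈ Finsupp.supported ℚ ℚ (EV n (m + 1)), DV n w = 0 →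
      ((p w : StM m) : (Fin (m + 1) → Submodule ℝ (Fin (m + 2) → ℝ)) →₀ ℚ) = fb w := by
    intro w hw hDw
    have := hrt' ⟨fb w, hfb w hw hDw⟩
    show ((rt (fb w) : StM m) : _) = fb w
    rw [this]
  have hpe : ∀ g : OG n, ∀ w ∈ Finsupp.supported ℚ ℚ (EV n (m + 1)), DV n w = 0 →
      p (act g w) = stR m g (p w) := by
    intro g w hw hDw
    apply Subtype.ext
    rw [stR_apply, hpv w hw hDw, hpv (act g w) (act_mem (hE (m + 1)) g hw) (by
      rw [hDg, hDw, map_zero])]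
    exact fl_aV g w
  have hps : ∀ v : StM m, ∃ w ∈ Finsupp.supported ℚ ℚ (EV n (m + 1)), DV n w = 0 ∧ p w = v := by
    intro v
    obtain ⟨w, hw, hDw, hfw⟩ := ontoV (m := m) (u := v.1) v.2.1 v.2.2
    have h1 : BD (nd w - w) ∈ DegB (sysV n) := BD_DegB _ (nd_sub_mem w)
    have h2 : DV n (nd w) = 0 := by
      have h3 := nd_DegB _ (Submodule.add_mem _ h1 hDw)
      rw [map_sub, sub_add_cancel] at h3
      exact h3
    refine ⟨nd w, nd_EV hw, h2, Subtype.ext ?_⟩
    rw [hpv _ (nd_EV hw) h2]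
    show fl (m + 1) ((gmH n).bt (nd w)) = v.1
    have h4 : fl (m + 1) ((gmH n).bt (nd w - w)) = 0 :=
      fl_DegB _ (SHom.bt_DegB _ _ (nd_sub_mem w))
    rw [map_sub, map_sub, sub_eq_zero] at h4
    rw [h4, hfw]
  have hpk : ∀ w ∈ Finsupp.supported ℚ ℚ (EV n (m + 1)), DV n w = 0 → p w = 0 →
      ∃ v ∈ Finsupp.supported ℚ ℚ (EV n (m + 1 + 1)), DV n v = w := by
    intro w hw hDw hp
    have h0 : fb w = 0 := by
      rw [← hpv w hw hDw, hp]
      rfl
    obtain ⟨v, hv, hd⟩ := exV_top (EV_le hw) (hcyc hDw) h0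
    refine ⟨nd v, nd_EV hv, ?_⟩
    have h1 : BD (nd v - v) ∈ DegB (sysV n) := BD_DegB _ (nd_sub_mem v)
    have h2 := nd_DegB _ (Submodule.sub_mem _ h1 hd)
    rw [map_sub, map_sub, map_sub, map_sub, nd_of_EV hw] at h2
    rw [DV_apply]
    have h3 : nd (BD (nd v)) - w = 0 := by
      rw [← h2]; abel
    exact sub_eq_zero.1 h3
  have hpk' : ∀ w ∈ Finsupp.supported ℚ ℚ (EV n (m + 1 + 1)), p (DV n w) = 0 := by
    intro w hw
    apply Subtype.ext
    rw [hpv _ (hDE _ w hw) (hDD' w)]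
    show fl (m + 1) ((gmH n).bt (nd (BD w))) = 0
    have h4 : fl (m + 1) ((gmH n).bt (nd (BD w) - BD w)) = 0 :=
      fl_DegB _ (SHom.bt_DegB _ _ (nd_sub_mem (BD w)))
    rw [map_sub, map_sub, sub_eq_zero] at h4
    rw [h4, bt_gm_BD, fl_BD]
    have h5 : fl (m + 1 + 1) ((gmH n).bt w) = 0 := by
      have h6 : (gmH n).bt w ∈ DegB (sysF n) := GdF_high (by omega) (bt_GdV (EV_le hw))
      exact fl_DegB _ h6
    rw [h5, map_zero]
  -- the cycle
  have hc0 : lamT n z ∈ GdV n (m + 1 + 1) := lamT_mem hz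
  set c : BT (sysV n) := nd (lamT n z) with hc
  have hcE : c ∈ Finsupp.supported ℚ ℚ (EV n (m + 1 + 1)) := nd_EV hc0
  have hIG : ∀ k, ∀ x ∈ IGV n k, nd x ∈ IG (actR (OG n) (List (Cb (sysV n))))
      (Finsupp.supported ℚ ℚ (EV n k)) := by
    intro k x hx
    induction hx using Submodule.span_induction with
    | mem x hx =>
      obtain ⟨g, w, hw, rfl⟩ := hx
      refine Submodule.subset_span ⟨g, nd w, nd_EV hw, ?_⟩
      rw [map_sub, nd_aV]
      rfl
    | zero => rw [map_zero]; exact Submodule.zero_mem _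
    | add x y _ _ hx hy => rw [map_add]; exact Submodule.add_mem _ hx hy
    | smul a x _ hx => rw [map_smul]; exact Submodule.smul_mem _ _ hx
  have hDc : DV n c ∈ IG (actR (OG n) (List (Cb (sysV n))))
      (Finsupp.supported ℚ ℚ (EV n (m + 1))) := by
    have h1 : BD (nd (lamT n z) - lamT n z) ∈ DegB (sysV n) := BD_DegB _ (nd_sub_mem _)
    have h2 : lamT n (BD z) ∈ DegB (sysV n) :=
      lamT_DegB (k := m + 1) (BD_BTN _ _ _ hz) hD
    have h3 := hIG (m + 1) _ (lamT_BD hz)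
    have h4 : DV n c = nd (BD (lamT n z) - lamT n (BD z)) := by
      have h5 := nd_DegB _ (Submodule.add_mem _ h1 h2)
      have h6 : nd (BD c) - nd (BD (lamT n z) - lamT n (BD z)) =
          nd (BD (nd (lamT n z) - lamT n z) + lamT n (BD z)) := by
        simp only [map_sub, map_add, hc]
        abel
      rw [h5, sub_eq_zero] at h6
      exact h6
    rw [h4]
    exact h3
  obtain ⟨b, hb, hcb⟩ := coinv_boundary (EV n) hE hfree (DV n) hDg hDE hD0 hDD (m + 1)
    (fun k hk => hexact k (by omega)) (hexact (m + 1 + 1) (by omega)) (stR m) (Van_stR hH) p hpe hps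
    hpk hpk' c hcE hDc
  -- back to `sysO`
  have hkill : ∀ x ∈ IG (actR (OG n) (List (Cb (sysV n))))
      (Finsupp.supported ℚ ℚ (EV n (m + 1 + 1))), piV n x = 0 := by
    intro x hx
    induction hx using Submodule.span_induction with
    | mem x hx =>
      obtain ⟨g, w, hw, rfl⟩ := hx
      rw [map_sub, actR_apply, act_aV, piV_aV g (EV_le hw), sub_self]
    | zero => exact map_zero _
    | add x y _ _ hx hy => rw [map_add, hx, hy, add_zero]
    | smul a x _ hx => rw [map_smul, hx, smul_zero]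
  have hbG : b ∈ GdV n (m + 1 + 2) := EV_le hb
  refine ⟨piV n b, piV_mem hbG, ?_⟩
  have h1 := hkill _ hcb
  have h2 : nd (lamT n z) - lamT n z ∈ DegB (sysV n) := nd_sub_mem _
  have h2' : nd (lamT n z) - lamT n z ∈ GdV n (m + 1 + 1) :=
    Submodule.sub_mem _ (EV_le hcE) hc0
  have h3 : nd (BD b) - BD b ∈ DegB (sysV n) := nd_sub_mem _
  have hBb : BD b ∈ GdV n (m + 1 + 1) := BD_GdV hbG
  have h3' : nd (BD b) - BD b ∈ GdV n (m + 1 + 1) :=
    Submodule.sub_mem _ (EV_le (nd_EV hBb)) hBb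
  have h4 := piV_DegB h2' h2
  have h5 := piV_DegB h3' h3
  rw [map_sub, piV_lamT hz] at h4
  rw [map_sub, piV_BD hbG] at h5
  rw [map_sub, sub_eq_zero] at h1
  have h6 : z - BD (piV n b) = (piV n (nd (BD b)) - BD (piV n b)) - (piV n (nd (lamT n z)) - z) := by
    have h7 : piV n (nd (lamT n z)) = piV n (nd (BD b)) := h1
    rw [h7]
    abel
  rw [h6]
  exact Submodule.sub_mem _ h5 h4

end St16
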