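import Pool.Agent.LibSt16.Glue
import Pool.Agent.LibSt31.E5
import Pool.Agent.LibSt16.ThmA
import Pool.Agent.LibSt16.V9

/-!
LibSt16/Ifc: the interface theorems of the proof of S02212 (MP_8b67e9_al), as cited by Main.lean:
Glue (layers C, Th, L1, L3, specialisation, class z), E5 (evalF), ThmA, V9 (blockV).
-/

set_option autoImplicit false

noncomputable section

namespace St16

/-- Theorem A (block I) -/
theorem thmA (c : ℕ) (hc : 0 < c) : KerExact detH c := St16H.thmA c hc

end St16
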