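import Pool.Agent.LibSt16.Defs

/-!
LibSt16/L3a: un-normalised cubes of `Gn r x Pn r` (no quotient by the group), their boundary.
-/

set_option autoImplicit false

noncomputable section

namespace St16

variable {G P : Type} [Group G] [Preorder P] [MulAction G P]

/-! ### insertion of bits -/

theorem ins_same (k : ℕ) (b : Bool) (s : ℕ → Bool) : ins k b s k = b := by
  simp [ins]

theorem ins_lt (k : ℕ) (b : Bool) (s : ℕ → Bool) (i : ℕ) (h : i < k) : ins k b s i = s i := by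
  simp [ins, h]

theorem ins_gt (k : ℕ) (b : Bool) (s : ℕ → Bool) (i : ℕ) (h : k < i) : ins k b s i = s (i - 1) := by
  have h1 : ¬ i < k := by omega
  have h2 : i ≠ k := by omega
  simp [ins, h1, h2]

theorem ins_ins (j k : ℕ) (a b : Bool) (s : ℕ → Bool) (h : j ≤ k) :
    ins (k + 1) b (ins j a s) = ins j a (ins k b s) := by
  funext i
  rcases lt_trichotomy i j with h1 | h1 | h1
  · rw [ins_lt _ _ _ _ (by omega), ins_lt _ _ _ _ h1, ins_lt _ _ _ _ h1, ins_lt _ _ _ _ (by omega)]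
  · subst h1
    rw [ins_lt _ _ _ _ (by omega), ins_same, ins_same]
  · rw [ins_gt j a (ins k b s) i h1]
    rcases lt_trichotomy i (k + 1) with h2 | h2 | h2
    · rw [ins_lt _ _ _ _ h2, ins_gt j a s i h1, ins_lt _ _ _ _ (by omega)]
    · subst h2
      rw [ins_same, Nat.add_sub_cancel, ins_same]
    · rw [ins_gt _ _ _ _ h2, ins_gt _ _ _ _ (by omega), ins_gt _ _ _ _ (by omega)]

theorem ins_mono (k : ℕ) (b : Bool) (s s' : ℕ → Bool) (h : s ≤ s') : ins k b s ≤ ins k b s' := by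
  intro i
  rcases lt_trichotomy i k with h1 | h1 | h1
  · rw [ins_lt _ _ _ _ h1, ins_lt _ _ _ _ h1]; exact h i
  · subst h1; rw [ins_same, ins_same]
  · rw [ins_gt _ _ _ _ h1, ins_gt _ _ _ _ h1]; exact h _

theorem ins_congr (k q : ℕ) (b : Bool) (s s' : ℕ → Bool) (h : ∀ i, i < q - 1 → s i = s' i)
    (hk : k < q) : ∀ i, i < q → ins k b s i = ins k b s' i := by
  intro i hi
  rcases lt_trichotomy i k with h1 | h1 | h1
  · rw [ins_lt _ _ _ _ h1, ins_lt _ _ _ _ h1]; exact h i (by omega)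
  · subst h1; rw [ins_same, ins_same]
  · rw [ins_gt _ _ _ _ h1, ins_gt _ _ _ _ h1]; exact h _ (by omega)

/-- the tail of a bit sequence -/
def tl (s : ℕ → Bool) : ℕ → Bool := fun i => s (i + 1)

theorem tl_ins_succ (k : ℕ) (b : Bool) (s : ℕ → Bool) : tl (ins (k + 1) b s) = ins k b (tl s) := by
  funext i
  show ins (k + 1) b s (i + 1) = ins k b (tl s) i
  rcases lt_trichotomy i k with h1 | h1 | h1
  · rw [ins_lt _ _ _ _ h1, ins_lt _ _ _ _ (by omega)]; rfl
  · subst h1; rw [ins_same, ins_same]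
  · rw [ins_gt _ _ _ _ h1, ins_gt _ _ _ _ (by omega)]
    show s _ = s _
    congr 1; omega

theorem tl_ins_zero (b : Bool) (s : ℕ → Bool) : tl (ins 0 b s) = s := by
  funext i
  show ins 0 b s (i + 1) = s i
  rw [ins_gt _ _ _ _ (by omega)]; rfl

/-! ### un-normalised cubes -/

/-- Cubes of `Gn r x Pn r`. -/
@[ext] structure Hc (S : Sys G P) (r : ℕ) where
  q : ℕ
  y : (ℕ → Bool) → G
  l : (ℕ → Bool) → P
  y_dep : ∀ s s' : ℕ → Bool, (∀ i, i < q → s i = s' i) → y s = y s'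
  l_dep : ∀ s s' : ℕ → Bool, (∀ i, i < q → s i = s' i) → l s = l s'
  y_mem : ∀ s, y s ∈ S.Gn r
  l_mem : ∀ s, l s ∈ S.Pn r
  l_mono : ∀ s s' : ℕ → Bool, s ≤ s' → l s ≤ l s'

namespace Hc

variable {S : Sys G P} {r : ℕ}

/-- a face; junk for `k >= q` -/
def face (x : Hc S r) (b : Bool) (k : ℕ) : Hc S r :=
  if h : k < x.q then
    { q := x.q - 1
      y := fun s => x.y (ins k b s)
      l := fun s => x.l (ins k b s)
      y_dep := fun s s' hs => x.y_dep _ _ (ins_congr k x.q b s s' hs h)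
      l_dep := fun s s' hs => x.l_dep _ _ (ins_congr k x.q b s s' hs h)
      y_mem := fun _ => x.y_mem _
      l_mem := fun _ => x.l_mem _
      l_mono := fun s s' hs => x.l_mono _ _ (ins_mono k b s s' hs) }
  else x

theorem face_q (x : Hc S r) (b : Bool) (k : ℕ) (h : k < x.q) : (x.face b k).q = x.q - 1 := by
  rw [face, dif_pos h]

theorem face_y (x : Hc S r) (b : Bool) (k : ℕ) (h : k < x.q) (s : ℕ → Bool) :
    (x.face b k).y s = x.y (ins k b s) := by
  rw [face, dif_pos h]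

theorem face_l (x : Hc S r) (b : Bool) (k : ℕ) (h : k < x.q) (s : ℕ → Bool) :
    (x.face b k).l s = x.l (ins k b s) := by
  rw [face, dif_pos h]

theorem ext' (x x' : Hc S r) (hq : x.q = x'.q) (hy : ∀ s, x.y s = x'.y s) (hl : ∀ s, x.l s = x'.l s) :
    x = x' := Hc.ext hq (funext hy) (funext hl)

theorem face_face (x : Hc S r) (a b : Bool) (j k : ℕ) (h : j ≤ k) (hk : k + 1 < x.q) :
    (x.face b (k + 1)).face a j = (x.face a j).face b k := by
  have h1 : (x.face b (k + 1)).q = x.q - 1 := face_q _ _ _ hk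
  have h2 : (x.face a j).q = x.q - 1 := face_q _ _ _ (by omega)
  have h3 : j < (x.face b (k + 1)).q := by omega
  have h4 : k < (x.face a j).q := by omega
  have h5 : j < x.q := by omega
  apply ext'
  · rw [face_q _ _ _ h3, face_q _ _ _ h4, h1, h2]
  · intro s
    rw [face_y _ _ _ h3, face_y _ _ _ hk, face_y _ _ _ h4, face_y _ _ _ h5,
      ins_ins _ _ _ _ _ h]
  · intro s
    rw [face_l _ _ _ h3, face_l _ _ _ hk, face_l _ _ _ h4, face_l _ _ _ h5,
      ins_ins _ _ _ _ _ h]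

/-- degenerate: independent of one bit -/
def Dg (x : Hc S r) : Prop :=
  ∃ k, k < x.q ∧ ∀ s s' : ℕ → Bool, (∀ i, i ≠ k → s i = s' i) → x.y s = x.y s' ∧ x.l s = x.l s'

theorem face_eq_of_indep (x : Hc S r) (k : ℕ) (hk : k < x.q)
    (h : ∀ s s' : ℕ → Bool, (∀ i, i ≠ k → s i = s' i) → x.y s = x.y s' ∧ x.l s = x.l s') :
    x.face true k = x.face false k := by
  have h0 : ∀ s : ℕ → Bool, ∀ i, i ≠ k → ins k true s i = ins k false s i := by
    intro s i hi
    rcases lt_trichotomy i k with h1 | h1 | h1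
    · rw [ins_lt _ _ _ _ h1, ins_lt _ _ _ _ h1]
    · exact absurd h1 hi
    · rw [ins_gt _ _ _ _ h1, ins_gt _ _ _ _ h1]
  apply ext'
  · rw [face_q _ _ _ hk, face_q _ _ _ hk]
  · intro s
    rw [face_y _ _ _ hk, face_y _ _ _ hk]
    exact (h _ _ (h0 s)).1
  · intro s
    rw [face_l _ _ _ hk, face_l _ _ _ hk]
    exact (h _ _ (h0 s)).2

theorem face_Dg_of_indep (x : Hc S r) (k j : ℕ) (b : Bool) (hk : k < x.q) (hj : j < x.q) (hjk : j ≠ k)
    (h : ∀ s s' : ℕ → Bool, (∀ i, i ≠ k → s i = s' i) → x.y s = x.y s' ∧ x.l s = x.l s') :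
    (x.face b j).Dg := by
  refine ⟨if k < j then k else k - 1, ?_, ?_⟩
  · rw [face_q _ _ _ hj]; split_ifs <;> omega
  · intro s s' hs
    rw [face_y _ _ _ hj, face_y _ _ _ hj, face_l _ _ _ hj, face_l _ _ _ hj]
    apply h
    intro i hi
    rcases lt_trichotomy i j with h1 | h1 | h1
    · rw [ins_lt _ _ _ _ h1, ins_lt _ _ _ _ h1]
      apply hs
      split_ifs <;> omega
    · subst h1; rw [ins_same, ins_same]
    · rw [ins_gt _ _ _ _ h1, ins_gt _ _ _ _ h1]
      apply hs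
      split_ifs <;> omega

/-- the group action on un-normalised cubes -/
def act (x : Hc S r) (g : G) (hg : g ∈ S.Gn r) : Hc S r where
  q := x.q
  y := fun s => g * x.y s
  l := fun s => g • x.l s
  y_dep := fun s s' h => by rw [x.y_dep s s' h]
  l_dep := fun s s' h => by rw [x.l_dep s s' h]
  y_mem := fun s => mul_mem hg (x.y_mem s)
  l_mem := fun s => S.Pn_smul _ _ _ hg (x.l_mem s)
  l_mono := fun s s' h => S.smul_mono _ _ _ (x.l_mono s s' h)

theorem act_face (x : Hc S r) (g : G) (hg : g ∈ S.Gn r) (b : Bool) (k : ℕ) :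
    (x.act g hg).face b k = (x.face b k).act g hg := by
  by_cases h : k < x.q
  · apply ext'
    · rw [face_q _ _ _ (show k < (x.act g hg).q from h)]
      exact (face_q _ _ _ h).symm
    · intro s
      rw [face_y _ _ _ (show k < (x.act g hg).q from h)]
      show g * _ = g * _
      rw [face_y _ _ _ h]
    · intro s
      rw [face_l _ _ _ (show k < (x.act g hg).q from h)]
      show g • _ = g • _
      rw [face_l _ _ _ h]
  · rw [face, face, dif_neg h, dif_neg (show ¬ k < (x.act g hg).q from h)]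

theorem act_Dg (x : Hc S r) (g : G) (hg : g ∈ S.Gn r) (h : x.Dg) : (x.act g hg).Dg := by
  obtain ⟨k, hk, h⟩ := h
  refine ⟨k, hk, fun s s' hs => ⟨?_, ?_⟩⟩
  · show g * _ = g * _
    rw [(h s s' hs).1]
  · show g • _ = g • _
    rw [(h s s' hs).2]

/-- the normal form -/
def nf (x : Hc S r) (hr : 0 < r) : Cb S where
  r := r
  q := x.q
  y := fun s => (x.y z0)⁻¹ * x.y s
  l := fun s => (x.y z0)⁻¹ • x.l s
  r_pos := hr
  y_dep := fun s s' h => by rw [x.y_dep s s' h]
  l_dep := fun s s' h => by rw [x.l_dep s s' h]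
  y_mem := fun s => mul_mem (inv_mem (x.y_mem _)) (x.y_mem s)
  l_mem := fun s => S.Pn_smul _ _ _ (inv_mem (x.y_mem _)) (x.l_mem s)
  y_zero := inv_mul_cancel _
  l_mono := fun s s' h => S.smul_mono _ _ _ (x.l_mono s s' h)

theorem nf_face (x : Hc S r) (hr : 0 < r) (b : Bool) (k : ℕ) (h : k < x.q) :
    (x.face b k).nf hr = (x.nf hr).face b k := by
  have h1 : k < (x.nf hr).q := h
  refine Cb.ext ?_ ?_ ?_ ?_
  · rw [Cb.face, dif_pos h1]; rfl
  · rw [Cb.face, dif_pos h1]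
    exact face_q _ _ _ h
  · funext s
    rw [Cb.face, dif_pos h1]
    show ((x.face b k).y z0)⁻¹ * (x.face b k).y s =
      ((x.y z0)⁻¹ * x.y (ins k b z0))⁻¹ * ((x.y z0)⁻¹ * x.y (ins k b s))
    rw [face_y _ _ _ h, face_y _ _ _ h]
    group
  · funext s
    rw [Cb.face, dif_pos h1]
    show ((x.face b k).y z0)⁻¹ • (x.face b k).l s =
      ((x.y z0)⁻¹ * x.y (ins k b z0))⁻¹ • ((x.y z0)⁻¹ • x.l (ins k b s))
    rw [face_y _ _ _ h, face_l _ _ _ h, smul_smul]
    congr 1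
    group

theorem nf_Dg (x : Hc S r) (hr : 0 < r) (h : x.Dg) : (x.nf hr).Dg := by
  obtain ⟨k, hk, h⟩ := h
  refine ⟨k, hk, fun s s' hs => ⟨?_, ?_⟩⟩
  · show _ * x.y s = _ * x.y s'
    rw [(h s s' hs).1]
  · show _ • x.l s = _ • x.l s'
    rw [(h s s' hs).2]

end Hc

/-- a normal form cube of rank `r` as an un-normalised cube -/
def Cb.up {S : Sys G P} (c : Cb S) (r : ℕ) (h : c.r = r) : Hc S r where
  q := c.q
  y := c.y
  l := c.l
  y_dep := c.y_dep
  l_dep := c.l_dep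
  y_mem := fun s => h ▸ c.y_mem s
  l_mem := fun s => h ▸ c.l_mem s
  l_mono := c.l_mono

theorem Cb.up_nf {S : Sys G P} (c : Cb S) (r : ℕ) (h : c.r = r) (hr : 0 < r) :
    (c.up r h).nf hr = c := by
  refine Cb.ext h.symm rfl ?_ ?_
  · funext s
    show (c.y z0)⁻¹ * c.y s = c.y s
    rw [c.y_zero, inv_one, one_mul]
  · funext s
    show (c.y z0)⁻¹ • c.l s = c.l s
    rw [c.y_zero, inv_one, one_smul]

theorem Hc.nf_up {S : Sys G P} {r : ℕ} (x : Hc S r) (hr : 0 < r) :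
    ((x.nf hr).up r rfl).act (x.y z0) (x.y_mem z0) = x := by
  apply Hc.ext'
  · rfl
  · intro s
    show x.y z0 * ((x.y z0)⁻¹ * x.y s) = x.y s
    group
  · intro s
    show x.y z0 • ((x.y z0)⁻¹ • x.l s) = x.l s
    rw [smul_inv_smul]

theorem Cb.up_Dg {S : Sys G P} (c : Cb S) (r : ℕ) (h : c.r = r) (hc : c.Dg) : (c.up r h).Dg := hc

theorem Hc.act_nf {S : Sys G P} {r : ℕ} (x : Hc S r) (g : G) (hg : g ∈ S.Gn r) (hr : 0 < r) :
    (x.act g hg).nf hr = x.nf hr := by
  refine Cb.ext rfl rfl ?_ ?_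
  · funext s
    show (g * x.y z0)⁻¹ * (g * x.y s) = (x.y z0)⁻¹ * x.y s
    group
  · funext s
    show (g * x.y z0)⁻¹ • (g • x.l s) = (x.y z0)⁻¹ • x.l s
    rw [smul_smul]
    congr 1
    group

end St16
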