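import Pool.Agent.LibSt16.L3a

/-!
LibSt16/L3b: chains of un-normalised cubes, boundary, prism homotopy, constant lattice part.
-/

set_option autoImplicit false

noncomputable section

namespace St16

variable {G P : Type} [Group G] [Preorder P] [MulAction G P]

/-! ### the standard cancellation -/

theorem sum_cancel {V : Type} [AddCommGroup V] [Module ℚ V] (q : ℕ) (F : ℕ → ℕ → V)
    (h : ∀ j k, j ≤ k → k < q → F (k + 1) j = F j k) :
    ∑ k ∈ Finset.range (q + 1), ∑ j ∈ Finset.range q, ((-1 : ℚ) ^ k * (-1 : ℚ) ^ j) • F k j = 0 := by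
  rw [← Finset.sum_product']
  refine Finset.sum_involution
    (fun x _ => if x.2 < x.1 then (x.2, x.1 - 1) else (x.2 + 1, x.1)) ?_ ?_ ?_ ?_
  · rintro ⟨k, j⟩ hx
    simp only [Finset.mem_product, Finset.mem_range] at hx
    obtain ⟨hk, hj⟩ := hx
    simp only
    split_ifs with hjk
    · obtain ⟨k, rfl⟩ : ∃ k', k = k' + 1 := ⟨k - 1, by omega⟩
      simp only [Nat.add_sub_cancel]
      rw [h j k (by omega) (by omega), ← add_smul, pow_succ]
      have : (-1 : ℚ) ^ k * -1 * (-1 : ℚ) ^ j + (-1 : ℚ) ^ j * (-1 : ℚ) ^ k = 0 := by ring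
      rw [this, zero_smul]
    · simp only
      rw [h k j (by omega) hj, ← add_smul, pow_succ]
      have : (-1 : ℚ) ^ k * (-1 : ℚ) ^ j + (-1 : ℚ) ^ j * -1 * (-1 : ℚ) ^ k = 0 := by ring
      rw [this, zero_smul]
  · rintro ⟨k, j⟩ hx _
    simp only
    split_ifs with hjk
    · intro he
      rw [Prod.mk.injEq] at he
      omega
    · intro he
      rw [Prod.mk.injEq] at he
      omega
  · rintro ⟨k, j⟩ hx
    simp only [Finset.mem_product, Finset.mem_range] at hx ⊢
    split_ifs with hjk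
    · exact ⟨by omega, by simp only; omega⟩
    · exact ⟨by simp only; omega, by simp only; omega⟩
  · rintro ⟨k, j⟩ hx
    simp only
    split_ifs with hjk h2 h2
    · simp only at h2; omega
    · simp only at h2 ⊢; rw [Nat.sub_add_cancel (by omega)]
    · simp only at h2 ⊢; rw [Nat.add_sub_cancel]
    · simp only at h2; omega

section

variable (S : Sys G P) (r : ℕ)

/-- chains of un-normalised cubes -/
abbrev HCh := Hc S r →₀ ℚ

/-- degenerate chains -/
def HDeg : Submodule ℚ (HCh S r) := Finsupp.supported ℚ ℚ {x | x.Dg}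

/-- chains of dimension `q` -/
def HN (q : ℕ) : Submodule ℚ (HCh S r) := Finsupp.supported ℚ ℚ {x | x.q = q}

end

variable {S : Sys G P} {r : ℕ}

/-- signed difference of two opposite faces -/
def Hc.df (x : Hc S r) (k : ℕ) : HCh S r :=
  Finsupp.single (x.face true k) 1 - Finsupp.single (x.face false k) 1

/-- boundary of one cube -/
def hbd1 (x : Hc S r) : HCh S r :=
  ∑ k ∈ Finset.range x.q,
    (-1 : ℚ) ^ k • (Finsupp.single (x.face true k) 1 - Finsupp.single (x.face false k) 1)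

/-- boundary of chains -/
def hbd : HCh S r →ₗ[ℚ] HCh S r := Finsupp.linearCombination ℚ hbd1

theorem hbd_single (x : Hc S r) : hbd (Finsupp.single x 1) = hbd1 x := by
  rw [hbd, Finsupp.linearCombination_single, one_smul]

theorem hbd_hbd1 (x : Hc S r) : hbd (hbd1 x) = 0 := by
  rcases Nat.eq_zero_or_pos x.q with h0 | h0
  · rw [hbd1, h0, Finset.range_zero, Finset.sum_empty, map_zero]
  obtain ⟨q, hq⟩ : ∃ q, x.q = q + 1 := ⟨x.q - 1, by omega⟩
  have key : hbd (hbd1 x) = ∑ k ∈ Finset.range (q + 1), ∑ j ∈ Finset.range q,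
      ((-1 : ℚ) ^ k * (-1 : ℚ) ^ j) •
        ((Finsupp.single ((x.face true k).face true j) 1
            - Finsupp.single ((x.face true k).face false j) 1)
          - (Finsupp.single ((x.face false k).face true j) 1
            - Finsupp.single ((x.face false k).face false j) 1) : HCh S r) := by
    rw [hbd1, map_sum, hq]
    refine Finset.sum_congr rfl fun k hk => ?_
    rw [Finset.mem_range] at hk
    rw [map_smul, map_sub, hbd_single, hbd_single, hbd1, hbd1, Hc.face_q _ _ _ (by omega),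
      Hc.face_q _ _ _ (by omega), hq, Nat.add_sub_cancel, ← Finset.sum_sub_distrib, Finset.smul_sum]
    refine Finset.sum_congr rfl fun j _ => ?_
    rw [← smul_sub, smul_smul]
  rw [key]
  apply sum_cancel
  intro j k hjk hk
  rw [Hc.face_face x true true j k hjk (by omega), Hc.face_face x true false j k hjk (by omega),
    Hc.face_face x false true j k hjk (by omega), Hc.face_face x false false j k hjk (by omega)]
  abel

theorem hbd_hbd (z : HCh S r) : hbd (hbd z) = 0 := by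
  induction z using Finsupp.induction_linear with
  | zero => rw [map_zero, map_zero]
  | add a b ha hb => rw [map_add, map_add, ha, hb, add_zero]
  | single x a =>
    have h1 : (Finsupp.single x a : HCh S r) = a • Finsupp.single x 1 := by
      rw [Finsupp.smul_single, smul_eq_mul, mul_one]
    rw [h1, map_smul, map_smul, hbd_single, hbd_hbd1, smul_zero]

theorem single_mem_HDeg (x : Hc S r) (h : x.Dg) (a : ℚ) : (Finsupp.single x a : HCh S r) ∈ HDeg S r :=
  Finsupp.single_mem_supported ℚ a h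

theorem single_mem_HN (x : Hc S r) (q : ℕ) (h : x.q = q) (a : ℚ) :
    (Finsupp.single x a : HCh S r) ∈ HN S r q :=
  Finsupp.single_mem_supported ℚ a h

/-- a linear map into any module, checked on a supported submodule -/
theorem map_supported {X V : Type} [AddCommGroup V] [Module ℚ V] (f : (X →₀ ℚ) →ₗ[ℚ] V)
    (s : Set X) (N : Submodule ℚ V) (h : ∀ x ∈ s, f (Finsupp.single x 1) ∈ N) (z : X →₀ ℚ)
    (hz : z ∈ Finsupp.supported ℚ ℚ s) : f z ∈ N := by
  have h1 : Finsupp.supported ℚ ℚ s ≤ N.comap f := by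
    rw [Finsupp.supported_eq_span_single, Submodule.span_le]
    rintro _ ⟨x, hx, rfl⟩
    exact h x hx
  exact h1 hz

theorem hbd1_mem_HN (x : Hc S r) (q : ℕ) (h : x.q = q + 1) : hbd1 x ∈ HN S r q := by
  rw [hbd1]
  refine Submodule.sum_mem _ fun k hk => Submodule.smul_mem _ _ ?_
  rw [Finset.mem_range] at hk
  refine Submodule.sub_mem _ (single_mem_HN _ _ ?_ _) (single_mem_HN _ _ ?_ _)
  · rw [Hc.face_q _ _ _ hk, h, Nat.add_sub_cancel]
  · rw [Hc.face_q _ _ _ hk, h, Nat.add_sub_cancel]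

theorem hbd_mem_HN (q : ℕ) (z : HCh S r) (hz : z ∈ HN S r (q + 1)) : hbd z ∈ HN S r q :=
  map_supported hbd _ _ (fun x hx => by rw [hbd_single]; exact hbd1_mem_HN x q hx) z hz

theorem hbd_zero_deg (z : HCh S r) (hz : z ∈ HN S r 0) : hbd z = 0 := by
  have := map_supported hbd {x | x.q = 0} ⊥ (fun x hx => by
    rw [hbd_single, hbd1, show x.q = 0 from hx, Finset.range_zero, Finset.sum_empty]
    exact Submodule.zero_mem _) z hz
  exact (Submodule.mem_bot ℚ).1 this

theorem hbd1_Dg (x : Hc S r) (h : x.Dg) : hbd1 x ∈ HDeg S r := by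
  obtain ⟨i, hi, h⟩ := h
  rw [hbd1]
  refine Submodule.sum_mem _ fun k hk => Submodule.smul_mem _ _ ?_
  rw [Finset.mem_range] at hk
  by_cases hki : k = i
  · subst hki
    rw [Hc.face_eq_of_indep x k hk h, sub_self]
    exact Submodule.zero_mem _
  · exact Submodule.sub_mem _ (single_mem_HDeg _ (Hc.face_Dg_of_indep x i k true hi hk hki h) _)
      (single_mem_HDeg _ (Hc.face_Dg_of_indep x i k false hi hk hki h) _)

theorem hbd_HDeg (z : HCh S r) (hz : z ∈ HDeg S r) : hbd z ∈ HDeg S r :=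
  map_supported hbd _ _ (fun x hx => by rw [hbd_single]; exact hbd1_Dg x hx) z hz

/-! ### maps of the lattice part -/

/-- `φ` maps `Pn r` to itself and is monotone there -/
structure GoodMap (S : Sys G P) (r : ℕ) (φ : P → P) : Prop where
  maps : ∀ a ∈ S.Pn r, φ a ∈ S.Pn r
  mono : ∀ a b, a ∈ S.Pn r → b ∈ S.Pn r → a ≤ b → φ a ≤ φ b

/-- apply `φ` to the lattice part -/
def Hc.ap (x : Hc S r) (φ : P → P) (hφ : GoodMap S r φ) : Hc S r where
  q := x.q
  y := x.y
  l := fun s => φ (x.l s)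
  y_dep := x.y_dep
  l_dep := fun s s' h => by rw [x.l_dep s s' h]
  y_mem := x.y_mem
  l_mem := fun s => hφ.maps _ (x.l_mem s)
  l_mono := fun s s' h => hφ.mono _ _ (x.l_mem _) (x.l_mem _) (x.l_mono s s' h)

/-- the prism over `x`: the new bit is bit `0`, `φ` at `0` and `ψ` at `1` -/
def Hc.prism (x : Hc S r) (φ ψ : P → P) (hφ : GoodMap S r φ) (hψ : GoodMap S r ψ)
    (h : ∀ a ∈ S.Pn r, φ a ≤ ψ a) : Hc S r where
  q := x.q + 1
  y := fun s => x.y (tl s)
  l := fun s => if s 0 then ψ (x.l (tl s)) else φ (x.l (tl s))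
  y_dep := fun s s' hs => x.y_dep _ _ fun i hi => hs _ (by omega)
  l_dep := fun s s' hs => by
    have h1 : x.l (tl s) = x.l (tl s') := x.l_dep _ _ fun i hi => hs _ (by omega)
    rw [h1, hs 0 (by omega)]
  y_mem := fun s => x.y_mem _
  l_mem := fun s => by
    split_ifs
    · exact hψ.maps _ (x.l_mem _)
    · exact hφ.maps _ (x.l_mem _)
  l_mono := fun s s' hs => by
    have h1 : x.l (tl s) ≤ x.l (tl s') := x.l_mono _ _ fun i => hs _
    by_cases h0 : s 0 = true
    · have h0' : s' 0 = true := by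
        have := hs 0
        rw [h0] at this
        exact Bool.eq_true_of_true_le this
      rw [if_pos h0, if_pos h0']
      exact hψ.mono _ _ (x.l_mem _) (x.l_mem _) h1
    · by_cases h0' : s' 0 = true
      · rw [if_neg h0, if_pos h0']
        exact (hφ.mono _ _ (x.l_mem _) (x.l_mem _) h1).trans (h _ (x.l_mem _))
      · rw [if_neg h0, if_neg h0']
        exact hφ.mono _ _ (x.l_mem _) (x.l_mem _) h1

/-- apply `φ` to the lattice part of a chain -/
def hap (φ : P → P) (hφ : GoodMap S r φ) : HCh S r →ₗ[ℚ] HCh S r :=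
  Finsupp.lmapDomain ℚ ℚ fun x => x.ap φ hφ

/-- the prism on chains -/
def hprism (φ ψ : P → P) (hφ : GoodMap S r φ) (hψ : GoodMap S r ψ)
    (h : ∀ a ∈ S.Pn r, φ a ≤ ψ a) : HCh S r →ₗ[ℚ] HCh S r :=
  Finsupp.lmapDomain ℚ ℚ fun x => x.prism φ ψ hφ hψ h

section prism

variable (φ ψ : P → P) (hφ : GoodMap S r φ) (hψ : GoodMap S r ψ) (h : ∀ a ∈ S.Pn r, φ a ≤ ψ a)

theorem Hc.prism_face_zero_true (x : Hc S r) :
    (x.prism φ ψ hφ hψ h).face true 0 = x.ap ψ hψ := by
  have h0 : 0 < (x.prism φ ψ hφ hψ h).q := Nat.succ_pos _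
  apply Hc.ext'
  · rw [Hc.face_q _ _ _ h0]; rfl
  · intro s
    rw [Hc.face_y _ _ _ h0]
    show x.y (tl (ins 0 true s)) = x.y s
    rw [tl_ins_zero]
  · intro s
    rw [Hc.face_l _ _ _ h0]
    show (if ins 0 true s 0 then ψ (x.l (tl (ins 0 true s))) else φ (x.l (tl (ins 0 true s)))) = ψ (x.l s)
    rw [ins_same, tl_ins_zero]; rfl

theorem Hc.prism_face_zero_false (x : Hc S r) :
    (x.prism φ ψ hφ hψ h).face false 0 = x.ap φ hφ := by
  have h0 : 0 < (x.prism φ ψ hφ hψ h).q := Nat.succ_pos _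
  apply Hc.ext'
  · rw [Hc.face_q _ _ _ h0]; rfl
  · intro s
    rw [Hc.face_y _ _ _ h0]
    show x.y (tl (ins 0 false s)) = x.y s
    rw [tl_ins_zero]
  · intro s
    rw [Hc.face_l _ _ _ h0]
    show (if ins 0 false s 0 then ψ (x.l (tl (ins 0 false s))) else φ (x.l (tl (ins 0 false s)))) = φ (x.l s)
    rw [ins_same, tl_ins_zero]; rfl

theorem Hc.prism_face_succ (x : Hc S r) (b : Bool) (k : ℕ) (hk : k < x.q) :
    (x.prism φ ψ hφ hψ h).face b (k + 1) = (x.face b k).prism φ ψ hφ hψ h := by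
  have h0 : k + 1 < (x.prism φ ψ hφ hψ h).q := Nat.succ_lt_succ hk
  apply Hc.ext'
  · rw [Hc.face_q _ _ _ h0]
    show x.q + 1 - 1 = (x.face b k).q + 1
    rw [Hc.face_q _ _ _ hk]; omega
  · intro s
    rw [Hc.face_y _ _ _ h0]
    show x.y (tl (ins (k + 1) b s)) = (x.face b k).y (tl s)
    rw [Hc.face_y _ _ _ hk, tl_ins_succ]
  · intro s
    rw [Hc.face_l _ _ _ h0]
    show (if ins (k + 1) b s 0 then ψ (x.l (tl (ins (k + 1) b s))) else φ (x.l (tl (ins (k + 1) b s)))) =
      if s 0 then ψ ((x.face b k).l (tl s)) else φ ((x.face b k).l (tl s))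
    rw [Hc.face_l _ _ _ hk, tl_ins_succ, ins_lt _ _ _ _ (Nat.succ_pos k)]

theorem hprism_single (x : Hc S r) :
    hprism φ ψ hφ hψ h (Finsupp.single x 1) = Finsupp.single (x.prism φ ψ hφ hψ h) 1 := by
  rw [hprism, Finsupp.lmapDomain_apply, Finsupp.mapDomain_single]

theorem hap_single (x : Hc S r) :
    hap φ hφ (Finsupp.single x 1) = Finsupp.single (x.ap φ hφ) 1 := by
  rw [hap, Finsupp.lmapDomain_apply, Finsupp.mapDomain_single]

theorem hbd_hprism_single (x : Hc S r) :
    hbd (hprism φ ψ hφ hψ h (Finsupp.single x 1)) =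
      hap ψ hψ (Finsupp.single x 1) - hap φ hφ (Finsupp.single x 1)
        - hprism φ ψ hφ hψ h (hbd (Finsupp.single x 1)) := by
  rw [hprism_single, hbd_single, hbd_single, hap_single, hap_single]
  rw [hbd1, show (x.prism φ ψ hφ hψ h).q = x.q + 1 from rfl, Finset.sum_range_succ', pow_zero, one_smul,
    Hc.prism_face_zero_true, Hc.prism_face_zero_false]
  have h1 : ∑ k ∈ Finset.range x.q, (-1 : ℚ) ^ (k + 1) •
      (Finsupp.single ((x.prism φ ψ hφ hψ h).face true (k + 1)) 1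
        - Finsupp.single ((x.prism φ ψ hφ hψ h).face false (k + 1)) 1 : HCh S r) =
      - hprism φ ψ hφ hψ h (hbd1 x) := by
    rw [hbd1, map_sum, ← Finset.sum_neg_distrib]
    refine Finset.sum_congr rfl fun k hk => ?_
    rw [Finset.mem_range] at hk
    rw [map_smul, map_sub, hprism_single, hprism_single, Hc.prism_face_succ _ _ _ _ _ _ _ _ hk,
      Hc.prism_face_succ _ _ _ _ _ _ _ _ hk, pow_succ, mul_neg_one, neg_smul]
  rw [h1]
  abel

theorem hbd_hprism (z : HCh S r) :
    hbd (hprism φ ψ hφ hψ h z) = hap ψ hψ z - hap φ hφ z - hprism φ ψ hφ hψ h (hbd z) := by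
  have h1 : hbd ∘ₗ hprism φ ψ hφ hψ h =
      hap ψ hψ - hap φ hφ - hprism φ ψ hφ hψ h ∘ₗ hbd := by
    ext x : 2
    exact hbd_hprism_single φ ψ hφ hψ h x
  exact LinearMap.congr_fun h1 z

theorem Hc.prism_Dg (x : Hc S r) (hx : x.Dg) : (x.prism φ ψ hφ hψ h).Dg := by
  obtain ⟨k, hk, hx⟩ := hx
  refine ⟨k + 1, Nat.succ_lt_succ hk, fun s s' hs => ?_⟩
  have h1 := hx (tl s) (tl s') fun i hi => hs _ (by omega)
  refine ⟨h1.1, ?_⟩
  show (if s 0 then ψ (x.l (tl s)) else φ (x.l (tl s))) = if s' 0 then ψ (x.l (tl s')) else φ (x.l (tl s'))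
  rw [h1.2, hs 0 (by omega)]

theorem hprism_HDeg (z : HCh S r) (hz : z ∈ HDeg S r) : hprism φ ψ hφ hψ h z ∈ HDeg S r :=
  map_supported _ _ _ (fun x hx => by
    rw [hprism_single]; exact single_mem_HDeg _ (Hc.prism_Dg φ ψ hφ hψ h x hx) _) z hz

theorem hprism_HN (q : ℕ) (z : HCh S r) (hz : z ∈ HN S r q) :
    hprism φ ψ hφ hψ h z ∈ HN S r (q + 1) :=
  map_supported _ _ _ (fun x hx => by
    rw [hprism_single]; exact single_mem_HN _ _ (congrArg (· + 1) hx) _) z hz

end prism

/-! ### constant lattice part -/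

/-- the constant map is good -/
theorem goodMap_const (M : P) (hM : M ∈ S.Pn r) : GoodMap S r fun _ => M :=
  ⟨fun _ _ => hM, fun _ _ _ _ _ => le_rfl⟩

/-- the lattice part replaced by the constant `M` -/
def hcst (M : P) (hM : M ∈ S.Pn r) : HCh S r →ₗ[ℚ] HCh S r := hap (fun _ => M) (goodMap_const M hM)

theorem Hc.ap_face (x : Hc S r) (φ : P → P) (hφ : GoodMap S r φ) (b : Bool) (k : ℕ) :
    (x.ap φ hφ).face b k = (x.face b k).ap φ hφ := by
  by_cases hk : k < x.q
  · have hk' : k < (x.ap φ hφ).q := hk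
    apply Hc.ext'
    · rw [Hc.face_q _ _ _ hk']
      exact (Hc.face_q _ _ _ hk).symm
    · intro s
      rw [Hc.face_y _ _ _ hk']
      exact (Hc.face_y _ _ _ hk s).symm
    · intro s
      rw [Hc.face_l _ _ _ hk']
      show φ _ = φ _
      rw [Hc.face_l _ _ _ hk]
  · have hk' : ¬ k < (x.ap φ hφ).q := hk
    rw [Hc.face, Hc.face, dif_neg hk, dif_neg hk']

theorem hap_hbd (φ : P → P) (hφ : GoodMap S r φ) (z : HCh S r) :
    hap φ hφ (hbd z) = hbd (hap φ hφ z) := by
  have h1 : hap φ hφ ∘ₗ hbd = hbd ∘ₗ hap φ hφ := by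
    ext x : 2
    show hap φ hφ (hbd (Finsupp.single x 1)) = hbd (hap φ hφ (Finsupp.single x 1))
    rw [hbd_single, hap_single, hbd_single, hbd1, hbd1, map_sum]
    refine Finset.sum_congr rfl fun k _ => ?_
    rw [map_smul, map_sub, hap_single, hap_single, Hc.ap_face, Hc.ap_face]
  exact LinearMap.congr_fun h1 z

theorem Hc.ap_Dg (x : Hc S r) (φ : P → P) (hφ : GoodMap S r φ) (hx : x.Dg) : (x.ap φ hφ).Dg := by
  obtain ⟨k, hk, hx⟩ := hx
  refine ⟨k, hk, fun s s' hs => ⟨(hx s s' hs).1, ?_⟩⟩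
  show φ _ = φ _
  rw [(hx s s' hs).2]

theorem hap_HDeg (φ : P → P) (hφ : GoodMap S r φ) (z : HCh S r) (hz : z ∈ HDeg S r) :
    hap φ hφ z ∈ HDeg S r :=
  map_supported _ _ _ (fun x hx => by
    rw [hap_single]; exact single_mem_HDeg _ (x.ap_Dg φ hφ hx) _) z hz

theorem hap_HN (φ : P → P) (hφ : GoodMap S r φ) (q : ℕ) (z : HCh S r) (hz : z ∈ HN S r q) :
    hap φ hφ z ∈ HN S r q :=
  map_supported _ _ _ (fun x hx => by
    rw [hap_single]; exact single_mem_HN (x.ap φ hφ) q hx 1) z hz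

theorem hcst_hcst (M : P) (hM : M ∈ S.Pn r) (φ : P → P) (hφ : GoodMap S r φ) (z : HCh S r) :
    hcst M hM (hap φ hφ z) = hcst M hM z := by
  have h1 : hcst M hM ∘ₗ hap φ hφ = hcst M hM := by
    ext x : 2
    show hcst M hM (hap φ hφ (Finsupp.single x 1)) = hcst M hM (Finsupp.single x 1)
    rw [hap_single, hcst, hap_single, hap_single]
    rfl
  exact LinearMap.congr_fun h1 z

/-- the constant version of a prism is degenerate -/
theorem hcst_hprism (M : P) (hM : M ∈ S.Pn r) (φ ψ : P → P) (hφ : GoodMap S r φ)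
    (hψ : GoodMap S r ψ) (h : ∀ a ∈ S.Pn r, φ a ≤ ψ a) (z : HCh S r) :
    hcst M hM (hprism φ ψ hφ hψ h z) ∈ HDeg S r := by
  have h1 := map_supported (hcst M hM ∘ₗ hprism φ ψ hφ hψ h) (Set.univ : Set (Hc S r)) (HDeg S r)
    (fun x _ => by
      rw [LinearMap.comp_apply, hprism_single, hcst, hap_single]
      refine single_mem_HDeg _ ⟨0, Nat.succ_pos _, fun s s' hs => ⟨?_, rfl⟩⟩ _
      show x.y (tl s) = x.y (tl s')
      congr 1
      funext i
      exact hs _ (Nat.succ_ne_zero i)) z (Finsupp.mem_supported ℚ z |>.2 (Set.subset_univ _))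
  exact h1

end St16
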