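import Pool.Agent.LibSt16.L3b

/-!
LibSt16/L3c: contraction of the lattice part, equivariant contraction, passage to normal forms.
-/

set_option autoImplicit false

noncomputable section

namespace St16

variable {G P : Type} [Group G] [Preorder P] [MulAction G P] {S : Sys G P} {r : ℕ}

/-! ### exactness before taking coinvariants -/

/-- For every finite set of elements of `Pn r` a zigzag of monotone maps from the constant map `M` to a map
fixing the finite set. -/
def Zigzag (S : Sys G P) (r : ℕ) (M : P) : Prop :=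
  ∀ F : Set P, F.Finite → F ⊆ S.Pn r → ∃ (m : ℕ) (φ : ℕ → P → P), (∀ i, GoodMap S r (φ i)) ∧
    (∀ i, (∀ a ∈ S.Pn r, φ i a ≤ φ (i + 1) a) ∨ (∀ a ∈ S.Pn r, φ (i + 1) a ≤ φ i a)) ∧
    (∀ a ∈ S.Pn r, φ 0 a = M) ∧ ∀ a ∈ F, φ m a = a

theorem Hc.range_l_finite (x : Hc S r) : (Set.range x.l).Finite := by
  have h1 : Set.range x.l ⊆
      Set.range (fun t : Fin x.q → Bool => x.l fun i => if h : i < x.q then t ⟨i, h⟩ else false) := by
    rintro _ ⟨s, rfl⟩
    refine ⟨fun i => s i, x.l_dep _ _ fun i hi => ?_⟩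
    simp only [dif_pos hi]
  exact (Set.finite_range _).subset h1

theorem zig_step (M : P) (hM : M ∈ S.Pn r) (q : ℕ) (z : HCh S r) (hz : z ∈ HN S r q)
    (hd : hbd z ∈ HDeg S r) (φ : ℕ → P → P) (hφ : ∀ i, GoodMap S r (φ i))
    (hzig : ∀ i, (∀ a ∈ S.Pn r, φ i a ≤ φ (i + 1) a) ∨ (∀ a ∈ S.Pn r, φ (i + 1) a ≤ φ i a)) (m : ℕ) :
    ∃ w ∈ HN S r (q + 1), hcst M hM w ∈ HDeg S r ∧
      hap (φ m) (hφ m) z - hap (φ 0) (hφ 0) z - hbd w ∈ HDeg S r := by
  induction m with
  | zero =>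
    refine ⟨0, Submodule.zero_mem _, ?_, ?_⟩
    · rw [map_zero]; exact Submodule.zero_mem _
    · rw [sub_self, map_zero, sub_zero]; exact Submodule.zero_mem _
  | succ m ih =>
    obtain ⟨w, hw, hw1, hw2⟩ := ih
    rcases hzig m with h | h
    · refine ⟨w + hprism (φ m) (φ (m + 1)) (hφ m) (hφ (m + 1)) h z,
        Submodule.add_mem _ hw (hprism_HN _ _ _ _ _ _ _ hz), ?_, ?_⟩
      · rw [map_add]
        exact Submodule.add_mem _ hw1 (hcst_hprism _ _ _ _ _ _ _ _)
      · rw [map_add, hbd_hprism]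
        have h3 := hprism_HDeg (φ m) (φ (m + 1)) (hφ m) (hφ (m + 1)) h _ hd
        have h4 := Submodule.add_mem _ hw2 h3
        convert h4 using 1
        abel
    · refine ⟨w - hprism (φ (m + 1)) (φ m) (hφ (m + 1)) (hφ m) h z,
        Submodule.sub_mem _ hw (hprism_HN _ _ _ _ _ _ _ hz), ?_, ?_⟩
      · rw [map_sub]
        exact Submodule.sub_mem _ hw1 (hcst_hprism _ _ _ _ _ _ _ _)
      · rw [map_sub, hbd_hprism]
        have h3 := hprism_HDeg (φ (m + 1)) (φ m) (hφ (m + 1)) (hφ m) h _ hd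
        have h4 := Submodule.sub_mem _ hw2 h3
        convert h4 using 1
        abel

theorem hap_congr (φ ψ : P → P) (hφ : GoodMap S r φ) (hψ : GoodMap S r ψ) (z : HCh S r)
    (h : ∀ x ∈ z.support, ∀ s, φ (x.l s) = ψ (x.l s)) : hap φ hφ z = hap ψ hψ z := by
  rw [hap, hap, Finsupp.lmapDomain_apply, Finsupp.lmapDomain_apply]
  refine Finsupp.mapDomain_congr fun x hx => ?_
  exact Hc.ext' _ _ rfl (fun _ => rfl) (h x hx)

theorem hap_id (hφ : GoodMap S r id) (z : HCh S r) : hap id hφ z = z := by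
  rw [hap, Finsupp.lmapDomain_apply]
  exact Finsupp.mapDomain_id

theorem h_exact (M : P) (hM : M ∈ S.Pn r) (hzig : Zigzag S r M) (q : ℕ) (z : HCh S r)
    (hz : z ∈ HN S r q) (hc : hcst M hM z ∈ HDeg S r) (hd : hbd z ∈ HDeg S r) :
    ∃ w ∈ HN S r (q + 1), hcst M hM w ∈ HDeg S r ∧ z - hbd w ∈ HDeg S r := by
  obtain ⟨m, φ, hφ, hcomp, h0, hm⟩ := hzig (⋃ x ∈ z.support, Set.range x.l)
    (Set.Finite.biUnion z.support.finite_toSet fun x _ => x.range_l_finite)
    (Set.iUnion₂_subset fun x _ => by rintro _ ⟨s, rfl⟩; exact x.l_mem s)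
  obtain ⟨w, hw, hw1, hw2⟩ := zig_step M hM q z hz hd φ hφ hcomp m
  refine ⟨w, hw, hw1, ?_⟩
  have h1 : hap (φ m) (hφ m) z = z := by
    have hid : GoodMap S r id := ⟨fun _ h => h, fun _ _ _ _ h => h⟩
    rw [hap_congr (φ m) id (hφ m) hid z, hap_id]
    intro x hx s
    exact hm _ (Set.mem_iUnion₂.2 ⟨x, hx, s, rfl⟩)
  have h2 : hap (φ 0) (hφ 0) z = hcst M hM z := by
    rw [hcst]
    exact hap_congr _ _ _ _ _ fun x _ s => h0 _ (x.l_mem s)
  rw [h1, h2] at hw2
  have h3 := Submodule.add_mem _ hw2 hc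
  convert h3 using 1
  abel

/-! ### the action on chains and the equivariant projection -/

/-- the action on chains -/
def hact (g : G) (hg : g ∈ S.Gn r) : HCh S r →ₗ[ℚ] HCh S r :=
  Finsupp.lmapDomain ℚ ℚ fun x => x.act g hg

theorem hact_single (g : G) (hg : g ∈ S.Gn r) (x : Hc S r) :
    hact g hg (Finsupp.single x 1) = Finsupp.single (x.act g hg) 1 := by
  rw [hact, Finsupp.lmapDomain_apply, Finsupp.mapDomain_single]

theorem hact_hbd (g : G) (hg : g ∈ S.Gn r) (z : HCh S r) :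
    hact g hg (hbd z) = hbd (hact g hg z) := by
  have h1 : hact g hg ∘ₗ hbd = hbd ∘ₗ (hact g hg : HCh S r →ₗ[ℚ] HCh S r) := by
    ext x : 2
    show hact g hg (hbd (Finsupp.single x 1)) = hbd (hact g hg (Finsupp.single x 1))
    rw [hbd_single, hact_single, hbd_single, hbd1, hbd1, map_sum]
    refine Finset.sum_congr rfl fun k _ => ?_
    rw [map_smul, map_sub, hact_single, hact_single, Hc.act_face, Hc.act_face]
  exact LinearMap.congr_fun h1 z

theorem hact_HDeg (g : G) (hg : g ∈ S.Gn r) (z : HCh S r) (hz : z ∈ HDeg S r) :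
    hact g hg z ∈ HDeg S r :=
  map_supported _ _ _ (fun x hx => by
    rw [hact_single]; exact single_mem_HDeg _ (x.act_Dg g hg hx) _) z hz

theorem hact_HN (g : G) (hg : g ∈ S.Gn r) (q : ℕ) (z : HCh S r) (hz : z ∈ HN S r q) :
    hact g hg z ∈ HN S r q :=
  map_supported _ _ _ (fun x hx => by
    rw [hact_single]; exact single_mem_HN (x.act g hg) q hx 1) z hz

theorem hact_hact (g g' : G) (hg : g ∈ S.Gn r) (hg' : g' ∈ S.Gn r) (hgg : g * g' ∈ S.Gn r) (z : HCh S r) :
    hact g hg (hact g' hg' z) = hact (g * g') hgg z := by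
  have h1 : hact g hg ∘ₗ hact g' hg' = (hact (g * g') hgg : HCh S r →ₗ[ℚ] HCh S r) := by
    ext x : 2
    show hact g hg (hact g' hg' (Finsupp.single x 1)) = hact (g * g') hgg (Finsupp.single x 1)
    rw [hact_single, hact_single, hact_single]
    congr 1
    apply Hc.ext'
    · rfl
    · intro s
      exact (mul_assoc _ _ _).symm
    · intro s
      exact (mul_smul _ _ _).symm
  exact LinearMap.congr_fun h1 z

/-- constant lattice part, equivariant version: `y(0) • M` -/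
def Hc.flat (x : Hc S r) (M : P) (hM : M ∈ S.Pn r) : Hc S r where
  q := x.q
  y := x.y
  l := fun _ => x.y z0 • M
  y_dep := x.y_dep
  l_dep := fun _ _ _ => rfl
  y_mem := x.y_mem
  l_mem := fun _ => S.Pn_smul _ _ _ (x.y_mem _) hM
  l_mono := fun _ _ _ => le_rfl

/-- `flat` on chains -/
def hflat (M : P) (hM : M ∈ S.Pn r) : HCh S r →ₗ[ℚ] HCh S r :=
  Finsupp.lmapDomain ℚ ℚ fun x => x.flat M hM

theorem hflat_single (M : P) (hM : M ∈ S.Pn r) (x : Hc S r) :
    hflat M hM (Finsupp.single x 1) = Finsupp.single (x.flat M hM) 1 := by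
  rw [hflat, Finsupp.lmapDomain_apply, Finsupp.mapDomain_single]

theorem hflat_HDeg (M : P) (hM : M ∈ S.Pn r) (z : HCh S r) (hz : z ∈ HDeg S r) :
    hflat M hM z ∈ HDeg S r :=
  map_supported _ _ _ (fun x hx => by
    rw [hflat_single]
    obtain ⟨k, hk, h⟩ := hx
    exact single_mem_HDeg (x.flat M hM) ⟨k, hk, fun s s' hs => ⟨(h s s' hs).1, rfl⟩⟩ 1) z hz

theorem hflat_HN (M : P) (hM : M ∈ S.Pn r) (q : ℕ) (z : HCh S r) (hz : z ∈ HN S r q) :
    hflat M hM z ∈ HN S r q :=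
  map_supported _ _ _ (fun x hx => by
    rw [hflat_single]; exact single_mem_HN (x.flat M hM) q hx 1) z hz

theorem hflat_hcst (M : P) (hM : M ∈ S.Pn r) (z : HCh S r) :
    hflat M hM (hcst M hM z) = hflat M hM z := by
  have h1 : hflat M hM ∘ₗ hcst M hM = (hflat M hM : HCh S r →ₗ[ℚ] HCh S r) := by
    ext x : 2
    show hflat M hM (hcst M hM (Finsupp.single x 1)) = hflat M hM (Finsupp.single x 1)
    rw [hcst, hap_single, hflat_single, hflat_single]
    rfl
  exact LinearMap.congr_fun h1 z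

theorem hcst_hflat (M : P) (hM : M ∈ S.Pn r) (z : HCh S r) :
    hcst M hM (hflat M hM z) = hcst M hM z := by
  have h1 : hcst M hM ∘ₗ hflat M hM = (hcst M hM : HCh S r →ₗ[ℚ] HCh S r) := by
    ext x : 2
    show hcst M hM (hflat M hM (Finsupp.single x 1)) = hcst M hM (Finsupp.single x 1)
    rw [hcst, hap_single, hflat_single, hap_single]
    rfl
  exact LinearMap.congr_fun h1 z

theorem hact_hflat (M : P) (hM : M ∈ S.Pn r) (g : G) (hg : g ∈ S.Gn r) (z : HCh S r) :
    hact g hg (hflat M hM z) = hflat M hM (hact g hg z) := by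
  have h1 : hact g hg ∘ₗ hflat M hM = (hflat M hM : HCh S r →ₗ[ℚ] HCh S r) ∘ₗ hact g hg := by
    ext x : 2
    show hact g hg (hflat M hM (Finsupp.single x 1)) = hflat M hM (hact g hg (Finsupp.single x 1))
    rw [hact_single, hflat_single, hflat_single, hact_single]
    congr 1
    apply Hc.ext'
    · rfl
    · intro s; rfl
    · intro s
      exact smul_smul _ _ _
  exact LinearMap.congr_fun h1 z

/-- the equivariant projection to the kernel -/
def hpi (M : P) (hM : M ∈ S.Pn r) : HCh S r →ₗ[ℚ] HCh S r := LinearMap.id - hflat M hM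

theorem hpi_apply (M : P) (hM : M ∈ S.Pn r) (z : HCh S r) : hpi M hM z = z - hflat M hM z := rfl

/-- chains whose group part is degenerate -/
def HK (M : P) (hM : M ∈ S.Pn r) : Submodule ℚ (HCh S r) := (HDeg S r).comap (hcst M hM)

theorem mem_HK (M : P) (hM : M ∈ S.Pn r) (z : HCh S r) : z ∈ HK M hM ↔ hcst M hM z ∈ HDeg S r := Iff.rfl

theorem hpi_mem_HK (M : P) (hM : M ∈ S.Pn r) (z : HCh S r) : hpi M hM z ∈ HK M hM := by
  rw [mem_HK, hpi_apply, map_sub, hcst_hflat, sub_self]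
  exact Submodule.zero_mem _

theorem hpi_sub_mem (M : P) (hM : M ∈ S.Pn r) (z : HCh S r) (hz : z ∈ HK M hM) :
    hpi M hM z - z ∈ HDeg S r := by
  rw [mem_HK] at hz
  have h1 := hflat_HDeg M hM _ hz
  rw [hflat_hcst] at h1
  have h2 := Submodule.neg_mem _ h1
  rw [hpi_apply]
  convert h2 using 1
  abel

theorem HDeg_le_HK (M : P) (hM : M ∈ S.Pn r) (z : HCh S r) (hz : z ∈ HDeg S r) : z ∈ HK M hM :=
  hap_HDeg _ _ _ hz

theorem hbd_mem_HK (M : P) (hM : M ∈ S.Pn r) (z : HCh S r) (hz : z ∈ HK M hM) : hbd z ∈ HK M hM := by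
  rw [mem_HK] at hz ⊢
  rw [hcst, hap_hbd]
  exact hbd_HDeg _ hz

theorem hact_hcst (M : P) (hM : M ∈ S.Pn r) (g : G) (hg : g ∈ S.Gn r) (z : HCh S r)
    (hz : z ∈ HK M hM) : hact g hg z ∈ HK M hM := by
  -- through the equivariant version
  rw [mem_HK] at hz ⊢
  have h1 := hflat_HDeg M hM _ hz
  rw [hflat_hcst] at h1
  have h2 := hact_HDeg g hg _ h1
  rw [hact_hflat] at h2
  have h3 : hcst M hM (hflat M hM (hact g hg z)) ∈ HDeg S r := hap_HDeg _ _ _ h2
  rwa [hcst_hflat] at h3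

theorem hact_hpi (M : P) (hM : M ∈ S.Pn r) (g : G) (hg : g ∈ S.Gn r) (z : HCh S r) :
    hact g hg (hpi M hM z) = hpi M hM (hact g hg z) := by
  rw [hpi_apply, hpi_apply, map_sub, hact_hflat]

theorem hpi_HN (M : P) (hM : M ∈ S.Pn r) (q : ℕ) (z : HCh S r) (hz : z ∈ HN S r q) :
    hpi M hM z ∈ HN S r q :=
  Submodule.sub_mem _ hz (hflat_HN M hM q z hz)

theorem hpi_HDeg (M : P) (hM : M ∈ S.Pn r) (z : HCh S r) (hz : z ∈ HDeg S r) :
    hpi M hM z ∈ HDeg S r :=
  Submodule.sub_mem _ hz (hflat_HDeg M hM z hz)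

/-! ### the equivariant contraction -/

/-- equivariance of a linear map -/
def Equi (h : HCh S r →ₗ[ℚ] HCh S r) : Prop :=
  ∀ (g : G) (hg : g ∈ S.Gn r) (z : HCh S r), h (hact g hg z) = hact g hg (h z)

/-- the extension of a choice on normal forms to an equivariant map -/
def extW (hr : 0 < r) (W : Cb S → HCh S r) : HCh S r →ₗ[ℚ] HCh S r :=
  Finsupp.linearCombination ℚ fun x : Hc S r => hact (x.y z0) (x.y_mem z0) (W (x.nf hr))

theorem extW_single (hr : 0 < r) (W : Cb S → HCh S r) (x : Hc S r) :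
    extW hr W (Finsupp.single x 1) = hact (x.y z0) (x.y_mem z0) (W (x.nf hr)) := by
  rw [extW, Finsupp.linearCombination_single, one_smul]

theorem extW_equi (hr : 0 < r) (W : Cb S → HCh S r) : Equi (extW hr W) := by
  intro g hg z
  have h1 : extW hr W ∘ₗ hact g hg = (hact g hg : HCh S r →ₗ[ℚ] HCh S r) ∘ₗ extW hr W := by
    ext x : 2
    show extW hr W (hact g hg (Finsupp.single x 1)) = hact g hg (extW hr W (Finsupp.single x 1))
    rw [hact_single, extW_single, extW_single, Hc.act_nf,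
      hact_hact _ _ _ _ (mul_mem hg (x.y_mem z0))]
    rfl
  exact LinearMap.congr_fun h1 z

/-- the data of a contraction in degree `q` -/
structure ContrAt (M : P) (hM : M ∈ S.Pn r) (q : ℕ) (h' h : HCh S r →ₗ[ℚ] HCh S r) : Prop where
  equi' : Equi h'
  equi : Equi h
  deg' : ∀ z ∈ HDeg S r, h' z ∈ HDeg S r
  deg : ∀ z ∈ HDeg S r, h z ∈ HDeg S r
  maps : ∀ z ∈ HN S r q, h z ∈ HN S r (q + 1)
  ker : ∀ z, h z ∈ HK M hM
  eqn : ∀ z ∈ HN S r q, hbd (h z) - (hpi M hM z - h' (hbd (hpi M hM z))) ∈ HDeg S r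

/-- the inductive step: existence of a map in degree `q` from a map `h'` in degree `q - 1` such that
`hpi z - h' (hbd (hpi z))` is a cycle modulo degenerate chains, in the kernel. -/
theorem exists_ext (hr : 0 < r) (M : P) (hM : M ∈ S.Pn r) (hzig : Zigzag S r M) (q : ℕ)
    (h' : HCh S r →ₗ[ℚ] HCh S r) (he : Equi h') (hdeg : ∀ z ∈ HDeg S r, h' z ∈ HDeg S r)
    (hN : ∀ z ∈ HN S r q, h' (hbd (hpi M hM z)) ∈ HN S r q)
    (hK : ∀ z, h' z ∈ HK M hM)
    (hcyc : ∀ z ∈ HN S r q, hbd (hpi M hM z - h' (hbd (hpi M hM z))) ∈ HDeg S r) :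
    ∃ h, ContrAt M hM q h' h := by
  classical
  -- the choice on normal forms
  have hch : ∀ c : Cb S, ∃ w : HCh S r, w ∈ HN S r (q + 1) ∧ w ∈ HK M hM ∧ (c.Dg → w ∈ HDeg S r) ∧
      ∀ hc : c.r = r, c.q = q → hbd w - (hpi M hM (Finsupp.single (c.up r hc) 1)
        - h' (hbd (hpi M hM (Finsupp.single (c.up r hc) 1)))) ∈ HDeg S r := by
    intro c
    by_cases hc : c.r = r ∧ c.q = q
    · obtain ⟨hc, hq⟩ := hc
      have hs : (Finsupp.single (c.up r hc) 1 : HCh S r) ∈ HN S r q := single_mem_HN _ _ hq _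
      by_cases hd : c.Dg
      · refine ⟨0, Submodule.zero_mem _, Submodule.zero_mem _, fun _ => Submodule.zero_mem _, fun _ _ => ?_⟩
        have h1 : (Finsupp.single (c.up r hc) 1 : HCh S r) ∈ HDeg S r :=
          single_mem_HDeg (c.up r hc) (c.up_Dg r hc hd) 1
        have h2 := hpi_HDeg M hM _ h1
        have h3 := hdeg _ (hbd_HDeg _ h2)
        rw [map_zero, zero_sub]
        exact Submodule.neg_mem _ (Submodule.sub_mem _ h2 h3)
      · obtain ⟨w, hw, hw1, hw2⟩ := h_exact M hM hzig q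
          (hpi M hM (Finsupp.single (c.up r hc) 1) - h' (hbd (hpi M hM (Finsupp.single (c.up r hc) 1))))
          (Submodule.sub_mem _ (hpi_HN M hM q _ hs) (hN _ hs))
          (Submodule.sub_mem (HK M hM) (hpi_mem_HK M hM _) (hK _)) (hcyc _ hs)
        refine ⟨w, hw, hw1, fun h => absurd h hd, fun _ _ => ?_⟩
        have h3 := Submodule.neg_mem _ hw2
        convert h3 using 1
        abel
    · refine ⟨0, Submodule.zero_mem _, Submodule.zero_mem _, fun _ => Submodule.zero_mem _,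
        fun h1 h2 => absurd ⟨h1, h2⟩ hc⟩
  choose W hW1 hW2 hW3 hW4 using hch
  refine ⟨extW hr W, he, extW_equi hr W, hdeg, ?_, ?_, ?_, ?_⟩
  · intro z hz
    refine map_supported _ _ _ (fun x hx => ?_) z hz
    rw [extW_single]
    exact hact_HDeg _ _ _ (hW3 _ (x.nf_Dg hr hx))
  · intro z _
    refine map_supported _ Set.univ _ (fun x _ => ?_) z
      ((Finsupp.mem_supported ℚ z).2 (Set.subset_univ _))
    rw [extW_single]
    exact hact_HN _ _ _ _ (hW1 _)
  · intro z
    refine map_supported _ Set.univ _ (fun x _ => ?_) z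
      ((Finsupp.mem_supported ℚ z).2 (Set.subset_univ _))
    rw [extW_single]
    exact hact_hcst M hM _ _ _ (hW2 _)
  · intro z hz
    have h1 := map_supported (hbd ∘ₗ extW hr W - (hpi M hM - h' ∘ₗ hbd ∘ₗ hpi M hM))
      {x : Hc S r | x.q = q} (HDeg S r) (fun x hx => ?_) z hz
    · exact h1
    · show hbd (extW hr W (Finsupp.single x 1)) - (hpi M hM (Finsupp.single x 1)
        - h' (hbd (hpi M hM (Finsupp.single x 1)))) ∈ HDeg S r
      have h2 := hact_HDeg (x.y z0) (x.y_mem z0) _ (hW4 (x.nf hr) rfl hx)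
      rw [map_sub, map_sub, hact_hbd, ← extW_single hr W x, hact_hpi, ← he, hact_hbd, hact_hpi,
        hact_single, x.nf_up hr] at h2
      exact h2

theorem exists_contr (hr : 0 < r) (M : P) (hM : M ∈ S.Pn r) (hzig : Zigzag S r M) (q : ℕ) :
    ∃ h' h, ContrAt M hM (S := S) (r := r) q h' h := by
  induction q with
  | zero =>
    refine ⟨0, exists_ext hr M hM hzig 0 0 ?_ ?_ ?_ ?_ ?_⟩
    · intro g hg z
      rw [LinearMap.zero_apply, LinearMap.zero_apply, map_zero]
    · intro z _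
      exact Submodule.zero_mem _
    · intro z _
      exact Submodule.zero_mem _
    · intro z
      exact Submodule.zero_mem _
    · intro z hz
      rw [LinearMap.zero_apply, sub_zero, hbd_zero_deg _ (hpi_HN M hM 0 z hz)]
      exact Submodule.zero_mem _
  | succ q ih =>
    obtain ⟨h', h, hh⟩ := ih
    refine ⟨h, exists_ext hr M hM hzig (q + 1) h hh.equi hh.deg ?_ hh.ker ?_⟩
    · intro z hz
      exact hh.maps _ (hbd_mem_HN q _ (hpi_HN M hM _ z hz))
    · intro z hz
      -- `k = hbd (hpi z)` is in the kernel, of degree `q`, a cycle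
      have hk1 : hbd (hpi M hM z) ∈ HN S r q := hbd_mem_HN q _ (hpi_HN M hM _ z hz)
      have hk2 : hbd (hpi M hM z) ∈ HK M hM := hbd_mem_HK M hM _ (hpi_mem_HK M hM z)
      have h1 := hh.eqn _ hk1
      have h2 := hpi_sub_mem M hM _ hk2
      have h3 := hbd_HDeg _ h2
      rw [map_sub, hbd_hbd, sub_zero] at h3
      have h4 := hh.deg' _ h3
      rw [map_sub]
      have h5 := Submodule.neg_mem _ (Submodule.add_mem _ (Submodule.sub_mem _ h1 h4) h2)
      convert h5 using 1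
      abel

end St16
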