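import Pool.Agent.LibSt16.L3c

/-!
LibSt16/L3d: from the equivariant contraction to `KerExact`.
-/

set_option autoImplicit false

noncomputable section

namespace St16

variable {G P : Type} [Group G] [Preorder P] [MulAction G P] {S : Sys G P} {r : ℕ}

/-- normal form on chains -/
def hnf (hr : 0 < r) : HCh S r →ₗ[ℚ] Ch S := Finsupp.lmapDomain ℚ ℚ fun x => x.nf hr

theorem hnf_single (hr : 0 < r) (x : Hc S r) :
    hnf hr (Finsupp.single x 1) = Finsupp.single (x.nf hr) 1 := by
  rw [hnf, Finsupp.lmapDomain_apply, Finsupp.mapDomain_single]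

theorem bd_single (c : Cb S) : bd (Finsupp.single c 1) = bd1 c := by
  rw [bd, Finsupp.linearCombination_single, one_smul]

theorem hnf_hbd (hr : 0 < r) (z : HCh S r) : hnf hr (hbd z) = bd (hnf hr z) := by
  have h1 : hnf hr ∘ₗ hbd = bd ∘ₗ (hnf hr : HCh S r →ₗ[ℚ] Ch S) := by
    ext x : 2
    show hnf hr (hbd (Finsupp.single x 1)) = bd (hnf hr (Finsupp.single x 1))
    rw [hbd_single, hnf_single, bd_single, hbd1, bd1, map_sum]
    refine Finset.sum_congr rfl fun k hk => ?_
    rw [Finset.mem_range] at hk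
    rw [map_smul, map_sub, hnf_single, hnf_single, Hc.nf_face _ _ _ _ hk, Hc.nf_face _ _ _ _ hk]
  exact LinearMap.congr_fun h1 z

/-- the lift of normal forms of rank `r` (other ranks go to zero) -/
def upr (S : Sys G P) (r : ℕ) : Ch S →ₗ[ℚ] HCh S r :=
  open Classical in
  Finsupp.linearCombination ℚ fun c : Cb S =>
    if h : c.r = r then (Finsupp.single (c.up r h) 1 : HCh S r) else 0

theorem upr_single (c : Cb S) (h : c.r = r) :
    upr S r (Finsupp.single c 1) = Finsupp.single (c.up r h) 1 := by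
  rw [upr, Finsupp.linearCombination_single, one_smul, dif_pos h]

theorem single_mem_DegC (c : Cb S) (h : c.Dg) (a : ℚ) : (Finsupp.single c a : Ch S) ∈ DegC S :=
  Finsupp.single_mem_supported ℚ a h

theorem single_mem_ChN (c : Cb S) (r q : ℕ) (h : c.r = r) (h' : c.q = q) (a : ℚ) :
    (Finsupp.single c a : Ch S) ∈ ChN S r q :=
  Finsupp.single_mem_supported ℚ a ⟨h, h'⟩

theorem hnf_upr (hr : 0 < r) (q : ℕ) (z : Ch S) (hz : z ∈ ChN S r q) : hnf hr (upr S r z) = z := by
  have h1 := map_supported (hnf hr ∘ₗ upr S r - LinearMap.id) {c : Cb S | c.r = r ∧ c.q = q} ⊥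
    (fun c hc => by
      rw [LinearMap.sub_apply, LinearMap.comp_apply, upr_single c hc.1, hnf_single, Cb.up_nf,
        LinearMap.id_apply, sub_self]
      exact Submodule.zero_mem _) z hz
  exact sub_eq_zero.1 ((Submodule.mem_bot ℚ).1 h1)

theorem upr_HN (q : ℕ) (z : Ch S) (hz : z ∈ ChN S r q) : upr S r z ∈ HN S r q :=
  map_supported _ _ _ (fun c hc => by
    rw [upr_single c hc.1]; exact single_mem_HN (c.up r hc.1) q hc.2 1) z hz

theorem upr_HDeg (z : Ch S) (hz : z ∈ DegC S) : upr S r z ∈ HDeg S r :=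
  map_supported _ _ _ (fun c hc => by
    by_cases h : c.r = r
    · rw [upr_single c h]; exact single_mem_HDeg _ (c.up_Dg r h hc) 1
    · rw [upr, Finsupp.linearCombination_single, dif_neg h, smul_zero]
      exact Submodule.zero_mem _) z hz

theorem hnf_DegC (hr : 0 < r) (z : HCh S r) (hz : z ∈ HDeg S r) : hnf hr z ∈ DegC S :=
  map_supported _ _ _ (fun x hx => by
    rw [hnf_single]; exact single_mem_DegC _ (x.nf_Dg hr hx) 1) z hz

theorem hnf_ChN (hr : 0 < r) (q : ℕ) (z : HCh S r) (hz : z ∈ HN S r q) : hnf hr z ∈ ChN S r q :=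
  map_supported _ _ _ (fun x hx => by
    rw [hnf_single]; exact single_mem_ChN (x.nf hr) r q rfl hx 1) z hz

theorem hnf_hact (hr : 0 < r) (g : G) (hg : g ∈ S.Gn r) (z : HCh S r) :
    hnf hr (hact g hg z) = hnf hr z := by
  have h1 : hnf hr ∘ₗ hact g hg = (hnf hr : HCh S r →ₗ[ℚ] Ch S) := by
    ext x : 2
    show hnf hr (hact g hg (Finsupp.single x 1)) = hnf hr (Finsupp.single x 1)
    rw [hact_single, hnf_single, hnf_single, Hc.act_nf]
  exact LinearMap.congr_fun h1 z

/-- an equivariant map followed by the normal form factors through the normal form -/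
theorem equi_factor (hr : 0 < r) (h : HCh S r →ₗ[ℚ] HCh S r) (he : Equi h) (z : HCh S r) :
    hnf hr (h z) = hnf hr (h (upr S r (hnf hr z))) := by
  have h1 : hnf hr ∘ₗ h = (hnf hr ∘ₗ h ∘ₗ upr S r ∘ₗ hnf hr : HCh S r →ₗ[ℚ] Ch S) := by
    ext x : 2
    show hnf hr (h (Finsupp.single x 1)) = hnf hr (h (upr S r (hnf hr (Finsupp.single x 1))))
    rw [hnf_single, upr_single (x.nf hr) (show (x.nf hr).r = r from rfl)]
    have h2 : (Finsupp.single x 1 : HCh S r) =
        hact (x.y z0) (x.y_mem z0) (Finsupp.single ((x.nf hr).up r rfl) 1) := by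
      rw [hact_single, x.nf_up hr]
    rw [h2, he, hnf_hact]
  exact LinearMap.congr_fun h1 z

/-- From the zigzag to the exactness of the kernel of the morphism which forgets the lattices. -/
theorem kerExact_of_zigzag {iP : MulAction G PUnit.{1}} {S' : Sys G PUnit.{1}} (f : SHom S S' 1)
    (hf : ∀ g, f.fG g = g) (hr : 0 < r) (M : P) (hM : M ∈ S.Pn r) (hzig : Zigzag S r M) :
    KerExact f r := by
  classical
  intro q z hz hd hfz
  obtain ⟨h', h, hh⟩ := exists_contr hr M hM hzig q
  -- the lift is in the kernel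
  have hcbq : ∀ c : Cb S, (f.cb c).q = c.q := fun _ => rfl
  have hcby : ∀ (c : Cb S) (s : ℕ → Bool), (f.cb c).y s = c.y s := fun c s => hf _
  have hK : upr S r z ∈ HK M hM := by
    let t : Ch S' →ₗ[ℚ] HCh S r := Finsupp.linearCombination ℚ fun c' : Cb S' =>
      if h : ∀ s, c'.y s ∈ S.Gn r then
        (Finsupp.single (⟨c'.q, c'.y, fun _ => M, c'.y_dep, fun _ _ _ => rfl, h, fun _ => hM,
          fun _ _ _ => le_rfl⟩ : Hc S r) 1 : HCh S r) else 0
    have ht : ∀ c : Cb S, ∀ hc : c.r = r, t (f.ch (Finsupp.single c 1)) =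
        hcst M hM (upr S r (Finsupp.single c 1)) := by
      intro c hc
      rw [upr_single c hc, hcst, hap_single, SHom.ch, Finsupp.lmapDomain_apply,
        Finsupp.mapDomain_single]
      have hm : ∀ s, (f.cb c).y s ∈ S.Gn r := fun s => by
        rw [hcby]; exact hc ▸ c.y_mem s
      show Finsupp.linearCombination ℚ _ (Finsupp.single (f.cb c) 1) = _
      rw [Finsupp.linearCombination_single, one_smul, dif_pos hm]
      congr 1
      exact Hc.ext' _ _ rfl (hcby c) (fun _ => rfl)
    have ht2 : ∀ w ∈ DegC S', t w ∈ HDeg S r := fun w hw => by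
      refine map_supported t _ _ (fun c' hc' => ?_) w hw
      show Finsupp.linearCombination ℚ _ (Finsupp.single c' 1) ∈ _
      rw [Finsupp.linearCombination_single, one_smul]
      split_ifs with h0
      · obtain ⟨k, hk, h1⟩ := hc'
        exact single_mem_HDeg _ ⟨k, hk, fun s s' hs => ⟨(h1 s s' hs).1, rfl⟩⟩ 1
      · exact Submodule.zero_mem _
    have h1 := map_supported (t ∘ₗ f.ch - hcst M hM ∘ₗ upr S r) {c : Cb S | c.r = r ∧ c.q = q} ⊥
      (fun c hc => by
        rw [LinearMap.sub_apply, LinearMap.comp_apply, LinearMap.comp_apply, ht c hc.1, sub_self]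
        exact Submodule.zero_mem _) z hz
    have h2 : t (f.ch z) = hcst M hM (upr S r z) := sub_eq_zero.1 ((Submodule.mem_bot ℚ).1 h1)
    rw [mem_HK, ← h2]
    exact ht2 _ hfz
  have hN : upr S r z ∈ HN S r q := upr_HN q z hz
  refine ⟨hnf hr (h (upr S r z)), hnf_ChN hr _ _ (hh.maps _ hN), ?_, ?_⟩
  · -- the image of an element of the kernel is degenerate
    let t' : HCh S r →ₗ[ℚ] Ch S' := f.ch ∘ₗ hnf hr
    have ht' : ∀ v : HCh S r, t' v = t' (hcst M hM v) := by
      intro v
      have h1 : t' = t' ∘ₗ hcst M hM := by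
        ext x : 2
        show f.ch (hnf hr (Finsupp.single x 1)) = f.ch (hnf hr (hcst M hM (Finsupp.single x 1)))
        rw [hcst, hap_single, hnf_single, hnf_single, SHom.ch, Finsupp.lmapDomain_apply,
          Finsupp.lmapDomain_apply, Finsupp.mapDomain_single, Finsupp.mapDomain_single]
        congr 1
      exact LinearMap.congr_fun h1 v
    have ht2 : ∀ v ∈ HDeg S r, t' v ∈ DegC S' := fun v hv => by
      refine map_supported t' _ _ (fun x hx => ?_) v hv
      show f.ch (hnf hr (Finsupp.single x 1)) ∈ _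
      rw [hnf_single, SHom.ch, Finsupp.lmapDomain_apply, Finsupp.mapDomain_single]
      obtain ⟨k, hk, h1⟩ := x.nf_Dg hr hx
      refine single_mem_DegC (f.cb (x.nf hr)) ⟨k, hk, fun s s' hs => ⟨?_, rfl⟩⟩ 1
      rw [hcby, hcby]
      exact (h1 s s' hs).1
    show t' (h (upr S r z)) ∈ _
    rw [ht']
    exact ht2 _ (hh.ker _)
  · have h1 := hh.eqn _ hN
    have h2 := hpi_sub_mem M hM _ hK
    have h3 := hh.deg' _ (hbd_HDeg _ h2)
    rw [map_sub, map_sub] at h3
    -- total: hbd (h z~) - z~ + h' (hbd z~) is degenerate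
    have h4 : hbd (h (upr S r z)) - upr S r z + h' (hbd (upr S r z)) ∈ HDeg S r := by
      have h5 := Submodule.sub_mem _ (Submodule.add_mem _ h1 h2) h3
      convert h5 using 1
      abel
    have h5 := hnf_DegC hr _ h4
    rw [map_add, map_sub, hnf_hbd, hnf_upr hr q z hz, equi_factor hr h' hh.equi', hnf_hbd,
      hnf_upr hr q z hz] at h5
    have h6 := hnf_DegC hr _ (hh.deg' _ (upr_HDeg _ hd))
    have h7 := Submodule.sub_mem _ h6 h5
    convert h7 using 1
    abel

end St16
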