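import Pool.Agent.LibSt16.Sy
import Pool.Agent.LibSt16.Place

/-!
LibSt16/LA0 (helper33): rotations of coordinate pairs, the lattices Lam a b c.  Definitions only.
Page section 5.  J : e_(2k) -> e_(2k+1), e_(2k+1) -> -e_(2k).
-/

set_option autoImplicit false

noncomputable section

namespace St16

/-- the rotation `α + β J` on the first `c` coordinate pairs, identity on the coordinates `>= 2c` -/
def rotL {B : Type} [CommRing B] (α β : B) (c : ℕ) : Vc B →ₗ[B] Vc B :=
  Finsupp.linearCombination B fun j =>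
    if j < 2 * c then
      (if j % 2 = 0 then α • ee j + β • ee (j + 1) else α • ee j - β • ee (j - 1))
    else ee j

section lam

variable {A L : Type} [CommRing A] [Field L] [Algebra A L]

/-- vectors of `L^(2c)` with `x_(2k) + I x_(2k+1)` in `ϖ^a A` and `x_(2k) - I x_(2k+1)` in `ϖ^b A` for `k < c` -/
def Lam (ϖ : A) (I : L) (a b : ℤ) (c : ℕ) : Submodule A (Vc L) where
  carrier := {x | (∀ i, 2 * c ≤ i → x i = 0) ∧ ∀ k, k < c →
    (∃ u : A, x (2 * k) + I * x (2 * k + 1) = algebraMap A L u * algebraMap A L ϖ ^ a) ∧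
    (∃ v : A, x (2 * k) - I * x (2 * k + 1) = algebraMap A L v * algebraMap A L ϖ ^ b)}
  add_mem' := by
    rintro x y ⟨h1, h2⟩ ⟨h3, h4⟩
    refine ⟨fun i hi => ?_, fun k hk => ?_⟩
    · rw [Finsupp.add_apply, h1 i hi, h3 i hi, add_zero]
    · obtain ⟨⟨u, hu⟩, v, hv⟩ := h2 k hk
      obtain ⟨⟨u', hu'⟩, v', hv'⟩ := h4 k hk
      refine ⟨⟨u + u', ?_⟩, v + v', ?_⟩
      · rw [Finsupp.add_apply, Finsupp.add_apply, (algebraMap A L).map_add, add_mul, ← hu, ← hu']; ring
      · rw [Finsupp.add_apply, Finsupp.add_apply, (algebraMap A L).map_add, add_mul, ← hv, ← hv']; ring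
  zero_mem' := ⟨fun _ _ => rfl, fun _ _ => ⟨⟨0, by simp⟩, 0, by simp⟩⟩
  smul_mem' := by
    rintro r x ⟨h1, h2⟩
    refine ⟨fun i hi => ?_, fun k hk => ?_⟩
    · rw [Finsupp.smul_apply, h1 i hi, smul_zero]
    · obtain ⟨⟨u, hu⟩, v, hv⟩ := h2 k hk
      refine ⟨⟨r * u, ?_⟩, r * v, ?_⟩
      · rw [Finsupp.smul_apply, Finsupp.smul_apply, Algebra.smul_def, Algebra.smul_def, (algebraMap A L).map_mul,
          mul_assoc, ← hu]
        ring
      · rw [Finsupp.smul_apply, Finsupp.smul_apply, Algebra.smul_def, Algebra.smul_def, (algebraMap A L).map_mul,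
          mul_assoc, ← hv]
        ring

/-- the elements of `L` given by a place -/
def Place.I (P : Place L A) : L := algebraMap A L P.i

/-- the element `s` of `L` -/
def Place.S (P : Place L A) : L := algebraMap A L P.s

/-- the inverse of `1 + s^2` in `L` -/
def Place.W (P : Place L A) : L := (1 + P.S ^ 2)⁻¹

end lam

end St16
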