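import Pool.Agent.LibSt16.LA0

/-!
Row [ST16 LA1] (SHORT/MEDIUM). Rotations of coordinate pairs.
Plan: rotL on basis vectors by Finsupp.linearCombination_single; coordinates by Finsupp.induction_linear on x or by
linearity (x = sum of single).  rotL_mul: two linear maps agreeing on every ee j (Finsupp.lhom_ext', LinearMap.ext_ring), cases
j = 2k, j = 2k+1 with k < c, j >= 2c.  rotL_dot: dot (rotL x) (rotL y): enough on basis vectors by bilinearity
(dot_ee_right, dot_comm, dot_add_left, dot_smul_left of SY02), or: dot x y = sum over a large range of x i * y i.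
-/

set_option autoImplicit false

noncomputable section

namespace St16

private theorem rotL_single {B : Type} [CommRing B] (α β : B) (c j : ℕ) (a : B) :
    rotL α β c (Finsupp.single j a) = a • (if j < 2 * c then
      (if j % 2 = 0 then α • ee j + β • ee (j + 1) else α • ee j - β • ee (j - 1)) else ee j) :=
  Finsupp.linearCombination_single B a j

private theorem rotL_ee {B : Type} [CommRing B] (α β : B) (c j : ℕ) :
    rotL α β c (ee j) = if j < 2 * c then
      (if j % 2 = 0 then α • ee j + β • ee (j + 1) else α • ee j - β • ee (j - 1)) else ee j := by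
  unfold ee
  rw [rotL_single, one_smul]
  rfl

private theorem ee_at {B : Type} [CommRing B] (i j : ℕ) : (ee i : Vc B) j = if i = j then 1 else 0 :=
  Finsupp.single_apply

theorem rotL_ee_even {B : Type} [CommRing B] (α β : B) (c k : ℕ) (hk : k < c) :
    rotL α β c (ee (2 * k)) = α • ee (2 * k) + β • ee (2 * k + 1) := by
  rw [rotL_ee, if_pos (by omega), if_pos (by omega)]

theorem rotL_ee_odd {B : Type} [CommRing B] (α β : B) (c k : ℕ) (hk : k < c) :
    rotL α β c (ee (2 * k + 1)) = α • ee (2 * k + 1) - β • ee (2 * k) := by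
  rw [rotL_ee, if_pos (by omega), if_neg (by omega), Nat.add_sub_cancel]

theorem rotL_ee_ge {B : Type} [CommRing B] (α β : B) (c j : ℕ) (hj : 2 * c ≤ j) :
    rotL α β c (ee j) = ee j := by
  rw [rotL_ee, if_neg (by omega)]

/-- a linear map is determined by its coordinates on basis vectors -/
private theorem coord_ext {B : Type} [CommRing B] (F G : Vc B →ₗ[B] B) (h : ∀ j, F (ee j) = G (ee j)) (x : Vc B) :
    F x = G x := by
  have : F = G := by
    apply Finsupp.lhom_ext'
    intro j
    apply LinearMap.ext_ring
    exact h j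
  rw [this]

theorem rotL_even {B : Type} [CommRing B] (α β : B) (c k : ℕ) (hk : k < c) (x : Vc B) :
    (rotL α β c x) (2 * k) = α * x (2 * k) - β * x (2 * k + 1) := by
  refine coord_ext (Finsupp.lapply (2 * k) ∘ₗ rotL α β c)
    (α • Finsupp.lapply (2 * k) - β • Finsupp.lapply (2 * k + 1)) (fun j => ?_) x
  show (rotL α β c (ee j)) (2 * k) = α * (ee j : Vc B) (2 * k) - β * (ee j : Vc B) (2 * k + 1)
  by_cases h1 : j < 2 * c
  · rcases Nat.even_or_odd' j with ⟨m, rfl | rfl⟩
    · rw [rotL_ee_even α β c m (by omega)]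
      simp only [Finsupp.add_apply, Finsupp.smul_apply, ee_at, smul_eq_mul]
      rw [if_neg (show ¬ (2 * m + 1 = 2 * k) by omega), if_neg (show ¬ (2 * m = 2 * k + 1) by omega)]
      ring
    · rw [rotL_ee_odd α β c m (by omega)]
      simp only [Finsupp.sub_apply, Finsupp.smul_apply, ee_at, smul_eq_mul]
      rw [if_neg (show ¬ (2 * m + 1 = 2 * k) by omega)]
      by_cases h2 : m = k
      · rw [if_pos (by omega), if_pos (by omega)]
      · rw [if_neg (by omega), if_neg (by omega)]
  · rw [rotL_ee_ge α β c j (by omega)]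
    simp only [ee_at]
    rw [if_neg (by omega), if_neg (by omega)]
    ring

theorem rotL_odd {B : Type} [CommRing B] (α β : B) (c k : ℕ) (hk : k < c) (x : Vc B) :
    (rotL α β c x) (2 * k + 1) = β * x (2 * k) + α * x (2 * k + 1) := by
  refine coord_ext (Finsupp.lapply (2 * k + 1) ∘ₗ rotL α β c)
    (β • Finsupp.lapply (2 * k) + α • Finsupp.lapply (2 * k + 1)) (fun j => ?_) x
  show (rotL α β c (ee j)) (2 * k + 1) = β * (ee j : Vc B) (2 * k) + α * (ee j : Vc B) (2 * k + 1)
  by_cases h1 : j < 2 * c
  · rcases Nat.even_or_odd' j with ⟨m, rfl | rfl⟩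
    · rw [rotL_ee_even α β c m (by omega)]
      simp only [Finsupp.add_apply, Finsupp.smul_apply, ee_at, smul_eq_mul]
      rw [if_neg (show ¬ (2 * m = 2 * k + 1) by omega)]
      by_cases h2 : m = k
      · rw [if_pos (by omega), if_pos (by omega)]
        ring
      · rw [if_neg (by omega), if_neg (by omega)]
        ring
    · rw [rotL_ee_odd α β c m (by omega)]
      simp only [Finsupp.sub_apply, Finsupp.smul_apply, ee_at, smul_eq_mul]
      rw [if_neg (show ¬ (2 * m + 1 = 2 * k) by omega), if_neg (show ¬ (2 * m = 2 * k + 1) by omega)]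
      ring
  · rw [rotL_ee_ge α β c j (by omega)]
    simp only [ee_at]
    rw [if_neg (by omega), if_neg (by omega)]
    ring

theorem rotL_ge {B : Type} [CommRing B] (α β : B) (c j : ℕ) (hj : 2 * c ≤ j) (x : Vc B) :
    (rotL α β c x) j = x j := by
  refine coord_ext (Finsupp.lapply j ∘ₗ rotL α β c) (Finsupp.lapply j) (fun i => ?_) x
  show (rotL α β c (ee i)) j = (ee i : Vc B) j
  by_cases h1 : i < 2 * c
  · rcases Nat.even_or_odd' i with ⟨m, rfl | rfl⟩
    · rw [rotL_ee_even α β c m (by omega)]
      simp only [Finsupp.add_apply, Finsupp.smul_apply, ee_at, smul_eq_mul]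
      rw [if_neg (by omega), if_neg (by omega)]
      ring
    · rw [rotL_ee_odd α β c m (by omega)]
      simp only [Finsupp.sub_apply, Finsupp.smul_apply, ee_at, smul_eq_mul]
      rw [if_neg (by omega), if_neg (by omega)]
      ring
  · rw [rotL_ee_ge α β c i (by omega)]

theorem rotL_mul {B : Type} [CommRing B] (α β γ δ : B) (c : ℕ) :
    rotL α β c ∘ₗ rotL γ δ c = rotL (α * γ - β * δ) (α * δ + β * γ) c := by
  refine LinearMap.ext fun x => ?_
  apply Finsupp.ext
  intro j
  rw [LinearMap.comp_apply]
  by_cases h1 : j < 2 * c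
  · rcases Nat.even_or_odd' j with ⟨m, rfl | rfl⟩
    · rw [rotL_even _ _ c m (by omega), rotL_even _ _ c m (by omega), rotL_even _ _ c m (by omega),
        rotL_odd _ _ c m (by omega)]
      ring
    · rw [rotL_odd _ _ c m (by omega), rotL_odd _ _ c m (by omega), rotL_odd _ _ c m (by omega),
        rotL_even _ _ c m (by omega)]
      ring
  · rw [rotL_ge _ _ c j (by omega), rotL_ge _ _ c j (by omega), rotL_ge _ _ c j (by omega)]

theorem rotL_one {B : Type} [CommRing B] (c : ℕ) : rotL (1 : B) 0 c = LinearMap.id := by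
  refine LinearMap.ext fun x => ?_
  apply Finsupp.ext
  intro j
  rw [LinearMap.id_apply]
  by_cases h1 : j < 2 * c
  · rcases Nat.even_or_odd' j with ⟨m, rfl | rfl⟩
    · rw [rotL_even _ _ c m (by omega)]
      ring
    · rw [rotL_odd _ _ c m (by omega)]
      ring
  · rw [rotL_ge _ _ c j (by omega)]

/-- the adjoint of a rotation is the inverse rotation -/
private theorem rotL_adj {B : Type} [CommRing B] (α β : B) (c : ℕ) (x y : Vc B) :
    dot (rotL α β c x) y = dot x (rotL α (-β) c y) := by
  rw [dot_comm x]
  -- both sides are linear in `y` and in `x`; check on basis vectors in `y`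
  induction y using Finsupp.induction_linear with
  | zero =>
    rw [dot_comm, map_zero]
    simp [dot]
  | add f g hf hg =>
    rw [dot_comm, dot_add_left, map_add, dot_add_left, dot_comm f, dot_comm g, hf, hg]
  | single j a =>
    have e1 : (Finsupp.single j a : Vc B) = a • ee j := by
      unfold ee
      rw [Finsupp.smul_single, smul_eq_mul, mul_one]
    rw [e1, map_smul, dot_comm, dot_smul_left, dot_smul_left, dot_comm, dot_ee_right]
    congr 1
    by_cases h1 : j < 2 * c
    · rcases Nat.even_or_odd' j with ⟨m, rfl | rfl⟩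
      · rw [rotL_even _ _ c m (by omega), rotL_ee_even _ _ c m (by omega), dot_add_left, dot_smul_left,
          dot_smul_left, dot_comm, dot_ee_right, dot_comm, dot_ee_right]
        ring
      · rw [rotL_odd _ _ c m (by omega), rotL_ee_odd _ _ c m (by omega), sub_eq_add_neg, ← neg_smul,
          dot_add_left, dot_smul_left, dot_smul_left, dot_comm, dot_ee_right, dot_comm, dot_ee_right]
        ring
    · rw [rotL_ge _ _ c j (by omega), rotL_ee_ge _ _ c j (by omega), dot_comm, dot_ee_right]

theorem rotL_dot {B : Type} [CommRing B] (α β : B) (h : α ^ 2 + β ^ 2 = 1) (c : ℕ) (x y : Vc B) :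
    dot (rotL α β c x) (rotL α β c y) = dot x y := by
  rw [rotL_adj, ← LinearMap.comp_apply, rotL_mul]
  have h1 : α * α - -β * β = 1 := by linear_combination h
  have h2 : α * β + -β * α = 0 := by ring
  rw [h1, h2, rotL_one, LinearMap.id_apply]

end St16
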