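import Pool.Agent.LibSt16.LA0

/-!
Row [ST16 LA5] (SHORT/MEDIUM). Units at a place.
Plan: units with a = 2, b = 0 gives v with algebraMap v = 2, so v = 2 (IsFractionRing.injective).  s + i = (s - i) + 2 i: s - i = u π^e is
not a unit (e >= 1, irreducible), 2 i is (i * (-i) = 1); in a local ring unit + nonunit is a unit (IsLocalRing.nonunits_add:
otherwise 2i = (s+i) - (s-i) would be a nonunit).  hW: 1 + s^2 = (s-i)(s+i) is not 0 in L.  Gaussian numbers: z = 0 trivial, else units.
-/

set_option autoImplicit false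

noncomputable section

namespace St16

variable {A L : Type} [CommRing A] [IsDomain A] [IsDiscreteValuationRing A] [Field L] [Algebra A L]
  [IsFractionRing A L] (P : Place L A)

include P in
theorem Place.two_unit : IsUnit (2 : A) := by
  obtain ⟨v, hv⟩ := P.units 2 0 (Or.inl two_ne_zero)
  have h1 : algebraMap A L (v : A) = algebraMap A L (2 : A) := by
    rw [hv, map_ofNat, Rat.cast_zero, zero_mul, add_zero, Rat.cast_ofNat]
  have h2 : (v : A) = 2 := IsFractionRing.injective A L h1
  rw [← h2]
  exact v.isUnit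

private theorem LA5_sub_not_unit : ¬ IsUnit (P.s - P.i) := by
  intro h
  rw [P.es] at h
  have h1 : IsUnit (P.π ^ P.e) := isUnit_of_mul_isUnit_right h
  have h2 : P.e ≠ 0 := by have := P.pos; omega
  exact P.irr.not_isUnit ((isUnit_pow_iff h2).1 h1)

theorem Place.sum_unit : IsUnit (P.s + P.i) := by
  by_contra h
  have hi : IsUnit P.i := by
    refine IsUnit.of_mul_eq_one (-P.i) ?_
    have h3 := P.isq
    linear_combination -h3
  have h2i : IsUnit (2 * P.i) := P.two_unit.mul hi
  have h1 : P.s + P.i ∈ nonunits A := h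
  have h2 : -(P.s - P.i) ∈ nonunits A := by
    intro h4
    exact LA5_sub_not_unit P (neg_neg (P.s - P.i) ▸ h4.neg)
  have h5 := IsLocalRing.nonunits_add h1 h2
  apply h5
  have h6 : P.s + P.i + -(P.s - P.i) = 2 * P.i := by ring
  rw [h6]
  exact h2i

theorem Place.I_sq : P.I ^ 2 = -1 := by
  rw [Place.I, ← map_pow, P.isq, map_neg, map_one]

theorem Place.pi_ne : algebraMap A L P.π ≠ 0 := by
  intro h
  rw [← map_zero (algebraMap A L)] at h
  exact P.irr.ne_zero (IsFractionRing.injective A L h)

theorem Place.hW : P.W * (1 + P.S ^ 2) = 1 := by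
  refine inv_mul_cancel₀ ?_
  intro h
  have h1 : algebraMap A L ((P.s - P.i) * (P.s + P.i)) = 0 := by
    have h2 : (P.s - P.i) * (P.s + P.i) = 1 + P.s ^ 2 := by
      have h3 := P.isq
      linear_combination -h3
    rw [h2, map_add, map_one, map_pow]
    exact h
  rw [← map_zero (algebraMap A L)] at h1
  have h4 := IsFractionRing.injective A L h1
  rcases mul_eq_zero.1 h4 with h5 | h5
  · rw [P.es] at h5
    rcases mul_eq_zero.1 h5 with h6 | h6
    · exact P.u.ne_zero h6
    · exact P.irr.ne_zero ((pow_eq_zero_iff (by have := P.pos; omega)).1 h6)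
  · exact P.sum_unit.ne_zero h5

/-- the Gaussian numbers lie in `A` -/
theorem Place.gauss [Algebra ℚ L] (z : EE) :
    ∃ a : A, algebraMap A L a = algebraMap ℚ L z.re + P.I * algebraMap ℚ L z.im := by
  by_cases h : z.re ≠ 0 ∨ z.im ≠ 0
  · obtain ⟨v, hv⟩ := P.units z.re z.im h
    refine ⟨v, ?_⟩
    rw [hv, eq_ratCast (algebraMap ℚ L) z.re, eq_ratCast (algebraMap ℚ L) z.im, Place.I, mul_comm]
  · have h1 : z.re = 0 := by
      by_contra h2
      exact h (Or.inl h2)
    have h2 : z.im = 0 := by
      by_contra h3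
      exact h (Or.inr h3)
    refine ⟨0, ?_⟩
    rw [h1, h2, map_zero, map_zero, mul_zero, add_zero]

end St16
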