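import Pool.Agent.LibSt16.Ifc

/-!
LibSt16/Main: assembly.  For every odd m the hypothesis of S02212 (i = 1) fails for n = 2m.
-/

set_option autoImplicit false

noncomputable section

namespace St16

/-- the algebraic part, over an arbitrary subring of the reals with a map to `L` -/
theorem main_aux (m : ℕ) (hm : Odd m) (a b : TT) (hab : ∀ j k : ℤ, a ^ j * b ^ k = 1 → j = 0 ∧ k = 0)
    (y : BT sysU) (hy : y ∈ BTN sysU m (2 * m - 1)) (hyD : BD y ∈ DegB sysU)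
    (hyz : detH.bt y - zcl a b m ∈ DegB sysA) (w : BT (sysO ℝ)) (s0 w0 : ℝ) (h0 : w0 * (1 + s0 ^ 2) = 1)
    (hwX : (HtS ℝ s0 w0 h0).Th y - BD w ∈ DegB (sysO ℝ))
    (B : Subalgebra ℚ ℝ) (h1 : s0 ∈ B) (h2 : w0 ∈ B) (wB : BT (sysO B))
    (hwB : (bcH (algebraMap B ℝ)).bt wB = w) (hwBN : wB ∈ BTN (sysO B) (2 * m) (2 * m + 1))
    {L A : Type} [Field L] [CharZero L] [CommRing A] [IsDomain A] [IsDiscreteValuationRing A] [Algebra A L]
    [IsFractionRing A L] (Q : Place L A) (φ : B →+* L) (hφ : algebraMap A L Q.s = φ ⟨s0, h1⟩) : False := by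
  let sB : B := ⟨s0, h1⟩
  let vB : B := ⟨w0, h2⟩
  have hB : vB * (1 + sB ^ 2) = 1 := by
    apply Subtype.ext
    exact h0
  have hBdeg : (HtS B sB vB hB).Th y - BD wB ∈ DegB (sysO B) := by
    apply bt_reflect (i := algebraMap B ℝ) Subtype.coe_injective
    rw [map_sub, SHom.bt_BD, hwB, HtS_bc (algebraMap B ℝ) sB vB hB h0 y]
    exact hwX
  -- over L
  have hL : φ vB * (1 + φ sB ^ 2) = 1 := by
    rw [← map_one φ, ← map_pow, ← map_add, ← map_mul, hB]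
  have hLdeg : (HtS L (φ sB) (φ vB) hL).Th y - BD ((bcH φ).bt wB) ∈ DegB (sysO L) := by
    have := SHom.bt_DegB (bcH φ) _ hBdeg
    rwa [map_sub, SHom.bt_BD, HtS_bc φ sB vB hB hL y] at this
  have hs : Q.S = φ sB := hφ
  have hw' : Q.W = φ vB := by
    show (1 + Q.S ^ 2)⁻¹ = φ vB
    rw [hs]
    exact (eq_inv_of_mul_eq_one_left hL).symm
  have hHt : HtS L Q.S Q.W Q.hW = HtS L (φ sB) (φ vB) hL := by
    congr 1
  have hX3 := Xh_fg Q y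
  rw [hHt] at hX3
  obtain ⟨Fn, hF1, hF2, hF3⟩ := evalF Q m hm a b hab y hy hyD hyz
  have hX1 : Xh Q y ∈ BTN (sysL L Q.π Q.irr) (2 * m) (2 * m) := by
    have := Xh_mem Q m (2 * m - 1) y hy
    rwa [show 2 * m - 1 + 1 = 2 * m by have := hm.pos; omega] at this
  have hX2 := Xh_cycle Q y hyD
  -- lift
  have hwL : (bcH φ).bt wB ∈ BTN (sysO L) (2 * m) (2 * m + 1) := SHom.bt_BTN_one (bcH φ) _ _ wB hwBN
  obtain ⟨wh, hwh, hwhe⟩ := bt_lift (fgL L Q.π Q.irr) (fgL_onto Q.π Q.irr) (2 * m) (2 * m + 1) _ hwL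
  have hker : (fgL L Q.π Q.irr).bt (Xh Q y - BD wh) ∈ DegB (sysO L) := by
    rw [map_sub, SHom.bt_BD, hwhe]
    have := Submodule.add_mem _ hX3 hLdeg
    rwa [sub_add_sub_cancel] at this
  obtain ⟨w', hw1, _, hw2⟩ := L1 (fgL L Q.π Q.irr) (fgL_onto Q.π Q.irr) (fun r hr => L3 Q.π Q.irr r hr)
    (2 * m) (2 * m) (Xh Q y - BD wh) (Submodule.sub_mem _ hX1 (BD_BTN _ _ _ hwh))
    (by rw [map_sub, BD_BD, sub_zero]; exact hX2) hker
  apply hF3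
  have e1 := hF1 _ hw2
  rw [map_sub, map_sub, hF2 _ hwh, hF2 _ hw1] at e1
  simpa using e1

theorem main_odd (m : ℕ) (hm : Odd m) (hV : Van (2 * m - 2)) : False := by
  have hm0 : 0 < m := hm.pos
  obtain ⟨a, b, hab⟩ := exists_indep
  -- the class y
  obtain ⟨y, hy, hyD, hyz⟩ := L1_lift detH detH_onto thmA m (2 * m - 1) (zcl a b m) (z_mem a b m hm0)
    (by rw [BD_z a b m]; exact Submodule.zero_mem _)
  -- the real rotation
  obtain ⟨s0, hs0⟩ : ∃ s : ℝ, Transcendental ℚ s :=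
    ⟨liouvilleNumber (2 : ℕ), fun h => transcendental_liouvilleNumber (m := 2) (le_refl 2)
      ((IsFractionRing.isAlgebraic_iff ℤ ℚ ℝ).mpr h)⟩
  have hpos : (1 : ℝ) + s0 ^ 2 ≠ 0 := by positivity
  have h0 : (1 + s0 ^ 2)⁻¹ * (1 + s0 ^ 2) = 1 := inv_mul_cancel₀ hpos
  have hX : (HtS ℝ s0 _ h0).Th y ∈ BTN (sysO ℝ) (2 * m) (2 * m) := by
    have := HtS_mem ℝ s0 _ h0 m (2 * m - 1) y hy
    rwa [show 2 * m - 1 + 1 = 2 * m by omega] at this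
  obtain ⟨w, hw, hwX⟩ : ∃ w ∈ BTN (sysO ℝ) (2 * m) (2 * m + 1), (HtS ℝ s0 _ h0).Th y - BD w ∈ DegB (sysO ℝ) := by
    have := blockV (2 * m - 2) hV ((HtS ℝ s0 _ h0).Th y)
      (by rw [show 2 * m - 2 + 2 = 2 * m by omega]; exact hX) (HtS_cycle ℝ s0 _ h0 y hyD)
    rwa [show 2 * m - 2 + 2 = 2 * m by omega, show 2 * m - 2 + 3 = 2 * m + 1 by omega] at this
  -- specialisation
  obtain ⟨F, hF⟩ := fin_def w
  classical
  obtain ⟨T, hT1, hT2, hT3⟩ : ∃ T : Finset ℝ, s0 ∈ T ∧ (1 + s0 ^ 2)⁻¹ ∈ T ∧ ∀ x ∈ F, x ∈ T :=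
    ⟨insert s0 (insert ((1 + s0 ^ 2)⁻¹) F), Finset.mem_insert_self _ _,
      Finset.mem_insert_of_mem (Finset.mem_insert_self _ _),
      fun x hx => Finset.mem_insert_of_mem (Finset.mem_insert_of_mem hx)⟩
  obtain ⟨L, iL, iC, A, i1, i2, i3, i4, i5, Q, φ, hφ⟩ := exists_spec T s0 hs0 hT1
  have hsub : ∀ x ∈ T, x ∈ Algebra.adjoin ℚ (T : Set ℝ) := fun x hx =>
    Algebra.subset_adjoin (Finset.mem_coe.mpr hx)
  obtain ⟨wB, hwB, hwBN'⟩ := hF (Algebra.adjoin ℚ (T : Set ℝ)) fun x hx => hsub x (hT3 x hx)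
  exact main_aux m hm a b hab y hy hyD hyz w s0 _ h0 hwX (Algebra.adjoin ℚ (T : Set ℝ)) (hsub s0 hT1)
    (hsub _ hT2) wB hwB (hwBN' _ _ hw) Q φ hφ

end St16
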