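import Pool.Agent.LibSt16.SyA

/-!
Row SY00 (SHORT). OZ = Z[1/p : p = 1 mod 4][i] is closed under the ring operations and conjugation.
Plan: common denominator n m (splitDen is closed under products: a prime dividing n m divides n or m).
-/

set_option autoImplicit false

noncomputable section

namespace St16

private theorem splitDen_one : splitDen 1 :=
  ⟨one_ne_zero, fun _ hp h => absurd (Nat.dvd_one.1 h) hp.ne_one⟩

private theorem splitDen_mul {n m : ℕ} (hn : splitDen n) (hm : splitDen m) : splitDen (n * m) :=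
  ⟨mul_ne_zero hn.1 hm.1, fun p hp h => (hp.dvd_mul.1 h).elim (hn.2 p hp) (hm.2 p hp)⟩

theorem OZ_zero : (0 : EE) ∈ OZ :=
  ⟨1, splitDen_one, 0, 0, by simp, by simp⟩

theorem OZ_one : (1 : EE) ∈ OZ :=
  ⟨1, splitDen_one, 1, 0, by simp [QuadraticAlgebra.re_one], by simp [QuadraticAlgebra.im_one]⟩

theorem OZ_add (x y : EE) (hx : x ∈ OZ) (hy : y ∈ OZ) : x + y ∈ OZ := by
  obtain ⟨n, hn, a, b, ha, hb⟩ := hx
  obtain ⟨m, hm, c, d, hc, hd⟩ := hy
  refine ⟨n * m, splitDen_mul hn hm, m * a + n * c, m * b + n * d, ?_, ?_⟩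
  · rw [QuadraticAlgebra.re_add]; push_cast; rw [← ha, ← hc]; ring
  · rw [QuadraticAlgebra.im_add]; push_cast; rw [← hb, ← hd]; ring

theorem OZ_mul (x y : EE) (hx : x ∈ OZ) (hy : y ∈ OZ) : x * y ∈ OZ := by
  obtain ⟨n, hn, a, b, ha, hb⟩ := hx
  obtain ⟨m, hm, c, d, hc, hd⟩ := hy
  refine ⟨n * m, splitDen_mul hn hm, a * c - b * d, a * d + b * c, ?_, ?_⟩
  · rw [QuadraticAlgebra.re_mul]; push_cast; rw [← ha, ← hc, ← hb, ← hd]; ring
  · rw [QuadraticAlgebra.im_mul]; push_cast; rw [← ha, ← hc, ← hb, ← hd]; ring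

theorem OZ_neg (x : EE) (hx : x ∈ OZ) : -x ∈ OZ := by
  obtain ⟨n, hn, a, b, ha, hb⟩ := hx
  refine ⟨n, hn, -a, -b, ?_, ?_⟩
  · rw [QuadraticAlgebra.re_neg]; push_cast; rw [← ha]; ring
  · rw [QuadraticAlgebra.im_neg]; push_cast; rw [← hb]; ring

theorem OZ_star (x : EE) (hx : x ∈ OZ) : star x ∈ OZ := by
  obtain ⟨n, hn, a, b, ha, hb⟩ := hx
  refine ⟨n, hn, a, -b, ?_, ?_⟩
  · rw [QuadraticAlgebra.re_star]; rw [← ha]; ring
  · rw [QuadraticAlgebra.im_star]; push_cast; rw [← hb]; ring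

theorem OZ_sum {ι : Type} (s : Finset ι) (f : ι → EE) (hf : ∀ i ∈ s, f i ∈ OZ) : ∑ i ∈ s, f i ∈ OZ := by
  classical
  induction s using Finset.induction_on with
  | empty => rw [Finset.sum_empty]; exact OZ_zero
  | insert a s ha ih =>
    rw [Finset.sum_insert ha]
    exact OZ_add _ _ (hf a (Finset.mem_insert_self a s))
      (ih fun i hi => hf i (Finset.mem_insert_of_mem hi))

end St16
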