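import Pool.Agent.LibSt16.SY01

/-!
Row SY02 (SHORT/MEDIUM). Orthogonal groups: block sums and commutation.
Plan: dot is symmetric bilinear, dot (ee i) (ee j) = if i = j then 1 else 0, dot x (ee j) = x j; dot (shV n x) (shV n y) = dot x y,
dot (shV n x) y = 0 if y is supported below n.  For g in On n and i < n <= j: (g e_i)_j = dot (g e_i) (e_j) = dot (g e_i) (g e_j) = 0,
so g e_i is supported below n.  On_mul: x = low + high, both factors preserve dot.  On_comm: au_ext, cases i < n or i = n + i'.
-/

set_option autoImplicit false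

noncomputable section

namespace St16

theorem dot_ee_right {B : Type} [CommRing B] (x : Vc B) (j : ℕ) : dot x (ee j) = x j := by
  classical
  unfold dot ee
  rw [Finsupp.sum, Finset.sum_eq_single j]
  · rw [Finsupp.single_eq_same, mul_one]
  · intro b _ hb
    rw [Finsupp.single_apply, if_neg (Ne.symm hb), mul_zero]
  · intro hj
    rw [Finsupp.notMem_support_iff.mp hj, zero_mul]

theorem dot_comm {B : Type} [CommRing B] (x y : Vc B) : dot x y = dot y x := by
  classical
  have h : ∀ u v : Vc B, dot u v = ∑ i ∈ u.support ∪ v.support, u i * v i := by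
    intro u v
    unfold dot
    rw [Finsupp.sum]
    refine Finset.sum_subset Finset.subset_union_left ?_
    intro i _ hi
    rw [Finsupp.notMem_support_iff.mp hi, zero_mul]
  rw [h x y, h y x, Finset.union_comm]
  exact Finset.sum_congr rfl fun i _ => mul_comm _ _

theorem dot_add_left {B : Type} [CommRing B] (x y z : Vc B) : dot (x + y) z = dot x z + dot y z := by
  unfold dot
  rw [Finsupp.sum_add_index' (fun i => zero_mul _) (fun i b₁ b₂ => add_mul _ _ _)]

theorem dot_smul_left {B : Type} [CommRing B] (a : B) (x z : Vc B) : dot (a • x) z = a * dot x z := by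
  unfold dot
  rw [Finsupp.sum_smul_index' (fun i => zero_mul _), Finsupp.mul_sum]
  exact Finsupp.sum_congr fun i _ => by rw [smul_eq_mul, mul_assoc]

private theorem dot_add_right' {B : Type} [CommRing B] (x y z : Vc B) :
    dot x (y + z) = dot x y + dot x z := by
  rw [dot_comm x (y + z), dot_add_left, dot_comm y x, dot_comm z x]

private theorem shV_at {B : Type} [CommRing B] (n : ℕ) (x : Vc B) (i : ℕ) : (shV n x) (n + i) = x i :=
  Finsupp.mapDomain_apply (fun _ _ h => Nat.add_left_cancel h) x i

private theorem dot_shV_left {B : Type} [CommRing B] (n : ℕ) (x y : Vc B) :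
    dot (shV n x) y = x.sum fun i a => a * y (n + i) := by
  unfold dot
  show (Finsupp.mapDomain (fun i => n + i) x).sum (fun i a => a * y i) = _
  rw [Finsupp.sum_mapDomain_index (fun i => zero_mul _) (fun i b₁ b₂ => add_mul _ _ _)]

theorem dot_shV {B : Type} [CommRing B] (n : ℕ) (x y : Vc B) : dot (shV n x) (shV n y) = dot x y := by
  rw [dot_shV_left]
  unfold dot
  exact Finsupp.sum_congr fun i _ => by rw [shV_at]

theorem dot_shV_low {B : Type} [CommRing B] (n : ℕ) (x y : Vc B) (hy : ∀ i, n ≤ i → y i = 0) :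
    dot (shV n x) y = 0 := by
  rw [dot_shV_left, Finsupp.sum]
  exact Finset.sum_eq_zero fun i _ => by rw [hy (n + i) (Nat.le_add_right n i), mul_zero]

/-- an element of `On n` maps the first `n` coordinates to the first `n` coordinates -/
theorem On_low {B : Type} [CommRing B] (n : ℕ) (g : Au B) (hg : g ∈ On B n) (x : Vc B)
    (hx : ∀ i, n ≤ i → x i = 0) : ∀ i, n ≤ i → (g x) i = 0 := by
  intro i hi
  obtain ⟨h1, h2⟩ := hg
  rw [← dot_ee_right (g x) i]
  have h3 : dot (g x) (g (ee i)) = dot x (ee i) := h1 x (ee i)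
  rw [h2 i hi] at h3
  rw [h3, dot_ee_right, hx i hi]

private theorem unV_low {B : Type} [CommRing B] (n : ℕ) (y : Vc B) (hy : ∀ i, n ≤ i → y i = 0) :
    unV n y = 0 := by
  ext i
  show y (n + i) = 0
  exact hy (n + i) (Nat.le_add_right n i)

private theorem low_part {B : Type} [CommRing B] (n : ℕ) (x : Vc B) :
    ∀ i, n ≤ i → (x - shV n (unV n x)) i = 0 := by
  intro i hi
  obtain ⟨k, rfl⟩ := Nat.exists_eq_add_of_le hi
  rw [Finsupp.sub_apply, shV_at]
  show x (n + k) - x (n + k) = 0
  rw [sub_self]

private theorem dot_split {B : Type} [CommRing B] (n : ℕ) (a b c d : Vc B)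
    (ha : ∀ i, n ≤ i → a i = 0) (hc : ∀ i, n ≤ i → c i = 0) :
    dot (a + shV n b) (c + shV n d) = dot a c + dot b d := by
  rw [dot_add_left, dot_add_right', dot_add_right', dot_shV, dot_shV_low n b c hc,
    dot_comm a (shV n d), dot_shV_low n d a ha]
  ring

private theorem shA_dot {B : Type} [CommRing B] (n : ℕ) (h : Au B)
    (hh : ∀ x y, dot (h x) (h y) = dot x y) (x y : Vc B) :
    dot (shA n h x) (shA n h y) = dot x y := by
  rw [shA_apply, shA_apply, dot_split n _ _ _ _ (low_part n x) (low_part n y), hh,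
    ← dot_split n _ _ _ _ (low_part n x) (low_part n y), sub_add_cancel, sub_add_cancel]

private theorem On_shV {B : Type} [CommRing B] (n : ℕ) (g : Au B) (hg : g ∈ On B n) (z : Vc B) :
    g (shV n z) = shV n z := by
  induction z using Finsupp.induction_linear with
  | zero => rw [map_zero, map_zero]
  | add u v hu hv => rw [map_add, map_add, hu, hv]
  | single i a =>
    have h1 : (Finsupp.single i a : Vc B) = a • ee i := by
      unfold ee
      rw [Finsupp.smul_single, smul_eq_mul, mul_one]
    rw [h1, map_smul, map_smul, shV_ee, hg.2 (n + i) (Nat.le_add_right n i)]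

theorem On_mul (B : Type) [CommRing B] (n m : ℕ) (g h : Au B) (hg : g ∈ On B n) (hh : h ∈ On B m) :
    g * shA n h ∈ On B (n + m) := by
  refine ⟨fun x y => ?_, fun i hi => ?_⟩
  · show dot (g (shA n h x)) (g (shA n h y)) = dot x y
    rw [hg.1, shA_dot n h hh.1]
  · show g (shA n h (ee i)) = ee i
    obtain ⟨k, rfl⟩ := Nat.exists_eq_add_of_le (le_trans (Nat.le_add_right n m) hi)
    have hk : m ≤ k := by omega
    rw [shA_ee_ge, hh.2 k hk, shV_ee, hg.2 (n + k) (Nat.le_add_right n k)]

theorem On_comm (B : Type) [CommRing B] (n : ℕ) (g h : Au B) (hg : g ∈ On B n) :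
    g * shA n h = shA n h * g := by
  refine au_ext _ _ fun i => ?_
  show g (shA n h (ee i)) = shA n h (g (ee i))
  by_cases hi : i < n
  · rw [shA_ee_lt n h i hi]
    have hlow : ∀ j, n ≤ j → (g (ee i)) j = 0 := by
      refine On_low n g hg (ee i) ?_
      intro j hj
      unfold ee
      rw [Finsupp.single_apply, if_neg (by omega)]
    rw [shA_apply, unV_low n _ hlow, map_zero, map_zero, map_zero, sub_zero, add_zero]
  · obtain ⟨k, rfl⟩ := Nat.exists_eq_add_of_le (Nat.le_of_not_lt hi)
    rw [hg.2 (n + k) (Nat.le_add_right n k), shA_ee_ge, On_shV n g hg]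

end St16
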