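import Pool.Agent.LibSt16.SY03

/-!
Row SY04 (SHORT/MEDIUM). Unitary groups: block sums and commutation (as On_mul, On_comm in SY02).
Entries of g * shA n h: for j < n the column is g e_j; for j = n + j' it is shV n (h e_j') (g fixes the coordinates >= n).
-/

set_option autoImplicit false

noncomputable section

namespace St16

private theorem SY04_addl (x y z : Vc EE) : hdot (x + y) z = hdot x z + hdot y z := by
  unfold hdot
  exact Finsupp.sum_add_index' (fun i => zero_mul _) (fun i b₁ b₂ => add_mul _ _ _)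

private theorem SY04_addr (x y z : Vc EE) : hdot x (y + z) = hdot x y + hdot x z := by
  unfold hdot
  rw [← Finsupp.sum_add]
  refine Finsupp.sum_congr fun i _ => ?_
  rw [Finsupp.add_apply, star_add, mul_add]

private theorem SY04_shV_apply (n : ℕ) (x : Vc EE) (i : ℕ) : (shV n x) (n + i) = x i := by
  show (Finsupp.mapDomain (fun i => n + i) x) (n + i) = x i
  exact Finsupp.mapDomain_apply (fun _ _ h => Nat.add_left_cancel h) x i

private theorem SY04_shV_lt (n : ℕ) (x : Vc EE) (i : ℕ) (hi : i < n) : (shV n x) i = 0 := by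
  show (Finsupp.mapDomain (fun i => n + i) x) i = 0
  apply Finsupp.mapDomain_notin_range
  rintro ⟨j, hj⟩
  simp only at hj
  omega

private theorem SY04_sum (n : ℕ) (x : Vc EE) (y : Vc EE) :
    hdot (shV n x) y = x.sum fun i a => a * star (y (n + i)) := by
  unfold hdot
  show (Finsupp.mapDomain (fun i => n + i) x).sum _ = _
  exact Finsupp.sum_mapDomain_index (fun i => zero_mul _) (fun i b₁ b₂ => add_mul _ _ _)

private theorem SY04_sh (n : ℕ) (x y : Vc EE) : hdot (shV n x) (shV n y) = hdot x y := by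
  rw [SY04_sum]
  unfold hdot
  refine Finsupp.sum_congr fun i _ => ?_
  rw [SY04_shV_apply]

private theorem SY04_low1 (n : ℕ) (x y : Vc EE) (hy : ∀ i, n ≤ i → y i = 0) : hdot (shV n x) y = 0 := by
  rw [SY04_sum]
  refine Finset.sum_eq_zero fun i _ => ?_
  show x i * star (y (n + i)) = 0
  rw [hy _ (Nat.le_add_right n i), star_zero, mul_zero]

private theorem SY04_low2 (n : ℕ) (x y : Vc EE) (hy : ∀ i, n ≤ i → y i = 0) : hdot y (shV n x) = 0 := by
  unfold hdot
  refine Finset.sum_eq_zero fun i _ => ?_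
  show y i * star ((shV n x) i) = 0
  by_cases hi : n ≤ i
  · rw [hy i hi, zero_mul]
  · rw [SY04_shV_lt n x i (by omega), star_zero, mul_zero]

private theorem SY04_unlow (n : ℕ) (x : Vc EE) (i : ℕ) (hi : n ≤ i) : (x - shV n (unV n x)) i = 0 := by
  obtain ⟨j, rfl⟩ := Nat.exists_eq_add_of_le hi
  rw [Finsupp.sub_apply, SY04_shV_apply]
  show x (n + j) - x (n + j) = 0
  exact sub_self _

private theorem SY04_shA_pres (n : ℕ) (h : Au EE) (hh : ∀ x y, hdot (h x) (h y) = hdot x y) (x y : Vc EE) :
    hdot (shA n h x) (shA n h y) = hdot x y := by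
  have hx : x = (x - shV n (unV n x)) + shV n (unV n x) := by abel
  have hy : y = (y - shV n (unV n y)) + shV n (unV n y) := by abel
  rw [shA_apply, shA_apply]
  conv_rhs => rw [hx, hy]
  rw [SY04_addl, SY04_addr, SY04_addr, SY04_addl, SY04_addr, SY04_addr, SY04_sh, SY04_sh, hh,
    SY04_low1 n _ _ (SY04_unlow n y), SY04_low1 n _ _ (SY04_unlow n y), SY04_low2 n _ _ (SY04_unlow n x),
    SY04_low2 n _ _ (SY04_unlow n x)]

private theorem SY04_fix (n : ℕ) (g : Au EE) (hg : ∀ i, n ≤ i → g (ee i) = ee i) (x : Vc EE) :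
    g (shV n x) = shV n x := by
  have h1 : g.toLinearMap ∘ₗ shV n = shV n := by
    apply Finsupp.lhom_ext'
    intro i
    apply LinearMap.ext_ring
    show g (shV n (ee i)) = shV n (ee i)
    rw [shV_ee, hg _ (Nat.le_add_right n i)]
  exact LinearMap.congr_fun h1 x

private theorem SY04_lowfix (n : ℕ) (h : Au EE) (x : Vc EE) (hx : ∀ i, n ≤ i → x i = 0) : shA n h x = x := by
  have h1 : unV n x = 0 := by
    ext1 i
    show x (n + i) = 0
    exact hx _ (Nat.le_add_right n i)
  rw [shA_apply, h1, map_zero, map_zero, map_zero, sub_zero, add_zero]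

theorem IsU_bs (n m : ℕ) (g h : Au EE) (hg : IsU n g) (hh : IsU m h) : IsU (n + m) (g * shA n h) := by
  refine ⟨fun x y => ?_, fun i hi => ?_, fun i j => ?_⟩
  · show hdot (g (shA n h x)) (g (shA n h y)) = hdot x y
    rw [hg.1, SY04_shA_pres n h hh.1]
  · show g (shA n h (ee i)) = ee i
    obtain ⟨k, rfl⟩ := Nat.exists_eq_add_of_le (show n ≤ i by omega)
    rw [shA_ee_ge, hh.2.1 k (by omega), SY04_fix n g hg.2.1, shV_ee]
  · show g (shA n h (ee j)) i ∈ OZ
    by_cases hj : j < n
    · rw [shA_ee_lt n h j hj]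
      exact hg.2.2 i j
    · obtain ⟨k, rfl⟩ := Nat.exists_eq_add_of_le (show n ≤ j by omega)
      rw [shA_ee_ge, SY04_fix n g hg.2.1]
      by_cases hi : i < n
      · rw [SY04_shV_lt n _ i hi]
        exact OZ_zero
      · obtain ⟨l, rfl⟩ := Nat.exists_eq_add_of_le (show n ≤ i by omega)
        rw [SY04_shV_apply]
        exact hh.2.2 l k

theorem IsU_comm (n : ℕ) (g h : Au EE) (hg : IsU n g) : g * shA n h = shA n h * g := by
  apply au_ext
  intro i
  show g (shA n h (ee i)) = shA n h (g (ee i))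
  by_cases hi : i < n
  · rw [shA_ee_lt n h i hi, SY04_lowfix n h (g (ee i))]
    apply IsU_low n g hg
    intro j hj
    unfold ee
    exact Finsupp.single_eq_of_ne (by omega)
  · obtain ⟨k, rfl⟩ := Nat.exists_eq_add_of_le (show n ≤ i by omega)
    rw [hg.2.1 (n + k) (Nat.le_add_right n k), shA_ee_ge, SY04_fix n g hg.2.1]

end St16
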