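import Pool.Agent.LibSt16.SY03

/-!
Row SY05 (MEDIUM). The determinant does not depend on the size; it is a norm one element.
Plan: for g of rank c, mat (c+1) g is block diagonal (mat c g, 1): Matrix.det_succ... or det_fromBlocks_zero after reindexing
Fin (c+1) = Fin c + 1 (Fin.castSucc, Fin.last; Matrix.det_succ_row or Matrix.det_succ_column at the last index: the only nonzero entry is 1);
so det (mat c' g) = det (mat c g) for c <= c' (both of rank c and c').  mat c g is unitary: (mat c g)^H * mat c g = 1 from hdot, hence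
star det * det = 1 (Matrix.det_conjTranspose), mem_unitary.  Then detT g = det (mat c g) for every c with IsU c g.
-/

set_option autoImplicit false

noncomputable section

namespace St16

private theorem SY05_sum (c : ℕ) (x : Vc EE) (hx : ∀ i, c ≤ i → x i = 0) (f : ℕ → EE → EE)
    (hf : ∀ i, f i 0 = 0) : (x.sum f) = ∑ k : Fin c, f k (x k) := by
  rw [Finsupp.sum_of_support_subset x (s := Finset.range c) ?_ f (fun i _ => hf i),
    Finset.sum_range]
  intro i hi
  rw [Finset.mem_range]
  by_contra h
  exact (Finsupp.mem_support_iff.1 hi) (hx i (by omega))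

private theorem SY05_ee_low (c : ℕ) (j : Fin c) : ∀ i, c ≤ i → (ee (j : ℕ) : Vc EE) i = 0 := by
  intro i hi
  unfold ee
  rw [Finsupp.single_apply, if_neg]
  have := j.2
  omega

theorem mat_unitary (c : ℕ) (g : Au EE) (hg : IsU c g) : (mat c g).conjTranspose * mat c g = 1 := by
  refine Matrix.ext fun i j => ?_
  rw [Matrix.mul_apply]
  have h1 : hdot (g (ee (j : ℕ))) (g (ee (i : ℕ))) = ∑ k : Fin c, (g (ee (j : ℕ))) k *
      star ((g (ee (i : ℕ))) k) := by
    unfold hdot
    exact SY05_sum c _ (IsU_low c g hg _ (SY05_ee_low c j)) _ (fun i => zero_mul _)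
  have h2 : hdot (g (ee (j : ℕ))) (g (ee (i : ℕ))) = (ee (j : ℕ) : Vc EE) i := by
    rw [hg.1, hdot_ee_right]
  have h3 : (∑ k : Fin c, (mat c g).conjTranspose i k * mat c g k j) =
      ∑ k : Fin c, (g (ee (j : ℕ))) k * star ((g (ee (i : ℕ))) k) := by
    refine Finset.sum_congr rfl fun k _ => ?_
    rw [Matrix.conjTranspose_apply]
    unfold mat
    rw [Matrix.of_apply, Matrix.of_apply, mul_comm]
  rw [h3, ← h1, h2]
  unfold ee
  rw [Finsupp.single_apply, Matrix.one_apply]
  by_cases hij : i = j
  · subst hij; simp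
  · rw [if_neg hij, if_neg]
    intro h
    exact hij (Fin.ext h.symm)

theorem mat_mul (c : ℕ) (g h : Au EE) (hg : IsU c g) (hh : IsU c h) : mat c (g * h) = mat c g * mat c h := by
  refine Matrix.ext fun i j => ?_
  rw [Matrix.mul_apply]
  unfold mat
  simp only [Matrix.of_apply]
  have h1 : h (ee (j : ℕ)) = ∑ k : Fin c, (h (ee (j : ℕ))) k • (ee (k : ℕ) : Vc EE) := by
    have h2 := IsU_low c h hh _ (SY05_ee_low c j)
    ext1 m
    rw [Finsupp.finsetSum_apply]
    by_cases hm : m < c
    · rw [Finset.sum_eq_single (⟨m, hm⟩ : Fin c)]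
      · simp [ee]
      · intro b _ hb
        have hbm : (b : ℕ) ≠ m := fun h => hb (Fin.ext h)
        simp [ee, hbm]
      · intro h; exact absurd (Finset.mem_univ _) h
    · rw [h2 m (by omega)]
      symm
      refine Finset.sum_eq_zero fun k _ => ?_
      have hkm : (k : ℕ) ≠ m := by
        have := k.2
        omega
      simp [ee, hkm]
  show (g (h (ee (j : ℕ)))) (i : ℕ) = _
  rw [h1, map_sum, Finsupp.finsetSum_apply]
  refine Finset.sum_congr rfl fun k _ => ?_
  rw [← h1, map_smul, Finsupp.smul_apply, smul_eq_mul, mul_comm]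

private theorem SY05_step (c : ℕ) (g : Au EE) (hg : g (ee c) = ee c) :
    (mat (c + 1) g).det = (mat c g).det := by
  rw [Matrix.det_succ_column (mat (c + 1) g) (Fin.last c), Finset.sum_eq_single (Fin.last c)]
  · have h1 : (mat (c + 1) g) (Fin.last c) (Fin.last c) = 1 := by
      unfold mat
      rw [Matrix.of_apply, Fin.val_last, hg]
      unfold ee
      rw [Finsupp.single_eq_same]
    have h2 : (mat (c + 1) g).submatrix (Fin.last c).succAbove (Fin.last c).succAbove = mat c g := by
      refine Matrix.ext fun i j => ?_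
      unfold mat
      rw [Matrix.submatrix_apply, Matrix.of_apply, Matrix.of_apply, Fin.succAbove_last,
        Fin.val_castSucc, Fin.val_castSucc]
    rw [h1, h2, Fin.val_last, ← two_mul, pow_mul, neg_one_sq, one_pow, one_mul, one_mul]
  · intro b _ hb
    have h1 : (mat (c + 1) g) b (Fin.last c) = 0 := by
      unfold mat
      rw [Matrix.of_apply, Fin.val_last, hg]
      unfold ee
      rw [Finsupp.single_apply, if_neg]
      intro h
      exact hb (Fin.ext (by rw [Fin.val_last]; exact h.symm))
    rw [h1, mul_zero, zero_mul]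
  · intro h; exact absurd (Finset.mem_univ _) h

private theorem SY05_le (c d : ℕ) (g : Au EE) (hg : IsU c g) :
    (mat (c + d) g).det = (mat c g).det := by
  induction d with
  | zero => rfl
  | succ d ih =>
    rw [← ih, ← add_assoc]
    exact SY05_step (c + d) g (hg.2.1 _ (Nat.le_add_right _ _))

private theorem SY05_det_unitary (c : ℕ) (g : Au EE) (hg : IsU c g) :
    (mat c g).det ∈ unitary EE := by
  have h1 := congrArg Matrix.det (mat_unitary c g hg)
  rw [Matrix.det_mul, Matrix.det_conjTranspose, Matrix.det_one] at h1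
  exact Unitary.mem_iff.2 ⟨h1, by rw [mul_comm]; exact h1⟩

theorem detT_eq (c : ℕ) (g : Au EE) (hg : IsU c g) : ((detT g : TT) : EE) = (mat c g).det := by
  classical
  have h : ∃ c, IsU c g := ⟨c, hg⟩
  unfold detT
  rw [dif_pos h]
  have h1 := Nat.find_spec h
  rw [dif_pos (SY05_det_unitary _ g h1)]
  have h2 : Nat.find h ≤ c := Nat.find_min' h hg
  obtain ⟨d, hd⟩ := Nat.exists_eq_add_of_le h2
  have h3 := SY05_le (Nat.find h) d g h1
  rw [← hd] at h3
  exact h3.symm

end St16
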