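import Pool.Agent.LibSt16.SY04
import Pool.Agent.LibSt16.SY05

/-!
Row SY06 (MEDIUM). The determinant is multiplicative for products and block sums.
Plan: detT_eq, mat_mul, Matrix.det_mul; mat (n+m) (g * shA n h) is the block diagonal matrix (Matrix.fromBlocks reindexed by
finSumFinEquiv), Matrix.det_fromBlocks_zero₂₁ / det_reindex_self.
-/

set_option autoImplicit false

noncomputable section

namespace St16

private theorem SY06_shV_ge {B : Type} [CommRing B] (n i : ℕ) (x : Vc B) : (shV n x) (n + i) = x i :=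
  Finsupp.mapDomain_apply (f := fun i => n + i) (fun _ _ h => Nat.add_left_cancel h) x i

private theorem SY06_shV_lt {B : Type} [CommRing B] (n i : ℕ) (hi : i < n) (x : Vc B) :
    (shV n x) i = 0 :=
  Finsupp.mapDomain_of_notMem_range (f := fun i => n + i) x i (by rintro ⟨k, hk⟩; simp only at hk; omega)

private theorem SY06_mat (n m : ℕ) (h : Au EE) :
    (mat (n + m) (shA n h)).submatrix finSumFinEquiv finSumFinEquiv =
      Matrix.fromBlocks (1 : Matrix (Fin n) (Fin n) EE) 0 0 (mat m h) := by
  refine Matrix.ext fun i j => ?_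
  rcases i with i | i <;> rcases j with j | j
  · simp only [Matrix.submatrix_apply, finSumFinEquiv_apply_left, Matrix.fromBlocks_apply₁₁]
    show (shA n h (ee ((Fin.castAdd m j : Fin (n + m)) : ℕ))) ((Fin.castAdd m i : Fin (n + m)) : ℕ) = _
    rw [Fin.val_castAdd, Fin.val_castAdd, shA_ee_lt n h j j.2, ee, Matrix.one_apply]
    by_cases hij : i = j
    · subst hij
      simp
    · rw [if_neg hij, Finsupp.single_eq_of_ne]
      exact fun h => hij (Fin.ext h)
  · simp only [Matrix.submatrix_apply, finSumFinEquiv_apply_left, finSumFinEquiv_apply_right,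
      Matrix.fromBlocks_apply₁₂]
    show (shA n h (ee ((Fin.natAdd n j : Fin (n + m)) : ℕ))) ((Fin.castAdd m i : Fin (n + m)) : ℕ) = _
    rw [Fin.val_castAdd, Fin.val_natAdd, shA_ee_ge, SY06_shV_lt n i i.2]
    rfl
  · simp only [Matrix.submatrix_apply, finSumFinEquiv_apply_left, finSumFinEquiv_apply_right,
      Matrix.fromBlocks_apply₂₁]
    show (shA n h (ee ((Fin.castAdd m j : Fin (n + m)) : ℕ))) ((Fin.natAdd n i : Fin (n + m)) : ℕ) = _
    rw [Fin.val_castAdd, Fin.val_natAdd, shA_ee_lt n h j j.2, ee, Matrix.zero_apply,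
      Finsupp.single_eq_of_ne]
    have := j.2
    omega
  · simp only [Matrix.submatrix_apply, finSumFinEquiv_apply_right, Matrix.fromBlocks_apply₂₂]
    show (shA n h (ee ((Fin.natAdd n j : Fin (n + m)) : ℕ))) ((Fin.natAdd n i : Fin (n + m)) : ℕ) = _
    rw [Fin.val_natAdd, Fin.val_natAdd, shA_ee_ge, SY06_shV_ge]
    rfl

theorem detT_one : detT 1 = 1 := by
  apply Subtype.ext
  rw [detT_eq 0 1 (IsU_one 0), Matrix.det_isEmpty]
  rfl

theorem detT_mul (n : ℕ) (g h : Au EE) (hg : IsU n g) (hh : IsU n h) : detT (g * h) = detT g * detT h := by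
  apply Subtype.ext
  rw [detT_eq n (g * h) (IsU_mul n g h hg hh), mat_mul n g h hg hh, Matrix.det_mul]
  show _ = ((detT g : TT) : EE) * ((detT h : TT) : EE)
  rw [detT_eq n g hg, detT_eq n h hh]

theorem detT_sh (n m : ℕ) (g h : Au EE) (hg : IsU n g) (hh : IsU m h) :
    detT (g * shA n h) = detT g * detT h := by
  have hs : IsU (n + m) (shA n h) := by
    have := IsU_bs n m 1 h (IsU_one n) hh
    rwa [one_mul] at this
  rw [detT_mul (n + m) g (shA n h) (IsU_mono n (n + m) (Nat.le_add_right n m) g hg) hs]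
  congr 1
  apply Subtype.ext
  rw [detT_eq (n + m) (shA n h) hs, detT_eq m h hh,
    ← Matrix.det_submatrix_equiv_self finSumFinEquiv (mat (n + m) (shA n h)), SY06_mat,
    Matrix.det_fromBlocks_zero₂₁, Matrix.det_one, one_mul]

end St16
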