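import Pool.Agent.LibSt16.Defs

/-!
LibSt16/SyA: raw definitions of the concrete systems (orthogonal groups over a commutative ring, unitary groups over Q(i) with
denominators prime to 2 and to the primes 3 mod 4, the abelian system, orthogonal groups with lattices).
-/

set_option autoImplicit false

noncomputable section

namespace St16

/-! ### vectors, automorphisms, shifts -/

section vec

variable (B : Type) [CommRing B]

/-- finitely supported vectors -/
abbrev Vc := ℕ →₀ B

/-- automorphisms -/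
abbrev Au := Vc B ≃ₗ[B] Vc B

variable {B}

/-- basis vector -/
def ee (i : ℕ) : Vc B := Finsupp.single i 1

/-- shift to the right by `n` -/
def shV (n : ℕ) : Vc B →ₗ[B] Vc B := Finsupp.lmapDomain B B (fun i => n + i)

/-- shift to the left by `n` (the first `n` coordinates are dropped) -/
def unV (n : ℕ) : Vc B →ₗ[B] Vc B :=
  Finsupp.lcomapDomain (fun i => n + i) (fun _ _ h => Nat.add_left_cancel h)

theorem unV_shV (n : ℕ) (x : Vc B) : unV n (shV n x) = x := by
  ext i
  show (Finsupp.mapDomain (fun i => n + i) x) (n + i) = x i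
  exact Finsupp.mapDomain_apply (fun _ _ h => Nat.add_left_cancel h) x i

/-- `g` acting on the coordinates `>= n`, identity on the first `n` -/
def shL (n : ℕ) (g : Vc B →ₗ[B] Vc B) : Vc B →ₗ[B] Vc B :=
  LinearMap.id - shV n ∘ₗ unV n + shV n ∘ₗ g ∘ₗ unV n

theorem shL_mul (n : ℕ) (g h : Vc B →ₗ[B] Vc B) : shL n (g ∘ₗ h) = shL n g ∘ₗ shL n h := by
  ext i : 2
  simp only [shL, LinearMap.comp_apply, LinearMap.add_apply, LinearMap.sub_apply, LinearMap.id_apply,
    map_add, map_sub, unV_shV, sub_self, zero_add]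
  abel

theorem shL_one (n : ℕ) : shL n (LinearMap.id : Vc B →ₗ[B] Vc B) = LinearMap.id := by
  unfold shL; rw [LinearMap.id_comp]; abel

/-- the shift of an automorphism -/
def shA (n : ℕ) : Au B →* Au B where
  toFun g := LinearEquiv.ofLinearMap (shL n g.toLinearMap) (shL n g.symm.toLinearMap)
    (by rw [← shL_mul, ← shL_one n]; congr 1; ext1 x; simp)
    (by rw [← shL_mul, ← shL_one n]; congr 1; ext1 x; simp)
  map_one' := by
    apply LinearEquiv.toLinearMap_injective
    exact shL_one n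
  map_mul' g h := by
    apply LinearEquiv.toLinearMap_injective
    exact shL_mul n g.toLinearMap h.toLinearMap

theorem shA_apply (n : ℕ) (g : Au B) (x : Vc B) :
    shA n g x = x - shV n (unV n x) + shV n (g (unV n x)) := rfl

/-- the bilinear form -/
def dot (x y : Vc B) : B := x.sum fun i a => a * y i

/-- the hermitian form -/
def hdot [StarRing B] (x y : Vc B) : B := x.sum fun i a => a * star (y i)

end vec

/-! ### trivial lattice part -/

instance actPU (G : Type) [Group G] : MulAction G PUnit.{1} where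
  smul _ x := x
  one_smul _ := rfl
  mul_smul _ _ _ := rfl

/-- a system without lattices -/
def trivSys (G : Type) [Group G] (Gn : ℕ → Subgroup G) (sh : ℕ → G →* G)
    (h1 : ∀ (n m : ℕ) (g h : G), g ∈ Gn n → h ∈ Gn m → g * sh n h ∈ Gn (n + m))
    (h2 : ∀ (n : ℕ) (g h : G), g ∈ Gn n → g * sh n h = sh n h * g)
    (h3 : ∀ (n m : ℕ) (g : G), sh n (sh m g) = sh (n + m) g) : Sys G PUnit.{1} where
  Gn := Gn
  Pn := fun _ => Set.univ
  sh := sh
  jn := fun _ a _ => a
  smul_mono := fun _ _ _ _ => le_rfl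
  Gn_mul := h1
  sh_comm := h2
  sh_sh := h3
  Pn_smul := fun _ _ _ _ _ => trivial
  jn_mem := fun _ _ _ _ _ _ => trivial
  jn_mono := fun _ _ _ _ _ _ _ => le_rfl
  jn_assoc := fun _ _ _ _ _ => rfl
  jn_smul := fun _ _ _ _ _ _ _ _ _ _ => rfl

/-! ### the orthogonal system -/

section orth

variable (B : Type) [CommRing B]

/-- orthogonal automorphisms fixing `e_i`, `i >= n` -/
def On (n : ℕ) : Subgroup (Au B) where
  carrier := {g | (∀ x y, dot (g x) (g y) = dot x y) ∧ ∀ i, n ≤ i → g (ee i) = ee i}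
  mul_mem' := by
    rintro a b ⟨h1, h2⟩ ⟨h3, h4⟩
    refine ⟨fun x y => ?_, fun i hi => ?_⟩
    · show dot (a (b x)) (a (b y)) = dot x y
      rw [h1, h3]
    · show a (b (ee i)) = ee i
      rw [h4 i hi, h2 i hi]
  one_mem' := ⟨fun _ _ => rfl, fun _ _ => rfl⟩
  inv_mem' := by
    rintro a ⟨h1, h2⟩
    refine ⟨fun x y => ?_, fun i hi => ?_⟩
    · show dot (a.symm x) (a.symm y) = dot x y
      rw [← h1, LinearEquiv.apply_symm_apply, LinearEquiv.apply_symm_apply]
    · show a.symm (ee i) = ee i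
      rw [LinearEquiv.symm_apply_eq, h2 i hi]

end orth

/-! ### Q(i), the unitary system and the abelian system -/

instance factE : Fact (∀ r : ℚ, r ^ 2 ≠ -1 + 0 * r) :=
  ⟨fun r h => by nlinarith [sq_nonneg r]⟩

/-- the field Q(i) with its conjugation `star` -/
abbrev EE := QuadraticAlgebra ℚ (-1) 0

/-- denominators prime to 2 and to all primes 3 mod 4 -/
def splitDen (n : ℕ) : Prop := n ≠ 0 ∧ ∀ p : ℕ, p.Prime → p ∣ n → p % 4 = 1

/-- the ring Z[1/p : p = 1 mod 4][i] inside Q(i) -/
def OZ : Set EE := {x | ∃ n : ℕ, splitDen n ∧ ∃ a b : ℤ, (n : ℚ) * x.re = a ∧ (n : ℚ) * x.im = b}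

/-- unitary automorphisms of finitely supported vectors over Q(i), fixing `e_i` for `i >= n`, entries in OZ -/
def IsU (n : ℕ) (g : Au EE) : Prop :=
  (∀ x y, hdot (g x) (g y) = hdot x y) ∧ (∀ i, n ≤ i → g (ee i) = ee i) ∧ ∀ i j, g (ee j) i ∈ OZ

/-- the group of elements of norm 1 of Q(i) -/
abbrev TT := ↥(unitary EE)

/-- the abelian system -/
def sysA : Sys TT PUnit.{1} :=
  trivSys TT (fun _ => ⊤) (fun _ => MonoidHom.id TT) (fun _ _ _ _ _ _ => trivial)
    (fun _ g h _ => mul_comm g h) (fun _ _ _ => rfl)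

/-- the matrix of the first `c` coordinates -/
def mat {B : Type} [CommRing B] (c : ℕ) (g : Au B) : Matrix (Fin c) (Fin c) B :=
  Matrix.of fun i j => g (ee j) i

/-- the determinant on the union of the groups `Un c`, `1` elsewhere -/
def detT (g : Au EE) : TT :=
  open Classical in
  if h : ∃ c, IsU c g then
    (if h' : (mat (Nat.find h) g).det ∈ unitary EE then ⟨_, h'⟩ else 1)
  else 1

/-! ### realification and base change -/

/-- base change of a linear map along a ring homomorphism -/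
def bcL {B C : Type} [CommRing B] [CommRing C] (f : B →+* C) (g : Vc B →ₗ[B] Vc B) : Vc C →ₗ[C] Vc C :=
  Finsupp.linearCombination C fun j => Finsupp.mapRange f (map_zero f) (g (ee j))

/-- realification of a vector: coordinate `k` of `Q(i)` becomes the coordinates `2k`, `2k+1` of `B` -/
def reV (B : Type) [CommRing B] [Algebra ℚ B] (x : Vc EE) : Vc B :=
  x.sum fun k z => Finsupp.single (2 * k) (algebraMap ℚ B z.re) + Finsupp.single (2 * k + 1) (algebraMap ℚ B z.im)

/-- realification of a linear map: `e_(2j) -> re (g e_j)`, `e_(2j+1) -> re (i g e_j)` -/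
def reL (B : Type) [CommRing B] [Algebra ℚ B] (g : Vc EE →ₗ[EE] Vc EE) : Vc B →ₗ[B] Vc B :=
  Finsupp.linearCombination B fun j =>
    if j % 2 = 0 then reV B (g (ee (j / 2))) else reV B (g ((⟨0, 1⟩ : EE) • ee (j / 2)))

/-! ### lattices over a discrete valuation ring -/

section lat

variable (A L : Type) [CommRing A] [IsDomain A] [IsDiscreteValuationRing A] [Field L] [Algebra A L]
  [IsFractionRing A L]

/-- sub-`A`-modules of the finitely supported vectors over `L`, ordered by inclusion -/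
abbrev Lt := Submodule A (Vc L)

/-- action of the automorphisms on lattices -/
instance actLt : MulAction (Au L) (Lt A L) where
  smul g a := Submodule.map (g.toLinearMap.restrictScalars A) a
  one_smul a := Submodule.map_id _
  mul_smul g h a := Submodule.map_comp (h.toLinearMap.restrictScalars A) (g.toLinearMap.restrictScalars A) a

variable {L}

/-- `L^n` -/
def sup (n : ℕ) : Submodule A (Vc L) where
  carrier := {x | ∀ i, n ≤ i → x i = 0}
  add_mem' := by
    intro x y hx hy i hi
    rw [Finsupp.add_apply, hx i hi, hy i hi, add_zero]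
  zero_mem' := fun _ _ => rfl
  smul_mem' := by
    intro a x hx i hi
    rw [Finsupp.smul_apply, hx i hi, smul_zero]

/-- the standard lattice `A^n` -/
def Mn (n : ℕ) : Submodule A (Vc L) where
  carrier := {x | ∀ i, (n ≤ i → x i = 0) ∧ ∃ a : A, algebraMap A L a = x i}
  add_mem' := by
    intro x y hx hy i
    obtain ⟨h1, a, ha⟩ := hx i
    obtain ⟨h2, b, hb⟩ := hy i
    refine ⟨fun hi => ?_, a + b, ?_⟩
    · rw [Finsupp.add_apply, h1 hi, h2 hi, add_zero]
    · rw [map_add, ha, hb, Finsupp.add_apply]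
  zero_mem' := fun i => ⟨fun _ => rfl, 0, by simp⟩
  smul_mem' := by
    intro c x hx i
    obtain ⟨h1, a, ha⟩ := hx i
    refine ⟨fun hi => ?_, c * a, ?_⟩
    · rw [Finsupp.smul_apply, h1 hi, smul_zero]
    · rw [map_mul, ha, Finsupp.smul_apply, Algebra.smul_def]

variable {A}

/-- the dual lattice in `L^n` -/
def dual (n : ℕ) (Λ : Submodule A (Vc L)) : Submodule A (Vc L) where
  carrier := {x | (∀ i, n ≤ i → x i = 0) ∧ ∀ y ∈ Λ, ∃ a : A, algebraMap A L a = dot x y}
  add_mem' := by
    rintro x y ⟨h1, h2⟩ ⟨h3, h4⟩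
    refine ⟨fun i hi => ?_, fun z hz => ?_⟩
    · rw [Finsupp.add_apply, h1 i hi, h3 i hi, add_zero]
    · obtain ⟨a, ha⟩ := h2 z hz
      obtain ⟨b, hb⟩ := h4 z hz
      refine ⟨a + b, ?_⟩
      rw [map_add, ha, hb]
      unfold dot
      rw [Finsupp.sum_add_index' (fun i => zero_mul _) (fun i b₁ b₂ => add_mul _ _ _)]
  zero_mem' := ⟨fun _ _ => rfl, fun y _ => ⟨0, by simp [dot]⟩⟩
  smul_mem' := by
    rintro c x ⟨h1, h2⟩
    refine ⟨fun i hi => ?_, fun z hz => ?_⟩
    · rw [Finsupp.smul_apply, h1 i hi, smul_zero]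
    · obtain ⟨a, ha⟩ := h2 z hz
      refine ⟨c * a, ?_⟩
      rw [map_mul, ha, ← Algebra.smul_def]
      unfold dot
      rw [Finsupp.sum_smul_index' (fun i => zero_mul _), Finsupp.smul_sum]
      exact Finsupp.sum_congr fun i _ => (smul_mul_assoc c (x i) (z i)).symm

variable (ϖ : A)

/-- lattices between `ϖ^j A^n` and `ϖ^-j A^n`, almost self dual: `ϖ Λ^# <= Λ <= Λ^#` -/
def Ln (n : ℕ) : Set (Lt A L) :=
  {Λ | (∃ j : ℕ, (∀ x ∈ Mn A n, ϖ ^ j • x ∈ (Λ : Submodule A (Vc L))) ∧
      ∀ x ∈ (Λ : Submodule A (Vc L)), ϖ ^ j • x ∈ (Mn A n : Submodule A (Vc L))) ∧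
    (Λ : Submodule A (Vc L)) ≤ dual n Λ ∧ ∀ x ∈ dual n Λ, ϖ • x ∈ (Λ : Submodule A (Vc L))}

/-- block sum of lattices -/
def jnL (n : ℕ) (a b : Lt A L) : Lt A L :=
  (a : Submodule A (Vc L)) ⊔ Submodule.map ((shV n).restrictScalars A) b

end lat

end St16
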