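import Pool.Agent.LibSt16.Sy

/-!
LibSt16/TT4: injective base change is injective on cubes, so it reflects degenerate chains.
-/

set_option autoImplicit false

noncomputable section

namespace St16

variable {B C : Type} [CommRing B] [CommRing C] (i : B →+* C)

theorem dot_mapRange (x y : Vc B) :
    dot (Finsupp.mapRange i (map_zero i) x) (Finsupp.mapRange i (map_zero i) y) = i (dot x y) := by
  unfold dot
  rw [Finsupp.sum_mapRange_index (fun k => zero_mul _), Finsupp.sum, Finsupp.sum, map_sum]
  refine Finset.sum_congr rfl fun k _ => ?_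
  rw [Finsupp.mapRange_apply, map_mul]

theorem mapRange_ee (k : ℕ) : Finsupp.mapRange i (map_zero i) (ee k : Vc B) = ee k := by
  unfold ee
  rw [Finsupp.mapRange_single, map_one]

variable {i}
variable (hi : Function.Injective i)

include hi

theorem mapRange_inj : Function.Injective (Finsupp.mapRange i (map_zero i) : Vc B → Vc C) :=
  Finsupp.mapRange_injective i (map_zero i) hi

theorem bcL_inj (φ ψ : Vc B →ₗ[B] Vc B) (h : bcL i φ = bcL i ψ) : φ = ψ := by
  ext k : 2
  have h1 : bcL i φ (ee k) = bcL i ψ (ee k) := by rw [h]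
  rw [← mapRange_ee i k, bcL_mapRange, bcL_mapRange] at h1
  exact mapRange_inj hi h1

theorem bcA_inj0 : Function.Injective (bcA i) := by
  intro g h hgh
  apply au_ext
  intro k
  apply mapRange_inj hi
  rw [← bcA_ee, ← bcA_ee, hgh]

theorem bcH_cb_inj : Function.Injective (bcH i).cb := by
  intro c c' h
  have hr : 1 * c.r = 1 * c'.r := congrArg Cb.r h
  have hq : c.q = c'.q := congrArg (fun x : Cb (sysO C) => x.q) h
  have hy : (fun s => bcA i (c.y s)) = fun s => bcA i (c'.y s) := congrArg Cb.y h
  refine Cb.ext (by omega) hq ?_ ?_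
  · funext s
    exact bcA_inj0 hi (congrFun hy s)
  · funext s
    rfl

theorem bcH_Dg (c : Cb (sysO B)) (h : ((bcH i).cb c).Dg) : c.Dg := by
  obtain ⟨k, hk, h1⟩ := h
  refine ⟨k, hk, fun s s' hs => ⟨?_, rfl⟩⟩
  exact bcA_inj0 hi (h1 s s' hs).1

/-- a chain is degenerate if its image is -/
theorem bt_reflect (w : BT (sysO B)) (h : (bcH i).bt w ∈ DegB (sysO C)) : w ∈ DegB (sysO B) := by
  classical
  rw [DegB, Finsupp.mem_supported] at h ⊢
  intro l hl
  have hinj : Function.Injective (List.map (bcH i).cb) := List.map_injective_iff.2 (bcH_cb_inj hi)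
  have h1 : List.map (bcH i).cb l ∈ ((bcH i).bt w).support := by
    rw [Finsupp.mem_support_iff]
    change Finsupp.mapDomain (List.map (bcH i).cb) w (List.map (bcH i).cb l) ≠ 0
    rw [Finsupp.mapDomain_apply hinj]
    exact Finsupp.mem_support_iff.1 hl
  obtain ⟨c, hc, hd⟩ := h h1
  obtain ⟨c₀, hc₀, rfl⟩ := List.mem_map.1 hc
  exact ⟨c₀, hc₀, bcH_Dg hi c₀ hd⟩

omit hi in
theorem bcA_inj {B C : Type} [CommRing B] [CommRing C] (f : B →+* C) (hf : Function.Injective f) :
    Function.Injective (bcA f) := bcA_inj0 hf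

omit hi in
/-- injective base change reflects degenerate chains -/
theorem bc_DegB {B C : Type} [CommRing B] [CommRing C] (f : B →+* C) (hf : Function.Injective f)
    (w : BT (sysO B)) (h : (bcH f).bt w ∈ DegB (sysO C)) : w ∈ DegB (sysO B) := bt_reflect hf w h

end St16
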