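import Pool.Agent.LibSt16.Defs

/-!
LibSt16/Th: homotopies between two morphisms of systems and the operator `Th` on the bar complex.
Page section 5.
-/

set_option autoImplicit false

noncomputable section

namespace St16

variable {G P G' P' : Type} [Group G] [Preorder P] [MulAction G P] [Group G'] [Preorder P'] [MulAction G' P']

/-- homotopy data: a group part `fG`, two families of lattices `L0 n <= L1 n`, and `tau n` commuting with the
image of `Gn n`; all compatible with block sums. -/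
structure Hty (S : Sys G P) (S' : Sys G' P') (d : ℕ) where
  fG : G → G'
  L0 : ℕ → P'
  L1 : ℕ → P'
  tau : ℕ → G'
  d_pos : 0 < d
  G_mem : ∀ n g, g ∈ S.Gn n → fG g ∈ S'.Gn (d * n)
  G_one : fG 1 = 1
  G_mul : ∀ n g h, g ∈ S.Gn n → h ∈ S.Gn n → fG (g * h) = fG g * fG h
  G_sh : ∀ n m g h, g ∈ S.Gn n → h ∈ S.Gn m → fG (g * S.sh n h) = fG g * S'.sh (d * n) (fG h)
  L0_mem : ∀ n, L0 n ∈ S'.Pn (d * n)
  L1_mem : ∀ n, L1 n ∈ S'.Pn (d * n)
  tau_mem : ∀ n, tau n ∈ S'.Gn (d * n)
  L_le : ∀ n, L0 n ≤ L1 n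
  L0_jn : ∀ n m, L0 (n + m) = S'.jn (d * n) (L0 n) (L0 m)
  L1_jn : ∀ n m, L1 (n + m) = S'.jn (d * n) (L1 n) (L1 m)
  tau_sh : ∀ n m, tau (n + m) = tau n * S'.sh (d * n) (tau m)
  L0_st : ∀ n g, g ∈ S.Gn n → fG g • L0 n = L0 n
  L1_st : ∀ n g, g ∈ S.Gn n → fG g • L1 n = L1 n
  tau_comm : ∀ n g, g ∈ S.Gn n → fG g * tau n = tau n * fG g

namespace Hty

variable {S : Sys G P} {S' : Sys G' P'} {d : ℕ} (H : Hty S S' d)

/-- lower end: lattices `L0` -/
def phi0 : SHom S S' d where
  fG := H.fG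
  fP := fun n _ => H.L0 n
  d_pos := H.d_pos
  G_mem := H.G_mem
  G_one := H.G_one
  G_mul := H.G_mul
  G_sh := H.G_sh
  P_mem := fun n _ _ => H.L0_mem n
  P_mono := fun _ _ _ _ _ _ => le_rfl
  P_smul := fun n g _ hg _ => (H.L0_st n g hg).symm
  P_jn := fun n m _ _ _ _ => H.L0_jn n m

theorem tau_sh_inv (n m : ℕ) :
    (H.tau (n + m))⁻¹ = (H.tau n)⁻¹ * S'.sh (d * n) ((H.tau m)⁻¹) := by
  rw [H.tau_sh, mul_inv_rev, ← map_inv]
  exact (S'.sh_comm (d * n) _ _ (inv_mem (H.tau_mem n))).symm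

/-- upper end: lattices `tau⁻¹ L1` (normal form of `(tau y, L1)`) -/
def phi1 : SHom S S' d where
  fG := H.fG
  fP := fun n _ => (H.tau n)⁻¹ • H.L1 n
  d_pos := H.d_pos
  G_mem := H.G_mem
  G_one := H.G_one
  G_mul := H.G_mul
  G_sh := H.G_sh
  P_mem := fun n _ _ => S'.Pn_smul _ _ _ (inv_mem (H.tau_mem n)) (H.L1_mem n)
  P_mono := fun _ _ _ _ _ _ => le_rfl
  P_smul := by
    intro n g _ hg _
    have h : H.fG g * (H.tau n)⁻¹ = (H.tau n)⁻¹ * H.fG g := by
      rw [eq_inv_mul_iff_mul_eq, ← mul_assoc, ← H.tau_comm n g hg, mul_assoc, mul_inv_cancel, mul_one]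
    rw [← mul_smul, h, mul_smul, H.L1_st n g hg]
  P_jn := by
    intro n m _ _ _ _
    rw [H.tau_sh_inv, H.L1_jn]
    exact S'.jn_smul (d * n) (d * m) _ _ _ _ (inv_mem (H.tau_mem n)) (inv_mem (H.tau_mem m))
      (H.L1_mem n) (H.L1_mem m)

/-- group part of `th` (gate `g`): coordinates `a, s_x, a', s_x', ...` -/
def ty : Bool → Cb S → List (Cb S) → (ℕ → Bool) → G'
  | g, x, [], s => H.fG (x.y (fun i => s (1 + i))) * (if g && s 0 then H.tau x.r else 1)
  | g, x, x' :: l, s =>
      (H.fG (x.y (fun i => s (1 + i))) * (if g && s 0 then H.tau x.r else 1)) *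
        S'.sh (d * x.r) (ty (g && s 0) x' l (fun i => s (1 + x.q + i)))

/-- lattice part of `th` (gate `g`) -/
def tl : Bool → Cb S → List (Cb S) → (ℕ → Bool) → P'
  | g, x, [], s => if g && s 0 then H.L1 x.r else H.L0 x.r
  | g, x, x' :: l, s =>
      S'.jn (d * x.r) (if g && s 0 then H.L1 x.r else H.L0 x.r)
        (tl (g && s 0) x' l (fun i => s (1 + x.q + i)))

/-- rank of `x :: l` -/
def lr (x : Cb S) : List (Cb S) → ℕ
  | [] => x.r
  | x' :: l => x.r + lr x' l

/-- number of coordinates of `th x l` -/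
def lq (x : Cb S) : List (Cb S) → ℕ
  | [] => 1 + x.q
  | x' :: l => 1 + x.q + lq x' l

theorem lr_pos (x : Cb S) (l : List (Cb S)) : 0 < lr x l := by
  cases l with
  | nil => exact x.r_pos
  | cons x' l => exact Nat.add_pos_left x.r_pos _

theorem ty_dep (g : Bool) (x : Cb S) (l : List (Cb S)) (s s' : ℕ → Bool)
    (h : ∀ i, i < lq x l → s i = s' i) : H.ty g x l s = H.ty g x l s' := by
  induction l generalizing g x s s' with
  | nil =>
    unfold ty
    have h0 : s 0 = s' 0 := h 0 (by unfold lq; omega)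
    have h1 : x.y (fun i => s (1 + i)) = x.y (fun i => s' (1 + i)) :=
      x.y_dep _ _ fun i hi => h _ (by unfold lq; omega)
    rw [h0, h1]
  | cons x' l ih =>
    unfold ty
    have h0 : s 0 = s' 0 := h 0 (by unfold lq; omega)
    have h1 : x.y (fun i => s (1 + i)) = x.y (fun i => s' (1 + i)) :=
      x.y_dep _ _ fun i hi => h _ (by unfold lq; omega)
    have h2 := ih (g && s' 0) x' (fun i => s (1 + x.q + i)) (fun i => s' (1 + x.q + i))
      fun i hi => h _ (by unfold lq; omega)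
    rw [h0, h1, h2]

theorem tl_dep (g : Bool) (x : Cb S) (l : List (Cb S)) (s s' : ℕ → Bool)
    (h : ∀ i, i < lq x l → s i = s' i) : H.tl g x l s = H.tl g x l s' := by
  induction l generalizing g x s s' with
  | nil =>
    unfold tl
    rw [h 0 (by unfold lq; omega)]
  | cons x' l ih =>
    unfold tl
    have h0 : s 0 = s' 0 := h 0 (by unfold lq; omega)
    have h2 := ih (g && s' 0) x' (fun i => s (1 + x.q + i)) (fun i => s' (1 + x.q + i))
      fun i hi => h _ (by unfold lq; omega)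
    rw [h0, h2]

theorem ite_tau_mem (g : Bool) (n : ℕ) : (if g then H.tau n else 1) ∈ S'.Gn (d * n) := by
  cases g
  · exact one_mem _
  · exact H.tau_mem n

theorem ite_L_mem (g : Bool) (n : ℕ) : (if g then H.L1 n else H.L0 n) ∈ S'.Pn (d * n) := by
  cases g
  · exact H.L0_mem n
  · exact H.L1_mem n

theorem ty_mem (g : Bool) (x : Cb S) (l : List (Cb S)) (s : ℕ → Bool) :
    H.ty g x l s ∈ S'.Gn (d * lr x l) := by
  induction l generalizing g x s with
  | nil =>
    unfold ty lr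
    exact mul_mem (H.G_mem _ _ (x.y_mem _)) (H.ite_tau_mem _ _)
  | cons x' l ih =>
    unfold ty lr
    rw [Nat.mul_add]
    exact S'.Gn_mul _ _ _ _ (mul_mem (H.G_mem _ _ (x.y_mem _)) (H.ite_tau_mem _ _)) (ih _ _ _)

theorem tl_mem (g : Bool) (x : Cb S) (l : List (Cb S)) (s : ℕ → Bool) :
    H.tl g x l s ∈ S'.Pn (d * lr x l) := by
  induction l generalizing g x s with
  | nil =>
    unfold tl lr
    exact H.ite_L_mem _ _
  | cons x' l ih =>
    unfold tl lr
    rw [Nat.mul_add]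
    exact S'.jn_mem _ _ _ _ (H.ite_L_mem _ _) (ih _ _ _)

theorem ty_zero (g : Bool) (x : Cb S) (l : List (Cb S)) : H.ty g x l z0 = 1 := by
  induction l generalizing g x with
  | nil =>
    unfold ty
    have h1 : x.y (fun i => z0 (1 + i)) = 1 := x.y_zero
    rw [h1, H.G_one]
    simp [z0]
  | cons x' l ih =>
    unfold ty
    have h1 : x.y (fun i => z0 (1 + i)) = 1 := x.y_zero
    have h2 : H.ty (g && z0 0) x' l (fun i => z0 (1 + x.q + i)) = 1 := ih _ _
    rw [h1, H.G_one, h2, map_one]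
    simp [z0]

theorem ite_L_mono (b b' : Bool) (h : b ≤ b') (n : ℕ) :
    (if b then H.L1 n else H.L0 n) ≤ (if b' then H.L1 n else H.L0 n) := by
  cases b
  · cases b'
    · exact le_rfl
    · exact H.L_le n
  · cases b'
    · exact absurd h (by decide)
    · exact le_rfl

theorem and_mono' {a b c e : Bool} (h : a ≤ b) (h' : c ≤ e) : (a && c) ≤ (b && e) := by
  cases a <;> cases b <;> cases c <;> cases e <;> simp_all

theorem tl_mono (g g' : Bool) (hg : g ≤ g') (x : Cb S) (l : List (Cb S)) (s s' : ℕ → Bool) (h : s ≤ s') :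
    H.tl g x l s ≤ H.tl g' x l s' := by
  induction l generalizing g g' x s s' with
  | nil =>
    unfold tl
    exact H.ite_L_mono _ _ (and_mono' hg (h 0)) _
  | cons x' l ih =>
    unfold tl
    exact S'.jn_mono _ _ _ _ _ (H.ite_L_mono _ _ (and_mono' hg (h 0)) _)
      (ih _ _ (and_mono' hg (h 0)) _ _ _ fun i => h _)

/-- the cube `th(x, l)` -/
def th (x : Cb S) (l : List (Cb S)) : Cb S' where
  r := d * lr x l
  q := lq x l
  y := H.ty true x l
  l := H.tl true x l
  r_pos := Nat.mul_pos H.d_pos (lr_pos x l)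
  y_dep := fun s s' h => H.ty_dep true x l s s' h
  l_dep := fun s s' h => H.tl_dep true x l s s' h
  y_mem := H.ty_mem true x l
  l_mem := H.tl_mem true x l
  y_zero := H.ty_zero true x l
  l_mono := fun s s' h => H.tl_mono true true le_rfl x l s s' h

/-- the terms of `Th` whose block starts at the first entry -/
def pre (x : Cb S) (l : List (Cb S)) : BT S' :=
  ∑ k ∈ Finset.range (l.length + 1),
    Finsupp.single (H.th x (l.take k) :: (l.drop k).map H.phi0.cb) 1

/-- the operator `Th` on one list -/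
def Th1 : List (Cb S) → BT S'
  | [] => 0
  | x :: l => H.pre x l + (-1 : ℚ) ^ (x.q + 1) • Finsupp.mapDomain (fun w => H.phi1.cb x :: w) (Th1 l)

/-- the operator `Th` -/
def Th : BT S →ₗ[ℚ] BT S' := Finsupp.linearCombination ℚ H.Th1

end Hty

end St16
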