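import Pool.Agent.LibSt16.Th

/-!
LibSt16/Th1: the boundary of the cube `th x l`.
-/

set_option autoImplicit false

noncomputable section

namespace St16

variable {G P G' P' : Type} [Group G] [Preorder P] [MulAction G P] [Group G'] [Preorder P'] [MulAction G' P']

section ins

private theorem ins_low {k i : ℕ} (b : Bool) (s : ℕ → Bool) (h : i < k) : ins k b s i = s i := by
  unfold ins
  rw [if_pos h]

private theorem ins_eq (k : ℕ) (b : Bool) (s : ℕ → Bool) : ins k b s k = b := by
  unfold ins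
  rw [if_neg (lt_irrefl _), if_pos rfl]

private theorem ins_high {k i : ℕ} (b : Bool) (s : ℕ → Bool) (h : k < i) : ins k b s i = s (i - 1) := by
  unfold ins
  rw [if_neg (by omega), if_neg (by omega)]

private theorem ins_shift (m k : ℕ) (b : Bool) (s : ℕ → Bool) :
    (fun i => ins (m + k) b s (m + i)) = ins k b (fun i => s (m + i)) := by
  funext i
  rcases lt_trichotomy i k with h | h | h
  · rw [ins_low _ _ h, ins_low _ _ (by omega)]
  · subst h
    rw [ins_eq, ins_eq]
  · rw [ins_high _ _ h, ins_high _ _ (by omega)]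
    congr 1
    omega

end ins

namespace Cb

variable {S : Sys G P}

private theorem face_r (c : Cb S) (b : Bool) (k : ℕ) : (c.face b k).r = c.r := by
  unfold face
  split_ifs <;> rfl

private theorem face_q (c : Cb S) (b : Bool) {k : ℕ} (h : k < c.q) : (c.face b k).q = c.q - 1 := by
  unfold face
  rw [dif_pos h]

private theorem face_y (c : Cb S) (b : Bool) {k : ℕ} (h : k < c.q) (s : ℕ → Bool) :
    (c.face b k).y s = (c.fv b k)⁻¹ * c.y (ins k b s) := by
  unfold face
  rw [dif_pos h]

private theorem face_l (c : Cb S) (b : Bool) {k : ℕ} (h : k < c.q) (s : ℕ → Bool) :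
    (c.face b k).l s = (c.fv b k)⁻¹ • c.l (ins k b s) := by
  unfold face
  rw [dif_pos h]

private theorem fv_mem (c : Cb S) (b : Bool) (k : ℕ) : c.fv b k ∈ S.Gn c.r := c.y_mem _

end Cb

namespace Hty

variable {S : Sys G P} {S' : Sys G' P'} {d : ℕ} (H : Hty S S' d)

/-- the chain `th` of a list -/
def thl : List (Cb S) → Ch S'
  | [] => 0
  | x :: l => Finsupp.single (H.th x l) 1

/-- the first term of the boundary of `th x l` -/
def hd (x : Cb S) : List (Cb S) → Ch S'
  | [] => Finsupp.single (H.phi1.cb x) 1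
  | x' :: l => Finsupp.single (H.phi1.cb x * H.th x' l) 1

/-- the last term of the boundary of `th x l` -/
def lt (x : Cb S) (l : List (Cb S)) : Ch S' :=
  if h : l = [] then Finsupp.single (H.phi0.cb x) 1
  else (-1 : ℚ) ^ (lq x l.dropLast) • Finsupp.single (H.th x l.dropLast * H.phi0.cb (l.getLast h)) 1

/-- `th` with a gate -/
def tg (g : Bool) (x : Cb S) (l : List (Cb S)) : Cb S' where
  r := d * lr x l
  q := lq x l
  y := H.ty g x l
  l := H.tl g x l
  r_pos := Nat.mul_pos H.d_pos (lr_pos x l)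
  y_dep := fun s s' h => H.ty_dep g x l s s' h
  l_dep := fun s s' h => H.tl_dep g x l s s' h
  y_mem := H.ty_mem g x l
  l_mem := H.tl_mem g x l
  y_zero := H.ty_zero g x l
  l_mono := fun s s' h => H.tl_mono g g le_rfl x l s s' h

private theorem th_tg (x : Cb S) (l : List (Cb S)) : H.th x l = H.tg true x l := rfl

/-- the group part of the first block -/
def Ab (g : Bool) (x : Cb S) (s : ℕ → Bool) : G' :=
  H.fG (x.y (fun i => s (1 + i))) * (if g && s 0 then H.tau x.r else 1)

/-- the lattice part of the first block -/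
def Lb (g : Bool) (x : Cb S) (s : ℕ → Bool) : P' := if g && s 0 then H.L1 x.r else H.L0 x.r

private theorem ty_nil (g : Bool) (x : Cb S) (s : ℕ → Bool) : H.ty g x [] s = H.Ab g x s := rfl

private theorem ty_cons (g : Bool) (x x' : Cb S) (l : List (Cb S)) (s : ℕ → Bool) :
    H.ty g x (x' :: l) s = H.Ab g x s * S'.sh (d * x.r) (H.ty (g && s 0) x' l (fun i => s (1 + x.q + i))) := rfl

private theorem tl_nil (g : Bool) (x : Cb S) (s : ℕ → Bool) : H.tl g x [] s = H.Lb g x s := rfl

private theorem tl_cons (g : Bool) (x x' : Cb S) (l : List (Cb S)) (s : ℕ → Bool) :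
    H.tl g x (x' :: l) s = S'.jn (d * x.r) (H.Lb g x s) (H.tl (g && s 0) x' l (fun i => s (1 + x.q + i))) := rfl

private theorem Ab_mem (g : Bool) (x : Cb S) (s : ℕ → Bool) : H.Ab g x s ∈ S'.Gn (d * x.r) :=
  mul_mem (H.G_mem _ _ (x.y_mem _)) (H.ite_tau_mem _ _)

private theorem Lb_mem (g : Bool) (x : Cb S) (s : ℕ → Bool) : H.Lb g x s ∈ S'.Pn (d * x.r) := H.ite_L_mem _ _

private theorem fG_inv_mul (n : ℕ) (g h : G) (hg : g ∈ S.Gn n) (hh : h ∈ S.Gn n) :
    H.fG (g⁻¹ * h) = (H.fG g)⁻¹ * H.fG h := by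
  rw [eq_inv_mul_iff_mul_eq, ← H.G_mul n g _ hg (mul_mem (inv_mem hg) hh), mul_inv_cancel_left]

private theorem Lb_st (g : Bool) (x : Cb S) (s : ℕ → Bool) (u : G) (hu : u ∈ S.Gn x.r) :
    (H.fG u)⁻¹ • H.Lb g x s = H.Lb g x s := by
  rw [inv_smul_eq_iff]
  unfold Lb
  split_ifs
  · rw [H.L1_st _ _ hu]
  · rw [H.L0_st _ _ hu]

private theorem lr_congr {x x' : Cb S} (h : x.r = x'.r) (l : List (Cb S)) : lr x l = lr x' l := by
  cases l with
  | nil => exact h
  | cons y l => unfold lr; rw [h]

private theorem Ab_face (g b : Bool) (x : Cb S) {j : ℕ} (hj : j < x.q) (s : ℕ → Bool) :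
    (H.fG (x.fv b j))⁻¹ * H.Ab g x (ins (j + 1) b s) = H.Ab g (x.face b j) s := by
  have h1 : (fun i => ins (j + 1) b s (1 + i)) = ins j b (fun i => s (1 + i)) := by
    rw [Nat.add_comm j 1]
    exact ins_shift 1 j b s
  unfold Ab
  rw [h1, ins_low _ _ (Nat.succ_pos j), x.face_y b hj, x.face_r, H.fG_inv_mul x.r _ _ (x.fv_mem b j) (x.y_mem _),
    mul_assoc]

private theorem Lb_face (g b : Bool) (x : Cb S) {j : ℕ} (s : ℕ → Bool) :
    H.Lb g x (ins (j + 1) b s) = H.Lb g (x.face b j) s := by
  unfold Lb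
  rw [ins_low _ _ (Nat.succ_pos j), x.face_r]

private theorem Ab_z (g b : Bool) (x : Cb S) {j : ℕ} (hj : j < x.q) : H.Ab g x (ins (j + 1) b z0) = H.fG (x.fv b j) := by
  have h1 : (fun i => ins (j + 1) b z0 (1 + i)) = ins j b z0 := by
    rw [Nat.add_comm j 1]
    exact ins_shift 1 j b z0
  unfold Ab
  rw [h1, ins_low _ _ (Nat.succ_pos j)]
  simp [z0, Cb.fv]

private theorem ty_zz (g : Bool) (x : Cb S) (l : List (Cb S)) (s : ℕ → Bool) (hs : ∀ i, i < lq x l → s i = false) :
    H.ty g x l s = 1 := by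
  rw [← H.ty_zero g x l]
  exact H.ty_dep g x l _ _ hs

private theorem tail_face {x : Cb S} {j : ℕ} (hj : j < x.q) (b : Bool) (s : ℕ → Bool) :
    (fun i => ins (j + 1) b s (1 + x.q + i)) = fun i => s (1 + (x.face b j).q + i) := by
  funext i
  rw [ins_high _ _ (by omega), x.face_q b hj]
  congr 1
  omega

/-- faces at a coordinate of the first letter -/
private theorem face_s (g b : Bool) (x : Cb S) (l : List (Cb S)) {j : ℕ} (hj : j < x.q) :
    (H.tg g x l).face b (j + 1) = H.tg g (x.face b j) l := by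
  have hq : j + 1 < (H.tg g x l).q := by
    show j + 1 < lq x l
    cases l with
    | nil => unfold lq; omega
    | cons y l => unfold lq; omega
  have hfv : (H.tg g x l).fv b (j + 1) = H.fG (x.fv b j) := by
    show H.ty g x l (ins (j + 1) b z0) = _
    cases l with
    | nil => rw [ty_nil, H.Ab_z g b x hj]
    | cons y l =>
      rw [ty_cons, H.Ab_z g b x hj, H.ty_zz, map_one, mul_one]
      intro i _
      show ins (j + 1) b z0 (1 + x.q + i) = false
      rw [ins_high _ _ (by omega)]
      rfl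
  refine Cb.ext ?_ ?_ ?_ ?_
  · rw [Cb.face_r]
    show d * lr x l = d * lr (x.face b j) l
    rw [lr_congr (x.face_r b j).symm]
  · rw [Cb.face_q _ b hq]
    show lq x l - 1 = lq (x.face b j) l
    cases l with
    | nil => unfold lq; rw [x.face_q b hj]; omega
    | cons y l => unfold lq; rw [x.face_q b hj]; omega
  · funext s
    rw [Cb.face_y _ b hq, hfv]
    show (H.fG (x.fv b j))⁻¹ * H.ty g x l (ins (j + 1) b s) = H.ty g (x.face b j) l s
    cases l with
    | nil => rw [ty_nil, ty_nil, H.Ab_face g b x hj]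
    | cons y l =>
      rw [ty_cons, ty_cons, ← mul_assoc, H.Ab_face g b x hj, ins_low _ _ (Nat.succ_pos j), tail_face hj b s,
        x.face_r]
  · funext s
    rw [Cb.face_l _ b hq, hfv]
    show (H.fG (x.fv b j))⁻¹ • H.tl g x l (ins (j + 1) b s) = H.tl g (x.face b j) l s
    cases l with
    | nil =>
      rw [tl_nil, tl_nil, H.Lb_st g x _ _ (x.fv_mem b j), H.Lb_face]
    | cons y l =>
      rw [tl_cons, tl_cons]
      have h1 := S'.jn_smul (d * x.r) (d * lr y l) ((H.fG (x.fv b j))⁻¹) 1 (H.Lb g x (ins (j + 1) b s))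
        (H.tl (g && ins (j + 1) b s 0) y l (fun i => ins (j + 1) b s (1 + x.q + i)))
        (inv_mem (H.G_mem _ _ (x.y_mem _))) (one_mem _) (H.Lb_mem _ _ _) (H.tl_mem _ _ _ _)
      rw [map_one, mul_one, one_smul] at h1
      rw [h1, H.Lb_st g x _ _ (x.fv_mem b j), H.Lb_face g b, ins_low _ _ (Nat.succ_pos j), tail_face hj b s, x.face_r]

private theorem ty_false (x : Cb S) (l : List (Cb S)) (s s' : ℕ → Bool) (h : ∀ i, i ≠ 0 → s i = s' i) :
    H.ty false x l s = H.ty false x l s' := by
  have h1 : (fun i => s (1 + i)) = fun i => s' (1 + i) := by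
    funext i
    exact h _ (by omega)
  cases l with
  | nil =>
    rw [ty_nil, ty_nil]
    unfold Ab
    rw [h1, Bool.false_and, Bool.false_and]
  | cons y l =>
    have h2 : (fun i => s (1 + x.q + i)) = fun i => s' (1 + x.q + i) := by
      funext i
      exact h _ (by omega)
    rw [ty_cons, ty_cons, h2]
    unfold Ab
    rw [h1, Bool.false_and, Bool.false_and]

private theorem tl_false (x : Cb S) (l : List (Cb S)) (s s' : ℕ → Bool) (h : ∀ i, i ≠ 0 → s i = s' i) :
    H.tl false x l s = H.tl false x l s' := by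
  cases l with
  | nil =>
    rw [tl_nil, tl_nil]
    unfold Lb
    rw [Bool.false_and, Bool.false_and]
  | cons y l =>
    have h2 : (fun i => s (1 + x.q + i)) = fun i => s' (1 + x.q + i) := by
      funext i
      exact h _ (by omega)
    rw [tl_cons, tl_cons, h2]
    unfold Lb
    rw [Bool.false_and, Bool.false_and]

private theorem Ab_low (g : Bool) (x : Cb S) (s s' : ℕ → Bool) (h : ∀ i, i < 1 + x.q → s i = s' i) :
    H.Ab g x s = H.Ab g x s' := by
  unfold Ab
  rw [h 0 (by omega), x.y_dep (fun i => s (1 + i)) (fun i => s' (1 + i)) fun i hi => h _ (by omega)]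

private theorem Lb_low (g : Bool) (x : Cb S) (s s' : ℕ → Bool) (h : s 0 = s' 0) : H.Lb g x s = H.Lb g x s' := by
  unfold Lb
  rw [h]

private theorem Ab_z0 (g : Bool) (x : Cb S) : H.Ab g x z0 = 1 := H.ty_zero g x []

private theorem lq_pos (x : Cb S) (l : List (Cb S)) : 0 < lq x l := by
  cases l with
  | nil => unfold lq; omega
  | cons y l => unfold lq; omega

private theorem lr_mul (x x' : Cb S) (l : List (Cb S)) : lr (x * x') l = lr x (x' :: l) := by
  cases l with
  | nil => rfl
  | cons y l =>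
    show x.r + x'.r + lr y l = x.r + (x'.r + lr y l)
    rw [Nat.add_assoc]

private theorem lq_mul (x x' : Cb S) (l : List (Cb S)) : lq x (x' :: l) - 1 = lq (x * x') l := by
  cases l with
  | nil =>
    show 1 + x.q + (1 + x'.q) - 1 = 1 + (x.q + x'.q)
    omega
  | cons y l =>
    show 1 + x.q + (1 + x'.q + lq y l) - 1 = 1 + (x.q + x'.q) + lq y l
    omega

/-- first vertex of the faces at the separator `1 + x.q` -/
private theorem fv_sep (g b : Bool) (x x' : Cb S) (l : List (Cb S)) :
    (H.tg g x (x' :: l)).fv b (1 + x.q) = 1 := by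
  show H.ty g x (x' :: l) (ins (1 + x.q) b z0) = 1
  rw [ty_cons, H.Ab_low g x _ z0 (fun i hi => ins_low _ _ hi), Ab_z0, one_mul]
  have h0 : ins (1 + x.q) b z0 0 = false := ins_low _ _ (by omega)
  rw [h0, Bool.and_false, H.ty_false x' l _ z0, H.ty_zero, map_one]
  intro i hi
  rw [ins_high _ _ (by omega)]
  rfl

private theorem sep_tail (m : ℕ) (b : Bool) (s : ℕ → Bool) :
    (fun i => ins m b s (m + i)) = ins 0 b (fun i => s (m + i)) := ins_shift m 0 b s

private theorem Ab_merge (g : Bool) (x x' : Cb S) (s : ℕ → Bool) :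
    H.Ab g x (ins (1 + x.q) true s) *
      S'.sh (d * x.r) (H.Ab (g && s 0) x' (ins 0 true fun i => s (1 + x.q + i))) = H.Ab g (x * x') s := by
  rw [H.Ab_low g x (ins (1 + x.q) true s) s fun i hi => ins_low _ _ hi]
  unfold Ab
  rw [ins_eq, Bool.and_true]
  have h1 : (fun i => ins 0 true (fun i => s (1 + x.q + i)) (1 + i)) = fun i => s (1 + (x.q + i)) := by
    funext i
    rw [ins_high _ _ (by omega)]
    congr 1
    omega
  rw [h1]
  have h2 : (x * x').y (fun i => s (1 + i)) = x.y (fun i => s (1 + i)) * S.sh x.r (x'.y fun i => s (1 + (x.q + i))) := rfl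
  rw [h2, H.G_sh x.r x'.r _ _ (x.y_mem _) (x'.y_mem _)]
  have h3 : (x * x').r = x.r + x'.r := rfl
  rw [h3]
  set u := H.fG (x.y fun i => s (1 + i)) with hu
  set w := H.fG (x'.y fun i => s (1 + (x.q + i))) with hw
  split_ifs
  · rw [H.tau_sh, map_mul, mul_assoc, mul_assoc, ← mul_assoc (H.tau x.r), S'.sh_comm (d * x.r) _ _ (H.tau_mem x.r),
      mul_assoc]
  · rw [mul_one, mul_one, mul_one]

private theorem Lb_merge (g : Bool) (x x' : Cb S) (s : ℕ → Bool) :
    S'.jn (d * x.r) (H.Lb g x (ins (1 + x.q) true s)) (H.Lb (g && s 0) x' (ins 0 true fun i => s (1 + x.q + i))) =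
      H.Lb g (x * x') s := by
  rw [H.Lb_low g x (ins (1 + x.q) true s) s (ins_low _ _ (by omega))]
  unfold Lb
  rw [ins_eq, Bool.and_true]
  have h3 : (x * x').r = x.r + x'.r := rfl
  rw [h3]
  split_ifs
  · rw [H.L1_jn]
  · rw [H.L0_jn]

private theorem face_merge (g : Bool) (x x' : Cb S) (l : List (Cb S)) :
    (H.tg g x (x' :: l)).face true (1 + x.q) = H.tg g (x * x') l := by
  have hq : 1 + x.q < (H.tg g x (x' :: l)).q := by
    show 1 + x.q < 1 + x.q + lq x' l
    have := lq_pos x' l
    omega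
  refine Cb.ext ?_ ?_ ?_ ?_
  · rw [Cb.face_r]
    show d * lr x (x' :: l) = d * lr (x * x') l
    rw [lr_mul]
  · rw [Cb.face_q _ _ hq]
    exact lq_mul x x' l
  · funext s
    rw [Cb.face_y _ _ hq, fv_sep, inv_one, one_mul]
    show H.ty g x (x' :: l) (ins (1 + x.q) true s) = H.ty g (x * x') l s
    rw [ty_cons, sep_tail, ins_low _ _ (by omega)]
    cases l with
    | nil => rw [ty_nil, ty_nil, H.Ab_merge]
    | cons y l =>
      rw [ty_cons, ty_cons, map_mul, ← mul_assoc, H.Ab_merge, S'.sh_sh, ins_eq, Bool.and_true]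
      have h3 : d * (x * x').r = d * x.r + d * x'.r := by
        show d * (x.r + x'.r) = _
        rw [Nat.mul_add]
      have h4 : (fun i => ins 0 true (fun i => s (1 + x.q + i)) (1 + x'.q + i)) =
          fun i => s (1 + (x * x').q + i) := by
        funext i
        rw [ins_high _ _ (by omega)]
        show s (1 + x.q + (1 + x'.q + i - 1)) = s (1 + (x.q + x'.q) + i)
        congr 1
        omega
      rw [h3, h4]
  · funext s
    rw [Cb.face_l _ _ hq, fv_sep, inv_one, one_smul]
    show H.tl g x (x' :: l) (ins (1 + x.q) true s) = H.tl g (x * x') l s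
    rw [tl_cons, sep_tail, ins_low _ _ (by omega)]
    cases l with
    | nil => rw [tl_nil, tl_nil, H.Lb_merge]
    | cons y l =>
      rw [tl_cons, tl_cons, ← S'.jn_assoc, H.Lb_merge, ins_eq, Bool.and_true]
      have h3 : d * (x * x').r = d * x.r + d * x'.r := by
        show d * (x.r + x'.r) = _
        rw [Nat.mul_add]
      have h4 : (fun i => ins 0 true (fun i => s (1 + x.q + i)) (1 + x'.q + i)) =
          fun i => s (1 + (x * x').q + i) := by
        funext i
        rw [ins_high _ _ (by omega)]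
        show s (1 + x.q + (1 + x'.q + i - 1)) = s (1 + (x.q + x'.q) + i)
        congr 1
        omega
      rw [h3, h4]

private theorem face_last (g : Bool) (x x' : Cb S) :
    (H.tg g x [x']).face false (1 + x.q) = H.tg g x [] * H.phi0.cb x' := by
  have hq : 1 + x.q < (H.tg g x [x']).q := by
    show 1 + x.q < 1 + x.q + (1 + x'.q)
    omega
  have h1 : ∀ s : ℕ → Bool, (fun i => ins 0 false (fun i => s (1 + x.q + i)) (1 + i)) = fun i => s (1 + x.q + i) := by
    intro s
    funext i
    rw [ins_high _ _ (by omega)]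
    congr 1
    omega
  refine Cb.ext ?_ ?_ ?_ ?_
  · rw [Cb.face_r]
    show d * (x.r + x'.r) = d * x.r + d * x'.r
    rw [Nat.mul_add]
  · rw [Cb.face_q _ _ hq]
    show 1 + x.q + (1 + x'.q) - 1 = 1 + x.q + x'.q
    omega
  · funext s
    rw [Cb.face_y _ _ hq, fv_sep, inv_one, one_mul]
    show H.ty g x [x'] (ins (1 + x.q) false s) =
      H.ty g x [] s * S'.sh (d * x.r) (H.fG (x'.y fun i => s (1 + x.q + i)))
    rw [ty_cons, sep_tail, ins_low _ _ (by omega), ty_nil, ty_nil,
      H.Ab_low g x (ins (1 + x.q) false s) s fun i hi => ins_low _ _ hi]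
    congr 2
    unfold Ab
    rw [ins_eq, Bool.and_false, h1]
    simp
  · funext s
    rw [Cb.face_l _ _ hq, fv_sep, inv_one, one_smul]
    show H.tl g x [x'] (ins (1 + x.q) false s) = S'.jn (d * x.r) (H.tl g x [] s) (H.L0 x'.r)
    rw [tl_cons, sep_tail, ins_low _ _ (by omega), tl_nil, tl_nil,
      H.Lb_low g x (ins (1 + x.q) false s) s (ins_low _ _ (by omega))]
    congr 1
    unfold Lb
    rw [ins_eq, Bool.and_false]
    simp

/-- independence of the bit `k0`, for both gates -/
def Ind (b : Bool) (k : ℕ) (x : Cb S) (l : List (Cb S)) (k0 : ℕ) : Prop :=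
  ∀ (g : Bool) (s s' : ℕ → Bool), (∀ i, i ≠ k0 → s i = s' i) →
    H.ty g x l (ins k b s) = H.ty g x l (ins k b s') ∧ H.tl g x l (ins k b s) = H.tl g x l (ins k b s')

private theorem ind_sep (x x' y : Cb S) (l : List (Cb S)) :
    H.Ind false (1 + x.q) x (x' :: y :: l) (1 + x.q + x'.q) := by
  intro g s s' h
  have e0 : ∀ t : ℕ → Bool, ins (1 + x.q) false t 0 = t 0 := fun t => ins_low _ _ (by omega)
  have h0 : s 0 = s' 0 := h 0 (by omega)
  have h1 : ∀ i, i < 1 + x.q → ins (1 + x.q) false s i = ins (1 + x.q) false s' i := by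
    intro i hi
    rw [ins_low _ _ hi, ins_low _ _ hi]
    exact h i (by omega)
  have h2 : ∀ i, i < 1 + x'.q → ins 0 false (fun i => s (1 + x.q + i)) i = ins 0 false (fun i => s' (1 + x.q + i)) i := by
    intro i hi
    rcases Nat.eq_zero_or_pos i with rfl | hp
    · rw [ins_eq, ins_eq]
    · rw [ins_high _ _ hp, ins_high _ _ hp]
      exact h _ (by omega)
  have h3 : ∀ i, i ≠ 0 → ins 0 false (fun i => s (1 + x.q + i)) (1 + x'.q + i) =
      ins 0 false (fun i => s' (1 + x.q + i)) (1 + x'.q + i) := by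
    intro i hi
    rw [ins_high _ _ (by omega), ins_high _ _ (by omega)]
    exact h _ (by omega)
  have ky : ∀ t : ℕ → Bool, H.ty g x (x' :: y :: l) (ins (1 + x.q) false t) =
      H.Ab g x (ins (1 + x.q) false t) * S'.sh (d * x.r) (H.Ab (g && t 0) x' (ins 0 false fun i => t (1 + x.q + i)) *
        S'.sh (d * x'.r) (H.ty false y l (fun i => ins 0 false (fun i => t (1 + x.q + i)) (1 + x'.q + i)))) := by
    intro t
    rw [ty_cons, sep_tail, e0, ty_cons, ins_eq, Bool.and_false]
  have kl : ∀ t : ℕ → Bool, H.tl g x (x' :: y :: l) (ins (1 + x.q) false t) =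
      S'.jn (d * x.r) (H.Lb g x (ins (1 + x.q) false t))
        (S'.jn (d * x'.r) (H.Lb (g && t 0) x' (ins 0 false fun i => t (1 + x.q + i)))
        (H.tl false y l (fun i => ins 0 false (fun i => t (1 + x.q + i)) (1 + x'.q + i)))) := by
    intro t
    rw [tl_cons, sep_tail, e0, tl_cons, ins_eq, Bool.and_false]
  constructor
  · rw [ky, ky, h0, H.Ab_low g x _ _ h1, H.Ab_low (g && s' 0) x' _ _ h2, H.ty_false y l _ _ h3]
  · rw [kl, kl, h0, H.Lb_low g x _ _ (h1 0 (by omega)), H.Lb_low (g && s' 0) x' _ _ (h2 0 (by omega)),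
      H.tl_false y l _ _ h3]

private theorem ins_tail (m k : ℕ) (b : Bool) (s : ℕ → Bool) :
    (fun i => ins (m + k) b s (m + i)) = ins k b (fun i => s (m + i)) := ins_shift m k b s

/-- the first vertex does not depend on the gate -/
private theorem fv_gate (g b : Bool) {k : ℕ} (hk : 0 < k) (x : Cb S) (l : List (Cb S)) :
    H.ty g x l (ins k b z0) = H.ty false x l (ins k b z0) := by
  have h0 : ins k b z0 0 = false := ins_low _ _ hk
  cases l with
  | nil =>
    rw [ty_nil, ty_nil]
    unfold Ab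
    rw [h0, Bool.and_false, Bool.and_false]
  | cons y l =>
    rw [ty_cons, ty_cons]
    unfold Ab
    rw [h0, Bool.and_false, Bool.and_false]

/-- first vertex of the faces in the tail -/
private theorem fv_tail (g b : Bool) {k : ℕ} (x x' : Cb S) (l : List (Cb S)) :
    H.ty g x (x' :: l) (ins (1 + x.q + k) b z0) = S'.sh (d * x.r) (H.ty false x' l (ins k b z0)) := by
  have h0 : ins (1 + x.q + k) b z0 0 = false := ins_low _ _ (by omega)
  rw [ty_cons, H.Ab_low g x _ z0 (fun i hi => ins_low _ _ (by omega)), Ab_z0, one_mul, h0, Bool.and_false,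
    ins_tail]
  rfl

private theorem tail_y (g b : Bool) {k : ℕ} (hk : 0 < k) (x x' : Cb S) (l : List (Cb S)) (s : ℕ → Bool) :
    (H.ty g x (x' :: l) (ins (1 + x.q + k) b z0))⁻¹ * H.ty g x (x' :: l) (ins (1 + x.q + k) b s) =
      H.Ab g x s * S'.sh (d * x.r) ((H.ty (g && s 0) x' l (ins k b z0))⁻¹ *
        H.ty (g && s 0) x' l (ins k b fun i => s (1 + x.q + i))) := by
  have h0 : ins (1 + x.q + k) b s 0 = s 0 := ins_low _ _ (by omega)
  rw [fv_tail, ty_cons, ins_tail, h0, H.Ab_low g x (ins (1 + x.q + k) b s) s (fun i hi => ins_low _ _ (by omega)),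
    H.fv_gate (g && s 0) b hk, map_mul, ← mul_assoc, ← mul_assoc, ← map_inv,
    S'.sh_comm (d * x.r) _ _ (H.Ab_mem g x s)]

private theorem tail_l (g b : Bool) {k : ℕ} (hk : 0 < k) (x x' : Cb S) (l : List (Cb S)) (s : ℕ → Bool) :
    (H.ty g x (x' :: l) (ins (1 + x.q + k) b z0))⁻¹ • H.tl g x (x' :: l) (ins (1 + x.q + k) b s) =
      S'.jn (d * x.r) (H.Lb g x s) ((H.ty (g && s 0) x' l (ins k b z0))⁻¹ •
        H.tl (g && s 0) x' l (ins k b fun i => s (1 + x.q + i))) := by
  have h0 : ins (1 + x.q + k) b s 0 = s 0 := ins_low _ _ (by omega)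
  rw [fv_tail, tl_cons, ins_tail, h0, H.Lb_low g x (ins (1 + x.q + k) b s) s h0, H.fv_gate (g && s 0) b hk]
  have h1 := S'.jn_smul (d * x.r) (d * lr x' l) 1 ((H.ty false x' l (ins k b z0))⁻¹) (H.Lb g x s)
    (H.tl (g && s 0) x' l (ins k b fun i => s (1 + x.q + i))) (one_mem _) (inv_mem (H.ty_mem _ _ _ _))
    (H.Lb_mem _ _ _) (H.tl_mem _ _ _ _)
  rw [one_mul, one_smul, map_inv] at h1
  exact h1

private theorem lq_cons (x x' : Cb S) (l : List (Cb S)) : lq x (x' :: l) = 1 + x.q + lq x' l := rfl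

private theorem lr_cons (x x' : Cb S) (l : List (Cb S)) : lr x (x' :: l) = x.r + lr x' l := rfl

private theorem face_tail_lst (b : Bool) {k : ℕ} (hk : 0 < k) (x x' : Cb S) (l : List (Cb S)) (hq : k < lq x' l)
    (y : Cb S) (w : List (Cb S)) (h : ∀ g, (H.tg g x' l).face b k = H.tg g y w) (g : Bool) :
    (H.tg g x (x' :: l)).face b (1 + x.q + k) = H.tg g x (y :: w) := by
  have hq1 : 1 + x.q + k < (H.tg g x (x' :: l)).q := by
    show 1 + x.q + k < lq x (x' :: l)
    rw [lq_cons]
    omega
  have hr : lr x' l = lr y w := by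
    have h1 := congrArg Cb.r (h true)
    rw [Cb.face_r] at h1
    exact Nat.eq_of_mul_eq_mul_left H.d_pos h1
  have hqq : lq x' l - 1 = lq y w := by
    have h1 := congrArg Cb.q (h true)
    rw [Cb.face_q _ _ (show k < (H.tg true x' l).q from hq)] at h1
    exact h1
  refine Cb.ext ?_ ?_ ?_ ?_
  · rw [Cb.face_r]
    show d * lr x (x' :: l) = d * lr x (y :: w)
    rw [lr_cons, lr_cons, hr]
  · rw [Cb.face_q _ _ hq1]
    show lq x (x' :: l) - 1 = lq x (y :: w)
    rw [lq_cons, lq_cons]
    omega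
  · funext s
    rw [Cb.face_y _ _ hq1]
    show (H.ty g x (x' :: l) (ins (1 + x.q + k) b z0))⁻¹ * H.ty g x (x' :: l) (ins (1 + x.q + k) b s) =
      H.ty g x (y :: w) s
    rw [H.tail_y g b hk, ty_cons]
    have h1 := congrFun (congrArg Cb.y (h (g && s 0))) fun i => s (1 + x.q + i)
    rw [Cb.face_y _ _ (show k < (H.tg (g && s 0) x' l).q from hq)] at h1
    congr 2
  · funext s
    rw [Cb.face_l _ _ hq1]
    show (H.ty g x (x' :: l) (ins (1 + x.q + k) b z0))⁻¹ • H.tl g x (x' :: l) (ins (1 + x.q + k) b s) =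
      H.tl g x (y :: w) s
    rw [H.tail_l g b hk, tl_cons]
    have h1 := congrFun (congrArg Cb.l (h (g && s 0))) fun i => s (1 + x.q + i)
    rw [Cb.face_l _ _ (show k < (H.tg (g && s 0) x' l).q from hq)] at h1
    congr 1

private theorem face_tail_prd (b : Bool) {k : ℕ} (hk : 0 < k) (x x' : Cb S) (l : List (Cb S)) (hq : k < lq x' l)
    (y : Cb S) (w : List (Cb S)) (z : Cb S) (h : ∀ g, (H.tg g x' l).face b k = H.tg g y w * H.phi0.cb z) (g : Bool) :
    (H.tg g x (x' :: l)).face b (1 + x.q + k) = H.tg g x (y :: w) * H.phi0.cb z := by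
  have hq1 : 1 + x.q + k < (H.tg g x (x' :: l)).q := by
    show 1 + x.q + k < lq x (x' :: l)
    rw [lq_cons]
    omega
  have hr : lr x' l = lr y w + z.r := by
    have h1 := congrArg Cb.r (h true)
    rw [Cb.face_r] at h1
    have h2 : d * lr x' l = d * lr y w + d * z.r := h1
    rw [← Nat.mul_add] at h2
    exact Nat.eq_of_mul_eq_mul_left H.d_pos h2
  have hqq : lq x' l - 1 = lq y w + z.q := by
    have h1 := congrArg Cb.q (h true)
    rw [Cb.face_q _ _ (show k < (H.tg true x' l).q from hq)] at h1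
    exact h1
  refine Cb.ext ?_ ?_ ?_ ?_
  · rw [Cb.face_r]
    show d * lr x (x' :: l) = d * lr x (y :: w) + d * z.r
    rw [lr_cons, lr_cons, hr, ← Nat.mul_add, Nat.add_assoc]
  · rw [Cb.face_q _ _ hq1]
    show lq x (x' :: l) - 1 = lq x (y :: w) + z.q
    rw [lq_cons, lq_cons]
    omega
  · funext s
    rw [Cb.face_y _ _ hq1]
    show (H.ty g x (x' :: l) (ins (1 + x.q + k) b z0))⁻¹ * H.ty g x (x' :: l) (ins (1 + x.q + k) b s) =
      H.ty g x (y :: w) s * S'.sh (d * lr x (y :: w)) (H.fG (z.y fun i => s (lq x (y :: w) + i)))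
    rw [H.tail_y g b hk, ty_cons]
    have h1 := congrFun (congrArg Cb.y (h (g && s 0))) fun i => s (1 + x.q + i)
    rw [Cb.face_y _ _ (show k < (H.tg (g && s 0) x' l).q from hq)] at h1
    have h2 : (H.ty (g && s 0) x' l (ins k b z0))⁻¹ * H.ty (g && s 0) x' l (ins k b fun i => s (1 + x.q + i)) =
        H.ty (g && s 0) y w (fun i => s (1 + x.q + i)) *
          S'.sh (d * lr y w) (H.fG (z.y fun i => s (1 + x.q + (lq y w + i)))) := h1
    rw [h2, map_mul, S'.sh_sh, lr_cons, Nat.mul_add, mul_assoc]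
    congr 5
    funext i
    rw [lq_cons, Nat.add_assoc (1 + x.q)]
  · funext s
    rw [Cb.face_l _ _ hq1]
    show (H.ty g x (x' :: l) (ins (1 + x.q + k) b z0))⁻¹ • H.tl g x (x' :: l) (ins (1 + x.q + k) b s) =
      S'.jn (d * lr x (y :: w)) (H.tl g x (y :: w) s) (H.L0 z.r)
    rw [H.tail_l g b hk, tl_cons]
    have h1 := congrFun (congrArg Cb.l (h (g && s 0))) fun i => s (1 + x.q + i)
    rw [Cb.face_l _ _ (show k < (H.tg (g && s 0) x' l).q from hq)] at h1
    have h2 : (H.ty (g && s 0) x' l (ins k b z0))⁻¹ • H.tl (g && s 0) x' l (ins k b fun i => s (1 + x.q + i)) =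
        S'.jn (d * lr y w) (H.tl (g && s 0) y w (fun i => s (1 + x.q + i))) (H.L0 z.r) := h1
    rw [h2, lr_cons, Nat.mul_add, S'.jn_assoc]

private theorem ind_tail (b : Bool) {k : ℕ} (x x' : Cb S) (l : List (Cb S)) (k0 : ℕ)
    (h : H.Ind b k x' l k0) : H.Ind b (1 + x.q + k) x (x' :: l) (1 + x.q + k0) := by
  intro g s s' hs
  have h0 : ∀ i, i < 1 + x.q → ins (1 + x.q + k) b s i = ins (1 + x.q + k) b s' i := by
    intro i hi
    rw [ins_low _ _ (by omega), ins_low _ _ (by omega)]
    exact hs i (by omega)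
  obtain ⟨h1, h2⟩ := h (g && ins (1 + x.q + k) b s' 0) (fun i => s (1 + x.q + i)) (fun i => s' (1 + x.q + i)) (by
    intro i hi
    exact hs _ (by omega))
  constructor
  · rw [ty_cons, ty_cons, ins_tail, ins_tail, H.Ab_low g x _ _ h0, h0 0 (by omega), h1]
  · rw [tl_cons, tl_cons, ins_tail, ins_tail, H.Lb_low g x _ _ (h0 0 (by omega)), h0 0 (by omega), h2]

/-! ### the head coordinate -/

private theorem ins0 (b : Bool) (s : ℕ → Bool) : (fun i => ins 0 b s (1 + i)) = s := by
  funext i
  rw [ins_high _ _ (by omega)]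
  congr 1
  omega

private theorem ins0_tail (b : Bool) (s : ℕ → Bool) (m : ℕ) : (fun i => ins 0 b s (1 + m + i)) = fun i => s (m + i) := by
  funext i
  rw [ins_high _ _ (by omega)]
  congr 1
  omega

private theorem Ab_head (x : Cb S) (b : Bool) (s : ℕ → Bool) :
    H.Ab true x (ins 0 b s) = H.fG (x.y s) * (if b then H.tau x.r else 1) := by
  unfold Ab
  rw [ins0, ins_eq, Bool.true_and]

private theorem Lb_head (x : Cb S) (b : Bool) (s : ℕ → Bool) :
    H.Lb true x (ins 0 b s) = if b then H.L1 x.r else H.L0 x.r := by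
  unfold Lb
  rw [ins_eq, Bool.true_and]

private theorem fv_head (x : Cb S) (l : List (Cb S)) (b : Bool) :
    (H.th x l).fv b 0 = if b then H.tau x.r else 1 := by
  show H.ty true x l (ins 0 b z0) = _
  cases l with
  | nil => rw [ty_nil, Ab_head, x.y_zero, H.G_one, one_mul]
  | cons y l =>
    rw [ty_cons, Ab_head, x.y_zero, H.G_one, one_mul, ins0_tail]
    have h1 : H.ty (true && ins 0 b z0 0) y l (fun i => z0 (x.q + i)) = 1 := H.ty_zero _ y l
    rw [h1, map_one, mul_one]

private theorem tau_conj (x : Cb S) (s : ℕ → Bool) : (H.tau x.r)⁻¹ * (H.fG (x.y s) * H.tau x.r) = H.fG (x.y s) := by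
  rw [H.tau_comm x.r _ (x.y_mem s), inv_mul_cancel_left]

private theorem face_head_nil (x : Cb S) : (H.th x []).face true 0 = H.phi1.cb x := by
  have hq : 0 < (H.th x []).q := lq_pos x []
  refine Cb.ext ?_ ?_ ?_ ?_
  · rw [Cb.face_r]
    rfl
  · rw [Cb.face_q _ _ hq]
    show 1 + x.q - 1 = x.q
    omega
  · funext s
    rw [Cb.face_y _ _ hq, fv_head]
    show (if (true = true) then H.tau x.r else 1)⁻¹ * H.ty true x [] (ins 0 true s) = H.fG (x.y s)
    rw [if_pos rfl, ty_nil, Ab_head, if_pos rfl, H.tau_conj]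
  · funext s
    rw [Cb.face_l _ _ hq, fv_head]
    show (if (true = true) then H.tau x.r else 1)⁻¹ • H.tl true x [] (ins 0 true s) = (H.tau x.r)⁻¹ • H.L1 x.r
    rw [if_pos rfl, tl_nil, Lb_head, if_pos rfl]

private theorem face_head_cons (x x' : Cb S) (l : List (Cb S)) :
    (H.th x (x' :: l)).face true 0 = H.phi1.cb x * H.th x' l := by
  have hq : 0 < (H.th x (x' :: l)).q := lq_pos x (x' :: l)
  refine Cb.ext ?_ ?_ ?_ ?_
  · rw [Cb.face_r]
    show d * (x.r + lr x' l) = d * x.r + d * lr x' l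
    rw [Nat.mul_add]
  · rw [Cb.face_q _ _ hq]
    show 1 + x.q + lq x' l - 1 = x.q + lq x' l
    omega
  · funext s
    rw [Cb.face_y _ _ hq, fv_head]
    show (if (true = true) then H.tau x.r else 1)⁻¹ * H.ty true x (x' :: l) (ins 0 true s) =
      H.fG (x.y s) * S'.sh (d * x.r) (H.ty true x' l fun i => s (x.q + i))
    rw [if_pos rfl, ty_cons, Ab_head, if_pos rfl, ins0_tail, ins_eq, Bool.true_and, ← mul_assoc, H.tau_conj]
  · funext s
    rw [Cb.face_l _ _ hq, fv_head]
    show (if (true = true) then H.tau x.r else 1)⁻¹ • H.tl true x (x' :: l) (ins 0 true s) =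
      S'.jn (d * x.r) ((H.tau x.r)⁻¹ • H.L1 x.r) (H.tl true x' l fun i => s (x.q + i))
    rw [if_pos rfl, tl_cons, Lb_head, if_pos rfl, ins0_tail, ins_eq, Bool.true_and]
    have h1 := S'.jn_smul (d * x.r) (d * lr x' l) ((H.tau x.r)⁻¹) 1 (H.L1 x.r)
      (H.tl true x' l fun i => s (x.q + i)) (inv_mem (H.tau_mem _)) (one_mem _) (H.L1_mem _) (H.tl_mem _ _ _ _)
    rw [map_one, mul_one, one_smul] at h1
    exact h1

private theorem face_low_nil (x : Cb S) : (H.th x []).face false 0 = H.phi0.cb x := by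
  have hq : 0 < (H.th x []).q := lq_pos x []
  refine Cb.ext ?_ ?_ ?_ ?_
  · rw [Cb.face_r]
    rfl
  · rw [Cb.face_q _ _ hq]
    show 1 + x.q - 1 = x.q
    omega
  · funext s
    rw [Cb.face_y _ _ hq, fv_head]
    show (if (false = true) then H.tau x.r else 1)⁻¹ * H.ty true x [] (ins 0 false s) = H.fG (x.y s)
    rw [if_neg Bool.false_ne_true, ty_nil, Ab_head, if_neg Bool.false_ne_true, inv_one, one_mul, mul_one]
  · funext s
    rw [Cb.face_l _ _ hq, fv_head]
    show (if (false = true) then H.tau x.r else 1)⁻¹ • H.tl true x [] (ins 0 false s) = H.L0 x.r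
    rw [if_neg Bool.false_ne_true, tl_nil, Lb_head, if_neg Bool.false_ne_true, inv_one, one_smul]

private theorem face_low_cons (x x' : Cb S) (l : List (Cb S)) : ((H.th x (x' :: l)).face false 0).Dg := by
  have hq : 0 < (H.th x (x' :: l)).q := lq_pos x (x' :: l)
  refine ⟨x.q, ?_, fun s s' h => ⟨?_, ?_⟩⟩
  · rw [Cb.face_q _ _ hq]
    show x.q < 1 + x.q + lq x' l - 1
    have := lq_pos x' l
    omega
  · rw [Cb.face_y _ _ hq, Cb.face_y _ _ hq]
    congr 1
    show H.ty true x (x' :: l) (ins 0 false s) = H.ty true x (x' :: l) (ins 0 false s')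
    rw [ty_cons, ty_cons, Ab_head, Ab_head, ins0_tail, ins0_tail, ins_eq, ins_eq, Bool.and_false,
      x.y_dep s s' fun i hi => h i (by omega), H.ty_false x' l (fun i => s (x.q + i)) (fun i => s' (x.q + i))]
    intro i hi
    exact h _ (by omega)
  · rw [Cb.face_l _ _ hq, Cb.face_l _ _ hq]
    congr 1
    show H.tl true x (x' :: l) (ins 0 false s) = H.tl true x (x' :: l) (ins 0 false s')
    rw [tl_cons, tl_cons, Lb_head, Lb_head, ins0_tail, ins0_tail, ins_eq, ins_eq, Bool.and_false,
      H.tl_false x' l (fun i => s (x.q + i)) (fun i => s' (x.q + i))]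
    intro i hi
    exact h _ (by omega)

end Hty

/-! ### symbols of faces -/

/-- symbols: the cube of a list, the product with a last letter, degenerate -/
inductive Fc (S : Sys G P) : Type
  | lst : Cb S → List (Cb S) → Fc S
  | prd : Cb S → List (Cb S) → Cb S → Fc S
  | deg : Fc S

namespace Fc

variable {S : Sys G P}

/-- a new first letter -/
def cons (x : Cb S) : Fc S → Fc S
  | lst y w => lst x (y :: w)
  | prd y w z => prd x (y :: w) z
  | deg => deg

/-- the symbol of a list -/
def toF : List (Cb S) → Fc S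
  | [] => deg
  | x :: l => lst x l

/-- the symbol of the face `b` at the coordinate `j + 1` -/
def FF (b : Bool) : Cb S → List (Cb S) → ℕ → Fc S
  | x, [], j => lst (x.face b j) []
  | x, x' :: l, j =>
      if j < x.q then lst (x.face b j) (x' :: l)
      else if j = x.q then (if b then lst (x * x') l else if l.isEmpty then prd x [] x' else deg)
      else (FF b x' l (j - (x.q + 1))).cons x

/-- the remainder -/
def RR {M : Type} [AddCommGroup M] [Module ℚ M] : (Fc S → M) → Cb S → List (Cb S) → M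
  | _, _, [] => 0
  | e, x, x' :: l => (if l.isEmpty then (-1 : ℚ) ^ x.q • e (prd x [] x') else 0) +
      (-1 : ℚ) ^ (x.q + 1) • RR (fun f => e (f.cons x)) x' l

private theorem BD1_ne (c : Cb S) (l : List (Cb S)) : BD1 (c :: l) ∈ Finsupp.supported ℚ ℚ {w : List (Cb S) | w ≠ []} := by
  have hm : ∀ (f : Cb S → List (Cb S)) (_ : ∀ x, f x ≠ []) (u : Ch S),
      Finsupp.mapDomain f u ∈ Finsupp.supported ℚ ℚ {w : List (Cb S) | w ≠ []} := by
    intro f hf u
    rw [Finsupp.mapDomain]
    refine Submodule.sum_mem _ fun a _ => ?_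
    exact Finsupp.single_mem_supported ℚ _ (hf a)
  have hm2 : ∀ (u : BT S), Finsupp.mapDomain (fun x => c :: x) u ∈
      Finsupp.supported ℚ ℚ {w : List (Cb S) | w ≠ []} := by
    intro u
    rw [Finsupp.mapDomain]
    refine Submodule.sum_mem _ fun a _ => ?_
    exact Finsupp.single_mem_supported ℚ _ (List.cons_ne_nil _ _)
  cases l with
  | nil =>
    unfold BD1
    exact hm _ (fun x => List.cons_ne_nil _ _) _
  | cons c' l =>
    unfold BD1
    refine Submodule.add_mem _ (Submodule.add_mem _ (hm _ (fun x => List.cons_ne_nil _ _) _) ?_) ?_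
    · exact Submodule.smul_mem _ _ (Finsupp.single_mem_supported ℚ _ (List.cons_ne_nil _ _))
    · exact Submodule.smul_mem _ _ (hm2 _)

private theorem LC_bd1 {M : Type} [AddCommGroup M] [Module ℚ M] (e : Cb S → M) (x : Cb S) :
    Finsupp.linearCombination ℚ e (bd1 x) =
      ∑ k ∈ Finset.range x.q, (-1 : ℚ) ^ k • (e (x.face true k) - e (x.face false k)) := by
  unfold bd1
  rw [map_sum]
  refine Finset.sum_congr rfl fun k _ => ?_
  rw [map_smul, map_sub, Finsupp.linearCombination_single, Finsupp.linearCombination_single, one_smul, one_smul]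

private theorem sum_FF {M : Type} [AddCommGroup M] [Module ℚ M] (e : Fc S → M) (he : e deg = 0) (x : Cb S)
    (l : List (Cb S)) :
    ∑ j ∈ Finset.range (Hty.lq x l - 1), (-1 : ℚ) ^ (j + 1) • (e (FF true x l j) - e (FF false x l j)) =
      -Finsupp.linearCombination ℚ (fun w => e (toF w)) (BD1 (x :: l)) + RR e x l := by
  induction l generalizing x e with
  | nil =>
    have h1 : Hty.lq x [] - 1 = x.q := by unfold Hty.lq; omega
    have h2 : RR e x [] = 0 := rfl
    have h3 : BD1 [x] = Finsupp.mapDomain (fun x => [x]) (bd1 x) := rfl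
    rw [h1, h2, add_zero, h3, Finsupp.linearCombination_mapDomain, LC_bd1, ← Finset.sum_neg_distrib]
    refine Finset.sum_congr rfl fun k _ => ?_
    rw [pow_succ, mul_neg_one, neg_smul]
    rfl
  | cons x' l ih =>
    have h1 : Hty.lq x (x' :: l) - 1 = x.q + 1 + (Hty.lq x' l - 1) := by
      have := Hty.lq_pos x' l
      show 1 + x.q + Hty.lq x' l - 1 = _
      omega
    have h3 : BD1 (x :: x' :: l) = Finsupp.mapDomain (fun c => c :: x' :: l) (bd1 x) +
        (-1 : ℚ) ^ x.q • Finsupp.single ((x * x') :: l) 1 +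
        (-1 : ℚ) ^ (x.q + 1) • Finsupp.mapDomain (fun w => x :: w) (BD1 (x' :: l)) := rfl
    have h4 : RR e x (x' :: l) = (if l.isEmpty then (-1 : ℚ) ^ x.q • e (prd x [] x') else 0) +
      (-1 : ℚ) ^ (x.q + 1) • RR (fun f => e (f.cons x)) x' l := rfl
    have h5 : ∀ j, j ∈ Finset.range x.q →
        (-1 : ℚ) ^ (j + 1) • (e (FF true x (x' :: l) j) - e (FF false x (x' :: l) j)) =
          -((-1 : ℚ) ^ j • (e (toF (x.face true j :: x' :: l)) - e (toF (x.face false j :: x' :: l)))) := by
      intro j hj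
      rw [Finset.mem_range] at hj
      have f1 : ∀ b, FF b x (x' :: l) j = lst (x.face b j) (x' :: l) := by
        intro b
        rw [FF, if_pos hj]
      rw [f1, f1, pow_succ, mul_neg_one, neg_smul]
      rfl
    have h6 : ∀ j, ∀ b, FF b x (x' :: l) (x.q + 1 + j) = (FF b x' l j).cons x := by
      intro j b
      rw [FF, if_neg (by omega), if_neg (by omega)]
      congr 2
      omega
    have h7 : ∀ j, (-1 : ℚ) ^ (x.q + 1 + j + 1) • (e (FF true x (x' :: l) (x.q + 1 + j)) -
        e (FF false x (x' :: l) (x.q + 1 + j))) = (-1 : ℚ) ^ (x.q + 1) • ((-1 : ℚ) ^ (j + 1) •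
          (e ((FF true x' l j).cons x) - e ((FF false x' l j).cons x))) := by
      intro j
      rw [h6, h6, smul_smul, ← pow_add]
      congr 2
    have h8 := ih (fun f => e (f.cons x)) he x'
    have h9 : Finsupp.linearCombination ℚ (fun w => e ((toF w).cons x)) (BD1 (x' :: l)) =
        Finsupp.linearCombination ℚ (fun w => e (toF (x :: w))) (BD1 (x' :: l)) := by
      rw [Finsupp.linearCombination_apply, Finsupp.linearCombination_apply]
      refine Finset.sum_congr rfl fun w hw => ?_
      have h10 : w ≠ [] := (Finsupp.mem_supported ℚ _).1 (BD1_ne x' l) hw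
      cases w with
      | nil => exact absurd rfl h10
      | cons y w => rfl
    rw [h1, Finset.sum_range_add, Finset.sum_range_succ, Finset.sum_congr rfl h5,
      Finset.sum_congr rfl (fun j _ => h7 j), ← Finset.smul_sum, h8, h9, h3, h4, map_add, map_add, map_smul, map_smul,
      Finsupp.linearCombination_mapDomain, Finsupp.linearCombination_mapDomain, Finsupp.linearCombination_single,
      LC_bd1, Finset.sum_neg_distrib]
    have f2 : FF true x (x' :: l) x.q = toF ((x * x') :: l) := by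
      rw [FF, if_neg (lt_irrefl _), if_pos rfl, if_pos rfl]
      rfl
    have f3 : e (FF false x (x' :: l) x.q) = if l.isEmpty then e (prd x [] x') else 0 := by
      rw [FF, if_neg (lt_irrefl _), if_pos rfl, if_neg Bool.false_ne_true]
      split_ifs
      · rfl
      · exact he
    rw [f2, f3]
    simp only [Function.comp_def, one_smul]
    split_ifs
    · rw [pow_succ, mul_neg_one]
      module
    · rw [pow_succ, mul_neg_one]
      module

private theorem RR_eq {M : Type} [AddCommGroup M] [Module ℚ M] (e : Fc S → M) (x : Cb S) (l : List (Cb S)) (h : l ≠ []) :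
    RR e x l = -((-1 : ℚ) ^ (Hty.lq x l.dropLast) • e (prd x l.dropLast (l.getLast h))) := by
  induction l generalizing x e with
  | nil => exact absurd rfl h
  | cons x' l ih =>
    have h4 : RR e x (x' :: l) = (if l.isEmpty then (-1 : ℚ) ^ x.q • e (prd x [] x') else 0) +
      (-1 : ℚ) ^ (x.q + 1) • RR (fun f => e (f.cons x)) x' l := rfl
    cases l with
    | nil =>
      have h5 : RR (fun f => e (f.cons x)) x' [] = 0 := rfl
      rw [h4, h5, smul_zero, add_zero]
      show (-1 : ℚ) ^ x.q • e (prd x [] x') = -((-1 : ℚ) ^ (1 + x.q) • e (prd x [] x'))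
      rw [Nat.add_comm 1, pow_succ, mul_neg_one, neg_smul, neg_neg]
    | cons y l =>
      have h5 : (y :: l).isEmpty = false := rfl
      rw [h4, h5, if_neg Bool.false_ne_true, zero_add, ih (fun f => e (f.cons x)) x' (List.cons_ne_nil _ _)]
      have h6 : (x' :: y :: l).dropLast = x' :: (y :: l).dropLast := rfl
      have h7 : (x' :: y :: l).getLast h = (y :: l).getLast (List.cons_ne_nil _ _) := rfl
      rw [h6, h7, smul_neg, smul_smul, ← pow_add]
      congr 2
      show (-1 : ℚ) ^ (x.q + 1 + Hty.lq x' (y :: l).dropLast) = (-1 : ℚ) ^ (1 + x.q + Hty.lq x' (y :: l).dropLast)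
      rw [Nat.add_comm x.q 1]

end Fc

namespace Hty

variable {S : Sys G P} {S' : Sys G' P'} {d : ℕ} (H : Hty S S' d)

/-- meaning of the symbols -/
def Sp (b : Bool) (x : Cb S) (l : List (Cb S)) (j : ℕ) : Fc S → Prop
  | Fc.lst y w => ∀ g, (H.tg g x l).face b (j + 1) = H.tg g y w
  | Fc.prd y w z => ∀ g, (H.tg g x l).face b (j + 1) = H.tg g y w * H.phi0.cb z
  | Fc.deg => ∃ k0, k0 + 1 < lq x l ∧ H.Ind b (j + 1) x l k0

private theorem spec (b : Bool) (x : Cb S) (l : List (Cb S)) (j : ℕ) (hj : j + 1 < lq x l) :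
    H.Sp b x l j (Fc.FF b x l j) := by
  induction l generalizing x j with
  | nil =>
    have hj2 : j < x.q := by
      unfold lq at hj
      omega
    exact fun g => H.face_s g b x [] hj2
  | cons x' l ih =>
    rw [Fc.FF]
    rcases lt_trichotomy j x.q with h | h | h
    · rw [if_pos h]
      exact fun g => H.face_s g b x (x' :: l) h
    · subst h
      rw [if_neg (lt_irrefl _), if_pos rfl]
      have e1 : x.q + 1 = 1 + x.q := Nat.add_comm _ _
      cases b
      · rw [if_neg Bool.false_ne_true]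
        cases l with
        | nil =>
          show ∀ g, (H.tg g x [x']).face false (x.q + 1) = H.tg g x [] * H.phi0.cb x'
          rw [e1]
          exact fun g => H.face_last g x x'
        | cons y l =>
          show ∃ k0, k0 + 1 < lq x (x' :: y :: l) ∧ H.Ind false (x.q + 1) x (x' :: y :: l) k0
          rw [e1]
          refine ⟨1 + x.q + x'.q, ?_, H.ind_sep x x' y l⟩
          show 1 + x.q + x'.q + 1 < 1 + x.q + (1 + x'.q + lq y l)
          have := lq_pos y l
          omega
      · rw [if_pos rfl]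
        show ∀ g, (H.tg g x (x' :: l)).face true (x.q + 1) = H.tg g (x * x') l
        rw [e1]
        exact fun g => H.face_merge g x x' l
    · rw [if_neg (by omega), if_neg (by omega)]
      obtain ⟨i, rfl⟩ : ∃ i, j = x.q + 1 + i := ⟨j - (x.q + 1), by omega⟩
      have e1 : x.q + 1 + i - (x.q + 1) = i := by omega
      have e2 : x.q + 1 + i + 1 = 1 + x.q + (i + 1) := by omega
      have hi : i + 1 < lq x' l := by
        rw [lq_cons] at hj
        omega
      have h1 := ih x' i hi
      rw [e1]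
      generalize Fc.FF b x' l i = f at h1 ⊢
      cases f with
      | lst y w =>
        show ∀ g, (H.tg g x (x' :: l)).face b (x.q + 1 + i + 1) = H.tg g x (y :: w)
        rw [e2]
        exact fun g => H.face_tail_lst b (Nat.succ_pos i) x x' l hi y w h1 g
      | prd y w z =>
        show ∀ g, (H.tg g x (x' :: l)).face b (x.q + 1 + i + 1) = H.tg g x (y :: w) * H.phi0.cb z
        rw [e2]
        exact fun g => H.face_tail_prd b (Nat.succ_pos i) x x' l hi y w z h1 g
      | deg =>
        obtain ⟨k0, h2, h3⟩ := h1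
        show ∃ k0, k0 + 1 < lq x (x' :: l) ∧ H.Ind b (x.q + 1 + i + 1) x (x' :: l) k0
        rw [e2]
        refine ⟨1 + x.q + k0, ?_, H.ind_tail b x x' l k0 h3⟩
        rw [lq_cons]
        omega

/-- the chains of the symbols -/
def ev : Fc S → Ch S'
  | Fc.lst y w => Finsupp.single (H.th y w) 1
  | Fc.prd y w z => Finsupp.single (H.th y w * H.phi0.cb z) 1
  | Fc.deg => 0

private theorem ev_spec (b : Bool) (x : Cb S) (l : List (Cb S)) (j : ℕ) (hj : j + 1 < lq x l) :
    Finsupp.single ((H.th x l).face b (j + 1)) 1 - H.ev (Fc.FF b x l j) ∈ DegC S' := by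
  have h1 := H.spec b x l j hj
  generalize Fc.FF b x l j = f at h1 ⊢
  cases f with
  | lst y w =>
    have h2 : (H.th x l).face b (j + 1) = H.th y w := h1 true
    rw [h2]
    show Finsupp.single (H.th y w) 1 - Finsupp.single (H.th y w) 1 ∈ DegC S'
    rw [sub_self]
    exact Submodule.zero_mem _
  | prd y w z =>
    have h2 : (H.th x l).face b (j + 1) = H.th y w * H.phi0.cb z := h1 true
    rw [h2]
    show Finsupp.single (H.th y w * H.phi0.cb z) 1 - Finsupp.single (H.th y w * H.phi0.cb z) 1 ∈ DegC S'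
    rw [sub_self]
    exact Submodule.zero_mem _
  | deg =>
    obtain ⟨k0, h2, h3⟩ := h1
    show Finsupp.single ((H.th x l).face b (j + 1)) 1 - 0 ∈ DegC S'
    rw [sub_zero]
    refine Finsupp.single_mem_supported ℚ _ ?_
    have hq : j + 1 < (H.th x l).q := hj
    refine ⟨k0, ?_, fun s s' h => ?_⟩
    · rw [Cb.face_q _ _ hq]
      show k0 < lq x l - 1
      omega
    · obtain ⟨h4, h5⟩ := h3 true s s' h
      rw [Cb.face_y _ _ hq, Cb.face_y _ _ hq, Cb.face_l _ _ hq, Cb.face_l _ _ hq]
      constructor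
      · congr 1
      · congr 1

theorem bd1_th (x : Cb S) (l : List (Cb S)) :
    bd1 (H.th x l) + Finsupp.linearCombination ℚ H.thl (BD1 (x :: l)) - H.hd x l + H.lt x l ∈ DegC S' := by
  have hq : (H.th x l).q = (lq x l - 1) + 1 := by
    have := lq_pos x l
    show lq x l = _
    omega
  have h1 := Fc.sum_FF H.ev rfl x l
  have h2 : (fun w => H.ev (Fc.toF w)) = H.thl := by
    funext w
    cases w <;> rfl
  rw [h2] at h1
  have h3 : bd1 (H.th x l) = ∑ j ∈ Finset.range (lq x l - 1), (-1 : ℚ) ^ (j + 1) •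
      (Finsupp.single ((H.th x l).face true (j + 1)) 1 - Finsupp.single ((H.th x l).face false (j + 1)) 1) +
      (Finsupp.single ((H.th x l).face true 0) 1 - Finsupp.single ((H.th x l).face false 0) 1) := by
    unfold bd1
    rw [hq, Finset.sum_range_succ', pow_zero, one_smul]
  have h4 : ∑ j ∈ Finset.range (lq x l - 1), (-1 : ℚ) ^ (j + 1) •
      (Finsupp.single ((H.th x l).face true (j + 1)) 1 - Finsupp.single ((H.th x l).face false (j + 1)) 1) -
      ∑ j ∈ Finset.range (lq x l - 1), (-1 : ℚ) ^ (j + 1) •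
        (H.ev (Fc.FF true x l j) - H.ev (Fc.FF false x l j)) ∈ DegC S' := by
    rw [← Finset.sum_sub_distrib]
    refine Submodule.sum_mem _ fun j hj => ?_
    rw [Finset.mem_range] at hj
    rw [← smul_sub]
    refine Submodule.smul_mem _ _ ?_
    have e1 := H.ev_spec true x l j (by omega)
    have e2 := H.ev_spec false x l j (by omega)
    have e3 := Submodule.sub_mem _ e1 e2
    have e4 : Finsupp.single ((H.th x l).face true (j + 1)) (1 : ℚ) - Finsupp.single ((H.th x l).face false (j + 1)) 1 -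
        (H.ev (Fc.FF true x l j) - H.ev (Fc.FF false x l j)) =
        Finsupp.single ((H.th x l).face true (j + 1)) 1 - H.ev (Fc.FF true x l j) -
        (Finsupp.single ((H.th x l).face false (j + 1)) 1 - H.ev (Fc.FF false x l j)) := by abel
    rw [e4]
    exact e3
  rw [h1] at h4
  cases l with
  | nil =>
    have h5 : H.hd x [] = Finsupp.single (H.phi1.cb x) 1 := rfl
    have h6 : H.lt x [] = Finsupp.single (H.phi0.cb x) 1 := by
      unfold lt
      rw [dif_pos rfl]
    have h7 : Fc.RR H.ev x [] = 0 := rfl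
    rw [h3, h5, h6, face_head_nil, face_low_nil]
    rw [h7, add_zero] at h4
    refine (congrArg (· ∈ DegC S') ?_).mp h4
    abel
  | cons x' l =>
    have h5 : H.hd x (x' :: l) = Finsupp.single (H.phi1.cb x * H.th x' l) 1 := rfl
    have h6 : H.lt x (x' :: l) = -Fc.RR H.ev x (x' :: l) := by
      rw [Fc.RR_eq H.ev x (x' :: l) (List.cons_ne_nil _ _), neg_neg]
      unfold lt
      rw [dif_neg (List.cons_ne_nil _ _)]
      rfl
    have h8 : Finsupp.single ((H.th x (x' :: l)).face false 0) (1 : ℚ) ∈ DegC S' :=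
      Finsupp.single_mem_supported ℚ _ (H.face_low_cons x x' l)
    rw [h3, h5, h6, face_head_cons]
    refine (congrArg (· ∈ DegC S') ?_).mp (Submodule.sub_mem _ h4 h8)
    abel

end Hty

end St16
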