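import Pool.Agent.LibSt16.Th

/-!
LibSt16/ThA: interface between the cube part and the list part of the homotopy `Th` (helper95, helper77).
-/

set_option autoImplicit false

noncomputable section

namespace St16

variable {G P G' P' : Type} [Group G] [Preorder P] [MulAction G P] [Group G'] [Preorder P'] [MulAction G' P']

/-- number of coordinates and separators of a list: sum of `q + 1` -/
def sg95 {S : Sys G P} : List (Cb S) → ℕ
  | [] => 0
  | x :: l => x.q + 1 + sg95 l

namespace Hty

variable {S : Sys G P} {S' : Sys G' P'} {d : ℕ} (H : Hty S S' d)

/-- the cube `th` of a list, as a chain (`0` on the empty list) -/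
def tc95 : List (Cb S) → Ch S'
  | [] => 0
  | x :: l => Finsupp.single (H.th x l) 1

/-- the face `a_1 = 1` -/
def tf95 : List (Cb S) → Ch S'
  | [] => 0
  | [x] => Finsupp.single (H.phi1.cb x) 1
  | x :: x' :: l => Finsupp.single (H.phi1.cb x * H.th x' l) 1

/-- product of the cube of a list with `c` -/
def tg95 : List (Cb S) → Cb S' → Ch S'
  | [], c => Finsupp.single c 1
  | x :: l, c => Finsupp.single (H.th x l * c) 1

end Hty

end St16
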