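import Pool.Agent.LibSt16.ThA

/-!
LibSt16/ThC: list part of the homotopy `Th` (sums over splittings of a list).
-/

set_option autoImplicit false

noncomputable section

namespace St16

variable {G P G' P' : Type} [Group G] [Preorder P] [MulAction G P] [Group G'] [Preorder P'] [MulAction G' P']

/-! ### morphisms commute with faces and products -/

private theorem thc_inv {S : Sys G P} {S' : Sys G' P'} {d : ℕ} (f : SHom S S' d) (n : ℕ) (g : G)
    (hg : g ∈ S.Gn n) : f.fG g⁻¹ = (f.fG g)⁻¹ := by
  rw [eq_inv_iff_mul_eq_one, ← f.G_mul n _ _ (inv_mem hg) hg, inv_mul_cancel, f.G_one]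

private theorem thc_face {S : Sys G P} {S' : Sys G' P'} {d : ℕ} (f : SHom S S' d) (c : Cb S) (b : Bool)
    (k : ℕ) : f.cb (c.face b k) = (f.cb c).face b k := by
  by_cases h : k < c.q
  · have h' : k < (f.cb c).q := h
    unfold Cb.face
    rw [dif_pos h, dif_pos h']
    refine Cb.ext rfl rfl ?_ ?_
    · funext s
      show f.fG ((c.y (ins k b z0))⁻¹ * c.y (ins k b s)) = (f.fG (c.y (ins k b z0)))⁻¹ * f.fG (c.y (ins k b s))
      rw [f.G_mul c.r _ _ (inv_mem (c.y_mem _)) (c.y_mem _), thc_inv f c.r _ (c.y_mem _)]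
    · funext s
      show f.fP c.r ((c.y (ins k b z0))⁻¹ • c.l (ins k b s)) = (f.fG (c.y (ins k b z0)))⁻¹ • f.fP c.r (c.l (ins k b s))
      rw [f.P_smul c.r _ _ (inv_mem (c.y_mem _)) (c.l_mem _), thc_inv f c.r _ (c.y_mem _)]
  · have h' : ¬ k < (f.cb c).q := h
    unfold Cb.face
    rw [dif_neg h, dif_neg h']

private theorem thc_mul {S : Sys G P} {S' : Sys G' P'} {d : ℕ} (f : SHom S S' d) (c c' : Cb S) :
    f.cb (c * c') = f.cb c * f.cb c' := by
  refine Cb.ext (Nat.mul_add _ _ _) rfl ?_ ?_
  · funext s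
    exact f.G_sh _ _ _ _ (c.y_mem _) (c'.y_mem _)
  · funext s
    exact f.P_jn _ _ _ _ (c.l_mem _) (c'.l_mem _)

private theorem thc_bd1 {S : Sys G P} {S' : Sys G' P'} {d : ℕ} (f : SHom S S' d) (c : Cb S) :
    bd1 (f.cb c) = Finsupp.mapDomain f.cb (bd1 c) := by
  unfold bd1
  rw [Finsupp.mapDomain_finset_sum]
  refine Finset.sum_congr rfl fun k _ => ?_
  rw [Finsupp.mapDomain_smul, ← Finsupp.lmapDomain_apply ℚ ℚ, map_sub, Finsupp.lmapDomain_apply,
    Finsupp.lmapDomain_apply, Finsupp.mapDomain_single, Finsupp.mapDomain_single, thc_face, thc_face]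

/-! ### sums over splittings -/

section splits

variable {S : Sys G P} {M : Type} [AddCommGroup M] [Module ℚ M] {M' : Type} [AddCommGroup M'] [Module ℚ M']

/-- linear extension -/
private abbrev lin (f : List (Cb S) → M) : BT S →ₗ[ℚ] M := Finsupp.linearCombination ℚ f

private def Sp95 : (List (Cb S) → List (Cb S) → M) → List (Cb S) → M
  | Φ, [] => Φ [] []
  | Φ, x :: l => Φ [] (x :: l) + Sp95 (fun v t => Φ (x :: v) t) l

private theorem Sp_add (Φ Ψ : List (Cb S) → List (Cb S) → M) (w : List (Cb S)) :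
    Sp95 (fun v t => Φ v t + Ψ v t) w = Sp95 Φ w + Sp95 Ψ w := by
  induction w generalizing Φ Ψ with
  | nil => rfl
  | cons x l ih =>
    simp only [Sp95]
    rw [ih]
    abel

private theorem Sp_smul (a : ℚ) (Φ : List (Cb S) → List (Cb S) → M) (w : List (Cb S)) :
    Sp95 (fun v t => a • Φ v t) w = a • Sp95 Φ w := by
  induction w generalizing Φ with
  | nil => rfl
  | cons x l ih =>
    simp only [Sp95]
    rw [ih, smul_add]

private theorem Sp_zero (w : List (Cb S)) : Sp95 (fun _ _ => (0 : M)) w = 0 := by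
  induction w with
  | nil => rfl
  | cons x l ih =>
    simp only [Sp95]
    rw [ih, add_zero]

private theorem Sp_map (f : M →ₗ[ℚ] M') (Φ : List (Cb S) → List (Cb S) → M) (w : List (Cb S)) :
    f (Sp95 Φ w) = Sp95 (fun v t => f (Φ v t)) w := by
  induction w generalizing Φ with
  | nil => rfl
  | cons x l ih =>
    simp only [Sp95]
    rw [map_add, ih]

/-- exchange of a linear combination with `Sp95` -/
private theorem Sp_lc {X : Type} (Φ : X → List (Cb S) → List (Cb S) → M) (b : X →₀ ℚ) (w : List (Cb S)) :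
    Finsupp.linearCombination ℚ (fun c => Sp95 (Φ c) w) b =
      Sp95 (fun v t => Finsupp.linearCombination ℚ (fun c => Φ c v t) b) w := by
  induction w generalizing Φ with
  | nil => rfl
  | cons x l ih =>
    simp only [Sp95]
    rw [← ih]
    simp only [Finsupp.linearCombination_apply, Finsupp.sum, smul_add, Finset.sum_add_distrib]

private theorem lc_single {X Y : Type} (g : X → Y) (b : X →₀ ℚ) :
    Finsupp.linearCombination ℚ (fun c => Finsupp.single (g c) (1 : ℚ)) b = Finsupp.mapDomain g b := by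
  rw [Finsupp.linearCombination_apply]
  unfold Finsupp.mapDomain
  refine Finsupp.sum_congr fun c _ => ?_
  rw [Finsupp.smul_single, smul_eq_mul, mul_one]

private def act : Cb S → List (Cb S) → BT S
  | _, [] => 0
  | x, x' :: l => Finsupp.single ((x * x') :: l) 1

private theorem BD1_cons (x : Cb S) (l : List (Cb S)) :
    BD1 (x :: l) = Finsupp.mapDomain (fun c => c :: l) (bd1 x) + (-1 : ℚ) ^ x.q • act x l +
      (-1 : ℚ) ^ (x.q + 1) • Finsupp.mapDomain (fun v => x :: v) (BD1 l) := by
  cases l with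
  | nil => simp [BD1, act]
  | cons x' l => rfl

private theorem lin_BD1_cons (f : List (Cb S) → M) (x : Cb S) (l : List (Cb S)) :
    lin f (BD1 (x :: l)) = Finsupp.linearCombination ℚ (fun c => f (c :: l)) (bd1 x) +
      (-1 : ℚ) ^ x.q • lin f (act x l) + (-1 : ℚ) ^ (x.q + 1) • lin (fun v => f (x :: v)) (BD1 l) := by
  rw [BD1_cons, map_add, map_add, map_smul, map_smul, Finsupp.linearCombination_mapDomain,
    Finsupp.linearCombination_mapDomain]
  rfl

private theorem lin_add (f g : List (Cb S) → M) (b : BT S) :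
    lin (fun v => f v + g v) b = lin f b + lin g b := by
  simp only [Finsupp.linearCombination_apply, Finsupp.sum, smul_add, Finset.sum_add_distrib]

private theorem lc_add {X : Type} (f g : X → M) (b : X →₀ ℚ) :
    Finsupp.linearCombination ℚ (fun v => f v + g v) b =
      Finsupp.linearCombination ℚ f b + Finsupp.linearCombination ℚ g b := by
  simp only [Finsupp.linearCombination_apply, Finsupp.sum, smul_add, Finset.sum_add_distrib]

private theorem lin_Sp_act (Φ : List (Cb S) → List (Cb S) → M) (x : Cb S) (l : List (Cb S)) :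
    lin (Sp95 Φ) (act x l) = lin (Φ []) (act x l) + Sp95 (fun v t => lin (fun v' => Φ v' t) (act x v)) l := by
  cases l with
  | nil => simp [act, Sp95]
  | cons x' l =>
    simp only [act, Sp95, Finsupp.linearCombination_single, one_smul, map_zero, zero_add]

private theorem lin_Sp_BD1 (Φ : List (Cb S) → List (Cb S) → M) (w : List (Cb S)) :
    lin (Sp95 Φ) (BD1 w) =
      Sp95 (fun v t => lin (fun v' => Φ v' t) (BD1 v) + (-1 : ℚ) ^ (sg95 v) • lin (Φ v) (BD1 t)) w := by
  induction w generalizing Φ with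
  | nil => simp [BD1, Sp95]
  | cons x l ih =>
    rw [lin_BD1_cons]
    simp only [Sp95]
    have h1 : Finsupp.linearCombination ℚ (fun c => Φ [] (c :: l) + Sp95 (fun v t => Φ (c :: v) t) l) (bd1 x) =
        Finsupp.linearCombination ℚ (fun c => Φ [] (c :: l)) (bd1 x) +
          Sp95 (fun v t => Finsupp.linearCombination ℚ (fun c => Φ (c :: v) t) (bd1 x)) l := by
      rw [lc_add, Sp_lc (fun c v t => Φ (c :: v) t)]
    have h2 := lin_Sp_act Φ x l
    have h3 : lin (fun v => Φ [] (x :: v) + Sp95 (fun v t => Φ (x :: v) t) v) (BD1 l) =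
        lin (fun v => Φ [] (x :: v)) (BD1 l) +
          Sp95 (fun v t => lin (fun v' => Φ (x :: v') t) (BD1 v) + (-1 : ℚ) ^ (sg95 v) • lin (Φ (x :: v)) (BD1 t)) l := by
      rw [lin_add]
      rw [ih]
    have h4 : Sp95 (fun v t => lin (fun v' => Φ v' t) (BD1 (x :: v)) +
          (-1 : ℚ) ^ (sg95 (x :: v)) • lin (Φ (x :: v)) (BD1 t)) l =
        Sp95 (fun v t => Finsupp.linearCombination ℚ (fun c => Φ (c :: v) t) (bd1 x)) l +
          (-1 : ℚ) ^ x.q • Sp95 (fun v t => lin (fun v' => Φ v' t) (act x v)) l +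
          (-1 : ℚ) ^ (x.q + 1) • Sp95 (fun v t => lin (fun v' => Φ (x :: v') t) (BD1 v) +
            (-1 : ℚ) ^ (sg95 v) • lin (Φ (x :: v)) (BD1 t)) l := by
      rw [← Sp_smul, ← Sp_smul, ← Sp_add, ← Sp_add]
      congr 1
      funext v t
      rw [lin_BD1_cons, smul_add, smul_smul, ← pow_add]
      have : sg95 (x :: v) = x.q + 1 + sg95 v := rfl
      rw [this]
      abel
    rw [h1, h2, h3, h4, lin_BD1_cons (Φ [])]
    have h5 : lin (fun v' => Φ v' (x :: l)) (BD1 ([] : List (Cb S))) = 0 := by
      show lin _ (0 : BT S) = 0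
      rw [map_zero]
    have h6 : sg95 ([] : List (Cb S)) = 0 := rfl
    rw [h5, h6, pow_zero, one_smul, smul_add, smul_add]
    abel

private theorem Sp_shift (N : Submodule ℚ M) (Φ Ψ : List (Cb S) → List (Cb S) → M)
    (h : ∀ v y t, Φ (v ++ [y]) t + Ψ v (y :: t) ∈ N) (h0 : ∀ v, Ψ v [] = 0) (w : List (Cb S)) :
    Sp95 Φ w + Sp95 Ψ w - Φ [] w ∈ N := by
  induction w generalizing Φ Ψ with
  | nil =>
    simp only [Sp95, h0, add_zero, sub_self]
    exact N.zero_mem
  | cons x l ih =>
    simp only [Sp95]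
    have h1 := ih (fun v t => Φ (x :: v) t) (fun v t => Ψ (x :: v) t)
      (fun v y t => h (x :: v) y t) (fun v => h0 (x :: v))
    have h2 := h [] x l
    have h3 := N.add_mem h1 h2
    have : Φ [] (x :: l) + Sp95 (fun v t => Φ (x :: v) t) l + (Ψ [] (x :: l) + Sp95 (fun v t => Ψ (x :: v) t) l) -
        Φ [] (x :: l) = Sp95 (fun v t => Φ (x :: v) t) l + Sp95 (fun v t => Ψ (x :: v) t) l - Φ (x :: []) l +
          (Φ ([] ++ [x]) l + Ψ [] (x :: l)) := by
      show _ = Sp95 (fun v t => Φ (x :: v) t) l + Sp95 (fun v t => Ψ (x :: v) t) l - Φ (x :: []) l +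
          (Φ [x] l + Ψ [] (x :: l))
      abel
    rw [this]
    exact h3

/-- two functions which agree for nonempty first part -/
private theorem Sp_nil_diff (Φ Ψ : List (Cb S) → List (Cb S) → M)
    (h : ∀ x v t, Φ (x :: v) t = Ψ (x :: v) t) (w : List (Cb S)) :
    Sp95 Φ w = Sp95 Ψ w + (Φ [] w - Ψ [] w) := by
  cases w with
  | nil => simp [Sp95]
  | cons x l =>
    simp only [Sp95]
    have : (fun v t => Φ (x :: v) t) = (fun v t => Ψ (x :: v) t) := by
      funext v t; exact h x v t
    rw [this]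
    abel

private theorem Sp_range (Φ : List (Cb S) → List (Cb S) → M) (w : List (Cb S)) :
    Sp95 Φ w = ∑ k ∈ Finset.range (w.length + 1), Φ (w.take k) (w.drop k) := by
  induction w generalizing Φ with
  | nil => simp [Sp95]
  | cons x l ih =>
    simp only [Sp95]
    rw [ih, Finset.sum_range_succ' _ (x :: l).length]
    simp only [List.take_succ_cons, List.drop_succ_cons, List.take_zero, List.drop_zero,
      List.length_cons]
    abel

end splits

/-! ### the operator `Th` -/

section consL

variable {S : Sys G P}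

private def actL (c : Cb S) : BT S →ₗ[ℚ] BT S := Finsupp.linearCombination ℚ (act c)

private theorem BD_cons (c : Cb S) (W : BT S) :
    BD (Finsupp.mapDomain (fun v => c :: v) W) =
      Finsupp.linearCombination ℚ (fun v => Finsupp.mapDomain (fun c' => c' :: v) (bd1 c)) W +
        (-1 : ℚ) ^ c.q • actL c W +
        (-1 : ℚ) ^ (c.q + 1) • Finsupp.mapDomain (fun v => c :: v) (BD W) := by
  induction W using Finsupp.induction_linear with
  | zero => simp
  | add f g hf hg =>
    rw [Finsupp.mapDomain_add, map_add, hf, hg, map_add, map_add, map_add, Finsupp.mapDomain_add,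
      smul_add, smul_add]
    abel
  | single v a =>
    rw [Finsupp.mapDomain_single]
    unfold BD actL
    rw [Finsupp.linearCombination_single, Finsupp.linearCombination_single,
      Finsupp.linearCombination_single, Finsupp.linearCombination_single, BD1_cons,
      Finsupp.mapDomain_smul, smul_add, smul_add, smul_comm a, smul_comm a]

private theorem face_q (c : Cb S) (b : Bool) (k : ℕ) (h : k < c.q) : (c.face b k).q + 1 = c.q := by
  unfold Cb.face
  rw [dif_pos h]
  show c.q - 1 + 1 = c.q
  omega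

/-- on the support of the boundary the dimension is one less -/
private theorem lc_bd1_congr {M : Type} [AddCommGroup M] [Module ℚ M] (f g : Cb S → M) (x : Cb S)
    (h : ∀ c : Cb S, c.q + 1 = x.q → f c = g c) :
    Finsupp.linearCombination ℚ f (bd1 x) = Finsupp.linearCombination ℚ g (bd1 x) := by
  unfold bd1
  rw [map_sum, map_sum]
  refine Finset.sum_congr rfl fun k hk => ?_
  have hk' : k < x.q := Finset.mem_range.mp hk
  rw [map_smul, map_smul, map_sub, map_sub, Finsupp.linearCombination_single,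
    Finsupp.linearCombination_single, Finsupp.linearCombination_single,
    Finsupp.linearCombination_single, h _ (face_q x true k hk'), h _ (face_q x false k hk')]

end consL

private theorem thc_BD1 {S : Sys G P} {S' : Sys G' P'} {d : ℕ} (f : SHom S S' d) (w : List (Cb S)) :
    BD1 (w.map f.cb) = Finsupp.mapDomain (List.map f.cb) (BD1 w) := by
  induction w with
  | nil => simp [BD1]
  | cons x l ih =>
    rw [List.map_cons, BD1_cons, BD1_cons, Finsupp.mapDomain_add, Finsupp.mapDomain_add,
      Finsupp.mapDomain_smul, Finsupp.mapDomain_smul, thc_bd1, ih, ← Finsupp.mapDomain_comp,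
      ← Finsupp.mapDomain_comp, ← Finsupp.mapDomain_comp, ← Finsupp.mapDomain_comp]
    have h1 : act (f.cb x) (l.map f.cb) = Finsupp.mapDomain (List.map f.cb) (act x l) := by
      cases l with
      | nil => simp [act]
      | cons x' l => simp only [act, List.map_cons, Finsupp.mapDomain_single, thc_mul]
    rw [h1]
    rfl

namespace Hty

variable {S : Sys G P} {S' : Sys G' P'} {d : ℕ} (H : Hty S S' d)

/-- prepend a chain to a list -/
private def cn (t : List (Cb S')) : Ch S' →ₗ[ℚ] BT S' := Finsupp.lmapDomain ℚ ℚ (fun c => c :: t)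

private theorem cn_single (t : List (Cb S')) (c : Cb S') (a : ℚ) :
    cn t (Finsupp.single c a) = Finsupp.single (c :: t) a := by
  unfold cn
  rw [Finsupp.lmapDomain_apply, Finsupp.mapDomain_single]

private theorem cn_deg (t : List (Cb S')) (z : Ch S') (hz : z ∈ DegC S') : cn t z ∈ DegB S' := by
  unfold DegC at hz
  rw [Finsupp.supported_eq_span_single] at hz
  refine Submodule.span_induction (p := fun z _ => cn t z ∈ DegB S') ?_ ?_ ?_ ?_ hz
  · rintro z ⟨c, hc, rfl⟩
    rw [cn_single]
    exact Finsupp.single_mem_supported ℚ 1 ⟨c, List.mem_cons_self, hc⟩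
  · rw [map_zero]; exact Submodule.zero_mem _
  · intro z z' _ _ h h'
    rw [map_add]; exact Submodule.add_mem _ h h'
  · intro a z _ h
    rw [map_smul]; exact Submodule.smul_mem _ _ h

private def Ph (v t : List (Cb S)) : BT S' := cn (t.map H.phi0.cb) (H.tc95 v)

private theorem Ph_nil (t : List (Cb S)) : Ph H [] t = 0 := by
  unfold Ph tc95
  rw [map_zero]

private theorem Ph_cons (x : Cb S) (v t : List (Cb S)) :
    Ph H (x :: v) t = Finsupp.single (H.th x v :: t.map H.phi0.cb) 1 := by
  unfold Ph tc95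
  rw [cn_single]

private theorem pre_eq (x : Cb S) (l : List (Cb S)) : H.pre x l = Sp95 (Ph H) (x :: l) := by
  simp only [Sp95]
  rw [Ph_nil, zero_add, Sp_range]
  unfold pre
  exact Finset.sum_congr rfl fun k _ => (Ph_cons H x _ _).symm

private theorem Th1_cons (x : Cb S) (l : List (Cb S)) :
    H.Th1 (x :: l) = Sp95 (Ph H) (x :: l) +
      (-1 : ℚ) ^ (x.q + 1) • Finsupp.mapDomain (fun w => H.phi1.cb x :: w) (H.Th1 l) := by
  rw [← pre_eq]
  rfl

private def Psi : List (Cb S) → List (Cb S) → BT S'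
  | _, [] => 0
  | v, y :: t => (-1 : ℚ) ^ (sg95 v) • cn (t.map H.phi0.cb) (H.tg95 v (H.phi0.cb y))

private def XX (v : List (Cb S)) : Ch S' := bd (H.tc95 v) + Finsupp.linearCombination ℚ H.tc95 (BD1 v)

private theorem th_q (x : Cb S) (v : List (Cb S)) : (H.th x v).q = sg95 (x :: v) := by
  show lq x v = sg95 (x :: v)
  induction v generalizing x with
  | nil => unfold lq sg95 sg95; omega
  | cons x' v ih => unfold lq sg95; rw [ih]; omega

private theorem A_cons (x : Cb S) (v t : List (Cb S)) :
    BD (Ph H (x :: v) t) + (lin (fun v' => Ph H v' t) (BD1 (x :: v)) +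
      (-1 : ℚ) ^ (sg95 (x :: v)) • lin (Ph H (x :: v)) (BD1 t)) =
    cn (t.map H.phi0.cb) (XX H (x :: v)) + Psi H (x :: v) t := by
  have h1 : BD (Ph H (x :: v) t) = cn (t.map H.phi0.cb) (bd (H.tc95 (x :: v))) +
      Psi H (x :: v) t + (-1 : ℚ) ^ (sg95 (x :: v) + 1) •
        Finsupp.mapDomain (fun w => H.th x v :: w) (BD1 (t.map H.phi0.cb)) := by
    rw [Ph_cons]
    unfold BD
    rw [Finsupp.linearCombination_single, one_smul, BD1_cons, th_q]
    have h2 : bd (H.tc95 (x :: v)) = bd1 (H.th x v) := by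
      unfold tc95 bd
      rw [Finsupp.linearCombination_single, one_smul]
    have h3 : (-1 : ℚ) ^ (sg95 (x :: v)) • act (H.th x v) (t.map H.phi0.cb) = Psi H (x :: v) t := by
      cases t with
      | nil => simp [act, Psi]
      | cons y t =>
        simp only [act, Psi, List.map_cons, tg95]
        rw [cn_single]
    rw [h2, h3]
    rfl
  have h2 : lin (fun v' => Ph H v' t) (BD1 (x :: v)) =
      cn (t.map H.phi0.cb) (Finsupp.linearCombination ℚ H.tc95 (BD1 (x :: v))) := by
    unfold Ph
    rw [Finsupp.apply_linearCombination]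
    rfl
  have h3 : lin (Ph H (x :: v)) (BD1 t) =
      Finsupp.mapDomain (fun w => H.th x v :: w) (BD1 (t.map H.phi0.cb)) := by
    rw [thc_BD1, ← Finsupp.mapDomain_comp]
    have h4 : Ph H (x :: v) = fun t => Finsupp.single (H.th x v :: t.map H.phi0.cb) 1 := by
      funext t; exact Ph_cons H x v t
    rw [h4]
    exact lc_single _ _
  rw [h1, h2, h3]
  unfold XX
  rw [map_add, pow_succ]
  simp only [mul_neg, mul_one, neg_smul]
  abel

private theorem XX_nil : XX H [] = 0 := by
  unfold XX tc95 BD1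
  simp

variable (hth : ∀ (u : List (Cb S)) (y : Cb S), bd (H.tc95 (u ++ [y])) +
    Finsupp.linearCombination ℚ H.tc95 (BD1 (u ++ [y])) -
      (H.tf95 (u ++ [y]) - (-1 : ℚ) ^ (sg95 u) • H.tg95 u (H.phi0.cb y)) ∈ DegC S')

include hth

private theorem claim1 (x : Cb S) (l : List (Cb S)) :
    BD (Sp95 (Ph H) (x :: l)) + lin (Sp95 (Ph H)) (BD1 (x :: l)) -
      (Finsupp.single (H.phi1.cb x :: l.map H.phi0.cb) 1 + actL (H.phi1.cb x) (Sp95 (Ph H) l) -
        Finsupp.single ((x :: l).map H.phi0.cb) 1) ∈ DegB S' := by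
  have h1 : BD (Sp95 (Ph H) (x :: l)) + lin (Sp95 (Ph H)) (BD1 (x :: l)) =
      Sp95 (fun v t => BD (Ph H v t) + (lin (fun v' => Ph H v' t) (BD1 v) +
        (-1 : ℚ) ^ (sg95 v) • lin (Ph H v) (BD1 t))) (x :: l) := by
    rw [Sp_map, lin_Sp_BD1, ← Sp_add]
  have h2 := Sp_nil_diff (fun v t => BD (Ph H v t) + (lin (fun v' => Ph H v' t) (BD1 v) +
        (-1 : ℚ) ^ (sg95 v) • lin (Ph H v) (BD1 t)))
      (fun v t => cn (t.map H.phi0.cb) (XX H v) + Psi H v t) (A_cons H) (x :: l)
  have h3 : Ph H [] = fun _ => 0 := by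
    funext t; exact Ph_nil H t
  have h4 : BD (Ph H [] (x :: l)) + (lin (fun v' => Ph H v' (x :: l)) (BD1 []) +
        (-1 : ℚ) ^ (sg95 ([] : List (Cb S))) • lin (Ph H []) (BD1 (x :: l))) = 0 := by
    rw [h3]
    have : (BD1 ([] : List (Cb S))) = 0 := rfl
    rw [this, map_zero, map_zero]
    simp [Finsupp.linearCombination_apply]
  have h5 : (fun v t => cn (t.map H.phi0.cb) (XX H v) + Psi H v t) =
      (fun v t => (cn (t.map H.phi0.cb) (XX H v - H.tf95 v) + Psi H v t) + cn (t.map H.phi0.cb) (H.tf95 v)) := by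
    funext v t
    rw [map_sub]
    abel
  have h6 := Sp_shift (DegB S') (fun v t => cn (t.map H.phi0.cb) (XX H v - H.tf95 v)) (Psi H)
    (by
      intro v y t
      have h7 : cn (t.map H.phi0.cb) (XX H (v ++ [y]) - H.tf95 (v ++ [y])) + Psi H v (y :: t) =
          cn (t.map H.phi0.cb) (bd (H.tc95 (v ++ [y])) +
            Finsupp.linearCombination ℚ H.tc95 (BD1 (v ++ [y])) -
              (H.tf95 (v ++ [y]) - (-1 : ℚ) ^ (sg95 v) • H.tg95 v (H.phi0.cb y))) := by
        simp only [Psi, XX]
        simp only [map_sub, map_add, map_smul]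
        abel
      rw [h7]
      exact cn_deg _ _ (hth v y))
    (fun v => rfl) (x :: l)
  have h8 : cn ((x :: l).map H.phi0.cb) (XX H [] - H.tf95 []) = 0 := by
    rw [XX_nil]
    unfold tf95
    rw [sub_zero, map_zero]
  rw [h8, sub_zero] at h6
  have h9 : Sp95 (fun v t => cn (t.map H.phi0.cb) (H.tf95 v)) (x :: l) =
      Finsupp.single (H.phi1.cb x :: l.map H.phi0.cb) 1 + actL (H.phi1.cb x) (Sp95 (Ph H) l) := by
    simp only [Sp95]
    have h10 := Sp_nil_diff (fun v t => cn (t.map H.phi0.cb) (H.tf95 (x :: v)))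
      (fun v t => actL (H.phi1.cb x) (Ph H v t))
      (by
        intro x' v t
        rw [Ph_cons]
        unfold actL tf95
        rw [Finsupp.linearCombination_single, one_smul, cn_single]
        rfl) l
    rw [h10, Sp_map, Ph_nil, map_zero]
    have h11 : H.tf95 [] = 0 := rfl
    have h12 : H.tf95 [x] = Finsupp.single (H.phi1.cb x) 1 := rfl
    rw [h11, h12, map_zero, cn_single]
    abel
  have h13 : Psi H [] (x :: l) = Finsupp.single ((x :: l).map H.phi0.cb) 1 := by
    simp only [Psi, sg95, pow_zero, one_smul, tg95]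
    rw [cn_single]
    rfl
  rw [h1, h2, h4, h5, Sp_add, h9]
  have h14 : (cn ((x :: l).map H.phi0.cb) (XX H []) + Psi H [] (x :: l)) =
      Finsupp.single ((x :: l).map H.phi0.cb) 1 := by
    rw [XX_nil, h13, map_zero, zero_add]
  rw [h14]
  rw [Sp_add]
  have h15 : Sp95 (fun v t => cn (t.map H.phi0.cb) (XX H v - H.tf95 v)) (x :: l) + Sp95 (Psi H) (x :: l) +
      (Finsupp.single (H.phi1.cb x :: l.map H.phi0.cb) 1 + actL (H.phi1.cb x) (Sp95 (Ph H) l)) +
      (0 - Finsupp.single ((x :: l).map H.phi0.cb) 1) -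
      (Finsupp.single (H.phi1.cb x :: l.map H.phi0.cb) 1 + actL (H.phi1.cb x) (Sp95 (Ph H) l) -
        Finsupp.single ((x :: l).map H.phi0.cb) 1) =
      Sp95 (fun v t => cn (t.map H.phi0.cb) (XX H v - H.tf95 v)) (x :: l) + Sp95 (Psi H) (x :: l) := by
    abel
  rw [h15]
  exact h6

omit hth in
private theorem exch (B : Ch S') (W : BT S') :
    Finsupp.linearCombination ℚ (fun v => Finsupp.mapDomain (fun c' => c' :: v) B) W =
      Finsupp.linearCombination ℚ (fun c => Finsupp.mapDomain (fun v => c :: v) W) B := by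
  induction W using Finsupp.induction_linear with
  | zero => simp [Finsupp.linearCombination_apply]
  | add f g hf hg =>
    rw [map_add, hf, hg, ← lc_add]
    congr 2
    funext c
    rw [Finsupp.mapDomain_add]
  | single v a =>
    rw [Finsupp.linearCombination_single]
    have h1 : (fun c : Cb S' => Finsupp.mapDomain (fun v => c :: v) (Finsupp.single v a)) =
        fun c => a • Finsupp.single (c :: v) (1 : ℚ) := by
      funext c
      rw [Finsupp.mapDomain_single, Finsupp.smul_single, smul_eq_mul, mul_one]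
    rw [h1, ← lc_single, Finsupp.linearCombination_apply, Finsupp.linearCombination_apply]
    unfold Finsupp.sum
    rw [Finset.smul_sum]
    refine Finset.sum_congr rfl fun c _ => ?_
    rw [smul_comm]

omit hth in
private theorem actL_cons (c c' : Cb S') (W : BT S') :
    actL c (Finsupp.mapDomain (fun v => c' :: v) W) = Finsupp.mapDomain (fun v => (c * c') :: v) W := by
  unfold actL
  rw [Finsupp.linearCombination_mapDomain, ← lc_single]
  rfl

omit hth in
private theorem T2 (x : Cb S) (l : List (Cb S)) :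
    lin H.Th1 (act x l) = lin (Sp95 (Ph H)) (act x l) +
      (-1 : ℚ) ^ x.q • (actL (H.phi1.cb x) (H.Th1 l) - actL (H.phi1.cb x) (Sp95 (Ph H) l)) := by
  cases l with
  | nil =>
    have h1 : H.Th1 [] = 0 := rfl
    have h2 : Sp95 (Ph H) [] = 0 := Ph_nil H []
    rw [h1, h2, sub_self, smul_zero, add_zero]
    simp [act]
  | cons x' l =>
    simp only [act]
    rw [Finsupp.linearCombination_single, Finsupp.linearCombination_single, one_smul, one_smul,
      Th1_cons, Th1_cons, map_add, map_smul, actL_cons, thc_mul, Cb.mul_q, add_sub_cancel_left,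
      smul_smul, ← pow_add, add_assoc]

omit hth in
private theorem T1 (x : Cb S) (l : List (Cb S)) :
    Finsupp.linearCombination ℚ (fun c => H.Th1 (c :: l)) (bd1 x) =
      Finsupp.linearCombination ℚ (fun c => Sp95 (Ph H) (c :: l)) (bd1 x) +
        (-1 : ℚ) ^ x.q • Finsupp.linearCombination ℚ
          (fun c => Finsupp.mapDomain (fun v => c :: v) (H.Th1 l)) (bd1 (H.phi1.cb x)) := by
  rw [lc_bd1_congr _ (fun c => Sp95 (Ph H) (c :: l) +
    (-1 : ℚ) ^ x.q • Finsupp.mapDomain (fun v => H.phi1.cb c :: v) (H.Th1 l)) x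
    (by intro c hc; rw [Th1_cons, hc]), lc_add]
  congr 1
  rw [thc_bd1, Finsupp.linearCombination_mapDomain, Finsupp.linearCombination_apply,
    Finsupp.linearCombination_apply]
  unfold Finsupp.sum
  rw [Finset.smul_sum]
  refine Finset.sum_congr rfl fun c _ => ?_
  rw [smul_comm]
  rfl

omit hth in
private theorem T3 (x : Cb S) (l : List (Cb S)) :
    lin (fun v => H.Th1 (x :: v)) (BD1 l) = lin (fun v => Sp95 (Ph H) (x :: v)) (BD1 l) +
      (-1 : ℚ) ^ (x.q + 1) • Finsupp.mapDomain (fun v => H.phi1.cb x :: v) (lin H.Th1 (BD1 l)) := by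
  have h1 : (fun v => H.Th1 (x :: v)) = fun v => Sp95 (Ph H) (x :: v) +
      (-1 : ℚ) ^ (x.q + 1) • Finsupp.mapDomain (fun w => H.phi1.cb x :: w) (H.Th1 v) := by
    funext v; exact Th1_cons H x v
  rw [h1, lin_add]
  congr 1
  rw [← Finsupp.lmapDomain_apply ℚ ℚ, Finsupp.apply_linearCombination, Finsupp.linearCombination_apply,
    Finsupp.linearCombination_apply]
  unfold Finsupp.sum
  rw [Finset.smul_sum]
  refine Finset.sum_congr rfl fun c _ => ?_
  rw [smul_comm]
  rfl

omit hth in
private theorem cons_deg (c : Cb S') (W : BT S') (hW : W ∈ DegB S') :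
    Finsupp.mapDomain (fun v => c :: v) W ∈ DegB S' := by
  unfold DegB at hW ⊢
  rw [Finsupp.mem_supported] at hW ⊢
  intro u hu
  classical
  have h1 := Finsupp.mapDomain_support hu
  obtain ⟨v, hv, rfl⟩ := Finset.mem_image.mp h1
  obtain ⟨b, hb, hd⟩ := hW hv
  exact ⟨b, List.mem_cons_of_mem _ hb, hd⟩

private theorem Th1_homotopy (w : List (Cb S)) :
    BD (H.Th1 w) + lin H.Th1 (BD1 w) -
      (Finsupp.single (w.map H.phi1.cb) 1 - Finsupp.single (w.map H.phi0.cb) 1) ∈ DegB S' := by
  induction w with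
  | nil =>
    have h1 : H.Th1 [] = 0 := rfl
    have h2 : BD1 ([] : List (Cb S)) = 0 := rfl
    rw [h1, h2, map_zero, map_zero]
    simp
  | cons x l ih =>
    have h1 := claim1 H hth x l
    have h2 := cons_deg (H.phi1.cb x) _ ih
    have h3 := Submodule.add_mem _ h1 h2
    refine (congrArg (· ∈ DegB S') ?_).mp h3
    rw [Th1_cons, map_add, map_smul, BD_cons, lin_BD1_cons H.Th1, T1, T2, T3, exch,
      lin_BD1_cons (Sp95 (Ph H))]
    have h4 : (H.phi1.cb x).q = x.q := rfl
    rw [h4]
    have h5 : Finsupp.mapDomain (fun v => H.phi1.cb x :: v)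
        (BD (H.Th1 l) + lin H.Th1 (BD1 l) -
          (Finsupp.single (l.map H.phi1.cb) 1 - Finsupp.single (l.map H.phi0.cb) 1)) =
        Finsupp.mapDomain (fun v => H.phi1.cb x :: v) (BD (H.Th1 l)) +
        Finsupp.mapDomain (fun v => H.phi1.cb x :: v) (lin H.Th1 (BD1 l)) -
        (Finsupp.single ((x :: l).map H.phi1.cb) 1 -
          Finsupp.single (H.phi1.cb x :: l.map H.phi0.cb) 1) := by
      rw [← Finsupp.lmapDomain_apply ℚ ℚ, map_sub, map_add, map_sub]
      simp only [Finsupp.lmapDomain_apply, Finsupp.mapDomain_single, List.map_cons]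
    rw [h5]
    rcases neg_one_pow_eq_or ℚ x.q with h | h
    · simp only [pow_succ, h, one_smul, one_mul, neg_smul, smul_add, smul_sub, smul_neg, neg_neg, mul_neg,
        mul_one]
      abel
    · simp only [pow_succ, h, one_smul, one_mul, neg_smul, smul_add, smul_sub, smul_neg, neg_neg, mul_neg,
        mul_one]
      abel

/-- list part of the homotopy identity -/
theorem Th_homotopy_of (w : BT S) :
    BD (H.Th w) + H.Th (BD w) - (H.phi1.bt w - H.phi0.bt w) ∈ DegB S' := by
  induction w using Finsupp.induction_linear with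
  | zero => simp
  | add f g hf hg =>
    have h := Submodule.add_mem _ hf hg
    refine (congrArg (· ∈ DegB S') ?_).mp h
    simp only [map_add]
    abel
  | single v a =>
    have h := Submodule.smul_mem _ a (Th1_homotopy H hth v)
    refine (congrArg (· ∈ DegB S') ?_).mp h
    unfold Th SHom.bt
    rw [Finsupp.linearCombination_single, Finsupp.lmapDomain_apply, Finsupp.lmapDomain_apply,
      Finsupp.mapDomain_single, Finsupp.mapDomain_single, map_smul]
    have h1 : BD (Finsupp.single v a) = a • BD1 v := by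
      unfold BD
      rw [Finsupp.linearCombination_single]
    rw [h1, map_smul, smul_sub, smul_sub, smul_add]
    simp only [Finsupp.smul_single, smul_eq_mul, mul_one]

end Hty

end St16
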