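import Pool.Agent.LibSt16.ThC

/-!
LibSt16/ThD: the operator `Th` preserves degenerate chains and the grading.
-/

set_option autoImplicit false

noncomputable section

namespace St16

variable {G P G' P' : Type} [Group G] [Preorder P] [MulAction G P] [Group G'] [Preorder P'] [MulAction G' P']

namespace Hty

variable {S : Sys G P} {S' : Sys G' P'} {d : ℕ} (H : Hty S S' d)

private theorem dg_aux (x : Cb S) (l : List (Cb S)) (h : ∃ c ∈ x :: l, c.Dg) :
    ∃ k, k < lq x l ∧ ∀ (g : Bool) (s s' : ℕ → Bool), (∀ i, i ≠ k → s i = s' i) →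
      H.ty g x l s = H.ty g x l s' ∧ H.tl g x l s = H.tl g x l s' := by
  induction l generalizing x with
  | nil =>
    obtain ⟨c, hc, k, hk, hd⟩ := h
    obtain rfl := List.mem_singleton.mp hc
    refine ⟨1 + k, by unfold lq; omega, fun g s s' hs => ?_⟩
    unfold ty tl
    have h0 : s 0 = s' 0 := hs 0 (by omega)
    have h1 := (hd (fun i => s (1 + i)) (fun i => s' (1 + i)) fun i hi => hs _ (by omega)).1
    rw [h0, h1]
    exact ⟨rfl, rfl⟩
  | cons x' l ih =>
    obtain ⟨c, hc, hcd⟩ := h
    rcases List.mem_cons.mp hc with rfl | hc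
    · obtain ⟨k, hk, hd⟩ := hcd
      refine ⟨1 + k, by unfold lq; omega, fun g s s' hs => ?_⟩
      unfold ty tl
      have h0 : s 0 = s' 0 := hs 0 (by omega)
      have h1 := (hd (fun i => s (1 + i)) (fun i => s' (1 + i)) fun i hi => hs _ (by omega)).1
      have h2 : (fun i => s (1 + c.q + i)) = (fun i => s' (1 + c.q + i)) := by
        funext i
        exact hs _ (by omega)
      rw [h0, h1, h2]
      exact ⟨rfl, rfl⟩
    · obtain ⟨k, hk, hd⟩ := ih x' ⟨c, hc, hcd⟩
      refine ⟨1 + x.q + k, by unfold lq; omega, fun g s s' hs => ?_⟩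
      unfold ty tl
      have h0 : s 0 = s' 0 := hs 0 (by omega)
      have h1 : x.y (fun i => s (1 + i)) = x.y (fun i => s' (1 + i)) :=
        x.y_dep _ _ fun i hi => hs _ (by omega)
      have h2 := hd (g && s' 0) (fun i => s (1 + x.q + i)) (fun i => s' (1 + x.q + i))
        fun i hi => hs _ (by omega)
      rw [h0, h1, h2.1, h2.2]
      exact ⟨rfl, rfl⟩

/-- a degenerate block makes `th` degenerate -/
theorem th_dg (x : Cb S) (l : List (Cb S)) (h : ∃ c ∈ x :: l, c.Dg) : (H.th x l).Dg := by
  obtain ⟨k, hk, hd⟩ := dg_aux H x l h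
  exact ⟨k, hk, fun s s' hs => hd true s s' hs⟩

private theorem cb_dg (f : SHom S S' d) (c : Cb S) (h : c.Dg) : (f.cb c).Dg := by
  obtain ⟨k, hk, hd⟩ := h
  refine ⟨k, hk, fun s s' hs => ?_⟩
  have h1 := hd s s' hs
  show f.fG (c.y s) = f.fG (c.y s') ∧ f.fP c.r (c.l s) = f.fP c.r (c.l s')
  rw [h1.1, h1.2]
  exact ⟨rfl, rfl⟩

private theorem Th1_deg (w : List (Cb S)) (h : ∃ c ∈ w, c.Dg) : H.Th1 w ∈ DegB S' := by
  induction w with
  | nil =>
    obtain ⟨c, hc, _⟩ := h
    exact absurd hc (by simp)
  | cons x l ih =>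
    show H.pre x l + (-1 : ℚ) ^ (x.q + 1) • Finsupp.mapDomain (fun w => H.phi1.cb x :: w) (H.Th1 l) ∈ DegB S'
    refine Submodule.add_mem _ ?_ (Submodule.smul_mem _ _ ?_)
    · unfold pre
      refine Submodule.sum_mem _ fun k _ => Finsupp.single_mem_supported ℚ 1 ?_
      obtain ⟨c, hc, hcd⟩ := h
      rcases List.mem_cons.mp hc with rfl | hc
      · exact ⟨_, List.mem_cons_self, H.th_dg _ _ ⟨c, List.mem_cons_self, hcd⟩⟩
      · rw [← List.take_append_drop k l] at hc
        rcases List.mem_append.mp hc with hc | hc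
        · exact ⟨_, List.mem_cons_self, H.th_dg _ _ ⟨c, List.mem_cons_of_mem _ hc, hcd⟩⟩
        · exact ⟨H.phi0.cb c, List.mem_cons_of_mem _ (List.mem_map_of_mem hc), cb_dg _ _ hcd⟩
    · unfold DegB
      rw [Finsupp.mem_supported]
      intro u hu
      classical
      obtain ⟨v, hv, rfl⟩ := Finset.mem_image.mp (Finsupp.mapDomain_support hu)
      obtain ⟨c, hc, hcd⟩ := h
      rcases List.mem_cons.mp hc with rfl | hc
      · exact ⟨_, List.mem_cons_self, cb_dg _ _ hcd⟩
      · have h1 := ih ⟨c, hc, hcd⟩
        unfold DegB at h1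
        rw [Finsupp.mem_supported] at h1
        obtain ⟨b, hb, hbd⟩ := h1 hv
        exact ⟨b, List.mem_cons_of_mem _ hb, hbd⟩

/-- `Th` maps degenerate chains to degenerate chains -/
theorem Th_DegB (w : BT S) (hw : w ∈ DegB S) : H.Th w ∈ DegB S' := by
  unfold DegB at hw
  rw [Finsupp.mem_supported] at hw
  unfold Th
  rw [Finsupp.linearCombination_apply]
  exact Submodule.sum_mem _ fun v hv => Submodule.smul_mem _ _ (Th1_deg H v (hw hv))

private theorem lr_eq (x : Cb S) (l : List (Cb S)) : lr x l = ((x :: l).map Cb.r).sum := by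
  induction l generalizing x with
  | nil => simp [lr]
  | cons x' l ih => rw [List.map_cons, List.sum_cons, ← ih]; rfl

private theorem lq_eq (x : Cb S) (l : List (Cb S)) :
    lq x l = ((x :: l).map Cb.q).sum + (l.length + 1) := by
  induction l generalizing x with
  | nil => simp [lq]; omega
  | cons x' l ih =>
    rw [List.map_cons, List.sum_cons, List.length_cons]
    have h1 : lq x (x' :: l) = 1 + x.q + lq x' l := rfl
    rw [h1, ih]
    omega

private theorem Th1_BTN (w : List (Cb S)) :
    H.Th1 w ∈ Finsupp.supported ℚ ℚ {u : List (Cb S') | u ≠ [] ∧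
      (u.map Cb.r).sum = d * (w.map Cb.r).sum ∧
      (u.map Cb.q).sum + u.length = (w.map Cb.q).sum + w.length + 1} := by
  induction w with
  | nil => exact Submodule.zero_mem _
  | cons x l ih =>
    show H.pre x l + (-1 : ℚ) ^ (x.q + 1) • Finsupp.mapDomain (fun w => H.phi1.cb x :: w) (H.Th1 l) ∈ _
    refine Submodule.add_mem _ ?_ (Submodule.smul_mem _ _ ?_)
    · unfold pre
      refine Submodule.sum_mem _ fun k _ => Finsupp.single_mem_supported ℚ 1 ?_
      have hr : ((l.drop k).map H.phi0.cb).map Cb.r = ((l.drop k).map Cb.r).map (fun n => d * n) := by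
        rw [List.map_map, List.map_map]; rfl
      have hq : ((l.drop k).map H.phi0.cb).map Cb.q = (l.drop k).map Cb.q := by
        rw [List.map_map]; rfl
      have hl : l = l.take k ++ l.drop k := (List.take_append_drop k l).symm
      have h1 : ((l.map Cb.r)).sum = ((l.take k).map Cb.r).sum + ((l.drop k).map Cb.r).sum := by
        conv_lhs => rw [hl]
        rw [List.map_append, List.sum_append]
      have h2 : ((l.map Cb.q)).sum = ((l.take k).map Cb.q).sum + ((l.drop k).map Cb.q).sum := by
        conv_lhs => rw [hl]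
        rw [List.map_append, List.sum_append]
      have h3 : l.length = (l.take k).length + (l.drop k).length := by
        conv_lhs => rw [hl]
        rw [List.length_append]
      refine ⟨List.cons_ne_nil _ _, ?_, ?_⟩
      · rw [List.map_cons, List.sum_cons, List.map_cons, List.sum_cons, hr, List.sum_map_mul_left,
          List.map_id', h1]
        show d * lr x (l.take k) + _ = _
        rw [lr_eq, List.map_cons, List.sum_cons]
        ring
      · rw [List.map_cons, List.sum_cons, List.map_cons, List.sum_cons, hq, List.length_cons,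
          List.length_cons, List.length_map, h2, h3]
        show lq x (l.take k) + _ + _ = _
        rw [lq_eq, List.map_cons, List.sum_cons]
        omega
    · rw [Finsupp.mem_supported]
      intro u hu
      classical
      obtain ⟨v, hv, rfl⟩ := Finset.mem_image.mp (Finsupp.mapDomain_support hu)
      rw [Finsupp.mem_supported] at ih
      obtain ⟨_, hb, hc⟩ := ih hv
      refine ⟨List.cons_ne_nil _ _, ?_, ?_⟩
      · rw [List.map_cons, List.sum_cons, List.map_cons, List.sum_cons, hb, Nat.mul_add]
        rfl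
      · rw [List.map_cons, List.sum_cons, List.map_cons, List.sum_cons, List.length_cons,
          List.length_cons]
        show x.q + _ + _ = _
        omega

/-- `Th` multiplies the rank by `d` and raises the degree by one -/
theorem Th_BTN (n N : ℕ) (w : BT S) (hw : w ∈ BTN S n N) : H.Th w ∈ BTN S' (d * n) (N + 1) := by
  unfold BTN at hw
  rw [Finsupp.mem_supported] at hw
  unfold Th
  rw [Finsupp.linearCombination_apply]
  refine Submodule.sum_mem _ fun v hv => Submodule.smul_mem _ _ ?_
  obtain ⟨_, h1, h2⟩ := hw hv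
  have h3 := Th1_BTN H v
  refine Finsupp.supported_mono ?_ h3
  rintro u ⟨hu, hb, hc⟩
  refine ⟨hu, ?_, ?_⟩
  · rw [hb, h1]
  · rw [hc, h2]

end Hty

end St16
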