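import Pool.Agent.LibSt16.Th1
import Pool.Agent.LibSt16.ThD

/-!
LibSt16/ThE: the homotopy identity for `Th`.
-/

set_option autoImplicit false

noncomputable section

namespace St16

variable {G P G' P' : Type} [Group G] [Preorder P] [MulAction G P] [Group G'] [Preorder P'] [MulAction G' P']

namespace Hty

variable {S : Sys G P} {S' : Sys G' P'} {d : ℕ} (H : Hty S S' d)

private theorem tc_eq : H.tc95 = H.thl := by
  funext w
  cases w <;> rfl

private theorem tf_eq (x : Cb S) (l : List (Cb S)) : H.tf95 (x :: l) = H.hd x l := by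
  cases l <;> rfl

private theorem lq_sg (x : Cb S) (v : List (Cb S)) : lq x v = sg95 (x :: v) := by
  induction v generalizing x with
  | nil => unfold lq sg95 sg95; omega
  | cons x' v ih => unfold lq sg95; rw [ih]; omega

/-- the homotopy identity -/
theorem Th_homotopy (w : BT S) :
    BD (H.Th w) + H.Th (BD w) - (H.phi1.bt w - H.phi0.bt w) ∈ DegB S' := by
  refine H.Th_homotopy_of (fun u y => ?_) w
  rw [tc_eq]
  cases u with
  | nil =>
    have h := H.bd1_th y []
    have h1 : bd (H.thl ([] ++ [y])) = bd1 (H.th y []) := by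
      unfold bd
      show Finsupp.linearCombination ℚ bd1 (Finsupp.single (H.th y []) 1) = _
      rw [Finsupp.linearCombination_single, one_smul]
    have h2 : (-1 : ℚ) ^ (sg95 ([] : List (Cb S))) • H.tg95 [] (H.phi0.cb y) = H.lt y [] := by
      unfold lt tg95
      rw [dif_pos rfl]
      show (-1 : ℚ) ^ 0 • _ = _
      rw [pow_zero, one_smul]
    rw [h1, h2]
    refine (congrArg (· ∈ DegC S') ?_).mp h
    rw [List.nil_append, tf_eq]
    abel
  | cons x u =>
    have h := H.bd1_th x (u ++ [y])
    have h1 : bd (H.thl (x :: u ++ [y])) = bd1 (H.th x (u ++ [y])) := by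
      unfold bd
      show Finsupp.linearCombination ℚ bd1 (Finsupp.single (H.th x (u ++ [y])) 1) = _
      rw [Finsupp.linearCombination_single, one_smul]
    have h2 : (-1 : ℚ) ^ (sg95 (x :: u)) • H.tg95 (x :: u) (H.phi0.cb y) = H.lt x (u ++ [y]) := by
      unfold lt tg95
      have h3 : u ++ [y] ≠ [] := by simp
      have h4 : (u ++ [y]).dropLast = u := List.dropLast_concat
      have h5 : (u ++ [y]).getLast h3 = y := List.getLast_concat
      rw [dif_neg h3, h5]
      simp only [h4]
      rw [lq_sg]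
    rw [h1, h2]
    refine (congrArg (· ∈ DegC S') ?_).mp h
    rw [List.cons_append, tf_eq]
    abel

end Hty

/-- the homotopy identity, modulo degenerate chains -/
theorem Th_homotopy {S : Sys G P} {S' : Sys G' P'} {d : ℕ} (H : Hty S S' d) (w : BT S) :
    BD (H.Th w) + H.Th (BD w) - (H.phi1.bt w - H.phi0.bt w) ∈ DegB S' := H.Th_homotopy w

theorem Th_DegB {S : Sys G P} {S' : Sys G' P'} {d : ℕ} (H : Hty S S' d) (w : BT S) (hw : w ∈ DegB S) :
    H.Th w ∈ DegB S' := H.Th_DegB w hw

theorem Th_BTN {S : Sys G P} {S' : Sys G' P'} {d : ℕ} (H : Hty S S' d) (n N : ℕ) (w : BT S)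
    (hw : w ∈ BTN S n N) : H.Th w ∈ BTN S' (d * n) (N + 1) := H.Th_BTN n N w hw

end St16
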