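import Pool.Agent.LibSt16.C
import Pool.Agent.LibST67.Defs

/-!
LibSt16/V0: definitions of block V (the orthogonal group `O(n)` acting on frames and flags of `R^n`).

* `Fr n`: tuples (lists) of vectors of `R^n`, preordered by equality of `gm a = Σ v vᵀ`.
* `Mt n`: matrices with equality as order.
* `sysV n`: trivial group, `Pn r` = the tuples of length `r`, block sum = concatenation.
* `sysF n`: trivial group, `Pn r` = the matrices `gm a`, `a` of length `r`, block sum = addition.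
* `gmH n : SHom (sysV n) (sysF n) 1`.
* `wV`, `wF`: the weight of a cube (its matrix, constant on the cube); good lists have total weight 1.
* `GdV n k`, `GdF n k`: chains of good lists of total rank `n` and degree `k`.
-/

set_option autoImplicit false

noncomputable section

namespace St16

open Matrix

/-- tuples of vectors of `R^n` -/
@[ext] structure Fr (n : ℕ) where
  v : List (Fin n → ℝ)

/-- matrices -/
@[ext] structure Mt (n : ℕ) where
  M : Matrix (Fin n) (Fin n) ℝ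

/-- `Σ v vᵀ` -/
def gm {n : ℕ} (a : Fr n) : Matrix (Fin n) (Fin n) ℝ := (a.v.map fun x => vecMulVec x x).sum

instance (n : ℕ) : Preorder (Fr n) where
  le a b := gm a = gm b
  le_refl _ := rfl
  le_trans _ _ _ h h' := Eq.trans h h'

instance (n : ℕ) : Preorder (Mt n) where
  le a b := a = b
  le_refl _ := rfl
  le_trans _ _ _ h h' := Eq.trans h h'

instance actFr (n : ℕ) : MulAction PUnit.{1} (Fr n) where
  smul _ a := a
  one_smul _ := rfl
  mul_smul _ _ _ := rfl

instance actMt (n : ℕ) : MulAction PUnit.{1} (Mt n) where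
  smul _ a := a
  one_smul _ := rfl
  mul_smul _ _ _ := rfl

theorem gm_append {n : ℕ} (a b : Fr n) : gm ⟨a.v ++ b.v⟩ = gm a + gm b := by
  simp [gm]

/-- frames -/
def sysV (n : ℕ) : Sys PUnit.{1} (Fr n) where
  Gn := fun _ => ⊤
  Pn := fun r => {a | a.v.length = r}
  sh := fun _ => MonoidHom.id _
  jn := fun _ a b => ⟨a.v ++ b.v⟩
  smul_mono := fun _ _ _ h => h
  Gn_mul := fun _ _ _ _ _ _ => trivial
  sh_comm := fun _ _ _ _ => rfl
  sh_sh := fun _ _ _ => rfl
  Pn_smul := fun _ _ _ _ h => h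
  jn_mem := fun r r' a b (ha : a.v.length = r) (hb : b.v.length = r') => by
    show (a.v ++ b.v).length = r + r'
    rw [List.length_append, ha, hb]
  jn_mono := fun _ a a' b b' (h : gm a = gm a') (h' : gm b = gm b') => by
    show gm ⟨a.v ++ b.v⟩ = gm ⟨a'.v ++ b'.v⟩
    rw [gm_append, gm_append, h, h']
  jn_assoc := fun _ _ a b c => by
    show (⟨(a.v ++ b.v) ++ c.v⟩ : Fr n) = ⟨a.v ++ (b.v ++ c.v)⟩
    rw [List.append_assoc]
  jn_smul := fun _ _ _ _ _ _ _ _ _ _ => rfl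

/-- sums of projections -/
def sysF (n : ℕ) : Sys PUnit.{1} (Mt n) where
  Gn := fun _ => ⊤
  Pn := fun r => {a | ∃ f : Fr n, f.v.length = r ∧ gm f = a.M}
  sh := fun _ => MonoidHom.id _
  jn := fun _ a b => ⟨a.M + b.M⟩
  smul_mono := fun _ _ _ h => h
  Gn_mul := fun _ _ _ _ _ _ => trivial
  sh_comm := fun _ _ _ _ => rfl
  sh_sh := fun _ _ _ => rfl
  Pn_smul := fun _ _ _ _ h => h
  jn_mem := by
    rintro r r' a b ⟨f, hf, hf'⟩ ⟨g, hg, hg'⟩
    refine ⟨⟨f.v ++ g.v⟩, ?_, ?_⟩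
    · show (f.v ++ g.v).length = r + r'
      rw [List.length_append, hf, hg]
    · rw [gm_append, hf', hg']
  jn_mono := fun _ a a' b b' (h : a = a') (h' : b = b') => by
    subst h; subst h'; exact (rfl : (⟨a.M + b.M⟩ : Mt n) = ⟨a.M + b.M⟩)
  jn_assoc := fun _ _ a b c => by
    show (⟨(a.M + b.M) + c.M⟩ : Mt n) = ⟨a.M + (b.M + c.M)⟩
    rw [add_assoc]
  jn_smul := fun _ _ _ _ _ _ _ _ _ _ => rfl

/-- the morphism `gm` -/
def gmH (n : ℕ) : SHom (sysV n) (sysF n) 1 where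
  fG := fun g => g
  fP := fun _ a => ⟨gm a⟩
  d_pos := Nat.one_pos
  G_mem := fun _ _ _ => trivial
  G_one := rfl
  G_mul := fun _ _ _ _ _ => rfl
  G_sh := fun _ _ _ _ _ _ => rfl
  P_mem := fun r a (ha : a.v.length = r) => ⟨a, by rw [ha, one_mul], rfl⟩
  P_mono := fun _ a b _ _ (h : gm a = gm b) => by
    show (⟨gm a⟩ : Mt n) = ⟨gm b⟩
    rw [h]
  P_smul := fun _ _ _ _ _ => rfl
  P_jn := fun _ _ a b _ _ => by
    show (⟨gm ⟨a.v ++ b.v⟩⟩ : Mt n) = ⟨gm a + gm b⟩
    rw [gm_append]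

/-- the weight of a cube of frames -/
def wV {n : ℕ} (c : Cb (sysV n)) : Matrix (Fin n) (Fin n) ℝ := gm (c.l z0)

/-- the weight of a cube of `sysF` -/
def wF {n : ℕ} (c : Cb (sysF n)) : Matrix (Fin n) (Fin n) ℝ := (c.l z0).M

/-- good chains of lists of cubes of frames: total rank `n`, degree `k`, total weight `1` -/
def GdV (n k : ℕ) : Submodule ℚ (BT (sysV n)) :=
  BTN (sysV n) n k ⊓ Finsupp.supported ℚ ℚ {l | (l.map wV).sum = 1}

/-- good chains for `sysF` -/
def GdF (n k : ℕ) : Submodule ℚ (BT (sysF n)) :=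
  BTN (sysF n) n k ⊓ Finsupp.supported ℚ ℚ {l | (l.map wF).sum = 1}

/-- the orthogonal group -/
abbrev OG (n : ℕ) := ↥(Matrix.orthogonalGroup (Fin n) ℝ)

/-- `O(n)` acts on tuples of vectors -/
instance actOFr (n : ℕ) : MulAction (OG n) (Fr n) where
  smul g a := ⟨a.v.map fun x => (g : Matrix (Fin n) (Fin n) ℝ) *ᵥ x⟩
  one_smul a := by
    show (⟨a.v.map fun x => (1 : Matrix (Fin n) (Fin n) ℝ) *ᵥ x⟩ : Fr n) = a
    ext1
    simp
  mul_smul g h a := by
    show (⟨a.v.map fun x => ((g : Matrix (Fin n) (Fin n) ℝ) * (h : Matrix (Fin n) (Fin n) ℝ)) *ᵥ x⟩ :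
      Fr n) = ⟨(a.v.map fun x => (h : Matrix (Fin n) (Fin n) ℝ) *ᵥ x).map fun x =>
        (g : Matrix (Fin n) (Fin n) ℝ) *ᵥ x⟩
    ext1
    simp [Matrix.mulVec_mulVec]

theorem smul_Fr_v {n : ℕ} (g : OG n) (a : Fr n) :
    (g • a).v = a.v.map fun x => (g : Matrix (Fin n) (Fin n) ℝ) *ᵥ x := rfl

/-- `O(n)` acts on matrices by conjugation -/
instance actOMt (n : ℕ) : MulAction (OG n) (Mt n) where
  smul g a := ⟨(g : Matrix (Fin n) (Fin n) ℝ) * a.M * (g : Matrix (Fin n) (Fin n) ℝ)ᵀ⟩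
  one_smul a := by
    show (⟨(1 : Matrix (Fin n) (Fin n) ℝ) * a.M * (1 : Matrix (Fin n) (Fin n) ℝ)ᵀ⟩ : Mt n) = a
    ext1
    simp
  mul_smul g h a := by
    show (⟨((g : Matrix (Fin n) (Fin n) ℝ) * (h : Matrix (Fin n) (Fin n) ℝ)) * a.M *
        ((g : Matrix (Fin n) (Fin n) ℝ) * (h : Matrix (Fin n) (Fin n) ℝ))ᵀ⟩ : Mt n) =
      ⟨(g : Matrix (Fin n) (Fin n) ℝ) * ((h : Matrix (Fin n) (Fin n) ℝ) * a.M *
        (h : Matrix (Fin n) (Fin n) ℝ)ᵀ) * (g : Matrix (Fin n) (Fin n) ℝ)ᵀ⟩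
    ext1
    simp only [Matrix.transpose_mul, Matrix.mul_assoc]

theorem smul_Mt_M {n : ℕ} (g : OG n) (a : Mt n) :
    (g • a).M = (g : Matrix (Fin n) (Fin n) ℝ) * a.M * (g : Matrix (Fin n) (Fin n) ℝ)ᵀ := rfl

theorem gm_smul {n : ℕ} (g : OG n) (a : Fr n) :
    gm (g • a) = (g : Matrix (Fin n) (Fin n) ℝ) * gm a * (g : Matrix (Fin n) (Fin n) ℝ)ᵀ := by
  unfold gm
  rw [smul_Fr_v]
  induction a.v with
  | nil => simp
  | cons x l ih =>
    rw [List.map_cons, List.map_cons, List.sum_cons, ih, List.map_cons, List.sum_cons,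
      Matrix.mul_add, Matrix.add_mul]
    congr 1
    rw [Matrix.mul_vecMulVec, Matrix.vecMulVec_mul, Matrix.vecMul_transpose]

/-- `O(n)` acts on the cubes of frames -/
instance actOV (n : ℕ) : MulAction (OG n) (Cb (sysV n)) where
  smul g c :=
    { r := c.r
      q := c.q
      y := c.y
      l := fun s => g • c.l s
      r_pos := c.r_pos
      y_dep := c.y_dep
      l_dep := fun s s' h => by rw [c.l_dep s s' h]
      y_mem := c.y_mem
      l_mem := fun s => by
        show (g • c.l s).v.length = c.r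
        rw [smul_Fr_v, List.length_map]
        exact c.l_mem s
      y_zero := c.y_zero
      l_mono := fun s s' h => by
        show gm (g • c.l s) = gm (g • c.l s')
        rw [gm_smul, gm_smul]
        have : gm (c.l s) = gm (c.l s') := c.l_mono s s' h
        rw [this] }
  one_smul c := Cb.ext rfl rfl rfl (funext fun s => one_smul (OG n) (c.l s))
  mul_smul g h c := Cb.ext rfl rfl rfl (funext fun s => mul_smul g h (c.l s))

theorem smulV_r {n : ℕ} (g : OG n) (c : Cb (sysV n)) : (g • c).r = c.r := rfl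
theorem smulV_q {n : ℕ} (g : OG n) (c : Cb (sysV n)) : (g • c).q = c.q := rfl
theorem smulV_l {n : ℕ} (g : OG n) (c : Cb (sysV n)) (s : ℕ → Bool) : (g • c).l s = g • c.l s := rfl

/-- `O(n)` acts on lists of cubes of frames -/
instance actOVL (n : ℕ) : MulAction (OG n) (List (Cb (sysV n))) where
  smul g l := l.map fun c => g • c
  one_smul l := by
    show (l.map fun c => (1 : OG n) • c) = l
    simp
  mul_smul g h l := by
    show (l.map fun c => (g * h) • c) = (l.map fun c => h • c).map fun c => g • c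
    simp [mul_smul]

theorem smulVL {n : ℕ} (g : OG n) (l : List (Cb (sysV n))) : g • l = l.map fun c => g • c := rfl

/-- the action on chains of lists -/
def aV {n : ℕ} (g : OG n) : BT (sysV n) →ₗ[ℚ] BT (sysV n) := Finsupp.lmapDomain ℚ ℚ fun l => g • l

/-- the flag of the list of matrices `M_1, .., M_(k+1)`: the ranges of `M_1 + .. + M_(j+1)`, `j < k` -/
def flag {n : ℕ} (k : ℕ) (l : List (Matrix (Fin n) (Fin n) ℝ)) :
    Fin k → Submodule ℝ (Fin n → ℝ) :=
  fun j => LinearMap.range (Matrix.toLin' (l.take ((j : ℕ) + 1)).sum)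

open Classical in
/-- the flag of a list of cubes, if all dimensions are 0 and the length is `k + 1`; otherwise 0 -/
def fl1 {n : ℕ} (k : ℕ) (l : List (Cb (sysF n))) : (Fin k → Submodule ℝ (Fin n → ℝ)) →₀ ℚ :=
  if (∀ c ∈ l, c.q = 0) ∧ l.length = k + 1 then Finsupp.single (flag k (l.map wF)) 1 else 0

/-- the map to the flag complex -/
def fl {n : ℕ} (k : ℕ) : BT (sysF n) →ₗ[ℚ] ((Fin k → Submodule ℝ (Fin n → ℝ)) →₀ ℚ) :=
  Finsupp.linearCombination ℚ (fl1 k)

/-- the proper nonzero subspaces -/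
def PS (n : ℕ) : Set (Submodule ℝ (Fin n → ℝ)) := {x | x ≠ ⊥ ∧ x ≠ ⊤}

end St16
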