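import Pool.Agent.LibSt16.VC3

/-!
Row VC4. Every strict flag of proper nonzero subspaces comes from a good list of points.
-/

set_option autoImplicit false

noncomputable section

namespace St16

private theorem vc4_proj {n : ℕ} (U : Submodule ℝ (Fin n → ℝ)) :
    ∃ P : Matrix (Fin n) (Fin n) ℝ, P * P = P ∧ P.transpose = P ∧
      LinearMap.range (Matrix.toLin' P) = U ∧ P.trace = Module.finrank ℝ U := by
  obtain ⟨a, _, h2, h3, h4⟩ := exists_frame U
  exact ⟨gm a, h2, gm_symm a, h3, h4⟩

private theorem vc4_mul {n : ℕ} (P P' : Matrix (Fin n) (Fin n) ℝ) (hP' : P' * P' = P')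
    (h : LinearMap.range (Matrix.toLin' P) ≤ LinearMap.range (Matrix.toLin' P')) : P' * P = P := by
  apply (Matrix.toLin' (R := ℝ) (m := Fin n) (n := Fin n)).injective
  apply LinearMap.ext
  intro z
  rw [Matrix.toLin'_mul, LinearMap.comp_apply]
  obtain ⟨w, hw⟩ := h (LinearMap.mem_range_self (Matrix.toLin' P) z)
  rw [← hw, ← LinearMap.comp_apply, ← Matrix.toLin'_mul, hP']

private theorem vc4_step {n : ℕ} (P P' : Matrix (Fin n) (Fin n) ℝ) (hP : P * P = P)
    (hPt : P.transpose = P) (hP' : P' * P' = P') (hPt' : P'.transpose = P')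
    (h : LinearMap.range (Matrix.toLin' P) < LinearMap.range (Matrix.toLin' P')) :
    ∃ c : Cb (sysF n), c.q = 0 ∧ wF c = P' - P ∧ (c.r : ℝ) = P'.trace - P.trace := by
  have h1 : P' * P = P := vc4_mul P P' hP' h.le
  have h2 : P * P' = P := by
    have h3 := congrArg Matrix.transpose h1
    rw [Matrix.transpose_mul, hPt, hPt'] at h3
    exact h3
  have hD : (P' - P) * (P' - P) = P' - P := by
    rw [Matrix.sub_mul, Matrix.mul_sub, Matrix.mul_sub, hP', h1, h2, hP]
    simp
  have hDt : (P' - P).transpose = P' - P := by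
    rw [Matrix.transpose_sub, hPt, hPt']
  obtain ⟨b, hb1, hb2, hb3, hb4⟩ := exists_frame (LinearMap.range (Matrix.toLin' (P' - P)))
  have hb : gm b = P' - P := proj_eq_of_range _ _ hb2 hD (gm_symm b) hDt hb3
  have hlen : (b.v.length : ℝ) = P'.trace - P.trace := by
    rw [← Matrix.trace_sub, ← hb, hb4, hb1]
  have hpos : 0 < b.v.length := by
    rcases Nat.eq_zero_or_pos b.v.length with h0 | h0
    · exfalso
      have h4 : gm b = 0 := by
        have h5 : b.v = [] := List.length_eq_zero_iff.mp h0
        simp [gm, h5]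
      have h5 : P' = P := by
        rw [hb] at h4
        exact sub_eq_zero.mp h4
      rw [h5] at h
      exact lt_irrefl _ h
    · exact h0
  refine ⟨{ r := b.v.length
            q := 0
            y := fun _ => 1
            l := fun _ => ⟨P' - P⟩
            r_pos := hpos
            y_dep := fun _ _ _ => rfl
            l_dep := fun _ _ _ => rfl
            y_mem := fun _ => trivial
            l_mem := fun _ => ⟨b, rfl, hb⟩
            y_zero := rfl
            l_mono := fun _ _ _ => le_refl _ }, rfl, rfl, hlen⟩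

private theorem vc4_list {n : ℕ} (P : ℕ → Matrix (Fin n) (Fin n) ℝ) (hP : ∀ j, P j * P j = P j)
    (hPt : ∀ j, (P j).transpose = P j) (h0 : P 0 = 0) (m : ℕ)
    (h : ∀ j, j < m → LinearMap.range (Matrix.toLin' (P j)) <
      LinearMap.range (Matrix.toLin' (P (j + 1)))) :
    ∃ l : List (Cb (sysF n)), (∀ c ∈ l, c.q = 0) ∧ l.length = m ∧
      (((l.map Cb.r).sum : ℕ) : ℝ) = (P m).trace ∧
      ∀ j, j ≤ m → ((l.map wF).take j).sum = P j := by
  induction m with
  | zero =>
    refine ⟨[], by simp, rfl, by simp [h0], ?_⟩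
    intro j hj
    have : j = 0 := by omega
    subst this
    simp [h0]
  | succ m ih =>
    obtain ⟨l, h1, h2, h3, h4⟩ := ih (fun j hj => h j (by omega))
    obtain ⟨c, c1, c2, c3⟩ := vc4_step (P m) (P (m + 1)) (hP m) (hPt m) (hP (m + 1)) (hPt (m + 1))
      (h m (by omega))
    have hall : (l.map wF).sum = P m := by
      have h5 := h4 m le_rfl
      rw [List.take_of_length_le (by rw [List.length_map, h2])] at h5
      exact h5
    refine ⟨l ++ [c], ?_, ?_, ?_, ?_⟩
    · intro d hd
      rcases List.mem_append.mp hd with h5 | h5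
      · exact h1 d h5
      · rw [List.mem_singleton.mp h5]
        exact c1
    · simp [h2]
    · rw [List.map_append, List.sum_append, Nat.cast_add, h3]
      simp only [List.map_cons, List.map_nil, List.sum_cons, List.sum_nil, Nat.add_zero]
      rw [c3]
      ring
    · intro j hj
      rcases Nat.lt_or_ge m j with h5 | h5
      · have : j = m + 1 := by omega
        subst this
        rw [List.take_of_length_le (by simp [h2]), List.map_append, List.sum_append, hall]
        simp only [List.map_cons, List.map_nil, List.sum_cons, List.sum_nil, add_zero]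
        rw [c2]
        simp
      · rw [List.map_append, List.take_append_of_le_length (by rw [List.length_map, h2]; exact h5)]
        exact h4 j h5

theorem flag_surj {n k : ℕ} (hn : 0 < n) (f : Fin k → Submodule ℝ (Fin n → ℝ)) (hf : StrictMono f)
    (hf' : ∀ j, f j ∈ PS n) : ∃ l : List (Cb (sysF n)), GdL n k l ∧ flag k (l.map wF) = f := by
  classical
  let V : ℕ → Submodule ℝ (Fin n → ℝ) := fun j =>
    if j = 0 then ⊥ else if h : j - 1 < k then f ⟨j - 1, h⟩ else ⊤
  have hV0 : V 0 = ⊥ := if_pos rfl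
  have hVs : ∀ j (h : j < k), V (j + 1) = f ⟨j, h⟩ := by
    intro j h
    show (if j + 1 = 0 then ⊥ else if h : j + 1 - 1 < k then f ⟨j + 1 - 1, h⟩ else ⊤) = f ⟨j, h⟩
    rw [if_neg (by omega), dif_pos (by omega : j + 1 - 1 < k)]
    congr 1
  have hVt : V (k + 1) = ⊤ := by
    show (if k + 1 = 0 then ⊥ else if h : k + 1 - 1 < k then f ⟨k + 1 - 1, h⟩ else ⊤) = ⊤
    rw [if_neg (by omega), dif_neg (by omega)]
  have hbt : (⊥ : Submodule ℝ (Fin n → ℝ)) < ⊤ := by
    have : Nonempty (Fin n) := ⟨⟨0, hn⟩⟩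
    exact bot_lt_top
  have hlt : ∀ j, j < k + 1 → V j < V (j + 1) := by
    intro j hj
    rcases Nat.eq_zero_or_pos j with h0 | h0
    · subst h0
      rw [hV0]
      rcases Nat.eq_zero_or_pos k with hk | hk
      · subst hk
        rw [hVt]
        exact hbt
      · rw [hVs 0 hk]
        exact bot_lt_iff_ne_bot.mpr (hf' _).1
    · obtain ⟨i, rfl⟩ : ∃ i, j = i + 1 := ⟨j - 1, by omega⟩
      rw [hVs i (by omega)]
      rcases Nat.lt_or_ge (i + 1) k with h1 | h1
      · rw [hVs (i + 1) h1]
        exact hf (by simp [Fin.lt_def])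
      · have : i + 1 = k := by omega
        rw [this, hVt]
        exact lt_top_iff_ne_top.mpr (hf' _).2
  choose P hP1 hP2 hP3 hP4 using fun j => vc4_proj (V j)
  have hP0 : P 0 = 0 := by
    have h1 := hP3 0
    rw [hV0, LinearMap.range_eq_bot] at h1
    apply (Matrix.toLin' (R := ℝ) (m := Fin n) (n := Fin n)).injective
    rw [h1, map_zero]
  obtain ⟨l, h1, h2, h3, h4⟩ := vc4_list P hP1 hP2 hP0 (k + 1) (fun j hj => by
    rw [hP3, hP3]
    exact hlt j hj)
  have hPk : P (k + 1) = 1 := by
    refine proj_eq_of_range _ _ (hP1 _) (Matrix.one_mul _) (hP2 _) Matrix.transpose_one ?_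
    rw [hP3, hVt, Matrix.toLin'_one, LinearMap.range_id]
  refine ⟨l, ⟨h1, h2, ?_, ?_⟩, ?_⟩
  · have h5 : (((l.map Cb.r).sum : ℕ) : ℝ) = (n : ℝ) := by
      rw [h3, hPk, Matrix.trace_one, Fintype.card_fin]
    exact_mod_cast h5
  · have h5 := h4 (k + 1) le_rfl
    rw [List.take_of_length_le (by rw [List.length_map, h2])] at h5
    rw [h5, hPk]
  · funext j
    show LinearMap.range (Matrix.toLin' ((l.map wF).take ((j : ℕ) + 1)).sum) = f j
    rw [h4 _ (by have := j.2; omega), hP3, hVs _ j.2]

end St16
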