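import Pool.Agent.LibSt16.VC1
import Pool.Agent.LibSt16.VC4

/-!
Row VC5 (SHORT/MEDIUM). `fl` on good chains.

GdF_eq: an element of `GdF n k` is supported on lists `l ≠ []` with ranks of sum `n`, `sum of dimensions + length = k+1`,
weights of sum 1.  A list in its support either has some entry of positive dimension (then degenerate: `Dg_F`, it is in
`DegB`) or all dimensions 0, then its length is `k+1` and it satisfies `GdL n k`.
fl_mem: `fl k z ∈ SC (PS n) k` (LibST67.SC; `flag_mem`).
fl_inj: if `fl k z = 0` and `z ∈ GdF n k` then `z ∈ DegB`: the coefficient of `fl k z` at `flag k (l.map wF)`, `l` with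
`GdL n k l`, is `z l` (by `flag_inj` no other good list gives the same flag; the other lists are sent to 0): write `fl k z` as
`Finsupp.mapDomain` of the part of `z` on the good lists with all dimensions 0, or evaluate the sum.
fl_surj: `n > 0`, `u ∈ SC (PS n) k`: `u` is a combination of `single f 1` with `f` as in `flag_surj`; take the lists.
Their chains are in `GdF n k` (`l ≠ []` as the length is `k+1`; dimensions 0: `List.sum` of the map of `q` is 0).
-/

set_option autoImplicit false

noncomputable section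

namespace St16

private theorem VC5_sum {n : ℕ} {l : List (Cb (sysF n))} (h0 : ∀ c ∈ l, c.q = 0) :
    (l.map Cb.q).sum = 0 := by
  apply List.sum_eq_zero
  intro x hx
  obtain ⟨c, hc, rfl⟩ := List.mem_map.1 hx
  exact h0 c hc

private theorem VC5_gdl {n k : ℕ} {z : BT (sysF n)} (hz : z ∈ GdF n k)
    {l : List (Cb (sysF n))} (hl : l ∈ z.support) (h0 : ∀ c ∈ l, c.q = 0) : GdL n k l := by
  obtain ⟨h1, h2⟩ := Submodule.mem_inf.1 hz
  obtain ⟨-, hr, hq⟩ := (Finsupp.mem_supported ℚ z).1 h1 hl
  have h2' := (Finsupp.mem_supported ℚ z).1 h2 hl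
  have hs := VC5_sum h0
  exact ⟨h0, by omega, hr, h2'⟩

private theorem VC5_fl {n k : ℕ} (z : BT (sysF n)) : fl k z = z.sum fun l a => a • fl1 k l := by
  unfold fl
  rw [Finsupp.linearCombination_apply]

open Pool.Agent.LibST67 in
theorem fl_mem {n k : ℕ} {z : BT (sysF n)} (hz : z ∈ GdF n k) : fl k z ∈ SC (PS n) k := by
  rw [VC5_fl]
  refine Submodule.sum_mem _ fun l hl => Submodule.smul_mem _ _ ?_
  unfold fl1
  split_ifs with h
  · exact Finsupp.single_mem_supported ℚ 1 (flag_mem (VC5_gdl hz hl h.1))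
  · exact Submodule.zero_mem _

theorem fl_inj {n k : ℕ} {z : BT (sysF n)} (hz : z ∈ GdF n k) (h : fl k z = 0) :
    z ∈ DegB (sysF n) := by
  classical
  rw [mem_DegB]
  intro l hl
  by_contra hc
  push Not at hc
  have h0 : ∀ c ∈ l, c.q = 0 := by
    intro c hcl
    by_contra hq
    exact hc c hcl (Dg_F c (Nat.pos_of_ne_zero hq))
  have hgl := VC5_gdl hz hl h0
  have h1 : (fl k z) (flag k (l.map wF)) = z l := by
    rw [VC5_fl, Finsupp.sum, Finsupp.finsetSum_apply, Finset.sum_eq_single l]
    · rw [Finsupp.smul_apply, fl1, if_pos ⟨hgl.1, hgl.2.1⟩, Finsupp.single_eq_same, smul_eq_mul,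
        mul_one]
    · intro l' hl' hne
      rw [Finsupp.smul_apply]
      unfold fl1
      split_ifs with hg
      · rw [Finsupp.single_apply, if_neg, smul_zero]
        intro he
        exact hne (flag_inj (VC5_gdl hz hl' hg.1) hgl he)
      · simp
    · intro hn
      exact absurd hl hn
  rw [h, Finsupp.zero_apply] at h1
  exact (Finsupp.mem_support_iff.1 hl) h1.symm

open Pool.Agent.LibST67 in
theorem fl_surj {n k : ℕ} (hn : 0 < n) {u : (Fin k → Submodule ℝ (Fin n → ℝ)) →₀ ℚ}
    (hu : u ∈ SC (PS n) k) : ∃ z ∈ GdF n k, fl k z = u := by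
  have hle : SC (PS n) k ≤ (GdF n k).map (fl k) := by
    unfold SC
    rw [Finsupp.supported_eq_span_single, Submodule.span_le]
    rintro _ ⟨f, ⟨hf, hf'⟩, rfl⟩
    obtain ⟨l, hl, hfl⟩ := flag_surj hn f hf hf'
    refine ⟨Finsupp.single l 1, ?_, ?_⟩
    · refine Submodule.mem_inf.2 ⟨Finsupp.single_mem_supported ℚ 1 ⟨?_, hl.2.2.1, ?_⟩,
        Finsupp.single_mem_supported ℚ 1 hl.2.2.2⟩
      · rintro rfl
        have := hl.2.1
        simp at this
      · rw [VC5_sum hl.1, hl.2.1, zero_add]
    · rw [fl, Finsupp.linearCombination_single, one_smul, fl1, if_pos ⟨hl.1, hl.2.1⟩, hfl]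
  obtain ⟨z, hz, h⟩ := hle hu
  exact ⟨z, hz, h⟩

end St16
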