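import Pool.Agent.LibSt16.VB2
import Pool.Agent.LibSt16.VC5
import Pool.Agent.LibST67.T6
import Pool.Agent.LibST67.EC

/-!
LibSt16/V7: exactness of the complex of good lists of frames away from the top degree.
-/

set_option autoImplicit false

noncomputable section

namespace St16

open Pool.Agent.LibST67 (SC solomon_tits cn cn_mem_SC bd_cn_zero)

theorem bt_gm_BD {n : ℕ} (z : BT (sysV n)) : (gmH n).bt (BD z) = BD ((gmH n).bt z) :=
  SHom.bt_BD (gmH n) z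

/-- in degrees at least `n` every good chain of `sysF` is degenerate -/
theorem GdF_high {n k : ℕ} (hk : n ≤ k) {z : BT (sysF n)} (hz : z ∈ GdF n k) :
    z ∈ DegB (sysF n) := by
  rw [mem_DegB]
  intro l hl
  have h := (Finsupp.mem_supported _ _).1 hz.1 hl
  obtain ⟨h1, h2, h3⟩ := h
  by_contra hc
  push Not at hc
  have hq : ∀ c ∈ l, c.q = 0 := by
    intro c hcl
    by_contra h0
    exact hc c hcl (Dg_F c (Nat.pos_of_ne_zero h0))
  have h4 : (l.map Cb.q).sum = 0 := by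
    rw [List.sum_eq_zero]
    intro x hx
    obtain ⟨c, hcl, rfl⟩ := List.mem_map.1 hx
    exact hq c hcl
  have h5 : l.length ≤ (l.map Cb.r).sum := by
    clear h1 h2 h3 hc hq h4 hl
    induction l with
    | nil => simp
    | cons c l ih =>
      rw [List.length_cons, List.map_cons, List.sum_cons]
      have := c.r_pos
      omega
  omega

theorem exV {m k : ℕ} (hk : k ≠ m + 1) {z : BT (sysV (m + 2))} (hz : z ∈ GdV (m + 2) k)
    (hD : BD z ∈ DegB (sysV (m + 2))) :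
    ∃ w ∈ GdV (m + 2) (k + 1), z - BD w ∈ DegB (sysV (m + 2)) := by
  rcases Nat.lt_or_ge k (m + 2) with hlt | hge
  · -- below the top degree
    have hbt : fl k ((gmH (m + 2)).bt z) ∈ SC (PS (m + 2)) k := fl_mem (bt_GdV hz)
    have hex : ∃ w' ∈ SC (PS (m + 2)) (k + 1),
        Pool.Agent.LibST67.bd k w' = fl k ((gmH (m + 2)).bt z) := by
      have hST := solomon_tits (K := ℝ) (V := Fin (m + 2) → ℝ) (m + 2) (by simp)
      cases k with
      | zero =>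
        obtain ⟨x, hx⟩ := hST.1 (by omega)
        refine ⟨cn x 0 (fl 0 ((gmH (m + 2)).bt z)), ?_, bd_cn_zero _ _⟩
        refine cn_mem_SC (T := (∅ : Set (Submodule ℝ (Fin (m + 2) → ℝ)))) hx
          (fun y hy => absurd hy (Set.notMem_empty _)) ?_
        rw [SC, Finsupp.mem_supported]
        exact fun f _ => And.intro (fun i => Fin.elim0 i) (fun i => Fin.elim0 i)
      | succ k' =>
        refine hST.2 k' (by omega) _ hbt ?_
        rw [← fl_BD, ← bt_gm_BD]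
        exact fl_DegB _ (SHom.bt_DegB _ _ hD)
    obtain ⟨w', hw', hbw'⟩ := hex
    obtain ⟨u', hu', hfu'⟩ := fl_surj (n := m + 2) (by omega) hw'
    obtain ⟨w₁, hw₁, hbt₁⟩ := GdF_lift hu'
    have hz' : z - BD w₁ ∈ GdV (m + 2) k := Submodule.sub_mem _ hz (BD_GdV hw₁)
    have hf : fl k ((gmH (m + 2)).bt (z - BD w₁)) = 0 := by
      rw [map_sub, map_sub, bt_gm_BD, hbt₁, fl_BD, hfu', hbw', sub_self]
    obtain ⟨w₂, hw₂, -, hd⟩ := L1g hz' (by
      rw [map_sub, BD_BD, sub_zero]; exact hD) (fl_inj (bt_GdV hz') hf)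
    refine ⟨w₁ + w₂, Submodule.add_mem _ hw₁ hw₂, ?_⟩
    rw [map_add, ← sub_sub]
    exact hd
  · obtain ⟨w, hw, -, hd⟩ := L1g hz hD (GdF_high hge (bt_GdV hz))
    exact ⟨w, hw, hd⟩

theorem exV_top {m : ℕ} {z : BT (sysV (m + 2))} (hz : z ∈ GdV (m + 2) (m + 1))
    (hD : BD z ∈ DegB (sysV (m + 2))) (hf : fl (m + 1) ((gmH (m + 2)).bt z) = 0) :
    ∃ w ∈ GdV (m + 2) (m + 2), z - BD w ∈ DegB (sysV (m + 2)) := by
  obtain ⟨w, hw, -, hd⟩ := L1g hz hD (fl_inj (bt_GdV hz) hf)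
  exact ⟨w, hw, hd⟩

theorem ontoV {m : ℕ} {u : (Fin (m + 1) → Submodule ℝ (Fin (m + 2) → ℝ)) →₀ ℚ}
    (hu : u ∈ SC (PS (m + 2)) (m + 1)) (hb : Pool.Agent.LibST67.bd m u = 0) :
    ∃ z ∈ GdV (m + 2) (m + 1), BD z ∈ DegB (sysV (m + 2)) ∧
      fl (m + 1) ((gmH (m + 2)).bt z) = u := by
  obtain ⟨u', hu', hfu'⟩ := fl_surj (n := m + 2) (by omega) hu
  obtain ⟨z₀, hz₀, hbt⟩ := GdF_lift hu'
  have hy : BD z₀ ∈ GdV (m + 2) m := BD_GdV hz₀
  have hf : fl m ((gmH (m + 2)).bt (BD z₀)) = 0 := by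
    rw [bt_gm_BD, hbt, fl_BD, hfu', hb]
  obtain ⟨w₁, hw₁, hbw, hd⟩ := L1g hy (by rw [BD_BD]; exact Submodule.zero_mem _)
    (fl_inj (bt_GdV hy) hf)
  refine ⟨z₀ - w₁, Submodule.sub_mem _ hz₀ hw₁, ?_, ?_⟩
  · rw [map_sub]; exact hd
  · rw [map_sub, map_sub, hbt, hfu', fl_DegB _ hbw, sub_zero]

end St16
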