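import Pool.Agent.LibSt16.V0

/-!
Row VA1 (SHORT/MEDIUM). `gmH n` is onto on cubes and every class of frames has a contraction.

CbOnto: for `c' : Cb (sysF n)`: `c'.l s = c'.l z0` for all `s` (`z0 ≤ s`, the order of `Mt n` is equality) and
`c'.l z0 ∈ Pn c'.r` gives a tuple `φ` of length `c'.r` with `gm φ = (c'.l z0).M`; take the constant cube `φ`
(`r := c'.r`, `q := c'.q`, `y := fun _ => 1`, `l := fun _ => φ`); compare with `Cb.ext` (`1 * r = r`: `one_mul`;
`y` has values in `PUnit`: `rfl` / `Subsingleton.elim`).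

KerExact (gmH n) r: given `z ∈ ChN (sysV n) r q`, `bd z ∈ DegC`, `(gmH n).ch z ∈ DegC`.
Choose (Classical) `bs : ℕ → Matrix → Fr n` with `(bs r M).v.length = r` and `gm (bs r M) = M` whenever some tuple of
length `r` has `gm = M`.  Define for a cube `c` of frames
  `cone c`: rank `c.r`, dimension `c.q + 1`, `l s = if s 0 then c.l (fun i => s (i + 1)) else bs c.r (gm (c.l z0))`,
  `cst c`: rank `c.r`, dimension `c.q`, `l s = bs c.r (gm (c.l z0))`.
(`gm (c.l s) = gm (c.l z0)` for all `s` by `l_mono` and `z0 ≤ s`.)  Then, with `ins`: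
  `(cone c).face true 0 = c`, `(cone c).face false 0 = cst c`, `(cone c).face b (k+1) = cone (c.face b k)` for `k < c.q`
(the action of `PUnit` is trivial by definition: `rfl`), so `bd1 (cone c) = single c 1 - single (cst c) 1 - cone (bd1 c)`
(`Finset.sum_range_succ'`), and linearly `bd (cone z) = z - cst z - cone (bd z)` with `cone`, `cst` extended by
`Finsupp.lmapDomain`.  `cone` maps `DegC` to `DegC` (bit `k` becomes bit `k+1`).  Take `w = cone z`: `w ∈ ChN r (q+1)`;
`(gmH n).cb (cone c)` is a constant cube of positive dimension, so degenerate.  `z - bd w = cst z + cone (bd z)`.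
If `q > 0`, `cst c` is constant of dimension `q > 0`, so degenerate.  If `q = 0`: `cst c` depends only on `(gmH n).cb c`
(`c.r` and `gm (c.l z0)`; dimension 0), and `(gmH n).ch z = 0`, because no cube of dimension 0 is degenerate and
`(gmH n).ch z` is supported on cubes of dimension 0; hence `cst z = 0` (write `cst z` as the image of `(gmH n).ch z`
under a map of cubes).
-/

set_option autoImplicit false

noncomputable section

namespace St16

open Classical in
/-- a chosen tuple of length `r` with matrix `M` (junk if there is none) -/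
private def VA1_bs {n : ℕ} (r : ℕ) (M : Matrix (Fin n) (Fin n) ℝ) : Fr n :=
  if h : ∃ f : Fr n, f.v.length = r ∧ gm f = M then h.choose else ⟨[]⟩

private theorem VA1_bs_len {n : ℕ} {r : ℕ} {M : Matrix (Fin n) (Fin n) ℝ}
    (h : ∃ f : Fr n, f.v.length = r ∧ gm f = M) : (VA1_bs r M).v.length = r := by
  unfold VA1_bs
  rw [dif_pos h]
  exact h.choose_spec.1

private theorem VA1_bs_gm {n : ℕ} {r : ℕ} {M : Matrix (Fin n) (Fin n) ℝ}
    (h : ∃ f : Fr n, f.v.length = r ∧ gm f = M) : gm (VA1_bs r M) = M := by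
  unfold VA1_bs
  rw [dif_pos h]
  exact h.choose_spec.2

private theorem VA1_z0_le (s : ℕ → Bool) : z0 ≤ s := fun i => by
  show false ≤ s i
  exact Bool.false_le _

private theorem VA1_gm {n : ℕ} (c : Cb (sysV n)) (s : ℕ → Bool) : gm (c.l s) = gm (c.l z0) := by
  have h : c.l z0 ≤ c.l s := c.l_mono _ _ (VA1_z0_le s)
  exact (show gm (c.l z0) = gm (c.l s) from h).symm

private theorem VA1_ex {n : ℕ} (c : Cb (sysV n)) (s : ℕ → Bool) :
    ∃ f : Fr n, f.v.length = c.r ∧ gm f = gm (c.l s) :=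
  ⟨c.l s, c.l_mem s, rfl⟩

private theorem VA1_F {n : ℕ} (c : Cb (sysF n)) (s : ℕ → Bool) : c.l z0 = c.l s := by
  have h : c.l z0 ≤ c.l s := c.l_mono _ _ (VA1_z0_le s)
  exact h

/-- the constant cube of frames over a cube of matrices -/
private def VA1_sg {n : ℕ} (c : Cb (sysF n)) : Cb (sysV n) where
  r := c.r
  q := c.q
  y := fun _ => 1
  l := fun _ => VA1_bs c.r (c.l z0).M
  r_pos := c.r_pos
  y_dep := fun _ _ _ => rfl
  l_dep := fun _ _ _ => rfl
  y_mem := fun _ => trivial
  l_mem := fun _ => VA1_bs_len (c.l_mem z0)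
  y_zero := rfl
  l_mono := fun _ _ _ => le_refl _

/-- the constant cube -/
private def VA1_cst {n : ℕ} (c : Cb (sysV n)) : Cb (sysV n) where
  r := c.r
  q := c.q
  y := fun _ => 1
  l := fun _ => VA1_bs c.r (gm (c.l z0))
  r_pos := c.r_pos
  y_dep := fun _ _ _ => rfl
  l_dep := fun _ _ _ => rfl
  y_mem := fun _ => trivial
  l_mem := fun _ => VA1_bs_len (VA1_ex c z0)
  y_zero := rfl
  l_mono := fun _ _ _ => le_refl _

private theorem VA1_cone_gm {n : ℕ} (c : Cb (sysV n)) (s : ℕ → Bool) :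
    gm (if s 0 = true then c.l (fun i => s (i + 1)) else VA1_bs c.r (gm (c.l z0))) =
      gm (c.l z0) := by
  split_ifs
  · exact VA1_gm c _
  · exact VA1_bs_gm (VA1_ex c z0)

/-- the cone -/
private def VA1_cone {n : ℕ} (c : Cb (sysV n)) : Cb (sysV n) where
  r := c.r
  q := c.q + 1
  y := fun _ => 1
  l := fun s => if s 0 = true then c.l (fun i => s (i + 1)) else VA1_bs c.r (gm (c.l z0))
  r_pos := c.r_pos
  y_dep := fun _ _ _ => rfl
  l_dep := by
    intro s s' h
    have h0 : s 0 = s' 0 := h 0 (by omega)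
    have h1 : c.l (fun i => s (i + 1)) = c.l (fun i => s' (i + 1)) :=
      c.l_dep _ _ fun i hi => h (i + 1) (by omega)
    rw [h0, h1]
  y_mem := fun _ => trivial
  l_mem := by
    intro s
    by_cases h : s 0 = true
    · rw [if_pos h]
      exact c.l_mem _
    · rw [if_neg h]
      exact VA1_bs_len (VA1_ex c z0)
  y_zero := rfl
  l_mono := fun s s' _ => by
    show gm _ = gm _
    rw [VA1_cone_gm, VA1_cone_gm]

private theorem VA1_face_l {n : ℕ} (c : Cb (sysV n)) (b : Bool) (k : ℕ) (hk : k < c.q)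
    (s : ℕ → Bool) : (c.face b k).l s = c.l (ins k b s) := by
  rw [Cb.face_l c b k hk]
  rfl

private theorem VA1_face_true {n : ℕ} (c : Cb (sysV n)) : (VA1_cone c).face true 0 = c := by
  have hq : 0 < (VA1_cone c).q := Nat.succ_pos _
  refine Cb.ext' ?_ ?_ (fun s => ?_) (fun s => ?_)
  · exact Cb.face_r _ _ _
  · rw [Cb.face_q _ _ _ hq]
    rfl
  · exact Subsingleton.elim _ _
  · rw [VA1_face_l _ _ _ hq]
    show (if ins 0 true s 0 = true then c.l (fun i => ins 0 true s (i + 1)) else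
      VA1_bs c.r (gm (c.l z0))) = _
    rw [if_pos (insC_eq 0 true s)]
    congr 1

private theorem VA1_face_false {n : ℕ} (c : Cb (sysV n)) :
    (VA1_cone c).face false 0 = VA1_cst c := by
  have hq : 0 < (VA1_cone c).q := Nat.succ_pos _
  refine Cb.ext' ?_ ?_ (fun s => ?_) (fun s => ?_)
  · exact Cb.face_r _ _ _
  · rw [Cb.face_q _ _ _ hq]
    rfl
  · exact Subsingleton.elim _ _
  · rw [VA1_face_l _ _ _ hq]
    show (if ins 0 false s 0 = true then c.l (fun i => ins 0 false s (i + 1)) else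
      VA1_bs c.r (gm (c.l z0))) = _
    rw [if_neg (by rw [insC_eq]; decide)]
    rfl

private theorem VA1_ins_succ (k : ℕ) (b : Bool) (s : ℕ → Bool) :
    (fun i => ins (k + 1) b s (i + 1)) = ins k b (fun i => s (i + 1)) := by
  funext i
  rcases lt_trichotomy i k with hi | hi | hi
  · rw [insC_lt _ _ _ _ (by omega), insC_lt _ _ _ _ hi]
  · subst hi
    rw [insC_eq, insC_eq]
  · rw [insC_gt _ _ _ _ (by omega), insC_gt _ _ _ _ hi]
    congr 1
    omega

private theorem VA1_face_succ {n : ℕ} (c : Cb (sysV n)) (b : Bool) (k : ℕ) (hk : k < c.q) :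
    (VA1_cone c).face b (k + 1) = VA1_cone (c.face b k) := by
  have hq : k + 1 < (VA1_cone c).q := Nat.succ_lt_succ hk
  refine Cb.ext' ?_ ?_ (fun s => ?_) (fun s => ?_)
  · rw [Cb.face_r]
    show c.r = (c.face b k).r
    rw [Cb.face_r]
  · rw [Cb.face_q _ _ _ hq]
    show c.q + 1 - 1 = (c.face b k).q + 1
    rw [Cb.face_q _ _ _ hk]
    omega
  · exact Subsingleton.elim _ _
  · rw [VA1_face_l _ _ _ hq]
    show (if ins (k + 1) b s 0 = true then c.l (fun i => ins (k + 1) b s (i + 1)) else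
        VA1_bs c.r (gm (c.l z0))) =
      (if s 0 = true then (c.face b k).l (fun i => s (i + 1)) else
        VA1_bs (c.face b k).r (gm ((c.face b k).l z0)))
    rw [VA1_ins_succ, insC_lt _ _ _ _ (Nat.succ_pos k), VA1_face_l _ _ _ hk, VA1_face_l _ _ _ hk,
      Cb.face_r, VA1_gm c (ins k b z0)]

/-- linear extensions -/
private def VA1_coneL (n : ℕ) : Ch (sysV n) →ₗ[ℚ] Ch (sysV n) := Finsupp.lmapDomain ℚ ℚ VA1_cone

private def VA1_cstL (n : ℕ) : Ch (sysV n) →ₗ[ℚ] Ch (sysV n) := Finsupp.lmapDomain ℚ ℚ VA1_cst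

private def VA1_sgL (n : ℕ) : Ch (sysF n) →ₗ[ℚ] Ch (sysV n) := Finsupp.lmapDomain ℚ ℚ VA1_sg

private theorem VA1_coneL_single {n : ℕ} (c : Cb (sysV n)) (a : ℚ) :
    VA1_coneL n (Finsupp.single c a) = Finsupp.single (VA1_cone c) a := by
  simp [VA1_coneL, Finsupp.lmapDomain_apply, Finsupp.mapDomain_single]

private theorem VA1_cstL_single {n : ℕ} (c : Cb (sysV n)) (a : ℚ) :
    VA1_cstL n (Finsupp.single c a) = Finsupp.single (VA1_cst c) a := by
  simp [VA1_cstL, Finsupp.lmapDomain_apply, Finsupp.mapDomain_single]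

private theorem VA1_sgL_single {n : ℕ} (c : Cb (sysF n)) (a : ℚ) :
    VA1_sgL n (Finsupp.single c a) = Finsupp.single (VA1_sg c) a := by
  simp [VA1_sgL, Finsupp.lmapDomain_apply, Finsupp.mapDomain_single]

private theorem VA1_bd1_cone {n : ℕ} (c : Cb (sysV n)) :
    bd1 (VA1_cone c) = Finsupp.single c 1 - Finsupp.single (VA1_cst c) 1 -
      VA1_coneL n (bd1 c) := by
  unfold bd1
  show ∑ k ∈ Finset.range (c.q + 1), _ = _
  rw [Finset.sum_range_succ', VA1_face_true, VA1_face_false, pow_zero, one_smul, map_sum]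
  have h : ∑ k ∈ Finset.range c.q, (-1 : ℚ) ^ (k + 1) •
      (Finsupp.single ((VA1_cone c).face true (k + 1)) (1 : ℚ) -
        Finsupp.single ((VA1_cone c).face false (k + 1)) 1) =
      -∑ k ∈ Finset.range c.q, VA1_coneL n ((-1 : ℚ) ^ k •
        (Finsupp.single (c.face true k) 1 - Finsupp.single (c.face false k) 1)) := by
    rw [← Finset.sum_neg_distrib]
    refine Finset.sum_congr rfl fun k hk => ?_
    rw [VA1_face_succ c true k (Finset.mem_range.1 hk), VA1_face_succ c false k
      (Finset.mem_range.1 hk), map_smul, map_sub, VA1_coneL_single, VA1_coneL_single, pow_succ,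
      mul_neg_one, neg_smul]
  rw [h]
  abel

private theorem VA1_bd_cone {n : ℕ} (z : Ch (sysV n)) :
    bd (VA1_coneL n z) = z - VA1_cstL n z - VA1_coneL n (bd z) := by
  induction z using Finsupp.induction_linear with
  | zero => simp
  | add x y hx hy => rw [map_add, map_add, hx, hy, map_add, map_add, map_add]; abel
  | single c a =>
    rw [VA1_coneL_single, bd_sgl, VA1_bd1_cone, bd_sgl, map_smul, VA1_cstL_single,
      smul_sub, smul_sub, Finsupp.smul_single, Finsupp.smul_single, smul_eq_mul, mul_one]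

private theorem VA1_sg_cb {n : ℕ} (c : Cb (sysV n)) : VA1_sg ((gmH n).cb c) = VA1_cst c := by
  refine Cb.ext' ?_ rfl (fun s => rfl) (fun s => ?_)
  · show 1 * c.r = c.r
    exact one_mul _
  · show VA1_bs (1 * c.r) (gm (c.l z0)) = VA1_bs c.r (gm (c.l z0))
    rw [one_mul]

private theorem VA1_sgL_ch {n : ℕ} (z : Ch (sysV n)) :
    VA1_sgL n ((gmH n).ch z) = VA1_cstL n z := by
  induction z using Finsupp.induction_linear with
  | zero => simp
  | add x y hx hy => rw [map_add, map_add, map_add, hx, hy]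
  | single c a => rw [SHom.ch_single, VA1_sgL_single, VA1_cstL_single, VA1_sg_cb]

private theorem VA1_cone_Dg {n : ℕ} (c : Cb (sysV n)) (h : c.Dg) : (VA1_cone c).Dg := by
  obtain ⟨k, hk, h⟩ := h
  refine ⟨k + 1, Nat.succ_lt_succ hk, fun s s' hs => ⟨rfl, ?_⟩⟩
  show (if s 0 = true then c.l (fun i => s (i + 1)) else VA1_bs c.r (gm (c.l z0))) =
    (if s' 0 = true then c.l (fun i => s' (i + 1)) else VA1_bs c.r (gm (c.l z0)))
  have h0 : s 0 = s' 0 := hs 0 (by omega)
  have h1 : c.l (fun i => s (i + 1)) = c.l (fun i => s' (i + 1)) :=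
    (h _ _ fun i hi => hs (i + 1) (by omega)).2
  rw [h0, h1]

theorem gmH_onto (n : ℕ) : CbOnto (gmH n) := by
  intro c'
  refine ⟨VA1_sg c', Cb.ext' ?_ rfl (fun s => Subsingleton.elim _ _) (fun s => ?_)⟩
  · show 1 * c'.r = c'.r
    exact one_mul _
  · show (⟨gm (VA1_bs c'.r (c'.l z0).M)⟩ : Mt n) = c'.l s
    rw [VA1_bs_gm (c'.l_mem z0), ← VA1_F c' s]

theorem gmH_ker (n r : ℕ) : KerExact (gmH n) r := by
  intro q z hz hbd hch
  refine ⟨VA1_coneL n z, ?_, ?_, ?_⟩
  · refine supported_le (VA1_coneL n) _ _ (fun c hc => ?_) z hz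
    rw [VA1_coneL_single]
    exact Finsupp.single_mem_supported ℚ _ ⟨hc.1, by rw [← hc.2]; rfl⟩
  · have h1 : ∀ x : Ch (sysV n), (gmH n).ch (VA1_coneL n x) ∈ DegC (sysF n) := by
      intro x
      induction x using Finsupp.induction_linear with
      | zero => simp
      | add x y hx hy => rw [map_add, map_add]; exact add_mem hx hy
      | single c a =>
        rw [VA1_coneL_single, SHom.ch_single]
        refine sgl_mem_DegC ⟨0, Nat.succ_pos _, fun s s' _ => ⟨rfl, ?_⟩⟩ a
        show (⟨gm ((VA1_cone c).l s)⟩ : Mt n) = ⟨gm ((VA1_cone c).l s')⟩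
        rw [VA1_gm (VA1_cone c) s, VA1_gm (VA1_cone c) s']
    exact h1 z
  · rw [VA1_bd_cone]
    have h2 : z - (z - VA1_cstL n z - VA1_coneL n (bd z)) = VA1_cstL n z + VA1_coneL n (bd z) := by
      abel
    rw [h2]
    refine add_mem ?_ ?_
    · rcases Nat.eq_zero_or_pos q with rfl | hq
      · have h3 : (gmH n).ch z = 0 := by
          have h4 := SHom.ch_ChN_one (gmH n) r 0 z hz
          rw [← Finsupp.support_eq_empty]
          refine Finset.eq_empty_of_forall_notMem fun c hc => ?_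
          have h5 : c.Dg := (mem_DegC _).1 hch c hc
          have h6 : c.r = r ∧ c.q = 0 := (Finsupp.mem_supported ℚ _).1 h4 hc
          obtain ⟨k, hk, -⟩ := h5
          omega
        rw [← VA1_sgL_ch, h3, map_zero]
        exact zero_mem _
      · refine supported_le (VA1_cstL n) _ _ (fun c hc => ?_) z hz
        rw [VA1_cstL_single]
        refine sgl_mem_DegC ⟨0, ?_, fun s s' _ => ⟨rfl, rfl⟩⟩ 1
        show 0 < c.q
        rw [hc.2]
        exact hq
    · refine supported_le (VA1_coneL n) _ _ (fun c hc => ?_) _ hbd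
      rw [VA1_coneL_single]
      exact sgl_mem_DegC (VA1_cone_Dg c hc) 1

end St16
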