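import Pool.Agent.LibSt16.V0

/-!
Row VB1 (SHORT/MEDIUM). The boundary of the bar complex preserves an additive weight.

`w` is a function on cubes with `w (c.face b k) = w c` for `k < c.q` and `w (c * c') = w c + w c'`.
BD1_w: by induction on the list (cases [], [c], c :: c' :: l as in the definition of BD1): every list in the support of
`BD1 l` has the same total weight as `l`.  Use `Finsupp.single_mem_supported`, `Submodule.sum_mem`, `smul_mem`,
`Submodule.sub_mem`, and for `Finsupp.mapDomain f x`: `x ∈ supported s`, `f '' s ⊆ t` gives `mapDomain f x ∈ supported t`.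
BD_w: linear extension.  BD_filter: `z = filter + filter not`; `BD` of the second part has no list of weight `M` (it is
supported on the lists of weight `≠ M`: apply BD1_w list by list), so `filter (BD z) = BD (filter z)`; easiest: by
`Finsupp.induction_linear` on `z`, `z = single l c`: if `l` has weight `M`, both sides are `BD (single l c)`, otherwise 0
(`Finsupp.filter_eq_self_iff`, `Finsupp.filter_eq_zero_iff`).
wV_face etc.: `(c.face b k).l z0 = c.l (ins k b z0)` (trivial action of PUnit, `unfold Cb.face; rw [dif_pos h]; rfl`) and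
`c.l_mono` with `z0 ≤ _`; `wV (c * c')`: `gm_append`.
-/

set_option autoImplicit false

noncomputable section

namespace St16

section

variable {G P : Type} [Group G] [Preorder P] [MulAction G P] {S : Sys G P} {W : Type} [AddCommMonoid W]

omit [AddCommMonoid W] in
private theorem VB1_bd1 (w : Cb S → W)
    (hf : ∀ (c : Cb S) (b : Bool) (k : ℕ), k < c.q → w (c.face b k) = w c) (c : Cb S) :
    bd1 c ∈ Finsupp.supported ℚ ℚ {c' : Cb S | w c' = w c} := by
  unfold bd1
  refine Submodule.sum_mem _ fun j hj => Submodule.smul_mem _ _ ?_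
  rw [Finset.mem_range] at hj
  exact sub_mem (Finsupp.single_mem_supported ℚ _ (hf c true j hj))
    (Finsupp.single_mem_supported ℚ _ (hf c false j hj))

private theorem VB1_BD1 (w : Cb S → W)
    (hf : ∀ (c : Cb S) (b : Bool) (k : ℕ), k < c.q → w (c.face b k) = w c)
    (hm : ∀ c c' : Cb S, w (c * c') = w c + w c') (l : List (Cb S)) :
    BD1 l ∈ Finsupp.supported ℚ ℚ {l' : List (Cb S) | (l'.map w).sum = (l.map w).sum} := by
  induction l with
  | nil => exact zero_mem _
  | cons c l ih =>
    rw [BD1_rec]
    refine sub_mem (add_mem ?_ (Submodule.smul_mem _ _ ?_)) (Submodule.smul_mem _ _ ?_)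
    · rw [consB_list]
      refine supported_le (consL l) _ _ (fun x hx => ?_) _ (VB1_bd1 w hf c)
      rw [consL_single]
      refine Finsupp.single_mem_supported ℚ _ ?_
      have hx' : w x = w c := hx
      simp only [Set.mem_ofPred_eq, List.map_cons, List.sum_cons, hx']
    · rw [mrg_single, one_smul]
      cases l with
      | nil => exact zero_mem _
      | cons c' l =>
        refine Finsupp.single_mem_supported ℚ _ ?_
        simp only [Set.mem_ofPred_eq, List.map_cons, List.sum_cons, hm, add_assoc]
    · refine supported_le (consC c) _ _ (fun x hx => ?_) _ ih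
      rw [consC_single]
      refine Finsupp.single_mem_supported ℚ _ ?_
      have hx' : (x.map w).sum = (l.map w).sum := hx
      simp only [Set.mem_ofPred_eq, List.map_cons, List.sum_cons, hx']

theorem BD_w (w : Cb S → W) (hf : ∀ (c : Cb S) (b : Bool) (k : ℕ), k < c.q → w (c.face b k) = w c)
    (hm : ∀ c c' : Cb S, w (c * c') = w c + w c') (M : W) {z : BT S}
    (hz : z ∈ Finsupp.supported ℚ ℚ {l : List (Cb S) | (l.map w).sum = M}) :
    BD z ∈ Finsupp.supported ℚ ℚ {l : List (Cb S) | (l.map w).sum = M} := by
  refine supported_le BD _ _ (fun l hl => ?_) z hz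
  rw [BD_single, one_smul]
  have hl' : (l.map w).sum = M := hl
  have h := VB1_BD1 w hf hm l
  rw [hl'] at h
  exact h

open Classical in
theorem BD_filter (w : Cb S → W)
    (hf : ∀ (c : Cb S) (b : Bool) (k : ℕ), k < c.q → w (c.face b k) = w c)
    (hm : ∀ c c' : Cb S, w (c * c') = w c + w c') (M : W) (z : BT S) :
    BD (z.filter fun l => (l.map w).sum = M) = (BD z).filter fun l => (l.map w).sum = M := by
  induction z using Finsupp.induction_linear with
  | zero => rw [Finsupp.filter_zero, map_zero, Finsupp.filter_zero]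
  | add x y hx hy => rw [Finsupp.filter_add, map_add, map_add, Finsupp.filter_add, hx, hy]
  | single l a =>
    have h := VB1_BD1 w hf hm l
    by_cases hl : (l.map w).sum = M
    · rw [Finsupp.filter_single_of_pos (fun l : List (Cb S) => (l.map w).sum = M) hl, eq_comm, Finsupp.filter_eq_self_iff]
      intro l' hl'
      rw [BD_single, Finsupp.smul_apply] at hl'
      have h1 : BD1 l l' ≠ 0 := fun h2 => hl' (by rw [h2, smul_zero])
      have h2 := (Finsupp.mem_supported ℚ _).1 h (Finsupp.mem_support_iff.2 h1)
      exact (show (l'.map w).sum = (l.map w).sum from h2).trans hl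
    · rw [Finsupp.filter_single_of_neg (fun l : List (Cb S) => (l.map w).sum = M) hl, map_zero, eq_comm, Finsupp.filter_eq_zero_iff]
      intro l' hl'
      rw [BD_single, Finsupp.smul_apply]
      by_contra h3
      have h1 : BD1 l l' ≠ 0 := fun h2 => h3 (by rw [h2, smul_zero])
      have h2 := (Finsupp.mem_supported ℚ _).1 h (Finsupp.mem_support_iff.2 h1)
      exact hl ((show (l'.map w).sum = (l.map w).sum from h2).symm.trans hl')

end

theorem wV_face {n : ℕ} (c : Cb (sysV n)) (b : Bool) (k : ℕ) (hk : k < c.q) :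
    wV (c.face b k) = wV c := by
  have h1 : (c.face b k).l z0 = c.l (ins k b z0) := by
    rw [Cb.face_l c b k hk]
    rfl
  have h2 : gm (c.l z0) = gm (c.l (ins k b z0)) := c.l_mono z0 _ (fun i => Bool.false_le _)
  unfold wV
  rw [h1, ← h2]

theorem wV_mul {n : ℕ} (c c' : Cb (sysV n)) : wV (c * c') = wV c + wV c' := by
  have h : (c * c').l z0 = ⟨(c.l z0).v ++ (c'.l z0).v⟩ := by
    rw [Cb.mul_l]
    rfl
  unfold wV
  rw [h, gm_append]

theorem wF_face {n : ℕ} (c : Cb (sysF n)) (b : Bool) (k : ℕ) (hk : k < c.q) :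
    wF (c.face b k) = wF c := by
  have h1 : (c.face b k).l z0 = c.l (ins k b z0) := by
    rw [Cb.face_l c b k hk]
    rfl
  have h2 : c.l z0 = c.l (ins k b z0) := c.l_mono z0 _ (fun i => Bool.false_le _)
  unfold wF
  rw [h1, ← h2]

theorem wF_mul {n : ℕ} (c c' : Cb (sysF n)) : wF (c * c') = wF c + wF c' := by
  have h : (c * c').l z0 = ⟨(c.l z0).M + (c'.l z0).M⟩ := by
    rw [Cb.mul_l]
    rfl
  unfold wF
  rw [h]

theorem wF_cb {n : ℕ} (c : Cb (sysV n)) : wF ((gmH n).cb c) = wV c := rfl

/-- all vertices of a cube of frames have the same weight -/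
theorem wV_vertex {n : ℕ} (c : Cb (sysV n)) (s : ℕ → Bool) : gm (c.l s) = wV c := by
  have h : gm (c.l z0) = gm (c.l s) := c.l_mono z0 s (fun i => Bool.false_le _)
  exact h.symm

/-- a cube of `sysF` is constant -/
theorem l_F {n : ℕ} (c : Cb (sysF n)) (s : ℕ → Bool) : c.l s = c.l z0 := by
  have h : c.l z0 = c.l s := c.l_mono z0 s (fun i => Bool.false_le _)
  exact h.symm

/-- a cube of `sysF` of positive dimension is degenerate -/
theorem Dg_F {n : ℕ} (c : Cb (sysF n)) (h : 0 < c.q) : c.Dg := by
  refine ⟨0, h, fun s s' _ => ⟨rfl, ?_⟩⟩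
  rw [l_F c s, l_F c s']

/-- a cube of dimension 0 is not degenerate -/
theorem not_Dg_zero {G P : Type} [Group G] [Preorder P] [MulAction G P] {S : Sys G P} (c : Cb S)
    (h : c.q = 0) : ¬ c.Dg := by
  rintro ⟨k, hk, -⟩
  omega

end St16
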