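import Pool.Agent.LibSt16.VB1
import Pool.Agent.LibSt16.VA1
import Pool.Agent.LibSt16.L1F

/-!
L1 for the good parts, and the boundary on good parts.
-/

set_option autoImplicit false

noncomputable section

namespace St16

theorem BD_GdV {n k : ℕ} {z : BT (sysV n)} (hz : z ∈ GdV n (k + 1)) : BD z ∈ GdV n k :=
  ⟨BD_BTN n k z hz.1, BD_w wV (fun c b k hk => wV_face c b k hk) wV_mul 1 hz.2⟩

private theorem VB2_map_w {n : ℕ} (l : List (Cb (sysV n))) :
    (l.map (gmH n).cb).map wF = l.map wV := by
  rw [List.map_map]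
  exact List.map_congr_left fun c _ => wF_cb c

theorem bt_GdV {n k : ℕ} {z : BT (sysV n)} (hz : z ∈ GdV n k) : (gmH n).bt z ∈ GdF n k := by
  refine ⟨SHom.bt_BTN_one (gmH n) n k z hz.1, ?_⟩
  refine supported_le (gmH n).bt _ _ (fun l hl => ?_) z hz.2
  rw [SHom.bt_single]
  refine Finsupp.single_mem_supported ℚ _ ?_
  show ((l.map (gmH n).cb).map wF).sum = 1
  rw [VB2_map_w]
  exact hl

private theorem VB2_flt {α : Type} (p : α → Prop) (i j : DecidablePred p) (z : α →₀ ℚ) :
    @Finsupp.filter α ℚ _ p i z = @Finsupp.filter α ℚ _ p j z := by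
  rw [Subsingleton.elim i j]

theorem L1g {n k : ℕ} {z : BT (sysV n)} (hz : z ∈ GdV n k) (hD : BD z ∈ DegB (sysV n))
    (hf : (gmH n).bt z ∈ DegB (sysF n)) :
    ∃ w ∈ GdV n (k + 1), (gmH n).bt w ∈ DegB (sysF n) ∧ z - BD w ∈ DegB (sysV n) := by
  classical
  obtain ⟨w₀, hw₀, hbt, hd⟩ := L1 (gmH n) (gmH_onto n) (fun r _ => gmH_ker n r) n k z hz.1 hD hf
  refine ⟨w₀.filter fun l => (l.map wV).sum = 1, Submodule.mem_inf.2 ⟨?_, ?_⟩, ?_, ?_⟩
  · refine (Finsupp.mem_supported _ _).2 fun l hl => ?_
    have hl' : l ∈ (w₀.filter fun l : List (Cb (sysV n)) => (l.map wV).sum = 1).support := hl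
    rw [Finsupp.support_filter] at hl'
    exact (Finsupp.mem_supported _ _).1 hw₀ (Finset.mem_filter.1 hl').1
  · refine (Finsupp.mem_supported _ _).2 fun l hl => ?_
    have hl' : l ∈ (w₀.filter fun l : List (Cb (sysV n)) => (l.map wV).sum = 1).support := hl
    rw [Finsupp.support_filter] at hl'
    exact (Finset.mem_filter.1 hl').2
  · have h1 : (gmH n).bt (w₀.filter fun l => (l.map wV).sum = 1) =
        ((gmH n).bt w₀).filter fun l => (l.map wF).sum = 1 := by
      clear hw₀ hbt hd
      induction w₀ using Finsupp.induction_linear with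
      | zero => rw [Finsupp.filter_zero, map_zero, Finsupp.filter_zero]
      | add a b ha hb => rw [Finsupp.filter_add, map_add, ha, hb, map_add, Finsupp.filter_add]
      | single l a =>
        rw [SHom.bt_single]
        by_cases h : (l.map wV).sum = 1
        · have h' : ((l.map (gmH n).cb).map wF).sum = 1 := by rw [VB2_map_w]; exact h
          rw [Finsupp.filter_single_of_pos (fun l : List (Cb (sysV n)) => (l.map wV).sum = 1) h,
            SHom.bt_single,
            Finsupp.filter_single_of_pos (fun l : List (Cb (sysF n)) => (l.map wF).sum = 1) h']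
        · have h' : ¬ ((l.map (gmH n).cb).map wF).sum = 1 := by rw [VB2_map_w]; exact h
          rw [Finsupp.filter_single_of_neg (fun l : List (Cb (sysV n)) => (l.map wV).sum = 1) h,
            map_zero,
            Finsupp.filter_single_of_neg (fun l : List (Cb (sysF n)) => (l.map wF).sum = 1) h']
    rw [h1, mem_DegB]
    intro l hl
    rw [Finsupp.support_filter] at hl
    exact (mem_DegB _).1 hbt l (Finset.mem_filter.1 hl).1
  · have h2 : z = z.filter fun l => (l.map wV).sum = 1 := by
      refine (Finsupp.filter_eq_self_iff _ _).2 ?_ |>.symm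
      intro l hl
      exact (Finsupp.mem_supported _ _).1 hz.2 (Finsupp.mem_support_iff.2 hl)
    have h3 : z - BD (w₀.filter fun l => (l.map wV).sum = 1) =
        (z - BD w₀).filter fun l => (l.map wV).sum = 1 := by
      have h4 : BD (w₀.filter fun l => (l.map wV).sum = 1) =
          (BD w₀).filter fun l => (l.map wV).sum = 1 := by
        have h5 := BD_filter wV (fun c b k hk => wV_face c b k hk) wV_mul 1 w₀
        exact (congrArg BD (VB2_flt _ _ _ w₀)).trans (h5.trans (VB2_flt _ _ _ (BD w₀)))
      rw [h4, Finsupp.filter_sub, ← h2]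
    rw [h3, mem_DegB]
    intro l hl
    rw [Finsupp.support_filter] at hl
    exact (mem_DegB _).1 hd l (Finset.mem_filter.1 hl).1

/-- the good chains of `sysF` lift -/
theorem GdF_lift {n k : ℕ} {u : BT (sysF n)} (hu : u ∈ GdF n k) :
    ∃ z ∈ GdV n k, (gmH n).bt z = u := by
  choose σ hσ using gmH_onto n
  have hr : ∀ c, (σ c).r = c.r := fun c => by
    have := congrArg Cb.r (hσ c)
    rw [← this]
    show (σ c).r = 1 * (σ c).r
    rw [one_mul]
  have hq : ∀ c, (σ c).q = c.q := fun c => congrArg Cb.q (hσ c)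
  have hw : ∀ c, wV (σ c) = wF c := fun c => by
    conv_rhs => rw [← hσ c]
    exact (wF_cb (σ c)).symm
  have h1 : Finsupp.lmapDomain ℚ ℚ (List.map σ) u ∈ GdV n k := by
    rw [GdF, BTN, ← Finsupp.supported_inter] at hu
    rw [GdV, BTN, ← Finsupp.supported_inter]
    refine supported_le _ _ _ (fun l hl => ?_) u hu
    rw [Finsupp.lmapDomain_apply, Finsupp.mapDomain_single]
    refine Finsupp.single_mem_supported ℚ _ ?_
    obtain ⟨⟨h0, h1, h2⟩, h3⟩ := hl
    have e1 : (l.map σ).map Cb.r = l.map Cb.r := by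
      rw [List.map_map]; exact List.map_congr_left fun c _ => hr c
    have e2 : (l.map σ).map Cb.q = l.map Cb.q := by
      rw [List.map_map]; exact List.map_congr_left fun c _ => hq c
    have e3 : (l.map σ).map wV = l.map wF := by
      rw [List.map_map]; exact List.map_congr_left fun c _ => hw c
    refine ⟨⟨?_, ?_, ?_⟩, ?_⟩
    · intro h
      exact h0 (List.map_eq_nil_iff.1 h)
    · rw [e1]; exact h1
    · rw [e2, List.length_map]; exact h2
    · show ((l.map σ).map wV).sum = 1
      rw [e3]; exact h3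
  refine ⟨_, h1, ?_⟩
  have h2 := Finsupp.induction_linear (motive := fun u : BT (sysF n) =>
    (gmH n).bt (Finsupp.lmapDomain ℚ ℚ (List.map σ) u) = u) u (by simp)
    (fun a b ha hb => by rw [map_add, map_add, ha, hb])
    (fun l a => by
      rw [Finsupp.lmapDomain_apply, Finsupp.mapDomain_single, SHom.bt_single, List.map_map]
      congr 1
      conv_rhs => rw [← List.map_id l]
      exact List.map_congr_left fun c _ => hσ c)
  exact h2

end St16
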