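import Pool.Agent.LibSt16.VB1
import Pool.Agent.LibST67.T1

/-!
The map `fl` to the flag complex commutes with the boundaries.
-/

set_option autoImplicit false

noncomputable section

namespace St16

open Pool.Agent.LibST67 (cn cn_single bd_cn bd_cn_zero)

/-- the flag with offset `A` -/
private def VC1_A {n : ℕ} (A : Matrix (Fin n) (Fin n) ℝ) (k : ℕ)
    (l : List (Matrix (Fin n) (Fin n) ℝ)) : Fin k → Submodule ℝ (Fin n → ℝ) :=
  fun j => LinearMap.range (Matrix.toLin' (A + (l.take ((j : ℕ) + 1)).sum))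

private theorem VC1_A_cons {n : ℕ} (A M : Matrix (Fin n) (Fin n) ℝ) (k : ℕ)
    (l : List (Matrix (Fin n) (Fin n) ℝ)) :
    VC1_A A (k + 1) (M :: l) =
      (Fin.cons (LinearMap.range (Matrix.toLin' (A + M))) (VC1_A (A + M) k l) :
        Fin (k + 1) → Submodule ℝ (Fin n → ℝ)) := by
  funext j
  refine Fin.cases ?_ (fun j => ?_) j
  · simp [VC1_A]
  · simp [VC1_A, add_assoc]

open Classical in
private def VC1_g {n : ℕ} (A : Matrix (Fin n) (Fin n) ℝ) (k : ℕ) (l : List (Cb (sysF n))) :
    (Fin k → Submodule ℝ (Fin n → ℝ)) →₀ ℚ :=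
  if (∀ c ∈ l, c.q = 0) ∧ l.length = k + 1 then Finsupp.single (VC1_A A k (l.map wF)) 1 else 0

private def VC1_L {n : ℕ} (A : Matrix (Fin n) (Fin n) ℝ) (k : ℕ) :
    BT (sysF n) →ₗ[ℚ] ((Fin k → Submodule ℝ (Fin n → ℝ)) →₀ ℚ) :=
  Finsupp.linearCombination ℚ (VC1_g A k)

private theorem VC1_L_single {n : ℕ} (A : Matrix (Fin n) (Fin n) ℝ) (k : ℕ)
    (l : List (Cb (sysF n))) (a : ℚ) : VC1_L A k (Finsupp.single l a) = a • VC1_g A k l := by
  rw [VC1_L, Finsupp.linearCombination_single]

private theorem VC1_g_cons {n : ℕ} (A : Matrix (Fin n) (Fin n) ℝ) (k : ℕ) (c : Cb (sysF n))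
    (hc : c.q = 0) (l : List (Cb (sysF n))) :
    VC1_g A (k + 1) (c :: l) =
      cn (LinearMap.range (Matrix.toLin' (A + wF c))) k (VC1_g (A + wF c) k l) := by
  classical
  unfold VC1_g
  by_cases h : (∀ c ∈ l, c.q = 0) ∧ l.length = k + 1
  · rw [if_pos h, if_pos, cn_single, List.map_cons, VC1_A_cons]
    refine ⟨?_, by rw [List.length_cons, h.2]⟩
    intro d hd
    rcases List.mem_cons.1 hd with rfl | hd
    · exact hc
    · exact h.1 d hd
  · rw [if_neg h, if_neg, map_zero]
    rintro ⟨h1, h2⟩
    exact h ⟨fun d hd => h1 d (List.mem_cons_of_mem _ hd), by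
      rw [List.length_cons] at h2; omega⟩

private theorem VC1_g_zero_cons {n : ℕ} (A : Matrix (Fin n) (Fin n) ℝ) (c : Cb (sysF n))
    (l : List (Cb (sysF n))) (hl : l ≠ []) : VC1_g A 0 (c :: l) = 0 := by
  classical
  unfold VC1_g
  rw [if_neg]
  rintro ⟨-, h2⟩
  rw [List.length_cons] at h2
  exact hl (List.length_eq_zero_iff.1 (by omega))

private theorem VC1_g_pos {n : ℕ} (A : Matrix (Fin n) (Fin n) ℝ) (k : ℕ) (c : Cb (sysF n))
    (hc : c.q ≠ 0) (l : List (Cb (sysF n))) : VC1_g A k (c :: l) = 0 := by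
  classical
  unfold VC1_g
  rw [if_neg]
  rintro ⟨h1, -⟩
  exact hc (h1 c List.mem_cons_self)

private theorem VC1_g_congr {n : ℕ} (A : Matrix (Fin n) (Fin n) ℝ) (k : ℕ) (c c' : Cb (sysF n))
    (l : List (Cb (sysF n))) (hq : c.q = c'.q) (hw : wF c = wF c') :
    VC1_g A k (c :: l) = VC1_g A k (c' :: l) := by
  classical
  unfold VC1_g
  have h : ((∀ d ∈ c :: l, d.q = 0) ∧ (c :: l).length = k + 1) ↔
      ((∀ d ∈ c' :: l, d.q = 0) ∧ (c' :: l).length = k + 1) := by
    simp only [List.mem_cons, forall_eq_or_imp, List.length_cons, hq]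
  rw [List.map_cons, List.map_cons, hw]
  simp only [h]

/-- the face terms of the first cube -/
private theorem VC1_face {n : ℕ} (A : Matrix (Fin n) (Fin n) ℝ) (k : ℕ) (c : Cb (sysF n))
    (l : List (Cb (sysF n))) : VC1_L A k (consB (bd1 c) (Finsupp.single l 1)) = 0 := by
  rw [consB_list, bd1, map_sum, map_sum]
  refine Finset.sum_eq_zero fun j hj => ?_
  have hj' : j < c.q := Finset.mem_range.1 hj
  rw [map_smul, map_smul, map_sub, map_sub, consL_single, consL_single, VC1_L_single, VC1_L_single,
    VC1_g_congr A k (c.face true j) (c.face false j) l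
      (by rw [Cb.face_q _ _ _ hj', Cb.face_q _ _ _ hj'])
      (by rw [wF_face _ _ _ hj', wF_face _ _ _ hj']), sub_self, smul_zero]

private theorem VC1_cons_pos {n : ℕ} (A : Matrix (Fin n) (Fin n) ℝ) (k : ℕ) (c : Cb (sysF n))
    (hc : c.q ≠ 0) (W : BT (sysF n)) : VC1_L A k (consC c W) = 0 := by
  induction W using Finsupp.induction_linear with
  | zero => simp
  | add a b ha hb => rw [map_add, map_add, ha, hb, add_zero]
  | single l a => rw [consC_single, VC1_L_single, VC1_g_pos A k c hc, smul_zero]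

private theorem VC1_cons_zero {n : ℕ} (A : Matrix (Fin n) (Fin n) ℝ) (c : Cb (sysF n))
    (W : BT (sysF n)) : VC1_L A 0 (consC c W) = W [] • VC1_g A 0 [c] := by
  induction W using Finsupp.induction_linear with
  | zero => simp
  | add a b ha hb => rw [map_add, map_add, ha, hb, Finsupp.add_apply, add_smul]
  | single l a =>
    rw [consC_single, VC1_L_single]
    by_cases h : l = []
    · rw [h, Finsupp.single_eq_same]
    · rw [VC1_g_zero_cons A c l h, Finsupp.single_eq_of_ne (Ne.symm h), smul_zero, zero_smul]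

private theorem VC1_cons_succ {n : ℕ} (A : Matrix (Fin n) (Fin n) ℝ) (k : ℕ) (c : Cb (sysF n))
    (hc : c.q = 0) (W : BT (sysF n)) : VC1_L A (k + 1) (consC c W) =
      cn (LinearMap.range (Matrix.toLin' (A + wF c))) k (VC1_L (A + wF c) k W) := by
  induction W using Finsupp.induction_linear with
  | zero => simp
  | add a b ha hb =>
    rw [map_add (consC c), map_add (VC1_L A (k + 1)), ha, hb, map_add (VC1_L (A + wF c) k),
      map_add (cn _ k)]
  | single l a => rw [consC_single, VC1_L_single, VC1_L_single, VC1_g_cons A k c hc, map_smul]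

/-- the merge term -/
private theorem VC1_mrg {n : ℕ} (A : Matrix (Fin n) (Fin n) ℝ) (k : ℕ) (c : Cb (sysF n))
    (hc : c.q = 0) (l : List (Cb (sysF n))) :
    VC1_L A k (mrg c (Finsupp.single l 1)) = VC1_g (A + wF c) k l := by
  classical
  rw [mrg_single, one_smul]
  cases l with
  | nil =>
    show VC1_L A k 0 = _
    rw [map_zero]
    unfold VC1_g
    rw [if_neg]
    rintro ⟨-, h⟩
    simp at h
  | cons c' l =>
    show VC1_L A k (Finsupp.single ((c * c') :: l) 1) = _
    rw [VC1_L_single, one_smul]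
    unfold VC1_g
    have h : ((∀ d ∈ (c * c') :: l, d.q = 0) ∧ ((c * c') :: l).length = k + 1) ↔
        ((∀ d ∈ c' :: l, d.q = 0) ∧ (c' :: l).length = k + 1) := by
      simp only [List.mem_cons, forall_eq_or_imp, List.length_cons, Cb.mul_q, hc, zero_add]
    simp only [h]
    have h2 : VC1_A A k (((c * c') :: l).map wF) = VC1_A (A + wF c) k ((c' :: l).map wF) := by
      funext j
      unfold VC1_A
      rw [List.map_cons, List.map_cons, List.take_succ_cons, List.take_succ_cons, List.sum_cons,
        List.sum_cons, wF_mul, add_assoc, add_assoc]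
    rw [h2]

private theorem VC1_mrg_pos {n : ℕ} (A : Matrix (Fin n) (Fin n) ℝ) (k : ℕ) (c : Cb (sysF n))
    (hc : c.q ≠ 0) (l : List (Cb (sysF n))) :
    VC1_L A k (mrg c (Finsupp.single l 1)) = 0 := by
  rw [mrg_single, one_smul]
  cases l with
  | nil =>
    show VC1_L A k 0 = _
    rw [map_zero]
  | cons c' l =>
    show VC1_L A k (Finsupp.single ((c * c') :: l) 1) = _
    rw [VC1_L_single, one_smul, VC1_g_pos]
    rw [Cb.mul_q]
    omega

private theorem VC1_consC_nil {n : ℕ} (c : Cb (sysF n)) (W : BT (sysF n)) :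
    (consC c W) [] = 0 := by
  induction W using Finsupp.induction_linear with
  | zero => simp
  | add a b ha hb => rw [map_add, Finsupp.add_apply, ha, hb, add_zero]
  | single l a =>
    rw [consC_single]
    exact Finsupp.single_eq_of_ne (List.cons_ne_nil c l).symm

/-- the empty list does not occur in a boundary -/
private theorem VC1_nil {n : ℕ} (l : List (Cb (sysF n))) : (BD1 l) [] = 0 := by
  cases l with
  | nil => rfl
  | cons c l =>
    have h1 : ∀ z : Ch (sysF n), (consL l z) [] = 0 := by
      intro z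
      induction z using Finsupp.induction_linear with
      | zero => simp
      | add a b ha hb => rw [map_add, Finsupp.add_apply, ha, hb, add_zero]
      | single d a =>
        rw [consL_single]
        exact Finsupp.single_eq_of_ne (List.cons_ne_nil d l).symm
    have h2 : (mrg c (Finsupp.single l 1)) [] = 0 := by
      rw [mrg_single, one_smul]
      cases l with
      | nil => rfl
      | cons c' l => exact Finsupp.single_eq_of_ne (List.cons_ne_nil _ _).symm
    rw [BD1_rec, Finsupp.sub_apply, Finsupp.add_apply, Finsupp.smul_apply, Finsupp.smul_apply,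
      consB_list, h1, h2, VC1_consC_nil, smul_zero, add_zero, sub_zero]

private theorem VC1_main {n : ℕ} (l : List (Cb (sysF n))) :
    ∀ (A : Matrix (Fin n) (Fin n) ℝ) (k : ℕ),
      VC1_L A k (BD1 l) = Pool.Agent.LibST67.bd k (VC1_g A (k + 1) l) := by
  classical
  induction l with
  | nil =>
    intro A k
    have h1 : VC1_g A (k + 1) ([] : List (Cb (sysF n))) = 0 := by
      unfold VC1_g
      rw [if_neg]
      rintro ⟨-, h⟩
      simp at h
    rw [h1, map_zero]
    show VC1_L A k 0 = 0
    rw [map_zero]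
  | cons c l ih =>
    intro A k
    rw [BD1_rec, map_sub, map_add, map_smul, map_smul, VC1_face, zero_add]
    by_cases hc : c.q = 0
    · rw [VC1_mrg A k c hc, hc, pow_zero, one_smul, one_smul, VC1_g_cons A k c hc]
      cases k with
      | zero => rw [VC1_cons_zero, VC1_nil, zero_smul, sub_zero, bd_cn_zero]
      | succ k => rw [VC1_cons_succ A k c hc, ih, bd_cn]
    · rw [VC1_mrg_pos A k c hc, VC1_cons_pos A k c hc, VC1_g_pos A _ c hc, smul_zero, sub_zero,
        map_zero]

private theorem VC1_fl {n : ℕ} (k : ℕ) (z : BT (sysF n)) : fl k z = VC1_L 0 k z := by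
  have h : ∀ l : List (Cb (sysF n)), fl1 k l = VC1_g 0 k l := by
    classical
    intro l
    have h2 : flag k (l.map wF) = VC1_A 0 k (l.map wF) := by
      funext j
      unfold flag VC1_A
      rw [zero_add]
    unfold fl1 VC1_g
    rw [h2]
  unfold fl VC1_L
  congr 1
  congr 1
  funext l
  exact h l

theorem fl_BD {n : ℕ} (k : ℕ) (z : BT (sysF n)) :
    fl k (BD z) = Pool.Agent.LibST67.bd k (fl (k + 1) z) := by
  rw [VC1_fl, VC1_fl]
  induction z using Finsupp.induction_linear with
  | zero => simp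
  | add a b ha hb => rw [map_add, map_add, ha, hb, map_add, map_add]
  | single l a => rw [BD_single, map_smul, VC1_main, VC1_L_single, map_smul]

/-- `fl` kills the degenerate chains -/
theorem fl_DegB {n : ℕ} (k : ℕ) {z : BT (sysF n)} (hz : z ∈ DegB (sysF n)) : fl k z = 0 := by
  classical
  have h := supported_le (fl k) {l : List (Cb (sysF n)) | ∃ c ∈ l, c.Dg} ⊥ (fun l hl => by
    obtain ⟨c, hc, hcd⟩ := hl
    rw [fl, Finsupp.linearCombination_single, one_smul]
    unfold fl1
    rw [if_neg]
    · exact Submodule.zero_mem _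
    · rintro ⟨h1, -⟩
      exact not_Dg_zero c (h1 c hc) hcd) z hz
  exact (Submodule.mem_bot ℚ).1 h

end St16
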