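import Pool.Agent.LibSt16.V0

/-!
Row VC2a (MEDIUM). Linear algebra: tuples of vectors with `Σ v vᵀ = 1`.

For `v : Fin n → (Fin n → ℝ)` let `A = Matrix.of fun i j => v j i` (columns `v j`): `A * Aᵀ = Σ_j vecMulVec (v j) (v j)`.
orthonormal: `A * Aᵀ = 1` implies `Aᵀ * A = 1` (`mul_eq_one_comm`), i.e. `v i ⬝ᵥ v j = if i = j then 1 else 0`.
List form: `a : Fr n` with `a.v.length = n` and `gm a = 1`.  partial: for `a.v = b.v ++ c.v`: `gm b` is idempotent and
symmetric, of trace `b.v.length`: `gm b * gm b = Σ_{i,j} v_i (v_i ⬝ v_j) v_jᵀ = Σ_i v_i v_iᵀ`; trace of `v vᵀ` is `v ⬝ᵥ v = 1`.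
gm_symm: `(vecMulVec x x)ᵀ = vecMulVec x x` (`Matrix.transpose_vecMulVec`).
proj_eq_of_range: P, Q symmetric idempotent with the same range: `P * Q = Q` (columns of Q are in range Q = range P, P is the
identity on its range), `Q * P = P`; transpose the second: `P * Q = P`; so `P = Q`.
range_lt_of: if `Q * P = P` then `range P ≤ range Q` (`toLin'_mul`, `LinearMap.range_comp_le_range`).
-/

set_option autoImplicit false

noncomputable section

namespace St16

open Matrix

private theorem vc_cons {n : ℕ} (x : Fin n → ℝ) (l : List (Fin n → ℝ)) :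
    gm (⟨x :: l⟩ : Fr n) = vecMulVec x x + gm ⟨l⟩ := by
  simp [gm]

private theorem vc_sum {n : ℕ} (a : Fr n) :
    gm a = ∑ i : Fin a.v.length, vecMulVec a.v[i] a.v[i] :=
  (Fin.sum_univ_fun_getElem a.v fun x => vecMulVec x x).symm

theorem gm_symm {n : ℕ} (a : Fr n) : (gm a)ᵀ = gm a := by
  rw [vc_sum, Matrix.transpose_sum]
  exact Finset.sum_congr rfl fun i _ => by rw [Matrix.transpose_vecMulVec]

/-- an `n`-tuple with `Σ v vᵀ = 1` is orthonormal -/
theorem gm_one_orthonormal {n : ℕ} (a : Fr n) (hl : a.v.length = n) (h : gm a = 1) (i j : ℕ)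
    (hi : i < a.v.length) (hj : j < a.v.length) : a.v[i] ⬝ᵥ a.v[j] = if i = j then 1 else 0 := by
  let A : Matrix (Fin n) (Fin a.v.length) ℝ := Matrix.of fun r s => a.v[s] r
  have h1 : A * Aᵀ = 1 := by
    rw [← h, vc_sum]
    ext r s
    rw [Matrix.mul_apply, Matrix.sum_apply]
    rfl
  have h2 : Aᵀ * A = 1 := (Matrix.mul_eq_one_comm_of_equiv (finCongr hl.symm)).1 h1
  have h3 := congrFun (congrFun h2 ⟨i, hi⟩) ⟨j, hj⟩
  rw [Matrix.mul_apply, Matrix.one_apply] at h3
  have h4 : a.v[i] ⬝ᵥ a.v[j] = ∑ x, Aᵀ ⟨i, hi⟩ x * A x ⟨j, hj⟩ := rfl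
  rw [h4, h3]
  simp only [Fin.mk.injEq]

private theorem vc_zero {n : ℕ} (b c : Fr n)
    (h : ∀ (i : Fin b.v.length) (j : Fin c.v.length), b.v[i] ⬝ᵥ c.v[j] = 0) : gm b * gm c = 0 := by
  rw [vc_sum b, vc_sum c, Finset.sum_mul_sum]
  refine Finset.sum_eq_zero fun i _ => Finset.sum_eq_zero fun j _ => ?_
  rw [Matrix.vecMulVec_mul_vecMulVec, h i j, zero_smul, Matrix.vecMulVec_zero]

private theorem vc_sq {n : ℕ} (b : Fr n)
    (h : ∀ (i j : Fin b.v.length), b.v[i] ⬝ᵥ b.v[j] = if i = j then 1 else 0) : gm b * gm b = gm b := by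
  conv_lhs => rw [vc_sum b, Finset.sum_mul_sum]
  rw [vc_sum b]
  refine Finset.sum_congr rfl fun i _ => ?_
  rw [Finset.sum_eq_single i]
  · rw [Matrix.vecMulVec_mul_vecMulVec, h i i, if_pos rfl, one_smul]
  · intro j _ hj
    rw [Matrix.vecMulVec_mul_vecMulVec, h i j, if_neg (Ne.symm hj), zero_smul, Matrix.vecMulVec_zero]
  · intro hi
    exact absurd (Finset.mem_univ i) hi

private theorem vc_tr {n : ℕ} (b : Fr n)
    (h : ∀ (i j : Fin b.v.length), b.v[i] ⬝ᵥ b.v[j] = if i = j then 1 else 0) :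
    (gm b).trace = b.v.length := by
  rw [vc_sum b, Matrix.trace_sum]
  rw [Finset.sum_congr rfl fun i _ => by rw [Matrix.trace_vecMulVec, h i i, if_pos rfl]]
  simp

/-- an initial part of such a tuple: idempotent, trace = length -/
theorem gm_part {n : ℕ} (b c : Fr n) (hl : b.v.length + c.v.length = n) (h : gm b + gm c = 1) :
    gm b * gm b = gm b ∧ (gm b).trace = b.v.length ∧ gm c * gm b = 0 := by
  have h1 := gm_one_orthonormal (⟨b.v ++ c.v⟩ : Fr n) (List.length_append.trans hl)
    (by rw [gm_append, h])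
  have hb : ∀ (i j : Fin b.v.length), b.v[i] ⬝ᵥ b.v[j] = if i = j then 1 else 0 := by
    intro i j
    have h2 := h1 i j (by rw [List.length_append]; omega) (by rw [List.length_append]; omega)
    rw [List.getElem_append_left i.2, List.getElem_append_left j.2] at h2
    rw [show b.v[i] ⬝ᵥ b.v[j] = b.v[(i : ℕ)] ⬝ᵥ b.v[(j : ℕ)] from rfl, h2]
    simp only [Fin.ext_iff]
  refine ⟨vc_sq b hb, vc_tr b hb, vc_zero c b fun i j => ?_⟩
  have h2 := h1 (b.v.length + i) j (by rw [List.length_append]; omega)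
    (by rw [List.length_append]; omega)
  rw [List.getElem_append_right (by omega), List.getElem_append_left j.2, if_neg (by omega)] at h2
  simp only [Nat.add_sub_cancel_left] at h2
  exact h2

/-- different parts of such a tuple are orthogonal -/
theorem gm_part3 {n : ℕ} (b m c : Fr n) (hl : b.v.length + m.v.length + c.v.length = n)
    (h : gm b + gm m + gm c = 1) : gm m * gm b = 0 := by
  have h1 := gm_one_orthonormal (⟨b.v ++ (m.v ++ c.v)⟩ : Fr n)
    (by
      have e0 : (b.v ++ (m.v ++ c.v)).length = b.v.length + m.v.length + c.v.length := by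
        simp only [List.length_append]; ring
      exact e0.trans hl)
    (by
      have e1 := gm_append b ⟨m.v ++ c.v⟩
      have e2 := gm_append m c
      rw [e1, e2, ← add_assoc, h])
  refine vc_zero m b fun i j => ?_
  have h2 := h1 (b.v.length + i) j (by simp only [List.length_append]; omega)
    (by simp only [List.length_append]; omega)
  rw [List.getElem_append_right (by omega), List.getElem_append_left j.2, if_neg (by omega)] at h2
  simp only [Nat.add_sub_cancel_left] at h2
  rw [List.getElem_append_left i.2] at h2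
  exact h2

private theorem vc_fix {n : ℕ} (P Q : Matrix (Fin n) (Fin n) ℝ) (hP : P * P = P)
    (h : LinearMap.range (toLin' Q) ≤ LinearMap.range (toLin' P)) : P * Q = Q := by
  apply Matrix.toLin'.injective
  apply LinearMap.ext
  intro x
  obtain ⟨y, hy⟩ := h ⟨x, rfl⟩
  rw [Matrix.toLin'_mul, LinearMap.comp_apply, ← hy, ← LinearMap.comp_apply, ← Matrix.toLin'_mul, hP]

theorem proj_eq_of_range {n : ℕ} (P Q : Matrix (Fin n) (Fin n) ℝ) (hP : P * P = P) (hQ : Q * Q = Q)
    (hP' : Pᵀ = P) (hQ' : Qᵀ = Q) (h : LinearMap.range (toLin' P) = LinearMap.range (toLin' Q)) :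
    P = Q := by
  have h1 := vc_fix P Q hP h.ge
  have h2 := vc_fix Q P hQ h.le
  have h3 := congrArg Matrix.transpose h2
  rw [Matrix.transpose_mul, hP', hQ', h1] at h3
  exact h3.symm

theorem range_le_of {n : ℕ} (P Q : Matrix (Fin n) (Fin n) ℝ) (h : Q * P = P) :
    LinearMap.range (toLin' P) ≤ LinearMap.range (toLin' Q) := by
  rintro _ ⟨x, rfl⟩
  refine ⟨toLin' P x, ?_⟩
  rw [← LinearMap.comp_apply, ← Matrix.toLin'_mul, h]

end St16
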