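import Pool.Agent.LibSt16.VC2a

/-!
The orthogonal projection onto a subspace of `R^n` as `gm` of an orthonormal basis.
-/

set_option autoImplicit false

noncomputable section

namespace St16

open Matrix

private theorem VC2b_inner {n : ℕ} (x y : EuclideanSpace ℝ (Fin n)) :
    inner ℝ x y = (x.ofLp : Fin n → ℝ) ⬝ᵥ (y.ofLp : Fin n → ℝ) := by
  rw [PiLp.inner_apply]
  unfold dotProduct
  refine Finset.sum_congr rfl fun i _ => ?_
  simp [mul_comm]

/-- the orthogonal projection onto a subspace as `gm` of an orthonormal basis -/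
theorem exists_frame {n : ℕ} (U : Submodule ℝ (Fin n → ℝ)) :
    ∃ a : Fr n, a.v.length = Module.finrank ℝ U ∧ gm a * gm a = gm a ∧
      LinearMap.range (toLin' (gm a)) = U ∧ (gm a).trace = Module.finrank ℝ U := by
  classical
  let e : EuclideanSpace ℝ (Fin n) ≃ₗ[ℝ] (Fin n → ℝ) := WithLp.linearEquiv 2 ℝ (Fin n → ℝ)
  let U' : Submodule ℝ (EuclideanSpace ℝ (Fin n)) := U.map e.symm.toLinearMap
  have hfin : Module.finrank ℝ U' = Module.finrank ℝ U := LinearEquiv.finrank_map_eq e.symm U
  let b := stdOrthonormalBasis ℝ U'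
  let v : Fin (Module.finrank ℝ U') → (Fin n → ℝ) := fun j => e (b j : EuclideanSpace ℝ (Fin n))
  have hvU : ∀ j, v j ∈ U := by
    intro j
    obtain ⟨u, hu, hu'⟩ := (Submodule.mem_map).1 (b j).2
    have : v j = u := by
      show e (b j : EuclideanSpace ℝ (Fin n)) = u
      rw [← hu']
      exact e.apply_symm_apply u
    rw [this]
    exact hu
  have hvv : ∀ i j, v i ⬝ᵥ v j = if i = j then 1 else 0 := by
    intro i j
    have h1 := (orthonormal_iff_ite.1 b.orthonormal) i j
    rw [Submodule.coe_inner, VC2b_inner] at h1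
    exact h1
  have hgm : gm (⟨List.ofFn v⟩ : Fr n) = ∑ j, vecMulVec (v j) (v j) := by
    unfold gm
    rw [List.map_ofFn, List.sum_ofFn]
    rfl
  have happ : ∀ z, toLin' (gm (⟨List.ofFn v⟩ : Fr n)) z = ∑ j, (v j ⬝ᵥ z) • v j := by
    intro z
    rw [hgm, map_sum, LinearMap.sum_apply]
    refine Finset.sum_congr rfl fun j _ => ?_
    rw [toLin'_apply, vecMulVec_mulVec]
    ext i
    simp [mul_comm]
  have hfix : ∀ z ∈ U, toLin' (gm (⟨List.ofFn v⟩ : Fr n)) z = z := by
    intro z hz
    rw [happ]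
    have hz' : e.symm z ∈ U' := Submodule.mem_map_of_mem hz
    have h1 := b.sum_repr' ⟨e.symm z, hz'⟩
    have h2 := congrArg (fun x : U' => e (x : EuclideanSpace ℝ (Fin n))) h1
    simp only [Submodule.coe_sum, Submodule.coe_smul, map_sum, map_smul, Submodule.coe_inner,
      LinearEquiv.apply_symm_apply] at h2
    rw [← h2]
    refine Finset.sum_congr rfl fun j _ => ?_
    rw [h2]
    congr 1
    rw [VC2b_inner]
    rfl
  have hmem : ∀ z, toLin' (gm (⟨List.ofFn v⟩ : Fr n)) z ∈ U := by
    intro z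
    rw [happ]
    exact Submodule.sum_mem _ fun j _ => Submodule.smul_mem _ _ (hvU j)
  refine ⟨⟨List.ofFn v⟩, ?_, ?_, ?_, ?_⟩
  · rw [List.length_ofFn, hfin]
  · apply toLin'.injective
    rw [toLin'_mul]
    refine LinearMap.ext fun z => ?_
    rw [LinearMap.comp_apply]
    exact hfix _ (hmem _)
  · apply le_antisymm
    · rintro _ ⟨z, rfl⟩
      exact hmem z
    · intro z hz
      exact ⟨z, hfix z hz⟩
  · rw [hgm, trace_sum]
    have : ∀ j, (vecMulVec (v j) (v j)).trace = 1 := by
      intro j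
      rw [trace_vecMulVec, hvv, if_pos rfl]
    simp only [this]
    rw [Finset.sum_const, Finset.card_univ, Fintype.card_fin, hfin]
    simp

end St16
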