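import Pool.Agent.LibSt16.VC2b
import Pool.Agent.LibSt16.VB1

/-!
A good list of points of `sysF` gives a strict flag, and the flag determines the list.
-/

set_option autoImplicit false

noncomputable section

namespace St16

open Matrix

/-- good lists of points -/
def GdL (n k : ℕ) (l : List (Cb (sysF n))) : Prop :=
  (∀ c ∈ l, c.q = 0) ∧ l.length = k + 1 ∧ (l.map Cb.r).sum = n ∧ (l.map wF).sum = 1

/-- concatenation -/
private def VC3_cat {n : ℕ} : List (Fr n) → Fr n
  | [] => ⟨[]⟩
  | f :: L => ⟨f.v ++ (VC3_cat L).v⟩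

private theorem VC3_gm_cat {n : ℕ} (L : List (Fr n)) : gm (VC3_cat L) = (L.map gm).sum := by
  induction L with
  | nil => simp [VC3_cat, gm]
  | cons f L ih =>
    show gm ⟨f.v ++ (VC3_cat L).v⟩ = _
    rw [gm_append, ih, List.map_cons, List.sum_cons]

private theorem VC3_len_cat {n : ℕ} (L : List (Fr n)) :
    (VC3_cat L).v.length = (L.map fun f => f.v.length).sum := by
  induction L with
  | nil => simp [VC3_cat]
  | cons f L ih =>
    show (f.v ++ (VC3_cat L).v).length = _
    rw [List.length_append, ih, List.map_cons, List.sum_cons]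

private theorem VC3_lists {n : ℕ} (l : List (Cb (sysF n))) :
    ∃ L : List (Fr n), L.map gm = l.map wF ∧ (L.map fun f => f.v.length) = l.map Cb.r := by
  induction l with
  | nil => exact ⟨[], rfl, rfl⟩
  | cons c l ih =>
    obtain ⟨L, h1, h2⟩ := ih
    obtain ⟨f, hf, hf'⟩ := c.l_mem z0
    refine ⟨f :: L, ?_, ?_⟩
    · rw [List.map_cons, List.map_cons, h1]
      congr 1
    · rw [List.map_cons, List.map_cons, h2, hf]

/-- the partial sums -/
private def VC3_P {n : ℕ} (l : List (Cb (sysF n))) (j : ℕ) : Matrix (Fin n) (Fin n) ℝ :=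
  ((l.map wF).take j).sum

private def VC3_R {n : ℕ} (l : List (Cb (sysF n))) (j : ℕ) : ℕ := ((l.map Cb.r).take j).sum

private theorem VC3_facts {n k : ℕ} {l : List (Cb (sysF n))} (h : GdL n k l) :
    (∀ j, VC3_P l j * VC3_P l j = VC3_P l j ∧ (VC3_P l j)ᵀ = VC3_P l j ∧
      (VC3_P l j).trace = VC3_R l j) ∧
    (∀ j, j < k + 1 → VC3_P l (j + 1) * VC3_P l j = VC3_P l j) := by
  obtain ⟨-, hlen, hr, hw⟩ := h
  obtain ⟨L, h1, h2⟩ := VC3_lists l
  have hP : ∀ j, VC3_P l j = gm (VC3_cat (L.take j)) := by
    intro j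
    rw [VC3_gm_cat, List.map_take, h1]
    rfl
  have hR : ∀ j, VC3_R l j = (VC3_cat (L.take j)).v.length := by
    intro j
    rw [VC3_len_cat, List.map_take, h2]
    rfl
  have hL : L.length = k + 1 := by
    have := congrArg List.length h1
    rw [List.length_map, List.length_map, hlen] at this
    exact this
  constructor
  · intro j
    have h3 := gm_part (VC3_cat (L.take j)) (VC3_cat (L.drop j)) (by
        rw [VC3_len_cat, VC3_len_cat, ← List.sum_append, ← List.map_append, List.take_append_drop,
          h2, hr]) (by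
        rw [VC3_gm_cat, VC3_gm_cat, ← List.sum_append, ← List.map_append, List.take_append_drop,
          h1, hw])
    rw [hP, hR]
    exact ⟨h3.1, gm_symm _, h3.2.1⟩
  · intro j hj
    have hjL : j < L.length := by rw [hL]; exact hj
    have h3 : L.take (j + 1) = L.take j ++ [L[j]] := (List.take_append_getElem hjL).symm
    have h4 : gm (VC3_cat (L.take (j + 1))) = gm (VC3_cat (L.take j)) + gm L[j] := by
      rw [VC3_gm_cat, h3, List.map_append, List.sum_append, ← VC3_gm_cat]
      simp
    have h5 : (VC3_cat (L.take (j + 1))).v.length = (VC3_cat (L.take j)).v.length + L[j].v.length := by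
      rw [VC3_len_cat, h3, List.map_append, List.sum_append, ← VC3_len_cat]
      simp
    have h6 := gm_part3 (VC3_cat (L.take j)) L[j] (VC3_cat (L.drop (j + 1))) (by
        rw [← h5, VC3_len_cat, VC3_len_cat, ← List.sum_append, ← List.map_append,
          List.take_append_drop, h2, hr]) (by
        rw [← h4, VC3_gm_cat, VC3_gm_cat, ← List.sum_append, ← List.map_append,
          List.take_append_drop, h1, hw])
    have h7 := gm_part (VC3_cat (L.take j)) (VC3_cat (L.drop j)) (by
        rw [VC3_len_cat, VC3_len_cat, ← List.sum_append, ← List.map_append, List.take_append_drop,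
          h2, hr]) (by
        rw [VC3_gm_cat, VC3_gm_cat, ← List.sum_append, ← List.map_append, List.take_append_drop,
          h1, hw])
    rw [hP, hP, h4, Matrix.add_mul, h6, add_zero, h7.1]

private theorem VC3_P_zero {n : ℕ} (l : List (Cb (sysF n))) : VC3_P l 0 = 0 := by
  simp [VC3_P]

private theorem VC3_P_top {n k : ℕ} {l : List (Cb (sysF n))} (h : GdL n k l) :
    VC3_P l (k + 1) = 1 := by
  unfold VC3_P
  rw [List.take_of_length_le (by rw [List.length_map, h.2.1]), h.2.2.2]

private theorem VC3_R_top {n k : ℕ} {l : List (Cb (sysF n))} (h : GdL n k l) :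
    VC3_R l (k + 1) = n := by
  unfold VC3_R
  rw [List.take_of_length_le (by rw [List.length_map, h.2.1]), h.2.2.1]

private theorem VC3_R_succ {n k : ℕ} {l : List (Cb (sysF n))} (h : GdL n k l) (j : ℕ)
    (hj : j < k + 1) : VC3_R l j < VC3_R l (j + 1) := by
  unfold VC3_R
  have hjl : j < (l.map Cb.r).length := by rw [List.length_map, h.2.1]; exact hj
  rw [← List.take_append_getElem hjl, List.sum_append, List.sum_singleton]
  have : 0 < (l.map Cb.r)[j] := by
    rw [List.getElem_map]
    exact Cb.r_pos _
  omega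

private theorem VC3_R_lt {n k : ℕ} {l : List (Cb (sysF n))} (h : GdL n k l) (i j : ℕ)
    (hij : i < j) (hj : j ≤ k + 1) : VC3_R l i < VC3_R l j := by
  induction j with
  | zero => omega
  | succ j ih =>
    have h1 := VC3_R_succ h j (by omega)
    rcases Nat.lt_or_ge i j with h2 | h2
    · exact (ih h2 (by omega)).trans h1
    · have : i = j := by omega
      rw [this]; exact h1

private theorem VC3_lt {n k : ℕ} {l : List (Cb (sysF n))} (h : GdL n k l) (j : ℕ)
    (hj : j < k + 1) :
    LinearMap.range (toLin' (VC3_P l j)) < LinearMap.range (toLin' (VC3_P l (j + 1))) := by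
  obtain ⟨f1, f2⟩ := VC3_facts h
  refine lt_of_le_of_ne (range_le_of _ _ (f2 j hj)) fun he => ?_
  have h1 := proj_eq_of_range _ _ (f1 j).1 (f1 (j + 1)).1 (f1 j).2.1 (f1 (j + 1)).2.1 he
  have h2 := congrArg Matrix.trace h1
  rw [(f1 j).2.2, (f1 (j + 1)).2.2] at h2
  have h3 : VC3_R l j = VC3_R l (j + 1) := by exact_mod_cast h2
  exact (VC3_R_succ h j hj).ne h3

private theorem VC3_le {n k : ℕ} {l : List (Cb (sysF n))} (h : GdL n k l) (i j : ℕ)
    (hij : i < j) (hj : j ≤ k + 1) :
    LinearMap.range (toLin' (VC3_P l i)) < LinearMap.range (toLin' (VC3_P l j)) := by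
  induction j with
  | zero => omega
  | succ j ih =>
    have h1 := VC3_lt h j (by omega)
    rcases Nat.lt_or_ge i j with h2 | h2
    · exact (ih h2 (by omega)).trans h1
    · have : i = j := by omega
      rw [this]; exact h1

private theorem VC3_flag {n k : ℕ} (l : List (Cb (sysF n))) (j : Fin k) :
    flag k (l.map wF) j = LinearMap.range (toLin' (VC3_P l ((j : ℕ) + 1))) := rfl

theorem flag_mem {n k : ℕ} {l : List (Cb (sysF n))} (h : GdL n k l) :
    StrictMono (flag k (l.map wF)) ∧ ∀ j, flag k (l.map wF) j ∈ PS n := by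
  obtain ⟨f1, f2⟩ := VC3_facts h
  refine ⟨fun i j hij => ?_, fun j => ⟨?_, ?_⟩⟩
  · rw [VC3_flag, VC3_flag]
    exact VC3_le h _ _ (by simpa using hij) (by omega)
  · intro hb
    rw [VC3_flag] at hb
    have h1 := VC3_le h 0 ((j : ℕ) + 1) (by omega) (by omega)
    rw [hb] at h1
    exact not_lt_bot h1
  · intro hb
    rw [VC3_flag] at hb
    have h1 := VC3_le h ((j : ℕ) + 1) (k + 1) (by omega) le_rfl
    rw [hb] at h1
    exact not_top_lt h1

private theorem VC3_ext {n : ℕ} (c c' : Cb (sysF n)) (hq : c.q = 0) (hq' : c'.q = 0)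
    (hr : c.r = c'.r) (hw : wF c = wF c') : c = c' := by
  refine Cb.ext' hr (hq.trans hq'.symm) (fun s => rfl) (fun s => ?_)
  rw [l_F c s, l_F c' s]
  exact Mt.ext hw

theorem flag_inj {n k : ℕ} {l l' : List (Cb (sysF n))} (h : GdL n k l) (h' : GdL n k l')
    (he : flag k (l.map wF) = flag k (l'.map wF)) : l = l' := by
  obtain ⟨f1, f2⟩ := VC3_facts h
  obtain ⟨f1', f2'⟩ := VC3_facts h'
  have hP : ∀ j, j ≤ k + 1 → VC3_P l j = VC3_P l' j := by
    intro j hj
    rcases Nat.eq_zero_or_pos j with rfl | h0
    · rw [VC3_P_zero, VC3_P_zero]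
    · rcases Nat.lt_or_ge j (k + 1) with h1 | h1
      · have h2 := congrFun he ⟨j - 1, by omega⟩
        rw [VC3_flag, VC3_flag] at h2
        have h3 : j - 1 + 1 = j := by omega
        simp only [h3] at h2
        exact proj_eq_of_range _ _ (f1 j).1 (f1' j).1 (f1 j).2.1 (f1' j).2.1 h2
      · have h2 : j = k + 1 := by omega
        rw [h2, VC3_P_top h, VC3_P_top h']
  have hR : ∀ j, j ≤ k + 1 → VC3_R l j = VC3_R l' j := by
    intro j hj
    have h2 := congrArg Matrix.trace (hP j hj)
    rw [(f1 j).2.2, (f1' j).2.2] at h2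
    exact_mod_cast h2
  refine List.ext_getElem (by rw [h.2.1, h'.2.1]) fun j hj hj' => ?_
  have hjk : j < k + 1 := by rw [← h.2.1]; exact hj
  refine VC3_ext _ _ (h.1 _ (List.getElem_mem hj)) (h'.1 _ (List.getElem_mem hj')) ?_ ?_
  · have e1 : VC3_R l (j + 1) = VC3_R l j + l[j].r := by
      unfold VC3_R
      have hjl : j < (l.map Cb.r).length := by rw [List.length_map]; exact hj
      rw [← List.take_append_getElem hjl, List.sum_append, List.sum_singleton, List.getElem_map]
    have e2 : VC3_R l' (j + 1) = VC3_R l' j + l'[j].r := by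
      unfold VC3_R
      have hjl : j < (l'.map Cb.r).length := by rw [List.length_map]; exact hj'
      rw [← List.take_append_getElem hjl, List.sum_append, List.sum_singleton, List.getElem_map]
    have := hR (j + 1) (by omega)
    have := hR j (by omega)
    omega
  · have e1 : VC3_P l (j + 1) = VC3_P l j + wF l[j] := by
      unfold VC3_P
      have hjl : j < (l.map wF).length := by rw [List.length_map]; exact hj
      rw [← List.take_append_getElem hjl, List.sum_append, List.sum_singleton, List.getElem_map]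
    have e2 : VC3_P l' (j + 1) = VC3_P l' j + wF l'[j] := by
      unfold VC3_P
      have hjl : j < (l'.map wF).length := by rw [List.length_map]; exact hj'
      rw [← List.take_append_getElem hjl, List.sum_append, List.sum_singleton, List.getElem_map]
    have e3 := hP (j + 1) (by omega)
    rw [e1, e2, hP j (by omega)] at e3
    exact add_left_cancel e3

end St16
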