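import Pool.Agent.LibSt16.VB1
import Pool.Agent.LibSt16.Sy

/-!
LibSt16/VD0: frames <-> cubes of `sysO ℝ`: definitions.

* `lamC A c`: the cube of tuples `A (y(s) e_j)`, `j < c.r`, of the cube `c` of `sysO ℝ`.
* `lamL A l`: the list version (block `i` uses `A ∘ shV (r_1 + .. + r_(i-1))`).
* `tr n : Vc ℝ → R^n` the first `n` coordinates, `AG g = g ∘ tr n`.
* `lamT`: `lamL (AG 1)` on chains.
* `piV`: the inverse on good lists: `lamL (AG g) L ↦ L`.
-/

set_option autoImplicit false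

noncomputable section

namespace St16

open Matrix

private theorem VD0_dot_ee (x : Vc ℝ) (i : ℕ) : dot x (ee i) = x i := by
  unfold dot ee
  rw [Finsupp.sum, Finset.sum_eq_single i]
  · rw [Finsupp.single_eq_same, mul_one]
  · intro l _ hl
    rw [Finsupp.single_apply, if_neg (Ne.symm hl), mul_zero]
  · intro h
    rw [Finsupp.notMem_support_iff.1 h, zero_mul]

private theorem VD0_ee_ee (i j : ℕ) : dot (ee i : Vc ℝ) (ee j) = if i = j then 1 else 0 := by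
  rw [VD0_dot_ee]
  unfold ee
  rw [Finsupp.single_apply]

private theorem VD0_zero {r : ℕ} {g : Au ℝ} (hg : g ∈ On ℝ r) {j i : ℕ} (hj : j < r) (hi : r ≤ i) :
    (g (ee j)) i = 0 := by
  have h1 := hg.1 (ee j) (ee i)
  rw [hg.2 i hi, VD0_dot_ee, VD0_ee_ee, if_neg (by omega)] at h1
  exact h1

private theorem VD0_sum {r : ℕ} {g : Au ℝ} (hg : g ∈ On ℝ r) {j : ℕ} (hj : j < r) :
    g (ee j) = ∑ i : Fin r, (g (ee j)) (i : ℕ) • (ee (i : ℕ) : Vc ℝ) := by
  ext l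
  rw [Finsupp.finsetSum_apply]
  by_cases hl : l < r
  · rw [Finset.sum_eq_single ⟨l, hl⟩]
    · rw [Finsupp.smul_apply]
      unfold ee
      rw [Finsupp.single_eq_same, smul_eq_mul, mul_one]
    · intro i _ hne
      rw [Finsupp.smul_apply]
      unfold ee
      rw [Finsupp.single_apply, if_neg, smul_zero]
      intro h
      exact hne (Fin.ext h)
    · intro h
      exact absurd (Finset.mem_univ _) h
  · rw [VD0_zero hg hj (by omega)]
    symm
    apply Finset.sum_eq_zero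
    intro i _
    rw [Finsupp.smul_apply]
    unfold ee
    rw [Finsupp.single_apply, if_neg, smul_zero]
    intro h
    exact hl (by rw [← h]; exact i.2)

private theorem VD0_orth {r : ℕ} {g : Au ℝ} (hg : g ∈ On ℝ r) (j j' : Fin r) :
    ∑ l : Fin r, (g (ee (j : ℕ))) (l : ℕ) * (g (ee (j' : ℕ))) (l : ℕ) = if j = j' then 1 else 0 := by
  have h1 := hg.1 (ee (j : ℕ)) (ee (j' : ℕ))
  rw [VD0_ee_ee] at h1
  have h2 : dot (g (ee (j : ℕ))) (g (ee (j' : ℕ))) =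
      ∑ l ∈ Finset.range r, (g (ee (j : ℕ))) l * (g (ee (j' : ℕ))) l := by
    unfold dot
    apply Finsupp.sum_of_support_subset
    · intro l hl
      rw [Finset.mem_range]
      by_contra hcon
      rw [Finsupp.mem_support_iff] at hl
      exact hl (VD0_zero hg j.2 (by omega))
    · intro l _
      rw [zero_mul]
  rw [h2, Finset.sum_range] at h1
  rw [h1]
  by_cases hjj : j = j'
  · rw [if_pos hjj, if_pos (congrArg Fin.val hjj)]
  · rw [if_neg hjj, if_neg (fun h => hjj (Fin.ext h))]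

/-- for an automorphism `g ∈ On r`: `Σ_(j<r) (A g e_j)(A g e_j)ᵀ = Σ_(j<r) (A e_j)(A e_j)ᵀ` -/
theorem gm_On {n : ℕ} (A : Vc ℝ →ₗ[ℝ] (Fin n → ℝ)) (r : ℕ) (g : Au ℝ) (hg : g ∈ On ℝ r) :
    gm (⟨List.ofFn fun j : Fin r => A (g (ee j))⟩ : Fr n) =
      gm (⟨List.ofFn fun j : Fin r => A (ee j)⟩ : Fr n) := by
  have hgm : ∀ f : Fin r → Fin n → ℝ, gm (⟨List.ofFn f⟩ : Fr n) = (Matrix.of f)ᵀ * Matrix.of f := by
    intro f
    unfold gm
    rw [List.map_ofFn, List.sum_ofFn]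
    ext a b
    rw [Matrix.sum_apply, Matrix.mul_apply]
    rfl
  obtain ⟨Q, hQ⟩ : ∃ Q : Matrix (Fin r) (Fin r) ℝ, Q = Matrix.of fun (j i : Fin r) => (g (ee (j : ℕ))) (i : ℕ) := ⟨_, rfl⟩
  have hQ1 : Q * Qᵀ = 1 := by
    ext j j'
    rw [Matrix.mul_apply, Matrix.one_apply, ← VD0_orth hg j j', hQ]
    rfl
  have hQ2 : Qᵀ * Q = 1 := mul_eq_one_comm.1 hQ1
  have hA : (Matrix.of fun j : Fin r => A (g (ee (j : ℕ)))) = Q * Matrix.of fun j : Fin r => A (ee (j : ℕ)) := by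
    ext j a
    rw [Matrix.mul_apply, hQ]
    change A (g (ee (j : ℕ))) a = ∑ i : Fin r, (g (ee (j : ℕ))) (i : ℕ) * A (ee (i : ℕ)) a
    conv_lhs => rw [VD0_sum hg j.2]
    rw [map_sum, Finset.sum_apply]
    refine Finset.sum_congr rfl fun i _ => ?_
    rw [map_smul]
    rfl
  rw [hgm, hgm, hA, Matrix.transpose_mul, Matrix.mul_assoc, ← Matrix.mul_assoc Qᵀ, hQ2, Matrix.one_mul]

/-- the cube of tuples of a cube of `sysO ℝ` -/
def lamC {n : ℕ} (A : Vc ℝ →ₗ[ℝ] (Fin n → ℝ)) (c : Cb (sysO ℝ)) : Cb (sysV n) where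
  r := c.r
  q := c.q
  y := fun _ => 1
  l := fun s => ⟨List.ofFn fun j : Fin c.r => A (c.y s (ee j))⟩
  r_pos := c.r_pos
  y_dep := fun _ _ _ => rfl
  l_dep := fun s s' h => by rw [c.y_dep s s' h]
  y_mem := fun _ => trivial
  l_mem := fun s => List.length_ofFn
  y_zero := rfl
  l_mono := fun s s' _ => by
    show gm _ = gm _
    rw [gm_On A c.r (c.y s) (c.y_mem s), gm_On A c.r (c.y s') (c.y_mem s')]

/-- the list version -/
def lamL {n : ℕ} : (Vc ℝ →ₗ[ℝ] (Fin n → ℝ)) → List (Cb (sysO ℝ)) → List (Cb (sysV n))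
  | _, [] => []
  | A, c :: L => lamC A c :: lamL (A ∘ₗ shV c.r) L

/-- the first `n` coordinates -/
def tr (n : ℕ) : Vc ℝ →ₗ[ℝ] (Fin n → ℝ) where
  toFun x := fun i => x i
  map_add' _ _ := rfl
  map_smul' _ _ := rfl

/-- `g ∘ tr n` -/
def AG {n : ℕ} (g : OG n) : Vc ℝ →ₗ[ℝ] (Fin n → ℝ) :=
  Matrix.toLin' (g : Matrix (Fin n) (Fin n) ℝ) ∘ₗ tr n

/-- from `O(R)`-lists to lists of frames -/
def lamT (n : ℕ) : BT (sysO ℝ) →ₗ[ℚ] BT (sysV n) :=
  Finsupp.lmapDomain ℚ ℚ (lamL (AG (1 : OG n)))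

open Classical in
/-- on one list -/
def pi1 (n : ℕ) (l : List (Cb (sysV n))) : BT (sysO ℝ) :=
  if h : ∃ (g : OG n) (L : List (Cb (sysO ℝ))), (L.map Cb.r).sum = n ∧ l = lamL (AG g) L then
    Finsupp.single h.choose_spec.choose 1 else 0

/-- from lists of frames to `O(R)`-lists -/
def piV (n : ℕ) : BT (sysV n) →ₗ[ℚ] BT (sysO ℝ) := Finsupp.linearCombination ℚ (pi1 n)

end St16
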