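import Pool.Agent.LibSt16.VD0

/-!
Row VD1 (MEDIUM). `lamC`, `lamL` and faces, block sums, the boundary.

lamC_face: `Cb.ext'`; `(c.face b k).y s = (c.fv b k)⁻¹ * c.y (ins k b s)` (`Cb.face_y`), so
`(A ∘ fv) ((c.face b k).y s e_j) = A (c.y (ins k b s) e_j)`.
lamC_mul: `(c * c').y s = c.y s * shA c.r (c'.y _)`; for `j < c.r`: `shA c.r h e_j = e_j` (`shA_ee_lt`); for `j = c.r + i`:
`shA c.r h e_(c.r+i) = shV c.r (h e_i)` (`shA_ee_ge`) and `c.y s` fixes `shV c.r x` (x is a combination of `e_i`, `c.y s ∈ On c.r`);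
`List.ofFn` of `Fin (a + b)`: `List.ofFn_add` (or `List.ext_getElem`).
lamL_BD: the device `u`, by induction on `L` with `BD1_rec` (C.lean) or the definition of `BD1`:
 `[]`: u = 0.  `c :: L`: u = Σ_(k<c.q) (-1)^k (single (c.fv true k, face true k :: L) - single (1, face false k :: L))
   + (-1)^q single (1, (c * c') :: L') (if L = c' :: L') - (-1)^q mapDomain (fun (h, x) => (shA c.r h, c :: x)) u'.
 Checks: `lamC A (c.face b k) ..`: `(lamC A c).face b k = lamC (A ∘ fv) (c.face b k)`, and the rest of the list: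
 `(A ∘ fv) ∘ shV c.r = A ∘ shV c.r` (fv ∈ On c.r fixes `shV c.r x`); `lamC (A ∘ shA c.r h) c = lamC A c` (`lamC_congr`: `shA c.r h`
 fixes `e_j`, `j < c.r`, and `c.y s e_j` is in the span of `e_0..e_(r-1)` because `c.y s ∈ On r`), and
 `(A ∘ shA c.r h) ∘ shV c.r = (A ∘ shV c.r) ∘ h` (`shA_shV`); block sums: `lamC_mul`, `(A ∘ shV r) ∘ shV r' = A ∘ shV (r + r')`.
(`g ∈ On r` preserves the vectors supported below `r`: `On_low` of SY02.lean.)
-/

set_option autoImplicit false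

noncomputable section

namespace St16

open Matrix

/-- `g ∈ On r` fixes the vectors `shV r x` -/
theorem V_On_shV {r : ℕ} {g : Au ℝ} (hg : g ∈ On ℝ r) (x : Vc ℝ) : g (shV r x) = shV r x := by
  have h1 : g.toLinearMap ∘ₗ shV r = shV r := by
    apply Finsupp.lhom_ext'
    intro i
    apply LinearMap.ext_ring
    show g (shV r (ee i)) = shV r (ee i)
    rw [shV_ee, hg.2 _ (Nat.le_add_right r i)]
  exact LinearMap.congr_fun h1 x

private theorem VD1_expand {n : ℕ} (A : Vc ℝ →ₗ[ℝ] (Fin n → ℝ)) (x : Vc ℝ) :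
    A x = ∑ i ∈ x.support, x i • A (ee i) := by
  conv_lhs => rw [← Finsupp.sum_single x]
  rw [Finsupp.sum, map_sum]
  refine Finset.sum_congr rfl fun i _ => ?_
  rw [← map_smul]
  congr 1
  unfold ee
  rw [Finsupp.smul_single, smul_eq_mul, mul_one]

private theorem VD1_low {n : ℕ} (A A' : Vc ℝ →ₗ[ℝ] (Fin n → ℝ)) (r : ℕ)
    (h : ∀ j, j < r → A (ee j) = A' (ee j)) (x : Vc ℝ) (hx : ∀ i, r ≤ i → x i = 0) : A x = A' x := by
  rw [VD1_expand A, VD1_expand A']
  refine Finset.sum_congr rfl fun i hi => ?_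
  have : i < r := by
    by_contra hc
    exact (Finsupp.mem_support_iff.1 hi) (hx i (by omega))
  rw [h i this]

private theorem VD1_ee_low (r j : ℕ) (hj : j < r) : ∀ i, r ≤ i → (ee j : Vc ℝ) i = 0 := by
  intro i hi
  unfold ee
  rw [Finsupp.single_apply, if_neg (by omega)]

private theorem VD1_ofFn {α : Type} (F : ℕ → α) (N a b : ℕ) (h : N = a + b) :
    (List.ofFn fun j : Fin N => F j) =
      (List.ofFn fun j : Fin a => F j) ++ (List.ofFn fun j : Fin b => F (a + j)) := by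
  subst h
  rw [List.ofFn_add]
  rfl

private theorem VD1_ofFn_congr {α : Type} (F F' : ℕ → α) (N M : ℕ) (h : N = M)
    (hF : ∀ j, j < N → F j = F' j) :
    (List.ofFn fun j : Fin N => F j) = (List.ofFn fun j : Fin M => F' j) := by
  subst h
  congr 1
  funext j
  exact hF j j.2

private theorem VD1_l {n : ℕ} (A : Vc ℝ →ₗ[ℝ] (Fin n → ℝ)) (c : Cb (sysO ℝ)) (s : ℕ → Bool) :
    (lamC A c).l s = ⟨List.ofFn fun j : Fin c.r => A (c.y s (ee j))⟩ := rfl

theorem lamC_congr {n : ℕ} (A A' : Vc ℝ →ₗ[ℝ] (Fin n → ℝ)) (c : Cb (sysO ℝ))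
    (h : ∀ j, j < c.r → A (ee j) = A' (ee j)) : lamC A c = lamC A' c := by
  refine Cb.ext' rfl rfl (fun s => rfl) (fun s => ?_)
  rw [VD1_l, VD1_l]
  congr 1
  refine VD1_ofFn_congr (fun j => A (c.y s (ee j))) (fun j => A' (c.y s (ee j))) _ _ rfl fun j hj => ?_
  exact VD1_low A A' c.r h _ (On_low c.r (c.y s) (c.y_mem s) _ (VD1_ee_low c.r j hj))

theorem lamC_face {n : ℕ} (A : Vc ℝ →ₗ[ℝ] (Fin n → ℝ)) (c : Cb (sysO ℝ)) (b : Bool) (k : ℕ)
    (hk : k < c.q) :
    (lamC A c).face b k = lamC (A ∘ₗ (c.fv b k : Au ℝ).toLinearMap) (c.face b k) := by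
  have hk' : k < (lamC A c).q := hk
  refine Cb.ext' ?_ ?_ (fun s => rfl) (fun s => ?_)
  · rw [Cb.face_r]
    exact (Cb.face_r c b k).symm
  · rw [Cb.face_q _ _ _ hk']
    exact (Cb.face_q c b k hk).symm
  · rw [Cb.face_l _ _ _ hk']
    show (lamC A c).l (ins k b s) = _
    rw [VD1_l, VD1_l]
    congr 1
    refine VD1_ofFn_congr (fun j => A (c.y (ins k b s) (ee j)))
      (fun j => (A ∘ₗ (c.fv b k : Au ℝ).toLinearMap) ((c.face b k).y s (ee j))) _ _
      (Cb.face_r c b k).symm fun j _ => ?_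
    rw [Cb.face_y c b k hk]
    show A (c.y (ins k b s) (ee j)) = A ((c.fv b k * ((c.fv b k)⁻¹ * c.y (ins k b s))) (ee j))
    rw [mul_inv_cancel_left]

theorem lamC_mul {n : ℕ} (A : Vc ℝ →ₗ[ℝ] (Fin n → ℝ)) (c c' : Cb (sysO ℝ)) :
    lamC A (c * c') = lamC A c * lamC (A ∘ₗ shV c.r) c' := by
  refine Cb.ext' rfl rfl (fun s => rfl) (fun s => ?_)
  rw [Cb.mul_l, VD1_l, VD1_l]
  show _ = (⟨(List.ofFn fun j : Fin c.r => A (c.y s (ee j))) ++
    (List.ofFn fun j : Fin c'.r => (A ∘ₗ shV c.r) (c'.y (fun i => s (c.q + i)) (ee j)))⟩ : Fr n)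
  congr 1
  rw [VD1_ofFn (fun j => A ((c * c').y s (ee j))) (c * c').r c.r c'.r rfl]
  congr 1
  · refine VD1_ofFn_congr (fun j => A ((c * c').y s (ee j))) (fun j => A (c.y s (ee j))) _ _ rfl fun j hj => ?_
    rw [Cb.mul_y]
    show A (c.y s (shA c.r (c'.y _) (ee j))) = _
    rw [shA_ee_lt c.r _ j hj]
  · refine VD1_ofFn_congr (fun j => A ((c * c').y s (ee (c.r + j))))
      (fun j => (A ∘ₗ shV c.r) (c'.y (fun i => s (c.q + i)) (ee j))) _ _ rfl fun j hj => ?_
    rw [Cb.mul_y]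
    show A (c.y s (shA c.r (c'.y _) (ee (c.r + j)))) = A (shV c.r (c'.y _ (ee j)))
    rw [shA_ee_ge, V_On_shV (c.y_mem s)]

private theorem VD1_On_mono {r r' : ℕ} (h : r ≤ r') {g : Au ℝ} (hg : g ∈ On ℝ r) : g ∈ On ℝ r' :=
  ⟨hg.1, fun i hi => hg.2 i (h.trans hi)⟩

private theorem VD1_On_sh (r m : ℕ) {h : Au ℝ} (hh : h ∈ On ℝ m) : shA r h ∈ On ℝ (r + m) := by
  have := On_mul ℝ r m 1 h (one_mem _) hh
  rwa [one_mul] at this

private theorem VD1_cons {n : ℕ} (A : Vc ℝ →ₗ[ℝ] (Fin n → ℝ)) (c : Cb (sysO ℝ)) (L : List (Cb (sysO ℝ))) :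
    lamL A (c :: L) = lamC A c :: lamL (A ∘ₗ shV c.r) L := rfl

private theorem VD1_face_cons {n : ℕ} (A : Vc ℝ →ₗ[ℝ] (Fin n → ℝ)) (c : Cb (sysO ℝ)) (L : List (Cb (sysO ℝ)))
    (b : Bool) (k : ℕ) (hk : k < c.q) :
    (lamC A c).face b k :: lamL (A ∘ₗ shV c.r) L =
      lamL (A ∘ₗ (c.fv b k : Au ℝ).toLinearMap) (c.face b k :: L) := by
  rw [VD1_cons, lamC_face A c b k hk, Cb.face_r]
  congr 2
  refine LinearMap.ext fun x => ?_
  show A (shV c.r x) = A (c.fv b k (shV c.r x))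
  rw [V_On_shV (Cb.fv_mem c b k)]

private theorem VD1_mrg {n : ℕ} (A : Vc ℝ →ₗ[ℝ] (Fin n → ℝ)) (c : Cb (sysO ℝ)) (L : List (Cb (sysO ℝ))) :
    mrg1 (lamC A c) (lamL (A ∘ₗ shV c.r) L) = Finsupp.mapDomain (lamL A) (mrg1 c L) := by
  cases L with
  | nil =>
    show (0 : BT (sysV n)) = Finsupp.mapDomain (lamL A) 0
    rw [Finsupp.mapDomain_zero]
  | cons c' L' =>
    show Finsupp.single ((lamC A c * lamC (A ∘ₗ shV c.r) c') :: lamL ((A ∘ₗ shV c.r) ∘ₗ shV c'.r) L') (1 : ℚ) =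
      Finsupp.mapDomain (lamL A) (Finsupp.single ((c * c') :: L') 1)
    rw [Finsupp.mapDomain_single, VD1_cons, lamC_mul]
    congr 3
    refine LinearMap.ext fun x => ?_
    show A (shV c.r (shV c'.r x)) = A (shV (c.r + c'.r) x)
    rw [shV_shV]

/-- the boundary of `lamL A L` -/
theorem lamL_BD (L : List (Cb (sysO ℝ))) :
    ∃ u : (Au ℝ × List (Cb (sysO ℝ))) →₀ ℚ,
      (∀ p ∈ u.support, p.1 ∈ On ℝ (L.map Cb.r).sum ∧ (p.2.map Cb.r).sum = (L.map Cb.r).sum) ∧
      BD1 L = Finsupp.mapDomain (fun p => p.2) u ∧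
      ∀ (n : ℕ) (A : Vc ℝ →ₗ[ℝ] (Fin n → ℝ)),
        BD1 (lamL A L) = Finsupp.mapDomain (fun p => lamL (A ∘ₗ p.1.toLinearMap) p.2) u := by
  suffices H : ∃ u : (Au ℝ × List (Cb (sysO ℝ))) →₀ ℚ,
      u ∈ Finsupp.supported ℚ ℚ {p : Au ℝ × List (Cb (sysO ℝ)) |
        p.1 ∈ On ℝ (L.map Cb.r).sum ∧ (p.2.map Cb.r).sum = (L.map Cb.r).sum} ∧
      BD1 L = Finsupp.lmapDomain ℚ ℚ (fun p : Au ℝ × List (Cb (sysO ℝ)) => p.2) u ∧
      ∀ (n : ℕ) (A : Vc ℝ →ₗ[ℝ] (Fin n → ℝ)),
        BD1 (lamL A L) = Finsupp.lmapDomain ℚ ℚ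
          (fun p : Au ℝ × List (Cb (sysO ℝ)) => lamL (A ∘ₗ p.1.toLinearMap) p.2) u by
    obtain ⟨u, h1, h2, h3⟩ := H
    exact ⟨u, fun p hp => (Finsupp.mem_supported ℚ u).1 h1 hp, h2, h3⟩
  induction L with
  | nil =>
    refine ⟨0, Submodule.zero_mem _, ?_, fun n A => ?_⟩
    · rw [map_zero]; rfl
    · rw [map_zero]; rfl
  | cons c L ih =>
    obtain ⟨u', h1, h2, h3⟩ := ih
    have hsum : ((c :: L).map Cb.r).sum = c.r + (L.map Cb.r).sum := by
      rw [List.map_cons, List.sum_cons]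
    refine ⟨∑ k ∈ Finset.range c.q, (-1 : ℚ) ^ k •
        (Finsupp.single ((c.fv true k : Au ℝ), c.face true k :: L) 1 -
          Finsupp.single ((1 : Au ℝ), c.face false k :: L) 1) +
      (-1 : ℚ) ^ c.q • Finsupp.lmapDomain ℚ ℚ (fun l => ((1 : Au ℝ), l)) (mrg1 c L) -
      (-1 : ℚ) ^ c.q • Finsupp.lmapDomain ℚ ℚ
        (fun p : Au ℝ × List (Cb (sysO ℝ)) => (shA c.r p.1, c :: p.2)) u', ?_, ?_, fun n A => ?_⟩
    · rw [hsum]
      refine sub_mem (add_mem (Submodule.sum_mem _ fun k _ => Submodule.smul_mem _ _ (sub_mem ?_ ?_))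
        (Submodule.smul_mem _ _ ?_)) (Submodule.smul_mem _ _ ?_)
      · refine Finsupp.single_mem_supported ℚ _ ⟨?_, ?_⟩
        · exact VD1_On_mono (Nat.le_add_right _ _) (Cb.fv_mem c true k)
        · rw [List.map_cons, List.sum_cons, Cb.face_r]
      · refine Finsupp.single_mem_supported ℚ _ ⟨?_, ?_⟩
        · exact one_mem _
        · rw [List.map_cons, List.sum_cons, Cb.face_r]
      · cases L with
        | nil =>
          show Finsupp.lmapDomain ℚ ℚ _ (0 : BT (sysO ℝ)) ∈ _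
          rw [map_zero]
          exact Submodule.zero_mem _
        | cons c' L' =>
          show Finsupp.lmapDomain ℚ ℚ _ (Finsupp.single ((c * c') :: L') (1 : ℚ)) ∈ _
          rw [Finsupp.lmapDomain_apply, Finsupp.mapDomain_single]
          refine Finsupp.single_mem_supported ℚ _ ⟨one_mem _, ?_⟩
          rw [List.map_cons, List.sum_cons, List.map_cons, List.sum_cons, Cb.mul_r, Nat.add_assoc]
      · refine supported_le (Finsupp.lmapDomain ℚ ℚ
          (fun p : Au ℝ × List (Cb (sysO ℝ)) => (shA c.r p.1, c :: p.2))) _ _ (fun p hp => ?_) u' h1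
        rw [Finsupp.lmapDomain_apply, Finsupp.mapDomain_single]
        refine Finsupp.single_mem_supported ℚ _ ⟨VD1_On_sh _ _ hp.1, ?_⟩
        rw [List.map_cons, List.sum_cons, hp.2]
    · rw [BD1_rec, consB_list, mrg_single, one_smul, map_sub, map_add, map_smul, map_smul, map_sum, h2]
      congr 1
      · congr 1
        · unfold bd1
          rw [map_sum]
          refine Finset.sum_congr rfl fun k _ => ?_
          rw [map_smul, map_smul, map_sub, map_sub, consL_single, consL_single, Finsupp.lmapDomain_apply,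
            Finsupp.lmapDomain_apply, Finsupp.mapDomain_single, Finsupp.mapDomain_single]
        · congr 1
          rw [Finsupp.lmapDomain_apply, Finsupp.lmapDomain_apply, ← Finsupp.mapDomain_comp]
          exact Finsupp.mapDomain_id.symm
      · congr 1
        unfold consC
        rw [Finsupp.lmapDomain_apply, Finsupp.lmapDomain_apply, Finsupp.lmapDomain_apply,
          Finsupp.lmapDomain_apply, ← Finsupp.mapDomain_comp, ← Finsupp.mapDomain_comp]
        rfl
    · rw [VD1_cons, BD1_rec, consB_list, mrg_single, one_smul, map_sub, map_add, map_smul, map_smul, map_sum,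
        h3 n (A ∘ₗ shV c.r)]
      congr 1
      · congr 1
        · unfold bd1
          rw [map_sum]
          refine Finset.sum_congr rfl fun k hk => ?_
          have hk' : k < c.q := Finset.mem_range.1 hk
          rw [map_smul, map_smul, map_sub, map_sub, consL_single, consL_single, Finsupp.lmapDomain_apply,
            Finsupp.lmapDomain_apply, Finsupp.mapDomain_single, Finsupp.mapDomain_single,
            VD1_face_cons A c L true k hk', VD1_face_cons A c L false k hk', Cb.fv_false]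
        · show (-1 : ℚ) ^ c.q • _ = (-1 : ℚ) ^ c.q • _
          congr 1
          rw [VD1_mrg, Finsupp.lmapDomain_apply, Finsupp.lmapDomain_apply, ← Finsupp.mapDomain_comp]
          rfl
      · show (-1 : ℚ) ^ c.q • _ = (-1 : ℚ) ^ c.q • _
        congr 1
        unfold consC
        rw [Finsupp.lmapDomain_apply, Finsupp.lmapDomain_apply, Finsupp.lmapDomain_apply,
          Finsupp.lmapDomain_apply, ← Finsupp.mapDomain_comp, ← Finsupp.mapDomain_comp]
        congr 1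
        funext p
        show lamC A c :: lamL ((A ∘ₗ shV c.r) ∘ₗ p.1.toLinearMap) p.2 =
          lamL (A ∘ₗ (shA c.r p.1).toLinearMap) (c :: p.2)
        rw [VD1_cons]
        congr 1
        · refine lamC_congr _ _ c fun j hj => ?_
          show A (ee j) = A (shA c.r p.1 (ee j))
          rw [shA_ee_lt c.r _ j hj]
        · congr 1
          refine LinearMap.ext fun x => ?_
          show A (shV c.r (p.1 x)) = A (shA c.r p.1 (shV c.r x))
          rw [shA_shV]

private theorem VD1_smulC {n : ℕ} (g : OG n) (A : Vc ℝ →ₗ[ℝ] (Fin n → ℝ)) (c : Cb (sysO ℝ)) :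
    g • lamC A c = lamC (Matrix.toLin' (g : Matrix (Fin n) (Fin n) ℝ) ∘ₗ A) c := by
  refine Cb.ext' rfl rfl (fun s => rfl) (fun s => ?_)
  rw [smulV_l, VD1_l, VD1_l]
  refine Fr.ext ?_
  rw [smul_Fr_v, List.map_ofFn]
  rfl

/-- the action of `O(n)` -/
theorem smul_lamL {n : ℕ} (g : OG n) (A : Vc ℝ →ₗ[ℝ] (Fin n → ℝ)) (L : List (Cb (sysO ℝ))) :
    g • lamL A L = lamL (Matrix.toLin' (g : Matrix (Fin n) (Fin n) ℝ) ∘ₗ A) L := by
  induction L generalizing A with
  | nil => rfl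
  | cons c L ih =>
    rw [VD1_cons, VD1_cons, ← VD1_smulC, LinearMap.comp_assoc, ← ih]
    rfl

theorem lamL_r {n : ℕ} (A : Vc ℝ →ₗ[ℝ] (Fin n → ℝ)) (L : List (Cb (sysO ℝ))) :
    (lamL A L).map Cb.r = L.map Cb.r := by
  induction L generalizing A with
  | nil => rfl
  | cons c L ih =>
    rw [VD1_cons, List.map_cons, List.map_cons, ih]
    rfl

theorem lamL_q {n : ℕ} (A : Vc ℝ →ₗ[ℝ] (Fin n → ℝ)) (L : List (Cb (sysO ℝ))) :
    (lamL A L).map Cb.q = L.map Cb.q := by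
  induction L generalizing A with
  | nil => rfl
  | cons c L ih =>
    rw [VD1_cons, List.map_cons, List.map_cons, ih]
    rfl

/-- the total weight of `lamL A L` -/
theorem lamL_w {n : ℕ} (A : Vc ℝ →ₗ[ℝ] (Fin n → ℝ)) (L : List (Cb (sysO ℝ))) :
    ((lamL A L).map wV).sum =
      gm (⟨List.ofFn fun j : Fin (L.map Cb.r).sum => A (ee j)⟩ : Fr n) := by
  induction L generalizing A with
  | nil =>
    show (0 : Matrix (Fin n) (Fin n) ℝ) = gm (⟨[]⟩ : Fr n)
    rfl
  | cons c L ih =>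
    rw [VD1_cons, List.map_cons, List.sum_cons, ih]
    rw [VD1_ofFn (fun j => A (ee j)) ((c :: L).map Cb.r).sum c.r (L.map Cb.r).sum
      (by rw [List.map_cons, List.sum_cons])]
    rw [gm_append (n := n) ⟨List.ofFn fun j : Fin c.r => A (ee j)⟩
      ⟨List.ofFn fun j : Fin (L.map Cb.r).sum => A (ee (c.r + j))⟩]
    congr 1
    · unfold wV
      rw [VD1_l, c.y_zero]
      rfl
    · congr 2
      refine VD1_ofFn_congr (fun j => (A ∘ₗ shV c.r) (ee j)) (fun j => A (ee (c.r + j))) _ _ rfl fun j _ => ?_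
      show A (shV c.r (ee j)) = _
      rw [shV_ee]

end St16
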