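import Pool.Agent.LibSt16.VD1

/-!
Row VD3a (SHORT/MEDIUM). Automorphisms from orthogonal matrices.

`Au` from a matrix: `exists_au`: build the linear maps with `Finsupp.linearCombination ℝ (fun j => if h : j < r then Σ_i N i ⟨j,h⟩ • ee i
else ee j)` for `N` and for `Nᵀ` (`Nᵀ * N = 1`: `mul_eq_one_comm`), check on basis vectors that they are inverse
(`LinearEquiv.ofLinearMap`), `dot` of images: on basis vectors (`dot` is bilinear: SY02.lean has `dot_ee_right`, `dot_comm`,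
`dot_add_left`, `dot_smul_left`; `Finsupp.induction_linear` twice).
-/

set_option autoImplicit false

noncomputable section

namespace St16

open Matrix

private def VD3a_lin {r : ℕ} (N : Matrix (Fin r) (Fin r) ℝ) : Vc ℝ →ₗ[ℝ] Vc ℝ :=
  Finsupp.linearCombination ℝ fun j : ℕ =>
    if h : j < r then ∑ i : Fin r, N i ⟨j, h⟩ • (ee (i : ℕ) : Vc ℝ) else ee j

private theorem VD3a_lin_ee {r : ℕ} (N : Matrix (Fin r) (Fin r) ℝ) (j : ℕ) :
    VD3a_lin N (ee j) = if h : j < r then ∑ i : Fin r, N i ⟨j, h⟩ • (ee (i : ℕ) : Vc ℝ) else ee j := by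
  show Finsupp.linearCombination ℝ _ (Finsupp.single j (1 : ℝ)) = _
  rw [Finsupp.linearCombination_single, one_smul]

private theorem VD3a_lin_lt {r : ℕ} (N : Matrix (Fin r) (Fin r) ℝ) (j : Fin r) :
    VD3a_lin N (ee (j : ℕ)) = ∑ i : Fin r, N i j • (ee (i : ℕ) : Vc ℝ) := by
  rw [VD3a_lin_ee, dif_pos j.2]

private theorem VD3a_lin_ge {r : ℕ} (N : Matrix (Fin r) (Fin r) ℝ) (j : ℕ) (hj : r ≤ j) :
    VD3a_lin N (ee j) = ee j := by
  rw [VD3a_lin_ee, dif_neg (by omega)]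

private theorem VD3a_lin_ext (f g : Vc ℝ →ₗ[ℝ] Vc ℝ) (h : ∀ i, f (ee i) = g (ee i)) : f = g := by
  apply Finsupp.lhom_ext'
  intro i
  apply LinearMap.ext_ring
  exact h i

private theorem VD3a_lin_mul {r : ℕ} (N M : Matrix (Fin r) (Fin r) ℝ) (h : N * M = 1) :
    VD3a_lin N ∘ₗ VD3a_lin M = LinearMap.id := by
  apply VD3a_lin_ext
  intro j
  rw [LinearMap.comp_apply, LinearMap.id_apply]
  by_cases hj : j < r
  · obtain ⟨j', rfl⟩ : ∃ j' : Fin r, j = (j' : ℕ) := ⟨⟨j, hj⟩, rfl⟩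
    rw [VD3a_lin_lt, map_sum]
    have h1 : ∀ i : Fin r, VD3a_lin N (M i j' • (ee (i : ℕ) : Vc ℝ)) =
        ∑ k : Fin r, (N k i * M i j') • (ee (k : ℕ) : Vc ℝ) := by
      intro i
      rw [map_smul, VD3a_lin_lt, Finset.smul_sum]
      refine Finset.sum_congr rfl fun k _ => ?_
      rw [smul_smul, mul_comm]
    rw [Finset.sum_congr rfl fun i _ => h1 i, Finset.sum_comm]
    have h2 : ∀ k : Fin r, ∑ i : Fin r, (N k i * M i j') • (ee (k : ℕ) : Vc ℝ) =
        ((1 : Matrix (Fin r) (Fin r) ℝ) k j') • (ee (k : ℕ) : Vc ℝ) := by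
      intro k
      rw [← Finset.sum_smul, ← h, Matrix.mul_apply]
    rw [Finset.sum_congr rfl fun k _ => h2 k, Finset.sum_eq_single j']
    · rw [Matrix.one_apply_eq, one_smul]
    · intro k _ hk
      rw [Matrix.one_apply_ne hk, zero_smul]
    · intro hk
      exact absurd (Finset.mem_univ _) hk
  · rw [VD3a_lin_ge M j (by omega), VD3a_lin_ge N j (by omega)]

private def VD3a_dL (y : Vc ℝ) : Vc ℝ →ₗ[ℝ] ℝ where
  toFun x := dot x y
  map_add' a b := dot_add_left a b y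
  map_smul' a x := dot_smul_left a x y

private theorem VD3a_dot_ee_left (x : Vc ℝ) (j : ℕ) : dot (ee j) x = x j := by
  rw [dot_comm, dot_ee_right]

private theorem VD3a_dot_lt {r : ℕ} (N : Matrix (Fin r) (Fin r) ℝ) (i : Fin r) (y : Vc ℝ) :
    dot (VD3a_lin N (ee (i : ℕ))) y = ∑ a : Fin r, N a i * y (a : ℕ) := by
  show VD3a_dL y _ = _
  rw [VD3a_lin_lt, map_sum]
  refine Finset.sum_congr rfl fun a _ => ?_
  rw [map_smul, smul_eq_mul]
  congr 1
  exact VD3a_dot_ee_left y a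

private theorem VD3a_lin_coord {r : ℕ} (N : Matrix (Fin r) (Fin r) ℝ) (j a : Fin r) :
    VD3a_lin N (ee (j : ℕ)) (a : ℕ) = N a j := by
  rw [← dot_ee_right, VD3a_dot_lt, Finset.sum_eq_single a]
  · unfold ee
    rw [Finsupp.single_eq_same, mul_one]
  · intro b _ hb
    unfold ee
    rw [Finsupp.single_apply, if_neg (fun h => hb (Fin.ext h.symm)), mul_zero]
  · intro h
    exact absurd (Finset.mem_univ _) h

private theorem VD3a_key {r : ℕ} (N : Matrix (Fin r) (Fin r) ℝ) (hN : Nᵀ * N = 1) (i j : ℕ) :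
    dot (VD3a_lin N (ee i)) (VD3a_lin N (ee j)) = dot (ee i) (ee j) := by
  have hmix : ∀ (i : Fin r) (j : ℕ), r ≤ j →
      dot (VD3a_lin N (ee (i : ℕ))) (VD3a_lin N (ee j)) = dot (ee (i : ℕ)) (ee j) := by
    intro i j hj
    have hi := i.2
    rw [VD3a_lin_ge N j hj, VD3a_dot_lt, VD3a_dot_ee_left]
    have h1 : (ee j : Vc ℝ) (i : ℕ) = 0 := by
      unfold ee
      rw [Finsupp.single_apply, if_neg (by omega)]
    rw [h1]
    refine Finset.sum_eq_zero fun a _ => ?_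
    have ha := a.2
    unfold ee
    rw [Finsupp.single_apply, if_neg (by omega), mul_zero]
  by_cases hi : i < r
  · obtain ⟨i', rfl⟩ : ∃ i' : Fin r, i = (i' : ℕ) := ⟨⟨i, hi⟩, rfl⟩
    by_cases hj : j < r
    · obtain ⟨j', rfl⟩ : ∃ j' : Fin r, j = (j' : ℕ) := ⟨⟨j, hj⟩, rfl⟩
      rw [VD3a_dot_lt, VD3a_dot_ee_left]
      have h1 : ∑ a : Fin r, N a i' * VD3a_lin N (ee (j' : ℕ)) (a : ℕ) = (Nᵀ * N) i' j' := by
        rw [Matrix.mul_apply]
        refine Finset.sum_congr rfl fun a _ => ?_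
        rw [VD3a_lin_coord, Matrix.transpose_apply]
      rw [h1, hN, Matrix.one_apply]
      unfold ee
      rw [Finsupp.single_apply]
      by_cases h : i' = j'
      · rw [if_pos h, if_pos (by rw [h])]
      · rw [if_neg h, if_neg (fun h' => h (Fin.ext h'.symm))]
    · exact hmix i' j (by omega)
  · by_cases hj : j < r
    · rw [dot_comm, dot_comm (ee i)]
      exact hmix ⟨j, hj⟩ i (by omega)
    · rw [VD3a_lin_ge N i (by omega), VD3a_lin_ge N j (by omega)]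

private theorem VD3a_dot {r : ℕ} (N : Matrix (Fin r) (Fin r) ℝ) (hN : Nᵀ * N = 1) (x y : Vc ℝ) :
    dot (VD3a_lin N x) (VD3a_lin N y) = dot x y := by
  have h1 : ∀ (x : Vc ℝ) (j : ℕ), dot (VD3a_lin N x) (VD3a_lin N (ee j)) = dot x (ee j) := by
    intro x j
    have h : VD3a_dL (VD3a_lin N (ee j)) ∘ₗ VD3a_lin N = VD3a_dL (ee j) := by
      apply Finsupp.lhom_ext'
      intro i
      apply LinearMap.ext_ring
      exact VD3a_key N hN i j
    exact LinearMap.congr_fun h x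
  have h2 : VD3a_dL (VD3a_lin N x) ∘ₗ VD3a_lin N = VD3a_dL x := by
    apply Finsupp.lhom_ext'
    intro j
    apply LinearMap.ext_ring
    show dot (VD3a_lin N (ee j)) (VD3a_lin N x) = dot (ee j) x
    rw [dot_comm, h1, dot_comm]
  have h3 := LinearMap.congr_fun h2 y
  rw [dot_comm, dot_comm x]
  exact h3

theorem exists_au {r : ℕ} (N : Matrix (Fin r) (Fin r) ℝ) (hN : N * Nᵀ = 1) :
    ∃ g : Au ℝ, g ∈ On ℝ r ∧ ∀ j : Fin r, g (ee j) = ∑ i : Fin r, N i j • ee (i : ℕ) := by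
  have hN' : Nᵀ * N = 1 := mul_eq_one_comm.1 hN
  refine ⟨LinearEquiv.ofLinearMap (VD3a_lin N) (VD3a_lin Nᵀ) (VD3a_lin_mul N Nᵀ hN) (VD3a_lin_mul Nᵀ N hN'),
    ⟨fun x y => VD3a_dot N hN' x y, fun i hi => VD3a_lin_ge N i hi⟩, fun j => VD3a_lin_lt N j⟩

end St16
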