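import Pool.Agent.LibSt16.VD3a
import Pool.Agent.LibSt16.VC2a

/-!
Row VD3b (MEDIUM). One cube of frames comes from a cube of `sysO ℝ`.

cube_lift: let `c : Cb (sysV n)` be such that every tuple `(c.l s).v` is orthonormal and all have the same `gm` (automatic), and
let `A : Vc ℝ → R^n` with `A (ee j) = (c.l z0).v[j]` for `j < c.r`.  For a vertex `s` let `N_s` be the `r × r` matrix
`(c.l z0).v[i] ⬝ᵥ (c.l s).v[j]`; `N_s` is orthogonal: `N_sᵀ N_s = ((c.l s).v[i] ⬝ᵥ gm(c.l z0) (c.l s).v[j]) = ` Gram matrix of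
`c.l s` `= 1`, because `gm (c.l z0) = gm (c.l s)` fixes the vectors of `c.l s`.  Let `y s : Au ℝ` be the automorphism with
`y s (ee j) = Σ_i N_s i j • ee i` for `j < r` and `ee j` for `j ≥ r` (inverse: the transposed matrix; build `Au` from a matrix by one
lemma `exists_au (N : Matrix (Fin r) (Fin r) ℝ) (N * Nᵀ = 1) : ∃ g ∈ On ℝ r, ∀ i j : Fin r, g (ee j) i = N i j`, e.g. with
`Finsupp.linearCombination` on both sides and `LinearEquiv.ofLinearMap`); `y z0 = 1`.  Then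
`A (y s e_j) = Σ_i N_s i j (c.l z0).v[i] = gm (c.l z0) (c.l s).v[j] = (c.l s).v[j]`.  So `lamC A c' = c`.
-/

set_option autoImplicit false

noncomputable section

namespace St16

open Matrix

/-- the `j`-th vector at the vertex `s` -/
private def VD3b_w {n : ℕ} (c : Cb (sysV n)) (s : ℕ → Bool) (j : Fin c.r) : Fin n → ℝ :=
  (c.l s).v[(j : ℕ)]'(by
    have h : (c.l s).v.length = c.r := c.l_mem s
    rw [h]
    exact j.2)

private theorem VD3b_gm {n r : ℕ} (a : Fr n) (h : a.v.length = r) (x : Fin n → ℝ) :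
    gm a *ᵥ x = ∑ i : Fin r, ((a.v[(i : ℕ)]'(by rw [h]; exact i.2)) ⬝ᵥ x) •
      (a.v[(i : ℕ)]'(by rw [h]; exact i.2)) := by
  subst h
  have h1 : gm a = ∑ i : Fin a.v.length, vecMulVec a.v[(i : ℕ)] a.v[(i : ℕ)] := by
    unfold gm
    exact (Fin.sum_univ_fun_getElem a.v fun x => vecMulVec x x).symm
  rw [h1, Matrix.sum_mulVec]
  refine Finset.sum_congr rfl fun i _ => ?_
  funext k
  simp only [mulVec, dotProduct, vecMulVec_apply, Pi.smul_apply, smul_eq_mul]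
  rw [Finset.sum_mul]
  refine Finset.sum_congr rfl fun l _ => ?_
  ring

private theorem VD3b_gmw {n : ℕ} (c : Cb (sysV n)) (s : ℕ → Bool) (x : Fin n → ℝ) :
    gm (c.l s) *ᵥ x = ∑ i : Fin c.r, (VD3b_w c s i ⬝ᵥ x) • VD3b_w c s i :=
  VD3b_gm (c.l s) (c.l_mem s) x

private theorem VD3b_const {n : ℕ} (c : Cb (sysV n)) (s : ℕ → Bool) : gm (c.l z0) = gm (c.l s) :=
  c.l_mono z0 s (fun i => by unfold z0; exact Bool.false_le _)

private def VD3b_N {n : ℕ} (c : Cb (sysV n)) (s : ℕ → Bool) : Matrix (Fin c.r) (Fin c.r) ℝ :=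
  Matrix.of fun i j => VD3b_w c z0 i ⬝ᵥ VD3b_w c s j

private theorem VD3b_w_ortho {n : ℕ} (c : Cb (sysV n))
    (ho : ∀ (s : ℕ → Bool) (i j : ℕ) (hi : i < (c.l s).v.length) (hj : j < (c.l s).v.length),
      (c.l s).v[i] ⬝ᵥ (c.l s).v[j] = if i = j then 1 else 0) (s : ℕ → Bool) (i j : Fin c.r) :
    VD3b_w c s i ⬝ᵥ VD3b_w c s j = if i = j then 1 else 0 := by
  unfold VD3b_w
  rw [ho]
  simp only [Fin.ext_iff]

private theorem VD3b_repr {n : ℕ} (c : Cb (sysV n))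
    (ho : ∀ (s : ℕ → Bool) (i j : ℕ) (hi : i < (c.l s).v.length) (hj : j < (c.l s).v.length),
      (c.l s).v[i] ⬝ᵥ (c.l s).v[j] = if i = j then 1 else 0) (s : ℕ → Bool) (j : Fin c.r) :
    ∑ i : Fin c.r, VD3b_N c s i j • VD3b_w c z0 i = VD3b_w c s j := by
  have h1 : ∑ i : Fin c.r, VD3b_N c s i j • VD3b_w c z0 i = gm (c.l z0) *ᵥ VD3b_w c s j := by
    rw [VD3b_gmw]
    rfl
  rw [h1, VD3b_const c s, VD3b_gmw, Finset.sum_eq_single j]
  · rw [VD3b_w_ortho c ho, if_pos rfl, one_smul]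
  · intro i _ hi
    rw [VD3b_w_ortho c ho, if_neg hi, zero_smul]
  · intro h
    exact absurd (Finset.mem_univ j) h

private theorem VD3b_orth {n : ℕ} (c : Cb (sysV n))
    (ho : ∀ (s : ℕ → Bool) (i j : ℕ) (hi : i < (c.l s).v.length) (hj : j < (c.l s).v.length),
      (c.l s).v[i] ⬝ᵥ (c.l s).v[j] = if i = j then 1 else 0) (s : ℕ → Bool) :
    VD3b_N c s * (VD3b_N c s)ᵀ = 1 := by
  rw [mul_eq_one_comm]
  ext j k
  rw [Matrix.mul_apply]
  have h1 : ∑ i : Fin c.r, (VD3b_N c s)ᵀ j i * VD3b_N c s i k =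
      (∑ i : Fin c.r, VD3b_N c s i j • VD3b_w c z0 i) ⬝ᵥ VD3b_w c s k := by
    rw [sum_dotProduct]
    refine Finset.sum_congr rfl fun i _ => ?_
    rw [smul_dotProduct, smul_eq_mul]
    rfl
  rw [h1, VD3b_repr c ho, VD3b_w_ortho c ho, Matrix.one_apply]

open Classical in
/-- the chosen automorphism -/
private def VD3b_g {r : ℕ} (N : Matrix (Fin r) (Fin r) ℝ) : Au ℝ :=
  if h : N * Nᵀ = 1 then (exists_au N h).choose else 1

private theorem VD3b_g_mem {r : ℕ} (N : Matrix (Fin r) (Fin r) ℝ) : VD3b_g N ∈ On ℝ r := by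
  unfold VD3b_g
  split_ifs with h
  · exact (exists_au N h).choose_spec.1
  · exact one_mem _

private theorem VD3b_g_ee {r : ℕ} (N : Matrix (Fin r) (Fin r) ℝ) (h : N * Nᵀ = 1) (j : Fin r) :
    VD3b_g N (ee j) = ∑ i : Fin r, N i j • ee (i : ℕ) := by
  unfold VD3b_g
  rw [dif_pos h]
  exact (exists_au N h).choose_spec.2 j

private theorem VD3b_N_z0 {n : ℕ} (c : Cb (sysV n))
    (ho : ∀ (s : ℕ → Bool) (i j : ℕ) (hi : i < (c.l s).v.length) (hj : j < (c.l s).v.length),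
      (c.l s).v[i] ⬝ᵥ (c.l s).v[j] = if i = j then 1 else 0) : VD3b_N c z0 = 1 := by
  ext i j
  show VD3b_w c z0 i ⬝ᵥ VD3b_w c z0 j = _
  rw [VD3b_w_ortho c ho, Matrix.one_apply]

private theorem VD3b_g_one {r : ℕ} : VD3b_g (1 : Matrix (Fin r) (Fin r) ℝ) = 1 := by
  have h : (1 : Matrix (Fin r) (Fin r) ℝ) * (1 : Matrix (Fin r) (Fin r) ℝ)ᵀ = 1 := by simp
  refine au_ext _ _ fun i => ?_
  show _ = ee i
  by_cases hi : i < r
  · have h1 := VD3b_g_ee (1 : Matrix (Fin r) (Fin r) ℝ) h ⟨i, hi⟩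
    rw [Finset.sum_eq_single (⟨i, hi⟩ : Fin r)] at h1
    · rw [Matrix.one_apply_eq, one_smul] at h1
      exact h1
    · intro k _ hk
      rw [Matrix.one_apply_ne hk, zero_smul]
    · intro h2
      exact absurd (Finset.mem_univ _) h2
  · exact (VD3b_g_mem (1 : Matrix (Fin r) (Fin r) ℝ)).2 i (Nat.le_of_not_lt hi)

theorem cube_lift {n : ℕ} (c : Cb (sysV n)) (A : Vc ℝ →ₗ[ℝ] (Fin n → ℝ))
    (ho : ∀ (s : ℕ → Bool) (i j : ℕ) (hi : i < (c.l s).v.length) (hj : j < (c.l s).v.length),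
      (c.l s).v[i] ⬝ᵥ (c.l s).v[j] = if i = j then 1 else 0)
    (hA : ∀ (j : ℕ) (hj : j < (c.l z0).v.length), A (ee j) = (c.l z0).v[j]) :
    ∃ c' : Cb (sysO ℝ), lamC A c' = c := by
  refine ⟨{ r := c.r
            q := c.q
            y := fun s => VD3b_g (VD3b_N c s)
            l := fun _ => PUnit.unit
            r_pos := c.r_pos
            y_dep := fun s s' h => ?_
            l_dep := fun _ _ _ => rfl
            y_mem := fun s => VD3b_g_mem _
            l_mem := fun _ => trivial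
            y_zero := ?_
            l_mono := fun _ _ _ => le_rfl }, ?_⟩
  · have h1 : VD3b_N c s = VD3b_N c s' := by
      ext i j
      show VD3b_w c z0 i ⬝ᵥ VD3b_w c s j = VD3b_w c z0 i ⬝ᵥ VD3b_w c s' j
      have h2 : VD3b_w c s j = VD3b_w c s' j := by
        unfold VD3b_w
        simp only [c.l_dep s s' h]
      rw [h2]
    rw [h1]
  · rw [VD3b_N_z0 c ho]
    exact VD3b_g_one
  · refine Cb.ext rfl rfl (funext fun s => Subsingleton.elim _ _) (funext fun s => ?_)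
    have hlen : (c.l s).v.length = c.r := c.l_mem s
    have hlen0 : (c.l z0).v.length = c.r := c.l_mem z0
    apply Fr.ext
    show (List.ofFn fun j : Fin c.r => A (VD3b_g (VD3b_N c s) (ee j))) = (c.l s).v
    refine List.ext_getElem (by rw [List.length_ofFn, hlen]) fun j h1 h2 => ?_
    have hj : j < c.r := by rw [← hlen]; exact h2
    rw [List.getElem_ofFn]
    have h3 : VD3b_g (VD3b_N c s) (ee j) =
        ∑ i : Fin c.r, VD3b_N c s i ⟨j, hj⟩ • ee (i : ℕ) :=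
      VD3b_g_ee (VD3b_N c s) (VD3b_orth c ho s) ⟨j, hj⟩
    have h4 : A (VD3b_g (VD3b_N c s) (ee j)) = VD3b_w c s ⟨j, hj⟩ := by
      rw [h3, map_sum, ← VD3b_repr c ho s ⟨j, hj⟩]
      refine Finset.sum_congr rfl fun i _ => ?_
      rw [map_smul, hA (i : ℕ) (by rw [hlen0]; exact i.2)]
      rfl
    exact h4

end St16
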