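import Pool.Agent.LibSt16.VD3b

/-!
Row VD3c (MEDIUM). Every good list of frames is `lamL (AG g) L`.

good_lift: `l` good (ranks sum `n`, weights sum 1).  For any choice of vertices `s_i` the concatenation of the tuples
`(c_i.l s_i).v` has length `n` and `gm = 1` (`wV_vertex`), so it is orthonormal (`gm_one_orthonormal`): every `(c_i.l s).v` is
orthonormal, and at `z0` the concatenation is the list of the columns of a matrix `g ∈ O(n)`.  Now induction on the list for
`A` with `A (ee j)` = the `j`-th vector of the concatenation at `z0`, `j < sum of ranks` (block `i` uses `A ∘ shV`).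
-/

set_option autoImplicit false

noncomputable section

namespace St16

open Matrix

/-- the concatenation of the tuples at the zero vertices -/
private def VD3c_cat {n : ℕ} : List (Cb (sysV n)) → List (Fin n → ℝ)
  | [] => []
  | c :: l => (c.l z0).v ++ VD3c_cat l

private theorem VD3c_len {n : ℕ} (l : List (Cb (sysV n))) :
    (VD3c_cat l).length = (l.map Cb.r).sum := by
  induction l with
  | nil => rfl
  | cons c l ih =>
    have hc : (c.l z0).v.length = c.r := c.l_mem z0
    show ((c.l z0).v ++ VD3c_cat l).length = ((c :: l).map Cb.r).sum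
    rw [List.length_append, hc, ih, List.map_cons, List.sum_cons]

private theorem VD3c_gm {n : ℕ} (l : List (Cb (sysV n))) :
    gm (⟨VD3c_cat l⟩ : Fr n) = (l.map wV).sum := by
  induction l with
  | nil => simp [gm, VD3c_cat]
  | cons c l ih =>
    show gm (⟨(c.l z0).v ++ VD3c_cat l⟩ : Fr n) = ((c :: l).map wV).sum
    rw [List.map_cons, List.sum_cons, ← ih]
    exact gm_append (c.l z0) ⟨VD3c_cat l⟩

private theorem VD3c_app {n : ℕ} (l l' : List (Cb (sysV n))) :
    VD3c_cat (l ++ l') = VD3c_cat l ++ VD3c_cat l' := by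
  induction l with
  | nil => rfl
  | cons c l ih =>
    show (c.l z0).v ++ VD3c_cat (l ++ l') = ((c.l z0).v ++ VD3c_cat l) ++ VD3c_cat l'
    rw [ih, List.append_assoc]

private theorem VD3c_orth {n : ℕ} (l : List (Cb (sysV n))) (hr : (l.map Cb.r).sum = n)
    (hw : (l.map wV).sum = 1) (c : Cb (sysV n)) (hc : c ∈ l) (s : ℕ → Bool) (i j : ℕ)
    (hi : i < (c.l s).v.length) (hj : j < (c.l s).v.length) :
    (c.l s).v[i] ⬝ᵥ (c.l s).v[j] = if i = j then 1 else 0 := by
  obtain ⟨l1, l2, rfl⟩ := List.append_of_mem hc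
  have hs : (c.l s).v.length = c.r := c.l_mem s
  have hlen : (VD3c_cat l1 ++ ((c.l s).v ++ VD3c_cat l2)).length = n := by
    rw [List.map_append, List.sum_append, List.map_cons, List.sum_cons] at hr
    rw [List.length_append, List.length_append, VD3c_len, VD3c_len, hs]
    exact hr
  have hgm : gm (⟨VD3c_cat l1 ++ ((c.l s).v ++ VD3c_cat l2)⟩ : Fr n) = 1 := by
    have h1 : gm (⟨VD3c_cat l1 ++ ((c.l s).v ++ VD3c_cat l2)⟩ : Fr n) =
        gm (⟨VD3c_cat l1⟩ : Fr n) + gm (⟨(c.l s).v ++ VD3c_cat l2⟩ : Fr n) :=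
      gm_append ⟨VD3c_cat l1⟩ ⟨(c.l s).v ++ VD3c_cat l2⟩
    have h2 : gm (⟨(c.l s).v ++ VD3c_cat l2⟩ : Fr n) = gm (c.l s) + gm (⟨VD3c_cat l2⟩ : Fr n) :=
      gm_append (c.l s) ⟨VD3c_cat l2⟩
    rw [h1, h2, VD3c_gm, VD3c_gm, wV_vertex, ← hw, List.map_append, List.sum_append, List.map_cons,
      List.sum_cons]
  have hlt : ∀ i : ℕ, i < (c.l s).v.length →
      (VD3c_cat l1).length + i < (VD3c_cat l1 ++ ((c.l s).v ++ VD3c_cat l2)).length := by
    intro i hi
    rw [List.length_append, List.length_append]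
    omega
  have hget : ∀ (i : ℕ) (hi : i < (c.l s).v.length),
      (VD3c_cat l1 ++ ((c.l s).v ++ VD3c_cat l2))[(VD3c_cat l1).length + i]'(hlt i hi) =
        (c.l s).v[i] := by
    intro i hi
    rw [List.getElem_append_right (Nat.le_add_right _ _)]
    simp only [Nat.add_sub_cancel_left]
    rw [List.getElem_append_left hi]
  have h := gm_one_orthonormal (⟨VD3c_cat l1 ++ ((c.l s).v ++ VD3c_cat l2)⟩ : Fr n) hlen hgm
    ((VD3c_cat l1).length + i) ((VD3c_cat l1).length + j) (hlt i hi) (hlt j hj)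
  rw [hget i hi, hget j hj] at h
  rw [h]
  simp only [Nat.add_left_cancel_iff]

private theorem VD3c_shV (r j : ℕ) : shV r (ee j : Vc ℝ) = ee (r + j) := by
  unfold shV ee
  rw [Finsupp.lmapDomain_apply, Finsupp.mapDomain_single]

private theorem VD3c_lift {n : ℕ} (l : List (Cb (sysV n))) :
    ∀ (A : Vc ℝ →ₗ[ℝ] (Fin n → ℝ)),
    (∀ c ∈ l, ∀ (s : ℕ → Bool) (i j : ℕ) (hi : i < (c.l s).v.length) (hj : j < (c.l s).v.length),
      (c.l s).v[i] ⬝ᵥ (c.l s).v[j] = if i = j then 1 else 0) →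
    (∀ (j : ℕ) (hj : j < (VD3c_cat l).length), A (ee j) = (VD3c_cat l)[j]) →
    ∃ L : List (Cb (sysO ℝ)), l = lamL A L := by
  induction l with
  | nil => exact fun A _ _ => ⟨[], rfl⟩
  | cons c l ih =>
    intro A ho hA
    have hlt : ∀ i : ℕ, i < (c.l z0).v.length → i < (VD3c_cat (c :: l)).length := by
      intro i hi
      show i < ((c.l z0).v ++ VD3c_cat l).length
      rw [List.length_append]
      omega
    obtain ⟨c', hc'⟩ := cube_lift c A (ho c List.mem_cons_self) (by
      intro j hj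
      rw [hA j (hlt j hj)]
      exact List.getElem_append_left hj)
    have hr : c'.r = (c.l z0).v.length := by
      have h1 : (c.l z0).v.length = c.r := c.l_mem z0
      rw [h1, ← hc']
      rfl
    obtain ⟨L, hL⟩ := ih (A ∘ₗ shV c'.r) (fun d hd => ho d (List.mem_cons_of_mem _ hd)) (by
      intro j hj
      rw [LinearMap.comp_apply, VD3c_shV, hr]
      have hlt2 : (c.l z0).v.length + j < (VD3c_cat (c :: l)).length := by
        show (c.l z0).v.length + j < ((c.l z0).v ++ VD3c_cat l).length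
        rw [List.length_append]
        omega
      rw [hA _ hlt2]
      show ((c.l z0).v ++ VD3c_cat l)[(c.l z0).v.length + j] = _
      rw [List.getElem_append_right (Nat.le_add_right _ _)]
      simp only [Nat.add_sub_cancel_left])
    refine ⟨c' :: L, ?_⟩
    show c :: l = lamC A c' :: lamL (A ∘ₗ shV c'.r) L
    rw [hc', ← hL]

theorem good_lift {n : ℕ} (l : List (Cb (sysV n))) (hr : (l.map Cb.r).sum = n)
    (hw : (l.map wV).sum = 1) :
    ∃ (g : OG n) (L : List (Cb (sysO ℝ))), (L.map Cb.r).sum = n ∧ l = lamL (AG g) L := by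
  have hlen : (VD3c_cat l).length = n := by rw [VD3c_len, hr]
  have hgm : gm (⟨VD3c_cat l⟩ : Fr n) = 1 := by rw [VD3c_gm, hw]
  have hlt : ∀ j : Fin n, (j : ℕ) < (VD3c_cat l).length := fun j => by rw [hlen]; exact j.2
  let M : Matrix (Fin n) (Fin n) ℝ := Matrix.of fun i j => ((VD3c_cat l)[(j : ℕ)]'(hlt j)) i
  have hM : Mᵀ * M = 1 := by
    ext i j
    rw [Matrix.mul_apply]
    have h := gm_one_orthonormal (⟨VD3c_cat l⟩ : Fr n) hlen hgm (i : ℕ) (j : ℕ) (hlt i) (hlt j)
    rw [Matrix.one_apply]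
    have h2 : (∑ k, Mᵀ i k * M k j) = (VD3c_cat l)[(i : ℕ)]'(hlt i) ⬝ᵥ (VD3c_cat l)[(j : ℕ)]'(hlt j) := rfl
    rw [h2, h]
    by_cases hij : i = j
    · rw [if_pos hij, if_pos (congrArg _ hij)]
    · rw [if_neg hij, if_neg fun h => hij (Fin.ext h)]
  have hg : M ∈ Matrix.orthogonalGroup (Fin n) ℝ := by
    rw [Matrix.mem_orthogonalGroup_iff']
    exact hM
  obtain ⟨L, hL⟩ := VD3c_lift l (AG ⟨M, hg⟩) (fun c hc s i j hi hj => VD3c_orth l hr hw c hc s i j hi hj) (by
    intro j hj
    have hjn : j < n := by rwa [hlen] at hj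
    show Matrix.toLin' M (tr n (ee j)) = _
    rw [Matrix.toLin'_apply]
    funext i
    have h3 : tr n (ee j : Vc ℝ) = Pi.single (⟨j, hjn⟩ : Fin n) (1 : ℝ) := by
      funext k
      show (Finsupp.single j (1 : ℝ)) (k : ℕ) = _
      rw [Finsupp.single_apply, Pi.single_apply]
      by_cases hk : k = ⟨j, hjn⟩
      · rw [if_pos hk, if_pos (by rw [hk])]
      · rw [if_neg hk, if_neg fun h => hk (Fin.ext h.symm)]
    rw [h3, Matrix.mulVec_single_one]
    rfl)
  refine ⟨⟨M, hg⟩, L, ?_, hL⟩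
  rw [← lamL_r (AG ⟨M, hg⟩) L, ← hL, hr]

end St16
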