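import Pool.Agent.LibSt16.HtL
import Pool.Agent.LibSt16.C

/-!
LibSt16/XhA (helper33): Th commutes with morphisms of degree 1; a homotopy with tau = 1 and L0 = L1 gives degenerate chains.
-/

set_option autoImplicit false

noncomputable section

namespace St16

section comp

variable {G P G' P' G'' P'' : Type} [Group G] [Preorder P] [MulAction G P] [Group G'] [Preorder P'] [MulAction G' P']
  [Group G''] [Preorder P''] [MulAction G'' P''] {S : Sys G P} {S' : Sys G' P'} {S'' : Sys G'' P''} {d : ℕ}

private theorem comp_ty (H : Hty S S' d) (f : SHom S' S'' 1) (g : Bool) (x : Cb S) (l : List (Cb S))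
    (s : ℕ → Bool) : (H.comp f).ty g x l s = f.fG (H.ty g x l s) := by
  have key : ∀ (g : Bool) (x : Cb S) (s : ℕ → Bool),
      (H.comp f).fG (x.y (fun i => s (1 + i))) * (if g && s 0 then (H.comp f).tau x.r else 1) =
      f.fG (H.fG (x.y (fun i => s (1 + i))) * (if g && s 0 then H.tau x.r else 1)) := by
    intro g x s
    rw [f.G_mul (d * x.r) _ _ (H.G_mem _ _ (x.y_mem _)) (H.ite_tau_mem _ _)]
    congr 1
    split_ifs
    · rfl
    · exact f.G_one.symm
  induction l generalizing g x s with
  | nil =>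
    unfold Hty.ty
    exact key g x s
  | cons x' l ih =>
    unfold Hty.ty
    rw [key, ih, f.G_sh (d * x.r) (d * Hty.lr x' l) _ _
      (mul_mem (H.G_mem _ _ (x.y_mem _)) (H.ite_tau_mem _ _)) (H.ty_mem _ _ _ _), one_mul]

private theorem comp_tl (H : Hty S S' d) (f : SHom S' S'' 1) (g : Bool) (x : Cb S) (l : List (Cb S))
    (s : ℕ → Bool) : (H.comp f).tl g x l s = f.fP (d * Hty.lr x l) (H.tl g x l s) := by
  have key : ∀ (g : Bool) (x : Cb S) (s : ℕ → Bool),
      (if g && s 0 then (H.comp f).L1 x.r else (H.comp f).L0 x.r) =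
      f.fP (d * x.r) (if g && s 0 then H.L1 x.r else H.L0 x.r) := by
    intro g x s
    split_ifs
    · rfl
    · rfl
  induction l generalizing g x s with
  | nil =>
    unfold Hty.tl Hty.lr
    exact key g x s
  | cons x' l ih =>
    unfold Hty.tl Hty.lr
    have h := f.P_jn (d * x.r) (d * Hty.lr x' l) _ _ (H.ite_L_mem (g && s 0) x.r)
      (H.tl_mem (g && s 0) x' l (fun i => s (1 + x.q + i)))
    rw [one_mul] at h
    rw [Nat.mul_add, h, key, ih]

private theorem comp_th (H : Hty S S' d) (f : SHom S' S'' 1) (x : Cb S) (l : List (Cb S)) :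
    (H.comp f).th x l = f.cb (H.th x l) := by
  refine Cb.ext' ?_ rfl (fun s => comp_ty H f true x l s) (fun s => comp_tl H f true x l s)
  show d * Hty.lr x l = 1 * (d * Hty.lr x l)
  rw [one_mul]

private theorem comp_phi0 (H : Hty S S' d) (f : SHom S' S'' 1) (c : Cb S) :
    (H.comp f).phi0.cb c = f.cb (H.phi0.cb c) := by
  refine Cb.ext' ?_ rfl (fun s => rfl) (fun s => rfl)
  show d * c.r = 1 * (d * c.r)
  rw [one_mul]

private theorem comp_phi1 (H : Hty S S' d) (f : SHom S' S'' 1) (c : Cb S) :
    (H.comp f).phi1.cb c = f.cb (H.phi1.cb c) := by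
  refine Cb.ext' ?_ rfl (fun s => rfl) (fun s => ?_)
  · show d * c.r = 1 * (d * c.r)
    rw [one_mul]
  · show (f.fG (H.tau c.r))⁻¹ • f.fP (d * c.r) (H.L1 c.r) = f.fP (d * c.r) ((H.tau c.r)⁻¹ • H.L1 c.r)
    rw [f.P_smul (d * c.r) _ _ (inv_mem (H.tau_mem c.r)) (H.L1_mem c.r), f.G_inv _ _ (H.tau_mem c.r)]

private theorem comp_Th1 (H : Hty S S' d) (f : SHom S' S'' 1) (l : List (Cb S)) :
    (H.comp f).Th1 l = f.bt (H.Th1 l) := by
  induction l with
  | nil => exact (map_zero f.bt).symm
  | cons x l ih =>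
    unfold Hty.Th1
    rw [map_add, map_smul]
    congr 1
    · unfold Hty.pre
      rw [map_sum]
      refine Finset.sum_congr rfl fun k _ => ?_
      rw [f.bt_single, List.map_cons, comp_th, List.map_map]
      congr 2
      refine List.map_congr_left fun c _ => ?_
      exact comp_phi0 H f c
    · congr 1
      rw [ih, comp_phi1]
      exact (f.bt_consC _ _).symm

/-- `Th` commutes with morphisms of degree 1 -/
theorem comp_Th (H : Hty S S' d) (f : SHom S' S'' 1) (w : BT S) : (H.comp f).Th w = f.bt (H.Th w) := by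
  induction w using Finsupp.induction_linear with
  | zero => rw [map_zero, map_zero, map_zero]
  | add u v hu hv => rw [map_add, map_add, map_add, hu, hv]
  | single l a =>
    unfold Hty.Th
    rw [Finsupp.linearCombination_single, Finsupp.linearCombination_single, map_smul, comp_Th1]

end comp

section triv

variable {G P G' P' : Type} [Group G] [Preorder P] [MulAction G P] [Group G'] [Preorder P'] [MulAction G' P']
  {S : Sys G P} {S' : Sys G' P'} {d : ℕ}

private theorem triv_ty (H : Hty S S' d) (h1 : ∀ n, H.tau n = 1) (g g' : Bool) (x : Cb S) (l : List (Cb S))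
    (s s' : ℕ → Bool) (hs : ∀ i, i ≠ 0 → s i = s' i) : H.ty g x l s = H.ty g' x l s' := by
  induction l generalizing g g' x s s' with
  | nil =>
    unfold Hty.ty
    have e : (fun i => s (1 + i)) = (fun i => s' (1 + i)) := by funext i; exact hs _ (by omega)
    rw [e, h1, ite_self, ite_self]
  | cons x' l ih =>
    unfold Hty.ty
    have e : (fun i => s (1 + i)) = (fun i => s' (1 + i)) := by funext i; exact hs _ (by omega)
    rw [e, h1, ite_self, ite_self, ih (g && s 0) (g' && s' 0) x' (fun i => s (1 + x.q + i))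
      (fun i => s' (1 + x.q + i)) fun i _ => hs _ (by omega)]

private theorem triv_tl (H : Hty S S' d) (h2 : ∀ n, H.L0 n = H.L1 n) (g g' : Bool) (x : Cb S) (l : List (Cb S))
    (s s' : ℕ → Bool) (hs : ∀ i, i ≠ 0 → s i = s' i) : H.tl g x l s = H.tl g' x l s' := by
  induction l generalizing g g' x s s' with
  | nil =>
    unfold Hty.tl
    rw [h2, ite_self, ite_self]
  | cons x' l ih =>
    unfold Hty.tl
    rw [h2, ite_self, ite_self, ih (g && s 0) (g' && s' 0) x' (fun i => s (1 + x.q + i))
      (fun i => s' (1 + x.q + i)) fun i _ => hs _ (by omega)]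

private theorem lq_pos (x : Cb S) (l : List (Cb S)) : 0 < Hty.lq x l := by
  cases l with
  | nil => unfold Hty.lq; omega
  | cons x' l => unfold Hty.lq; omega

private theorem triv_th (H : Hty S S' d) (h1 : ∀ n, H.tau n = 1) (h2 : ∀ n, H.L0 n = H.L1 n) (x : Cb S)
    (l : List (Cb S)) : (H.th x l).Dg :=
  ⟨0, lq_pos x l, fun s s' hs => ⟨triv_ty H h1 true true x l s s' hs, triv_tl H h2 true true x l s s' hs⟩⟩

private theorem triv_Th1 (H : Hty S S' d) (h1 : ∀ n, H.tau n = 1) (h2 : ∀ n, H.L0 n = H.L1 n)
    (l : List (Cb S)) : H.Th1 l ∈ DegB S' := by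
  induction l with
  | nil => exact zero_mem _
  | cons x l ih =>
    unfold Hty.Th1
    refine add_mem ?_ (Submodule.smul_mem _ _ ?_)
    · unfold Hty.pre
      exact sum_mem fun k _ => single_mem_DegB ⟨_, List.mem_cons_self, triv_th H h1 h2 _ _⟩ _
    · exact consC_DegB _ _ ih

/-- a homotopy which does not move gives degenerate chains -/
theorem Th_trivial (H : Hty S S' d) (h1 : ∀ n, H.tau n = 1) (h2 : ∀ n, H.L0 n = H.L1 n) (w : BT S) :
    H.Th w ∈ DegB S' := by
  induction w using Finsupp.induction_linear with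
  | zero => rw [map_zero]; exact zero_mem _
  | add u v hu hv => rw [map_add]; exact add_mem hu hv
  | single l a =>
    unfold Hty.Th
    rw [Finsupp.linearCombination_single]
    exact Submodule.smul_mem _ _ (triv_Th1 H h1 h2 l)

end triv

end St16
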